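import Pool.Agent.P.MP_7a6434d8_pr.Defs

namespace Pool.Agent.P.MP_7a6434d8_pr

open Mp Finset
open scoped ENNReal

theorem asymp_inner (P : ℕ → ℝ → ℝ → Prop)
    (mono : ∀ {l l' : ℕ} {ρ ρ' ε ε' : ℝ}, l' ≤ l → ρ ≤ ρ' → ε ≤ ε' → P l ρ ε → P l' ρ' ε')
    (triv : ∀ (l : ℕ) (ρ : ℝ), P l ρ 1) (l : ℕ) (a τ θ e : ℝ) (ha : 0 ≤ a) (hτ : 0 ≤ τ)
    (hθ0 : 0 ≤ θ) (hθ : θ ≤ 1 / 2) (he : 0 ≤ e)
    (step : ∀ T β : ℝ, 0 < T → 0 ≤ β → P l T β → P l (a * T + τ) (θ * β + e)) (j : ℕ) :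
    P l ((a + 1) ^ j * (τ + 1)) (θ ^ j + 2 * e) := by
  induction j with
  | zero => exact mono le_rfl (by simp) (by simp; linarith) (triv l (τ + 1))
  | succ j ih =>
    have h1 : (1 : ℝ) ≤ (a + 1) ^ j := one_le_pow₀ (by linarith)
    have h2 : τ + 1 ≤ (a + 1) ^ j * (τ + 1) := le_mul_of_one_le_left (by linarith) h1
    refine mono le_rfl ?_ ?_ (step _ _ (by linarith) (by positivity) ih)
    · rw [pow_succ]; nlinarith
    · rw [pow_succ]; nlinarith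

theorem asymp_ev (c : ℝ) (k : ℕ) : ∀ᶠ g : ℕ in Filter.atTop, c * (g : ℝ) ^ k ≤ 2 ^ g := by
  have h := (tendsto_pow_const_div_const_pow_of_one_lt k (one_lt_two (α := ℝ))).const_mul c
  rw [mul_zero] at h
  filter_upwards [h.eventually (gt_mem_nhds one_pos)] with g hg
  rw [← mul_div_assoc, div_lt_one (by positivity)] at hg
  exact hg.le

theorem asymp_exp (δ G : ℝ) (hδ : 0 < δ) (m : ℕ) (hm : 1 ≤ m) (hG : 1 ≤ G)
    (h : (m.factorial : ℝ) / δ ^ m ≤ G) : Real.exp (-(δ * G ^ 2)) ≤ 1 / G ^ m := by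
  have h1 := Real.pow_div_factorial_le_exp (δ * G ^ 2) (by positivity) m
  have h2 : G ≤ G ^ m := le_self_pow₀ hG (by omega)
  have h3 : (0 : ℝ) < m.factorial := by exact_mod_cast m.factorial_pos
  have h4 : (m.factorial : ℝ) ≤ δ ^ m * G ^ m := by
    rw [div_le_iff₀ (by positivity)] at h
    calc (m.factorial : ℝ) ≤ G * δ ^ m := h
      _ ≤ G ^ m * δ ^ m := by gcongr
      _ = _ := mul_comm _ _
  have h5 : G ^ m ≤ (δ * G ^ 2) ^ m / m.factorial := by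
    rw [le_div_iff₀ h3, mul_pow, ← pow_mul, two_mul, pow_add]
    calc G ^ m * (m.factorial : ℝ) ≤ G ^ m * (δ ^ m * G ^ m) := by gcongr
      _ = _ := by ring
  rw [Real.exp_neg, one_div]
  exact inv_anti₀ (by positivity) (h5.trans h1)

theorem asymp_outer (P : ℕ → ℝ → ℝ → Prop) (C δ : ℝ) (hC : 0 < C)
    (mono : ∀ {l l' : ℕ} {ρ ρ' ε ε' : ℝ}, l' ≤ l → ρ ≤ ρ' → ε ≤ ε' → P l ρ ε → P l' ρ' ε')
    (base : ∀ l : ℕ, P l ((l : ℝ) + 1) 0) (triv : ∀ (l : ℕ) (ρ : ℝ), P l ρ 1)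
    (step : ∀ (G M lam R : ℕ) (ρ ε T β : ℝ), 1 ≤ G →
      C * (G : ℝ) ^ 2 ≤ lam → 1 ≤ M → 8 * M ≤ 2 ^ R → 0 ≤ ρ → 0 ≤ ε → 0 < T → 0 ≤ β →
      P lam ρ ε → P (M * lam) T β →
      P (M * lam)
        (2 * R * (2 * T + 1 + (G : ℝ) ^ 8 * (13 * (G : ℝ) ^ 2 * M + ρ + 3)) + 2 * ρ)
        (2 * R * (Real.exp (-(δ * (G : ℝ) ^ 2)) + C * β / G
          + C * (G : ℝ) ^ 12 * ((M : ℝ) * lam) ^ 2 * lam * ε) + (2 * lam + 2) * ε))
    (G R N B : ℕ) (hN : 3 ≤ N) (hG : 2 ≤ G) (h1 : C ≤ G) (h2 : 8 * G ^ N ≤ 2 ^ R)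
    (h3 : (2 * R * C) ^ 2 ≤ G) (h3' : 4 * R * C ≤ G)
    (h4 : (4 * (R : ℝ) + 1) ^ (2 * B) * (36 * R + 3) ≤ G)
    (h5 : Real.exp (-(δ * (G : ℝ) ^ 2)) ≤ 1 / (G : ℝ) ^ (B + 1)) (i : ℕ) (hi : i + 1 ≤ N) :
    P (G ^ (N * (i + 1))) ((G : ℝ) ^ (N + 9 * (i + 1)))
      ((G : ℝ) ^ ((3 * N ^ 2 + 15) * (i + 1)) / (G : ℝ) ^ B) := by
  have hG2 : (2 : ℝ) ≤ G := by exact_mod_cast hG
  have hG1 : (1 : ℝ) ≤ G := by linarith
  have hG0 : (0 : ℝ) < G := by linarith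
  have hR0 : (0 : ℝ) ≤ R := Nat.cast_nonneg R
  induction i with
  | zero =>
    refine mono le_rfl ?_ (by positivity) (base _)
    push_cast
    have a1 : (1 : ℝ) ≤ (G : ℝ) ^ N := one_le_pow₀ hG1
    have a2 : (G : ℝ) ≤ (G : ℝ) ^ 9 := le_self_pow₀ hG1 (by norm_num)
    rw [mul_one, pow_add]
    nlinarith
  | succ i ih =>
    have ih := ih (by omega)
    set lam := G ^ (N * (i + 1)) with hlam
    set ρ := (G : ℝ) ^ (N + 9 * (i + 1)) with hρ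
    set ε := (G : ℝ) ^ ((3 * N ^ 2 + 15) * (i + 1)) / (G : ℝ) ^ B with hε
    have hρ0 : 0 < ρ := by positivity
    have hε0 : 0 < ε := by positivity
    have hlamR : (lam : ℝ) = (G : ℝ) ^ (N * (i + 1)) := by rw [hlam]; push_cast; rfl
    have hl0 : (0 : ℝ) ≤ lam := Nat.cast_nonneg _
    have hCl : C * (G : ℝ) ^ 2 ≤ lam := by
      rw [hlamR]
      calc C * (G : ℝ) ^ 2 ≤ G * (G : ℝ) ^ 2 := by gcongr
        _ = (G : ℝ) ^ 3 := by ring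
        _ ≤ _ := pow_le_pow_right₀ hG1 (by nlinarith)
    have hM : 1 ≤ G ^ N := Nat.one_le_pow _ _ (by omega)
    have key := asymp_inner P mono triv (G ^ N * lam) (4 * R)
      (2 * R * (1 + (G : ℝ) ^ 8 * (13 * (G : ℝ) ^ 2 * (G ^ N : ℕ) + ρ + 3)) + 2 * ρ)
      (2 * R * C / G)
      (2 * R * (Real.exp (-(δ * (G : ℝ) ^ 2))
          + C * (G : ℝ) ^ 12 * (((G ^ N : ℕ) : ℝ) * lam) ^ 2 * lam * ε) + (2 * lam + 2) * ε)
      (by positivity) (by positivity) (by positivity)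
      (by rw [div_le_iff₀ hG0]; linarith) (by positivity)
      (fun T β hT hβ hP => by
        have := step G (G ^ N) lam R ρ ε T β (by omega) hCl hM h2 hρ0.le hε0.le hT hβ ih hP
        convert this using 1
        · ring
        · ring) (2 * B)
    have hl : G ^ N * lam = G ^ (N * (i + 1 + 1)) := by rw [hlam, ← pow_add]; congr 1; ring
    rw [hl] at key
    refine mono le_rfl ?_ ?_ key
    · have b1 : (G : ℝ) ^ 2 * ((G ^ N : ℕ) : ℝ) ≤ ρ := by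
        push_cast
        rw [← pow_add]
        exact pow_le_pow_right₀ hG1 (by omega)
      have b2 : 1 ≤ ρ := one_le_pow₀ hG1
      have b3 : (1 : ℝ) ≤ (G : ℝ) ^ 8 := one_le_pow₀ hG1
      have b4 : ρ ≤ (G : ℝ) ^ 8 * ρ := le_mul_of_one_le_left hρ0.le b3
      have b5 : 1 + (G : ℝ) ^ 8 * (13 * (G : ℝ) ^ 2 * (G ^ N : ℕ) + ρ + 3)
          ≤ 18 * ((G : ℝ) ^ 8 * ρ) := by
        have : (G : ℝ) ^ 8 * (13 * (G : ℝ) ^ 2 * (G ^ N : ℕ) + ρ + 3) ≤ (G : ℝ) ^ 8 * (17 * ρ) := by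
          gcongr; linarith
        linarith
      have b6 : 2 * R * (1 + (G : ℝ) ^ 8 * (13 * (G : ℝ) ^ 2 * (G ^ N : ℕ) + ρ + 3)) + 2 * ρ + 1
          ≤ (36 * R + 3) * ((G : ℝ) ^ 8 * ρ) := by
        have := mul_le_mul_of_nonneg_left b5 (by positivity : (0 : ℝ) ≤ 2 * R)
        linarith
      calc _ ≤ (4 * (R : ℝ) + 1) ^ (2 * B) * ((36 * R + 3) * ((G : ℝ) ^ 8 * ρ)) := by gcongr
        _ = (4 * (R : ℝ) + 1) ^ (2 * B) * (36 * R + 3) * ((G : ℝ) ^ 8 * ρ) := by ring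
        _ ≤ G * ((G : ℝ) ^ 8 * ρ) := by gcongr
        _ = _ := by rw [hρ]; ring
    · set S := (G : ℝ) ^ (N ^ 2) with hS
      have hS1 : 1 ≤ S := one_le_pow₀ hG1
      have c0 : 1 / (G : ℝ) ^ B ≤ ε := by
        rw [hε]; gcongr; exact one_le_pow₀ hG1
      have c1 : (2 * R * C / G) ^ (2 * B) ≤ ε := by
        refine le_trans ?_ c0
        rw [pow_mul, ← one_div_pow]
        gcongr
        rw [div_pow, div_le_div_iff₀ (by positivity) hG0]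
        nlinarith
      have c2 : 4 * (R : ℝ) ≤ G := by
        have : (1 : ℝ) ≤ (4 * (R : ℝ) + 1) ^ (2 * B) := one_le_pow₀ (by linarith)
        nlinarith
      have c3 : 4 * R * Real.exp (-(δ * (G : ℝ) ^ 2)) ≤ ε := by
        refine le_trans ?_ c0
        calc _ ≤ G * (1 / (G : ℝ) ^ (B + 1)) := by gcongr
          _ = _ := by rw [pow_succ]; field_simp
      have c4 : (lam : ℝ) ≤ S := by
        rw [hlamR]; exact pow_le_pow_right₀ hG1 (by nlinarith)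
      have c5 : ((G ^ N : ℕ) : ℝ) * lam ≤ S := by
        rw [← Nat.cast_mul, hl]; push_cast
        exact pow_le_pow_right₀ hG1 (by nlinarith)
      have c6 : 4 * R * C * (G : ℝ) ^ 12 * (((G ^ N : ℕ) : ℝ) * lam) ^ 2 * lam
          ≤ (G : ℝ) ^ 13 * S ^ 3 := by
        calc _ ≤ G * (G : ℝ) ^ 12 * S ^ 2 * S := by gcongr
          _ = _ := by ring
      have c7 : (8 : ℝ) ≤ (G : ℝ) ^ 13 := by
        calc (8 : ℝ) ≤ 2 ^ 13 := by norm_num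
          _ ≤ _ := by gcongr
      have c8 : S ≤ S ^ 3 := le_self_pow₀ hS1 (by norm_num)
      have c9 : 8 * S ≤ (G : ℝ) ^ 13 * S ^ 3 := by gcongr
      have c10 : 4 * ((G : ℝ) ^ 13 * S ^ 3) ≤ (G : ℝ) ^ (3 * N ^ 2 + 15) := by
        have : (4 : ℝ) ≤ (G : ℝ) ^ 2 := by nlinarith
        calc _ ≤ (G : ℝ) ^ 2 * ((G : ℝ) ^ 13 * S ^ 3) := by gcongr
          _ = _ := by rw [hS]; ring
      have c11 : (G : ℝ) ^ ((3 * N ^ 2 + 15) * (i + 1 + 1)) / (G : ℝ) ^ B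
          = (G : ℝ) ^ (3 * N ^ 2 + 15) * ε := by
        rw [hε, ← mul_div_assoc, ← pow_add]; congr 2; ring
      rw [c11]
      set W := (G : ℝ) ^ 13 * S ^ 3 with hW
      have d1 := mul_le_mul_of_nonneg_right c6 hε0.le
      have d2 := mul_le_mul_of_nonneg_right c10 hε0.le
      have d3 : (4 * (lam : ℝ) + 4) * ε ≤ W * ε := by gcongr; linarith
      have d4 : 1 * ε ≤ W * ε := by gcongr; linarith
      linarith

theorem asymp (P : ℕ → ℝ → ℝ → Prop) (C δ : ℝ) (hC : 0 < C) (hδ : 0 < δ)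
    (mono : ∀ {l l' : ℕ} {ρ ρ' ε ε' : ℝ}, l' ≤ l → ρ ≤ ρ' → ε ≤ ε' → P l ρ ε → P l' ρ' ε')
    (base : ∀ l : ℕ, P l ((l : ℝ) + 1) 0) (triv : ∀ (l : ℕ) (ρ : ℝ), P l ρ 1)
    (step : ∀ (G M lam R : ℕ) (ρ ε T β : ℝ), 1 ≤ G →
      C * (G : ℝ) ^ 2 ≤ lam → 1 ≤ M → 8 * M ≤ 2 ^ R → 0 ≤ ρ → 0 ≤ ε → 0 < T → 0 ≤ β →
      P lam ρ ε → P (M * lam) T β →
      P (M * lam)
        (2 * R * (2 * T + 1 + (G : ℝ) ^ 8 * (13 * (G : ℝ) ^ 2 * M + ρ + 3)) + 2 * ρ)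
        (2 * R * (Real.exp (-(δ * (G : ℝ) ^ 2)) + C * β / G
          + C * (G : ℝ) ^ 12 * ((M : ℝ) * lam) ^ 2 * lam * ε) + (2 * lam + 2) * ε))
    (η : ℝ) (hη : 0 < η) (K : ℕ) :
    ∃ n0 : ℕ, ∀ n : ℕ, n0 ≤ n → P (n + 5) ((n : ℝ) ^ η) (1 / (n : ℝ) ^ K) := by
  obtain ⟨N', hN'⟩ := exists_nat_ge (20 / η)
  obtain ⟨i, hi1, hi2⟩ : ∃ i : ℕ, 3 ≤ i + 1 ∧ N' ≤ i + 1 := ⟨N' + 2, by omega, by omega⟩
  set N := i + 1 with hN
  have hNη : 20 ≤ η * N := by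
    rw [div_le_iff₀ hη] at hN'
    have : (N' : ℝ) ≤ N := by exact_mod_cast hi2
    nlinarith
  obtain ⟨B, hB⟩ : ∃ B, B = K * N ^ 2 + (3 * N ^ 2 + 15) * N := ⟨_, rfl⟩
  have e1 := asymp_ev C 0
  have e2 := asymp_ev ((2 * (N + 3) * C) ^ 2) 2
  have e3 := asymp_ev (4 * (N + 3) * C) 1
  have e4 := asymp_ev ((4 * (N : ℝ) + 13) ^ (2 * B) * (36 * N + 111)) (2 * B + 1)
  have e5 := asymp_ev (((B + 1).factorial : ℝ) / δ ^ (B + 1)) 0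
  obtain ⟨g0, hg0⟩ := Filter.eventually_atTop.1
    (e1.and (e2.and (e3.and (e4.and (e5.and (Filter.eventually_ge_atTop 1))))))
  have hb : 1 < 2 ^ (N ^ 2) := Nat.one_lt_two_pow (by positivity)
  refine ⟨(2 ^ (N ^ 2)) ^ g0 + 6 * 2 ^ (N ^ 2), fun n hn => ?_⟩
  obtain ⟨g, f1, f2⟩ : ∃ g : ℕ, n + 5 ≤ (2 ^ (N ^ 2)) ^ g ∧ (2 ^ (N ^ 2)) ^ g.pred < n + 5 :=
    ⟨_, Nat.le_pow_clog hb _, Nat.pow_pred_clog_lt_self hb (by omega)⟩
  have f3 : g0 ≤ g := by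
    have : (2 ^ (N ^ 2)) ^ g0 ≤ (2 ^ (N ^ 2)) ^ g := by omega
    exact (Nat.pow_le_pow_iff_right hb).1 this
  obtain ⟨a1, a2, a3, a4, a5, a6⟩ := hg0 g f3
  have hn1 : 1 ≤ n := by omega
  have f4 : (2 ^ g) ^ (N * N) = (2 ^ (N ^ 2)) ^ g := by
    rw [← pow_mul, ← pow_mul]; congr 1; ring
  have f5 : (2 ^ g) ^ (N * N) ≤ n ^ 2 := by
    have : g = g.pred + 1 := by rw [Nat.pred_eq_sub_one]; omega
    rw [f4, this, pow_succ]
    calc _ ≤ (6 * n) * 2 ^ (N ^ 2) := Nat.mul_le_mul_right _ (by omega)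
      _ = n * (6 * 2 ^ (N ^ 2)) := by ring
      _ ≤ n * n := Nat.mul_le_mul_left _ (by omega)
      _ = _ := by ring
  have hg1 : (1 : ℝ) ≤ g := by exact_mod_cast a6
  have hN0 : (0 : ℝ) ≤ N := Nat.cast_nonneg _
  have hGc : ((2 ^ g : ℕ) : ℝ) = 2 ^ g := by push_cast; rfl
  have hR : ((g * N + 3 : ℕ) : ℝ) ≤ (N + 3) * g := by push_cast; nlinarith
  have hG2 : 2 ≤ 2 ^ g := by
    calc 2 = 2 ^ 1 := rfl
      _ ≤ 2 ^ g := Nat.pow_le_pow_right (by norm_num) a6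
  have hG1 : (1 : ℝ) ≤ ((2 ^ g : ℕ) : ℝ) := by exact_mod_cast (by omega : 1 ≤ 2 ^ g)
  have key := asymp_outer P C δ hC mono base triv step (2 ^ g) (g * N + 3) N B hi1 hG2
    (by rw [hGc]; rwa [pow_zero, mul_one] at a1)
    (by rw [← pow_mul, pow_add]; omega)
    (by
      rw [hGc]
      refine le_trans ?_ a2
      calc _ ≤ (2 * ((N + 3) * (g : ℝ)) * C) ^ 2 := by gcongr
        _ = _ := by ring)
    (by
      rw [hGc]
      refine le_trans ?_ a3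
      calc _ ≤ 4 * ((N + 3) * (g : ℝ)) * C := by gcongr
        _ = _ := by ring)
    (by
      rw [hGc]
      refine le_trans ?_ a4
      calc _ ≤ ((4 * N + 13) * (g : ℝ)) ^ (2 * B) * ((36 * N + 111) * g) := by
            gcongr <;> nlinarith
        _ = _ := by rw [mul_pow, pow_succ]; ring)
    (asymp_exp δ _ hδ (B + 1) (by omega) hG1 (by rw [hGc]; rwa [pow_zero, mul_one] at a5)) i le_rfl
  rw [← hN] at key
  set G : ℕ := 2 ^ g with hG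
  have hn1' : (1 : ℝ) ≤ n := by exact_mod_cast hn1
  refine mono (by rw [f4]; exact f1) ?_ ?_ key
  · refine le_of_pow_le_pow_left₀ (n := N) (by omega) (by positivity) ?_
    have f6 : (G : ℝ) ^ (N * N) ≤ (n : ℝ) ^ 2 := by exact_mod_cast f5
    calc ((G : ℝ) ^ (N + 9 * N)) ^ N = ((G : ℝ) ^ (N * N)) ^ 10 := by
          rw [← pow_mul, ← pow_mul]; congr 1; ring
      _ ≤ ((n : ℝ) ^ 2) ^ 10 := by gcongr
      _ = (n : ℝ) ^ (20 : ℝ) := by rw [← pow_mul]; norm_num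
      _ ≤ (n : ℝ) ^ (η * N) := Real.rpow_le_rpow_of_exponent_le hn1' hNη
      _ = _ := by rw [Real.rpow_mul (by linarith), Real.rpow_natCast]
  · have f7 : (n : ℝ) ≤ (G : ℝ) ^ (N * N) := by
      have : n ≤ G ^ (N * N) := by rw [f4]; omega
      exact_mod_cast this
    have f8 : (G : ℝ) ^ B = ((G : ℝ) ^ (N * N)) ^ K * (G : ℝ) ^ ((3 * N ^ 2 + 15) * N) := by
      rw [← pow_mul, ← pow_add, hB]; congr 1; ring
    rw [f8, div_le_div_iff₀ (by positivity) (by positivity), one_mul, mul_comm]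
    gcongr

end Pool.Agent.P.MP_7a6434d8_pr
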