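import Pool.Agent.P.MP_7a6434d8_pr.Defs

namespace Pool.Agent.P.MP_7a6434d8_pr

open Mp Finset
open scoped ENNReal

theorem eq_pt_of_per_zero (t : Mp) (ht : ok t) (h : per t = 0) : t = pt := by
  cases t with
  | pt => rfl
  | face t =>
    have h2 : 2 ≤ per t := ht.2
    simp only [per] at h
    omega
  | bridge a b => simp [per] at h

theorem bv_end (t : Mp) (ht : ok t) : bv t (2 * per t) = bv t 0 := by
  induction t with
  | pt => rfl
  | face t ih =>
    have h2 : 2 ≤ per t := ht.2
    have e : 2 * (per t - 1) + 2 = 2 * per t := by omega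
    have h0 : 2 * (per t - 1) ≠ 0 := by omega
    simp only [bv, per, h0, if_false, if_true, e]
    exact ih ht.1
  | bridge a b iha _ =>
    have h0 : 2 * (per a + per b + 1) ≠ 0 := by omega
    have h1 : ¬ 2 * (per a + per b + 1) ≤ 2 * per b + 1 := by omega
    have e : 2 * (per a + per b + 1) - 2 * per b - 2 = 2 * per a := by omega
    simp only [bv, per, h0, h1, if_false, if_true, e]
    rw [iha ht.1]

theorem energy_nonneg (t : Mp) (f : V t → ℝ) : 0 ≤ energy t f := by
  induction t with
  | pt => exact le_rfl
  | face t ih => exact add_nonneg (ih f) (sq_nonneg _)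
  | bridge a b iha ihb => exact add_nonneg (add_nonneg (iha _) (ihb _)) (sq_nonneg _)

theorem adj_symm (t : Mp) (x y : V t) (h : adj t x y) : adj t y x := by
  induction t with
  | pt => exact h
  | face t ih =>
    rcases h with h | h | h
    · exact Or.inl (ih x y h)
    · exact Or.inr (Or.inr ⟨h.2, h.1⟩)
    · exact Or.inr (Or.inl ⟨h.2, h.1⟩)
  | bridge a b iha ihb =>
    rcases x with x | x <;> rcases y with y | y
    · exact iha x y h
    · exact ⟨h.2, h.1⟩
    · exact ⟨h.2, h.1⟩
    · exact ihb x y h

theorem adj_bv (t : Mp) (ht : ok t) (p : ℕ) (hp : p < 2 * per t) :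
    adj t (bv t p) (bv t (p + 1)) := by
  induction t generalizing p with
  | pt => simp [per] at hp
  | face t ih =>
    have h2 : 2 ≤ per t := ht.2
    simp only [per] at hp
    by_cases h0 : p = 0
    · subst h0
      exact Or.inr (Or.inl ⟨rfl, rfl⟩)
    · have h1 : p + 1 ≠ 0 := by omega
      simp only [bv, h0, h1, if_false]
      exact Or.inl (ih ht.1 (p + 2) (by omega))
  | bridge a b iha ihb =>
    simp only [per] at hp
    have h1 : p + 1 ≠ 0 := by omega
    by_cases h0 : p = 0
    · subst h0
      have h3 : 0 + 1 ≤ 2 * per b + 1 := by omega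
      simp only [bv, h1, h3, if_false, if_true]
      exact ⟨rfl, rfl⟩
    · rcases lt_trichotomy p (2 * per b + 1) with h | h | h
      · have h3 : p + 1 ≤ 2 * per b + 1 := h
        have e : p + 1 - 1 = p - 1 + 1 := by omega
        simp only [bv, h0, h1, h3, h.le, if_false, if_true, e]
        exact ihb ht.2 (p - 1) (by omega)
      · have h3 : ¬ p + 1 ≤ 2 * per b + 1 := by omega
        have e1 : p - 1 = 2 * per b := by omega
        have e2 : p + 1 - 2 * per b - 2 = 0 := by omega
        simp only [bv, h0, h1, h3, h.le, if_false, if_true, e1, e2]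
        exact ⟨bv_end b ht.2, rfl⟩
      · have h3 : ¬ p + 1 ≤ 2 * per b + 1 := by omega
        have h4 : ¬ p ≤ 2 * per b + 1 := by omega
        have e : p + 1 - 2 * per b - 2 = p - 2 * per b - 2 + 1 := by omega
        simp only [bv, h0, h1, h3, h4, if_false, e]
        exact iha ht.1 _ (by omega)

theorem sq_le_energy (t : Mp) (f : V t → ℝ) (x y : V t) (h : adj t x y) :
    (f x - f y) ^ 2 ≤ energy t f := by
  induction t with
  | pt => exact h.elim
  | face t ih =>
    have h0 := energy_nonneg t f
    rcases h with h | h | h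
    · exact (ih f x y h).trans (le_add_of_nonneg_right (sq_nonneg _))
    · rw [h.1, h.2]
      exact le_add_of_nonneg_left h0
    · rw [h.1, h.2, sub_sq_comm]
      exact le_add_of_nonneg_left h0
  | bridge a b iha ihb =>
    have ha := energy_nonneg a fun x => f (Sum.inl x)
    have hb := energy_nonneg b fun x => f (Sum.inr x)
    rcases x with x | x <;> rcases y with y | y
    · exact ((iha (fun x => f (Sum.inl x)) x y h).trans (le_add_of_nonneg_right hb)).trans
        (le_add_of_nonneg_right (sq_nonneg _))
    · rw [h.1, h.2]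
      exact le_add_of_nonneg_left (add_nonneg ha hb)
    · rw [h.1, h.2, sub_sq_comm]
      exact le_add_of_nonneg_left (add_nonneg ha hb)
    · exact ((ihb (fun x => f (Sum.inr x)) x y h).trans (le_add_of_nonneg_left ha)).trans
        (le_add_of_nonneg_right (sq_nonneg _))

theorem energy_le_of_adj (t : Mp) (f g : V t → ℝ)
    (h : ∀ x y, adj t x y → (g x - g y) ^ 2 ≤ (f x - f y) ^ 2) : energy t g ≤ energy t f := by
  induction t with
  | pt => exact le_rfl
  | face t ih =>
    exact add_le_add (ih f g fun x y hxy => h x y (Or.inl hxy))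
      (h _ _ (Or.inr (Or.inl ⟨rfl, rfl⟩)))
  | bridge a b iha ihb =>
    exact add_le_add (add_le_add (iha _ _ fun x y hxy => h (Sum.inl x) (Sum.inl y) hxy)
      (ihb _ _ fun x y hxy => h (Sum.inr x) (Sum.inr y) hxy))
      (h (Sum.inl _) (Sum.inr _) ⟨rfl, rfl⟩)

theorem energy_le_add (t : Mp) (f f' g : V t → ℝ)
    (h : ∀ x y, adj t x y → (g x - g y) ^ 2 ≤ (f x - f y) ^ 2 + (f' x - f' y) ^ 2) :
    energy t g ≤ energy t f + energy t f' := by
  induction t with
  | pt => exact (add_zero (0 : ℝ)).ge
  | face t ih =>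
    have h1 := ih f f' g fun x y hxy => h x y (Or.inl hxy)
    have h2 := h _ _ (Or.inr (Or.inl ⟨rfl, rfl⟩))
    exact (add_le_add h1 h2).trans (add_add_add_comm _ _ _ _).le
  | bridge a b iha ihb =>
    have h1 := iha (fun x => f (Sum.inl x)) (fun x => f' (Sum.inl x)) (fun x => g (Sum.inl x))
      fun x y hxy => h (Sum.inl x) (Sum.inl y) hxy
    have h2 := ihb (fun x => f (Sum.inr x)) (fun x => f' (Sum.inr x)) (fun x => g (Sum.inr x))
      fun x y hxy => h (Sum.inr x) (Sum.inr y) hxy
    have h3 := h (Sum.inl _) (Sum.inr _) ⟨rfl, rfl⟩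
    simp only [energy]
    linarith

theorem energy_smul (t : Mp) (c : ℝ) (f : V t → ℝ) :
    energy t (fun x => c * f x) = c ^ 2 * energy t f := by
  induction t with
  | pt => simp [energy]
  | face t ih =>
    have key : ∀ g : V t → ℝ, energy t (fun x => c * g x) + (c * g (bv t 0) - c * g (bv t 3)) ^ 2 =
        c ^ 2 * (energy t g + (g (bv t 0) - g (bv t 3)) ^ 2) := fun g => by
      rw [ih g]
      ring
    exact key f
  | bridge a b iha ihb =>
    have h1 := iha fun x => f (Sum.inl x)
    have h2 := ihb fun x => f (Sum.inr x)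
    simp only [energy]
    rw [h1, h2]
    ring

theorem energy_const (t : Mp) (c : ℝ) : energy t (fun _ => c) = 0 := by
  induction t with
  | pt => rfl
  | face t ih =>
    have key : energy t (fun _ => c) + (c - c) ^ 2 = 0 := by
      rw [ih]
      ring
    exact key
  | bridge a b iha ihb =>
    simp only [energy, sub_self]
    rw [iha, ihb]
    ring

end Pool.Agent.P.MP_7a6434d8_pr
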