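import Pool.Agent.P.MP_7a6434d8_pr.BasicA

namespace Pool.Agent.P.MP_7a6434d8_pr

open Mp Finset
open scoped ENNReal

theorem Tr.nonneg {t : Mp} {h : ℕ → ℝ} {e : ℝ} (H : Tr t h e) : 0 ≤ e := by
  obtain ⟨f, _, h2⟩ := H
  exact (energy_nonneg t f).trans h2

theorem Tr.mono {t : Mp} {h : ℕ → ℝ} {e e' : ℝ} (H : Tr t h e) (he : e ≤ e') : Tr t h e' := by
  obtain ⟨f, h1, h2⟩ := H
  exact ⟨f, h1, h2.trans he⟩

theorem Tr.congr {t : Mp} {h h' : ℕ → ℝ} {e : ℝ} (H : Tr t h e)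
    (hh : ∀ p, p ≤ 2 * per t → h' p = h p) : Tr t h' e := by
  obtain ⟨f, h1, h2⟩ := H
  exact ⟨f, fun p hp => (hh p hp).trans (h1 p hp), h2⟩

theorem Tr.end_eq {t : Mp} {h : ℕ → ℝ} {e : ℝ} (ht : ok t) (H : Tr t h e) :
    h (2 * per t) = h 0 := by
  obtain ⟨f, h1, _⟩ := H
  rw [h1 _ le_rfl, h1 0 (Nat.zero_le _), bv_end t ht]

theorem Tr.step {t : Mp} {h : ℕ → ℝ} {e : ℝ} (ht : ok t) (H : Tr t h e) (p : ℕ)
    (hp : p < 2 * per t) : (h (p + 1) - h p) ^ 2 ≤ e := by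
  obtain ⟨f, h1, h2⟩ := H
  rw [h1 _ hp, h1 p hp.le]
  exact (sq_le_energy t f _ _ (adj_symm t _ _ (adj_bv t ht p hp))).trans h2

theorem Tr.lip {t : Mp} {h : ℕ → ℝ} {e : ℝ} (H : Tr t h e) (g : ℝ → ℝ)
    (hg : ∀ x y, |g x - g y| ≤ |x - y|) : Tr t (fun p => g (h p)) e := by
  obtain ⟨f, h1, h2⟩ := H
  exact ⟨fun x => g (f x), fun p hp => by simp only [h1 p hp],
    (energy_le_of_adj t f _ fun x y _ => sq_le_sq.2 (hg _ _)).trans h2⟩

theorem basicb_sq_max (a b c d : ℝ) :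
    (max a b - max c d) ^ 2 ≤ (a - c) ^ 2 + (b - d) ^ 2 := by
  have h := abs_max_sub_max_le_max a b c d
  have h1 := sq_nonneg (a - c)
  have h2 := sq_nonneg (b - d)
  rcases le_total |a - c| |b - d| with h3 | h3
  · rw [max_eq_right h3] at h
    have := sq_le_sq.2 h
    linarith
  · rw [max_eq_left h3] at h
    have := sq_le_sq.2 h
    linarith

theorem Tr.sup {t : Mp} {h h' : ℕ → ℝ} {e e' : ℝ} (H : Tr t h e) (H' : Tr t h' e') :
    Tr t (fun p => max (h p) (h' p)) (e + e') := by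
  obtain ⟨f, h1, h2⟩ := H
  obtain ⟨f', h1', h2'⟩ := H'
  exact ⟨fun x => max (f x) (f' x), fun p hp => by simp only [h1 p hp, h1' p hp],
    (energy_le_add t f f' _ fun x y _ => basicb_sq_max _ _ _ _).trans (add_le_add h2 h2')⟩

theorem Tr.smul {t : Mp} {h : ℕ → ℝ} {e : ℝ} (H : Tr t h e) (c : ℝ) :
    Tr t (fun p => c * h p) (c ^ 2 * e) := by
  obtain ⟨f, h1, h2⟩ := H
  refine ⟨fun x => c * f x, fun p hp => by simp only [h1 p hp], ?_⟩
  rw [energy_smul]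
  exact mul_le_mul_of_nonneg_left h2 (sq_nonneg c)

theorem Tr.const (t : Mp) (c : ℝ) : Tr t (fun _ => c) 0 :=
  ⟨fun _ => c, fun _ _ => rfl, (energy_const t c).le⟩

theorem Far.symm {t : Mp} {S U : Set ℕ} {T : ℝ} (H : Far t S U T) : Far t U S T := by
  obtain ⟨h, e, he, H, hS, hU⟩ := H
  refine ⟨fun p => T - h p, e, he, H.lip (fun x => T - x) fun x y => ?_, fun p hp => ?_,
    fun p hp => ?_⟩
  · rw [show T - x - (T - y) = y - x by ring, abs_sub_comm]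
  · exact sub_nonpos.2 (hU p hp)
  · exact (le_sub_self_iff T).2 (hS p hp)

theorem Far.mono {t : Mp} {S U S' U' : Set ℕ} {T T' : ℝ} (H : Far t S U T) (hS : S' ⊆ S)
    (hU : U' ⊆ U) (hT : T' ≤ T) : Far t S' U' T' := by
  obtain ⟨h, e, he, H, h1, h2⟩ := H
  exact ⟨h, e, he, H, fun p hp => h1 p (hS hp), fun p hp => hT.trans (h2 p (hU hp))⟩

theorem Far.of_tr {t : Mp} {S U : Set ℕ} {T a e : ℝ} {h : ℕ → ℝ} (H : Tr t h e) (he : e < 1)
    (hS : ∀ p ∈ S, h p ≤ a) (hU : ∀ p ∈ U, a + T ≤ h p) : Far t S U T := by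
  refine ⟨fun p => h p - a, e, he, H.lip (fun x => x - a) fun x y => ?_, fun p hp => ?_,
    fun p hp => ?_⟩
  · rw [sub_sub_sub_cancel_right]
  · exact sub_nonpos.2 (hS p hp)
  · exact le_sub_iff_add_le'.2 (hU p hp)

theorem lt_of_not_far {t : Mp} {p q : ℕ} {ρ e : ℝ} {h : ℕ → ℝ} (hn : ¬ Far t {p} {q} ρ)
    (H : Tr t h e) (he : e < 1) : h q < h p + ρ := by
  by_contra hc
  refine hn (Far.of_tr (a := h p) H he (fun x hx => ?_) fun x hx => ?_)
  · rw [Set.mem_singleton_iff.1 hx]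
  · rw [Set.mem_singleton_iff.1 hx]
    exact not_lt.1 hc

theorem basicb_dist {t : Mp} {h : ℕ → ℝ} {e : ℝ} (ht : ok t) (H : Tr t h e) (he : e < 1) (p k : ℕ)
    (hk : p + k ≤ 2 * per t) : |h (p + k) - h p| ≤ k := by
  induction k with
  | zero => simp
  | succ k ih =>
    have h1 := ih (by omega)
    have h2 : |h (p + k + 1) - h (p + k)| ≤ 1 :=
      (sq_le_one_iff_abs_le_one _).1 ((H.step ht (p + k) (by omega)).trans he.le)
    have h3 := abs_sub_le (h (p + k + 1)) (h (p + k)) (h p)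
    push_cast
    rw [← add_assoc]
    linarith

theorem not_far_of_dist {t : Mp} (ht : ok t) {p q lam : ℕ} (hp : p ≤ 2 * per t)
    (hq : q ≤ 2 * per t) (h1 : p ≤ q + lam) (h2 : q ≤ p + lam) :
    ¬ Far t {p} {q} ((lam : ℝ) + 1) := by
  rintro ⟨h, e, he, H, hS, hU⟩
  have e1 := hS p rfl
  have e2 := hU q rfl
  rcases le_total p q with hpq | hpq
  · obtain ⟨k, rfl⟩ := Nat.exists_eq_add_of_le hpq
    have h3 := (abs_le.1 (basicb_dist ht H he p k hq)).2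
    have h4 : (k : ℝ) ≤ lam := by exact_mod_cast (by omega : k ≤ lam)
    linarith
  · obtain ⟨k, rfl⟩ := Nat.exists_eq_add_of_le hpq
    have h3 := (abs_le.1 (basicb_dist ht H he q k hp)).1
    have h4 : (k : ℝ) ≤ lam := by exact_mod_cast (by omega : k ≤ lam)
    linarith

theorem sq_max_sub_max_le (a b c d : ℝ) :
    (max a b - max c d) ^ 2 ≤ (a - c) ^ 2 + (b - d) ^ 2 := basicb_sq_max a b c d

end Pool.Agent.P.MP_7a6434d8_pr
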