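import Pool.Agent.P.MP_7a6434d8_pr.Cross
import Pool.Agent.P.MP_7a6434d8_pr.BasicB

namespace Pool.Agent.P.MP_7a6434d8_pr

open Mp Finset
open scoped ENNReal

theorem chain_conn_right {t : Mp} {K : V t → Prop} {x y : V t} (h : Conn t K x y) : K y := by
  obtain ⟨hx, hp⟩ := h
  induction hp with
  | refl => exact hx
  | tail _ hbc _ => exact hbc.2

theorem chain_conn_refl {t : Mp} {K : V t → Prop} {x : V t} (h : K x) : Conn t K x x :=
  ⟨h, Relation.ReflTransGen.refl⟩

theorem chain_conn_tail {t : Mp} {K : V t → Prop} {x y z : V t} (h : Conn t K x y)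
    (hyz : adj t y z) (hz : K z) : Conn t K x z :=
  ⟨h.1, h.2.tail ⟨hyz, hz⟩⟩

theorem chain_conn_head {t : Mp} {K : V t → Prop} {x y z : V t} (h : Conn t K y z)
    (hxy : adj t x y) (hx : K x) : Conn t K x z :=
  ⟨hx, Relation.ReflTransGen.head ⟨hxy, h.1⟩ h.2⟩

theorem chain_conn_mono {t : Mp} {K K' : V t → Prop} (hK : ∀ x, K x → K' x) {x y : V t}
    (h : Conn t K x y) : Conn t K' x y := by
  obtain ⟨hx, hp⟩ := h
  refine ⟨hK x hx, ?_⟩
  induction hp with
  | refl => exact Relation.ReflTransGen.refl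
  | tail _ hbc ih => exact ih.tail ⟨hbc.1, hK _ hbc.2⟩

theorem chain_conn_self {t : Mp} {K : V t → Prop} {x y : V t} (h : Conn t K x y) :
    Conn t (fun z => Conn t K x z) x y := by
  obtain ⟨hx, hp⟩ := h
  refine ⟨chain_conn_refl hx, ?_⟩
  induction hp with
  | refl => exact Relation.ReflTransGen.refl
  | tail hab hbc ih => exact ih.tail ⟨hbc.1, ⟨hx, hab.tail hbc⟩⟩

theorem chain_arc (t : Mp) (ht : ok t) (K : V t → Prop) (u v : ℕ) (hv : v ≤ 2 * per t)
    (hK : ∀ p, u ≤ p → p ≤ v → K (bv t p)) :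
    ∀ p, u ≤ p → p ≤ v → Conn t K (bv t u) (bv t p) := by
  intro p hp
  induction p, hp using Nat.le_induction with
  | base => intro h; exact chain_conn_refl (hK u le_rfl h)
  | succ p hp ih =>
    intro h
    exact chain_conn_tail (ih (by omega)) (adj_bv t ht p (by omega)) (hK _ (by omega) h)

theorem chain_clamp (T x y : ℝ) :
    (max 0 (min x T) - max 0 (min y T)) ^ 2 ≤ (x - y) ^ 2 := by
  apply sq_le_sq.2
  calc |max 0 (min x T) - max 0 (min y T)| = |max (min x T) 0 - max (min y T) 0| := by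
        rw [max_comm 0, max_comm 0]
    _ ≤ |min x T - min y T| := abs_max_sub_max_le_abs _ _ _
    _ ≤ max |x - y| |T - T| := abs_min_sub_min_le_max _ _ _ _
    _ = |x - y| := by rw [sub_self, abs_zero, max_eq_left (abs_nonneg _)]

theorem chain_far (t : Mp) (f g : V t → ℝ) (hf : energy t f < 1) (T s : ℝ) (S U : Set ℕ)
    (hg : ∀ x y, adj t x y → g x = g y ∨
      (g x = max 0 (min (f x - s) T) ∧ g y = max 0 (min (f y - s) T)))
    (hS : ∀ p ∈ S, g (bv t p) ≤ 0) (hU : ∀ p ∈ U, T ≤ g (bv t p)) : Far t S U T := by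
  refine ⟨fun p => g (bv t p), energy t f, hf, ⟨g, fun _ _ => rfl, ?_⟩, hS, hU⟩
  apply energy_le_of_adj
  intro x y hxy
  rcases hg x y hxy with h | ⟨h1, h2⟩
  · rw [h, sub_self]; simpa using sq_nonneg (f x - f y)
  · rw [h1, h2]
    have := chain_clamp T (f x - s) (f y - s)
    rwa [show f x - s - (f y - s) = f x - f y by ring] at this

theorem chain_top {T s z : ℝ} (hT : 0 < T) (h : s + T ≤ z) : T = max 0 (min (z - s) T) := by
  rw [min_eq_right (by linarith), max_eq_right hT.le]

theorem chain_bot {T s z : ℝ} (h : z ≤ s) : (0 : ℝ) = max 0 (min (z - s) T) := by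
  rw [max_eq_left]
  exact (min_le_left _ _).trans (by linarith)

theorem chain_base (t : Mp) (f : V t → ℝ) (hf : energy t f < 1) (T : ℝ) (hT : 0 < T)
    (b : V t) (S U : Set ℕ) (hS : ∀ p ∈ S, f (bv t p) ≤ 0 ∧ Conn t (fun y => f y < T) b (bv t p))
    (hU : ∀ p ∈ U, ¬ Conn t (fun y => f y < T) b (bv t p)) : Far t S U T := by
  classical
  let C : V t → Prop := fun x => Conn t (fun y => f y < T) b x
  have hout : ∀ x y, adj t x y → C x → ¬ C y → 0 + T ≤ f y := by
    intro x y hxy hx hy
    by_contra hlt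
    exact hy (chain_conn_tail hx hxy (by show f y < T; linarith))
  refine chain_far t f (fun x => if C x then max 0 (min (f x - 0) T) else T) hf T 0 S U ?_ ?_ ?_
  · intro x y hxy
    by_cases hx : C x <;> by_cases hy : C y
    · right; simp only [if_pos hx, if_pos hy, and_self]
    · right
      simp only [if_pos hx, if_neg hy, true_and]
      exact chain_top hT (hout x y hxy hx hy)
    · right
      simp only [if_neg hx, if_pos hy, and_true]
      exact chain_top hT (hout y x (adj_symm t x y hxy) hy hx)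
    · left; simp only [if_neg hx, if_neg hy]
  · intro p hp
    have h2 : C (bv t p) := (hS p hp).2
    simp only [if_pos h2]
    exact (chain_bot (hS p hp).1).symm.le
  · intro p hp
    have h2 : ¬ C (bv t p) := hU p hp
    simp only [if_neg h2]
    exact le_rfl

theorem chain_step (t : Mp) (f : V t → ℝ) (hf : energy t f < 1) (T s : ℝ) (hT : 0 < T)
    (b : V t) (S U : Set ℕ)
    (hS : ∀ p ∈ S, ∀ p' ∈ U,
      ¬ Conn t (fun z => ¬ Conn t (fun y => f y < s) b z) (bv t p) (bv t p'))
    (hU : ∀ p ∈ U, ¬ Conn t (fun y => f y < s + T) b (bv t p)) : Far t S U T := by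
  classical
  let C0 : V t → Prop := fun x => Conn t (fun y => f y < s) b x
  let C : V t → Prop := fun x => Conn t (fun y => f y < s + T) b x
  let W : V t → Prop := fun x => ∃ p' ∈ U, Conn t (fun z => ¬ C0 z) x (bv t p')
  have h01 : ∀ x, C0 x → C x := fun x hx =>
    chain_conn_mono (fun y (hy : f y < s) => (by linarith : f y < s + T)) hx
  have hout : ∀ x y, adj t x y → C x → ¬ C y → s + T ≤ f y := by
    intro x y hxy hx hy
    by_contra hlt
    exact hy (chain_conn_tail hx hxy (by show f y < s + T; linarith))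
  have hW : ∀ x y, adj t x y → W x → ¬ W y → C0 y := by
    intro x y hxy hx hy
    by_contra h0
    obtain ⟨p', hp', hc⟩ := hx
    exact hy ⟨p', hp', chain_conn_head hc (adj_symm t x y hxy) h0⟩
  let g : V t → ℝ := fun x => if W x then (if C x then max 0 (min (f x - s) T) else T) else 0
  have key : ∀ x y, adj t x y → W x → ¬ W y →
      g x = max 0 (min (f x - s) T) ∧ g y = max 0 (min (f y - s) T) := by
    intro x y hxy hx hy
    have h0 := hW x y hxy hx hy
    have h1 : f y < s := chain_conn_right h0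
    refine ⟨?_, ?_⟩
    · simp only [g, if_pos hx]
      by_cases hc : C x
      · rw [if_pos hc]
      · rw [if_neg hc]
        exact chain_top hT (hout y x (adj_symm t x y hxy) (h01 y h0) hc)
    · simp only [g, if_neg hy]
      exact chain_bot h1.le
  refine chain_far t f g hf T s S U ?_ ?_ ?_
  · intro x y hxy
    by_cases wx : W x <;> by_cases wy : W y
    · by_cases hx : C x <;> by_cases hy : C y
      · right; simp only [g, if_pos wx, if_pos wy, if_pos hx, if_pos hy, and_self]
      · right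
        simp only [g, if_pos wx, if_pos wy, if_pos hx, if_neg hy, true_and]
        exact chain_top hT (hout x y hxy hx hy)
      · right
        simp only [g, if_pos wx, if_pos wy, if_neg hx, if_pos hy, and_true]
        exact chain_top hT (hout y x (adj_symm t x y hxy) hy hx)
      · left; simp only [g, if_pos wx, if_pos wy, if_neg hx, if_neg hy]
    · right; exact key x y hxy wx wy
    · right; exact (key y x (adj_symm t x y hxy) wy wx).symm
    · left; simp only [g, if_neg wx, if_neg wy]
  · intro p hp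
    have : ¬ W (bv t p) := fun ⟨p', hp', hc⟩ => hS p hp p' hp' hc
    simp only [g, if_neg this]
    exact le_rfl
  · intro p hp
    have h1 : ¬ C (bv t p) := hU p hp
    have h2 : W (bv t p) := ⟨p, hp, chain_conn_refl (fun h => h1 (h01 _ h))⟩
    simp only [g, if_pos h2, if_neg h1]
    exact le_rfl

theorem chain (t : Mp) (ht : ok t) (a : ℕ → ℕ) (r : ℕ) (hr : 2 ≤ r)
    (ha : ∀ i, i ≤ r → a i ≤ a (i + 1)) (hl : a (r + 1) ≤ 2 * per t) (T : ℝ) (hT : 0 < T)
    (H : Far t (Set.Icc (a 0) (a 1)) (Set.Icc (a r) (a (r + 1))) (((r : ℝ) - 1) * T)) :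
    ∃ i, i + 2 ≤ r ∧ Far t (Set.Icc (a i) (a (i + 1))) (Set.Icc (a (i + 2)) (a (i + 3))) T := by
  by_contra hno
  push Not at hno
  obtain ⟨h, e, he, ⟨f, hf, hfe⟩, hS, hU⟩ := H
  have hf1 : energy t f < 1 := lt_of_le_of_lt hfe he
  have hmono : ∀ j i, i ≤ j → j ≤ r + 1 → a i ≤ a j := by
    intro j i hij
    induction j, hij using Nat.le_induction with
    | base => intro _; exact le_rfl
    | succ j hj ih => intro h; exact (ih (by omega)).trans (ha j (by omega))
  have h1l : a 1 ≤ 2 * per t := (hmono (r + 1) 1 (by omega) le_rfl).trans hl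
  have hf0 : ∀ p, a 0 ≤ p → p ≤ a 1 → f (bv t p) ≤ 0 := by
    intro p h0 h1
    rw [← hf p (h1.trans h1l)]
    exact hS p ⟨h0, h1⟩
  have claim : ∀ i : ℕ, i + 2 ≤ r → ∃ p ∈ Set.Icc (a (i + 2)) (a (i + 3)),
      Conn t (fun y => f y < ((i : ℝ) + 1) * T) (bv t (a 0)) (bv t p) := by
    intro i
    induction i with
    | zero =>
      intro hi
      by_contra hc
      push Not at hc
      apply hno 0 hi
      simp only [Nat.cast_zero, zero_add, one_mul] at hc
      refine chain_base t f hf1 T hT (bv t (a 0)) _ _ ?_ hc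
      intro p hp
      refine ⟨hf0 p hp.1 hp.2, ?_⟩
      exact chain_arc t ht (fun y => f y < T) (a 0) (a 1) h1l
        (fun p h0 h1 => lt_of_le_of_lt (hf0 p h0 h1) hT) p hp.1 hp.2
    | succ i ih =>
      intro hi
      obtain ⟨p2, hp2, hc2⟩ := ih (by omega)
      by_contra hc
      push Not at hc
      apply hno (i + 1) hi
      refine chain_step t f hf1 T (((i : ℝ) + 1) * T) hT (bv t (a 0)) _ _ ?_ ?_
      · intro p1 hp1 p3 hp3 hcon
        obtain ⟨x, hx1, hx2⟩ := cross t ht _ _ (a 0) p1 p2 p3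
          ((hmono (i + 1) 0 (by omega) (by omega)).trans hp1.1) (hp1.2.trans hp2.1)
          (hp2.2.trans hp3.1)
          (hp3.2.trans ((hmono (r + 1) (i + 1 + 3) (by omega) le_rfl).trans hl))
          (chain_conn_self hc2) hcon
        exact hx2 hx1
      · intro p hp hcon
        apply hc p hp
        have e1 : (((i + 1 : ℕ) : ℝ) + 1) * T = ((i : ℝ) + 1) * T + T := by push_cast; ring
        rw [e1]
        exact hcon
  obtain ⟨j, rfl⟩ : ∃ j, r = j + 2 := ⟨r - 2, by omega⟩
  obtain ⟨p, hp, hc⟩ := claim j le_rfl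
  have h1 : f (bv t p) < ((j : ℝ) + 1) * T := chain_conn_right hc
  have h2 := hU p hp
  rw [hf p (hp.2.trans hl)] at h2
  have e1 : (((j + 2 : ℕ) : ℝ) - 1) * T = ((j : ℝ) + 1) * T := by push_cast; ring
  rw [e1] at h2
  linarith

end Pool.Agent.P.MP_7a6434d8_pr
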