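import Pool.Agent.P.MP_7a6434d8_pr.MassB

namespace Pool.Agent.P.MP_7a6434d8_pr

open Mp Finset
open scoped ENNReal

theorem massc_le_add {i j : ℕ} {ψ χ ξ : Mp → Mp → Prop}
    (h : ∀ a b, ok a → per a = i → ok b → per b = j → ψ a b → χ a b ∨ ξ a b) :
    mass2E i j ψ ≤ mass2E i j χ + mass2E i j ξ := by
  rw [mass2E_eq_outer, mass2E_eq_outer, mass2E_eq_outer, ← ENNReal.tsum_add]
  refine ENNReal.tsum_le_tsum fun b => ?_
  by_cases hb : ok b ∧ per b = j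
  · rw [← mul_add]
    exact mul_le_mul' le_rfl (massb_le_add fun a h1 h2 h3 => h a b h1 h2 hb.1 hb.2 h3)
  · simp [massb_wt_zero hb]

theorem massc_prod (i j : ℕ) (φ χ : Mp → Prop) :
    mass2 i j (fun a b => φ a ∧ χ b) = mass i φ * mass j χ := by
  rw [mass2, mass2E_prod, ENNReal.toReal_mul, mass, mass]

theorem massc_true (L : ℕ) : mass L (fun _ => True) = Z L := mass_eq_Z fun _ _ _ => trivial

theorem massc_ofReal (L : ℕ) (φ : Mp → Prop) : ENNReal.ofReal (mass L φ) = massE L φ :=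
  ENNReal.ofReal_toReal (massE_ne_top L φ)

theorem massc_mix {i j : ℕ} {ψ χ : Mp → Mp → Prop} {β c : ℝ} (hβ : 0 ≤ β) (hc : 0 ≤ c)
    (h : ∀ b, ok b → per b = j → mass i (fun a => ψ a b) ≤ β * mass i (fun a => χ a b) + c) :
    mass2 i j ψ ≤ β * mass2 i j χ + c * Z j := by
  have h0 : 0 ≤ mass2 i j χ := ENNReal.toReal_nonneg
  have hZ := (Z_pos j).le
  refine ENNReal.toReal_le_of_le_ofReal (by positivity) ?_
  rw [ENNReal.ofReal_add (by positivity) (by positivity), ENNReal.ofReal_mul hβ,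
    ENNReal.ofReal_mul hc, mass2, ENNReal.ofReal_toReal (mass2E_ne_top i j χ), ← massE_true,
    ← tsum_wt, mass2E_eq_outer, mass2E_eq_outer, ← ENNReal.tsum_mul_left,
    ← ENNReal.tsum_mul_left, ← ENNReal.tsum_add]
  refine ENNReal.tsum_le_tsum fun b => ?_
  by_cases hb : ok b ∧ per b = j
  · have h1 := ENNReal.ofReal_le_ofReal (h b hb.1 hb.2)
    rw [massc_ofReal, ENNReal.ofReal_add (mul_nonneg hβ (mass_nonneg _ _)) hc,
      ENNReal.ofReal_mul hβ, massc_ofReal] at h1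
    refine (mul_le_mul' le_rfl h1).trans_eq ?_
    ring
  · simp [massb_wt_zero hb]

theorem mass2_nonneg (i j : ℕ) (ψ : Mp → Mp → Prop) : 0 ≤ mass2 i j ψ := ENNReal.toReal_nonneg

theorem mass2_mono {i j : ℕ} {ψ χ : Mp → Mp → Prop}
    (h : ∀ a b, ok a → per a = i → ok b → per b = j → ψ a b → χ a b) :
    mass2 i j ψ ≤ mass2 i j χ :=
  ENNReal.toReal_mono (mass2E_ne_top i j χ) (mass2E_mono i j ψ χ h)

theorem mass2_le_Z (i j : ℕ) (ψ : Mp → Mp → Prop) : mass2 i j ψ ≤ Z i * Z j := by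
  rw [← massc_true, ← massc_true, ← massc_prod]
  exact mass2_mono fun _ _ _ _ _ _ _ => ⟨trivial, trivial⟩

theorem mass2_eq_zero {i j : ℕ} {ψ : Mp → Mp → Prop}
    (h : ∀ a b, ok a → per a = i → ok b → per b = j → ¬ ψ a b) : mass2 i j ψ = 0 := by
  refine le_antisymm ?_ (mass2_nonneg i j ψ)
  have h1 : mass2 i j (fun _ _ => False) = 0 := by simp [mass2, mass2E]
  rw [← h1]
  exact mass2_mono fun a b h1 h2 h3 h4 h5 => h a b h1 h2 h3 h4 h5

theorem mass2_le_add {i j : ℕ} {ψ χ ξ : Mp → Mp → Prop}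
    (h : ∀ a b, ok a → per a = i → ok b → per b = j → ψ a b → χ a b ∨ ξ a b) :
    mass2 i j ψ ≤ mass2 i j χ + mass2 i j ξ := by
  unfold mass2
  rw [← ENNReal.toReal_add (mass2E_ne_top i j χ) (mass2E_ne_top i j ξ)]
  exact ENNReal.toReal_mono (ENNReal.add_ne_top.2 ⟨mass2E_ne_top i j χ, mass2E_ne_top i j ξ⟩)
    (massc_le_add h)

theorem mass2_le_outer {i j : ℕ} {ψ : Mp → Mp → Prop} {c : ℝ} (hc : 0 ≤ c)
    (h : ∀ b, ok b → per b = j → mass i (fun a => ψ a b) ≤ c) : mass2 i j ψ ≤ c * Z j := by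
  have := massc_mix (χ := ψ) (β := 0) le_rfl hc fun b h1 h2 => by
    rw [zero_mul, zero_add]; exact h b h1 h2
  rwa [zero_mul, zero_add] at this

theorem mass2_le_inner {i j : ℕ} {ψ : Mp → Mp → Prop} {c : ℝ} (hc : 0 ≤ c)
    (h : ∀ a, ok a → per a = i → mass j (fun b => ψ a b) ≤ c) : mass2 i j ψ ≤ Z i * c := by
  rw [mass2, mass2E_swap, mul_comm]
  exact mass2_le_outer (ψ := fun b a => ψ a b) hc h

/-- event on the pair implies an event on the outer or on the enclosed part -/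
theorem mass2_le_split {i j : ℕ} {ψ : Mp → Mp → Prop} {φ χ : Mp → Prop}
    (h : ∀ a b, ok a → per a = i → ok b → per b = j → ψ a b → φ a ∨ χ b) :
    mass2 i j ψ ≤ mass i φ * Z j + Z i * mass j χ := by
  rw [← massc_true, ← massc_true, ← massc_prod, ← massc_prod]
  exact mass2_le_add fun a b h1 h2 h3 h4 h5 =>
    (h a b h1 h2 h3 h4 h5).imp (fun d => ⟨d, trivial⟩) fun d => ⟨trivial, d⟩

theorem mass2N_nonneg (N i j : ℕ) (ψ : Mp → Mp → Prop) : 0 ≤ mass2N N i j ψ :=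
  mass2_nonneg _ _ _

theorem mass2N_le_mass2 (N i j : ℕ) (ψ : Mp → Mp → Prop) : mass2N N i j ψ ≤ mass2 i j ψ :=
  mass2_mono fun _ _ _ _ _ _ h => h.1

theorem mass2N_mono {N i j : ℕ} {ψ χ : Mp → Mp → Prop}
    (h : ∀ a b, ok a → per a = i → ok b → per b = j → ψ a b → χ a b) :
    mass2N N i j ψ ≤ mass2N N i j χ :=
  mass2_mono fun a b h1 h2 h3 h4 h5 => ⟨h a b h1 h2 h3 h4 h5.1, h5.2⟩

theorem mass2N_le_split {N i j : ℕ} {ψ : Mp → Mp → Prop} {φ χ : Mp → Prop}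
    (h : ∀ a b, ok a → per a = i → ok b → per b = j → ψ a b → φ a ∨ χ b) :
    mass2N N i j ψ ≤ massN N i φ * Z j + Z i * massN N j χ :=
  mass2_le_split fun a b h1 h2 h3 h4 h5 =>
    (h a b h1 h2 h3 h4 h5.1).imp (fun d => ⟨d, h5.2.1⟩) fun d => ⟨d, h5.2.2⟩

theorem mass2N_le_outer {N i j : ℕ} {ψ : Mp → Mp → Prop} {φ : Mp → Prop}
    (h : ∀ a b, ok a → per a = i → ok b → per b = j → ψ a b → φ a) :
    mass2N N i j ψ ≤ massN N i φ * Z j := by
  rw [← massc_true, massN, ← massc_prod]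
  exact mass2_mono fun a b h1 h2 h3 h4 h5 => ⟨⟨h a b h1 h2 h3 h4 h5.1, h5.2.1⟩, trivial⟩

theorem mass2N_le_mix {N i j : ℕ} {ψ χ : Mp → Mp → Prop} {β c : ℝ} (hβ : 0 ≤ β) (hc : 0 ≤ c)
    (h : ∀ b, ok b → per b = j →
      massN N i (fun a => ψ a b) ≤ β * mass i (fun a => χ a b) + c) :
    mass2N N i j ψ ≤ β * mass2 i j χ + c * Z j :=
  massc_mix hβ hc fun b h1 h2 =>
    (mass_mono fun _ _ _ h5 => ⟨h5.1, h5.2.1⟩).trans (h b h1 h2)

end Pool.Agent.P.MP_7a6434d8_pr
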