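import Pool.Agent.P.MP_7a6434d8_pr.RotB

namespace Pool.Agent.P.MP_7a6434d8_pr

open Mp Finset
open scoped ENNReal

theorem peelb_bv_mod (t : Mp) (ht : ok t) (q r : ℕ) (hr : r ≤ 2 * per t)
    (h : q = r ∨ q = r + 2 * per t) : bv t (q % (2 * per t)) = bv t r := by
  have h1 : q % (2 * per t) = r % (2 * per t) := by
    rcases h with h | h
    · rw [h]
    · rw [h, Nat.add_mod_right]
  rw [h1]
  rcases lt_or_eq_of_le hr with h2 | h2
  · rw [Nat.mod_eq_of_lt h2]
  · rw [h2, Nat.mod_self, bv_end t ht]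

theorem peelb_bv_mid (a b : Mp) (k q : ℕ) (hq : q ≤ 2 * per b) (hk : k = q + 1) :
    bv (bridge a b) k = Sum.inr (bv b q) := by
  subst hk
  simp only [bv]
  rw [if_neg (by omega), if_pos (by omega)]
  rfl

theorem peelb_bv_out (a b : Mp) (k q : ℕ) (hk : k = q + 2 * per b + 2) :
    bv (bridge a b) k = Sum.inl (bv a q) := by
  subst hk
  simp only [bv]
  rw [if_neg (by omega), if_neg (by omega)]
  have : q + 2 * per b + 2 - 2 * per b - 2 = q := by omega
  rw [this]

theorem peelb_of_vertex (m : ℕ) (t W1 W2 : Mp) (ht : ok t) (h1 : ok W1) (h2 : ok W2)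
    (hper : per t = per W1 + per W2 + 1) (hm : m ≤ 2 * per W1)
    (hsize : size t = size W1 + size W2) (hedges : edges t = edges W1 + edges W2 + 1)
    (E : V t ≃ V W1 ⊕ V W2)
    (hE : ∀ f : V W1 ⊕ V W2 → ℝ, energy t (fun x => f (E x)) =
      energy W1 (fun x => f (Sum.inl x)) + energy W2 (fun x => f (Sum.inr x)) +
        (f (Sum.inl (bv W1 m)) - f (Sum.inr (bv W2 0))) ^ 2)
    (hA : ∀ p, p ≤ m → E (bv t p) = Sum.inl (bv W1 p))
    (hB : ∀ p, p ≤ 2 * per W2 → E (bv t (m + 1 + p)) = Sum.inr (bv W2 p))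
    (hC : ∀ p, m ≤ p → p ≤ 2 * per W1 → E (bv t (p + 2 * per W2 + 2)) = Sum.inl (bv W1 p)) :
    IsBr m t W1 W2 := by
  have hE' : ∀ f : V t → ℝ, energy t f =
      energy W1 (fun x => f (E.symm (Sum.inl x))) + energy W2 (fun x => f (E.symm (Sum.inr x))) +
        (f (E.symm (Sum.inl (bv W1 m))) - f (E.symm (Sum.inr (bv W2 0)))) ^ 2 := by
    intro f
    have := hE (fun y => f (E.symm y))
    simpa using this
  have hA' : ∀ p, p ≤ m → E.symm (Sum.inl (bv W1 p)) = bv t p := fun p hp => by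
    rw [← hA p hp, Equiv.symm_apply_apply]
  have hB' : ∀ p, p ≤ 2 * per W2 → E.symm (Sum.inr (bv W2 p)) = bv t (m + 1 + p) :=
    fun p hp => by rw [← hB p hp, Equiv.symm_apply_apply]
  have hC' : ∀ p, m ≤ p → p ≤ 2 * per W1 →
      E.symm (Sum.inl (bv W1 p)) = bv t (p + 2 * per W2 + 2) :=
    fun p hp hp' => by rw [← hC p hp hp', Equiv.symm_apply_apply]
  refine ⟨ht, h1, h2, hper, hm, hsize, hedges, fun h e => ⟨?_, ?_⟩, ?_⟩
  · rintro ⟨f, hf, he⟩
    refine ⟨fun p => f (E.symm (Sum.inl (bv W1 p))), fun p => f (E.symm (Sum.inr (bv W2 p))),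
      energy W1 (fun x => f (E.symm (Sum.inl x))), energy W2 (fun x => f (E.symm (Sum.inr x))),
      ⟨fun x => f (E.symm (Sum.inl x)), fun _ _ => rfl, le_rfl⟩,
      ⟨fun x => f (E.symm (Sum.inr x)), fun _ _ => rfl, le_rfl⟩, ?_, ?_, ?_, ?_⟩
    · rw [← hE' f]
      exact he
    · intro p hp
      show h p = f (E.symm (Sum.inl (bv W1 p)))
      rw [hA' p hp]
      exact hf p (by omega)
    · intro p hp
      show h (m + 1 + p) = f (E.symm (Sum.inr (bv W2 p)))
      rw [hB' p hp]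
      exact hf _ (by omega)
    · intro p hp hp'
      show h (p + 2 * per W2 + 2) = f (E.symm (Sum.inl (bv W1 p)))
      rw [hC' p hp hp']
      exact hf _ (by omega)
  · rintro ⟨g1, g2, e1, e2, ⟨f1, hf1, he1⟩, ⟨f2, hf2, he2⟩, hsum, ha, hb, hc⟩
    refine ⟨fun x => Sum.elim f1 f2 (E x), fun p hp => ?_, ?_⟩
    · show h p = Sum.elim f1 f2 (E (bv t p))
      by_cases hp1 : p ≤ m
      · rw [hA p hp1, ha p hp1, hf1 p (by omega)]
        rfl
      · by_cases hp2 : p ≤ m + 1 + 2 * per W2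
        · obtain ⟨q, rfl⟩ : ∃ q, p = m + 1 + q := ⟨p - (m + 1), by omega⟩
          rw [hB q (by omega), hb q (by omega), hf2 q (by omega)]
          rfl
        · obtain ⟨q, rfl⟩ : ∃ q, p = q + 2 * per W2 + 2 := ⟨p - (2 * per W2 + 2), by omega⟩
          rw [hC q (by omega) (by omega), hc q (by omega) (by omega), hf1 q (by omega)]
          rfl
    · rw [hE (Sum.elim f1 f2)]
      have a1 : g1 m = f1 (bv W1 m) := hf1 m hm
      have a2 : g2 0 = f2 (bv W2 0) := hf2 0 (Nat.zero_le _)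
      rw [a1, a2] at hsum
      show energy W1 f1 + energy W2 f2 + (f1 (bv W1 m) - f2 (bv W2 0)) ^ 2 ≤ e
      linarith
  · rintro T ρ ⟨f, v, he, h0, hv⟩
    have hsplit := hE' f
    have n1 := energy_nonneg W1 (fun x => f (E.symm (Sum.inl x)))
    have n2 := energy_nonneg W2 (fun x => f (E.symm (Sum.inr x)))
    have n3 := sq_nonneg (f (E.symm (Sum.inl (bv W1 m))) - f (E.symm (Sum.inr (bv W2 0))))
    obtain ⟨y, rfl⟩ : ∃ y, v = E.symm y := ⟨E v, (E.symm_apply_apply v).symm⟩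
    rcases y with x | x
    · refine Or.inl ⟨fun x => f (E.symm (Sum.inl x)), x, by linarith, ?_, hv⟩
      show f (E.symm (Sum.inl (bv W1 0))) ≤ 0
      rw [hA' 0 (Nat.zero_le _)]
      exact h0
    · by_cases hρ : ρ ≤ f (bv t (m + 1))
      · refine Or.inr (Or.inl ⟨fun p => f (bv t p), energy t f, he, ⟨f, fun _ _ => rfl, le_rfl⟩,
          ?_, ?_⟩)
        · intro p hp
          rw [Set.mem_singleton_iff.mp hp]
          exact h0
        · intro p hp
          rw [Set.mem_singleton_iff.mp hp]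
          exact hρ
      · refine Or.inr (Or.inr ⟨fun x => f (E.symm (Sum.inr x)) - ρ, x, ?_, ?_, ?_⟩)
        · have := energy_le_of_adj W2 (fun x => f (E.symm (Sum.inr x)))
            (fun x => f (E.symm (Sum.inr x)) - ρ) (fun x y _ => by
              apply le_of_eq
              ring)
          linarith
        · show f (E.symm (Sum.inr (bv W2 0))) - ρ ≤ 0
          rw [hB' 0 (Nat.zero_le _)]
          have := not_le.mp hρ
          simp only [Nat.add_zero]
          linarith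
        · show T ≤ f (E.symm (Sum.inr x)) - ρ
          linarith

theorem isBr_brR (m : ℕ) (W1 W2 : Mp) (h1 : ok W1) (h2 : ok W2) (hm : m ≤ 2 * per W1) :
    IsBr m (brR m W1 W2) W1 W2 := by
  have hA : ok (rotN m W1) := rotN_ok m W1 h1
  have hAp : per (rotN m W1) = per W1 := rotN_per m W1 h1
  have hs : ok (bridge (rotN m W1) W2) := ⟨hA, h2⟩
  have hsp : per (bridge (rotN m W1) W2) = per W1 + per W2 + 1 := by
    show per (rotN m W1) + per W2 + 1 = _
    rw [hAp]
  obtain ⟨e, he, hb⟩ := rotN_shift (2 * (per W1 + per W2 + 1) - m) _ hs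
  obtain ⟨e1, he1, hb1⟩ := rotN_shift m W1 h1
  have hb1' : ∀ q r, q ≤ 2 * per W1 → r ≤ 2 * per W1 → (q + m = r ∨ q + m = r + 2 * per W1) →
      e1 (bv (rotN m W1) q) = bv W1 r := fun q r hq hr h => by
    rw [hb1 q hq, peelb_bv_mod W1 h1 _ r hr h]
  have hb' : ∀ p r, p ≤ 2 * (per W1 + per W2 + 1) → r ≤ 2 * (per W1 + per W2 + 1) →
      (p + (2 * (per W1 + per W2 + 1) - m) = r ∨
        p + (2 * (per W1 + per W2 + 1) - m) = r + 2 * (per W1 + per W2 + 1)) →
      e (bv (brR m W1 W2) p) = bv (bridge (rotN m W1) W2) r := fun p r hp hr h => by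
    have := hb p (by rw [hsp]; exact hp)
    rw [peelb_bv_mod _ hs _ r (by rw [hsp]; exact hr) (by rw [hsp]; exact h)] at this
    exact this
  refine peelb_of_vertex m _ W1 W2 (rotN_ok _ _ hs) h1 h2 ((rotN_per _ _ hs).trans hsp) hm ?_ ?_
    (e.trans (Equiv.sumCongr e1 (Equiv.refl (V W2)))) ?_ ?_ ?_ ?_
  · refine (rotN_size _ _ hs).trans ?_
    show size (rotN m W1) + size W2 = _
    rw [rotN_size m W1 h1]
  · refine (rotN_edges _ _ hs).trans ?_
    show edges (rotN m W1) + edges W2 + 1 = _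
    rw [rotN_edges m W1 h1]
  · intro f
    refine (he (fun y => f (Sum.map e1 id y))).trans ?_
    show energy (rotN m W1) (fun x => f (Sum.inl (e1 x))) + energy W2 (fun x => f (Sum.inr x)) +
      (f (Sum.inl (e1 (bv (rotN m W1) 0))) - f (Sum.inr (bv W2 0))) ^ 2 = _
    rw [he1 (fun x => f (Sum.inl x)), hb1' 0 m (by omega) hm (Or.inl (by omega))]
  · intro p hp
    show Sum.map e1 id (e (bv (brR m W1 W2) p)) = _
    rw [hb' p (p + 2 * per W1 - m + 2 * per W2 + 2) (by omega) (by omega) (Or.inl (by omega)),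
      peelb_bv_out _ _ _ (p + 2 * per W1 - m) rfl]
    show Sum.inl (e1 _) = _
    rw [hb1' _ p (by omega) (by omega) (Or.inr (by omega))]
  · intro p hp
    show Sum.map e1 id (e (bv (brR m W1 W2) (m + 1 + p))) = _
    rw [hb' _ (p + 1) (by omega) (by omega) (Or.inr (by omega)),
      peelb_bv_mid _ _ _ p hp rfl]
    rfl
  · intro p hp hp'
    show Sum.map e1 id (e (bv (brR m W1 W2) (p + 2 * per W2 + 2))) = _
    rw [hb' _ (p - m + 2 * per W2 + 2) (by omega) (by omega) (Or.inr (by omega)),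
      peelb_bv_out _ _ _ (p - m) rfl]
    show Sum.inl (e1 _) = _
    rw [hb1' _ p (by omega) (by omega) (Or.inl (by omega))]

theorem isBr_brL (m : ℕ) (W1 W2 : Mp) (h1 : ok W1) (h2 : ok W2) (hm : m ≤ 2 * per W1) :
    IsBr m (brL m W1 W2) W1 W2 := by
  have hA : ok (rotN m W1) := rotN_ok m W1 h1
  have hAp : per (rotN m W1) = per W1 := rotN_per m W1 h1
  have hs : ok (bridge W2 (rotN m W1)) := ⟨h2, hA⟩
  have hsp : per (bridge W2 (rotN m W1)) = per W1 + per W2 + 1 := by
    show per W2 + per (rotN m W1) + 1 = _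
    rw [hAp]
    omega
  obtain ⟨e, he, hb⟩ := rotN_shift (2 * (per W1 + per W2 + 1) - (m + 2 * per W2 + 1)) _ hs
  obtain ⟨e1, he1, hb1⟩ := rotN_shift m W1 h1
  have hb1' : ∀ q r, q ≤ 2 * per W1 → r ≤ 2 * per W1 → (q + m = r ∨ q + m = r + 2 * per W1) →
      e1 (bv (rotN m W1) q) = bv W1 r := fun q r hq hr h => by
    rw [hb1 q hq, peelb_bv_mod W1 h1 _ r hr h]
  have hb' : ∀ p r, p ≤ 2 * (per W1 + per W2 + 1) → r ≤ 2 * (per W1 + per W2 + 1) →
      (p + (2 * (per W1 + per W2 + 1) - (m + 2 * per W2 + 1)) = r ∨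
        p + (2 * (per W1 + per W2 + 1) - (m + 2 * per W2 + 1)) =
          r + 2 * (per W1 + per W2 + 1)) →
      e (bv (brL m W1 W2) p) = bv (bridge W2 (rotN m W1)) r := fun p r hp hr h => by
    have := hb p (by rw [hsp]; exact hp)
    rw [peelb_bv_mod _ hs _ r (by rw [hsp]; exact hr) (by rw [hsp]; exact h)] at this
    exact this
  refine peelb_of_vertex m _ W1 W2 (rotN_ok _ _ hs) h1 h2 ((rotN_per _ _ hs).trans hsp) hm ?_ ?_
    (e.trans ((Equiv.sumComm (V W2) (V (rotN m W1))).trans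
      (Equiv.sumCongr e1 (Equiv.refl (V W2))))) ?_ ?_ ?_ ?_
  · refine (rotN_size _ _ hs).trans ?_
    show size W2 + size (rotN m W1) = _
    rw [rotN_size m W1 h1]
    omega
  · refine (rotN_edges _ _ hs).trans ?_
    show edges W2 + edges (rotN m W1) + 1 = _
    rw [rotN_edges m W1 h1]
    omega
  · intro f
    refine (he (fun y => f (Sum.map e1 id (Sum.swap y)))).trans ?_
    show energy W2 (fun x => f (Sum.inr x)) + energy (rotN m W1) (fun x => f (Sum.inl (e1 x))) +
      (f (Sum.inr (bv W2 0)) - f (Sum.inl (e1 (bv (rotN m W1) 0)))) ^ 2 = _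
    rw [he1 (fun x => f (Sum.inl x)), hb1' 0 m (by omega) hm (Or.inl (by omega))]
    ring
  · intro p hp
    show Sum.map e1 id (Sum.swap (e (bv (brL m W1 W2) p))) = _
    rw [hb' p (p + 2 * per W1 - m + 1) (by omega) (by omega) (Or.inl (by omega)),
      peelb_bv_mid _ _ _ (p + 2 * per W1 - m) (by omega) rfl]
    show Sum.inl (e1 _) = _
    rw [hb1' _ p (by omega) (by omega) (Or.inr (by omega))]
  · intro p hp
    show Sum.map e1 id (Sum.swap (e (bv (brL m W1 W2) (m + 1 + p)))) = _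
    rw [hb' _ (p + 2 * per W1 + 2) (by omega) (by omega) (Or.inl (by omega)),
      peelb_bv_out _ _ _ p (by rw [hAp])]
    rfl
  · intro p hp hp'
    show Sum.map e1 id (Sum.swap (e (bv (brL m W1 W2) (p + 2 * per W2 + 2)))) = _
    rw [hb' _ (p - m + 1) (by omega) (by omega) (Or.inr (by omega)),
      peelb_bv_mid _ _ _ (p - m) (by omega) rfl]
    show Sum.inl (e1 _) = _
    rw [hb1' _ p (by omega) (by omega) (Or.inl (by omega))]

end Pool.Agent.P.MP_7a6434d8_pr
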