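import Pool.Agent.P.MP_7a6434d8_pr.MassT
import Pool.Agent.P.MP_7a6434d8_pr.BasicB

namespace Pool.Agent.P.MP_7a6434d8_pr

open Mp Finset
open scoped ENNReal

theorem massb_wt_zero {L : ℕ} {t : Mp} (h : ¬ (ok t ∧ per t = L)) : wt L t = 0 := by
  simp only [wt, if_neg h]

theorem massb_le_Z (L : ℕ) (φ : Mp → Prop) : massE L φ ≤ ENNReal.ofReal (Z L) :=
  (massE_mono L φ (fun _ => True) fun _ _ _ _ => trivial).trans_eq (massE_true L)

theorem massb_le_add {L : ℕ} {φ ψ χ : Mp → Prop}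
    (h : ∀ t, ok t → per t = L → φ t → ψ t ∨ χ t) : massE L φ ≤ massE L ψ + massE L χ := by
  classical
  unfold massE
  rw [← ENNReal.tsum_add]
  refine ENNReal.tsum_le_tsum fun t => ?_
  by_cases ht : ok t ∧ per t = L
  · by_cases hφ : φ t
    · rw [if_pos hφ]
      rcases h t ht.1 ht.2 hφ with h1 | h1
      · rw [if_pos h1]; exact le_self_add
      · rw [if_pos h1]; exact le_add_self
    · rw [if_neg hφ]; exact zero_le
  · simp [massb_wt_zero ht]

theorem massb_add_le {L : ℕ} {φ ψ : Mp → Prop}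
    (h : ∀ t, ok t → per t = L → φ t → ψ t → False) :
    massE L φ + massE L ψ ≤ ENNReal.ofReal (Z L) := by
  classical
  rw [← massE_true, ← tsum_wt]
  unfold massE
  rw [← ENNReal.tsum_add]
  refine ENNReal.tsum_le_tsum fun t => ?_
  by_cases ht : ok t ∧ per t = L
  · by_cases hφ : φ t
    · have hψ : ¬ ψ t := h t ht.1 ht.2 hφ
      simp [hφ, hψ]
    · by_cases hψ : ψ t <;> simp [hφ, hψ]
  · simp [massb_wt_zero ht]

theorem massE_ne_top (L : ℕ) (φ : Mp → Prop) : massE L φ ≠ ⊤ :=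
  ne_top_of_le_ne_top ENNReal.ofReal_ne_top (massb_le_Z L φ)

theorem massb_two_le (i j : ℕ) (ψ : Mp → Mp → Prop) :
    mass2E i j ψ ≤ ENNReal.ofReal (Z i) * ENNReal.ofReal (Z j) := by
  rw [← massE_true, ← massE_true, ← mass2E_prod]
  exact mass2E_mono i j _ _ fun _ _ _ _ _ _ _ => ⟨trivial, trivial⟩

theorem mass2E_ne_top (i j : ℕ) (ψ : Mp → Mp → Prop) : mass2E i j ψ ≠ ⊤ :=
  ne_top_of_le_ne_top (ENNReal.mul_ne_top ENNReal.ofReal_ne_top ENNReal.ofReal_ne_top)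
    (massb_two_le i j ψ)

theorem mass_nonneg (L : ℕ) (φ : Mp → Prop) : 0 ≤ mass L φ := ENNReal.toReal_nonneg

theorem mass_mono {L : ℕ} {φ ψ : Mp → Prop} (h : ∀ t, ok t → per t = L → φ t → ψ t) :
    mass L φ ≤ mass L ψ :=
  ENNReal.toReal_mono (massE_ne_top L ψ) (massE_mono L φ ψ h)

theorem mass_le_Z (L : ℕ) (φ : Mp → Prop) : mass L φ ≤ Z L :=
  ENNReal.toReal_le_of_le_ofReal (Z_pos L).le (massb_le_Z L φ)

theorem mass_eq_Z {L : ℕ} {φ : Mp → Prop} (h : ∀ t, ok t → per t = L → φ t) :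
    mass L φ = Z L := by
  refine le_antisymm (mass_le_Z L φ) ?_
  have h1 : mass L (fun _ => True) = Z L := by
    rw [mass, massE_true, ENNReal.toReal_ofReal (Z_pos L).le]
  rw [← h1]
  exact mass_mono fun t a b _ => h t a b

theorem mass_eq_zero {L : ℕ} {φ : Mp → Prop} (h : ∀ t, ok t → per t = L → ¬ φ t) :
    mass L φ = 0 := by
  refine le_antisymm ?_ (mass_nonneg L φ)
  have h1 : mass L (fun _ => False) = 0 := by simp [mass, massE]
  rw [← h1]
  exact mass_mono fun t a b c => h t a b c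

theorem mass_le_add {L : ℕ} {φ ψ χ : Mp → Prop}
    (h : ∀ t, ok t → per t = L → φ t → ψ t ∨ χ t) : mass L φ ≤ mass L ψ + mass L χ := by
  unfold mass
  rw [← ENNReal.toReal_add (massE_ne_top L ψ) (massE_ne_top L χ)]
  exact ENNReal.toReal_mono (ENNReal.add_ne_top.2 ⟨massE_ne_top L ψ, massE_ne_top L χ⟩)
    (massb_le_add h)

theorem mass_le_sum {ι : Type} {L : ℕ} {φ : Mp → Prop} (s : Finset ι) (ψ : ι → Mp → Prop)
    (h : ∀ t, ok t → per t = L → φ t → ∃ i ∈ s, ψ i t) :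
    mass L φ ≤ ∑ i ∈ s, mass L (ψ i) := by
  classical
  induction s using Finset.induction_on generalizing φ with
  | empty =>
    rw [sum_empty]
    exact (mass_eq_zero fun t a b c => by simpa using h t a b c).le
  | insert a s ha ih =>
    rw [sum_insert ha]
    refine (mass_le_add (ψ := ψ a) (χ := fun t => ∃ i ∈ s, ψ i t) fun t h1 h2 h3 => ?_).trans ?_
    · obtain ⟨i, hi, h4⟩ := h t h1 h2 h3
      rcases mem_insert.1 hi with rfl | hi
      · exact Or.inl h4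
      · exact Or.inr ⟨i, hi, h4⟩
    · exact add_le_add le_rfl (ih fun t _ _ h3 => h3)

theorem mass_add_le_Z {L : ℕ} {φ ψ : Mp → Prop}
    (h : ∀ t, ok t → per t = L → φ t → ψ t → False) : mass L φ + mass L ψ ≤ Z L := by
  unfold mass
  rw [← ENNReal.toReal_add (massE_ne_top L φ) (massE_ne_top L ψ)]
  exact ENNReal.toReal_le_of_le_ofReal (Z_pos L).le (massb_add_le h)

theorem massN_zero (L : ℕ) (φ : Mp → Prop) : massN 0 L φ = 0 :=
  mass_eq_zero fun _ _ _ h => Nat.not_lt_zero _ h.2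

theorem massN_nonneg (N L : ℕ) (φ : Mp → Prop) : 0 ≤ massN N L φ := mass_nonneg _ _

theorem massN_le_mass (N L : ℕ) (φ : Mp → Prop) : massN N L φ ≤ mass L φ :=
  mass_mono fun _ _ _ h => h.1

theorem massN_mono {N L : ℕ} {φ ψ : Mp → Prop} (h : ∀ t, ok t → per t = L → φ t → ψ t) :
    massN N L φ ≤ massN N L ψ :=
  mass_mono fun t a b c => ⟨h t a b c.1, c.2⟩

theorem massN_le_add {N L : ℕ} {φ ψ χ : Mp → Prop}
    (h : ∀ t, ok t → per t = L → φ t → ψ t ∨ χ t) :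
    massN N L φ ≤ massN N L ψ + mass L χ :=
  mass_le_add fun t a b c => (h t a b c.1).imp (fun d => ⟨d, c.2⟩) id

theorem mass_le_of_massN {L : ℕ} {φ : Mp → Prop} {c : ℝ} (h : ∀ N, massN N L φ ≤ c) :
    mass L φ ≤ c := by
  have hc : 0 ≤ c := (massN_nonneg 0 L φ).trans (h 0)
  refine ENNReal.toReal_le_of_le_ofReal hc ?_
  rw [massE_iSup]
  exact iSup_le fun N => (ENNReal.le_ofReal_iff_toReal_le (massE_ne_top _ _) hc).2 (h N)

theorem nearHyp_base (l : ℕ) : NearHyp l ((l : ℝ) + 1) 0 := by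
  intro L p q hp hq h1 h2
  rw [zero_mul]
  exact (mass_eq_zero fun t a b => not_far_of_dist a (b ▸ hp) (b ▸ hq) h1 h2).le

theorem nearHyp_triv (l : ℕ) (ρ : ℝ) : NearHyp l ρ 1 := by
  intro L p q _ _ _ _
  rw [one_mul]
  exact mass_le_Z _ _

theorem nearHyp_mono {l l' : ℕ} {ρ ρ' ε ε' : ℝ} (hl : l' ≤ l) (hρ : ρ ≤ ρ') (hε : ε ≤ ε')
    (H : NearHyp l ρ ε) : NearHyp l' ρ' ε' := by
  intro L p q hp hq h1 h2
  calc mass L (fun t => Far t {p} {q} ρ') ≤ mass L (fun t => Far t {p} {q} ρ) :=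
        mass_mono fun t _ _ c => c.mono subset_rfl subset_rfl hρ
    _ ≤ ε * Z L := H L p q hp hq (by omega) (by omega)
    _ ≤ ε' * Z L := mul_le_mul_of_nonneg_right hε (Z_pos L).le

end Pool.Agent.P.MP_7a6434d8_pr
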