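import Pool.Agent.P.MP_7a6434d8_pr.RotB
import Pool.Agent.P.MP_7a6434d8_pr.MassB

namespace Pool.Agent.P.MP_7a6434d8_pr

open Mp Finset
open scoped ENNReal

theorem rotc_wt (L k : ℕ) (t : Mp) (ht : ok t) : wt L (rotN k t) = wt L t := by
  unfold wt
  rw [rotN_per k t ht, rotN_size k t ht]
  have := rotN_ok k t ht
  simp [this, ht]

theorem rotc_tsum (g : Mp → ℝ≥0∞) (hg : ∀ t, ¬ ok t → g t = 0) :
    ∑' t, g t = ∑' t : {t : Mp // ok t}, g t.1 := by
  refine (tsum_subtype_eq_of_support_subset (s := {t | ok t}) fun t ht => ?_).symm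
  by_contra h
  exact ht (hg t h)

theorem massE_rot (L k : ℕ) (φ : Mp → Prop) :
    massE L (fun t => φ (rotN k t)) = massE L φ := by
  classical
  unfold massE
  have z : ∀ t, ¬ ok t → wt L t = 0 := fun t h => massb_wt_zero fun h' => h h'.1
  rw [rotc_tsum _ (fun t h => by simp [z t h]), rotc_tsum (fun t => if φ t then wt L t else 0)
    (fun t h => by simp [z t h])]
  let r : {t : Mp // ok t} → {t : Mp // ok t} := fun t => ⟨rotN k t.1, rotN_ok k t.1 t.2⟩
  have hr : Function.Bijective r := by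
    constructor
    · intro a b hab
      exact Subtype.ext (rotN_inj k a.1 b.1 a.2 b.2 (congrArg Subtype.val hab))
    · intro b
      obtain ⟨t, ht, h⟩ := rotN_surj k b.1 b.2
      exact ⟨⟨t, ht⟩, Subtype.ext h⟩
  rw [← (Equiv.ofBijective r hr).tsum_eq
    (fun t : {t : Mp // ok t} => if φ t.1 then wt L t.1 else 0)]
  refine tsum_congr fun t => ?_
  show _ = if φ (rotN k t.1) then wt L (rotN k t.1) else 0
  rw [rotc_wt L k t.1 t.2]

theorem mass2E_rot_left (i j k : ℕ) (ψ : Mp → Mp → Prop) :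
    mass2E i j (fun a b => ψ (rotN k a) b) = mass2E i j ψ := by
  rw [mass2E_eq_outer, mass2E_eq_outer]
  exact tsum_congr fun b => by rw [massE_rot i k (fun a => ψ a b)]

theorem mass2E_rot_right (i j k : ℕ) (ψ : Mp → Mp → Prop) :
    mass2E i j (fun a b => ψ a (rotN k b)) = mass2E i j ψ := by
  rw [mass2E_eq_inner, mass2E_eq_inner]
  exact tsum_congr fun a => by rw [massE_rot j k (fun b => ψ a b)]

theorem mass_far_shift (L k : ℕ) (S U S' U' : Set ℕ) (T : ℝ)
    (hS : ∀ p ∈ S', p ≤ 2 * L ∧ ∃ p0 ∈ S, p0 ≤ 2 * L ∧ p0 ≡ p + k [MOD 2 * L])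
    (hU : ∀ p ∈ U', p ≤ 2 * L ∧ ∃ p0 ∈ U, p0 ≤ 2 * L ∧ p0 ≡ p + k [MOD 2 * L]) :
    mass L (fun t => Far t S U T) ≤ mass L (fun t => Far t S' U' T) := by
  have h1 : mass L (fun t => Far t S' U' T) = mass L (fun t => Far (rotN k t) S' U' T) := by
    unfold mass
    rw [massE_rot L k (fun t => Far t S' U' T)]
  rw [h1]
  refine mass_mono fun t ht hL H => ?_
  subst hL
  obtain ⟨h0, e, he, H0, hs, hu⟩ := H
  have key : ∀ p p0, p0 ≤ 2 * per t → p0 ≡ p + k [MOD 2 * per t] →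
      h0 ((p + k) % (2 * per t)) = h0 p0 := by
    intro p p0 hp0 hm
    rw [← hm]
    rcases Nat.lt_or_ge p0 (2 * per t) with h | h
    · rw [Nat.mod_eq_of_lt h]
    · have : p0 = 2 * per t := by omega
      rw [this, Nat.mod_self, H0.end_eq ht]
  refine ⟨fun p => h0 ((p + k) % (2 * per t)), e, he,
    (tr_rot k t ht _ e).2 ⟨h0, H0, fun _ _ => rfl⟩, fun p hp => ?_, fun p hp => ?_⟩
  · obtain ⟨_, p0, a, b, c⟩ := hS p hp
    show h0 ((p + k) % (2 * per t)) ≤ 0
    rw [key p p0 b c]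
    exact hs p0 a
  · obtain ⟨_, p0, a, b, c⟩ := hU p hp
    show T ≤ h0 ((p + k) % (2 * per t))
    rw [key p p0 b c]
    exact hu p0 a

end Pool.Agent.P.MP_7a6434d8_pr
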