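import Pool.Agent.P.MP_7a6434d8_pr.PeelA
import Pool.Agent.P.MP_7a6434d8_pr.PeelB
import Pool.Agent.P.MP_7a6434d8_pr.RotC
import Pool.Agent.P.MP_7a6434d8_pr.MassC

namespace Pool.Agent.P.MP_7a6434d8_pr

open Mp Finset
open scoped ENNReal

theorem peel_massE_congr (L : ℕ) (φ ψ : Mp → Prop)
    (h : ∀ t, ok t → per t = L → (φ t ↔ ψ t)) : massE L φ = massE L ψ :=
  le_antisymm (massE_mono L φ ψ fun t ht hp => (h t ht hp).1)
    (massE_mono L ψ φ fun t ht hp => (h t ht hp).2)

theorem peel_mass2E_congr (i j : ℕ) (ψ χ : Mp → Mp → Prop)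
    (h : ∀ a b, ok a → per a = i → ok b → per b = j → (ψ a b ↔ χ a b)) :
    mass2E i j ψ = mass2E i j χ :=
  le_antisymm (mass2E_mono i j ψ χ fun a b ha hpa hb hpb => (h a b ha hpa hb hpb).1)
    (mass2E_mono i j χ ψ fun a b ha hpa hb hpb => (h a b ha hpa hb hpb).2)

theorem peel_face_term (L k : ℕ) (φ : Mp → Prop) :
    massE (L + 1) (fun t => φ (rotN (2 * L - k) (face t)))
      = massE (L + 1) (fun t' => φ (faceAt k t')) := by
  rw [← massE_rot (L + 1) k (fun t => φ (rotN (2 * L - k) (face t)))]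
  refine peel_massE_congr _ _ _ fun t _ hp => ?_
  unfold faceAt
  rw [hp, Nat.add_sub_cancel]

theorem peel_right_term (L k j : ℕ) (hj : j < L) (φ : Mp → Prop) :
    mass2E (L - 1 - j) j (fun a b => φ (rotN (2 * L - k) (bridge a b)))
      = mass2E (L - 1 - j) j (fun a b => φ (brR k a b)) := by
  rw [← mass2E_rot_left (L - 1 - j) j k (fun a b => φ (rotN (2 * L - k) (bridge a b)))]
  refine peel_mass2E_congr _ _ _ _ fun a b _ hpa _ hpb => ?_
  unfold brR
  have : per a + per b + 1 = L := by omega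
  rw [this]

theorem peel_left_term (L k j : ℕ) (hj : j < L) (hk : 2 * j + 1 ≤ k) (φ : Mp → Prop) :
    mass2E j (L - 1 - j) (fun a b => φ (rotN (2 * L - k) (bridge a b)))
      = mass2E (L - 1 - j) j (fun a b => φ (brL (k - 2 * j - 1) a b)) := by
  rw [mass2E_swap, ← mass2E_rot_left (L - 1 - j) j (k - 2 * j - 1)
    (fun b a => φ (rotN (2 * L - k) (bridge a b)))]
  refine peel_mass2E_congr _ _ _ _ fun a b _ hpa _ hpb => ?_
  unfold brL
  have h1 : per a + per b + 1 = L := by omega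
  have h2 : k - 2 * j - 1 + 2 * per b + 1 = k := by omega
  rw [h1, h2]

theorem peel_eqE (L k : ℕ) (hk : k < 2 * L) (φ : Mp → Prop) :
    massE L φ = (12 : ℝ≥0∞)⁻¹ * massE (L + 1) (fun t' => φ (faceAt k t'))
      + ∑ j ∈ range ((2 * L - k) / 2), mass2E (L - 1 - j) j (fun a b => φ (brR k a b))
      + ∑ j ∈ range ((k + 1) / 2),
          mass2E (L - 1 - j) j (fun a b => φ (brL (k - 2 * j - 1) a b)) := by
  have hL : 1 ≤ L := by omega
  rw [← massE_rot L (2 * L - k) φ, massE_root L hL, peel_face_term, add_assoc]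
  congr 1
  have hsplit : L = (2 * L - k) / 2 + (k + 1) / 2 := by omega
  have key : ∀ F : ℕ → ℝ≥0∞, ∑ j ∈ range L, F j
      = ∑ j ∈ range ((2 * L - k) / 2), F j + ∑ j ∈ range ((k + 1) / 2), F (L - 1 - j) := by
    intro F
    conv_lhs => rw [hsplit, sum_range_add]
    congr 1
    rw [← sum_range_reflect]
    refine sum_congr rfl fun j hj => ?_
    rw [mem_range] at hj
    congr 1
    omega
  rw [key]
  congr 1
  · refine sum_congr rfl fun j hj => ?_
    rw [mem_range] at hj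
    exact peel_right_term L k j (by omega) φ
  · refine sum_congr rfl fun j hj => ?_
    rw [mem_range] at hj
    have h1 : L - 1 - (L - 1 - j) = j := by omega
    rw [h1]
    exact peel_left_term L k j (by omega) (by omega) φ

theorem peel_eq (L k : ℕ) (hk : k < 2 * L) (φ : Mp → Prop) :
    mass L φ = mass (L + 1) (fun t' => φ (faceAt k t')) / 12
      + ∑ j ∈ range ((2 * L - k) / 2), mass2 (L - 1 - j) j (fun a b => φ (brR k a b))
      + ∑ j ∈ range ((k + 1) / 2),
          mass2 (L - 1 - j) j (fun a b => φ (brL (k - 2 * j - 1) a b)) := by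
  unfold mass mass2
  have h12 : (12 : ℝ≥0∞)⁻¹ ≠ ⊤ := ENNReal.inv_ne_top.2 (by norm_num)
  have hA : (12 : ℝ≥0∞)⁻¹ * massE (L + 1) (fun t' => φ (faceAt k t')) ≠ ⊤ :=
    ENNReal.mul_ne_top h12 (massE_ne_top _ _)
  have hB : ∑ j ∈ range ((2 * L - k) / 2),
      mass2E (L - 1 - j) j (fun a b => φ (brR k a b)) ≠ ⊤ :=
    ENNReal.sum_ne_top.2 fun j _ => mass2E_ne_top _ _ _
  have hC : ∑ j ∈ range ((k + 1) / 2),
      mass2E (L - 1 - j) j (fun a b => φ (brL (k - 2 * j - 1) a b)) ≠ ⊤ :=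
    ENNReal.sum_ne_top.2 fun j _ => mass2E_ne_top _ _ _
  rw [peel_eqE L k hk φ, ENNReal.toReal_add (ENNReal.add_ne_top.2 ⟨hA, hB⟩) hC,
    ENNReal.toReal_add hA hB, ENNReal.toReal_sum (fun j _ => mass2E_ne_top _ _ _),
    ENNReal.toReal_sum (fun j _ => mass2E_ne_top _ _ _), ENNReal.toReal_mul, ENNReal.toReal_inv]
  congr 2
  rw [div_eq_inv_mul]
  norm_num

theorem peel_le (N L k : ℕ) (hk : k < 2 * L) (φ : Mp → Prop) :
    massN (N + 1) L φ ≤ massN N (L + 1) (fun t' => φ (faceAt k t')) / 12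
      + ∑ j ∈ range ((2 * L - k) / 2), mass2N N (L - 1 - j) j (fun a b => φ (brR k a b))
      + ∑ j ∈ range ((k + 1) / 2),
          mass2N N (L - 1 - j) j (fun a b => φ (brL (k - 2 * j - 1) a b)) := by
  unfold massN mass2N
  rw [peel_eq L k hk]
  refine add_le_add (add_le_add ?_ ?_) ?_
  · refine div_le_div_of_nonneg_right (mass_mono fun t ht hp h => ⟨h.1, ?_⟩) (by norm_num)
    have := (isFace_faceAt k t ht (by omega)).edges_eq
    have h2 := h.2
    omega
  · refine sum_le_sum fun j hj => mass2_mono fun a b ha hpa hb hpb h => ?_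
    rw [mem_range] at hj
    have := (isBr_brR k a b ha hb (by omega)).edges_eq
    have h2 := h.2
    exact ⟨h.1, by omega, by omega⟩
  · refine sum_le_sum fun j hj => mass2_mono fun a b ha hpa hb hpb h => ?_
    rw [mem_range] at hj
    have := (isBr_brL (k - 2 * j - 1) a b ha hb (by omega)).edges_eq
    have h2 := h.2
    exact ⟨h.1, by omega, by omega⟩

end Pool.Agent.P.MP_7a6434d8_pr
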