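import Pool.Agent.P.MP_7a6434d8_pr.CutNum
import Pool.Agent.P.MP_7a6434d8_pr.Peel

namespace Pool.Agent.P.MP_7a6434d8_pr

open Mp Finset
open scoped ENNReal

theorem cut_face {k v0 c0 π0 : ℕ} {Tc : ℝ} {t t' : Mp} (H : IsFace k t t') (hv : v0 ≤ k)
    (hk : π0 ≤ k) (hF : Far t (Set.Icc 0 v0) (Set.Icc c0 π0) Tc) :
    Far t' (Set.Icc 0 v0) (Set.Icc c0 π0) Tc := by
  obtain ⟨h, e, he, htr, hS, hU⟩ := hF
  obtain ⟨h', htr', h1, -⟩ := (H.tr h e).1 htr
  refine ⟨h', e, he, htr'.mono (by nlinarith [sq_nonneg (h' k - h' (k + 3))]), ?_, ?_⟩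
  · intro p hp
    rw [← h1 p (le_trans hp.2 hv)]
    exact hS p hp
  · intro p hp
    rw [← h1 p (le_trans hp.2 hk)]
    exact hU p hp

theorem cut_outer {m v0 c0 π0 : ℕ} {Tc : ℝ} {t a b : Mp} (H : IsBr m t a b) (hv : v0 ≤ m)
    (hk : π0 ≤ m) (hF : Far t (Set.Icc 0 v0) (Set.Icc c0 π0) Tc) :
    Far a (Set.Icc 0 v0) (Set.Icc c0 π0) Tc := by
  obtain ⟨h, e, he, htr, hS, hU⟩ := hF
  obtain ⟨h1, h2, e1, e2, ht1, ht2, hle, hp1, -, -⟩ := (H.tr h e).1 htr
  have := ht2.nonneg
  refine ⟨h1, e, he, ht1.mono (by nlinarith [sq_nonneg (h1 m - h2 0)]), ?_, ?_⟩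
  · intro p hp
    rw [← hp1 p (le_trans hp.2 hv)]
    exact hS p hp
  · intro p hp
    rw [← hp1 p (le_trans hp.2 hk)]
    exact hU p hp

theorem cut_hit {m v0 c0 π0 : ℕ} {T Tc : ℝ} {t a b : Mp} (H : IsBr m t a b) (hvc : v0 ≤ c0)
    (hcp : c0 ≤ π0) (hc : c0 ≤ m + 1 + 2 * per b) (hT : 0 ≤ T) (hTc : 2 * T + 1 ≤ Tc)
    (hF : Far t (Set.Icc 0 v0) (Set.Icc c0 π0) Tc) :
    Far a {min v0 m} {min c0 m} T ∨ Far b {v0 - (m + 1)} {c0 - (m + 1)} T := by
  obtain ⟨h, e, he, htr, hS, hU⟩ := hF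
  obtain ⟨h1, h2, e1, e2, ht1, ht2, hle, hp1, hp2, -⟩ := (H.tr h e).1 htr
  have n1 := ht1.nonneg
  have n2 := ht2.nonneg
  have hsq := sq_nonneg (h1 m - h2 0)
  have he1 : e1 < 1 := by linarith
  have he2 : e2 < 1 := by linarith
  have hv : h v0 ≤ 0 := hS v0 ⟨Nat.zero_le _, le_rfl⟩
  have hcc : Tc ≤ h c0 := hU c0 ⟨le_rfl, hcp⟩
  by_contra hn
  rw [not_or] at hn
  have l1 := lt_of_not_far hn.1 ht1 he1
  have l2 := lt_of_not_far hn.2 ht2 he2
  by_cases hcm : c0 ≤ m
  · rw [min_eq_left hcm, min_eq_left (le_trans hvc hcm), ← hp1 c0 hcm,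
      ← hp1 v0 (le_trans hvc hcm)] at l1
    linarith
  · have e3 : h2 (c0 - (m + 1)) = h c0 := by
      rw [← hp2 _ (by omega)]
      congr 1
      omega
    by_cases hvm : v0 ≤ m
    · rw [min_eq_left hvm, min_eq_right (by omega), ← hp1 v0 hvm] at l1
      have e4 : v0 - (m + 1) = 0 := by omega
      rw [e3, e4] at l2
      have : (h1 m - h2 0) ^ 2 < 1 := by linarith
      have : h2 0 < h1 m + 1 := by nlinarith
      linarith
    · have e4 : h2 (v0 - (m + 1)) = h v0 := by
        rw [← hp2 _ (by omega)]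
        congr 1
        omega
      rw [e3, e4] at l2
      linarith

theorem cut_psi_nonneg {L0 n : ℕ} (h : L0 ≤ n) : 0 ≤ psiC L0 n := by
  unfold psiC
  have h1 : (L0 : ℝ) ≤ n := by exact_mod_cast h
  have h2 : (0 : ℝ) < (n : ℝ) + 3 / 2 := by positivity
  rw [sub_nonneg, div_le_one h2]
  linarith

theorem cut_psi_le_one (L0 n : ℕ) : psiC L0 n ≤ 1 := by
  unfold psiC
  have : (0 : ℝ) ≤ ((L0 : ℝ) + 3 / 2) / ((n : ℝ) + 3 / 2) := by positivity
  linarith

theorem cut : ∃ C : ℝ, 0 < C ∧ ∀ (v0 c0 π0 l Λ : ℕ) (T Tc β η : ℝ), v0 ≤ c0 → c0 ≤ π0 →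
    c0 ≤ v0 + l → 4 * π0 ≤ Λ → 1 ≤ Λ → 0 ≤ β → 0 ≤ η → 0 ≤ T → 2 * T + 1 ≤ Tc →
    NearHyp l T β →
    (∀ L, L ≤ Λ → π0 ≤ 2 * L →
      mass L (fun t => Far t (Set.Icc 0 v0) (Set.Icc c0 π0) Tc) ≤ η * Z L) →
    ∀ L, π0 ≤ 2 * L → mass L (fun t => Far t (Set.Icc 0 v0) (Set.Icc c0 π0) Tc)
      ≤ (η + C * β * ((π0 : ℝ) + 1) / Λ) * Z L := by
  obtain ⟨C0, hC0, hnum⟩ := cut_num
  refine ⟨8 * C0, by positivity, ?_⟩
  intro v0 c0 π0 l Λ T Tc β η hvc hcp hcl hΛ hΛ1 hβ hη hT hTc hnear hyp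
  set E : Mp → Prop := fun t => Far t (Set.Icc 0 v0) (Set.Icc c0 π0) Tc with hE
  obtain ⟨L0, hL0⟩ : ∃ L0, L0 = Λ / 4 := ⟨_, rfl⟩
  obtain ⟨η', hη'⟩ : ∃ η' : ℝ, η' = 2 * β * C0 * ((π0 : ℝ) + 1) / ((L0 : ℝ) + 1) := ⟨_, rfl⟩
  have hη'0 : 0 ≤ η' := by rw [hη']; positivity
  have key : ∀ N L, L0 ≤ L → π0 ≤ 2 * L → massN N L E ≤ (η + η' * psiC L0 L) * Z L := by
    intro N
    induction N with
    | zero =>
      intro L hL _
      rw [massN_zero]
      have := cut_psi_nonneg hL
      have := Z_pos L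
      positivity
    | succ N ih =>
      intro L hL hp
      by_cases hLΛ : L ≤ Λ
      · have h1 := massN_le_mass (N + 1) L E
        have h2 := hyp L hLΛ hp
        have h3 := cut_psi_nonneg hL
        have h4 := Z_pos L
        have h5 : 0 ≤ η' * psiC L0 L * Z L := by positivity
        linarith
      have hk : L < 2 * L := by omega
      have hpeel := peel_le N L L hk E
      have htut := tutte_at L L hk
      have e2 : (2 * L - L) / 2 = L / 2 := by
        congr 1
        omega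
      rw [e2] at hpeel htut
      have hcn := hnum L L0 π0 (by omega) (by omega)
      have hface : massN N (L + 1) (fun t' => E (faceAt L t'))
          ≤ (η + η' * psiC L0 (L + 1)) * Z (L + 1) := by
        refine le_trans (massN_mono ?_) (ih (L + 1) (by omega) (by omega))
        intro t' ht' hper hF
        exact cut_face (isFace_faceAt L t' ht' (by omega)) (by omega) (by omega) hF
      have hright : ∑ j ∈ range (L / 2), mass2N N (L - 1 - j) j (fun a b => E (brR L a b))
          ≤ ∑ j ∈ range (L / 2), (η * (Z (L - 1 - j) * Z j)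
            + η' * (psiC L0 (L - 1 - j) * (Z (L - 1 - j) * Z j))) := by
        refine sum_le_sum fun j hj => ?_
        have hj' := mem_range.1 hj
        have h1 : mass2N N (L - 1 - j) j (fun a b => E (brR L a b))
            ≤ massN N (L - 1 - j) E * Z j := by
          refine mass2N_le_outer ?_
          intro a b ha hpa hb hpb hF
          exact cut_outer (isBr_brR L a b ha hb (by omega)) (by omega) (by omega) hF
        have h2 := mul_le_mul_of_nonneg_right (ih (L - 1 - j) (by omega) (by omega)) (Z_pos j).le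
        linarith
      have hleft : ∑ j ∈ range ((L + 1) / 2),
            mass2N N (L - 1 - j) j (fun a b => E (brL (L - 2 * j - 1) a b))
          ≤ ∑ j ∈ range ((L + 1) / 2), (η * (Z (L - 1 - j) * Z j)
            + η' * (psiC L0 (L - 1 - j) * (Z (L - 1 - j) * Z j))
            + 2 * β * (if L < π0 + 2 * j + 1 then Z (L - 1 - j) * Z j else 0)) := by
        refine sum_le_sum fun j hj => ?_
        have hj' := mem_range.1 hj
        have z1 := Z_pos (L - 1 - j)
        have z2 := Z_pos j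
        split_ifs with hhit
        · have h1 := mass2N_le_mass2 N (L - 1 - j) j
            (fun a b => E (brL (L - 2 * j - 1) a b))
          have h2 : mass2 (L - 1 - j) j (fun a b => E (brL (L - 2 * j - 1) a b))
              ≤ mass (L - 1 - j)
                  (fun a => Far a {min v0 (L - 2 * j - 1)} {min c0 (L - 2 * j - 1)} T) * Z j
                + Z (L - 1 - j) * mass j
                  (fun b => Far b {v0 - (L - 2 * j - 1 + 1)} {c0 - (L - 2 * j - 1 + 1)} T) := by
            refine mass2_le_split ?_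
            intro a b ha hpa hb hpb hF
            exact cut_hit (isBr_brL _ a b ha hb (by omega)) hvc hcp (by omega) hT hTc hF
          have h3 := hnear (L - 1 - j) (min v0 (L - 2 * j - 1)) (min c0 (L - 2 * j - 1))
            (by omega) (by omega) (by omega) (by omega)
          have h4 := hnear j (v0 - (L - 2 * j - 1 + 1)) (c0 - (L - 2 * j - 1 + 1))
            (by omega) (by omega) (by omega) (by omega)
          have h5 := mul_le_mul_of_nonneg_right h3 z2.le
          have h6 := mul_le_mul_of_nonneg_left h4 z1.le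
          have h7 : 0 ≤ psiC L0 (L - 1 - j) := cut_psi_nonneg (by omega)
          have h8 : 0 ≤ η * (Z (L - 1 - j) * Z j) := by positivity
          have h9 : 0 ≤ η' * (psiC L0 (L - 1 - j) * (Z (L - 1 - j) * Z j)) := by positivity
          linarith
        · have h1 : mass2N N (L - 1 - j) j (fun a b => E (brL (L - 2 * j - 1) a b))
              ≤ massN N (L - 1 - j) E * Z j := by
            refine mass2N_le_outer ?_
            intro a b ha hpa hb hpb hF
            exact cut_outer (isBr_brL _ a b ha hb (by omega)) (by omega) (by omega) hF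
          have h2 := mul_le_mul_of_nonneg_right (ih (L - 1 - j) (by omega) (by omega)) z2.le
          linarith
      rw [sum_add_distrib, ← mul_sum, ← mul_sum] at hright
      rw [sum_add_distrib, sum_add_distrib, ← mul_sum, ← mul_sum, ← mul_sum,
        ← sum_filter] at hleft
      have hm := mul_le_mul_of_nonneg_left hcn hη'0
      have e5 : η' * (((L0 : ℝ) + 1) / (C0 * (π0 + 1))) = 2 * β := by
        rw [hη']
        field_simp
      have e6 : ∀ s : ℝ, η' * (((L0 : ℝ) + 1) / (C0 * (π0 + 1)) * s) = 2 * β * s := by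
        intro s
        rw [← mul_assoc, e5]
      rw [mul_add, e6] at hm
      have e7 : η * Z L = η * (Z (L + 1) / 12 + ∑ j ∈ range (L / 2), Z (L - 1 - j) * Z j
          + ∑ j ∈ range ((L + 1) / 2), Z (L - 1 - j) * Z j) := by rw [← htut]
      linarith
  intro L hp
  have z := Z_pos L
  have hΛr : (0 : ℝ) < Λ := by exact_mod_cast hΛ1
  by_cases hLΛ : L ≤ Λ
  · have h2 := hyp L hLΛ hp
    have h5 : 0 ≤ 8 * C0 * β * ((π0 : ℝ) + 1) / Λ * Z L := by positivity
    linarith
  · have h1 := mass_le_of_massN (fun N => key N L (by omega) hp)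
    refine le_trans h1 (mul_le_mul_of_nonneg_right ?_ z.le)
    have h2 : η' * psiC L0 L ≤ η' := by
      have := mul_le_mul_of_nonneg_left (cut_psi_le_one L0 L) hη'0
      linarith
    have h3 : η' ≤ 8 * C0 * β * ((π0 : ℝ) + 1) / Λ := by
      rw [hη', div_le_div_iff₀ (by positivity) hΛr]
      have h4 : (Λ : ℝ) ≤ 4 * ((L0 : ℝ) + 1) := by
        have : Λ ≤ 4 * (L0 + 1) := by omega
        exact_mod_cast this
      have h5 : 0 ≤ 2 * β * C0 * ((π0 : ℝ) + 1) := by positivity
      have h6 := mul_le_mul_of_nonneg_left h4 h5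
      linarith
    linarith

end Pool.Agent.P.MP_7a6434d8_pr
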