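import Pool.Agent.P.MP_7a6434d8_pr.Chord0
import Pool.Agent.P.MP_7a6434d8_pr.Cut

namespace Pool.Agent.P.MP_7a6434d8_pr

open Mp Finset
open scoped ENNReal

theorem chord_exp {δ0 : ℝ} (h0 : 0 < δ0) (h1 : δ0 ≤ 1) {G a m : ℕ} (hG : 1 ≤ G) (ha : 0 < a)
    (hm : m ≤ 20 * a) (hlow : a ≤ 600 * G ^ 2 * m) :
    (1 - δ0 * ((m : ℝ) / ((20 * a : ℕ) : ℝ)) ^ 3) ^ (G ^ 8)
      ≤ Real.exp (-(δ0 / 12000 ^ 3 * (G : ℝ) ^ 2)) := by
  have ha' : (0 : ℝ) < a := by exact_mod_cast ha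
  have hG' : (1 : ℝ) ≤ G := by exact_mod_cast hG
  set y : ℝ := (m : ℝ) / ((20 * a : ℕ) : ℝ) with hy
  have h20 : (0 : ℝ) < ((20 * a : ℕ) : ℝ) := by push_cast; positivity
  have hy1 : y ≤ 1 := by rw [hy, div_le_one h20]; exact_mod_cast hm
  have hy0 : 0 ≤ y := by positivity
  have hy2 : 1 / (12000 * (G : ℝ) ^ 2) ≤ y := by
    rw [hy, div_le_div_iff₀ (by positivity) h20]
    have : (a : ℝ) ≤ 600 * (G : ℝ) ^ 2 * m := by exact_mod_cast hlow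
    push_cast
    nlinarith
  have h3 : y ^ 3 ≤ 1 := pow_le_one₀ hy0 hy1
  have h4 : δ0 * y ^ 3 ≤ 1 := by nlinarith [pow_nonneg hy0 3]
  have h5 : 1 - δ0 * y ^ 3 ≤ Real.exp (-(δ0 * y ^ 3)) := by
    have := Real.add_one_le_exp (-(δ0 * y ^ 3)); linarith
  refine (pow_le_pow_left₀ (by linarith) h5 _).trans ?_
  rw [← Real.exp_nat_mul]
  apply Real.exp_le_exp.2
  have h6 : (1 / (12000 * (G : ℝ) ^ 2)) ^ 3 ≤ y ^ 3 := pow_le_pow_left₀ (by positivity) hy2 3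
  have e : δ0 / 12000 ^ 3 * (G : ℝ) ^ 2 = (G : ℝ) ^ 8 * (δ0 * (1 / (12000 * (G : ℝ) ^ 2)) ^ 3) := by
    field_simp
  rw [e]
  push_cast
  have : (G : ℝ) ^ 8 * (δ0 * (1 / (12000 * (G : ℝ) ^ 2)) ^ 3) ≤ (G : ℝ) ^ 8 * (δ0 * y ^ 3) := by
    gcongr
  linarith

theorem chord_sqrt {G a m : ℕ} (hG : 1 ≤ G) (ha : 0 < a) (hm : G ^ 2 * m ≤ a) :
    √(m : ℝ) / √(a : ℝ) ≤ 1 / G := by
  have ha' : (0 : ℝ) < a := by exact_mod_cast ha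
  have hG' : (0 : ℝ) < G := by exact_mod_cast hG
  rw [div_le_div_iff₀ (Real.sqrt_pos.2 ha') hG', one_mul]
  have h1 : (G : ℝ) ^ 2 * m ≤ a := by exact_mod_cast hm
  have h2 := Real.sqrt_le_sqrt h1
  rw [Real.sqrt_mul (by positivity), Real.sqrt_sq hG'.le] at h2
  linarith

theorem chord_Av {G N : ℕ} (hG : 1 ≤ G) (hN : 1 ≤ N) : Av N / Av (N * G ^ 2) ≤ 2 / G := by
  have hG' : (1 : ℝ) ≤ G := by exact_mod_cast hG
  have hN' : (1 : ℝ) ≤ N := by exact_mod_cast hN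
  rw [div_le_div_iff₀ (chord0_Av_pos _) (by linarith)]
  unfold Av
  push_cast
  have h1 : (N : ℝ) ≤ N * (G : ℝ) ^ 2 := by nlinarith [one_le_pow₀ hG' (n := 2)]
  have h2 : ((N : ℝ) + 1) * G ≤ 2 * (N * (G : ℝ) ^ 2 + 1) := by
    have : (N : ℝ) * G ≤ N * (G : ℝ) ^ 2 := by nlinarith [mul_nonneg (by linarith : (0 : ℝ) ≤ N) (by linarith : (0 : ℝ) ≤ G)]
    nlinarith
  calc ((N : ℝ) + 1) * (N + 2) * G = ((N + 1) * G) * (N + 2) := by ring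
    _ ≤ (2 * (N * (G : ℝ) ^ 2 + 1)) * (N * (G : ℝ) ^ 2 + 2) := by gcongr
    _ = _ := by ring

theorem chord_mw (G M : ℕ) :
    √(((160 * M * G ^ 4 + 1 : ℕ) : ℝ)) ≤ 13 * (G : ℝ) ^ 2 * M + 1 := by
  apply Real.sqrt_le_iff.2
  refine ⟨by positivity, ?_⟩
  have h : (M : ℝ) ≤ (M : ℝ) ^ 2 := by exact_mod_cast Nat.le_self_pow (by norm_num) M
  push_cast
  have h1 : (0 : ℝ) ≤ (G : ℝ) ^ 4 := by positivity
  have h2 : (0 : ℝ) ≤ (G : ℝ) ^ 2 * M := by positivity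
  have h3 : (G : ℝ) ^ 4 * M ≤ (G : ℝ) ^ 4 * (M : ℝ) ^ 2 := mul_le_mul_of_nonneg_left h h1
  have h4 : (0 : ℝ) ≤ (G : ℝ) ^ 4 * (M : ℝ) ^ 2 := by positivity
  nlinarith

theorem chord_Bv {G a b lam : ℕ} (hG : 1 ≤ G) (ha : 0 < a) (hab : a ≤ b) (hlam : 1 ≤ lam)
    {ε : ℝ} (hε : 0 ≤ ε) :
    ((G ^ 8 : ℕ) : ℝ) * (ε * (2 * lam + 1) * Bv (80 * a * G ^ 2))
      ≤ 20172 * (G : ℝ) ^ 12 * (b : ℝ) ^ 2 * lam * ε := by
  have hG' : (1 : ℝ) ≤ G := by exact_mod_cast hG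
  have ha' : (1 : ℝ) ≤ a := by exact_mod_cast ha
  have hab' : (a : ℝ) ≤ b := by exact_mod_cast hab
  have hl : (1 : ℝ) ≤ lam := by exact_mod_cast hlam
  have h0 : (1 : ℝ) ≤ a * (G : ℝ) ^ 2 := one_le_mul_of_one_le_of_one_le ha' (one_le_pow₀ hG')
  have h1 : Bv (80 * a * G ^ 2) ≤ (82 * (b * (G : ℝ) ^ 2)) ^ 2 := by
    have h2 : (a : ℝ) * (G : ℝ) ^ 2 ≤ b * (G : ℝ) ^ 2 := by gcongr
    unfold Bv
    push_cast
    nlinarith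
  have h2 : (2 * (lam : ℝ) + 1) ≤ 3 * lam := by linarith
  have h3 := chord0_Bv_nonneg (80 * a * G ^ 2)
  calc ((G ^ 8 : ℕ) : ℝ) * (ε * (2 * lam + 1) * Bv (80 * a * G ^ 2))
      ≤ ((G ^ 8 : ℕ) : ℝ) * (ε * (3 * lam) * (82 * (b * (G : ℝ) ^ 2)) ^ 2) := by gcongr
    _ = _ := by push_cast; ring

theorem chord : ∃ C δ : ℝ, 0 < C ∧ 0 < δ ∧
    ∀ (G M lam a x0 x1 x2 x3 L : ℕ) (ρ ε T β : ℝ), 1 ≤ G → C * (G : ℝ) ^ 2 ≤ a → 1 ≤ lam →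
    a ≤ M * lam → x0 + a ≤ x1 → x1 ≤ x2 → x2 + a ≤ x3 → x3 ≤ x0 + 20 * a → x2 ≤ x1 + M * lam →
    x3 ≤ 2 * L → 0 ≤ ρ → 0 ≤ ε → 0 < T → 0 ≤ β → NearHyp lam ρ ε → NearHyp (M * lam) T β →
    mass L (fun t => Far t (Set.Icc x0 x1) (Set.Icc x2 x3)
        (2 * T + 1 + (G : ℝ) ^ 8 * (13 * (G : ℝ) ^ 2 * M + ρ + 3)))
      ≤ (Real.exp (-(δ * (G : ℝ) ^ 2)) + C * β / G
          + C * (G : ℝ) ^ 12 * ((M : ℝ) * lam) ^ 2 * lam * ε) * Z L := by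
  obtain ⟨C0, δ0, hC0, hδ0, hδ1, h0⟩ := chord0
  obtain ⟨C1, hC1, hcut⟩ := cut
  refine ⟨C0 + C1 + 20172, δ0 / 12000 ^ 3, by positivity, by positivity, ?_⟩
  intro G M lam a x0 x1 x2 x3 L ρ ε T β hG hCa hlam haM h01 h12 h23 h30 h21 h3L hρ hε hT hβ hN hN'
  have hG' : (1 : ℝ) ≤ G := by exact_mod_cast hG
  have hG0 : (0 : ℝ) < G := by linarith
  have hn : 1 ≤ G ^ 2 := Nat.one_le_pow _ _ hG
  have ha1 : 2400 * G ^ 2 ≤ a := by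
    have h1 : (2400 : ℝ) * (G : ℝ) ^ 2 ≤ a :=
      le_trans (mul_le_mul_of_nonneg_right (by linarith) (by positivity)) hCa
    exact_mod_cast h1
  have ha : 0 < a := by omega
  obtain ⟨m, hm8, hm1, hm2⟩ : ∃ m, 8 ≤ m ∧ 300 * G ^ 2 * m ≤ a ∧ a ≤ 600 * G ^ 2 * m := by
    have hp : 0 < 300 * G ^ 2 := by omega
    have e1 : 8 ≤ a / (300 * G ^ 2) := (Nat.le_div_iff_mul_le hp).2 (by omega)
    refine ⟨a / (300 * G ^ 2), e1, Nat.mul_div_le _ _, ?_⟩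
    have e2 := Nat.lt_mul_div_succ a hp
    nlinarith
  have hm3 : G ^ 2 * m ≤ a := by nlinarith
  have hm4 : 300 * m ≤ a := by nlinarith
  set Tc : ℝ := 2 * T + 1 + (G : ℝ) ^ 8 * (13 * (G : ℝ) ^ 2 * M + ρ + 3) with hTc
  obtain ⟨v0, rfl⟩ : ∃ v0, x1 = x0 + v0 := ⟨x1 - x0, by omega⟩
  obtain ⟨c0, rfl⟩ : ∃ c0, x2 = x0 + c0 := ⟨x2 - x0, by omega⟩
  obtain ⟨π0, rfl⟩ : ∃ π0, x3 = x0 + π0 := ⟨x3 - x0, by omega⟩
  have s1 : mass L (fun t => Far t (Set.Icc x0 (x0 + v0)) (Set.Icc (x0 + c0) (x0 + π0)) Tc)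
      ≤ mass L (fun t => Far t (Set.Icc 0 v0) (Set.Icc c0 π0) Tc) := by
    refine mass_far_shift L x0 _ _ _ _ Tc ?_ ?_
    · rintro p ⟨-, hp⟩
      exact ⟨by omega, p + x0, ⟨by omega, by omega⟩, by omega, Nat.ModEq.refl _⟩
    · rintro p ⟨hp1, hp⟩
      exact ⟨by omega, p + x0, ⟨by omega, by omega⟩, by omega, Nat.ModEq.refl _⟩
  refine s1.trans ?_
  set Λ1 : ℕ := 80 * a * G ^ 2 with hΛ1
  have hΛa : 80 * a ≤ Λ1 := by nlinarith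
  set η : ℝ := Real.exp (-(δ0 / 12000 ^ 3 * (G : ℝ) ^ 2)) + (C0 + 2) * β / G
    + 20172 * (G : ℝ) ^ 12 * ((M : ℝ) * lam) ^ 2 * lam * ε with hη
  have hη0 : 0 ≤ η := by positivity
  have hpos : 0 ≤ (G : ℝ) ^ 8 * (13 * (G : ℝ) ^ 2 * M + ρ + 3) := by positivity
  have inner : ∀ L', L' ≤ Λ1 → π0 ≤ 2 * L' →
      mass L' (fun t => Far t (Set.Icc 0 v0) (Set.Icc c0 π0) Tc) ≤ η * Z L' := by
    intro L' hL1 hL2
    obtain ⟨u, hu⟩ : ∃ u, u + c0 = 2 * L' := ⟨2 * L' - c0, by omega⟩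
    have s2 : mass L' (fun t => Far t (Set.Icc 0 v0) (Set.Icc c0 π0) Tc)
        ≤ mass L' (fun t => Far t (Set.Icc u (u + v0)) (Set.Icc 0 (π0 - c0)) Tc) := by
      refine mass_far_shift L' c0 _ _ _ _ Tc ?_ ?_
      · rintro p ⟨hp1, hp⟩
        refine ⟨by omega, p - u, ⟨by omega, by omega⟩, by omega, ?_⟩
        have e : p + c0 = p - u + 2 * L' := by omega
        rw [e]
        exact (Nat.add_modEq_right).symm
      · rintro p ⟨-, hp⟩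
        exact ⟨by omega, p + c0, ⟨by omega, by omega⟩, by omega, Nat.ModEq.refl _⟩
    have hmw : 2 * (Λ1 * G ^ 2) < (160 * M * G ^ 4 + 1) * lam := by
      have e : 2 * (Λ1 * G ^ 2) = 160 * G ^ 4 * a := by rw [hΛ1]; ring
      have e' : (160 * M * G ^ 4 + 1) * lam = 160 * G ^ 4 * (M * lam) + lam := by ring
      have := Nat.mul_le_mul_left (160 * G ^ 4) haM
      omega
    have s3 := h0 a m (π0 - c0) (c0 - v0) (20 * a) (M * lam) lam (160 * M * G ^ 4 + 1) Λ1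
      (Λ1 * G ^ 2) (G ^ 8) ρ ε T β hm8 hm4 (by omega) (by omega) (by omega) (by omega) hlam hmw
      hρ hε hT hβ hN hN' L' u (u + v0) ⟨by omega, by omega, by omega, by omega⟩ (by omega) hL1
    have hthr : T + ((G ^ 8 : ℕ) : ℝ) * (√(((160 * M * G ^ 4 + 1 : ℕ) : ℝ)) + ρ + 2) ≤ Tc := by
      have h1 := chord_mw G M
      have h2 : ((G ^ 8 : ℕ) : ℝ) * (√(((160 * M * G ^ 4 + 1 : ℕ) : ℝ)) + ρ + 2)
          ≤ (G : ℝ) ^ 8 * (13 * (G : ℝ) ^ 2 * M + ρ + 3) := by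
        rw [Nat.cast_pow]
        exact mul_le_mul_of_nonneg_left (by linarith) (by positivity)
      linarith
    refine s2.trans (le_trans (mass_mono fun t _ _ hF => hF.mono le_rfl le_rfl hthr)
      (s3.trans (mul_le_mul_of_nonneg_right ?_ (Z_pos L').le)))
    have b1 := chord_exp hδ0 hδ1 hG ha (show m ≤ 20 * a by omega) hm2
    have b2 := chord_sqrt hG ha hm3
    have b3 := chord_Av hG (show 1 ≤ Λ1 by omega)
    have b4 := chord_Bv hG ha haM hlam hε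
    have b5 : β * (C0 * √(m : ℝ) / √(a : ℝ) + Av Λ1 / Av (Λ1 * G ^ 2)) ≤ (C0 + 2) * β / G := by
      have e : (C0 + 2) * β / G = β * (C0 * (1 / G) + 2 / G) := by field_simp
      rw [e, mul_div_assoc]
      gcongr
    rw [Nat.cast_mul M lam] at b4
    rw [hη]
    linarith
  have s4 := hcut v0 c0 π0 (M * lam) Λ1 T Tc β η (by omega) (by omega) (by omega) (by omega)
    (by omega) hβ hη0 hT.le (by linarith) hN' inner L (by omega)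
  refine s4.trans (mul_le_mul_of_nonneg_right ?_ (Z_pos L).le)
  have b6 : C1 * β * ((π0 : ℝ) + 1) / Λ1 ≤ C1 * β / G := by
    have hΛ0 : (0 : ℝ) < Λ1 := by exact_mod_cast (show 0 < Λ1 by omega)
    rw [div_le_div_iff₀ hΛ0 hG0, mul_assoc (C1 * β)]
    refine mul_le_mul_of_nonneg_left ?_ (by positivity)
    have h1 : (π0 + 1) * G ≤ Λ1 := by
      have h2 : G ≤ G ^ 2 := Nat.le_self_pow (by norm_num) G
      exact Nat.mul_le_mul (by omega) h2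
    exact_mod_cast h1
  have b7 : (C0 + 2) * β / G + C1 * β / G ≤ (C0 + C1 + 20172) * β / G := by
    rw [← add_div]
    refine div_le_div_of_nonneg_right ?_ hG0.le
    nlinarith
  have b8 : 20172 * (G : ℝ) ^ 12 * ((M : ℝ) * lam) ^ 2 * lam * ε ≤
      (C0 + C1 + 20172) * (G : ℝ) ^ 12 * ((M : ℝ) * lam) ^ 2 * lam * ε := by
    gcongr
    linarith
  rw [hη]
  linarith

end Pool.Agent.P.MP_7a6434d8_pr
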