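import Pool.Agent.P.MP_7a6434d8_pr.NumB

namespace Pool.Agent.P.MP_7a6434d8_pr

open Mp Finset
open scoped ENNReal

theorem pairsb_ZZ {i L : ℕ} (h : i ≤ L) : Z i * Z (L - i) = w i * w (L - i) * 8 ^ L := by
  rw [Z_eq_w, Z_eq_w]
  conv_rhs => rw [← Nat.add_sub_cancel' h, pow_add, Nat.add_sub_cancel' h]
  ring

theorem pairsb_tail {C : ℝ} (hC : ∀ L : ℕ, w L * (((L : ℝ) + 1) ^ 2 * √((L : ℝ) + 1)) ≤ C)
    (s m : ℕ) (h : s ≤ m) : ∑ j ∈ Ico s m, ((j : ℝ) + 1) * w j ≤ 3 * C / √((s : ℝ) + 1) := by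
  rw [sum_Ico_eq_sub _ h, sum_jw, sum_jw, le_div_iff₀ (by positivity)]
  have h1 := hC s
  have h2 := w_pos s
  have h3 : 0 ≤ (2 * (m : ℝ) ^ 2 + 16 * m / 3 + 8 / 3) * w m := by
    have := w_pos m
    positivity
  have h4 : (2 * (s : ℝ) ^ 2 + 16 * s / 3 + 8 / 3) * w s ≤ 3 * ((s : ℝ) + 1) ^ 2 * w s := by
    have : (0 : ℝ) ≤ s := by positivity
    gcongr
    nlinarith
  have h5 : 0 ≤ √((s : ℝ) + 1) := Real.sqrt_nonneg _
  calc _ ≤ (3 * ((s : ℝ) + 1) ^ 2 * w s) * √((s : ℝ) + 1) := by gcongr; linarith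
    _ ≤ _ := by linarith

theorem Xp_upper : ∃ C : ℝ, 0 < C ∧ ∀ a L u v : ℕ, 3 ≤ a → a ≤ u → u + a ≤ v → v ≤ 2 * L →
    Xp a L u v ≤ C / √(a : ℝ) * Z L := by
  obtain ⟨c₀, C₀, -, hC₀, hw⟩ := w_bounds
  obtain ⟨c, hc, hd⟩ := w_doubling 2
  refine ⟨36 * C₀ / c, by positivity, fun a L u v ha hau huv hv => ?_⟩
  set s := a / 6 with hs
  set I := Ico s (L - s + 1) with hI
  have hF : ∀ i, 0 ≤ Z i * Z (L - i) := fun i => (mul_pos (Z_pos _) (Z_pos _)).le
  have h1 : ∀ p ∈ Icc (a - a / 3) u, (∑ q ∈ Icc v (2 * L + a / 3),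
      if (q - p) % 2 = 0 then Z ((q - p) / 2) * Z (L - (q - p) / 2) else 0) ≤
      ∑ i ∈ I, if v ≤ p + 2 * i ∧ p + 2 * i ≤ 2 * L + a / 3 then Z i * Z (L - i) else 0 := by
    intro p hp
    rw [mem_Icc] at hp
    rw [← sum_filter, ← sum_filter,
      ← sum_image (g := fun q => (q - p) / 2) (f := fun i => Z i * Z (L - i))]
    · refine sum_le_sum_of_subset_of_nonneg (fun i hi => ?_) fun i _ _ => hF i
      obtain ⟨q, hq, rfl⟩ := mem_image.1 hi
      simp only [mem_filter, mem_Icc, hI, mem_Ico] at hq ⊢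
      omega
    · intro q hq q' hq' h
      simp only [coe_filter, mem_Icc, Set.mem_ofPred_eq] at hq hq' h
      omega
  refine (sum_le_sum h1).trans ?_
  rw [sum_comm]
  have h2 : ∀ i ∈ I, (∑ p ∈ Icc (a - a / 3) u,
      if v ≤ p + 2 * i ∧ p + 2 * i ≤ 2 * L + a / 3 then Z i * Z (L - i) else 0) ≤
      2 / c * Z L * (((i : ℝ) + 1) * w i + (((L - i : ℕ) : ℝ) + 1) * w (L - i)) := by
    intro i hi
    rw [hI, mem_Ico] at hi
    have hiL : i ≤ L := by omega
    rw [← sum_filter, sum_const, nsmul_eq_mul, pairsb_ZZ hiL, Z_eq_w L]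
    set k := ((Icc (a - a / 3) u).filter fun p =>
      v ≤ p + 2 * i ∧ p + 2 * i ≤ 2 * L + a / 3).card with hk
    have k1 : k ≤ 2 * (i + 1) := by
      refine (card_le_card (t := Icc (v - 2 * i) u) fun p hp => ?_).trans ?_
      · simp only [mem_filter, mem_Icc] at hp ⊢
        omega
      · rw [Nat.card_Icc]; omega
    have k2 : k ≤ 2 * (L - i + 1) := by
      refine (card_le_card (t := Icc (a - a / 3) (2 * (L - i) + a / 3)) fun p hp => ?_).trans ?_
      · simp only [mem_filter, mem_Icc] at hp ⊢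
        omega
      · rw [Nat.card_Icc]; omega
    have k1' : (k : ℝ) ≤ 2 * (i + 1) := by exact_mod_cast k1
    have k2' : (k : ℝ) ≤ 2 * ((L - i : ℕ) + 1) := by exact_mod_cast k2
    have w1 := w_pos i
    have w2 := w_pos (L - i)
    have w3 := w_pos L
    have key : c * (k * (w i * w (L - i))) ≤
        2 * w L * (((i : ℝ) + 1) * w i + (((L - i : ℕ) : ℝ) + 1) * w (L - i)) := by
      rcases le_total i (L - i) with h | h
      · have b1 := hd (L - i) L (by omega)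
        calc c * (k * (w i * w (L - i))) = k * w i * (c * w (L - i)) := by ring
          _ ≤ 2 * (i + 1) * w i * w L := by gcongr
          _ ≤ _ := by
            have : 0 ≤ 2 * w L * ((((L - i : ℕ) : ℝ) + 1) * w (L - i)) := by positivity
            nlinarith
      · have b1 := hd i L (by omega)
        calc c * (k * (w i * w (L - i))) = k * w (L - i) * (c * w i) := by ring
          _ ≤ 2 * ((L - i : ℕ) + 1) * w (L - i) * w L := by gcongr
          _ ≤ _ := by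
            have : 0 ≤ 2 * w L * (((i : ℝ) + 1) * w i) := by positivity
            nlinarith
    calc (k : ℝ) * (w i * w (L - i) * 8 ^ L) = (c * (k * (w i * w (L - i)))) * (8 ^ L / c) := by
          field_simp
      _ ≤ (2 * w L * (((i : ℝ) + 1) * w i + (((L - i : ℕ) : ℝ) + 1) * w (L - i))) * (8 ^ L / c) := by
          gcongr
      _ = _ := by ring
  refine (sum_le_sum h2).trans ?_
  rw [← mul_sum, sum_add_distrib]
  have h3 : ∑ i ∈ I, (((L - i : ℕ) : ℝ) + 1) * w (L - i) = ∑ i ∈ I, ((i : ℝ) + 1) * w i := by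
    refine sum_nbij' (fun i => L - i) (fun i => L - i) ?_ ?_ ?_ ?_ fun _ _ => rfl
    all_goals
      intro i hi
      simp only [hI, mem_Ico] at hi ⊢
      omega
  have h4 := pairsb_tail (fun L => (hw L).2) s (L - s + 1) (by omega)
  have ha0 : (0 : ℝ) < a := by exact_mod_cast (by omega : 0 < a)
  have h5 : √(a : ℝ) ≤ 3 * √((s : ℝ) + 1) := by
    rw [show (3 : ℝ) = √9 by rw [show (9 : ℝ) = 3 ^ 2 by norm_num, Real.sqrt_sq (by norm_num)],
      ← Real.sqrt_mul (by norm_num)]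
    refine Real.sqrt_le_sqrt ?_
    have : a ≤ 9 * (s + 1) := by omega
    exact_mod_cast this
  have h6 : 3 * C₀ / √((s : ℝ) + 1) ≤ 9 * C₀ / √(a : ℝ) := by
    rw [div_le_div_iff₀ (by positivity) (by positivity)]
    nlinarith
  have hZ := Z_pos L
  rw [h3]
  calc 2 / c * Z L * (∑ i ∈ I, ((i : ℝ) + 1) * w i + ∑ i ∈ I, ((i : ℝ) + 1) * w i)
      ≤ 2 / c * Z L * (9 * C₀ / √(a : ℝ) + 9 * C₀ / √(a : ℝ)) := by
        gcongr <;> exact h4.trans h6
    _ = _ := by ring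

theorem Xp_lower : ∃ c : ℝ, 0 < c ∧ ∀ a f L u v : ℕ, 1 ≤ f → 3 * f ≤ a → a ≤ u → u ≤ v →
    v ≤ u + f → v ≤ 2 * L → c / √(f : ℝ) * Z L ≤ Xp a L u v := by
  obtain ⟨c₀, C₀, hc₀, -, hw⟩ := w_bounds
  refine ⟨c₀ / 36, by positivity, fun a f L u v hf ha hau huv hvu hv => ?_⟩
  have hG : ∀ p q : ℕ, (0 : ℝ) ≤
      if (q - p) % 2 = 0 then Z ((q - p) / 2) * Z (L - (q - p) / 2) else 0 := by
    intro p q
    split_ifs
    · exact (mul_pos (Z_pos _) (Z_pos _)).le
    · exact le_rfl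
  have hZ := Z_pos L
  have hw2 := w_pos (2 * f)
  have h1 : ∀ p ∈ Icc (u - f) u, (((f + 1) / 2 : ℕ) : ℝ) * (w (2 * f) * Z L) ≤
      ∑ q ∈ Icc v (2 * L + a / 3),
        if (q - p) % 2 = 0 then Z ((q - p) / 2) * Z (L - (q - p) / 2) else 0 := by
    intro p hp
    rw [mem_Icc] at hp
    refine le_trans ?_ (sum_le_sum_of_subset_of_nonneg
      (s := (range ((f + 1) / 2)).image fun j => v + 2 * j + (v - p) % 2) (fun q hq => ?_)
      fun q _ _ => hG p q)
    · rw [sum_image fun j _ j' _ h => by omega]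
      refine le_trans (le_of_eq ?_) (card_nsmul_le_sum _ _ (w (2 * f) * Z L) fun j hj => ?_)
      · rw [card_range, nsmul_eq_mul]
      · rw [mem_range] at hj
        rw [if_pos (by omega), pairsb_ZZ (by omega), Z_eq_w L, ← mul_assoc]
        have b1 := w_anti (show (v + 2 * j + (v - p) % 2 - p) / 2 ≤ 2 * f by omega)
        have b2 := w_anti (Nat.sub_le L ((v + 2 * j + (v - p) % 2 - p) / 2))
        have b3 := w_pos L
        gcongr
        exact hw2.le.trans b1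
    · obtain ⟨j, hj, rfl⟩ := mem_image.1 hq
      rw [mem_range] at hj
      rw [mem_Icc]
      omega
  refine le_trans ?_ (sum_le_sum_of_subset_of_nonneg (s := Icc (u - f) u) (fun p hp => ?_)
    fun p _ _ => sum_nonneg fun q _ => hG p q)
  · refine le_trans ?_ (card_nsmul_le_sum _ _ _ h1)
    rw [Nat.card_Icc, show u + 1 - (u - f) = f + 1 by omega, nsmul_eq_mul]
    have hf1 : (1 : ℝ) ≤ f := by exact_mod_cast hf
    have b1 : (f : ℝ) ≤ 2 * (((f + 1) / 2 : ℕ) : ℝ) := by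
      have : f ≤ 2 * ((f + 1) / 2) := by omega
      exact_mod_cast this
    have b2 := (hw (2 * f)).1
    push_cast at b2
    have b3 : √(2 * (f : ℝ) + 1) ≤ 2 * √(f : ℝ) := by
      rw [show (2 : ℝ) * √(f : ℝ) = √4 * √(f : ℝ) by
        rw [show (4 : ℝ) = 2 ^ 2 by norm_num, Real.sqrt_sq (by norm_num)],
        ← Real.sqrt_mul (by norm_num)]
      exact Real.sqrt_le_sqrt (by linarith)
    have b4 : c₀ ≤ w (2 * f) * ((3 * f) ^ 2 * (2 * √(f : ℝ))) := by
      refine b2.trans ?_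
      gcongr
      linarith
    have b5 : 0 < √(f : ℝ) := Real.sqrt_pos.2 (by linarith)
    have b6 : c₀ / 36 / √(f : ℝ) ≤ f * (f / 2) * w (2 * f) := by
      rw [div_le_iff₀ b5]
      nlinarith
    calc c₀ / 36 / √(f : ℝ) * Z L ≤ f * (f / 2) * w (2 * f) * Z L := by gcongr
      _ = f * (f / 2 * (w (2 * f) * Z L)) := by ring
      _ ≤ _ := by
        push_cast
        gcongr <;> linarith
  · rw [mem_Icc] at hp ⊢
    omega

end Pool.Agent.P.MP_7a6434d8_pr
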