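import Pool.Agent.P.MP_7a6434d8_pr.S1

namespace Pool.Agent.P.MP_7a6434d8_pr

open Mp Finset
open scoped ENNReal

theorem s0_num {c0 m g W : ℝ} (hc0 : 0 < c0) (hm : 1 ≤ m) (hmg : m ≤ g) (hW0 : 0 ≤ W)
    (hW : c0 ≤ W * ((18 * g + 1) ^ 2 * √(18 * g + 1))) :
    c0 / 1805 * (m / g) ^ 3 ≤ m * W * (m * √m) := by
  have hg : 0 < g := by linarith
  have hm0 : 0 < m := by linarith
  have hsg : 0 < √g := Real.sqrt_pos.2 hg
  have hsm : 0 < √m := Real.sqrt_pos.2 hm0
  have h1 : √(18 * g + 1) ≤ 5 * √g := by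
    rw [show 5 * √g = √(25 * g) by
      rw [Real.sqrt_mul (by norm_num), show (25 : ℝ) = 5 ^ 2 by norm_num,
        Real.sqrt_sq (by norm_num)]]
    exact Real.sqrt_le_sqrt (by linarith)
  have h2 : (18 * g + 1) ^ 2 ≤ (19 * g) ^ 2 := by
    gcongr
    linarith
  have h3 : c0 ≤ W * ((19 * g) ^ 2 * (5 * √g)) := hW.trans (by gcongr)
  have h4 : √m ≤ √g := Real.sqrt_le_sqrt hmg
  have h5 : m * √g ≤ g * √m := by
    calc m * √g = √m * √m * √g := by rw [Real.mul_self_sqrt hm0.le]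
      _ ≤ √g * √m * √g := by gcongr
      _ = √g * √g * √m := by ring
      _ = g * √m := by rw [Real.mul_self_sqrt hg.le]
  have h6 : c0 * m ≤ 1805 * W * g ^ 3 * √m := by
    calc c0 * m ≤ W * ((19 * g) ^ 2 * (5 * √g)) * m := by gcongr
      _ = 1805 * W * g ^ 2 * (m * √g) := by ring
      _ ≤ 1805 * W * g ^ 2 * (g * √m) := by gcongr
      _ = 1805 * W * g ^ 3 * √m := by ring
  calc c0 / 1805 * (m / g) ^ 3 = m ^ 2 / (1805 * g ^ 3) * (c0 * m) := by field_simp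
    _ ≤ m ^ 2 / (1805 * g ^ 3) * (1805 * W * g ^ 3 * √m) := by gcongr
    _ = m * W * (m * √m) := by field_simp

theorem s_zero : ∃ δ : ℝ, 0 < δ ∧ δ ≤ 1 ∧ ∀ m L c u v g0 : ℕ, 8 ≤ m → 300 * m ≤ c → c ≤ u →
    u + 100 * m ≤ v → v ≤ 2 * L → 2 * L ≤ v + g0 → m ≤ g0 →
    mass L (fun t => Far t (Set.Icc u v) (Set.Icc 0 c) 1)
      ≤ (1 - δ * ((m : ℝ) / g0) ^ 3) * Z L := by
  obtain ⟨cJ, hcJ, hJ⟩ := jump
  obtain ⟨δ1, hδ1, hδ1', hS1⟩ := s_one
  obtain ⟨c0, C0, hc0, -, hw⟩ := w_bounds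
  obtain ⟨c2, hc2, hd⟩ := w_doubling 2
  refine ⟨min 1 (cJ * 2 * δ1 * c2 * (c0 / 1805)), by positivity, min_le_left _ _, ?_⟩
  intro m L c u v g0 hm hc hcu huv hvL hLg hmg
  have key := hJ m 0 (2 * L - m) (2 * m * δ1 * w (18 * g0) * w (L + m))
    (fun b t => Far t (Set.Icc (b + (v - 101 * m)) (b + (v - m))) (Set.Icc (b + 1) (b + 99 * m)) 1)
    hm (Nat.zero_le _)
    (by have := w_pos (18 * g0); have := w_pos (L + m); positivity) ?_ ?_ ?_ L (by omega)
  · have h1 : mass L (fun t => Far t (Set.Icc u v) (Set.Icc 0 c) 1) ≤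
        mass L (fun t => Far t (Set.Icc (m + (v - 101 * m)) (m + (v - m)))
          (Set.Icc (m + 1) (m + 99 * m)) 1) :=
      mass_mono fun t _ _ H => H.mono (Set.Icc_subset_Icc (by omega) (by omega))
        (Set.Icc_subset_Icc (by omega) (by omega)) le_rfl
    refine h1.trans (key.trans ?_)
    have hm1 : (1 : ℝ) ≤ m := by exact_mod_cast (by omega : 1 ≤ m)
    have hmg' : (m : ℝ) ≤ g0 := by exact_mod_cast hmg
    have hn := s0_num hc0 hm1 hmg' (w_pos (18 * g0)).le (by simpa using (hw (18 * g0)).1)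
    have hdd := hd L (L + m) (by omega)
    have hwL := w_pos L
    have h8 : (0 : ℝ) < 8 ^ L := by positivity
    have hw18 := w_pos (18 * g0)
    have hq : (0 : ℝ) ≤ ((m : ℝ) / g0) ^ 3 := by positivity
    have h2 : min 1 (cJ * 2 * δ1 * c2 * (c0 / 1805)) * ((m : ℝ) / g0) ^ 3 * Z L ≤
        cJ * (2 * m * δ1 * w (18 * g0) * w (L + m)) * ((m : ℝ) * √(m : ℝ)) * 8 ^ L := by
      calc min 1 (cJ * 2 * δ1 * c2 * (c0 / 1805)) * ((m : ℝ) / g0) ^ 3 * Z L
          ≤ (cJ * 2 * δ1 * c2 * (c0 / 1805)) * ((m : ℝ) / g0) ^ 3 * Z L := by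
            have := Z_pos L
            gcongr
            exact min_le_right _ _
        _ = cJ * 2 * δ1 * (c0 / 1805 * ((m : ℝ) / g0) ^ 3) * (c2 * w L) * 8 ^ L := by
            rw [Z_eq_w]; ring
        _ ≤ cJ * 2 * δ1 * (m * w (18 * g0) * ((m : ℝ) * √(m : ℝ))) * w (L + m) * 8 ^ L := by
            gcongr
        _ = _ := by ring
    linarith
  · rintro b t t' hF hper ⟨h, e, he, hT, hS, hU⟩
    obtain ⟨h', hT', -, hs⟩ := (hF.tr h e).1 hT
    refine ⟨h', _, by nlinarith [sq_nonneg (h' (0 + b / 2) - h' (0 + b / 2 + 3))], hT', ?_, ?_⟩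
    · intro p hp
      rw [Set.mem_Icc] at hp
      obtain ⟨q, rfl⟩ : ∃ q, p = q + 2 := ⟨p - 2, by omega⟩
      rw [← hs q (by omega) (by omega)]
      exact hS q (Set.mem_Icc.2 ⟨by omega, by omega⟩)
    · intro p hp
      rw [Set.mem_Icc] at hp
      obtain ⟨q, rfl⟩ : ∃ q, p = q + 2 := ⟨p - 2, by omega⟩
      rw [← hs q (by omega) (by omega)]
      exact hU q (Set.mem_Icc.2 ⟨by omega, by omega⟩)
  · rintro b m' t W1 W2 hB hper - hle ⟨h, e, he, hT, hS, hU⟩
    obtain ⟨h1, h2, e1, e2, hT1, hT2, hsum, -, -, hs⟩ := (hB.tr h e).1 hT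
    have hp1 := hB.per_eq
    refine ⟨h1, e1, by nlinarith [sq_nonneg (h1 m' - h2 0), hT2.nonneg], hT1, ?_, ?_⟩
    · intro p hp
      rw [Set.mem_Icc] at hp
      rw [← hs p (by omega) (by omega)]
      exact hS _ (Set.mem_Icc.2 ⟨by omega, by omega⟩)
    · intro p hp
      rw [Set.mem_Icc] at hp
      rw [← hs p (by omega) (by omega)]
      exact hU _ (Set.mem_Icc.2 ⟨by omega, by omega⟩)
  · intro b L' hL' hb1 hb2
    obtain ⟨j0, hj0, hj0'⟩ : ∃ j0, b + v ≤ b / 2 + 2 * j0 + 1 + 35 * m ∧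
        b / 2 + 2 * j0 + 35 * m ≤ b + v := ⟨(b + v - 35 * m - b / 2) / 2, by omega, by omega⟩
    refine ⟨Ico j0 (j0 + 16 * m), fun j => δ1 * (Z (L' - 1 - j) * Z j), ?_, ?_⟩
    · intro j hj
      rw [mem_Ico] at hj
      refine ⟨by omega, by omega, ?_⟩
      have hZ := Z_pos j
      have := mass2_le_inner (i := L' - 1 - j) (j := j) (c := (1 - δ1) * Z j)
        (ψ := fun W1 W2 => Far (brR (0 + b / 2) W1 W2)
          (Set.Icc (b + (v - 101 * m)) (b + (v - m))) (Set.Icc (b + 1) (b + 99 * m)) 1)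
        (mul_nonneg (by linarith) hZ.le) (fun W1 hW1 hp1 => by
          refine le_trans (mass_mono ?_) (hS1 m j hm (by omega))
          rintro W2 hW2 hp2 ⟨h, e, he, hT, hS, hU⟩
          have hB := isBr_brR (0 + b / 2) W1 W2 hW1 hW2 (by omega)
          obtain ⟨h1, h2, e1, e2, hT1, hT2, hsum, -, hs, -⟩ := (hB.tr h e).1 hT
          refine Far.symm ⟨h2, e2, by nlinarith [sq_nonneg (h1 (0 + b / 2) - h2 0), hT1.nonneg],
            hT2, ?_, ?_⟩
          · intro p hp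
            rw [Set.mem_Icc] at hp
            rw [← hs p (by omega)]
            exact hS _ (Set.mem_Icc.2 ⟨by omega, by omega⟩)
          · intro p hp
            rw [Set.mem_Icc] at hp
            rw [← hs p (by omega)]
            exact hU _ (Set.mem_Icc.2 ⟨by omega, by omega⟩))
      linarith
    · have hterm : ∀ j ∈ Ico j0 (j0 + 16 * m),
          δ1 * (w (18 * g0) * w (L + m) * 8 ^ L' / 8) ≤ δ1 * (Z (L' - 1 - j) * Z j) := by
        intro j hj
        rw [mem_Ico] at hj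
        have e1 : (8 : ℝ) ^ L' = 8 ^ (L' - 1 - j) * 8 ^ j * 8 := by
          rw [← pow_add, ← pow_succ]
          congr 1
          omega
        have e2 : w (18 * g0) ≤ w (L' - 1 - j) := w_anti (by omega)
        have e3 : w (L + m) ≤ w j := w_anti (by omega)
        have := w_pos (L + m)
        have := w_pos (L' - 1 - j)
        rw [Z_eq_w, Z_eq_w, e1]
        gcongr δ1 * ?_
        calc w (18 * g0) * w (L + m) * (8 ^ (L' - 1 - j) * 8 ^ j * 8) / 8
            = w (18 * g0) * w (L + m) * (8 ^ (L' - 1 - j) * 8 ^ j) := by ring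
          _ ≤ w (L' - 1 - j) * w j * (8 ^ (L' - 1 - j) * 8 ^ j) := by gcongr
          _ = _ := by ring
      have hsum := card_nsmul_le_sum _ _ _ hterm
      rw [Nat.card_Ico, Nat.add_sub_cancel_left, nsmul_eq_mul] at hsum
      refine le_trans (le_of_eq ?_) hsum
      push_cast
      ring

end Pool.Agent.P.MP_7a6434d8_pr
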