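import Pool.Agent.P.MP_7a6434d8_pr.Round
import Pool.Agent.P.MP_7a6434d8_pr.S0
import Pool.Agent.P.MP_7a6434d8_pr.PairsB

namespace Pool.Agent.P.MP_7a6434d8_pr

open Mp Finset
open scoped ENNReal

theorem chord0_Av_pos (L : ℕ) : 0 < Av L := by unfold Av; positivity

theorem chord0_Bv_nonneg (L : ℕ) : 0 ≤ Bv L := by unfold Bv; positivity

theorem chord0_Av_mono {L L' : ℕ} (h : L ≤ L') : Av L ≤ Av L' := by
  have : (L : ℝ) ≤ L' := by exact_mod_cast h
  unfold Av; gcongr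

theorem chord0_Bv_mono {L L' : ℕ} (h : L ≤ L') : Bv L ≤ Bv L' := by
  have : (L : ℝ) ≤ L' := by exact_mod_cast h
  unfold Bv; gcongr

theorem chord0 : ∃ C δ : ℝ, 0 < C ∧ 0 < δ ∧ δ ≤ 1 ∧
    ∀ (a m c g g0 l lam mw Λ1 Λ k : ℕ) (ρ ε T β : ℝ), 8 ≤ m → 300 * m ≤ a → a ≤ c → g ≤ g0 →
    g ≤ l → m ≤ g0 → 1 ≤ lam → 2 * Λ < mw * lam → 0 ≤ ρ → 0 ≤ ε → 0 < T → 0 ≤ β →
    NearHyp lam ρ ε → NearHyp l T β →
    ∀ L u v, St c g L u v → u + a ≤ v → L ≤ Λ1 →
      mass L (fun t => Far t (Set.Icc u v) (Set.Icc 0 c) (T + k * (√(mw : ℝ) + ρ + 2)))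
        ≤ ((1 - δ * ((m : ℝ) / g0) ^ 3) ^ k + β * (C * √(m : ℝ) / √(a : ℝ) + Av Λ1 / Av Λ)
          + k * (ε * (2 * lam + 1) * Bv Λ1)) * Z L := by
  obtain ⟨δ, hδ0, hδ1, hs0⟩ := s_zero
  obtain ⟨C1, hC1, hup⟩ := Xp_upper
  obtain ⟨c1, hc1, hlow⟩ := Xp_lower
  refine ⟨10 * C1 / c1, δ, by positivity, hδ0, hδ1, ?_⟩
  intro a m c g g0 l lam mw Λ1 Λ k ρ ε T β hm hma hac hgg hgl hmg hlam hmw hρ hε hT hβ hN hN'
  set δ' : ℝ := δ * ((m : ℝ) / g0) ^ 3 with hδ'
  have hg0 : (0 : ℝ) < g0 := by exact_mod_cast (show 0 < g0 by omega)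
  have hδ'1 : δ' ≤ 1 := by
    have h1 : (m : ℝ) / g0 ≤ 1 := by
      rw [div_le_one hg0]; exact_mod_cast hmg
    have h2 : ((m : ℝ) / g0) ^ 3 ≤ 1 := pow_le_one₀ (by positivity) h1
    calc δ' ≤ δ * 1 := mul_le_mul_of_nonneg_left h2 hδ0.le
      _ ≤ 1 := by linarith
  have h1δ : 0 ≤ 1 - δ' := by linarith
  set s : ℝ := √(mw : ℝ) + ρ + 2 with hs
  have hs0' : 0 ≤ s := by positivity
  have hf0 : (0 : ℝ) < ((100 * m : ℕ) : ℝ) := by exact_mod_cast (show 0 < 100 * m by omega)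
  have hsf : 0 < √((100 * m : ℕ) : ℝ) := Real.sqrt_pos.2 hf0
  let Φ : ℕ → ℕ → ℕ → ℕ → ℝ := fun k L u v =>
    (β * (√((100 * m : ℕ) : ℝ) / c1) * Xp a L u v + β / Av Λ * (Av L * Z L))
      + k * (ε * (2 * lam + 1)) * (Bv L * Z L)
  have hA := chord0_Av_pos Λ
  have p1 : ∀ L u v, 0 ≤ β * (√((100 * m : ℕ) : ℝ) / c1) * Xp a L u v := fun L u v =>
    mul_nonneg (by positivity) (Xp_nonneg _ _ _ _)
  have p2 : ∀ L, 0 ≤ β / Av Λ * (Av L * Z L) := fun L => by
    have := chord0_Av_pos L; have := Z_pos L; positivity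
  have p3 : ∀ (k : ℕ) L, 0 ≤ (k : ℝ) * (ε * (2 * lam + 1)) * (Bv L * Z L) := fun k L => by
    have := chord0_Bv_nonneg L; have := Z_pos L; positivity
  have hΦ0 : ∀ k L u v, 0 ≤ Φ k L u v := fun k L u v =>
    add_nonneg (add_nonneg (p1 L u v) (p2 L)) (p3 k L)
  have hΦs : ∀ k, Super c (Φ k) := fun k =>
    (((super_Xp a c).smul (by positivity)).add ((super_Av c).smul (by positivity))).add
      ((super_Bv c).smul (by positivity))
  have hterm : ∀ (k : ℕ) (T' : ℝ), T ≤ T' → ∀ L u v, St c g L u v → (v < u + 100 * m ∨ Λ < L) →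
      mass L (fun t => Far t (Set.Icc u v) (Set.Icc 0 c) T') ≤ Φ k L u v := by
    intro k T' hT' L u v hSt hcase
    obtain ⟨h1, h2, h3, h4⟩ := hSt
    have hb : mass L (fun t => Far t (Set.Icc u v) (Set.Icc 0 c) T') ≤ β * Z L := by
      refine le_trans (mass_mono fun t ht hp hF => ?_)
        (hN' L v (2 * L) h3 le_rfl (by omega) (by omega))
      obtain ⟨h, e, he, htr, hS, hU⟩ := hF
      refine ⟨h, e, he, htr, ?_, ?_⟩
      · rintro p rfl; exact hS _ ⟨h2, le_rfl⟩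
      · rintro p rfl
        have := htr.end_eq ht
        rw [hp] at this
        rw [this]
        exact hT'.trans (hU 0 ⟨le_rfl, Nat.zero_le _⟩)
    refine hb.trans ?_
    have hZ := Z_pos L
    rcases hcase with h | h
    · have h5 := hlow a (100 * m) L u v (by omega) (by omega) (by omega) h2 h.le h3
      have h6 := mul_le_mul_of_nonneg_left h5
        (show 0 ≤ β * (√((100 * m : ℕ) : ℝ) / c1) by positivity)
      have e : β * (√((100 * m : ℕ) : ℝ) / c1) * (c1 / √((100 * m : ℕ) : ℝ) * Z L) = β * Z L := by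
        field_simp
      have := p2 L; have := p3 k L
      simp only [Φ]; linarith
    · have h5 := chord0_Av_mono h.le
      have h6 : β * Z L ≤ β / Av Λ * (Av L * Z L) := by
        have e : β * Z L = β / Av Λ * (Av Λ * Z L) := by field_simp
        rw [e]; gcongr
      have := p1 L u v; have := p3 k L
      simp only [Φ]; linarith
  have key : ∀ k : ℕ, ∀ L u v, St c g L u v →
      mass L (fun t => Far t (Set.Icc u v) (Set.Icc 0 c) (T + k * s))
        ≤ (1 - δ') ^ k * Z L + Φ k L u v := by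
    intro k
    induction k with
    | zero =>
      intro L u v _
      have := mass_le_Z L (fun t => Far t (Set.Icc u v) (Set.Icc 0 c) (T + (0 : ℕ) * s))
      have := hΦ0 0 L u v
      rw [pow_zero]; linarith
    | succ k ih =>
      intro L u v hSt
      have hks : 0 ≤ (k : ℝ) * s := by positivity
      by_cases hc : v < u + 100 * m
      · have h1 := hterm (k + 1) (T + (k + 1 : ℕ) * s) (by
          have : (0 : ℝ) ≤ ((k + 1 : ℕ) : ℝ) * s := by positivity
          linarith) L u v hSt (Or.inl hc)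
        have : 0 ≤ (1 - δ') ^ (k + 1) * Z L := mul_nonneg (pow_nonneg h1δ _) (Z_pos L).le
        linarith
      · have h1 := round c g (100 * m) Λ lam mw ρ ε (T + k * s) ((1 - δ') ^ k) (Φ k) hlam
          (by omega) hmw hρ hε (by linarith) (pow_nonneg h1δ _) hN (hΦ0 k) (hΦs k) ih
          (hterm k _ (by linarith)) L u v hSt
        obtain ⟨a1, a2, a3, a4⟩ := hSt
        have h2 := hs0 m L c u v g0 hm (by omega) a1 (by omega) a3 (by omega) hmg
        have h3 := mul_le_mul_of_nonneg_left h2 (pow_nonneg h1δ k)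
        have e : T + ((k + 1 : ℕ) : ℝ) * s = T + k * s + s := by push_cast; ring
        rw [e, pow_succ]
        simp only [Φ] at h1 ⊢
        push_cast at h1 ⊢
        linarith
  intro L u v hSt huv hL
  refine (key k L u v hSt).trans ?_
  obtain ⟨a1, a2, a3, a4⟩ := hSt
  have hZ := Z_pos L
  have h1 := hup a L u v (by omega) (by omega) huv a3
  have ha0 : (0 : ℝ) < a := by exact_mod_cast (show 0 < a by omega)
  have hsa : 0 < √(a : ℝ) := Real.sqrt_pos.2 ha0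
  have e1 : √((100 * m : ℕ) : ℝ) = 10 * √(m : ℝ) := by
    push_cast
    rw [Real.sqrt_mul (by norm_num), show (100 : ℝ) = 10 ^ 2 by norm_num,
      Real.sqrt_sq (by norm_num)]
  have h2 := mul_le_mul_of_nonneg_left h1
    (show 0 ≤ β * (√((100 * m : ℕ) : ℝ) / c1) by positivity)
  have e2 : β * (√((100 * m : ℕ) : ℝ) / c1) * (C1 / √(a : ℝ) * Z L) =
      β * (10 * C1 / c1 * √(m : ℝ) / √(a : ℝ)) * Z L := by
    rw [e1]; field_simp
  have h3 : β / Av Λ * (Av L * Z L) ≤ β * (Av Λ1 / Av Λ) * Z L := by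
    have e : β * (Av Λ1 / Av Λ) * Z L = β / Av Λ * (Av Λ1 * Z L) := by field_simp
    rw [e]
    have := chord0_Av_mono hL
    gcongr
  have h4 : (k : ℝ) * (ε * (2 * lam + 1)) * (Bv L * Z L) ≤
      k * (ε * (2 * lam + 1) * Bv Λ1) * Z L := by
    have e : (k : ℝ) * (ε * (2 * lam + 1) * Bv Λ1) * Z L =
        k * (ε * (2 * lam + 1)) * (Bv Λ1 * Z L) := by ring
    rw [e]
    have := chord0_Bv_mono hL
    gcongr
  simp only [Φ]
  linarith

end Pool.Agent.P.MP_7a6434d8_pr
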