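import Pool.Agent.P.MP_7a6434d8_pr.NumA

namespace Pool.Agent.P.MP_7a6434d8_pr

open Mp Finset
open scoped ENNReal

private theorem numb_c0 (L : ℕ) :
    ∑ j ∈ range (L + 1), catalan (L - j) * catalan j = catalan (L + 1) := by
  rw [catalan_succ', Finset.Nat.sum_antidiagonal_eq_sum_range_succ
    (fun i j => catalan i * catalan j)]
  exact sum_congr rfl fun j _ => mul_comm _ _

private theorem numb_c1 (L : ℕ) :
    ∑ j ∈ range (L + 1), catalan (L - j) * catalan (j + 1) + catalan (L + 1)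
      = catalan (L + 2) := by
  have h := numb_c0 (L + 1)
  rw [sum_range_succ'] at h
  simpa [Nat.add_sub_add_right] using h

private theorem numb_c1' (L : ℕ) :
    ∑ j ∈ range (L + 1), catalan (L - j + 1) * catalan j + catalan (L + 1)
      = catalan (L + 2) := by
  have h := numb_c0 (L + 1)
  rw [sum_range_succ] at h
  have e : ∑ j ∈ range (L + 1), catalan (L - j + 1) * catalan j
      = ∑ j ∈ range (L + 1), catalan (L + 1 - j) * catalan j :=
    sum_congr rfl fun j hj => by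
      have := mem_range.1 hj
      rw [show L - j + 1 = L + 1 - j by omega]
  rw [e]
  simpa using h

private theorem numb_c2 (L : ℕ) :
    ∑ j ∈ range (L + 1), catalan (L - j + 1) * catalan (j + 1) + 2 * catalan (L + 2)
      = catalan (L + 3) := by
  have h := numb_c1 (L + 1)
  rw [sum_range_succ] at h
  have e : ∑ j ∈ range (L + 1), catalan (L - j + 1) * catalan (j + 1)
      = ∑ j ∈ range (L + 1), catalan (L + 1 - j) * catalan (j + 1) :=
    sum_congr rfl fun j hj => by
      have := mem_range.1 hj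
      rw [show L - j + 1 = L + 1 - j by omega]
  rw [e]
  simp only [Nat.sub_self, catalan_zero, one_mul] at h
  have e2 : L + 1 + 1 = L + 2 := rfl
  have e3 : L + 1 + 2 = L + 3 := rfl
  rw [e2, e3] at h
  omega

/-- Tutte recursion in any commutative ring containing `g, R` with `R = 1 + 3 g R ^ 2` -/
theorem tutte_ring {A : Type} [CommRing A] (g R : A) (hR : R = 1 + 3 * g * R ^ 2) (L : ℕ) :
    R ^ (L + 1) * ((1 + g * R ^ 2) * (catalan (L + 1) : A) - g * R ^ 2 * (catalan (L + 2) : A))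
      = g * (R ^ (L + 2) * ((1 + g * R ^ 2) * (catalan (L + 2) : A)
          - g * R ^ 2 * (catalan (L + 3) : A)))
        + ∑ j ∈ range (L + 1),
          (R ^ (L - j) * ((1 + g * R ^ 2) * (catalan (L - j) : A)
            - g * R ^ 2 * (catalan (L - j + 1) : A)))
          * (R ^ j * ((1 + g * R ^ 2) * (catalan j : A) - g * R ^ 2 * (catalan (j + 1) : A))) := by
  have h0 := congrArg (Nat.cast : ℕ → A) (numb_c0 L)
  have h1 := congrArg (Nat.cast : ℕ → A) (numb_c1 L)
  have h1' := congrArg (Nat.cast : ℕ → A) (numb_c1' L)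
  have h2 := congrArg (Nat.cast : ℕ → A) (numb_c2 L)
  push_cast at h0 h1 h1' h2
  have e : ∑ j ∈ range (L + 1),
          (R ^ (L - j) * ((1 + g * R ^ 2) * (catalan (L - j) : A)
            - g * R ^ 2 * (catalan (L - j + 1) : A)))
          * (R ^ j * ((1 + g * R ^ 2) * (catalan j : A) - g * R ^ 2 * (catalan (j + 1) : A)))
      = R ^ L * (1 + g * R ^ 2) ^ 2 * ∑ j ∈ range (L + 1), (catalan (L - j) : A) * catalan j
        - R ^ L * (1 + g * R ^ 2) * (g * R ^ 2)
          * ∑ j ∈ range (L + 1), (catalan (L - j) : A) * catalan (j + 1)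
        - R ^ L * (1 + g * R ^ 2) * (g * R ^ 2)
          * ∑ j ∈ range (L + 1), (catalan (L - j + 1) : A) * catalan j
        + R ^ L * (g * R ^ 2) ^ 2
          * ∑ j ∈ range (L + 1), (catalan (L - j + 1) : A) * catalan (j + 1) := by
    simp only [mul_sum, ← sum_sub_distrib, ← sum_add_distrib]
    refine sum_congr rfl fun j hj => ?_
    have hj' : j ≤ L := by have := mem_range.1 hj; omega
    have hp : R ^ L = R ^ (L - j) * R ^ j := by rw [← pow_add, Nat.sub_add_cancel hj']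
    rw [hp]
    ring
  rw [e, h0, eq_sub_of_add_eq h1, eq_sub_of_add_eq h1', eq_sub_of_add_eq h2]
  linear_combination (R ^ L * ((1 + g * R ^ 2) * (catalan (L + 1) : A)
    - g * R ^ 2 * (catalan (L + 2) : A))) * hR

private theorem numb_Z (L : ℕ) :
    Z L = 2 ^ L * (4 / 3 * (catalan L : ℝ) - 1 / 3 * catalan (L + 1)) := by
  have h := numa_catalan L
  have h2 : (catalan (L + 1) : ℝ) = (4 * L + 2) * catalan L / (L + 2) := by
    rw [← h]; field_simp
  unfold Z
  rw [h2]
  field_simp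
  ring

theorem tutte (L : ℕ) (hL : 1 ≤ L) :
    Z L = Z (L + 1) / 12 + ∑ j ∈ range L, Z (L - 1 - j) * Z j := by
  obtain ⟨m, rfl⟩ : ∃ m, L = m + 1 := ⟨L - 1, by omega⟩
  have h := tutte_ring (A := ℝ) (1 / 12) 2 (by norm_num) m
  have e1 : (1 : ℝ) + 1 / 12 * 2 ^ 2 = 4 / 3 := by norm_num
  have e2 : (1 : ℝ) / 12 * 2 ^ 2 = 1 / 3 := by norm_num
  rw [e1, e2] at h
  simp only [numb_Z, Nat.add_sub_cancel]
  rw [h]
  ring

theorem split_sum (L k : ℕ) (hk : k < 2 * L) (F : ℕ → ℕ → ℝ) (hF : ∀ i j, F i j = F j i) :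
    ∑ j ∈ range ((2 * L - k) / 2), F (L - 1 - j) j + ∑ j ∈ range ((k + 1) / 2), F (L - 1 - j) j
      = ∑ j ∈ range L, F (L - 1 - j) j := by
  set r := (2 * L - k) / 2 with hr
  set l := (k + 1) / 2 with hl
  have hrl : L = r + l := by omega
  have e : ∑ j ∈ range L, F (L - 1 - j) j
      = ∑ j ∈ range r, F (L - 1 - j) j + ∑ j ∈ range l, F (L - 1 - (r + j)) (r + j) := by
    conv_lhs => rw [hrl, sum_range_add, ← hrl]
  rw [e, ← sum_range_reflect (fun j => F (L - 1 - (r + j)) (r + j)) l]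
  congr 1
  refine sum_congr rfl fun j hj => ?_
  have := mem_range.1 hj
  rw [hF, show L - 1 - (r + (l - 1 - j)) = j by omega, show r + (l - 1 - j) = L - 1 - j by omega]

theorem tutte_at (L k : ℕ) (hk : k < 2 * L) :
    Z L = Z (L + 1) / 12 + ∑ j ∈ range ((2 * L - k) / 2), Z (L - 1 - j) * Z j
      + ∑ j ∈ range ((k + 1) / 2), Z (L - 1 - j) * Z j := by
  rw [add_assoc, split_sum L k hk (fun i j => Z i * Z j) fun i j => mul_comm _ _]
  exact tutte L (by omega)

private theorem numb_sA (m : ℕ) :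
    ∑ j ∈ range (m + 1), ((j : ℝ) + 1) * catalan j * catalan (m - j)
      = ((m : ℝ) + 2) / 2 * catalan (m + 1) := by
  have h0 := congrArg (Nat.cast : ℕ → ℝ) (numb_c0 m)
  push_cast at h0
  have hr := sum_range_reflect
    (fun j => ((j : ℝ) + 1) * catalan j * catalan (m - j)) (m + 1)
  have e : ∑ j ∈ range (m + 1), ((j : ℝ) + 1) * catalan j * catalan (m - j)
      + ∑ j ∈ range (m + 1), ((j : ℝ) + 1) * catalan j * catalan (m - j)
      = ((m : ℝ) + 2) * catalan (m + 1) := by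
    nth_rewrite 1 [← hr]
    rw [← h0, mul_sum, ← sum_add_distrib]
    refine sum_congr rfl fun j hj => ?_
    have hj' : j ≤ m := by have := mem_range.1 hj; omega
    simp only [Nat.add_sub_cancel]
    rw [Nat.sub_sub_self hj', Nat.cast_sub hj']
    ring
  linarith

private theorem numb_sB (m : ℕ) :
    ∑ j ∈ range (m + 1), ((j : ℝ) + 1) * catalan j * catalan (m - j + 1)
      = ((m : ℝ) + 3) / 2 * catalan (m + 2) - ((m : ℝ) + 2) * catalan (m + 1) := by
  have h := numb_sA (m + 1)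
  rw [sum_range_succ] at h
  have e : ∑ j ∈ range (m + 1), ((j : ℝ) + 1) * catalan j * catalan (m - j + 1)
      = ∑ j ∈ range (m + 1), ((j : ℝ) + 1) * catalan j * catalan (m + 1 - j) :=
    sum_congr rfl fun j hj => by
      have := mem_range.1 hj
      rw [show m - j + 1 = m + 1 - j by omega]
  rw [e]
  simp only [Nat.sub_self, catalan_zero] at h
  push_cast at h
  have e2 : m + 1 + 1 = m + 2 := rfl
  rw [e2] at h
  linarith

private theorem numb_AZ (L : ℕ) : Av L * Z L = 2 ^ (L + 1) * (((L : ℝ) + 1) * catalan L) := by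
  unfold Av Z
  field_simp

private theorem numb_Av_root (L : ℕ) (hL : 1 ≤ L) :
    Av L * Z L = Av (L + 1) * Z (L + 1) / 12
      + ∑ j ∈ range L, (Av (L - 1 - j) + Av j) * (Z (L - 1 - j) * Z j) := by
  obtain ⟨m, rfl⟩ : ∃ m, L = m + 1 := ⟨L - 1, by omega⟩
  simp only [Nat.add_sub_cancel]
  have hr := sum_range_reflect (fun j => Av j * Z j * Z (m - j)) (m + 1)
  have e1 : ∑ j ∈ range (m + 1), (Av (m - j) + Av j) * (Z (m - j) * Z j)
      = ∑ j ∈ range (m + 1), Av j * Z j * Z (m - j)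
        + ∑ j ∈ range (m + 1), Av j * Z j * Z (m - j) := by
    nth_rewrite 1 [← hr]
    rw [← sum_add_distrib]
    refine sum_congr rfl fun j hj => ?_
    have hj' : j ≤ m := by have := mem_range.1 hj; omega
    simp only [Nat.add_sub_cancel]
    rw [Nat.sub_sub_self hj']
    ring
  have e2 : ∑ j ∈ range (m + 1), Av j * Z j * Z (m - j)
      = 2 ^ (m + 1) * (4 / 3) * ∑ j ∈ range (m + 1), ((j : ℝ) + 1) * catalan j * catalan (m - j)
        - 2 ^ (m + 1) * (1 / 3)
          * ∑ j ∈ range (m + 1), ((j : ℝ) + 1) * catalan j * catalan (m - j + 1) := by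
    simp only [mul_sum, ← sum_sub_distrib]
    refine sum_congr rfl fun j hj => ?_
    have hj' : j ≤ m := by have := mem_range.1 hj; omega
    have hp : (2 : ℝ) ^ (m + 1) = 2 ^ (j + 1) * 2 ^ (m - j) := by
      rw [← pow_add]; congr 1; omega
    rw [numb_AZ, numb_Z (m - j), hp]
    ring
  rw [e1, e2, numb_sA, numb_sB, numb_AZ, numb_AZ]
  push_cast
  ring

theorem Av_at (L k : ℕ) (hk : k < 2 * L) :
    Av L * Z L = Av (L + 1) * Z (L + 1) / 12
      + ∑ j ∈ range ((2 * L - k) / 2), (Av (L - 1 - j) + Av j) * (Z (L - 1 - j) * Z j)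
      + ∑ j ∈ range ((k + 1) / 2), (Av (L - 1 - j) + Av j) * (Z (L - 1 - j) * Z j) := by
  rw [add_assoc, split_sum L k hk (fun i j => (Av i + Av j) * (Z i * Z j)) fun i j => by ring]
  exact numb_Av_root L (by omega)

private theorem numb_Bv_root (L : ℕ) (hL : 1 ≤ L) :
    Bv L * Z L = Z L + Bv (L + 1) * Z (L + 1) / 12
      + ∑ j ∈ range L, (Bv (L - 1 - j) + Bv j) * (Z (L - 1 - j) * Z j) := by
  have h1 := numb_Av_root L hL
  have h2 := tutte L hL
  have e : ∑ j ∈ range L, (Bv (L - 1 - j) + Bv j) * (Z (L - 1 - j) * Z j)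
      = ∑ j ∈ range L, (Av (L - 1 - j) + Av j) * (Z (L - 1 - j) * Z j)
        - ((L : ℝ) + 3) * ∑ j ∈ range L, Z (L - 1 - j) * Z j := by
    rw [mul_sum, ← sum_sub_distrib]
    refine sum_congr rfl fun j hj => ?_
    have hj' := mem_range.1 hj
    have hc : ((L - 1 - j : ℕ) : ℝ) = L - 1 - j := by
      rw [Nat.cast_sub (by omega), Nat.cast_sub hL]; simp
    unfold Av Bv
    rw [hc]
    ring
  rw [e]
  have b1 : Bv L = Av L - L - 2 := by unfold Av Bv; ring
  have b2 : Bv (L + 1) = Av (L + 1) - L - 3 := by unfold Av Bv; push_cast; ring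
  rw [b1, b2]
  linear_combination h1 - ((L : ℝ) + 3) * h2

theorem Bv_at (L k : ℕ) (hk : k < 2 * L) :
    Bv L * Z L = Z L + Bv (L + 1) * Z (L + 1) / 12
      + ∑ j ∈ range ((2 * L - k) / 2), (Bv (L - 1 - j) + Bv j) * (Z (L - 1 - j) * Z j)
      + ∑ j ∈ range ((k + 1) / 2), (Bv (L - 1 - j) + Bv j) * (Z (L - 1 - j) * Z j) := by
  rw [add_assoc (Z L + _),
    split_sum L k hk (fun i j => (Bv i + Bv j) * (Z i * Z j)) fun i j => by ring]
  exact numb_Bv_root L (by omega)

theorem Bv_root (L : ℕ) (hL : 1 ≤ L) :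
    Bv L * Z L = Z L + Bv (L + 1) * Z (L + 1) / 12
      + ∑ j ∈ range L, (Bv (L - 1 - j) + Bv j) * (Z (L - 1 - j) * Z j) :=
  numb_Bv_root L hL

end Pool.Agent.P.MP_7a6434d8_pr
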