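import Pool.Agent.P.MP_7a6434d8_pr.CountA
import Pool.Agent.P.MP_7a6434d8_pr.NumB

namespace Pool.Agent.P.MP_7a6434d8_pr

open Mp Finset
open scoped ENNReal

/-- generating series of `3 ^ n * catalan n` -/
noncomputable def countR : PowerSeries ℝ := PowerSeries.mk (fun n => (3 : ℝ) ^ n * (catalan n : ℝ))

theorem count_coeff_R (n : ℕ) : PowerSeries.coeff n countR = (3 : ℝ) ^ n * (catalan n : ℝ) := by
  simp [countR]

theorem count_coeff_sq (n : ℕ) :
    PowerSeries.coeff n (countR ^ 2) = (3 : ℝ) ^ n * (catalan (n + 1) : ℝ) := by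
  rw [sq, PowerSeries.coeff_mul, catalan_succ']
  push_cast
  rw [Finset.mul_sum]
  refine Finset.sum_congr rfl (fun p hp => ?_)
  rw [count_coeff_R, count_coeff_R, ← (mem_antidiagonal.1 hp), pow_add]
  ring

theorem count_hR : countR = 1 + 3 * PowerSeries.X * countR ^ 2 := by
  have h3 : (3 : PowerSeries ℝ) * PowerSeries.X * countR ^ 2
      = PowerSeries.C (3 : ℝ) * (PowerSeries.X * countR ^ 2) := by
    rw [mul_assoc]; rfl
  rw [h3]
  ext n
  rcases n with _ | n
  · simp [countR]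
  · rw [map_add, PowerSeries.coeff_C_mul, PowerSeries.coeff_succ_X_mul, count_coeff_sq,
      count_coeff_R, PowerSeries.coeff_one, if_neg (Nat.succ_ne_zero n)]
    ring

/-- the generating series of trees of half-perimeter `L` -/
noncomputable def countW (L : ℕ) : PowerSeries ℝ :=
  countR ^ L * ((1 + PowerSeries.X * countR ^ 2) * (catalan L : PowerSeries ℝ)
    - PowerSeries.X * countR ^ 2 * (catalan (L + 1) : PowerSeries ℝ))

theorem countW_zero : countW 0 = 1 := by
  simp [countW]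

theorem countW_succ (L : ℕ) : countW (L + 1) = PowerSeries.X * countW (L + 2)
    + ∑ j ∈ range (L + 1), countW (L - j) * countW j :=
  tutte_ring PowerSeries.X countR count_hR L

theorem count_coeff_W (N : ℕ) : ∀ L n : ℕ, 2 * n + L < N →
    PowerSeries.coeff n (countW L) = (cnt L n (fun _ => True) : ℝ) := by
  induction N with
  | zero => intro L n h; omega
  | succ N ih =>
    intro L n h
    rcases L with _ | L
    · rw [countW_zero, cnt_zero, PowerSeries.coeff_one]
      split_ifs <;> simp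
    · rw [countW_succ, cnt_succ, map_add, map_sum]
      push_cast
      congr 1
      · rcases n with _ | n
        · simp
        · rw [PowerSeries.coeff_succ_X_mul, ih (L + 2) n (by omega)]
          simp
      · refine Finset.sum_congr rfl (fun j hj => ?_)
        rw [PowerSeries.coeff_mul]
        refine Finset.sum_congr rfl (fun p hp => ?_)
        have h1 := mem_antidiagonal.1 hp
        have h2 := mem_range.1 hj
        rw [ih (L - j) p.1 (by omega), ih j p.2 (by omega)]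

theorem count_catalan_succ (n : ℕ) :
    ((n : ℝ) + 2) * (catalan (n + 1) : ℝ) = (4 * n + 2) * (catalan n : ℝ) := by
  have h1 : (((n + 1 : ℕ) : ℝ) + 1) * (catalan (n + 1) : ℝ) = (Nat.centralBinom (n + 1) : ℝ) := by
    exact_mod_cast succ_mul_catalan_eq_centralBinom (n + 1)
  have h2 : ((n : ℝ) + 1) * (catalan n : ℝ) = (Nat.centralBinom n : ℝ) := by
    exact_mod_cast succ_mul_catalan_eq_centralBinom n
  have h3 : ((n : ℝ) + 1) * (Nat.centralBinom (n + 1) : ℝ)
      = 2 * (2 * n + 1) * (Nat.centralBinom n : ℝ) := by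
    exact_mod_cast Nat.succ_mul_centralBinom_succ n
  have h4 : ((n : ℝ) + 1) ≠ 0 := by positivity
  push_cast at h1
  apply mul_left_cancel₀ h4
  rw [← h1, ← h2] at h3
  linear_combination h3

theorem cnt_two (n : ℕ) :
    (cnt 2 n (fun _ => True) : ℝ) = 3 ^ (n + 1) * 2 * (catalan (n + 1) : ℝ) / (n + 3) := by
  rw [← count_coeff_W (2 * n + 3) 2 n (by omega)]
  have h1 : countW 1 = PowerSeries.X * countW 2 + 1 := by
    rw [countW_succ]; simp [countW_zero]
  have h2 : PowerSeries.C (3 : ℝ) * countW 1 = PowerSeries.C (4 : ℝ) * countR - countR ^ 2 := by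
    have e3 : PowerSeries.C (3 : ℝ) = (3 : PowerSeries ℝ) := rfl
    have e4 : PowerSeries.C (4 : ℝ) = (4 : PowerSeries ℝ) := rfl
    rw [e3, e4]
    have c1 : catalan 1 = 1 := catalan_one
    have c2 : catalan (1 + 1) = 2 := catalan_two
    unfold countW
    rw [c1, c2]
    push_cast
    linear_combination countR * count_hR
  have h3 := congrArg (PowerSeries.coeff (n + 1)) h2
  rw [h1, PowerSeries.coeff_C_mul, map_add, PowerSeries.coeff_succ_X_mul, map_sub,
    PowerSeries.coeff_C_mul, count_coeff_sq, count_coeff_R, PowerSeries.coeff_one,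
    if_neg (Nat.succ_ne_zero n)] at h3
  have h4 := count_catalan_succ (n + 1)
  push_cast at h4
  have h5 : ((n : ℝ) + 3) ≠ 0 := by positivity
  rw [eq_div_iff h5]
  linear_combination ((n : ℝ) + 3) / 3 * h3 - (3 : ℝ) ^ n * h4

theorem cnt_lower : ∃ c : ℝ, 0 < c ∧ ∀ n : ℕ,
    c * 12 ^ n / ((n : ℝ) + 1) ^ 3 ≤ (cnt 2 n (fun _ => True) : ℝ) := by
  refine ⟨2, by norm_num, fun n => ?_⟩
  rw [cnt_two]
  have h1 : (4 : ℝ) ^ (n + 1) ≤ 2 * ((n : ℝ) + 1) * (Nat.centralBinom (n + 1) : ℝ) := by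
    exact_mod_cast Nat.four_pow_le_two_mul_self_mul_centralBinom (n + 1) (Nat.succ_pos n)
  have h2 : (((n + 1 : ℕ) : ℝ) + 1) * (catalan (n + 1) : ℝ) = (Nat.centralBinom (n + 1) : ℝ) := by
    exact_mod_cast succ_mul_catalan_eq_centralBinom (n + 1)
  push_cast at h2
  rw [← h2] at h1
  have hn : (0 : ℝ) ≤ n := Nat.cast_nonneg n
  have hC : (0 : ℝ) ≤ (catalan (n + 1) : ℝ) := Nat.cast_nonneg _
  have h12 : (12 : ℝ) ^ n = 3 ^ n * 4 ^ n := by rw [← mul_pow]; norm_num
  have h3 : (0 : ℝ) < 3 ^ n := by positivity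
  rw [div_le_div_iff₀ (by positivity) (by positivity), h12]
  have h5 : (4 : ℝ) ^ n * ((n : ℝ) + 3) ≤ 3 * (catalan (n + 1) : ℝ) * ((n : ℝ) + 1) ^ 3 := by
    have h6 : (4 : ℝ) ^ n ≤ ((n : ℝ) + 1) * ((n : ℝ) + 2) * (catalan (n + 1) : ℝ) / 2 := by
      rw [pow_succ] at h1
      linarith
    have h7 : ((n : ℝ) + 2) * ((n : ℝ) + 3) ≤ 6 * ((n : ℝ) + 1) ^ 2 := by nlinarith
    calc (4 : ℝ) ^ n * ((n : ℝ) + 3)
        ≤ ((n : ℝ) + 1) * ((n : ℝ) + 2) * (catalan (n + 1) : ℝ) / 2 * ((n : ℝ) + 3) :=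
          mul_le_mul_of_nonneg_right h6 (by positivity)
      _ = (((n : ℝ) + 1) * (catalan (n + 1) : ℝ) / 2) * (((n : ℝ) + 2) * ((n : ℝ) + 3)) := by ring
      _ ≤ (((n : ℝ) + 1) * (catalan (n + 1) : ℝ) / 2) * (6 * ((n : ℝ) + 1) ^ 2) :=
          mul_le_mul_of_nonneg_left h7 (by positivity)
      _ = _ := by ring
  have := mul_le_mul_of_nonneg_left h5 (by positivity : (0 : ℝ) ≤ 2 * 3 ^ n)
  calc _ = 2 * 3 ^ n * ((4 : ℝ) ^ n * ((n : ℝ) + 3)) := by ring
    _ ≤ _ := this
    _ = _ := by ring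

end Pool.Agent.P.MP_7a6434d8_pr
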