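import Pool.Agent.P.MP_7a6434d8_pr.MassB

namespace Pool.Agent.P.MP_7a6434d8_pr

open Mp Finset
open scoped ENNReal

theorem counta_edges (t : Mp) (ht : ok t) : edges t = 2 * size t + per t := by
  induction t with
  | pt => rfl
  | face t ih =>
    have h1 := ih ht.1
    have h2 := ht.2
    simp only [edges, size, per]
    omega
  | bridge a b iha ihb =>
    have h1 := iha ht.1
    have h2 := ihb ht.2
    simp only [edges, size, per]
    omega

theorem counta_finite_edges (N : ℕ) : {t : Mp | edges t ≤ N}.Finite := by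
  induction N with
  | zero =>
    refine (Set.finite_singleton pt).subset ?_
    intro t ht
    cases t with
    | pt => rfl
    | face t => simp [edges] at ht
    | bridge a b => simp [edges] at ht
  | succ N ih =>
    refine (((Set.finite_singleton pt).union (ih.image face)).union
      (ih.image2 bridge ih)).subset ?_
    intro t ht
    cases t with
    | pt => exact Or.inl (Or.inl rfl)
    | face t =>
      refine Or.inl (Or.inr ⟨t, ?_, rfl⟩)
      simp only [edges, Set.mem_ofPred_eq] at ht ⊢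
      omega
    | bridge a b =>
      refine Or.inr ⟨a, ?_, b, ?_, rfl⟩
      · simp only [edges, Set.mem_ofPred_eq] at ht ⊢
        omega
      · simp only [edges, Set.mem_ofPred_eq] at ht ⊢
        omega

theorem finite_trees (L n : ℕ) : {t : Mp | ok t ∧ per t = L ∧ size t = n}.Finite := by
  refine (counta_finite_edges (2 * n + L)).subset ?_
  rintro t ⟨h1, h2, h3⟩
  have := counta_edges t h1
  simp only [Set.mem_ofPred_eq]
  omega

/-- the finite set of admissible trees with given half-perimeter and size -/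
noncomputable def countaT (L n : ℕ) : Finset Mp := (finite_trees L n).toFinset

theorem counta_mem (L n : ℕ) (t : Mp) :
    t ∈ countaT L n ↔ ok t ∧ per t = L ∧ size t = n := by
  simp [countaT]

open Classical in
theorem counta_cnt (L n : ℕ) (φ : Mp → Prop) :
    cnt L n φ = ((countaT L n).filter φ).card := by
  unfold cnt
  rw [← Nat.card_eq_finsetCard]
  refine Nat.card_congr (Equiv.subtypeEquivRight fun t => ?_)
  simp only [mem_filter, counta_mem, and_assoc]

theorem counta_cnt_true (L n : ℕ) : cnt L n (fun _ => True) = (countaT L n).card := by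
  rw [counta_cnt]
  simp

theorem cnt_le_mass (L n : ℕ) (φ : Mp → Prop) :
    (cnt L n φ : ℝ) ≤ 12 ^ n * mass L (fun t => φ t ∧ size t = n) := by
  classical
  have h1 : ((cnt L n φ : ℕ) : ℝ≥0∞) * (12 : ℝ≥0∞)⁻¹ ^ n
      ≤ massE L (fun t => φ t ∧ size t = n) := by
    rw [counta_cnt]
    unfold massE
    refine le_trans (le_of_eq ?_) (ENNReal.sum_le_tsum ((countaT L n).filter φ))
    rw [← nsmul_eq_mul, ← sum_const]
    refine sum_congr (by congr) fun t ht => ?_
    obtain ⟨h, hφ⟩ := mem_filter.1 ht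
    obtain ⟨h1, h2, h3⟩ := (counta_mem L n t).1 h
    rw [if_pos ⟨hφ, h3⟩]
    unfold wt
    rw [if_pos ⟨h1, h2⟩, h3]
  have h2 := ENNReal.toReal_mono (massE_ne_top L _) h1
  rw [ENNReal.toReal_mul, ENNReal.toReal_pow, ENNReal.toReal_inv] at h2
  simp only [ENNReal.toReal_natCast, ENNReal.toReal_ofNat] at h2
  unfold mass
  have h3 : (0 : ℝ) < 12 ^ n := by positivity
  calc (cnt L n φ : ℝ) = 12 ^ n * ((cnt L n φ : ℝ) * (12 : ℝ)⁻¹ ^ n) := by
        rw [inv_pow]
        field_simp
    _ ≤ _ := mul_le_mul_of_nonneg_left h2 h3.le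

theorem cnt_zero (n : ℕ) : cnt 0 n (fun _ => True) = if n = 0 then 1 else 0 := by
  rw [counta_cnt_true]
  split_ifs with h
  · subst h
    rw [card_eq_one]
    refine ⟨pt, ?_⟩
    ext t
    rw [counta_mem, mem_singleton]
    constructor
    · rintro ⟨h1, h2, -⟩
      exact eq_pt_of_per_zero t h1 h2
    · rintro rfl
      exact ⟨trivial, rfl, rfl⟩
  · rw [card_eq_zero]
    ext t
    rw [counta_mem]
    simp only [notMem_empty, iff_false]
    rintro ⟨h1, h2, h3⟩
    rw [eq_pt_of_per_zero t h1 h2] at h3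
    exact h h3.symm

theorem cnt_succ (L n : ℕ) : cnt (L + 1) n (fun _ => True)
    = (if n = 0 then 0 else cnt (L + 2) (n - 1) (fun _ => True))
      + ∑ j ∈ range (L + 1), ∑ p ∈ antidiagonal n,
          cnt (L - j) p.1 (fun _ => True) * cnt j p.2 (fun _ => True) := by
  classical
  simp only [counta_cnt_true]
  set A : Finset Mp := if n = 0 then ∅ else countaT (L + 2) (n - 1) with hA
  set B : Finset (Σ _ : ℕ × ℕ × ℕ, Mp × Mp) := (range (L + 1) ×ˢ antidiagonal n).sigma
    (fun x => countaT (L - x.1) x.2.1 ×ˢ countaT x.1 x.2.2) with hB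
  have hcA : (if n = 0 then 0 else (countaT (L + 2) (n - 1)).card) = A.card := by
    rw [hA]
    split_ifs <;> simp
  have hcB : ∑ j ∈ range (L + 1), ∑ p ∈ antidiagonal n,
      (countaT (L - j) p.1).card * (countaT j p.2).card = B.card := by
    rw [hB, card_sigma, sum_product]
    simp only [card_product]
  have memA : ∀ t, t ∈ A ↔ face t ∈ countaT (L + 1) n := by
    intro t
    rw [hA, counta_mem]
    simp only [ok, per, size]
    split_ifs with h
    · simp only [notMem_empty, false_iff]
      omega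
    · rw [counta_mem]
      constructor
      · rintro ⟨h1, h2, h3⟩
        exact ⟨⟨h1, by omega⟩, by omega, by omega⟩
      · rintro ⟨⟨h1, h2⟩, h3, h4⟩
        exact ⟨h1, by omega, by omega⟩
  have hinjB : Set.InjOn (fun x : (Σ _ : ℕ × ℕ × ℕ, Mp × Mp) => bridge x.2.1 x.2.2) B := by
    rintro ⟨⟨j, p, q⟩, a, b⟩ hx ⟨⟨j', p', q'⟩, a', b'⟩ hy hxy
    simp only [hB, coe_sigma, Set.mem_sigma_iff, mem_coe, mem_product, counta_mem] at hx hy
    simp only [bridge.injEq] at hxy
    obtain ⟨rfl, rfl⟩ := hxy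
    obtain ⟨-, ⟨-, -, h1⟩, -, h2, h3⟩ := hx
    obtain ⟨-, ⟨-, -, h1'⟩, -, h2', h3'⟩ := hy
    subst h1 h2 h3
    subst h1' h2' h3'
    rfl
  have hdisj : Disjoint (A.image face)
      (B.image (fun x : (Σ _ : ℕ × ℕ × ℕ, Mp × Mp) => bridge x.2.1 x.2.2)) := by
    rw [disjoint_left]
    intro t h1 h2
    obtain ⟨s, -, rfl⟩ := mem_image.1 h1
    obtain ⟨x, -, hx⟩ := mem_image.1 h2
    cases hx
  rw [hcA, hcB, ← card_image_of_injective A (f := face) (fun _ _ h => face.inj h),
    ← card_image_of_injOn hinjB, ← card_union_of_disjoint hdisj]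
  congr 1
  ext t
  rw [mem_union, mem_image, mem_image]
  constructor
  · intro ht
    cases t with
    | pt =>
      have := ((counta_mem _ _ _).1 ht).2.1
      simp [per] at this
    | face s => exact Or.inl ⟨s, (memA s).2 ht, rfl⟩
    | bridge a b =>
      obtain ⟨⟨h1, h2⟩, h3, h4⟩ := (counta_mem _ _ _).1 ht
      simp only [per, size] at h3 h4
      refine Or.inr ⟨⟨⟨per b, size a, size b⟩, a, b⟩, ?_, rfl⟩
      simp only [hB, mem_sigma, mem_product, mem_range, HasAntidiagonal.mem_antidiagonal,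
        counta_mem]
      exact ⟨⟨by omega, h4⟩, ⟨h1, by omega, trivial⟩, h2, trivial, trivial⟩
  · rintro (⟨s, hs, rfl⟩ | ⟨⟨⟨j, p, q⟩, a, b⟩, hx, rfl⟩)
    · exact (memA s).1 hs
    · simp only [hB, mem_sigma, mem_product, mem_range, HasAntidiagonal.mem_antidiagonal,
        counta_mem] at hx
      obtain ⟨⟨h0, h1⟩, ⟨h2, h3, h4⟩, h5, h6, h7⟩ := hx
      rw [counta_mem]
      simp only [ok, per, size]
      exact ⟨⟨h2, h5⟩, by omega, by omega⟩

end Pool.Agent.P.MP_7a6434d8_pr
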