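import Pool.Agent.P.MP_7a6434d8_pr.Hit

namespace Pool.Agent.P.MP_7a6434d8_pr

open Mp Finset
open scoped ENNReal

theorem cover_submul {n : ℕ} (q : Quad n) (v : q.Vertex) (s' : ℕ) (M : ℝ)
    (hM : ∀ y, hitP q v s' y ≤ M) (s : ℕ) : ∀ x, hitP q v (s + s') x ≤ hitP q v s x * M := by
  induction s with
  | zero =>
    intro x
    by_cases hx : x = v
    · rw [hx, hitP_self, hitP_self, zero_mul]
    · rw [hitP_zero_ne q v x hx, one_mul, zero_add]
      exact hM x
  | succ s ih =>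
    intro x
    by_cases hx : x = v
    · rw [hx, hitP_self, hitP_self, zero_mul]
    · rw [show s + 1 + s' = (s + s') + 1 by ring, hitP_succ_ne q v x hx, hitP_succ_ne q v x hx,
        div_mul_eq_mul_div, Finset.sum_mul]
      exact div_le_div_of_nonneg_right (Finset.sum_le_sum (fun d _ => ih _))
        (hit_card_pos q x).le

theorem cover_anti {n : ℕ} (q : Quad n) (v x : q.Vertex) {s t : ℕ} (h : s ≤ t) :
    hitP q v t x ≤ hitP q v s x := by
  obtain ⟨r, rfl⟩ := Nat.exists_eq_add_of_le h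
  simpa using cover_submul q v r 1 (fun y => hitP_le_one q v r y) s x

theorem cover_half {n : ℕ} (q : Quad n) (R : ℝ) (hR : 0 ≤ R) (H : ResLe q R) (v x : q.Vertex)
    (T0 : ℕ) (h0 : 0 < T0) (hT : 8 * n * R ≤ T0) : hitP q v T0 x ≤ 1 / 2 := by
  have h1 := hit_le_real q R hR H x v T0
  have h2 : ∑ _s ∈ range T0, hitP q v T0 x ≤ ∑ s ∈ range T0, hitP q v s x :=
    Finset.sum_le_sum (fun s hs => cover_anti q v x (Finset.mem_range.1 hs).le)
  rw [Finset.sum_const, Finset.card_range, nsmul_eq_mul] at h2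
  have h3 : (0 : ℝ) < T0 := by exact_mod_cast h0
  by_contra hc
  push Not at hc
  nlinarith

theorem cover_geom {n : ℕ} (q : Quad n) (v : q.Vertex) (T0 : ℕ)
    (h : ∀ y, hitP q v T0 y ≤ 1 / 2) (k : ℕ) (x : q.Vertex) :
    hitP q v (T0 * k) x ≤ (1 / 2) ^ k := by
  induction k with
  | zero => simpa using hitP_le_one q v 0 x
  | succ k ih =>
    rw [Nat.mul_succ, pow_succ]
    exact (cover_submul q v T0 (1 / 2) h (T0 * k) x).trans
      (mul_le_mul_of_nonneg_right ih (by norm_num))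

theorem cover_union {n : ℕ} (q : Quad n) (x : q.Vertex) (T : ℕ) (c : ℝ) (hc : 0 ≤ c)
    (h : ∀ v, hitP q v T x ≤ c) :
    (q.walk T x).toOuterMeasure {l | ∃ v, v ∉ l} ≤ ENNReal.ofReal (min 1 ((n + 2) * c)) := by
  classical
  have := hit_finite q
  let _i : Fintype q.Vertex := Fintype.ofFinite _
  have hcard : Fintype.card q.Vertex = n + 2 := by
    have h1 : Nat.card q.Vertex + n = 2 * n + 2 := q.euler
    rw [Nat.card_eq_fintype_card] at h1
    omega
  rw [ENNReal.ofReal_min]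
  refine le_min (by simpa using hit_outer_le_one _ _) ?_
  have hU : {l : List q.Vertex | ∃ v, v ∉ l} = ⋃ v, {l | v ∉ l} := by
    ext l; simp
  rw [hU]
  refine (MeasureTheory.measure_iUnion_fintype_le _ _).trans ?_
  calc ∑ v, (q.walk T x).toOuterMeasure {l | v ∉ l} ≤ ∑ _v : q.Vertex, ENNReal.ofReal c := by
        refine Finset.sum_le_sum (fun v _ => ?_)
        rw [hit_eq_ofReal]
        exact ENNReal.ofReal_le_ofReal (h v)
    _ = ENNReal.ofReal ((n + 2) * c) := by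
        rw [← ENNReal.ofReal_sum_of_nonneg (fun _ _ => hc), Finset.sum_const, Finset.card_univ,
          hcard, nsmul_eq_mul]
        push_cast
        rfl

theorem cover_sum_div (b : ℕ → ℝ) (T0 : ℕ) (h0 : 0 < T0) (N : ℕ) :
    ∑ T ∈ range (T0 * N), b (T / T0) = T0 * ∑ k ∈ range N, b k := by
  induction N with
  | zero => simp
  | succ N ih =>
    rw [Nat.mul_succ, Finset.sum_range_add, ih, Finset.sum_range_succ, mul_add]
    congr 1
    have : ∀ r ∈ range T0, b ((T0 * N + r) / T0) = b N := by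
      intro r hr
      rw [Nat.mul_add_div h0, Nat.div_eq_of_lt (Finset.mem_range.1 hr), add_zero]
    rw [Finset.sum_congr rfl this]
    simp

theorem cover_sum_min (m : ℝ) (hm : 0 ≤ m) (K : ℕ) (hK : m ≤ 2 ^ K) (N : ℕ) :
    ∑ k ∈ range N, min 1 (m * (1 / 2) ^ k) ≤ K + 2 := by
  have h1 : ∑ k ∈ range N, min 1 (m * (1 / 2 : ℝ) ^ k)
      ≤ ∑ k ∈ range (K + N), min 1 (m * (1 / 2 : ℝ) ^ k) :=
    Finset.sum_le_sum_of_subset_of_nonneg (Finset.range_subset_range.2 (by omega))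
      (fun k _ _ => le_min zero_le_one (by positivity))
  refine h1.trans ?_
  rw [Finset.sum_range_add]
  refine add_le_add ?_ ?_
  · calc ∑ k ∈ range K, min 1 (m * (1 / 2 : ℝ) ^ k) ≤ ∑ _k ∈ range K, (1 : ℝ) :=
          Finset.sum_le_sum (fun k _ => min_le_left _ _)
      _ = K := by simp
  · refine le_trans (Finset.sum_le_sum (fun j _ => ?_)) (sum_geometric_two_le N)
    refine (min_le_right _ _).trans ?_
    rw [pow_add, ← mul_assoc]
    refine mul_le_of_le_one_left (by positivity) ?_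
    rw [one_div, inv_pow, ← div_eq_mul_inv, div_le_one (by positivity)]
    exact hK

theorem cover_le {n : ℕ} (q : Quad n) (R : ℝ) (hR : 0 ≤ R) (H : ResLe q R) (x : q.Vertex) :
    q.coverTime x ≤ ENNReal.ofReal (100 * (n * R + 1) * (Real.log (n + 2) + 1)) := by
  set T0 : ℕ := ⌈8 * n * R⌉₊ + 1 with hT0
  set K : ℕ := Nat.log 2 (n + 2) + 1 with hK
  have h0 : 0 < T0 := by omega
  have hnR : 0 ≤ (n : ℝ) * R := by positivity
  have hT : 8 * n * R ≤ (T0 : ℝ) := by
    rw [hT0]; push_cast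
    linarith [Nat.le_ceil (8 * n * R)]
  have hT' : (T0 : ℝ) ≤ 8 * (n * R + 1) := by
    rw [hT0]; push_cast
    have := Nat.ceil_lt_add_one (show 0 ≤ 8 * n * R by positivity)
    nlinarith
  have hK1 : ((n : ℝ) + 2) ≤ 2 ^ K := by
    have := Nat.lt_pow_succ_log_self (b := 2) (by norm_num) (n + 2)
    exact_mod_cast this.le
  have hlog : 0 ≤ Real.log (n + 2) := Real.log_nonneg (by
    have : (0 : ℝ) ≤ n := Nat.cast_nonneg n
    linarith)
  have hK2 : (K : ℝ) + 2 ≤ 3 * (Real.log (n + 2) + 1) := by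
    have h1 : 2 ^ Nat.log 2 (n + 2) ≤ n + 2 := Nat.pow_log_le_self 2 (by omega)
    have h2 : (2 : ℝ) ^ Nat.log 2 (n + 2) ≤ n + 2 := by exact_mod_cast h1
    have h3 := Real.log_le_log (by positivity) h2
    rw [Real.log_pow] at h3
    have h4 := Real.log_two_gt_d9
    have h5 : (0 : ℝ) ≤ Nat.log 2 (n + 2) := Nat.cast_nonneg _
    rw [hK]; push_cast
    nlinarith
  have hterm : ∀ T, (q.walk T x).toOuterMeasure {l | ∃ v, v ∉ l}
      ≤ ENNReal.ofReal (min 1 ((n + 2) * (1 / 2) ^ (T / T0))) := by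
    intro T
    refine cover_union q x T _ (by positivity) (fun v => ?_)
    exact (cover_anti q v x (Nat.mul_div_le T T0)).trans
      (cover_geom q v T0 (fun y => cover_half q R hR H v y T0 h0 hT) _ x)
  have hnn : ∀ k : ℕ, (0 : ℝ) ≤ min 1 (((n : ℝ) + 2) * (1 / 2) ^ k) :=
    fun k => le_min (zero_le_one' ℝ) (by positivity)
  rw [Quad.coverTime, ENNReal.tsum_eq_iSup_nat]
  refine iSup_le (fun N => ?_)
  refine (Finset.sum_le_sum (fun T _ => hterm T)).trans ?_
  rw [← ENNReal.ofReal_sum_of_nonneg (fun T _ => hnn _)]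
  refine ENNReal.ofReal_le_ofReal ?_
  have h1 : ∑ T ∈ range N, min 1 (((n : ℝ) + 2) * (1 / 2) ^ (T / T0))
      ≤ ∑ T ∈ range (T0 * N), min 1 (((n : ℝ) + 2) * (1 / 2) ^ (T / T0)) :=
    Finset.sum_le_sum_of_subset_of_nonneg
      (Finset.range_subset_range.2 (Nat.le_mul_of_pos_left N h0)) (fun T _ _ => hnn _)
  rw [cover_sum_div (fun k => min 1 (((n : ℝ) + 2) * (1 / 2) ^ k)) T0 h0 N] at h1
  have h2 := cover_sum_min ((n : ℝ) + 2) (by positivity) K hK1 N
  have h3 : (0 : ℝ) ≤ T0 := Nat.cast_nonneg _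
  calc _ ≤ _ := h1
    _ ≤ (T0 : ℝ) * (K + 2) := mul_le_mul_of_nonneg_left h2 h3
    _ ≤ (8 * (n * R + 1)) * (3 * (Real.log (n + 2) + 1)) :=
        mul_le_mul hT' hK2 (by positivity) (by positivity)
    _ ≤ 100 * (n * R + 1) * (Real.log (n + 2) + 1) := by nlinarith [mul_nonneg hnR hlog]

end Pool.Agent.P.MP_7a6434d8_pr
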