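import Pool.Agent.P.MP_7a6434d8_pr.BasicA

namespace Pool.Agent.P.MP_7a6434d8_pr

open Mp Finset
open scoped ENNReal

/-- connection along edges allowed by `Q` -/
def cross_R (t : Mp) (Q : V t → V t → Prop) (x y : V t) : Prop :=
  Relation.ReflTransGen (fun a b => adj t a b ∧ Q a b) x y

theorem cross_refl {t : Mp} {Q : V t → V t → Prop} (x : V t) : cross_R t Q x x :=
  Relation.ReflTransGen.refl

theorem cross_trans {t : Mp} {Q : V t → V t → Prop} {x y z : V t} (h : cross_R t Q x y)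
    (h' : cross_R t Q y z) : cross_R t Q x z :=
  Relation.ReflTransGen.trans h h'

theorem cross_single {t : Mp} {Q : V t → V t → Prop} {x y : V t} (h : adj t x y) (h' : Q x y) :
    cross_R t Q x y :=
  Relation.ReflTransGen.single ⟨h, h'⟩

theorem cross_symm {t : Mp} {Q : V t → V t → Prop} (hQ : ∀ a b, Q a b → Q b a) {x y : V t}
    (h : cross_R t Q x y) : cross_R t Q y x := by
  unfold cross_R at h
  induction h with
  | refl => exact cross_refl _
  | tail _ h2 ih => exact cross_trans (cross_single (adj_symm t _ _ h2.1) (hQ _ _ h2.2)) ih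

theorem cross_face_lift {t : Mp} {Q : V t → V t → Prop} {x y : V t} (h : cross_R t Q x y) :
    cross_R (face t) Q x y := by
  unfold cross_R at h
  induction h with
  | refl => exact cross_refl (t := face t) _
  | tail _ h2 ih =>
    exact cross_trans (t := face t) ih (cross_single (t := face t) (Or.inl h2.1) h2.2)

theorem cross_face {t : Mp} {Q : V t → V t → Prop} (hQ : ∀ a b, Q a b → Q b a) {x y : V t}
    (h : cross_R (face t) Q x y) :
    cross_R t Q x y ∨ (cross_R (face t) Q (bv t 0) (bv t 3) ∧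
      ((cross_R t Q x (bv t 0) ∧ cross_R t Q (bv t 3) y) ∨
        (cross_R t Q x (bv t 3) ∧ cross_R t Q (bv t 0) y))) := by
  unfold cross_R at h
  induction h with
  | refl => exact Or.inl (cross_refl _)
  | @tail b c _ h2 ih =>
    obtain ⟨h3, h4⟩ := h2
    have h3' : adj t b c ∨ (b = bv t 0 ∧ c = bv t 3) ∨ (b = bv t 3 ∧ c = bv t 0) := h3
    rcases h3' with h5 | ⟨hb, hc⟩ | ⟨hb, hc⟩
    · have h6 : cross_R t Q b c := cross_single h5 h4
      rcases ih with ih | ⟨hE, ⟨i1, i2⟩ | ⟨i1, i2⟩⟩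
      · exact Or.inl (cross_trans ih h6)
      · exact Or.inr ⟨hE, Or.inl ⟨i1, cross_trans i2 h6⟩⟩
      · exact Or.inr ⟨hE, Or.inr ⟨i1, cross_trans i2 h6⟩⟩
    · subst hb hc
      have hE : cross_R (face t) Q (bv t 0) (bv t 3) := cross_single (t := face t) h3 h4
      rcases ih with ih | ⟨_, ⟨i1, _⟩ | ⟨i1, _⟩⟩
      · exact Or.inr ⟨hE, Or.inl ⟨ih, cross_refl _⟩⟩
      · exact Or.inr ⟨hE, Or.inl ⟨i1, cross_refl _⟩⟩
      · exact Or.inl i1
    · subst hb hc
      have hE : cross_R (face t) Q (bv t 0) (bv t 3) :=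
        cross_symm (t := face t) hQ (cross_single (t := face t) h3 h4)
      rcases ih with ih | ⟨_, ⟨i1, _⟩ | ⟨i1, _⟩⟩
      · exact Or.inr ⟨hE, Or.inr ⟨ih, cross_refl _⟩⟩
      · exact Or.inl i1
      · exact Or.inr ⟨hE, Or.inr ⟨i1, cross_refl _⟩⟩

/-- projection of a bridge to its first part -/
def cross_pa (a b : Mp) : V (bridge a b) → V a
  | Sum.inl x => x
  | Sum.inr _ => bv a 0

/-- projection of a bridge to its second part -/
def cross_pb (a b : Mp) : V (bridge a b) → V b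
  | Sum.inl _ => bv b 0
  | Sum.inr y => y

/-- the side of a vertex of a bridge -/
def cross_side (a b : Mp) : V (bridge a b) → Bool
  | Sum.inl _ => false
  | Sum.inr _ => true

theorem cross_bridge {a b : Mp} {Q : V (bridge a b) → V (bridge a b) → Prop}
    (hQ : ∀ x y, Q x y → Q y x) {x y : V (bridge a b)} (h : cross_R (bridge a b) Q x y) :
    cross_R a (fun u v => Q (Sum.inl u) (Sum.inl v)) (cross_pa a b x) (cross_pa a b y) ∧
    cross_R b (fun u v => Q (Sum.inr u) (Sum.inr v)) (cross_pb a b x) (cross_pb a b y) ∧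
    (cross_side a b x = cross_side a b y ∨ Q (Sum.inl (bv a 0)) (Sum.inr (bv b 0))) := by
  unfold cross_R at h
  induction h with
  | refl => exact ⟨cross_refl _, cross_refl _, Or.inl rfl⟩
  | @tail u v _ h2 ih =>
    obtain ⟨h3, h4⟩ := h2
    obtain ⟨i1, i2, i3⟩ := ih
    rcases u with u | u <;> rcases v with v | v
    · exact ⟨cross_trans i1 (cross_single h3 h4), i2, i3⟩
    · have h5 : u = bv a 0 ∧ v = bv b 0 := h3
      obtain ⟨rfl, rfl⟩ := h5
      exact ⟨i1, i2, Or.inr h4⟩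
    · have h5 : u = bv b 0 ∧ v = bv a 0 := h3
      obtain ⟨rfl, rfl⟩ := h5
      exact ⟨i1, i2, Or.inr (hQ _ _ h4)⟩
    · exact ⟨i1, cross_trans i2 (cross_single h3 h4), i3⟩

theorem cross_lift_a {a b : Mp} {Q : V (bridge a b) → V (bridge a b) → Prop} {x y : V a}
    (h : cross_R a (fun u v => Q (Sum.inl u) (Sum.inl v)) x y) :
    cross_R (bridge a b) Q (Sum.inl x) (Sum.inl y) := by
  unfold cross_R at h
  induction h with
  | refl => exact cross_refl _
  | tail _ h2 ih => exact cross_trans ih (cross_single (t := bridge a b) h2.1 h2.2)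

theorem cross_lift_b {a b : Mp} {Q : V (bridge a b) → V (bridge a b) → Prop} {x y : V b}
    (h : cross_R b (fun u v => Q (Sum.inr u) (Sum.inr v)) x y) :
    cross_R (bridge a b) Q (Sum.inr x) (Sum.inr y) := by
  unfold cross_R at h
  induction h with
  | refl => exact cross_refl _
  | tail _ h2 ih => exact cross_trans ih (cross_single (t := bridge a b) h2.1 h2.2)

theorem cross_join {a b : Mp} {Q : V (bridge a b) → V (bridge a b) → Prop}
    (hQ : ∀ x y, Q x y → Q y x) {x y : V (bridge a b)}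
    (h1 : cross_R a (fun u v => Q (Sum.inl u) (Sum.inl v)) (cross_pa a b x) (cross_pa a b y))
    (h2 : cross_R b (fun u v => Q (Sum.inr u) (Sum.inr v)) (cross_pb a b x) (cross_pb a b y))
    (h3 : cross_side a b x = cross_side a b y ∨ Q (Sum.inl (bv a 0)) (Sum.inr (bv b 0))) :
    cross_R (bridge a b) Q x y := by
  rcases x with x | x <;> rcases y with y | y
  · exact cross_lift_a h1
  · rcases h3 with h3 | h3
    · exact absurd h3 (by simp [cross_side])
    · have hE : cross_R (bridge a b) Q (Sum.inl (bv a 0)) (Sum.inr (bv b 0)) :=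
        cross_single (t := bridge a b) ⟨rfl, rfl⟩ h3
      exact cross_trans (cross_lift_a h1) (cross_trans hE (cross_lift_b h2))
  · rcases h3 with h3 | h3
    · exact absurd h3 (by simp [cross_side])
    · have hE : cross_R (bridge a b) Q (Sum.inr (bv b 0)) (Sum.inl (bv a 0)) :=
        cross_single (t := bridge a b) ⟨rfl, rfl⟩ (hQ _ _ h3)
      exact cross_trans (cross_lift_b h2) (cross_trans hE (cross_lift_a h1))
  · exact cross_lift_b h2

theorem cross_bv_face (t : Mp) (k : ℕ) :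
    bv (face t) k = bv t (if k = 0 then 0 else k + 2) := by
  show (if k = 0 then bv t 0 else bv t (k + 2)) = _
  split_ifs <;> rfl

theorem cross_bv_bridge (a b : Mp) (k : ℕ) :
    bv (bridge a b) k = if k = 0 then Sum.inl (bv a 0)
      else if k ≤ 2 * per b + 1 then Sum.inr (bv b (k - 1))
      else Sum.inl (bv a (k - 2 * per b - 2)) := rfl

theorem cross_pa_bv (a b : Mp) (k : ℕ) :
    cross_pa a b (bv (bridge a b) k) = bv a (k - 2 * per b - 2) := by
  rw [cross_bv_bridge]
  split_ifs with h1 h2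
  · have : k - 2 * per b - 2 = 0 := by omega
    rw [this]; rfl
  · have : k - 2 * per b - 2 = 0 := by omega
    rw [this]; rfl
  · rfl

theorem cross_pb_bv (a b : Mp) (hb : ok b) (k : ℕ) :
    cross_pb a b (bv (bridge a b) k) = bv b (min (k - 1) (2 * per b)) := by
  rw [cross_bv_bridge]
  split_ifs with h1 h2
  · have : min (k - 1) (2 * per b) = 0 := by omega
    rw [this]; rfl
  · have : min (k - 1) (2 * per b) = k - 1 := by omega
    rw [this]; rfl
  · have : min (k - 1) (2 * per b) = 2 * per b := by omega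
    rw [this, bv_end b hb]; rfl

theorem cross_side_bv (a b : Mp) (k : ℕ) :
    cross_side a b (bv (bridge a b) k) = decide (1 ≤ k ∧ k ≤ 2 * per b + 1) := by
  rw [cross_bv_bridge]
  split_ifs with h1 h2
  · have : ¬ (1 ≤ k ∧ k ≤ 2 * per b + 1) := by omega
    rw [decide_eq_false this]; rfl
  · have : 1 ≤ k ∧ k ≤ 2 * per b + 1 := by omega
    rw [decide_eq_true this]; rfl
  · have : ¬ (1 ≤ k ∧ k ≤ 2 * per b + 1) := by omega
    rw [decide_eq_false this]; rfl

theorem cross_main (t : Mp) : ok t → ∀ (Q : V t → V t → Prop), (∀ a b, Q a b → Q b a) →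
    ∀ p0 p1 p2 p3 : ℕ, p0 ≤ p1 → p1 ≤ p2 → p2 ≤ p3 → p3 ≤ 2 * per t →
      cross_R t Q (bv t p0) (bv t p2) → cross_R t Q (bv t p1) (bv t p3) →
      cross_R t Q (bv t p0) (bv t p1) := by
  induction t with
  | pt =>
    intro _ Q _ p0 p1 p2 p3 _ _ _ _ _ _
    exact cross_refl _
  | face t ih =>
    intro ht Q hQ p0 p1 p2 p3 h01 h12 h23 h3 H1 H2
    obtain ⟨ht1, ht2⟩ : ok t ∧ 2 ≤ per t := ht
    have hper : per (face t) = per t - 1 := rfl
    rw [hper] at h3
    have IH := ih ht1 Q hQ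
    rw [cross_bv_face] at H1 H2 ⊢
    rw [cross_bv_face t p2] at H1
    rw [cross_bv_face t p3] at H2
    rw [cross_bv_face t p1]
    obtain ⟨q0, hq0⟩ : ∃ q, q = if p0 = 0 then 0 else p0 + 2 := ⟨_, rfl⟩
    obtain ⟨q1, hq1⟩ : ∃ q, q = if p1 = 0 then 0 else p1 + 2 := ⟨_, rfl⟩
    obtain ⟨q2, hq2⟩ : ∃ q, q = if p2 = 0 then 0 else p2 + 2 := ⟨_, rfl⟩
    obtain ⟨q3, hq3⟩ : ∃ q, q = if p3 = 0 then 0 else p3 + 2 := ⟨_, rfl⟩
    have g01 : q0 ≤ q1 := by rw [hq0, hq1]; split_ifs <;> omega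
    have g12 : q1 ≤ q2 := by rw [hq1, hq2]; split_ifs <;> omega
    have g23 : q2 ≤ q3 := by rw [hq2, hq3]; split_ifs <;> omega
    have g3 : q3 ≤ 2 * per t := by rw [hq3]; split_ifs <;> omega
    have g0 : q0 = 0 ∨ 3 ≤ q0 := by rw [hq0]; split_ifs <;> omega
    have g1 : q1 = 0 ∨ 3 ≤ q1 := by rw [hq1]; split_ifs <;> omega
    rw [← hq0, ← hq2] at H1
    rw [← hq1, ← hq3] at H2
    rw [← hq0, ← hq1]
    clear hq0 hq1 hq2 hq3
    have S : ∀ {x y : V t}, cross_R t Q x y → cross_R t Q y x := fun h => cross_symm (t := t) hQ h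
    have SF : ∀ {x y : V t}, cross_R (face t) Q x y → cross_R (face t) Q y x :=
      fun h => cross_symm (t := face t) hQ h
    have L : ∀ {x y : V t}, cross_R t Q x y → cross_R (face t) Q x y :=
      fun h => cross_face_lift (t := t) h
    have T : ∀ {x y z : V t}, cross_R (face t) Q x y → cross_R (face t) Q y z →
        cross_R (face t) Q x z := fun h h' => cross_trans (t := face t) h h'
    rcases cross_face (t := t) hQ H1 with A | ⟨hE, ⟨A1, A2⟩ | ⟨A1, A2⟩⟩ <;>
      rcases cross_face (t := t) hQ H2 with B | ⟨hE', ⟨B1, B2⟩ | ⟨B1, B2⟩⟩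
    · exact L (IH _ _ _ _ g01 g12 g23 g3 A B)
    · rw [← bv_end t ht1] at B1
      exact L (IH _ _ _ _ g01 g12 (g23.trans g3) le_rfl A B1)
    · rcases g0 with g0 | g0
      · subst g0
        exact T hE' (L (S B1))
      · exact T (L (S (IH _ _ _ _ g0 g01 g12 (g23.trans g3) (S B1) A))) (L (S B1))
    · rcases g1 with g1 | g1
      · subst g1
        exact L A1
      · exact T (L A1) (T hE (L (IH _ _ _ _ g1 g12 g23 g3 A2 B)))
    · exact L (cross_trans (t := t) A1 (S B1))
    · exact T (L A1) (T hE (L (S B1)))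
    · exact T (L A1) (T (SF hE) (L (IH _ _ _ _ (Nat.zero_le _) g12 g23 g3 A2 B)))
    · exact T (L A1) (T (SF hE) (L (S B1)))
    · exact L (cross_trans (t := t) A1 (S B1))
  | bridge a b iha ihb =>
    intro ht Q hQ p0 p1 p2 p3 h01 h12 h23 h3 H1 H2
    obtain ⟨ha, hb⟩ : ok a ∧ ok b := ht
    have hper : per (bridge a b) = per a + per b + 1 := rfl
    rw [hper] at h3
    obtain ⟨A1, A2, A3⟩ := cross_bridge hQ H1
    obtain ⟨B1, B2, B3⟩ := cross_bridge hQ H2
    rw [cross_pa_bv, cross_pa_bv] at A1 B1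
    rw [cross_pb_bv a b hb, cross_pb_bv a b hb] at A2 B2
    rw [cross_side_bv, cross_side_bv] at A3 B3
    apply cross_join hQ
    · rw [cross_pa_bv, cross_pa_bv]
      exact iha ha _ (fun u v h => hQ _ _ h) _ _ _ _ (by omega) (by omega) (by omega) (by omega)
        A1 B1
    · rw [cross_pb_bv a b hb, cross_pb_bv a b hb]
      exact ihb hb _ (fun u v h => hQ _ _ h) _ _ _ _ (by omega) (by omega) (by omega) (by omega)
        A2 B2
    · rw [cross_side_bv, cross_side_bv]
      rcases A3 with A3 | A3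
      · rcases B3 with B3 | B3
        · left
          rw [decide_eq_decide] at A3 B3 ⊢
          omega
        · exact Or.inr B3
      · exact Or.inr A3

theorem cross_of_conn {t : Mp} {K : V t → Prop} {Q : V t → V t → Prop}
    (hQ : ∀ a b, K a → K b → Q a b) {x y : V t} (h : Conn t K x y) :
    K y ∧ cross_R t Q x y := by
  obtain ⟨hx, h⟩ := h
  induction h with
  | refl => exact ⟨hx, cross_refl _⟩
  | tail _ h2 ih => exact ⟨h2.2, cross_trans ih.2 (cross_single h2.1 (hQ _ _ ih.1 h2.2))⟩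

theorem cross (t : Mp) (ht : ok t) (K1 K2 : V t → Prop) (p0 p1 p2 p3 : ℕ) (h01 : p0 ≤ p1)
    (h12 : p1 ≤ p2) (h23 : p2 ≤ p3) (h3 : p3 ≤ 2 * per t)
    (H1 : Conn t K1 (bv t p0) (bv t p2)) (H2 : Conn t K2 (bv t p1) (bv t p3)) :
    ∃ x, K1 x ∧ K2 x := by
  by_contra hne
  have hd : ∀ x, K1 x → ¬ K2 x := fun x h1 h2 => hne ⟨x, h1, h2⟩
  have hQ : ∀ a b, ((K1 a ∧ K1 b) ∨ (K2 a ∧ K2 b)) → ((K1 b ∧ K1 a) ∨ (K2 b ∧ K2 a)) :=
    fun a b h => h.imp And.symm And.symm
  have h := cross_main t ht (fun a b => (K1 a ∧ K1 b) ∨ (K2 a ∧ K2 b)) hQ p0 p1 p2 p3 h01 h12 h23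
    h3 (cross_of_conn (fun a b ha hb => Or.inl ⟨ha, hb⟩) H1).2
    (cross_of_conn (fun a b ha hb => Or.inr ⟨ha, hb⟩) H2).2
  have key : ∀ y, cross_R t (fun a b => (K1 a ∧ K1 b) ∨ (K2 a ∧ K2 b)) (bv t p0) y → K1 y := by
    intro y hy
    unfold cross_R at hy
    induction hy with
    | refl => exact H1.1
    | tail _ h2 ih =>
      rcases h2.2 with h4 | h4
      · exact h4.2
      · exact absurd h4.1 (hd _ ih)
  exact hd _ (key _ h) H2.1

end Pool.Agent.P.MP_7a6434d8_pr
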