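import Pool.Agent.P.MP_7a6434d8_pr.NumB

namespace Pool.Agent.P.MP_7a6434d8_pr

open Mp Finset
open scoped ENNReal

/-- potential of the cut lemma -/
noncomputable def psiC (L0 n : ℕ) : ℝ := 1 - ((L0 : ℝ) + 3 / 2) / ((n : ℝ) + 3 / 2)

theorem cutnum_tangent (L0 L n : ℕ) :
    psiC L0 n ≤ psiC L0 L + ((L0 : ℝ) + 3 / 2) / (2 * ((L : ℝ) + 3 / 2) ^ 3) * (Av n - Av L) := by
  unfold psiC Av
  set a : ℝ := (L : ℝ) + 3 / 2 with ha
  set b : ℝ := (n : ℝ) + 3 / 2 with hb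
  set M : ℝ := (L0 : ℝ) + 3 / 2 with hM
  have ha0 : 0 < a := by positivity
  have hb0 : 0 < b := by positivity
  have hM0 : 0 < M := by positivity
  have e : ((n : ℝ) + 1) * (n + 2) - ((L : ℝ) + 1) * (L + 2) = b ^ 2 - a ^ 2 := by
    rw [ha, hb]; ring
  rw [e]
  have key : 1 - M / a + M / (2 * a ^ 3) * (b ^ 2 - a ^ 2) - (1 - M / b)
      = M * ((a - b) ^ 2 * (2 * a + b)) / (2 * a ^ 3 * b) := by
    field_simp; ring
  have : 0 ≤ M * ((a - b) ^ 2 * (2 * a + b)) / (2 * a ^ 3 * b) := by positivity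
  linarith

theorem cutnum_sum_Av (r : ℕ) :
    ∑ j ∈ range r, Av j = (r : ℝ) * (r + 1) * (r + 2) / 3 := by
  induction r with
  | zero => simp
  | succ r ih => rw [sum_range_succ, ih]; unfold Av; push_cast; ring

theorem cutnum_Av_nonneg (j : ℕ) : 0 ≤ Av j := by unfold Av; positivity

theorem cutnum_ZZ (L j : ℕ) (hj : j + 1 ≤ L) :
    Z (L - 1 - j) * Z j = w (L - 1 - j) * w j * 8 ^ (L - 1) := by
  rw [Z_eq_w, Z_eq_w]
  have : (8 : ℝ) ^ (L - 1) = 8 ^ (L - 1 - j) * 8 ^ j := by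
    rw [← pow_add]; congr 1; omega
  rw [this]; ring

theorem cutnum_part (L0 L r : ℕ) :
    ∑ j ∈ range r, psiC L0 (L - 1 - j) * (Z (L - 1 - j) * Z j)
      ≤ psiC L0 L * ∑ j ∈ range r, Z (L - 1 - j) * Z j
        + ((L0 : ℝ) + 3 / 2) / (2 * ((L : ℝ) + 3 / 2) ^ 3) *
          (∑ j ∈ range r, (Av (L - 1 - j) + Av j) * (Z (L - 1 - j) * Z j)
            - ∑ j ∈ range r, Av j * (Z (L - 1 - j) * Z j)
            - Av L * ∑ j ∈ range r, Z (L - 1 - j) * Z j) := by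
  rw [mul_sum, mul_sum, ← sum_sub_distrib, ← sum_sub_distrib, mul_sum, ← sum_add_distrib]
  refine sum_le_sum fun j _ => ?_
  have h := cutnum_tangent L0 L (L - 1 - j)
  have hz : 0 ≤ Z (L - 1 - j) * Z j := (mul_pos (Z_pos _) (Z_pos _)).le
  have := mul_le_mul_of_nonneg_right h hz
  linarith

theorem cut_num : ∃ C : ℝ, 0 < C ∧ ∀ L L0 π0 : ℕ, 1 ≤ L → 4 * π0 ≤ L →
    psiC L0 (L + 1) * Z (L + 1) / 12
      + ∑ j ∈ range (L / 2), psiC L0 (L - 1 - j) * (Z (L - 1 - j) * Z j)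
      + ∑ j ∈ range ((L + 1) / 2), psiC L0 (L - 1 - j) * (Z (L - 1 - j) * Z j)
      + ((L0 : ℝ) + 1) / (C * (π0 + 1)) *
          ∑ j ∈ (range ((L + 1) / 2)).filter (fun j => L < π0 + 2 * j + 1), Z (L - 1 - j) * Z j
      ≤ psiC L0 L * Z L := by
  obtain ⟨c, hc, hw⟩ := w_doubling 3
  refine ⟨384 / c ^ 2, by positivity, fun L L0 π0 hL hπ => ?_⟩
  have ht := tutte_at L L (by omega)
  have hA := Av_at L L (by omega)
  rw [show 2 * L - L = L by omega] at ht hA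
  have p1 := cutnum_part L0 L (L / 2)
  have p2 := cutnum_part L0 L ((L + 1) / 2)
  have p0 := mul_le_mul_of_nonneg_right (cutnum_tangent L0 L (L + 1))
    (show 0 ≤ Z (L + 1) / 12 from (div_pos (Z_pos _) (by norm_num)).le)
  set r := (L + 1) / 2 with hr
  set κ : ℝ := ((L0 : ℝ) + 3 / 2) / (2 * ((L : ℝ) + 3 / 2) ^ 3) with hκ
  have hκ0 : 0 < κ := by positivity
  set S1 := ∑ j ∈ range (L / 2), Av j * (Z (L - 1 - j) * Z j) with hS1
  set S2 := ∑ j ∈ range r, Av j * (Z (L - 1 - j) * Z j) with hS2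
  set H := ∑ j ∈ (range r).filter (fun j => L < π0 + 2 * j + 1), Z (L - 1 - j) * Z j with hH
  have hS1' : 0 ≤ S1 := sum_nonneg fun j _ =>
    mul_nonneg (cutnum_Av_nonneg j) (mul_pos (Z_pos _) (Z_pos _)).le
  set Q : ℝ := w L ^ 2 * 8 ^ (L - 1) with hQ
  have hQ0 : 0 < Q := by have := w_pos L; positivity
  have hS2' : (r : ℝ) * (r + 1) * (r + 2) / 3 * Q ≤ S2 := by
    rw [← cutnum_sum_Av, sum_mul]
    refine sum_le_sum fun j hj => ?_
    have hj' : j < r := mem_range.1 hj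
    refine mul_le_mul_of_nonneg_left ?_ (cutnum_Av_nonneg j)
    rw [cutnum_ZZ L j (by omega), hQ, sq]
    refine mul_le_mul_of_nonneg_right ?_ (by positivity)
    exact mul_le_mul (w_anti (by omega)) (w_anti (by omega)) (w_pos _).le (w_pos _).le
  have hH' : H ≤ ((π0 : ℝ) + 1) * (Q / c ^ 2) := by
    have hcard : ((range r).filter (fun j => L < π0 + 2 * j + 1)).card ≤ π0 + 1 := by
      calc _ ≤ (Ico (r - (π0 + 1)) r).card := by
            refine card_le_card fun j hj => ?_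
            rw [mem_filter, mem_range] at hj
            rw [mem_Ico]; omega
        _ ≤ π0 + 1 := by rw [Nat.card_Ico]; omega
    have hb : ∀ j ∈ (range r).filter (fun j => L < π0 + 2 * j + 1),
        Z (L - 1 - j) * Z j ≤ Q / c ^ 2 := by
      intro j hj
      rw [mem_filter, mem_range] at hj
      rw [cutnum_ZZ L j (by omega), le_div_iff₀ (by positivity), hQ]
      have h1 := hw j L (by omega)
      have h2 := hw (L - 1 - j) L (by omega)
      have h3 := mul_le_mul h2 h1 (mul_pos hc (w_pos _)).le (w_pos _).le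
      have h8 : (0 : ℝ) < 8 ^ (L - 1) := by positivity
      nlinarith [mul_le_mul_of_nonneg_right h3 h8.le]
    refine (sum_le_card_nsmul _ _ _ hb).trans ?_
    rw [nsmul_eq_mul]
    refine mul_le_mul_of_nonneg_right ?_ (by positivity)
    exact_mod_cast hcard
  have hfin : ((L0 : ℝ) + 1) / (384 / c ^ 2 * (π0 + 1)) * H ≤ κ * S2 := by
    have hr1 : (1 : ℝ) ≤ r := by exact_mod_cast (show 1 ≤ r by omega)
    have hr2 : (L : ℝ) ≤ 2 * r := by exact_mod_cast (show L ≤ 2 * r by omega)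
    have ha : ((L : ℝ) + 3 / 2) ^ 3 ≤ (4 * r) ^ 3 :=
      pow_le_pow_left₀ (by positivity) (by linarith) 3
    have hT : (4 * (r : ℝ)) ^ 3 ≤ 192 * ((r : ℝ) * (r + 1) * (r + 2) / 3) := by nlinarith
    calc ((L0 : ℝ) + 1) / (384 / c ^ 2 * (π0 + 1)) * H
        ≤ ((L0 : ℝ) + 1) / (384 / c ^ 2 * (π0 + 1)) * (((π0 : ℝ) + 1) * (Q / c ^ 2)) :=
          mul_le_mul_of_nonneg_left hH' (by positivity)
      _ = ((L0 : ℝ) + 1) / 384 * Q := by field_simp
      _ ≤ κ * ((r : ℝ) * (r + 1) * (r + 2) / 3) * Q := by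
          refine mul_le_mul_of_nonneg_right ?_ hQ0.le
          rw [hκ, div_mul_eq_mul_div, div_le_div_iff₀ (by norm_num) (by positivity)]
          have h0 : (0 : ℝ) ≤ L0 := Nat.cast_nonneg _
          have h1 : 2 * ((L : ℝ) + 3 / 2) ^ 3 ≤ ((r : ℝ) * (r + 1) * (r + 2) / 3) * 384 := by
            linarith
          calc ((L0 : ℝ) + 1) * (2 * ((L : ℝ) + 3 / 2) ^ 3)
              ≤ ((L0 : ℝ) + 3 / 2) * (((r : ℝ) * (r + 1) * (r + 2) / 3) * 384) :=
                mul_le_mul (by linarith) h1 (by positivity) (by positivity)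
            _ = _ := by ring
      _ ≤ κ * S2 := by
          rw [mul_assoc]; exact mul_le_mul_of_nonneg_left hS2' hκ0.le
  set A1 := ∑ j ∈ range (L / 2), (Av (L - 1 - j) + Av j) * (Z (L - 1 - j) * Z j)
  set A2 := ∑ j ∈ range r, (Av (L - 1 - j) + Av j) * (Z (L - 1 - j) * Z j)
  set B1 := ∑ j ∈ range (L / 2), Z (L - 1 - j) * Z j
  set B2 := ∑ j ∈ range r, Z (L - 1 - j) * Z j
  have e1 : psiC L0 L * Z L = psiC L0 L * (Z (L + 1) / 12) + psiC L0 L * B1 + psiC L0 L * B2 := by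
    rw [ht]; ring
  have e2 : κ * (Av (L + 1) - Av L) * (Z (L + 1) / 12) + κ * (A1 - S1 - Av L * B1)
      + κ * (A2 - S2 - Av L * B2) = -(κ * S1) - κ * S2 := by
    have e3 : Av L * Z L = Av L * (Z (L + 1) / 12 + B1 + B2) := by rw [← ht]
    linear_combination κ * e3 - κ * hA
  have := mul_nonneg hκ0.le hS1'
  have p0' : psiC L0 (L + 1) * Z (L + 1) / 12 ≤ psiC L0 L * (Z (L + 1) / 12)
      + κ * (Av (L + 1) - Av L) * (Z (L + 1) / 12) := by linarith
  linarith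

end Pool.Agent.P.MP_7a6434d8_pr
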