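import Pool.Agent.P.MP_7a6434d8_pr.BasicA

namespace Pool.Agent.P.MP_7a6434d8_pr

open Mp Finset
open scoped ENNReal

theorem al_al (t : Mp) (d : Dt t) : al t (al t d) = d := by
  induction t with
  | pt => rfl
  | face t ih =>
    rcases d with d | c
    · exact congrArg Sum.inl (ih d)
    · exact congrArg Sum.inr (Bool.not_not c)
  | bridge a b iha ihb =>
    rcases d with (d | d) | c
    · exact congrArg (fun x => Sum.inl (Sum.inl x)) (iha d)
    · exact congrArg (fun x => Sum.inl (Sum.inr x)) (ihb d)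
    · exact congrArg Sum.inr (Bool.not_not c)

theorem al_ne (t : Mp) (d : Dt t) : al t d ≠ d := by
  induction t with
  | pt => exact d.elim
  | face t ih =>
    rcases d with d | c
    · exact fun h => ih d (Sum.inl.inj h)
    · exact fun h => Bool.not_ne_self c (Sum.inr.inj h)
  | bridge a b iha ihb =>
    rcases d with (d | d) | c
    · exact fun h => iha d (Sum.inl.inj (Sum.inl.inj h))
    · exact fun h => ihb d (Sum.inr.inj (Sum.inl.inj h))
    · exact fun h => Bool.not_ne_self c (Sum.inr.inj h)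

theorem bd_eq_none (t : Mp) (ht : ok t) (k : ℕ) : bd t k = none ↔ 2 * per t ≤ k := by
  induction t generalizing k with
  | pt => simp [bd, per]
  | face t ih =>
    obtain ⟨h1, h2⟩ := ht
    simp only [bd, per]
    split_ifs with h
    · simp only [false_iff]
      omega
    · refine Option.map_eq_none_iff.trans ((ih h1 _).trans ?_)
      omega
  | bridge a b iha ihb =>
    obtain ⟨h1, h2⟩ := ht
    simp only [bd, per]
    split_ifs with h h' h''
    · simp only [false_iff]
      omega
    · refine Option.map_eq_none_iff.trans ((ihb h2 _).trans ?_)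
      omega
    · simp only [false_iff]
      omega
    · refine Option.map_eq_none_iff.trans ((iha h1 _).trans ?_)
      omega

theorem darta_lt {t : Mp} (ht : ok t) {k : ℕ} {d : Dt t} (h : bd t k = some d) : k < 2 * per t :=
  not_le.1 fun h' => by simp [(bd_eq_none t ht k).2 h'] at h

theorem darta_ex {t : Mp} (ht : ok t) {k : ℕ} (h : k < 2 * per t) : ∃ d, bd t k = some d :=
  Option.ne_none_iff_exists'.1 fun h' => absurd ((bd_eq_none t ht k).1 h') (not_le.2 h)

theorem darta_face {t : Mp} {k : ℕ} {d : Dt t ⊕ Bool} (h : bd (face t) k = some d) :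
    (k = 0 ∧ d = Sum.inr true) ∨ (k ≠ 0 ∧ ∃ e, bd t (k + 2) = some e ∧ d = Sum.inl e) := by
  simp only [bd] at h
  split_ifs at h with h0
  · exact .inl ⟨h0, (Option.some.inj h).symm⟩
  · obtain ⟨e, h1, h2⟩ := Option.map_eq_some_iff.1 h
    exact .inr ⟨h0, e, h1, h2.symm⟩

theorem darta_bridge {a b : Mp} {k : ℕ} {d : (Dt a ⊕ Dt b) ⊕ Bool} (h : bd (bridge a b) k = some d) :
    (k = 0 ∧ d = Sum.inr true) ∨
    (k ≠ 0 ∧ k ≤ 2 * per b ∧ ∃ e, bd b (k - 1) = some e ∧ d = Sum.inl (Sum.inr e)) ∨
    (k = 2 * per b + 1 ∧ d = Sum.inr false) ∨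
    (2 * per b + 2 ≤ k ∧ ∃ e, bd a (k - 2 * per b - 2) = some e ∧ d = Sum.inl (Sum.inl e)) := by
  simp only [bd] at h
  split_ifs at h with h0 h1 h2
  · exact .inl ⟨h0, (Option.some.inj h).symm⟩
  · obtain ⟨e, h3, h4⟩ := Option.map_eq_some_iff.1 h
    exact .inr (.inl ⟨h0, h1, e, h3, h4.symm⟩)
  · exact .inr (.inr (.inl ⟨h2, (Option.some.inj h).symm⟩))
  · obtain ⟨e, h3, h4⟩ := Option.map_eq_some_iff.1 h
    exact .inr (.inr (.inr ⟨by omega, e, h3, h4.symm⟩))

theorem bd_inj (t : Mp) (ht : ok t) (k k' : ℕ) (d : Dt t) (h : bd t k = some d)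
    (h' : bd t k' = some d) : k = k' := by
  induction t generalizing k k' with
  | pt => exact d.elim
  | face t ih =>
    rcases darta_face h with ⟨a1, rfl⟩ | ⟨a1, e, a2, rfl⟩ <;>
      rcases darta_face h' with ⟨b1, b2⟩ | ⟨b1, e', b2, b3⟩
    · omega
    · cases b3
    · cases b2
    · cases b3
      have := ih ht.1 _ _ _ a2 b2
      omega
  | bridge a b iha ihb =>
    rcases darta_bridge h with ⟨a1, rfl⟩ | ⟨a1, a2, e, a3, rfl⟩ | ⟨a1, rfl⟩ | ⟨a1, e, a2, rfl⟩ <;>
      rcases darta_bridge h' with ⟨b1, b2⟩ | ⟨b1, b3, e', b4, b2⟩ | ⟨b1, b2⟩ | ⟨b1, e', b3, b2⟩ <;>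
      cases b2
    · omega
    · have := ihb ht.2 _ _ _ a3 b4
      omega
    · omega
    · have := iha ht.1 _ _ _ a2 b3
      omega

theorem darta_f0 (t : Mp) : bd (face t) 0 = some (Sum.inr true) := rfl

theorem darta_f1 {t : Mp} {k : ℕ} {e : Dt t} (hk : k ≠ 0) (h : bd t (k + 2) = some e) :
    bd (face t) k = some (Sum.inl e) := (if_neg hk).trans (congrArg (Option.map Sum.inl) h)

theorem darta_b0 (a b : Mp) : bd (bridge a b) 0 = some (Sum.inr true) := rfl

theorem darta_b1 {a b : Mp} {k : ℕ} {e : Dt b} (h : bd b k = some e) (hk : k < 2 * per b) :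
    bd (bridge a b) (k + 1) = some (Sum.inl (Sum.inr e)) :=
  (if_neg k.succ_ne_zero).trans ((if_pos hk).trans
    (congrArg (Option.map fun d => Sum.inl (Sum.inr d)) h))

theorem darta_b2 (a b : Mp) : bd (bridge a b) (2 * per b + 1) = some (Sum.inr false) :=
  (if_neg (Nat.succ_ne_zero _)).trans ((if_neg (Nat.not_succ_le_self _)).trans (if_pos rfl))

theorem darta_b3 {a b : Mp} {k : ℕ} {e : Dt a} (h : bd a (k - 2 * per b - 2) = some e)
    (hk : 2 * per b + 2 ≤ k) : bd (bridge a b) k = some (Sum.inl (Sum.inl e)) :=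
  (if_neg (by omega)).trans ((if_neg (by omega)).trans ((if_neg (by omega)).trans
    (congrArg (Option.map fun d => Sum.inl (Sum.inl d)) h)))

theorem darta_pf1 {t : Mp} {e : Dt t} (h : bd t 3 = some e) :
    ph (face t) (Sum.inr true) = Sum.inl e :=
  congrArg (fun o : Option (Dt t) => o.elim (Sum.inr true : Dt t ⊕ Bool) Sum.inl) h

theorem darta_pf2 {t : Mp} {e : Dt t} (h : bd t 0 = some e) :
    ph (face t) (Sum.inr false) = Sum.inl e :=
  congrArg (fun o : Option (Dt t) => o.elim (Sum.inr false : Dt t ⊕ Bool) Sum.inl) h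

theorem darta_pf3 {t : Mp} {d : Dt t} (h : bd t 3 = some (ph t d)) :
    ph (face t) (Sum.inl d) = Sum.inr false := if_pos h

theorem darta_pf4 {t : Mp} {d : Dt t} (h : bd t 3 ≠ some (ph t d)) (h' : bd t 0 = some (ph t d)) :
    ph (face t) (Sum.inl d) = Sum.inr true := (if_neg h).trans (if_pos h')

theorem darta_pf5 {t : Mp} {d : Dt t} (h : bd t 3 ≠ some (ph t d)) (h' : bd t 0 ≠ some (ph t d)) :
    ph (face t) (Sum.inl d) = Sum.inl (ph t d) := (if_neg h).trans (if_neg h')

theorem darta_pb1 {a b : Mp} (h : bd b 0 = none) : ph (bridge a b) (Sum.inr true) = Sum.inr false :=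
  congrArg (fun o : Option (Dt b) => o.elim (Sum.inr false : (Dt a ⊕ Dt b) ⊕ Bool)
    fun d => Sum.inl (Sum.inr d)) h

theorem darta_pb2 {a b : Mp} {e : Dt b} (h : bd b 0 = some e) :
    ph (bridge a b) (Sum.inr true) = Sum.inl (Sum.inr e) :=
  congrArg (fun o : Option (Dt b) => o.elim (Sum.inr false : (Dt a ⊕ Dt b) ⊕ Bool)
    fun d => Sum.inl (Sum.inr d)) h

theorem darta_pb3 {a b : Mp} (h : bd a 0 = none) : ph (bridge a b) (Sum.inr false) = Sum.inr true :=
  congrArg (fun o : Option (Dt a) => o.elim (Sum.inr true : (Dt a ⊕ Dt b) ⊕ Bool)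
    fun d => Sum.inl (Sum.inl d)) h

theorem darta_pb4 {a b : Mp} {e : Dt a} (h : bd a 0 = some e) :
    ph (bridge a b) (Sum.inr false) = Sum.inl (Sum.inl e) :=
  congrArg (fun o : Option (Dt a) => o.elim (Sum.inr true : (Dt a ⊕ Dt b) ⊕ Bool)
    fun d => Sum.inl (Sum.inl d)) h

theorem darta_pb5 {a b : Mp} {d : Dt a} (h : bd a 0 = some (ph a d)) :
    ph (bridge a b) (Sum.inl (Sum.inl d)) = Sum.inr true := if_pos h

theorem darta_pb6 {a b : Mp} {d : Dt a} (h : bd a 0 ≠ some (ph a d)) :
    ph (bridge a b) (Sum.inl (Sum.inl d)) = Sum.inl (Sum.inl (ph a d)) := if_neg h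

theorem darta_pb7 {a b : Mp} {d : Dt b} (h : bd b 0 = some (ph b d)) :
    ph (bridge a b) (Sum.inl (Sum.inr d)) = Sum.inr false := if_pos h

theorem darta_pb8 {a b : Mp} {d : Dt b} (h : bd b 0 ≠ some (ph b d)) :
    ph (bridge a b) (Sum.inl (Sum.inr d)) = Sum.inl (Sum.inr (ph b d)) := if_neg h

theorem bd_ph (t : Mp) (ht : ok t) (k : ℕ) (d : Dt t) (h : bd t k = some d) :
    bd t ((k + 1) % (2 * per t)) = some (ph t d) := by
  induction t generalizing k with
  | pt => exact d.elim
  | face t ih =>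
    obtain ⟨h1, h2⟩ := ht
    rcases darta_face h with ⟨rfl, rfl⟩ | ⟨a1, e, a2, rfl⟩
    · obtain ⟨e, he⟩ := darta_ex h1 (k := 3) (by omega)
      rw [Nat.mod_eq_of_lt (by simp only [per]; omega), darta_pf1 he]
      exact darta_f1 one_ne_zero he
    · have a3 := darta_lt h1 a2
      have a4 := ih h1 _ _ a2
      rcases (show k + 2 + 1 ≤ 2 * per t from a3).eq_or_lt with a5 | a5
      · rw [a5, Nat.mod_self] at a4
        rw [show k + 1 = 2 * per (face t) by simp only [per]; omega, Nat.mod_self,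
          darta_pf4 (fun h => by have := bd_inj t h1 _ _ _ h a4; omega) a4]
        rfl
      · rw [Nat.mod_eq_of_lt a5] at a4
        rw [Nat.mod_eq_of_lt (by simp only [per]; omega),
          darta_pf5 (fun h => by have := bd_inj t h1 _ _ _ h a4; omega)
            fun h => by have := bd_inj t h1 _ _ _ h a4; omega]
        exact darta_f1 (by omega) a4
  | bridge a b iha ihb =>
    obtain ⟨h1, h2⟩ := ht
    rcases darta_bridge h with ⟨rfl, rfl⟩ | ⟨a1, a2, e, a3, rfl⟩ | ⟨rfl, rfl⟩ | ⟨a1, e, a2, rfl⟩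
    · rw [Nat.mod_eq_of_lt (by simp only [per]; omega)]
      by_cases hb : per b = 0
      · rw [darta_pb1 ((bd_eq_none b h2 0).2 (by omega))]
        have := darta_b2 a b
        rwa [hb] at this
      · obtain ⟨e, he⟩ := darta_ex h2 (k := 0) (by omega)
        rw [darta_pb2 he]
        exact darta_b1 he (by omega)
    · have a4 := ihb h2 _ _ a3
      rw [Nat.sub_add_cancel (by omega)] at a4
      rw [Nat.mod_eq_of_lt (by simp only [per]; omega)]
      rcases a2.eq_or_lt with a5 | a5
      · rw [a5, Nat.mod_self] at a4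
        rw [darta_pb7 a4, a5]
        exact darta_b2 a b
      · rw [Nat.mod_eq_of_lt a5] at a4
        rw [darta_pb8 fun h => a1 (bd_inj b h2 _ _ _ a4 h)]
        exact darta_b1 a4 a5
    · by_cases ha : per a = 0
      · rw [show 2 * per b + 1 + 1 = 2 * per (bridge a b) by simp only [per]; omega, Nat.mod_self,
          darta_pb3 ((bd_eq_none a h1 0).2 (by omega))]
        rfl
      · obtain ⟨e, he⟩ := darta_ex h1 (k := 0) (by omega)
        rw [Nat.mod_eq_of_lt (by simp only [per]; omega), darta_pb4 he]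
        exact darta_b3 (by rwa [show 2 * per b + 1 + 1 - 2 * per b - 2 = 0 by omega]) le_rfl
    · have a3 := darta_lt h1 a2
      have a4 := iha h1 _ _ a2
      rcases (show k - 2 * per b - 2 + 1 ≤ 2 * per a from a3).eq_or_lt with a5 | a5
      · rw [a5, Nat.mod_self] at a4
        rw [show k + 1 = 2 * per (bridge a b) by simp only [per]; omega, Nat.mod_self, darta_pb5 a4]
        rfl
      · rw [Nat.mod_eq_of_lt a5] at a4
        rw [Nat.mod_eq_of_lt (by simp only [per]; omega),
          darta_pb6 fun h => by have := bd_inj a h1 _ _ _ h a4; omega]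
        exact darta_b3 (by rwa [show k + 1 - 2 * per b - 2 = k - 2 * per b - 2 + 1 by omega])
          (by omega)

theorem bd_iter (t : Mp) (ht : ok t) (k m : ℕ) (d : Dt t) (h : bd t k = some d) :
    bd t ((k + m) % (2 * per t)) = some ((ph t)^[m] d) := by
  induction m with
  | zero => rwa [add_zero, Nat.mod_eq_of_lt (darta_lt ht h)]
  | succ m ih =>
    rw [Function.iterate_succ_apply', ← bd_ph t ht _ _ ih, Nat.mod_add_mod, add_assoc]

theorem darta_pfc {t : Mp} (d : Dt t) :
    (bd t 3 = some (ph t d) ∧ ph (face t) (Sum.inl d) = Sum.inr false) ∨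
    (bd t 0 = some (ph t d) ∧ ph (face t) (Sum.inl d) = Sum.inr true) ∨
    (bd t 3 ≠ some (ph t d) ∧ bd t 0 ≠ some (ph t d) ∧
      ph (face t) (Sum.inl d) = Sum.inl (ph t d)) := by
  by_cases h : bd t 3 = some (ph t d)
  · exact .inl ⟨h, darta_pf3 h⟩
  by_cases h' : bd t 0 = some (ph t d)
  · exact .inr (.inl ⟨h', darta_pf4 h h'⟩)
  · exact .inr (.inr ⟨h, h', darta_pf5 h h'⟩)

theorem ph_inj (t : Mp) (ht : ok t) : Function.Injective (ph t) := by
  induction t with
  | pt => exact fun d => d.elim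
  | face t ih =>
    obtain ⟨h1, h2⟩ := ht
    obtain ⟨e0, he0⟩ := darta_ex h1 (k := 0) (by omega)
    obtain ⟨e3, he3⟩ := darta_ex h1 (k := 3) (by omega)
    have hne : e0 ≠ e3 := fun h => by
      have := bd_inj t h1 _ _ _ he0 (h ▸ he3)
      omega
    have i := ih h1
    let g : Dt t ⊕ Bool → Dt t ⊕ Bool := ph (face t)
    have g1 : g (Sum.inr true) = Sum.inl e3 := darta_pf1 he3
    have g2 : g (Sum.inr false) = Sum.inl e0 := darta_pf2 he0
    have g3 : ∀ d, (e3 = ph t d ∧ g (Sum.inl d) = Sum.inr false) ∨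
        (e0 = ph t d ∧ g (Sum.inl d) = Sum.inr true) ∨
        (e3 ≠ ph t d ∧ e0 ≠ ph t d ∧ g (Sum.inl d) = Sum.inl (ph t d)) := fun d => by
      have := darta_pfc d
      rw [he0, he3] at this
      simp only [Option.some.injEq, ne_eq] at this
      exact this
    change Function.Injective g
    clear_value g
    rintro (d | _ | _) (d' | _ | _) h
    · have := g3 d
      have := g3 d'
      exact congrArg Sum.inl (i (by grind))
    all_goals first
      | rfl
      | (have := g3 d; grind)
      | (have := g3 d'; grind)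
      | grind
  | bridge a b iha ihb =>
    obtain ⟨h1, h2⟩ := ht
    have i := iha h1
    have i' := ihb h2
    let g : (Dt a ⊕ Dt b) ⊕ Bool → (Dt a ⊕ Dt b) ⊕ Bool := ph (bridge a b)
    have g1 : (bd b 0 = none ∧ g (Sum.inr true) = Sum.inr false) ∨
        ∃ e, bd b 0 = some e ∧ g (Sum.inr true) = Sum.inl (Sum.inr e) := by
      rcases hb : bd b 0 with _ | e
      exacts [.inl ⟨rfl, darta_pb1 hb⟩, .inr ⟨e, rfl, darta_pb2 hb⟩]
    have g2 : (bd a 0 = none ∧ g (Sum.inr false) = Sum.inr true) ∨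
        ∃ e, bd a 0 = some e ∧ g (Sum.inr false) = Sum.inl (Sum.inl e) := by
      rcases hb : bd a 0 with _ | e
      exacts [.inl ⟨rfl, darta_pb3 hb⟩, .inr ⟨e, rfl, darta_pb4 hb⟩]
    have g3 : ∀ d, (bd a 0 = some (ph a d) ∧ g (Sum.inl (Sum.inl d)) = Sum.inr true) ∨
        (bd a 0 ≠ some (ph a d) ∧ g (Sum.inl (Sum.inl d)) = Sum.inl (Sum.inl (ph a d))) :=
      fun d => (em _).imp (fun h => ⟨h, darta_pb5 h⟩) fun h => ⟨h, darta_pb6 h⟩
    have g4 : ∀ d, (bd b 0 = some (ph b d) ∧ g (Sum.inl (Sum.inr d)) = Sum.inr false) ∨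
        (bd b 0 ≠ some (ph b d) ∧ g (Sum.inl (Sum.inr d)) = Sum.inl (Sum.inr (ph b d))) :=
      fun d => (em _).imp (fun h => ⟨h, darta_pb7 h⟩) fun h => ⟨h, darta_pb8 h⟩
    change Function.Injective g
    clear_value g
    rintro ((d | d) | _ | _) ((d' | d') | _ | _) h
    · have := g3 d
      have := g3 d'
      exact congrArg (fun x => Sum.inl (Sum.inl x)) (i (by grind))
    · have := g3 d
      have := g4 d'
      grind
    · have := g3 d
      grind
    · have := g3 d
      grind
    · have := g4 d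
      have := g3 d'
      grind
    · have := g4 d
      have := g4 d'
      exact congrArg (fun x => Sum.inl (Sum.inr x)) (i' (by grind))
    · have := g4 d
      grind
    · have := g4 d
      grind
    all_goals first
      | rfl
      | (have := g3 d'; grind)
      | (have := g4 d'; grind)
      | grind

theorem org_bd (t : Mp) (ht : ok t) (k : ℕ) (d : Dt t) (h : bd t k = some d) :
    org t d = bv t k := by
  induction t generalizing k with
  | pt => rfl
  | face t ih =>
    rcases darta_face h with ⟨rfl, rfl⟩ | ⟨a1, e, a2, rfl⟩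
    · rfl
    · exact (ih ht.1 _ _ a2).trans (if_neg a1).symm
  | bridge a b iha ihb =>
    rcases darta_bridge h with ⟨rfl, rfl⟩ | ⟨a1, a2, e, a3, rfl⟩ | ⟨rfl, rfl⟩ | ⟨a1, e, a2, rfl⟩
    · rfl
    · exact (congrArg Sum.inr (ihb ht.2 _ _ a3)).trans
        ((if_neg a1).trans (if_pos (by omega))).symm
    · exact (congrArg Sum.inr (bv_end b ht.2).symm).trans
        ((if_neg (Nat.succ_ne_zero _)).trans (if_pos le_rfl)).symm
    · exact (congrArg Sum.inl (iha ht.1 _ _ a2)).trans
        ((if_neg (by omega)).trans (if_neg (by omega))).symm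

theorem org_ph (t : Mp) (ht : ok t) (d : Dt t) : org t (ph t d) = org t (al t d) := by
  induction t with
  | pt => rfl
  | face t ih =>
    obtain ⟨h1, h2⟩ := ht
    obtain ⟨e0, he0⟩ := darta_ex h1 (k := 0) (by omega)
    obtain ⟨e3, he3⟩ := darta_ex h1 (k := 3) (by omega)
    rcases d with d | _ | _
    · rcases darta_pfc d with ⟨a1, a2⟩ | ⟨a1, a2⟩ | ⟨-, -, a2⟩ <;> rw [a2]
      · exact (org_bd t h1 _ _ a1).symm.trans (ih h1 d)
      · exact (org_bd t h1 _ _ a1).symm.trans (ih h1 d)
      · exact ih h1 d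
    · rw [darta_pf2 he0]
      exact org_bd t h1 _ _ he0
    · rw [darta_pf1 he3]
      exact org_bd t h1 _ _ he3
  | bridge a b iha ihb =>
    obtain ⟨h1, h2⟩ := ht
    rcases d with (d | d) | _ | _
    · by_cases a1 : bd a 0 = some (ph a d)
      · rw [darta_pb5 a1]
        exact congrArg Sum.inl ((org_bd a h1 _ _ a1).symm.trans (iha h1 d))
      · rw [darta_pb6 a1]
        exact congrArg Sum.inl (iha h1 d)
    · by_cases a1 : bd b 0 = some (ph b d)
      · rw [darta_pb7 a1]
        exact congrArg Sum.inr ((org_bd b h2 _ _ a1).symm.trans (ihb h2 d))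
      · rw [darta_pb8 a1]
        exact congrArg Sum.inr (ihb h2 d)
    · rcases ha : bd a 0 with _ | e
      · rw [darta_pb3 ha]
        rfl
      · rw [darta_pb4 ha]
        exact congrArg Sum.inl (org_bd a h1 _ _ ha)
    · rcases hb : bd b 0 with _ | e
      · rw [darta_pb1 hb]
        rfl
      · rw [darta_pb2 hb]
        exact congrArg Sum.inr (org_bd b h2 _ _ hb)

theorem card_Dt (t : Mp) : Fintype.card (Dt t) = 2 * edges t := by
  induction t with
  | pt => rfl
  | face t ih =>
    refine (Fintype.card_sum (α := Dt t) (β := Bool)).trans ?_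
    simp only [ih, edges, Fintype.card_bool]
    ring
  | bridge a b iha ihb =>
    refine (Fintype.card_sum (α := Dt a ⊕ Dt b) (β := Bool)).trans ?_
    simp only [Fintype.card_sum, iha, ihb, edges, Fintype.card_bool]
    ring

theorem edges_eq (t : Mp) (ht : ok t) : edges t = 2 * size t + per t := by
  induction t with
  | pt => rfl
  | face t ih =>
    have := ih ht.1
    have := ht.2
    simp only [edges, size, per]
    omega
  | bridge a b iha ihb =>
    have := iha ht.1
    have := ihb ht.2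
    simp only [edges, size, per]
    omega

theorem card_V (t : Mp) (ht : ok t) : Fintype.card (V t) = size t + per t + 1 := by
  induction t with
  | pt => rfl
  | face t ih =>
    refine (ih ht.1).trans ?_
    have := ht.2
    simp only [size, per]
    omega
  | bridge a b iha ihb =>
    refine (Fintype.card_sum (α := V a) (β := V b)).trans ?_
    simp only [iha ht.1, ihb ht.2, size, per]
    omega

end Pool.Agent.P.MP_7a6434d8_pr
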