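import Pool.Agent.P.MP_7a6434d8_pr.DartA

namespace Pool.Agent.P.MP_7a6434d8_pr

open Mp Finset
open scoped ENNReal

theorem dartb_face_true {t : Mp} {e : Dt t} (h : bd t 3 = some e) :
    ph (face t) (Sum.inr true) = Sum.inl e := by
  simp only [ph]
  rw [h]
  rfl

theorem dartb_face_false {t : Mp} {e : Dt t} (h : bd t 0 = some e) :
    ph (face t) (Sum.inr false) = Sum.inl e := by
  simp only [ph]
  rw [h]
  rfl

theorem dartb_face_inl3 {t : Mp} {d : Dt t} (h : bd t 3 = some (ph t d)) :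
    ph (face t) (Sum.inl d) = Sum.inr false := by
  simp only [ph]
  rw [if_pos h]

theorem dartb_face_inl0 {t : Mp} {d : Dt t} (h3 : bd t 3 ≠ some (ph t d))
    (h : bd t 0 = some (ph t d)) : ph (face t) (Sum.inl d) = Sum.inr true := by
  simp only [ph]
  rw [if_neg h3, if_pos h]

theorem dartb_face_inl {t : Mp} {d : Dt t} (h3 : bd t 3 ≠ some (ph t d))
    (h : bd t 0 ≠ some (ph t d)) : ph (face t) (Sum.inl d) = Sum.inl (ph t d) := by
  simp only [ph]
  rw [if_neg h3, if_neg h]

theorem dartb_br_true {a b : Mp} {e : Dt b} (h : bd b 0 = some e) :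
    ph (bridge a b) (Sum.inr true) = Sum.inl (Sum.inr e) := by
  simp only [ph]
  rw [h]
  rfl

theorem dartb_br_false {a b : Mp} {e : Dt a} (h : bd a 0 = some e) :
    ph (bridge a b) (Sum.inr false) = Sum.inl (Sum.inl e) := by
  simp only [ph]
  rw [h]
  rfl

theorem dartb_br_a0 {a b : Mp} {d : Dt a} (h : bd a 0 = some (ph a d)) :
    ph (bridge a b) (Sum.inl (Sum.inl d)) = Sum.inr true := by
  simp only [ph]
  rw [if_pos h]

theorem dartb_br_a {a b : Mp} {d : Dt a} (h : bd a 0 ≠ some (ph a d)) :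
    ph (bridge a b) (Sum.inl (Sum.inl d)) = Sum.inl (Sum.inl (ph a d)) := by
  simp only [ph]
  rw [if_neg h]

theorem dartb_br_b0 {a b : Mp} {d : Dt b} (h : bd b 0 = some (ph b d)) :
    ph (bridge a b) (Sum.inl (Sum.inr d)) = Sum.inr false := by
  simp only [ph]
  rw [if_pos h]

theorem dartb_br_b {a b : Mp} {d : Dt b} (h : bd b 0 ≠ some (ph b d)) :
    ph (bridge a b) (Sum.inl (Sum.inr d)) = Sum.inl (Sum.inr (ph b d)) := by
  simp only [ph]
  rw [if_neg h]

theorem dartb_exists_bd {t : Mp} (ht : ok t) {k : ℕ} (hk : k < 2 * per t) :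
    ∃ e, bd t k = some e := by
  rcases h : bd t k with _ | e
  · have := (bd_eq_none t ht k).1 h
    omega
  · exact ⟨e, rfl⟩

theorem dartb_lt_of_bd {t : Mp} (ht : ok t) {k : ℕ} {e : Dt t} (h : bd t k = some e) :
    k < 2 * per t := by
  by_contra hc
  rw [(bd_eq_none t ht k).2 (by omega)] at h
  exact absurd h (by simp)

theorem dartb_exists_bd0 {t : Mp} (d : Dt t) : ∃ e, bd t 0 = some e := by
  cases t with
  | pt => exact Empty.elim d
  | face t => exact ⟨Sum.inr true, rfl⟩
  | bridge a b => exact ⟨Sum.inr true, rfl⟩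

theorem dartb_bd_succ {t : Mp} (ht : ok t) {k : ℕ} {e : Dt t} (h : bd t k = some e)
    (hk : k + 1 < 2 * per t) : bd t (k + 1) = some (ph t e) := by
  have := bd_ph t ht k e h
  rwa [Nat.mod_eq_of_lt hk] at this

/-- the successor of an inner dart is inner -/
theorem dartb_inner_ph {t : Mp} (ht : ok t) (d : Dt t) (h : ∀ k, bd t k ≠ some d) (k : ℕ) :
    bd t k ≠ some (ph t d) := by
  intro hk
  have hlt := dartb_lt_of_bd ht hk
  rcases k with _ | k
  · obtain ⟨e, he⟩ := dartb_exists_bd ht (k := 2 * per t - 1) (by omega)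
    have h1 := bd_ph t ht _ e he
    rw [show 2 * per t - 1 + 1 = 2 * per t by omega, Nat.mod_self, hk] at h1
    rw [← ph_inj t ht (Option.some.inj h1)] at he
    exact h _ he
  · obtain ⟨e, he⟩ := dartb_exists_bd ht (k := k) (by omega)
    have h1 := dartb_bd_succ ht he hlt
    rw [hk] at h1
    rw [← ph_inj t ht (Option.some.inj h1)] at he
    exact h _ he

end Pool.Agent.P.MP_7a6434d8_pr
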