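import Pool.Agent.P.MP_7a6434d8_pr.DartA
import Pool.Agent.P.MP_7a6434d8_pr.DartBAux

namespace Pool.Agent.P.MP_7a6434d8_pr

open Mp Finset
open scoped ENNReal

private theorem dartb_lift {D D' : Type} (φ : D → D) (φ' : D' → D') (ι : D → D')
    (hι : Function.Injective ι) (P : D → Prop) (hP : ∀ d, P d → P (φ d))
    (hφ : ∀ d, P d → φ' (ι d) = ι (φ d)) (d : D) (hd : P d)
    (h : φ^[4] d = d ∧ φ^[2] d ≠ d) : φ'^[4] (ι d) = ι d ∧ φ'^[2] (ι d) ≠ ι d := by
  have key : ∀ n : ℕ, P (φ^[n] d) ∧ φ'^[n] (ι d) = ι (φ^[n] d) := by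
    intro n
    induction n with
    | zero => exact ⟨hd, rfl⟩
    | succ n ih =>
      rw [Function.iterate_succ_apply', Function.iterate_succ_apply', ih.2]
      exact ⟨hP _ ih.1, hφ _ ih.1⟩
  rw [(key 4).2, (key 2).2, h.1]
  exact ⟨rfl, fun h2 => h.2 (hι h2)⟩

private theorem dartb_cycle {D : Type} (φ : D → D) {a b c d : D} (hab : φ a = b) (hbc : φ b = c)
    (hcd : φ c = d) (hda : φ d = a) (hac : c ≠ a) : φ^[4] a = a ∧ φ^[2] a ≠ a := by
  constructor
  · show φ (φ (φ (φ a))) = a
    rw [hab, hbc, hcd, hda]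
  · show φ (φ a) ≠ a
    rw [hab, hbc]
    exact hac

theorem quad_inner (t : Mp) (ht : ok t) (d : Dt t) :
    (∃ k, bd t k = some d) ∨ ((ph t)^[4] d = d ∧ (ph t)^[2] d ≠ d) := by
  induction t with
  | pt => exact Empty.elim d
  | face t ih =>
    obtain ⟨ht, hp⟩ : ok t ∧ 2 ≤ per t := ht
    obtain ⟨e0, h0⟩ := dartb_exists_bd ht (k := 0) (by omega)
    have h1 : bd t 1 = some (ph t e0) := dartb_bd_succ ht h0 (by omega)
    have h2 : bd t 2 = some (ph t (ph t e0)) := dartb_bd_succ ht h1 (by omega)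
    have h3 : bd t 3 = some (ph t (ph t (ph t e0))) := dartb_bd_succ ht h2 (by omega)
    have c0 : ph (face t) (Sum.inr false) = Sum.inl e0 := dartb_face_false h0
    have c1 : ph (face t) (Sum.inl e0) = Sum.inl (ph t e0) :=
      dartb_face_inl (fun h => absurd (bd_inj t ht _ _ _ h h1) (by omega))
        (fun h => absurd (bd_inj t ht _ _ _ h h1) (by omega))
    have c2 : ph (face t) (Sum.inl (ph t e0)) = Sum.inl (ph t (ph t e0)) :=
      dartb_face_inl (fun h => absurd (bd_inj t ht _ _ _ h h2) (by omega))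
        (fun h => absurd (bd_inj t ht _ _ _ h h2) (by omega))
    have c3 : ph (face t) (Sum.inl (ph t (ph t e0))) = Sum.inr false := dartb_face_inl3 h3
    have hne : ph t (ph t e0) ≠ e0 := fun h => by
      rw [h] at h2
      exact absurd (bd_inj t ht _ _ _ h0 h2) (by omega)
    rcases d with d | _ | _
    · by_cases hb : ∃ k, bd t k = some d
      · obtain ⟨k, hk⟩ := hb
        rcases k with _ | _ | _ | k
        · obtain rfl : e0 = d := Option.some.inj (h0.symm.trans hk)
          exact Or.inr (dartb_cycle _ c1 c2 c3 c0 fun h => hne (Sum.inl_injective h))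
        · obtain rfl : ph t e0 = d := Option.some.inj (h1.symm.trans hk)
          exact Or.inr (dartb_cycle _ c2 c3 c0 c1 Sum.inr_ne_inl)
        · obtain rfl : ph t (ph t e0) = d := Option.some.inj (h2.symm.trans hk)
          exact Or.inr (dartb_cycle _ c3 c0 c1 c2 fun h => hne (Sum.inl_injective h).symm)
        · refine Or.inl ⟨k + 1, ?_⟩
          simp only [bd]
          rw [if_neg (by omega), hk]
          rfl
      · refine Or.inr (dartb_lift (ph t) (ph (face t)) Sum.inl Sum.inl_injective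
          (fun d => ∀ k, bd t k ≠ some d) (dartb_inner_ph ht)
          (fun d hd => dartb_face_inl (dartb_inner_ph ht d hd 3) (dartb_inner_ph ht d hd 0)) d
          (fun k hk => hb ⟨k, hk⟩) ((ih ht d).resolve_left hb))
    · exact Or.inr (dartb_cycle _ c0 c1 c2 c3 Sum.inl_ne_inr)
    · exact Or.inl ⟨0, rfl⟩
  | bridge a b iha ihb =>
    obtain ⟨ha, hb⟩ : ok a ∧ ok b := ht
    rcases d with (d | d) | _ | _
    · by_cases hd : ∃ k, bd a k = some d
      · obtain ⟨k, hk⟩ := hd
        refine Or.inl ⟨k + 2 * per b + 2, ?_⟩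
        simp only [bd]
        rw [if_neg (by omega), if_neg (by omega), if_neg (by omega),
          show k + 2 * per b + 2 - 2 * per b - 2 = k by omega, hk]
        rfl
      · refine Or.inr (dartb_lift (ph a) (ph (bridge a b)) (fun x => Sum.inl (Sum.inl x))
          (fun x y h => Sum.inl_injective (Sum.inl_injective h))
          (fun d => ∀ k, bd a k ≠ some d) (dartb_inner_ph ha)
          (fun d hd => dartb_br_a (dartb_inner_ph ha d hd 0)) d
          (fun k hk => hd ⟨k, hk⟩) ((iha ha d).resolve_left hd))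
    · by_cases hd : ∃ k, bd b k = some d
      · obtain ⟨k, hk⟩ := hd
        have hlt := dartb_lt_of_bd hb hk
        refine Or.inl ⟨k + 1, ?_⟩
        simp only [bd]
        rw [if_neg (by omega), if_pos (by omega), Nat.add_sub_cancel, hk]
        rfl
      · refine Or.inr (dartb_lift (ph b) (ph (bridge a b)) (fun x => Sum.inl (Sum.inr x))
          (fun x y h => Sum.inr_injective (Sum.inl_injective h))
          (fun d => ∀ k, bd b k ≠ some d) (dartb_inner_ph hb)
          (fun d hd => dartb_br_b (dartb_inner_ph hb d hd 0)) d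
          (fun k hk => hd ⟨k, hk⟩) ((ihb hb d).resolve_left hd))
    · refine Or.inl ⟨2 * per b + 1, ?_⟩
      simp only [bd]
      rw [if_neg (by omega), if_neg (by omega), if_pos trivial]
    · exact Or.inl ⟨0, rfl⟩

theorem org_surj (t : Mp) (ht : ok t) (hp : 1 ≤ per t) : Function.Surjective (org t) := by
  induction t with
  | pt => exact absurd hp (by simp [per])
  | face t ih =>
    obtain ⟨ht, hp2⟩ : ok t ∧ 2 ≤ per t := ht
    intro x
    obtain ⟨d, hd⟩ := ih ht (by omega) x
    exact ⟨Sum.inl d, hd⟩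
  | bridge a b iha ihb =>
    obtain ⟨ha, hb⟩ : ok a ∧ ok b := ht
    rintro (x | x)
    · rcases Nat.eq_zero_or_pos (per a) with h | h
      · obtain rfl := eq_pt_of_per_zero a ha h
        exact ⟨Sum.inr true, rfl⟩
      · obtain ⟨d, hd⟩ := iha ha h x
        exact ⟨Sum.inl (Sum.inl d), congrArg Sum.inl hd⟩
    · rcases Nat.eq_zero_or_pos (per b) with h | h
      · obtain rfl := eq_pt_of_per_zero b hb h
        exact ⟨Sum.inr false, rfl⟩
      · obtain ⟨d, hd⟩ := ihb hb h x
        exact ⟨Sum.inl (Sum.inr d), congrArg Sum.inr hd⟩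

private theorem dartb_sum_face (t : Mp) (g : Dt (face t) → ℝ) :
    ∑ d, g d = ∑ d : Dt t, g (Sum.inl d) + (g (Sum.inr true) + g (Sum.inr false)) := by
  have h := Fintype.sum_sum_type (α₁ := Dt t) (α₂ := Bool) g
  rw [Fintype.sum_bool] at h
  exact h

private theorem dartb_sum_bridge (a b : Mp) (g : Dt (bridge a b) → ℝ) :
    ∑ d, g d = (∑ d : Dt a, g (Sum.inl (Sum.inl d)) + ∑ d : Dt b, g (Sum.inl (Sum.inr d)))
      + (g (Sum.inr true) + g (Sum.inr false)) := by
  have h := Fintype.sum_sum_type (α₁ := Dt a ⊕ Dt b) (α₂ := Bool) g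
  have h2 := Fintype.sum_sum_type (α₁ := Dt a) (α₂ := Dt b) fun x => g (Sum.inl x)
  rw [Fintype.sum_bool, h2] at h
  exact h

theorem two_energy (t : Mp) (f : V t → ℝ) :
    2 * energy t f = ∑ d : Dt t, (f (org t d) - f (org t (al t d))) ^ 2 := by
  induction t with
  | pt =>
    have : IsEmpty (Dt pt) := inferInstanceAs (IsEmpty Empty)
    rw [Finset.sum_of_isEmpty]
    exact mul_zero _
  | face t ih =>
    rw [dartb_sum_face]
    have h := ih f
    show 2 * (energy t f + (f (bv t 0) - f (bv t 3)) ^ 2) =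
      ∑ d : Dt t, (f (org t d) - f (org t (al t d))) ^ 2 +
        ((f (bv t 0) - f (bv t 3)) ^ 2 + (f (bv t 3) - f (bv t 0)) ^ 2)
    rw [← h]
    ring
  | bridge a b iha ihb =>
    rw [dartb_sum_bridge]
    have h1 := iha fun x => f (Sum.inl x)
    have h2 := ihb fun x => f (Sum.inr x)
    show 2 * (energy a (fun x => f (Sum.inl x)) + energy b (fun x => f (Sum.inr x))
        + (f (Sum.inl (bv a 0)) - f (Sum.inr (bv b 0))) ^ 2) =
      (∑ d : Dt a, (f (Sum.inl (org a d)) - f (Sum.inl (org a (al a d)))) ^ 2 +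
        ∑ d : Dt b, (f (Sum.inr (org b d)) - f (Sum.inr (org b (al b d)))) ^ 2) +
        ((f (Sum.inl (bv a 0)) - f (Sum.inr (bv b 0))) ^ 2 +
          (f (Sum.inr (bv b 0)) - f (Sum.inl (bv a 0))) ^ 2)
    rw [← h1, ← h2]
    ring

theorem conn_darts (t : Mp) (ht : ok t) {β : Type} (F : Dt t → β) (h1 : ∀ d, F (al t d) = F d)
    (h2 : ∀ d, F (ph t d) = F d) (d d' : Dt t) : F d = F d' := by
  induction t with
  | pt => exact Empty.elim d
  | face t ih =>
    obtain ⟨ht, hp⟩ : ok t ∧ 2 ≤ per t := ht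
    have hb : F (Sum.inr false) = F (Sum.inr true) := h1 (Sum.inr true)
    have hG : ∀ x y : Dt t, F (Sum.inl x) = F (Sum.inl y) := by
      refine ih ht (fun x => F (Sum.inl x)) (fun x => h1 (Sum.inl x)) fun x => ?_
      show F (Sum.inl (ph t x)) = F (Sum.inl x)
      by_cases h3 : bd t 3 = some (ph t x)
      · rw [← dartb_face_true h3, h2, ← hb, ← dartb_face_inl3 h3, h2]
      · by_cases h0 : bd t 0 = some (ph t x)
        · rw [← dartb_face_false h0, h2, hb, ← dartb_face_inl0 h3 h0, h2]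
        · rw [← dartb_face_inl h3 h0, h2]
    obtain ⟨e, he⟩ := dartb_exists_bd ht (k := 3) (by omega)
    have hall : ∀ x, F x = F (Sum.inr true) := by
      rintro (x | _ | _)
      · rw [hG x e, ← dartb_face_true he, h2]
      · exact hb
      · rfl
    rw [hall d, hall d']
  | bridge a b iha ihb =>
    obtain ⟨ha, hb⟩ : ok a ∧ ok b := ht
    have hc : F (Sum.inr false) = F (Sum.inr true) := h1 (Sum.inr true)
    have hA : ∀ x y : Dt a, F (Sum.inl (Sum.inl x)) = F (Sum.inl (Sum.inl y)) := by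
      refine iha ha (fun x => F (Sum.inl (Sum.inl x))) (fun x => h1 (Sum.inl (Sum.inl x)))
        fun x => ?_
      show F (Sum.inl (Sum.inl (ph a x))) = F (Sum.inl (Sum.inl x))
      by_cases h0 : bd a 0 = some (ph a x)
      · rw [← dartb_br_false h0, h2, hc, ← dartb_br_a0 h0, h2]
      · rw [← dartb_br_a h0, h2]
    have hB : ∀ x y : Dt b, F (Sum.inl (Sum.inr x)) = F (Sum.inl (Sum.inr y)) := by
      refine ihb hb (fun x => F (Sum.inl (Sum.inr x))) (fun x => h1 (Sum.inl (Sum.inr x)))
        fun x => ?_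
      show F (Sum.inl (Sum.inr (ph b x))) = F (Sum.inl (Sum.inr x))
      by_cases h0 : bd b 0 = some (ph b x)
      · rw [← dartb_br_true h0, h2, ← hc, ← dartb_br_b0 h0, h2]
      · rw [← dartb_br_b h0, h2]
    have hall : ∀ x, F x = F (Sum.inr true) := by
      rintro ((x | x) | _ | _)
      · obtain ⟨e, he⟩ := dartb_exists_bd0 x
        rw [hA x e, ← dartb_br_false he, h2, hc]
      · obtain ⟨e, he⟩ := dartb_exists_bd0 x
        rw [hB x e, ← dartb_br_true he, h2]
      · exact hc
      · rfl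
    rw [hall d, hall d']

end Pool.Agent.P.MP_7a6434d8_pr
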