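import Pool.Agent.P.MP_7a6434d8_pr.DartA
import Pool.Agent.P.MP_7a6434d8_pr.DartBAux

namespace Pool.Agent.P.MP_7a6434d8_pr

open Mp Finset
open scoped ENNReal

theorem factor_org (t : Mp) (ht : ok t) {β : Type} (F : Dt t → β)
    (h : ∀ d, F (ph t (al t d)) = F d) (d d' : Dt t) (hd : org t d = org t d') :
    F d = F d' := by
  induction t with
  | pt => exact Empty.elim d
  | face t ih =>
    obtain ⟨ht, hp⟩ : ok t ∧ 2 ≤ per t := ht
    have hT : F (ph (face t) (Sum.inr false)) = F (Sum.inr true) := h (Sum.inr true)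
    have hF : F (ph (face t) (Sum.inr true)) = F (Sum.inr false) := h (Sum.inr false)
    have hG : ∀ x y : Dt t, org t x = org t y → F (Sum.inl x) = F (Sum.inl y) := by
      refine ih ht (fun x => F (Sum.inl x)) fun x => ?_
      have hx : F (ph (face t) (Sum.inl (al t x))) = F (Sum.inl x) := h (Sum.inl x)
      show F (Sum.inl (ph t (al t x))) = F (Sum.inl x)
      by_cases h3 : bd t 3 = some (ph t (al t x))
      · rw [← dartb_face_true h3, hF, ← dartb_face_inl3 h3, hx]
      · by_cases h0 : bd t 0 = some (ph t (al t x))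
        · rw [← dartb_face_false h0, hT, ← dartb_face_inl0 h3 h0, hx]
        · rw [← dartb_face_inl h3 h0, hx]
    have hall : ∀ x : Dt (face t), ∃ y : Dt t, F x = F (Sum.inl y) ∧ org (face t) x = org t y := by
      rintro (x | _ | _)
      · exact ⟨x, rfl, rfl⟩
      · obtain ⟨e, he⟩ := dartb_exists_bd ht (k := 3) (by omega)
        exact ⟨e, by rw [← dartb_face_true he, hF], (org_bd t ht 3 e he).symm⟩
      · obtain ⟨e, he⟩ := dartb_exists_bd ht (k := 0) (by omega)
        exact ⟨e, by rw [← dartb_face_false he, hT], (org_bd t ht 0 e he).symm⟩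
    obtain ⟨y, hy, hy2⟩ := hall d
    obtain ⟨y', hy', hy2'⟩ := hall d'
    rw [hy, hy']
    exact hG y y' (hy2.symm.trans (hd.trans hy2'))
  | bridge a b iha ihb =>
    obtain ⟨ha, hb⟩ : ok a ∧ ok b := ht
    have hT : F (ph (bridge a b) (Sum.inr false)) = F (Sum.inr true) := h (Sum.inr true)
    have hF : F (ph (bridge a b) (Sum.inr true)) = F (Sum.inr false) := h (Sum.inr false)
    have hA : ∀ x y : Dt a, org a x = org a y →
        F (Sum.inl (Sum.inl x)) = F (Sum.inl (Sum.inl y)) := by
      refine iha ha (fun x => F (Sum.inl (Sum.inl x))) fun x => ?_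
      have hx : F (ph (bridge a b) (Sum.inl (Sum.inl (al a x)))) = F (Sum.inl (Sum.inl x)) :=
        h (Sum.inl (Sum.inl x))
      show F (Sum.inl (Sum.inl (ph a (al a x)))) = F (Sum.inl (Sum.inl x))
      by_cases h0 : bd a 0 = some (ph a (al a x))
      · rw [← dartb_br_false h0, hT, ← dartb_br_a0 h0, hx]
      · rw [← dartb_br_a h0, hx]
    have hB : ∀ x y : Dt b, org b x = org b y →
        F (Sum.inl (Sum.inr x)) = F (Sum.inl (Sum.inr y)) := by
      refine ihb hb (fun x => F (Sum.inl (Sum.inr x))) fun x => ?_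
      have hx : F (ph (bridge a b) (Sum.inl (Sum.inr (al b x)))) = F (Sum.inl (Sum.inr x)) :=
        h (Sum.inl (Sum.inr x))
      show F (Sum.inl (Sum.inr (ph b (al b x)))) = F (Sum.inl (Sum.inr x))
      by_cases h0 : bd b 0 = some (ph b (al b x))
      · rw [← dartb_br_true h0, hF, ← dartb_br_b0 h0, hx]
      · rw [← dartb_br_b h0, hx]
    have hA0 : ∀ x : Dt a, org a x = bv a 0 → F (Sum.inl (Sum.inl x)) = F (Sum.inr true) := by
      intro x hx
      obtain ⟨e, he⟩ := dartb_exists_bd0 x
      rw [hA x e (hx.trans (org_bd a ha 0 e he).symm), ← dartb_br_false he, hT]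
    have hB0 : ∀ x : Dt b, org b x = bv b 0 → F (Sum.inl (Sum.inr x)) = F (Sum.inr false) := by
      intro x hx
      obtain ⟨e, he⟩ := dartb_exists_bd0 x
      rw [hB x e (hx.trans (org_bd b hb 0 e he).symm), ← dartb_br_true he, hF]
    rcases d with (x | x) | _ | _ <;> rcases d' with (y | y) | _ | _
    · exact hA x y (Sum.inl_injective hd)
    · exact absurd hd Sum.inl_ne_inr
    · exact absurd hd Sum.inl_ne_inr
    · exact hA0 x (Sum.inl_injective hd)
    · exact absurd hd Sum.inr_ne_inl
    · exact hB x y (Sum.inr_injective hd)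
    · exact hB0 x (Sum.inr_injective hd)
    · exact absurd hd Sum.inr_ne_inl
    · exact absurd hd Sum.inr_ne_inl
    · exact (hB0 y (Sum.inr_injective hd).symm).symm
    · rfl
    · exact absurd hd Sum.inr_ne_inl
    · exact (hA0 y (Sum.inl_injective hd).symm).symm
    · exact absurd hd Sum.inl_ne_inr
    · exact absurd hd Sum.inl_ne_inr
    · rfl

end Pool.Agent.P.MP_7a6434d8_pr
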