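import Pool.Agent.P.MP_7a6434d8_pr.DartB

namespace Pool.Agent.P.MP_7a6434d8_pr

open Mp Finset
open scoped ENNReal

open Classical in
theorem dartd_root (t : Mp) (ht : ok t) (ψ : Dt t → ℝ) (c : ℝ) (g : Dt t → ℝ)
    (hg : ∀ d, g d = if bd t 0 = some (ph t d) then c else ψ (ph t d))
    (h : ∀ d, g (al t d) - ψ (al t d) = -(g d - ψ d)) (r : Dt t) (hr : bd t 0 = some r) :
    ψ r = c := by
  have hal : Function.Bijective (al t) := (Function.Involutive.bijective (al_al t))
  have hph : Function.Bijective (ph t) := (Finite.injective_iff_bijective.1 (ph_inj t ht))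
  have h1 : ∑ d, (g (al t d) - ψ (al t d)) = ∑ d, (g d - ψ d) :=
    hal.sum_comp (fun d => g d - ψ d)
  have h2 : ∑ d, (g (al t d) - ψ (al t d)) = -∑ d, (g d - ψ d) := by
    rw [← sum_neg_distrib]; exact sum_congr rfl fun d _ => h d
  have h3 : ∑ d, g d = ∑ x, (if bd t 0 = some x then c else ψ x) := by
    rw [← hph.sum_comp (fun x => if bd t 0 = some x then c else ψ x)]
    exact sum_congr rfl fun d _ => hg d
  have h4 : ∑ x, ((if bd t 0 = some x then c else ψ x) - ψ x) = c - ψ r := by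
    rw [sum_eq_single r]
    · rw [if_pos hr]
    · intro x _ hx
      rw [if_neg, sub_self]
      rw [hr]; exact fun e => hx (Option.some.inj e).symm
    · intro h; exact absurd (mem_univ r) h
  rw [sum_sub_distrib] at h4
  have h5 : ∑ d, (g d - ψ d) = 0 := by linarith
  rw [sum_sub_distrib] at h5
  linarith

theorem dartd_face (t : Mp) (ht : ok t) (hp : 2 ≤ per t)
    (ih : ∀ ψ : Dt t → ℝ, (∀ d, ψ (ph t (al t d)) - ψ (al t d) = -(ψ (ph t d) - ψ d)) →
      ∃ f : V t → ℝ, ∀ d, ψ (ph t d) - ψ d = f (org t (al t d)) - f (org t d))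
    (ψ : Dt t ⊕ Bool → ℝ)
    (h : ∀ d : Dt t ⊕ Bool, ψ (ph (face t) (al (face t) d)) - ψ (al (face t) d) =
      -(ψ (ph (face t) d) - ψ d)) :
    ∃ f : V t → ℝ, ∀ d : Dt t ⊕ Bool, ψ (ph (face t) d) - ψ d =
      f (org (face t) (al (face t) d)) - f (org (face t) d) := by
  classical
  have hex : ∀ k, k < 4 → ∃ e, bd t k = some e := fun k hk =>
    Option.ne_none_iff_exists'.1 fun e => by
      have := (bd_eq_none t ht k).1 e
      omega
  obtain ⟨e0, h0⟩ := hex 0 (by norm_num)
  obtain ⟨e1, h1⟩ := hex 1 (by norm_num)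
  obtain ⟨e2, h2⟩ := hex 2 (by norm_num)
  obtain ⟨e3, h3⟩ := hex 3 (by norm_num)
  have nx : ∀ k e e', k < 3 → bd t k = some e → bd t (k + 1) = some e' → ph t e = e' := by
    intro k e e' hk he he'
    have := bd_ph t ht k e he
    rw [Nat.mod_eq_of_lt (by omega), he'] at this
    exact (Option.some.inj this).symm
  have p0 := nx 0 e0 e1 (by norm_num) h0 h1
  have p1 := nx 1 e1 e2 (by norm_num) h1 h2
  have p2 := nx 2 e2 e3 (by norm_num) h2 h3
  have ne : ∀ k k' e e', bd t k = some e → bd t k' = some e' → k ≠ k' → e ≠ e' :=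
    fun k k' e e' he he' hk hee => hk (bd_inj t ht k k' e he (hee ▸ he'))
  have n30 := ne 3 0 _ _ h3 h0 (by norm_num)
  have n31 := ne 3 1 _ _ h3 h1 (by norm_num)
  have n32 := ne 3 2 _ _ h3 h2 (by norm_num)
  have n10 := ne 1 0 _ _ h1 h0 (by norm_num)
  have n20 := ne 2 0 _ _ h2 h0 (by norm_num)
  have qT : ph (face t) (Sum.inr true) = Sum.inl e3 := by
    show (bd t 3).elim _ _ = _
    rw [h3]; rfl
  have qF : ph (face t) (Sum.inr false) = Sum.inl e0 := by
    show (bd t 0).elim _ _ = _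
    rw [h0]; rfl
  have anti : ψ (Sum.inl e0) - ψ (Sum.inr false) = -(ψ (Sum.inl e3) - ψ (Sum.inr true)) := by
    have := h (Sum.inr true)
    rw [qT] at this
    rw [← qF]; exact this
  obtain ⟨y, hy⟩ : ∃ y, y = ψ (Sum.inl e3) - ψ (Sum.inr false) := ⟨_, rfl⟩
  obtain ⟨ψ', hψ'⟩ : ∃ ψ' : Dt t → ℝ, ∀ d, ψ' d =
      ψ (Sum.inl d) + if d = e0 ∨ d = e1 ∨ d = e2 then y else 0 := ⟨_, fun _ => rfl⟩
  have key : ∀ d, ψ' (ph t d) - ψ' d = ψ (ph (face t) (Sum.inl d)) - ψ (Sum.inl d) := by
    intro d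
    have q : ph (face t) (Sum.inl d) = if bd t 3 = some (ph t d) then Sum.inr false
        else if bd t 0 = some (ph t d) then Sum.inr true else Sum.inl (ph t d) := by
      rw [ph]
      split_ifs <;> rfl
    rw [q, hψ', hψ', h3, h0]
    by_cases c3 : ph t d = e3
    · have : d = e2 := ph_inj t ht (c3.trans p2.symm)
      rw [c3, if_pos rfl, if_neg (by simp [n30, n31, n32]), if_pos (by simp [this])]
      linarith
    rw [if_neg fun e => c3 (Option.some.inj e).symm]
    by_cases c0 : ph t d = e0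
    · have a0 : d ≠ e0 := fun e => n10 (by rw [← p0, ← e, c0, e])
      have a1 : d ≠ e1 := fun e => n20 (by rw [← p1, ← e, c0])
      have a2 : d ≠ e2 := fun e => n30 (by rw [← p2, ← e, c0])
      rw [c0, if_pos rfl, if_pos (Or.inl rfl), if_neg (by simp [a0, a1, a2])]
      linarith
    rw [if_neg fun e => c0 (Option.some.inj e).symm]
    have : (ph t d = e0 ∨ ph t d = e1 ∨ ph t d = e2) ↔ (d = e0 ∨ d = e1 ∨ d = e2) := by
      constructor
      · rintro (e | e | e)
        · exact absurd e c0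
        · exact Or.inl (ph_inj t ht (e.trans p0.symm))
        · exact Or.inr (Or.inl (ph_inj t ht (e.trans p1.symm)))
      · rintro (e | e | e)
        · exact Or.inr (Or.inl (e ▸ p0))
        · exact Or.inr (Or.inr (e ▸ p1))
        · exact absurd (e ▸ p2) c3
    simp only [this]
    ring
  obtain ⟨f, hf⟩ := ih ψ' fun d => by rw [key, key]; exact h (Sum.inl d)
  have new : ψ (Sum.inl e3) - ψ (Sum.inr true) = f (bv t 3) - f (bv t 0) := by
    have a0 := hf e0
    have a1 := hf e1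
    have a2 := hf e2
    rw [← org_ph t ht, p0] at a0
    rw [← org_ph t ht, p1] at a1
    rw [← org_ph t ht, p2] at a2
    rw [← org_bd t ht 3 e3 h3, ← org_bd t ht 0 e0 h0]
    have b3 := hψ' e3
    have b0 := hψ' e0
    rw [if_neg (by simp [n30, n31, n32])] at b3
    rw [if_pos (Or.inl rfl)] at b0
    linarith
  refine ⟨f, fun d => ?_⟩
  rcases d with d | _ | _
  · rw [← key]; exact hf d
  · rw [qF]
    show _ = f (bv t 0) - f (bv t 3)
    linarith
  · rw [qT]
    show _ = f (bv t 3) - f (bv t 0)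
    linarith

theorem dartd_bridge (a b : Mp) (ha : ok a) (hb : ok b)
    (iha : ∀ ψ : Dt a → ℝ, (∀ d, ψ (ph a (al a d)) - ψ (al a d) = -(ψ (ph a d) - ψ d)) →
      ∃ f : V a → ℝ, ∀ d, ψ (ph a d) - ψ d = f (org a (al a d)) - f (org a d))
    (ihb : ∀ ψ : Dt b → ℝ, (∀ d, ψ (ph b (al b d)) - ψ (al b d) = -(ψ (ph b d) - ψ d)) →
      ∃ f : V b → ℝ, ∀ d, ψ (ph b d) - ψ d = f (org b (al b d)) - f (org b d))
    (ψ : (Dt a ⊕ Dt b) ⊕ Bool → ℝ)
    (h : ∀ d : (Dt a ⊕ Dt b) ⊕ Bool, ψ (ph (bridge a b) (al (bridge a b) d)) -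
      ψ (al (bridge a b) d) = -(ψ (ph (bridge a b) d) - ψ d)) :
    ∃ f : V a ⊕ V b → ℝ, ∀ d : (Dt a ⊕ Dt b) ⊕ Bool, ψ (ph (bridge a b) d) - ψ d =
      f (org (bridge a b) (al (bridge a b) d)) - f (org (bridge a b) d) := by
  classical
  have ga : ∀ d, ψ (ph (bridge a b) (Sum.inl (Sum.inl d))) =
      if bd a 0 = some (ph a d) then ψ (Sum.inr true) else ψ (Sum.inl (Sum.inl (ph a d))) := by
    intro d
    rw [ph]
    split_ifs <;> rfl
  have gb : ∀ d, ψ (ph (bridge a b) (Sum.inl (Sum.inr d))) =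
      if bd b 0 = some (ph b d) then ψ (Sum.inr false) else ψ (Sum.inl (Sum.inr (ph b d))) := by
    intro d
    rw [ph]
    split_ifs <;> rfl
  have ra := dartd_root a ha (fun d => ψ (Sum.inl (Sum.inl d))) (ψ (Sum.inr true)) _ ga
    fun d => h (Sum.inl (Sum.inl d))
  have rb := dartd_root b hb (fun d => ψ (Sum.inl (Sum.inr d))) (ψ (Sum.inr false)) _ gb
    fun d => h (Sum.inl (Sum.inr d))
  have ka : ∀ d, ψ (ph (bridge a b) (Sum.inl (Sum.inl d))) = ψ (Sum.inl (Sum.inl (ph a d))) := by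
    intro d
    rw [ga]
    split_ifs with c
    · exact (ra _ c).symm
    · rfl
  have kb : ∀ d, ψ (ph (bridge a b) (Sum.inl (Sum.inr d))) = ψ (Sum.inl (Sum.inr (ph b d))) := by
    intro d
    rw [gb]
    split_ifs with c
    · exact (rb _ c).symm
    · rfl
  have kT : ψ (ph (bridge a b) (Sum.inr true)) = ψ (Sum.inr false) := by
    show ψ ((bd b 0).elim _ _) = _
    cases c : bd b 0 with
    | none => rfl
    | some r => exact rb r c
  have kF : ψ (ph (bridge a b) (Sum.inr false)) = ψ (Sum.inr true) := by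
    show ψ ((bd a 0).elim _ _) = _
    cases c : bd a 0 with
    | none => rfl
    | some r => exact ra r c
  obtain ⟨fa, hfa⟩ := iha (fun d => ψ (Sum.inl (Sum.inl d))) fun d => by
    rw [← ka, ← ka]; exact h (Sum.inl (Sum.inl d))
  obtain ⟨fb, hfb⟩ := ihb (fun d => ψ (Sum.inl (Sum.inr d))) fun d => by
    rw [← kb, ← kb]; exact h (Sum.inl (Sum.inr d))
  refine ⟨Sum.elim fa fun x => fb x +
    (ψ (Sum.inr false) - ψ (Sum.inr true) + fa (bv a 0) - fb (bv b 0)), fun d => ?_⟩
  rcases d with (d | d) | _ | _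
  · rw [ka]; exact hfa d
  · rw [kb]
    show _ = (fb (org b (al b d)) + _) - (fb (org b d) + _)
    have := hfb d
    linarith
  · rw [kF]
    show _ = fa (bv a 0) - (fb (bv b 0) + _)
    ring
  · rw [kT]
    show _ = (fb (bv b 0) + _) - fa (bv a 0)
    ring

theorem planar_darts (t : Mp) (ht : ok t) (ψ : Dt t → ℝ)
    (h : ∀ d, ψ (ph t (al t d)) - ψ (al t d) = -(ψ (ph t d) - ψ d)) :
    ∃ f : V t → ℝ, ∀ d, ψ (ph t d) - ψ d = f (org t (al t d)) - f (org t d) := by
  induction t with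
  | pt => exact ⟨fun _ => 0, fun d => Empty.elim d⟩
  | face t ih => exact dartd_face t ht.1 ht.2 (ih ht.1) ψ h
  | bridge a b iha ihb => exact dartd_bridge a b ht.1 ht.2 (iha ht.1) (ihb ht.2) ψ h

theorem good_real (t : Mp) (ht : ok t) (k : ℕ) :
    Good (al t) (ph t) Finset.univ (bd t (k % (2 * per t))) := by
  have hnone : bd t (k % (2 * per t)) = none → t = pt := by
    intro h
    refine eq_pt_of_per_zero t ht ?_
    by_contra hp
    have h1 := (bd_eq_none t ht _).1 h
    have h2 := Nat.mod_lt k (show 0 < 2 * per t by omega)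
    omega
  refine ⟨fun _ _ => mem_univ _, fun d _ => al_al t d, fun d _ => al_ne t d, fun _ _ => mem_univ _,
    fun d _ d' _ e => ph_inj t ht e, fun h => ?_, fun _ _ => mem_univ _, fun d _ => ?_,
    fun F h1 h2 d _ d' _ => conn_darts t ht F (fun d => h1 d (mem_univ d))
      (fun d => h2 d (mem_univ d)) d d', fun ψ h => ?_⟩
  · have := hnone h
    subst this
    exact eq_empty_of_forall_notMem fun d _ => Empty.elim d
  · rcases quad_inner t ht d with ⟨j, hj⟩ | h
    · left
      have hj2 : j < 2 * per t := by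
        by_contra hc
        rw [(bd_eq_none t ht j).2 (by omega)] at hj
        cases hj
      have hk := Nat.mod_lt k (show 0 < 2 * per t by omega)
      obtain ⟨x, hx⟩ : ∃ x, bd t (k % (2 * per t)) = some x :=
        Option.ne_none_iff_exists'.1 fun e => by
          have := (bd_eq_none t ht _).1 e
          omega
      refine ⟨x, j + 2 * per t - k % (2 * per t), hx, ?_⟩
      have := bd_iter t ht _ (j + 2 * per t - k % (2 * per t)) x hx
      rw [show k % (2 * per t) + (j + 2 * per t - k % (2 * per t)) = j + 2 * per t by omega,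
        Nat.add_mod_right, Nat.mod_eq_of_lt hj2, hj] at this
      exact (Option.some.inj this).symm
    · exact Or.inr h
  · obtain ⟨f, hf⟩ := planar_darts t ht ψ fun d => h d (mem_univ d)
    exact ⟨fun d => f (org t d), fun d _ => by simp only [org_ph t ht, al_al],
      fun d _ => hf d⟩

end Pool.Agent.P.MP_7a6434d8_pr
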