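import Mathlib

/-!
Peeling trees of planar quadrangulations with a general boundary, their vertex sets, Dirichlet
energy, boundary traces, darts, Boltzmann masses, and the numerical sequences used in the proof.
-/

namespace Pool.Agent.P.MP_7a6434d8_pr

open scoped ENNReal

/-- Tutte decomposition tree of a quadrangulation with a general boundary. -/
inductive Mp : Type
  | pt : Mp
  | face : Mp → Mp
  | bridge : Mp → Mp → Mp

namespace Mp

/-- half-perimeter -/
def per : Mp → ℕ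
  | pt => 0
  | face t => per t - 1
  | bridge a b => per a + per b + 1

/-- admissible trees -/
def ok : Mp → Prop
  | pt => True
  | face t => ok t ∧ 2 ≤ per t
  | bridge a b => ok a ∧ ok b

/-- number of inner faces -/
def size : Mp → ℕ
  | pt => 0
  | face t => size t + 1
  | bridge a b => size a + size b

/-- number of edges -/
def edges : Mp → ℕ
  | pt => 0
  | face t => edges t + 1
  | bridge a b => edges a + edges b + 1

/-- vertices -/
def V : Mp → Type
  | pt => Unit
  | face t => V t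
  | bridge a b => V a ⊕ V b

/-- boundary vertex at position `k`, for `0 ≤ k ≤ 2 per t` -/
def bv : (t : Mp) → ℕ → V t
  | pt, _ => ()
  | face t, k => if k = 0 then bv t 0 else bv t (k + 2)
  | bridge a b, k =>
      if k = 0 then Sum.inl (bv a 0)
      else if k ≤ 2 * per b + 1 then Sum.inr (bv b (k - 1))
      else Sum.inl (bv a (k - 2 * per b - 2))

/-- Dirichlet energy: sum over edges of squared differences -/
def energy : (t : Mp) → (V t → ℝ) → ℝ
  | pt, _ => 0
  | face t, f => energy t f + (f (bv t 0) - f (bv t 3)) ^ 2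
  | bridge a b, f => energy a (fun x => f (Sum.inl x)) + energy b (fun x => f (Sum.inr x))
      + (f (Sum.inl (bv a 0)) - f (Sum.inr (bv b 0))) ^ 2

/-- adjacency (symmetric) -/
def adj : (t : Mp) → V t → V t → Prop
  | pt, _, _ => False
  | face t, x, y => adj t x y ∨ (x = bv t 0 ∧ y = bv t 3) ∨ (x = bv t 3 ∧ y = bv t 0)
  | bridge a _, Sum.inl x, Sum.inl y => adj a x y
  | bridge _ b, Sum.inr x, Sum.inr y => adj b x y
  | bridge a b, Sum.inl x, Sum.inr y => x = bv a 0 ∧ y = bv b 0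
  | bridge a b, Sum.inr x, Sum.inl y => x = bv b 0 ∧ y = bv a 0

/-- darts -/
def Dt : Mp → Type
  | pt => Empty
  | face t => Dt t ⊕ Bool
  | bridge a b => (Dt a ⊕ Dt b) ⊕ Bool

instance instFintypeV : (t : Mp) → Fintype (V t)
  | pt => inferInstanceAs (Fintype Unit)
  | face t => instFintypeV t
  | bridge a b => @instFintypeSum (V a) (V b) (instFintypeV a) (instFintypeV b)

instance instFintypeDt : (t : Mp) → Fintype (Dt t)
  | pt => inferInstanceAs (Fintype Empty)
  | face t => @instFintypeSum (Dt t) Bool (instFintypeDt t) inferInstance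
  | bridge a b => @instFintypeSum (Dt a ⊕ Dt b) Bool
      (@instFintypeSum (Dt a) (Dt b) (instFintypeDt a) (instFintypeDt b)) inferInstance

/-- edge reversal -/
def al : (t : Mp) → Dt t → Dt t
  | pt, d => d
  | face t, Sum.inl d => Sum.inl (al t d)
  | face _, Sum.inr c => Sum.inr (!c)
  | bridge a _, Sum.inl (Sum.inl d) => Sum.inl (Sum.inl (al a d))
  | bridge _ b, Sum.inl (Sum.inr d) => Sum.inl (Sum.inr (al b d))
  | bridge _ _, Sum.inr c => Sum.inr (!c)

/-- boundary dart at position `k`, present for `k < 2 per t` -/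
def bd : (t : Mp) → ℕ → Option (Dt t)
  | pt, _ => none
  | face t, k => if k = 0 then some (Sum.inr true) else (bd t (k + 2)).map Sum.inl
  | bridge a b, k =>
      if k = 0 then some (Sum.inr true)
      else if k ≤ 2 * per b then (bd b (k - 1)).map (fun d => Sum.inl (Sum.inr d))
      else if k = 2 * per b + 1 then some (Sum.inr false)
      else (bd a (k - 2 * per b - 2)).map (fun d => Sum.inl (Sum.inl d))

open Classical in
/-- next dart along the face -/
noncomputable def ph : (t : Mp) → Dt t → Dt t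
  | pt, d => d
  | face t, Sum.inr true => (bd t 3).elim (Sum.inr true) Sum.inl
  | face t, Sum.inr false => (bd t 0).elim (Sum.inr false) Sum.inl
  | face t, Sum.inl d =>
      if bd t 3 = some (ph t d) then Sum.inr false
      else if bd t 0 = some (ph t d) then Sum.inr true else Sum.inl (ph t d)
  | bridge _ b, Sum.inr true => (bd b 0).elim (Sum.inr false) (fun d => Sum.inl (Sum.inr d))
  | bridge a _, Sum.inr false => (bd a 0).elim (Sum.inr true) (fun d => Sum.inl (Sum.inl d))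
  | bridge a _, Sum.inl (Sum.inl d) =>
      if bd a 0 = some (ph a d) then Sum.inr true else Sum.inl (Sum.inl (ph a d))
  | bridge _ b, Sum.inl (Sum.inr d) =>
      if bd b 0 = some (ph b d) then Sum.inr false else Sum.inl (Sum.inr (ph b d))

/-- origin of a dart -/
def org : (t : Mp) → Dt t → V t
  | pt, d => Empty.elim d
  | face t, Sum.inl d => org t d
  | face t, Sum.inr true => bv t 0
  | face t, Sum.inr false => bv t 3
  | bridge a _, Sum.inl (Sum.inl d) => Sum.inl (org a d)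
  | bridge _ b, Sum.inl (Sum.inr d) => Sum.inr (org b d)
  | bridge a _, Sum.inr true => Sum.inl (bv a 0)
  | bridge _ b, Sum.inr false => Sum.inr (bv b 0)

end Mp

open Mp

/-- `h` is the boundary trace of a function of energy at most `e` -/
def Tr (t : Mp) (h : ℕ → ℝ) (e : ℝ) : Prop :=
  ∃ f : V t → ℝ, (∀ p, p ≤ 2 * per t → h p = f (bv t p)) ∧ energy t f ≤ e

/-- the boundary position sets `S` and `U` are at effective resistance more than `T ^ 2` -/
def Far (t : Mp) (S U : Set ℕ) (T : ℝ) : Prop :=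
  ∃ (h : ℕ → ℝ) (e : ℝ), e < 1 ∧ Tr t h e ∧ (∀ p ∈ S, h p ≤ 0) ∧ (∀ p ∈ U, T ≤ h p)

/-- some vertex is at effective resistance more than `T ^ 2` from the root vertex -/
def FarV (t : Mp) (T : ℝ) : Prop :=
  ∃ (f : V t → ℝ) (v : V t), energy t f < 1 ∧ f (bv t 0) ≤ 0 ∧ T ≤ f v

/-- connected inside the vertex set `K` -/
def Conn (t : Mp) (K : V t → Prop) (x y : V t) : Prop :=
  K x ∧ Relation.ReflTransGen (fun a b => adj t a b ∧ K b) x y

/-! ### abstract maps with a support -/

open Classical in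
/-- face successor after deleting the edge of `r` -/
noncomputable def rem {D : Type} (α φ : D → D) (r : D) (d : D) : D :=
  if φ d = r ∨ φ d = α r then φ (α (φ d)) else φ d

/-- a connected planar map on the dart set `S`, root dart `r`, all faces but the root face of
degree four -/
structure Good {D : Type} (α φ : D → D) (S : Finset D) (r : Option D) : Prop where
  al_mem : ∀ d ∈ S, α d ∈ S
  al_al : ∀ d ∈ S, α (α d) = d
  al_ne : ∀ d ∈ S, α d ≠ d
  ph_mem : ∀ d ∈ S, φ d ∈ S
  ph_inj : ∀ d ∈ S, ∀ d' ∈ S, φ d = φ d' → d = d'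
  root_none : r = none → S = ∅
  root_mem : ∀ x, r = some x → x ∈ S
  quad : ∀ d ∈ S, (∃ x k, r = some x ∧ φ^[k] x = d) ∨ (φ^[4] d = d ∧ φ^[2] d ≠ d)
  conn : ∀ F : D → ℝ, (∀ d ∈ S, F (α d) = F d) → (∀ d ∈ S, F (φ d) = F d) →
    ∀ d ∈ S, ∀ d' ∈ S, F d = F d'
  planar : ∀ ψ : D → ℝ, (∀ d ∈ S, ψ (φ (α d)) - ψ (α d) = -(ψ (φ d) - ψ d)) →
    ∃ F : D → ℝ, (∀ d ∈ S, F (φ (α d)) = F d) ∧ ∀ d ∈ S, ψ (φ d) - ψ d = F (α d) - F d

/-- `θ` embeds the dart structure of `t` into `(D, α, φ)` -/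
structure Emb {D : Type} (α φ : D → D) (t : Mp) (θ : Dt t → D) : Prop where
  inj : Function.Injective θ
  map_al : ∀ x, θ (al t x) = α (θ x)
  map_ph : ∀ x, θ (ph t x) = φ (θ x)

/-- `t'` is `t` re-rooted at boundary position `k` -/
def RotIso (k : ℕ) (t t' : Mp) : Prop :=
  ∃ θ : Dt t' → Dt t, Emb (al t) (ph t) t' θ ∧ Function.Surjective θ ∧
    (bd t' 0).map θ = bd t (k % (2 * per t))

open Classical in
/-- re-rooting at boundary position `k` -/
noncomputable def rotN (k : ℕ) (t : Mp) : Mp :=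
  if h : ∃ t', ok t' ∧ RotIso k t t' then h.choose else t

/-- glue a face on the boundary edges `k, k+1, k+2` of `t'` -/
noncomputable def faceAt (k : ℕ) (t' : Mp) : Mp :=
  rotN (2 * (per t' - 1) - k) (face (rotN k t'))

/-- peeled edge `m`, partner `m + 2 per W2 + 1`; `W1` outer, `W2` enclosed -/
noncomputable def brR (m : ℕ) (W1 W2 : Mp) : Mp :=
  rotN (2 * (per W1 + per W2 + 1) - m) (bridge (rotN m W1) W2)

/-- peeled edge `m + 2 per W2 + 1`, partner `m`; `W1` outer, `W2` enclosed -/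
noncomputable def brL (m : ℕ) (W1 W2 : Mp) : Mp :=
  rotN (2 * (per W1 + per W2 + 1) - (m + 2 * per W2 + 1)) (bridge W2 (rotN m W1))

/-- `t` is `t'` with a face glued at position `k` -/
structure IsFace (k : ℕ) (t t' : Mp) : Prop where
  ok_t : ok t
  ok_t' : ok t'
  per_eq : per t' = per t + 1
  lt : k < 2 * per t
  size_eq : size t = size t' + 1
  edges_eq : edges t = edges t' + 1
  tr : ∀ h e, Tr t h e ↔ ∃ h', Tr t' h' (e - (h' k - h' (k + 3)) ^ 2) ∧
    (∀ p, p ≤ k → h p = h' p) ∧ (∀ p, k < p → p ≤ 2 * per t → h p = h' (p + 2))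
  farV : ∀ T, FarV t T → FarV t' T

/-- `t` has boundary edges `m` and `m + 2 per W2 + 1` identified, `W1` outer, `W2` enclosed -/
structure IsBr (m : ℕ) (t W1 W2 : Mp) : Prop where
  ok_t : ok t
  ok_1 : ok W1
  ok_2 : ok W2
  per_eq : per t = per W1 + per W2 + 1
  le : m ≤ 2 * per W1
  size_eq : size t = size W1 + size W2
  edges_eq : edges t = edges W1 + edges W2 + 1
  tr : ∀ h e, Tr t h e ↔ ∃ h1 h2 e1 e2, Tr W1 h1 e1 ∧ Tr W2 h2 e2 ∧
    e1 + e2 + (h1 m - h2 0) ^ 2 ≤ e ∧ (∀ p, p ≤ m → h p = h1 p) ∧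
    (∀ p, p ≤ 2 * per W2 → h (m + 1 + p) = h2 p) ∧
    (∀ p, m ≤ p → p ≤ 2 * per W1 → h (p + 2 * per W2 + 2) = h1 p)
  farV : ∀ T ρ, FarV t (T + ρ) → FarV W1 (T + ρ) ∨ Far t {0} {m + 1} ρ ∨ FarV W2 T

/-! ### Boltzmann masses at the critical weight `1/12` -/

open Classical in
/-- weight of a tree among those of half-perimeter `L` -/
noncomputable def wt (L : ℕ) (t : Mp) : ℝ≥0∞ :=
  if ok t ∧ per t = L then (12 : ℝ≥0∞)⁻¹ ^ size t else 0

open Classical in
noncomputable def massE (L : ℕ) (φ : Mp → Prop) : ℝ≥0∞ :=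
  ∑' t, if φ t then wt L t else 0

open Classical in
noncomputable def mass2E (i j : ℕ) (ψ : Mp → Mp → Prop) : ℝ≥0∞ :=
  ∑' p : Mp × Mp, if ψ p.1 p.2 then wt i p.1 * wt j p.2 else 0

noncomputable def mass (L : ℕ) (φ : Mp → Prop) : ℝ := (massE L φ).toReal

noncomputable def mass2 (i j : ℕ) (ψ : Mp → Mp → Prop) : ℝ := (mass2E i j ψ).toReal

/-- mass truncated to trees with fewer than `N` edges -/
noncomputable def massN (N L : ℕ) (φ : Mp → Prop) : ℝ := mass L (fun t => φ t ∧ edges t < N)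

noncomputable def mass2N (N i j : ℕ) (ψ : Mp → Mp → Prop) : ℝ :=
  mass2 i j (fun a b => ψ a b ∧ edges a < N ∧ edges b < N)

/-- critical partition function -/
noncomputable def Z (L : ℕ) : ℝ := 2 ^ (L + 1) * (catalan L : ℝ) / (L + 2)

noncomputable def w (L : ℕ) : ℝ := Z L / 8 ^ L

/-- twice the expected number of vertices -/
def Av (L : ℕ) : ℝ := ((L : ℝ) + 1) * (L + 2)

/-- expected number of edges -/
def Bv (L : ℕ) : ℝ := (L : ℝ) * (L + 2)

/-- boundary points at distance at most `lam` are at resistance at most `ρ ^ 2` outside an event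
of probability `ε` -/
def NearHyp (lam : ℕ) (ρ ε : ℝ) : Prop :=
  ∀ L p q : ℕ, p ≤ 2 * L → q ≤ 2 * L → p ≤ q + lam → q ≤ p + lam →
    mass L (fun t => Far t {p} {q} ρ) ≤ ε * Z L

/-- admissible exploration state: target `[0,c]`, frontier `[u,v]`, gap `[v,2L]` -/
def St (c g L u v : ℕ) : Prop := c ≤ u ∧ u ≤ v ∧ v ≤ 2 * L ∧ 2 * L ≤ v + g

/-- supermartingale under peeling of a frontier edge -/
def Super (c : ℕ) (Φ : ℕ → ℕ → ℕ → ℝ) : Prop :=
  ∀ L u v x : ℕ, c ≤ u → u ≤ x → x + 1 ≤ v → v ≤ 2 * L →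
    Φ (L + 1) u (v + 2) / 12
      + ∑ j ∈ Finset.range ((2 * L - x) / 2), Z j * Φ (L - 1 - j) u (max x (v - 2 * j - 2))
      + ∑ j ∈ (Finset.range ((x + 1) / 2)).filter (fun j => c + 2 * j + 1 ≤ x),
          Z j * Φ (L - 1 - j) (min u (x - 2 * j - 1)) (v - 2 * j - 2)
      ≤ Φ L u v

/-- mass of pinching pairs around the frontier -/
noncomputable def Xp (a L u v : ℕ) : ℝ :=
  ∑ p ∈ Finset.Icc (a - a / 3) u, ∑ q ∈ Finset.Icc v (2 * L + a / 3),
    if (q - p) % 2 = 0 then Z ((q - p) / 2) * Z (L - (q - p) / 2) else 0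

/-- closure properties of the explored-region predicate -/
structure KGood (u v : ℕ) (K : (ℕ → ℝ) → ℝ → Prop) : Prop where
  loc : ∀ h h' q, (∀ p, u ≤ p → p ≤ v → h p = h' p) → K h q → K h' q
  sup : ∀ h h' q q', K h q → K h' q' → K (fun p => max (h p) (h' p)) (q + q')
  inf : ∀ h q c, 0 ≤ c → K h q → K (fun p => min (h p) c) q
  smul : ∀ h q c, 0 ≤ c → K h q → K (fun p => c * h p) (c ^ 2 * q)
  nonneg : ∀ h q, K h q → 0 ≤ q

/-- explored-region predicate after discovering a face at `x` -/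
def Kface (x : ℕ) (K : (ℕ → ℝ) → ℝ → Prop) (h' : ℕ → ℝ) (q' : ℝ) : Prop :=
  ∃ q, K (fun p => if p ≤ x then h' p else h' (p + 2)) q ∧ q + (h' x - h' (x + 3)) ^ 2 ≤ q'

/-- explored-region predicate after swallowing `W2` at `m`, new frontier `[u',v']` -/
def Kbr (m u' v' : ℕ) (W2 : Mp) (K : (ℕ → ℝ) → ℝ → Prop) (h1 : ℕ → ℝ) (q' : ℝ) : Prop :=
  ∃ h h2 q e2, K h q ∧ Tr W2 h2 e2 ∧ q + e2 + (h m - h2 0) ^ 2 ≤ q' ∧
    (∀ p, p ≤ 2 * per W2 → h (m + 1 + p) = h2 p) ∧
    (∀ p, u' ≤ p → p ≤ m → h p = h1 p) ∧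
    (∀ p, m ≤ p → p ≤ v' → h (p + 2 * per W2 + 2) = h1 p)

/-- the number of trees with half-perimeter `L` and `n` inner faces -/
noncomputable def cnt (L n : ℕ) (φ : Mp → Prop) : ℕ :=
  Nat.card {t : Mp // ok t ∧ per t = L ∧ size t = n ∧ φ t}

end Pool.Agent.P.MP_7a6434d8_pr
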