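import Pool.Agent.P.MP_7a6434d8_pr.Defs

/-! Definitions for the lower bound on the time scale. -/

namespace Pool.Agent.P.MP_7a6434d8_pr

open Mp Finset
open scoped ENNReal

open Classical in
/-- degree of a vertex, as the energy of its indicator -/
noncomputable def dg (t : Mp) (x : V t) : ℝ := energy t (fun y => if y = x then 1 else 0)

def MaxDeg (t : Mp) (Δ : ℝ) : Prop := ∀ x, dg t x ≤ Δ

/-- graph distance at most `k` -/
def Within (t : Mp) : ℕ → V t → V t → Prop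
  | 0, x, y => x = y
  | k + 1, x, y => Within t k x y ∨ ∃ z, Within t k x z ∧ adj t z y

open Classical in
/-- number of vertices where `f` does not vanish -/
noncomputable def supp (t : Mp) (f : V t → ℝ) : ℕ := (univ.filter (fun x => f x ≠ 0)).card

/-- a cut-off function for the boundary arc `[0, π]` -/
def Arc (t : Mp) (π : ℕ) (K v : ℝ) : Prop :=
  ∃ f : V t → ℝ, (∀ x, 0 ≤ f x ∧ f x ≤ 1) ∧ (∀ p, π ≤ p → p ≤ 2 * per t → f (bv t p) = 0) ∧
    energy t f ≤ K ∧ ∑ p ∈ range (π + 1), (1 - f (bv t p)) ^ 2 ≤ K ∧ (supp t f : ℝ) ≤ v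

/-- a cut-off function for the whole boundary -/
def Layer (t : Mp) (K v : ℝ) : Prop :=
  ∃ f : V t → ℝ, (∀ x, 0 ≤ f x ∧ f x ≤ 1) ∧ (∀ p, p ≤ 2 * per t → f (bv t p) = 1) ∧
    energy t f ≤ K ∧ (supp t f : ℝ) ≤ v

/-- a cut-off function whose level set `f = 1` separates the map into parts of diameter `≤ r` -/
def Sep (t : Mp) (r : ℕ) (K v : ℝ) : Prop :=
  ∃ f : V t → ℝ, (∀ x, 0 ≤ f x ∧ f x ≤ 1) ∧ (∀ p, p ≤ 2 * per t → f (bv t p) = 1) ∧
    energy t f ≤ K ∧ (supp t f : ℝ) ≤ v ∧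
    ∀ x y, Conn t (fun z => f z ≠ 1) x y → Within t r x y

/-- vertex-level form of `IsFace` -/
structure FaceV (k : ℕ) (t t' : Mp) : Prop where
  isFace : IsFace k t t'
  ex : ∃ E : V t ≃ V t', (∀ f : V t' → ℝ, energy t (fun x => f (E x))
      = energy t' f + (f (bv t' k) - f (bv t' (k + 3))) ^ 2) ∧
    (∀ p, p ≤ k → E (bv t p) = bv t' p) ∧
    ∀ p, k < p → p ≤ 2 * per t → E (bv t p) = bv t' (p + 2)

/-- vertex-level form of `IsBr` -/
structure BrV (m : ℕ) (t W1 W2 : Mp) : Prop where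
  isBr : IsBr m t W1 W2
  ex : ∃ E : V t ≃ V W1 ⊕ V W2, (∀ f : V W1 ⊕ V W2 → ℝ, energy t (fun x => f (E x)) =
      energy W1 (fun x => f (Sum.inl x)) + energy W2 (fun x => f (Sum.inr x)) +
        (f (Sum.inl (bv W1 m)) - f (Sum.inr (bv W2 0))) ^ 2) ∧
    (∀ p, p ≤ m → E (bv t p) = Sum.inl (bv W1 p)) ∧
    (∀ p, p ≤ 2 * per W2 → E (bv t (m + 1 + p)) = Sum.inr (bv W2 p)) ∧
    ∀ p, m ≤ p → p ≤ 2 * per W1 → E (bv t (p + 2 * per W2 + 2)) = Sum.inl (bv W1 p)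

/-- some subtree satisfies `E` -/
def AnySub (E : Mp → Prop) : Mp → Prop
  | pt => E pt
  | face t => E (face t) ∨ AnySub E t
  | bridge a b => E (bridge a b) ∨ AnySub E a ∨ AnySub E b

/-- volume of a discarded subtree -/
def disc (m1 : ℕ) (c : Mp) : ℕ := if edges c ≤ m1 then edges c + 1 else 0

/-- maximal discarded volume along a branch -/
def pc (m1 : ℕ) : Mp → ℕ
  | pt => 0
  | face t => pc m1 t
  | bridge a b => max (pc m1 a + disc m1 b) (pc m1 b + disc m1 a)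

/-- integral against the Boltzmann weight -/
noncomputable def IE (L : ℕ) (F : Mp → ℝ≥0∞) : ℝ≥0∞ := ∑' t, wt L t * F t

/-- truncation to fewer than `N` edges -/
noncomputable def trunc (N : ℕ) (F : Mp → ℝ≥0∞) (t : Mp) : ℝ≥0∞ := if edges t < N then F t else 0

def ArcHyp (Δ : ℝ) (a : ℕ) (K v β : ℝ) : Prop :=
  ∀ L π : ℕ, π ≤ a → π ≤ 2 * L → mass L (fun t => MaxDeg t Δ ∧ ¬ Arc t π K v) ≤ β * Z L

/-- closed walk with steps `±1` of length `2 L` -/
def Valid (L : ℕ) (l : ℕ → ℤ) : Prop :=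
  l (2 * L) = l 0 ∧ ∀ p, p < 2 * L → l (p + 1) = l p + 1 ∨ l (p + 1) = l p - 1

/-- a distance-like labelling with boundary labels `l`, unique local minimum with label in `A`,
all labels in `B` -/
def Lab (t : Mp) (l : ℕ → ℤ) (A B : Set ℤ) : Prop :=
  ∃ (f : V t → ℤ) (v : V t), (∀ p, p ≤ 2 * per t → f (bv t p) = l p) ∧
    (∀ x y, adj t x y → f x = f y + 1 ∨ f y = f x + 1) ∧
    (∀ x, x ≠ v → ∃ y, adj t x y ∧ f x = f y + 1) ∧ f v ∈ A ∧ ∀ x, f x ∈ B

/-- insert two labels after position `0` -/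
def ins (l : ℕ → ℤ) (n1 n2 : ℤ) (p : ℕ) : ℤ :=
  if p = 0 then l 0 else if p = 1 then n1 else if p = 2 then n2 else l (p - 2)

end Pool.Agent.P.MP_7a6434d8_pr
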