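import Pool.Agent.P.MP_7a6434d8_pr.YKernel

/-! The transition operator and the laws of the walk and of the lazy walk. -/

namespace Pool.Agent.P.MP_7a6434d8_pr

open Finset
open scoped ENNReal

variable {n : ℕ}

/-- real-valued probability of a set of trajectories -/
noncomputable def yPr (q : Quad n) (T : ℕ) (x : q.Vertex) (A : Set (List q.Vertex)) : ℝ :=
  ((q.walk T x).toOuterMeasure A).toReal

theorem yPr_ofReal (q : Quad n) (T : ℕ) (x : q.Vertex) (A : Set (List q.Vertex)) :
    (q.walk T x).toOuterMeasure A = ENNReal.ofReal (yPr q T x A) := by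
  rw [yPr, ENNReal.ofReal_toReal]
  exact ne_top_of_le_ne_top ENNReal.one_ne_top (hit_outer_le_one _ _)

theorem yPr_nonneg (q : Quad n) (T : ℕ) (x : q.Vertex) (A : Set (List q.Vertex)) :
    0 ≤ yPr q T x A := ENNReal.toReal_nonneg

theorem yPr_le_one (q : Quad n) (T : ℕ) (x : q.Vertex) (A : Set (List q.Vertex)) :
    yPr q T x A ≤ 1 :=
  ENNReal.toReal_le_of_le_ofReal zero_le_one (by simpa using hit_outer_le_one _ _)

theorem yPr_mono (q : Quad n) (T : ℕ) (x : q.Vertex) {A B : Set (List q.Vertex)} (h : A ⊆ B) :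
    yPr q T x A ≤ yPr q T x B :=
  ENNReal.toReal_mono (ne_top_of_le_ne_top ENNReal.one_ne_top (hit_outer_le_one _ _))
    (MeasureTheory.measure_mono h)

open Classical in
theorem yPr_zero (q : Quad n) (x : q.Vertex) (A : Set (List q.Vertex)) :
    yPr q 0 x A = if [x] ∈ A then 1 else 0 := by
  rw [yPr, Quad.walk, PMF.toOuterMeasure_pure_apply]
  split_ifs <;> simp

theorem yPr_succ (q : Quad n) (T : ℕ) (x : q.Vertex) (A : Set (List q.Vertex)) :
    yPr q (T + 1) x A = yP q (fun z => yPr q T z ((fun l => x :: l) ⁻¹' A)) x := by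
  rw [yPr, hit_walk_succ, ← mul_sum, ENNReal.toReal_mul, ENNReal.toReal_sum]
  · simp only [yPr, yP, ENNReal.toReal_inv, ENNReal.toReal_natCast]
    rw [div_eq_inv_mul]
  · intro d _
    exact ne_top_of_le_ne_top ENNReal.one_ne_top (hit_outer_le_one _ _)

theorem yP_mono (q : Quad n) {u v : q.Vertex → ℝ} (h : ∀ x, u x ≤ v x) (x : q.Vertex) :
    yP q u x ≤ yP q v x :=
  div_le_div_of_nonneg_right (sum_le_sum fun _ _ => h _) (Nat.cast_nonneg _)

theorem yPr_pos (q : Quad n) (y : q.Vertex) (T : ℕ) :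
    ∀ x, yPr q T x {l | l[T]? = some y} = (yP q)^[T] (yInd q (· = y)) x := by
  induction T with
  | zero =>
    intro x
    rw [yPr_zero, Function.iterate_zero_apply, yInd]
    congr 1
    simp
  | succ T ih =>
    intro x
    rw [yPr_succ, Function.iterate_succ_apply']
    congr 1
    funext z
    rw [← ih]
    congr 1

theorem ret_eq (q : Quad n) (T : ℕ) (x : q.Vertex) : q.ret T x = ENNReal.ofReal (yK q T x) := by
  rw [Quad.ret, yPr_ofReal, yPr_pos]
  rfl

/-- probability of visiting the set `S` up to time `T` -/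
noncomputable def yEsc (q : Quad n) (S : q.Vertex → Prop) (T : ℕ) (x : q.Vertex) : ℝ :=
  yPr q T x {l | ∃ y ∈ l, S y}

theorem yEsc_zero (q : Quad n) (S : q.Vertex → Prop) (x : q.Vertex) :
    yEsc q S 0 x = yInd q S x := by
  rw [yEsc, yPr_zero, yInd]
  congr 1
  simp

theorem yEsc_succ_ge (q : Quad n) (S : q.Vertex → Prop) (T : ℕ) (x : q.Vertex) :
    yP q (yEsc q S T) x ≤ yEsc q S (T + 1) x := by
  rw [yEsc, yPr_succ]
  refine yP_mono q (fun z => yPr_mono q T z ?_) x
  rintro l ⟨y, hy, h⟩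
  exact ⟨y, List.mem_cons_of_mem _ hy, h⟩

theorem yEsc_univ (q : Quad n) (T : ℕ) (x : q.Vertex) : yPr q T x Set.univ = 1 := by
  rw [yPr, PMF.toOuterMeasure_apply, Set.indicator_univ, PMF.tsum_coe, ENNReal.toReal_one]

theorem yEsc_of_mem (q : Quad n) (S : q.Vertex → Prop) (T : ℕ) (x : q.Vertex) (h : S x) :
    yEsc q S T x = 1 := by
  cases T with
  | zero => rw [yEsc_zero, yInd, if_pos h]
  | succ T =>
    rw [yEsc, yPr_succ]
    have : (fun l => x :: l) ⁻¹' {l : List q.Vertex | ∃ y ∈ l, S y} = Set.univ :=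
      Set.eq_univ_of_forall fun l => ⟨x, by simp, h⟩
    simp only [this, yEsc_univ]
    exact congrFun (yP_const q 1) x

theorem yEsc_of_not (q : Quad n) (S : q.Vertex → Prop) (T : ℕ) (x : q.Vertex) (h : ¬ S x) :
    yEsc q S (T + 1) x = yP q (yEsc q S T) x := by
  rw [yEsc, yPr_succ]
  congr 1
  funext z
  rw [yEsc]
  congr 1
  ext l
  simp [h]

theorem yEsc_step (q : Quad n) (S : q.Vertex → Prop) (T : ℕ) :
    ∀ x, yEsc q S T x ≤ yEsc q S (T + 1) x := by
  induction T with
  | zero =>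
    intro x
    by_cases h : S x
    · rw [yEsc_of_mem q S _ x h, yEsc_of_mem q S _ x h]
    · rw [yEsc_zero, yInd, if_neg h]
      exact yPr_nonneg _ _ _ _
  | succ T ih =>
    intro x
    by_cases h : S x
    · rw [yEsc_of_mem q S _ x h, yEsc_of_mem q S _ x h]
    · rw [yEsc_of_not q S _ x h, yEsc_of_not q S _ x h]
      exact yP_mono q ih x

theorem yEsc_mono (q : Quad n) (S : q.Vertex → Prop) (x : q.Vertex) :
    Monotone fun T => yEsc q S T x :=
  monotone_nat_of_le_succ fun T => yEsc_step q S T x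

theorem y_pos_le_esc (q : Quad n) (S : q.Vertex → Prop) (T : ℕ) :
    ∀ x, (yP q)^[T] (yInd q S) x ≤ yEsc q S T x := by
  induction T with
  | zero => intro x; rw [yEsc_zero]; exact le_rfl
  | succ T ih =>
    intro x
    rw [Function.iterate_succ_apply']
    exact (yP_mono q ih x).trans (yEsc_succ_ge q S T x)

theorem yInd_compl (q : Quad n) (S : q.Vertex → Prop) :
    (fun y => yInd q S y + yInd q (fun z => ¬ S z) y) = fun _ => 1 := by
  funext y
  unfold yInd
  by_cases h : S y <;> simp [h]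

theorem y_pos_compl (q : Quad n) (S : q.Vertex → Prop) (T : ℕ) (x : q.Vertex) :
    (yP q)^[T] (yInd q S) x + (yP q)^[T] (yInd q fun z => ¬ S z) x = 1 := by
  have h := yP_iter_add q T (yInd q S) (yInd q fun z => ¬ S z)
  rw [yInd_compl, yP_iter_const] at h
  exact (congrFun h x).symm

theorem escape_eq (q : Quad n) (x : q.Vertex) (T : ℕ) (r : ℝ) :
    q.escape x T r = ENNReal.ofReal (yEsc q (fun y => r < (q.graph.dist x y : ℝ)) T x) :=
  yPr_ofReal q T x _

theorem escape_mono_time (q : Quad n) (x : q.Vertex) {T T' : ℕ} (h : T ≤ T') (r : ℝ) :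
    q.escape x T r ≤ q.escape x T' r := by
  rw [escape_eq, escape_eq]
  exact ENNReal.ofReal_le_ofReal (yEsc_mono q _ x h)

theorem escape_anti_radius (q : Quad n) (x : q.Vertex) (T : ℕ) {r r' : ℝ} (h : r ≤ r') :
    q.escape x T r' ≤ q.escape x T r := by
  apply MeasureTheory.OuterMeasure.mono
  rintro l ⟨y, hy, hy'⟩
  exact ⟨y, hy, h.trans_lt hy'⟩

/-- volume of the ball of radius `r` -/
noncomputable def yBall (q : Quad n) (x : q.Vertex) (r : ℝ) : ℝ :=
  yVol q (fun y => ¬ r < (q.graph.dist x y : ℝ))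

theorem ret_lower (q : Quad n) (x : q.Vertex) (t : ℕ) (r W : ℝ) (hW : 0 < W)
    (h1 : q.escape x t r ≤ ENNReal.ofReal (1 / 2)) (h2 : yBall q x r ≤ W) :
    1 / (4 * W) ≤ yK q (2 * t) x := by
  rw [escape_eq, ENNReal.ofReal_le_ofReal_iff (by norm_num)] at h1
  have a1 := y_pos_le_esc q (fun y => r < (q.graph.dist x y : ℝ)) t x
  have a2 := y_pos_compl q (fun y => r < (q.graph.dist x y : ℝ)) t x
  have a3 := yK_lower q x t (fun y => ¬ r < (q.graph.dist x y : ℝ))
  have a4 : (1 : ℝ) ≤ (q.out x).card := by exact_mod_cast (q.out_nonempty x).card_pos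
  have a5 := yK_nonneg q (2 * t) x
  have a6 : yK q (2 * t) x * yBall q x r ≤ yK q (2 * t) x * W := by gcongr
  have a7 : (1 / 2 : ℝ) ^ 2 ≤ ((yP q)^[t] (yInd q fun y => ¬ r < (q.graph.dist x y : ℝ)) x) ^ 2 := by
    gcongr
    linarith
  rw [div_le_iff₀ (by positivity)]
  unfold yBall at a6
  nlinarith

theorem escape_lower (q : Quad n) (hn : 1 ≤ n) (R : ℝ) (hR : 0 ≤ R) (H : ResLe q R)
    (x : q.Vertex) (t : ℕ) (r W : ℝ) (h2 : yBall q x r ≤ W) :
    ENNReal.ofReal (1 - W * (R / (t + 1) + 1 / n)) ≤ q.escape x (2 * t) r := by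
  rw [escape_eq]
  refine ENNReal.ofReal_le_ofReal ?_
  have hβ : 0 ≤ R / (t + 1) + 1 / n := by positivity
  have a1 := y_pos_le_esc q (fun y => r < (q.graph.dist x y : ℝ)) (2 * t) x
  have a2 := y_pos_compl q (fun y => r < (q.graph.dist x y : ℝ)) (2 * t) x
  have a3 := y_set_upper q t _ hβ (fun y => yK_upper q hn R hR H y t) x
    (fun y => ¬ r < (q.graph.dist x y : ℝ))
  have a4 : yBall q x r * (R / (t + 1) + 1 / n) ≤ W * (R / (t + 1) + 1 / n) := by gcongr
  unfold yBall at a4
  linarith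

/-! ### the lazy walk -/

/-- the transition operator of the lazy walk -/
noncomputable def yL (q : Quad n) (u : q.Vertex → ℝ) (x : q.Vertex) : ℝ := (u x + yP q u x) / 2

theorem y_step_outer (q : Quad n) (x : q.Vertex) (F : q.Vertex → PMF q.Vertex)
    (S : Set q.Vertex) : ((q.step x).bind F).toOuterMeasure S = ∑ d ∈ q.out x,
      ((q.out x).card : ℝ≥0∞)⁻¹ * (F (q.head d)).toOuterMeasure S := by
  classical
  rw [Quad.step, PMF.bind_map, PMF.toOuterMeasure_bind_apply, tsum_fintype]
  rw [← Finset.sum_subset (Finset.subset_univ (q.out x))]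
  · refine Finset.sum_congr rfl (fun d hd => ?_)
    rw [PMF.uniformOfFinset_apply_of_mem _ hd]
    rfl
  · intro d _ hd
    rw [PMF.uniformOfFinset_apply_of_notMem _ hd, zero_mul]

theorem lazy_eq (q : Quad n) (S : Set q.Vertex) (T : ℕ) :
    ∀ x, ((q.lazy T x).toOuterMeasure S).toReal = (yL q)^[T] (yInd q (· ∈ S)) x := by
  classical
  induction T with
  | zero =>
    intro x
    rw [Quad.lazy, PMF.toOuterMeasure_pure_apply, Function.iterate_zero_apply, yInd]
    split_ifs <;> simp
  | succ T ih =>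
    intro x
    have hne : ∀ p : PMF q.Vertex, p.toOuterMeasure S ≠ ⊤ := fun p =>
      ne_top_of_le_ne_top ENNReal.one_ne_top (hit_outer_le_one _ _)
    rw [Quad.lazy, Quad.lazyStep, PMF.bind_bind, PMF.toOuterMeasure_bind_apply, tsum_fintype,
      Fintype.sum_bool, Function.iterate_succ_apply', yL, yP]
    simp only [PMF.uniformOfFintype_apply, Fintype.card_bool, if_true, PMF.pure_bind,
      Bool.false_eq_true, if_false]
    rw [← mul_add, ENNReal.toReal_mul, ENNReal.toReal_add (hne _) (hne _), y_step_outer,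
      ← mul_sum, ENNReal.toReal_mul, ENNReal.toReal_sum fun d _ => hne _]
    simp only [ih, ENNReal.toReal_inv, ENNReal.toReal_natCast]
    push_cast
    ring

theorem yL_esc (q : Quad n) (S : q.Vertex → Prop) (T : ℕ) :
    ∀ x, 1 - yEsc q S T x ≤ (yL q)^[T] (yInd q fun z => ¬ S z) x := by
  induction T with
  | zero =>
    intro x
    rw [yEsc_zero, Function.iterate_zero_apply]
    have := congrFun (yInd_compl q S) x
    linarith
  | succ T ih =>
    intro x
    rw [Function.iterate_succ_apply', yL]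
    have a1 := ih x
    have a2 := yEsc_step q S T x
    have a3 := yEsc_succ_ge q S T x
    have a4 := yP_mono q (u := fun _ => 1)
      (v := fun z => yEsc q S T z + (yL q)^[T] (yInd q fun z => ¬ S z) z)
      (fun z => by linarith [ih z]) x
    rw [yP_const, yP_add] at a4
    linarith

theorem yI_L (q : Quad n) (u v : q.Vertex → ℝ) :
    yI q (yL q u) v = (yI q u v + yI q (yP q u) v) / 2 := by
  unfold yI yL
  rw [← sum_add_distrib, sum_div]
  exact sum_congr rfl fun d _ => by ring

theorem yL_mean (q : Quad n) (u : q.Vertex → ℝ) :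
    yI q (yL q u) (fun _ => 1) = yI q u (fun _ => 1) := by
  rw [yI_L, yI_symm, yP_const]
  ring

theorem y_poincare (q : Quad n) (hn : 1 ≤ n) (R : ℝ) (H : ResLe q R) (h : q.Vertex → ℝ)
    (h0 : yI q h (fun _ => 1) = 0) : yI q h h ≤ 2 * n * R * (yI q h h - yI q (yP q h) h) := by
  have hn' : (0 : ℝ) < n := by exact_mod_cast hn
  have a1 : ∑ d, ∑ d', (h (q.tail d) - h (q.tail d')) ^ 2
      ≤ ∑ _d : Fin (4 * n), ∑ _d' : Fin (4 * n), R * (yI q h h - yI q (yP q h) h) :=
    sum_le_sum fun d _ => sum_le_sum fun d' _ => by rw [← y_energy]; exact H h _ _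
  have a0 : ∑ d, h (q.tail d) = 0 := by simpa [yI] using h0
  have a2 : ∑ d, ∑ d', (h (q.tail d) - h (q.tail d')) ^ 2 = 8 * n * yI q h h := by
    have e : ∀ d, ∑ d', (h (q.tail d) - h (q.tail d')) ^ 2
        = 4 * n * (h (q.tail d) * h (q.tail d)) + yI q h h := by
      intro d
      have : ∀ d', (h (q.tail d) - h (q.tail d')) ^ 2 = h (q.tail d) * h (q.tail d)
          - 2 * h (q.tail d) * h (q.tail d') + h (q.tail d') * h (q.tail d') := fun d' => by ring
      simp only [this, sum_add_distrib, sum_sub_distrib, ← mul_sum, a0, sum_const, card_univ,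
        Fintype.card_fin, nsmul_eq_mul, yI]
      push_cast
      ring
    simp only [e, sum_add_distrib, ← mul_sum, sum_const, card_univ, Fintype.card_fin,
      nsmul_eq_mul]
    push_cast
    unfold yI
    ring
  rw [a2, sum_const, sum_const, card_univ, Fintype.card_fin, nsmul_eq_mul, nsmul_eq_mul] at a1
  push_cast at a1
  refine le_of_mul_le_mul_left ?_ (show (0 : ℝ) < 8 * n by positivity)
  nlinarith

theorem yL_decay (q : Quad n) (hn : 1 ≤ n) (R : ℝ) (hR : 1 ≤ R) (H : ResLe q R) (T : ℕ)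
    (h : q.Vertex → ℝ) (h0 : yI q h (fun _ => 1) = 0) :
    yI q ((yL q)^[T] h) (fun _ => 1) = 0 ∧
    yI q ((yL q)^[T] h) ((yL q)^[T] h) ≤ (1 - 1 / (4 * n * R)) ^ T * yI q h h := by
  have hn' : (1 : ℝ) ≤ n := by exact_mod_cast hn
  have hγ : 0 ≤ 1 - 1 / (4 * n * R) := by
    rw [sub_nonneg, div_le_one (by positivity)]
    nlinarith
  induction T with
  | zero => exact ⟨h0, by simp⟩
  | succ T ih =>
    rw [Function.iterate_succ_apply']
    refine ⟨by rw [yL_mean, ih.1], ?_⟩
    set g := (yL q)^[T] h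
    have a1 := y_poincare q hn R H g ih.1
    have a2 := yI_contract q g
    have a3 : yI q (yL q g) (yL q g)
        = (yI q g g + 2 * yI q (yP q g) g + yI q (yP q g) (yP q g)) / 4 := by
      rw [yI_L, yI_comm q g, yI_L, yI_comm q (yP q g) (yL q g), yI_L, yI_comm q g (yP q g)]
      ring
    have a4 : yI q g g / (4 * n * R) ≤ (yI q g g - yI q (yP q g) g) / 2 := by
      rw [div_le_div_iff₀ (by positivity) (by positivity)]
      nlinarith
    have a5 : yI q (yL q g) (yL q g) ≤ (1 - 1 / (4 * n * R)) * yI q g g := by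
      rw [a3, sub_mul, one_mul, one_div_mul_eq_div]
      linarith
    rw [pow_succ', mul_assoc]
    exact a5.trans (mul_le_mul_of_nonneg_left ih.2 hγ)

theorem yL_affine (q : Quad n) (T : ℕ) (u : q.Vertex → ℝ) (c : ℝ) :
    (yL q)^[T] (fun y => u y - c) = fun y => (yL q)^[T] u y - c := by
  induction T with
  | zero => rfl
  | succ T ih =>
    simp only [Function.iterate_succ_apply', ih]
    funext y
    have h := yP_add q ((yL q)^[T] u) (fun _ => -c)
    rw [yP_const] at h
    have h2 := congrFun h y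
    simp only [← sub_eq_add_neg] at h2
    simp only [yL, h2]
    ring

theorem lazy_unif (q : Quad n) (hn : 1 ≤ n) (R : ℝ) (hR : 1 ≤ R) (H : ResLe q R) (T : ℕ)
    (x y : q.Vertex) : (((q.lazy T x) y).toReal - q.stat y) ^ 2
      ≤ (1 - 1 / (4 * n * R)) ^ T * (q.out y).card := by
  have hn' : (1 : ℝ) ≤ n := by exact_mod_cast hn
  have hγ : 0 ≤ 1 - 1 / (4 * n * R) := by
    rw [sub_nonneg, div_le_one (by positivity)]
    nlinarith
  have e1 : ((q.lazy T x) y).toReal = (yL q)^[T] (yInd q (· = y)) x := by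
    rw [← PMF.toOuterMeasure_apply_singleton, lazy_eq]
    rfl
  set h : q.Vertex → ℝ := fun z => yInd q (· = y) z - q.stat y with hh
  have e2 : ∀ v, yI q h v = (q.out y).card * v y - q.stat y * ∑ d, v (q.tail d) := fun v => by
    rw [← yI_point, mul_sum]
    unfold yI
    rw [← sum_sub_distrib]
    exact sum_congr rfl fun d _ => by rw [hh]; ring
  have h0 : yI q h (fun _ => 1) = 0 := by
    rw [e2, sum_const, card_univ, Fintype.card_fin, nsmul_eq_mul, Quad.stat]
    push_cast
    field_simp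
    ring
  have hy := hit_card_pos q y
  have h1 : yI q h h ≤ (q.out y).card := by
    have a0 : ∑ d, h (q.tail d) = 0 := by simpa [yI] using h0
    rw [e2, a0, mul_zero, sub_zero, hh]
    have : 0 ≤ q.stat y := by unfold Quad.stat; positivity
    simp only [yInd, if_true]
    nlinarith
  have h2 := (yL_decay q hn R hR H T h h0).2
  have h3 := yI_cs q (yInd q (· = x)) ((yL q)^[T] h)
  rw [yI_point, yI_point, yInd, if_pos rfl, mul_one] at h3
  have hx : (1 : ℝ) ≤ (q.out x).card := by exact_mod_cast (q.out_nonempty x).card_pos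
  have e3 : (yL q)^[T] h x = ((q.lazy T x) y).toReal - q.stat y := by
    rw [hh, yL_affine, e1]
  rw [← e3]
  have h4 : (1 - 1 / (4 * n * R)) ^ T * yI q h h ≤ (1 - 1 / (4 * n * R)) ^ T * (q.out y).card := by
    gcongr
  have h5 : ((q.out x).card : ℝ) * ((yL q)^[T] h x) ^ 2
      ≤ yI q ((yL q)^[T] h) ((yL q)^[T] h) := by
    refine le_of_mul_le_mul_left ?_ (hit_card_pos q x)
    nlinarith
  nlinarith [sq_nonneg ((yL q)^[T] h x)]

end Pool.Agent.P.MP_7a6434d8_pr
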