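import Pool.Agent.P.MP_7a6434d8_pr.Defs2
import Pool.Agent.P.MP_7a6434d8_pr.YWalk

/-! Definitions for the estimates that are uniform in the size of the map. -/

namespace Pool.Agent.P.MP_7a6434d8_pr

open Mp Finset
open scoped ENNReal

/-- sum of `φ` over all subtrees -/
def subSum (φ : Mp → ℝ) : Mp → ℝ
  | pt => φ pt
  | face t => φ (face t) + subSum φ t
  | bridge a b => φ (bridge a b) + subSum φ a + subSum φ b

open Classical in
/-- total volume of the subtrees satisfying `E` -/
noncomputable def badVol (E : Mp → Prop) (t : Mp) : ℝ :=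
  subSum (fun s => if E s then (edges s : ℝ) + 1 else 0) t

/-- cost of the part of the tree above `m` edges: nodes and small discarded subtrees -/
def skel (m m1 : ℕ) : Mp → ℕ
  | pt => 0
  | face t => if m < edges t + 1 then skel m m1 t + 1 else 0
  | bridge a b => if m < edges a + edges b + 1 then
      skel m m1 a + skel m m1 b + 1 + disc m1 a + disc m1 b else 0

/-- maximal cost along a branch -/
def pc2 (m1 : ℕ) : Mp → ℕ
  | pt => 0
  | face t => pc2 m1 t + 1
  | bridge a b => max (pc2 m1 a + disc m1 b) (pc2 m1 b + disc m1 a) + 1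

open Classical in
/-- number of darts starting where `f` does not vanish -/
noncomputable def wsupp (t : Mp) (f : V t → ℝ) : ℝ := ∑ x, if f x ≠ 0 then dg t x else 0

/-- separating cut-off function of total cost at most `a` -/
def Sep2 (t : Mp) (r : ℕ) (T a : ℝ) : Prop :=
  ∃ f : V t → ℝ, (∀ x, 0 ≤ f x ∧ f x ≤ 1) ∧ (∀ p, p ≤ 2 * per t → f (bv t p) = 1) ∧
    wsupp t f + T * energy t f ≤ a ∧ ∀ x y, Conn t (fun z => f z ≠ 1) x y → Within t r x y

open Classical in
/-- number of darts starting in the ball of radius `r` around `x` -/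
noncomputable def ballVol (t : Mp) (r : ℕ) (x : V t) : ℝ :=
  ∑ y, if Within t r x y then dg t y else 0

/-- the ball of radius `r` around `x` avoids the boundary and is well behaved -/
def UG (t : Mp) (r : ℕ) (W ρ Δ : ℝ) (x : V t) : Prop :=
  (∀ p, p ≤ 2 * per t → ¬ Within t r x (bv t p)) ∧ ballVol t r x ≤ W ∧ dg t x ≤ Δ ∧
    ∀ f : V t → ℝ, (∀ z, ¬ Within t r x z → f z = 0) → ∀ z, f z ^ 2 ≤ ρ * energy t f

open Classical in
/-- number of darts starting at a vertex that is not `UG` -/
noncomputable def nug (t : Mp) (r : ℕ) (W ρ Δ : ℝ) : ℝ :=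
  ∑ x, if UG t r W ρ Δ x then 0 else dg t x

/-- volume, resistance and degree bounds for the ball of radius `r` around `x` -/
def LG {n : ℕ} (q : Quad n) (x : q.Vertex) (r : ℕ) (W ρ Δ : ℝ) : Prop :=
  yBall q x r ≤ W ∧ ((q.out x).card : ℝ) ≤ Δ ∧
    ∀ f : q.Vertex → ℝ, (∀ z, r < q.graph.dist x z → f z = 0) →
      ∀ z, f z ^ 2 ≤ ρ * ((∑ d, (f (q.tail d) - f (q.head d)) ^ 2) / 2)

end Pool.Agent.P.MP_7a6434d8_pr
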