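import Pool.Agent.P.MP_7a6434d8_pr.Quad2

/-! Return probabilities of simple random walk and the lazy random walk on a quadrangulation. -/

namespace Pool.Agent.P.MP_7a6434d8_pr

open scoped ENNReal

namespace Quad

variable {n : ℕ}

/-- probability that simple random walk started at `x` is at `x` at time `T` -/
noncomputable def ret (q : Quad n) (T : ℕ) (x : q.Vertex) : ℝ≥0∞ :=
  (q.walk T x).toOuterMeasure {l | l[T]? = some x}

/-- one step of the lazy walk: stay with probability one half, otherwise make a step of simple
random walk -/
noncomputable def lazyStep (q : Quad n) (x : q.Vertex) : PMF q.Vertex :=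
  (PMF.uniformOfFintype Bool).bind (fun b => if b then PMF.pure x else q.step x)

/-- law of the position at time `T` of the lazy walk started at `x` -/
noncomputable def lazy (q : Quad n) : ℕ → q.Vertex → PMF q.Vertex
  | 0, x => PMF.pure x
  | T + 1, x => (q.lazyStep x).bind (lazy q T)

/-- stationary probability of a vertex: its degree divided by the number of darts -/
noncomputable def stat (q : Quad n) (y : q.Vertex) : ℝ := ((q.out y).card : ℝ) / (4 * n)

end Quad

end Pool.Agent.P.MP_7a6434d8_pr
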