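import Pool.Agent.P.MP_7a6434d8_pr.Inf
import Pool.Agent.P.MP_7a6434d8_pr.Quad3

/-! Auxiliary definitions for the passage to local limits. -/

namespace Pool.Agent.P.MP_7a6434d8_pr

open scoped ENNReal

namespace InfQuad

/-- law of the list of positions `X_0, ..., X_T` of simple random walk started at `x` -/
noncomputable def walk (M : InfQuad) : ℕ → M.Vertex → PMF (List M.Vertex)
  | 0, x => PMF.pure [x]
  | T + 1, x => (M.step x).bind (fun y => (walk M T y).map (fun l => x :: l))

/-- distance to the root vertex -/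
noncomputable def ht (M : InfQuad) (x : M.Vertex) : ℕ := M.graph.dist (M.tail M.root) x

/-- probability of leaving the ball of radius `r` around the root vertex up to time `T` -/
noncomputable def escape (M : InfQuad) (T : ℕ) (r : ℝ) : ℝ≥0∞ :=
  (M.walk T (M.tail M.root)).toOuterMeasure {l | ∃ y ∈ l, r < (M.ht y : ℝ)}

/-- probability of being at the root vertex at time `T` -/
noncomputable def ret (M : InfQuad) (T : ℕ) : ℝ≥0∞ :=
  (M.walk T (M.tail M.root)).toOuterMeasure {l | l[T]? = some (M.tail M.root)}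

end InfQuad

/-- `ψ` identifies the darts starting in the ball of radius `T` of `M` with darts of `q` -/
structure LocIso (M : InfQuad) {n : ℕ} (q : Quad n) (T : ℕ) (ψ : ℕ → Fin (4 * n)) : Prop where
  root : ψ M.root = q.root
  inj : ∀ d d', M.ht (M.tail d) ≤ T → M.ht (M.tail d') ≤ T → ψ d = ψ d' → d = d'
  sig : ∀ d, M.ht (M.tail d) ≤ T → ψ (M.φ (M.α d)) = q.φ (q.α (ψ d))
  alp : ∀ d, M.ht (M.tail d) < T → ψ (M.α d) = q.α (ψ d)

/-- `Ψ` identifies the vertices of the ball of radius `T` of `M` with vertices of `q` -/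
structure VIso (M : InfQuad) {n : ℕ} (q : Quad n) (T : ℕ) (Ψ : M.Vertex → q.Vertex) : Prop where
  root : Ψ (M.tail M.root) = q.tail q.root
  inj : ∀ x y, M.ht x ≤ T → M.ht y ≤ T → Ψ x = Ψ y → x = y
  step : ∀ x, M.ht x < T → (M.step x).map Ψ = q.step (Ψ x)
  dist : ∀ x, M.ht x ≤ T → q.graph.dist (q.tail q.root) (Ψ x) = M.ht x

/-- the word of `(φ * α) ^ j` -/
def sigw : ℕ → List Bool
  | 0 => []
  | j + 1 => false :: true :: sigw j

/-- the relation on words defined by a finite map -/
def code {n : ℕ} (q : Quad n) : List Bool × List Bool → Bool :=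
  fun p => decide (act q.α q.φ q.root p.1 = act q.α q.φ q.root p.2)

/-- relations on words that come from an infinite map -/
structure GoodRel (ω : List Bool × List Bool → Bool) : Prop where
  refl : ∀ w, ω (w, w) = true
  symm : ∀ w w', ω (w, w') = true → ω (w', w) = true
  trans : ∀ w w' w'', ω (w, w') = true → ω (w', w'') = true → ω (w, w'') = true
  cons : ∀ b w w', ω (b :: w, b :: w') = ω (w, w')
  aa : ∀ w, ω (true :: true :: w, w) = true
  ane : ∀ w, ω (true :: w, w) = false
  f4 : ∀ w, ω (false :: false :: false :: false :: w, w) = true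
  f2 : ∀ w, ω (false :: false :: w, w) = false
  inf : ∀ k : ℕ, ∃ w : List Bool, w.length ≤ k + 1 ∧
    ∀ w' : List Bool, w'.length ≤ k → ω (w, w') = false
  loc : ∀ w, ∃ j, 0 < j ∧ ω (sigw j ++ w, w) = true

end Pool.Agent.P.MP_7a6434d8_pr
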