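import Pool.Agent.P.MP_7a6434d8_pr.LinkDefs

namespace Pool.Agent.P.MP_7a6434d8_pr

open Mp Finset
open scoped ENNReal

/-- functions invariant under a permutation -/
def eulerInv {D : Type} (π : Equiv.Perm D) : Submodule ℝ (D → ℝ) where
  carrier := {F | ∀ d, F (π d) = F d}
  add_mem' := by
    intro a b ha hb d
    simp only [Pi.add_apply]
    rw [ha d, hb d]
  zero_mem' := by intro d; rfl
  smul_mem' := by
    intro c a ha d
    simp only [Pi.smul_apply]
    rw [ha d]

/-- antisymmetric functions -/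
def eulerAnti {D : Type} (α : Equiv.Perm D) : Submodule ℝ (D → ℝ) where
  carrier := {ω | ∀ d, ω (α d) = -ω d}
  add_mem' := by
    intro a b ha hb d
    simp only [Pi.add_apply]
    rw [ha d, hb d]; ring
  zero_mem' := by intro d; simp
  smul_mem' := by
    intro c a ha d
    simp only [Pi.smul_apply, smul_eq_mul]
    rw [ha d]; ring

/-- functions orthogonal to all invariant functions -/
def eulerOrth {D : Type} [Fintype D] (φ : Equiv.Perm D) : Submodule ℝ (D → ℝ) where
  carrier := {ω | ∀ g : D → ℝ, (∀ d, g (φ d) = g d) → ∑ d, ω d * g d = 0}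
  add_mem' := by
    intro a b ha hb g hg
    simp only [Pi.add_apply, add_mul, Finset.sum_add_distrib]
    rw [ha g hg, hb g hg, add_zero]
  zero_mem' := by intro g _; simp
  smul_mem' := by
    intro c a ha g hg
    simp only [Pi.smul_apply, smul_eq_mul, mul_assoc]
    rw [← Finset.mul_sum, ha g hg, mul_zero]

/-- the difference along an edge -/
def eulerGrad {D : Type} (α : Equiv.Perm D) : (D → ℝ) →ₗ[ℝ] (D → ℝ) where
  toFun F := fun d => F (α d) - F d
  map_add' a b := by funext d; simp only [Pi.add_apply]; ring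
  map_smul' c a := by funext d; simp only [Pi.smul_apply, smul_eq_mul, RingHom.id_apply]; ring

theorem euler_card_le_finrank {D : Type} [Fintype D] (π : Equiv.Perm D) :
    Nat.card (Quotient (Equiv.Perm.SameCycle.setoid π)) ≤ Module.finrank ℝ (eulerInv π) := by
  classical
  let Q := Quotient (Equiv.Perm.SameCycle.setoid π)
  let _ : Fintype Q := Fintype.ofFinite Q
  let L : (Q → ℝ) →ₗ[ℝ] (eulerInv π) :=
    { toFun := fun h => ⟨fun d => h (Quotient.mk _ d), fun d => by
        have : (Quotient.mk (Equiv.Perm.SameCycle.setoid π) (π d) : Q) = Quotient.mk _ d :=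
          Quotient.sound (Equiv.Perm.sameCycle_apply_left.2 (Equiv.Perm.SameCycle.refl π d))
        show h _ = h _
        rw [this]⟩
      map_add' := fun a b => rfl
      map_smul' := fun c a => rfl }
  have hL : Function.Injective L := by
    intro a b hab
    funext x
    obtain ⟨d, rfl⟩ := Quotient.exists_rep x
    exact congrFun (congrArg Subtype.val hab) d
  have h1 := LinearMap.finrank_le_finrank_of_injective hL
  rw [Module.finrank_fintype_fun_eq_card] at h1
  rw [Nat.card_eq_fintype_card]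
  exact h1

theorem euler_anti_finrank {m : ℕ} (α : Equiv.Perm (Fin m)) (h1 : ∀ d, α (α d) = d)
    (h2 : ∀ d, α d ≠ d) : 2 * Module.finrank ℝ (eulerAnti α) ≤ m := by
  classical
  let s : Fin m → ℝ := fun d => if d < α d then 1 else -1
  have hs : ∀ d, s (α d) = -s d := by
    intro d
    simp only [s, h1]
    rcases lt_or_gt_of_ne (h2 d) with h | h
    · rw [if_pos h, if_neg (not_lt.2 h.le)]; simp
    · rw [if_neg (not_lt.2 h.le), if_pos h]
  have hs0 : ∀ d, s d ≠ 0 := by
    intro d
    simp only [s]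
    split_ifs <;> norm_num
  let L : (eulerAnti α × eulerAnti α) →ₗ[ℝ] (Fin m → ℝ) :=
    { toFun := fun p => fun d => p.1.1 d + s d * p.2.1 d
      map_add' := fun a b => by
        funext d
        simp only [Prod.fst_add, Prod.snd_add, Submodule.coe_add, Pi.add_apply]
        ring
      map_smul' := fun c a => by
        funext d
        simp only [Prod.smul_fst, Prod.smul_snd, Submodule.coe_smul, Pi.smul_apply, smul_eq_mul,
          RingHom.id_apply]
        ring }
  have hL : Function.Injective L := by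
    rw [injective_iff_map_eq_zero]
    intro p hp
    have e1 : ∀ d, p.1.1 d + s d * p.2.1 d = 0 := fun d => congrFun hp d
    have e2 : ∀ d, p.1.1 d = 0 ∧ p.2.1 d = 0 := by
      intro d
      have a1 := e1 d
      have a2 := e1 (α d)
      have b1 : p.1.1 (α d) = -p.1.1 d := p.1.2 d
      have b2 : p.2.1 (α d) = -p.2.1 d := p.2.2 d
      rw [b1, b2, hs d] at a2
      have c1 : p.1.1 d = 0 := by linarith
      have c2 : s d * p.2.1 d = 0 := by linarith
      exact ⟨c1, (mul_eq_zero.1 c2).resolve_left (hs0 d)⟩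
    ext d
    · exact (e2 d).1
    · exact (e2 d).2
  have h3 := LinearMap.finrank_le_finrank_of_injective hL
  rw [Module.finrank_prod, Module.finrank_fintype_fun_eq_card, Fintype.card_fin] at h3
  omega

theorem euler_map_finrank {D : Type} [Fintype D] (α : Equiv.Perm D) (r : D)
    (P : Submodule ℝ (D → ℝ))
    (hP : ∀ F ∈ P, (∀ d, F (α d) = F d) → ∀ d, F d = F r) :
    Module.finrank ℝ P ≤ Module.finrank ℝ (P.map (eulerGrad α)) + 1 := by
  have h1 := LinearMap.finrank_range_add_finrank_ker ((eulerGrad α).domRestrict P)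
  rw [LinearMap.range_domRestrict] at h1
  let L : (LinearMap.ker ((eulerGrad α).domRestrict P)) →ₗ[ℝ] ℝ :=
    { toFun := fun F => F.1.1 r
      map_add' := fun a b => rfl
      map_smul' := fun c a => rfl }
  have hL : Function.Injective L := by
    rw [injective_iff_map_eq_zero]
    intro F hF
    have hk : ∀ d, F.1.1 (α d) - F.1.1 d = 0 := fun d => congrFun (LinearMap.mem_ker.1 F.2) d
    have hc := hP F.1.1 F.1.2 (fun d => sub_eq_zero.1 (hk d))
    ext d
    have : F.1.1 r = 0 := hF
    rw [hc d, this]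
    rfl
  have h2 := LinearMap.finrank_le_finrank_of_injective hL
  rw [Module.finrank_self] at h2
  omega

theorem euler_const {n : ℕ} (q : Quad n) (F : Fin (4 * n) → ℝ) (h1 : ∀ d, F (q.α d) = F d)
    (h2 : ∀ d, F (q.φ d) = F d) (d d' : Fin (4 * n)) : F d = F d' := by
  have h := q.connected d d'
  induction h with
  | refl => rfl
  | tail _ hbc ih =>
    rcases hbc with rfl | rfl
    · rw [h1, ih]
    · rw [h2, ih]

theorem euler_faces {n : ℕ} (q : Quad n) :
    n ≤ Nat.card (Quotient (Equiv.Perm.SameCycle.setoid q.φ)) := by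
  classical
  let Q := Quotient (Equiv.Perm.SameCycle.setoid q.φ)
  have h4 : q.φ ^ 4 = 1 := by
    ext d
    simp only [Equiv.Perm.coe_one, id]
    rw [(q.φ_four d).1]
  let f : Q × Fin 4 → Fin (4 * n) := fun p => (q.φ ^ (p.2 : ℕ)) p.1.out
  have hf : Function.Surjective f := by
    intro d
    have hs : Equiv.Perm.SameCycle q.φ
        (Quotient.out (Quotient.mk (Equiv.Perm.SameCycle.setoid q.φ) d)) d :=
      Quotient.mk_out (s := Equiv.Perm.SameCycle.setoid q.φ) d
    obtain ⟨i, -, hi⟩ := hs.exists_pow_eq'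
    refine ⟨(Quotient.mk _ d, ⟨i % 4, Nat.mod_lt _ (by norm_num)⟩), ?_⟩
    show (q.φ ^ (i % 4)) _ = d
    rw [← pow_eq_pow_mod i h4]
    exact hi
  have h := Nat.card_le_card_of_surjective f hf
  rw [Nat.card_prod, Nat.card_eq_fintype_card (α := Fin (4 * n)), Fintype.card_fin,
    Nat.card_eq_fintype_card (α := Fin 4), Fintype.card_fin] at h
  show n ≤ Nat.card Q
  omega

theorem euler_sum_anti {D : Type} [Fintype D] (α : Equiv.Perm D)
    (ω g : D → ℝ) (hω : ∀ d, ω (α d) = -ω d) :
    ∑ d, ω d * g (α d) = -∑ d, ω (α d) * g (α d) := by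
  rw [← Finset.sum_neg_distrib]
  refine Finset.sum_congr rfl fun d _ => ?_
  rw [hω d]; ring

theorem euler_planar {n : ℕ} (q : Quad n) (ψ : Fin (4 * n) → ℝ)
    (hψ : ∀ d, ψ (q.φ (q.α d)) - ψ (q.α d) = -(ψ (q.φ d) - ψ d)) :
    ∃ F : Fin (4 * n) → ℝ, (∀ d, F (q.φ (q.α d)) = F d) ∧
      ∀ d, ψ (q.φ d) - ψ d = F (q.α d) - F d := by
  classical
  set G := (eulerInv (q.φ * q.α)).map (eulerGrad q.α) with hG
  set C := (eulerInv q.φ).map (eulerGrad q.α) with hC
  set W := eulerAnti q.α ⊓ eulerOrth q.φ with hW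
  have hanti : ∀ F : Fin (4 * n) → ℝ, eulerGrad q.α F ∈ eulerAnti q.α := by
    intro F d
    show F (q.α (q.α d)) - F (q.α d) = -(F (q.α d) - F d)
    rw [q.α_α]; ring
  have hGW : G ≤ W := by
    rintro _ ⟨F, hF, rfl⟩
    refine ⟨hanti F, fun g hg => ?_⟩
    have hF' : ∀ d, F (q.φ (q.α d)) = F d := hF
    show ∑ d, (F (q.α d) - F d) * g d = 0
    have e1 : ∑ d, F (q.φ d) * g (q.φ d) = ∑ d, F d * g d :=
      Equiv.sum_comp q.φ (fun d => F d * g d)
    have e2 : ∀ d, F (q.φ d) = F (q.α d) := by
      intro d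
      have := hF' (q.α d)
      rwa [q.α_α] at this
    simp only [sub_mul, Finset.sum_sub_distrib]
    rw [← e1]
    simp only [e2, hg, sub_self]
  have hWC : W ⊓ C = ⊥ := by
    rw [eq_bot_iff]
    rintro ω ⟨⟨ha, ho⟩, g, hg, rfl⟩
    have hg' : ∀ d, g (q.φ d) = g d := hg
    set ω := eulerGrad q.α g with hω
    have ha' : ∀ d, ω (q.α d) = -ω d := ha
    have e0 : ∑ d, ω d * g d = 0 := ho g hg'
    have e1 : ∑ d, ω (q.α d) * g (q.α d) = ∑ d, ω d * g d :=
      Equiv.sum_comp q.α (fun d => ω d * g d)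
    have e2 := euler_sum_anti q.α ω g ha'
    have e3 : ∑ d, ω d * ω d = 0 := by
      have : ∀ d, ω d * ω d = ω d * g (q.α d) - ω d * g d := by
        intro d
        have : ω d = g (q.α d) - g d := rfl
        rw [← mul_sub, ← this]
      simp only [this, Finset.sum_sub_distrib]
      rw [e2, e1, e0]; simp
    rw [Submodule.mem_bot]
    funext d
    have := (Finset.sum_eq_zero_iff_of_nonneg (fun d _ => mul_self_nonneg (ω d))).1 e3 d
      (Finset.mem_univ d)
    exact mul_self_eq_zero.1 this
  have hsup : W ⊔ C ≤ eulerAnti q.α := by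
    refine sup_le inf_le_left ?_
    rintro _ ⟨g, -, rfl⟩
    exact hanti g
  have d1 := Submodule.finrank_sup_add_finrank_inf_eq W C
  rw [hWC, finrank_bot] at d1
  have d2 := Submodule.finrank_mono hsup
  have d3 := euler_anti_finrank q.α q.α_α q.α_ne
  have d4 := euler_map_finrank q.α q.root (eulerInv (q.φ * q.α)) (by
    intro F hF h d
    have hF' : ∀ d, F (q.φ (q.α d)) = F d := hF
    refine euler_const q F h (fun d => ?_) d q.root
    have := hF' (q.α d)
    rw [q.α_α] at this
    rw [this, h])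
  have d5 := euler_map_finrank q.α q.root (eulerInv q.φ) (by
    intro F hF h d
    exact euler_const q F h hF d q.root)
  have d6 := euler_card_le_finrank (q.φ * q.α)
  have d7 := euler_card_le_finrank q.φ
  have d8 := euler_faces q
  have d9 := q.euler
  have hEq : G = W := Submodule.eq_of_le_of_finrank_le hGW (by
    rw [← hG] at d4
    rw [← hC] at d5
    omega)
  have hmem : (fun d => ψ (q.φ d) - ψ d) ∈ W := by
    refine ⟨hψ, fun g hg => ?_⟩
    show ∑ d, (ψ (q.φ d) - ψ d) * g d = 0
    have e1 : ∑ d, ψ (q.φ d) * g (q.φ d) = ∑ d, ψ d * g d :=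
      Equiv.sum_comp q.φ (fun d => ψ d * g d)
    simp only [sub_mul, Finset.sum_sub_distrib]
    rw [← e1]
    simp only [hg, sub_self]
  rw [← hEq] at hmem
  obtain ⟨F, hF, hFe⟩ := hmem
  exact ⟨F, hF, fun d => (congrFun hFe d).symm⟩

theorem quad_good {n : ℕ} (q : Quad n) : Good q.α q.φ Finset.univ (some q.root) where
  al_mem := fun _ _ => Finset.mem_univ _
  al_al := fun d _ => q.α_α d
  al_ne := fun d _ => q.α_ne d
  ph_mem := fun _ _ => Finset.mem_univ _
  ph_inj := fun _ _ _ _ h => q.φ.injective h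
  root_none := fun h => by cases h
  root_mem := fun _ _ => Finset.mem_univ _
  quad := fun d _ => Or.inr ⟨by
      have := (q.φ_four d).1
      rwa [Equiv.Perm.coe_pow] at this, by
      have := (q.φ_four d).2
      rwa [Equiv.Perm.coe_pow] at this⟩
  conn := fun F h1 h2 d _ d' _ =>
    euler_const q F (fun d => h1 d (Finset.mem_univ d)) (fun d => h2 d (Finset.mem_univ d)) d d'
  planar := fun ψ h => by
    obtain ⟨F, h1, h2⟩ := euler_planar q ψ (fun d => h d (Finset.mem_univ d))
    exact ⟨F, fun d _ => h1 d, fun d _ => h2 d⟩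

end Pool.Agent.P.MP_7a6434d8_pr
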