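import Pool.Agent.P.MP_7a6434d8_pr.ExistB
import Pool.Agent.P.MP_7a6434d8_pr.DartA

namespace Pool.Agent.P.MP_7a6434d8_pr

open Mp Finset
open scoped ENNReal

section
variable {D : Type} {α φ : D → D} {S : Finset D} {r : D}

theorem exist_rem_of_root {y : D} (h : φ y = r) : rem α φ r y = φ (α r) := by
  unfold rem
  rw [if_pos (Or.inl h), h]

theorem exist_rem_of_rev (G : Good α φ S (some r)) {y : D} (h : φ y = α r) :
    rem α φ r y = φ r := by
  unfold rem
  rw [if_pos (Or.inr h), h, G.al_al r (G.root_mem r rfl)]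

theorem exist_rem_other {y : D} (h1 : φ y ≠ r) (h2 : φ y ≠ α r) : rem α φ r y = φ y := by
  unfold rem
  rw [if_neg (not_or.2 ⟨h1, h2⟩)]

theorem exist_ph_ne (G : Good α φ S (some r)) : φ (α r) ≠ φ r := fun h =>
  G.al_ne r (G.root_mem r rfl)
    (G.ph_inj _ (G.al_mem r (G.root_mem r rfl)) _ (G.root_mem r rfl) h)

theorem exist_rev_of_rem (G : Good α φ S (some r)) {y : D} (hy : y ∈ S) (h1 : y ≠ r)
    (h : rem α φ r y = φ r) : φ y = α r := by
  by_contra hn
  by_cases h0 : φ y = r
  · rw [exist_rem_of_root h0] at h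
    exact exist_ph_ne G h
  · rw [exist_rem_other h0 hn] at h
    exact h1 (G.ph_inj _ hy _ (G.root_mem r rfl) h)

theorem exist_root_of_rem (G : Good α φ S (some r)) {y : D} (hy : y ∈ S) (h1 : y ≠ α r)
    (h : rem α φ r y = φ (α r)) : φ y = r := by
  by_contra hn
  by_cases h0 : φ y = α r
  · rw [exist_rem_of_rev G h0] at h
    exact exist_ph_ne G h.symm
  · rw [exist_rem_other hn h0] at h
    exact h1 (G.ph_inj _ hy _ (G.al_mem r (G.root_mem r rfl)) h)

theorem exist_iter {t : Mp} {θ : Dt t → D} (E : Emb α φ t θ) (m : ℕ) (x : Dt t) :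
    θ ((ph t)^[m] x) = φ^[m] (θ x) := by
  induction m with
  | zero => rfl
  | succ m ih => rw [Function.iterate_succ_apply', Function.iterate_succ_apply', E.map_ph, ih]

open Classical in
theorem exist_face (G : Good α φ S (some r)) (t : Mp) (ht : ok t) (θ : Dt t → D)
    (E : Emb α (rem α φ r) t θ) (hS : ∀ d, d ∈ (S.erase r).erase (α r) ↔ ∃ x, θ x = d)
    (h0 : (bd t 0).map θ = some (φ (α r))) (h3 : (rem α φ r)^[3] (φ (α r)) = φ r)
    (h2 : (rem α φ r)^[2] (φ (α r)) ≠ φ (α r)) :
    ∃ t, ok t ∧ ∃ θ : Dt t → D, Emb α φ t θ ∧ (∀ d, d ∈ S ↔ ∃ x, θ x = d) ∧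
      (bd t 0).map θ = some r := by
  obtain ⟨x0, hx0, hθ0⟩ := Option.map_eq_some_iff.1 h0
  have hr : r ∈ S := G.root_mem r rfl
  have hp1 : ¬ 2 * per t ≤ 0 := fun h => by
    rw [(bd_eq_none t ht 0).2 h] at hx0
    cases hx0
  have hp2 : 2 ≤ per t := by
    by_contra hlt
    have hp : per t = 1 := by omega
    have h := bd_iter t ht 0 2 x0 hx0
    rw [hp, show (0 + 2) % (2 * 1) = 0 from rfl, hx0] at h
    apply h2
    rw [← hθ0, ← exist_iter E, ← Option.some.inj h]
  have hx3 : bd t 3 = some ((ph t)^[3] x0) := by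
    have h := bd_iter t ht 0 3 x0 hx0
    rwa [Nat.mod_eq_of_lt (by omega)] at h
  have hθ3 : θ ((ph t)^[3] x0) = φ r := by rw [exist_iter E, hθ0, h3]
  have hmem : ∀ x, θ x ≠ α r ∧ θ x ≠ r ∧ θ x ∈ S := fun x => by
    have := (hS (θ x)).2 ⟨x, rfl⟩
    simpa only [mem_erase] using this
  refine ⟨face t, ⟨ht, hp2⟩,
    (Sum.elim θ (fun c => if c then r else α r) : Dt t ⊕ Bool → D), ⟨?_, ?_, ?_⟩, ?_, rfl⟩
  · rintro (x | c) (y | c') h
    · exact congrArg Sum.inl (E.inj h)
    · cases c'
      · exact absurd h (hmem x).1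
      · exact absurd h (hmem x).2.1
    · cases c
      · exact absurd h.symm (hmem y).1
      · exact absurd h.symm (hmem y).2.1
    · cases c <;> cases c'
      · rfl
      · exact absurd h (G.al_ne r hr)
      · exact absurd h.symm (G.al_ne r hr)
      · rfl
  · rintro (x | c)
    · exact E.map_al x
    · cases c
      · exact (G.al_al r hr).symm
      · rfl
  · rintro (x | c)
    · obtain ⟨m1, m2, m3⟩ := hmem x
      have e := E.map_ph x
      show Sum.elim θ _ (if bd t 3 = some (ph t x) then Sum.inr false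
        else if bd t 0 = some (ph t x) then Sum.inr true else Sum.inl (ph t x)) = φ (θ x)
      split_ifs with c3 c0
      · rw [hx3] at c3
        rw [← Option.some.inj c3, hθ3] at e
        exact (exist_rev_of_rem G m3 m2 e.symm).symm
      · rw [hx0] at c0
        rw [← Option.some.inj c0, hθ0] at e
        exact (exist_root_of_rem G m3 m1 e.symm).symm
      · show θ (ph t x) = φ (θ x)
        rw [e]
        refine exist_rem_other (fun h => c0 ?_) (fun h => c3 ?_)
        · rw [exist_rem_of_root h, ← hθ0] at e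
          rw [hx0, E.inj e]
        · rw [exist_rem_of_rev G h, ← hθ3] at e
          rw [hx3, E.inj e]
    · cases c
      · show Sum.elim θ _ ((bd t 0).elim (Sum.inr false) Sum.inl) = φ (α r)
        rw [hx0]
        exact hθ0
      · show Sum.elim θ _ ((bd t 3).elim (Sum.inr true) Sum.inl) = φ r
        rw [hx3]
        exact hθ3
  · intro d
    constructor
    · intro hd
      by_cases e1 : d = r
      · exact ⟨Sum.inr true, e1.symm⟩
      by_cases e2 : d = α r
      · exact ⟨Sum.inr false, e2.symm⟩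
      obtain ⟨x, hx⟩ := (hS d).1 (mem_erase.2 ⟨e2, mem_erase.2 ⟨e1, hd⟩⟩)
      exact ⟨Sum.inl x, hx⟩
    · rintro ⟨x | c, rfl⟩
      · exact (hmem x).2.2
      · cases c
        · exact G.al_mem r hr
        · exact hr

open Classical in
theorem exist_bridge (G : Good α φ S (some r)) (Sa Sb : Finset D) (hd : Disjoint Sa Sb)
    (hu : Sa ∪ Sb = (S.erase r).erase (α r)) (na : ∀ d ∈ Sa, φ d ≠ α r) (nb : ∀ d ∈ Sb, φ d ≠ r)
    (a : Mp) (ha : ok a) (θa : Dt a → D) (Ea : Emb α (rem α φ r) a θa)
    (hSa : ∀ d, d ∈ Sa ↔ ∃ x, θa x = d)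
    (ra : (bd a 0).map θa = if φ (α r) = r then none else some (φ (α r)))
    (b : Mp) (hb : ok b) (θb : Dt b → D) (Eb : Emb α (rem α φ r) b θb)
    (hSb : ∀ d, d ∈ Sb ↔ ∃ x, θb x = d)
    (rb : (bd b 0).map θb = if φ r = α r then none else some (φ r)) :
    ∃ t, ok t ∧ ∃ θ : Dt t → D, Emb α φ t θ ∧ (∀ d, d ∈ S ↔ ∃ x, θ x = d) ∧
      (bd t 0).map θ = some r := by
  have hr : r ∈ S := G.root_mem r rfl
  have ma : ∀ x, θa x ∈ Sa := fun x => (hSa _).2 ⟨x, rfl⟩
  have mb : ∀ x, θb x ∈ Sb := fun x => (hSb _).2 ⟨x, rfl⟩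
  have hma : ∀ x, θa x ≠ α r ∧ θa x ≠ r ∧ θa x ∈ S := fun x => by
    have : θa x ∈ Sa ∪ Sb := mem_union_left _ (ma x)
    rw [hu] at this
    simpa only [mem_erase] using this
  have hmb : ∀ x, θb x ≠ α r ∧ θb x ≠ r ∧ θb x ∈ S := fun x => by
    have : θb x ∈ Sa ∪ Sb := mem_union_right _ (mb x)
    rw [hu] at this
    simpa only [mem_erase] using this
  have hab : ∀ x y, θa x ≠ θb y := fun x y h =>
    disjoint_left.1 hd (ma x) (h ▸ mb y)
  refine ⟨bridge a b, ⟨ha, hb⟩,
    (Sum.elim (Sum.elim θa θb) (fun c => if c then r else α r) : (Dt a ⊕ Dt b) ⊕ Bool → D),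
    ⟨?_, ?_, ?_⟩, ?_, rfl⟩
  · rintro ((x | x) | c) ((y | y) | c') h
    · exact congrArg (fun z => Sum.inl (Sum.inl z)) (Ea.inj h)
    · exact absurd h (hab x y)
    · cases c'
      · exact absurd h (hma x).1
      · exact absurd h (hma x).2.1
    · exact absurd h.symm (hab y x)
    · exact congrArg (fun z => Sum.inl (Sum.inr z)) (Eb.inj h)
    · cases c'
      · exact absurd h (hmb x).1
      · exact absurd h (hmb x).2.1
    · cases c
      · exact absurd h.symm (hma y).1
      · exact absurd h.symm (hma y).2.1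
    · cases c
      · exact absurd h.symm (hmb y).1
      · exact absurd h.symm (hmb y).2.1
    · cases c <;> cases c'
      · rfl
      · exact absurd h (G.al_ne r hr)
      · exact absurd h.symm (G.al_ne r hr)
      · rfl
  · rintro ((x | x) | c)
    · exact Ea.map_al x
    · exact Eb.map_al x
    · cases c
      · exact (G.al_al r hr).symm
      · rfl
  · rintro ((x | x) | c)
    · obtain ⟨m1, m2, m3⟩ := hma x
      have e := Ea.map_ph x
      show Sum.elim (Sum.elim θa θb) _ (if bd a 0 = some (ph a x) then Sum.inr true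
        else Sum.inl (Sum.inl (ph a x))) = φ (θa x)
      split_ifs with c0
      · rw [c0] at ra
        split_ifs at ra with c1
        · cases ra
        · have e' : θa (ph a x) = φ (α r) := Option.some.inj ra
          rw [e'] at e
          exact (exist_root_of_rem G m3 m1 e.symm).symm
      · show θa (ph a x) = φ (θa x)
        rw [e]
        refine exist_rem_other (fun h => c0 ?_) (na _ (ma x))
        rw [exist_rem_of_root h] at e
        have c1 : ¬ φ (α r) = r := fun h' =>
          m1 (G.ph_inj _ m3 _ (G.al_mem r hr) (h.trans h'.symm))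
        rw [if_neg c1] at ra
        obtain ⟨x0, hx0, hθ0⟩ := Option.map_eq_some_iff.1 ra
        rw [hx0, Ea.inj (hθ0.trans e.symm)]
    · obtain ⟨m1, m2, m3⟩ := hmb x
      have e := Eb.map_ph x
      show Sum.elim (Sum.elim θa θb) _ (if bd b 0 = some (ph b x) then Sum.inr false
        else Sum.inl (Sum.inr (ph b x))) = φ (θb x)
      split_ifs with c0
      · rw [c0] at rb
        split_ifs at rb with c1
        · cases rb
        · have e' : θb (ph b x) = φ r := Option.some.inj rb
          rw [e'] at e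
          exact (exist_rev_of_rem G m3 m2 e.symm).symm
      · show θb (ph b x) = φ (θb x)
        rw [e]
        refine exist_rem_other (nb _ (mb x)) (fun h => c0 ?_)
        rw [exist_rem_of_rev G h] at e
        have c1 : ¬ φ r = α r := fun h' => m2 (G.ph_inj _ m3 _ hr (h.trans h'.symm))
        rw [if_neg c1] at rb
        obtain ⟨x0, hx0, hθ0⟩ := Option.map_eq_some_iff.1 rb
        rw [hx0, Eb.inj (hθ0.trans e.symm)]
    · cases c
      · show Sum.elim (Sum.elim θa θb) _ ((bd a 0).elim (Sum.inr true)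
          (fun d => Sum.inl (Sum.inl d))) = φ (α r)
        cases hx : bd a 0 with
        | none =>
          rw [hx] at ra
          split_ifs at ra with c1
          · exact c1.symm
          · cases ra
        | some x0 =>
          rw [hx] at ra
          split_ifs at ra with c1
          · cases ra
          · exact Option.some.inj ra
      · show Sum.elim (Sum.elim θa θb) _ ((bd b 0).elim (Sum.inr false)
          (fun d => Sum.inl (Sum.inr d))) = φ r
        cases hx : bd b 0 with
        | none =>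
          rw [hx] at rb
          split_ifs at rb with c1
          · exact c1.symm
          · cases rb
        | some x0 =>
          rw [hx] at rb
          split_ifs at rb with c1
          · cases rb
          · exact Option.some.inj rb
  · intro d
    constructor
    · intro hd'
      by_cases e1 : d = r
      · exact ⟨Sum.inr true, e1.symm⟩
      by_cases e2 : d = α r
      · exact ⟨Sum.inr false, e2.symm⟩
      have : d ∈ Sa ∪ Sb := by
        rw [hu]
        exact mem_erase.2 ⟨e2, mem_erase.2 ⟨e1, hd'⟩⟩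
      rcases mem_union.1 this with h | h
      · obtain ⟨x, hx⟩ := (hSa d).1 h
        exact ⟨Sum.inl (Sum.inl x), hx⟩
      · obtain ⟨x, hx⟩ := (hSb d).1 h
        exact ⟨Sum.inl (Sum.inr x), hx⟩
    · rintro ⟨(x | x) | c, rfl⟩
      · exact (hma x).2.2
      · exact (hmb x).2.2
      · cases c
        · exact G.al_mem r hr
        · exact hr

end

theorem exist_aux {D : Type} (α : D → D) (n : ℕ) : ∀ (φ : D → D) (S : Finset D) (r : Option D),
    S.card < n → Good α φ S r →
    ∃ t, ok t ∧ ∃ θ : Dt t → D, Emb α φ t θ ∧ (∀ d, d ∈ S ↔ ∃ x, θ x = d) ∧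
      (bd t 0).map θ = r := by
  classical
  induction n with
  | zero => intro φ S r h; omega
  | succ n ih =>
    intro φ S r hn G
    cases r with
    | none =>
      refine ⟨pt, trivial, (Empty.elim : Empty → D), ⟨?_, ?_, ?_⟩, ?_, rfl⟩
      · intro x
        exact Empty.elim x
      · intro x
        exact Empty.elim x
      · intro x
        exact Empty.elim x
      · intro d
        rw [G.root_none rfl]
        constructor
        · intro h
          exact absurd h (notMem_empty d)
        · rintro ⟨x, -⟩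
          exact Empty.elim x
    | some r =>
      have hr : r ∈ S := G.root_mem r rfl
      have hc : ((S.erase r).erase (α r)).card < n := by
        have h1 := card_erase_le (s := S.erase r) (a := α r)
        have h2 := card_erase_lt_of_mem hr
        omega
      by_cases h : ∃ k, φ^[k] r = α r
      · obtain ⟨Sa, Sb, hd, hu, Ga, Gb, na, nb⟩ := good_bridge G h
        have ca : Sa.card < n := lt_of_le_of_lt (card_le_card (hu ▸ subset_union_left)) hc
        have cb : Sb.card < n := lt_of_le_of_lt (card_le_card (hu ▸ subset_union_right)) hc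
        obtain ⟨a, ha, θa, Ea, hSa, ra⟩ := ih _ _ _ ca Ga
        obtain ⟨b, hb, θb, Eb, hSb, rb⟩ := ih _ _ _ cb Gb
        exact exist_bridge G Sa Sb hd hu na nb a ha θa Ea hSa ra b hb θb Eb hSb rb
      · obtain ⟨G', h3, h2, -, -⟩ := good_face G h
        obtain ⟨t, ht, θ, E, hS, h0⟩ := ih _ _ _ hc G'
        exact exist_face G t ht θ E hS h0 h3 h2

theorem exists_real {D : Type} (α φ : D → D) (S : Finset D) (r : Option D) (G : Good α φ S r) :
    ∃ t, ok t ∧ ∃ θ : Dt t → D, Emb α φ t θ ∧ (∀ d, d ∈ S ↔ ∃ x, θ x = d) ∧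
      (bd t 0).map θ = r :=
  exist_aux α (S.card + 1) φ S r (Nat.lt_succ_self _) G

end Pool.Agent.P.MP_7a6434d8_pr
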