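import Pool.Agent.P.MP_7a6434d8_pr.Defs

namespace Pool.Agent.P.MP_7a6434d8_pr

open Mp Finset
open scoped ENNReal

theorem exista_even {D : Type} (S : Finset D) (g : D → D) (h1 : ∀ d ∈ S, g d ∈ S)
    (h2 : ∀ d ∈ S, g (g d) = d) (h3 : ∀ d ∈ S, g d ≠ d) : Even S.card := by
  have h : ∑ _x ∈ S, (1 : ZMod 2) = 0 :=
    Finset.sum_involution (fun a _ => g a) (fun _ _ => by decide) (fun a ha _ => h3 a ha)
      (fun a ha => h1 a ha) (fun a ha => h2 a ha)
  rw [Finset.sum_const, nsmul_eq_mul, mul_one] at h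
  exact ZMod.natCast_eq_zero_iff_even.1 h

theorem exista_iter_mem {D : Type} {φ : D → D} {S : Finset D} (hm : ∀ d ∈ S, φ d ∈ S)
    (x : D) (hx : x ∈ S) (k : ℕ) : φ^[k] x ∈ S := by
  induction k with
  | zero => exact hx
  | succ k ih => rw [Function.iterate_succ_apply']; exact hm _ ih

theorem good_ph_ne {D : Type} {α φ : D → D} {S : Finset D} {r : Option D} (G : Good α φ S r)
    (d : D) (hd : d ∈ S) : φ d ≠ d := by
  classical
  intro hfix
  have hit : ∀ k, φ^[k] d = d := fun k => Function.iterate_fixed hfix k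
  have hroot : r = some d := by
    rcases G.quad d hd with ⟨x, k, hx, hk⟩ | ⟨_, h2⟩
    · have hxS : x ∈ S := G.root_mem x hx
      have : ∀ k, φ^[k] x = d → x = d := by
        intro k
        induction k with
        | zero => exact fun h => h
        | succ k ih =>
          intro h
          rw [Function.iterate_succ_apply'] at h
          exact ih (G.ph_inj _ (exista_iter_mem G.ph_mem x hxS k) _ hd (h.trans hfix.symm))
      rw [hx, this k hk]
    · exact absurd (hit 2) h2
  have hq : ∀ e ∈ S.erase d, φ^[4] e = e ∧ φ^[2] e ≠ e := by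
    intro e he
    rw [Finset.mem_erase] at he
    rcases G.quad e he.2 with ⟨x, k, hx, hk⟩ | h
    · rw [hroot] at hx
      cases hx
      exact absurd (hk.symm.trans (hit k)) he.1
    · exact h
  have e1 : Even (S.erase d).card := by
    refine exista_even _ (fun e => φ (φ e)) ?_ ?_ ?_
    · intro e he
      rw [Finset.mem_erase] at he ⊢
      refine ⟨fun h => he.1 ?_, G.ph_mem _ (G.ph_mem _ he.2)⟩
      have h1 : φ e = d := G.ph_inj _ (G.ph_mem _ he.2) _ hd (h.trans hfix.symm)
      exact G.ph_inj _ he.2 _ hd (h1.trans hfix.symm)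
    · intro e he
      exact (hq e he).1
    · intro e he
      exact (hq e he).2
  have e2 : Even S.card := exista_even S α G.al_mem G.al_al G.al_ne
  rw [Finset.card_erase_of_mem hd] at e1
  have hpos : 0 < S.card := Finset.card_pos.2 ⟨d, hd⟩
  obtain ⟨a, ha⟩ := e1
  obtain ⟨b, hb⟩ := e2
  omega

theorem exista_rem_r {D : Type} (α φ : D → D) (r d : D) (h : φ d = r) :
    rem α φ r d = φ (α r) := by
  unfold rem
  rw [if_pos (Or.inl h), h]

theorem exista_rem_rb {D : Type} (α φ : D → D) (r d : D) (hr : α (α r) = r) (h : φ d = α r) :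
    rem α φ r d = φ r := by
  unfold rem
  rw [if_pos (Or.inr h), h, hr]

theorem exista_rem_no {D : Type} (α φ : D → D) (r d : D) (h1 : φ d ≠ r) (h2 : φ d ≠ α r) :
    rem α φ r d = φ d := by
  unfold rem
  rw [if_neg (by rintro (h | h) <;> contradiction)]

open Classical in
theorem good_face {D : Type} {α φ : D → D} {S : Finset D} {r : D} (G : Good α φ S (some r))
    (h : ¬ ∃ k, φ^[k] r = α r) :
    Good α (rem α φ r) ((S.erase r).erase (α r)) (some (φ (α r))) ∧
      (rem α φ r)^[3] (φ (α r)) = φ r ∧ (rem α φ r)^[2] (φ (α r)) ≠ φ (α r) ∧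
      φ r ≠ r ∧ φ r ≠ α r := by
  have hk : ∀ k, φ^[k] r ≠ α r := fun k hk => h ⟨k, hk⟩
  have hr : r ∈ S := G.root_mem r rfl
  have hb : α r ∈ S := G.al_mem r hr
  have hbr : α r ≠ r := G.al_ne r hr
  have haa : α (α r) = r := G.al_al r hr
  have hq : φ (φ (φ (φ (α r)))) = α r ∧ φ (φ (α r)) ≠ α r := by
    rcases G.quad _ hb with ⟨x, k, hx, hxk⟩ | hq
    · cases hx
      exact absurd hxk (hk k)
    · exact hq
  have s0 : φ (α r) ∈ S := G.ph_mem _ hb
  have s1 : φ (φ (α r)) ∈ S := G.ph_mem _ s0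
  have s2 : φ (φ (φ (α r))) ∈ S := G.ph_mem _ s1
  have sr : φ r ∈ S := G.ph_mem _ hr
  have a0 : φ (α r) ≠ r := by
    intro e
    apply hk 3
    have := hq.1
    rw [e] at this
    exact this
  have a1 : φ (φ (α r)) ≠ r := by
    intro e
    apply hk 2
    have := hq.1
    rw [e] at this
    exact this
  have a2 : φ (φ (φ (α r))) ≠ r := by
    intro e
    apply hk 1
    have := hq.1
    rw [e] at this
    exact this
  have b0 : φ (α r) ≠ α r := good_ph_ne G _ hb
  have b1 : φ (φ (α r)) ≠ α r := hq.2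
  have b2 : φ (φ (φ (α r))) ≠ α r := by
    intro e
    have := hq.1
    rw [e] at this
    exact b0 this
  have c0 : φ r ≠ r := good_ph_ne G _ hr
  have c1 : φ r ≠ α r := hk 1
  have r0 : rem α φ r (φ (α r)) = φ (φ (α r)) := exista_rem_no α φ r _ a1 b1
  have r1 : rem α φ r (φ (φ (α r))) = φ (φ (φ (α r))) := exista_rem_no α φ r _ a2 b2
  have r2 : rem α φ r (φ (φ (φ (α r)))) = φ r := exista_rem_rb α φ r _ haa hq.1
  have i1 : (rem α φ r)^[1] (φ (α r)) = φ (φ (α r)) := r0
  have i2 : (rem α φ r)^[2] (φ (α r)) = φ (φ (φ (α r))) := by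
    show rem α φ r (rem α φ r (φ (α r))) = _
    rw [r0, r1]
  have i3 : (rem α φ r)^[3] (φ (α r)) = φ r := by
    show rem α φ r (rem α φ r (rem α φ r (φ (α r)))) = _
    rw [r0, r1, r2]
  have mem : ∀ d, d ∈ (S.erase r).erase (α r) ↔ d ≠ α r ∧ d ≠ r ∧ d ∈ S := by
    intro d
    simp only [Finset.mem_erase]
  have almem : ∀ d ∈ (S.erase r).erase (α r), α d ∈ (S.erase r).erase (α r) := by
    intro d hd
    rw [mem] at hd ⊢
    obtain ⟨h1, h2, h3⟩ := hd
    refine ⟨fun e => h2 ?_, fun e => h1 ?_, G.al_mem d h3⟩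
    · rw [← G.al_al d h3, e, haa]
    · rw [← G.al_al d h3, e]
  have orbit : ∀ k, φ^[k] r = r ∨ ∃ j, (rem α φ r)^[j] (φ (α r)) = φ^[k] r := by
    intro k
    induction k with
    | zero => exact Or.inl rfl
    | succ k ih =>
      rcases ih with e | ⟨j, e⟩
      · right
        refine ⟨3, ?_⟩
        rw [Function.iterate_succ_apply' φ k r, e, i3]
      · by_cases e1 : φ^[k + 1] r = r
        · exact Or.inl e1
        · right
          refine ⟨j + 1, ?_⟩
          have e2 := hk (k + 1)
          rw [Function.iterate_succ_apply' φ k r] at e1 e2 ⊢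
          rw [Function.iterate_succ_apply', e]
          exact exista_rem_no α φ r _ e1 e2
  refine ⟨⟨almem, ?_, ?_, ?_, ?_, ?_, ?_, ?_, ?_, ?_⟩, i3, ?_, c0, c1⟩
  · intro d hd
    exact G.al_al d ((mem d).1 hd).2.2
  · intro d hd
    exact G.al_ne d ((mem d).1 hd).2.2
  · intro d hd
    rw [mem] at hd ⊢
    by_cases e1 : φ d = r
    · rw [exista_rem_r α φ r d e1]
      exact ⟨b0, a0, s0⟩
    · by_cases e2 : φ d = α r
      · rw [exista_rem_rb α φ r d haa e2]
        exact ⟨c1, c0, sr⟩
      · rw [exista_rem_no α φ r d e1 e2]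
        exact ⟨e2, e1, G.ph_mem d hd.2.2⟩
  · intro d hd d' hd' e
    rw [mem] at hd hd'
    by_cases e1 : φ d = r
    · rw [exista_rem_r α φ r d e1] at e
      by_cases f1 : φ d' = r
      · exact G.ph_inj d hd.2.2 d' hd'.2.2 (e1.trans f1.symm)
      · by_cases f2 : φ d' = α r
        · rw [exista_rem_rb α φ r d' haa f2] at e
          exact absurd (G.ph_inj _ hb _ hr e) hbr
        · rw [exista_rem_no α φ r d' f1 f2] at e
          exact absurd (G.ph_inj _ hb _ hd'.2.2 e).symm hd'.1
    · by_cases e2 : φ d = α r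
      · rw [exista_rem_rb α φ r d haa e2] at e
        by_cases f1 : φ d' = r
        · rw [exista_rem_r α φ r d' f1] at e
          exact absurd (G.ph_inj _ hr _ hb e).symm hbr
        · by_cases f2 : φ d' = α r
          · exact G.ph_inj d hd.2.2 d' hd'.2.2 (e2.trans f2.symm)
          · rw [exista_rem_no α φ r d' f1 f2] at e
            exact absurd (G.ph_inj _ hr _ hd'.2.2 e).symm hd'.2.1
      · rw [exista_rem_no α φ r d e1 e2] at e
        by_cases f1 : φ d' = r
        · rw [exista_rem_r α φ r d' f1] at e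
          exact absurd (G.ph_inj _ hd.2.2 _ hb e) hd.1
        · by_cases f2 : φ d' = α r
          · rw [exista_rem_rb α φ r d' haa f2] at e
            exact absurd (G.ph_inj _ hd.2.2 _ hr e) hd.2.1
          · rw [exista_rem_no α φ r d' f1 f2] at e
            exact G.ph_inj d hd.2.2 d' hd'.2.2 e
  · intro e
    cases e
  · intro x hx
    cases hx
    rw [mem]
    exact ⟨b0, a0, s0⟩
  · intro d hd
    rw [mem] at hd
    have fromorb : ∀ k, φ^[k] r = d →
        ∃ x k, some (φ (α r)) = some x ∧ (rem α φ r)^[k] x = d := by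
      intro k e
      rcases orbit k with e' | ⟨j, e'⟩
      · exact absurd (e.symm.trans e') hd.2.1
      · exact ⟨_, j, rfl, e'.trans e⟩
    rcases G.quad d hd.2.2 with ⟨x, k, hx, hxk⟩ | ⟨q4, q2⟩
    · cases hx
      exact Or.inl (fromorb k hxk)
    · have q4' : φ (φ (φ (φ d))) = d := q4
      have q2' : φ (φ d) ≠ d := q2
      by_cases u1 : φ d = r
      · exact Or.inl (fromorb 3 (by rw [← u1]; exact q4'))
      by_cases u2 : φ (φ d) = r
      · exact Or.inl (fromorb 2 (by rw [← u2]; exact q4'))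
      by_cases u3 : φ (φ (φ d)) = r
      · exact Or.inl (fromorb 1 (by rw [← u3]; exact q4'))
      by_cases v1 : φ d = α r
      · exact Or.inl ⟨_, 2, rfl, by rw [i2, ← v1]; exact q4'⟩
      by_cases v2 : φ (φ d) = α r
      · exact Or.inl ⟨_, 1, rfl, by rw [i1, ← v2]; exact q4'⟩
      by_cases v3 : φ (φ (φ d)) = α r
      · exact Or.inl ⟨_, 0, rfl, by rw [← v3]; exact q4'⟩
      right
      have w1 : rem α φ r d = φ d := exista_rem_no α φ r _ u1 v1
      have w2 : rem α φ r (φ d) = φ (φ d) := exista_rem_no α φ r _ u2 v2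
      have w3 : rem α φ r (φ (φ d)) = φ (φ (φ d)) := exista_rem_no α φ r _ u3 v3
      have w4 : rem α φ r (φ (φ (φ d))) = φ (φ (φ (φ d))) :=
        exista_rem_no α φ r _ (by rw [q4']; exact hd.2.1) (by rw [q4']; exact hd.1)
      constructor
      · show rem α φ r (rem α φ r (rem α φ r (rem α φ r d))) = d
        rw [w1, w2, w3, w4, q4']
      · show rem α φ r (rem α φ r d) ≠ d
        rw [w1, w2]
        exact q2'
  · intro F hα hφ d hd d' hd'
    have m0 : φ (α r) ∈ (S.erase r).erase (α r) := (mem _).2 ⟨b0, a0, s0⟩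
    have m1 : φ (φ (α r)) ∈ (S.erase r).erase (α r) := (mem _).2 ⟨b1, a1, s1⟩
    have m2 : φ (φ (φ (α r))) ∈ (S.erase r).erase (α r) := (mem _).2 ⟨b2, a2, s2⟩
    have key : F (φ r) = F (φ (α r)) := by
      have t0 := hφ _ m0
      have t1 := hφ _ m1
      have t2 := hφ _ m2
      rw [r0] at t0
      rw [r1] at t1
      rw [r2] at t2
      rw [t2, t1, t0]
    let F' : D → ℝ := fun x => if x = r ∨ x = α r then F (φ (α r)) else F x
    have F1 : F' r = F (φ (α r)) := if_pos (Or.inl rfl)
    have F2 : F' (α r) = F (φ (α r)) := if_pos (Or.inr rfl)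
    have F3 : ∀ x, x ≠ r → x ≠ α r → F' x = F x := fun x h1 h2 =>
      if_neg (by rintro (e | e) <;> contradiction)
    have := G.conn F' ?_ ?_ d ((mem d).1 hd).2.2 d' ((mem d').1 hd').2.2
    · rw [F3 d ((mem d).1 hd).2.1 ((mem d).1 hd).1,
        F3 d' ((mem d').1 hd').2.1 ((mem d').1 hd').1] at this
      exact this
    · intro x hx
      by_cases e1 : x = r
      · rw [e1, F1, F2]
      by_cases e2 : x = α r
      · rw [e2, haa, F1, F2]
      have hx' : x ∈ (S.erase r).erase (α r) := (mem x).2 ⟨e2, e1, hx⟩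
      have hy := (mem _).1 (almem x hx')
      rw [F3 x e1 e2, F3 _ hy.2.1 hy.1]
      exact hα x hx'
    · intro x hx
      by_cases e1 : x = r
      · rw [e1, F1, F3 _ c0 c1, key]
      by_cases e2 : x = α r
      · rw [e2, F2, F3 _ a0 b0]
      have hx' : x ∈ (S.erase r).erase (α r) := (mem x).2 ⟨e2, e1, hx⟩
      have t := hφ x hx'
      rw [F3 x e1 e2]
      by_cases f1 : φ x = r
      · rw [exista_rem_r α φ r x f1] at t
        rw [f1, F1, t]
      by_cases f2 : φ x = α r
      · rw [exista_rem_rb α φ r x haa f2] at t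
        rw [f2, F2, ← key, t]
      rw [exista_rem_no α φ r x f1 f2] at t
      rw [F3 _ f1 f2, t]
  · intro ψ hψ
    let ψ' : D → ℝ := fun x => if x = r then ψ (φ (α r)) else if x = α r then ψ (φ r) else ψ x
    have P1 : ψ' r = ψ (φ (α r)) := if_pos rfl
    have P2 : ψ' (α r) = ψ (φ r) := by
      show (if α r = r then ψ (φ (α r)) else if α r = α r then ψ (φ r) else ψ (α r)) = _
      rw [if_neg hbr, if_pos rfl]
    have P3 : ∀ x, x ≠ r → x ≠ α r → ψ' x = ψ x := by
      intro x h1 h2
      show (if x = r then ψ (φ (α r)) else if x = α r then ψ (φ r) else ψ x) = _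
      rw [if_neg h1, if_neg h2]
    have P4 : ∀ x, ψ' (φ x) = ψ (rem α φ r x) := by
      intro x
      by_cases f1 : φ x = r
      · rw [exista_rem_r α φ r x f1, f1, P1]
      by_cases f2 : φ x = α r
      · rw [exista_rem_rb α φ r x haa f2, f2, P2]
      rw [exista_rem_no α φ r x f1 f2, P3 _ f1 f2]
    obtain ⟨F, hF1, hF2⟩ := G.planar ψ' (by
      intro x hx
      by_cases e1 : x = r
      · rw [e1, P1, P2, P3 _ a0 b0, P3 _ c0 c1]
        ring
      by_cases e2 : x = α r
      · rw [e2, haa, P1, P2, P3 _ a0 b0, P3 _ c0 c1]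
        ring
      have hx' : x ∈ (S.erase r).erase (α r) := (mem x).2 ⟨e2, e1, hx⟩
      have hy := (mem _).1 (almem x hx')
      rw [P4, P4, P3 x e1 e2, P3 _ hy.2.1 hy.1]
      exact hψ x hx')
    refine ⟨F, ?_, ?_⟩
    · intro d hd
      have hdS := ((mem d).1 hd).2.2
      have t := hF1 d hdS
      by_cases f1 : φ (α d) = r
      · rw [exista_rem_r α φ r _ f1, hF1 r hr, ← f1, t]
      by_cases f2 : φ (α d) = α r
      · have t2 := hF1 (α r) hb
        rw [haa] at t2
        rw [exista_rem_rb α φ r _ haa f2, t2, ← f2, t]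
      rw [exista_rem_no α φ r _ f1 f2, t]
    · intro d hd
      have hd' := (mem d).1 hd
      have t := hF2 d hd'.2.2
      rw [P4, P3 d hd'.2.1 hd'.1] at t
      exact t
  · rw [i2]
    intro e
    have := hq.1
    rw [e] at this
    exact b1 this

end Pool.Agent.P.MP_7a6434d8_pr
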