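import Pool.Agent.P.MP_7a6434d8_pr.ExistA

namespace Pool.Agent.P.MP_7a6434d8_pr

open Mp Finset
open scoped ENNReal

theorem existb_iter_mem {D : Type} {α φ : D → D} {S : Finset D} {r : Option D}
    (G : Good α φ S r) (d : D) (hd : d ∈ S) (k : ℕ) : φ^[k] d ∈ S := by
  induction k with
  | zero => exact hd
  | succ k ih => rw [Function.iterate_succ_apply']; exact G.ph_mem _ ih

theorem existb_periodic {D : Type} {α φ : D → D} {S : Finset D} {r : Option D}
    (G : Good α φ S r) (d : D) (hd : d ∈ S) : ∃ n, 0 < n ∧ φ^[n] d = d := by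
  have hcancel : ∀ i n, φ^[i + n] d = φ^[i] d → φ^[n] d = d := by
    intro i
    induction i with
    | zero => intro n h; simpa using h
    | succ i ih =>
      intro n h
      apply ih
      have e : i + 1 + n = (i + n) + 1 := by omega
      rw [e, Function.iterate_succ_apply', Function.iterate_succ_apply'] at h
      exact G.ph_inj _ (existb_iter_mem G d hd _) _ (existb_iter_mem G d hd _) h
  obtain ⟨i, j, hij, h⟩ := Finite.exists_ne_map_eq_of_infinite
    (fun k : ℕ => (⟨φ^[k] d, existb_iter_mem G d hd k⟩ : S))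
  have h' : φ^[i] d = φ^[j] d := congrArg Subtype.val h
  rcases Nat.lt_or_gt_of_ne hij with hlt | hlt
  · refine ⟨j - i, by omega, hcancel i _ ?_⟩
    rw [show i + (j - i) = j by omega]; exact h'.symm
  · refine ⟨i - j, by omega, hcancel j _ ?_⟩
    rw [show j + (i - j) = i by omega]; exact h'

theorem existb_potential {D : Type} {α φ : D → D} {S : Finset D} {r : D}
    (G : Good α φ S (some r)) (h : ∃ k, φ^[k] r = α r) :
    ∃ F : D → ℝ, (∀ d ∈ S, F (φ d) = F (α d)) ∧
      (∀ d ∈ S, d ≠ r → d ≠ α r → F (α d) = F d) ∧ F r ≠ F (α r) := by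
  classical
  have hr : r ∈ S := G.root_mem r rfl
  have hrb : α r ∈ S := G.al_mem r hr
  have hne : α r ≠ r := G.al_ne r hr
  have hrr : α (α r) = r := G.al_al r hr
  set k := Nat.find h with hk
  have hks : φ^[k] r = α r := Nat.find_spec h
  have hmin : ∀ i, i < k → φ^[i] r ≠ α r := fun i hi => Nat.find_min h hi
  have hk0 : 1 ≤ k := by
    rcases Nat.eq_zero_or_pos k with h0 | h0
    · rw [h0] at hks; exact absurd hks.symm hne
    · exact h0
  let A : D → Prop := fun d => ∃ i, 1 ≤ i ∧ i ≤ k ∧ φ^[i] r = d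
  have hpred : ∀ d ∈ S, ∀ i, 1 ≤ i → φ^[i] r = φ d → φ^[i - 1] r = d := by
    intro d hd i hi he
    obtain ⟨j, rfl⟩ : ∃ j, i = j + 1 := ⟨i - 1, by omega⟩
    rw [Function.iterate_succ_apply'] at he
    simpa using G.ph_inj _ (existb_iter_mem G r hr j) _ hd he
  have hA1 : A (φ r) := ⟨1, le_rfl, hk0, rfl⟩
  have hA2 : ¬ A r := by
    rintro ⟨i, hi1, hi2, he⟩
    apply hmin (k - i) (by omega)
    have : φ^[k - i] (φ^[i] r) = φ^[k] r := by
      rw [← Function.iterate_add_apply, show k - i + i = k by omega]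
    rw [he] at this
    rw [this, hks]
  have hA3 : A (α r) := ⟨k, hk0, le_rfl, hks⟩
  have hA4 : ¬ A (φ (α r)) := by
    rintro ⟨i, hi1, hi2, he⟩
    exact hmin (i - 1) (by omega) (hpred _ hrb i hi1 he)
  have hA5 : ∀ d ∈ S, d ≠ r → d ≠ α r → (A (φ d) ↔ A d) := by
    intro d hd h1 h2
    constructor
    · rintro ⟨i, hi1, hi2, he⟩
      have e := hpred d hd i hi1 he
      refine ⟨i - 1, ?_, by omega, e⟩
      rcases Nat.eq_zero_or_pos (i - 1) with h0 | h0
      · rw [h0] at e; exact absurd e.symm h1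
      · exact h0
    · rintro ⟨i, hi1, hi2, he⟩
      refine ⟨i + 1, by omega, ?_, by rw [Function.iterate_succ_apply', he]⟩
      rcases Nat.lt_or_ge i k with h0 | h0
      · exact h0
      · have : i = k := by omega
        rw [this, hks] at he
        exact absurd he.symm h2
  let ψ : D → ℝ := fun d => if A d then 1 else 0
  have hω1 : ψ (φ r) - ψ r = 1 := by simp [ψ, hA1, hA2]
  have hω2 : ψ (φ (α r)) - ψ (α r) = -1 := by simp [ψ, hA3, hA4]
  have hω3 : ∀ d ∈ S, d ≠ r → d ≠ α r → ψ (φ d) - ψ d = 0 := by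
    intro d hd h1 h2
    simp only [ψ, hA5 d hd h1 h2, sub_self]
  obtain ⟨F, hF1, hF2⟩ := G.planar ψ (by
    intro d hd
    by_cases h1 : d = r
    · rw [h1, hω1, hω2]
    by_cases h2 : d = α r
    · rw [h2, hrr, hω1, hω2]; norm_num
    have h3 : α d ≠ r := by
      intro e; apply h2; rw [← e, G.al_al d hd]
    have h4 : α d ≠ α r := by
      intro e; apply h1; rw [← G.al_al d hd, e, hrr]
    rw [hω3 d hd h1 h2, hω3 _ (G.al_mem d hd) h3 h4]; norm_num)
  refine ⟨F, ?_, ?_, ?_⟩
  · intro d hd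
    have := hF1 _ (G.al_mem d hd)
    rwa [G.al_al d hd] at this
  · intro d hd h1 h2
    have := hF2 d hd
    rw [hω3 d hd h1 h2] at this
    linarith
  · have := hF2 r hr
    rw [hω1] at this
    intro e
    linarith

open Classical in
theorem existb_side {D : Type} {α φ : D → D} {S : Finset D} {s : D} (G : Good α φ S (some s))
    (P : D → Prop) (hPα : ∀ d ∈ S, d ≠ s → d ≠ α s → (P (α d) ↔ P d))
    (hPφ : ∀ d ∈ S, (P (φ d) ↔ P (α d))) (hPs : P s) (hPb : ¬ P (α s))
    (T : Finset D) (hT : ∀ d, d ∈ T ↔ d ∈ S ∧ d ≠ s ∧ d ≠ α s ∧ P d) :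
    Good α (rem α φ s) T (if φ (α s) = s then none else some (φ (α s))) ∧
      ∀ d ∈ T, φ d ≠ α s := by
  have hs : s ∈ S := G.root_mem s rfl
  have hsb : α s ∈ S := G.al_mem s hs
  have hss : α (α s) = s := G.al_al s hs
  have hTS : ∀ d ∈ T, d ∈ S := fun d hd => ((hT d).1 hd).1
  have hsT : s ∉ T := fun h => ((hT s).1 h).2.1 rfl
  have hal : ∀ d ∈ T, α d ∈ T := by
    intro d hd
    obtain ⟨h0, h1, h2, h3⟩ := (hT d).1 hd
    refine (hT _).2 ⟨G.al_mem d h0, ?_, ?_, (hPα d h0 h1 h2).2 h3⟩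
    · intro e; apply h2; rw [← e, G.al_al d h0]
    · intro e; apply h1; rw [← G.al_al d h0, e, hss]
  have hal' : ∀ d ∈ S, d ∉ T → α d ∉ T := by
    intro d hd hn h
    apply hn
    have := hal _ h
    rwa [G.al_al d hd] at this
  have hPph : ∀ d ∈ T, P (φ d) := fun d hd =>
    (hPφ d (hTS d hd)).2 ((hT _).1 (hal d hd)).2.2.2
  have hphb : ∀ d ∈ T, φ d ≠ α s := by
    intro d hd e
    apply hPb; rw [← e]; exact hPph d hd
  have hrem1 : ∀ d, φ d = s → rem α φ s d = φ (α s) := by
    intro d e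
    simp only [rem, e, true_or, if_true]
  have hrem2 : ∀ d ∈ T, φ d ≠ s → rem α φ s d = φ d := by
    intro d hd e
    simp only [rem, e, hphb d hd, or_self, if_false]
  have hphT : ∀ d ∈ T, φ d ≠ s → φ d ∈ T := fun d hd e =>
    (hT _).2 ⟨G.ph_mem d (hTS d hd), e, hphb d hd, hPph d hd⟩
  have hPr : P (φ (α s)) := by
    rw [hPφ _ hsb, hss]; exact hPs
  have hroot : φ (α s) ≠ s → φ (α s) ∈ T := by
    intro e
    refine (hT _).2 ⟨G.ph_mem _ hsb, e, ?_, hPr⟩
    intro e'; apply hPb; rw [← e']; exact hPr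
  have hnes : ∀ d ∈ T, φ d = s → φ (α s) ≠ s := by
    intro d hd e e'
    exact ((hT d).1 hd).2.2.1 (G.ph_inj d (hTS d hd) _ hsb (e.trans e'.symm))
  have hback : ∀ d ∈ S, φ d ∈ T → d ∈ T ∨ d = α s := by
    intro d hd h
    by_cases h2 : d = α s
    · exact Or.inr h2
    have hP : P (α d) := (hPφ d hd).1 ((hT _).1 h).2.2.2
    have h1 : d ≠ s := by
      intro e; apply hPb; rw [← e]; exact hP
    exact Or.inl ((hT d).2 ⟨hd, h1, h2, (hPα d hd h1 h2).1 hP⟩)
  have hmem : ∀ d ∈ T, rem α φ s d ∈ T := by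
    intro d hd
    by_cases e : φ d = s
    · rw [hrem1 d e]; exact hroot (hnes d hd e)
    · rw [hrem2 d hd e]; exact hphT d hd e
  -- extension by a constant
  have hext : ∀ (ψ : D → ℝ) (c : ℝ), (φ (α s) = s ∨ c = ψ (φ (α s))) →
      ∃ ξ : D → ℝ, (∀ d ∈ T, ξ d = ψ d) ∧ (∀ d, d ∉ T → ξ d = c) ∧
        (∀ d ∈ T, ξ (φ d) = ψ (rem α φ s d)) ∧ (∀ d ∈ S, d ∉ T → ξ (φ d) = c) := by
    intro ψ c hc
    refine ⟨fun d => if d ∈ T then ψ d else c, ?_, ?_, ?_, ?_⟩
    · intro d hd; simp only [hd, if_true]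
    · intro d hd; simp only [hd, if_false]
    · intro d hd
      by_cases e : φ d = s
      · rw [hrem1 d e, e]
        simp only [hsT, if_false]
        exact hc.resolve_left (hnes d hd e)
      · rw [hrem2 d hd e]
        simp only [hphT d hd e, if_true]
    · intro d hd hn
      by_cases h : φ d ∈ T
      · simp only [h, if_true]
        have e := (hback d hd h).resolve_left hn
        rw [e] at h ⊢
        rcases hc with hc | hc
        · rw [hc] at h; exact absurd h hsT
        · exact hc.symm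
      · simp only [h, if_false]
  have hconn : ∀ (ψ : D → ℝ) (c : ℝ), (φ (α s) = s ∨ c = ψ (φ (α s))) →
      (∀ d ∈ T, ψ (α d) = ψ d) → (∀ d ∈ T, ψ (rem α φ s d) = ψ d) → ∀ d ∈ T, ψ d = c := by
    intro ψ c hc h1 h2 d hd
    obtain ⟨ξ, e1, e2, e3, e4⟩ := hext ψ c hc
    have := G.conn ξ (by
      intro x hx
      by_cases hxT : x ∈ T
      · rw [e1 _ (hal x hxT), e1 x hxT, h1 x hxT]
      · rw [e2 _ (hal' x hx hxT), e2 x hxT]) (by
      intro x hx
      by_cases hxT : x ∈ T
      · rw [e3 x hxT, e1 x hxT, h2 x hxT]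
      · rw [e4 x hx hxT, e2 x hxT]) d (hTS d hd) s hs
    rwa [e1 d hd, e2 s hsT] at this
  have hempty : φ (α s) = s → ∀ d, d ∉ T := by
    intro e d hd
    have := hconn (fun _ => 0) 1 (Or.inl e) (fun _ _ => rfl) (fun _ _ => rfl) d hd
    norm_num at this
  refine ⟨⟨hal, fun d hd => G.al_al d (hTS d hd), fun d hd => G.al_ne d (hTS d hd), hmem,
    ?_, ?_, ?_, ?_, ?_, ?_⟩, hphb⟩
  · intro d hd d' hd' he
    by_cases e : φ d = s <;> by_cases e' : φ d' = s
    · exact G.ph_inj d (hTS d hd) d' (hTS d' hd') (e.trans e'.symm)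
    · rw [hrem1 d e, hrem2 d' hd' e'] at he
      exact absurd (G.ph_inj _ hsb d' (hTS d' hd') he).symm ((hT d').1 hd').2.2.1
    · rw [hrem2 d hd e, hrem1 d' e'] at he
      exact absurd (G.ph_inj d (hTS d hd) _ hsb he) ((hT d).1 hd).2.2.1
    · rw [hrem2 d hd e, hrem2 d' hd' e'] at he
      exact G.ph_inj d (hTS d hd) d' (hTS d' hd') he
  · intro h
    by_cases e : φ (α s) = s
    · exact Finset.eq_empty_of_forall_notMem (hempty e)
    · simp only [e, if_false] at h
      exact absurd h (Option.some_ne_none _)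
  · intro x h
    by_cases e : φ (α s) = s
    · simp only [e, if_true] at h
      exact absurd h.symm (Option.some_ne_none _)
    · simp only [e, if_false] at h
      rw [← Option.some.inj h]; exact hroot e
  · intro d hd
    have e : φ (α s) ≠ s := fun e => hempty e d hd
    have horb : ∀ k, φ^[k] s ∈ T → ∃ m, (rem α φ s)^[m] (φ (α s)) = φ^[k] s := by
      intro k
      induction k with
      | zero => intro h; exact absurd h hsT
      | succ k ih =>
        intro h
        rw [Function.iterate_succ_apply'] at h ⊢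
        rcases hback _ (existb_iter_mem G s hs k) h with h1 | h1
        · obtain ⟨m, hm⟩ := ih h1
          refine ⟨m + 1, ?_⟩
          rw [Function.iterate_succ_apply', hm]
          exact hrem2 _ h1 ((hT _).1 h).2.1
        · exact ⟨0, by rw [h1]; rfl⟩
    by_cases ho : ∃ k, φ^[k] s = d
    · obtain ⟨k, hk⟩ := ho
      obtain ⟨m, hm⟩ := horb k (by rw [hk]; exact hd)
      exact Or.inl ⟨φ (α s), m, by simp only [e, if_false], by rw [hm, hk]⟩
    · right
      have h4 : φ^[4] d = d ∧ φ^[2] d ≠ d := by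
        rcases G.quad d (hTS d hd) with ⟨x, k, hx, hk⟩ | h
        · exact absurd ⟨k, by rw [Option.some.inj hx]; exact hk⟩ ho
        · exact h
      have hall : ∀ i, i ≤ 4 → (rem α φ s)^[i] d = φ^[i] d ∧ φ^[i] d ∈ T := by
        intro i
        induction i with
        | zero => intro _; exact ⟨rfl, hd⟩
        | succ i ih =>
          intro hi
          obtain ⟨h1, h2⟩ := ih (by omega)
          have hne : φ (φ^[i] d) ≠ s := by
            intro e'
            apply ho
            refine ⟨4 - (i + 1), ?_⟩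
            rw [← e', ← Function.iterate_succ_apply' φ i d, ← Function.iterate_add_apply,
              show 4 - (i + 1) + i.succ = 4 by omega]
            exact h4.1
          rw [Function.iterate_succ_apply', Function.iterate_succ_apply', h1]
          exact ⟨hrem2 _ h2 hne, hphT _ h2 hne⟩
      rw [(hall 4 le_rfl).1, (hall 2 (by norm_num)).1]
      exact h4
  · intro F h1 h2 d hd d' hd'
    rw [hconn F _ (Or.inr rfl) h1 h2 d hd, hconn F _ (Or.inr rfl) h1 h2 d' hd']
  · intro ψ hψ
    obtain ⟨ξ, e1, e2, e3, e4⟩ := hext ψ _ (Or.inr rfl)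
    obtain ⟨F, hF1, hF2⟩ := G.planar ξ (by
      intro x hx
      by_cases hxT : x ∈ T
      · rw [e3 _ (hal x hxT), e1 _ (hal x hxT), e3 x hxT, e1 x hxT]
        exact hψ x hxT
      · rw [e4 _ (G.al_mem x hx) (hal' x hx hxT), e2 _ (hal' x hx hxT), e4 x hx hxT, e2 x hxT]
        simp)
    refine ⟨F, ?_, ?_⟩
    · intro d hd
      by_cases e : φ (α d) = s
      · rw [hrem1 _ e, hF1 s hs, ← e, hF1 d (hTS d hd)]
      · rw [hrem2 _ (hal d hd) e, hF1 d (hTS d hd)]
    · intro d hd
      rw [← e3 d hd, ← e1 d hd]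
      exact hF2 d (hTS d hd)

open Classical in
theorem good_bridge {D : Type} {α φ : D → D} {S : Finset D} {r : D} (G : Good α φ S (some r))
    (h : ∃ k, φ^[k] r = α r) :
    ∃ Sa Sb : Finset D, Disjoint Sa Sb ∧ Sa ∪ Sb = (S.erase r).erase (α r) ∧
      Good α (rem α φ r) Sa (if φ (α r) = r then none else some (φ (α r))) ∧
      Good α (rem α φ r) Sb (if φ r = α r then none else some (φ r)) ∧
      (∀ d ∈ Sa, φ d ≠ α r) ∧ (∀ d ∈ Sb, φ d ≠ r) := by
  have hr : r ∈ S := G.root_mem r rfl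
  have hrb : α r ∈ S := G.al_mem r hr
  have hrr : α (α r) = r := G.al_al r hr
  obtain ⟨F, hF1, hF2, hF3⟩ := existb_potential G h
  have hback : ∃ m, φ^[m] (α r) = r := by
    obtain ⟨k, hk⟩ := h
    obtain ⟨n, hn, hper⟩ := existb_periodic G r hr
    refine ⟨n * k - k, ?_⟩
    have hle : k ≤ n * k := Nat.le_mul_of_pos_left k hn
    rw [← hk, ← Function.iterate_add_apply, Nat.sub_add_cancel hle, Function.iterate_mul]
    exact Function.iterate_fixed hper k
  have G' : Good α φ S (some (α r)) := by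
    refine ⟨G.al_mem, G.al_al, G.al_ne, G.ph_mem, G.ph_inj,
      fun e => absurd e (Option.some_ne_none _), ?_, ?_, G.conn, G.planar⟩
    · intro x hx; rw [← Option.some.inj hx]; exact hrb
    · intro d hd
      rcases G.quad d hd with ⟨x, k, hx, hk⟩ | h4
      · obtain ⟨m, hm⟩ := hback
        refine Or.inl ⟨α r, k + m, rfl, ?_⟩
        rw [Function.iterate_add_apply, hm, Option.some.inj hx, hk]
      · exact Or.inr h4
  have hremeq : rem α φ (α r) = rem α φ r := by
    funext d
    simp only [rem, hrr, or_comm]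
  have ha := existb_side G (fun d => ¬ F d = F (α r))
    (fun d hd h1 h2 => by rw [hF2 d hd h1 h2]) (fun d hd => by rw [hF1 d hd]) hF3
    (fun e => e rfl) (((S.erase r).erase (α r)).filter (fun d => ¬ F d = F (α r)))
    (fun d => by simp only [Finset.mem_filter, Finset.mem_erase]; tauto)
  have hb := existb_side G' (fun d => F d = F (α r))
    (fun d hd h1 h2 => by rw [hF2 d hd (by rwa [hrr] at h2) h1])
    (fun d hd => by rw [hF1 d hd]) rfl (by rw [hrr]; exact hF3)
    (((S.erase r).erase (α r)).filter (fun d => F d = F (α r)))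
    (fun d => by simp only [Finset.mem_filter, Finset.mem_erase, hrr]; tauto)
  rw [hremeq, hrr] at hb
  refine ⟨_, _, ?_, ?_, ha.1, hb.1, ha.2, hb.2⟩
  · exact (Finset.disjoint_filter_filter_not _ _ _).symm
  · rw [Finset.union_comm]; exact Finset.filter_union_filter_not_eq _ _

end Pool.Agent.P.MP_7a6434d8_pr
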