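import Pool.Agent.P.MP_7a6434d8_pr.LinkDefs

namespace Pool.Agent.P.MP_7a6434d8_pr

open Mp Finset
open scoped ENNReal

theorem hit_outer_le_one {A : Type} (p : PMF A) (S : Set A) : p.toOuterMeasure S ≤ 1 := by
  rw [PMF.toOuterMeasure_apply, ← p.tsum_coe]
  exact ENNReal.tsum_le_tsum (fun a => Set.indicator_le_self S p a)

theorem hit_walk_succ {n : ℕ} (q : Quad n) (T : ℕ) (x : q.Vertex) (S : Set (List q.Vertex)) :
    (q.walk (T + 1) x).toOuterMeasure S = ∑ d ∈ q.out x, ((q.out x).card : ℝ≥0∞)⁻¹ *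
      (q.walk T (q.head d)).toOuterMeasure ((fun l => x :: l) ⁻¹' S) := by
  classical
  rw [Quad.walk, Quad.step, PMF.bind_map, PMF.toOuterMeasure_bind_apply, tsum_fintype]
  rw [← Finset.sum_subset (Finset.subset_univ (q.out x))]
  · refine Finset.sum_congr rfl (fun d hd => ?_)
    rw [PMF.uniformOfFinset_apply_of_mem _ hd]
    simp only [Function.comp, PMF.toOuterMeasure_map_apply]
  · intro d _ hd
    rw [PMF.uniformOfFinset_apply_of_notMem _ hd, zero_mul]

/-- probability that `v` has not been visited up to time `s` -/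
noncomputable def hitP {n : ℕ} (q : Quad n) (v : q.Vertex) (s : ℕ) (x : q.Vertex) : ℝ :=
  ((q.walk s x).toOuterMeasure {l | v ∉ l}).toReal

theorem hit_eq_ofReal {n : ℕ} (q : Quad n) (v : q.Vertex) (s : ℕ) (x : q.Vertex) :
    (q.walk s x).toOuterMeasure {l | v ∉ l} = ENNReal.ofReal (hitP q v s x) := by
  rw [hitP, ENNReal.ofReal_toReal]
  exact ne_top_of_le_ne_top ENNReal.one_ne_top (hit_outer_le_one _ _)

theorem hitP_nonneg {n : ℕ} (q : Quad n) (v : q.Vertex) (s : ℕ) (x : q.Vertex) :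
    0 ≤ hitP q v s x := ENNReal.toReal_nonneg

theorem hitP_le_one {n : ℕ} (q : Quad n) (v : q.Vertex) (s : ℕ) (x : q.Vertex) :
    hitP q v s x ≤ 1 := by
  rw [hitP]
  exact ENNReal.toReal_le_of_le_ofReal zero_le_one (by simpa using hit_outer_le_one _ _)

theorem hitP_zero_self {n : ℕ} (q : Quad n) (v : q.Vertex) : hitP q v 0 v = 0 := by
  rw [hitP, Quad.walk, PMF.toOuterMeasure_pure_apply]
  simp

theorem hitP_zero_ne {n : ℕ} (q : Quad n) (v x : q.Vertex) (h : x ≠ v) : hitP q v 0 x = 1 := by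
  rw [hitP, Quad.walk, PMF.toOuterMeasure_pure_apply]
  simp [h.symm]

theorem hitP_succ_self {n : ℕ} (q : Quad n) (v : q.Vertex) (s : ℕ) : hitP q v (s + 1) v = 0 := by
  rw [hitP, hit_walk_succ]
  have : (fun l => v :: l) ⁻¹' {l | v ∉ l} = ∅ := by
    ext l; simp
  simp [this]

theorem hitP_self {n : ℕ} (q : Quad n) (v : q.Vertex) (s : ℕ) : hitP q v s v = 0 := by
  cases s with
  | zero => exact hitP_zero_self q v
  | succ s => exact hitP_succ_self q v s

theorem hitP_succ_ne {n : ℕ} (q : Quad n) (v x : q.Vertex) (h : x ≠ v) (s : ℕ) :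
    hitP q v (s + 1) x = (∑ d ∈ q.out x, hitP q v s (q.head d)) / (q.out x).card := by
  rw [hitP, hit_walk_succ]
  have : (fun l => x :: l) ⁻¹' {l | v ∉ l} = {l | v ∉ l} := by
    ext l; simp [h.symm]
  rw [this, ← Finset.mul_sum, ENNReal.toReal_mul, ENNReal.toReal_sum]
  · simp only [hitP, ENNReal.toReal_inv, ENNReal.toReal_natCast]
    rw [div_eq_inv_mul]
  · intro d _
    exact ne_top_of_le_ne_top ENNReal.one_ne_top (hit_outer_le_one _ _)

theorem hit_card_pos {n : ℕ} (q : Quad n) (x : q.Vertex) : (0 : ℝ) < (q.out x).card := by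
  exact_mod_cast (q.out_nonempty x).card_pos

theorem hit_finite {n : ℕ} (q : Quad n) : Finite q.Vertex := by
  unfold Quad.Vertex
  infer_instance

theorem hit_sum_out {n : ℕ} (q : Quad n) [Fintype q.Vertex] (g : Fin (4 * n) → ℝ) :
    ∑ x, ∑ d ∈ q.out x, g d = ∑ d, g d := by
  classical
  rw [← Finset.sum_fiberwise Finset.univ q.tail g]
  refine Finset.sum_congr rfl (fun x _ => Finset.sum_congr ?_ (fun _ _ => rfl))
  ext d
  simp [Quad.out]

theorem hit_energy {n : ℕ} (q : Quad n) (R : ℝ) (hR : 0 ≤ R) (H : ResLe q R) (v : q.Vertex)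
    (h : q.Vertex → ℝ) (h0 : ∀ x, 0 ≤ h x) (hv : h v = 0)
    (hs : ∀ x, x ≠ v → ((q.out x).card : ℝ) * h x ≤ (q.out x).card + ∑ d ∈ q.out x, h (q.head d))
    (x : q.Vertex) : h x ≤ 4 * n * R := by
  classical
  have := hit_finite q
  let _i : Fintype q.Vertex := Fintype.ofFinite _
  obtain ⟨x0, -, hx0⟩ := Finset.exists_max_image Finset.univ h ⟨x, Finset.mem_univ x⟩
  have hM : ∀ y, h y ≤ h x0 := fun y => hx0 y (Finset.mem_univ y)
  have hsym : ∑ d, h (q.head d) ^ 2 = ∑ d, h (q.tail d) ^ 2 :=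
    Equiv.sum_comp q.α (fun d => h (q.tail d) ^ 2)
  have hE : (∑ d, (h (q.tail d) - h (q.head d)) ^ 2) / 2
      = ∑ d, h (q.tail d) * (h (q.tail d) - h (q.head d)) := by
    have e1 : ∑ d, (h (q.tail d) - h (q.head d)) ^ 2
        = 2 * ∑ d, h (q.tail d) * (h (q.tail d) - h (q.head d))
          + (∑ d, h (q.head d) ^ 2 - ∑ d, h (q.tail d) ^ 2) := by
      rw [Finset.mul_sum, ← Finset.sum_sub_distrib, ← Finset.sum_add_distrib]
      refine Finset.sum_congr rfl (fun d _ => by ring)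
    rw [e1, hsym]; ring
  have hE2 : ∑ d, h (q.tail d) * (h (q.tail d) - h (q.head d)) ≤ 4 * n * h x0 := by
    rw [← hit_sum_out q]
    have e2 : (4 * n * h x0 : ℝ) = ∑ y, ∑ _d ∈ q.out y, h x0 := by
      rw [hit_sum_out q (fun _ => h x0)]
      simp
    rw [e2]
    refine Finset.sum_le_sum (fun y _ => ?_)
    have e3 : ∑ d ∈ q.out y, h (q.tail d) * (h (q.tail d) - h (q.head d))
        = h y * (((q.out y).card : ℝ) * h y - ∑ d ∈ q.out y, h (q.head d)) := by
      have : ∀ d ∈ q.out y, h (q.tail d) * (h (q.tail d) - h (q.head d))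
          = h y * (h y - h (q.head d)) := by
        intro d hd
        have : q.tail d = y := by simpa [Quad.out] using hd
        rw [this]
      rw [Finset.sum_congr rfl this, ← Finset.mul_sum, Finset.sum_sub_distrib]
      simp
    rw [e3, Finset.sum_const, nsmul_eq_mul]
    have hc := hit_card_pos q y
    by_cases hy : y = v
    · rw [hy, hv, zero_mul]
      exact mul_nonneg (hit_card_pos q v).le (h0 x0)
    · have h1 := hs y hy
      have h2 := h0 y
      have h3 := hM y
      calc h y * (((q.out y).card : ℝ) * h y - ∑ d ∈ q.out y, h (q.head d))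
          ≤ h y * (q.out y).card := mul_le_mul_of_nonneg_left (by linarith) h2
        _ ≤ (q.out y).card * h x0 := by nlinarith
  have h4 := H h x0 v
  rw [hE, hv, sub_zero] at h4
  have h5 : h x0 ^ 2 ≤ R * (4 * n * h x0) := h4.trans (mul_le_mul_of_nonneg_left hE2 hR)
  have h6 : h x0 ≤ 4 * n * R := by
    by_contra hc
    push Not at hc
    have hp : 0 ≤ 4 * (n : ℝ) * R := by positivity
    have hpos : 0 < h x0 := lt_of_le_of_lt hp hc
    nlinarith
  exact (hM x).trans h6

theorem hit_le_real {n : ℕ} (q : Quad n) (R : ℝ) (hR : 0 ≤ R) (H : ResLe q R) (x v : q.Vertex)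
    (T : ℕ) : ∑ s ∈ range T, hitP q v s x ≤ 4 * n * R := by
  refine hit_energy q R hR H v (fun y => ∑ s ∈ range T, hitP q v s y)
    (fun y => Finset.sum_nonneg (fun s _ => hitP_nonneg q v s y)) ?_ ?_ x
  · exact Finset.sum_eq_zero (fun s _ => hitP_self q v s)
  · intro y hy
    have hc := hit_card_pos q y
    have h1 : ∑ s ∈ range T, hitP q v s y ≤ ∑ s ∈ range (T + 1), hitP q v s y := by
      rw [Finset.sum_range_succ]
      linarith [hitP_nonneg q v T y]
    rw [Finset.sum_range_succ', hitP_zero_ne q v y hy] at h1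
    have h2 : ((q.out y).card : ℝ) * ∑ s ∈ range T, hitP q v (s + 1) y
        = ∑ d ∈ q.out y, ∑ s ∈ range T, hitP q v s (q.head d) := by
      rw [Finset.sum_comm, Finset.mul_sum]
      refine Finset.sum_congr rfl (fun s _ => ?_)
      rw [hitP_succ_ne q v y hy, mul_div_cancel₀ _ hc.ne']
    rw [← h2]
    nlinarith

/-- expected hitting time bound from the resistance bound -/
theorem hit_le {n : ℕ} (q : Quad n) (R : ℝ) (hR : 0 ≤ R) (H : ResLe q R) (x v : q.Vertex)
    (T : ℕ) : ∑ s ∈ range T, (q.walk s x).toOuterMeasure {l | v ∉ l}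
      ≤ ENNReal.ofReal (4 * n * R) := by
  simp only [hit_eq_ofReal]
  rw [← ENNReal.ofReal_sum_of_nonneg (fun s _ => hitP_nonneg q v s x)]
  exact ENNReal.ofReal_le_ofReal (hit_le_real q R hR H x v T)

end Pool.Agent.P.MP_7a6434d8_pr
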