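import Pool.Agent.P.MP_7a6434d8_pr.Quad

/-!
Infinite rooted quadrangulations, simple random walk on them, and local limits of uniform finite
planar quadrangulations.
-/

namespace Pool.Agent.P.MP_7a6434d8_pr

open MeasureTheory ProbabilityTheory Filter Topology

/-- the dart reached from `r` by applying the letters of the word `w` (`true` is `α`, `false` is
`φ`) -/
def act {D : Type} (α φ : Equiv.Perm D) (r : D) (w : List Bool) : D :=
  w.foldr (fun b d => if b then α d else φ d) r

/-- the neighbourhood of radius `k` of the root dart `r` up to isomorphism: the pairs of words of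
length at most `k` that lead to the same dart -/
def view {D : Type} (α φ : Equiv.Perm D) (r : D) (k : ℕ) : Set (List Bool × List Bool) :=
  {p | p.1.length ≤ k ∧ p.2.length ≤ k ∧ act α φ r p.1 = act α φ r p.2}

/-- A rooted connected infinite map with faces of degree four and vertices of finite degree, as a
combinatorial map on the darts `0, 1, 2, ...`: `α` reverses a dart, `φ` is the next dart along the
same face, vertices are the cycles of `φ * α`. -/
structure InfQuad where
  α : Equiv.Perm ℕ
  φ : Equiv.Perm ℕ
  root : ℕ
  α_α : ∀ d, α (α d) = d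
  α_ne : ∀ d, α d ≠ d
  φ_four : ∀ d, (φ ^ 4) d = d ∧ (φ ^ 2) d ≠ d
  connected : ∀ d d', Relation.ReflTransGen (fun x y => y = α x ∨ y = φ x) d d'
  locFin : ∀ d, {d' | (φ * α).SameCycle d d'}.Finite

/-- the sigma-algebra of the local topology: generated by the neighbourhoods of the root -/
instance : MeasurableSpace InfQuad :=
  MeasurableSpace.generateFrom {S | ∃ k V, S = {M : InfQuad | view M.α M.φ M.root k = V}}

/-- `μ` is a local limit, along a subsequence of sizes, of uniform rooted planar
quadrangulations: the probability of each neighbourhood of the root converges -/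
def IsLocalLimit (μ : Measure InfQuad) : Prop :=
  IsProbabilityMeasure μ ∧ ∃ ν : ℕ → ℕ, StrictMono ν ∧ ∀ k V,
    Tendsto (fun i => (Nat.card {c : RootedQuad (ν i) // ∃ q : Quad (ν i), Quot.mk _ q = c ∧
        view q.α q.φ q.root k = V} : ℝ) / Nat.card (RootedQuad (ν i))) atTop
      (𝓝 (μ.real {M | view M.α M.φ M.root k = V}))

namespace InfQuad

/-- vertices: cycles of `φ * α` -/
def Vertex (M : InfQuad) : Type := Quotient (Equiv.Perm.SameCycle.setoid (M.φ * M.α))

instance (M : InfQuad) : Countable M.Vertex := Quotient.countable

instance (M : InfQuad) : MeasurableSpace M.Vertex := ⊤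

instance (M : InfQuad) : DiscreteMeasurableSpace M.Vertex := ⟨fun _ => trivial⟩

/-- the vertex a dart starts from -/
def tail (M : InfQuad) (d : ℕ) : M.Vertex := Quotient.mk _ d

/-- the vertex a dart points to -/
def head (M : InfQuad) (d : ℕ) : M.Vertex := M.tail (M.α d)

theorem out_finite (M : InfQuad) (x : M.Vertex) : {d | M.tail d = x}.Finite := by
  obtain ⟨d, rfl⟩ := Quotient.exists_rep x
  exact (M.locFin d).subset fun d' h => (Quotient.exact h).symm

/-- darts starting from `x` -/
noncomputable def out (M : InfQuad) (x : M.Vertex) : Finset ℕ := (M.out_finite x).toFinset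

theorem out_nonempty (M : InfQuad) (x : M.Vertex) : (M.out x).Nonempty := by
  obtain ⟨d, rfl⟩ := Quotient.exists_rep x
  exact ⟨d, by simp [out, tail]⟩

/-- one step of simple random walk: follow a uniform dart out of `x` -/
noncomputable def step (M : InfQuad) (x : M.Vertex) : PMF M.Vertex :=
  (PMF.uniformOfFinset (M.out x) (M.out_nonempty x)).map M.head

/-- transition kernel of simple random walk at time `t`, given the trajectory up to time `t` -/
noncomputable def kernel (M : InfQuad) (t : ℕ) : Kernel (Finset.Iic t → M.Vertex) M.Vertex :=
  Kernel.ofFunOfCountable (fun X => (M.step (X ⟨t, Finset.mem_Iic.2 le_rfl⟩)).toMeasure)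

instance (M : InfQuad) (t : ℕ) : IsMarkovKernel (M.kernel t) :=
  ⟨fun _ => PMF.toMeasure.isProbabilityMeasure _⟩

/-- law of the trajectory of simple random walk started at the root vertex -/
noncomputable def pathLaw (M : InfQuad) : Measure (ℕ → M.Vertex) :=
  Kernel.trajMeasure (X := fun _ => M.Vertex) (Measure.dirac (M.tail M.root)) M.kernel

/-- the graph of the map: two distinct vertices are adjacent if some dart joins them -/
def graph (M : InfQuad) : SimpleGraph M.Vertex :=
  SimpleGraph.fromRel (fun x y => ∃ d, M.tail d = x ∧ M.head d = y)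

end InfQuad

end Pool.Agent.P.MP_7a6434d8_pr
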