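import Pool.Agent.P.MP_7a6434d8_pr.JumpNum
import Pool.Agent.P.MP_7a6434d8_pr.Peel

namespace Pool.Agent.P.MP_7a6434d8_pr

open Mp Finset
open scoped ENNReal

theorem jump_max (δ : ℕ → ℝ) (P : ℕ → Prop) (B : ℕ) (hP : ∀ L, P L → P (L + 1))
    (h0 : ∀ L, P L → B ≤ L → δ L ≤ 0)
    (hstep : ∀ L, P L → 0 < δ L → (∀ L', P L' → δ L' ≤ δ L) → δ (L + 1) < δ L → False) :
    ∀ L, P L → δ L ≤ 0 := by
  classical
  intro L0 hL0
  by_contra hpos
  rw [not_le] at hpos
  have hin : ∀ L, P L → 0 < δ L → L ∈ (range B).filter P := by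
    intro L hL hd
    refine mem_filter.2 ⟨mem_range.2 ?_, hL⟩
    by_contra hc
    have := h0 L hL (by omega)
    linarith
  obtain ⟨L1, hL1, hmax⟩ := exists_max_image ((range B).filter P) δ ⟨L0, hin L0 hL0 hpos⟩
  have hρ : 0 < δ L1 := lt_of_lt_of_le hpos (hmax L0 (hin L0 hL0 hpos))
  have hall : ∀ L, P L → δ L ≤ δ L1 := by
    intro L hL
    by_cases hd : 0 < δ L
    · exact hmax L (hin L hL hd)
    · linarith
  obtain ⟨L2, hL2, hmax2⟩ := exists_max_image
    (((range B).filter P).filter (fun L => δ L = δ L1)) id ⟨L1, mem_filter.2 ⟨hL1, rfl⟩⟩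
  obtain ⟨hL2a, hL2b⟩ := mem_filter.1 hL2
  have hP2 : P L2 := (mem_filter.1 hL2a).2
  refine hstep L2 hP2 (by rw [hL2b]; exact hρ) (fun L' hL' => by rw [hL2b]; exact hall L' hL') ?_
  rw [hL2b]
  refine lt_of_le_of_ne (hall _ (hP _ hP2)) fun he => ?_
  have := hmax2 (L2 + 1) (mem_filter.2 ⟨hin _ (hP _ hP2) (by rw [he]; exact hρ), he⟩)
  simp only [id] at this
  omega

theorem jump_psi_zero {m b : ℕ} (hm : 8 ≤ m) (h : ¬ (m < 2 * b ∧ 2 * b < 3 * m)) :
    psiJ m b = 0 := by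
  unfold psiJ
  refine max_eq_left ?_
  have hm' : (0 : ℝ) < m := by exact_mod_cast (by omega : 0 < m)
  have h2 : (0 : ℝ) < (m : ℝ) ^ 2 := by positivity
  rw [sub_nonpos, le_div_iff₀ h2]
  by_cases h1 : m < 2 * b
  · have h3 : 3 * m ≤ 2 * b := by omega
    have h4 : 3 * (m : ℝ) ≤ 2 * b := by exact_mod_cast h3
    nlinarith
  · have h3 : 2 * b ≤ m := by omega
    have h4 : 2 * (b : ℝ) ≤ m := by exact_mod_cast h3
    nlinarith

theorem jump_psi_self (m : ℕ) : psiJ m m = 1 := by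
  unfold psiJ
  simp

theorem jump_pow (L j : ℕ) (hj : j + 1 ≤ L) :
    (8 : ℝ) ^ (L - 1 - j) * Z j = 8 ^ L * (w j / 8) := by
  obtain ⟨i, rfl⟩ : ∃ i, L = i + j + 1 := ⟨L - 1 - j, by omega⟩
  have e : i + j + 1 - 1 - j = i := by omega
  rw [e, Z_eq_w, pow_succ, pow_add]
  ring

theorem jump_sum_ite (r R : ℕ) (h : r ≤ R) (g : ℕ → ℝ) :
    ∑ j ∈ range R, (if j < r then g j else 0) = ∑ j ∈ range r, g j := by
  rw [← sum_filter]
  congr 1
  ext j
  simp only [mem_filter, mem_range]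
  omega

theorem jump_sum_mem (J : Finset ℕ) (R : ℕ) (h : ∀ j ∈ J, j < R) (g : ℕ → ℝ) :
    ∑ j ∈ range R, (if j ∈ J then g j else 0) = ∑ j ∈ J, g j := by
  rw [← sum_filter]
  congr 1
  ext j
  simp only [mem_filter, mem_range]
  exact ⟨fun hj => hj.2, fun hj => ⟨h j hj, hj⟩⟩

theorem jump : ∃ c : ℝ, 0 < c ∧ ∀ (m x d : ℕ) (τ : ℝ) (φ : ℕ → Mp → Prop), 8 ≤ m → x ≤ d →
    0 ≤ τ →
    (∀ b t t', IsFace (x + b / 2) t t' → 2 * per t = d + b → φ b t → φ (b + 2) t') →
    (∀ b m' t W1 W2, IsBr m' t W1 W2 → 2 * per t = d + b → x ≤ m' →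
      m' + 2 * per W2 + 2 ≤ x + b → φ b t → φ (b - 2 * per W2 - 2) W1) →
    (∀ b L, 2 * L = d + b → m < 2 * b → 2 * b < 3 * m → ∃ (J : Finset ℕ) (γ : ℕ → ℝ),
      (∀ j ∈ J, (b - b / 2) / 2 ≤ j ∧ j < (2 * L - (x + b / 2)) / 2 ∧
        mass2 (L - 1 - j) j (fun W1 W2 => φ b (brR (x + b / 2) W1 W2))
          ≤ Z (L - 1 - j) * Z j - γ j) ∧ τ * 8 ^ L ≤ ∑ j ∈ J, γ j) →
    ∀ L, 2 * L = d + m → mass L (φ m) ≤ Z L - c * τ * ((m : ℝ) * √(m : ℝ)) * 8 ^ L := by
  obtain ⟨C, hC, hnum⟩ := jump_num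
  refine ⟨1 / C, by positivity, ?_⟩
  intro m x d τ φ hm hxd hτ hface hbr hgain
  have hm0 : (0 : ℝ) < m := by exact_mod_cast (by omega : 0 < m)
  have hs : 0 < (m : ℝ) * √(m : ℝ) := mul_pos hm0 (Real.sqrt_pos.2 hm0)
  obtain ⟨κ, hκ⟩ : ∃ κ : ℝ, κ = 1 / C * τ * ((m : ℝ) * √(m : ℝ)) := ⟨_, rfl⟩
  have hκ0 : 0 ≤ κ := by rw [hκ]; positivity
  have hκC : κ * (C / ((m : ℝ) * √(m : ℝ))) = τ := by
    rw [hκ]
    field_simp
  obtain ⟨δ, hδ⟩ : ∃ δ : ℕ → ℝ, ∀ L, δ L
      = (mass L (φ (2 * L - d)) - Z L + κ * psiJ m (2 * L - d) * 8 ^ L) / Z L :=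
    ⟨_, fun _ => rfl⟩
  have hδ' : ∀ L, mass L (φ (2 * L - d))
      = (1 + δ L) * Z L - κ * psiJ m (2 * L - d) * 8 ^ L := by
    intro L
    have := Z_pos L
    rw [hδ]
    field_simp
    ring
  have hout : ∀ L, ¬ (m < 2 * (2 * L - d) ∧ 2 * (2 * L - d) < 3 * m) → δ L ≤ 0 := by
    intro L h
    rw [hδ, jump_psi_zero hm h]
    refine div_nonpos_of_nonpos_of_nonneg ?_ (Z_pos L).le
    have := mass_le_Z L (φ (2 * L - d))
    linarith
  have key : ∀ L, d ≤ 2 * L → δ L ≤ 0 := by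
    refine jump_max δ (fun L => d ≤ 2 * L) (d + 3 * m) (fun L h => by omega)
      (fun L h1 h2 => hout L (by omega)) ?_
    intro L hL hpos hall hlt
    have hb : m < 2 * (2 * L - d) ∧ 2 * (2 * L - d) < 3 * m := by
      by_contra h
      have := hout L h
      linarith
    have hML := hδ' L
    have hM1 := hδ' (L + 1)
    obtain ⟨ρ, hρ⟩ : ∃ ρ, ρ = δ L := ⟨_, rfl⟩
    rw [← hρ] at hpos hlt hML
    have hall' : ∀ L' b', 2 * L' = d + b' →
        mass L' (φ b') ≤ (1 + ρ) * Z L' - κ * psiJ m b' * 8 ^ L' := by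
      intro L' b' h
      have h1 := hδ' L'
      have h2 : δ L' ≤ ρ := by rw [hρ]; exact hall L' (by omega)
      have e : 2 * L' - d = b' := by omega
      rw [e] at h1
      have := mul_le_mul_of_nonneg_right h2 (Z_pos L').le
      linarith
    obtain ⟨b, hbdef⟩ : ∃ b, b = 2 * L - d := ⟨_, rfl⟩
    have e1 : 2 * (L + 1) - d = b + 2 := by omega
    rw [e1] at hM1
    rw [← hbdef] at hb hML
    have hLb : 2 * L = d + b := by omega
    obtain ⟨J, γ, hJ, hτJ⟩ := hgain b L hLb hb.1 hb.2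
    have hn := hnum m b hm hb.1 hb.2
    have hk : x + b / 2 < 2 * L := by omega
    have hpeel := peel_eq L (x + b / 2) hk (φ b)
    have htut := tutte_at L (x + b / 2) hk
    have hF : mass (L + 1) (fun t' => φ b (faceAt (x + b / 2) t')) ≤ mass (L + 1) (φ (b + 2)) := by
      refine mass_mono ?_
      intro t' ht' hper hφ
      have H := isFace_faceAt (x + b / 2) t' ht' (by omega)
      have := H.per_eq
      exact hface b _ t' H (by omega) hφ
    have hF2 : mass (L + 1) (φ (b + 2))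
        < (1 + ρ) * Z (L + 1) - κ * psiJ m (b + 2) * 8 ^ L * 8 := by
      have := mul_lt_mul_of_pos_right hlt (Z_pos (L + 1))
      rw [pow_succ] at hM1
      linarith
    have hin : ∀ j (ψ : Mp → Mp → Prop), j + 1 ≤ L → 2 * j + 2 ≤ b →
        (∀ a W, ok a → per a = L - 1 - j → ok W → per W = j → ψ a W → φ (b - 2 * j - 2) a) →
        mass2 (L - 1 - j) j ψ ≤ (1 + ρ) * (Z (L - 1 - j) * Z j)
          - κ * 8 ^ L * (w j / 8 * psiJ m (b - 2 * j - 2)) := by
      intro j ψ hj1 hj2 hψ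
      have h1 : mass2 (L - 1 - j) j ψ ≤ mass (L - 1 - j) (φ (b - 2 * j - 2)) * Z j := by
        refine mass2_le_outer (mass_nonneg _ _) ?_
        intro W hW hpW
        exact mass_mono fun a ha hpa h => hψ a W ha hpa hW hpW h
      have h2 := mul_le_mul_of_nonneg_right
        (hall' (L - 1 - j) (b - 2 * j - 2) (by omega)) (Z_pos j).le
      have h3 := jump_pow L j hj1
      have h4 : κ * psiJ m (b - 2 * j - 2) * 8 ^ (L - 1 - j) * Z j
          = κ * 8 ^ L * (w j / 8 * psiJ m (b - 2 * j - 2)) := by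
        rw [mul_assoc (κ * psiJ m (b - 2 * j - 2)), h3]
        ring
      linarith
    have hoth : ∀ j, Z (L - 1 - j) * Z j ≤ (1 + ρ) * (Z (L - 1 - j) * Z j) := by
      intro j
      have := mul_pos hpos (mul_pos (Z_pos (L - 1 - j)) (Z_pos j))
      linarith
    have hright : ∑ j ∈ range ((2 * L - (x + b / 2)) / 2),
          mass2 (L - 1 - j) j (fun a W => φ b (brR (x + b / 2) a W))
        ≤ ∑ j ∈ range ((2 * L - (x + b / 2)) / 2), ((1 + ρ) * (Z (L - 1 - j) * Z j)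
          - κ * 8 ^ L * (if j < (b - b / 2) / 2 then w j / 8 * psiJ m (b - 2 * j - 2) else 0)
          - (if j ∈ J then γ j else 0)) := by
      refine sum_le_sum fun j hj => ?_
      have hj' := mem_range.1 hj
      by_cases h1 : j < (b - b / 2) / 2
      · have h2 : j ∉ J := fun h => by
          have := (hJ j h).1
          omega
        rw [if_pos h1, if_neg h2, sub_zero]
        refine hin j _ (by omega) (by omega) ?_
        intro a W ha hpa hW hpW hφ
        have H := isBr_brR (x + b / 2) a W ha hW (by omega)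
        have := H.per_eq
        have h3 := hbr b _ _ a W H (by omega) (by omega) (by omega) hφ
        rwa [hpW] at h3
      · rw [if_neg h1]
        have h3 := hoth j
        by_cases h2 : j ∈ J
        · rw [if_pos h2]
          have := (hJ j h2).2.2
          linarith
        · rw [if_neg h2]
          have := mass2_le_Z (L - 1 - j) j (fun a W => φ b (brR (x + b / 2) a W))
          linarith
    have hleft : ∑ j ∈ range ((x + b / 2 + 1) / 2),
          mass2 (L - 1 - j) j (fun a W => φ b (brL (x + b / 2 - 2 * j - 1) a W))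
        ≤ ∑ j ∈ range ((x + b / 2 + 1) / 2), ((1 + ρ) * (Z (L - 1 - j) * Z j)
          - κ * 8 ^ L
            * (if j < (b / 2 + 1) / 2 then w j / 8 * psiJ m (b - 2 * j - 2) else 0)) := by
      refine sum_le_sum fun j hj => ?_
      have hj' := mem_range.1 hj
      by_cases h1 : j < (b / 2 + 1) / 2
      · rw [if_pos h1]
        refine hin j _ (by omega) (by omega) ?_
        intro a W ha hpa hW hpW hφ
        have H := isBr_brL (x + b / 2 - 2 * j - 1) a W ha hW (by omega)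
        have := H.per_eq
        have h3 := hbr b _ _ a W H (by omega) (by omega) (by omega) hφ
        rwa [hpW] at h3
      · rw [if_neg h1]
        have h3 := hoth j
        have := mass2_le_Z (L - 1 - j) j (fun a W => φ b (brL (x + b / 2 - 2 * j - 1) a W))
        linarith
    rw [sum_sub_distrib, sum_sub_distrib, ← mul_sum, ← mul_sum,
      jump_sum_ite _ _ (by omega), jump_sum_mem J _ (fun j hj => (hJ j hj).2.1)] at hright
    rw [sum_sub_distrib, ← mul_sum, ← mul_sum, jump_sum_ite _ _ (by omega)] at hleft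
    have h8 : (0 : ℝ) ≤ κ * 8 ^ L := by positivity
    have hn2 := mul_le_mul_of_nonneg_left hn h8
    have e3 : κ * 8 ^ L * (C / ((m : ℝ) * √(m : ℝ))) = τ * 8 ^ L := by
      rw [← hκC]
      ring
    have e4 : (1 + ρ) * Z L = (1 + ρ) * (Z (L + 1) / 12
        + ∑ j ∈ range ((2 * L - (x + b / 2)) / 2), Z (L - 1 - j) * Z j
        + ∑ j ∈ range ((x + b / 2 + 1) / 2), Z (L - 1 - j) * Z j) := by rw [← htut]
    rw [mul_add, e3] at hn2
    linarith
  intro L hL
  have h1 := key L (by omega)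
  have h2 := hδ' L
  have e : 2 * L - d = m := by omega
  rw [e, jump_psi_self, hκ] at h2
  have := mul_le_mul_of_nonneg_right h1 (Z_pos L).le
  linarith

end Pool.Agent.P.MP_7a6434d8_pr
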