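import Pool.Agent.P.MP_7a6434d8_pr.NumA

namespace Pool.Agent.P.MP_7a6434d8_pr

open Mp Finset
open scoped ENNReal

/-- potential of the jump lemma -/
noncomputable def psiJ (m b : ℕ) : ℝ := max 0 (1 - 4 * ((b : ℝ) - m) ^ 2 / (m : ℝ) ^ 2)

theorem jumpnum_sq_sum {C0 : ℝ} (hC0 : 0 < C0)
    (hw : ∀ L : ℕ, w L * (((L : ℝ) + 1) ^ 2 * √((L : ℝ) + 1)) ≤ C0) (r : ℕ) :
    ∑ j ∈ range r, ((j : ℝ) + 1) ^ 2 * w j ≤ 2 * C0 * √(r : ℝ) := by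
  induction r with
  | zero => simp
  | succ r ih =>
    rw [sum_range_succ]
    push_cast
    have hr : (0 : ℝ) ≤ r := Nat.cast_nonneg r
    have hs : 0 < √((r : ℝ) + 1) := Real.sqrt_pos.2 (by linarith)
    have hs2 : √((r : ℝ) + 1) ^ 2 = r + 1 := Real.sq_sqrt (by linarith)
    have ht2 : √(r : ℝ) ^ 2 = r := Real.sq_sqrt hr
    have h1 : ((r : ℝ) + 1) ^ 2 * w r * √((r : ℝ) + 1) ≤ C0 := by
      have := hw r
      linarith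
    have h2 : ((r : ℝ) + 1) ^ 2 * w r ≤ 2 * C0 * (√((r : ℝ) + 1) - √(r : ℝ)) := by
      refine le_of_mul_le_mul_right (h1.trans ?_) hs
      have h3 : (1 : ℝ) ≤ 2 * (√((r : ℝ) + 1) - √(r : ℝ)) * √((r : ℝ) + 1) := by
        nlinarith [sq_nonneg (√((r : ℝ) + 1) - √(r : ℝ))]
      nlinarith
    linarith

theorem jumpnum_side {C0 : ℝ} (hC0 : 0 < C0)
    (hw : ∀ L : ℕ, w L * (((L : ℝ) + 1) ^ 2 * √((L : ℝ) + 1)) ≤ C0) (m b r : ℕ) (hm : 8 ≤ m)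
    (h1 : m < 2 * b) (h2 : 2 * b < 3 * m) (hr1 : m ≤ 8 * (r + 1)) (hr2 : r ≤ m) (hr3 : 2 * r ≤ b) :
    (1 - 4 * ((b : ℝ) - m) ^ 2 / (m : ℝ) ^ 2) / 6 + 2 / 3 * (8 * ((b : ℝ) - m) / (m : ℝ) ^ 2)
      - 16 * C0 / ((m : ℝ) * √(m : ℝ))
      ≤ ∑ j ∈ range r, w j / 8 * psiJ m (b - 2 * j - 2) := by
  have hM : (8 : ℝ) ≤ m := by exact_mod_cast hm
  have hM0 : (0 : ℝ) < m := by linarith
  have hb1 : (m : ℝ) < 2 * b := by exact_mod_cast h1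
  have hb2 : 2 * (b : ℝ) < 3 * m := by exact_mod_cast h2
  have hR1 : (m : ℝ) ≤ 8 * ((r : ℝ) + 1) := by exact_mod_cast hr1
  have hR2 : (r : ℝ) ≤ m := by exact_mod_cast hr2
  have hR0 : (0 : ℝ) ≤ r := Nat.cast_nonneg r
  set P : ℝ := 1 - 4 * ((b : ℝ) - m) ^ 2 / (m : ℝ) ^ 2 with hP
  set Q : ℝ := 8 * ((b : ℝ) - m) / (m : ℝ) ^ 2 with hQ
  have hterm : ∀ j ∈ range r, P / 8 * w j + Q / 4 * (((j : ℝ) + 1) * w j)
      - 2 / (m : ℝ) ^ 2 * (((j : ℝ) + 1) ^ 2 * w j) ≤ w j / 8 * psiJ m (b - 2 * j - 2) := by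
    intro j hj
    have hj' := mem_range.1 hj
    have hc : ((b - 2 * j - 2 : ℕ) : ℝ) = (b : ℝ) - 2 * j - 2 := by
      rw [Nat.sub_sub, Nat.cast_sub (by omega)]
      push_cast
      ring
    have hle : 1 - 4 * (((b : ℝ) - 2 * j - 2) - m) ^ 2 / (m : ℝ) ^ 2 ≤ psiJ m (b - 2 * j - 2) := by
      unfold psiJ
      rw [hc]
      exact le_max_right _ _
    have := mul_le_mul_of_nonneg_left hle (by have := w_pos j; positivity : 0 ≤ w j / 8)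
    refine le_trans (le_of_eq ?_) this
    rw [hP, hQ]
    field_simp
    ring
  refine le_trans ?_ (sum_le_sum hterm)
  rw [sum_sub_distrib, sum_add_distrib, ← mul_sum, ← mul_sum, ← mul_sum, sum_w, sum_jw]
  have hS2 := jumpnum_sq_sum hC0 hw r
  have hs : 0 < √(m : ℝ) := Real.sqrt_pos.2 hM0
  have hs2 : √(m : ℝ) ^ 2 = m := Real.sq_sqrt hM0.le
  have ht : 0 < √((r : ℝ) + 1) := Real.sqrt_pos.2 (by linarith)
  have hst : √(m : ℝ) ≤ 3 * √((r : ℝ) + 1) := by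
    have : √(m : ℝ) ≤ √(3 ^ 2 * ((r : ℝ) + 1)) := Real.sqrt_le_sqrt (by linarith)
    rwa [Real.sqrt_mul (by norm_num), Real.sqrt_sq (by norm_num)] at this
  have hrs : √(r : ℝ) ≤ √(m : ℝ) := Real.sqrt_le_sqrt hR2
  have hwr := w_pos r
  have hD : 0 < (m : ℝ) * √(m : ℝ) := by positivity
  -- basic decay estimate
  have hA : ((r : ℝ) + 1) ^ 2 * w r * √(m : ℝ) ≤ 3 * C0 := by
    have h3 := hw r
    have h4 : ((r : ℝ) + 1) ^ 2 * w r * √(m : ℝ)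
        ≤ ((r : ℝ) + 1) ^ 2 * w r * (3 * √((r : ℝ) + 1)) :=
      mul_le_mul_of_nonneg_left hst (by positivity)
    linarith
  have hP1 : P ≤ 1 := by
    have : 0 ≤ 4 * ((b : ℝ) - m) ^ 2 / (m : ℝ) ^ 2 := by positivity
    linarith
  have hQ1 : -(4 / (m : ℝ)) ≤ Q := by
    have : Q + 4 / (m : ℝ) = (8 * (b : ℝ) - 4 * m) / (m : ℝ) ^ 2 := by
      rw [hQ]; field_simp; ring
    have h5 : 0 ≤ (8 * (b : ℝ) - 4 * m) / (m : ℝ) ^ 2 := div_nonneg (by linarith) (by positivity)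
    linarith
  have hQ2 : Q ≤ 4 / (m : ℝ) := by
    have : 4 / (m : ℝ) - Q = (12 * (m : ℝ) - 8 * b) / (m : ℝ) ^ 2 := by
      rw [hQ]; field_simp; ring
    have h5 : 0 ≤ (12 * (m : ℝ) - 8 * b) / (m : ℝ) ^ 2 := div_nonneg (by linarith) (by positivity)
    linarith
  have hT0 : P / 8 * ((2 * (r : ℝ) + 4) / 3 * w r) ≤ 4 * C0 / ((m : ℝ) * √(m : ℝ)) := by
    have h5 : P / 8 * ((2 * (r : ℝ) + 4) / 3 * w r) ≤ 1 / 8 * ((2 * (r : ℝ) + 4) / 3 * w r) :=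
      mul_le_mul_of_nonneg_right (by linarith) (by positivity)
    refine h5.trans ?_
    rw [le_div_iff₀ hD]
    have h6 : (2 * (r : ℝ) + 4) * m ≤ 32 * ((r : ℝ) + 1) ^ 2 := by nlinarith
    have h7 := mul_le_mul_of_nonneg_right h6 (by positivity : 0 ≤ w r * √(m : ℝ))
    nlinarith
  have hT1 : Q / 4 * ((2 * (r : ℝ) ^ 2 + 16 * r / 3 + 8 / 3) * w r)
      ≤ 8 * C0 / ((m : ℝ) * √(m : ℝ)) := by
    have h5 : Q / 4 * ((2 * (r : ℝ) ^ 2 + 16 * r / 3 + 8 / 3) * w r)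
        ≤ (4 / (m : ℝ)) / 4 * ((2 * (r : ℝ) ^ 2 + 16 * r / 3 + 8 / 3) * w r) :=
      mul_le_mul_of_nonneg_right (by linarith) (by positivity)
    refine h5.trans ?_
    rw [le_div_iff₀ hD]
    have h6 : 2 * (r : ℝ) ^ 2 + 16 * r / 3 + 8 / 3 ≤ 8 / 3 * ((r : ℝ) + 1) ^ 2 := by nlinarith
    have h7 := mul_le_mul_of_nonneg_right h6 (by positivity : 0 ≤ w r * √(m : ℝ))
    have h8 : (4 / (m : ℝ)) / 4 * ((2 * (r : ℝ) ^ 2 + 16 * r / 3 + 8 / 3) * w r)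
        * ((m : ℝ) * √(m : ℝ))
        = (2 * (r : ℝ) ^ 2 + 16 * r / 3 + 8 / 3) * (w r * √(m : ℝ)) := by
      field_simp
    rw [h8]
    nlinarith
  have hT2 : 2 / (m : ℝ) ^ 2 * ∑ j ∈ range r, ((j : ℝ) + 1) ^ 2 * w j
      ≤ 4 * C0 / ((m : ℝ) * √(m : ℝ)) := by
    have h5 : ∑ j ∈ range r, ((j : ℝ) + 1) ^ 2 * w j ≤ 2 * C0 * √(m : ℝ) :=
      hS2.trans (mul_le_mul_of_nonneg_left hrs (by positivity))
    refine (mul_le_mul_of_nonneg_left h5 (by positivity)).trans (le_of_eq ?_)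
    rw [eq_div_iff hD.ne']
    have : 2 / (m : ℝ) ^ 2 * (2 * C0 * √(m : ℝ)) * ((m : ℝ) * √(m : ℝ))
        = 4 * C0 * √(m : ℝ) ^ 2 / m := by
      field_simp
      ring
    rw [this, hs2]
    field_simp
  have e : 16 * C0 / ((m : ℝ) * √(m : ℝ)) = 4 * C0 / ((m : ℝ) * √(m : ℝ))
      + 8 * C0 / ((m : ℝ) * √(m : ℝ)) + 4 * C0 / ((m : ℝ) * √(m : ℝ)) := by ring
  rw [e]
  linarith

theorem jump_num : ∃ C : ℝ, 0 < C ∧ ∀ m b : ℕ, 8 ≤ m → m < 2 * b → 2 * b < 3 * m →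
    psiJ m b ≤ 2 / 3 * psiJ m (b + 2)
      + ∑ j ∈ range ((b - b / 2) / 2), w j / 8 * psiJ m (b - 2 * j - 2)
      + ∑ j ∈ range ((b / 2 + 1) / 2), w j / 8 * psiJ m (b - 2 * j - 2)
      + C / ((m : ℝ) * √(m : ℝ)) := by
  obtain ⟨c, C0, -, hC0, hw⟩ := w_bounds
  refine ⟨32 * C0 + 11, by positivity, fun m b hm h1 h2 => ?_⟩
  have hA := jumpnum_side hC0 (fun L => (hw L).2) m b ((b - b / 2) / 2) hm h1 h2 (by omega)
    (by omega) (by omega)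
  have hB := jumpnum_side hC0 (fun L => (hw L).2) m b ((b / 2 + 1) / 2) hm h1 h2 (by omega)
    (by omega) (by omega)
  have hM : (8 : ℝ) ≤ m := by exact_mod_cast hm
  have hM0 : (0 : ℝ) < m := by linarith
  have hb1 : (m : ℝ) < 2 * b := by exact_mod_cast h1
  have hb2 : 2 * (b : ℝ) < 3 * m := by exact_mod_cast h2
  have hs : 0 < √(m : ℝ) := Real.sqrt_pos.2 hM0
  have hD : 0 < (m : ℝ) * √(m : ℝ) := by positivity
  have hP : psiJ m b = 1 - 4 * ((b : ℝ) - m) ^ 2 / (m : ℝ) ^ 2 := by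
    unfold psiJ
    refine max_eq_right ?_
    rw [sub_nonneg, div_le_one (by positivity)]
    nlinarith
  have hF : 1 - 4 * ((b : ℝ) - m) ^ 2 / (m : ℝ) ^ 2 - 2 * (8 * ((b : ℝ) - m) / (m : ℝ) ^ 2)
      - 16 / (m : ℝ) ^ 2 ≤ psiJ m (b + 2) := by
    unfold psiJ
    refine le_trans (le_of_eq ?_) (le_max_right _ _)
    push_cast
    field_simp
    ring
  have hG : 2 / 3 * (16 / (m : ℝ) ^ 2) ≤ 11 / ((m : ℝ) * √(m : ℝ)) := by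
    have h3 : √(m : ℝ) ≤ m := by
      rw [Real.sqrt_le_left hM0.le]
      nlinarith
    have h4 : 11 / (m : ℝ) ^ 2 ≤ 11 / ((m : ℝ) * √(m : ℝ)) :=
      div_le_div_of_nonneg_left (by norm_num) hD (by nlinarith)
    have h5 : 2 / 3 * (16 / (m : ℝ) ^ 2) ≤ 11 / (m : ℝ) ^ 2 := by
      have h6 : 0 < 1 / (m : ℝ) ^ 2 := by positivity
      have e1 : 16 / (m : ℝ) ^ 2 = 16 * (1 / (m : ℝ) ^ 2) := by ring
      have e2 : 11 / (m : ℝ) ^ 2 = 11 * (1 / (m : ℝ) ^ 2) := by ring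
      rw [e1, e2]
      linarith
    linarith
  have e : (32 * C0 + 11) / ((m : ℝ) * √(m : ℝ)) = 16 * C0 / ((m : ℝ) * √(m : ℝ))
      + 16 * C0 / ((m : ℝ) * √(m : ℝ)) + 11 / ((m : ℝ) * √(m : ℝ)) := by ring
  rw [e, hP]
  linarith

end Pool.Agent.P.MP_7a6434d8_pr
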