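import Pool.Agent.P.MP_7a6434d8_pr.Defs

namespace Pool.Agent.P.MP_7a6434d8_pr

open Mp Finset
open scoped ENNReal

theorem tile_aux (d D s : ℕ) (x : ℕ → ℕ) (x0 : x 0 = d) (xs : ∀ n, x (n + 1) = 2 * x n)
    (hs : 1 ≤ s) (h1 : 3 * x s ≤ D + 2 * d) (h2 : D + 2 * d < 6 * x s) : ∃ a : ℕ → ℕ,
    a 0 = 0 ∧ a 1 = d ∧ a (2 * s) + d = D ∧ a (2 * s + 1) = D ∧
    (∀ i, i ≤ 2 * s → a i ≤ a (i + 1)) ∧
    ∀ i, i + 2 ≤ 2 * s → ∃ b, d ≤ b ∧ a i + b ≤ a (i + 1) ∧ a (i + 2) + b ≤ a (i + 3) ∧
      a (i + 3) ≤ a i + 20 * b := by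
  have xm : Monotone x := monotone_nat_of_le_succ fun n => by rw [xs]; omega
  have xd : ∀ n, d ≤ x n := fun n => x0 ▸ xm (Nat.zero_le n)
  obtain ⟨a, aL, aR⟩ : ∃ a : ℕ → ℕ, (∀ i, i ≤ s → a i + d = x i) ∧
      ∀ i j, j ≤ s → i + j = 2 * s + 1 → a i + x j = D + d := by
    refine ⟨fun i => if i ≤ s then x i - d else D + d - x (2 * s + 1 - i), fun i hi => ?_,
      fun i j hj hij => ?_⟩
    · have := xd i
      simp only [if_pos hi]
      omega
    · have h3 : ¬ i ≤ s := by omega
      have h4 : 2 * s + 1 - i = j := by omega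
      have := xm hj
      have := xd s
      simp only [if_neg h3, h4]
      omega
  have x1 : x 1 = 2 * x 0 := xs 0
  have xs2 : ∀ n, x (n + 2) = 4 * x n := fun n => by
    have h3 : x (n + 2) = 2 * x (n + 1) := xs (n + 1)
    rw [h3, xs]; omega
  have xs3 : ∀ n, x (n + 3) = 8 * x n := fun n => by
    have h3 : x (n + 3) = 2 * x (n + 2) := xs (n + 2)
    rw [h3, xs2]; omega
  refine ⟨a, ?_, ?_, ?_, ?_, fun i hi => ?_, fun i hi => ?_⟩
  · have := aL 0 (by omega)
    omega
  · have := aL 1 hs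
    omega
  · have := aR (2 * s) 1 hs (by omega)
    omega
  · have := aR (2 * s + 1) 0 (by omega) (by omega)
    omega
  · rcases lt_trichotomy i s with h | h | h
    · have := aL i h.le
      have := aL (i + 1) h
      have := xs i
      omega
    · subst h
      have := aL i le_rfl
      have := aR (i + 1) i le_rfl (by omega)
      omega
    · obtain ⟨j, hj⟩ : ∃ j, i + j = 2 * s := ⟨2 * s - i, by omega⟩
      have := aR i (j + 1) (by omega) (by omega)
      have := aR (i + 1) j (by omega) (by omega)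
      have := xs j
      omega
  · by_cases c1 : i + 3 ≤ s
    · have := aL i (by omega)
      have := aL (i + 1) (by omega)
      have := aL (i + 2) (by omega)
      have := aL (i + 3) c1
      have := xs i
      have := xs2 i
      have := xs3 i
      exact ⟨x i, xd i, by omega, by omega, by omega⟩
    by_cases c2 : i + 2 = s
    · subst c2
      have := aL i (by omega)
      have := aL (i + 1) (by omega)
      have := aL (i + 2) (by omega)
      have := aR (i + 3) (i + 2) le_rfl (by omega)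
      have := xs i
      have := xs2 i
      exact ⟨x i, xd i, by omega, by omega, by omega⟩
    by_cases c3 : i + 1 = s
    · subst c3
      have := aL i (by omega)
      have := aL (i + 1) (by omega)
      have := aR (i + 2) (i + 1) le_rfl (by omega)
      have := aR (i + 3) i (by omega) (by omega)
      have := xs i
      exact ⟨x i, xd i, by omega, by omega, by omega⟩
    obtain ⟨j, hj⟩ : ∃ j, i + 2 + j = 2 * s := ⟨2 * s - (i + 2), by omega⟩
    have := aR (i + 1) (j + 2) (by omega) (by omega)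
    have := aR (i + 2) (j + 1) (by omega) (by omega)
    have := aR (i + 3) j (by omega) (by omega)
    have := xs j
    have := xs2 j
    have := xs3 j
    by_cases c4 : i = s
    · have h5 : s = j + 2 := by omega
      have := aL i (by omega)
      have h6 : x i = x (j + 2) := by rw [c4, h5]
      have h7 : x s = x (j + 2) := by rw [h5]
      exact ⟨x j, xd j, by omega, by omega, by omega⟩
    · have := aR i (j + 3) (by omega) (by omega)
      exact ⟨x j, xd j, by omega, by omega, by omega⟩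

theorem tile (d D : ℕ) (hd : 1 ≤ d) (hD : 4 * d ≤ D) : ∃ (s : ℕ) (a : ℕ → ℕ), 1 ≤ s ∧
    2 ^ s * d ≤ D ∧ a 0 = 0 ∧ a 1 = d ∧ a (2 * s) + d = D ∧ a (2 * s + 1) = D ∧
    (∀ i, i ≤ 2 * s → a i ≤ a (i + 1)) ∧
    ∀ i, i + 2 ≤ 2 * s → ∃ b, d ≤ b ∧ a i + b ≤ a (i + 1) ∧ a (i + 2) + b ≤ a (i + 3) ∧
      a (i + 3) ≤ a i + 20 * b := by
  classical
  have hex : ∃ n, D + 2 * d < 6 * (2 ^ n * d) := by
    refine ⟨D, ?_⟩
    have h1 : D < 2 ^ D := Nat.lt_two_pow_self
    have h2 : 2 ^ D * 1 ≤ 2 ^ D * d := Nat.mul_le_mul_left _ hd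
    omega
  have h2 := Nat.find_spec hex
  have h0 : Nat.find hex ≠ 0 := by
    intro h
    rw [h] at h2
    omega
  obtain ⟨u, hu⟩ := Nat.exists_eq_succ_of_ne_zero h0
  have h1 := not_lt.mp (Nat.find_min hex (show u < Nat.find hex by omega))
  rw [hu] at h2
  have h3 : 2 ^ (u + 1) * d = 2 * (2 ^ u * d) := by ring
  obtain ⟨a, ha⟩ := tile_aux d D (u + 1) (fun n => 2 ^ n * d) (by simp) (fun n => by ring)
    (by omega) (by omega) h2
  exact ⟨u + 1, a, by omega, by omega, ha⟩

end Pool.Agent.P.MP_7a6434d8_pr
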