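import Pool.Agent.P.MP_7a6434d8_pr.Chord
import Pool.Agent.P.MP_7a6434d8_pr.Tile
import Pool.Agent.P.MP_7a6434d8_pr.Chain

namespace Pool.Agent.P.MP_7a6434d8_pr

open Mp Finset
open scoped ENNReal

theorem level_split (t : Mp) (ht : ok t) (p q d r : ℕ) (x : ℕ → ℕ) (hr : 2 ≤ r)
    (hx : ∀ i, i ≤ r → x i ≤ x (i + 1)) (h0 : x 0 = p) (h1 : x 1 = p + d) (h2 : x r + d = q)
    (h3 : x (r + 1) = q) (hq : q ≤ 2 * per t) (ρ Tc T' : ℝ) (hTc : 0 < Tc)
    (hT' : ((r : ℝ) - 1) * Tc + 2 * ρ ≤ T') (H : Far t {p} {q} T') :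
    (∃ y ∈ Icc p (p + d), Far t {p} {y} ρ) ∨ (∃ y ∈ Icc (q - d) q, Far t {y} {q} ρ) ∨
      ∃ i ∈ range (r - 1),
        Far t (Set.Icc (x i) (x (i + 1))) (Set.Icc (x (i + 2)) (x (i + 3))) Tc := by
  by_cases c1 : ∃ y ∈ Icc p (p + d), Far t {p} {y} ρ
  · exact Or.inl c1
  by_cases c2 : ∃ y ∈ Icc (q - d) q, Far t {y} {q} ρ
  · exact Or.inr (Or.inl c2)
  push Not at c1 c2
  obtain ⟨h, e, he, htr, hp, hq'⟩ := H
  have hp0 := hp p rfl
  have hq0 := hq' q rfl
  have hF : Far t (Set.Icc (x 0) (x 1)) (Set.Icc (x r) (x (r + 1))) (((r : ℝ) - 1) * Tc) := by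
    refine Far.of_tr (a := ρ) htr he (fun y hy => ?_) (fun y hy => ?_)
    · rw [h0, h1] at hy
      have := lt_of_not_far (c1 y (mem_Icc.mpr hy)) htr he
      linarith
    · rw [h3] at hy
      have := lt_of_not_far (c2 y (mem_Icc.mpr ⟨by have := hy.1; omega, hy.2⟩)) htr he
      linarith
  obtain ⟨i, hi, hF'⟩ := chain t ht x r hr hx (h3 ▸ hq) Tc hTc hF
  exact Or.inr (Or.inr ⟨i, mem_range.mpr (by omega), hF'⟩)

theorem level_sum {L : ℕ} (s : Finset ℕ) (ψ : ℕ → Mp → Prop) (c : ℝ) (n : ℕ) (hc : 0 ≤ c)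
    (hn : s.card ≤ n) (h : ∀ i ∈ s, mass L (ψ i) ≤ c) :
    mass L (fun t => ∃ i ∈ s, ψ i t) ≤ n * c := by
  refine (mass_le_sum s ψ fun t _ _ h => h).trans ?_
  refine (sum_le_card_nsmul _ _ _ h).trans ?_
  rw [nsmul_eq_mul]
  exact mul_le_mul_of_nonneg_right (by exact_mod_cast hn) hc

theorem level : ∃ C δ : ℝ, 0 < C ∧ 0 < δ ∧ ∀ (G M lam R : ℕ) (ρ ε T β : ℝ), 1 ≤ G →
    C * (G : ℝ) ^ 2 ≤ lam → 1 ≤ M → 8 * M ≤ 2 ^ R → 0 ≤ ρ → 0 ≤ ε → 0 < T → 0 ≤ β →
    NearHyp lam ρ ε → NearHyp (M * lam) T β →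
    NearHyp (M * lam)
      (2 * R * (2 * T + 1 + (G : ℝ) ^ 8 * (13 * (G : ℝ) ^ 2 * M + ρ + 3)) + 2 * ρ)
      (2 * R * (Real.exp (-(δ * (G : ℝ) ^ 2)) + C * β / G
          + C * (G : ℝ) ^ 12 * ((M : ℝ) * lam) ^ 2 * lam * ε) + (2 * lam + 2) * ε) := by
  obtain ⟨C0, δ, hC0, hδ, hch⟩ := chord
  refine ⟨8 * C0 + 4, δ, by positivity, hδ, ?_⟩
  intro G M lam R ρ ε T β hG hlam hM hR hρ hε hT hβ H1 H2
  set Tc := 2 * T + 1 + (G : ℝ) ^ 8 * (13 * (G : ℝ) ^ 2 * M + ρ + 3) with hTcdef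
  set η := Real.exp (-(δ * (G : ℝ) ^ 2)) + (8 * C0 + 4) * β / G
    + (8 * C0 + 4) * (G : ℝ) ^ 12 * ((M : ℝ) * lam) ^ 2 * lam * ε with hηdef
  have hTc : 0 < Tc := by positivity
  have hη : 0 ≤ η := by positivity
  have hG1 : (1 : ℝ) ≤ (G : ℝ) ^ 2 := one_le_pow₀ (by exact_mod_cast hG)
  have hCG : 0 ≤ C0 * (G : ℝ) ^ 2 := by positivity
  have hlam4 : 4 ≤ lam := by
    have : (4 : ℝ) ≤ lam := by nlinarith
    exact_mod_cast this
  have key : ∀ L p q : ℕ, p ≤ q → q ≤ 2 * L → q ≤ p + M * lam →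
      mass L (fun t => Far t {p} {q} (2 * R * Tc + 2 * ρ)) ≤
        (2 * R * η + (2 * lam + 2) * ε) * Z L := by
    intro L p q hpq hq hqp
    have hZ := (Z_pos L).le
    have hRT : 0 ≤ 2 * (R : ℝ) * Tc := by positivity
    have hRη : 0 ≤ 2 * (R : ℝ) * η := by positivity
    have hle : 0 ≤ (lam : ℝ) * ε := by positivity
    by_cases c : q ≤ p + lam
    · calc mass L (fun t => Far t {p} {q} (2 * R * Tc + 2 * ρ))
          ≤ mass L (fun t => Far t {p} {q} ρ) :=
            mass_mono fun t _ _ h => h.mono subset_rfl subset_rfl (by linarith)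
        _ ≤ ε * Z L := H1 L p q (by omega) hq (by omega) c
        _ ≤ _ := mul_le_mul_of_nonneg_right (by nlinarith) hZ
    obtain ⟨D, rfl⟩ := Nat.exists_eq_add_of_le hpq
    set d := lam / 4 with hd
    obtain ⟨s, a, hs, hsD, a0, a1, a2, a3, am, ab⟩ := tile d D (by omega) (by omega)
    have hsR : s ≤ R := by
      have e1 : M * lam ≤ M * (8 * d) := Nat.mul_le_mul_left _ (by omega)
      have e2 : 8 * M * d ≤ 2 ^ R * d := Nat.mul_le_mul_right _ hR
      have e3 : M * (8 * d) = 8 * M * d := by ring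
      have e4 : 2 ^ s * d ≤ 2 ^ R * d := by omega
      exact (Nat.pow_le_pow_iff_right one_lt_two).mp
        (Nat.le_of_mul_le_mul_right e4 (by omega))
    have aD : ∀ k i, i + k = 2 * s + 1 → a i ≤ D := by
      intro k
      induction k with
      | zero => intro i hi; rw [show i = 2 * s + 1 by omega, a3]
      | succ k ih => intro i hi; exact (am i (by omega)).trans (ih (i + 1) (by omega))
    have aD' : ∀ i, i ≤ 2 * s + 1 → a i ≤ D := fun i hi => aD (2 * s + 1 - i) i (by omega)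
    have hsR' : (s : ℝ) ≤ R := by exact_mod_cast hsR
    have b1 := level_sum (L := L) (Icc p (p + d)) (fun y t => Far t {p} {y} ρ) (ε * Z L)
      (lam + 1) (by positivity) (by rw [Nat.card_Icc]; omega) fun y hy => by
        have := mem_Icc.mp hy
        exact H1 L p y (by omega) (by omega) (by omega) (by omega)
    have b2 := level_sum (L := L) (Icc (p + D - d) (p + D)) (fun y t => Far t {y} {p + D} ρ)
      (ε * Z L) (lam + 1) (by positivity) (by rw [Nat.card_Icc]; omega) fun y hy => by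
        have := mem_Icc.mp hy
        exact H1 L y (p + D) (by omega) (by omega) (by omega) (by omega)
    have b3 := level_sum (L := L) (range (2 * s - 1))
      (fun i t => Far t (Set.Icc (p + a i) (p + a (i + 1)))
        (Set.Icc (p + a (i + 2)) (p + a (i + 3))) Tc)
      (η * Z L) (2 * R) (by positivity) (by rw [card_range]; omega) fun i hi => by
        have hi' := mem_range.mp hi
        obtain ⟨b, hb1, hb2, hb3, hb4⟩ := ab i (by omega)
        have e1 := aD' (i + 1) (by omega)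
        have e2 := aD' (i + 2) (by omega)
        have e3 := aD' (i + 3) (by omega)
        have e4 : a (i + 1) ≤ a (i + 2) := am (i + 1) (by omega)
        have e5 : C0 * (G : ℝ) ^ 2 ≤ b := by
          have : (lam : ℝ) ≤ 8 * b := by exact_mod_cast (by omega : lam ≤ 8 * b)
          nlinarith
        refine (hch G M lam b _ _ _ _ L ρ ε T β hG e5 (by omega) (by omega) (by omega) (by omega)
          (by omega) (by omega) (by omega) (by omega) hρ hε hT hβ H1 H2).trans ?_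
        refine mul_le_mul_of_nonneg_right ?_ hZ
        rw [hηdef]
        gcongr <;> linarith
    have b4 := mass_le_add (L := L)
      (φ := fun t => Far t {p} {p + D} (2 * R * Tc + 2 * ρ)) fun t ht hL H =>
        level_split t ht p (p + D) d (2 * s) (fun i => p + a i) (by omega)
          (fun i hi => Nat.add_le_add_left (am i hi) p) (by simp [a0]) (by simp [a1])
          (by omega) (by simp [a3]) (hL ▸ hq) ρ Tc _ hTc
          (by push_cast; nlinarith) H
    have b5 := mass_le_add (L := L)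
      (φ := fun t => (∃ y ∈ Icc (p + D - d) (p + D), Far t {y} {p + D} ρ) ∨
        ∃ i ∈ range (2 * s - 1), Far t (Set.Icc (p + a i) (p + a (i + 1)))
          (Set.Icc (p + a (i + 2)) (p + a (i + 3))) Tc) fun t _ _ H => H
    push_cast at b1 b2 b3
    linarith
  intro L p q hp hq h1 h2
  rcases le_total p q with h | h
  · exact key L p q h hq h2
  · exact (mass_mono fun t _ _ H => H.symm).trans (key L q p h hp h1)

end Pool.Agent.P.MP_7a6434d8_pr
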