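import Pool.Agent.P.MP_7a6434d8_pr.Euler
import Pool.Agent.P.MP_7a6434d8_pr.Exist
import Pool.Agent.P.MP_7a6434d8_pr.DartB
import Pool.Agent.P.MP_7a6434d8_pr.DartC

namespace Pool.Agent.P.MP_7a6434d8_pr

open Mp Finset
open scoped ENNReal

theorem linka_iter {D : Type} {α φ : D → D} {t : Mp} {θ : Dt t → D} (h : Emb α φ t θ) (m : ℕ)
    (d : Dt t) : θ ((ph t)^[m] d) = φ^[m] (θ d) := by
  induction m with
  | zero => rfl
  | succ m ih => rw [Function.iterate_succ_apply', Function.iterate_succ_apply', h.map_ph, ih]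

theorem rep_exists {n : ℕ} (q : Quad n) : ∃ t, Rep q t := by
  obtain ⟨t, ht, θ, hE, hS, hr⟩ := exists_real _ _ _ _ (quad_good q)
  have hsurj : Function.Surjective θ := fun d => (hS d).1 (mem_univ d)
  obtain ⟨d0, hd0, hθ⟩ := Option.map_eq_some_iff.1 hr
  have hp : 0 < per t := by
    by_contra h
    have := (bd_eq_none t ht 0).2 (by omega)
    rw [hd0] at this
    cases this
  have h4 : (ph t)^[4] d0 = d0 := by
    apply hE.inj
    rw [linka_iter hE, hθ, ← Equiv.Perm.coe_pow]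
    exact (q.φ_four _).1
  have h2 : (ph t)^[2] d0 ≠ d0 := by
    intro h
    have := congrArg θ h
    rw [linka_iter hE, hθ, ← Equiv.Perm.coe_pow] at this
    exact (q.φ_four _).2 this
  have h5 := bd_iter t ht 0 4 d0 hd0
  rw [h4] at h5
  have h6 := bd_inj t ht _ _ _ h5 hd0
  have hper : per t = 2 := by
    have h7 : 2 * per t ≤ 4 := Nat.le_of_dvd (by norm_num) (Nat.dvd_of_mod_eq_zero h6)
    by_contra hne
    have h8 : per t = 1 := by omega
    have h9 := bd_iter t ht 0 2 d0 hd0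
    rw [h8] at h9
    norm_num only at h9
    rw [hd0] at h9
    exact h2 (Option.some.inj h9).symm
  refine ⟨t, ht, hper, ?_, θ, hE, hsurj, hr⟩
  have h10 := Fintype.card_of_bijective (f := θ) ⟨hE.inj, hsurj⟩
  rw [card_Dt, edges_eq t ht, Fintype.card_fin] at h10
  omega

theorem rep_res {n : ℕ} (q : Quad n) (t : Mp) (h : Rep q t) (T : ℝ) (hT : 0 ≤ T)
    (hn : ¬ FarV t T) : ResLe q (4 * T ^ 2) := by
  obtain ⟨ht, hper, -, θ, hE, hsurj, -⟩ := h
  intro f u v
  have hos := org_surj t ht (by omega)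
  have hF : ∀ d, q.tail (θ (ph t (al t d))) = q.tail (θ d) := by
    intro d
    rw [hE.map_ph, hE.map_al]
    exact Quotient.sound (Equiv.Perm.SameCycle.symm ⟨1, by simp⟩)
  set f' : V t → ℝ := fun x => f (q.tail (θ (hos x).choose)) with hf'
  have hf : ∀ d, f' (org t d) = f (q.tail (θ d)) := fun d =>
    congrArg f (factor_org t ht (fun d => q.tail (θ d)) hF _ _ (hos (org t d)).choose_spec)
  have hen : ∑ d, (f (q.tail d) - f (q.head d)) ^ 2 = 2 * energy t f' := by
    rw [two_energy]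
    refine (Fintype.sum_bijective θ ⟨hE.inj, hsurj⟩ _ _ fun d => ?_).symm
    rw [hf, hf, hE.map_al, Quad.head]
  have key : ∀ x, (f' x - f' (bv t 0)) ^ 2 ≤ T ^ 2 * energy t f' := by
    intro x
    by_contra hc
    push Not at hc
    have h0 : 0 ≤ T ^ 2 * energy t f' := mul_nonneg (sq_nonneg _) (energy_nonneg _ _)
    have hδ : 0 < (f' x - f' (bv t 0)) ^ 2 := lt_of_le_of_lt h0 hc
    have hδ' : f' x - f' (bv t 0) ≠ 0 := fun h => by simp [h] at hδ
    refine hn ⟨fun y => T / (f' x - f' (bv t 0)) * (f' y - f' (bv t 0)), x, ?_, by simp, ?_⟩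
    · rw [energy_smul]
      have h1 : energy t (fun y => f' y - f' (bv t 0)) ≤ energy t f' :=
        energy_le_of_adj t _ _ fun a b _ => le_of_eq (by ring)
      calc _ ≤ (T / (f' x - f' (bv t 0))) ^ 2 * energy t f' := by gcongr
        _ < 1 := by rw [div_pow, div_mul_eq_mul_div, div_lt_one hδ]; exact hc
    · exact (div_mul_cancel₀ _ hδ').ge
  obtain ⟨du, rfl⟩ : ∃ d, q.tail (θ d) = u := by
    obtain ⟨d, rfl⟩ := Quotient.exists_rep u
    obtain ⟨d, rfl⟩ := hsurj d
    exact ⟨d, rfl⟩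
  obtain ⟨dv, rfl⟩ : ∃ d, q.tail (θ d) = v := by
    obtain ⟨d, rfl⟩ := Quotient.exists_rep v
    obtain ⟨d, rfl⟩ := hsurj d
    exact ⟨d, rfl⟩
  rw [hen, ← hf, ← hf]
  nlinarith [key (org t du), key (org t dv),
    sq_nonneg (f' (org t du) + f' (org t dv) - 2 * f' (bv t 0))]

end Pool.Agent.P.MP_7a6434d8_pr
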