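import Pool.Agent.P.MP_7a6434d8_pr.LinkDefs
import Pool.Agent.P.MP_7a6434d8_pr.DartB
import Pool.Agent.P.MP_7a6434d8_pr.DartC

namespace Pool.Agent.P.MP_7a6434d8_pr

open Mp Finset
open scoped ENNReal

theorem linkb_four (t : Mp) (ht : ok t) (hp : per t = 2) (d : Dt t) :
    (ph t)^[4] d = d ∧ (ph t)^[2] d ≠ d := by
  rcases quad_inner t ht d with ⟨k, hk⟩ | h
  · have hk4 : k < 4 := by
      by_contra hc
      have := (bd_eq_none t ht k).2 (by omega)
      rw [this] at hk
      cases hk
    have h4 := bd_iter t ht k 4 d hk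
    have h2 := bd_iter t ht k 2 d hk
    rw [hp] at h4 h2
    have e4 : (k + 4) % (2 * 2) = k := by omega
    rw [e4, hk] at h4
    refine ⟨(Option.some.inj h4).symm, fun h => ?_⟩
    rw [h] at h2
    have := bd_inj t ht _ _ d hk h2
    omega
  · exact h

theorem rep_build (n : ℕ) (t : Mp) (ht : ok t) (hp : per t = 2) (hs : size t + 1 = n) :
    ∃ q : Quad n, Rep q t := by
  classical
  have hcard : Fintype.card (Dt t) = 4 * n := by
    rw [card_Dt, edges_eq t ht, hp, ← hs]; ring
  let e : Dt t ≃ Fin (4 * n) := Fintype.equivFinOfCardEq hcard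
  let A : Equiv.Perm (Dt t) := Function.Involutive.toPerm (al t) (al_al t)
  let P : Equiv.Perm (Dt t) :=
    Equiv.ofBijective (ph t) (Finite.injective_iff_bijective.1 (ph_inj t ht))
  have hA : ∀ d, e.permCongr A (e d) = e (al t d) := fun d => by
    rw [Equiv.permCongr_apply, Equiv.symm_apply_apply]; rfl
  have hP : ∀ d, e.permCongr P (e d) = e (ph t d) := fun d => by
    rw [Equiv.permCongr_apply, Equiv.symm_apply_apply]; rfl
  obtain ⟨r, hr⟩ : ∃ r, bd t 0 = some r := by
    cases h : bd t 0 with
    | none => have := (bd_eq_none t ht 0).1 h; omega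
    | some r => exact ⟨r, rfl⟩
  have hpow : ∀ (m : ℕ) (d : Dt t), ((e.permCongr P) ^ m) (e d) = e ((ph t)^[m] d) := by
    intro m
    induction m with
    | zero => intro d; rfl
    | succ m ih =>
      intro d
      rw [pow_succ, Equiv.Perm.mul_apply, hP, ih, Function.iterate_succ_apply]
  have hσ : ∀ d, (e.permCongr P * e.permCongr A) (e d) = e (ph t (al t d)) := fun d => by
    rw [Equiv.Perm.mul_apply, hA, hP]
  have horg : ∀ (m : ℕ) (d : Dt t),
      org t (e.symm (((e.permCongr P * e.permCongr A) ^ m) (e d))) = org t d := by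
    intro m
    induction m with
    | zero => intro d; simp
    | succ m ih =>
      intro d
      rw [pow_succ, Equiv.Perm.mul_apply, hσ, ih, org_ph t ht, al_al]
  refine ⟨⟨e.permCongr A, e.permCongr P, e r, ?_, ?_, ?_, ?_, ?_⟩, ht, hp, hs, e,
    ⟨e.injective, fun x => (hA x).symm, fun x => (hP x).symm⟩, e.surjective, by rw [hr]; rfl⟩
  · intro d
    obtain ⟨d, rfl⟩ := e.surjective d
    rw [hA, hA, al_al]
  · intro d
    obtain ⟨d, rfl⟩ := e.surjective d
    rw [hA]
    exact fun h => al_ne t d (e.injective h)
  · intro d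
    obtain ⟨d, rfl⟩ := e.surjective d
    rw [hpow, hpow]
    obtain ⟨h4, h2⟩ := linkb_four t ht hp d
    exact ⟨by rw [h4], fun h => h2 (e.injective h)⟩
  · intro d d'
    obtain ⟨d, rfl⟩ := e.surjective d
    obtain ⟨d', rfl⟩ := e.surjective d'
    set R : Fin (4 * n) → Fin (4 * n) → Prop :=
      fun x y => y = e.permCongr A x ∨ y = e.permCongr P x with hR
    have sa : ∀ x, Relation.ReflTransGen R (e d) (e x) →
        Relation.ReflTransGen R (e d) (e (al t x)) :=
      fun x h => h.tail (Or.inl (hA x).symm)
    have sp : ∀ x, Relation.ReflTransGen R (e d) (e x) →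
        Relation.ReflTransGen R (e d) (e (ph t x)) :=
      fun x h => h.tail (Or.inr (hP x).symm)
    have key := conn_darts t ht (fun x => Relation.ReflTransGen R (e d) (e x))
      (fun x => propext ⟨fun h => by simpa [al_al] using sa _ h, sa x⟩)
      (fun x => propext ⟨fun h => by
        have h4 := (linkb_four t ht hp x).1
        have h5 := sp _ (sp _ (sp _ h))
        have : ph t (ph t (ph t (ph t x))) = x := h4
        rwa [this] at h5, sp x⟩) d d'
    have h0 : Relation.ReflTransGen R (e d) (e d) := Relation.ReflTransGen.refl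
    exact key ▸ h0
  · let g : Quotient (Equiv.Perm.SameCycle.setoid (e.permCongr P * e.permCongr A)) → V t :=
      Quotient.lift (fun x => org t (e.symm x)) (by
        intro x y hxy
        obtain ⟨x, rfl⟩ := e.surjective x
        obtain ⟨i, -, hi⟩ := Equiv.Perm.SameCycle.exists_pow_eq' hxy
        rw [← hi, horg, Equiv.symm_apply_apply])
    have hg : Function.Bijective g := by
      constructor
      · intro x y hxy
        obtain ⟨x, rfl⟩ := Quotient.exists_rep x
        obtain ⟨y, rfl⟩ := Quotient.exists_rep y
        obtain ⟨x, rfl⟩ := e.surjective x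
        obtain ⟨y, rfl⟩ := e.surjective y
        have hxy' : org t x = org t y := by
          have : org t (e.symm (e x)) = org t (e.symm (e y)) := hxy
          simpa using this
        refine factor_org t ht
          (fun d => (Quotient.mk
            (Equiv.Perm.SameCycle.setoid (e.permCongr P * e.permCongr A)) (e d))) ?_ x y hxy'
        intro d
        apply Quotient.sound
        change Equiv.Perm.SameCycle _ _ _
        rw [← hσ]
        exact Equiv.Perm.sameCycle_apply_left.2 (Equiv.Perm.SameCycle.refl _ _)
      · intro v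
        obtain ⟨d, rfl⟩ := org_surj t ht (by omega) v
        refine ⟨Quotient.mk _ (e d), ?_⟩
        change org t (e.symm (e d)) = org t d
        rw [Equiv.symm_apply_apply]
    rw [Nat.card_eq_of_bijective g hg, Nat.card_eq_fintype_card, card_V t ht, hp]
    omega

end Pool.Agent.P.MP_7a6434d8_pr
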