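import Pool.Agent.P.MP_7a6434d8_pr.DartA

namespace Pool.Agent.P.MP_7a6434d8_pr

open Mp Finset
open scoped ENNReal

section aux
variable {D : Type} {α φ : D → D}

theorem unique_iter {t : Mp} {θ : Dt t → D} (E : Emb α φ t θ) (k : ℕ) (x : Dt t) :
    φ^[k] (θ x) = θ ((ph t)^[k] x) := by
  induction k with
  | zero => rfl
  | succ k ih => rw [Function.iterate_succ_apply', Function.iterate_succ_apply', ih, E.map_ph]

theorem unique_rem_pos {r d : D} (h : φ d = r ∨ φ d = α r) : rem α φ r d = φ (α (φ d)) := by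
  unfold rem
  rw [if_pos h]

theorem unique_rem_neg {r d : D} (h1 : φ d ≠ r) (h2 : φ d ≠ α r) : rem α φ r d = φ d := by
  unfold rem
  rw [if_neg (by tauto)]

theorem unique_face_not {t : Mp} (ht : ok (face t)) {θ : Dt (face t) → D}
    (E : Emb α φ (face t) θ) :
    ¬ ∃ k, φ^[k] (θ (Sum.inr true)) = α (θ (Sum.inr true)) := by
  rintro ⟨k, hk⟩
  rw [unique_iter E, ← E.map_al] at hk
  have h1 := E.inj hk
  have h2 := bd_iter (face t) ht 0 k (Sum.inr true) (by simp [bd])
  rw [h1] at h2
  generalize (0 + k) % (2 * per (face t)) = j at h2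
  simp only [bd] at h2
  split_ifs at h2 with hj
  · have h3 : (Sum.inr true : Dt t ⊕ Bool) = Sum.inr false := Option.some.inj h2
    simp at h3
  · obtain ⟨y, -, hy⟩ := Option.map_eq_some_iff.mp h2
    have h3 : (Sum.inl y : Dt t ⊕ Bool) = Sum.inr false := hy
    simp at h3

theorem unique_bridge_yes {a b : Mp} (ht : ok (bridge a b)) {θ : Dt (bridge a b) → D}
    (E : Emb α φ (bridge a b) θ) :
    ∃ k, φ^[k] (θ (Sum.inr true)) = α (θ (Sum.inr true)) := by
  refine ⟨2 * per b + 1, ?_⟩
  rw [unique_iter E, ← E.map_al]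
  congr 1
  have h2 := bd_iter (bridge a b) ht 0 (2 * per b + 1) (Sum.inr true) (by simp [bd])
  rw [zero_add, Nat.mod_eq_of_lt (by simp only [per]; omega)] at h2
  simp only [bd] at h2
  rw [if_neg (by omega), if_neg (by omega), if_pos trivial] at h2
  exact (Option.some.inj h2).symm

theorem unique_face_emb {t : Mp} (ht : ok (face t)) {θ : Dt (face t) → D}
    (E : Emb α φ (face t) θ) :
    Emb α (rem α φ (θ (Sum.inr true))) t (fun d => θ (Sum.inl d)) ∧
      (bd t 0).map (fun d => θ (Sum.inl d)) = some (φ (α (θ (Sum.inr true)))) := by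
  obtain ⟨h1, h2⟩ := ht
  have a1 : α (θ (Sum.inr true)) = θ (Sum.inr false) := (E.map_al (Sum.inr true)).symm
  have a2 : α (θ (Sum.inr false)) = θ (Sum.inr true) := (E.map_al (Sum.inr false)).symm
  have p1 : φ (θ (Sum.inr true)) = θ ((bd t 3).elim (Sum.inr true) Sum.inl) :=
    (E.map_ph (Sum.inr true)).symm
  have p2 : φ (θ (Sum.inr false)) = θ ((bd t 0).elim (Sum.inr false) Sum.inl) :=
    (E.map_ph (Sum.inr false)).symm
  refine ⟨⟨fun x y h => Sum.inl_injective (E.inj h), fun x => E.map_al (Sum.inl x), fun d => ?_⟩,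
    ?_⟩
  · have p3 := (E.map_ph (Sum.inl d)).symm
    by_cases c3 : bd t 3 = some (ph t d)
    · have e : ph (face t) (Sum.inl d) = Sum.inr false := by simp only [ph]; rw [if_pos c3]
      rw [e] at p3
      rw [unique_rem_pos (Or.inr (by rw [p3, a1])), p3, a2, p1, c3]
      rfl
    · by_cases c0 : bd t 0 = some (ph t d)
      · have e : ph (face t) (Sum.inl d) = Sum.inr true := by
          simp only [ph]; rw [if_neg c3, if_pos c0]
        rw [e] at p3
        rw [unique_rem_pos (Or.inl p3), p3, a1, p2, c0]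
        rfl
      · have e : ph (face t) (Sum.inl d) = Sum.inl (ph t d) := by
          simp only [ph]; rw [if_neg c3, if_neg c0]
        rw [e] at p3
        rw [unique_rem_neg, p3]
        · rw [p3]; exact fun h => Sum.inl_ne_inr (E.inj h)
        · rw [p3, a1]; exact fun h => Sum.inl_ne_inr (E.inj h)
  · rw [a1, p2]
    cases h0 : bd t 0 with
    | none => rw [bd_eq_none t h1] at h0; omega
    | some x => rfl

open Classical in
theorem unique_left_emb {a b : Mp} {θ : Dt (bridge a b) → D} (E : Emb α φ (bridge a b) θ) :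
    Emb α (rem α φ (θ (Sum.inr true))) a (fun d => θ (Sum.inl (Sum.inl d))) ∧
      (bd a 0).map (fun d => θ (Sum.inl (Sum.inl d))) =
        if φ (α (θ (Sum.inr true))) = θ (Sum.inr true) then none
        else some (φ (α (θ (Sum.inr true)))) := by
  have a1 : α (θ (Sum.inr true)) = θ (Sum.inr false) := (E.map_al (Sum.inr true)).symm
  have p2 : φ (θ (Sum.inr false)) =
      θ ((bd a 0).elim (Sum.inr true) (fun d => Sum.inl (Sum.inl d))) :=
    (E.map_ph (Sum.inr false)).symm
  refine ⟨⟨fun x y h => Sum.inl_injective (Sum.inl_injective (E.inj h)),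
    fun x => E.map_al (Sum.inl (Sum.inl x)), fun d => ?_⟩, ?_⟩
  · have p3 := (E.map_ph (Sum.inl (Sum.inl d))).symm
    by_cases c0 : bd a 0 = some (ph a d)
    · have e : ph (bridge a b) (Sum.inl (Sum.inl d)) = Sum.inr true := by
        simp only [ph]; rw [if_pos c0]
      rw [e] at p3
      rw [unique_rem_pos (Or.inl p3), p3, a1, p2, c0]
      rfl
    · have e : ph (bridge a b) (Sum.inl (Sum.inl d)) = Sum.inl (Sum.inl (ph a d)) := by
        simp only [ph]; rw [if_neg c0]
      rw [e] at p3
      rw [unique_rem_neg, p3]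
      · rw [p3]; exact fun h => Sum.inl_ne_inr (E.inj h)
      · rw [p3, a1]; exact fun h => Sum.inl_ne_inr (E.inj h)
  · rw [a1, p2]
    cases h0 : bd a 0 with
    | none => exact (if_pos rfl).symm
    | some x => exact (if_neg fun h => Sum.inl_ne_inr (E.inj h)).symm

open Classical in
theorem unique_right_emb {a b : Mp} {θ : Dt (bridge a b) → D} (E : Emb α φ (bridge a b) θ) :
    Emb α (rem α φ (θ (Sum.inr true))) b (fun d => θ (Sum.inl (Sum.inr d))) ∧
      (bd b 0).map (fun d => θ (Sum.inl (Sum.inr d))) =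
        if φ (θ (Sum.inr true)) = α (θ (Sum.inr true)) then none
        else some (φ (θ (Sum.inr true))) := by
  have a1 : α (θ (Sum.inr true)) = θ (Sum.inr false) := (E.map_al (Sum.inr true)).symm
  have a2 : α (θ (Sum.inr false)) = θ (Sum.inr true) := (E.map_al (Sum.inr false)).symm
  have p1 : φ (θ (Sum.inr true)) =
      θ ((bd b 0).elim (Sum.inr false) (fun d => Sum.inl (Sum.inr d))) :=
    (E.map_ph (Sum.inr true)).symm
  refine ⟨⟨fun x y h => Sum.inr_injective (Sum.inl_injective (E.inj h)),
    fun x => E.map_al (Sum.inl (Sum.inr x)), fun d => ?_⟩, ?_⟩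
  · have p3 := (E.map_ph (Sum.inl (Sum.inr d))).symm
    by_cases c0 : bd b 0 = some (ph b d)
    · have e : ph (bridge a b) (Sum.inl (Sum.inr d)) = Sum.inr false := by
        simp only [ph]; rw [if_pos c0]
      rw [e] at p3
      rw [unique_rem_pos (Or.inr (by rw [p3, a1])), p3, a2, p1, c0]
      rfl
    · have e : ph (bridge a b) (Sum.inl (Sum.inr d)) = Sum.inl (Sum.inr (ph b d)) := by
        simp only [ph]; rw [if_neg c0]
      rw [e] at p3
      rw [unique_rem_neg, p3]
      · rw [p3]; exact fun h => Sum.inl_ne_inr (E.inj h)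
      · rw [p3, a1]; exact fun h => Sum.inl_ne_inr (E.inj h)
  · rw [a1, p1]
    cases h0 : bd b 0 with
    | none => exact (if_pos rfl).symm
    | some x => exact (if_neg fun h => Sum.inl_ne_inr (E.inj h)).symm

end aux

theorem unique_real {D : Type} (α φ : D → D) (t t' : Mp) (ht : ok t) (ht' : ok t')
    (θ : Dt t → D) (θ' : Dt t' → D) (E : Emb α φ t θ) (E' : Emb α φ t' θ')
    (h : (bd t 0).map θ = (bd t' 0).map θ') : t = t' := by
  induction t generalizing φ t' with
  | pt =>
    cases t' with
    | pt => rfl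
    | face s => simp [bd] at h
    | bridge a b => simp [bd] at h
  | face t ih =>
    cases t' with
    | pt => simp [bd] at h
    | face s =>
      have hr : θ (Sum.inr true) = θ' (Sum.inr true) := by simpa [bd] using h
      obtain ⟨E1, r1⟩ := unique_face_emb ht E
      obtain ⟨E2, r2⟩ := unique_face_emb ht' E'
      rw [← hr] at E2 r2
      rw [ih _ s ht.1 ht'.1 _ _ E1 E2 (r1.trans r2.symm)]
    | bridge a b =>
      have hr : θ (Sum.inr true) = θ' (Sum.inr true) := by simpa [bd] using h
      have h1 := unique_bridge_yes ht' E'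
      rw [← hr] at h1
      exact absurd h1 (unique_face_not ht E)
  | bridge a b iha ihb =>
    cases t' with
    | pt => simp [bd] at h
    | face s =>
      have hr : θ (Sum.inr true) = θ' (Sum.inr true) := by simpa [bd] using h
      have h1 := unique_bridge_yes ht E
      rw [hr] at h1
      exact absurd h1 (unique_face_not ht' E')
    | bridge a' b' =>
      have hr : θ (Sum.inr true) = θ' (Sum.inr true) := by simpa [bd] using h
      obtain ⟨E1, r1⟩ := unique_left_emb E
      obtain ⟨E2, r2⟩ := unique_left_emb E'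
      obtain ⟨E3, r3⟩ := unique_right_emb E
      obtain ⟨E4, r4⟩ := unique_right_emb E'
      rw [← hr] at E2 r2 E4 r4
      rw [iha _ a' ht.1 ht'.1 _ _ E1 E2 (r1.trans r2.symm),
        ihb _ b' ht.2 ht'.2 _ _ E3 E4 (r3.trans r4.symm)]

end Pool.Agent.P.MP_7a6434d8_pr
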