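import Pool.Agent.P.MP_7a6434d8_pr.LinkA
import Pool.Agent.P.MP_7a6434d8_pr.LinkB
import Pool.Agent.P.MP_7a6434d8_pr.Unique
import Pool.Agent.P.MP_7a6434d8_pr.CountA

namespace Pool.Agent.P.MP_7a6434d8_pr

open Mp Finset
open scoped ENNReal

theorem linkc_iso {n : ℕ} {q q' : Quad n} {t : Mp} (h : Rep q t) (h' : Rep q' t) :
    Quad.Iso q q' := by
  obtain ⟨-, -, -, θ, E, hs, hr⟩ := h
  obtain ⟨-, -, -, θ', E', hs', hr'⟩ := h'
  let e := Equiv.ofBijective θ ⟨E.inj, hs⟩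
  let e' := Equiv.ofBijective θ' ⟨E'.inj, hs'⟩
  have key : ∀ x, (e.symm.trans e') (θ x) = θ' x := fun x => by
    have : e.symm (θ x) = x := e.symm_apply_apply x
    rw [Equiv.trans_apply, this]; rfl
  refine ⟨e.symm.trans e', fun d => ?_, fun d => ?_, ?_⟩
  · obtain ⟨x, rfl⟩ := hs d
    rw [← E.map_al, key, key, E'.map_al]
  · obtain ⟨x, rfl⟩ := hs d
    rw [← E.map_ph, key, key, E'.map_ph]
  · obtain ⟨x, hx, hx2⟩ := Option.map_eq_some_iff.1 hr
    rw [hx] at hr'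
    rw [← hx2, key]
    exact Option.some.inj hr'

theorem linkc_uniq {n : ℕ} {q q' : Quad n} {t t' : Mp} (h : Rep q t) (h' : Rep q' t')
    (hi : Quad.Iso q q') : t = t' := by
  obtain ⟨ht, -, -, θ, E, -, hr⟩ := h
  obtain ⟨ht', -, -, θ', E', -, hr'⟩ := h'
  obtain ⟨e, ha, hp, he⟩ := hi
  refine unique_real q'.α q'.φ t t' ht ht' (fun x => e (θ x)) θ'
    ⟨e.injective.comp E.inj, fun x => by rw [E.map_al, ha], fun x => by rw [E.map_ph, hp]⟩ E' ?_
  obtain ⟨x, hx, hx2⟩ := Option.map_eq_some_iff.1 hr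
  rw [hr', hx, Option.map_some, hx2, he]

/-- the tree of a rooted quadrangulation -/
noncomputable def linkcEnc {n : ℕ} : RootedQuad n → Mp :=
  Quot.lift (fun q => (rep_exists q).choose)
    (fun q q' hi => linkc_uniq (rep_exists q).choose_spec (rep_exists q').choose_spec hi)

theorem linkc_rep {n : ℕ} (q : Quad n) : Rep q (linkcEnc (Quot.mk _ q)) :=
  (rep_exists q).choose_spec

theorem linkc_inj {n : ℕ} : Function.Injective (linkcEnc (n := n)) := by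
  intro c c' h
  obtain ⟨q, rfl⟩ := Quot.exists_rep c
  obtain ⟨q', rfl⟩ := Quot.exists_rep c'
  have h1 := linkc_rep q
  rw [h] at h1
  exact Quot.sound (linkc_iso h1 (linkc_rep q'))

theorem linkc_spec {n : ℕ} (c : RootedQuad n) :
    ok (linkcEnc c) ∧ per (linkcEnc c) = 2 ∧ size (linkcEnc c) = n - 1 := by
  obtain ⟨q, rfl⟩ := Quot.exists_rep c
  obtain ⟨h1, h2, h3, -⟩ := linkc_rep q
  exact ⟨h1, h2, by omega⟩

theorem card_rooted (n : ℕ) (hn : 1 ≤ n) :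
    Nat.card (RootedQuad n) = cnt 2 (n - 1) (fun _ => True) := by
  refine Nat.card_eq_of_bijective
    (fun c => (⟨linkcEnc c, (linkc_spec c).1, (linkc_spec c).2.1, (linkc_spec c).2.2, trivial⟩ :
      {t : Mp // ok t ∧ per t = 2 ∧ size t = n - 1 ∧ True})) ⟨?_, ?_⟩
  · intro c c' h
    exact linkc_inj (congrArg Subtype.val h)
  · rintro ⟨t, h1, h2, h3, -⟩
    obtain ⟨q, hq⟩ := rep_build n t h1 h2 (by omega)
    refine ⟨Quot.mk _ q, Subtype.ext ?_⟩
    exact linkc_uniq (linkc_rep q) hq ⟨1, fun _ => rfl, fun _ => rfl, rfl⟩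

theorem card_bad_le (n : ℕ) (hn : 1 ≤ n) (B : Quad n → Prop) (φ : Mp → Prop)
    (h : ∀ q t, Rep q t → B q → φ t) :
    Nat.card {c : RootedQuad n // ∃ q, Quot.mk _ q = c ∧ B q} ≤ cnt 2 (n - 1) φ := by
  have hφ : ∀ c : {c : RootedQuad n // ∃ q, Quot.mk _ q = c ∧ B q}, φ (linkcEnc c.1) := by
    rintro ⟨c, q, rfl, hq⟩
    exact h q _ (linkc_rep q) hq
  have : Finite {t : Mp // ok t ∧ per t = 2 ∧ size t = n - 1 ∧ φ t} :=
    ((finite_trees 2 (n - 1)).subset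
      (t := {t : Mp | ok t ∧ per t = 2 ∧ size t = n - 1 ∧ φ t})
      (fun t ht => ⟨ht.1, ht.2.1, ht.2.2.1⟩)).to_subtype
  refine Nat.card_le_card_of_injective
    (fun c => (⟨linkcEnc c.1, (linkc_spec c.1).1, (linkc_spec c.1).2.1, (linkc_spec c.1).2.2,
      hφ c⟩ : {t : Mp // ok t ∧ per t = 2 ∧ size t = n - 1 ∧ φ t})) ?_
  intro c c' hc
  exact Subtype.ext (linkc_inj (congrArg Subtype.val hc))

end Pool.Agent.P.MP_7a6434d8_pr
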