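import Mathlib

/-!
Rooted planar quadrangulations as combinatorial maps, simple random walk, cover time.
-/

namespace Pool.Agent.P.MP_7a6434d8_pr

open scoped ENNReal

/-- A rooted planar quadrangulation with `n` faces, as a combinatorial map on the `4n` darts
(oriented edges): `α` reverses a dart, `φ` is the next dart along the same face, vertices are
the cycles of `φ * α`; the map is connected, every face has degree four, and Euler's relation
`V - E + F = 2` holds with `E = 2n`, `F = n`. -/
structure Quad (n : ℕ) where
  α : Equiv.Perm (Fin (4 * n))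
  φ : Equiv.Perm (Fin (4 * n))
  root : Fin (4 * n)
  α_α : ∀ d, α (α d) = d
  α_ne : ∀ d, α d ≠ d
  φ_four : ∀ d, (φ ^ 4) d = d ∧ (φ ^ 2) d ≠ d
  connected : ∀ d d', Relation.ReflTransGen (fun x y => y = α x ∨ y = φ x) d d'
  euler : Nat.card (Quotient (Equiv.Perm.SameCycle.setoid (φ * α))) + n = 2 * n + 2

namespace Quad

variable {n : ℕ}

/-- root-preserving isomorphism of maps -/
def Iso (q q' : Quad n) : Prop :=
  ∃ e : Equiv.Perm (Fin (4 * n)), (∀ d, e (q.α d) = q'.α (e d)) ∧ (∀ d, e (q.φ d) = q'.φ (e d)) ∧
    e q.root = q'.root

/-- vertices: cycles of `φ * α` -/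
def Vertex (q : Quad n) : Type := Quotient (Equiv.Perm.SameCycle.setoid (q.φ * q.α))

/-- the vertex a dart starts from -/
def tail (q : Quad n) (d : Fin (4 * n)) : q.Vertex := Quotient.mk _ d

/-- the vertex a dart points to -/
def head (q : Quad n) (d : Fin (4 * n)) : q.Vertex := q.tail (q.α d)

open Classical in
/-- darts starting from `x` -/
noncomputable def out (q : Quad n) (x : q.Vertex) : Finset (Fin (4 * n)) :=
  Finset.univ.filter (fun d => q.tail d = x)

theorem out_nonempty (q : Quad n) (x : q.Vertex) : (q.out x).Nonempty := by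
  obtain ⟨d, rfl⟩ := Quotient.exists_rep x
  exact ⟨d, by simp [out, tail]⟩

/-- one step of simple random walk: follow a uniform dart out of `x` -/
noncomputable def step (q : Quad n) (x : q.Vertex) : PMF q.Vertex :=
  (PMF.uniformOfFinset (q.out x) (q.out_nonempty x)).map q.head

/-- law of the list of positions `X_0, ..., X_T` of simple random walk started at `x` -/
noncomputable def walk (q : Quad n) : ℕ → q.Vertex → PMF (List q.Vertex)
  | 0, x => PMF.pure [x]
  | T + 1, x => (q.step x).bind (fun y => (walk q T y).map (fun l => x :: l))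

/-- expected cover time from `x`: the sum over `T` of the probability that some vertex is not
among `X_0, ..., X_T` -/
noncomputable def coverTime (q : Quad n) (x : q.Vertex) : ℝ≥0∞ :=
  ∑' T : ℕ, (q.walk T x).toOuterMeasure {l | ∃ v, v ∉ l}

end Quad

/-- rooted planar quadrangulations with `n` faces, up to root-preserving isomorphism -/
def RootedQuad (n : ℕ) : Type := Quot (@Quad.Iso n)

end Pool.Agent.P.MP_7a6434d8_pr
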