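import Pool.Agent.P.MP_7a6434d8_pr.Defs
import Pool.Agent.P.MP_7a6434d8_pr.Quad

namespace Pool.Agent.P.MP_7a6434d8_pr

open Mp Finset
open scoped ENNReal

/-- effective resistances of `q` are at most `R` -/
def ResLe {n : ℕ} (q : Quad n) (R : ℝ) : Prop :=
  ∀ (f : q.Vertex → ℝ) (u v : q.Vertex),
    (f u - f v) ^ 2 ≤ R * ((∑ d, (f (q.tail d) - f (q.head d)) ^ 2) / 2)

/-- the tree `t` encodes the rooted quadrangulation `q` -/
def Rep {n : ℕ} (q : Quad n) (t : Mp) : Prop :=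
  ok t ∧ per t = 2 ∧ size t + 1 = n ∧ ∃ θ : Dt t → Fin (4 * n), Emb q.α q.φ t θ ∧
    Function.Surjective θ ∧ (bd t 0).map θ = some q.root

end Pool.Agent.P.MP_7a6434d8_pr
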