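import Pool.Agent.P.MP_7a6434d8_pr.Peel

namespace Pool.Agent.P.MP_7a6434d8_pr

open Mp Finset
open scoped ENNReal

theorem rad_sum_reflect (L r l : ℕ) (h : r + l = L) :
    ∑ j ∈ range r, w (L - 1 - j) = ∑ j ∈ range L, w j - ∑ j ∈ range l, w j := by
  have h1 : ∑ j ∈ range L, w j = ∑ j ∈ range l, w j + ∑ j ∈ range r, w (l + j) := by
    rw [← h, add_comm r l, sum_range_add]
  rw [h1, add_sub_cancel_left, ← sum_range_reflect (fun j => w (l + j)) r]
  refine sum_congr rfl fun j hj => ?_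
  have := mem_range.1 hj
  congr 1
  omega

theorem rad_term (γ : ℝ) (L j : ℕ) (hj : j < L) :
    γ * 8 ^ (L - 1 - j) * Z j + Z (L - 1 - j) * 8 ^ j
      = 8 ^ (L - 1) * (γ * w j + w (L - 1 - j)) := by
  have h8 : (8 : ℝ) ^ (L - 1) = 8 ^ (L - 1 - j) * 8 ^ j := by
    rw [← pow_add]; congr 1; omega
  rw [Z_eq_w, Z_eq_w, h8]
  ring

theorem rad_num : ∃ γ : ℝ, 0 ≤ γ ∧ γ < 1 ∧ ∀ L : ℕ, 1 ≤ L →
    γ * 8 ^ (L + 1) / 12
      + ∑ j ∈ range (L / 2), (γ * 8 ^ (L - 1 - j) * Z j + Z (L - 1 - j) * 8 ^ j)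
      + ∑ j ∈ range ((L + 1) / 2), (γ * 8 ^ (L - 1 - j) * Z j + Z (L - 1 - j) * 8 ^ j)
      ≤ γ * 8 ^ L := by
  obtain ⟨c, hc, hw⟩ := w_doubling 2
  refine ⟨max 0 (1 - c), le_max_left _ _, max_lt one_pos (by linarith), fun L hL => ?_⟩
  set γ := max 0 (1 - c) with hγ
  have hγc : 1 - γ ≤ c := by have := le_max_right 0 (1 - c); linarith
  set r := L / 2 with hr
  set l := (L + 1) / 2 with hl
  have hrl : r + l = L := by omega
  have e1 : ∑ j ∈ range r, (γ * 8 ^ (L - 1 - j) * Z j + Z (L - 1 - j) * 8 ^ j)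
      = 8 ^ (L - 1) * (γ * ∑ j ∈ range r, w j + ∑ j ∈ range r, w (L - 1 - j)) := by
    rw [mul_sum, ← sum_add_distrib, mul_sum]
    refine sum_congr rfl fun j hj => rad_term γ L j ?_
    have := mem_range.1 hj
    omega
  have e2 : ∑ j ∈ range l, (γ * 8 ^ (L - 1 - j) * Z j + Z (L - 1 - j) * 8 ^ j)
      = 8 ^ (L - 1) * (γ * ∑ j ∈ range l, w j + ∑ j ∈ range l, w (L - 1 - j)) := by
    rw [mul_sum, ← sum_add_distrib, mul_sum]
    refine sum_congr rfl fun j hj => rad_term γ L j ?_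
    have := mem_range.1 hj
    omega
  rw [e1, e2, rad_sum_reflect L r l hrl, rad_sum_reflect L l r (by omega), sum_w, sum_w, sum_w]
  have p1 : (8 : ℝ) ^ (L + 1) = 8 ^ (L - 1) * 64 := by
    rw [show L + 1 = (L - 1) + 2 by omega, pow_add]; norm_num
  have p2 : (8 : ℝ) ^ L = 8 ^ (L - 1) * 8 := by
    rw [← pow_succ]; congr 1; omega
  rw [p1, p2]
  have hpos : (0 : ℝ) < 8 ^ (L - 1) := by positivity
  have hr1 : c * w r ≤ w L := hw r L (by omega)
  have hl1 : c * w l ≤ w L := hw l L (by omega)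
  have hrL : (r : ℝ) ≤ L := by exact_mod_cast (by omega : r ≤ L)
  have hlL : (l : ℝ) ≤ L := by exact_mod_cast (by omega : l ≤ L)
  have hr0 : (0 : ℝ) ≤ r := Nat.cast_nonneg r
  have hl0 : (0 : ℝ) ≤ l := Nat.cast_nonneg l
  have wr := w_pos r
  have wl := w_pos l
  have wL := w_pos L
  set tr := (2 * (r : ℝ) + 4) / 3 * w r with htr
  set tl := (2 * (l : ℝ) + 4) / 3 * w l with htl
  set tL := (2 * (L : ℝ) + 4) / 3 * w L with htL
  have tr0 : 0 ≤ tr := by positivity
  have tl0 : 0 ≤ tl := by positivity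
  have k1 : c * tr ≤ tL := by
    calc c * tr = (2 * (r : ℝ) + 4) / 3 * (c * w r) := by rw [htr]; ring
      _ ≤ (2 * (r : ℝ) + 4) / 3 * w L := by gcongr
      _ ≤ tL := by rw [htL]; gcongr
  have k2 : c * tl ≤ tL := by
    calc c * tl = (2 * (l : ℝ) + 4) / 3 * (c * w l) := by rw [htl]; ring
      _ ≤ (2 * (l : ℝ) + 4) / 3 * w L := by gcongr
      _ ≤ tL := by rw [htL]; gcongr
  have k3 : (1 - γ) * (tr + tl) ≤ 2 * tL := by
    calc (1 - γ) * (tr + tl) ≤ c * (tr + tl) := by gcongr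
      _ ≤ 2 * tL := by linarith
  have key : γ * 64 / 12 + (γ * (4 / 3 - tr) + (4 / 3 - tL - (4 / 3 - tl)))
      + (γ * (4 / 3 - tl) + (4 / 3 - tL - (4 / 3 - tr))) ≤ γ * 8 := by linarith
  have := mul_le_mul_of_nonneg_left key hpos.le
  linarith

theorem rad_not_farV_pt {T : ℝ} (hT : 0 < T) : ¬ FarV pt T := by
  rintro ⟨f, v, -, h0, hv⟩
  have : f v = f (bv pt 0) := rfl
  linarith

theorem rad_far_left {m : ℕ} {t W1 W2 : Mp} (B : IsBr m t W1 W2) {ρ : ℝ}
    (h : Far t {0} {m + 1} ρ) : Far t {0} {m + 1 + 2 * per W2} ρ := by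
  obtain ⟨h, e, he, H, h0, h1⟩ := h
  refine ⟨h, e, he, H, h0, ?_⟩
  obtain ⟨h1', h2, e1, e2, -, T2, -, -, hb, -⟩ := (B.tr h e).1 H
  intro p hp
  rw [Set.mem_singleton_iff] at hp
  subst hp
  have a1 := hb (2 * per W2) le_rfl
  have a2 := hb 0 (Nat.zero_le _)
  have a3 := T2.end_eq B.ok_2
  have a4 := h1 (m + 1) rfl
  rw [add_zero] at a2
  linarith

theorem rad : ∃ γ : ℝ, 0 ≤ γ ∧ γ < 1 ∧ ∀ (n lam G : ℕ) (ρ ε : ℝ), n + 1 ≤ lam → 0 < ρ → 0 ≤ ε →
    NearHyp lam ρ ε → ∀ L, mass L (fun t => FarV t (G * ρ) ∧ size t + per t ≤ n)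
      ≤ γ ^ G * 8 ^ L + 2 * ε * (Bv L * Z L) := by
  obtain ⟨γ, hγ0, hγ1, hnum⟩ := rad_num
  refine ⟨γ, hγ0, hγ1, fun n lam G ρ ε hlam hρ hε hN => ?_⟩
  have hB : ∀ L : ℕ, 0 ≤ 2 * ε * (Bv L * Z L) := fun L => by
    have := (Z_pos L).le
    have : 0 ≤ Bv L := by unfold Bv; positivity
    positivity
  induction G with
  | zero =>
    intro L
    have h1 := mass_le_Z L (fun t => FarV t (((0 : ℕ) : ℝ) * ρ) ∧ size t + per t ≤ n)
    have h2 : Z L ≤ 8 ^ L := by
      rw [Z_eq_w]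
      have := w_le_one L
      have h8 : (0 : ℝ) < 8 ^ L := by positivity
      nlinarith
    have := hB L
    rw [pow_zero, one_mul]
    linarith
  | succ G ih =>
    have hT : ((G + 1 : ℕ) : ℝ) * ρ = G * ρ + ρ := by push_cast; ring
    rw [hT]
    have hTpos : 0 < (G : ℝ) * ρ + ρ := by positivity
    suffices H : ∀ N L, massN N L (fun t => FarV t (G * ρ + ρ) ∧ size t + per t ≤ n)
        ≤ γ ^ (G + 1) * 8 ^ L + 2 * ε * (Bv L * Z L) from
      fun L => mass_le_of_massN fun N => H N L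
    have hΦ : ∀ L : ℕ, 0 ≤ γ ^ (G + 1) * 8 ^ L + 2 * ε * (Bv L * Z L) := fun L => by
      have := hB L
      positivity
    intro N
    induction N with
    | zero => intro L; rw [massN_zero]; exact hΦ L
    | succ N ihN =>
      intro L
      rcases Nat.eq_zero_or_pos L with hL | hL
      · refine (massN_le_mass _ _ _).trans (le_of_eq_of_le (mass_eq_zero ?_) (hΦ L))
        intro t ht hp hφ
        have := eq_pt_of_per_zero t ht (hp.trans hL)
        subst this
        exact rad_not_farV_pt hTpos hφ.1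
      by_cases hn : n < L
      · refine (massN_le_mass _ _ _).trans (le_of_eq_of_le (mass_eq_zero ?_) (hΦ L))
        intro t _ hp hφ
        have := hφ.2
        omega
      have hErr : mass L (fun t => Far t {0} {L + 1} ρ ∨ Far t {0} {L} ρ) ≤ 2 * ε * Z L := by
        have a1 := hN L 0 (L + 1) (by omega) (by omega) (by omega) (by omega)
        have a2 := hN L 0 L (by omega) (by omega) (by omega) (by omega)
        have a3 := mass_le_add (L := L)
          (φ := fun t => Far t {0} {L + 1} ρ ∨ Far t {0} {L} ρ)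
          (ψ := fun t => Far t {0} {L + 1} ρ) (χ := fun t => Far t {0} {L} ρ)
          (fun _ _ _ h => h)
        linarith
      have s1 := massN_le_add (N := N + 1) (L := L)
        (φ := fun t => FarV t (G * ρ + ρ) ∧ size t + per t ≤ n)
        (ψ := fun t => (FarV t (G * ρ + ρ) ∧ size t + per t ≤ n) ∧
          ¬ (Far t {0} {L + 1} ρ ∨ Far t {0} {L} ρ))
        (χ := fun t => Far t {0} {L + 1} ρ ∨ Far t {0} {L} ρ)
        (fun t _ _ h => by
          by_cases he : Far t {0} {L + 1} ρ ∨ Far t {0} {L} ρ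
          · exact Or.inr he
          · exact Or.inl ⟨h, he⟩)
      have s2 := peel_le N L L (by omega)
        (fun t => (FarV t (G * ρ + ρ) ∧ size t + per t ≤ n) ∧
          ¬ (Far t {0} {L + 1} ρ ∨ Far t {0} {L} ρ))
      have hBv := Bv_at L L (by omega)
      rw [show 2 * L - L = L by omega] at s2 hBv
      have f1 : massN N (L + 1) (fun t' => (FarV (faceAt L t') (G * ρ + ρ) ∧
            size (faceAt L t') + per (faceAt L t') ≤ n) ∧
          ¬ (Far (faceAt L t') {0} {L + 1} ρ ∨ Far (faceAt L t') {0} {L} ρ))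
          ≤ γ ^ (G + 1) * 8 ^ (L + 1) + 2 * ε * (Bv (L + 1) * Z (L + 1)) := by
        refine (massN_mono ?_).trans (ihN (L + 1))
        intro t' ht' hp h
        have F := isFace_faceAt L t' ht' (by omega)
        refine ⟨F.farV _ h.1.1, ?_⟩
        have a1 := F.per_eq
        have a2 := F.size_eq
        have a3 := h.1.2
        omega
      have pair : ∀ (j : ℕ) (ψ : Mp → Mp → Prop),
          (∀ a b, ok a → per a = L - 1 - j → ok b → per b = j → ψ a b →
            (FarV a (G * ρ + ρ) ∧ size a + per a ≤ n) ∨ (FarV b (G * ρ) ∧ size b + per b ≤ n)) →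
          mass2N N (L - 1 - j) j ψ
            ≤ γ ^ G * (γ * 8 ^ (L - 1 - j) * Z j + Z (L - 1 - j) * 8 ^ j)
              + 2 * ε * ((Bv (L - 1 - j) + Bv j) * (Z (L - 1 - j) * Z j)) := by
        intro j ψ hψ
        have b1 := mass2N_le_split (N := N) hψ
        have b2 := mul_le_mul_of_nonneg_right (ihN (L - 1 - j)) (Z_pos j).le
        have b3 := mul_le_mul_of_nonneg_left ((massN_le_mass N j _).trans (ih j))
          (Z_pos (L - 1 - j)).le
        refine b1.trans ((add_le_add b2 b3).trans (le_of_eq ?_))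
        ring
      have f2 : ∑ j ∈ range (L / 2), mass2N N (L - 1 - j) j (fun a b =>
            (FarV (brR L a b) (G * ρ + ρ) ∧ size (brR L a b) + per (brR L a b) ≤ n) ∧
            ¬ (Far (brR L a b) {0} {L + 1} ρ ∨ Far (brR L a b) {0} {L} ρ))
          ≤ ∑ j ∈ range (L / 2), (γ ^ G * (γ * 8 ^ (L - 1 - j) * Z j + Z (L - 1 - j) * 8 ^ j)
              + 2 * ε * ((Bv (L - 1 - j) + Bv j) * (Z (L - 1 - j) * Z j))) := by
        refine sum_le_sum fun j hj => pair j _ ?_
        have hj' := mem_range.1 hj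
        intro a b ha hpa hb hpb h
        have B := isBr_brR L a b ha hb (by omega)
        have a1 := B.per_eq
        have a2 := B.size_eq
        have a3 := h.1.2
        rcases B.farV _ _ h.1.1 with c1 | c2 | c3
        · exact Or.inl ⟨c1, by omega⟩
        · exact absurd (Or.inl c2) h.2
        · exact Or.inr ⟨c3, by omega⟩
      have f3 : ∑ j ∈ range ((L + 1) / 2), mass2N N (L - 1 - j) j (fun a b =>
            (FarV (brL (L - 2 * j - 1) a b) (G * ρ + ρ) ∧
              size (brL (L - 2 * j - 1) a b) + per (brL (L - 2 * j - 1) a b) ≤ n) ∧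
            ¬ (Far (brL (L - 2 * j - 1) a b) {0} {L + 1} ρ ∨
              Far (brL (L - 2 * j - 1) a b) {0} {L} ρ))
          ≤ ∑ j ∈ range ((L + 1) / 2),
              (γ ^ G * (γ * 8 ^ (L - 1 - j) * Z j + Z (L - 1 - j) * 8 ^ j)
              + 2 * ε * ((Bv (L - 1 - j) + Bv j) * (Z (L - 1 - j) * Z j))) := by
        refine sum_le_sum fun j hj => pair j _ ?_
        have hj' := mem_range.1 hj
        intro a b ha hpa hb hpb h
        have B := isBr_brL (L - 2 * j - 1) a b ha hb (by omega)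
        have a1 := B.per_eq
        have a2 := B.size_eq
        have a3 := h.1.2
        rcases B.farV _ _ h.1.1 with c1 | c2 | c3
        · exact Or.inl ⟨c1, by omega⟩
        · have c4 := rad_far_left B c2
          rw [show L - 2 * j - 1 + 1 + 2 * per b = L by omega] at c4
          exact absurd (Or.inr c4) h.2
        · exact Or.inr ⟨c3, by omega⟩
      rw [sum_add_distrib, ← mul_sum, ← mul_sum] at f2 f3
      have g1 := mul_le_mul_of_nonneg_left (hnum L hL) (pow_nonneg hγ0 G)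
      have g2 : 2 * ε * (Bv L * Z L) = 2 * ε * Z L + 2 * ε * (Bv (L + 1) * Z (L + 1)) / 12
          + 2 * ε * ∑ j ∈ range (L / 2), (Bv (L - 1 - j) + Bv j) * (Z (L - 1 - j) * Z j)
          + 2 * ε * ∑ j ∈ range ((L + 1) / 2),
              (Bv (L - 1 - j) + Bv j) * (Z (L - 1 - j) * Z j) := by
        rw [hBv]; ring
      rw [g2, pow_succ γ G]
      rw [pow_succ γ G] at f1
      nlinarith [s1, s2, f1, f2, f3, g1, hErr]

end Pool.Agent.P.MP_7a6434d8_pr
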