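import Pool.Agent.P.MP_7a6434d8_pr.Level
import Pool.Agent.P.MP_7a6434d8_pr.Asymp
import Pool.Agent.P.MP_7a6434d8_pr.Rad
import Pool.Agent.P.MP_7a6434d8_pr.Cover
import Pool.Agent.P.MP_7a6434d8_pr.LinkC
import Pool.Agent.P.MP_7a6434d8_pr.Count

namespace Pool.Agent.P.MP_7a6434d8_pr

open Mp Finset Filter Topology
open scoped ENNReal

theorem main_ev1 (η : ℝ) (hη : 0 < η) : ∀ᶠ n : ℕ in atTop,
    100 * ((n : ℝ) * (4 * ((⌈(n : ℝ) ^ η⌉₊ : ℝ) * (n : ℝ) ^ η) ^ 2) + 1) * (Real.log (n + 2) + 1)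
      ≤ (n : ℝ) ^ (1 + 8 * η) := by
  have h1 : Tendsto (fun n : ℕ => (n : ℝ) ^ (3 * η)) atTop atTop :=
    (tendsto_rpow_atTop (by positivity)).comp tendsto_natCast_atTop_atTop
  filter_upwards [h1.eventually_ge_atTop (1700 * (2 / η + 1)), eventually_ge_atTop 2] with n hn h2
  have hn2 : (2 : ℝ) ≤ n := by exact_mod_cast h2
  have hn0 : (0 : ℝ) < n := by linarith
  set x := (n : ℝ) ^ η with hx
  have hx1 : 1 ≤ x := Real.one_le_rpow (by linarith) hη.le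
  have hceil : (⌈x⌉₊ : ℝ) ≤ 2 * x := by
    have := Nat.ceil_lt_add_one (show (0 : ℝ) ≤ x by linarith)
    linarith
  have hlog : Real.log (n + 2) + 1 ≤ (2 / η + 1) * x := by
    have e1 : Real.log (n + 2) ≤ 2 * Real.log n := by
      have : Real.log (n + 2) ≤ Real.log ((n : ℝ) ^ 2) :=
        Real.log_le_log (by linarith) (by nlinarith)
      simpa using this
    have e2 : Real.log n ≤ x / η := Real.log_le_rpow_div hn0.le hη
    have e3 : (2 / η + 1) * x = 2 * (x / η) + x := by ring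
    linarith
  have e3 : (n : ℝ) ^ (3 * η) = x ^ 3 := by
    rw [hx, ← Real.rpow_natCast, ← Real.rpow_mul hn0.le]; congr 1; push_cast; ring
  have e8 : (n : ℝ) ^ (1 + 8 * η) = n * x ^ 8 := by
    rw [Real.rpow_add hn0, Real.rpow_one, hx, ← Real.rpow_natCast, ← Real.rpow_mul hn0.le]
    congr 2; push_cast; ring
  rw [e8]
  rw [e3] at hn
  have hx4 : 1 ≤ x ^ 4 := one_le_pow₀ hx1
  have hc0 : (0 : ℝ) ≤ (⌈x⌉₊ : ℝ) := Nat.cast_nonneg _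
  have a1 : ((⌈x⌉₊ : ℝ) * x) ^ 2 ≤ 4 * x ^ 4 := by
    have : (⌈x⌉₊ : ℝ) * x ≤ 2 * x * x := by gcongr
    calc ((⌈x⌉₊ : ℝ) * x) ^ 2 ≤ (2 * x * x) ^ 2 := by gcongr
      _ = 4 * x ^ 4 := by ring
  have a2 : (n : ℝ) * (4 * ((⌈x⌉₊ : ℝ) * x) ^ 2) + 1 ≤ 17 * (n * x ^ 4) := by
    have : (n : ℝ) * (4 * ((⌈x⌉₊ : ℝ) * x) ^ 2) ≤ n * (4 * (4 * x ^ 4)) := by gcongr
    nlinarith
  have hl0 : 0 ≤ Real.log ((n : ℝ) + 2) + 1 := by
    have := Real.log_nonneg (show (1 : ℝ) ≤ n + 2 by linarith)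
    linarith
  calc 100 * ((n : ℝ) * (4 * ((⌈x⌉₊ : ℝ) * x) ^ 2) + 1) * (Real.log (n + 2) + 1)
      ≤ 100 * (17 * (n * x ^ 4)) * ((2 / η + 1) * x) := by gcongr
    _ = (1700 * (2 / η + 1)) * (n * x ^ 5) := by ring
    _ ≤ x ^ 3 * (n * x ^ 5) := by gcongr
    _ = n * x ^ 8 := by ring

theorem main_ev2 (η γ c : ℝ) (hη : 0 < η) (hγ0 : 0 ≤ γ) (hγ : γ < 1) (hc : 0 < c) (K : ℕ) :
    ∀ᶠ n : ℕ in atTop, 64 * γ ^ ⌈(n : ℝ) ^ η⌉₊ * (n : ℝ) ^ K ≤ c := by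
  have h0 := tendsto_rpow_mul_exp_neg_mul_atTop_nhds_zero ((K : ℝ) / η) (1 - γ) (by linarith)
  have h1 : Tendsto (fun n : ℕ => (n : ℝ) ^ η) atTop atTop :=
    (tendsto_rpow_atTop hη).comp tendsto_natCast_atTop_atTop
  have h2 := (h0.comp h1).eventually (gt_mem_nhds (show (0 : ℝ) < c / 64 by positivity))
  filter_upwards [h2, eventually_ge_atTop 1] with n hn h1n
  have hn0 : (0 : ℝ) < n := by exact_mod_cast h1n
  simp only [Function.comp] at hn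
  have e1 : ((n : ℝ) ^ η) ^ ((K : ℝ) / η) = (n : ℝ) ^ K := by
    rw [← Real.rpow_mul hn0.le, ← Real.rpow_natCast]; congr 1; field_simp
  rw [e1] at hn
  have e2 : γ ^ ⌈(n : ℝ) ^ η⌉₊ ≤ Real.exp (-(1 - γ) * (n : ℝ) ^ η) := by
    have a1 : γ ≤ Real.exp (-(1 - γ)) := by
      have := Real.add_one_le_exp (-(1 - γ)); linarith
    calc γ ^ ⌈(n : ℝ) ^ η⌉₊ ≤ (Real.exp (-(1 - γ))) ^ ⌈(n : ℝ) ^ η⌉₊ := by gcongr
      _ = Real.exp (-(1 - γ) * (⌈(n : ℝ) ^ η⌉₊ : ℝ)) := by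
          rw [← Real.exp_nat_mul]; congr 1; ring
      _ ≤ _ := by
          apply Real.exp_le_exp.2
          have := Nat.le_ceil ((n : ℝ) ^ η)
          nlinarith
  have : γ ^ ⌈(n : ℝ) ^ η⌉₊ * (n : ℝ) ^ K ≤ (n : ℝ) ^ K * Real.exp (-(1 - γ) * (n : ℝ) ^ η) := by
    rw [mul_comm]; gcongr
  nlinarith

theorem main (ε : ℝ) (hε : 0 < ε) (K : ℕ) : ∃ n0 : ℕ, ∀ n : ℕ, n0 ≤ n →
    (Nat.card {c : RootedQuad n // ∃ q : Quad n, Quot.mk _ q = c ∧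
        ∃ x, ENNReal.ofReal ((n : ℝ) ^ (1 + ε)) < q.coverTime x} : ℝ)
      ≤ (Nat.card (RootedQuad n) : ℝ) / (n : ℝ) ^ K := by
  obtain ⟨C, δ, hC, hδ, hlev⟩ := level
  have hη : 0 < ε / 8 := by positivity
  obtain ⟨n1, hn1⟩ := asymp NearHyp C δ hC hδ nearHyp_mono nearHyp_base nearHyp_triv hlev
    (ε / 8) hη (K + 4)
  obtain ⟨γ, hγ0, hγ, hrad⟩ := rad
  obtain ⟨c, hc, hcnt⟩ := cnt_lower
  have ev3 : ∀ᶠ n : ℕ in atTop, 2048 / c ≤ (n : ℝ) :=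
    tendsto_natCast_atTop_atTop.eventually_ge_atTop _
  have ev := (main_ev1 (ε / 8) hη).and ((main_ev2 (ε / 8) γ (c / 2) hη hγ0 hγ (by positivity)
    (K + 3)).and (ev3.and ((eventually_ge_atTop n1).and (eventually_ge_atTop 1))))
  obtain ⟨n0, hn0⟩ := eventually_atTop.1 ev
  refine ⟨n0, fun n hn => ?_⟩
  obtain ⟨e1, e2, e3, e4, e5⟩ := hn0 n hn
  have hnpos : (0 : ℝ) < n := by exact_mod_cast e5
  set G := ⌈(n : ℝ) ^ (ε / 8)⌉₊ with hG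
  set ρ := (n : ℝ) ^ (ε / 8) with hρ
  have hρ0 : 0 < ρ := Real.rpow_pos_of_pos hnpos _
  have hbad := card_bad_le n e5
    (fun q => ∃ x, ENNReal.ofReal ((n : ℝ) ^ (1 + ε)) < q.coverTime x)
    (fun t => FarV t (G * ρ)) (by
      rintro q t hq ⟨x, hx⟩
      by_contra hn'
      have h1 := rep_res q t hq (G * ρ) (by positivity) hn'
      have h2 := cover_le q _ (by positivity) h1 x
      have h3 : (1 + 8 * (ε / 8)) = 1 + ε := by ring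
      rw [h3] at e1
      exact absurd (h2.trans (ENNReal.ofReal_le_ofReal e1)) (not_le.2 hx))
  have hm := hrad (n + 1) (n + 5) G ρ (1 / (n : ℝ) ^ (K + 4)) (by omega) hρ0 (by positivity)
    (hn1 n e4) 2
  have hc1 := cnt_le_mass 2 (n - 1) (fun t => FarV t (G * ρ))
  have hm2 : mass 2 (fun t => FarV t (G * ρ) ∧ size t = n - 1)
      ≤ mass 2 (fun t => FarV t (G * ρ) ∧ size t + per t ≤ n + 1) := by
    apply mass_mono
    rintro t _ hp ⟨h1, h2⟩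
    exact ⟨h1, by omega⟩
  have hZ : Bv 2 * Z 2 ≤ 512 := by
    have h1 := Z_eq_w 2
    have h2 := w_le_one 2
    have h3 : Bv 2 = 8 := by norm_num [Bv]
    rw [h3, h1]; norm_num; linarith
  have hlow := hcnt (n - 1)
  have hcast : (((n - 1 : ℕ) : ℝ) + 1) = n := by
    rw [Nat.cast_sub e5]; simp
  rw [hcast] at hlow
  rw [card_rooted n e5]
  have hbad' : (Nat.card {c : RootedQuad n // ∃ q : Quad n, Quot.mk _ q = c ∧
        ∃ x, ENNReal.ofReal ((n : ℝ) ^ (1 + ε)) < q.coverTime x} : ℝ)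
      ≤ (cnt 2 (n - 1) (fun t => FarV t (G * ρ)) : ℝ) := by exact_mod_cast hbad
  have key : γ ^ G * 8 ^ 2 + 2 * (1 / (n : ℝ) ^ (K + 4)) * (Bv 2 * Z 2)
      ≤ c / (n : ℝ) ^ 3 / (n : ℝ) ^ K := by
    have hp : (0 : ℝ) < (n : ℝ) ^ (K + 3) := by positivity
    have b1 : γ ^ G * 8 ^ 2 ≤ c / 2 / (n : ℝ) ^ (K + 3) := by
      rw [le_div_iff₀ hp]; linarith
    have b2 : 2 * (1 / (n : ℝ) ^ (K + 4)) * (Bv 2 * Z 2) ≤ c / 2 / (n : ℝ) ^ (K + 3) := by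
      have : 2 * (1 / (n : ℝ) ^ (K + 4)) * (Bv 2 * Z 2) ≤ 2 * (1 / (n : ℝ) ^ (K + 4)) * 512 := by
        gcongr
      refine this.trans ?_
      rw [le_div_iff₀ hp]
      have h4 : 2 * (1 / (n : ℝ) ^ (K + 4)) * 512 * (n : ℝ) ^ (K + 3) = 1024 / n := by
        field_simp; ring
      rw [h4, div_le_iff₀ hnpos]
      rw [div_le_iff₀ hc] at e3
      linarith
    have b3 : c / (n : ℝ) ^ 3 / (n : ℝ) ^ K
        = c / 2 / (n : ℝ) ^ (K + 3) + c / 2 / (n : ℝ) ^ (K + 3) := by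
      field_simp; ring
    linarith
  calc _ ≤ (cnt 2 (n - 1) (fun t => FarV t (G * ρ)) : ℝ) := hbad'
    _ ≤ 12 ^ (n - 1) * (c / (n : ℝ) ^ 3 / (n : ℝ) ^ K) := by
        refine hc1.trans ?_
        gcongr
        exact hm2.trans (hm.trans key)
    _ = (c * 12 ^ (n - 1) / (n : ℝ) ^ 3) / (n : ℝ) ^ K := by ring
    _ ≤ _ := by gcongr

end Pool.Agent.P.MP_7a6434d8_pr
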