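import Pool.Agent.P.MP_7a6434d8_pr.NumB

namespace Pool.Agent.P.MP_7a6434d8_pr

open Mp Finset
open scoped ENNReal

/-- the three constructors -/
private def massaEquiv : Unit ⊕ Mp ⊕ Mp × Mp ≃ Mp where
  toFun x := match x with
    | Sum.inl _ => pt
    | Sum.inr (Sum.inl t) => face t
    | Sum.inr (Sum.inr p) => bridge p.1 p.2
  invFun t := match t with
    | pt => Sum.inl ()
    | face t => Sum.inr (Sum.inl t)
    | bridge a b => Sum.inr (Sum.inr (a, b))
  left_inv x := by rcases x with _ | _ | _ <;> rfl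
  right_inv t := by cases t <;> rfl

private theorem massa_tsum (f : Mp → ℝ≥0∞) :
    ∑' t, f t = f pt + (∑' t, f (face t) + ∑' p : Mp × Mp, f (bridge p.1 p.2)) := by
  rw [← massaEquiv.tsum_eq, Summable.tsum_sum ENNReal.summable ENNReal.summable,
    Summable.tsum_sum ENNReal.summable ENNReal.summable, tsum_fintype]
  simp only [Finset.univ_unique, Finset.sum_singleton]
  rfl

private theorem massa_wt_face (L : ℕ) (hL : 1 ≤ L) (t : Mp) :
    wt L (face t) = (12 : ℝ≥0∞)⁻¹ * wt (L + 1) t := by
  unfold wt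
  have h : (ok (face t) ∧ per (face t) = L) ↔ (ok t ∧ per t = L + 1) := by
    simp only [ok, per]
    constructor
    · rintro ⟨⟨h1, h2⟩, h3⟩
      exact ⟨h1, by omega⟩
    · rintro ⟨h1, h2⟩
      exact ⟨⟨h1, by omega⟩, by omega⟩
  by_cases h' : ok t ∧ per t = L + 1
  · rw [if_pos (h.2 h'), if_pos h', size, pow_succ, mul_comm]
  · rw [if_neg (fun h2 => h' (h.1 h2)), if_neg h', mul_zero]

private theorem massa_wt_bridge (L : ℕ) (a b : Mp) :
    wt L (bridge a b) = ∑ j ∈ range L, wt (L - 1 - j) a * wt j b := by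
  by_cases h : ok (bridge a b) ∧ per (bridge a b) = L
  · have h' := h
    simp only [ok, per] at h'
    obtain ⟨⟨ha, hb⟩, hL⟩ := h'
    rw [Finset.sum_eq_single (per b)]
    · unfold wt
      rw [if_pos h, if_pos ⟨ha, by omega⟩, if_pos ⟨hb, rfl⟩, size, pow_add]
    · intro j _ hj
      have : wt j b = 0 := by
        unfold wt
        exact if_neg fun h2 => hj h2.2.symm
      rw [this, mul_zero]
    · intro h2
      exact absurd (mem_range.2 (by omega)) h2
  · have h0 : wt L (bridge a b) = 0 := by
      unfold wt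
      exact if_neg h
    rw [h0]
    symm
    refine Finset.sum_eq_zero fun j hj => ?_
    have hj' := mem_range.1 hj
    unfold wt
    split_ifs with h1 h2
    · refine absurd ⟨⟨h1.1, h2.1⟩, ?_⟩ h
      simp only [per]
      omega
    · exact mul_zero _
    · exact zero_mul _
    · exact zero_mul _

open Classical in
theorem massE_zero (φ : Mp → Prop) : massE 0 φ = if φ pt then 1 else 0 := by
  unfold massE
  rw [tsum_eq_single pt]
  · have : wt 0 pt = 1 := by
      unfold wt
      rw [if_pos ⟨trivial, rfl⟩, size, pow_zero]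
    rw [this]
  · intro t ht
    have : wt 0 t = 0 := by
      unfold wt
      refine if_neg fun h => ?_
      cases t with
      | pt => exact ht rfl
      | face t =>
        simp only [ok, per] at h
        omega
      | bridge a b =>
        simp only [ok, per] at h
        omega
    rw [this, ite_self]

theorem massE_root (L : ℕ) (hL : 1 ≤ L) (φ : Mp → Prop) :
    massE L φ = (12 : ℝ≥0∞)⁻¹ * massE (L + 1) (fun t => φ (face t))
      + ∑ j ∈ range L, mass2E (L - 1 - j) j (fun a b => φ (bridge a b)) := by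
  unfold massE mass2E
  have h0 : wt L pt = 0 := by
    unfold wt
    refine if_neg fun h => ?_
    simp only [per] at h
    omega
  rw [massa_tsum, h0, ite_self, zero_add, ← ENNReal.tsum_mul_left,
    ← Summable.tsum_finsetSum fun _ _ => ENNReal.summable]
  congr 1
  · refine tsum_congr fun t => ?_
    rw [massa_wt_face L hL, mul_ite, mul_zero]
  · refine tsum_congr fun p => ?_
    rw [massa_wt_bridge]
    split_ifs
    · rfl
    · simp

theorem mass2E_eq_inner (i j : ℕ) (ψ : Mp → Mp → Prop) :
    mass2E i j ψ = ∑' a, wt i a * massE j (fun b => ψ a b) := by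
  unfold massE mass2E
  rw [ENNReal.tsum_prod']
  refine tsum_congr fun a => ?_
  rw [← ENNReal.tsum_mul_left]
  refine tsum_congr fun b => ?_
  rw [mul_ite, mul_zero]

theorem mass2E_eq_outer (i j : ℕ) (ψ : Mp → Mp → Prop) :
    mass2E i j ψ = ∑' b, wt j b * massE i (fun a => ψ a b) := by
  unfold massE mass2E
  rw [ENNReal.tsum_prod', ENNReal.tsum_comm]
  refine tsum_congr fun b => ?_
  rw [← ENNReal.tsum_mul_left]
  refine tsum_congr fun a => ?_
  rw [mul_ite, mul_zero, mul_comm]

theorem mass2E_swap (i j : ℕ) (ψ : Mp → Mp → Prop) :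
    mass2E i j ψ = mass2E j i (fun b a => ψ a b) := by
  rw [mass2E_eq_outer, mass2E_eq_inner]

theorem mass2E_prod (i j : ℕ) (φ χ : Mp → Prop) :
    mass2E i j (fun a b => φ a ∧ χ b) = massE i φ * massE j χ := by
  unfold massE mass2E
  rw [ENNReal.tsum_prod', ← ENNReal.tsum_mul_right]
  refine tsum_congr fun a => ?_
  rw [← ENNReal.tsum_mul_left]
  refine tsum_congr fun b => ?_
  by_cases ha : φ a <;> by_cases hb : χ b <;> simp [ha, hb]

theorem massE_mono (L : ℕ) (φ ψ : Mp → Prop) (h : ∀ t, ok t → per t = L → φ t → ψ t) :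
    massE L φ ≤ massE L ψ := by
  unfold massE
  refine ENNReal.tsum_le_tsum fun t => ?_
  by_cases h1 : φ t
  · by_cases h2 : ok t ∧ per t = L
    · rw [if_pos h1, if_pos (h t h2.1 h2.2 h1)]
    · have : wt L t = 0 := by
        unfold wt
        exact if_neg h2
      rw [this, ite_self, ite_self]
  · rw [if_neg h1]
    exact zero_le

theorem mass2E_mono (i j : ℕ) (ψ χ : Mp → Mp → Prop)
    (h : ∀ a b, ok a → per a = i → ok b → per b = j → ψ a b → χ a b) :
    mass2E i j ψ ≤ mass2E i j χ := by
  rw [mass2E_eq_inner, mass2E_eq_inner]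
  refine ENNReal.tsum_le_tsum fun a => ?_
  by_cases h2 : ok a ∧ per a = i
  · exact mul_le_mul_right (massE_mono j _ _ fun b hb hj => h a b h2.1 h2.2 hb hj) _
  · have : wt i a = 0 := by
      unfold wt
      exact if_neg h2
    rw [this, zero_mul, zero_mul]

theorem massE_iSup (L : ℕ) (φ : Mp → Prop) :
    massE L φ = ⨆ N : ℕ, massE L (fun t => φ t ∧ edges t < N) := by
  refine le_antisymm ?_ (iSup_le fun N => massE_mono L _ _ fun _ _ _ h => h.1)
  conv_lhs => unfold massE
  rw [ENNReal.tsum_eq_iSup_sum]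
  refine iSup_le fun s => le_iSup_of_le (s.sup edges + 1) ?_
  unfold massE
  refine le_trans (le_of_eq ?_) (ENNReal.sum_le_tsum s)
  refine Finset.sum_congr rfl fun t ht => ?_
  have h1 : edges t < s.sup edges + 1 := Nat.lt_succ_of_le (Finset.le_sup ht)
  by_cases h2 : φ t
  · rw [if_pos h2, if_pos ⟨h2, h1⟩]
  · rw [if_neg h2, if_neg fun h => h2 h.1]

theorem tsum_wt (L : ℕ) : ∑' t, wt L t = massE L (fun _ => True) := by
  unfold massE
  simp

end Pool.Agent.P.MP_7a6434d8_pr
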