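import Pool.Agent.P.MP_7a6434d8_pr.MassA

namespace Pool.Agent.P.MP_7a6434d8_pr

open Mp Finset
open scoped ENNReal

/-- depth of the decomposition tree -/
def masst_depth : Mp → ℕ
  | pt => 0
  | face t => masst_depth t + 1
  | bridge a b => max (masst_depth a) (masst_depth b) + 1

theorem masst_depth_le (t : Mp) : masst_depth t ≤ edges t := by
  induction t with
  | pt => exact le_rfl
  | face t ih => simp only [masst_depth, edges]; omega
  | bridge a b iha ihb => simp only [masst_depth, edges]; omega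

/-- mass of the trees of depth at most `D` -/
noncomputable def masst_m (D L : ℕ) : ℝ≥0∞ := massE L (fun t => masst_depth t ≤ D)

theorem masst_m_zero (D : ℕ) : masst_m D 0 = 1 := by
  rw [masst_m, massE_zero, if_pos]
  exact Nat.zero_le D

theorem masst_zero_m (L : ℕ) (hL : 1 ≤ L) : masst_m 0 L = 0 := by
  rw [masst_m, massE_root L hL]
  simp [masst_depth, massE, mass2E]

theorem masst_succ (D L : ℕ) (hL : 1 ≤ L) :
    masst_m (D + 1) L = (12 : ℝ≥0∞)⁻¹ * masst_m D (L + 1) +
      ∑ j ∈ range L, masst_m D (L - 1 - j) * masst_m D j := by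
  rw [masst_m, massE_root L hL]
  simp only [masst_depth, Nat.add_le_add_iff_right, max_le_iff, mass2E_prod, masst_m]

theorem masst_le (D L : ℕ) : masst_m D L ≤ ENNReal.ofReal (Z L) := by
  induction D generalizing L with
  | zero =>
    rcases Nat.eq_zero_or_pos L with rfl | hL
    · rw [masst_m_zero, Z_zero, ENNReal.ofReal_one]
    · rw [masst_zero_m L hL]; exact bot_le
  | succ D ih =>
    rcases Nat.eq_zero_or_pos L with rfl | hL
    · rw [masst_m_zero, Z_zero, ENNReal.ofReal_one]
    · rw [masst_succ D L hL, tutte L hL, ENNReal.ofReal_add (div_nonneg (Z_pos _).le (by norm_num))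
        (Finset.sum_nonneg fun j _ => mul_nonneg (Z_pos _).le (Z_pos _).le),
        ENNReal.ofReal_sum_of_nonneg (fun j _ => mul_nonneg (Z_pos _).le (Z_pos _).le)]
      refine add_le_add ?_ (Finset.sum_le_sum fun j _ => ?_)
      · rw [ENNReal.ofReal_div_of_pos (by norm_num), ENNReal.div_eq_inv_mul, ENNReal.ofReal_ofNat]
        exact mul_le_mul_right (ih _) _
      · rw [ENNReal.ofReal_mul (Z_pos _).le]
        exact mul_le_mul' (ih _) (ih _)

theorem masst_ne_top (D L : ℕ) : masst_m D L ≠ ⊤ :=
  ne_top_of_le_ne_top ENNReal.ofReal_ne_top (masst_le D L)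

theorem masst_real_le (D L : ℕ) : (masst_m D L).toReal ≤ Z L :=
  ENNReal.toReal_le_of_le_ofReal (Z_pos L).le (masst_le D L)

theorem masst_real_succ (D L : ℕ) (hL : 1 ≤ L) :
    (masst_m (D + 1) L).toReal = (masst_m D (L + 1)).toReal / 12 +
      ∑ j ∈ range L, (masst_m D (L - 1 - j)).toReal * (masst_m D j).toReal := by
  rw [masst_succ D L hL, ENNReal.toReal_add
    (ENNReal.mul_ne_top (by simp) (masst_ne_top _ _))
    (ENNReal.sum_ne_top.mpr fun j _ => ENNReal.mul_ne_top (masst_ne_top _ _) (masst_ne_top _ _)),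
    ENNReal.toReal_sum
      (fun j _ => ENNReal.mul_ne_top (masst_ne_top _ _) (masst_ne_top _ _))]
  simp only [ENNReal.toReal_mul, ENNReal.toReal_inv, ENNReal.toReal_ofNat]
  ring

theorem masst_defect (D L : ℕ) (hL : 1 ≤ L) :
    Z L - (masst_m (D + 1) L).toReal ≤ (Z (L + 1) - (masst_m D (L + 1)).toReal) / 12 +
      ∑ j ∈ range L, ((Z (L - 1 - j) - (masst_m D (L - 1 - j)).toReal) * Z j +
        Z (L - 1 - j) * (Z j - (masst_m D j).toReal)) := by
  have h : ∑ j ∈ range L, Z (L - 1 - j) * Z j -
      ∑ j ∈ range L, (masst_m D (L - 1 - j)).toReal * (masst_m D j).toReal ≤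
      ∑ j ∈ range L, ((Z (L - 1 - j) - (masst_m D (L - 1 - j)).toReal) * Z j +
        Z (L - 1 - j) * (Z j - (masst_m D j).toReal)) := by
    rw [← Finset.sum_sub_distrib]
    refine Finset.sum_le_sum fun j _ => ?_
    have h1 := mul_nonneg (sub_nonneg.mpr (masst_real_le D (L - 1 - j)))
      (sub_nonneg.mpr (masst_real_le D j))
    nlinarith
  have h2 := tutte L hL
  rw [masst_real_succ D L hL]
  linarith

theorem masst_sum_le (N L : ℕ) :
    ∑ D ∈ range N, (Z L - (masst_m D L).toReal) ≤ Bv L * Z L := by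
  induction N generalizing L with
  | zero =>
    rw [Finset.sum_range_zero]
    exact mul_nonneg (by unfold Bv; positivity) (Z_pos L).le
  | succ N ih =>
    rcases Nat.eq_zero_or_pos L with rfl | hL
    · simp [masst_m_zero, Z_zero, Bv]
    · rw [Finset.sum_range_succ', masst_zero_m L hL, Bv_root L hL]
      have h1 := Finset.sum_le_sum (s := range N) fun D _ => masst_defect D L hL
      rw [Finset.sum_add_distrib, ← Finset.sum_div, Finset.sum_comm] at h1
      have h2 : ∑ j ∈ range L, ∑ D ∈ range N,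
          ((Z (L - 1 - j) - (masst_m D (L - 1 - j)).toReal) * Z j +
            Z (L - 1 - j) * (Z j - (masst_m D j).toReal)) ≤
          ∑ j ∈ range L, (Bv (L - 1 - j) + Bv j) * (Z (L - 1 - j) * Z j) := by
        refine Finset.sum_le_sum fun j _ => ?_
        rw [Finset.sum_add_distrib, ← Finset.sum_mul, ← Finset.mul_sum]
        have h3 := mul_le_mul_of_nonneg_right (ih (L - 1 - j)) (Z_pos j).le
        have h4 := mul_le_mul_of_nonneg_left (ih j) (Z_pos (L - 1 - j)).le
        linarith
      have h5 := ih (L + 1)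
      simp only [ENNReal.toReal_zero, sub_zero]
      linarith

theorem massE_true (L : ℕ) : massE L (fun _ => True) = ENNReal.ofReal (Z L) := by
  have hle : massE L (fun _ => True) ≤ ENNReal.ofReal (Z L) := by
    rw [massE_iSup]
    refine iSup_le fun N => le_trans (massE_mono L _ _ fun t _ _ ht => ?_) (masst_le N L)
    exact (masst_depth_le t).trans ht.2.le
  have hne : massE L (fun _ => True) ≠ ⊤ := ne_top_of_le_ne_top ENNReal.ofReal_ne_top hle
  refine le_antisymm hle (ENNReal.ofReal_le_of_le_toReal ?_)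
  by_contra hlt
  rw [not_le, ← sub_pos] at hlt
  obtain ⟨N, hN⟩ := exists_nat_gt (Bv L * Z L / (Z L - (massE L (fun _ => True)).toReal))
  rw [div_lt_iff₀ hlt] at hN
  have h1 : ∑ _D ∈ range N, (Z L - (massE L (fun _ => True)).toReal) ≤
      ∑ D ∈ range N, (Z L - (masst_m D L).toReal) := by
    refine Finset.sum_le_sum fun D _ => sub_le_sub_left ?_ _
    exact ENNReal.toReal_mono hne (massE_mono L _ _ fun _ _ _ _ => trivial)
  rw [Finset.sum_const, Finset.card_range, nsmul_eq_mul] at h1
  linarith [masst_sum_le N L]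

end Pool.Agent.P.MP_7a6434d8_pr
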