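import Pool.Agent.P.MP_7a6434d8_pr.Defs

namespace Pool.Agent.P.MP_7a6434d8_pr

open Mp Finset
open scoped ENNReal

theorem numa_catalan (L : ℕ) :
    ((L : ℝ) + 2) * catalan (L + 1) = (4 * L + 2) * catalan L := by
  have h1 := succ_mul_catalan_eq_centralBinom L
  have h2 := succ_mul_catalan_eq_centralBinom (L + 1)
  have h3 := Nat.succ_mul_centralBinom_succ L
  rw [← h1, ← h2] at h3
  have h4 : (L + 2) * catalan (L + 1) = (4 * L + 2) * catalan L := by
    apply Nat.eq_of_mul_eq_mul_left (Nat.succ_pos L)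
    rw [Nat.succ_eq_add_one, h3]; ring
  exact_mod_cast h4

theorem numa_catalan_pos (L : ℕ) : (0 : ℝ) < catalan L := by
  have h1 := succ_mul_catalan_eq_centralBinom L
  have h2 := Nat.centralBinom_pos L
  rw [← h1] at h2
  exact_mod_cast Nat.pos_of_mul_pos_left h2

theorem Z_zero : Z 0 = 1 := by simp [Z]

theorem Z_pos (L : ℕ) : 0 < Z L := by
  have := numa_catalan_pos L
  unfold Z; positivity

theorem Z_eq_w (L : ℕ) : Z L = w L * 8 ^ L := by
  unfold w; field_simp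

theorem w_pos (L : ℕ) : 0 < w L := by
  have := Z_pos L
  unfold w; positivity

theorem w_zero : w 0 = 1 := by simp [w, Z_zero]

theorem w_succ (L : ℕ) : w (L + 1) = w L * (2 * L + 1) / (2 * L + 6) := by
  have h := numa_catalan L
  have h2 : (catalan (L + 1) : ℝ) = (4 * L + 2) * catalan L / (L + 2) := by
    rw [← h]; field_simp
  unfold w Z
  rw [h2]
  push_cast
  field_simp
  ring

theorem w_anti : Antitone w := by
  refine antitone_nat_of_succ_le fun L => ?_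
  have := w_pos L
  rw [w_succ, div_le_iff₀ (by positivity)]
  exact mul_le_mul_of_nonneg_left (by linarith) this.le

theorem w_le_one (L : ℕ) : w L ≤ 1 := w_zero ▸ w_anti (Nat.zero_le L)

theorem sum_w (m : ℕ) : ∑ j ∈ range m, w j = 4 / 3 - (2 * (m : ℝ) + 4) / 3 * w m := by
  induction m with
  | zero => simp [w_zero]
  | succ m ih =>
    rw [sum_range_succ, ih, w_succ]
    push_cast
    field_simp
    ring

theorem sum_jw (m : ℕ) : ∑ j ∈ range m, ((j : ℝ) + 1) * w j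
    = 8 / 3 - (2 * (m : ℝ) ^ 2 + 16 * m / 3 + 8 / 3) * w m := by
  induction m with
  | zero => simp [w_zero]
  | succ m ih =>
    rw [sum_range_succ, ih, w_succ]
    push_cast
    field_simp
    ring

theorem numa_upper (L : ℕ) : w L ^ 2 * ((L : ℝ) + 2) ^ 5 ≤ 32 := by
  induction L with
  | zero => norm_num [w_zero]
  | succ L ih =>
    refine le_trans ?_ ih
    have hL : (0 : ℝ) ≤ L := Nat.cast_nonneg L
    have key : (2 * (L : ℝ) + 1) ^ 2 * (L + 3) ^ 5 ≤ (2 * L + 6) ^ 2 * (L + 2) ^ 5 := by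
      have : (2 * (L : ℝ) + 6) ^ 2 * (L + 2) ^ 5 - (2 * L + 1) ^ 2 * (L + 3) ^ 5 =
          909 + 2271 * L + 2066 * L ^ 2 + 890 * L ^ 3 + 185 * L ^ 4 + 15 * L ^ 5 := by ring
      have : 0 ≤ 909 + 2271 * (L : ℝ) + 2066 * L ^ 2 + 890 * L ^ 3 + 185 * L ^ 4 + 15 * L ^ 5 := by
        positivity
      linarith
    rw [w_succ, div_pow, mul_pow, div_mul_eq_mul_div, div_le_iff₀ (by positivity)]
    push_cast
    have := mul_le_mul_of_nonneg_left key (sq_nonneg (w L))
    linarith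

theorem numa_lower (L : ℕ) : 8 / 9 ≤ w (L + 1) ^ 2 * ((L : ℝ) + 2) ^ 5 := by
  induction L with
  | zero => rw [w_succ, w_zero]; norm_num
  | succ L ih =>
    refine le_trans ih ?_
    have hL : (0 : ℝ) ≤ L := Nat.cast_nonneg L
    have key : (2 * (L : ℝ) + 8) ^ 2 * (L + 2) ^ 5 ≤ (2 * L + 3) ^ 2 * (L + 3) ^ 5 := by
      have : (2 * (L : ℝ) + 3) ^ 2 * (L + 3) ^ 5 - (2 * L + 8) ^ 2 * (L + 2) ^ 5 =
          139 + 417 * L + 454 * L ^ 2 + 230 * L ^ 3 + 55 * L ^ 4 + 5 * L ^ 5 := by ring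
      have : 0 ≤ 139 + 417 * (L : ℝ) + 454 * L ^ 2 + 230 * L ^ 3 + 55 * L ^ 4 + 5 * L ^ 5 := by
        positivity
      linarith
    rw [w_succ (L + 1), div_pow, mul_pow, div_mul_eq_mul_div, le_div_iff₀ (by positivity)]
    push_cast
    have := mul_le_mul_of_nonneg_left key (sq_nonneg (w (L + 1)))
    linarith

theorem w_bounds : ∃ c C : ℝ, 0 < c ∧ 0 < C ∧ ∀ L : ℕ,
    c ≤ w L * (((L : ℝ) + 1) ^ 2 * √((L : ℝ) + 1)) ∧
    w L * (((L : ℝ) + 1) ^ 2 * √((L : ℝ) + 1)) ≤ C := by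
  refine ⟨2 / 3, 6, by norm_num, by norm_num, fun L => ?_⟩
  have hL : (0 : ℝ) ≤ L := Nat.cast_nonneg L
  have hw := w_pos L
  have e : (w L * (((L : ℝ) + 1) ^ 2 * √((L : ℝ) + 1))) ^ 2 = w L ^ 2 * ((L : ℝ) + 1) ^ 5 := by
    rw [mul_pow, mul_pow, Real.sq_sqrt (by positivity)]; ring
  constructor
  · refine (pow_le_pow_iff_left₀ (by norm_num) (by positivity) two_ne_zero).1 ?_
    rw [e]
    rcases L with _ | L
    · norm_num [w_zero]
    · have := numa_lower L
      push_cast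
      rw [add_assoc, one_add_one_eq_two]
      linarith
  · refine (pow_le_pow_iff_left₀ (by positivity) (by norm_num) two_ne_zero).1 ?_
    rw [e]
    have h1 := numa_upper L
    have h2 : ((L : ℝ) + 1) ^ 5 ≤ ((L : ℝ) + 2) ^ 5 :=
      pow_le_pow_left₀ (by positivity) (by linarith) 5
    have h3 := mul_le_mul_of_nonneg_left h2 (sq_nonneg (w L))
    linarith

/-- doubling: `w` loses at most a constant factor when the argument is multiplied by `k` -/
theorem w_doubling (k : ℕ) : ∃ c : ℝ, 0 < c ∧ ∀ L L' : ℕ, L' ≤ k * (L + 1) →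
    c * w L ≤ w L' := by
  obtain ⟨c, C, hc, hC, h⟩ := w_bounds
  have hk : (0 : ℝ) ≤ k := Nat.cast_nonneg k
  refine ⟨c / (C * ((k : ℝ) + 1) ^ 3), by positivity, fun L L' hL => ?_⟩
  have h0 : (0 : ℝ) ≤ L := Nat.cast_nonneg L
  have h0' : (0 : ℝ) ≤ L' := Nat.cast_nonneg L'
  have h1 : (L' : ℝ) ≤ k * (L + 1) := by exact_mod_cast hL
  have h2 : (L' : ℝ) + 1 ≤ (k + 1) * (L + 1) := by linarith
  have h3 : √((L' : ℝ) + 1) ≤ (k + 1) * √((L : ℝ) + 1) := by
    refine (Real.sqrt_le_sqrt h2).trans ?_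
    rw [Real.sqrt_mul (by positivity)]
    refine mul_le_mul_of_nonneg_right ?_ (Real.sqrt_nonneg _)
    rw [Real.sqrt_le_left (by positivity)]
    nlinarith
  have h4 : ((L' : ℝ) + 1) ^ 2 * √((L' : ℝ) + 1) ≤
      ((k : ℝ) + 1) ^ 3 * (((L : ℝ) + 1) ^ 2 * √((L : ℝ) + 1)) := by
    refine (mul_le_mul (pow_le_pow_left₀ (by positivity) h2 2) h3 (Real.sqrt_nonneg _)
      (by positivity)).trans (le_of_eq ?_)
    ring
  set X := ((L : ℝ) + 1) ^ 2 * √((L : ℝ) + 1) with hX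
  have hX0 : 0 < X := by positivity
  have a1 := (h L').1.trans (mul_le_mul_of_nonneg_left h4 (w_pos L').le)
  have a2 := (h L).2
  rw [div_mul_eq_mul_div, div_le_iff₀ (by positivity)]
  have a3 := mul_le_mul_of_nonneg_right a1 (w_pos L).le
  have a4 := mul_le_mul_of_nonneg_left a2
    (show 0 ≤ w L' * ((k : ℝ) + 1) ^ 3 from mul_nonneg (w_pos L').le (by positivity))
  linarith

end Pool.Agent.P.MP_7a6434d8_pr
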