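import Pool.Agent.P.MP_7a6434d8_pr.XReroot

namespace Pool.Agent.P.MP_7a6434d8_pr

open Mp Finset
open scoped ENNReal

theorem xcount_ext {n : ℕ} {q q' : Quad n} (h1 : q.α = q'.α) (h2 : q.φ = q'.φ)
    (h3 : q.root = q'.root) : q = q' := by
  cases q; cases q'
  simp only at h1 h2 h3
  subst h1 h2 h3
  rfl

instance xcount_finite (n : ℕ) : Finite (Quad n) :=
  Finite.of_injective (fun q : Quad n => (q.α, q.φ, q.root)) (fun q q' h => by
    simp only [Prod.mk.injEq] at h
    exact xcount_ext h.1 h.2.1 h.2.2)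

theorem xcount_equiv (n : ℕ) : Equivalence (@Quad.Iso n) where
  refl q := ⟨1, fun _ => rfl, fun _ => rfl, rfl⟩
  symm := by
    rintro q q' ⟨e, h1, h2, h3⟩
    refine ⟨e⁻¹, fun d => ?_, fun d => ?_, ?_⟩
    · obtain ⟨c, rfl⟩ := e.surjective d
      rw [← h1]; simp
    · obtain ⟨c, rfl⟩ := e.surjective d
      rw [← h2]; simp
    · rw [← h3]; simp
  trans := by
    rintro q q' q'' ⟨e, h1, h2, h3⟩ ⟨f, g1, g2, g3⟩
    refine ⟨f * e, fun d => ?_, fun d => ?_, ?_⟩
    · simp only [Equiv.Perm.coe_mul, Function.comp]; rw [h1, g1]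
    · simp only [Equiv.Perm.coe_mul, Function.comp]; rw [h2, g2]
    · simp only [Equiv.Perm.coe_mul, Function.comp]; rw [h3, g3]

theorem xcount_mk_eq {n : ℕ} (q q' : Quad n) :
    (Quot.mk _ q : RootedQuad n) = Quot.mk _ q' ↔ Quad.Iso q q' := by
  rw [Quot.eq]
  exact (xcount_equiv n).eqvGen_iff

/-- the map obtained by relabelling the darts -/
def xcountSmul {n : ℕ} (e : Equiv.Perm (Fin (4 * n))) (q : Quad n) : Quad n where
  α := e * q.α * e⁻¹
  φ := e * q.φ * e⁻¹
  root := e q.root
  α_α d := by simp [q.α_α]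
  α_ne d := by
    obtain ⟨c, rfl⟩ := e.surjective d
    simpa using q.α_ne c
  φ_four d := by
    obtain ⟨c, rfl⟩ := e.surjective d
    rw [conj_pow, conj_pow]
    simpa using q.φ_four c
  connected d d' := by
    obtain ⟨c, rfl⟩ := e.surjective d
    obtain ⟨c', rfl⟩ := e.surjective d'
    induction q.connected c c' with
    | refl => exact Relation.ReflTransGen.refl
    | tail _ h ih =>
      refine ih.tail ?_
      rcases h with h | h
      · left; rw [h]; simp
      · right; rw [h]; simp
  euler := by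
    rw [← q.euler]
    congr 1
    refine (Nat.card_congr (Quotient.congr e (fun a b => ?_))).symm
    have : e * q.φ * e⁻¹ * (e * q.α * e⁻¹) = e * (q.φ * q.α) * e⁻¹ := by group
    change (q.φ * q.α).SameCycle a b ↔ (e * q.φ * e⁻¹ * (e * q.α * e⁻¹)).SameCycle (e a) (e b)
    rw [this, Equiv.Perm.sameCycle_conj]
    simp

theorem xcount_iso_smul {n : ℕ} (e : Equiv.Perm (Fin (4 * n))) (q : Quad n) :
    Quad.Iso q (xcountSmul e q) :=
  ⟨e, fun d => by simp [xcountSmul], fun d => by simp [xcountSmul], rfl⟩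

theorem xcount_smul_inj {n : ℕ} (q : Quad n) (e f : Equiv.Perm (Fin (4 * n)))
    (h : xcountSmul e q = xcountSmul f q) : e = f := by
  have h1 : e * q.α * e⁻¹ = f * q.α * f⁻¹ := congrArg Quad.α h
  have h2 : e * q.φ * e⁻¹ = f * q.φ * f⁻¹ := congrArg Quad.φ h
  have h3 : e q.root = f q.root := congrArg Quad.root h
  ext d
  congr 1
  induction q.connected q.root d with
  | refl => exact h3
  | @tail b c _ hb ih =>
    rcases hb with hb | hb
    · have := congrArg (fun g : Equiv.Perm (Fin (4 * n)) => g (e b)) h1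
      simp only [Equiv.Perm.coe_mul, Function.comp, Equiv.Perm.coe_inv,
        Equiv.symm_apply_apply] at this
      rw [hb, this, ih]; simp
    · have := congrArg (fun g : Equiv.Perm (Fin (4 * n)) => g (e b)) h2
      simp only [Equiv.Perm.coe_mul, Function.comp, Equiv.Perm.coe_inv,
        Equiv.symm_apply_apply] at this
      rw [hb, this, ih]; simp

theorem xcount_smul_of_iso {n : ℕ} {q q' : Quad n} (h : Quad.Iso q q') :
    ∃ e, xcountSmul e q = q' := by
  obtain ⟨e, h1, h2, h3⟩ := h
  refine ⟨e, xcount_ext ?_ ?_ h3⟩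
  · ext d
    obtain ⟨c, rfl⟩ := e.surjective d
    simp [xcountSmul, h1]
  · ext d
    obtain ⟨c, rfl⟩ := e.surjective d
    simp [xcountSmul, h2]

theorem card_labelled {n : ℕ} (B : RootedQuad n → Prop) :
    Nat.card {q : Quad n // B (Quot.mk _ q)}
      = Nat.card {c : RootedQuad n // B c} * Nat.factorial (4 * n) := by
  have hmk : ∀ (c : RootedQuad n) (e : Equiv.Perm (Fin (4 * n))),
      (Quot.mk _ (xcountSmul e (Quot.out c)) : RootedQuad n) = c := by
    intro c e
    rw [← (xcount_mk_eq _ _).2 (xcount_iso_smul e (Quot.out c))]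
    exact Quot.out_eq c
  let F : {c : RootedQuad n // B c} × Equiv.Perm (Fin (4 * n)) →
      {q : Quad n // B (Quot.mk _ q)} :=
    fun p => ⟨xcountSmul p.2 (Quot.out p.1.1), by rw [hmk]; exact p.1.2⟩
  have hF : Function.Bijective F := by
    constructor
    · rintro ⟨⟨c, hc⟩, e⟩ ⟨⟨c', hc'⟩, e'⟩ h
      have h0 : xcountSmul e (Quot.out c) = xcountSmul e' (Quot.out c') := congrArg Subtype.val h
      have hcc : c = c' := by rw [← hmk c e, h0, hmk]
      subst hcc
      rw [xcount_smul_inj _ _ _ h0]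
    · rintro ⟨q, hq⟩
      have : Quad.Iso (Quot.out (Quot.mk _ q : RootedQuad n)) q :=
        (xcount_mk_eq _ _).1 (Quot.out_eq _)
      obtain ⟨e, he⟩ := xcount_smul_of_iso this
      exact ⟨(⟨Quot.mk _ q, hq⟩, e), Subtype.ext he⟩
  rw [← Nat.card_eq_of_bijective F hF, Nat.card_prod, Nat.card_perm, Nat.card_fin]

/-- the same map with another root -/
def xcountRoot {n : ℕ} (q : Quad n) (d : Fin (4 * n)) : Quad n := { q with root := d }

theorem xcount_markov {ι : Type} [Fintype ι] (f : ι → ℝ≥0∞) (η M : ℝ) (hη : 0 < η) (hM : 0 ≤ M)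
    (h : ∑ d, f d ≤ ENNReal.ofReal M) [DecidablePred fun d => ENNReal.ofReal η < f d] :
    ((univ.filter fun d => ENNReal.ofReal η < f d).card : ℝ) ≤ M / η := by
  rw [le_div_iff₀ hη]
  have h1 : ((univ.filter fun d => ENNReal.ofReal η < f d).card : ℝ≥0∞) * ENNReal.ofReal η
      ≤ ENNReal.ofReal M := by
    refine le_trans ?_ h
    calc ((univ.filter fun d => ENNReal.ofReal η < f d).card : ℝ≥0∞) * ENNReal.ofReal η
        = ∑ d ∈ univ.filter (fun d => ENNReal.ofReal η < f d), ENNReal.ofReal η := by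
          rw [sum_const, nsmul_eq_mul]
      _ ≤ ∑ d ∈ univ.filter (fun d => ENNReal.ofReal η < f d), f d :=
          sum_le_sum fun d hd => (mem_filter.1 hd).2.le
      _ ≤ ∑ d, f d := sum_le_sum_of_subset (filter_subset _ _)
  rw [← ENNReal.ofReal_natCast, ← ENNReal.ofReal_mul (Nat.cast_nonneg _)] at h1
  exact (ENNReal.ofReal_le_ofReal_iff hM).1 h1

theorem reroot_count {n : ℕ} (hn : 1 ≤ n) (T : ℕ) (r η M : ℝ) (hη : 0 < η) (hM : 0 ≤ M)
    (Bad : Quad n → Prop)
    (hB : ∀ q, ¬ Bad q → ∑ d, q.escape (q.tail d) T r ≤ ENNReal.ofReal M) :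
    (Nat.card {c : RootedQuad n // ∃ q : Quad n, Quot.mk _ q = c ∧
        ENNReal.ofReal η < q.escape (q.tail q.root) T r} : ℝ)
      ≤ (Nat.card {c : RootedQuad n // ∃ q : Quad n, Quot.mk _ q = c ∧ Bad q} : ℝ)
        + M / (4 * n * η) * (Nat.card (RootedQuad n) : ℝ) := by
  classical
  have : Fintype (Quad n) := Fintype.ofFinite _
  set S : Quad n → Fin (4 * n) → Prop :=
    fun q d => ENNReal.ofReal η < q.escape (q.tail d) T r with hS
  have hA := card_labelled (n := n) (fun c => ∃ q : Quad n, Quot.mk _ q = c ∧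
        ENNReal.ofReal η < q.escape (q.tail q.root) T r)
  have hBc := card_labelled (n := n) (fun c => ∃ q : Quad n, Quot.mk _ q = c ∧ Bad q)
  have hU := card_labelled (n := n) (fun _ => True)
  rw [Nat.card_congr (Equiv.subtypeUnivEquiv (fun _ => trivial)),
    Nat.card_congr (Equiv.subtypeUnivEquiv (fun _ => trivial)), Nat.card_eq_fintype_card] at hU
  have hA1 : Nat.card {q : Quad n // ∃ q' : Quad n, (Quot.mk _ q' : RootedQuad n) = Quot.mk _ q ∧
        ENNReal.ofReal η < q'.escape (q'.tail q'.root) T r}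
      = (univ.filter fun q : Quad n => S q q.root).card := by
    rw [Nat.card_eq_fintype_card, Fintype.card_subtype]
    congr 1
    ext q
    simp only [mem_filter, mem_univ, true_and, hS]
    constructor
    · rintro ⟨q', h, h'⟩
      obtain ⟨e, h1, h2, h3⟩ := (xcount_mk_eq _ _).1 h
      rw [← h3, escape_iso q' q e h1 h2]
      exact h'
    · intro h
      exact ⟨q, rfl, h⟩
  have hB1 : (univ.filter fun q : Quad n => Bad q).card ≤
      Nat.card {q : Quad n // ∃ q' : Quad n, (Quot.mk _ q' : RootedQuad n) = Quot.mk _ q ∧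
        Bad q'} := by
    rw [Nat.card_eq_fintype_card, Fintype.card_subtype]
    refine card_le_card fun q hq => ?_
    simp only [mem_filter, mem_univ, true_and] at hq ⊢
    exact ⟨q, rfl, hq⟩
  have hroot : ∀ (q : Quad n) (d : Fin (4 * n)), S (xcountRoot q d) (xcountRoot q d).root ↔ S q d := by
    intro q d
    have := escape_iso q (xcountRoot q d) 1 (fun _ => rfl) (fun _ => rfl) d T r
    simp only [hS]
    rw [← this]
    rfl
  have hinv : ((univ : Finset (Quad n × Fin (4 * n))).filter fun p => S p.1 p.1.root).card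
      = ((univ : Finset (Quad n × Fin (4 * n))).filter fun p => S p.1 p.2).card := by
    symm
    refine card_nbij' (fun p => (xcountRoot p.1 p.2, p.1.root))
      (fun p => (xcountRoot p.1 p.2, p.1.root)) ?_ ?_ ?_ ?_
    · intro p hp
      simp only [coe_filter, mem_univ, true_and, Set.mem_ofPred_eq] at hp ⊢
      exact (hroot _ _).2 hp
    · intro p hp
      simp only [coe_filter, mem_univ, true_and, Set.mem_ofPred_eq] at hp ⊢
      exact (hroot (xcountRoot p.1 p.2) p.1.root).1 hp
    · intro p _; rfl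
    · intro p _; rfl
  have hL : ((univ : Finset (Quad n × Fin (4 * n))).filter fun p => S p.1 p.1.root).card
      = (univ.filter fun q : Quad n => S q q.root).card * (4 * n) := by
    rw [← univ_product_univ, filter_product_left (fun q : Quad n => S q q.root), card_product,
      card_univ, Fintype.card_fin]
  have hR : (((univ : Finset (Quad n × Fin (4 * n))).filter fun p => S p.1 p.2).card : ℝ)
      ≤ (univ.filter fun q : Quad n => Bad q).card * (4 * n) + Fintype.card (Quad n) * (M / η) := by
    have e1 : ((univ : Finset (Quad n × Fin (4 * n))).filter fun p => S p.1 p.2).card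
        = ∑ q : Quad n, (univ.filter fun d => S q d).card := by
      rw [card_filter, Fintype.sum_prod_type]
      simp only [card_filter]
    rw [e1]
    push_cast
    have e2 : ∀ q : Quad n, ((univ.filter fun d => S q d).card : ℝ)
        ≤ (if Bad q then (4 * n : ℝ) else 0) + M / η := by
      intro q
      by_cases hq : Bad q
      · rw [if_pos hq]
        have : (univ.filter fun d => S q d).card ≤ 4 * n := by
          simpa using card_filter_le (univ : Finset (Fin (4 * n))) (fun d => S q d)
        have h2 : ((univ.filter fun d => S q d).card : ℝ) ≤ 4 * n := by exact_mod_cast this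
        have h3 : 0 ≤ M / η := by positivity
        linarith
      · rw [if_neg hq, zero_add]
        convert xcount_markov (fun d => q.escape (q.tail d) T r) η M hη hM (hB q hq)
    refine (sum_le_sum fun q _ => e2 q).trans (le_of_eq ?_)
    rw [sum_add_distrib, ← sum_filter, sum_const, sum_const, card_univ, nsmul_eq_mul, nsmul_eq_mul]
  have hf : (0 : ℝ) < (Nat.factorial (4 * n) : ℝ) := by exact_mod_cast Nat.factorial_pos _
  have hn' : (0 : ℝ) < (n : ℝ) := by exact_mod_cast hn
  rw [← hinv, hL, ← hA1, hA, hU] at hR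
  rw [hBc] at hB1
  have hB2 : ((univ.filter fun q : Quad n => Bad q).card : ℝ) ≤
      (Nat.card {c : RootedQuad n // ∃ q : Quad n, Quot.mk _ q = c ∧ Bad q} : ℝ)
        * (Nat.factorial (4 * n) : ℝ) := by exact_mod_cast hB1
  push_cast at hR
  set a : ℝ := (Nat.card {c : RootedQuad n // ∃ q : Quad n, Quot.mk _ q = c ∧
        ENNReal.ofReal η < q.escape (q.tail q.root) T r} : ℝ)
  set b : ℝ := (Nat.card {c : RootedQuad n // ∃ q : Quad n, Quot.mk _ q = c ∧ Bad q} : ℝ)
  set u : ℝ := (Nat.card (RootedQuad n) : ℝ)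
  set F : ℝ := (Nat.factorial (4 * n) : ℝ)
  have h4 : (0 : ℝ) < F * (4 * n) := by positivity
  have key : a * (F * (4 * n)) ≤ (b + M / (4 * n * η) * u) * (F * (4 * n)) := by
    have e3 : (b + M / (4 * n * η) * u) * (F * (4 * n)) = b * F * (4 * n) + u * F * (M / η) := by
      field_simp
    rw [e3]
    have := mul_le_mul_of_nonneg_right hB2 (by positivity : (0 : ℝ) ≤ 4 * n)
    nlinarith
  exact le_of_mul_le_mul_right key h4

end Pool.Agent.P.MP_7a6434d8_pr
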