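import Pool.Agent.P.MP_7a6434d8_pr.Quad2
import Pool.Agent.P.MP_7a6434d8_pr.Cover

namespace Pool.Agent.P.MP_7a6434d8_pr

open Mp Finset
open scoped ENNReal

theorem xexit_univ {A : Type} (p : PMF A) : p.toOuterMeasure Set.univ = 1 := by
  rw [PMF.toOuterMeasure_apply, Set.indicator_univ, p.tsum_coe]

theorem xexit_hit {n : ℕ} (q : Quad n) (R : ℝ) (hR : 0 ≤ R) (H : ResLe q R) (x v : q.Vertex)
    (T : ℕ) : hitP q v T x ≤ 4 * n * R / (T + 1) := by
  have h1 := hit_le_real q R hR H x v (T + 1)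
  have h2 : ∑ _s ∈ range (T + 1), hitP q v T x ≤ ∑ s ∈ range (T + 1), hitP q v s x :=
    Finset.sum_le_sum (fun s hs => cover_anti q v x (Nat.lt_succ_iff.1 (Finset.mem_range.1 hs)))
  rw [Finset.sum_const, Finset.card_range, nsmul_eq_mul] at h2
  push_cast at h2
  rw [le_div_iff₀ (by positivity)]
  linarith

theorem escape_ge {n : ℕ} (q : Quad n) (R : ℝ) (hR : 0 ≤ R) (H : ResLe q R) (x v : q.Vertex)
    (T : ℕ) (r : ℝ) (hv : r < (q.graph.dist x v : ℝ)) :
    ENNReal.ofReal (1 - 4 * n * R / (T + 1)) ≤ q.escape x T r := by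
  have hsub : (Set.univ : Set (List q.Vertex)) ⊆
      {l | ∃ y ∈ l, r < (q.graph.dist x y : ℝ)} ∪ {l | v ∉ l} := by
    intro l _
    by_cases hl : v ∈ l
    · exact Or.inl ⟨v, hl, hv⟩
    · exact Or.inr hl
  have h1 : (1 : ℝ≥0∞) ≤ q.escape x T r + ENNReal.ofReal (hitP q v T x) := by
    rw [← hit_eq_ofReal, ← xexit_univ (q.walk T x), Quad.escape]
    exact ((q.walk T x).toOuterMeasure.mono hsub).trans (MeasureTheory.measure_union_le _ _)
  have h2 : ENNReal.ofReal (hitP q v T x) ≤ ENNReal.ofReal (4 * n * R / (T + 1)) :=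
    ENNReal.ofReal_le_ofReal (xexit_hit q R hR H x v T)
  rw [ENNReal.ofReal_sub _ (by positivity), ENNReal.ofReal_one, tsub_le_iff_right]
  exact h1.trans (add_le_add le_rfl h2)

end Pool.Agent.P.MP_7a6434d8_pr
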