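import Pool.Agent.P.MP_7a6434d8_pr.Defs2
import Pool.Agent.P.MP_7a6434d8_pr.DartB

namespace Pool.Agent.P.MP_7a6434d8_pr

open Mp Finset
open scoped ENNReal

private theorem xgrapha_two : (2 : ZMod 2) = 0 := rfl

theorem parity (t : Mp) (ht : ok t) : ∃ c : V t → ZMod 2, (∀ x y, adj t x y → c y = c x + 1) ∧
    ∀ p, p ≤ 2 * per t → c (bv t p) = (p : ZMod 2) := by
  induction t with
  | pt =>
    refine ⟨fun _ => 0, fun x y h => False.elim h, fun p hp => ?_⟩
    have : p = 0 := by simpa [per] using hp
    subst this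
    simp
  | face t ih =>
    obtain ⟨c, h1, h2⟩ := ih ht.1
    have hp : 2 ≤ per t := ht.2
    have e0 := h2 0 (by omega)
    have e3 := h2 3 (by omega)
    refine ⟨c, fun x y h => ?_, fun p hp' => ?_⟩
    · rcases h with h | ⟨rfl, rfl⟩ | ⟨rfl, rfl⟩
      · exact h1 x y h
      · rw [e0, e3]; decide
      · rw [e0, e3]; decide
    · have hp'' : p ≤ 2 * (per t - 1) := hp'
      by_cases h0 : p = 0
      · subst h0
        exact e0
      · have : bv (face t) p = bv t (p + 2) := if_neg h0
        rw [this, h2 (p + 2) (by omega)]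
        push_cast
        rw [xgrapha_two, add_zero]
  | bridge a b iha ihb =>
    obtain ⟨ca, a1, a2⟩ := iha ht.1
    obtain ⟨cb, b1, b2⟩ := ihb ht.2
    have ea := a2 0 (by omega)
    have eb := b2 0 (by omega)
    refine ⟨Sum.elim ca (fun x => cb x + 1), fun x y h => ?_, fun p hp' => ?_⟩
    · rcases x with x | x <;> rcases y with y | y
      · exact a1 x y h
      · obtain ⟨rfl, rfl⟩ := h
        show cb (bv b 0) + 1 = ca (bv a 0) + 1
        rw [ea, eb]
      · obtain ⟨rfl, rfl⟩ := h
        show ca (bv a 0) = cb (bv b 0) + 1 + 1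
        rw [ea, eb]; decide
      · show cb y + 1 = cb x + 1 + 1
        rw [b1 x y h]
    · have hp'' : p ≤ 2 * (per a + per b + 1) := hp'
      by_cases h0 : p = 0
      · subst h0
        exact ea
      · by_cases h1 : p ≤ 2 * per b + 1
        · have : bv (bridge a b) p = Sum.inr (bv b (p - 1)) := by
            show (if p = 0 then _ else if p ≤ 2 * per b + 1 then _ else _) = _
            rw [if_neg h0, if_pos h1]
          rw [this]
          show cb (bv b (p - 1)) + 1 = _
          obtain ⟨k, rfl⟩ : ∃ k, p = k + 1 := ⟨p - 1, by omega⟩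
          rw [Nat.add_sub_cancel, b2 k (by omega)]
          push_cast
          rfl
        · have : bv (bridge a b) p = Sum.inl (bv a (p - 2 * per b - 2)) := by
            show (if p = 0 then _ else if p ≤ 2 * per b + 1 then _ else _) = _
            rw [if_neg h0, if_neg h1]
          rw [this]
          show ca (bv a (p - 2 * per b - 2)) = _
          obtain ⟨k, rfl⟩ : ∃ k, p = k + 2 * per b + 2 := ⟨p - 2 * per b - 2, by omega⟩
          have hk : k + 2 * per b + 2 - 2 * per b - 2 = k := by omega
          rw [hk, a2 k (by omega)]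
          push_cast
          rw [xgrapha_two]
          ring

theorem adj_irrefl (t : Mp) (ht : ok t) (x : V t) : ¬ adj t x x := by
  intro h
  obtain ⟨c, h1, -⟩ := parity t ht
  have h2 := h1 x x h
  have h3 : ∀ z : ZMod 2, z ≠ z + 1 := by decide
  exact h3 _ h2

theorem adj_iff_dart (t : Mp) (x y : V t) :
    adj t x y ↔ ∃ d, org t d = x ∧ org t (al t d) = y := by
  induction t with
  | pt => exact ⟨fun h => False.elim h, fun ⟨d, _⟩ => Empty.elim d⟩
  | face t ih =>
    constructor
    · rintro (h | ⟨rfl, rfl⟩ | ⟨rfl, rfl⟩)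
      · obtain ⟨d, h1, h2⟩ := (ih x y).1 h
        exact ⟨Sum.inl d, h1, h2⟩
      · exact ⟨Sum.inr true, rfl, rfl⟩
      · exact ⟨Sum.inr false, rfl, rfl⟩
    · rintro ⟨d | c, h1, h2⟩
      · exact Or.inl ((ih x y).2 ⟨d, h1, h2⟩)
      · cases c
        · exact Or.inr (Or.inr ⟨h1.symm, h2.symm⟩)
        · exact Or.inr (Or.inl ⟨h1.symm, h2.symm⟩)
  | bridge a b iha ihb =>
    constructor
    · intro h
      rcases x with x | x <;> rcases y with y | y
      · obtain ⟨d, rfl, rfl⟩ := (iha x y).1 h
        exact ⟨Sum.inl (Sum.inl d), rfl, rfl⟩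
      · obtain ⟨rfl, rfl⟩ := h
        exact ⟨Sum.inr true, rfl, rfl⟩
      · obtain ⟨rfl, rfl⟩ := h
        exact ⟨Sum.inr false, rfl, rfl⟩
      · obtain ⟨d, rfl, rfl⟩ := (ihb x y).1 h
        exact ⟨Sum.inl (Sum.inr d), rfl, rfl⟩
    · rintro ⟨(d | d) | c, rfl, rfl⟩
      · exact (iha _ _).2 ⟨d, rfl, rfl⟩
      · exact (ihb _ _).2 ⟨d, rfl, rfl⟩
      · cases c
        · exact ⟨rfl, rfl⟩
        · exact ⟨rfl, rfl⟩

private theorem xgrapha_sum_al (t : Mp) (g : Dt t → ℝ) : ∑ d, g (al t d) = ∑ d, g d :=
  Equiv.sum_comp (Function.Involutive.toPerm (al t) (al_al t)) g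

open Classical in
theorem dg_eq_card (t : Mp) (ht : ok t) (x : V t) :
    dg t x = ((univ.filter (fun d => org t d = x)).card : ℝ) := by
  have h := two_energy t (fun y => if y = x then 1 else 0)
  have h1 : ∀ d : Dt t, ((if org t d = x then (1 : ℝ) else 0) -
      (if org t (al t d) = x then (1 : ℝ) else 0)) ^ 2 =
      (if org t d = x then (1 : ℝ) else 0) + (if org t (al t d) = x then (1 : ℝ) else 0) := by
    intro d
    by_cases a : org t d = x <;> by_cases b : org t (al t d) = x
    · exact absurd ((adj_iff_dart t x x).2 ⟨d, a, b⟩) (adj_irrefl t ht x)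
    · simp [a, b]
    · simp [a, b]
    · simp [a, b]
  simp only [h1] at h
  rw [Finset.sum_add_distrib,
    xgrapha_sum_al t (fun d => if org t d = x then (1 : ℝ) else 0), Finset.sum_boole] at h
  unfold dg
  linarith

open Classical in
theorem adj_iff_energy (t : Mp) (ht : ok t) (x y : V t) : adj t x y ↔ x ≠ y ∧
    energy t (fun z => (if z = x then 1 else 0) + (if z = y then 1 else 0)) < dg t x + dg t y := by
  by_cases hxy : x = y
  · subst hxy
    exact ⟨fun h => absurd h (adj_irrefl t ht x), fun h => absurd rfl h.1⟩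
  have h := two_energy t (fun z => (if z = x then 1 else 0) + (if z = y then 1 else 0))
  have hx := two_energy t (fun z => if z = x then 1 else 0)
  have hy := two_energy t (fun z => if z = y then 1 else 0)
  set k : Dt t → ℝ := fun d => if org t d = x ∧ org t (al t d) = y then 1 else 0 with hk
  have h1 : ∀ d : Dt t, (((if org t d = x then (1 : ℝ) else 0) + (if org t d = y then 1 else 0)) -
      ((if org t (al t d) = x then (1 : ℝ) else 0) + (if org t (al t d) = y then 1 else 0))) ^ 2 =
      ((if org t d = x then (1 : ℝ) else 0) - (if org t (al t d) = x then (1 : ℝ) else 0)) ^ 2 +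
      ((if org t d = y then (1 : ℝ) else 0) - (if org t (al t d) = y then (1 : ℝ) else 0)) ^ 2 -
      2 * (k d + k (al t d)) := by
    intro d
    simp only [hk, al_al]
    have hyx : ¬ y = x := fun e => hxy e.symm
    generalize org t d = u
    generalize org t (al t d) = v
    by_cases a : u = x <;> by_cases b : v = x <;> by_cases c : u = y <;> by_cases e : v = y <;>
      first
        | exact absurd (a.symm.trans c) hxy
        | exact absurd (b.symm.trans e) hxy
        | (simp [a, b, c, e, hxy, hyx]; done)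
        | (simp [a, b, c, e, hxy, hyx]; norm_num)
  simp only [h1] at h
  rw [Finset.sum_sub_distrib, Finset.sum_add_distrib, ← hx, ← hy, ← Finset.mul_sum,
    Finset.sum_add_distrib, xgrapha_sum_al t k] at h
  have hk0 : ∀ d, 0 ≤ k d := fun d => by simp only [hk]; split_ifs <;> norm_num
  unfold dg
  rw [adj_iff_dart]
  constructor
  · rintro ⟨d, hd⟩
    refine ⟨hxy, ?_⟩
    have h2 : k d ≤ ∑ d, k d := Finset.single_le_sum (fun d _ => hk0 d) (Finset.mem_univ d)
    have h3 : k d = 1 := if_pos hd
    linarith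
  · rintro ⟨-, h2⟩
    by_contra hn
    have h3 : ∑ d, k d = 0 := Finset.sum_eq_zero fun d _ => if_neg fun hd => hn ⟨d, hd⟩
    linarith

theorem energy_le_dg (t : Mp) (ht : ok t) (g : V t → ℝ) :
    energy t g ≤ 2 * ∑ z, dg t z * g z ^ 2 := by
  classical
  have h := two_energy t g
  have h1 : ∑ d : Dt t, (g (org t d) - g (org t (al t d))) ^ 2 ≤
      ∑ d : Dt t, (2 * g (org t d) ^ 2 + 2 * g (org t (al t d)) ^ 2) :=
    Finset.sum_le_sum fun d _ => by nlinarith [sq_nonneg (g (org t d) + g (org t (al t d)))]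
  rw [Finset.sum_add_distrib, xgrapha_sum_al t (fun d => 2 * g (org t d) ^ 2),
    ← Finset.mul_sum] at h1
  have h2 : ∑ z, dg t z * g z ^ 2 = ∑ d : Dt t, g (org t d) ^ 2 := by
    rw [← Finset.sum_fiberwise univ (org t) (fun d => g (org t d) ^ 2)]
    refine Finset.sum_congr rfl fun z _ => ?_
    rw [dg_eq_card t ht z, Finset.sum_congr rfl (g := fun _ => g z ^ 2)
      (fun d hd => by rw [(Finset.mem_filter.1 hd).2]), Finset.sum_const, nsmul_eq_mul]
  rw [h2]
  linarith

theorem energy_add_le (t : Mp) (f g : V t → ℝ) :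
    energy t (fun x => f x + g x) ≤ 2 * energy t f + 2 * energy t g := by
  have h := two_energy t (fun x => f x + g x)
  have hf := two_energy t f
  have hg := two_energy t g
  have h1 : ∑ d : Dt t, ((f (org t d) + g (org t d)) -
      (f (org t (al t d)) + g (org t (al t d)))) ^ 2 ≤
      ∑ d : Dt t, (2 * (f (org t d) - f (org t (al t d))) ^ 2 +
        2 * (g (org t d) - g (org t (al t d))) ^ 2) :=
    Finset.sum_le_sum fun d _ => by
      nlinarith [sq_nonneg ((f (org t d) - f (org t (al t d))) -
        (g (org t d) - g (org t (al t d))))]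
  rw [Finset.sum_add_distrib, ← Finset.mul_sum, ← Finset.mul_sum, ← hf, ← hg] at h1
  linarith

theorem card_V_le (t : Mp) (ht : ok t) : Fintype.card (V t) ≤ edges t + 1 := by
  rw [card_V t ht, edges_eq t ht]
  omega

theorem supp_le_card (t : Mp) (f : V t → ℝ) : supp t f ≤ Fintype.card (V t) :=
  Finset.card_le_univ _

/-- an energy-preserving bijection preserves degrees and adjacency -/
theorem equiv_dg {t s : Mp} (e : V s ≃ V t)
    (he : ∀ f : V t → ℝ, energy s (fun x => f (e x)) = energy t f) (x : V s) :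
    dg t (e x) = dg s x := by
  unfold dg
  rw [← he]
  congr 1
  funext y
  by_cases h : y = x
  · rw [if_pos h, if_pos (congrArg e h)]
  · rw [if_neg h, if_neg (fun h' => h (e.injective h'))]

theorem equiv_adj {t s : Mp} (ht : ok t) (hs : ok s) (e : V s ≃ V t)
    (he : ∀ f : V t → ℝ, energy s (fun x => f (e x)) = energy t f) (x y : V s) :
    adj t (e x) (e y) ↔ adj s x y := by
  rw [adj_iff_energy t ht, adj_iff_energy s hs, equiv_dg e he, equiv_dg e he, ← he]
  refine and_congr e.injective.ne_iff ?_
  refine iff_of_eq ?_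
  congr 2
  funext z
  congr 1
  · by_cases h : z = x
    · rw [if_pos h, if_pos (congrArg e h)]
    · rw [if_neg h, if_neg (fun h' => h (e.injective h'))]
  · by_cases h : z = y
    · rw [if_pos h, if_pos (congrArg e h)]
    · rw [if_neg h, if_neg (fun h' => h (e.injective h'))]

theorem equiv_supp {t s : Mp} (e : V s ≃ V t) (f : V t → ℝ) :
    supp s (fun x => f (e x)) = supp t f := by
  unfold supp
  exact Finset.card_bijective e e.bijective (by simp)

end Pool.Agent.P.MP_7a6434d8_pr
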