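import Pool.Agent.P.MP_7a6434d8_pr.XAny
import Pool.Agent.P.MP_7a6434d8_pr.XGraphA

namespace Pool.Agent.P.MP_7a6434d8_pr

open Mp Finset
open scoped ENNReal

theorem xdeg_pt (x : V pt) : dg pt x = 0 := rfl

open Classical in
theorem xdeg_face (t : Mp) (x : V t) : dg (face t) x = dg t x +
    ((if bv t 0 = x then (1 : ℝ) else 0) - (if bv t 3 = x then 1 else 0)) ^ 2 := rfl

theorem xdeg_face_le (t : Mp) (x : V t) : dg (face t) x ≤ dg t x + 1 := by
  rw [xdeg_face]
  split_ifs <;> norm_num

theorem xdeg_face_eq (t : Mp) (x : V t) (h0 : bv t 0 ≠ x) (h3 : bv t 3 ≠ x) :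
    dg (face t) x = dg t x := by
  rw [xdeg_face, if_neg h0, if_neg h3]
  norm_num

open Classical in
theorem xdeg_inl (a b : Mp) (x : V a) : dg (bridge a b) (Sum.inl x) = dg a x +
    (if bv a 0 = x then (1 : ℝ) else 0) := by
  have h : dg (bridge a b) (Sum.inl x) =
      energy a (fun y => if (Sum.inl y : V a ⊕ V b) = Sum.inl x then (1 : ℝ) else 0) +
      energy b (fun y => if (Sum.inr y : V a ⊕ V b) = Sum.inl x then (1 : ℝ) else 0) +
      ((if (Sum.inl (bv a 0) : V a ⊕ V b) = Sum.inl x then (1 : ℝ) else 0) -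
        (if (Sum.inr (bv b 0) : V a ⊕ V b) = Sum.inl x then (1 : ℝ) else 0)) ^ 2 := by
    unfold dg
    simp only [energy]
    congr <;> (funext y; congr)
  have h1 : (fun y : V a => if (Sum.inl y : V a ⊕ V b) = Sum.inl x then (1 : ℝ) else 0) =
      fun y => if y = x then (1 : ℝ) else 0 := by
    funext y
    simp only [Sum.inl.injEq]
  have h2 : (fun y : V b => if (Sum.inr y : V a ⊕ V b) = Sum.inl x then (1 : ℝ) else 0) =
      fun _ => (0 : ℝ) := by
    funext y
    simp
  rw [h, h1, h2, energy_const]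
  unfold dg
  by_cases hx : bv a 0 = x <;> simp [hx]

open Classical in
theorem xdeg_inr (a b : Mp) (x : V b) : dg (bridge a b) (Sum.inr x) = dg b x +
    (if bv b 0 = x then (1 : ℝ) else 0) := by
  have h : dg (bridge a b) (Sum.inr x) =
      energy a (fun y => if (Sum.inl y : V a ⊕ V b) = Sum.inr x then (1 : ℝ) else 0) +
      energy b (fun y => if (Sum.inr y : V a ⊕ V b) = Sum.inr x then (1 : ℝ) else 0) +
      ((if (Sum.inl (bv a 0) : V a ⊕ V b) = Sum.inr x then (1 : ℝ) else 0) -
        (if (Sum.inr (bv b 0) : V a ⊕ V b) = Sum.inr x then (1 : ℝ) else 0)) ^ 2 := by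
    unfold dg
    simp only [energy]
    congr <;> (funext y; congr)
  have h1 : (fun y : V b => if (Sum.inr y : V a ⊕ V b) = Sum.inr x then (1 : ℝ) else 0) =
      fun y => if y = x then (1 : ℝ) else 0 := by
    funext y
    simp only [Sum.inr.injEq]
  have h2 : (fun y : V a => if (Sum.inl y : V a ⊕ V b) = Sum.inr x then (1 : ℝ) else 0) =
      fun _ => (0 : ℝ) := by
    funext y
    simp
  rw [h, h1, h2, energy_const]
  unfold dg
  by_cases hx : bv b 0 = x <;> simp [hx]

theorem xdeg_Z_le (L : ℕ) : Z (L + 1) ≤ 8 * Z L := by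
  rw [Z_eq_w, Z_eq_w, pow_succ]
  have h := w_anti (Nat.le_succ L)
  have h8 : (0 : ℝ) < 8 ^ L := by positivity
  nlinarith

theorem deg_root (D L : ℕ) :
    mass L (fun t => (D : ℝ) < dg t (bv t 0)) ≤ (7 / 8) ^ D * Z L := by
  induction D generalizing L with
  | zero => simpa using mass_le_Z L _
  | succ D ih =>
    have hq : (0 : ℝ) ≤ (7 / 8) ^ D := by positivity
    rcases L with _ | L
    · rw [mass_eq_zero]
      · have := Z_pos 0
        positivity
      · intro t ht hp
        obtain rfl := eq_pt_of_per_zero t ht hp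
        rw [xdeg_pt, not_lt]
        positivity
    rw [root_eq (L + 1) (by omega), sum_range_succ]
    have h1 : mass (L + 1 + 1) (fun t => ((D + 1 : ℕ) : ℝ) < dg (face t) (bv (face t) 0))
        ≤ (7 / 8) ^ D * Z (L + 1 + 1) := by
      refine le_trans (mass_mono fun t _ _ h => ?_) (ih (L + 1 + 1))
      have h2 := xdeg_face_le t (bv t 0)
      have h3 : dg (face t) (bv (face t) 0) = dg (face t) (bv t 0) := rfl
      rw [h3] at h
      push_cast at h
      linarith
    have h2 : ∀ j ∈ range L, mass2 (L + 1 - 1 - j) j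
        (fun a b => ((D + 1 : ℕ) : ℝ) < dg (bridge a b) (bv (bridge a b) 0))
        ≤ (7 / 8) ^ D * (Z (L + 1 - 1 - j) * Z j) := by
      intro j _
      rw [← mul_assoc]
      refine mass2_le_outer (mul_nonneg hq (Z_pos _).le) fun b _ _ => ?_
      refine le_trans (mass_mono fun a _ _ h => ?_) (ih (L + 1 - 1 - j))
      have h3 : dg (bridge a b) (bv (bridge a b) 0) = dg (bridge a b) (Sum.inl (bv a 0)) := rfl
      rw [h3, xdeg_inl, if_pos rfl] at h
      push_cast at h
      linarith
    have h3 : mass2 (L + 1 - 1 - L) L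
        (fun a b => ((D + 1 : ℕ) : ℝ) < dg (bridge a b) (bv (bridge a b) 0)) = 0 := by
      refine mass2_eq_zero fun a b ha hp _ _ h => ?_
      obtain rfl := eq_pt_of_per_zero a ha (by omega)
      have h3 : dg (bridge pt b) (bv (bridge pt b) 0) =
        dg (bridge pt b) (Sum.inl (bv pt 0)) := rfl
      rw [h3, xdeg_inl, if_pos rfl, xdeg_pt] at h
      push_cast at h
      have : (0 : ℝ) ≤ D := Nat.cast_nonneg D
      linarith
    have h4 := sum_le_sum h2
    rw [← mul_sum] at h4
    have h5 := tutte (L + 1) (by omega)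
    rw [sum_range_succ, show L + 1 - 1 - L = 0 by omega, Z_zero, one_mul] at h5
    have h6 := xdeg_Z_le L
    rw [h3, pow_succ]
    have h7 : Z (L + 1 + 1) / 12 + ∑ j ∈ range L, Z (L + 1 - 1 - j) * Z j
        ≤ 7 / 8 * Z (L + 1) := by linarith
    have h8 := mul_le_mul_of_nonneg_left h7 hq
    linarith

/-- an end of the root edge has degree more than `D` -/
def xdegE (D : ℕ) (s : Mp) : Prop := (D : ℝ) < dg s (bv s 0) ∨ (D : ℝ) < dg s (bv s 1)

theorem xdeg_any (D : ℕ) (t : Mp) (h : ¬ MaxDeg t D) : AnySub (xdegE D) t := by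
  induction t with
  | pt =>
    refine absurd (fun x => ?_) h
    rw [xdeg_pt]
    positivity
  | face t ih =>
    unfold MaxDeg at h
    push Not at h
    obtain ⟨x, hx⟩ := h
    by_cases h0 : bv t 0 = x
    · exact Or.inl (Or.inl (by subst h0; exact hx))
    by_cases h3 : bv t 3 = x
    · exact Or.inl (Or.inr (by subst h3; exact hx))
    refine Or.inr (ih fun hm => ?_)
    have h1 := xdeg_face_eq t x h0 h3
    have h2 := hm x
    linarith
  | bridge a b iha ihb =>
    unfold MaxDeg at h
    push Not at h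
    obtain ⟨x, hx⟩ := h
    rcases x with x | x
    · by_cases h0 : bv a 0 = x
      · exact Or.inl (Or.inl (by subst h0; exact hx))
      refine Or.inr (Or.inl (iha fun hm => ?_))
      rw [xdeg_inl, if_neg h0] at hx
      have h2 := hm x
      linarith
    · by_cases h0 : bv b 0 = x
      · refine Or.inl (Or.inr ?_)
        have h1 : bv (bridge a b) 1 = Sum.inr (bv b 0) := by
          show (if 1 = 0 then Sum.inl (bv a 0)
            else if 1 ≤ 2 * per b + 1 then Sum.inr (bv b (1 - 1))
            else Sum.inl (bv a (1 - 2 * per b - 2)) : V a ⊕ V b) = _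
          rw [if_neg (by omega), if_pos (by omega)]
        rw [h1, h0]
        exact hx
      refine Or.inr (Or.inr (ihb fun hm => ?_))
      rw [xdeg_inr, if_neg h0] at hx
      have h2 := hm x
      linarith

theorem xdeg_one (D L : ℕ) (hL : 1 ≤ L) :
    mass L (fun t => (D : ℝ) < dg t (bv t 1)) ≤ (7 / 8) ^ D * Z L := by
  refine le_trans ?_ (deg_root D L)
  rw [← mass_rot L 1 (fun t => (D : ℝ) < dg t (bv t 0))]
  refine mass_mono fun t ht hp h => ?_
  obtain ⟨e, he, hb⟩ := rotN_shift 1 t ht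
  have h1 := hb 0 (Nat.zero_le _)
  rw [zero_add, Nat.mod_eq_of_lt (by omega)] at h1
  rw [← equiv_dg e he, h1]
  exact h

theorem maxdeg_tail (n D L : ℕ) : mass L (fun t => ¬ MaxDeg t D ∧ size t + per t ≤ n)
    ≤ (2 * n + 1) * (7 / 8) ^ D * (Bv L * Z L) := by
  have hq : (0 : ℝ) ≤ (7 / 8) ^ D := by positivity
  have h0 : ¬ xdegE D pt := by
    unfold xdegE
    rw [xdeg_pt, xdeg_pt, or_self, not_lt]
    positivity
  refine le_trans (mass_mono fun t _ _ h => ⟨xdeg_any D t h.1, h.2⟩)
    (anysub (xdegE D) n _ (by positivity) h0 (fun L hL => ?_) L)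
  have hZ := Z_pos L
  rcases Nat.eq_zero_or_pos L with rfl | hpos
  · rw [mass_eq_zero]
    · positivity
    · intro t ht hp h
      obtain rfl := eq_pt_of_per_zero t ht hp
      exact h0 h.1
  have h1 := mass_le_add (L := L) (φ := fun t => xdegE D t ∧ size t + per t ≤ n)
    (ψ := fun t => (D : ℝ) < dg t (bv t 0)) (χ := fun t => (D : ℝ) < dg t (bv t 1))
    fun t _ _ h => h.1
  have h2 := deg_root D L
  have h3 := xdeg_one D L hpos
  have h4 : (1 : ℝ) ≤ n := by exact_mod_cast (show 1 ≤ n by omega)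
  have h5 : 0 ≤ (7 / 8 : ℝ) ^ D * Z L := by positivity
  nlinarith

end Pool.Agent.P.MP_7a6434d8_pr
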