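import Pool.Agent.P.MP_7a6434d8_pr.XGraphB

namespace Pool.Agent.P.MP_7a6434d8_pr

open Mp Finset
open scoped ENNReal

theorem Sep.mono {t : Mp} {r r' : ℕ} {K v K' v' : ℝ} (h : Sep t r K v) (hr : r ≤ r')
    (hK : K ≤ K') (hv : v ≤ v') : Sep t r' K' v' := by
  obtain ⟨f, h1, h2, h3, h4, h5⟩ := h
  exact ⟨f, h1, h2, h3.trans hK, h4.trans hv, fun x y hxy => (h5 x y hxy).mono hr⟩

/-- indicator of non-vanishing -/
noncomputable def xsep_ind (x : ℝ) : ℕ := if x = 0 then 0 else 1

theorem xsep_supp_eq (t : Mp) (f : V t → ℝ) : supp t f = ∑ x, xsep_ind (f x) := by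
  unfold supp
  rw [card_filter]
  refine sum_congr rfl fun x _ => ?_
  unfold xsep_ind
  by_cases h : f x = 0
  · rw [if_pos h, if_neg (not_not.2 h)]
  · rw [if_neg h, if_pos h]

theorem xsep_supp_bridge (a b : Mp) (fa : V a → ℝ) (fb : V b → ℝ) :
    supp (bridge a b) (Sum.elim fa fb) = supp a fa + supp b fb := by
  rw [xsep_supp_eq a, xsep_supp_eq b]
  exact (xsep_supp_eq (bridge a b) (Sum.elim fa fb)).trans
    (Fintype.sum_sum_type (α₁ := V a) (α₂ := V b) (fun x => xsep_ind (Sum.elim fa fb x)))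

theorem xsep_face {s : Mp} (hs : ok (face s)) {r : ℕ} {K v : ℝ} (h : Sep s r K v) :
    Sep (face s) r K v := by
  obtain ⟨f, h1, h2, h3, h4, h5⟩ := h
  have hp : 2 ≤ per s := hs.2
  have b0 : f (bv s 0) = 1 := h2 0 (Nat.zero_le _)
  have b3 : f (bv s 3) = 1 := h2 3 (by omega)
  refine ⟨f, h1, fun p hp' => ?_, ?_, ?_, fun x y hxy => ?_⟩
  · have hp'' : p ≤ 2 * (per s - 1) := hp'
    show f (if p = 0 then bv s 0 else bv s (p + 2)) = 1
    split_ifs
    · exact b0
    · exact h2 _ (by omega)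
  · show energy s f + (f (bv s 0) - f (bv s 3)) ^ 2 ≤ K
    rw [b0, b3]
    simpa using h3
  · have h6 : supp (face s) f = supp s f :=
      (xsep_supp_eq (face s) f).trans (xsep_supp_eq s f).symm
    exact (congrArg (Nat.cast : ℕ → ℝ) h6).trans_le h4
  · refine Within.map (t := face s) (s := s) id (fun _ _ h => Or.inl h) (h5 x y ⟨hxy.1, ?_⟩)
    refine Relation.ReflTransGen.mono (fun u w huw => ?_) _ _ hxy.2
    obtain ⟨ha, hw⟩ := huw
    rcases ha with ha | ⟨-, ha⟩ | ⟨-, ha⟩
    · exact ⟨ha, hw⟩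
    · exact absurd (ha ▸ b3) hw
    · exact absurd (ha ▸ b0) hw

theorem xsep_bridge {a b : Mp} {r : ℕ} {Ka va Kb vb : ℝ} (ha : Sep a r Ka va)
    (hb : Sep b r Kb vb) : Sep (bridge a b) r (Ka + Kb) (va + vb) := by
  obtain ⟨f, h1, h2, h3, h4, h5⟩ := ha
  obtain ⟨g, g1, g2, g3, g4, g5⟩ := hb
  have a0 : f (bv a 0) = 1 := h2 0 (Nat.zero_le _)
  have b0 : g (bv b 0) = 1 := g2 0 (Nat.zero_le _)
  refine ⟨Sum.elim f g, fun x => ?_, fun p hp' => ?_, ?_, ?_, fun x y hxy => ?_⟩
  · rcases x with x | x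
    · exact h1 x
    · exact g1 x
  · have hp'' : p ≤ 2 * (per a + per b + 1) := hp'
    show Sum.elim f g (if p = 0 then Sum.inl (bv a 0)
      else if p ≤ 2 * per b + 1 then Sum.inr (bv b (p - 1))
      else Sum.inl (bv a (p - 2 * per b - 2))) = 1
    split_ifs
    · exact a0
    · exact g2 _ (by omega)
    · exact h2 _ (by omega)
  · show energy a f + energy b g + (f (bv a 0) - g (bv b 0)) ^ 2 ≤ Ka + Kb
    rw [a0, b0]
    simpa using add_le_add h3 g3
  · rw [xsep_supp_bridge]
    push_cast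
    exact add_le_add h4 g4
  · obtain ⟨hx, hxy⟩ := hxy
    rcases x with x | x
    · have key : ∃ y0, y = Sum.inl y0 ∧
          Relation.ReflTransGen (fun u w => adj a u w ∧ f w ≠ 1) x y0 := by
        induction hxy with
        | refl => exact ⟨x, rfl, .refl⟩
        | tail _ hz ih =>
          obtain ⟨y0, rfl, hy0⟩ := ih
          rename_i z _
          rcases z with z | z
          · exact ⟨z, rfl, hy0.tail ⟨hz.1, hz.2⟩⟩
          · have h6 : z = bv b 0 := hz.1.2
            exact absurd (h6 ▸ b0 : g z = 1) hz.2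
      obtain ⟨y0, rfl, hy0⟩ := key
      exact Within.map (t := bridge a b) (s := a) Sum.inl (fun _ _ h => h) (h5 x y0 ⟨hx, hy0⟩)
    · have key : ∃ y0, y = Sum.inr y0 ∧
          Relation.ReflTransGen (fun u w => adj b u w ∧ g w ≠ 1) x y0 := by
        induction hxy with
        | refl => exact ⟨x, rfl, .refl⟩
        | tail _ hz ih =>
          obtain ⟨y0, rfl, hy0⟩ := ih
          rename_i z _
          rcases z with z | z
          · have h6 : z = bv a 0 := hz.1.2
            exact absurd (h6 ▸ a0 : f z = 1) hz.2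
          · exact ⟨z, rfl, hy0.tail ⟨hz.1, hz.2⟩⟩
      obtain ⟨y0, rfl, hy0⟩ := key
      exact Within.map (t := bridge a b) (s := b) Sum.inr (fun _ _ h => h) (g5 x y0 ⟨hx, hy0⟩)

theorem xsep_small (t : Mp) (ht : ok t) (r : ℕ) : Sep t r 0 ((edges t : ℝ) + 1) := by
  refine ⟨fun _ => 1, fun _ => ⟨zero_le_one, le_rfl⟩, fun _ _ => rfl, (energy_const t 1).le, ?_,
    fun x y hxy => absurd rfl hxy.1⟩
  exact_mod_cast (supp_le_card t _).trans (card_V_le t ht)

theorem xsep_anySub_self {E : Mp → Prop} {t : Mp} (h : E t) : AnySub E t := by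
  cases t with
  | pt => exact h
  | face t => exact Or.inl h
  | bridge a b => exact Or.inl h

/-- the part of the volume bound that does not come from medium pieces -/
noncomputable def xsep_X (m m1 : ℕ) (c : Mp) : ℝ :=
  if m < edges c then (edges c : ℝ) / m * (pc m1 c + 2 * (m1 + 1)) else (disc m1 c : ℝ)

theorem xsep_disc_le (m1 : ℕ) (c : Mp) : (disc m1 c : ℝ) ≤ m1 + 1 := by
  have : disc m1 c ≤ m1 + 1 := by unfold disc; split_ifs <;> omega
  exact_mod_cast this

theorem xsep_all (m m1 r : ℕ) (K2 v2 : ℝ) (h1 : 1 ≤ m1) (hm : m1 ≤ m) (hK : 0 ≤ K2) (hv : 0 ≤ v2)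
    (t : Mp) (ht : ok t)
    (h : ¬ AnySub (fun s => m1 < edges s ∧ edges s ≤ m ∧
      ¬ (Layer s K2 v2 ∧ ∀ x y, Within s r x y)) t) :
    Sep t r (K2 * edges t / m1) (xsep_X m m1 t + v2 * edges t / m1) := by
  have hm1 : (0 : ℝ) < m1 := by exact_mod_cast h1
  have hm0 : (0 : ℝ) < m := by exact_mod_cast (h1.trans hm)
  have nb : ∀ s : Mp, ok s → ¬ AnySub (fun s => m1 < edges s ∧ edges s ≤ m ∧
      ¬ (Layer s K2 v2 ∧ ∀ x y, Within s r x y)) s → edges s ≤ m →
      Sep s r (K2 * edges s / m1) (xsep_X m m1 s + v2 * edges s / m1) := by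
    intro s hs hn he
    have e0 : (0 : ℝ) ≤ edges s := Nat.cast_nonneg _
    have hX : xsep_X m m1 s = disc m1 s := if_neg (not_lt.2 he)
    rw [hX]
    by_cases hsm : edges s ≤ m1
    · refine (xsep_small s hs r).mono le_rfl (by positivity) ?_
      have : disc m1 s = edges s + 1 := if_pos hsm
      rw [this]
      push_cast
      have : 0 ≤ v2 * edges s / m1 := by positivity
      linarith
    · have hl : Layer s K2 v2 ∧ ∀ x y, Within s r x y := by
        by_contra hc
        exact hn (xsep_anySub_self ⟨not_le.1 hsm, he, hc⟩)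
      obtain ⟨⟨f, f1, f2, f3, f4⟩, f5⟩ := hl
      have hge : (m1 : ℝ) ≤ edges s := by exact_mod_cast (not_le.1 hsm).le
      have hS : Sep s r K2 v2 := ⟨f, f1, f2, f3, f4, fun x y _ => f5 x y⟩
      refine hS.mono le_rfl ?_ ?_
      · rw [le_div_iff₀ hm1]; exact mul_le_mul_of_nonneg_left hge hK
      · have h2 : v2 ≤ v2 * edges s / m1 := by
          rw [le_div_iff₀ hm1]; exact mul_le_mul_of_nonneg_left hge hv
        have h3 : (0 : ℝ) ≤ disc m1 s := Nat.cast_nonneg _
        linarith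
  induction t with
  | pt => exact nb _ ht h (Nat.zero_le _)
  | face s ih =>
    by_cases he : edges (face s) ≤ m
    · exact nb _ ht h he
    have hs := xsep_face ht (ih ht.1 fun hc => h (Or.inr hc))
    have hE : (edges (face s) : ℝ) = edges s + 1 := by
      show ((edges s + 1 : ℕ) : ℝ) = _
      push_cast; ring
    have e0 : (0 : ℝ) ≤ edges s := Nat.cast_nonneg _
    have hX : xsep_X m m1 (face s) = (edges (face s) : ℝ) / m * (pc m1 s + 2 * (m1 + 1)) :=
      if_pos (not_le.1 he)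
    have hge : (1 : ℝ) ≤ (edges (face s) : ℝ) / m := by
      rw [le_div_iff₀ hm0, one_mul]; exact_mod_cast (not_le.1 he).le
    have p0 : (0 : ℝ) ≤ pc m1 s := Nat.cast_nonneg _
    refine hs.mono le_rfl ?_ (add_le_add ?_ ?_)
    · rw [hE]; gcongr; linarith
    · rw [hX]
      unfold xsep_X
      split_ifs
      · rw [hE]; gcongr; linarith
      · have h3 := xsep_disc_le m1 s
        have h4 : (0 : ℝ) ≤ pc m1 s + 2 * (m1 + 1) := by positivity
        nlinarith [mul_le_mul_of_nonneg_right hge h4]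
    · rw [hE]; gcongr; linarith
  | bridge a b iha ihb =>
    by_cases he : edges (bridge a b) ≤ m
    · exact nb _ ht h he
    have hs := xsep_bridge (iha ht.1 fun hc => h (Or.inr (Or.inl hc)))
      (ihb ht.2 fun hc => h (Or.inr (Or.inr hc)))
    have hE : (edges (bridge a b) : ℝ) = edges a + edges b + 1 := by
      show ((edges a + edges b + 1 : ℕ) : ℝ) = _
      push_cast; ring
    have ea : (0 : ℝ) ≤ edges a := Nat.cast_nonneg _
    have eb : (0 : ℝ) ≤ edges b := Nat.cast_nonneg _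
    have hX : xsep_X m m1 (bridge a b) =
        (edges (bridge a b) : ℝ) / m * (pc m1 (bridge a b) + 2 * (m1 + 1)) :=
      if_pos (not_le.1 he)
    have hge : (1 : ℝ) ≤ (edges (bridge a b) : ℝ) / m := by
      rw [le_div_iff₀ hm0, one_mul]; exact_mod_cast (not_le.1 he).le
    have pa : (0 : ℝ) ≤ pc m1 a := Nat.cast_nonneg _
    have pb : (0 : ℝ) ≤ pc m1 b := Nat.cast_nonneg _
    have da : (0 : ℝ) ≤ disc m1 a := Nat.cast_nonneg _
    have db : (0 : ℝ) ≤ disc m1 b := Nat.cast_nonneg _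
    have qa : (pc m1 a : ℝ) + disc m1 b ≤ pc m1 (bridge a b) := by
      have : pc m1 a + disc m1 b ≤ pc m1 (bridge a b) := le_max_left _ _
      exact_mod_cast this
    have qb : (pc m1 b : ℝ) + disc m1 a ≤ pc m1 (bridge a b) := by
      have : pc m1 b + disc m1 a ≤ pc m1 (bridge a b) := le_max_right _ _
      exact_mod_cast this
    have hsum : (edges a : ℝ) / m + edges b / m ≤ (edges (bridge a b) : ℝ) / m := by
      rw [← add_div, hE]
      exact div_le_div_of_nonneg_right (by linarith) hm0.le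
    have xa : (0 : ℝ) ≤ (edges a : ℝ) / m := by positivity
    have xb : (0 : ℝ) ≤ (edges b : ℝ) / m := by positivity
    have d1 := xsep_disc_le m1 a
    have d2 := xsep_disc_le m1 b
    have hXX : xsep_X m m1 a + xsep_X m m1 b ≤ xsep_X m m1 (bridge a b) := by
      rw [hX]
      unfold xsep_X
      generalize (edges (bridge a b) : ℝ) / m = x at hge hsum
      generalize (edges a : ℝ) / m = y at hsum xa
      generalize (edges b : ℝ) / m = z at hsum xb
      generalize (pc m1 (bridge a b) : ℝ) = P at qa qb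
      generalize (pc m1 a : ℝ) = A at pa qa
      generalize (pc m1 b : ℝ) = B at pb qb
      generalize (disc m1 a : ℝ) = Da at da qb d1
      generalize (disc m1 b : ℝ) = Db at db qa d2
      have hM : (0 : ℝ) ≤ 2 * (m1 + 1) := by positivity
      split_ifs
      · have u1 : y * (A + 2 * (m1 + 1)) ≤ y * (P + 2 * (m1 + 1)) := by gcongr; linarith
        have u2 : z * (B + 2 * (m1 + 1)) ≤ z * (P + 2 * (m1 + 1)) := by gcongr; linarith
        have u3 : (y + z) * (P + 2 * (m1 + 1)) ≤ x * (P + 2 * (m1 + 1)) := by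
          gcongr; linarith
        linarith
      · have u1 : y * (A + 2 * (m1 + 1)) ≤ x * (A + 2 * (m1 + 1)) := by
          gcongr; linarith
        have u2 : Db ≤ x * Db := le_mul_of_one_le_left db hge
        have u3 : x * (A + Db + 2 * (m1 + 1)) ≤ x * (P + 2 * (m1 + 1)) := by
          gcongr
        linarith
      · have u1 : z * (B + 2 * (m1 + 1)) ≤ x * (B + 2 * (m1 + 1)) := by
          gcongr; linarith
        have u2 : Da ≤ x * Da := le_mul_of_one_le_left da hge
        have u3 : x * (B + Da + 2 * (m1 + 1)) ≤ x * (P + 2 * (m1 + 1)) := by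
          gcongr
        linarith
      · have u1 : P + 2 * (m1 + 1) ≤ x * (P + 2 * (m1 + 1)) :=
          le_mul_of_one_le_left (by linarith) hge
        linarith
    refine hs.mono le_rfl ?_ ?_
    · rw [← add_div, ← mul_add, hE]
      exact div_le_div_of_nonneg_right (mul_le_mul_of_nonneg_left (by linarith) hK) hm1.le
    · have : v2 * edges a / m1 + v2 * edges b / m1 ≤ v2 * edges (bridge a b) / m1 := by
        rw [← add_div, ← mul_add, hE]
        exact div_le_div_of_nonneg_right (mul_le_mul_of_nonneg_left (by linarith) hv) hm1.le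
      linarith

theorem sep_of (m m1 r : ℕ) (K2 v2 : ℝ) (h1 : 1 ≤ m1) (hm : m1 ≤ m) (hK : 0 ≤ K2) (hv : 0 ≤ v2)
    (t : Mp) (ht : ok t)
    (h : ¬ AnySub (fun s => m1 < edges s ∧ edges s ≤ m ∧
      ¬ (Layer s K2 v2 ∧ ∀ x y, Within s r x y)) t) (hb : m < edges t) :
    Sep t r (K2 * edges t / m1)
      ((edges t : ℝ) / m * (pc m1 t + 2 * (m1 + 1)) + v2 * edges t / m1) := by
  have := xsep_all m m1 r K2 v2 h1 hm hK hv t ht h
  rwa [show xsep_X m m1 t = (edges t : ℝ) / m * (pc m1 t + 2 * (m1 + 1)) from if_pos hb] at this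

end Pool.Agent.P.MP_7a6434d8_pr
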