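import Pool.Agent.P.MP_7a6434d8_pr.XMom

namespace Pool.Agent.P.MP_7a6434d8_pr

open Mp Finset
open scoped ENNReal

theorem xspine_sq (m : ℕ) : ∑ j ∈ range m, ((j : ℝ) + 1) ^ 2 * w j
    = (2 * (m : ℝ) ^ 3 + 8 * m ^ 2 + 28 * m / 3 + 8 / 3) * w m - 8 / 3 := by
  induction m with
  | zero => simp [w_zero]
  | succ m ih =>
    rw [sum_range_succ, ih, w_succ]
    push_cast
    field_simp
    ring

theorem xspine_split (L J : ℕ) (M : ℝ) (hM : 0 ≤ M) :
    ∑ j ∈ range L, w j * min (((j : ℝ) + 1) ^ 2) M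
      ≤ 4 * ((J : ℝ) + 1) ^ 3 * w J + M * (4 / 3 * ((J : ℝ) + 1) * w J) := by
  have hnn : ∀ j : ℕ, 0 ≤ w j * min (((j : ℝ) + 1) ^ 2) M := fun j =>
    mul_nonneg (w_pos j).le (le_min (by positivity) hM)
  have hJ : (0 : ℝ) ≤ J := Nat.cast_nonneg J
  have hw := w_pos J
  have h1 : ∑ j ∈ range L, w j * min (((j : ℝ) + 1) ^ 2) M
      ≤ ∑ j ∈ range (J + L), w j * min (((j : ℝ) + 1) ^ 2) M :=
    sum_le_sum_of_subset_of_nonneg (range_subset_range.2 (by omega)) fun j _ _ => hnn j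
  refine h1.trans ?_
  rw [sum_range_add]
  refine add_le_add ?_ ?_
  · refine le_trans (sum_le_sum (g := fun j : ℕ => ((j : ℝ) + 1) ^ 2 * w j) fun j _ => ?_) ?_
    · rw [mul_comm]
      exact mul_le_mul_of_nonneg_right (min_le_left _ _) (w_pos j).le
    · rw [xspine_sq]
      have : (2 * (J : ℝ) ^ 3 + 8 * J ^ 2 + 28 * J / 3 + 8 / 3) ≤ 4 * ((J : ℝ) + 1) ^ 3 := by
        have h2 : 0 ≤ (J : ℝ) ^ 2 := by positivity
        have h3 : 0 ≤ (J : ℝ) ^ 3 := by positivity
        nlinarith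
      have := mul_le_mul_of_nonneg_right this hw.le
      linarith
  · refine le_trans (sum_le_sum (g := fun j : ℕ => M * w (J + j)) fun j _ => ?_) ?_
    · rw [mul_comm M]
      exact mul_le_mul_of_nonneg_left (min_le_right _ _) (w_pos _).le
    · rw [← mul_sum]
      refine mul_le_mul_of_nonneg_left ?_ hM
      have h2 := sum_range_add w J L
      rw [sum_w, sum_w] at h2
      have h3 : 0 ≤ (2 * ((J + L : ℕ) : ℝ) + 4) / 3 * w (J + L) := by
        have := w_pos (J + L)
        positivity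
      nlinarith

theorem xspine_sum : ∃ C : ℝ, 0 < C ∧ ∀ (L : ℕ) (M : ℝ), 1 ≤ M →
    ∑ j ∈ range L, w j * min (((j : ℝ) + 1) ^ 2) M ≤ C * √(√M) := by
  obtain ⟨c, C, hc, hC, h⟩ := w_bounds
  refine ⟨10 * C, by positivity, fun L M hM => ?_⟩
  set q := √(√M) with hq
  have hs1 : 1 ≤ √M := Real.one_le_sqrt.2 hM
  have hq1 : 1 ≤ q := Real.one_le_sqrt.2 hs1
  have hq2 : q ^ 2 = √M := Real.sq_sqrt (by linarith)
  have hq4 : q ^ 4 = M := by
    have : (√M) ^ 2 = M := Real.sq_sqrt (by linarith)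
    rw [← this, ← hq2]
    ring
  set J := ⌊√M⌋₊ with hJ
  have hJ1 : (J : ℝ) ≤ q ^ 2 := by
    rw [hq2]
    exact Nat.floor_le (by linarith)
  have hJ2 : q ^ 2 < (J : ℝ) + 1 := by
    rw [hq2]
    exact Nat.lt_floor_add_one _
  refine (xspine_split L J M (by linarith)).trans ?_
  have hb := (h J).2
  set r := √((J : ℝ) + 1) with hr
  have hJ0 : (0 : ℝ) ≤ J := Nat.cast_nonneg J
  have hr2 : r ^ 2 = (J : ℝ) + 1 := Real.sq_sqrt (by linarith)
  have hr0 : 0 ≤ r := Real.sqrt_nonneg _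
  have hqr : q ≤ r := by
    by_contra hlt
    push Not at hlt
    nlinarith
  have hr2q : r ≤ 2 * q := by
    by_contra hlt
    push Not at hlt
    nlinarith
  have hw := w_pos J
  rw [← hr2] at hb ⊢
  have e1 : 4 * (r ^ 2) ^ 3 * w J = 4 * r * (w J * ((r ^ 2) ^ 2 * r)) := by ring
  have a1 : 4 * (r ^ 2) ^ 3 * w J ≤ 8 * q * C := by
    rw [e1]
    exact mul_le_mul (by linarith) hb (by positivity) (by positivity)
  have a2 : M * (4 / 3 * r ^ 2 * w J) ≤ 2 * q * C := by
    have h3 : q ^ 3 ≤ r ^ 3 := pow_le_pow_left₀ (by linarith) hqr 3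
    have h4 : q ^ 3 * (r ^ 2 * w J) ≤ C :=
      le_trans (mul_le_mul_of_nonneg_right h3 (by positivity)) (by
        have : r ^ 3 * (r ^ 2 * w J) = w J * ((r ^ 2) ^ 2 * r) := by ring
        rw [this]
        exact hb)
    have e2 : M * (4 / 3 * r ^ 2 * w J) = 4 / 3 * q * (q ^ 3 * (r ^ 2 * w J)) := by
      rw [← hq4]
      ring
    rw [e2]
    exact mul_le_mul (by linarith) h4 (by positivity) (by positivity)
  nlinarith

theorem xspine_exp (z : ℝ) (h0 : 0 ≤ z) (h1 : z ≤ 1) : Real.exp z ≤ 1 + 2 * z := by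
  have h := Real.abs_exp_sub_one_sub_id_le (x := z) (by rw [abs_of_nonneg h0]; exact h1)
  have h2 := (abs_le.1 h).2
  nlinarith

theorem xspine_disc (m1 : ℕ) (θ : ℝ) (h0 : 0 < θ) (h1 : θ * (m1 + 1) ≤ 1) (j : ℕ) :
    IE j (fun b => ENNReal.ofReal (Real.exp (θ * disc m1 b)))
      ≤ ENNReal.ofReal (Z j * (1 + 2 * θ * min (((j : ℝ) + 1) ^ 2) ((m1 : ℝ) + 1))) := by
  have hd1 : ∀ b, (disc m1 b : ℝ) ≤ m1 + 1 := fun b => by
    have : disc m1 b ≤ m1 + 1 := by
      unfold disc
      split_ifs <;> omega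
    exact_mod_cast this
  have hd2 : ∀ b, (disc m1 b : ℝ) ≤ edges b + 1 := fun b => by
    have : disc m1 b ≤ edges b + 1 := by
      unfold disc
      split_ifs <;> omega
    exact_mod_cast this
  have he : ∀ b, Real.exp (θ * disc m1 b) ≤ 1 + 2 * (θ * disc m1 b) := fun b =>
    xspine_exp _ (by positivity) ((mul_le_mul_of_nonneg_left (hd1 b) h0.le).trans h1)
  have hZ := Z_pos j
  rcases le_total (((j : ℝ) + 1) ^ 2) ((m1 : ℝ) + 1) with h | h
  · rw [min_eq_left h]
    refine le_trans (IE_mono (G := fun b => ENNReal.ofReal (2 * θ) * (edges b : ℝ≥0∞)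
      + ENNReal.ofReal (1 + 2 * θ)) fun b _ _ => ?_) ?_
    · rw [← ENNReal.ofReal_natCast, ← ENNReal.ofReal_mul (by positivity),
        ← ENNReal.ofReal_add (by positivity) (by positivity)]
      refine ENNReal.ofReal_le_ofReal ((he b).trans ?_)
      have := mul_le_mul_of_nonneg_left (hd2 b) h0.le
      linarith
    · rw [IE_add, IE_const_mul, IE_const]
      refine le_trans (add_le_add (mul_le_mul' le_rfl (IE_edges j)) le_rfl) ?_
      have hB := xmom_Bv j
      rw [← ENNReal.ofReal_mul (by positivity), ← ENNReal.ofReal_mul (by positivity),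
        ← ENNReal.ofReal_add (by positivity) (by positivity)]
      refine ENNReal.ofReal_le_ofReal (le_of_eq ?_)
      unfold Bv
      ring
  · rw [min_eq_right h]
    refine le_trans (IE_mono (G := fun _ => ENNReal.ofReal (1 + 2 * θ * ((m1 : ℝ) + 1)))
      fun b _ _ => ?_) ?_
    · refine ENNReal.ofReal_le_ofReal ((he b).trans ?_)
      have := mul_le_mul_of_nonneg_left (hd1 b) h0.le
      linarith
    · rw [IE_const, ← ENNReal.ofReal_mul (by positivity), mul_comm]

open Classical in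
/-- exponential moment of the discarded volume -/
noncomputable def xspineF (m1 Lm : ℕ) (θ : ℝ) (t : Mp) : ℝ≥0∞ :=
  if AnySub (fun s => Lm < per s) t then 0 else ENNReal.ofReal (Real.exp (θ * pc m1 t))

theorem xspine_self (E : Mp → Prop) (t : Mp) (h : E t) : AnySub E t := by
  cases t with
  | pt => exact h
  | face t => exact Or.inl h
  | bridge a b => exact Or.inl h

theorem xspine_face (m1 Lm : ℕ) (θ : ℝ) (t : Mp) :
    xspineF m1 Lm θ (face t) ≤ xspineF m1 Lm θ t := by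
  unfold xspineF
  by_cases h : AnySub (fun s => Lm < per s) (face t)
  · rw [if_pos h]
    exact zero_le
  · rw [if_neg h, if_neg fun h2 => h (Or.inr h2)]
    exact le_rfl

theorem xspine_bridge (m1 Lm : ℕ) (θ : ℝ) (a b : Mp) :
    xspineF m1 Lm θ (bridge a b)
      ≤ xspineF m1 Lm θ a * ENNReal.ofReal (Real.exp (θ * disc m1 b))
        + xspineF m1 Lm θ b * ENNReal.ofReal (Real.exp (θ * disc m1 a)) := by
  unfold xspineF
  by_cases h : AnySub (fun s => Lm < per s) (bridge a b)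
  · rw [if_pos h]
    exact zero_le
  · rw [if_neg h, if_neg fun h2 => h (Or.inr (Or.inl h2)),
      if_neg fun h2 => h (Or.inr (Or.inr h2)), ← ENNReal.ofReal_mul (Real.exp_pos _).le,
      ← ENNReal.ofReal_mul (Real.exp_pos _).le, ← Real.exp_add, ← Real.exp_add]
    simp only [pc]
    rcases le_total (pc m1 a + disc m1 b) (pc m1 b + disc m1 a) with h2 | h2
    · rw [max_eq_right h2]
      push_cast
      rw [mul_add]
      exact le_add_self
    · rw [max_eq_left h2]
      push_cast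
      rw [mul_add]
      exact le_self_add

theorem xspine_ind (m1 Lm : ℕ) (θ : ℝ) (h0 : 0 < θ) (h1 : θ * (m1 + 1) ≤ 1)
    (hn : ∀ L : ℕ, L ≤ Lm → 2 * θ * ∑ j ∈ range L, w j * min (((j : ℝ) + 1) ^ 2) ((m1 : ℝ) + 1)
      ≤ (2 * (L : ℝ) + 4) / 3 * w L) (N : ℕ) : ∀ L : ℕ,
    IE L (trunc N (xspineF m1 Lm θ)) ≤ ENNReal.ofReal (8 ^ L) := by
  induction N with
  | zero =>
    intro L
    rw [IE_trunc_zero]
    exact zero_le
  | succ N ih =>
    intro L
    rcases Nat.eq_zero_or_pos L with rfl | hL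
    · rw [IE_zero]
      simp only [trunc, xspineF, pc]
      split_ifs <;> simp
    by_cases hLm : Lm < L
    · refine le_trans (IE_mono (G := trunc 0 (xspineF m1 Lm θ)) fun t _ hp => ?_)
        ((IE_trunc_zero _ _).trans_le zero_le)
      have : xspineF m1 Lm θ t = 0 := by
        unfold xspineF
        rw [if_pos (xspine_self _ t (by rw [hp]; exact hLm))]
      simp only [trunc, this, ite_self, le_refl]
    refine (IE_root_trunc N L hL _).trans ?_
    set g : ℕ → ℝ := fun j => Z j * (1 + 2 * θ * min (((j : ℝ) + 1) ^ 2) ((m1 : ℝ) + 1)) with hg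
    have hg0 : ∀ j, 0 ≤ g j := fun j => by
      have := Z_pos j
      have h3 : 0 ≤ min (((j : ℝ) + 1) ^ 2) ((m1 : ℝ) + 1) :=
        le_min (by positivity) (by positivity)
      simp only [hg]
      positivity
    have a1 : IE (L + 1) (trunc N (fun t => xspineF m1 Lm θ (face t)))
        ≤ ENNReal.ofReal (8 ^ (L + 1)) := by
      refine le_trans (IE_mono fun t _ _ => ?_) (ih (L + 1))
      simp only [trunc]
      split_ifs
      · exact xspine_face m1 Lm θ t
      · exact le_rfl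
    have a2 : ∀ i j : ℕ, IE j (trunc N (fun b => IE i (trunc N
        (fun a => xspineF m1 Lm θ (bridge a b)))))
        ≤ ENNReal.ofReal (8 ^ i * g j + 8 ^ j * g i) := by
      intro i j
      have h3 : ∀ b : Mp, IE i (trunc N (fun a => xspineF m1 Lm θ (bridge a b)))
          ≤ ENNReal.ofReal (8 ^ i) * ENNReal.ofReal (Real.exp (θ * disc m1 b))
            + xspineF m1 Lm θ b * ENNReal.ofReal (g i) := by
        intro b
        refine le_trans (IE_mono
          (G := fun a => trunc N (xspineF m1 Lm θ) a * ENNReal.ofReal (Real.exp (θ * disc m1 b))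
            + xspineF m1 Lm θ b * ENNReal.ofReal (Real.exp (θ * disc m1 a)))
          fun a _ _ => ?_) ?_
        · simp only [trunc]
          split_ifs
          · exact xspine_bridge m1 Lm θ a b
          · exact zero_le
        · rw [IE_add, IE_mul_const, IE_const_mul]
          exact add_le_add (mul_le_mul' (ih i) le_rfl)
            (mul_le_mul' le_rfl (xspine_disc m1 θ h0 h1 i))
      refine le_trans (IE_mono
        (G := fun b => ENNReal.ofReal (8 ^ i) * ENNReal.ofReal (Real.exp (θ * disc m1 b))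
          + trunc N (xspineF m1 Lm θ) b * ENNReal.ofReal (g i)) fun b _ _ => ?_) ?_
      · simp only [trunc]
        split_ifs
        · exact h3 b
        · exact zero_le
      · rw [IE_add, IE_mul_const, IE_const_mul,
          ENNReal.ofReal_add (mul_nonneg (by positivity) (hg0 j))
            (mul_nonneg (by positivity) (hg0 i)),
          ENNReal.ofReal_mul (p := 8 ^ i) (by positivity),
          ENNReal.ofReal_mul (p := 8 ^ j) (q := g i) (by positivity)]
        exact add_le_add (mul_le_mul' le_rfl (xspine_disc m1 θ h0 h1 j))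
          (mul_le_mul' (ih j) le_rfl)
    have hnn : ∀ i j : ℕ, (0 : ℝ) ≤ 8 ^ i * g j + 8 ^ j * g i := fun i j =>
      add_nonneg (mul_nonneg (by positivity) (hg0 j)) (mul_nonneg (by positivity) (hg0 i))
    refine le_trans (add_le_add (mul_le_mul' le_rfl a1) (sum_le_sum fun j _ => a2 _ j)) ?_
    rw [xmom_inv12, ← ENNReal.ofReal_mul (by norm_num),
      ← ENNReal.ofReal_sum_of_nonneg (fun j _ => hnn _ j),
      ← ENNReal.ofReal_add (by positivity) (sum_nonneg fun j _ => hnn _ j)]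
    refine ENNReal.ofReal_le_ofReal ?_
    obtain ⟨m, rfl⟩ : ∃ m, L = m + 1 := ⟨L - 1, by omega⟩
    have s1 : ∑ j ∈ range (m + 1), (8 : ℝ) ^ (m + 1 - 1 - j) * g j
        = 8 ^ m * (∑ j ∈ range (m + 1), w j
          + 2 * θ * ∑ j ∈ range (m + 1), w j * min (((j : ℝ) + 1) ^ 2) ((m1 : ℝ) + 1)) := by
      rw [mul_sum, ← sum_add_distrib, mul_sum]
      refine sum_congr rfl fun j hj => ?_
      have hj' := mem_range.1 hj
      have e : (8 : ℝ) ^ m = 8 ^ (m + 1 - 1 - j) * 8 ^ j := by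
        rw [← pow_add]
        congr 1
        omega
      simp only [hg]
      rw [e, Z_eq_w]
      ring
    have s2 : ∑ j ∈ range (m + 1), (8 : ℝ) ^ j * g (m + 1 - 1 - j)
        = ∑ j ∈ range (m + 1), (8 : ℝ) ^ (m + 1 - 1 - j) * g j := by
      rw [← sum_range_reflect]
      refine sum_congr rfl fun j hj => ?_
      have hj' := mem_range.1 hj
      have e : m + 1 - 1 - (m + 1 - 1 - j) = j := by omega
      rw [e]
    rw [sum_add_distrib, s2, s1, sum_w]
    have h5 := mul_le_mul_of_nonneg_left (hn (m + 1) (by omega)) (by positivity : (0 : ℝ) ≤ 8 ^ m)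
    rw [pow_succ, pow_succ]
    linarith

theorem spine : ∃ c : ℝ, 0 < c ∧ ∀ (m1 Lm : ℕ) (θ y : ℝ), 0 < θ → θ * (m1 + 1) ≤ 1 →
    θ * √(√((m1 : ℝ) + 1)) * (((Lm : ℝ) + 1) * √((Lm : ℝ) + 1)) ≤ c → ∀ L,
    mass L (fun t => ¬ AnySub (fun s => Lm < per s) t ∧ y ≤ (pc m1 t : ℝ))
      ≤ Real.exp (-(θ * y)) * 8 ^ L := by
  obtain ⟨c, C, hc, hC, h⟩ := w_bounds
  obtain ⟨D, hD, hS⟩ := xspine_sum
  refine ⟨c / (3 * D), by positivity, fun m1 Lm θ y h0 h1 h2 L => ?_⟩
  have hm : (0 : ℝ) ≤ m1 := Nat.cast_nonneg m1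
  have hn : ∀ L : ℕ, L ≤ Lm →
      2 * θ * ∑ j ∈ range L, w j * min (((j : ℝ) + 1) ^ 2) ((m1 : ℝ) + 1)
        ≤ (2 * (L : ℝ) + 4) / 3 * w L := by
    intro L hL
    have hL0 : (0 : ℝ) ≤ L := Nat.cast_nonneg L
    have hL' : (L : ℝ) + 1 ≤ (Lm : ℝ) + 1 := by exact_mod_cast Nat.succ_le_succ hL
    have hw := w_pos L
    have b1 := hS L ((m1 : ℝ) + 1) (by linarith)
    have b2 := (h L).1
    have b3 : ((L : ℝ) + 1) * √((L : ℝ) + 1) ≤ ((Lm : ℝ) + 1) * √((Lm : ℝ) + 1) :=
      mul_le_mul hL' (Real.sqrt_le_sqrt hL') (Real.sqrt_nonneg _) (by positivity)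
    have hp : 0 < ((L : ℝ) + 1) * √((L : ℝ) + 1) := by positivity
    have hq : 0 ≤ θ * √(√((m1 : ℝ) + 1)) := by positivity
    have b4 := (mul_le_mul_of_nonneg_left b3 hq).trans h2
    rw [le_div_iff₀ (by positivity)] at b4
    have b5 : 3 * D * (θ * √(√((m1 : ℝ) + 1))) ≤ w L * ((L : ℝ) + 1) := by
      refine le_of_mul_le_mul_right ?_ hp
      nlinarith
    have b6 := mul_le_mul_of_nonneg_left b1 h0.le
    nlinarith
  have hF : IE L (xspineF m1 Lm θ) ≤ ENNReal.ofReal (8 ^ L) :=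
    IE_le_of_trunc fun N => xspine_ind m1 Lm θ h0 h1 hn N L
  have h3 := IE_markov (φ := fun t => ¬ AnySub (fun s => Lm < per s) t ∧ y ≤ (pc m1 t : ℝ))
    (Real.exp_pos (θ * y)) (by positivity) (fun t _ _ ht => by
      unfold xspineF
      rw [if_neg ht.1]
      exact ENNReal.ofReal_le_ofReal
        (Real.exp_le_exp.2 (mul_le_mul_of_nonneg_left ht.2 h0.le))) hF
  rw [Real.exp_neg, mul_comm, ← div_eq_mul_inv]
  exact h3

end Pool.Agent.P.MP_7a6434d8_pr
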