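import Pool.Agent.P.MP_7a6434d8_pr.XPiece
import Pool.Agent.P.MP_7a6434d8_pr.XSep
import Pool.Agent.P.MP_7a6434d8_pr.XSpine
import Pool.Agent.P.MP_7a6434d8_pr.XDeg

namespace Pool.Agent.P.MP_7a6434d8_pr

open Mp Finset Filter Topology
open scoped ENNReal

theorem xgood_ev (C ρ : ℝ) (k K : ℕ) (h0 : 0 ≤ ρ) (h1 : ρ < 1) :
    ∀ᶠ G : ℕ in atTop, C * (G : ℝ) ^ k * ρ ^ G ≤ 1 / (G : ℝ) ^ K := by
  have h := (tendsto_pow_const_mul_const_pow_of_abs_lt_one (k + K)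
    (r := ρ) (by rwa [abs_of_nonneg h0])).const_mul C
  rw [mul_zero] at h
  filter_upwards [h.eventually (gt_mem_nhds zero_lt_one), eventually_ge_atTop 1] with G hG hG1
  have hx : (0 : ℝ) < G := by exact_mod_cast hG1
  rw [le_div_iff₀ (by positivity)]
  calc C * (G : ℝ) ^ k * ρ ^ G * (G : ℝ) ^ K = C * ((G : ℝ) ^ (k + K) * ρ ^ G) := by ring
    _ ≤ 1 := hG.le

theorem xgood_spine_num {x c : ℝ} (e : ℕ) (hx : 36 ≤ x) (hc : 0 < c) (hxc : 32 / c ^ 2 ≤ x) :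
    1 / x ^ (4 * e + 216) * √(√(x ^ (4 * e + 136) + 1)) *
      ((x ^ (2 * e + 121) + 1) * √(x ^ (2 * e + 121) + 1)) ≤ c := by
  have hx0 : 0 < x := by linarith
  have hx1 : 1 ≤ x := by linarith
  have h1 : √(√(x ^ (4 * e + 136) + 1)) ≤ 2 * x ^ (e + 34) := by
    refine Real.sqrt_le_iff.2 ⟨by positivity, Real.sqrt_le_iff.2 ⟨by positivity, ?_⟩⟩
    have : 1 ≤ x ^ (4 * e + 136) := one_le_pow₀ hx1
    calc x ^ (4 * e + 136) + 1 ≤ 16 * x ^ (4 * e + 136) := by linarith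
      _ = _ := by ring
  have h2 : x ^ (2 * e + 121) + 1 ≤ 2 * x ^ (2 * e + 121) := by
    have : 1 ≤ x ^ (2 * e + 121) := one_le_pow₀ hx1
    linarith
  have h3 : √(x ^ (2 * e + 121) + 1) ≤ c / 4 * x ^ (e + 61) := by
    refine Real.sqrt_le_iff.2 ⟨by positivity, h2.trans ?_⟩
    have h4 : 32 ≤ x * c ^ 2 := (div_le_iff₀ (by positivity)).1 hxc
    have h5 : 0 < x ^ (2 * e + 121) := by positivity
    calc 2 * x ^ (2 * e + 121) = 32 * (x ^ (2 * e + 121) / 16) := by ring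
      _ ≤ x * c ^ 2 * (x ^ (2 * e + 121) / 16) := by gcongr
      _ = _ := by ring
  calc _ ≤ 1 / x ^ (4 * e + 216) * (2 * x ^ (e + 34)) *
        ((2 * x ^ (2 * e + 121)) * (c / 4 * x ^ (e + 61))) := by gcongr
    _ = c := by field_simp; ring

theorem xgood_vol {x N y : ℝ} (e : ℕ) (hx : 36 ≤ x) (hN : N ≤ 2 * x ^ (4 * e + 240))
    (hy0 : 0 ≤ y) (hy : y ≤ x ^ (4 * e + 217)) :
    N / x ^ (4 * e + 224) * (y + 2 * (x ^ (4 * e + 136) + 1)) +
      9 * x ^ (4 * e + 125) * N / x ^ (4 * e + 136) ≤ x ^ (4 * e + 234) := by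
  have hx0 : 0 < x := by linarith
  have hx1 : 1 ≤ x := by linarith
  have h1 : 1 ≤ x ^ (4 * e + 217) := one_le_pow₀ hx1
  have h2 : x ^ (4 * e + 136) ≤ x ^ (4 * e + 217) := pow_le_pow_right₀ hx1 (by omega)
  have h3 : x ^ (4 * e + 125) ≤ x ^ (4 * e + 129) := pow_le_pow_right₀ hx1 (by omega)
  have h4 : y + 2 * (x ^ (4 * e + 136) + 1) ≤ 5 * x ^ (4 * e + 217) := by linarith
  calc _ ≤ 2 * x ^ (4 * e + 240) / x ^ (4 * e + 224) * (5 * x ^ (4 * e + 217)) +
        9 * x ^ (4 * e + 129) * (2 * x ^ (4 * e + 240)) / x ^ (4 * e + 136) := by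
        refine add_le_add (by gcongr) ?_
        rcases le_total N 0 with h | h
        · refine (div_nonpos_of_nonpos_of_nonneg
            (mul_nonpos_of_nonneg_of_nonpos (by positivity) h) (by positivity)).trans ?_
          positivity
        · gcongr
    _ = 28 * x ^ (4 * e + 233) := by field_simp; ring
    _ ≤ x * x ^ (4 * e + 233) := by gcongr; linarith
    _ = _ := by ring

theorem good_prob (E K : ℕ) (hE : 60 ≤ E) : ∃ G0 : ℕ, ∀ G : ℕ, G0 ≤ G → ∀ n : ℕ,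
    G ^ (4 * E - 1) ≤ n → n ≤ G ^ (4 * E) →
    NearHyp (G ^ (2 * E - 112)) G (1 / (G : ℝ) ^ (K + 4 * E + 121)) →
    mass 2 (fun t => size t + 1 = n ∧
        ¬ (MaxDeg t G ∧ Sep t (G ^ (E - 1)) ((G : ℝ) ^ 217) ((G : ℝ) ^ (4 * E - 6))))
      ≤ 1 / (G : ℝ) ^ K := by
  obtain ⟨G1, hG1⟩ := piece_prob E (K + 1) hE
  obtain ⟨c, hc, hsp⟩ := spine
  obtain ⟨e, rfl⟩ : ∃ e, E = e + 60 := ⟨E - 60, by omega⟩
  have ev1 := xgood_ev 160 (7 / 8) (4 * e + 240) (K + 1) (by norm_num) (by norm_num)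
  have ev2 := xgood_ev (64 * Real.exp 8) (Real.exp (-(1 / 2))) 0 (K + 1) (Real.exp_pos _).le
    (Real.exp_lt_one_iff.2 (by norm_num))
  have ev3 := xgood_ev 64 (Real.exp (-1)) 0 (K + 1) (Real.exp_pos _).le
    (Real.exp_lt_one_iff.2 (by norm_num))
  have ev4 : ∀ᶠ G : ℕ in atTop, 32 / c ^ 2 ≤ (G : ℝ) :=
    tendsto_natCast_atTop_atTop.eventually_ge_atTop _
  obtain ⟨G0, hG0⟩ := eventually_atTop.1 (ev1.and (ev2.and (ev3.and (ev4.and
    ((eventually_ge_atTop G1).and (eventually_ge_atTop 36))))))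
  refine ⟨G0, fun G hG n hn1 hn2 hN => ?_⟩
  obtain ⟨b1, b2, b3, b4, b5, b6⟩ := hG0 G hG
  have hp := hG1 G b5 n hn2 (by rwa [show K + 1 + 4 * (e + 60) + 120 = K + 4 * (e + 60) + 121 by ring])
  rw [show 4 * (e + 60) - 16 = 4 * e + 224 by omega,
    show 4 * (e + 60) - 115 = 4 * e + 125 by omega] at hp
  rw [show 4 * (e + 60) - 1 = 4 * e + 239 by omega] at hn1
  rw [show 4 * (e + 60) = 4 * e + 240 by omega] at hn2
  rw [show 4 * (e + 60) - 6 = 4 * e + 234 by omega]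
  have hx : (36 : ℝ) ≤ G := by exact_mod_cast b6
  have hx0 : (0 : ℝ) < G := by linarith
  have hx1 : (1 : ℝ) ≤ G := by linarith
  have hG1' : 1 ≤ G := by omega
  have hn2' : (n : ℝ) ≤ (G : ℝ) ^ (4 * e + 240) := by exact_mod_cast hn2
  have hbig : (1 : ℝ) ≤ (G : ℝ) ^ (4 * e + 240) := one_le_pow₀ hx1
  have hZ : Bv 2 * Z 2 = 32 := by
    norm_num [Bv, Z, catalan_two]
  -- the first event
  have a1 := maxdeg_tail (n + 1) G 2
  rw [hZ] at a1
  replace a1 := a1.trans (le_trans (b := 160 * (G : ℝ) ^ (4 * e + 240) * (7 / 8) ^ G) (by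
    push_cast
    have : (0 : ℝ) < (7 / 8) ^ G := by positivity
    nlinarith) b1)
  -- the second event
  have a2 := anysub (fun s => G ^ (2 * e + 121) < per s) (n + 1)
    (2 * Real.exp (8 - G / 2)) (by positivity) (by simp [per]) (fun L _ => by
      rcases le_or_gt L (G ^ (2 * e + 121)) with hL | hL
      · rw [mass_eq_zero fun t _ h2 h3 => by omega]
        have := Z_pos L
        positivity
      · have hs : (4 : ℝ) ≤ (G : ℝ) ^ (2 * e + 120) :=
          le_trans (by linarith) (le_self_pow₀ hx1 (by omega))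
        have hL' : (G : ℝ) ^ (2 * e + 121) ≤ L := by exact_mod_cast hL.le
        refine (mass_mono fun t _ _ h => (show size t ≤ n + 1 by omega)).trans
          ((small_size (1 / (G : ℝ) ^ (2 * e + 120)) (by positivity)
            (one_div_le_one_div_of_le (by norm_num) hs) L (n + 1)).trans ?_)
        have := Z_pos L
        gcongr
        · push_cast
          calc 4 * (1 / (G : ℝ) ^ (2 * e + 120)) ^ 2 * ((n : ℝ) + 1)
              ≤ 4 * (1 / (G : ℝ) ^ (2 * e + 120)) ^ 2 * (2 * (G : ℝ) ^ (4 * e + 240)) := by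
                gcongr; linarith
            _ = 8 := by field_simp; ring
        · calc (G : ℝ) = 1 / (G : ℝ) ^ (2 * e + 120) * (G : ℝ) ^ (2 * e + 121) := by
                field_simp; ring
            _ ≤ _ := by gcongr) 2
  rw [hZ] at a2
  replace a2 := a2.trans (le_trans (le_of_eq (by
    rw [← Real.exp_nat_mul, sub_eq_add_neg, Real.exp_add,
      show -((G : ℝ) / 2) = G * -(1 / 2) by ring]
    ring)) b2)
  -- the third event
  have a3 := hsp (G ^ (4 * e + 136)) (G ^ (2 * e + 121)) (1 / (G : ℝ) ^ (4 * e + 216))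
    ((G : ℝ) ^ (4 * e + 217)) (by positivity) (by
      push_cast
      rw [one_div_mul_eq_div, div_le_one (by positivity)]
      have h1 : (1 : ℝ) ≤ (G : ℝ) ^ (4 * e + 136) := one_le_pow₀ hx1
      have h2 : (G : ℝ) ^ (4 * e + 137) ≤ (G : ℝ) ^ (4 * e + 216) :=
        pow_le_pow_right₀ hx1 (by omega)
      rw [pow_succ] at h2
      nlinarith) (by push_cast; exact xgood_spine_num e hx hc b4) 2
  replace a3 := a3.trans (le_trans (le_of_eq (by
    rw [← Real.exp_nat_mul, show 1 / (G : ℝ) ^ (4 * e + 216) * (G : ℝ) ^ (4 * e + 217) = G by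
      field_simp; ring, show (G : ℝ) * -1 = -G by ring]
    ring)) b3)
  have hfin : 4 * (1 / (G : ℝ) ^ (K + 1)) ≤ 1 / (G : ℝ) ^ K := by
    rw [mul_one_div, div_le_div_iff₀ (by positivity) (by positivity), pow_succ]
    have : (0 : ℝ) < (G : ℝ) ^ K := by positivity
    nlinarith
  refine le_trans (mass_le_add (ψ := fun t => ¬ MaxDeg t G ∧ size t + per t ≤ n + 1)
    (χ := fun t => (AnySub (fun s => G ^ (2 * e + 121) < per s) t ∧ size t + per t ≤ n + 1) ∨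
      (¬ AnySub (fun s => G ^ (2 * e + 121) < per s) t ∧
        (G : ℝ) ^ (4 * e + 217) ≤ (pc (G ^ (4 * e + 136)) t : ℝ)) ∨
      (AnySub (fun s => MaxDeg s G ∧ edges s ≤ G ^ (4 * e + 224) ∧
        ¬ (Layer s (18 * (G : ℝ) ^ 112) (9 * (G : ℝ) ^ (4 * e + 125)) ∧
          ∀ x y, Within s (G ^ (e + 60 - 1)) x y)) t ∧ size t + per t ≤ n + 1)) ?_) ?_
  · rintro t ht hper ⟨hs, hbad⟩
    have hsz : size t + per t ≤ n + 1 := by omega
    by_contra hcon
    simp only [not_or, not_and, hsz, and_true, not_not, not_le] at hcon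
    obtain ⟨c1, c2, c3, c4⟩ := hcon
    have hed : edges t = 2 * n := by rw [edges_eq t ht]; omega
    have hm : G ^ (4 * e + 224) ≤ G ^ (4 * e + 239) := Nat.pow_le_pow_right hG1' (by omega)
    have hm0 : 1 ≤ G ^ (4 * e + 224) := Nat.one_le_pow _ _ hG1'
    have hsep := sep_of (G ^ (4 * e + 224)) (G ^ (4 * e + 136)) (G ^ (e + 60 - 1))
      (18 * (G : ℝ) ^ 112) (9 * (G : ℝ) ^ (4 * e + 125)) (Nat.one_le_pow _ _ hG1')
      (Nat.pow_le_pow_right hG1' (by omega)) (by positivity) (by positivity) t ht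
      (fun H => c4 (anySub_mono (n + 1) t ht hsz
        (fun s _ _ h => ⟨h.1, h.2.2.1, fun h1 h2 => h.2.2.2 ⟨h1, h2⟩⟩)
        (anySub_maxdeg t c1 H))) (by omega)
    refine hbad ⟨c1, hsep.mono le_rfl ?_ ?_⟩
    · rw [hed]
      push_cast
      calc 18 * (G : ℝ) ^ 112 * (2 * n) / (G : ℝ) ^ (4 * e + 136)
          ≤ 18 * (G : ℝ) ^ 112 * (2 * (G : ℝ) ^ (4 * e + 240)) / (G : ℝ) ^ (4 * e + 136) := by
            gcongr
        _ = 36 * (G : ℝ) ^ 216 := by field_simp; ring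
        _ ≤ G * (G : ℝ) ^ 216 := by gcongr
        _ = _ := by ring
    · rw [hed]
      push_cast
      exact xgood_vol e hx (by linarith) (Nat.cast_nonneg _) (c3 c2).le
  · have h1 := mass_le_add (L := 2) fun t _ _ (h : (AnySub (fun s => G ^ (2 * e + 121) < per s) t ∧
        size t + per t ≤ n + 1) ∨ (¬ AnySub (fun s => G ^ (2 * e + 121) < per s) t ∧
        (G : ℝ) ^ (4 * e + 217) ≤ (pc (G ^ (4 * e + 136)) t : ℝ)) ∨
      (AnySub (fun s => MaxDeg s G ∧ edges s ≤ G ^ (4 * e + 224) ∧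
        ¬ (Layer s (18 * (G : ℝ) ^ 112) (9 * (G : ℝ) ^ (4 * e + 125)) ∧
          ∀ x y, Within s (G ^ (e + 60 - 1)) x y)) t ∧ size t + per t ≤ n + 1)) => h
    have h2 := mass_le_add (L := 2) fun t _ _ (h : (¬ AnySub (fun s => G ^ (2 * e + 121) < per s) t ∧
        (G : ℝ) ^ (4 * e + 217) ≤ (pc (G ^ (4 * e + 136)) t : ℝ)) ∨
      (AnySub (fun s => MaxDeg s G ∧ edges s ≤ G ^ (4 * e + 224) ∧
        ¬ (Layer s (18 * (G : ℝ) ^ 112) (9 * (G : ℝ) ^ (4 * e + 125)) ∧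
          ∀ x y, Within s (G ^ (e + 60 - 1)) x y)) t ∧ size t + per t ≤ n + 1)) => h
    linarith

end Pool.Agent.P.MP_7a6434d8_pr
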