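import Pool.Agent.P.MP_7a6434d8_pr.Quad

/-! Graph distance on a quadrangulation and escape probabilities of simple random walk. -/

namespace Pool.Agent.P.MP_7a6434d8_pr

open scoped ENNReal

namespace Quad

variable {n : ℕ}

/-- the graph of the map: two distinct vertices are adjacent if some dart joins them -/
def graph (q : Quad n) : SimpleGraph q.Vertex :=
  SimpleGraph.fromRel (fun x y => ∃ d, q.tail d = x ∧ q.head d = y)

/-- probability that simple random walk started at `x` visits, among `X_0, ..., X_T`, a vertex at
graph distance more than `r` from `x` -/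
noncomputable def escape (q : Quad n) (x : q.Vertex) (T : ℕ) (r : ℝ) : ℝ≥0∞ :=
  (q.walk T x).toOuterMeasure {l | ∃ y ∈ l, r < (q.graph.dist x y : ℝ)}

end Quad

end Pool.Agent.P.MP_7a6434d8_pr
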