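import Pool.Agent.P.MP_7a6434d8_pr.XGraphA
import Pool.Agent.P.MP_7a6434d8_pr.BasicA

namespace Pool.Agent.P.MP_7a6434d8_pr

open Mp Finset
open scoped ENNReal

theorem Within.refl (t : Mp) (k : ℕ) (x : V t) : Within t k x x := by
  induction k with
  | zero => exact rfl
  | succ k ih => exact Or.inl ih

theorem Within.mono {t : Mp} {k k' : ℕ} {x y : V t} (h : Within t k x y) (hk : k ≤ k') :
    Within t k' x y := by
  induction hk with
  | refl => exact h
  | step _ ih => exact Or.inl ih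

theorem Within.trans {t : Mp} {k k' : ℕ} {x y z : V t} (h : Within t k x y)
    (h' : Within t k' y z) : Within t (k + k') x z := by
  induction k' generalizing z with
  | zero =>
    have hz : y = z := h'
    subst hz
    exact h
  | succ k' ih =>
    rcases h' with h' | ⟨u, hu, ha⟩
    · exact Or.inl (ih h')
    · exact Or.inr ⟨u, ih hu, ha⟩

theorem xgraphb_one {t : Mp} {x y : V t} (h : adj t x y) : Within t 1 x y :=
  Or.inr ⟨x, rfl, h⟩

theorem Within.symm {t : Mp} {k : ℕ} {x y : V t} (h : Within t k x y) : Within t k y x := by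
  induction k generalizing y with
  | zero => exact Eq.symm h
  | succ k ih =>
    rcases h with h | ⟨u, hu, ha⟩
    · exact Or.inl (ih h)
    · have := (xgraphb_one (adj_symm t _ _ ha)).trans (ih hu)
      rwa [Nat.add_comm] at this

theorem Within.map {t s : Mp} (e : V s → V t) (he : ∀ x y, adj s x y → adj t (e x) (e y))
    {k : ℕ} {x y : V s} (h : Within s k x y) : Within t k (e x) (e y) := by
  induction k generalizing y with
  | zero => exact congrArg e h
  | succ k ih =>
    rcases h with h | ⟨u, hu, ha⟩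
    · exact Or.inl (ih h)
    · exact Or.inr ⟨e u, ih hu, he _ _ ha⟩

theorem within_exists (t : Mp) (ht : ok t) (x y : V t) : ∃ k, Within t k x y := by
  induction t with
  | pt => exact ⟨0, rfl⟩
  | face t ih =>
    obtain ⟨k, hk⟩ := ih ht.1 x y
    exact ⟨k, Within.map (t := face t) (s := t) id (fun _ _ h => Or.inl h) hk⟩
  | bridge a b iha ihb =>
    have ha : ∀ u v : V a, ∃ k, Within (bridge a b) k (Sum.inl u) (Sum.inl v) := fun u v => by
      obtain ⟨k, hk⟩ := iha ht.1 u v
      exact ⟨k, Within.map (t := bridge a b) (s := a) Sum.inl (fun _ _ h => h) hk⟩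
    have hb : ∀ u v : V b, ∃ k, Within (bridge a b) k (Sum.inr u) (Sum.inr v) := fun u v => by
      obtain ⟨k, hk⟩ := ihb ht.2 u v
      exact ⟨k, Within.map (t := bridge a b) (s := b) Sum.inr (fun _ _ h => h) hk⟩
    have hab : ∀ (u : V a) (v : V b), ∃ k, Within (bridge a b) k (Sum.inl u) (Sum.inr v) :=
      fun u v => by
        obtain ⟨k, hk⟩ := ha u (bv a 0)
        obtain ⟨k', hk'⟩ := hb (bv b 0) v
        have h1 : Within (bridge a b) 1 (Sum.inl (bv a 0)) (Sum.inr (bv b 0)) :=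
          xgraphb_one (t := bridge a b) ⟨rfl, rfl⟩
        exact ⟨_, (hk.trans h1).trans hk'⟩
    rcases x with x | x <;> rcases y with y | y
    · exact ha x y
    · exact hab x y
    · obtain ⟨k, hk⟩ := hab y x
      exact ⟨k, hk.symm⟩
    · exact hb x y

theorem lab_congr {t : Mp} {l l' : ℕ → ℤ} {A B : Set ℤ} (h : Lab t l A B)
    (hl : ∀ p, p ≤ 2 * per t → l' p = l p) : Lab t l' A B := by
  obtain ⟨f, v, h1, h2⟩ := h
  exact ⟨f, v, fun p hp => (h1 p hp).trans (hl p hp).symm, h2⟩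

theorem lab_valid {t : Mp} (ht : ok t) {l : ℕ → ℤ} {A B : Set ℤ} (h : Lab t l A B) :
    Valid (per t) l ∧ ∀ p, p ≤ 2 * per t → l p ∈ B := by
  obtain ⟨f, v, h1, h2, -, -, h5⟩ := h
  refine ⟨⟨?_, fun p hp => ?_⟩, fun p hp => ?_⟩
  · rw [← h1 _ le_rfl, ← h1 0 (Nat.zero_le _), bv_end t ht]
  · rw [← h1 p hp.le, ← h1 (p + 1) hp]
    rcases h2 _ _ (adj_bv t ht p hp) with h | h
    · right
      omega
    · left
      exact h
  · rw [← h1 p hp]
    exact h5 _

/-- the graph distance to a vertex, with the properties of a distance labelling -/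
theorem xgraphb_dist (t : Mp) (ht : ok t) (v : V t) : ∃ d : V t → ℕ,
    (∀ x, Within t (d x) v x) ∧ (∀ x k, Within t k v x → d x ≤ k) ∧
    (∀ x y, adj t x y → d x = d y + 1 ∨ d y = d x + 1) ∧
    ∀ x, x ≠ v → ∃ y, adj t x y ∧ d x = d y + 1 := by
  classical
  let d : V t → ℕ := fun x => Nat.find (within_exists t ht v x)
  have h1 : ∀ x, Within t (d x) v x := fun x => Nat.find_spec (within_exists t ht v x)
  have h2 : ∀ x k, Within t k v x → d x ≤ k := fun x k h => Nat.find_min' _ h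
  have h3 : ∀ x y, adj t x y → d y ≤ d x + 1 := fun x y h => h2 _ _ (Or.inr ⟨x, h1 x, h⟩)
  have h4 : ∀ x m, d x = m + 1 → ∃ y, adj t x y ∧ d y = m := fun x m hm => by
    have h := h1 x
    rw [hm] at h
    rcases h with h | ⟨z, hz, ha⟩
    · have := h2 _ _ h
      omega
    · have := h2 _ _ hz
      have := h3 _ _ ha
      exact ⟨z, adj_symm t _ _ ha, by omega⟩
  have h0 : ∀ x, d x = 0 → v = x := fun x hx => by
    have h := h1 x
    rw [hx] at h
    exact h
  obtain ⟨c, hc, -⟩ := parity t ht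
  have h5 : ∀ m x, d x = m → c x = c v + (m : ZMod 2) := by
    intro m
    induction m with
    | zero =>
      intro x hx
      rw [h0 x hx]
      simp
    | succ m ih =>
      intro x hx
      obtain ⟨y, hy, hd⟩ := h4 x m hx
      rw [hc _ _ (adj_symm t _ _ hy), ih y hd]
      push_cast
      ring
  refine ⟨d, h1, h2, fun x y h => ?_, fun x hx => ?_⟩
  · have a1 := h3 _ _ h
    have a2 := h3 _ _ (adj_symm t _ _ h)
    have a3 : d x ≠ d y := fun he => by
      have b1 := hc _ _ h
      rw [h5 _ x rfl, h5 _ y rfl, he] at b1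
      simp at b1
    omega
  · cases hm : d x with
    | zero => exact absurd (h0 x hm).symm hx
    | succ m =>
      obtain ⟨y, hy, hd⟩ := h4 x m hm
      exact ⟨y, hy, by omega⟩

theorem lab_far (t : Mp) (ht : ok t) (k : ℕ) (v : V t) (h : ¬ Within t k (bv t 0) v) :
    ∃ l : ℕ → ℤ, l 0 = k ∧ Lab t l (Set.Iio 0) Set.univ := by
  obtain ⟨d, h1, h2, h3, h4⟩ := xgraphb_dist t ht v
  have hv : d v = 0 := Nat.le_zero.1 (h2 v 0 (Within.refl t 0 v))
  have hk : k < d (bv t 0) := by
    by_contra hk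
    exact h ((h1 _).mono (not_lt.1 hk)).symm
  refine ⟨fun p => (d (bv t p) : ℤ) - d (bv t 0) + k, by simp,
    fun x => (d x : ℤ) - d (bv t 0) + k, v, fun _ _ => rfl, fun x y hxy => ?_, fun x hx => ?_, ?_,
    fun _ => Set.mem_univ _⟩
  · have := h3 x y hxy
    dsimp only
    omega
  · obtain ⟨y, hy, hd⟩ := h4 x hx
    refine ⟨y, hy, ?_⟩
    dsimp only
    omega
  · show (d v : ℤ) - d (bv t 0) + k < 0
    omega

theorem lab_near (t : Mp) (ht : ok t) (r : ℕ) (h : ∀ x, Within t r (bv t 0) x) :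
    ∃ l : ℕ → ℤ, l 0 = 0 ∧ Lab t l Set.univ (Set.Icc 0 (r : ℤ)) := by
  obtain ⟨d, -, h2, h3, h4⟩ := xgraphb_dist t ht (bv t 0)
  have hv : d (bv t 0) = 0 := Nat.le_zero.1 (h2 _ 0 (Within.refl t 0 _))
  refine ⟨fun p => (d (bv t p) : ℤ), by simp [hv], fun x => (d x : ℤ), bv t 0, fun _ _ => rfl,
    fun x y hxy => ?_, fun x hx => ?_, Set.mem_univ _, fun x => ?_⟩
  · have := h3 x y hxy
    dsimp only
    omega
  · obtain ⟨y, hy, hd⟩ := h4 x hx
    refine ⟨y, hy, ?_⟩
    dsimp only
    omega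
  · have := h2 x r (h x)
    show (0 : ℤ) ≤ d x ∧ (d x : ℤ) ≤ r
    omega

end Pool.Agent.P.MP_7a6434d8_pr
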