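import Pool.Agent.P.MP_7a6434d8_pr.XWalk
import Pool.Agent.P.MP_7a6434d8_pr.Quad2
import Pool.Agent.P.MP_7a6434d8_pr.XGraphB
import Pool.Agent.P.MP_7a6434d8_pr.DartC

namespace Pool.Agent.P.MP_7a6434d8_pr

open Mp Finset
open scoped ENNReal

/-- the dart and vertex bijections attached to a representation -/
private theorem xlink_vert {n : ℕ} (q : Quad n) (t : Mp) (h : Rep q t) :
    ∃ (θ : Dt t ≃ Fin (4 * n)) (j : q.Vertex ≃ V t), (∀ d, j (q.tail (θ d)) = org t d) ∧
      (∀ d, j (q.head (θ d)) = org t (al t d)) ∧ j (q.tail q.root) = bv t 0 := by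
  obtain ⟨ht, hper, -, θ0, hE, hsurj, hr⟩ := h
  let θ : Dt t ≃ Fin (4 * n) := Equiv.ofBijective θ0 ⟨hE.inj, hsurj⟩
  have hθ : ∀ d, θ d = θ0 d := fun _ => rfl
  have hσ : ∀ d, (q.φ * q.α) (θ d) = θ (ph t (al t d)) := fun d => by
    rw [hθ, hθ, hE.map_ph, hE.map_al, Equiv.Perm.mul_apply]
  have horg : ∀ (m : ℕ) (d : Dt t), org t (θ.symm (((q.φ * q.α) ^ m) (θ d))) = org t d := by
    intro m
    induction m with
    | zero => intro d; simp
    | succ m ih =>
      intro d
      rw [pow_succ, Equiv.Perm.mul_apply, hσ, ih, org_ph t ht, al_al]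
  let g : q.Vertex → V t := Quotient.lift (fun x => org t (θ.symm x)) (by
    intro x y hxy
    obtain ⟨x, rfl⟩ := θ.surjective x
    obtain ⟨i, -, hi⟩ := Equiv.Perm.SameCycle.exists_pow_eq' hxy
    rw [← hi, horg, Equiv.symm_apply_apply])
  have hg0 : ∀ d, g (q.tail (θ d)) = org t d := fun d => by
    change org t (θ.symm (θ d)) = org t d
    rw [Equiv.symm_apply_apply]
  have hg : Function.Bijective g := by
    constructor
    · intro x y hxy
      obtain ⟨x, rfl⟩ := Quotient.exists_rep x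
      obtain ⟨y, rfl⟩ := Quotient.exists_rep y
      obtain ⟨x, rfl⟩ := θ.surjective x
      obtain ⟨y, rfl⟩ := θ.surjective y
      have hxy' : org t x = org t y := (hg0 x).symm.trans (hxy.trans (hg0 y))
      refine factor_org t ht (fun d => q.tail (θ d)) ?_ x y hxy'
      intro d
      apply Quotient.sound
      change Equiv.Perm.SameCycle _ _ _
      rw [← hσ]
      exact Equiv.Perm.sameCycle_apply_left.2 (Equiv.Perm.SameCycle.refl _ _)
    · intro v
      obtain ⟨d, rfl⟩ := org_surj t ht (by omega) v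
      exact ⟨_, hg0 d⟩
  refine ⟨θ, Equiv.ofBijective g hg, hg0, fun d => ?_, ?_⟩
  · rw [← hg0, Quad.head, hθ, hθ, hE.map_al]; rfl
  · obtain ⟨d0, hd0, hθ0⟩ := Option.map_eq_some_iff.1 hr
    rw [← org_bd t ht 0 d0 hd0, ← hg0, hθ, hθ0]; rfl

private theorem xlink_adj {n : ℕ} {q : Quad n} {t : Mp} (ht : ok t) {θ : Dt t ≃ Fin (4 * n)}
    {j : q.Vertex ≃ V t} (h1 : ∀ d, j (q.tail (θ d)) = org t d)
    (h2 : ∀ d, j (q.head (θ d)) = org t (al t d)) (x y : q.Vertex) :
    q.graph.Adj x y ↔ adj t (j x) (j y) := by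
  rw [Quad.graph, SimpleGraph.fromRel_adj]
  constructor
  · rintro ⟨-, ⟨d, rfl, rfl⟩ | ⟨d, rfl, rfl⟩⟩
    · obtain ⟨d, rfl⟩ := θ.surjective d
      exact (adj_iff_dart t _ _).2 ⟨d, (h1 d).symm, (h2 d).symm⟩
    · obtain ⟨d, rfl⟩ := θ.surjective d
      exact (adj_iff_dart t _ _).2 ⟨al t d, (h2 d).symm, by rw [al_al, h1]⟩
  · intro h
    refine ⟨fun hxy => adj_irrefl t ht (j y) (hxy ▸ h), Or.inl ?_⟩
    obtain ⟨d, hd1, hd2⟩ := (adj_iff_dart t _ _).1 h
    exact ⟨θ d, j.injective ((h1 d).trans hd1), j.injective ((h2 d).trans hd2)⟩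

private theorem xlink_walk {n : ℕ} {q : Quad n} {t : Mp} {j : q.Vertex ≃ V t}
    (ha : ∀ x y, q.graph.Adj x y ↔ adj t (j x) (j y)) (x : q.Vertex) (k : ℕ) :
    ∀ y, Within t k (j x) (j y) → ∃ p : q.graph.Walk x y, p.length ≤ k := by
  induction k with
  | zero =>
    intro y h
    obtain rfl : x = y := j.injective h
    exact ⟨.nil, le_rfl⟩
  | succ k ih =>
    rintro y (h | ⟨z, h, hz⟩)
    · obtain ⟨p, hp⟩ := ih y h
      exact ⟨p, by omega⟩
    · obtain ⟨z, rfl⟩ := j.surjective z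
      obtain ⟨p, hp⟩ := ih z h
      exact ⟨p.concat ((ha z y).2 hz), by rw [SimpleGraph.Walk.length_concat]; omega⟩

private theorem xlink_within {n : ℕ} {q : Quad n} {t : Mp} {j : q.Vertex ≃ V t}
    (ha : ∀ x y, q.graph.Adj x y ↔ adj t (j x) (j y)) {x y : q.Vertex} (p : q.graph.Walk x y) :
    Within t p.length (j x) (j y) := by
  induction p with
  | nil => exact Within.refl t _ _
  | @cons u v w h p ih =>
    have h1 : Within t 1 (j u) (j v) := Or.inr ⟨j u, rfl, (ha u v).1 h⟩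
    have h2 := h1.trans ih
    rw [SimpleGraph.Walk.length_cons, add_comm]
    exact h2

/-- leaving a set forces a visit to its boundary -/
private theorem xlink_cmp {n : ℕ} (q : Quad n) (A B C : q.Vertex → Prop)
    (hA : ∀ z, C z → ¬ A z) (hC : ∀ d, C (q.tail d) → B (q.head d) ∨ C (q.head d)) (T : ℕ) :
    ∀ z, B z ∨ C z → (q.walk T z).toOuterMeasure {l | ∃ y ∈ l, A y} ≤
      (q.walk T z).toOuterMeasure {l | ∃ y ∈ l, B y} := by
  classical
  induction T with
  | zero =>
    intro z hz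
    rw [Quad.walk, PMF.toOuterMeasure_pure_apply, PMF.toOuterMeasure_pure_apply]
    rcases hz with hz | hz
    · have : [z] ∈ {l : List q.Vertex | ∃ y ∈ l, B y} := ⟨z, by simp, hz⟩
      rw [if_pos this]
      split_ifs <;> simp
    · have : [z] ∉ {l : List q.Vertex | ∃ y ∈ l, A y} := by
        rintro ⟨y, hy, h⟩
        obtain rfl : y = z := by simpa using hy
        exact hA _ hz h
      rw [if_neg this]
      exact zero_le
  | succ T ih =>
    intro z hz
    rw [hit_walk_succ, hit_walk_succ]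
    refine sum_le_sum fun d hd => mul_le_mul_right ?_ _
    rcases hz with hz | hz
    · exact MeasureTheory.measure_mono fun l _ => ⟨z, by simp, hz⟩
    · have hd' : q.tail d = z := by simpa [Quad.out] using hd
      refine le_trans (MeasureTheory.measure_mono ?_)
        ((ih _ (hC d (hd' ▸ hz))).trans (MeasureTheory.measure_mono ?_))
      · rintro l ⟨y, hy, h⟩
        rcases List.mem_cons.1 hy with rfl | hy
        · exact absurd h (hA _ hz)
        · exact ⟨y, hy, h⟩
      · rintro l ⟨y, hy, h⟩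
        exact ⟨y, List.mem_cons_of_mem _ hy, h⟩

theorem sep_escape {n : ℕ} (q : Quad n) (t : Mp) (h : Rep q t) (Δ K v : ℝ) (r : ℕ) (hΔ : 0 ≤ Δ)
    (hd : MaxDeg t Δ) (hs : Sep t r K v) (T : ℕ) (r' : ℝ) (hr : (r : ℝ) ≤ r') :
    ∑ d, q.escape (q.tail d) T r' ≤ ENNReal.ofReal (Δ * v + T * K) := by
  classical
  obtain ⟨θ, j, h1, h2, -⟩ := xlink_vert q t h
  have ht := h.1
  have ha := xlink_adj ht h1 h2
  obtain ⟨f, hf, -, hK, hv, hW⟩ := hs
  have hw := walk_ineq q (fun x => f (j x)) (fun x => hf _) T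
  have hen : (∑ d, (f (j (q.tail d)) - f (j (q.head d))) ^ 2) / 2 = energy t f := by
    rw [← Equiv.sum_comp θ]
    simp only [h1, h2]
    rw [← two_energy]; ring
  have hE : 0 ≤ energy t f := by
    rw [← hen]; positivity
  have hpt : ∀ d, q.escape (q.tail d) T r' ≤ (if f (j (q.tail d)) = 0 then
      (q.walk T (q.tail d)).toOuterMeasure {l | ∃ y ∈ l, f (j y) = 1} else 0) +
      ENNReal.ofReal (if f (j (q.tail d)) ≠ 0 then 1 else 0) := by
    intro d
    by_cases h0 : f (j (q.tail d)) = 0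
    · rw [if_pos h0]
      refine le_trans ?_ le_self_add
      refine xlink_cmp q (fun y => r' < (q.graph.dist (q.tail d) y : ℝ)) (fun y => f (j y) = 1)
        (fun y => Conn t (fun z => f z ≠ 1) (j (q.tail d)) (j y)) ?_ ?_ T _
        (Or.inr ⟨fun h3 => zero_ne_one (h0.symm.trans h3), .refl⟩)
      · intro z hz
        obtain ⟨p, hp⟩ := xlink_walk ha _ r z (hW _ _ hz)
        have : (q.graph.dist (q.tail d) z : ℝ) ≤ r := by
          exact_mod_cast (SimpleGraph.dist_le p).trans hp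
        exact not_lt.2 (this.trans hr)
      · intro e he
        by_cases h3 : f (j (q.head e)) = 1
        · exact Or.inl h3
        · obtain ⟨e, rfl⟩ := θ.surjective e
          exact Or.inr ⟨he.1, he.2.tail
            ⟨(adj_iff_dart t _ _).2 ⟨e, (h1 e).symm, (h2 e).symm⟩, h3⟩⟩
    · rw [if_neg h0, if_pos h0, zero_add, ENNReal.ofReal_one]
      exact hit_outer_le_one _ _
  have hcnt : ∑ d, (if f (j (q.tail d)) ≠ 0 then (1 : ℝ) else 0) ≤ Δ * v := by
    rw [← Equiv.sum_comp θ]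
    simp only [h1]
    rw [← sum_fiberwise univ (org t)]
    calc ∑ x, ∑ d ∈ univ.filter (fun d => org t d = x), (if f (org t d) ≠ 0 then (1 : ℝ) else 0)
        ≤ ∑ x, (if f x ≠ 0 then Δ else 0) := by
          refine sum_le_sum fun x _ => ?_
          rw [sum_congr rfl (g := fun _ => if f x ≠ 0 then (1 : ℝ) else 0)
            fun d hd => by rw [(mem_filter.1 hd).2], sum_const, nsmul_eq_mul]
          split_ifs
          · have := hd x
            rw [dg_eq_card t ht] at this
            rw [mul_one]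
            convert this
          · simp
      _ = Δ * supp t f := by
          rw [← sum_filter, sum_const, nsmul_eq_mul, mul_comm, supp]
      _ ≤ Δ * v := mul_le_mul_of_nonneg_left hv hΔ
  have hnn : ∀ d, 0 ≤ (if f (j (q.tail d)) ≠ 0 then (1 : ℝ) else 0) := fun d => by
    split_ifs <;> norm_num
  refine (sum_le_sum fun d _ => hpt d).trans ?_
  rw [sum_add_distrib, ← ENNReal.ofReal_sum_of_nonneg fun d _ => hnn d]
  rw [hen] at hw
  refine (add_le_add (le_of_eq_of_le (by congr) hw) le_rfl).trans ?_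
  rw [← ENNReal.ofReal_add (by positivity) (sum_nonneg fun d _ => hnn d)]
  refine ENNReal.ofReal_le_ofReal ?_
  have : (T : ℝ) * energy t f ≤ T * K := mul_le_mul_of_nonneg_left hK (Nat.cast_nonneg T)
  linarith

theorem near_of_rep {n : ℕ} (q : Quad n) (t : Mp) (h : Rep q t) (r : ℕ)
    (hq : ∀ y, q.graph.dist (q.tail q.root) y ≤ r) : ∀ x, Within t r (bv t 0) x := by
  obtain ⟨θ, j, h1, h2, h3⟩ := xlink_vert q t h
  have ha := xlink_adj h.1 h1 h2
  intro x
  obtain ⟨x, rfl⟩ := j.surjective x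
  rw [← h3]
  obtain ⟨k, hk⟩ := within_exists t h.1 (j (q.tail q.root)) (j x)
  obtain ⟨p, -⟩ := xlink_walk ha _ k x hk
  obtain ⟨p', hp'⟩ := SimpleGraph.Reachable.exists_walk_length_eq_dist ⟨p⟩
  exact (xlink_within ha p').mono (hp' ▸ hq x)

end Pool.Agent.P.MP_7a6434d8_pr
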