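import Pool.Agent.P.MP_7a6434d8_pr.Defs2

namespace Pool.Agent.P.MP_7a6434d8_pr

open Mp Finset
open scoped ENNReal

/-- product of `R` over the down-steps of `l` -/
noncomputable def dprod (R : ℤ → ℝ) (L : ℕ) (l : ℕ → ℤ) : ℝ :=
  ∏ p ∈ range (2 * L), if l (p + 1) < l p then R (l p) else 1

theorem xprod_periodic (G : ℕ → ℝ) (m : ℕ) (hG : ∀ p, G (p + (m + 1)) = G p) (k : ℕ) :
    ∏ p ∈ range (m + 1), G (p + k) = ∏ p ∈ range (m + 1), G p := by
  induction k with
  | zero => simp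
  | succ k ih =>
    rw [← ih, prod_range_succ, prod_range_succ' (fun p => G (p + k))]
    have h1 : G (m + (k + 1)) = G (0 + k) := by
      rw [← hG (0 + k)]; congr 1; omega
    rw [h1]
    congr 1
    refine prod_congr rfl fun p _ => ?_
    congr 1; omega

theorem dprod_rot (R : ℤ → ℝ) (L : ℕ) (l : ℕ → ℤ) (k : ℕ) (hL : 1 ≤ L) (hl : Valid L l) :
    dprod R L (fun p => l ((p + k) % (2 * L))) = dprod R L l := by
  obtain ⟨m, hm⟩ : ∃ m, 2 * L = m + 1 := ⟨2 * L - 1, by omega⟩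
  have h0 : l (m + 1) = l 0 := hm ▸ hl.1
  unfold dprod
  rw [hm]
  set g : ℕ → ℝ := fun q => if l (q + 1) < l q then R (l q) else 1 with hg
  have key : ∀ q, l ((q + 1) % (m + 1)) = l (q % (m + 1) + 1) := by
    intro q
    have hq : q % (m + 1) < m + 1 := Nat.mod_lt _ (Nat.succ_pos m)
    by_cases h : q % (m + 1) + 1 < m + 1
    · congr 1
      rw [Nat.add_mod, Nat.mod_eq_of_lt (a := 1) (by omega), Nat.mod_eq_of_lt h]
    · have h2 : q % (m + 1) + 1 = m + 1 := by omega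
      have h3 : (q + 1) % (m + 1) = 0 := by
        rw [← Nat.mod_add_mod, h2, Nat.mod_self]
      rw [h3, h2, h0]
  have e1 : ∏ p ∈ range (m + 1),
      (if l ((p + 1 + k) % (m + 1)) < l ((p + k) % (m + 1)) then R (l ((p + k) % (m + 1))) else 1)
      = ∏ p ∈ range (m + 1), (fun q => g (q % (m + 1))) (p + k) := by
    refine prod_congr rfl fun p _ => ?_
    have : p + 1 + k = (p + k) + 1 := by omega
    simp only [hg]
    rw [this, key]
  rw [e1, xprod_periodic (fun q => g (q % (m + 1))) m (fun p => by simp) k]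
  refine prod_congr rfl fun p hp => ?_
  simp only [hg]
  rw [Nat.mod_eq_of_lt (mem_range.1 hp)]

theorem dprod_shift (R : ℤ → ℝ) (L : ℕ) (l : ℕ → ℤ) (h1 : l 1 = l 0 + 1) (h2 : l 2 = l 0) :
    dprod R (L + 1) l = R (l 0 + 1) * dprod R L (fun p => l (p + 2)) := by
  unfold dprod
  have e : 2 * (L + 1) = 2 * L + 1 + 1 := by ring
  rw [e, prod_range_succ', prod_range_succ']
  have a0 : ¬ l (0 + 1) < l 0 := by simp only [zero_add]; omega
  have a1 : l (0 + 1 + 1) < l (0 + 1) := by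
    show l 2 < l 1
    omega
  rw [if_neg a0, if_pos a1]
  have a2 : l (0 + 1) = l 0 + 1 := h1
  rw [a2, mul_one, mul_comm]

theorem xprod_ins (R : ℤ → ℝ) (L : ℕ) (l : ℕ → ℤ) (h1 : l 1 = l 0 + 1) (n1 n2 : ℤ) :
    dprod R (L + 2) (ins l n1 n2) = ((if n1 < l 0 then R (l 0) else 1) *
      (if n2 < n1 then R n1 else 1) * (if l 0 + 1 < n2 then R n2 else 1)) * dprod R (L + 1) l := by
  unfold dprod
  have e : 2 * (L + 2) = 2 * L + 1 + 1 + 1 + 1 := by ring
  have e' : 2 * (L + 1) = 2 * L + 1 + 1 := by ring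
  rw [e, e', prod_range_succ', prod_range_succ', prod_range_succ',
    prod_range_succ' (fun p => if l (p + 1) < l p then R (l p) else 1)]
  have a0 : ¬ l (0 + 1) < l 0 := by simp only [zero_add]; omega
  rw [if_neg a0]
  have i0 : ins l n1 n2 0 = l 0 := by simp [ins]
  have i1 : ins l n1 n2 (0 + 1) = n1 := by simp [ins]
  have i2 : ins l n1 n2 (0 + 1 + 1) = n2 := by simp [ins]
  have i3 : ins l n1 n2 (0 + 1 + 1 + 1) = l 0 + 1 := by simp [ins, h1]
  have i4 : ∀ p, ins l n1 n2 (p + 1 + 1 + 1) = l (p + 1) := by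
    intro p
    unfold ins
    rw [if_neg (by omega), if_neg (by omega), if_neg (by omega)]
    congr 1
  rw [i0, i1, i2, i3]
  simp only [i4]
  ring

theorem dprod_ins (R : ℤ → ℝ) (L : ℕ) (l : ℕ → ℤ) (h1 : l 1 = l 0 + 1) :
    dprod R (L + 2) (ins l (l 0 + 1) (l 0 + 2)) = R (l 0 + 2) * dprod R (L + 1) l ∧
    dprod R (L + 2) (ins l (l 0 + 1) (l 0)) = R (l 0 + 1) * dprod R (L + 1) l ∧
    dprod R (L + 2) (ins l (l 0 - 1) (l 0)) = R (l 0) * dprod R (L + 1) l := by
  refine ⟨?_, ?_, ?_⟩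
  · rw [xprod_ins R L l h1, if_neg (by omega), if_neg (by omega), if_pos (by omega)]; ring
  · rw [xprod_ins R L l h1, if_neg (by omega), if_pos (by omega)]; ring
  · rw [xprod_ins R L l h1, if_pos (by omega), if_neg (by omega), if_neg (by omega)]; ring

theorem xprod_card (L : ℕ) (l : ℕ → ℤ) (hl : Valid L l) :
    ((range (2 * L)).filter (fun p => l (p + 1) < l p)).card = L := by
  have h1 : ∑ p ∈ range (2 * L), (l (p + 1) - l p) = 0 := by
    rw [sum_range_sub, hl.1, sub_self]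
  have h2 : ∑ p ∈ range (2 * L), (l (p + 1) - l p)
      = ∑ p ∈ range (2 * L), (1 - 2 * (if l (p + 1) < l p then (1 : ℤ) else 0)) := by
    refine sum_congr rfl fun p hp => ?_
    rcases hl.2 p (mem_range.1 hp) with h | h
    · rw [if_neg (by omega)]; omega
    · rw [if_pos (by omega)]; omega
  rw [h2, sum_sub_distrib, ← mul_sum, sum_boole] at h1
  simp only [sum_const, card_range, nsmul_eq_mul, mul_one] at h1
  push_cast at h1
  omega

theorem dprod_const (c : ℝ) (L : ℕ) (l : ℕ → ℤ) (hl : Valid L l) :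
    dprod (fun _ => c) L l = c ^ L := by
  unfold dprod
  rw [← prod_filter, prod_const, xprod_card L l hl]

theorem dprod_le {R R' : ℤ → ℝ} (L : ℕ) (l : ℕ → ℤ)
    (h : ∀ p, p < 2 * L → 0 ≤ R (l p) ∧ R (l p) ≤ R' (l p)) :
    0 ≤ dprod R L l ∧ dprod R L l ≤ dprod R' L l := by
  unfold dprod
  have h0 : ∀ p ∈ range (2 * L), 0 ≤ (if l (p + 1) < l p then R (l p) else 1) := by
    intro p hp
    split_ifs
    · exact (h p (mem_range.1 hp)).1
    · exact zero_le_one
  refine ⟨prod_nonneg h0, prod_le_prod h0 fun p hp => ?_⟩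
  split_ifs
  · exact (h p (mem_range.1 hp)).2
  · exact le_rfl

theorem xprod_one_sub (a : ℕ → ℝ) (ha : ∀ p, 0 ≤ a p ∧ a p ≤ 1) (n : ℕ) :
    1 - ∑ p ∈ range n, a p ≤ ∏ p ∈ range n, (1 - a p) := by
  induction n with
  | zero => simp
  | succ n ih =>
    rw [sum_range_succ, prod_range_succ]
    have h1 : 0 ≤ ∑ p ∈ range n, a p := sum_nonneg fun p _ => (ha p).1
    have h2 := mul_le_mul_of_nonneg_right ih (sub_nonneg.2 (ha n).2)
    nlinarith [mul_nonneg h1 (ha n).1]

theorem dprod_ge (c : ℝ) (hc : 0 ≤ c) (y : ℤ → ℝ) (hy : ∀ j, 0 ≤ y j ∧ y j ≤ 1) (L : ℕ)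
    (l : ℕ → ℤ) (hl : Valid L l) :
    c ^ L * (1 - ∑ p ∈ range (2 * L), y (l p)) ≤ dprod (fun j => c * (1 - y j)) L l := by
  have e : dprod (fun j => c * (1 - y j)) L l = dprod (fun _ => c) L l *
      ∏ p ∈ range (2 * L), (1 - if l (p + 1) < l p then y (l p) else 0) := by
    unfold dprod
    rw [← prod_mul_distrib]
    refine prod_congr rfl fun p _ => ?_
    split_ifs <;> simp
  rw [e, dprod_const c L l hl]
  refine mul_le_mul_of_nonneg_left ?_ (pow_nonneg hc L)
  refine le_trans ?_ (xprod_one_sub (fun p => if l (p + 1) < l p then y (l p) else 0) ?_ _)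
  · refine sub_le_sub_left (sum_le_sum fun p _ => ?_) _
    split_ifs
    · exact le_rfl
    · exact (hy _).1
  · intro p
    split_ifs
    · exact hy _
    · exact ⟨le_rfl, zero_le_one⟩

/-- the walk with start `k` and steps `σ` -/
def pathOf (n : ℕ) (k : ℤ) (σ : Fin n → Bool) (p : ℕ) : ℤ :=
  k + ∑ i : Fin n, if (i : ℕ) < p then (if σ i then 1 else -1) else 0

theorem xprod_pathOf_succ (n : ℕ) (k : ℤ) (σ : Fin n → Bool) (p : ℕ) (hp : p < n) :
    pathOf n k σ (p + 1) = pathOf n k σ p + (if σ ⟨p, hp⟩ then 1 else -1) := by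
  unfold pathOf
  have e : ∀ i : Fin n, (if (i : ℕ) < p + 1 then (if σ i then (1 : ℤ) else -1) else 0)
      = (if (i : ℕ) < p then (if σ i then 1 else -1) else 0)
        + (if i = ⟨p, hp⟩ then (if σ i then 1 else -1) else 0) := by
    intro i
    by_cases h1 : (i : ℕ) < p
    · have h2 : i ≠ ⟨p, hp⟩ := fun h => by rw [h] at h1; exact lt_irrefl _ h1
      rw [if_pos (by omega), if_pos h1, if_neg h2, add_zero]
    · by_cases h2 : i = ⟨p, hp⟩
      · have h3 : (i : ℕ) < p + 1 := by rw [h2]; exact Nat.lt_succ_self p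
        rw [if_pos h3, if_neg h1, if_pos h2, zero_add]
      · have h3 : (i : ℕ) ≠ p := fun h => h2 (Fin.ext h)
        rw [if_neg (by omega), if_neg h1, if_neg h2, add_zero]
  rw [sum_congr rfl fun i _ => e i, sum_add_distrib, sum_ite_eq' univ (⟨p, hp⟩ : Fin n)]
  simp only [mem_univ, if_true]
  ring

theorem exists_pathOf (L : ℕ) (l : ℕ → ℤ) (hl : Valid L l) :
    ∃ σ : Fin (2 * L) → Bool, ∀ p, p ≤ 2 * L → pathOf (2 * L) (l 0) σ p = l p := by
  refine ⟨fun i => decide (l ((i : ℕ) + 1) = l i + 1), fun p => ?_⟩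
  induction p with
  | zero => intro _; simp [pathOf]
  | succ p ih =>
    intro hp
    have hp' : p < 2 * L := hp
    rw [xprod_pathOf_succ _ _ _ p hp', ih hp'.le]
    rcases hl.2 p hp' with h | h
    · rw [if_pos (by simpa using h)]; omega
    · rw [if_neg (by simp only [decide_eq_true_eq]; omega)]; omega

theorem xprod_zpow_sum {ι : Type*} (s : Finset ι) (z : ℝ) (hz : z ≠ 0) (f : ι → ℤ) :
    z ^ (∑ i ∈ s, f i) = ∏ i ∈ s, z ^ f i := by
  classical
  induction s using Finset.induction_on with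
  | empty => simp
  | insert a s ha ih => rw [sum_insert ha, prod_insert ha, zpow_add₀ hz, ih]

theorem sum_zpow_pathOf (n : ℕ) (k : ℤ) (z : ℝ) (hz : 0 < z) (p : ℕ) :
    ∑ σ : Fin n → Bool, z ^ pathOf n k σ p ≤ z ^ k * (z + z⁻¹) ^ n := by
  have e : ∀ σ : Fin n → Bool, z ^ pathOf n k σ p = z ^ k * ∏ i : Fin n,
      (fun (i : Fin n) (b : Bool) =>
        z ^ (if (i : ℕ) < p then (if b then (1 : ℤ) else -1) else 0)) i (σ i) := by
    intro σ
    unfold pathOf
    rw [zpow_add₀ hz.ne', xprod_zpow_sum _ z hz.ne']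
  rw [sum_congr rfl fun σ _ => e σ, ← mul_sum]
  refine mul_le_mul_of_nonneg_left ?_ (zpow_pos hz k).le
  rw [← Fintype.prod_sum (fun (i : Fin n) (b : Bool) =>
    z ^ (if (i : ℕ) < p then (if b then (1 : ℤ) else -1) else 0))]
  have h2 : 2 ≤ z + z⁻¹ := by
    have h3 : z * z⁻¹ = 1 := mul_inv_cancel₀ hz.ne'
    have h4 : 0 < z⁻¹ := inv_pos.2 hz
    nlinarith [sq_nonneg (z - 1), mul_nonneg h4.le (sq_nonneg (z - 1))]
  calc ∏ i : Fin n, ∑ b : Bool, z ^ (if (i : ℕ) < p then (if b then (1 : ℤ) else -1) else 0)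
      ≤ ∏ _i : Fin n, (z + z⁻¹) := by
        refine prod_le_prod (fun i _ => sum_nonneg fun b _ => (zpow_pos hz _).le) fun i _ => ?_
        by_cases h : (i : ℕ) < p
        · simp [h]
        · simp only [h, if_false, zpow_zero, sum_const, card_univ, Fintype.card_bool,
            nsmul_eq_mul, mul_one]
          exact_mod_cast h2
    _ = (z + z⁻¹) ^ n := by simp

end Pool.Agent.P.MP_7a6434d8_pr
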