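import Pool.Agent.P.MP_7a6434d8_pr.XLab
import Pool.Agent.P.MP_7a6434d8_pr.XProd

namespace Pool.Agent.P.MP_7a6434d8_pr

open Mp Finset
open scoped ENNReal

/-- a strict supersolution of the two-point recursion -/
noncomputable def xradlowR (j : ℤ) : ℝ := 2 * (1 - 1 / (((j : ℝ) + 1) * ((j : ℝ) + 2)))

theorem xradlow_bounds {j : ℤ} (hj : 0 ≤ j) : 0 ≤ xradlowR j ∧ xradlowR j ≤ 2 := by
  have h : (0 : ℝ) ≤ j := by exact_mod_cast hj
  have h1 : (1 : ℝ) ≤ ((j : ℝ) + 1) * ((j : ℝ) + 2) := by nlinarith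
  have h2 : 1 / (((j : ℝ) + 1) * ((j : ℝ) + 2)) ≤ 1 := by
    rw [div_le_one (by linarith)]
    exact h1
  have h3 : 0 ≤ 1 / (((j : ℝ) + 1) * ((j : ℝ) + 2)) := by positivity
  unfold xradlowR
  constructor <;> linarith

theorem xradlow_num (A B C δ : ℝ) (hA : 0 ≤ A) (hB : 0 ≤ B) (hC : 0 ≤ C) (hB1 : B ≤ 1)
    (hδ0 : 0 ≤ δ) (hδ : δ ≤ B ^ 2 / 3) (hid : A + C - 2 * B = 2 * B * (A + B + C)) :
    1 + (1 + δ) / 12 * (2 * (1 - C) * (2 * (1 - B)) + 2 * (1 - B) * (2 * (1 - B))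
      + 2 * (1 - A) * (2 * (1 - B))) ≤ 2 * (1 - B) := by
  have h0 : 0 ≤ (1 - B) * (A + B + C) := mul_nonneg (by linarith) (by linarith)
  have h1 : (1 - B) * (3 - (A + B + C)) ≤ 3 := by nlinarith
  have h2 : δ * ((1 - B) * (3 - (A + B + C))) ≤ δ * 3 := mul_le_mul_of_nonneg_left h1 hδ0
  have h3 : 0 ≤ B * (A + C) := by positivity
  nlinarith

theorem xradlow_step (r : ℕ) {i : ℤ} (h0 : 0 ≤ i) (h1 : i + 1 ≤ r) :
    1 + (1 + 1 / (3 * ((r : ℝ) + 2) ^ 4)) / 12 * (xradlowR (i + 2) * xradlowR (i + 1)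
      + xradlowR (i + 1) * xradlowR (i + 1) + xradlowR i * xradlowR (i + 1))
      ≤ xradlowR (i + 1) := by
  have hu : (0 : ℝ) ≤ i := by exact_mod_cast h0
  have hr : (i : ℝ) + 1 ≤ r := by exact_mod_cast h1
  have hB : 1 / (((i : ℝ) + 1 + 1) * ((i : ℝ) + 1 + 2)) ≤ 1 := by
    rw [div_le_one (by positivity)]
    nlinarith
  unfold xradlowR
  push_cast
  refine xradlow_num _ _ _ _ (by positivity) (by positivity) (by positivity) hB (by positivity)
    ?_ ?_
  · rw [div_pow, one_pow, div_div, mul_comm _ (3 : ℝ)]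
    refine one_div_le_one_div_of_le (by positivity) (mul_le_mul_of_nonneg_left ?_ (by norm_num))
    have h2 : ((i : ℝ) + 1 + 1) * ((i : ℝ) + 1 + 2) ≤ ((r : ℝ) + 2) ^ 2 := by nlinarith
    calc (((i : ℝ) + 1 + 1) * ((i : ℝ) + 1 + 2)) ^ 2 ≤ (((r : ℝ) + 2) ^ 2) ^ 2 :=
          pow_le_pow_left₀ (by positivity) h2 2
      _ = ((r : ℝ) + 2) ^ 4 := by ring
  · field_simp
    ring

open Classical in
theorem xradlow_IE (r L : ℕ) (l : ℕ → ℤ) (hl : Valid L l)
    (hB : ∀ p, p ≤ 2 * L → l p ∈ Set.Icc (0 : ℤ) r) :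
    IE L (fun t => if Lab t l Set.univ (Set.Icc 0 (r : ℤ)) then
      ENNReal.ofReal (1 + 1 / (3 * ((r : ℝ) + 2) ^ 4)) ^ size t else 0)
      ≤ ENNReal.ofReal (2 ^ L) := by
  have hn : ∀ L l, (∀ p, p < 2 * L → l p ∈ Set.Icc (0 : ℤ) r) →
      0 ≤ dprod xradlowR L l ∧ dprod xradlowR L l ≤ dprod (fun _ => 2) L l := fun L l h =>
    dprod_le L l fun p hp => xradlow_bounds (h p hp).1
  refine (lab_bound _ (by positivity) Set.univ (Set.Icc 0 (r : ℤ)) (dprod xradlowR)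
    (fun L l _ h => (hn L l fun p hp => h p hp.le).1)
    (fun L l k h1 h2 => (dprod_rot _ L l k h1 h2).le) (fun l _ _ => by simp [dprod]) ?_
    L l hl hB).trans (ENNReal.ofReal_le_ofReal ?_)
  · intro L l _ hB h1 h2
    obtain ⟨e1, e2, e3⟩ := dprod_ins xradlowR L l h1
    have hP := (hn L (fun p => l (p + 2)) fun p hp => hB (p + 2) (by omega)).1
    have b0 := (hB 0 (Nat.zero_le _)).1
    have b1 := (hB 1 (by omega)).2
    rw [h1] at b1
    have c0 := (xradlow_bounds b0).1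
    have c1 := (xradlow_bounds (j := l 0 + 1) (by omega)).1
    have c2 := (xradlow_bounds (j := l 0 + 2) (by omega)).1
    have key := mul_le_mul_of_nonneg_right (xradlow_step r b0 b1) hP
    rw [e1, e2, e3, dprod_shift xradlowR L l h1 h2]
    generalize dprod xradlowR L (fun p => l (p + 2)) = P at hP key ⊢
    refine le_trans ?_ key
    rw [add_mul, one_mul, mul_assoc]
    refine add_le_add le_rfl (mul_le_mul_of_nonneg_left ?_ (by positivity))
    rw [add_mul, add_mul, mul_assoc, mul_assoc, mul_assoc]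
    refine add_le_add (add_le_add ?_ le_rfl) ?_
    · split_ifs
      · exact le_rfl
      · positivity
    · split_ifs
      · exact le_rfl
      · positivity
  · rw [← dprod_const 2 L l hl]
    exact (hn L l fun p hp => hB p hp.le).2

theorem xradlow_exp (δ : ℝ) (h0 : 0 ≤ δ) (h1 : δ ≤ 1) (n : ℕ) :
    4 / (1 + δ) ^ n ≤ 4 * Real.exp (-(n * (δ / 2))) := by
  have h2 : Real.exp (δ / 2) ≤ 1 + δ := by
    have h3 := Real.add_one_le_exp (-(δ / 2))
    have h4 : Real.exp (δ / 2) * Real.exp (-(δ / 2)) = 1 := by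
      rw [← Real.exp_add, add_neg_cancel, Real.exp_zero]
    have h5 := Real.exp_pos (δ / 2)
    by_contra h6
    push Not at h6
    nlinarith
  rw [Real.exp_neg, Real.exp_nat_mul, ← div_eq_mul_inv]
  exact div_le_div_of_nonneg_left (by norm_num) (by positivity)
    (pow_le_pow_left₀ (Real.exp_pos _).le h2 n)

theorem radius_low (n r : ℕ) :
    mass 2 (fun t => size t = n ∧ ∀ x, Within t r (bv t 0) x)
      ≤ 64 * Real.exp (-((n : ℝ) / (6 * ((r : ℝ) + 2) ^ 4))) := by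
  classical
  have hr : (0 : ℝ) ≤ r := Nat.cast_nonneg r
  have hδ : 1 / (3 * ((r : ℝ) + 2) ^ 4) ≤ 1 := by
    rw [div_le_one (by positivity)]
    have : (1 : ℝ) ≤ ((r : ℝ) + 2) ^ 4 := one_le_pow₀ (by linarith)
    linarith
  refine (mass_le_sum (univ : Finset (Fin (2 * 2) → Bool))
    (fun σ t => size t = n ∧ Lab t (pathOf (2 * 2) 0 σ) Set.univ (Set.Icc 0 (r : ℤ)))
    fun t ht hp h => ?_).trans ?_
  · obtain ⟨l, hl0, hl⟩ := lab_near t ht r h.2
    have hv := (lab_valid ht hl).1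
    rw [hp] at hv
    obtain ⟨σ, hσ⟩ := exists_pathOf 2 l hv
    rw [hl0] at hσ
    exact ⟨σ, mem_univ _, h.1, lab_congr hl fun p hpp => hσ p (hp ▸ hpp)⟩
  · have hone : ∀ σ : Fin (2 * 2) → Bool,
        mass 2 (fun t => size t = n ∧ Lab t (pathOf (2 * 2) 0 σ) Set.univ (Set.Icc 0 (r : ℤ)))
          ≤ 4 * Real.exp (-((n : ℝ) / (6 * ((r : ℝ) + 2) ^ 4))) := fun σ => by
      by_cases hv : Valid 2 (pathOf (2 * 2) 0 σ) ∧
          ∀ p, p ≤ 2 * 2 → pathOf (2 * 2) 0 σ p ∈ Set.Icc (0 : ℤ) r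
      · refine (IE_markov (c := (1 + 1 / (3 * ((r : ℝ) + 2) ^ 4)) ^ n) (by positivity)
          (by positivity) (fun t _ _ h => ?_) (xradlow_IE r 2 _ hv.1 hv.2)).trans ?_
        · rw [if_pos h.2, h.1, ENNReal.ofReal_pow (by positivity)]
        · have h := xradlow_exp _ (by positivity) hδ n
          have e : (n : ℝ) * (1 / (3 * ((r : ℝ) + 2) ^ 4) / 2) = n / (6 * ((r : ℝ) + 2) ^ 4) := by
            field_simp
            ring
          rw [e] at h
          refine le_trans (le_of_eq ?_) h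
          norm_num
      · refine (mass_eq_zero fun t ht hp h => hv ?_).trans_le (by positivity)
        have h2 := lab_valid ht h.2
        rwa [hp] at h2
    refine (sum_le_sum fun σ _ => hone σ).trans (le_of_eq ?_)
    rw [sum_const, card_univ, nsmul_eq_mul]
    simp only [Fintype.card_fun, Fintype.card_bool, Fintype.card_fin]
    norm_num
    ring

end Pool.Agent.P.MP_7a6434d8_pr
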