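import Pool.Agent.P.MP_7a6434d8_pr.Main
import Pool.Agent.P.MP_7a6434d8_pr.XGood
import Pool.Agent.P.MP_7a6434d8_pr.XLink
import Pool.Agent.P.MP_7a6434d8_pr.XCount
import Pool.Agent.P.MP_7a6434d8_pr.XExit
import Pool.Agent.P.MP_7a6434d8_pr.XRadLow

namespace Pool.Agent.P.MP_7a6434d8_pr

open Mp Finset Filter Topology
open scoped ENNReal

theorem xmain_count {c : ℝ}
    (hcnt : ∀ n : ℕ, c * 12 ^ n / ((n : ℝ) + 1) ^ 3 ≤ (cnt 2 n (fun _ => True) : ℝ))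
    (n : ℕ) (hn : 1 ≤ n) (B : Quad n → Prop) (φ : Mp → Prop) (h : ∀ q t, Rep q t → B q → φ t)
    (y : ℝ) (hy : 0 ≤ y) (hm : mass 2 (fun t => φ t ∧ size t = n - 1) ≤ c / (n : ℝ) ^ 3 * y) :
    (Nat.card {c : RootedQuad n // ∃ q : Quad n, Quot.mk _ q = c ∧ B q} : ℝ)
      ≤ y * (Nat.card (RootedQuad n) : ℝ) := by
  have hbad : (Nat.card {c : RootedQuad n // ∃ q : Quad n, Quot.mk _ q = c ∧ B q} : ℝ)
      ≤ (cnt 2 (n - 1) φ : ℝ) := by exact_mod_cast card_bad_le n hn B φ h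
  have hc1 := cnt_le_mass 2 (n - 1) φ
  have hlow := hcnt (n - 1)
  have hcast : (((n - 1 : ℕ) : ℝ) + 1) = n := by
    rw [Nat.cast_sub hn]; simp
  rw [hcast] at hlow
  rw [card_rooted n hn]
  calc _ ≤ (cnt 2 (n - 1) φ : ℝ) := hbad
    _ ≤ 12 ^ (n - 1) * (c / (n : ℝ) ^ 3 * y) := by
        refine hc1.trans ?_
        gcongr
    _ = y * (c * 12 ^ (n - 1) / (n : ℝ) ^ 3) := by ring
    _ ≤ _ := by gcongr

theorem xmain_pos (n : ℕ) (hn : 1 ≤ n) : 0 < Nat.card (RootedQuad n) := by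
  obtain ⟨c, hc, hcnt⟩ := cnt_lower
  rw [card_rooted n hn]
  have h1 := hcnt (n - 1)
  have h2 : (0 : ℝ) < c * 12 ^ (n - 1) / (((n - 1 : ℕ) : ℝ) + 1) ^ 3 := by positivity
  exact_mod_cast h2.trans_le h1

theorem xmain_res (η : ℝ) (hη : 0 < η) (K : ℕ) : ∀ᶠ n : ℕ in atTop,
    (Nat.card {c : RootedQuad n // ∃ q : Quad n, Quot.mk _ q = c ∧
        ¬ ResLe q (16 * ((n : ℝ) ^ η) ^ 4)} : ℝ)
      ≤ 1 / (n : ℝ) ^ K * (Nat.card (RootedQuad n) : ℝ) := by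
  obtain ⟨C, δ, hC, hδ, hlev⟩ := level
  obtain ⟨n1, hn1⟩ := asymp NearHyp C δ hC hδ nearHyp_mono nearHyp_base nearHyp_triv hlev
    η hη (K + 4)
  obtain ⟨γ, hγ0, hγ, hrad⟩ := rad
  obtain ⟨c, hc, hcnt⟩ := cnt_lower
  have ev3 : ∀ᶠ n : ℕ in atTop, 2048 / c ≤ (n : ℝ) :=
    tendsto_natCast_atTop_atTop.eventually_ge_atTop _
  filter_upwards [main_ev2 η γ (c / 2) hη hγ0 hγ (by positivity) (K + 3), ev3,
    eventually_ge_atTop n1, eventually_ge_atTop 1] with n e2 e3 e4 e5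
  have hnpos : (0 : ℝ) < n := by exact_mod_cast e5
  have hn1' : (1 : ℝ) ≤ n := by exact_mod_cast e5
  set G := ⌈(n : ℝ) ^ η⌉₊ with hG
  set ρ := (n : ℝ) ^ η with hρ
  have hρ1 : 1 ≤ ρ := Real.one_le_rpow hn1' hη.le
  have hρ0 : 0 < ρ := by linarith
  have hceil : (G : ℝ) ≤ 2 * ρ := by
    have := Nat.ceil_lt_add_one hρ0.le
    linarith
  refine xmain_count hcnt n e5 _ (fun t => FarV t (G * ρ)) ?_ _ (by positivity) ?_
  · intro q t hq hx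
    by_contra hn'
    have h1 := rep_res q t hq (G * ρ) (by positivity) hn'
    apply hx
    intro f u v
    refine (h1 f u v).trans ?_
    have : 4 * ((G : ℝ) * ρ) ^ 2 ≤ 16 * ρ ^ 4 := by
      calc 4 * ((G : ℝ) * ρ) ^ 2 ≤ 4 * ((2 * ρ) * ρ) ^ 2 := by gcongr
        _ = 16 * ρ ^ 4 := by ring
    gcongr
  · have hm := hrad (n + 1) (n + 5) G ρ (1 / (n : ℝ) ^ (K + 4)) (by omega) hρ0 (by positivity)
      (hn1 n e4) 2
    have hm2 : mass 2 (fun t => FarV t (G * ρ) ∧ size t = n - 1)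
        ≤ mass 2 (fun t => FarV t (G * ρ) ∧ size t + per t ≤ n + 1) := by
      apply mass_mono
      rintro t _ hp ⟨h1, h2⟩
      exact ⟨h1, by omega⟩
    have hZ : Bv 2 * Z 2 ≤ 512 := by
      have h1 := Z_eq_w 2
      have h2 := w_le_one 2
      have h3 : Bv 2 = 8 := by norm_num [Bv]
      rw [h3, h1]; norm_num; linarith
    have hp : (0 : ℝ) < (n : ℝ) ^ (K + 3) := by positivity
    have b1 : γ ^ G * 8 ^ 2 ≤ c / 2 / (n : ℝ) ^ (K + 3) := by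
      rw [le_div_iff₀ hp]; linarith
    have b2 : 2 * (1 / (n : ℝ) ^ (K + 4)) * (Bv 2 * Z 2) ≤ c / 2 / (n : ℝ) ^ (K + 3) := by
      have : 2 * (1 / (n : ℝ) ^ (K + 4)) * (Bv 2 * Z 2) ≤ 2 * (1 / (n : ℝ) ^ (K + 4)) * 512 := by
        gcongr
      refine this.trans ?_
      rw [le_div_iff₀ hp]
      have h4 : 2 * (1 / (n : ℝ) ^ (K + 4)) * 512 * (n : ℝ) ^ (K + 3) = 1024 / n := by
        field_simp; ring
      rw [h4, div_le_iff₀ hnpos]
      rw [div_le_iff₀ hc] at e3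
      linarith
    have b3 : c / (n : ℝ) ^ 3 * (1 / (n : ℝ) ^ K)
        = c / 2 / (n : ℝ) ^ (K + 3) + c / 2 / (n : ℝ) ^ (K + 3) := by
      field_simp; ring
    linarith

theorem xmain_rad_ev : ∀ᶠ n : ℕ in atTop, 2 ≤ (n : ℝ) ^ (1 / 4 : ℝ) / Real.log n := by
  have h1 : Tendsto (fun n : ℕ => (n : ℝ) ^ (1 / 8 : ℝ)) atTop atTop :=
    (tendsto_rpow_atTop (by positivity)).comp tendsto_natCast_atTop_atTop
  filter_upwards [h1.eventually_ge_atTop 16, eventually_ge_atTop 2] with n hn h2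
  have hn2 : (2 : ℝ) ≤ n := by exact_mod_cast h2
  have hn0 : (0 : ℝ) < n := by linarith
  have hl : 0 < Real.log n := Real.log_pos (by linarith)
  have e2 : Real.log n ≤ (n : ℝ) ^ (1 / 8 : ℝ) / (1 / 8) :=
    Real.log_le_rpow_div hn0.le (by norm_num)
  have e3 : (n : ℝ) ^ (1 / 4 : ℝ) = (n : ℝ) ^ (1 / 8 : ℝ) * (n : ℝ) ^ (1 / 8 : ℝ) := by
    rw [← Real.rpow_add hn0]; norm_num
  rw [le_div_iff₀ hl, e3]
  nlinarith

theorem xmain_rad (K : ℕ) : ∀ᶠ n : ℕ in atTop,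
    (Nat.card {c : RootedQuad n // ∃ q : Quad n, Quot.mk _ q = c ∧
        ¬ ∃ v, (n : ℝ) ^ (1 / 4 : ℝ) / Real.log n < (q.graph.dist (q.tail q.root) v : ℝ)} : ℝ)
      ≤ 1 / (n : ℝ) ^ K * (Nat.card (RootedQuad n) : ℝ) := by
  obtain ⟨c, hc, hcnt⟩ := cnt_lower
  have ev3 : ∀ᶠ n : ℕ in atTop, 64 / c ≤ (n : ℝ) :=
    tendsto_natCast_atTop_atTop.eventually_ge_atTop _
  have ev4 : ∀ᶠ n : ℕ in atTop, 192 * ((K : ℝ) + 4) ≤ Real.log n :=
    (Real.tendsto_log_atTop.comp tendsto_natCast_atTop_atTop).eventually_ge_atTop _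
  filter_upwards [xmain_rad_ev, ev3, ev4, eventually_ge_atTop 2] with n e1 e3 e4 e5
  have hn2 : (2 : ℝ) ≤ n := by exact_mod_cast e5
  have hnpos : (0 : ℝ) < n := by linarith
  set r0 := (n : ℝ) ^ (1 / 4 : ℝ) / Real.log n with hr0
  set l := Real.log n with hl
  have hK : (0 : ℝ) ≤ K := Nat.cast_nonneg K
  have hl1 : 1 ≤ l := by linarith
  refine xmain_count hcnt n (by omega) _ (fun t => ∀ x, Within t ⌊r0⌋₊ (bv t 0) x) ?_ _
    (by positivity) ?_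
  · intro q t hq hx
    refine near_of_rep q t hq _ fun y => Nat.le_floor ?_
    by_contra h
    exact hx ⟨y, not_le.1 h⟩
  · have hm := radius_low (n - 1) ⌊r0⌋₊
    have hm2 : mass 2 (fun t => (∀ x, Within t ⌊r0⌋₊ (bv t 0) x) ∧ size t = n - 1)
        ≤ mass 2 (fun t => size t = n - 1 ∧ ∀ x, Within t ⌊r0⌋₊ (bv t 0) x) :=
      mass_mono fun t _ _ h => ⟨h.2, h.1⟩
    refine hm2.trans (hm.trans ?_)
    have hcast : (((n - 1 : ℕ) : ℝ)) = n - 1 := by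
      rw [Nat.cast_sub (by omega)]; simp
    rw [hcast]
    have hfl : (⌊r0⌋₊ : ℝ) + 2 ≤ 2 * r0 := by
      have := Nat.floor_le (show 0 ≤ r0 by linarith)
      linarith
    have h4 : r0 ^ 4 = n / l ^ 4 := by
      rw [hr0, div_pow, ← Real.rpow_natCast, ← Real.rpow_mul hnpos.le]; norm_num
    have hfl0 : (0 : ℝ) < (⌊r0⌋₊ : ℝ) + 2 := by positivity
    have h5 : ((K : ℝ) + 4) * l ≤ (n - 1) / (6 * ((⌊r0⌋₊ : ℝ) + 2) ^ 4) := by
      rw [le_div_iff₀ (by positivity)]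
      have a1 : ((⌊r0⌋₊ : ℝ) + 2) ^ 4 ≤ 16 * (n / l ^ 4) := by
        calc ((⌊r0⌋₊ : ℝ) + 2) ^ 4 ≤ (2 * r0) ^ 4 := by gcongr
          _ = 16 * r0 ^ 4 := by ring
          _ = _ := by rw [h4]
      have a2 : ((K : ℝ) + 4) * l * 192 ≤ l ^ 4 := by
        have : l ^ 2 ≤ l ^ 4 := pow_le_pow_right₀ hl1 (by norm_num)
        nlinarith
      have a3 : ((K : ℝ) + 4) * l * (6 * (16 * (n / l ^ 4))) ≤ n / 2 := by
        have : ((K : ℝ) + 4) * l * (6 * (16 * (n / l ^ 4)))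
            = (((K : ℝ) + 4) * l * 192 / l ^ 4) * (n / 2) := by field_simp; ring
        rw [this]
        have : ((K : ℝ) + 4) * l * 192 / l ^ 4 ≤ 1 := by
          rw [div_le_one (by positivity)]; exact a2
        nlinarith
      calc ((K : ℝ) + 4) * l * (6 * ((⌊r0⌋₊ : ℝ) + 2) ^ 4)
          ≤ ((K : ℝ) + 4) * l * (6 * (16 * (n / l ^ 4))) := by gcongr
        _ ≤ (n : ℝ) / 2 := a3
        _ ≤ (n : ℝ) - 1 := by linarith
    have h6 : Real.exp (-((n - 1) / (6 * ((⌊r0⌋₊ : ℝ) + 2) ^ 4))) ≤ 1 / (n : ℝ) ^ (K + 4) := by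
      calc _ ≤ Real.exp (-(((K : ℝ) + 4) * l)) := Real.exp_le_exp.2 (by linarith)
        _ = 1 / (n : ℝ) ^ (K + 4) := by
          rw [Real.exp_neg, one_div]; congr 1
          have : ((K : ℝ) + 4) * l = ((K + 4 : ℕ) : ℝ) * l := by push_cast; ring
          rw [this, Real.exp_nat_mul, hl, Real.exp_log hnpos]
    calc _ ≤ 64 * (1 / (n : ℝ) ^ (K + 4)) := by gcongr
      _ = (64 / n) / (n : ℝ) ^ 3 * (1 / (n : ℝ) ^ K) := by field_simp; ring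
      _ ≤ _ := by
        gcongr
        rw [div_le_iff₀ hnpos]; rw [div_le_iff₀ hc] at e3; linarith

theorem xmain_arith (x G M n : ℝ) (hx : 0 < x) (hn : 0 < n) (hM : 0 ≤ M) (h2 : 2 ≤ G)
    (g1 : x ^ 2 ≤ G) (a3 : M * G ^ 4 ≤ 2 * n) : M / (4 * n * (1 / x)) ≤ 1 / (4 * x) := by
  have b2 : G ^ 2 ≤ G ^ 4 := pow_le_pow_right₀ (by linarith) (by norm_num)
  have a4 : 2 * x ^ 2 ≤ G ^ 4 := by nlinarith
  have a5 : M * x ^ 2 ≤ n := by nlinarith
  rw [div_le_div_iff₀ (by positivity) (by positivity)]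
  have : 1 * (4 * n * (1 / x)) = 4 * n / x := by ring
  rw [this, le_div_iff₀ hx]
  nlinarith

theorem xmain_low (E : ℕ) (hE : 60 ≤ E) (ε : ℝ) (hε : 60 ≤ E * ε) : ∀ᶠ n : ℕ in atTop,
    (Nat.card {c : RootedQuad n // ∃ q : Quad n, Quot.mk _ q = c ∧
        ENNReal.ofReal ((n : ℝ) ^ (-(1 / (8 * E) : ℝ))) <
          q.escape (q.tail q.root) ⌊(n : ℝ) ^ (1 - ε)⌋₊ ((n : ℝ) ^ (1 / 4 - 1 / (8 * E) : ℝ))} : ℝ)
      ≤ 1 / (2 * (n : ℝ) ^ (1 / (8 * E) : ℝ)) * (Nat.card (RootedQuad n) : ℝ) := by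
  have hE' : (60 : ℝ) ≤ E := by exact_mod_cast hE
  obtain ⟨C, δ, hC, hδ, hlev⟩ := level
  obtain ⟨n1, hn1⟩ := asymp NearHyp C δ hC hδ nearHyp_mono nearHyp_base nearHyp_triv hlev
    (1 / (4 * E)) (by positivity) (16 * E + 4 * E + 121)
  obtain ⟨G0, hG0⟩ := good_prob E (16 * E) hE
  obtain ⟨c, hc, hcnt⟩ := cnt_lower
  have h1 : Tendsto (fun n : ℕ => (n : ℝ) ^ (1 / (8 * E) : ℝ)) atTop atTop :=
    (tendsto_rpow_atTop (by positivity)).comp tendsto_natCast_atTop_atTop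
  filter_upwards [h1.eventually_ge_atTop (2 ^ (4 * E)), h1.eventually_ge_atTop (4 / c),
    h1.eventually_ge_atTop G0, eventually_ge_atTop n1, eventually_ge_atTop 1] with n e1 e2 e3 e4 e5
  have hnpos : (0 : ℝ) < n := by exact_mod_cast e5
  have hn1' : (1 : ℝ) ≤ n := by exact_mod_cast e5
  set x := (n : ℝ) ^ (1 / (8 * E) : ℝ) with hx
  have hx1 : 1 ≤ x := Real.one_le_rpow hn1' (by positivity)
  have hx0 : 0 < x := by linarith
  have hpow : ∀ k : ℕ, x ^ k = (n : ℝ) ^ ((k : ℝ) / (8 * E)) := fun k => by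
    rw [hx, ← Real.rpow_natCast, ← Real.rpow_mul hnpos.le]; congr 1; ring
  have p1 : x ^ (8 * E) = n := by
    rw [hpow]; push_cast; rw [div_self (by positivity), Real.rpow_one]
  have p2 : (n : ℝ) ^ (1 / (4 * E) : ℝ) = x ^ 2 := by
    rw [hpow]; congr 1; push_cast; field_simp; ring
  have p3 : (n : ℝ) ^ (1 / 4 - 1 / (8 * E) : ℝ) = x ^ (2 * E - 1) := by
    rw [hpow]; congr 1; rw [Nat.cast_sub (by omega)]; push_cast; field_simp; ring
  have p4 : (n : ℝ) ^ (-(1 / (8 * E) : ℝ)) = 1 / x := by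
    rw [Real.rpow_neg hnpos.le, ← hx, one_div]
  have p5 : x ^ 480 ≤ (n : ℝ) ^ ε := by
    rw [hpow]
    apply Real.rpow_le_rpow_of_exponent_le hn1'
    rw [div_le_iff₀ (by positivity)]; push_cast; linarith
  have two : ∀ k : ℕ, k ≤ 4 * E → (2 : ℝ) ^ k ≤ x := fun k hk =>
    (pow_le_pow_right₀ (by norm_num) hk).trans e1
  set G := ⌈x ^ 2⌉₊ with hG
  have g1 : x ^ 2 ≤ G := Nat.le_ceil _
  have hx2 : x ≤ x ^ 2 := by nlinarith
  have g2 : (G : ℝ) ≤ 2 * x ^ 2 := by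
    have := Nat.ceil_lt_add_one (show 0 ≤ x ^ 2 by positivity)
    linarith
  have g3 : ∀ k : ℕ, k ≤ 4 * E → (G : ℝ) ^ k ≤ x ^ (2 * k + 1) := fun k hk => by
    calc (G : ℝ) ^ k ≤ (2 * x ^ 2) ^ k := by gcongr
      _ = 2 ^ k * x ^ (2 * k) := by rw [mul_pow, ← pow_mul]
      _ ≤ x * x ^ (2 * k) := by gcongr; exact two k hk
      _ = x ^ (2 * k + 1) := by ring
  have hG1 : (1 : ℝ) ≤ G := by linarith
  have hG1' : 1 ≤ G := by exact_mod_cast hG1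
  have g4 : (G : ℝ) ^ (4 * E - 1) ≤ n := by
    refine (g3 _ (by omega)).trans ?_
    rw [← p1]; exact pow_le_pow_right₀ hx1 (by omega)
  have g4' : G ^ (4 * E - 1) ≤ n := by exact_mod_cast g4
  have g5 : (n : ℝ) ≤ (G : ℝ) ^ (4 * E) := by
    calc (n : ℝ) = (x ^ 2) ^ (4 * E) := by rw [← p1, ← pow_mul]; congr 1; ring
      _ ≤ _ := by gcongr
  have g5' : n ≤ G ^ (4 * E) := by exact_mod_cast g5
  have g6 : (G : ℝ) ≤ n := by
    refine le_trans ?_ g4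
    exact le_self_pow₀ hG1 (by omega)
  have hnear : NearHyp (G ^ (2 * E - 112)) G (1 / (G : ℝ) ^ (16 * E + 4 * E + 121)) := by
    refine nearHyp_mono ?_ ?_ ?_ (hn1 n e4)
    · have : G ^ (2 * E - 112) ≤ G ^ (4 * E - 1) := Nat.pow_le_pow_right hG1' (by omega)
      omega
    · rw [p2]; exact g1
    · gcongr
  have hgood := hG0 G (by exact_mod_cast e3.trans (hx2.trans g1)) n g4' g5' hnear
  set T := ⌊(n : ℝ) ^ (1 - ε)⌋₊ with hT
  set M : ℝ := G * (G : ℝ) ^ (4 * E - 6) + T * (G : ℝ) ^ 217 with hM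
  set r : ℝ := (n : ℝ) ^ (1 / 4 - 1 / (8 * E) : ℝ) with hr
  have hcount := reroot_count e5 T r (1 / x) M (by positivity) (by positivity)
    (fun q => ¬ ∑ d, q.escape (q.tail d) T r ≤ ENNReal.ofReal M) (fun q hq => not_not.1 hq)
  have hbad := xmain_count hcnt n e5
    (fun q => ¬ ∑ d, q.escape (q.tail d) T r ≤ ENNReal.ofReal M)
    (fun t => ¬ (MaxDeg t G ∧ Sep t (G ^ (E - 1)) ((G : ℝ) ^ 217) ((G : ℝ) ^ (4 * E - 6))))
    (by
      rintro q t hq hb ⟨h1, h2⟩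
      refine hb (sep_escape q t hq _ _ _ _ (by positivity) h1 h2 T r ?_)
      rw [p3]; push_cast
      exact (g3 _ (by omega)).trans (pow_le_pow_right₀ hx1 (by omega)))
    (1 / (4 * x)) (by positivity) (by
      refine (mass_mono ?_).trans (hgood.trans ?_)
      · rintro t _ _ ⟨h1, h2⟩
        exact ⟨by omega, h1⟩
      · have a1 : (n : ℝ) ^ 4 ≤ (G : ℝ) ^ (16 * E) := by
          calc (n : ℝ) ^ 4 ≤ ((G : ℝ) ^ (4 * E)) ^ 4 := by gcongr
            _ = _ := by rw [← pow_mul]; congr 1; ring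
        have a2 : x ^ 2 ≤ n := g1.trans g6
        have a3 : 4 * x ≤ c * n := by
          rw [div_le_iff₀ hc] at e2
          calc 4 * x ≤ (x * c) * x := by gcongr
            _ = c * x ^ 2 := by ring
            _ ≤ _ := by gcongr
        calc 1 / (G : ℝ) ^ (16 * E) ≤ 1 / (n : ℝ) ^ 4 := by gcongr
          _ = c / (n : ℝ) ^ 3 * (1 / (c * n)) := by field_simp
          _ ≤ _ := by gcongr)
  have hM1 : M / (4 * n * (1 / x)) ≤ 1 / (4 * x) := by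
    have a1 : G * (G : ℝ) ^ (4 * E - 6) * (G : ℝ) ^ 4 ≤ n := by
      refine le_trans (le_of_eq ?_) g4
      rw [← pow_succ', ← pow_add]; congr 1; omega
    have a2 : T * (G : ℝ) ^ 217 * (G : ℝ) ^ 4 ≤ n := by
      have b1 : (T : ℝ) ≤ (n : ℝ) ^ (1 - ε) := Nat.floor_le (by positivity)
      have b2 : (G : ℝ) ^ 221 ≤ (n : ℝ) ^ ε :=
        (g3 _ (by omega)).trans ((pow_le_pow_right₀ hx1 (by norm_num)).trans p5)
      calc T * (G : ℝ) ^ 217 * (G : ℝ) ^ 4 = T * (G : ℝ) ^ 221 := by ring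
        _ ≤ (n : ℝ) ^ (1 - ε) * (n : ℝ) ^ ε := by gcongr
        _ = n := by rw [← Real.rpow_add hnpos]; simp
    have a3 : M * (G : ℝ) ^ 4 ≤ 2 * n := by rw [hM, add_mul, two_mul]; exact add_le_add a1 a2
    have b1 : (2 : ℝ) ≤ G := by
      have := two 1 (by omega)
      rw [pow_one] at this
      exact this.trans (hx2.trans g1)
    exact xmain_arith x G M n hx0 hnpos (by positivity) b1 g1 a3
  rw [p4]
  have hc0 : (0 : ℝ) ≤ (Nat.card (RootedQuad n) : ℝ) := Nat.cast_nonneg _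
  calc _ ≤ _ := hcount
    _ ≤ 1 / (4 * x) * (Nat.card (RootedQuad n) : ℝ)
        + 1 / (4 * x) * (Nat.card (RootedQuad n) : ℝ) := by gcongr
    _ = _ := by field_simp; ring

theorem xmain_union {α : Type} [Finite α] (P A B C : α → Prop) (h : ∀ a, P a → A a ∨ B a ∨ C a) :
    Nat.card {a // P a} ≤ Nat.card {a // A a} + Nat.card {a // B a} + Nat.card {a // C a} := by
  have h1 : {a | P a} ⊆ ({a | A a} ∪ {a | B a}) ∪ {a | C a} := by
    intro a ha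
    rcases h a ha with h | h | h
    · exact Or.inl (Or.inl h)
    · exact Or.inl (Or.inr h)
    · exact Or.inr h
  have h2 := Set.ncard_le_ncard h1 (Set.toFinite _)
  have h3 := Set.ncard_union_le ({a | A a} ∪ {a | B a}) {a | C a}
  have h4 := Set.ncard_union_le {a | A a} {a | B a}
  have e : ∀ Q : α → Prop, Nat.card {a // Q a} = Set.ncard {a | Q a} := fun Q => rfl
  rw [e, e, e, e]
  omega

theorem exit_main (ε : ℝ) (hε : 0 < ε) : ∃ δ : ℝ, 0 < δ ∧ ∃ n0 : ℕ, ∀ n : ℕ, n0 ≤ n →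
    0 < Nat.card (RootedQuad n) ∧
    (Nat.card {c : RootedQuad n // ∃ q : Quad n, Quot.mk _ q = c ∧
        ¬ (q.escape (q.tail q.root) ⌊(n : ℝ) ^ (1 - ε)⌋₊ ((n : ℝ) ^ (1 / 4 - δ))
              ≤ ENNReal.ofReal ((n : ℝ) ^ (-δ)) ∧
          (∃ v, (n : ℝ) ^ (1 / 4 : ℝ) / Real.log n < (q.graph.dist (q.tail q.root) v : ℝ)) ∧
          ∀ (r : ℝ) (v : q.Vertex), r < (q.graph.dist (q.tail q.root) v : ℝ) →
            ENNReal.ofReal (1 - (n : ℝ) ^ (-δ))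
              ≤ q.escape (q.tail q.root) ⌊(n : ℝ) ^ (1 + ε)⌋₊ r)} : ℝ)
      ≤ (Nat.card (RootedQuad n) : ℝ) / (n : ℝ) ^ δ := by
  obtain ⟨E, hE⟩ := exists_nat_ge (max 60 (60 / ε))
  have hE1 : (60 : ℝ) ≤ E := le_of_max_le_left hE
  have hE2 : 60 ≤ E * ε := (div_le_iff₀ hε).1 (le_of_max_le_right hE)
  have hδ : (0 : ℝ) < 1 / (8 * E) := by positivity
  refine ⟨1 / (8 * E), hδ, ?_⟩
  have h1 : Tendsto (fun n : ℕ => (n : ℝ) ^ (1 / (8 * E) : ℝ)) atTop atTop :=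
    (tendsto_rpow_atTop hδ).comp tendsto_natCast_atTop_atTop
  have ev := (xmain_low E (by exact_mod_cast hE1) ε hE2).and ((xmain_rad 1).and
    ((xmain_res _ hδ 1).and ((h1.eventually_ge_atTop 64).and (eventually_ge_atTop 1))))
  obtain ⟨n0, hn0⟩ := eventually_atTop.1 ev
  refine ⟨n0, fun n hn => ?_⟩
  obtain ⟨e1, e2, e3, e4, e5⟩ := hn0 n hn
  have hpos := xmain_pos n e5
  refine ⟨hpos, ?_⟩
  have : Finite (RootedQuad n) := Nat.finite_of_card_ne_zero hpos.ne'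
  have hnpos : (0 : ℝ) < n := by exact_mod_cast e5
  have hn1' : (1 : ℝ) ≤ n := by exact_mod_cast e5
  set x := (n : ℝ) ^ (1 / (8 * E) : ℝ) with hx
  have hx0 : 0 < x := by linarith
  have hx1 : 1 ≤ x := by linarith
  have hpow : ∀ k : ℕ, x ^ k = (n : ℝ) ^ ((k : ℝ) / (8 * E)) := fun k => by
    rw [hx, ← Real.rpow_natCast, ← Real.rpow_mul hnpos.le]; congr 1; ring
  have p4 : (n : ℝ) ^ (-(1 / (8 * E) : ℝ)) = 1 / x := by
    rw [Real.rpow_neg hnpos.le, ← hx, one_div]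
  have p5 : x ^ 6 ≤ (n : ℝ) ^ ε := by
    rw [hpow]
    apply Real.rpow_le_rpow_of_exponent_le hn1'
    rw [div_le_iff₀ (by positivity)]; push_cast; linarith
  have p6 : x ^ 2 ≤ n := by
    rw [hpow]
    calc _ ≤ (n : ℝ) ^ (1 : ℝ) := by
          apply Real.rpow_le_rpow_of_exponent_le hn1'
          rw [div_le_iff₀ (by positivity)]; push_cast; linarith
      _ = n := Real.rpow_one _
  have hu := xmain_union
    (fun c : RootedQuad n => ∃ q : Quad n, Quot.mk _ q = c ∧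
        ¬ (q.escape (q.tail q.root) ⌊(n : ℝ) ^ (1 - ε)⌋₊ ((n : ℝ) ^ (1 / 4 - 1 / (8 * E) : ℝ))
              ≤ ENNReal.ofReal ((n : ℝ) ^ (-(1 / (8 * E) : ℝ))) ∧
          (∃ v, (n : ℝ) ^ (1 / 4 : ℝ) / Real.log n < (q.graph.dist (q.tail q.root) v : ℝ)) ∧
          ∀ (r : ℝ) (v : q.Vertex), r < (q.graph.dist (q.tail q.root) v : ℝ) →
            ENNReal.ofReal (1 - (n : ℝ) ^ (-(1 / (8 * E) : ℝ)))
              ≤ q.escape (q.tail q.root) ⌊(n : ℝ) ^ (1 + ε)⌋₊ r))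
    (fun c => ∃ q : Quad n, Quot.mk _ q = c ∧
        ENNReal.ofReal ((n : ℝ) ^ (-(1 / (8 * E) : ℝ))) <
          q.escape (q.tail q.root) ⌊(n : ℝ) ^ (1 - ε)⌋₊ ((n : ℝ) ^ (1 / 4 - 1 / (8 * E) : ℝ)))
    (fun c => ∃ q : Quad n, Quot.mk _ q = c ∧
        ¬ ∃ v, (n : ℝ) ^ (1 / 4 : ℝ) / Real.log n < (q.graph.dist (q.tail q.root) v : ℝ))
    (fun c => ∃ q : Quad n, Quot.mk _ q = c ∧ ¬ ResLe q (16 * x ^ 4)) (by
      rintro c ⟨q, hq, hb⟩
      by_contra hcon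
      push Not at hcon
      obtain ⟨c1, c2, c3⟩ := hcon
      refine hb ⟨c1 q hq, c2 q hq, fun r v hv => ?_⟩
      refine le_trans (ENNReal.ofReal_le_ofReal ?_)
        (escape_ge q _ (by positivity) (c3 q hq) _ v _ r hv)
      rw [p4]
      have a1 : (n : ℝ) ^ (1 + ε) ≤ (⌊(n : ℝ) ^ (1 + ε)⌋₊ : ℝ) + 1 := (Nat.lt_floor_add_one _).le
      have a2 : n * x ^ 6 ≤ (n : ℝ) ^ (1 + ε) := by
        rw [Real.rpow_add hnpos, Real.rpow_one]; gcongr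
      have a3 : 4 * n * (16 * x ^ 4) / ((⌊(n : ℝ) ^ (1 + ε)⌋₊ : ℝ) + 1) ≤ 1 / x := by
        calc _ ≤ 4 * n * (16 * x ^ 4) / (n * x ^ 6) := by gcongr; exact a2.trans a1
          _ = (64 / x) / x := by field_simp; norm_num
          _ ≤ 1 / x := by gcongr; rwa [div_le_one hx0]
      linarith)
  have hu' := (Nat.cast_le (α := ℝ)).2 hu
  push_cast at hu'
  refine hu'.trans ?_
  have hc0 : (0 : ℝ) ≤ (Nat.card (RootedQuad n) : ℝ) := Nat.cast_nonneg _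
  have b1 : 1 / (n : ℝ) ^ 1 ≤ 1 / (4 * x) := by
    rw [pow_one]; gcongr; nlinarith
  calc _ ≤ 1 / (2 * x) * (Nat.card (RootedQuad n) : ℝ)
        + 1 / (4 * x) * (Nat.card (RootedQuad n) : ℝ)
        + 1 / (4 * x) * (Nat.card (RootedQuad n) : ℝ) := by
        gcongr
        · exact e2.trans (by gcongr)
        · exact e3.trans (by gcongr)
    _ = _ := by field_simp; ring

end Pool.Agent.P.MP_7a6434d8_pr
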