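import Pool.Agent.P.MP_7a6434d8_pr.UBasic
import Pool.Agent.P.MP_7a6434d8_pr.XMain

namespace Pool.Agent.P.MP_7a6434d8_pr

open MeasureTheory ProbabilityTheory Filter Topology
open scoped ENNReal

theorem ucomp_gen {Ω : Type} [TopologicalSpace Ω] [CompactSpace Ω] [SecondCountableTopology Ω]
    [TopologicalSpace.MetrizableSpace Ω] [MeasurableSpace Ω] [BorelSpace Ω]
    (C : ℕ → Type) (hpos : ∀ n, 0 < Nat.card (C n)) (f : ∀ n, C n → Ω) :
    ∃ (P : Measure Ω) (φ : ℕ → ℕ), IsProbabilityMeasure P ∧ StrictMono φ ∧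
      ∀ S : Set Ω, IsClopen S →
        Tendsto (fun i => (Nat.card {c : C (φ i) // f (φ i) c ∈ S} : ℝ) / Nat.card (C (φ i)))
          atTop (𝓝 (P.real S)) := by
  classical
  have hfin : ∀ n, Finite (C n) := fun n => Nat.finite_of_card_ne_zero (hpos n).ne'
  have hne : ∀ n, Nonempty (C n) := fun n => (Nat.card_pos_iff.1 (hpos n)).1
  let : ∀ n, MeasurableSpace (C n) := fun n => ⊤
  have : ∀ n, DiscreteMeasurableSpace (C n) := fun n => ⟨fun _ => trivial⟩
  let : ∀ n, Fintype (C n) := fun n => Fintype.ofFinite _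
  have hmeas : ∀ n, Measurable (f n) := fun n => measurable_from_top
  have hprob : ∀ n, IsProbabilityMeasure (uniformOn (Set.univ : Set (C n))) := fun n =>
    isProbabilityMeasure_uniformOn Set.finite_univ Set.univ_nonempty
  let Q : ℕ → ProbabilityMeasure Ω := fun n =>
    ⟨(uniformOn (Set.univ : Set (C n))).map (f n),
      Measure.isProbabilityMeasure_map (hmeas n).aemeasurable⟩
  obtain ⟨P, φ, hφ, hlim⟩ := CompactSpace.tendsto_subseq Q
  refine ⟨P, φ, P.2, hφ, fun S hS => ?_⟩
  have h1 := ProbabilityMeasure.tendsto_measure_of_isClopen_of_tendsto hlim hS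
  have h2 : Tendsto (fun i => (((Q ∘ φ) i S : NNReal) : ℝ)) atTop (𝓝 ((P S : NNReal) : ℝ)) :=
    NNReal.tendsto_coe.2 h1
  have h3 : ((P S : NNReal) : ℝ) = (P : Measure Ω).real S := rfl
  rw [h3] at h2
  refine h2.congr fun i => ?_
  have h4 : ((Q (φ i) : Measure Ω) S) = (Nat.card {c : C (φ i) // f (φ i) c ∈ S} : ℝ≥0∞)
      / Nat.card (C (φ i)) := by
    change ((uniformOn (Set.univ : Set (C (φ i)))).map (f (φ i))) S = _
    rw [Measure.map_apply (hmeas _) hS.isOpen.measurableSet, uniformOn_univ,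
      Measure.count_apply_finite _ (Set.toFinite _), Nat.card_eq_fintype_card,
      Nat.card_eq_fintype_card, Fintype.card_subtype]
    congr 2
    congr 1
    ext c
    simp
  have h5 : (((Q ∘ φ) i S : NNReal) : ℝ) = ((Q (φ i) : Measure Ω) S).toReal := rfl
  rw [h5, h4, ENNReal.toReal_div]
  simp

theorem exists_code_limit : ∃ (P : Measure (List Bool × List Bool → Bool)) (ν : ℕ → ℕ),
    IsProbabilityMeasure P ∧ StrictMono ν ∧
      ∀ S : Set (List Bool × List Bool → Bool), IsClopen S →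
        Tendsto (fun i => (Nat.card {c : RootedQuad (ν i) // ∃ q : Quad (ν i), Quot.mk _ q = c ∧
          code q ∈ S} : ℝ) / Nat.card (RootedQuad (ν i))) atTop (𝓝 (P.real S)) := by
  obtain ⟨P, φ, hP, hφ, h⟩ := ucomp_gen (Ω := List Bool × List Bool → Bool)
    (fun n => RootedQuad (n + 1)) (fun n => xmain_pos (n + 1) (by omega))
    (fun n => Quot.lift code (fun q q' hq => code_iso q q' hq))
  refine ⟨P, fun i => φ i + 1, hP, fun a b hab => Nat.add_lt_add_right (hφ hab) 1, fun S hS => ?_⟩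
  refine (h S hS).congr fun i => ?_
  have key : ∀ c : RootedQuad (φ i + 1),
      (Quot.lift code (fun q q' hq => code_iso q q' hq) c ∈ S) ↔
        ∃ q : Quad (φ i + 1), Quot.mk _ q = c ∧ code q ∈ S := by
    intro c
    constructor
    · induction c using Quot.ind with
      | mk q => exact fun hq => ⟨q, rfl, hq⟩
    · rintro ⟨q, rfl, hq⟩
      exact hq
  rw [Nat.card_congr (Equiv.subtypeEquivRight key)]

end Pool.Agent.P.MP_7a6434d8_pr
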