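import Pool.Agent.P.MP_7a6434d8_pr.UDeg
import Pool.Agent.P.MP_7a6434d8_pr.XMain

namespace Pool.Agent.P.MP_7a6434d8_pr

open MeasureTheory ProbabilityTheory Filter Topology
open scoped ENNReal

theorem ugoodae_clopen {ι : Type} (F : Set ι) (hF : F.Finite) (S : Set (ι → Bool))
    (hS : ∀ ω ω' : ι → Bool, (∀ i ∈ F, ω i = ω' i) → ω ∈ S → ω' ∈ S) : IsClopen S := by
  have := hF.to_subtype
  let r : (ι → Bool) → (F → Bool) := fun ω i => ω i
  have hr : Continuous r := continuous_pi fun i => continuous_apply _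
  have e : S = r ⁻¹' (r '' S) := by
    ext ω
    constructor
    · intro h
      exact ⟨ω, h, rfl⟩
    · rintro ⟨ω', h, e⟩
      exact hS ω' ω (fun i hi => congrFun e ⟨i, hi⟩) h
  rw [e]
  exact (isClopen_discrete _).preimage hr

theorem ugoodae_le (P : Measure (List Bool × List Bool → Bool)) (ν : ℕ → ℕ)
    (hν : StrictMono ν)
    (h : ∀ S : Set (List Bool × List Bool → Bool), IsClopen S →
        Tendsto (fun i => (Nat.card {c : RootedQuad (ν i) // ∃ q : Quad (ν i), Quot.mk _ q = c ∧
          code q ∈ S} : ℝ) / Nat.card (RootedQuad (ν i))) atTop (𝓝 (P.real S)))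
    (S : Set (List Bool × List Bool → Bool)) (hS : IsClopen S) (η : ℝ) (hη : 0 ≤ η)
    (hev : ∀ᶠ n : ℕ in atTop,
      (Nat.card {c : RootedQuad n // ∃ q : Quad n, Quot.mk _ q = c ∧ code q ∈ S} : ℝ)
        ≤ η * (Nat.card (RootedQuad n) : ℝ)) : P.real S ≤ η := by
  refine le_of_tendsto (h S hS) ?_
  filter_upwards [hν.tendsto_atTop.eventually hev] with i hi
  exact div_le_of_le_mul₀ (Nat.cast_nonneg _) hη hi

theorem ugoodae_null (P : Measure (List Bool × List Bool → Bool)) [IsProbabilityMeasure P]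
    (ν : ℕ → ℕ) (hν : StrictMono ν)
    (h : ∀ S : Set (List Bool × List Bool → Bool), IsClopen S →
        Tendsto (fun i => (Nat.card {c : RootedQuad (ν i) // ∃ q : Quad (ν i), Quot.mk _ q = c ∧
          code q ∈ S} : ℝ) / Nat.card (RootedQuad (ν i))) atTop (𝓝 (P.real S)))
    (F : Set (List Bool × List Bool)) (hF : F.Finite)
    (p : (List Bool × List Bool → Bool) → Prop)
    (hp : ∀ ω ω' : List Bool × List Bool → Bool, (∀ i ∈ F, ω i = ω' i) → p ω → p ω')
    (hev : ∀ᶠ n : ℕ in atTop, ∀ q : Quad n, p (code q)) : ∀ᵐ ω ∂P, p ω := by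
  have hS : IsClopen {ω | ¬ p ω} := by
    refine ugoodae_clopen F hF _ ?_
    intro ω ω' e h1 h2
    exact h1 (hp ω' ω (fun i hi => (e i hi).symm) h2)
  have h0 : P.real {ω | ¬ p ω} ≤ 0 := by
    refine ugoodae_le P ν hν h _ hS 0 le_rfl ?_
    filter_upwards [hev] with n hn
    have : IsEmpty {c : RootedQuad n // ∃ q : Quad n, Quot.mk _ q = c ∧
        ¬ p (code q)} := by
      refine ⟨?_⟩
      rintro ⟨c, q, -, hq⟩
      exact hq (hn q)
    rw [Nat.card_of_isEmpty]
    simp
  rw [ae_iff]
  have h1 : P.real {ω | ¬ p ω} = 0 := le_antisymm h0 measureReal_nonneg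
  exact (measureReal_eq_zero_iff (measure_ne_top _ _)).1 h1

theorem ugoodae_act_cons {D : Type} (α φ : Equiv.Perm D) (r : D) (b : Bool) (w : List Bool) :
    act α φ r (b :: w) = if b then α (act α φ r w) else φ (act α φ r w) := rfl

theorem ugoodae_true {n : ℕ} (q : Quad n) (w w' : List Bool) :
    code q (w, w') = true ↔ act q.α q.φ q.root w = act q.α q.φ q.root w' := by
  simp [code]

theorem ugoodae_false {n : ℕ} (q : Quad n) (w w' : List Bool) :
    code q (w, w') = false ↔ act q.α q.φ q.root w ≠ act q.α q.φ q.root w' := by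
  simp [code]

theorem ugoodae_loc (P : Measure (List Bool × List Bool → Bool)) [IsProbabilityMeasure P]
    (ν : ℕ → ℕ) (hν : StrictMono ν)
    (h : ∀ S : Set (List Bool × List Bool → Bool), IsClopen S →
        Tendsto (fun i => (Nat.card {c : RootedQuad (ν i) // ∃ q : Quad (ν i), Quot.mk _ q = c ∧
          code q ∈ S} : ℝ) / Nat.card (RootedQuad (ν i))) atTop (𝓝 (P.real S)))
    (w : List Bool) : ∀ᵐ ω ∂P, ∃ j, 0 < j ∧ ω (sigw j ++ w, w) = true := by
  rw [ae_iff]
  have h0 : P.real {ω : List Bool × List Bool → Bool |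
      ¬ ∃ j, 0 < j ∧ ω (sigw j ++ w, w) = true} ≤ 0 := by
    refine le_of_forall_pos_le_add fun η hη => ?_
    rw [zero_add]
    obtain ⟨D, hD⟩ := deg_tight w η hη
    have hS : IsClopen {ω : List Bool × List Bool → Bool |
        ∀ j, 0 < j → j ≤ D → ω (sigw j ++ w, w) = false} := by
      refine ugoodae_clopen ((fun j => (sigw j ++ w, w)) '' Set.Iic D)
        ((Set.finite_Iic D).image _) _ ?_
      intro ω ω' e h1 j hj hjD
      rw [← e _ ⟨j, hjD, rfl⟩]
      exact h1 j hj hjD
    refine le_trans (measureReal_mono ?_ (measure_ne_top _ _))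
      (ugoodae_le P ν hν h _ hS η hη.le hD)
    intro ω hω j hj _
    by_contra hne
    exact hω ⟨j, hj, by simpa using hne⟩
  exact (measureReal_eq_zero_iff (measure_ne_top _ _)).1 (le_antisymm h0 measureReal_nonneg)

theorem good_ae (P : Measure (List Bool × List Bool → Bool)) [IsProbabilityMeasure P] (ν : ℕ → ℕ)
    (hν : StrictMono ν)
    (h : ∀ S : Set (List Bool × List Bool → Bool), IsClopen S →
        Tendsto (fun i => (Nat.card {c : RootedQuad (ν i) // ∃ q : Quad (ν i), Quot.mk _ q = c ∧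
          code q ∈ S} : ℝ) / Nat.card (RootedQuad (ν i))) atTop (𝓝 (P.real S))) :
    ∀ᵐ ω ∂P, GoodRel ω := by
  have N := ugoodae_null P ν hν h
  have h1 : ∀ᵐ ω ∂P, ∀ w : List Bool, ω (w, w) = true := by
    refine ae_all_iff.2 fun w => N {(w, w)} (Set.finite_singleton _) _ ?_ ?_
    · intro ω ω' e hω
      rw [← e (w, w) (by simp)]
      exact hω
    · exact Eventually.of_forall fun n q => (ugoodae_true q w w).2 rfl
  have h2 : ∀ᵐ ω ∂P, ∀ w w' : List Bool, ω (w, w') = true → ω (w', w) = true := by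
    refine ae_all_iff.2 fun w => ae_all_iff.2 fun w' =>
      N {(w, w'), (w', w)} (Set.toFinite _) _ ?_ ?_
    · intro ω ω' e hω
      rw [← e (w, w') (by simp), ← e (w', w) (by simp)]
      exact hω
    · refine Eventually.of_forall fun n q => ?_
      rw [ugoodae_true, ugoodae_true]
      exact Eq.symm
  have h3 : ∀ᵐ ω ∂P, ∀ w w' w'' : List Bool,
      ω (w, w') = true → ω (w', w'') = true → ω (w, w'') = true := by
    refine ae_all_iff.2 fun w => ae_all_iff.2 fun w' => ae_all_iff.2 fun w'' =>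
      N {(w, w'), (w', w''), (w, w'')} (Set.toFinite _) _ ?_ ?_
    · intro ω ω' e hω
      rw [← e (w, w') (by simp), ← e (w', w'') (by simp), ← e (w, w'') (by simp)]
      exact hω
    · refine Eventually.of_forall fun n q => ?_
      rw [ugoodae_true, ugoodae_true, ugoodae_true]
      exact Eq.trans
  have h4 : ∀ᵐ ω ∂P, ∀ (b : Bool) (w w' : List Bool), ω (b :: w, b :: w') = ω (w, w') := by
    refine ae_all_iff.2 fun b => ae_all_iff.2 fun w => ae_all_iff.2 fun w' =>
      N {(b :: w, b :: w'), (w, w')} (Set.toFinite _) _ ?_ ?_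
    · intro ω ω' e hω
      rw [← e (b :: w, b :: w') (by simp), ← e (w, w') (by simp)]
      exact hω
    · refine Eventually.of_forall fun n q => ?_
      rw [Bool.eq_iff_iff, ugoodae_true, ugoodae_true, ugoodae_act_cons, ugoodae_act_cons]
      cases b <;> simp
  have h5 : ∀ᵐ ω ∂P, ∀ w : List Bool, ω (true :: true :: w, w) = true := by
    refine ae_all_iff.2 fun w => N {(true :: true :: w, w)} (Set.finite_singleton _) _ ?_ ?_
    · intro ω ω' e hω
      rw [← e (true :: true :: w, w) (by simp)]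
      exact hω
    · refine Eventually.of_forall fun n q => ?_
      rw [ugoodae_true, ugoodae_act_cons, ugoodae_act_cons]
      simp [q.α_α]
  have h6 : ∀ᵐ ω ∂P, ∀ w : List Bool, ω (true :: w, w) = false := by
    refine ae_all_iff.2 fun w => N {(true :: w, w)} (Set.finite_singleton _) _ ?_ ?_
    · intro ω ω' e hω
      rw [← e (true :: w, w) (by simp)]
      exact hω
    · refine Eventually.of_forall fun n q => ?_
      rw [ugoodae_false, ugoodae_act_cons]
      simpa using q.α_ne _
  have h7 : ∀ᵐ ω ∂P, ∀ w : List Bool, ω (false :: false :: false :: false :: w, w) = true := by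
    refine ae_all_iff.2 fun w =>
      N {(false :: false :: false :: false :: w, w)} (Set.finite_singleton _) _ ?_ ?_
    · intro ω ω' e hω
      rw [← e (false :: false :: false :: false :: w, w) (by simp)]
      exact hω
    · refine Eventually.of_forall fun n q => ?_
      rw [ugoodae_true, ugoodae_act_cons, ugoodae_act_cons, ugoodae_act_cons, ugoodae_act_cons]
      have := (q.φ_four (act q.α q.φ q.root w)).1
      simpa only [pow_succ, pow_zero, one_mul, Equiv.Perm.mul_apply, Bool.false_eq_true,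
        if_false] using this
  have h8 : ∀ᵐ ω ∂P, ∀ w : List Bool, ω (false :: false :: w, w) = false := by
    refine ae_all_iff.2 fun w => N {(false :: false :: w, w)} (Set.finite_singleton _) _ ?_ ?_
    · intro ω ω' e hω
      rw [← e (false :: false :: w, w) (by simp)]
      exact hω
    · refine Eventually.of_forall fun n q => ?_
      rw [ugoodae_false, ugoodae_act_cons, ugoodae_act_cons]
      have := (q.φ_four (act q.α q.φ q.root w)).2
      simpa only [pow_succ, pow_zero, one_mul, Equiv.Perm.mul_apply, Bool.false_eq_true,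
        if_false] using this
  have h9 : ∀ᵐ ω ∂P, ∀ k : ℕ, ∃ w : List Bool, w.length ≤ k + 1 ∧
      ∀ w' : List Bool, w'.length ≤ k → ω (w, w') = false := by
    refine ae_all_iff.2 fun k =>
      N ({w : List Bool | w.length ≤ k + 1} ×ˢ {w : List Bool | w.length ≤ k})
        ((List.finite_length_le Bool (k + 1)).prod (List.finite_length_le Bool k)) _ ?_ ?_
    · rintro ω ω' e ⟨w, hw, hω⟩
      refine ⟨w, hw, fun w' hw' => ?_⟩
      rw [← e (w, w') ⟨hw, hw'⟩]
      exact hω w' hw'
    · filter_upwards [eventually_ge_atTop (2 ^ k)] with n hn q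
      exact code_inf k hn q
  have h10 : ∀ᵐ ω ∂P, ∀ w : List Bool, ∃ j, 0 < j ∧ ω (sigw j ++ w, w) = true :=
    ae_all_iff.2 fun w => ugoodae_loc P ν hν h w
  filter_upwards [h1, h2, h3, h4, h5, h6, h7, h8, h9, h10] with ω a1 a2 a3 a4 a5 a6 a7 a8 a9 a10
  exact ⟨a1, a2, a3, a4, a5, a6, a7, a8, a9, a10⟩

end Pool.Agent.P.MP_7a6434d8_pr
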