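import Pool.Agent.P.MP_7a6434d8_pr.UCode
import Pool.Agent.P.MP_7a6434d8_pr.UComp
import Pool.Agent.P.MP_7a6434d8_pr.UGoodAE

namespace Pool.Agent.P.MP_7a6434d8_pr

open MeasureTheory ProbabilityTheory Filter Topology
open scoped ENNReal

/-- the relations on words whose restriction to words of length at most `k` is `V` -/
def uexistS (k : ℕ) (V : Set (List Bool × List Bool)) : Set (List Bool × List Bool → Bool) :=
  {ω | {p : List Bool × List Bool | p.1.length ≤ k ∧ p.2.length ≤ k ∧ ω p = true} = V}

theorem uexist_clopen (k : ℕ) (V : Set (List Bool × List Bool)) : IsClopen (uexistS k V) := by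
  by_cases hV : ∀ p ∈ V, p.1.length ≤ k ∧ p.2.length ≤ k
  · have e : uexistS k V =
        ⋂ p ∈ {p : List Bool × List Bool | p.1.length ≤ k ∧ p.2.length ≤ k},
          (fun ω : List Bool × List Bool → Bool => ω p) ⁻¹' {b | b = true ↔ p ∈ V} := by
      ext ω
      simp only [uexistS, Set.mem_ofPred_eq, Set.mem_iInter, Set.mem_preimage]
      constructor
      · rintro rfl p hp
        exact ⟨fun h => ⟨hp.1, hp.2, h⟩, fun h => h.2.2⟩
      · intro h
        ext p
        exact ⟨fun hp => (h p ⟨hp.1, hp.2.1⟩).1 hp.2.2,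
          fun hp => ⟨(hV p hp).1, (hV p hp).2, (h p (hV p hp)).2 hp⟩⟩
    rw [e]
    exact (words_finite k).isClopen_biInter fun p _ =>
      (isClopen_discrete _).preimage (continuous_apply p)
  · have e : uexistS k V = ∅ := by
      refine Set.eq_empty_of_forall_notMem fun ω h => hV ?_
      have h' : {p : List Bool × List Bool | p.1.length ≤ k ∧ p.2.length ≤ k ∧ ω p = true} = V := h
      rw [← h']
      exact fun p hp => ⟨hp.1, hp.2.1⟩
    rw [e]
    exact isClopen_empty

theorem uexist_view {D : Type} (α φ : Equiv.Perm D) (r : D) (ω : List Bool × List Bool → Bool)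
    (h : ∀ w w', act α φ r w = act α φ r w' ↔ ω (w, w') = true) (k : ℕ)
    (V : Set (List Bool × List Bool)) : view α φ r k = V ↔ ω ∈ uexistS k V := by
  have e : view α φ r k =
      {p : List Bool × List Bool | p.1.length ≤ k ∧ p.2.length ≤ k ∧ ω p = true} := by
    ext p
    simp only [view, Set.mem_ofPred_eq, h]
  rw [e]
  exact Iff.rfl

theorem exists_localLimit : ∃ μ : Measure InfQuad, IsLocalLimit μ := by
  classical
  obtain ⟨P, ν, hP, hν, hlim⟩ := exists_code_limit
  have hg := good_ae P ν hν hlim
  set N := toMeasurable P {ω | ¬ GoodRel ω} with hN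
  have hN0 : P N = 0 := by
    rw [hN, measure_toMeasurable]
    exact ae_iff.1 hg
  have hNm : MeasurableSet N := measurableSet_toMeasurable _ _
  have hgood : ∀ ω, ω ∉ N → GoodRel ω := fun ω h =>
    by_contra fun h' => h (subset_toMeasurable _ _ h')
  obtain ⟨ω0, h0⟩ := hg.exists
  obtain ⟨M0, -⟩ := exists_infQuad ω0 h0
  have ex : ∀ ω, ∃ M : InfQuad, (ω ∈ N → M = M0) ∧ (ω ∉ N →
      ∀ w w', act M.α M.φ M.root w = act M.α M.φ M.root w' ↔ ω (w, w') = true) := by
    intro ω
    by_cases h : ω ∈ N
    · exact ⟨M0, fun _ => rfl, fun h' => absurd h h'⟩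
    · obtain ⟨M, hM⟩ := exists_infQuad ω (hgood ω h)
      exact ⟨M, fun h' => absurd h' h, fun _ => hM⟩
  choose F F1 F2 using ex
  have hS : ∀ k V, MeasurableSet (uexistS k V) := fun k V => (uexist_clopen k V).isOpen.measurableSet
  have hF : Measurable F := by
    refine measurable_generateFrom ?_
    rintro _ ⟨k, V, rfl⟩
    have e : F ⁻¹' {M : InfQuad | view M.α M.φ M.root k = V} =
        (uexistS k V \ N) ∪ (N ∩ {_ω | view M0.α M0.φ M0.root k = V}) := by
      ext ω
      by_cases h : ω ∈ N
      · simp only [Set.mem_preimage, Set.mem_ofPred_eq, F1 ω h, Set.mem_union, Set.mem_sdiff, h,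
          not_true, and_false, false_or, Set.mem_inter_iff, true_and]
      · simp only [Set.mem_preimage, Set.mem_ofPred_eq, uexist_view _ _ _ ω (F2 ω h),
          Set.mem_union, Set.mem_sdiff, h, not_false_iff, and_true, Set.mem_inter_iff, false_and,
          or_false]
    rw [e]
    exact ((hS k V).diff hNm).union (hNm.inter (MeasurableSet.const _))
  refine ⟨P.map F, Measure.isProbabilityMeasure_map hF.aemeasurable, ν, hν, fun k V => ?_⟩
  have e1 : (P.map F).real {M | view M.α M.φ M.root k = V} = P.real (uexistS k V) := by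
    rw [Measure.real, Measure.real,
      Measure.map_apply hF (MeasurableSpace.measurableSet_generateFrom ⟨k, V, rfl⟩)]
    refine congrArg _ (measure_congr ?_)
    filter_upwards [measure_eq_zero_iff_ae_notMem.1 hN0] with ω h
    exact propext (uexist_view _ _ _ ω (F2 ω h) k V)
  have e2 : ∀ (n : ℕ) (q : Quad n), view q.α q.φ q.root k = V ↔ code q ∈ uexistS k V :=
    fun n q => uexist_view _ _ _ _ (fun w w' => by simp only [code, decide_eq_true_eq]) k V
  simp only [e1, e2]
  exact hlim _ (uexist_clopen k V)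

end Pool.Agent.P.MP_7a6434d8_pr
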