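import Pool.Agent.P.MP_7a6434d8_pr.Main

/-!
Simple random walk covers a uniform rooted planar quadrangulation with `n` faces in expected time
at most `n ^ (1 + ε)`, from every starting vertex, outside a set of maps of proportion `n ^ (-K)`.
-/

namespace Pool.Agent.P.MP_7a6434d8_pr.OldCoverTime

open Pool.Agent.P.MP_7a6434d8_pr

theorem result (ε : ℝ) (hε : 0 < ε) (K : ℕ) : ∃ n0 : ℕ, ∀ n : ℕ, n0 ≤ n →
    0 < Nat.card (RootedQuad n) ∧
    (Nat.card {c : RootedQuad n // ∃ q : Quad n, Quot.mk _ q = c ∧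
        ∃ x : q.Vertex, ENNReal.ofReal ((n : ℝ) ^ (1 + ε)) < q.coverTime x} : ℝ)
      ≤ (Nat.card (RootedQuad n) : ℝ) / (n : ℝ) ^ K := by
  obtain ⟨n0, h⟩ := main ε hε K
  obtain ⟨c, hc, hcnt⟩ := cnt_lower
  refine ⟨max n0 1, fun n hn => ⟨?_, h n (le_of_max_le_left hn)⟩⟩
  rw [card_rooted n (le_of_max_le_right hn)]
  have h1 := hcnt (n - 1)
  have h2 : (0 : ℝ) < c * 12 ^ (n - 1) / (((n - 1 : ℕ) : ℝ) + 1) ^ 3 := by positivity
  exact_mod_cast h2.trans_le h1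

end Pool.Agent.P.MP_7a6434d8_pr.OldCoverTime
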