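import Pool.Agent.P.MP_7a6434d8_pr.XMain

/-!
Exit time of simple random walk from balls around the root vertex of a uniform rooted planar
quadrangulation with `n` faces. Outside a set of maps of proportion `n ^ (-δ)`, every ball of radius
at least `n ^ (1/4 - δ)` that is not the whole map (this includes all radii up to
`n ^ (1/4) / log n`) is left after more than `n ^ (1 - ε)` and at most `n ^ (1 + ε)` steps, up to
probability `n ^ (-δ)` on each side.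
-/

namespace Pool.Agent.P.MP_7a6434d8_pr.OldExitTime

open Pool.Agent.P.MP_7a6434d8_pr

theorem result (ε : ℝ) (hε : 0 < ε) : ∃ δ : ℝ, 0 < δ ∧ ∃ n0 : ℕ, ∀ n : ℕ, n0 ≤ n →
    0 < Nat.card (RootedQuad n) ∧
    (Nat.card {c : RootedQuad n // ∃ q : Quad n, Quot.mk _ q = c ∧
        ¬ ((∃ v, (n : ℝ) ^ (1 / 4 : ℝ) / Real.log n < (q.graph.dist (q.tail q.root) v : ℝ)) ∧
          ∀ (r : ℝ) (v : q.Vertex), (n : ℝ) ^ (1 / 4 - δ) ≤ r →
            r < (q.graph.dist (q.tail q.root) v : ℝ) →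
            q.escape (q.tail q.root) ⌊(n : ℝ) ^ (1 - ε)⌋₊ r ≤ ENNReal.ofReal ((n : ℝ) ^ (-δ)) ∧
            ENNReal.ofReal (1 - (n : ℝ) ^ (-δ))
              ≤ q.escape (q.tail q.root) ⌊(n : ℝ) ^ (1 + ε)⌋₊ r)} : ℝ)
      ≤ (Nat.card (RootedQuad n) : ℝ) / (n : ℝ) ^ δ := by
  obtain ⟨δ, hδ, n0, h⟩ := exit_main ε hε
  refine ⟨δ, hδ, n0, fun n hn => ⟨(h n hn).1, le_trans ?_ (h n hn).2⟩⟩
  have : Finite (RootedQuad n) := Nat.finite_of_card_ne_zero (h n hn).1.ne'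
  refine Nat.cast_le.2 (Nat.card_le_card_of_injective
    (Subtype.map id ?_) (Subtype.map_injective _ Function.injective_id))
  rintro c ⟨q, hq, hb⟩
  refine ⟨q, hq, fun ⟨h1, h2, h3⟩ => hb ⟨h2, fun r v hr hv => ⟨le_trans ?_ h1, h3 r v hv⟩⟩⟩
  apply MeasureTheory.OuterMeasure.mono
  rintro l ⟨y, hy, hy'⟩
  exact ⟨y, hy, hr.trans_lt hy'⟩

end Pool.Agent.P.MP_7a6434d8_pr.OldExitTime
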