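import Pool.Agent.P.MP_7a6434d8_pr.YExit

/-!
Mixing time of the lazy random walk on a uniform rooted planar quadrangulation with `n` faces.
Outside a set of maps of proportion `n ^ (-K)`, the walk is uniformly mixed at all times at least
`n ^ (1 + ε)`, and at all times at most `n ^ (1 - ε)` it is, from some starting vertex, at total
variation distance at least `1 - ε` from the stationary law.
-/

namespace Pool.Agent.P.MP_7a6434d8_pr.OldMixing

open Pool.Agent.P.MP_7a6434d8_pr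

theorem result (ε : ℝ) (hε : 0 < ε) (K : ℕ) : ∃ n0 : ℕ, ∀ n : ℕ, n0 ≤ n →
    0 < Nat.card (RootedQuad n) ∧
    (Nat.card {c : RootedQuad n // ∃ q : Quad n, Quot.mk _ q = c ∧
        ¬ ((∀ T : ℕ, (n : ℝ) ^ (1 + ε) ≤ T → ∀ x y : q.Vertex,
            |((q.lazy T x) y).toReal - q.stat y| ≤ ε * q.stat y) ∧
          ∀ T : ℕ, (T : ℝ) ≤ (n : ℝ) ^ (1 - ε) → ∃ (x : q.Vertex) (S : Finset q.Vertex),
            1 - ε ≤ ∑ y ∈ S, (((q.lazy T x) y).toReal - q.stat y))} : ℝ)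
      ≤ (Nat.card (RootedQuad n) : ℝ) / (n : ℝ) ^ K := by
  obtain ⟨e0, he0⟩ := exists_nat_ge (60 / ε)
  have h60 : 60 ≤ e0 * ε := (div_le_iff₀ hε).1 he0
  obtain ⟨G1, hG1⟩ := Filter.eventually_atTop.1
    ((xgood_ev (16 / ε ^ 2) (Real.exp (-1)) (2 * (4 * e0 + 240)) 0 (Real.exp_pos _).le
      (Real.exp_lt_one_iff.2 (by norm_num))).and ((Filter.eventually_ge_atTop 4).and
      (tendsto_natCast_atTop_atTop.eventually_ge_atTop (25 / ε))))
  obtain ⟨n0, hn0⟩ := Filter.eventually_atTop.1 (ymain_setup e0 K G1)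
  refine ⟨n0, fun n hn => ?_⟩
  obtain ⟨hn1, G, hG, g1, g2, hbad⟩ := hn0 n hn
  obtain ⟨b1, b2, b3⟩ := hG1 G hG
  have hpos := xmain_pos n hn1
  have : Finite (RootedQuad n) := Nat.finite_of_card_ne_zero hpos.ne'
  have hn' : (0 : ℝ) < n := by exact_mod_cast hn1
  have hx : (4 : ℝ) ≤ G := by exact_mod_cast b2
  have hx1 : (1 : ℝ) ≤ G := by linarith
  have p1 : (G : ℝ) ^ 240 ≤ (n : ℝ) ^ ε :=
    ymain_pow hn1 (by omega) g1 (by push_cast; nlinarith)
  have g2' : (n : ℝ) ≤ (G : ℝ) ^ (4 * e0 + 240) := by exact_mod_cast g2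
  refine ⟨hpos, le_trans (ymain_mono (B := fun q => ¬ (yquad G e0 q ∧ ResLe q ((G : ℝ) ^ 3)))
    fun q hq hg => hq ⟨fun T hT x y => ?_, fun T hT => ?_⟩)
    (hbad.trans (le_of_eq (one_div_mul_eq_div _ _)))⟩
  · refine ymix_upper (by omega) hn1 hg.2 T (le_trans ?_ hT) ε hε ?_ x y
    · rw [Real.rpow_add hn', Real.rpow_one]
      calc 4 * n * (G : ℝ) ^ 4 ≤ G * n * (G : ℝ) ^ 4 := by gcongr
        _ = n * (G : ℝ) ^ 5 := by ring
        _ ≤ n * (G : ℝ) ^ 240 := by gcongr; norm_num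
        _ ≤ _ := by gcongr
    · rw [pow_zero, div_one, div_mul_eq_mul_div, div_mul_eq_mul_div,
        div_le_one (by positivity)] at b1
      refine le_trans ?_ b1
      rw [mul_comm 2, pow_mul]
      gcongr
  · have hT' : T ≤ G ^ (4 * e0 + 18) := by
      have h1 : (T : ℝ) * (G : ℝ) ^ 240 ≤ (G : ℝ) ^ (4 * e0 + 18) * (G : ℝ) ^ 240 := by
        calc (T : ℝ) * (G : ℝ) ^ 240 ≤ (n : ℝ) ^ (1 - ε) * (n : ℝ) ^ ε := by gcongr
          _ = n := by rw [← Real.rpow_add hn']; simp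
          _ ≤ (G : ℝ) ^ (4 * e0 + 240) := g2'
          _ ≤ (G : ℝ) ^ (4 * e0 + 18 + 240) := pow_le_pow_right₀ hx1 (by omega)
          _ = _ := pow_add _ _ _
      exact_mod_cast le_of_mul_le_mul_right h1 (by positivity)
    obtain ⟨x, S, h⟩ := ymix_lower (by omega) hn1 g1 hg.1 T hT'
    refine ⟨x, S, le_trans ?_ h⟩
    have : 25 / (G : ℝ) ≤ ε := by
      rw [div_le_iff₀ hε] at b3
      rw [div_le_iff₀ (by linarith)]
      linarith
    linarith

end Pool.Agent.P.MP_7a6434d8_pr.OldMixing
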