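import Pool.Agent.P.MP_7a6434d8_pr.NumB

namespace Pool.Agent.P.MP_7a6434d8_pr

open Mp Finset
open scoped ENNReal

theorem Super.add {c : ℕ} {Φ Ψ : ℕ → ℕ → ℕ → ℝ} (h1 : Super c Φ) (h2 : Super c Ψ) :
    Super c (fun L u v => Φ L u v + Ψ L u v) := by
  intro L u v x hc hu hx hv
  have a1 := h1 L u v x hc hu hx hv
  have a2 := h2 L u v x hc hu hx hv
  simp only [mul_add, sum_add_distrib]
  linarith

theorem Super.smul {c : ℕ} {Φ : ℕ → ℕ → ℕ → ℝ} (h1 : Super c Φ) {a : ℝ} (ha : 0 ≤ a) :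
    Super c (fun L u v => a * Φ L u v) := by
  intro L u v x hc hu hx hv
  have a1 := mul_le_mul_of_nonneg_left (h1 L u v x hc hu hx hv) ha
  simp only [mul_add, mul_sum] at a1
  simp only [mul_left_comm _ a]
  refine le_trans (le_of_eq ?_) a1
  ring

theorem pairsa_drop (c : ℕ) (A : ℕ → ℝ) (hA : ∀ L, 0 ≤ A L)
    (h : ∀ L k, k < 2 * L → A (L + 1) * Z (L + 1) / 12
      + ∑ j ∈ range ((2 * L - k) / 2), (A (L - 1 - j) + A j) * (Z (L - 1 - j) * Z j)
      + ∑ j ∈ range ((k + 1) / 2), (A (L - 1 - j) + A j) * (Z (L - 1 - j) * Z j) ≤ A L * Z L) :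
    Super c (fun L _ _ => A L * Z L) := by
  intro L u v x _ _ hx hv
  have key : ∀ j, Z j * (A (L - 1 - j) * Z (L - 1 - j))
      ≤ (A (L - 1 - j) + A j) * (Z (L - 1 - j) * Z j) := by
    intro j
    have := mul_nonneg (hA j) (mul_nonneg (Z_pos (L - 1 - j)).le (Z_pos j).le)
    linarith
  refine le_trans ?_ (h L x (by omega))
  refine add_le_add (add_le_add le_rfl (sum_le_sum fun j _ => key j)) ?_
  refine le_trans (sum_le_sum fun j _ => key j) ?_
  refine sum_le_sum_of_subset_of_nonneg (filter_subset _ _) fun j _ _ => ?_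
  exact mul_nonneg (add_nonneg (hA _) (hA _)) (mul_nonneg (Z_pos _).le (Z_pos _).le)

theorem super_Av (c : ℕ) : Super c (fun L _ _ => Av L * Z L) :=
  pairsa_drop c Av (fun L => by unfold Av; positivity) fun L k hk => (Av_at L k hk).ge

theorem super_Bv (c : ℕ) : Super c (fun L _ _ => Bv L * Z L) :=
  pairsa_drop c Bv (fun L => by unfold Bv; positivity) fun L k hk => by
    have := Bv_at L k hk
    have := Z_pos L
    linarith

theorem Xp_nonneg (a L u v : ℕ) : 0 ≤ Xp a L u v := by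
  unfold Xp
  refine sum_nonneg fun p _ => sum_nonneg fun q _ => ?_
  split_ifs
  · exact mul_nonneg (Z_pos _).le (Z_pos _).le
  · exact le_rfl

/-- the contribution of the pair `(p, q)` when `j` is swallowed -/
noncomputable def pairsaT (L j p q m : ℕ) : ℝ :=
  if (q - p) % 2 = 0 then
    (if j < m then Z ((q - p) / 2 - 1 - j) * Z j else 0) * Z (L - (q - p) / 2) else 0

theorem pairsaT_nonneg (L j p q m : ℕ) : 0 ≤ pairsaT L j p q m := by
  unfold pairsaT
  split_ifs
  · exact mul_nonneg (mul_nonneg (Z_pos _).le (Z_pos _).le) (Z_pos _).le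
  · simp
  · exact le_rfl

theorem pairsa_shift (a L j u v u' v' : ℕ) (m : ℕ → ℕ → ℕ) (hj : j + 1 ≤ L) (hu : u' ≤ u)
    (hv : v ≤ v' + (2 * j + 2)) (huv : u' ≤ v')
    (hm : ∀ p q, p ≤ u' → v' ≤ q → j < m p (q + (2 * j + 2))) :
    Z j * Xp a (L - 1 - j) u' v'
      ≤ ∑ p ∈ Icc (a - a / 3) u, ∑ q ∈ Icc v (2 * L + a / 3), pairsaT L j p q (m p q) := by
  unfold Xp
  rw [mul_sum]
  refine le_trans (sum_le_sum (g := fun p => ∑ q ∈ Icc v (2 * L + a / 3),
    pairsaT L j p q (m p q)) fun p hp => ?_) ?_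
  · rw [mem_Icc] at hp
    rw [mul_sum]
    have e1 : ∑ q ∈ Icc v' (2 * (L - 1 - j) + a / 3),
        Z j * (if (q - p) % 2 = 0 then Z ((q - p) / 2) * Z (L - 1 - j - (q - p) / 2) else 0)
        = ∑ q ∈ (Icc v' (2 * (L - 1 - j) + a / 3)).map (addRightEmbedding (2 * j + 2)),
          pairsaT L j p q (m p q) := by
      rw [sum_map]
      refine sum_congr rfl fun q hq => ?_
      rw [mem_Icc] at hq
      simp only [addRightEmbedding_apply]
      unfold pairsaT
      have h1 : (q + (2 * j + 2) - p) % 2 = (q - p) % 2 := by omega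
      have h2 : (q + (2 * j + 2) - p) / 2 - 1 - j = (q - p) / 2 := by omega
      have h3 : L - (q + (2 * j + 2) - p) / 2 = L - 1 - j - (q - p) / 2 := by omega
      rw [h1, h2, h3, if_pos (hm p q hp.2 hq.1)]
      split_ifs
      · ring
      · ring
    rw [e1, map_add_right_Icc]
    refine sum_le_sum_of_subset_of_nonneg (Icc_subset_Icc hv (by omega)) fun q _ _ => ?_
    exact pairsaT_nonneg _ _ _ _ _
  · refine sum_le_sum_of_subset_of_nonneg (Icc_subset_Icc le_rfl hu) fun p _ _ => ?_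
    exact sum_nonneg fun q _ => pairsaT_nonneg _ _ _ _ _

theorem pairsa_sum (s : Finset ℕ) (L p q m : ℕ) :
    ∑ j ∈ s, pairsaT L j p q m ≤ if (q - p) % 2 = 0 then
      (∑ j ∈ range m, Z ((q - p) / 2 - 1 - j) * Z j) * Z (L - (q - p) / 2) else 0 := by
  unfold pairsaT
  split_ifs
  · rw [← sum_mul]
    refine mul_le_mul_of_nonneg_right ?_ (Z_pos _).le
    rw [← sum_filter]
    refine sum_le_sum_of_subset_of_nonneg (fun j hj => ?_) fun j _ _ => ?_
    · exact mem_range.2 (mem_filter.1 hj).2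
    · exact mul_nonneg (Z_pos _).le (Z_pos _).le
  · simp

theorem pairsa_face (a L u v : ℕ) (huv : u ≤ v) :
    Xp a (L + 1) u (v + 2) = ∑ p ∈ Icc (a - a / 3) u, ∑ q ∈ Icc v (2 * L + a / 3),
      if (q - p) % 2 = 0 then Z ((q - p) / 2 + 1) * Z (L - (q - p) / 2) else 0 := by
  unfold Xp
  refine sum_congr rfl fun p hp => ?_
  rw [mem_Icc] at hp
  have e : 2 * (L + 1) + a / 3 = 2 * L + a / 3 + 2 := by ring
  rw [e, ← map_add_right_Icc, sum_map]
  refine sum_congr rfl fun q hq => ?_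
  rw [mem_Icc] at hq
  simp only [addRightEmbedding_apply]
  have h1 : (q + 2 - p) % 2 = (q - p) % 2 := by omega
  have h2 : (q + 2 - p) / 2 = (q - p) / 2 + 1 := by omega
  have h3 : L + 1 - ((q - p) / 2 + 1) = L - (q - p) / 2 := by omega
  rw [h1, h2, h3]

theorem super_Xp (a c : ℕ) : Super c (Xp a) := by
  intro L u v x _ hu hx hv
  have hR : ∑ j ∈ range ((2 * L - x) / 2), Z j * Xp a (L - 1 - j) u (max x (v - 2 * j - 2))
      ≤ ∑ p ∈ Icc (a - a / 3) u, ∑ q ∈ Icc v (2 * L + a / 3), if (q - p) % 2 = 0 then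
        (∑ j ∈ range ((q - x) / 2), Z ((q - p) / 2 - 1 - j) * Z j) * Z (L - (q - p) / 2)
        else 0 := by
    refine le_trans (sum_le_sum fun j hj => pairsa_shift a L j u v u (max x (v - 2 * j - 2))
      (fun _ q => (q - x) / 2) (by have := mem_range.1 hj; omega) le_rfl (by omega) (by omega)
      (fun p q _ hq => by omega)) ?_
    rw [sum_comm]
    refine sum_le_sum fun p _ => ?_
    rw [sum_comm]
    exact sum_le_sum fun q _ => pairsa_sum _ L p q _
  have hL : ∑ j ∈ (range ((x + 1) / 2)).filter (fun j => c + 2 * j + 1 ≤ x),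
        Z j * Xp a (L - 1 - j) (min u (x - 2 * j - 1)) (v - 2 * j - 2)
      ≤ ∑ p ∈ Icc (a - a / 3) u, ∑ q ∈ Icc v (2 * L + a / 3), if (q - p) % 2 = 0 then
        (∑ j ∈ range ((x - p + 1) / 2), Z ((q - p) / 2 - 1 - j) * Z j) * Z (L - (q - p) / 2)
        else 0 := by
    refine le_trans (sum_le_sum fun j hj => pairsa_shift a L j u v (min u (x - 2 * j - 1))
      (v - 2 * j - 2) (fun p _ => (x - p + 1) / 2)
      (by have := mem_range.1 (mem_filter.1 hj).1; omega) (by omega) (by omega) (by omega)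
      (fun p q hp _ => by have := (mem_filter.1 hj).2; omega)) ?_
    rw [sum_comm]
    refine sum_le_sum fun p _ => ?_
    rw [sum_comm]
    exact sum_le_sum fun q _ => pairsa_sum _ L p q _
  refine le_trans (add_le_add (add_le_add le_rfl hR) hL) ?_
  rw [pairsa_face a L u v (by omega), sum_div, ← sum_add_distrib, ← sum_add_distrib]
  unfold Xp
  refine sum_le_sum fun p hp => ?_
  rw [sum_div, ← sum_add_distrib, ← sum_add_distrib]
  refine sum_le_sum fun q hq => ?_
  rw [mem_Icc] at hp hq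
  split_ifs with h
  · have ht := tutte_at ((q - p) / 2) (x - p) (by omega)
    have e : 2 * ((q - p) / 2) - (x - p) = q - x := by omega
    rw [e] at ht
    rw [show Z ((q - p) / 2) * Z (L - (q - p) / 2) = (Z ((q - p) / 2 + 1) / 12
      + ∑ j ∈ range ((q - x) / 2), Z ((q - p) / 2 - 1 - j) * Z j
      + ∑ j ∈ range ((x - p + 1) / 2), Z ((q - p) / 2 - 1 - j) * Z j) * Z (L - (q - p) / 2)
      from by rw [← ht]]
    exact le_of_eq (by ring)
  · simp

end Pool.Agent.P.MP_7a6434d8_pr
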