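import Pool.Agent.P.MP_7a6434d8_pr.RotB

namespace Pool.Agent.P.MP_7a6434d8_pr

open Mp Finset
open scoped ENNReal

theorem peela_bv_mod (t : Mp) (ht : ok t) (q : ℕ) (hq : q ≤ 2 * per t) :
    bv t (q % (2 * per t)) = bv t q := by
  rcases hq.lt_or_eq with h | h
  · rw [Nat.mod_eq_of_lt h]
  · rw [h, Nat.mod_self, bv_end t ht]

theorem peela_bv_face (r : Mp) (i : ℕ) (hi : i ≠ 0) : bv (face r) i = bv r (i + 2) :=
  if_neg hi

theorem peela_bv_face_zero (r : Mp) : bv (face r) 0 = bv r 0 :=
  if_pos rfl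

/-- vertex-level description of gluing a face at position `k` -/
theorem peela_data (k L : ℕ) (t' : Mp) (ht' : ok t') (hL : per t' = L + 1) (hk : k < 2 * L) :
    ∃ E : V (faceAt k t') ≃ V t',
      (∀ f : V t' → ℝ, energy (faceAt k t') (fun x => f (E x))
        = energy t' f + (f (bv t' k) - f (bv t' (k + 3))) ^ 2) ∧
      (∀ p, p ≤ k → E (bv (faceAt k t') p) = bv t' p) ∧
      ∀ p, k < p → p ≤ 2 * L → E (bv (faceAt k t') p) = bv t' (p + 2) := by
  have hr : ok (rotN k t') := rotN_ok k t' ht'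
  have hpr : per (rotN k t') = L + 1 := by rw [rotN_per k t' ht', hL]
  have hs : ok (face (rotN k t')) := ⟨hr, by omega⟩
  have hps : per (face (rotN k t')) = L := by simp only [per, hpr]; omega
  obtain ⟨e1, he1, hb1⟩ := rotN_shift k t' ht'
  obtain ⟨e2, he2, hb2⟩ := rotN_shift (2 * (per t' - 1) - k) (face (rotN k t')) hs
  rw [hps] at hb2
  have hL' : per t' - 1 = L := by omega
  have hb1' : ∀ p q, p ≤ 2 * L + 2 → q ≤ 2 * L + 2 → (p + k = q ∨ p + k = q + (2 * L + 2)) →
      e1 (bv (rotN k t') p) = bv t' q := by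
    intro p q hp hq h
    rw [hb1 p (by omega), ← peela_bv_mod t' ht' q (by omega), hL]
    congr 1
    rcases h with h | h
    · rw [h]
    · rw [h, show 2 * L + 2 = 2 * (L + 1) by ring, Nat.add_mod_right]
  have hb2' : ∀ p i, p ≤ 2 * L → i < 2 * L → (p + (2 * L - k) = i ∨ p + (2 * L - k) = i + 2 * L) →
      e2 (bv (faceAt k t') p) = bv (face (rotN k t')) i := by
    intro p i hp hi h
    refine (hb2 p hp).trans ?_
    congr 1
    rw [hL']
    rcases h with h | h
    · rw [h, Nat.mod_eq_of_lt hi]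
    · rw [h, Nat.add_mod_right, Nat.mod_eq_of_lt hi]
  refine ⟨e2.trans e1, fun f => ?_, fun p hp => ?_, fun p hp hp' => ?_⟩
  · refine (he2 (fun x => f (e1 x))).trans ?_
    change energy (rotN k t') (fun x => f (e1 x))
      + (f (e1 (bv (rotN k t') 0)) - f (e1 (bv (rotN k t') 3))) ^ 2 = _
    rw [he1 f, hb1' 0 k (by omega) (by omega) (by omega),
      hb1' 3 (k + 3) (by omega) (by omega) (by omega)]
  · change e1 (e2 (bv (faceAt k t') p)) = _
    rcases hp.lt_or_eq with h | h
    · rw [hb2' p (p + (2 * L - k)) (by omega) (by omega) (Or.inl rfl),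
        peela_bv_face _ _ (by omega)]
      exact hb1' _ _ (by omega) (by omega) (by omega)
    · rw [hb2' p 0 (by omega) (by omega) (by omega), peela_bv_face_zero]
      exact hb1' _ _ (by omega) (by omega) (by omega)
  · change e1 (e2 (bv (faceAt k t') p)) = _
    by_cases h : p - k < 2 * L
    · rw [hb2' p (p - k) hp' h (by omega), peela_bv_face _ _ (by omega)]
      exact hb1' _ _ (by omega) (by omega) (by omega)
    · have hk0 : k = 0 := by omega
      have hp2 : p = 2 * L := by omega
      have h0 : e2 (bv (faceAt k t') p) = bv (face (rotN k t')) 0 := by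
        refine (hb2 p hp').trans ?_
        congr 1
        rw [hL', hk0, hp2, Nat.sub_zero, Nat.add_mod_right, Nat.mod_self]
      rw [h0, peela_bv_face_zero, hb1' 0 0 (by omega) (by omega) (by omega), hp2,
        show 2 * L + 2 = 2 * per t' by omega, bv_end t' ht']

theorem isFace_faceAt (k : ℕ) (t' : Mp) (ht' : ok t') (hk : k + 2 < 2 * per t') :
    IsFace k (faceAt k t') t' := by
  obtain ⟨L, hL⟩ : ∃ L, per t' = L + 1 := ⟨per t' - 1, by omega⟩
  have hkL : k < 2 * L := by omega
  have hr : ok (rotN k t') := rotN_ok k t' ht'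
  have hpr : per (rotN k t') = L + 1 := by rw [rotN_per k t' ht', hL]
  have hs : ok (face (rotN k t')) := ⟨hr, by omega⟩
  have hps : per (face (rotN k t')) = L := by simp only [per, hpr]; omega
  have hp : per (faceAt k t') = L := by rw [faceAt, rotN_per _ _ hs, hps]
  obtain ⟨E, hE, hlo, hhi⟩ := peela_data k L t' ht' hL hkL
  have hE' : ∀ f : V (faceAt k t') → ℝ, energy (faceAt k t') f = energy t' (fun y => f (E.symm y))
      + (f (E.symm (bv t' k)) - f (E.symm (bv t' (k + 3)))) ^ 2 := by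
    intro f
    have := hE (fun y => f (E.symm y))
    simpa only [Equiv.symm_apply_apply] using this
  refine ⟨rotN_ok _ _ hs, ht', by omega, by omega, ?_, ?_, fun h e => ⟨?_, ?_⟩, ?_⟩
  · rw [faceAt, rotN_size _ _ hs]
    simp only [size, rotN_size k t' ht']
  · rw [faceAt, rotN_edges _ _ hs]
    simp only [edges, rotN_edges k t' ht']
  · rintro ⟨f, hf, he⟩
    refine ⟨fun p => f (E.symm (bv t' p)), ⟨fun y => f (E.symm y), fun p _ => rfl, ?_⟩,
      fun p hp' => ?_, fun p h1 h2 => ?_⟩
    · rw [hE'] at he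
      linarith
    · beta_reduce
      rw [hf p (by omega), ← hlo p hp', Equiv.symm_apply_apply]
    · beta_reduce
      rw [hf p h2, ← hhi p h1 (by omega), Equiv.symm_apply_apply]
  · rintro ⟨h', ⟨f, hf, he⟩, h1, h2⟩
    refine ⟨fun x => f (E x), fun p hp' => ?_, ?_⟩
    · beta_reduce
      rcases le_or_gt p k with h3 | h3
      · rw [h1 p h3, hf p (by omega), hlo p h3]
      · rw [h2 p h3 hp', hf (p + 2) (by omega), hhi p h3 (by omega)]
    · rw [hE f, ← hf k (by omega), ← hf (k + 3) (by omega)]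
      linarith
  · rintro T ⟨f, v, h1, h2, h3⟩
    refine ⟨fun y => f (E.symm y), E v, ?_, ?_, ?_⟩
    · rw [hE'] at h1
      linarith [sq_nonneg (f (E.symm (bv t' k)) - f (E.symm (bv t' (k + 3))))]
    · beta_reduce
      rw [← hlo 0 (Nat.zero_le k), Equiv.symm_apply_apply]
      exact h2
    · beta_reduce
      rw [Equiv.symm_apply_apply]
      exact h3

end Pool.Agent.P.MP_7a6434d8_pr
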