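import Pool.Agent.P.MP_7a6434d8_pr.Defs3
import Pool.Agent.P.MP_7a6434d8_pr.LinkDefs
import Pool.Agent.P.MP_7a6434d8_pr.XGraphB
import Pool.Agent.P.MP_7a6434d8_pr.DartC

namespace Pool.Agent.P.MP_7a6434d8_pr

open Mp Finset
open scoped ENNReal

/-- the dart and vertex bijections attached to a representation -/
theorem zlink0_vert {n : ℕ} (q : Quad n) (t : Mp) (h : Rep q t) :
    ∃ (θ : Dt t ≃ Fin (4 * n)) (j : q.Vertex ≃ V t), (∀ d, j (q.tail (θ d)) = org t d) ∧
      (∀ d, j (q.head (θ d)) = org t (al t d)) ∧ j (q.tail q.root) = bv t 0 := by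
  obtain ⟨ht, hper, -, θ0, hE, hsurj, hr⟩ := h
  let θ : Dt t ≃ Fin (4 * n) := Equiv.ofBijective θ0 ⟨hE.inj, hsurj⟩
  have hθ : ∀ d, θ d = θ0 d := fun _ => rfl
  have hσ : ∀ d, (q.φ * q.α) (θ d) = θ (ph t (al t d)) := fun d => by
    rw [hθ, hθ, hE.map_ph, hE.map_al, Equiv.Perm.mul_apply]
  have horg : ∀ (m : ℕ) (d : Dt t), org t (θ.symm (((q.φ * q.α) ^ m) (θ d))) = org t d := by
    intro m
    induction m with
    | zero => intro d; simp
    | succ m ih =>
      intro d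
      rw [pow_succ, Equiv.Perm.mul_apply, hσ, ih, org_ph t ht, al_al]
  let g : q.Vertex → V t := Quotient.lift (fun x => org t (θ.symm x)) (by
    intro x y hxy
    obtain ⟨x, rfl⟩ := θ.surjective x
    obtain ⟨i, -, hi⟩ := Equiv.Perm.SameCycle.exists_pow_eq' hxy
    rw [← hi, horg, Equiv.symm_apply_apply])
  have hg0 : ∀ d, g (q.tail (θ d)) = org t d := fun d => by
    change org t (θ.symm (θ d)) = org t d
    rw [Equiv.symm_apply_apply]
  have hg : Function.Bijective g := by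
    constructor
    · intro x y hxy
      obtain ⟨x, rfl⟩ := Quotient.exists_rep x
      obtain ⟨y, rfl⟩ := Quotient.exists_rep y
      obtain ⟨x, rfl⟩ := θ.surjective x
      obtain ⟨y, rfl⟩ := θ.surjective y
      have hxy' : org t x = org t y := (hg0 x).symm.trans (hxy.trans (hg0 y))
      refine factor_org t ht (fun d => q.tail (θ d)) ?_ x y hxy'
      intro d
      apply Quotient.sound
      change Equiv.Perm.SameCycle _ _ _
      rw [← hσ]
      exact Equiv.Perm.sameCycle_apply_left.2 (Equiv.Perm.SameCycle.refl _ _)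
    · intro v
      obtain ⟨d, rfl⟩ := org_surj t ht (by omega) v
      exact ⟨_, hg0 d⟩
  refine ⟨θ, Equiv.ofBijective g hg, hg0, fun d => ?_, ?_⟩
  · rw [← hg0, Quad.head, hθ, hθ, hE.map_al]; rfl
  · obtain ⟨d0, hd0, hθ0⟩ := Option.map_eq_some_iff.1 hr
    rw [← org_bd t ht 0 d0 hd0, ← hg0, hθ, hθ0]; rfl

theorem zlink0_adj {n : ℕ} {q : Quad n} {t : Mp} (ht : ok t) {θ : Dt t ≃ Fin (4 * n)}
    {j : q.Vertex ≃ V t} (h1 : ∀ d, j (q.tail (θ d)) = org t d)
    (h2 : ∀ d, j (q.head (θ d)) = org t (al t d)) (x y : q.Vertex) :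
    q.graph.Adj x y ↔ adj t (j x) (j y) := by
  rw [Quad.graph, SimpleGraph.fromRel_adj]
  constructor
  · rintro ⟨-, ⟨d, rfl, rfl⟩ | ⟨d, rfl, rfl⟩⟩
    · obtain ⟨d, rfl⟩ := θ.surjective d
      exact (adj_iff_dart t _ _).2 ⟨d, (h1 d).symm, (h2 d).symm⟩
    · obtain ⟨d, rfl⟩ := θ.surjective d
      exact (adj_iff_dart t _ _).2 ⟨al t d, (h2 d).symm, by rw [al_al, h1]⟩
  · intro h
    refine ⟨fun hxy => adj_irrefl t ht (j y) (hxy ▸ h), Or.inl ?_⟩
    obtain ⟨d, hd1, hd2⟩ := (adj_iff_dart t _ _).1 h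
    exact ⟨θ d, j.injective ((h1 d).trans hd1), j.injective ((h2 d).trans hd2)⟩

theorem zlink0_walk {n : ℕ} {q : Quad n} {t : Mp} {j : q.Vertex ≃ V t}
    (ha : ∀ x y, q.graph.Adj x y ↔ adj t (j x) (j y)) (x : q.Vertex) (k : ℕ) :
    ∀ y, Within t k (j x) (j y) → ∃ p : q.graph.Walk x y, p.length ≤ k := by
  induction k with
  | zero =>
    intro y h
    obtain rfl : x = y := j.injective h
    exact ⟨.nil, le_rfl⟩
  | succ k ih =>
    rintro y (h | ⟨z, h, hz⟩)
    · obtain ⟨p, hp⟩ := ih y h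
      exact ⟨p, by omega⟩
    · obtain ⟨z, rfl⟩ := j.surjective z
      obtain ⟨p, hp⟩ := ih z h
      exact ⟨p.concat ((ha z y).2 hz), by rw [SimpleGraph.Walk.length_concat]; omega⟩

theorem zlink0_within {n : ℕ} {q : Quad n} {t : Mp} {j : q.Vertex ≃ V t}
    (ha : ∀ x y, q.graph.Adj x y ↔ adj t (j x) (j y)) {x y : q.Vertex} (p : q.graph.Walk x y) :
    Within t p.length (j x) (j y) := by
  induction p with
  | nil => exact Within.refl t _ _
  | @cons u v w h p ih =>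
    have h1 : Within t 1 (j u) (j v) := Or.inr ⟨j u, rfl, (ha u v).1 h⟩
    have h2 := h1.trans ih
    rw [SimpleGraph.Walk.length_cons, add_comm]
    exact h2

theorem rep_iso {n : ℕ} (q : Quad n) (t : Mp) (h : Rep q t) :
    ∃ (θ : Dt t ≃ Fin (4 * n)) (j : q.Vertex ≃ V t), (∀ d, j (q.tail (θ d)) = org t d) ∧
      (∀ d, j (q.head (θ d)) = org t (al t d)) ∧ j (q.tail q.root) = bv t 0 ∧
      (∀ x y, q.graph.Adj x y ↔ adj t (j x) (j y)) ∧
      (∀ k x y, q.graph.dist x y ≤ k ↔ Within t k (j x) (j y)) ∧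
      (∀ x, ((q.out x).card : ℝ) = dg t (j x)) ∧
      (∀ g : V t → ℝ, ∑ d, g (j (q.tail d)) = ∑ z, dg t z * g z) ∧
      ∀ f : V t → ℝ, (∑ d, (f (j (q.tail d)) - f (j (q.head d))) ^ 2) / 2 = energy t f := by
  classical
  obtain ⟨θ, j, h1, h2, h3⟩ := zlink0_vert q t h
  have ht := h.1
  have ha := zlink0_adj ht h1 h2
  have hs : ∀ g : V t → ℝ, ∑ d, g (j (q.tail d)) = ∑ z, dg t z * g z := fun g => by
    rw [← Equiv.sum_comp θ]
    simp only [h1]
    rw [← sum_fiberwise univ (org t)]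
    refine sum_congr rfl fun z _ => ?_
    rw [sum_congr rfl (g := fun _ => g z) fun d hd => by rw [(mem_filter.1 hd).2], sum_const,
      nsmul_eq_mul, dg_eq_card t ht]
  refine ⟨θ, j, h1, h2, h3, ha, fun k x y => ⟨fun hk => ?_, fun hk => ?_⟩, fun x => ?_, hs,
    fun f => ?_⟩
  · obtain ⟨k', hk'⟩ := within_exists t ht (j x) (j y)
    obtain ⟨p, -⟩ := zlink0_walk ha _ k' y hk'
    obtain ⟨p', hp'⟩ := SimpleGraph.Reachable.exists_walk_length_eq_dist ⟨p⟩
    exact (zlink0_within ha p').mono (hp' ▸ hk)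
  · obtain ⟨p, hp⟩ := zlink0_walk ha x k y hk
    exact (SimpleGraph.dist_le p).trans hp
  · have e := hs fun z => if z = j x then 1 else 0
    simp only [mul_ite, mul_one, mul_zero, sum_ite_eq', mem_univ, if_true,
      EmbeddingLike.apply_eq_iff_eq] at e
    rw [← e, Quad.out, card_filter]
    push_cast
    exact sum_congr rfl fun d _ => by by_cases c : q.tail d = x <;> simp only [c, if_true, if_false]
  · rw [← Equiv.sum_comp θ]
    simp only [h1, h2]
    rw [← two_energy]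
    ring

end Pool.Agent.P.MP_7a6434d8_pr
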