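import Pool.Agent.P.MP_7a6434d8_pr.Defs2
import Pool.Agent.P.MP_7a6434d8_pr.RotC
import Pool.Agent.P.MP_7a6434d8_pr.MassC

namespace Pool.Agent.P.MP_7a6434d8_pr

open Mp Finset
open scoped ENNReal

/-- the three constructors -/
def xieEquiv : Unit ⊕ Mp ⊕ Mp × Mp ≃ Mp where
  toFun x := match x with
    | Sum.inl _ => pt
    | Sum.inr (Sum.inl t) => face t
    | Sum.inr (Sum.inr p) => bridge p.1 p.2
  invFun t := match t with
    | pt => Sum.inl ()
    | face t => Sum.inr (Sum.inl t)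
    | bridge a b => Sum.inr (Sum.inr (a, b))
  left_inv x := by rcases x with _ | _ | _ <;> rfl
  right_inv t := by cases t <;> rfl

theorem xie_tsum (f : Mp → ℝ≥0∞) :
    ∑' t, f t = f pt + (∑' t, f (face t) + ∑' p : Mp × Mp, f (bridge p.1 p.2)) := by
  rw [← xieEquiv.tsum_eq, Summable.tsum_sum ENNReal.summable ENNReal.summable,
    Summable.tsum_sum ENNReal.summable ENNReal.summable, tsum_fintype]
  simp only [Finset.univ_unique, Finset.sum_singleton]
  rfl

theorem xie_wt_face (L : ℕ) (hL : 1 ≤ L) (t : Mp) :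
    wt L (face t) = (12 : ℝ≥0∞)⁻¹ * wt (L + 1) t := by
  unfold wt
  have h : (ok (face t) ∧ per (face t) = L) ↔ (ok t ∧ per t = L + 1) := by
    simp only [ok, per]
    constructor
    · rintro ⟨⟨h1, h2⟩, h3⟩
      exact ⟨h1, by omega⟩
    · rintro ⟨h1, h2⟩
      exact ⟨⟨h1, by omega⟩, by omega⟩
  by_cases h' : ok t ∧ per t = L + 1
  · rw [if_pos (h.2 h'), if_pos h', size, pow_succ, mul_comm]
  · rw [if_neg (fun h2 => h' (h.1 h2)), if_neg h', mul_zero]

theorem xie_wt_bridge (L : ℕ) (a b : Mp) :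
    wt L (bridge a b) = ∑ j ∈ range L, wt (L - 1 - j) a * wt j b := by
  by_cases h : ok (bridge a b) ∧ per (bridge a b) = L
  · have h' := h
    simp only [ok, per] at h'
    obtain ⟨⟨ha, hb⟩, hL⟩ := h'
    rw [Finset.sum_eq_single (per b)]
    · unfold wt
      rw [if_pos h, if_pos ⟨ha, by omega⟩, if_pos ⟨hb, rfl⟩, size, pow_add]
    · intro j _ hj
      rw [massb_wt_zero (L := j) (t := b) fun h2 => hj h2.2.symm, mul_zero]
    · intro h2
      exact absurd (mem_range.2 (by omega)) h2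
  · rw [massb_wt_zero h]
    symm
    refine Finset.sum_eq_zero fun j hj => ?_
    have hj' := mem_range.1 hj
    unfold wt
    split_ifs with h1 h2
    · refine absurd ⟨⟨h1.1, h2.1⟩, ?_⟩ h
      simp only [per]
      omega
    · exact mul_zero _
    · exact zero_mul _
    · exact zero_mul _

theorem IE_zero (F : Mp → ℝ≥0∞) : IE 0 F = F pt := by
  unfold IE
  rw [tsum_eq_single pt]
  · have : wt 0 pt = 1 := by
      unfold wt
      rw [if_pos ⟨trivial, rfl⟩, size, pow_zero]
    rw [this, one_mul]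
  · intro t ht
    rw [massb_wt_zero fun h => ht (eq_pt_of_per_zero t h.1 h.2), zero_mul]

theorem xie_two (i j : ℕ) (F : Mp → Mp → ℝ≥0∞) :
    IE j (fun b => IE i (fun a => F a b)) = ∑' p : Mp × Mp, wt i p.1 * wt j p.2 * F p.1 p.2 := by
  unfold IE
  rw [ENNReal.tsum_prod', ENNReal.tsum_comm]
  refine tsum_congr fun b => ?_
  rw [← ENNReal.tsum_mul_left]
  refine tsum_congr fun a => ?_
  ring

theorem IE_root (L : ℕ) (hL : 1 ≤ L) (F : Mp → ℝ≥0∞) :
    IE L F = (12 : ℝ≥0∞)⁻¹ * IE (L + 1) (fun t => F (face t))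
      + ∑ j ∈ range L, IE j (fun b => IE (L - 1 - j) (fun a => F (bridge a b))) := by
  simp only [xie_two]
  unfold IE
  have h0 : wt L pt = 0 := massb_wt_zero fun h => by
    simp only [per] at h
    omega
  rw [xie_tsum, h0, zero_mul, zero_add, ← ENNReal.tsum_mul_left,
    ← Summable.tsum_finsetSum fun _ _ => ENNReal.summable]
  congr 1
  · refine tsum_congr fun t => ?_
    rw [xie_wt_face L hL, mul_assoc]
  · refine tsum_congr fun p => ?_
    rw [xie_wt_bridge, sum_mul]

theorem IE_mono {L : ℕ} {F G : Mp → ℝ≥0∞} (h : ∀ t, ok t → per t = L → F t ≤ G t) :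
    IE L F ≤ IE L G := by
  refine ENNReal.tsum_le_tsum fun t => ?_
  by_cases ht : ok t ∧ per t = L
  · exact mul_le_mul' le_rfl (h t ht.1 ht.2)
  · rw [massb_wt_zero ht, zero_mul, zero_mul]

theorem IE_add (L : ℕ) (F G : Mp → ℝ≥0∞) : IE L (fun t => F t + G t) = IE L F + IE L G := by
  unfold IE
  rw [← ENNReal.tsum_add]
  exact tsum_congr fun t => mul_add _ _ _

theorem IE_sum {ι : Type} (L : ℕ) (s : Finset ι) (F : ι → Mp → ℝ≥0∞) :
    IE L (fun t => ∑ i ∈ s, F i t) = ∑ i ∈ s, IE L (F i) := by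
  unfold IE
  rw [← Summable.tsum_finsetSum fun _ _ => ENNReal.summable]
  exact tsum_congr fun t => mul_sum _ _ _

theorem IE_const_mul (L : ℕ) (c : ℝ≥0∞) (F : Mp → ℝ≥0∞) :
    IE L (fun t => c * F t) = c * IE L F := by
  unfold IE
  rw [← ENNReal.tsum_mul_left]
  exact tsum_congr fun t => mul_left_comm _ _ _

theorem IE_mul_const (L : ℕ) (c : ℝ≥0∞) (F : Mp → ℝ≥0∞) :
    IE L (fun t => F t * c) = IE L F * c := by
  unfold IE
  rw [← ENNReal.tsum_mul_right]
  exact tsum_congr fun t => (mul_assoc _ _ _).symm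

theorem IE_const (L : ℕ) (c : ℝ≥0∞) : IE L (fun _ => c) = c * ENNReal.ofReal (Z L) := by
  unfold IE
  rw [ENNReal.tsum_mul_right, tsum_wt, massE_true, mul_comm]

theorem IE_comm (i j : ℕ) (F : Mp → Mp → ℝ≥0∞) :
    IE j (fun b => IE i (fun a => F a b)) = IE i (fun a => IE j (fun b => F a b)) := by
  unfold IE
  simp only [← ENNReal.tsum_mul_left]
  rw [ENNReal.tsum_comm]
  exact tsum_congr fun a => tsum_congr fun b => mul_left_comm _ _ _

open Classical in
theorem IE_ind (L : ℕ) (φ : Mp → Prop) :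
    IE L (fun t => if φ t then 1 else 0) = ENNReal.ofReal (mass L φ) := by
  rw [massc_ofReal]
  unfold IE massE
  exact tsum_congr fun t => by rw [mul_ite, mul_one, mul_zero]

theorem IE_markov {L : ℕ} {φ : Mp → Prop} {F : Mp → ℝ≥0∞} {c B : ℝ} (hc : 0 < c) (hB : 0 ≤ B)
    (h : ∀ t, ok t → per t = L → φ t → ENNReal.ofReal c ≤ F t)
    (hF : IE L F ≤ ENNReal.ofReal B) : mass L φ ≤ B / c := by
  classical
  have h1 : IE L (fun t => ENNReal.ofReal c * if φ t then 1 else 0) ≤ IE L F :=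
    IE_mono fun t ht hp => by
      split_ifs with h2
      · rw [mul_one]
        exact h t ht hp h2
      · rw [mul_zero]
        exact zero_le
  rw [IE_const_mul, IE_ind, ← ENNReal.ofReal_mul hc.le] at h1
  rw [le_div_iff₀ hc, mul_comm]
  exact (ENNReal.ofReal_le_ofReal_iff hB).1 (h1.trans hF)

theorem IE_rot (L k : ℕ) (F : Mp → ℝ≥0∞) : IE L (fun t => F (rotN k t)) = IE L F := by
  unfold IE
  have z : ∀ t, ¬ ok t → wt L t = 0 := fun t h => massb_wt_zero fun h' => h h'.1
  rw [rotc_tsum _ (fun t h => by rw [z t h, zero_mul]), rotc_tsum (fun t => wt L t * F t)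
    (fun t h => by rw [z t h, zero_mul])]
  let r : {t : Mp // ok t} → {t : Mp // ok t} := fun t => ⟨rotN k t.1, rotN_ok k t.1 t.2⟩
  have hr : Function.Bijective r := by
    constructor
    · intro a b hab
      exact Subtype.ext (rotN_inj k a.1 b.1 a.2 b.2 (congrArg Subtype.val hab))
    · intro b
      obtain ⟨t, ht, h⟩ := rotN_surj k b.1 b.2
      exact ⟨⟨t, ht⟩, Subtype.ext h⟩
  rw [← (Equiv.ofBijective r hr).tsum_eq (fun t : {t : Mp // ok t} => wt L t.1 * F t.1)]
  refine tsum_congr fun t => ?_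
  show _ = wt L (rotN k t.1) * F (rotN k t.1)
  rw [rotc_wt L k t.1 t.2]

theorem IE_trunc_zero (L : ℕ) (F : Mp → ℝ≥0∞) : IE L (trunc 0 F) = 0 := by
  simp [IE, trunc]

theorem IE_le_of_trunc {L : ℕ} {F : Mp → ℝ≥0∞} {c : ℝ≥0∞} (h : ∀ N, IE L (trunc N F) ≤ c) :
    IE L F ≤ c := by
  unfold IE
  rw [ENNReal.tsum_eq_iSup_sum]
  refine iSup_le fun s => le_trans ?_ (h (s.sup edges + 1))
  refine le_trans (le_of_eq ?_) (ENNReal.sum_le_tsum s)
  refine Finset.sum_congr rfl fun t ht => ?_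
  rw [trunc, if_pos (Nat.lt_succ_of_le (Finset.le_sup ht))]

theorem IE_root_trunc (N L : ℕ) (hL : 1 ≤ L) (F : Mp → ℝ≥0∞) :
    IE L (trunc (N + 1) F) ≤ (12 : ℝ≥0∞)⁻¹ * IE (L + 1) (trunc N (fun t => F (face t)))
      + ∑ j ∈ range L, IE j (trunc N (fun b =>
          IE (L - 1 - j) (trunc N (fun a => F (bridge a b))))) := by
  rw [IE_root L hL]
  refine add_le_add (mul_le_mul' le_rfl (IE_mono fun t _ _ => ?_))
    (sum_le_sum fun j _ => IE_mono fun b _ _ => ?_)
  · simp only [trunc, edges, Nat.add_lt_add_iff_right, le_refl]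
  · by_cases hb : edges b < N
    · rw [trunc, if_pos hb]
      refine IE_mono fun a _ _ => ?_
      simp only [trunc, edges]
      split_ifs with h1 h2
      · exact le_rfl
      · omega
      · exact zero_le
      · exact le_rfl
    · refine le_trans (IE_mono (G := trunc 0 F) fun a _ _ => ?_) ((IE_trunc_zero _ F).trans_le zero_le)
      simp only [trunc, edges]
      rw [if_neg (by omega)]
      exact zero_le

theorem mass_rot (L k : ℕ) (φ : Mp → Prop) : mass L (fun t => φ (rotN k t)) = mass L φ := by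
  unfold mass
  rw [massE_rot]

theorem root_eq (L : ℕ) (hL : 1 ≤ L) (φ : Mp → Prop) :
    mass L φ = mass (L + 1) (fun t => φ (face t)) / 12
      + ∑ j ∈ range L, mass2 (L - 1 - j) j (fun a b => φ (bridge a b)) := by
  unfold mass mass2
  have h12 : (12 : ℝ≥0∞)⁻¹ ≠ ⊤ := ENNReal.inv_ne_top.2 (by norm_num)
  rw [massE_root L hL φ, ENNReal.toReal_add (ENNReal.mul_ne_top h12 (massE_ne_top _ _))
    (ENNReal.sum_ne_top.2 fun j _ => mass2E_ne_top _ _ _),
    ENNReal.toReal_sum (fun j _ => mass2E_ne_top _ _ _), ENNReal.toReal_mul, ENNReal.toReal_inv]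
  congr 1
  rw [div_eq_inv_mul]
  norm_num

theorem root_le (N L : ℕ) (hL : 1 ≤ L) (φ : Mp → Prop) :
    massN (N + 1) L φ ≤ massN N (L + 1) (fun t => φ (face t)) / 12
      + ∑ j ∈ range L, mass2N N (L - 1 - j) j (fun a b => φ (bridge a b)) := by
  unfold massN mass2N
  rw [root_eq L hL]
  refine add_le_add ?_ ?_
  · refine div_le_div_of_nonneg_right (mass_mono fun t _ _ h => ⟨h.1, ?_⟩) (by norm_num)
    have h2 := h.2
    simp only [edges] at h2
    omega
  · refine sum_le_sum fun j _ => mass2_mono fun a b _ _ _ _ h => ?_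
    have h2 := h.2
    simp only [edges] at h2
    exact ⟨h.1, by omega, by omega⟩

end Pool.Agent.P.MP_7a6434d8_pr
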