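import Pool.Agent.P.MP_7a6434d8_pr.XIE
import Pool.Agent.P.MP_7a6434d8_pr.DartA
import Pool.Agent.P.MP_7a6434d8_pr.NumB

namespace Pool.Agent.P.MP_7a6434d8_pr

open Mp Finset
open scoped ENNReal

theorem xmom_Bv (L : ℕ) : 0 ≤ Bv L := by
  unfold Bv
  positivity

theorem xmom_inv12 : (12 : ℝ≥0∞)⁻¹ = ENNReal.ofReal (1 / 12) := by
  rw [one_div, ENNReal.ofReal_inv_of_pos (by norm_num)]
  norm_num

theorem xmom_edges (N : ℕ) : ∀ L : ℕ,
    IE L (trunc N (fun t => (edges t : ℝ≥0∞))) ≤ ENNReal.ofReal (Bv L * Z L) := by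
  induction N with
  | zero =>
    intro L
    rw [IE_trunc_zero]
    exact zero_le
  | succ N ih =>
    intro L
    rcases Nat.eq_zero_or_pos L with rfl | hL
    · rw [IE_zero]
      simp [trunc, edges]
    refine (IE_root_trunc N L hL _).trans ?_
    have hBZ : ∀ i, 0 ≤ Bv i * Z i := fun i => mul_nonneg (xmom_Bv i) (Z_pos i).le
    have h1 : IE (L + 1) (trunc N (fun t => (edges (face t) : ℝ≥0∞)))
        ≤ ENNReal.ofReal (Bv (L + 1) * Z (L + 1) + Z (L + 1)) := by
      refine le_trans (IE_mono (G := fun t => trunc N (fun t => (edges t : ℝ≥0∞)) t + 1)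
        fun t _ _ => ?_) ?_
      · simp only [trunc, edges]
        split_ifs
        · push_cast
          exact le_rfl
        · exact zero_le
      · rw [IE_add, IE_const, one_mul, ENNReal.ofReal_add (hBZ _) (Z_pos _).le]
        exact add_le_add (ih _) le_rfl
    have h2 : ∀ i j : ℕ, IE j (trunc N (fun b => IE i (trunc N
        (fun a => (edges (bridge a b) : ℝ≥0∞)))))
        ≤ ENNReal.ofReal ((Bv i + Bv j) * (Z i * Z j) + Z i * Z j) := by
      intro i j
      have h3 : ∀ b : Mp, IE i (trunc N (fun a => (edges (bridge a b) : ℝ≥0∞)))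
          ≤ (edges b : ℝ≥0∞) * ENNReal.ofReal (Z i) + ENNReal.ofReal (Bv i * Z i + Z i) := by
        intro b
        refine le_trans (IE_mono
          (G := fun a => trunc N (fun t => (edges t : ℝ≥0∞)) a + ((edges b : ℝ≥0∞) + 1))
          fun a _ _ => ?_) ?_
        · simp only [trunc, edges]
          split_ifs
          · push_cast
            rw [add_assoc]
          · exact zero_le
        · rw [IE_add, IE_const, ENNReal.ofReal_add (hBZ _) (Z_pos _).le, add_mul, one_mul,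
            add_left_comm]
          exact add_le_add le_rfl (add_le_add (ih _) le_rfl)
      refine le_trans (IE_mono
        (G := fun b => trunc N (fun t => (edges t : ℝ≥0∞)) b * ENNReal.ofReal (Z i)
          + ENNReal.ofReal (Bv i * Z i + Z i)) fun b _ _ => ?_) ?_
      · simp only [trunc]
        split_ifs
        · exact h3 b
        · exact zero_le
      · rw [IE_add, IE_mul_const, IE_const]
        have e : (Bv i + Bv j) * (Z i * Z j) + Z i * Z j
            = Bv j * Z j * Z i + (Bv i * Z i + Z i) * Z j := by ring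
        rw [e, ENNReal.ofReal_add (mul_nonneg (hBZ j) (Z_pos i).le)
          (mul_nonneg (add_nonneg (hBZ i) (Z_pos i).le) (Z_pos j).le),
          ENNReal.ofReal_mul (hBZ j), ENNReal.ofReal_mul (add_nonneg (hBZ i) (Z_pos i).le)]
        exact add_le_add (mul_le_mul' (ih _) le_rfl) le_rfl
    have hnn : ∀ i j : ℕ, 0 ≤ (Bv i + Bv j) * (Z i * Z j) + Z i * Z j := fun i j =>
      add_nonneg (mul_nonneg (add_nonneg (xmom_Bv i) (xmom_Bv j))
        (mul_nonneg (Z_pos i).le (Z_pos j).le)) (mul_nonneg (Z_pos i).le (Z_pos j).le)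
    refine le_trans (add_le_add (mul_le_mul' le_rfl h1) (sum_le_sum fun j _ => h2 _ j)) ?_
    rw [xmom_inv12, ← ENNReal.ofReal_mul (by norm_num),
      ← ENNReal.ofReal_sum_of_nonneg (fun j _ => hnn _ j),
      ← ENNReal.ofReal_add (mul_nonneg (by norm_num) (add_nonneg (hBZ _) (Z_pos _).le))
        (sum_nonneg fun j _ => hnn _ j)]
    refine ENNReal.ofReal_le_ofReal (le_of_eq ?_)
    rw [sum_add_distrib]
    linear_combination (-1 : ℝ) * Bv_root L hL - tutte L hL

theorem IE_edges (L : ℕ) : IE L (fun t => (edges t : ℝ≥0∞)) ≤ ENNReal.ofReal (Bv L * Z L) :=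
  IE_le_of_trunc fun N => xmom_edges N L

theorem IE_size (L : ℕ) :
    IE L (fun t => (size t : ℝ≥0∞)) ≤ ENNReal.ofReal ((L : ℝ) * (L + 1) / 2 * Z L) := by
  have h1 : IE L (fun t => (size t : ℝ≥0∞) * 2 + (L : ℝ≥0∞))
      ≤ IE L (fun t => (edges t : ℝ≥0∞)) := IE_mono fun t ht hp => by
    rw [edges_eq t ht, hp]
    push_cast
    rw [mul_comm]
  have h2 := h1.trans (IE_edges L)
  have hZ := (Z_pos L).le
  have hA : 0 ≤ (L : ℝ) * (L + 1) / 2 * Z L := by positivity
  have e : Bv L * Z L = (L : ℝ) * (L + 1) / 2 * Z L * 2 + L * Z L := by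
    unfold Bv
    ring
  rw [IE_add, IE_mul_const, IE_const, e, ENNReal.ofReal_add (by positivity) (by positivity),
    ENNReal.ofReal_mul hA, ENNReal.ofReal_mul (Nat.cast_nonneg L), ENNReal.ofReal_natCast,
    ENNReal.ofReal_ofNat] at h2
  have h3 := (ENNReal.add_le_add_iff_right
    (ENNReal.mul_ne_top (ENNReal.natCast_ne_top L) ENNReal.ofReal_ne_top)).1 h2
  exact (ENNReal.mul_le_mul_iff_left (by norm_num) (by norm_num)).1 h3

theorem xmom_closed (s : ℝ) (L : ℕ) :
    (2 * (1 - s)) ^ L * ((1 + (1 - 2 * s) / 3) * (catalan L : ℝ)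
      - (1 - 2 * s) / 3 * (catalan (L + 1) : ℝ)) = (1 - s) ^ L * (1 + s * L) * Z L := by
  have h := numa_catalan L
  have h2 : (catalan (L + 1) : ℝ) = (4 * L + 2) * catalan L / (L + 2) := by
    rw [← h]
    field_simp
  unfold Z
  rw [h2, mul_pow]
  field_simp
  ring

theorem xmom_rec (s : ℝ) (h1 : s ≤ 1 / 2) (L : ℕ) (hL : 1 ≤ L) :
    (1 - s) ^ L * (1 + s * L) * Z L
      = (1 - s ^ 2 / (1 - s) ^ 2) / 12
          * ((1 - s) ^ (L + 1) * (1 + s * ((L + 1 : ℕ) : ℝ)) * Z (L + 1))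
        + ∑ j ∈ range L, ((1 - s) ^ (L - 1 - j) * (1 + s * ((L - 1 - j : ℕ) : ℝ)) * Z (L - 1 - j))
          * ((1 - s) ^ j * (1 + s * j) * Z j) := by
  obtain ⟨m, rfl⟩ : ∃ m, L = m + 1 := ⟨L - 1, by omega⟩
  have hs : 1 - s ≠ 0 := by linarith
  have e : (1 - s ^ 2 / (1 - s) ^ 2) / 12 * (2 * (1 - s)) ^ 2 = (1 - 2 * s) / 3 := by
    field_simp
    ring
  have h := tutte_ring (A := ℝ) ((1 - s ^ 2 / (1 - s) ^ 2) / 12) (2 * (1 - s))
    (by rw [mul_assoc 3, e]; ring) m
  rw [e] at h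
  simp only [← xmom_closed, Nat.add_sub_cancel]
  exact h

theorem xmom_x (s : ℝ) (h0 : 0 ≤ s) (h1 : s ≤ 1 / 2) :
    0 ≤ 1 - s ^ 2 / (1 - s) ^ 2 ∧ 1 - s ^ 2 / (1 - s) ^ 2 ≤ 1 := by
  have hs : 0 < 1 - s := by linarith
  constructor
  · rw [sub_nonneg, div_le_one (by positivity)]
    nlinarith
  · have : 0 ≤ s ^ 2 / (1 - s) ^ 2 := by positivity
    linarith

theorem xmom_pow (s : ℝ) (h0 : 0 ≤ s) (h1 : s ≤ 1 / 2) (N : ℕ) : ∀ L : ℕ,
    IE L (trunc N (fun t => ENNReal.ofReal (1 - s ^ 2 / (1 - s) ^ 2) ^ size t))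
      ≤ ENNReal.ofReal ((1 - s) ^ L * (1 + s * L) * Z L) := by
  have hs : 0 < 1 - s := by linarith
  have hx := (xmom_x s h0 h1).1
  have hP : ∀ i : ℕ, 0 ≤ (1 - s) ^ i * (1 + s * i) * Z i := fun i => by
    have := Z_pos i
    positivity
  induction N with
  | zero =>
    intro L
    rw [IE_trunc_zero]
    exact zero_le
  | succ N ih =>
    intro L
    rcases Nat.eq_zero_or_pos L with rfl | hL
    · rw [IE_zero]
      simp [trunc, edges, size, Z_zero]
    refine (IE_root_trunc N L hL _).trans ?_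
    set X := ENNReal.ofReal (1 - s ^ 2 / (1 - s) ^ 2) with hX
    have g1 : IE (L + 1) (trunc N (fun t => X ^ size (face t)))
        ≤ X * ENNReal.ofReal ((1 - s) ^ (L + 1) * (1 + s * ((L + 1 : ℕ) : ℝ)) * Z (L + 1)) := by
      refine le_trans (IE_mono (G := fun t => X * trunc N (fun t => X ^ size t) t)
        fun t _ _ => ?_) ?_
      · simp only [trunc, size]
        split_ifs
        · rw [pow_succ, mul_comm]
        · exact zero_le
      · rw [IE_const_mul]
        exact mul_le_mul' le_rfl (ih _)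
    have g2 : ∀ i j : ℕ, IE j (trunc N (fun b => IE i (trunc N
        (fun a => X ^ size (bridge a b)))))
        ≤ ENNReal.ofReal (((1 - s) ^ i * (1 + s * i) * Z i) * ((1 - s) ^ j * (1 + s * j) * Z j)) := by
      intro i j
      have h3 : ∀ b : Mp, IE i (trunc N (fun a => X ^ size (bridge a b)))
          ≤ ENNReal.ofReal ((1 - s) ^ i * (1 + s * i) * Z i) * X ^ size b := by
        intro b
        refine le_trans (IE_mono (G := fun a => trunc N (fun t => X ^ size t) a * X ^ size b)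
          fun a _ _ => ?_) ?_
        · simp only [trunc, size]
          split_ifs
          · rw [pow_add]
          · exact zero_le
        · rw [IE_mul_const]
          exact mul_le_mul' (ih _) le_rfl
      refine le_trans (IE_mono
        (G := fun b => ENNReal.ofReal ((1 - s) ^ i * (1 + s * i) * Z i)
          * trunc N (fun t => X ^ size t) b) fun b _ _ => ?_) ?_
      · simp only [trunc]
        split_ifs
        · exact h3 b
        · exact zero_le
      · rw [IE_const_mul, ENNReal.ofReal_mul (hP i)]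
        exact mul_le_mul' le_rfl (ih _)
    refine le_trans (add_le_add (mul_le_mul' le_rfl g1) (sum_le_sum fun j _ => g2 _ j)) ?_
    rw [xmom_inv12, hX, ← ENNReal.ofReal_mul hx, ← ENNReal.ofReal_mul (by norm_num),
      ← ENNReal.ofReal_sum_of_nonneg (fun j _ => mul_nonneg (hP _) (hP j)),
      ← ENNReal.ofReal_add (mul_nonneg (by norm_num) (mul_nonneg hx (hP _)))
        (sum_nonneg fun j _ => mul_nonneg (hP _) (hP j))]
    refine ENNReal.ofReal_le_ofReal (le_of_eq ?_)
    rw [xmom_rec s h1 L hL]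
    ring

theorem IE_pow (s : ℝ) (h0 : 0 ≤ s) (h1 : s ≤ 1 / 2) (L : ℕ) :
    IE L (fun t => ENNReal.ofReal (1 - s ^ 2 / (1 - s) ^ 2) ^ size t)
      ≤ ENNReal.ofReal ((1 - s) ^ L * (1 + s * L) * Z L) :=
  IE_le_of_trunc fun N => xmom_pow s h0 h1 N L

theorem xmom_exp (s : ℝ) (h0 : 0 < s) (h1 : s ≤ 1 / 4) :
    Real.exp (-(4 * s ^ 2)) ≤ 1 - s ^ 2 / (1 - s) ^ 2 := by
  have hs : 0 < 1 - s := by linarith
  have a1 : s ^ 2 / (1 - s) ^ 2 ≤ 2 * s ^ 2 := by
    rw [div_le_iff₀ (by positivity)]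
    have : 1 ≤ 2 * (1 - s) ^ 2 := by nlinarith
    nlinarith [sq_nonneg s]
  have a2 : 4 * s ^ 2 + 1 ≤ Real.exp (4 * s ^ 2) := Real.add_one_le_exp _
  have a3 : s ^ 2 ≤ 1 / 16 := by nlinarith
  rw [Real.exp_neg, inv_le_iff_one_le_mul₀ (Real.exp_pos _)]
  have a4 : 0 ≤ 1 - 2 * s ^ 2 := by linarith
  calc (1 : ℝ) ≤ (1 - 2 * s ^ 2) * (4 * s ^ 2 + 1) := by nlinarith [sq_nonneg s]
    _ ≤ (1 - s ^ 2 / (1 - s) ^ 2) * Real.exp (4 * s ^ 2) :=
      mul_le_mul (by linarith) a2 (by positivity) (by linarith)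

theorem small_size (s : ℝ) (h0 : 0 < s) (h1 : s ≤ 1 / 4) (L v : ℕ) :
    mass L (fun t => size t ≤ v) ≤ 2 * Real.exp (4 * s ^ 2 * v - s * L / 2) * Z L := by
  have hs : 0 < 1 - s := by linarith
  have hZ := Z_pos L
  obtain ⟨hx0, hx1⟩ := xmom_x s h0.le (by linarith)
  have h := IE_markov (L := L) (φ := fun t => size t ≤ v)
    (c := Real.exp (-(4 * s ^ 2)) ^ v) (by positivity) (by positivity)
    (fun t _ _ ht => by
      rw [← ENNReal.ofReal_pow hx0]
      refine ENNReal.ofReal_le_ofReal ?_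
      exact (pow_le_pow_left₀ (Real.exp_pos _).le (xmom_exp s h0 h1) v).trans
        (pow_le_pow_of_le_one hx0 hx1 ht)) (IE_pow s h0.le (by linarith) L)
  refine h.trans ?_
  rw [div_le_iff₀ (by positivity), ← Real.exp_nat_mul]
  have b1 : (1 - s) ^ L ≤ Real.exp (-(s * L)) := by
    have : 1 - s ≤ Real.exp (-s) := by linarith [Real.add_one_le_exp (-s)]
    refine (pow_le_pow_left₀ hs.le this L).trans (le_of_eq ?_)
    rw [← Real.exp_nat_mul]
    congr 1
    ring
  have b2 : 1 + s * L ≤ 2 * Real.exp (s * L / 2) := by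
    linarith [Real.add_one_le_exp (s * L / 2)]
  have b3 : Real.exp (4 * s ^ 2 * v - s * L / 2) * Real.exp (v * -(4 * s ^ 2))
      = Real.exp (-(s * L)) * Real.exp (s * L / 2) := by
    rw [← Real.exp_add, ← Real.exp_add]
    congr 1
    ring
  calc (1 - s) ^ L * (1 + s * L) * Z L
      ≤ Real.exp (-(s * L)) * (2 * Real.exp (s * L / 2)) * Z L := by gcongr
    _ = 2 * (Real.exp (-(s * L)) * Real.exp (s * L / 2)) * Z L := by ring
    _ = _ := by
      rw [← b3]
      ring

end Pool.Agent.P.MP_7a6434d8_pr
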