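import Pool.Agent.P.MP_7a6434d8_pr.Count
import Pool.Agent.P.MP_7a6434d8_pr.XMom

namespace Pool.Agent.P.MP_7a6434d8_pr

open Mp Finset
open scoped ENNReal

theorem zctxb_step (n : ℕ) :
    (cnt 2 (n + 1) (fun _ => True) / 12 ^ (n + 1) : ℝ)
      = (2 * n + 3) / (2 * (n + 4)) * (cnt 2 n (fun _ => True) / 12 ^ n) := by
  have h := count_catalan_succ (n + 1)
  push_cast at h
  have h3 : ((n : ℝ) + 3) ≠ 0 := by positivity
  have h4 : (catalan (n + 1 + 1) : ℝ) = (4 * n + 6) * (catalan (n + 1) : ℝ) / (n + 3) := by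
    rw [eq_div_iff h3]
    linear_combination h
  rw [cnt_two, cnt_two, h4]
  push_cast
  have h5 : ((n : ℝ) + 1 + 3) ≠ 0 := by positivity
  have h6 : ((n : ℝ) + 4) ≠ 0 := by positivity
  field_simp
  ring

theorem cnt_ratio_up {N n : ℕ} (h : N ≤ n) :
    ((n : ℝ) + 1) * (cnt 2 n (fun _ => True) / 12 ^ n)
      ≤ ((N : ℝ) + 1) * (cnt 2 N (fun _ => True) / 12 ^ N) := by
  induction n, h using Nat.le_induction with
  | base => exact le_rfl
  | succ n _ ih =>
    refine le_trans ?_ ih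
    rw [zctxb_step, ← mul_assoc]
    refine mul_le_mul_of_nonneg_right ?_ (by positivity)
    have hn : (0 : ℝ) ≤ n := Nat.cast_nonneg n
    push_cast
    rw [← mul_div_assoc, div_le_iff₀ (by positivity)]
    nlinarith

theorem cnt_ratio_down {N n : ℕ} (h : n ≤ N) :
    ((n : ℝ) + 1) ^ 3 * (cnt 2 n (fun _ => True) / 12 ^ n)
      ≤ ((N : ℝ) + 1) ^ 3 * (cnt 2 N (fun _ => True) / 12 ^ N) := by
  induction N, h using Nat.le_induction with
  | base => exact le_rfl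
  | succ N _ ih =>
    refine ih.trans ?_
    rw [zctxb_step, ← mul_assoc]
    refine mul_le_mul_of_nonneg_right ?_ (by positivity)
    have hn : (0 : ℝ) ≤ N := Nat.cast_nonneg N
    push_cast
    rw [← mul_div_assoc, le_div_iff₀ (by positivity)]
    have h1 : ((N : ℝ) + 1 + 1) ^ 3 * (2 * N + 3) - ((N : ℝ) + 1) ^ 3 * (2 * (N + 4))
        = N ^ 3 + 12 * N ^ 2 + 26 * N + 16 := by ring
    have h2 : (0 : ℝ) ≤ N ^ 3 + 12 * N ^ 2 + 26 * N + 16 := by positivity
    linarith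

theorem zctxb_mass (L s : ℕ) :
    mass L (fun t => size t = s) ≤ cnt L s (fun _ => True) / 12 ^ s := by
  classical
  have h1 : massE L (fun t => size t = s)
      = ((cnt L s (fun _ => True) : ℕ) : ℝ≥0∞) * (12 : ℝ≥0∞)⁻¹ ^ s := by
    rw [counta_cnt_true]
    unfold massE
    rw [tsum_eq_sum (s := countaT L s), ← nsmul_eq_mul, ← sum_const]
    · refine sum_congr rfl fun t ht => ?_
      obtain ⟨h1, h2, h3⟩ := (counta_mem L s t).1 ht
      rw [if_pos h3]
      unfold wt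
      rw [if_pos ⟨h1, h2⟩, h3]
    · intro t ht
      split_ifs with h3
      · exact massb_wt_zero fun h => ht ((counta_mem L s t).2 ⟨h.1, h.2, h3⟩)
      · rfl
  unfold mass
  rw [h1, ENNReal.toReal_mul, ENNReal.toReal_pow, ENNReal.toReal_inv]
  simp only [ENNReal.toReal_natCast, ENNReal.toReal_ofNat]
  rw [inv_pow, div_eq_mul_inv]

theorem best_size (L : ℕ) : ∃ s : ℕ,
    Z L ≤ 2 * ((L : ℝ) ^ 2 + L + 1) * (cnt L s (fun _ => True) / 12 ^ s) := by
  have hZ := Z_pos L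
  have hL : (0 : ℝ) ≤ L := Nat.cast_nonneg L
  have hS : (0 : ℝ) < (L : ℝ) ^ 2 + L + 1 := by positivity
  have h1 : mass L (fun t => L ^ 2 + L + 1 ≤ size t)
      ≤ (L : ℝ) * (L + 1) / 2 * Z L / ((L : ℝ) ^ 2 + L + 1) := by
    refine IE_markov hS (by positivity) (fun t _ _ h => ?_) (IE_size L)
    have h2 : ((L : ℝ) ^ 2 + L + 1) ≤ (size t : ℝ) := by exact_mod_cast h
    exact (ENNReal.ofReal_le_ofReal h2).trans (ENNReal.ofReal_natCast _).le
  have h2 : (L : ℝ) * (L + 1) / 2 * Z L / ((L : ℝ) ^ 2 + L + 1) ≤ Z L / 2 := by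
    rw [div_le_iff₀ hS]
    have : Z L / 2 * ((L : ℝ) ^ 2 + L + 1) = (L : ℝ) * (L + 1) / 2 * Z L + Z L / 2 := by ring
    linarith
  have h3 : mass L (fun _ => True) ≤ mass L (fun t => L ^ 2 + L + 1 ≤ size t) +
      mass L (fun t => size t < L ^ 2 + L + 1) :=
    mass_le_add fun t _ _ _ => le_or_gt _ _
  have h4 : mass L (fun t => size t < L ^ 2 + L + 1)
      ≤ ∑ s ∈ range (L ^ 2 + L + 1), mass L (fun t => size t = s) :=
    mass_le_sum _ _ fun t _ _ h => ⟨size t, mem_range.2 h, rfl⟩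
  rw [massc_true] at h3
  have h5 : ∑ _s ∈ range (L ^ 2 + L + 1), Z L / (2 * ((L : ℝ) ^ 2 + L + 1))
      ≤ ∑ s ∈ range (L ^ 2 + L + 1), mass L (fun t => size t = s) := by
    rw [sum_const, card_range, nsmul_eq_mul]
    push_cast
    have : ((L : ℝ) ^ 2 + L + 1) * (Z L / (2 * ((L : ℝ) ^ 2 + L + 1))) = Z L / 2 := by
      field_simp
    linarith
  obtain ⟨s, -, hs⟩ := exists_le_of_sum_le (nonempty_range_iff.2 (Nat.succ_ne_zero _)) h5
  refine ⟨s, ?_⟩
  have h6 := hs.trans (zctxb_mass L s)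
  rwa [div_le_iff₀' (by positivity)] at h6

end Pool.Agent.P.MP_7a6434d8_pr
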