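import Pool.Agent.P.MP_7a6434d8_pr.RotA
import Pool.Agent.P.MP_7a6434d8_pr.DartC
import Pool.Agent.P.MP_7a6434d8_pr.BasicB

namespace Pool.Agent.P.MP_7a6434d8_pr

open Mp Finset
open scoped ENNReal

theorem rotb_org {t t' : Mp} (ht : ok t) (ht' : ok t') (θ : Dt t' → Dt t)
    (h1 : ∀ x, θ (al t' x) = al t (θ x)) (h2 : ∀ x, θ (ph t' x) = ph t (θ x)) (d d' : Dt t')
    (hd : org t' d = org t' d') : org t (θ d) = org t (θ d') := by
  refine factor_org t' ht' (fun d => org t (θ d)) (fun d => ?_) d d' hd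
  show org t (θ (ph t' (al t' d))) = org t (θ d)
  rw [h2, h1, org_ph t ht, al_al]

theorem rotb_iter {t t' : Mp} (θ : Dt t' → Dt t) (h2 : ∀ x, θ (ph t' x) = ph t (θ x)) (m : ℕ)
    (x : Dt t') : θ ((ph t')^[m] x) = (ph t)^[m] (θ x) := by
  induction m with
  | zero => rfl
  | succ m ih => rw [Function.iterate_succ_apply', Function.iterate_succ_apply', h2, ih]

theorem rotb_shift {k : ℕ} {t t' : Mp} (ht : ok t) (ht' : ok t') (H : RotIso k t t') :
    ∃ e : V t' ≃ V t, (∀ f : V t → ℝ, energy t' (fun x => f (e x)) = energy t f) ∧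
      ∀ p, p ≤ 2 * per t → e (bv t' p) = bv t ((p + k) % (2 * per t)) := by
  have hper := H.per_eq ht ht'
  rcases Nat.eq_zero_or_pos (per t) with h0 | hpos
  · have e1 := eq_pt_of_per_zero t ht h0
    have e2 := eq_pt_of_per_zero t' ht' (hper.trans h0)
    subst e1
    subst e2
    exact ⟨Equiv.refl _, fun _ => rfl, fun _ _ => rfl⟩
  obtain ⟨θ0, hE, hS, hr⟩ := H
  let θ : Dt t' ≃ Dt t := Equiv.ofBijective θ0 ⟨hE.inj, hS⟩
  have h1 : ∀ x, θ (al t' x) = al t (θ x) := hE.map_al
  have h2 : ∀ x, θ (ph t' x) = ph t (θ x) := hE.map_ph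
  have h1' : ∀ y, θ.symm (al t y) = al t' (θ.symm y) := fun y => by
    rw [Equiv.symm_apply_eq, h1, Equiv.apply_symm_apply]
  have h2' : ∀ y, θ.symm (ph t y) = ph t' (θ.symm y) := fun y => by
    rw [Equiv.symm_apply_eq, h2, Equiv.apply_symm_apply]
  have s := org_surj t ht hpos
  have s' := org_surj t' ht' (by omega)
  have a1 : ∀ d, org t (θ (Function.surjInv s' (org t' d))) = org t (θ d) := fun d =>
    rotb_org ht ht' θ h1 h2 _ _ (Function.surjInv_eq s' _)
  have a2 : ∀ d, org t' (θ.symm (Function.surjInv s (org t d))) = org t' (θ.symm d) := fun d =>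
    rotb_org ht' ht θ.symm h1' h2' _ _ (Function.surjInv_eq s _)
  let e : V t' ≃ V t :=
    { toFun := fun x => org t (θ (Function.surjInv s' x))
      invFun := fun y => org t' (θ.symm (Function.surjInv s y))
      left_inv := fun x => by
        show org t' (θ.symm (Function.surjInv s (org t (θ (Function.surjInv s' x))))) = x
        rw [a2, Equiv.symm_apply_apply, Function.surjInv_eq s']
      right_inv := fun y => by
        show org t (θ (Function.surjInv s' (org t' (θ.symm (Function.surjInv s y))))) = y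
        rw [a1, Equiv.apply_symm_apply, Function.surjInv_eq s] }
  have he : ∀ d, e (org t' d) = org t (θ d) := a1
  refine ⟨e, fun f => ?_, fun p hp => ?_⟩
  · have b1 := two_energy t' (fun x => f (e x))
    have b2 := two_energy t f
    rw [← Equiv.sum_comp θ] at b2
    have b3 : ∑ d : Dt t', (f (e (org t' d)) - f (e (org t' (al t' d)))) ^ 2 =
        ∑ d : Dt t', (f (org t (θ d)) - f (org t (al t (θ d)))) ^ 2 :=
      Finset.sum_congr rfl fun d _ => by rw [he, he, h1]
    linarith
  · obtain ⟨x, hx⟩ : ∃ x, bd t' 0 = some x := by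
      rcases hb : bd t' 0 with _ | x
      · have := (bd_eq_none t' ht' 0).1 hb
        omega
      · exact ⟨x, rfl⟩
    rw [hx, Option.map_some] at hr
    have c1 := org_bd t' ht' _ _ (bd_iter t' ht' 0 p x hx)
    have c2 := org_bd t ht _ _ (bd_iter t ht _ p _ hr.symm)
    have c3 : bv t' ((0 + p) % (2 * per t')) = bv t' p := by
      rw [zero_add]
      rcases Nat.lt_or_ge p (2 * per t') with h | h
      · rw [Nat.mod_eq_of_lt h]
      · have : p = 2 * per t' := by omega
        rw [this, Nat.mod_self, bv_end t' ht']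
    rw [← c3, ← c1, he, rotb_iter θ h2]
    refine c2.trans ?_
    rw [Nat.mod_add_mod, add_comm]

theorem rotN_shift (k : ℕ) (t : Mp) (ht : ok t) :
    ∃ e : V (rotN k t) ≃ V t, (∀ f : V t → ℝ, energy (rotN k t) (fun x => f (e x)) = energy t f) ∧
      ∀ p, p ≤ 2 * per t → e (bv (rotN k t) p) = bv t ((p + k) % (2 * per t)) :=
  rotb_shift ht (rotN_ok k t ht) (rotN_iso k t ht)

theorem tr_rot (k : ℕ) (t : Mp) (ht : ok t) (h : ℕ → ℝ) (e : ℝ) :
    Tr (rotN k t) h e ↔ ∃ h0, Tr t h0 e ∧
      ∀ p, p ≤ 2 * per t → h p = h0 ((p + k) % (2 * per t)) := by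
  obtain ⟨E, hE, hb⟩ := rotN_shift k t ht
  have hper := rotN_per k t ht
  constructor
  · rintro ⟨f, hf, he⟩
    refine ⟨fun p => f (E.symm (bv t p)), ⟨fun y => f (E.symm y), fun _ _ => rfl, ?_⟩,
      fun p hp => ?_⟩
    · rw [← hE]
      simpa using he
    · rw [hf p (by omega)]
      show _ = f (E.symm (bv t ((p + k) % (2 * per t))))
      rw [← hb p hp, Equiv.symm_apply_apply]
  · rintro ⟨h0, H0, hh⟩
    rcases Nat.eq_zero_or_pos (per t) with h0' | hpos
    · refine (Tr.const (rotN k t) (h 0)).mono H0.nonneg |>.congr fun p hp => ?_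
      have : p = 0 := by omega
      rw [this]
    · obtain ⟨f, hf, he⟩ := H0
      refine ⟨fun x => f (E x), fun p hp => ?_, by rw [hE]; exact he⟩
      rw [hper] at hp
      show _ = f (E (bv (rotN k t) p))
      rw [hh p hp, hb p hp, hf _ (Nat.mod_lt _ (by omega)).le]

end Pool.Agent.P.MP_7a6434d8_pr
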