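import Pool.Agent.P.MP_7a6434d8_pr.XLabDet
import Pool.Agent.P.MP_7a6434d8_pr.XIE

namespace Pool.Agent.P.MP_7a6434d8_pr

open Mp Finset
open scoped ENNReal

open Classical in
/-- the weighted indicator of a labelling -/
noncomputable def xlabF (x : ℝ) (A B : Set ℤ) (l : ℕ → ℤ) (t : Mp) : ℝ≥0∞ :=
  if Lab t l A B then ENNReal.ofReal x ^ size t else 0

theorem xlab_cyc {L : ℕ} {l : ℕ → ℤ} (hL : 1 ≤ L) (hl : Valid L l) (q : ℕ) :
    l ((q + 1) % (2 * L)) = l (q % (2 * L)) + 1 ∨ l ((q + 1) % (2 * L)) = l (q % (2 * L)) - 1 := by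
  have hr : q % (2 * L) < 2 * L := Nat.mod_lt _ (by omega)
  have h := hl.2 _ hr
  have e : (q + 1) % (2 * L) = (q % (2 * L) + 1) % (2 * L) := by rw [Nat.mod_add_mod]
  rcases Nat.lt_or_ge (q % (2 * L) + 1) (2 * L) with h1 | h1
  · rw [e, Nat.mod_eq_of_lt h1]
    exact h
  · have h2 : q % (2 * L) + 1 = 2 * L := by omega
    rw [e, h2, Nat.mod_self, ← hl.1]
    rw [h2] at h
    exact h

theorem xlab_valid_rot {L : ℕ} {l : ℕ → ℤ} (hL : 1 ≤ L) (hl : Valid L l) (k : ℕ) :
    Valid L (fun p => l ((p + k) % (2 * L))) := by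
  refine ⟨?_, fun p _ => ?_⟩
  · simp only [Nat.add_mod_left, zero_add]
  · have := xlab_cyc hL hl (p + k)
    have e : p + 1 + k = p + k + 1 := by omega
    simp only [e]
    exact this

theorem xlab_valid_ins {L : ℕ} {l : ℕ → ℤ} (hl : Valid (L + 1) l) {n1 n2 : ℤ}
    (h1 : n1 = l 0 + 1 ∨ n1 = l 0 - 1) (h2 : n2 = n1 + 1 ∨ n2 = n1 - 1)
    (h3 : l 1 = n2 + 1 ∨ l 1 = n2 - 1) : Valid (L + 2) (ins l n1 n2) := by
  refine ⟨?_, fun p hp => ?_⟩
  · have e : 2 * (L + 2) - 2 = 2 * (L + 1) := by omega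
    unfold ins
    rw [if_neg (by omega), if_neg (by omega), if_neg (by omega), if_pos rfl, e]
    exact hl.1
  · rcases p with _ | _ | _ | p
    · simpa [ins] using h1
    · simpa [ins] using h2
    · simpa [ins] using h3
    · have := hl.2 (p + 1) (by omega)
      simpa [ins] using this

theorem xlab_mem_ins {L : ℕ} {l : ℕ → ℤ} {B : Set ℤ} (hB : ∀ p, p ≤ 2 * (L + 1) → l p ∈ B)
    {n1 n2 : ℤ} (h1 : n1 ∈ B) (h2 : n2 ∈ B) : ∀ p, p ≤ 2 * (L + 2) → ins l n1 n2 p ∈ B := by
  intro p hp
  unfold ins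
  split_ifs
  · exact hB 0 (by omega)
  · exact h1
  · exact h2
  · exact hB _ (by omega)

theorem xlab_valid_shift {L : ℕ} {l : ℕ → ℤ} (hl : Valid (L + 1) l) (h2 : l 2 = l 0) :
    Valid L (fun p => l (p + 2)) := by
  refine ⟨?_, fun p hp => ?_⟩
  · have := hl.1
    show l (2 * L + 2) = l (0 + 2)
    rw [zero_add, h2, ← this]
    rfl
  · exact hl.2 (p + 2) (by omega)

theorem xlab_choose {L : ℕ} {l : ℕ → ℤ} (hl : Valid (L + 1) l) :
    ∃ k, l ((1 + k) % (2 * (L + 1))) = l ((0 + k) % (2 * (L + 1))) + 1 ∧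
      l ((2 + k) % (2 * (L + 1))) = l ((0 + k) % (2 * (L + 1))) := by
  obtain ⟨p, hp, hmax⟩ := Finset.exists_max_image (range (2 * (L + 1))) l
    ⟨0, mem_range.2 (by omega)⟩
  rw [mem_range] at hp
  have hle : ∀ q, l (q % (2 * (L + 1))) ≤ l p := fun q =>
    hmax _ (mem_range.2 (Nat.mod_lt _ (by omega)))
  refine ⟨p + 2 * L + 1, ?_⟩
  have e1 : (1 + (p + 2 * L + 1)) % (2 * (L + 1)) = p := by
    rw [show 1 + (p + 2 * L + 1) = p + 2 * (L + 1) by ring, Nat.add_mod_right,
      Nat.mod_eq_of_lt hp]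
  have a1 := xlab_cyc (by omega) hl (0 + (p + 2 * L + 1))
  have a2 := xlab_cyc (by omega) hl (1 + (p + 2 * L + 1))
  rw [show 0 + (p + 2 * L + 1) + 1 = 1 + (p + 2 * L + 1) by ring] at a1
  rw [show 1 + (p + 2 * L + 1) + 1 = 2 + (p + 2 * L + 1) by ring] at a2
  have b0 := hle (0 + (p + 2 * L + 1))
  have b2 := hle (2 + (p + 2 * L + 1))
  rw [e1] at a1 a2 ⊢
  omega

theorem xlab_rot_le (x : ℝ) (A B : Set ℤ) (N L k : ℕ) (hL : 1 ≤ L) (l : ℕ → ℤ) :
    IE L (trunc N (xlabF x A B l))
      ≤ IE L (trunc N (xlabF x A B (fun p => l ((p + k) % (2 * L))))) := by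
  rw [← IE_rot L k (trunc N (xlabF x A B (fun p => l ((p + k) % (2 * L)))))]
  refine IE_mono fun t ht hp => ?_
  unfold trunc xlabF
  rw [rotN_edges k t ht, rotN_size k t ht]
  by_cases h1 : edges t < N
  · rw [if_pos h1, if_pos h1]
    by_cases h2 : Lab t l A B
    · have := lab_rot ht k h2 (by omega)
      rw [hp] at this
      rw [if_pos h2, if_pos this]
    · rw [if_neg h2]
      exact zero_le
  · rw [if_neg h1]
    exact zero_le

open Classical in
theorem xlab_face_le (x : ℝ) (A B : Set ℤ) (N L : ℕ) (l : ℕ → ℤ) (h1 : l 1 = l 0 + 1)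
    (h2 : l 2 = l 0) :
    IE (L + 2) (trunc N (fun t => xlabF x A B l (face t))) ≤ ENNReal.ofReal x *
      ((if l 0 + 2 ∈ B then IE (L + 2) (trunc N (xlabF x A B (ins l (l 0 + 1) (l 0 + 2)))) else 0)
        + IE (L + 2) (trunc N (xlabF x A B (ins l (l 0 + 1) (l 0))))
        + (if l 0 - 1 ∈ B then IE (L + 2) (trunc N (xlabF x A B (ins l (l 0 - 1) (l 0))))
            else 0)) := by
  have hz : IE (L + 2) (fun _ => 0) = 0 := by simp [IE]
  have e : ∀ (P : Prop) (G : Mp → ℝ≥0∞), (if P then IE (L + 2) G else 0)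
      = IE (L + 2) (fun t => if P then G t else 0) := by
    intro P G
    by_cases hP : P
    · simp only [if_pos hP]
    · simp only [if_neg hP, hz]
  rw [e, e, ← IE_add, ← IE_add, ← IE_const_mul]
  refine IE_mono fun t ht hp => ?_
  unfold trunc
  by_cases hN : edges t < N
  · simp only [if_pos hN]
    unfold xlabF
    by_cases hlab : Lab (face t) l A B
    · rw [if_pos hlab, size, pow_succ, mul_comm]
      refine mul_le_mul' le_rfl ?_
      rcases lab_face ⟨ht, by omega⟩ hlab h1 h2 with h | h | h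
      · rw [if_pos h.1, if_pos h.2, add_assoc]
        exact le_self_add
      · rw [if_pos h]
        exact le_trans le_add_self le_self_add
      · rw [if_pos h.1, if_pos h.2]
        exact le_add_self
    · rw [if_neg hlab]
      exact zero_le
  · simp only [if_neg hN]
    exact zero_le

theorem xlab_bridge_le (x : ℝ) (A B : Set ℤ) (N L : ℕ) (l : ℕ → ℤ) (h1 : l 1 = l 0 + 1)
    (h2 : l 2 = l 0) :
    ∑ j ∈ range (L + 1), IE j (trunc N (fun b =>
        IE (L + 1 - 1 - j) (trunc N (fun a => xlabF x A B l (bridge a b)))))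
      ≤ IE L (trunc N (xlabF x A B (fun p => l (p + 2)))) := by
  rw [Finset.sum_eq_single 0]
  · rw [IE_zero]
    refine le_trans (b := IE L (trunc N (fun a => xlabF x A B l (bridge a pt)))) ?_ ?_
    · unfold trunc
      split_ifs
      · exact le_rfl
      · exact zero_le
    · refine IE_mono fun a ha _ => ?_
      unfold trunc xlabF
      by_cases hN : edges a < N
      · rw [if_pos hN, if_pos hN]
        beta_reduce
        by_cases hlab : Lab (bridge a pt) l A B
        · rw [if_pos hlab, if_pos (lab_bridge (b := pt) ⟨ha, trivial⟩ hlab h1 h2).2]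
          exact le_rfl
        · rw [if_neg hlab]
          exact zero_le
      · rw [if_neg hN]
        exact zero_le
  · intro j _ hj
    have hz : ∀ i, IE i (fun _ => 0) = 0 := fun i => by simp [IE]
    refine le_antisymm (le_trans (IE_mono fun b hb hpb => ?_) (hz j).le) zero_le
    unfold trunc
    split_ifs
    · refine le_trans (IE_mono fun a ha _ => ?_) (hz _).le
      split_ifs
      · unfold xlabF
        beta_reduce
        rw [if_neg]
        intro hlab
        have := (lab_bridge ⟨ha, hb⟩ hlab h1 h2).1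
        subst this
        exact hj hpb.symm
      · exact le_rfl
    · exact le_rfl
  · intro h
    exact absurd (mem_range.2 (by omega)) h

open Classical in
theorem lab_bound (x : ℝ) (hx : 0 ≤ x) (A B : Set ℤ) (Ψ : ℕ → (ℕ → ℤ) → ℝ)
    (h0 : ∀ L l, Valid L l → (∀ p, p ≤ 2 * L → l p ∈ B) → 0 ≤ Ψ L l)
    (hrot : ∀ L l k, 1 ≤ L → Valid L l → Ψ L (fun p => l ((p + k) % (2 * L))) ≤ Ψ L l)
    (hbase : ∀ l, l 0 ∈ A → l 0 ∈ B → 1 ≤ Ψ 0 l)
    (hstep : ∀ L l, Valid (L + 1) l → (∀ p, p ≤ 2 * (L + 1) → l p ∈ B) → l 1 = l 0 + 1 →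
      l 2 = l 0 → Ψ L (fun p => l (p + 2)) + x / 12 *
        ((if l 0 + 2 ∈ B then Ψ (L + 2) (ins l (l 0 + 1) (l 0 + 2)) else 0)
          + Ψ (L + 2) (ins l (l 0 + 1) (l 0))
          + (if l 0 - 1 ∈ B then Ψ (L + 2) (ins l (l 0 - 1) (l 0)) else 0)) ≤ Ψ (L + 1) l)
    (L : ℕ) (l : ℕ → ℤ) (hl : Valid L l) (hB : ∀ p, p ≤ 2 * L → l p ∈ B) :
    IE L (fun t => if Lab t l A B then ENNReal.ofReal x ^ size t else 0)
      ≤ ENNReal.ofReal (Ψ L l) := by
  have key : ∀ N L l, Valid L l → (∀ p, p ≤ 2 * L → l p ∈ B) →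
      IE L (trunc N (xlabF x A B l)) ≤ ENNReal.ofReal (Ψ L l) := by
    intro N
    induction N with
    | zero =>
      intro L l _ _
      rw [IE_trunc_zero]
      exact zero_le
    | succ N ih =>
      have main : ∀ L l, Valid (L + 1) l → (∀ p, p ≤ 2 * (L + 1) → l p ∈ B) → l 1 = l 0 + 1 →
          l 2 = l 0 → IE (L + 1) (trunc (N + 1) (xlabF x A B l)) ≤ ENNReal.ofReal (Ψ (L + 1) l) := by
        intro L l hl hB h1 h2
        have hb1 : l 0 + 1 ∈ B := h1 ▸ hB 1 (by omega)
        have hb0 : l 0 ∈ B := hB 0 (by omega)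
        have v1 : Valid (L + 2) (ins l (l 0 + 1) (l 0 + 2)) :=
          xlab_valid_ins hl (by omega) (by omega) (by omega)
        have v2 : Valid (L + 2) (ins l (l 0 + 1) (l 0)) :=
          xlab_valid_ins hl (by omega) (by omega) (by omega)
        have v3 : Valid (L + 2) (ins l (l 0 - 1) (l 0)) :=
          xlab_valid_ins hl (by omega) (by omega) (by omega)
        have v4 := xlab_valid_shift hl h2
        have m2 := xlab_mem_ins hB hb1 hb0
        have m4 : ∀ p, p ≤ 2 * L → (fun p => l (p + 2)) p ∈ B := fun p hp => hB _ (by omega)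
        set a1 : ℝ := if l 0 + 2 ∈ B then Ψ (L + 2) (ins l (l 0 + 1) (l 0 + 2)) else 0 with ha1
        set a3 : ℝ := if l 0 - 1 ∈ B then Ψ (L + 2) (ins l (l 0 - 1) (l 0)) else 0 with ha3
        have p1 : 0 ≤ a1 := by
          rw [ha1]
          split_ifs with h
          · exact h0 _ _ v1 (xlab_mem_ins hB hb1 h)
          · exact le_rfl
        have p3 : 0 ≤ a3 := by
          rw [ha3]
          split_ifs with h
          · exact h0 _ _ v3 (xlab_mem_ins hB h hb0)
          · exact le_rfl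
        have p2 := h0 _ _ v2 m2
        have p4 := h0 _ _ v4 m4
        have i1 : (if l 0 + 2 ∈ B then
            IE (L + 2) (trunc N (xlabF x A B (ins l (l 0 + 1) (l 0 + 2)))) else 0)
            ≤ ENNReal.ofReal a1 := by
          rw [ha1]
          split_ifs with h
          · exact ih _ _ v1 (xlab_mem_ins hB hb1 h)
          · exact zero_le
        have i3 : (if l 0 - 1 ∈ B then
            IE (L + 2) (trunc N (xlabF x A B (ins l (l 0 - 1) (l 0)))) else 0)
            ≤ ENNReal.ofReal a3 := by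
          rw [ha3]
          split_ifs with h
          · exact ih _ _ v3 (xlab_mem_ins hB h hb0)
          · exact zero_le
        have i2 := ih _ _ v2 m2
        have i4 := ih _ _ v4 m4
        have hf := (xlab_face_le x A B N L l h1 h2).trans
          (mul_le_mul' le_rfl (add_le_add (add_le_add i1 i2) i3))
        have hb := (xlab_bridge_le x A B N L l h1 h2).trans i4
        refine (IE_root_trunc N (L + 1) (by omega) _).trans
          ((add_le_add (mul_le_mul' le_rfl hf) hb).trans ?_)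
        refine le_trans (le_of_eq ?_) (ENNReal.ofReal_le_ofReal (hstep L l hl hB h1 h2))
        have h12 : (12 : ℝ≥0∞)⁻¹ = ENNReal.ofReal (12 : ℝ)⁻¹ := by
          rw [ENNReal.ofReal_inv_of_pos (by norm_num)]
          norm_num
        rw [← ha1, ← ha3, h12, ← ENNReal.ofReal_add p1 p2,
          ← ENNReal.ofReal_add (add_nonneg p1 p2) p3, ← ENNReal.ofReal_mul hx,
          ← ENNReal.ofReal_mul (by norm_num),
          ← ENNReal.ofReal_add (by positivity) p4]
        congr 1
        ring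
      intro L l hl hB
      rcases L with _ | L
      · rw [IE_zero]
        unfold trunc xlabF
        split_ifs with h1 h2
        · rw [size, pow_zero]
          exact ENNReal.one_le_ofReal.2 (hbase l (lab_pt h2).1 (lab_pt h2).2)
        · exact zero_le
        · exact zero_le
      · obtain ⟨k, k1, k2⟩ := xlab_choose hl
        refine (xlab_rot_le x A B (N + 1) (L + 1) k (by omega) l).trans
          ((main L _ (xlab_valid_rot (by omega) hl k) (fun p _ => ?_) k1 k2).trans
            (ENNReal.ofReal_le_ofReal (hrot (L + 1) l k (by omega) hl)))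
        exact hB _ (Nat.mod_lt _ (by omega)).le
  exact IE_le_of_trunc fun N => key N L l hl hB

end Pool.Agent.P.MP_7a6434d8_pr
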