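import Pool.Agent.P.MP_7a6434d8_pr.Defs3
import Pool.Agent.P.MP_7a6434d8_pr.CountA

namespace Pool.Agent.P.MP_7a6434d8_pr

open Mp Finset
open scoped ENNReal

theorem zctxa_zero (n : ℕ) : countaT 0 n = if n = 0 then {pt} else ∅ := by
  ext t
  rw [counta_mem]
  split_ifs with h
  · subst h
    rw [mem_singleton]
    constructor
    · rintro ⟨h1, h2, -⟩
      exact eq_pt_of_per_zero t h1 h2
    · rintro rfl
      exact ⟨trivial, rfl, rfl⟩
  · simp only [notMem_empty, iff_false]
    rintro ⟨h1, h2, h3⟩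
    rw [eq_pt_of_per_zero t h1 h2] at h3
    exact h h3.symm

theorem zctxa_succ (L n : ℕ) (F : Mp → ℝ) : ∑ t ∈ countaT (L + 1) n, F t
    = (if n = 0 then 0 else ∑ t ∈ countaT (L + 2) (n - 1), F (face t))
      + ∑ j ∈ range (L + 1), ∑ p ∈ antidiagonal n,
          ∑ a ∈ countaT (L - j) p.1, ∑ b ∈ countaT j p.2, F (bridge a b) := by
  classical
  set A : Finset Mp := if n = 0 then ∅ else countaT (L + 2) (n - 1) with hA
  set B : Finset (Σ _ : ℕ × ℕ × ℕ, Mp × Mp) := (range (L + 1) ×ˢ antidiagonal n).sigma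
    (fun x => countaT (L - x.1) x.2.1 ×ˢ countaT x.1 x.2.2) with hB
  have hcA : (if n = 0 then 0 else ∑ t ∈ countaT (L + 2) (n - 1), F (face t))
      = ∑ t ∈ A, F (face t) := by
    rw [hA]
    split_ifs <;> simp
  have hcB : ∑ j ∈ range (L + 1), ∑ p ∈ antidiagonal n,
      ∑ a ∈ countaT (L - j) p.1, ∑ b ∈ countaT j p.2, F (bridge a b)
        = ∑ x ∈ B, F (bridge x.2.1 x.2.2) := by
    rw [hB, sum_sigma, sum_product]
    simp only [sum_product]
  have memA : ∀ t, t ∈ A ↔ face t ∈ countaT (L + 1) n := by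
    intro t
    rw [hA, counta_mem]
    simp only [ok, per, size]
    split_ifs with h
    · simp only [notMem_empty, false_iff]
      omega
    · rw [counta_mem]
      constructor
      · rintro ⟨h1, h2, h3⟩
        exact ⟨⟨h1, by omega⟩, by omega, by omega⟩
      · rintro ⟨⟨h1, h2⟩, h3, h4⟩
        exact ⟨h1, by omega, by omega⟩
  have hinjB : Set.InjOn (fun x : (Σ _ : ℕ × ℕ × ℕ, Mp × Mp) => bridge x.2.1 x.2.2) B := by
    rintro ⟨⟨j, p, q⟩, a, b⟩ hx ⟨⟨j', p', q'⟩, a', b'⟩ hy hxy
    simp only [hB, coe_sigma, Set.mem_sigma_iff, mem_coe, mem_product, counta_mem] at hx hy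
    simp only [bridge.injEq] at hxy
    obtain ⟨rfl, rfl⟩ := hxy
    obtain ⟨-, ⟨-, -, h1⟩, -, h2, h3⟩ := hx
    obtain ⟨-, ⟨-, -, h1'⟩, -, h2', h3'⟩ := hy
    subst h1 h2 h3
    subst h1' h2' h3'
    rfl
  have hdisj : Disjoint (A.image face)
      (B.image (fun x : (Σ _ : ℕ × ℕ × ℕ, Mp × Mp) => bridge x.2.1 x.2.2)) := by
    rw [disjoint_left]
    intro t h1 h2
    obtain ⟨s, -, rfl⟩ := mem_image.1 h1
    obtain ⟨x, -, hx⟩ := mem_image.1 h2
    cases hx
  rw [hcA, hcB, ← sum_image (s := A) (g := face) (f := F) (fun _ _ _ _ h => face.inj h),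
    ← sum_image (f := F) hinjB, ← sum_union hdisj]
  congr 1
  ext t
  rw [mem_union, mem_image, mem_image]
  constructor
  · intro ht
    cases t with
    | pt =>
      have := ((counta_mem _ _ _).1 ht).2.1
      simp [per] at this
    | face s => exact Or.inl ⟨s, (memA s).2 ht, rfl⟩
    | bridge a b =>
      obtain ⟨⟨h1, h2⟩, h3, h4⟩ := (counta_mem _ _ _).1 ht
      simp only [per, size] at h3 h4
      refine Or.inr ⟨⟨⟨per b, size a, size b⟩, a, b⟩, ?_, rfl⟩
      simp only [hB, mem_sigma, mem_product, mem_range, HasAntidiagonal.mem_antidiagonal,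
        counta_mem]
      exact ⟨⟨by omega, h4⟩, ⟨h1, by omega, trivial⟩, h2, trivial, trivial⟩
  · rintro (⟨s, hs, rfl⟩ | ⟨⟨⟨j, p, q⟩, a, b⟩, hx, rfl⟩)
    · exact (memA s).1 hs
    · simp only [hB, mem_sigma, mem_product, mem_range, HasAntidiagonal.mem_antidiagonal,
        counta_mem] at hx
      obtain ⟨⟨h0, h1⟩, ⟨h2, h3, h4⟩, h5, h6, h7⟩ := hx
      rw [counta_mem]
      simp only [ok, per, size]
      exact ⟨⟨h2, h5⟩, by omega, by omega⟩

/-- number of one-hole contexts -/
noncomputable def zctxaK (L : ℕ) : ℕ → ℕ → ℝ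
  | 0, n => if 0 = L ∧ n = 0 then 1 else 0
  | M + 1, n => (if M + 1 = L ∧ n = 0 then 1 else 0)
      + (if _h : n = 0 then 0 else zctxaK L (M + 2) (n - 1))
      + ∑ j ∈ range (M + 1), ∑ p ∈ antidiagonal n,
        ((if _h : 2 * p.1 + (M - j) < 2 * n + (M + 1) then zctxaK L (M - j) p.1 else 0)
            * ((countaT j p.2).card : ℝ)
          + ((countaT (M - j) p.1).card : ℝ)
            * (if _h : 2 * p.2 + j < 2 * n + (M + 1) then zctxaK L j p.2 else 0))
termination_by M n => 2 * n + M
decreasing_by all_goals omega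

theorem zctxa_k_succ (L M n : ℕ) : zctxaK L (M + 1) n = (if M + 1 = L ∧ n = 0 then 1 else 0)
    + (if n = 0 then 0 else zctxaK L (M + 2) (n - 1))
    + ∑ j ∈ range (M + 1), ∑ p ∈ antidiagonal n,
      (zctxaK L (M - j) p.1 * ((countaT j p.2).card : ℝ)
        + ((countaT (M - j) p.1).card : ℝ) * zctxaK L j p.2) := by
  rw [zctxaK]
  congr 1
  refine sum_congr rfl fun j hj => sum_congr rfl fun p hp => ?_
  have h1 := mem_range.1 hj
  have h2 := mem_antidiagonal.1 hp
  rw [dif_pos (by omega), dif_pos (by omega)]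

theorem zctxa_k_nonneg (L : ℕ) : ∀ e M n, 2 * n + M < e → 0 ≤ zctxaK L M n := by
  intro e
  induction e with
  | zero => intro M n h; omega
  | succ e ih =>
    intro M n h
    cases M with
    | zero =>
      rw [zctxaK]
      split_ifs <;> norm_num
    | succ M =>
      rw [zctxa_k_succ]
      refine add_nonneg (add_nonneg ?_ ?_) (sum_nonneg fun j hj => sum_nonneg fun p hp => ?_)
      · split_ifs <;> norm_num
      · split_ifs with h0
        · exact le_rfl
        · exact ih _ _ (by omega)
      · have h1 := mem_range.1 hj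
        have h2 := mem_antidiagonal.1 hp
        exact add_nonneg (mul_nonneg (ih _ _ (by omega)) (Nat.cast_nonneg _))
          (mul_nonneg (Nat.cast_nonneg _) (ih _ _ (by omega)))

open PowerSeries in
theorem zctxa_series (L M : ℕ) : PowerSeries.mk (zctxaK L (M + 1))
    = (if M + 1 = L then 1 else 0) + X * PowerSeries.mk (zctxaK L (M + 2))
      + ∑ j ∈ range (M + 1),
        (PowerSeries.mk (zctxaK L (M - j)) * PowerSeries.mk (fun k => ((countaT j k).card : ℝ))
          + PowerSeries.mk (fun k => ((countaT (M - j) k).card : ℝ))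
            * PowerSeries.mk (zctxaK L j)) := by
  ext n
  rw [coeff_mk, zctxa_k_succ, map_add, map_add, map_sum]
  congr 1
  · congr 1
    · by_cases h : M + 1 = L
      · simp [h, coeff_one]
      · simp [h]
    · cases n with
      | zero => simp
      | succ n => simp [coeff_succ_X_mul]
  · refine sum_congr rfl fun j _ => ?_
    rw [map_add, coeff_mul, coeff_mul, ← sum_add_distrib]
    simp only [coeff_mk]

open PowerSeries in
theorem zctxa_main (L : ℕ) (φ : Mp → ℝ) : ∀ e M N, 2 * N + M < e →
    ∑ t ∈ countaT M N, subSum (fun s => if per s = L then φ s else 0) t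
      = coeff N (PowerSeries.mk (zctxaK L M) * PowerSeries.mk fun k => ∑ s ∈ countaT L k, φ s) := by
  intro e
  set ψ : Mp → ℝ := fun s => if per s = L then φ s else 0 with hψ
  set S : PowerSeries ℝ := PowerSeries.mk fun k => ∑ s ∈ countaT L k, φ s with hS
  have root : ∀ M N, ∑ t ∈ countaT M N, ψ t = coeff N ((if M = L then 1 else 0) * S) := by
    intro M N
    by_cases h : M = L
    · subst h
      rw [if_pos rfl, one_mul, hS, coeff_mk]
      exact sum_congr rfl fun t ht => if_pos ((counta_mem _ _ _).1 ht).2.1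
    · rw [if_neg h, zero_mul, map_zero]
      exact sum_eq_zero fun t ht => if_neg (by rw [((counta_mem _ _ _).1 ht).2.1]; exact h)
  induction e with
  | zero => intro M N h; omega
  | succ e ih =>
    intro M N h
    cases M with
    | zero =>
      have h1 : PowerSeries.mk (zctxaK L 0) = if 0 = L then 1 else 0 := by
        ext n
        rw [coeff_mk, zctxaK]
        by_cases h : 0 = L
        · simp [h, coeff_one]
        · simp [h]
      rw [h1, ← root]
      refine sum_congr rfl fun t ht => ?_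
      obtain ⟨h2, h3, -⟩ := (counta_mem _ _ _).1 ht
      rw [eq_pt_of_per_zero t h2 h3]
      rfl
    | succ M =>
      have h1 : ∑ t ∈ countaT (M + 1) N, subSum ψ t
          = ∑ t ∈ countaT (M + 1) N, ψ t + ∑ t ∈ countaT (M + 1) N, (subSum ψ t - ψ t) := by
        rw [← sum_add_distrib]
        exact sum_congr rfl fun t _ => by ring
      rw [h1, root, zctxa_succ M N (fun t => subSum ψ t - ψ t), zctxa_series, add_mul, add_mul,
        map_add, map_add, add_assoc, sum_mul, map_sum]
      congr 2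
      · cases N with
        | zero => simp [mul_assoc]
        | succ N =>
          rw [if_neg (Nat.succ_ne_zero N), mul_assoc, coeff_succ_X_mul, Nat.add_sub_cancel,
            ← ih _ _ (by omega)]
          exact sum_congr rfl fun t _ => by simp [subSum]
      · refine sum_congr rfl fun j hj => ?_
        have h2 := mem_range.1 hj
        rw [add_mul, mul_right_comm, mul_assoc _ (PowerSeries.mk (zctxaK L j)), map_add,
          coeff_mul N (_ * S), coeff_mul N _ (_ * S), ← sum_add_distrib]
        refine sum_congr rfl fun p hp => ?_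
        have h3 := mem_antidiagonal.1 hp
        rw [← ih _ _ (by omega), ← ih _ _ (by omega), coeff_mk, coeff_mk]
        have h4 : ∀ a b, subSum ψ (bridge a b) - ψ (bridge a b) = subSum ψ a + subSum ψ b := by
          intro a b
          simp only [subSum]
          ring
        simp only [h4, sum_add_distrib, sum_const, nsmul_eq_mul]
        rw [← mul_sum, mul_comm]

theorem ctx_kappa : ∃ κ : ℕ → ℕ → ℝ, (∀ L n, 0 ≤ κ L n) ∧ ∀ (L N : ℕ) (φ : Mp → ℝ),
    ∑ t ∈ countaT 2 N, subSum (fun s => if per s = L then φ s else 0) t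
      = ∑ k ∈ range (N + 1), κ L (N - k) * ∑ s ∈ countaT L k, φ s := by
  refine ⟨fun L n => zctxaK L 2 n, fun L n => zctxa_k_nonneg L _ 2 n (Nat.lt_succ_self _),
    fun L N φ => ?_⟩
  rw [zctxa_main L φ _ 2 N (Nat.lt_succ_self _), mul_comm, PowerSeries.coeff_mul,
    Nat.sum_antidiagonal_eq_sum_range_succ_mk]
  refine sum_congr rfl fun k _ => ?_
  simp only [PowerSeries.coeff_mk]
  rw [mul_comm]

end Pool.Agent.P.MP_7a6434d8_pr
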