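import Pool.Agent.P.MP_7a6434d8_pr.Defs2
import Pool.Agent.P.MP_7a6434d8_pr.PeelA
import Pool.Agent.P.MP_7a6434d8_pr.PeelB

namespace Pool.Agent.P.MP_7a6434d8_pr

open Mp Finset
open scoped ENNReal

theorem faceV_faceAt (k : ℕ) (t' : Mp) (ht' : ok t') (hk : k + 2 < 2 * per t') :
    FaceV k (faceAt k t') t' := by
  have I := isFace_faceAt k t' ht' hk
  have hp := I.per_eq
  obtain ⟨E, h1, h2, h3⟩ := peela_data k (per (faceAt k t')) t' ht' hp I.lt
  exact ⟨I, E, h1, h2, h3⟩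

theorem brV_brR (m : ℕ) (W1 W2 : Mp) (h1 : ok W1) (h2 : ok W2) (hm : m ≤ 2 * per W1) :
    BrV m (brR m W1 W2) W1 W2 := by
  have hA : ok (rotN m W1) := rotN_ok m W1 h1
  have hAp : per (rotN m W1) = per W1 := rotN_per m W1 h1
  have hs : ok (bridge (rotN m W1) W2) := ⟨hA, h2⟩
  have hsp : per (bridge (rotN m W1) W2) = per W1 + per W2 + 1 := by
    show per (rotN m W1) + per W2 + 1 = _
    rw [hAp]
  obtain ⟨e, he, hb⟩ := rotN_shift (2 * (per W1 + per W2 + 1) - m) _ hs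
  obtain ⟨e1, he1, hb1⟩ := rotN_shift m W1 h1
  have hb1' : ∀ q r, q ≤ 2 * per W1 → r ≤ 2 * per W1 → (q + m = r ∨ q + m = r + 2 * per W1) →
      e1 (bv (rotN m W1) q) = bv W1 r := fun q r hq hr h => by
    rw [hb1 q hq, peelb_bv_mod W1 h1 _ r hr h]
  have hb' : ∀ p r, p ≤ 2 * (per W1 + per W2 + 1) → r ≤ 2 * (per W1 + per W2 + 1) →
      (p + (2 * (per W1 + per W2 + 1) - m) = r ∨
        p + (2 * (per W1 + per W2 + 1) - m) = r + 2 * (per W1 + per W2 + 1)) →
      e (bv (brR m W1 W2) p) = bv (bridge (rotN m W1) W2) r := fun p r hp hr h => by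
    have := hb p (by rw [hsp]; exact hp)
    rw [peelb_bv_mod _ hs _ r (by rw [hsp]; exact hr) (by rw [hsp]; exact h)] at this
    exact this
  refine ⟨isBr_brR m W1 W2 h1 h2 hm,
    (e.trans (Equiv.sumCongr e1 (Equiv.refl (V W2)))), ?_, ?_, ?_, ?_⟩
  · intro f
    refine (he (fun y => f (Sum.map e1 id y))).trans ?_
    show energy (rotN m W1) (fun x => f (Sum.inl (e1 x))) + energy W2 (fun x => f (Sum.inr x)) +
      (f (Sum.inl (e1 (bv (rotN m W1) 0))) - f (Sum.inr (bv W2 0))) ^ 2 = _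
    rw [he1 (fun x => f (Sum.inl x)), hb1' 0 m (by omega) hm (Or.inl (by omega))]
  · intro p hp
    show Sum.map e1 id (e (bv (brR m W1 W2) p)) = _
    rw [hb' p (p + 2 * per W1 - m + 2 * per W2 + 2) (by omega) (by omega) (Or.inl (by omega)),
      peelb_bv_out _ _ _ (p + 2 * per W1 - m) rfl]
    show Sum.inl (e1 _) = _
    rw [hb1' _ p (by omega) (by omega) (Or.inr (by omega))]
  · intro p hp
    show Sum.map e1 id (e (bv (brR m W1 W2) (m + 1 + p))) = _
    rw [hb' _ (p + 1) (by omega) (by omega) (Or.inr (by omega)),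
      peelb_bv_mid _ _ _ p hp rfl]
    rfl
  · intro p hp hp'
    show Sum.map e1 id (e (bv (brR m W1 W2) (p + 2 * per W2 + 2))) = _
    rw [hb' _ (p - m + 2 * per W2 + 2) (by omega) (by omega) (Or.inr (by omega)),
      peelb_bv_out _ _ _ (p - m) rfl]
    show Sum.inl (e1 _) = _
    rw [hb1' _ p (by omega) (by omega) (Or.inl (by omega))]

theorem brV_brL (m : ℕ) (W1 W2 : Mp) (h1 : ok W1) (h2 : ok W2) (hm : m ≤ 2 * per W1) :
    BrV m (brL m W1 W2) W1 W2 := by
  have hA : ok (rotN m W1) := rotN_ok m W1 h1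
  have hAp : per (rotN m W1) = per W1 := rotN_per m W1 h1
  have hs : ok (bridge W2 (rotN m W1)) := ⟨h2, hA⟩
  have hsp : per (bridge W2 (rotN m W1)) = per W1 + per W2 + 1 := by
    show per W2 + per (rotN m W1) + 1 = _
    rw [hAp]
    omega
  obtain ⟨e, he, hb⟩ := rotN_shift (2 * (per W1 + per W2 + 1) - (m + 2 * per W2 + 1)) _ hs
  obtain ⟨e1, he1, hb1⟩ := rotN_shift m W1 h1
  have hb1' : ∀ q r, q ≤ 2 * per W1 → r ≤ 2 * per W1 → (q + m = r ∨ q + m = r + 2 * per W1) →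
      e1 (bv (rotN m W1) q) = bv W1 r := fun q r hq hr h => by
    rw [hb1 q hq, peelb_bv_mod W1 h1 _ r hr h]
  have hb' : ∀ p r, p ≤ 2 * (per W1 + per W2 + 1) → r ≤ 2 * (per W1 + per W2 + 1) →
      (p + (2 * (per W1 + per W2 + 1) - (m + 2 * per W2 + 1)) = r ∨
        p + (2 * (per W1 + per W2 + 1) - (m + 2 * per W2 + 1)) =
          r + 2 * (per W1 + per W2 + 1)) →
      e (bv (brL m W1 W2) p) = bv (bridge W2 (rotN m W1)) r := fun p r hp hr h => by
    have := hb p (by rw [hsp]; exact hp)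
    rw [peelb_bv_mod _ hs _ r (by rw [hsp]; exact hr) (by rw [hsp]; exact h)] at this
    exact this
  refine ⟨isBr_brL m W1 W2 h1 h2 hm,
    (e.trans ((Equiv.sumComm (V W2) (V (rotN m W1))).trans
      (Equiv.sumCongr e1 (Equiv.refl (V W2))))), ?_, ?_, ?_, ?_⟩
  · intro f
    refine (he (fun y => f (Sum.map e1 id (Sum.swap y)))).trans ?_
    show energy W2 (fun x => f (Sum.inr x)) + energy (rotN m W1) (fun x => f (Sum.inl (e1 x))) +
      (f (Sum.inr (bv W2 0)) - f (Sum.inl (e1 (bv (rotN m W1) 0)))) ^ 2 = _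
    rw [he1 (fun x => f (Sum.inl x)), hb1' 0 m (by omega) hm (Or.inl (by omega))]
    ring
  · intro p hp
    show Sum.map e1 id (Sum.swap (e (bv (brL m W1 W2) p))) = _
    rw [hb' p (p + 2 * per W1 - m + 1) (by omega) (by omega) (Or.inl (by omega)),
      peelb_bv_mid _ _ _ (p + 2 * per W1 - m) (by omega) rfl]
    show Sum.inl (e1 _) = _
    rw [hb1' _ p (by omega) (by omega) (Or.inr (by omega))]
  · intro p hp
    show Sum.map e1 id (Sum.swap (e (bv (brL m W1 W2) (m + 1 + p)))) = _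
    rw [hb' _ (p + 2 * per W1 + 2) (by omega) (by omega) (Or.inl (by omega)),
      peelb_bv_out _ _ _ p (by rw [hAp])]
    rfl
  · intro p hp hp'
    show Sum.map e1 id (Sum.swap (e (bv (brL m W1 W2) (p + 2 * per W2 + 2)))) = _
    rw [hb' _ (p - m + 1) (by omega) (by omega) (Or.inr (by omega)),
      peelb_bv_mid _ _ _ (p - m) (by omega) rfl]
    show Sum.inl (e1 _) = _
    rw [hb1' _ p (by omega) (by omega) (Or.inl (by omega))]

end Pool.Agent.P.MP_7a6434d8_pr
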