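import Pool.Agent.P.MP_7a6434d8_pr.Exist
import Pool.Agent.P.MP_7a6434d8_pr.Unique
import Pool.Agent.P.MP_7a6434d8_pr.DartD

namespace Pool.Agent.P.MP_7a6434d8_pr

open Mp Finset
open scoped ENNReal

theorem rota_map_iter {D : Type} {α φ : D → D} {t : Mp} {θ : Dt t → D} (E : Emb α φ t θ)
    (m : ℕ) (x : Dt t) : θ ((ph t)^[m] x) = φ^[m] (θ x) := by
  induction m with
  | zero => rfl
  | succ m ih => rw [Function.iterate_succ_apply', Function.iterate_succ_apply', E.map_ph, ih]

theorem rota_lt_of_bd (t : Mp) (ht : ok t) (k : ℕ) (d : Dt t) (h : bd t k = some d) :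
    k < 2 * per t := by
  by_contra hk
  rw [(bd_eq_none t ht k).2 (not_lt.1 hk)] at h
  cases h

theorem rota_iter_iff (t : Mp) (ht : ok t) (k m : ℕ) (d : Dt t) (h : bd t k = some d) :
    (ph t)^[m] d = d ↔ 2 * per t ∣ m := by
  have hk := rota_lt_of_bd t ht k d h
  have hi := bd_iter t ht k m d h
  constructor
  · intro e
    rw [e] at hi
    have h1 := bd_inj t ht _ _ d hi h
    have h2 : (k + m) % (2 * per t) = k % (2 * per t) := by rw [h1, Nat.mod_eq_of_lt hk]
    have h3 : k + 0 ≡ k + m [MOD 2 * per t] := by simpa [Nat.ModEq] using h2.symm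
    have h4 : 0 ≡ m [MOD 2 * per t] := Nat.ModEq.add_left_cancel' k h3
    exact (Nat.modEq_zero_iff_dvd.1 h4.symm)
  · rintro ⟨c, rfl⟩
    rw [Nat.add_mul_mod_self_left, Nat.mod_eq_of_lt hk, h] at hi
    exact (Option.some.inj hi).symm

theorem rot_exists (t : Mp) (ht : ok t) (k : ℕ) : ∃ t', ok t' ∧ RotIso k t t' := by
  obtain ⟨t', ht', θ, E, hS, hr⟩ := exists_real _ _ _ _ (good_real t ht k)
  exact ⟨t', ht', θ, E, fun d => (hS d).1 (Finset.mem_univ d), hr⟩

theorem rota_spec (k : ℕ) (t : Mp) (ht : ok t) : ok (rotN k t) ∧ RotIso k t (rotN k t) := by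
  have h := rot_exists t ht k
  unfold rotN
  rw [dif_pos h]
  exact h.choose_spec

theorem rotN_ok (k : ℕ) (t : Mp) (ht : ok t) : ok (rotN k t) := (rota_spec k t ht).1

theorem rotN_iso (k : ℕ) (t : Mp) (ht : ok t) : RotIso k t (rotN k t) := (rota_spec k t ht).2

theorem RotIso.per_eq {k : ℕ} {t t' : Mp} (ht : ok t) (ht' : ok t') (H : RotIso k t t') :
    per t' = per t := by
  obtain ⟨θ, E, -, hr⟩ := H
  cases hx : bd t' 0 with
  | none =>
    rw [hx] at hr
    have h1 := (bd_eq_none t' ht' 0).1 hx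
    have h2 := (bd_eq_none t ht _).1 hr.symm
    have h3 : per t = 0 := by
      by_contra h
      have := Nat.mod_lt k (show 0 < 2 * per t by omega)
      omega
    omega
  | some x =>
    rw [hx] at hr
    have key : ∀ m, 2 * per t' ∣ m ↔ 2 * per t ∣ m := by
      intro m
      rw [← rota_iter_iff t' ht' 0 m x hx, ← rota_iter_iff t ht _ m (θ x) hr.symm,
        ← rota_map_iter E]
      exact E.inj.eq_iff.symm
    have := Nat.dvd_antisymm ((key _).2 dvd_rfl) ((key _).1 dvd_rfl)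
    omega

theorem rotN_per (k : ℕ) (t : Mp) (ht : ok t) : per (rotN k t) = per t :=
  (rotN_iso k t ht).per_eq ht (rotN_ok k t ht)

theorem rotN_edges (k : ℕ) (t : Mp) (ht : ok t) : edges (rotN k t) = edges t := by
  obtain ⟨θ, E, hs, -⟩ := rotN_iso k t ht
  have h := Fintype.card_of_bijective (f := θ) ⟨E.inj, hs⟩
  rw [card_Dt, card_Dt] at h
  omega

theorem rotN_size (k : ℕ) (t : Mp) (ht : ok t) : size (rotN k t) = size t := by
  have h1 := rotN_edges k t ht
  have h2 := rotN_per k t ht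
  have h3 := edges_eq t ht
  have h4 := edges_eq _ (rotN_ok k t ht)
  omega

theorem rota_symm {k : ℕ} {t s : Mp} (ht : ok t) (hs : ok s) (H : RotIso k t s) :
    RotIso (2 * per t - k % (2 * per t)) s t := by
  have hp := H.per_eq ht hs
  obtain ⟨θ, E, hsur, hr⟩ := H
  let e : Dt s ≃ Dt t := Equiv.ofBijective θ ⟨E.inj, hsur⟩
  have he : ∀ x, e.symm (θ x) = x := fun x => e.symm_apply_apply x
  refine ⟨e.symm, ⟨e.symm.injective, fun y => ?_, fun y => ?_⟩, e.symm.surjective, ?_⟩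
  · obtain ⟨x, rfl⟩ := hsur y
    rw [← E.map_al, he, he]
  · obtain ⟨x, rfl⟩ := hsur y
    rw [← E.map_ph, he, he]
  · cases hx : bd s 0 with
    | none =>
      have h1 := (bd_eq_none s hs 0).1 hx
      rw [(bd_eq_none t ht 0).2 (by omega), (bd_eq_none s hs _).2 (by omega)]
      rfl
    | some x =>
      rw [hx] at hr
      have hk := rota_lt_of_bd t ht _ _ hr.symm
      have h1 := bd_iter t ht _ (2 * per t - k % (2 * per t)) _ hr.symm
      have h2 := bd_iter s hs 0 (2 * per t - k % (2 * per t)) _ hx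
      rw [Nat.add_sub_cancel' hk.le, Nat.mod_self, ← rota_map_iter E] at h1
      rw [zero_add] at h2
      rw [h1, h2, Option.map_some, he]

theorem rota_unique {j : ℕ} {s t1 t2 : Mp} (h1 : ok t1) (h2 : ok t2) (H1 : RotIso j s t1)
    (H2 : RotIso j s t2) : t1 = t2 := by
  obtain ⟨θ1, E1, -, r1⟩ := H1
  obtain ⟨θ2, E2, -, r2⟩ := H2
  exact unique_real _ _ t1 t2 h1 h2 θ1 θ2 E1 E2 (r1.trans r2.symm)

theorem rotN_inj (k : ℕ) (t1 t2 : Mp) (h1 : ok t1) (h2 : ok t2) (h : rotN k t1 = rotN k t2) :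
    t1 = t2 := by
  have H1 := rota_symm h1 (rotN_ok k t1 h1) (rotN_iso k t1 h1)
  have H2 := rota_symm h2 (rotN_ok k t2 h2) (rotN_iso k t2 h2)
  have hp : per t1 = per t2 := by rw [← rotN_per k t1 h1, h, rotN_per k t2 h2]
  rw [h, hp] at H1
  exact rota_unique h1 h2 H1 H2

theorem rotN_surj (k : ℕ) (t' : Mp) (ht' : ok t') : ∃ t, ok t ∧ rotN k t = t' := by
  by_cases h0 : per t' = 0
  · refine ⟨t', ht', ?_⟩
    rw [eq_pt_of_per_zero _ (rotN_ok k t' ht') (by rw [rotN_per k t' ht', h0]),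
      eq_pt_of_per_zero _ ht' h0]
  · set j := 2 * per t' - k % (2 * per t') with hj
    have ht := rotN_ok j t' ht'
    have hp := rotN_per j t' ht'
    refine ⟨rotN j t', ht, ?_⟩
    have H := rota_symm ht' ht (rotN_iso j t' ht')
    have hlt := Nat.mod_lt k (show 0 < 2 * per t' by omega)
    have hm : (2 * per t' - j % (2 * per t')) % (2 * per t') = k % (2 * per t') := by
      by_cases hr : k % (2 * per t') = 0
      · rw [hj, hr, Nat.sub_zero, Nat.mod_self, Nat.sub_zero, Nat.mod_self]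
      · have h1 : j % (2 * per t') = j := Nat.mod_eq_of_lt (by omega)
        have h2 : 2 * per t' - j = k % (2 * per t') := by omega
        rw [h1, h2, Nat.mod_mod]
    have H' : RotIso k (rotN j t') t' := by
      obtain ⟨θ, E, hs, hr⟩ := H
      refine ⟨θ, E, hs, ?_⟩
      rw [hr, hp, hm]
    exact rota_unique (rotN_ok k _ ht) ht' (rotN_iso k _ ht) H'

end Pool.Agent.P.MP_7a6434d8_pr
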