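import Pool.Agent.P.MP_7a6434d8_pr.Defs3
import Pool.Agent.P.MP_7a6434d8_pr.XGraphB

namespace Pool.Agent.P.MP_7a6434d8_pr

open Mp Finset
open scoped ENNReal

theorem dg_nonneg (t : Mp) (x : V t) : 0 ≤ dg t x := energy_nonneg _ _

open Classical in
theorem dg_face_le (t : Mp) (x : V t) : dg (face t) x ≤
    dg t x + (if x = bv t 0 then 1 else 0) + (if x = bv t 3 then 1 else 0) := by
  have h : dg (face t) x = dg t x +
      ((if bv t 0 = x then (1 : ℝ) else 0) - (if bv t 3 = x then 1 else 0)) ^ 2 := rfl
  rw [h]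
  simp only [eq_comm (a := x)]
  split_ifs <;> linarith

open Classical in
theorem dg_inl (a b : Mp) (x : V a) :
    dg (bridge a b) (Sum.inl x) = dg a x + (if x = bv a 0 then 1 else 0) := by
  have h : ∀ f : V a ⊕ V b → ℝ, (∀ y, f (Sum.inl y) = if y = x then 1 else 0) →
      (∀ y, f (Sum.inr y) = 0) →
      energy (bridge a b) f = dg a x + (if x = bv a 0 then 1 else 0) := fun f h1 h2 => by
    change energy a (fun y => f (Sum.inl y)) + energy b (fun y => f (Sum.inr y)) +
      (f (Sum.inl (bv a 0)) - f (Sum.inr (bv b 0))) ^ 2 = _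
    simp only [h1, h2, energy_const, eq_comm (a := x)]
    unfold dg
    split_ifs <;> norm_num
  refine h _ (fun y => ?_) fun y => if_neg fun hh => Sum.inr_ne_inl hh
  by_cases hy : y = x
  · exact (if_pos (congrArg Sum.inl hy)).trans (if_pos hy).symm
  · exact (if_neg fun hh => hy (Sum.inl.inj hh)).trans (if_neg hy).symm

open Classical in
theorem dg_inr (a b : Mp) (x : V b) :
    dg (bridge a b) (Sum.inr x) = dg b x + (if x = bv b 0 then 1 else 0) := by
  have h : ∀ f : V a ⊕ V b → ℝ, (∀ y, f (Sum.inr y) = if y = x then 1 else 0) →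
      (∀ y, f (Sum.inl y) = 0) →
      energy (bridge a b) f = dg b x + (if x = bv b 0 then 1 else 0) := fun f h1 h2 => by
    change energy a (fun y => f (Sum.inl y)) + energy b (fun y => f (Sum.inr y)) +
      (f (Sum.inl (bv a 0)) - f (Sum.inr (bv b 0))) ^ 2 = _
    simp only [h1, h2, energy_const, eq_comm (a := x)]
    unfold dg
    split_ifs <;> norm_num
  refine h _ (fun y => ?_) fun y => if_neg fun hh => Sum.inl_ne_inr hh
  by_cases hy : y = x
  · exact (if_pos (congrArg Sum.inr hy)).trans (if_pos hy).symm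
  · exact (if_neg fun hh => hy (Sum.inr.inj hh)).trans (if_neg hy).symm

theorem sum_dg_le (t : Mp) : ∑ x, dg t x ≤ 2 * (edges t : ℝ) := by
  classical
  induction t with
  | pt => exact (sum_nonpos fun x _ => le_rfl).trans (by positivity)
  | face t ih =>
    change ∑ x : V t, dg (face t) x ≤ 2 * ((edges t + 1 : ℕ) : ℝ)
    refine (sum_le_sum fun x _ => dg_face_le t x).trans ?_
    simp only [sum_add_distrib, sum_ite_eq', mem_univ, if_true]
    push_cast
    linarith
  | bridge a b iha ihb =>
    change ∑ x : V a ⊕ V b, dg (bridge a b) x ≤ 2 * ((edges a + edges b + 1 : ℕ) : ℝ)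
    rw [Fintype.sum_sum_type]
    simp only [dg_inl, dg_inr, sum_add_distrib, sum_ite_eq', mem_univ, if_true]
    push_cast
    linarith

theorem within_edges (t : Mp) (ht : ok t) (x y : V t) : Within t (edges t) x y := by
  induction t with
  | pt => exact rfl
  | face t ih =>
    exact (Within.map (t := face t) (s := t) id (fun _ _ h => Or.inl h) (ih ht.1 x y)).mono
      (Nat.le_succ _)
  | bridge a b iha ihb =>
    have ha : ∀ u v : V a, Within (bridge a b) (edges a) (Sum.inl u) (Sum.inl v) := fun u v =>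
      Within.map (t := bridge a b) (s := a) Sum.inl (fun _ _ h => h) (iha ht.1 u v)
    have hb : ∀ u v : V b, Within (bridge a b) (edges b) (Sum.inr u) (Sum.inr v) := fun u v =>
      Within.map (t := bridge a b) (s := b) Sum.inr (fun _ _ h => h) (ihb ht.2 u v)
    have he : edges (bridge a b) = edges a + edges b + 1 := rfl
    have hab : ∀ (u : V a) (v : V b),
        Within (bridge a b) (edges (bridge a b)) (Sum.inl u) (Sum.inr v) := fun u v => by
      have h1 : Within (bridge a b) 1 (Sum.inl (bv a 0)) (Sum.inr (bv b 0)) :=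
        xgraphb_one (t := bridge a b) ⟨rfl, rfl⟩
      exact (((ha u (bv a 0)).trans h1).trans (hb (bv b 0) v)).mono (by omega)
    rcases x with x | x <;> rcases y with y | y
    · exact (ha x y).mono (by omega)
    · exact hab x y
    · exact (hab y x).symm
    · exact (hb x y).mono (by omega)

theorem subSum_mono {φ ψ : Mp → ℝ} (h : ∀ s, ok s → φ s ≤ ψ s) (t : Mp) (ht : ok t) :
    subSum φ t ≤ subSum ψ t := by
  induction t with
  | pt => exact h _ ht
  | face t ih => exact add_le_add (h _ ht) (ih ht.1)
  | bridge a b iha ihb => exact add_le_add (add_le_add (h _ ht) (iha ht.1)) (ihb ht.2)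

theorem subSum_sum {ι : Type} (I : Finset ι) (φ : ι → Mp → ℝ) (t : Mp) :
    subSum (fun s => ∑ i ∈ I, φ i s) t = ∑ i ∈ I, subSum (φ i) t := by
  induction t with
  | pt => rfl
  | face t ih => simp only [subSum, ih, sum_add_distrib]
  | bridge a b iha ihb => simp only [subSum, iha, ihb, sum_add_distrib]

theorem subSum_one (t : Mp) : subSum (fun _ => 1) t ≤ 2 * (edges t : ℝ) + 1 := by
  induction t with
  | pt => simp [subSum, edges]
  | face t ih => simp only [subSum, edges]; push_cast; linarith
  | bridge a b iha ihb => simp only [subSum, edges]; push_cast; linarith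

theorem subSum_congr {φ ψ : Mp → ℝ} (t : Mp) (ht : ok t)
    (h : ∀ s, ok s → edges s ≤ edges t → φ s = ψ s) : subSum φ t = subSum ψ t := by
  induction t with
  | pt => exact h _ ht le_rfl
  | face t ih =>
    simp only [subSum]
    rw [h _ ht le_rfl, ih ht.1 fun s hs he => h s hs (he.trans (Nat.le_succ _))]
  | bridge a b iha ihb =>
    have he : edges (bridge a b) = edges a + edges b + 1 := rfl
    simp only [subSum]
    rw [h _ ht le_rfl, iha ht.1 fun s hs h1 => h s hs (by omega),
      ihb ht.2 fun s hs h1 => h s hs (by omega)]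

theorem zbase_nonneg {φ : Mp → ℝ} (h : ∀ s, 0 ≤ φ s) (t : Mp) : 0 ≤ subSum φ t := by
  induction t with
  | pt => exact h _
  | face t ih => exact add_nonneg (h _) ih
  | bridge a b iha ihb => exact add_nonneg (add_nonneg (h _) iha) ihb

theorem zbase_self {φ : Mp → ℝ} (h : ∀ s, 0 ≤ φ s) (t : Mp) : φ t ≤ subSum φ t := by
  cases t with
  | pt => exact le_rfl
  | face t => exact le_add_of_nonneg_right (zbase_nonneg h t)
  | bridge a b =>
    exact (le_add_of_nonneg_right (zbase_nonneg h a)).trans
      (le_add_of_nonneg_right (zbase_nonneg h b))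

open Classical in
theorem zbase_ite (E : Mp → Prop) (s : Mp) : 0 ≤ if E s then (edges s : ℝ) + 1 else 0 := by
  split_ifs <;> positivity

theorem badVol_nonneg (E : Mp → Prop) (t : Mp) : 0 ≤ badVol E t := zbase_nonneg (zbase_ite E) t

theorem badVol_self {E : Mp → Prop} {t : Mp} (h : E t) : (edges t : ℝ) + 1 ≤ badVol E t := by
  have := zbase_self (zbase_ite E) t
  rwa [if_pos h] at this

theorem badVol_face (E : Mp → Prop) (t : Mp) : badVol E t ≤ badVol E (face t) :=
  le_add_of_nonneg_left (zbase_ite E (face t))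

theorem badVol_bridge (E : Mp → Prop) (a b : Mp) :
    badVol E a + badVol E b ≤ badVol E (bridge a b) :=
  add_le_add_left (le_add_of_nonneg_left (zbase_ite E (bridge a b))) _

theorem zbase_disc {m1 : ℕ} {t : Mp} (h : m1 < edges t) : disc m1 t = 0 := if_neg (by omega)

theorem zbase_skel_zero {m m1 : ℕ} {t : Mp} (h : edges t ≤ m) : skel m m1 t = 0 := by
  cases t with
  | pt => rfl
  | face t => exact if_neg (not_lt.2 h)
  | bridge a b => exact if_neg (not_lt.2 h)

theorem zbase_skel_face {m m1 : ℕ} {t : Mp} (h : m < edges (face t)) :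
    skel m m1 (face t) = skel m m1 t + 1 := if_pos h

theorem zbase_skel_bridge {m m1 : ℕ} {a b : Mp} (h : m < edges (bridge a b)) :
    skel m m1 (bridge a b) = skel m m1 a + skel m m1 b + 1 + disc m1 a + disc m1 b := if_pos h

theorem piece_sum (m m1 : ℕ) (h1 : 1 ≤ m1) (hm : m1 < m) (w : ℝ) (hw : 0 ≤ w) (E : Mp → Prop)
    (Pr : Mp → ℝ → Prop) (mono : ∀ t a a', Pr t a → a ≤ a' → Pr t a')
    (hface : ∀ t a, ok (face t) → Pr t a → Pr (face t) (a + 2))
    (hbr : ∀ s t a a', ok (bridge s t) → Pr s a → Pr t a' → Pr (bridge s t) (a + a' + 2))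
    (hall : ∀ s, ok s → Pr s (2 * edges s))
    (hgood : ∀ s, ok s → m1 < edges s → edges s ≤ m → ¬ E s → Pr s w) (t : Mp) (ht : ok t) :
    Pr t (2 * skel m m1 t + 2 * badVol E t + w * edges t / m1 + 2 * disc m1 t) := by
  have hm1 : (0 : ℝ) < m1 := by exact_mod_cast h1
  have small : ∀ t, ok t → edges t ≤ m →
      Pr t (2 * skel m m1 t + 2 * badVol E t + w * edges t / m1 + 2 * disc m1 t) := by
    intro t ht he
    have e1 := badVol_nonneg E t
    have e2 : 0 ≤ w * edges t / m1 := by positivity
    have e3 : (0 : ℝ) ≤ skel m m1 t := by positivity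
    have e4 : (0 : ℝ) ≤ disc m1 t := by positivity
    by_cases h2 : edges t ≤ m1
    · refine mono _ _ _ (hall t ht) ?_
      have : (disc m1 t : ℝ) = edges t + 1 := by rw [disc, if_pos h2]; push_cast; rfl
      linarith
    by_cases h3 : E t
    · exact mono _ _ _ (hall t ht) (by linarith [badVol_self h3])
    · refine mono _ _ _ (hgood t ht (by omega) he h3) ?_
      have : w ≤ w * edges t / m1 := by
        rw [le_div_iff₀ hm1]
        exact mul_le_mul_of_nonneg_left (by exact_mod_cast (by omega : m1 ≤ edges t)) hw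
      linarith
  have hdiv : ∀ i j : ℕ, i ≤ j → w * i / m1 ≤ w * j / m1 := fun i j h => by gcongr
  induction t with
  | pt => exact small _ ht (Nat.zero_le _)
  | face t ih =>
    by_cases he : edges (face t) ≤ m
    · exact small _ ht he
    have e0 : edges (face t) = edges t + 1 := rfl
    refine mono _ _ _ (hface _ _ ht (ih ht.1)) ?_
    have e1 := badVol_face E t
    have e2 := hdiv (edges t) (edges (face t)) (by omega)
    have e4 : (0 : ℝ) ≤ disc m1 (face t) := by positivity
    rw [zbase_skel_face (by omega), zbase_disc (t := t) (by omega)]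
    push_cast
    linarith
  | bridge a b iha ihb =>
    by_cases he : edges (bridge a b) ≤ m
    · exact small _ ht he
    have e0 : edges (bridge a b) = edges a + edges b + 1 := rfl
    refine mono _ _ _ (hbr _ _ _ _ ht (iha ht.1) (ihb ht.2)) ?_
    have e1 := badVol_bridge E a b
    have e2 := hdiv (edges a + edges b) (edges (bridge a b)) (by omega)
    have e4 : (0 : ℝ) ≤ disc m1 (bridge a b) := by positivity
    rw [Nat.cast_add, mul_add, add_div] at e2
    rw [zbase_skel_bridge (by omega)]
    push_cast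
    linarith

theorem zbase_skel_disc {m m1 : ℕ} (hm : m1 ≤ m) (t : Mp) :
    skel m m1 t + disc m1 t ≤ 2 * edges t + 1 := by
  have small : ∀ t, edges t ≤ m → skel m m1 t + disc m1 t ≤ 2 * edges t + 1 := fun t he => by
    rw [zbase_skel_zero he, disc]
    split_ifs <;> omega
  induction t with
  | pt => exact small _ (Nat.zero_le _)
  | face t ih =>
    by_cases he : edges (face t) ≤ m
    · exact small _ he
    have e0 : edges (face t) = edges t + 1 := rfl
    rw [zbase_skel_face (by omega), zbase_disc (by omega)]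
    omega
  | bridge a b iha ihb =>
    by_cases he : edges (bridge a b) ≤ m
    · exact small _ he
    have e0 : edges (bridge a b) = edges a + edges b + 1 := rfl
    rw [zbase_skel_bridge (by omega), zbase_disc (t := bridge a b) (by omega)]
    omega

theorem skel_le (m m1 : ℕ) (hm : 2 * m1 + 1 ≤ m) (ψ : ℝ → ℝ) (hψ : Monotone ψ)
    (h0 : ∀ x, 0 ≤ ψ x) (t : Mp) : (skel m m1 t : ℝ) ≤ edges t * ψ (edges t) +
      2 * badVol (fun s => m < edges s ∧
        edges s * (ψ (edges s) - ψ ((edges s : ℝ) / 2)) < (pc2 m1 s : ℝ)) t := by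
  set E : Mp → Prop := fun s => m < edges s ∧
    edges s * (ψ (edges s) - ψ ((edges s : ℝ) / 2)) < (pc2 m1 s : ℝ) with hE
  have hQ : ∀ t, (∀ e0 : ℝ, (edges t : ℝ) ≤ e0 →
      (skel m m1 t : ℝ) ≤ pc2 m1 t + edges t * ψ (e0 / 2) + 2 * badVol E t) →
      (skel m m1 t : ℝ) ≤ edges t * ψ (edges t) + 2 * badVol E t := by
    intro t hP
    have e1 := badVol_nonneg E t
    have e2 : 0 ≤ edges t * ψ (edges t) := mul_nonneg (by positivity) (h0 _)
    by_cases he : edges t ≤ m
    · rw [zbase_skel_zero he]; push_cast; linarith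
    by_cases h3 : E t
    · have e3 := badVol_self h3
      have e4 : skel m m1 t ≤ 2 * edges t + 1 :=
        (Nat.le_add_right _ _).trans (zbase_skel_disc (by omega) t)
      have e5 : (skel m m1 t : ℝ) ≤ 2 * edges t + 1 := by exact_mod_cast e4
      linarith
    · have e3 := hP _ le_rfl
      have e4 : (pc2 m1 t : ℝ) ≤ edges t * (ψ (edges t) - ψ ((edges t : ℝ) / 2)) :=
        not_lt.1 fun h => h3 ⟨by omega, h⟩
      linarith
  refine hQ t ?_
  have small : ∀ t, edges t ≤ m → ∀ e0 : ℝ,
      (skel m m1 t : ℝ) ≤ pc2 m1 t + edges t * ψ (e0 / 2) + 2 * badVol E t := fun t he e0 => by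
    have e1 := badVol_nonneg E t
    have e2 := h0 (e0 / 2)
    rw [zbase_skel_zero he, Nat.cast_zero]
    positivity
  induction t with
  | pt => exact fun e0 _ => small _ (Nat.zero_le _) e0
  | face t ih =>
    intro e0 h
    by_cases he : edges (face t) ≤ m
    · exact small _ he e0
    have e1 : edges (face t) = edges t + 1 := rfl
    have e2 : pc2 m1 (face t) = pc2 m1 t + 1 := rfl
    have e3 := badVol_face E t
    have e4 := h0 (e0 / 2)
    rw [zbase_skel_face (by omega), e2]
    rw [e1] at h ⊢
    push_cast at h ⊢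
    have e5 := ih e0 (by linarith)
    linarith
  | bridge a b iha ihb =>
    intro e0 h
    by_cases he : edges (bridge a b) ≤ m
    · exact small _ he e0
    have e1 : edges (bridge a b) = edges a + edges b + 1 := rfl
    have e2 : pc2 m1 (bridge a b) = max (pc2 m1 a + disc m1 b) (pc2 m1 b + disc m1 a) + 1 := rfl
    have e3 := badVol_bridge E a b
    have e4 := h0 (e0 / 2)
    have ea : (0 : ℝ) ≤ edges a := by positivity
    have eb : (0 : ℝ) ≤ edges b := by positivity
    rw [zbase_skel_bridge (by omega)]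
    rw [e1] at h ⊢
    push_cast at h ⊢
    rcases le_total (edges a) (edges b) with hab | hab
    · have f1 : (pc2 m1 b : ℝ) + disc m1 a + 1 ≤ pc2 m1 (bridge a b) := by
        exact_mod_cast (by omega : pc2 m1 b + disc m1 a + 1 ≤ pc2 m1 (bridge a b))
      have f2 : (edges a : ℝ) ≤ edges b := by exact_mod_cast hab
      have f3 := mul_le_mul_of_nonneg_left (hψ (show (edges a : ℝ) ≤ e0 / 2 by linarith)) ea
      have f4 := hQ a iha
      have f5 := ihb e0 (by linarith)
      rw [zbase_disc (t := b) (by omega), Nat.cast_zero]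
      linarith
    · have f1 : (pc2 m1 a : ℝ) + disc m1 b + 1 ≤ pc2 m1 (bridge a b) := by
        exact_mod_cast (by omega : pc2 m1 a + disc m1 b + 1 ≤ pc2 m1 (bridge a b))
      have f2 : (edges b : ℝ) ≤ edges a := by exact_mod_cast hab
      have f3 := mul_le_mul_of_nonneg_left (hψ (show (edges b : ℝ) ≤ e0 / 2 by linarith)) eb
      have f4 := hQ b ihb
      have f5 := iha e0 (by linarith)
      rw [zbase_disc (t := a) (by omega), Nat.cast_zero]
      linarith

end Pool.Agent.P.MP_7a6434d8_pr
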