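import Pool.Agent.P.MP_7a6434d8_pr.ZGeoLarge
import Pool.Agent.P.MP_7a6434d8_pr.XMain

namespace Pool.Agent.P.MP_7a6434d8_pr

open Mp Finset
open scoped ENNReal

theorem geo_mono {α : Type} [Finite α] (P A : α → Prop) (h : ∀ a, P a → A a) :
    Nat.card {a // P a} ≤ Nat.card {a // A a} := by
  have h1 : {a | P a} ⊆ {a | A a} := fun a ha => h a ha
  exact Set.ncard_le_ncard h1 (Set.toFinite _)

theorem geo (η : ℝ) (hη : 0 < η) (hη1 : η ≤ 1 / 2) : ∃ R0 : ℕ, ∀ R : ℕ, R0 ≤ R →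
    ∀ n : ℕ, 1 ≤ n →
    (Nat.card {c : RootedQuad n // ∃ q : Quad n, Quot.mk _ q = c ∧
        (∃ v, R < q.graph.dist (q.tail q.root) v) ∧
        ¬ LG q (q.tail q.root) R ((R : ℝ) ^ (4 + η)) (4 * ((R : ℝ) ^ η) ^ 2) ((R : ℝ) ^ η)} : ℝ)
      ≤ (Nat.card (RootedQuad n) : ℝ) / (R : ℝ) ^ (1 / 8 : ℝ) := by
  obtain ⟨R1, hR1⟩ := geo_large η hη hη1
  obtain ⟨R2, hR2⟩ := up_prob η hη 62
  obtain ⟨c, hc, hcnt⟩ := cnt_lower
  obtain ⟨R3, hR3⟩ := exists_nat_ge (64 / c)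
  refine ⟨max (max R1 R2) (max R3 1), fun R hR n hn => ?_⟩
  have a1 : R1 ≤ R := le_trans (le_trans (le_max_left _ _) (le_max_left _ _)) hR
  have a2 : R2 ≤ R := le_trans (le_trans (le_max_right _ _) (le_max_left _ _)) hR
  have a3 : R3 ≤ R := le_trans (le_trans (le_max_left _ _) (le_max_right _ _)) hR
  have a4 : 1 ≤ R := le_trans (le_trans (le_max_right _ _) (le_max_right _ _)) hR
  have : Finite (RootedQuad n) := Nat.finite_of_card_ne_zero (xmain_pos n hn).ne'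
  by_cases hbig : R ^ 20 < 2 * n
  · refine le_trans ?_ (hR1 R a1 n hbig)
    refine Nat.cast_le.2 (geo_mono _ _ ?_)
    rintro c ⟨q, hq, -, hb⟩
    exact ⟨q, hq, hb⟩
  · have hR1' : (1 : ℝ) ≤ R := by exact_mod_cast a4
    have hR0 : (0 : ℝ) < R := by linarith
    have hnpos : (0 : ℝ) < n := by exact_mod_cast hn
    have hy0 : (0 : ℝ) < (R : ℝ) ^ (1 / 8 : ℝ) := by positivity
    have key := xmain_count hcnt n hn
      (fun q => (∃ v, R < q.graph.dist (q.tail q.root) v) ∧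
        ¬ LG q (q.tail q.root) R ((R : ℝ) ^ (4 + η)) (4 * ((R : ℝ) ^ η) ^ 2) ((R : ℝ) ^ η))
      (fun s => ¬ (per s ≤ R ^ 11 ∧ MaxDeg s ((R : ℝ) ^ η) ∧
        (∀ x, ballVol s R x ≤ (R : ℝ) ^ (4 + η)) ∧ ¬ FarV s ((R : ℝ) ^ η)))
      (by
        rintro q t hq ⟨⟨v, hv⟩, hb⟩ ⟨-, h1, h2, h3⟩
        exact hb (lg_global q t hq R _ _ _ h1 h2 (by positivity) h3 _ v hv))
      (1 / (R : ℝ) ^ (1 / 8 : ℝ)) (by positivity) (by
        refine (mass_mono ?_).trans ((hR2 R a2 2).trans ?_)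
        · rintro t ht hp ⟨h1, h2⟩
          refine ⟨?_, h1⟩
          have := counta_edges t ht
          omega
        · have hZ : Z 2 ≤ 64 := by
            have h1 := Z_eq_w 2
            have h2 := w_le_one 2
            rw [h1]; norm_num; linarith
          have hn20 : (n : ℝ) ≤ (R : ℝ) ^ 20 := by
            have : n ≤ R ^ 20 := by omega
            exact_mod_cast this
          have hn3 : (n : ℝ) ^ 3 ≤ (R : ℝ) ^ 60 := by
            calc (n : ℝ) ^ 3 ≤ ((R : ℝ) ^ 20) ^ 3 := by gcongr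
              _ = _ := by rw [← pow_mul]
          have hy : (R : ℝ) ^ (1 / 8 : ℝ) ≤ R := by
            calc (R : ℝ) ^ (1 / 8 : ℝ) ≤ (R : ℝ) ^ (1 : ℝ) :=
                  Real.rpow_le_rpow_of_exponent_le hR1' (by norm_num)
              _ = R := Real.rpow_one _
          have hcR : 64 ≤ c * R := by
            have h1 : (R3 : ℝ) ≤ R := by exact_mod_cast a3
            have h2 : 64 / c ≤ R := hR3.trans h1
            rw [div_le_iff₀ hc] at h2
            linarith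
          calc 1 / (R : ℝ) ^ 62 * Z 2 ≤ 1 / (R : ℝ) ^ 62 * (c * R) := by
                gcongr; exact hZ.trans hcR
            _ = c / (R : ℝ) ^ 60 * (1 / R) := by field_simp
            _ ≤ _ := by gcongr)
    calc _ ≤ _ := key
      _ = _ := by ring

end Pool.Agent.P.MP_7a6434d8_pr
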