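import Pool.Agent.P.MP_7a6434d8_pr.UBasic
import Pool.Agent.P.MP_7a6434d8_pr.ZGeo

namespace Pool.Agent.P.MP_7a6434d8_pr

open MeasureTheory ProbabilityTheory Filter Topology
open scoped ENNReal

theorem udeg_tail_pow {n : ℕ} (q : Quad n) (d : Fin (4 * n)) (j : ℕ) :
    q.tail (((q.φ * q.α) ^ j) d) = q.tail d :=
  Quotient.sound (Equiv.Perm.SameCycle.symm ⟨(j : ℤ), by rw [zpow_natCast]⟩)

theorem udeg_tail_cons {n : ℕ} (q : Quad n) (b : Bool) (w : List Bool) :
    q.tail (act q.α q.φ q.root (b :: w)) = q.head (act q.α q.φ q.root w) := by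
  cases b
  · have h := udeg_tail_pow q (q.α (act q.α q.φ q.root w)) 1
    rw [pow_one, Equiv.Perm.mul_apply, q.α_α] at h
    exact h
  · rfl

theorem udeg_edist {n : ℕ} (q : Quad n) (w : List Bool) :
    q.graph.edist (q.tail q.root) (q.tail (act q.α q.φ q.root w)) ≤ w.length := by
  induction w with
  | nil => simp [act]
  | cons b w ih =>
    rw [udeg_tail_cons]
    have h1 : q.graph.edist (q.tail (act q.α q.φ q.root w)) (q.head (act q.α q.φ q.root w))
        ≤ 1 := by
      rw [SimpleGraph.edist_le_one_iff_adj_or_eq]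
      by_cases h : q.tail (act q.α q.φ q.root w) = q.head (act q.α q.φ q.root w)
      · exact Or.inr h
      · exact Or.inl ((SimpleGraph.fromRel_adj _ _ _).2 ⟨h, Or.inl ⟨_, rfl, rfl⟩⟩)
    refine SimpleGraph.edist_triangle.trans ((add_le_add ih h1).trans (le_of_eq ?_))
    simp

theorem udeg_dist {n : ℕ} (q : Quad n) (w : List Bool) :
    q.graph.dist (q.tail q.root) (q.tail (act q.α q.φ q.root w)) ≤ w.length :=
  ENat.toNat_le_of_le_natCast (udeg_edist q w)

theorem udeg_ball {n : ℕ} (q : Quad n) (x y : q.Vertex) (r : ℝ)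
    (h : (q.graph.dist x y : ℝ) ≤ r) : ((q.out y).card : ℝ) ≤ yBall q x r := by
  unfold yBall yVol
  calc ((q.out y).card : ℝ) = ∑ d ∈ q.out y,
        yInd q (fun y => ¬ r < (q.graph.dist x y : ℝ)) (q.tail d) := by
        rw [Finset.sum_congr rfl (g := fun _ => (1 : ℝ)) fun d hd => by
          rw [(y_mem_out q).1 hd, yInd, if_pos (not_lt.2 h)]]
        simp
    _ ≤ _ := Finset.sum_le_sum_of_subset_of_nonneg (Finset.subset_univ _)
        fun d _ _ => yInd_nonneg q _ _

theorem udeg_period {n : ℕ} (q : Quad n) (d : Fin (4 * n)) :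
    ∃ j, 0 < j ∧ j ≤ (q.out (q.tail d)).card ∧ ((q.φ * q.α) ^ j) d = d := by
  have key : ∀ a b : ℕ, a < b → b ≤ (q.out (q.tail d)).card →
      ((q.φ * q.α) ^ a) d = ((q.φ * q.α) ^ b) d →
      ∃ j, 0 < j ∧ j ≤ (q.out (q.tail d)).card ∧ ((q.φ * q.α) ^ j) d = d := by
    intro a b hab hb h
    refine ⟨b - a, by omega, by omega, ((q.φ * q.α) ^ a).injective ?_⟩
    rw [← Equiv.Perm.mul_apply, ← pow_add, h]
    congr 2
    omega
  obtain ⟨a, ha, b, hb, hab, h⟩ := Finset.exists_ne_map_eq_of_card_lt_of_maps_to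
    (s := Finset.range ((q.out (q.tail d)).card + 1)) (t := q.out (q.tail d))
    (by simp) (f := fun i => ((q.φ * q.α) ^ i) d)
    (fun i _ => Finset.mem_coe.2 ((y_mem_out q).2 (udeg_tail_pow q d i)))
  have ha' := Finset.mem_range.1 ha
  have hb' := Finset.mem_range.1 hb
  rcases lt_or_gt_of_ne hab with h' | h'
  · exact key a b h' (by omega) h
  · exact key b a h' (by omega) h.symm

theorem udeg_rad (R : ℝ) : ∀ᶠ n : ℕ in atTop, R ≤ (n : ℝ) ^ (1 / 4 : ℝ) / Real.log n := by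
  have h1 : Tendsto (fun n : ℕ => (n : ℝ) ^ (1 / 8 : ℝ)) atTop atTop :=
    (tendsto_rpow_atTop (by positivity)).comp tendsto_natCast_atTop_atTop
  filter_upwards [h1.eventually_ge_atTop (8 * |R|), eventually_ge_atTop 2] with n hn h2
  have hn2 : (2 : ℝ) ≤ n := by exact_mod_cast h2
  have hn0 : (0 : ℝ) < n := by linarith
  have hl : 0 < Real.log n := Real.log_pos (by linarith)
  have e2 : Real.log n ≤ (n : ℝ) ^ (1 / 8 : ℝ) / (1 / 8) :=
    Real.log_le_rpow_div hn0.le (by norm_num)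
  have e3 : (n : ℝ) ^ (1 / 4 : ℝ) = (n : ℝ) ^ (1 / 8 : ℝ) * (n : ℝ) ^ (1 / 8 : ℝ) := by
    rw [← Real.rpow_add hn0]; norm_num
  rw [le_div_iff₀ hl, e3]
  have a1 := le_abs_self R
  have a2 := abs_nonneg R
  have a3 : R * Real.log n ≤ |R| * Real.log n := mul_le_mul_of_nonneg_right a1 hl.le
  have a4 : |R| * Real.log n ≤ |R| * ((n : ℝ) ^ (1 / 8 : ℝ) / (1 / 8)) :=
    mul_le_mul_of_nonneg_left e2 a2
  have a5 : (0 : ℝ) ≤ (n : ℝ) ^ (1 / 8 : ℝ) := by positivity
  nlinarith

theorem deg_tight (w : List Bool) (η : ℝ) (hη : 0 < η) : ∃ D : ℕ, ∀ᶠ n : ℕ in atTop,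
    (Nat.card {c : RootedQuad n // ∃ q : Quad n, Quot.mk _ q = c ∧
        ∀ j, 0 < j → j ≤ D → code q (sigw j ++ w, w) = false} : ℝ)
      ≤ η * (Nat.card (RootedQuad n) : ℝ) := by
  obtain ⟨R0, hR0⟩ := geo (1 / 2) (by norm_num) le_rfl
  have h1 : Tendsto (fun n : ℕ => (n : ℝ) ^ (1 / 8 : ℝ)) atTop atTop :=
    (tendsto_rpow_atTop (by positivity)).comp tendsto_natCast_atTop_atTop
  obtain ⟨R, hRa, hRb, hRc⟩ := ((h1.eventually_ge_atTop (2 / η)).and
    ((eventually_ge_atTop R0).and (eventually_ge_atTop w.length))).exists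
  refine ⟨⌈(R : ℝ) ^ (4 + 1 / 2 : ℝ)⌉₊, ?_⟩
  filter_upwards [xmain_rad 1, udeg_rad R, eventually_ge_atTop 1,
    (tendsto_natCast_atTop_atTop (R := ℝ)).eventually_ge_atTop (2 / η)] with n e1 e2 e3 e4
  have : Finite (RootedQuad n) := Nat.finite_of_card_ne_zero (xmain_pos n e3).ne'
  have e5 := hR0 R hRb n e3
  have e6 := xmain_union
    (fun c : RootedQuad n => ∃ q : Quad n, Quot.mk _ q = c ∧
        ∀ j, 0 < j → j ≤ ⌈(R : ℝ) ^ (4 + 1 / 2 : ℝ)⌉₊ → code q (sigw j ++ w, w) = false)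
    (fun c : RootedQuad n => ∃ q : Quad n, Quot.mk _ q = c ∧
        (∃ v, R < q.graph.dist (q.tail q.root) v) ∧
        ¬ LG q (q.tail q.root) R ((R : ℝ) ^ (4 + 1 / 2 : ℝ)) (4 * ((R : ℝ) ^ (1 / 2 : ℝ)) ^ 2)
          ((R : ℝ) ^ (1 / 2 : ℝ)))
    (fun c : RootedQuad n => ∃ q : Quad n, Quot.mk _ q = c ∧
        ¬ ∃ v, (n : ℝ) ^ (1 / 4 : ℝ) / Real.log n < (q.graph.dist (q.tail q.root) v : ℝ))
    (fun _ => False) (by
      rintro c ⟨q, hq, hb⟩
      by_cases c1 : ∃ v, (n : ℝ) ^ (1 / 4 : ℝ) / Real.log n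
          < (q.graph.dist (q.tail q.root) v : ℝ)
      · obtain ⟨v, hv⟩ := c1
        refine Or.inl ⟨q, hq, ⟨v, by exact_mod_cast e2.trans_lt hv⟩, fun H => ?_⟩
        obtain ⟨j, hj0, hj1, hj2⟩ := udeg_period q (act q.α q.φ q.root w)
        have b1 := udeg_ball q (q.tail q.root) (q.tail (act q.α q.φ q.root w)) R
          (by exact_mod_cast (udeg_dist q w).trans hRc)
        have b2 : (j : ℝ) ≤ ⌈(R : ℝ) ^ (4 + 1 / 2 : ℝ)⌉₊ :=
          le_trans (by exact_mod_cast hj1) (b1.trans (H.1.trans (Nat.le_ceil _)))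
        have b3 := hb j hj0 (by exact_mod_cast b2)
        rw [code, decide_eq_false_iff_not] at b3
        apply b3
        dsimp only
        rw [act_append, act_sigw, hj2]
      · exact Or.inr (Or.inl ⟨q, hq, c1⟩))
  rw [Nat.card_of_isEmpty (α := {_a : RootedQuad n // False}), add_zero] at e6
  have e7 := (Nat.cast_le (α := ℝ)).2 e6
  rw [Nat.cast_add] at e7
  have hn0 : (0 : ℝ) < n := by exact_mod_cast e3
  have hc : (0 : ℝ) ≤ Nat.card (RootedQuad n) := Nat.cast_nonneg _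
  have h2 : (0 : ℝ) < 2 / η := by positivity
  have f1 : (Nat.card (RootedQuad n) : ℝ) / (R : ℝ) ^ (1 / 8 : ℝ)
      ≤ (Nat.card (RootedQuad n) : ℝ) / (2 / η) := div_le_div_of_nonneg_left hc h2 hRa
  have f2 : 1 / (n : ℝ) ^ 1 * (Nat.card (RootedQuad n) : ℝ)
      ≤ (Nat.card (RootedQuad n) : ℝ) / (2 / η) := by
    rw [pow_one, one_div_mul_eq_div]
    exact div_le_div_of_nonneg_left hc h2 e4
  have f3 : (Nat.card (RootedQuad n) : ℝ) / (2 / η) = η * Nat.card (RootedQuad n) / 2 := by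
    field_simp
  linarith

theorem udeg_words (k : ℕ) : ∃ W : Finset (List Bool), W.card + 1 ≤ 2 ^ (k + 1) ∧
    ∀ w : List Bool, w.length ≤ k → w ∈ W := by
  induction k with
  | zero =>
    refine ⟨{[]}, by simp, fun w hw => ?_⟩
    rw [List.eq_nil_of_length_eq_zero (Nat.le_zero.1 hw)]
    simp
  | succ k ih =>
    obtain ⟨W, h1, h2⟩ := ih
    refine ⟨insert [] (W.image (fun w => true :: w) ∪ W.image (fun w => false :: w)), ?_, ?_⟩
    · have a1 := Finset.card_insert_le ([] : List Bool)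
        (W.image (fun w => true :: w) ∪ W.image (fun w => false :: w))
      have a2 := Finset.card_union_le (W.image (fun w => true :: w)) (W.image (fun w => false :: w))
      have a3 := Finset.card_image_le (s := W) (f := fun w => true :: w)
      have a4 := Finset.card_image_le (s := W) (f := fun w => false :: w)
      rw [pow_succ]
      omega
    · intro w hw
      cases w with
      | nil => exact Finset.mem_insert_self _ _
      | cons b w =>
        have hw' := h2 w (by simpa using hw)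
        refine Finset.mem_insert_of_mem ?_
        cases b
        · exact Finset.mem_union_right _ (Finset.mem_image_of_mem _ hw')
        · exact Finset.mem_union_left _ (Finset.mem_image_of_mem _ hw')

theorem code_inf (k : ℕ) {n : ℕ} (hn : 2 ^ k ≤ n) (q : Quad n) :
    ∃ w : List Bool, w.length ≤ k + 1 ∧
      ∀ w' : List Bool, w'.length ≤ k → code q (w, w') = false := by
  by_contra hc
  have h1 : ∀ w : List Bool, w.length ≤ k + 1 → ∃ w' : List Bool, w'.length ≤ k ∧
      act q.α q.φ q.root w = act q.α q.φ q.root w' := by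
    intro w hw
    by_contra h
    refine hc ⟨w, hw, fun w' hw' => ?_⟩
    rw [code, decide_eq_false_iff_not]
    exact fun h' => h ⟨w', hw', h'⟩
  have h2 : ∀ d, ∃ w' : List Bool, w'.length ≤ k ∧ d = act q.α q.φ q.root w' := by
    intro d
    induction q.connected q.root d with
    | refl => exact ⟨[], Nat.zero_le _, rfl⟩
    | tail _ hb ih =>
      obtain ⟨w, hw, rfl⟩ := ih
      rcases hb with rfl | rfl
      · exact h1 (true :: w) (by simpa using hw)
      · exact h1 (false :: w) (by simpa using hw)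
  obtain ⟨W, hW1, hW2⟩ := udeg_words k
  have h3 : (Finset.univ : Finset (Fin (4 * n))) ⊆ W.image (act q.α q.φ q.root) := by
    intro d _
    obtain ⟨w, hw, rfl⟩ := h2 d
    exact Finset.mem_image_of_mem _ (hW2 w hw)
  have h4 := (Finset.card_le_card h3).trans Finset.card_image_le
  rw [Finset.card_univ, Fintype.card_fin] at h4
  rw [pow_succ] at hW1
  omega

end Pool.Agent.P.MP_7a6434d8_pr
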