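import Pool.Agent.P.MP_7a6434d8_pr.XCount
import Pool.Agent.P.MP_7a6434d8_pr.LinkC
import Pool.Agent.P.MP_7a6434d8_pr.CountA

namespace Pool.Agent.P.MP_7a6434d8_pr

open Mp Finset
open scoped ENNReal

theorem zreroot_classes {n : ℕ} (hn : 1 ≤ n) [Fintype (RootedQuad n)] (b : Mp → ℝ) :
    ∑ c : RootedQuad n, b (linkcEnc c) = ∑ t ∈ countaT 2 (n - 1), b t := by
  refine sum_bij (fun c _ => linkcEnc c) ?_ ?_ ?_ ?_
  · intro c _
    exact (counta_mem _ _ _).2 (linkc_spec c)
  · intro c _ c' _ h
    exact linkc_inj h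
  · intro t ht
    obtain ⟨h1, h2, h3⟩ := (counta_mem _ _ _).1 ht
    obtain ⟨q, hq⟩ := rep_build n t h1 h2 (by omega)
    exact ⟨Quot.mk _ q, mem_univ _,
      linkc_uniq (linkc_rep q) hq ⟨1, fun _ => rfl, fun _ => rfl, rfl⟩⟩
  · intro c _
    rfl

theorem zreroot_labelled {n : ℕ} [Fintype (Quad n)] [Fintype (RootedQuad n)]
    (f : RootedQuad n → ℝ) :
    ∑ q : Quad n, f (Quot.mk _ q) = (∑ c : RootedQuad n, f c) * (Nat.factorial (4 * n) : ℝ) := by
  classical
  rw [← sum_fiberwise (κ := RootedQuad n) (s := univ)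
    (g := fun q : Quad n => (Quot.mk _ q : RootedQuad n)), sum_mul]
  refine sum_congr rfl fun c _ => ?_
  have h := card_labelled (n := n) (fun c' => c' = c)
  have h1 : Nat.card {c' : RootedQuad n // c' = c} = 1 := Nat.card_unique
  rw [h1, one_mul, Nat.card_eq_fintype_card, Fintype.card_subtype] at h
  rw [sum_congr rfl (g := fun _ => f c) (fun q hq => by rw [(mem_filter.1 hq).2]),
    sum_const, nsmul_eq_mul, mul_comm]
  congr 1
  exact_mod_cast h

open Classical in
theorem reroot_sum {n : ℕ} (hn : 1 ≤ n) (P : (q : Quad n) → Fin (4 * n) → Prop)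
    (hP : ∀ (q q' : Quad n) (e : Equiv.Perm (Fin (4 * n))), (∀ d, e (q.α d) = q'.α (e d)) →
      (∀ d, e (q.φ d) = q'.φ (e d)) → ∀ d, P q d → P q' (e d))
    (b : Mp → ℝ) (hb : ∀ q t, Rep q t → ((univ.filter (P q)).card : ℝ) ≤ b t) :
    4 * (n : ℝ) * (Nat.card {c : RootedQuad n // ∃ q : Quad n, Quot.mk _ q = c ∧ P q q.root} : ℝ)
      ≤ ∑ t ∈ countaT 2 (n - 1), b t := by
  have : Fintype (Quad n) := Fintype.ofFinite _
  have : Finite (RootedQuad n) := Quot.finite _
  have : Fintype (RootedQuad n) := Fintype.ofFinite _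
  have hA := card_labelled (n := n) (fun c => ∃ q : Quad n, Quot.mk _ q = c ∧ P q q.root)
  have hA1 : Nat.card {q : Quad n // ∃ q' : Quad n, (Quot.mk _ q' : RootedQuad n) = Quot.mk _ q ∧
        P q' q'.root} = (univ.filter fun q : Quad n => P q q.root).card := by
    rw [Nat.card_eq_fintype_card, Fintype.card_subtype]
    congr 1
    ext q
    simp only [mem_filter, mem_univ, true_and]
    constructor
    · rintro ⟨q', h, h'⟩
      obtain ⟨e, h1, h2, h3⟩ := (xcount_mk_eq _ _).1 h
      rw [← h3]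
      exact hP q' q e h1 h2 _ h'
    · intro h
      exact ⟨q, rfl, h⟩
  have hroot : ∀ (q : Quad n) (d : Fin (4 * n)),
      P (xcountRoot q d) (xcountRoot q d).root ↔ P q d := fun q d =>
    ⟨fun h => hP (xcountRoot q d) q 1 (fun _ => rfl) (fun _ => rfl) d h,
      fun h => hP q (xcountRoot q d) 1 (fun _ => rfl) (fun _ => rfl) d h⟩
  have hinv : ((univ : Finset (Quad n × Fin (4 * n))).filter fun p => P p.1 p.1.root).card
      = ((univ : Finset (Quad n × Fin (4 * n))).filter fun p => P p.1 p.2).card := by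
    symm
    refine card_nbij' (fun p => (xcountRoot p.1 p.2, p.1.root))
      (fun p => (xcountRoot p.1 p.2, p.1.root)) ?_ ?_ ?_ ?_
    · intro p hp
      simp only [coe_filter, mem_univ, true_and, Set.mem_ofPred_eq] at hp ⊢
      exact (hroot _ _).2 hp
    · intro p hp
      simp only [coe_filter, mem_univ, true_and, Set.mem_ofPred_eq] at hp ⊢
      exact (hroot (xcountRoot p.1 p.2) p.1.root).1 hp
    · intro p _; rfl
    · intro p _; rfl
  have hL : ((univ : Finset (Quad n × Fin (4 * n))).filter fun p => P p.1 p.1.root).card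
      = (univ.filter fun q : Quad n => P q q.root).card * (4 * n) := by
    rw [← univ_product_univ, filter_product_left (fun q : Quad n => P q q.root), card_product,
      card_univ, Fintype.card_fin]
  have hR : (((univ : Finset (Quad n × Fin (4 * n))).filter fun p => P p.1 p.2).card : ℝ)
      ≤ (∑ t ∈ countaT 2 (n - 1), b t) * (Nat.factorial (4 * n) : ℝ) := by
    have e1 : ((univ : Finset (Quad n × Fin (4 * n))).filter fun p => P p.1 p.2).card
        = ∑ q : Quad n, (univ.filter (P q)).card := by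
      rw [card_filter, Fintype.sum_prod_type]
      simp only [card_filter]
    rw [e1, ← zreroot_classes hn b, ← zreroot_labelled (fun c => b (linkcEnc c))]
    push_cast
    exact sum_le_sum fun q _ => hb q _ (linkc_rep q)
  have hf : (0 : ℝ) < (Nat.factorial (4 * n) : ℝ) := by exact_mod_cast Nat.factorial_pos _
  rw [← hinv, hL, ← hA1, hA] at hR
  push_cast at hR
  refine le_of_mul_le_mul_right (le_trans (le_of_eq ?_) hR) hf
  ring

end Pool.Agent.P.MP_7a6434d8_pr
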