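import Pool.Agent.P.MP_7a6434d8_pr.RoundK
import Pool.Agent.P.MP_7a6434d8_pr.Peel
import Pool.Agent.P.MP_7a6434d8_pr.PairsA

namespace Pool.Agent.P.MP_7a6434d8_pr

open Mp Finset
open scoped ENNReal

theorem round_bad_far {c u v : ℕ} {s T : ℝ} {K : (ℕ → ℝ) → ℝ → Prop} {t : Mp}
    (H : KGood u v K) (h : BadS c u v s T K t) : Far t (Set.Icc u v) (Set.Icc 0 c) T := by
  obtain ⟨h, q, e, a1, a2, a3, a4, a5⟩ := h
  have := H.nonneg _ _ a1
  exact Far.of_tr (a := s) a2 (by linarith) (fun p hp => a4 p hp.1 hp.2) (fun p hp => a5 p hp.2)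

theorem round_err {lam : ℕ} {ρ ε : ℝ} (hε : 0 ≤ ε) (hN : NearHyp lam ρ ε) (L x : ℕ)
    (hx : x ≤ 2 * L) :
    mass L (fun t => ∃ p, p ≤ 2 * L ∧ p ≤ x + lam ∧ x ≤ p + lam ∧ Far t {p} {x} ρ)
      ≤ ε * (2 * lam + 1) * Z L := by
  have h1 := mass_le_sum (L := L)
    (φ := fun t => ∃ p, p ≤ 2 * L ∧ p ≤ x + lam ∧ x ≤ p + lam ∧ Far t {p} {x} ρ)
    ((Icc (x - lam) (x + lam)).filter (fun p => p ≤ 2 * L)) (fun p t => Far t {p} {x} ρ)
    (by
      rintro t _ _ ⟨p, a1, a2, a3, a4⟩
      exact ⟨p, by simp only [mem_filter, mem_Icc]; omega, a4⟩)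
  refine h1.trans ?_
  have h2 : ∀ p ∈ (Icc (x - lam) (x + lam)).filter (fun p => p ≤ 2 * L),
      mass L (fun t => Far t {p} {x} ρ) ≤ ε * Z L := by
    intro p hp
    simp only [mem_filter, mem_Icc] at hp
    exact hN L p x hp.2 hx (by omega) (by omega)
  refine (sum_le_card_nsmul _ _ _ h2).trans ?_
  have h3 : ((Icc (x - lam) (x + lam)).filter (fun p => p ≤ 2 * L)).card ≤ 2 * lam + 1 := by
    refine (card_filter_le _ _).trans ?_
    rw [Nat.card_Icc]; omega
  have h4 : (((Icc (x - lam) (x + lam)).filter (fun p => p ≤ 2 * L)).card : ℝ) ≤ 2 * lam + 1 := by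
    exact_mod_cast h3
  have := mul_nonneg hε (Z_pos L).le
  rw [nsmul_eq_mul]
  nlinarith

theorem round_Bv_nonneg (L : ℕ) : 0 ≤ Bv L := by unfold Bv; positivity

theorem round_core (c g f Λ lam mw : ℕ) (ρ ε T β : ℝ) (Φ : ℕ → ℕ → ℕ → ℝ) (hlam : 1 ≤ lam)
    (hf : 1 ≤ f) (hmw : 2 * Λ < mw * lam) (hε : 0 ≤ ε) (hT : 0 < T) (hβ : 0 ≤ β)
    (hN : NearHyp lam ρ ε) (hΦ0 : ∀ L u v, 0 ≤ Φ L u v) (hΦ : Super c Φ)
    (h1 : ∀ L u v, St c g L u v →
      mass L (fun t => Far t (Set.Icc u v) (Set.Icc 0 c) T) ≤ β * Z L + Φ L u v)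
    (h2 : ∀ L u v, St c g L u v → (v < u + f ∨ Λ < L) →
      mass L (fun t => Far t (Set.Icc u v) (Set.Icc 0 c) T) ≤ Φ L u v) (N : ℕ) :
    ∀ L u v K, St c g L u v → KGood u v K →
      massN N L (BadS c u v (√(mw : ℝ) + ρ + 2) T K)
        ≤ β * mass L (NC c K) + (Φ L u v + ε * (2 * lam + 1) * (Bv L * Z L)) := by
  have hεc : 0 ≤ ε * (2 * lam + 1) := by positivity
  have hB : ∀ L, 0 ≤ ε * (2 * lam + 1) * (Bv L * Z L) := fun L =>
    mul_nonneg hεc (mul_nonneg (round_Bv_nonneg L) (Z_pos L).le)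
  have hnc : ∀ L K, 0 ≤ β * mass L (NC c K) := fun L K => mul_nonneg hβ (mass_nonneg _ _)
  induction N with
  | zero =>
    intro L u v K _ _
    rw [massN_zero]
    have := hΦ0 L u v; have := hB L; have := hnc L K
    linarith
  | succ N ih =>
    intro L u v K hS hK
    set s0 := √(mw : ℝ) + ρ + 2 with hs0
    have hfar : massN (N + 1) L (BadS c u v s0 T K)
        ≤ mass L (fun t => Far t (Set.Icc u v) (Set.Icc 0 c) T) :=
      (massN_le_mass _ _ _).trans (mass_mono fun t _ _ h => round_bad_far hK h)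
    by_cases hterm : v < u + f ∨ Λ < L
    · have := h2 L u v hS hterm
      have := hB L; have := hnc L K
      linarith
    by_cases hcert : ∃ q, q < 1 ∧ K (fun _ => 1) q
    · obtain ⟨q, hq1, hq2⟩ := hcert
      have e1 : mass L (NC c K) = Z L := mass_eq_Z fun t _ _ =>
        ⟨fun _ => 1, q, 0, hq2, Tr.const t 1, by linarith, fun _ _ => le_rfl⟩
      have := h1 L u v hS
      have := hB L
      rw [e1]; linarith
    push Not at hterm
    obtain ⟨hc, huv, hvL, hg⟩ := hS
    obtain ⟨x, hux, hxv, hw⟩ := window (mw := mw) hK (by omega) hlam (by omega) hcert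
    set φ : Mp → Prop := fun t => BadS c u v s0 T K t ∧
      ¬ ∃ p, p ≤ 2 * L ∧ p ≤ x + lam ∧ x ≤ p + lam ∧ Far t {p} {x} ρ with hφ
    have step1 : massN (N + 1) L (BadS c u v s0 T K)
        ≤ massN (N + 1) L φ + ε * (2 * lam + 1) * Z L := by
      refine (massN_le_add (ψ := φ) (χ := fun t => ∃ p, p ≤ 2 * L ∧ p ≤ x + lam ∧
        x ≤ p + lam ∧ Far t {p} {x} ρ) ?_).trans ?_
      · intro t _ _ h
        by_cases h' : ∃ p, p ≤ 2 * L ∧ p ≤ x + lam ∧ x ≤ p + lam ∧ Far t {p} {x} ρ
        · exact Or.inr h'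
        · exact Or.inl ⟨h, h'⟩
      · have := round_err hε hN L x (by omega)
        linarith
    have hxL : x < 2 * L := by omega
    have step2 := peel_le N L x hxL φ
    have step3 := peel_eq L x hxL (NC c K)
    -- face term
    have tf : massN N (L + 1) (fun t' => φ (faceAt x t'))
        ≤ β * mass (L + 1) (fun t' => NC c K (faceAt x t'))
          + (Φ (L + 1) u (v + 2) + ε * (2 * lam + 1) * (Bv (L + 1) * Z (L + 1))) := by
      have a1 : massN N (L + 1) (fun t' => φ (faceAt x t'))
          ≤ massN N (L + 1) (BadS c u (v + 2) s0 T (Kface x K)) := by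
        apply massN_mono
        rintro t' ht' hp ⟨b1, b2⟩
        have I := isFace_faceAt x t' ht' (by omega)
        have hper := I.per_eq
        refine bad_face hK hc hux hxv (by omega) hw ?_ I b1
        intro p d1 d2 d3 d4
        exact b2 ⟨p, by omega, d2, d3, d4⟩
      have a2 := ih (L + 1) u (v + 2) (Kface x K) ⟨hc, by omega, by omega, by omega⟩
        (kgood_face hK hux hxv)
      have a3 : mass (L + 1) (NC c (Kface x K))
          ≤ mass (L + 1) (fun t' => NC c K (faceAt x t')) := by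
        apply mass_mono
        intro t' ht' hp h
        have I := isFace_faceAt x t' ht' (by omega)
        have hper := I.per_eq
        exact nc_face hK (by omega) (by omega) I h
      have := mul_le_mul_of_nonneg_left a3 hβ
      linarith
    -- right partners
    have tr : ∀ j ∈ range ((2 * L - x) / 2),
        mass2N N (L - 1 - j) j (fun a b => φ (brR x a b))
          ≤ β * mass2 (L - 1 - j) j (fun a b => NC c K (brR x a b))
            + Z j * Φ (L - 1 - j) u (max x (v - 2 * j - 2))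
            + ε * (2 * lam + 1) * ((Bv (L - 1 - j) + Bv j) * (Z (L - 1 - j) * Z j)) := by
      intro j hj
      rw [mem_range] at hj
      have a1 := mass2N_le_mix (N := N) (i := L - 1 - j) (j := j)
        (ψ := fun a b => φ (brR x a b)) (χ := fun a b => NC c K (brR x a b)) (β := β)
        (c := Φ (L - 1 - j) u (max x (v - 2 * j - 2))
          + ε * (2 * lam + 1) * (Bv (L - 1 - j) * Z (L - 1 - j))) hβ
        (add_nonneg (hΦ0 _ _ _) (hB _)) (by
          intro b hb hpb
          have c1 : massN N (L - 1 - j) (fun a => φ (brR x a b))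
              ≤ massN N (L - 1 - j) (BadS c u (max x (v - 2 * j - 2)) s0 T
                (Kbr x u (max x (v - 2 * j - 2)) b K)) := by
            apply massN_mono
            rintro a ha hpa ⟨b1, -⟩
            have I := isBr_brR x a b ha hb (by omega)
            have hper := I.per_eq
            have := bad_right hK hc hux hxv (by omega) I b1
            rwa [hpb] at this
          have c2 := ih (L - 1 - j) u (max x (v - 2 * j - 2))
            (Kbr x u (max x (v - 2 * j - 2)) b K) ⟨hc, by omega, by omega, by omega⟩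
            (kgood_br hK b hux (le_max_left _ _))
          have c3 : mass (L - 1 - j) (NC c (Kbr x u (max x (v - 2 * j - 2)) b K))
              ≤ mass (L - 1 - j) (fun a => NC c K (brR x a b)) := by
            apply mass_mono
            intro a ha hpa h
            have I := isBr_brR x a b ha hb (by omega)
            have hper := I.per_eq
            exact nc_br hK (by omega) hux le_rfl (le_max_left _ _) (by omega) (by omega) I h
          have := mul_le_mul_of_nonneg_left c3 hβ
          linarith)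
      have a2 : 0 ≤ ε * (2 * lam + 1) * (Bv j * (Z (L - 1 - j) * Z j)) :=
        mul_nonneg hεc (mul_nonneg (round_Bv_nonneg _) (mul_pos (Z_pos _) (Z_pos _)).le)
      nlinarith
    -- left partners
    have tl : ∀ j ∈ range ((x + 1) / 2),
        mass2N N (L - 1 - j) j (fun a b => φ (brL (x - 2 * j - 1) a b))
          ≤ β * mass2 (L - 1 - j) j (fun a b => NC c K (brL (x - 2 * j - 1) a b))
            + (if c + 2 * j + 1 ≤ x then
                Z j * Φ (L - 1 - j) (min u (x - 2 * j - 1)) (v - 2 * j - 2) else 0)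
            + ε * (2 * lam + 1) * ((Bv (L - 1 - j) + Bv j) * (Z (L - 1 - j) * Z j)) := by
      intro j hj
      rw [mem_range] at hj
      have a2 : 0 ≤ ε * (2 * lam + 1) * (Bv j * (Z (L - 1 - j) * Z j)) :=
        mul_nonneg hεc (mul_nonneg (round_Bv_nonneg _) (mul_pos (Z_pos _) (Z_pos _)).le)
      have a3 : 0 ≤ ε * (2 * lam + 1) * (Bv (L - 1 - j) * (Z (L - 1 - j) * Z j)) :=
        mul_nonneg hεc (mul_nonneg (round_Bv_nonneg _) (mul_pos (Z_pos _) (Z_pos _)).le)
      split_ifs with hcj
      · have a1 := mass2N_le_mix (N := N) (i := L - 1 - j) (j := j)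
          (ψ := fun a b => φ (brL (x - 2 * j - 1) a b))
          (χ := fun a b => NC c K (brL (x - 2 * j - 1) a b)) (β := β)
          (c := Φ (L - 1 - j) (min u (x - 2 * j - 1)) (v - 2 * j - 2)
            + ε * (2 * lam + 1) * (Bv (L - 1 - j) * Z (L - 1 - j))) hβ
          (add_nonneg (hΦ0 _ _ _) (hB _)) (by
            intro b hb hpb
            have c1 : massN N (L - 1 - j) (fun a => φ (brL (x - 2 * j - 1) a b))
                ≤ massN N (L - 1 - j) (BadS c (min u (x - 2 * j - 1)) (v - 2 * j - 2) s0 T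
                  (Kbr (x - 2 * j - 1) (min u (x - 2 * j - 1)) (v - 2 * j - 2) b K)) := by
              apply massN_mono
              rintro a ha hpa ⟨b1, -⟩
              have I := isBr_brL (x - 2 * j - 1) a b ha hb (by omega)
              have hper := I.per_eq
              have := bad_left hK hc (by omega) (by omega) (by omega) (by omega) I b1
              rwa [hpb] at this
            have c2 := ih (L - 1 - j) (min u (x - 2 * j - 1)) (v - 2 * j - 2)
              (Kbr (x - 2 * j - 1) (min u (x - 2 * j - 1)) (v - 2 * j - 2) b K)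
              ⟨by omega, by omega, by omega, by omega⟩
              (kgood_br hK b (min_le_right _ _) (by omega))
            have c3 : mass (L - 1 - j) (NC c
                (Kbr (x - 2 * j - 1) (min u (x - 2 * j - 1)) (v - 2 * j - 2) b K))
                ≤ mass (L - 1 - j) (fun a => NC c K (brL (x - 2 * j - 1) a b)) := by
              apply mass_mono
              intro a ha hpa h
              have I := isBr_brL (x - 2 * j - 1) a b ha hb (by omega)
              have hper := I.per_eq
              exact nc_br hK (by omega) (min_le_right _ _) (min_le_left _ _) (by omega)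
                (by omega) (by omega) I h
            have := mul_le_mul_of_nonneg_left c3 hβ
            linarith)
        nlinarith
      · have a1 : mass2 (L - 1 - j) j (fun a b => φ (brL (x - 2 * j - 1) a b)) = 0 := by
          apply mass2_eq_zero
          rintro a b ha hpa hb hpb ⟨b1, -⟩
          have I := isBr_brL (x - 2 * j - 1) a b ha hb (by omega)
          exact bad_touch hT (by omega) (by omega) (by omega) I b1
        have a4 := mass2N_le_mass2 N (L - 1 - j) j (fun a b => φ (brL (x - 2 * j - 1) a b))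
        have a5 := mul_nonneg hβ
          (mass2_nonneg (L - 1 - j) j (fun a b => NC c K (brL (x - 2 * j - 1) a b)))
        nlinarith
    have sr := sum_le_sum tr
    have sl := sum_le_sum tl
    simp only [sum_add_distrib, ← mul_sum] at sr sl
    have hsup := hΦ L u v x hc hux hxv hvL
    rw [sum_filter] at hsup
    have hBv := Bv_at L x hxL
    rw [step3, hBv]
    nlinarith

theorem round (c g f Λ lam mw : ℕ) (ρ ε T β : ℝ) (Φ : ℕ → ℕ → ℕ → ℝ) (hlam : 1 ≤ lam)
    (hf : 1 ≤ f) (hmw : 2 * Λ < mw * lam) (hρ : 0 ≤ ρ) (hε : 0 ≤ ε) (hT : 0 < T) (hβ : 0 ≤ β)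
    (hN : NearHyp lam ρ ε) (hΦ0 : ∀ L u v, 0 ≤ Φ L u v) (hΦ : Super c Φ)
    (h1 : ∀ L u v, St c g L u v →
      mass L (fun t => Far t (Set.Icc u v) (Set.Icc 0 c) T) ≤ β * Z L + Φ L u v)
    (h2 : ∀ L u v, St c g L u v → (v < u + f ∨ Λ < L) →
      mass L (fun t => Far t (Set.Icc u v) (Set.Icc 0 c) T) ≤ Φ L u v) :
    ∀ L u v, St c g L u v →
      mass L (fun t => Far t (Set.Icc u v) (Set.Icc 0 c) (T + (√(mw : ℝ) + ρ + 2)))
        ≤ β * mass L (fun t => Far t (Set.Icc u v) (Set.Icc 0 c) 1) + Φ L u v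
          + ε * (2 * lam + 1) * (Bv L * Z L) := by
  intro L u v hS
  have hs : 0 ≤ √(mw : ℝ) + ρ + 2 := by positivity
  have a1 : mass L (fun t => Far t (Set.Icc u v) (Set.Icc 0 c) (T + (√(mw : ℝ) + ρ + 2)))
      ≤ mass L (BadS c u v (√(mw : ℝ) + ρ + 2) T
        (fun h q => (∀ p, u ≤ p → p ≤ v → h p ≤ 0) ∧ 0 ≤ q)) := by
    apply mass_mono
    rintro t _ _ ⟨h, e, b1, b2, b3, b4⟩
    refine ⟨h, 0, e, ⟨fun p d1 d2 => b3 p ⟨d1, d2⟩, le_rfl⟩, b2, by linarith,
      fun p d1 d2 => (b3 p ⟨d1, d2⟩).trans hs, fun p hp => ?_⟩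
    have := b4 p ⟨Nat.zero_le _, hp⟩
    linarith
  have a2 := mass_le_of_massN (fun N => round_core c g f Λ lam mw ρ ε T β Φ hlam hf hmw hε hT hβ
    hN hΦ0 hΦ h1 h2 N L u v _ hS (kgood_init u v))
  have a3 : mass L (NC c (fun h q => (∀ p, u ≤ p → p ≤ v → h p ≤ 0) ∧ 0 ≤ q))
      ≤ mass L (fun t => Far t (Set.Icc u v) (Set.Icc 0 c) 1) := by
    apply mass_mono
    rintro t _ _ ⟨h, q, e, ⟨b1, b2⟩, b3, b4, b5⟩
    exact ⟨h, e, by linarith, b3, fun p hp => b1 p hp.1 hp.2, fun p hp => b5 p hp.2⟩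
  have := mul_le_mul_of_nonneg_left a3 hβ
  linarith

end Pool.Agent.P.MP_7a6434d8_pr
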