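import Pool.Agent.P.MP_7a6434d8_pr.BasicB

namespace Pool.Agent.P.MP_7a6434d8_pr

open Mp Finset
open scoped ENNReal

theorem roundk_min_lip (c x y : ℝ) : |min x c - min y c| ≤ |x - y| := by
  have := abs_min_sub_min_le_max x c y c
  simpa using this

theorem roundk_min_sq (c x y : ℝ) : (min x c - min y c) ^ 2 ≤ (x - y) ^ 2 :=
  sq_le_sq.2 (roundk_min_lip c x y)

theorem kgood_init (u v : ℕ) :
    KGood u v (fun h q => (∀ p, u ≤ p → p ≤ v → h p ≤ 0) ∧ 0 ≤ q) where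
  loc := fun h h' q hh H => ⟨fun p a b => hh p a b ▸ H.1 p a b, H.2⟩
  sup := fun h h' q q' H H' => ⟨fun p a b => max_le (H.1 p a b) (H'.1 p a b), add_nonneg H.2 H'.2⟩
  inf := fun h q c _ H => ⟨fun p a b => (min_le_left _ _).trans (H.1 p a b), H.2⟩
  smul := fun h q c hc H =>
    ⟨fun p a b => mul_nonpos_of_nonneg_of_nonpos hc (H.1 p a b), mul_nonneg (sq_nonneg _) H.2⟩
  nonneg := fun h q H => H.2

theorem kgood_face {u v x : ℕ} {K : (ℕ → ℝ) → ℝ → Prop} (H : KGood u v K) (hu : u ≤ x)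
    (hv : x + 1 ≤ v) : KGood u (v + 2) (Kface x K) where
  loc := by
    rintro h h' q hh ⟨q0, h1, h2⟩
    refine ⟨q0, H.loc _ _ _ ?_ h1, ?_⟩
    · intro p a b
      split_ifs with hp
      · exact hh p a (by omega)
      · exact hh (p + 2) (by omega) (by omega)
    · rw [← hh x hu (by omega), ← hh (x + 3) (by omega) (by omega)]; exact h2
  sup := by
    rintro h h' q q' ⟨q0, h1, h2⟩ ⟨q1, h3, h4⟩
    refine ⟨q0 + q1, H.loc _ _ _ ?_ (H.sup _ _ _ _ h1 h3), ?_⟩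
    · intro p _ _
      split_ifs <;> rfl
    · have := sq_max_sub_max_le (h x) (h' x) (h (x + 3)) (h' (x + 3))
      linarith
  inf := by
    rintro h q c hc ⟨q0, h1, h2⟩
    refine ⟨q0, H.loc _ _ _ ?_ (H.inf _ _ c hc h1), ?_⟩
    · intro p _ _
      split_ifs <;> rfl
    · have := roundk_min_sq c (h x) (h (x + 3))
      linarith
  smul := by
    rintro h q c hc ⟨q0, h1, h2⟩
    refine ⟨c ^ 2 * q0, H.loc _ _ _ ?_ (H.smul _ _ c hc h1), ?_⟩
    · intro p _ _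
      split_ifs <;> rfl
    · have := mul_le_mul_of_nonneg_left h2 (sq_nonneg c)
      nlinarith
  nonneg := by
    rintro h q ⟨q0, h1, h2⟩
    have := H.nonneg _ _ h1
    nlinarith [sq_nonneg (h x - h (x + 3))]

theorem kgood_br {u v m u' v' : ℕ} {K : (ℕ → ℝ) → ℝ → Prop} (H : KGood u v K) (W2 : Mp)
    (hu : u' ≤ m) (hv : m ≤ v') : KGood u' v' (Kbr m u' v' W2 K) where
  loc := by
    rintro h1 h1' q' hh ⟨h, h2, q, e2, a1, a2, a3, a4, a5, a6⟩
    refine ⟨h, h2, q, e2, a1, a2, a3, a4, fun p b c => ?_, fun p b c => ?_⟩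
    · rw [a5 p b c, hh p b (by omega)]
    · rw [a6 p b c, hh p (by omega) c]
  sup := by
    rintro h1 h1' q' q'' ⟨h, h2, q, e2, a1, a2, a3, a4, a5, a6⟩
      ⟨g, g2, r, f2, b1, b2, b3, b4, b5, b6⟩
    refine ⟨fun p => max (h p) (g p), fun p => max (h2 p) (g2 p), q + r, e2 + f2,
      H.sup _ _ _ _ a1 b1, a2.sup b2, ?_, fun p b => ?_, fun p b c => ?_, fun p b c => ?_⟩
    · have := sq_max_sub_max_le (h m) (g m) (h2 0) (g2 0)
      linarith
    · simp only [a4 p b, b4 p b]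
    · simp only [a5 p b c, b5 p b c]
    · simp only [a6 p b c, b6 p b c]
  inf := by
    rintro h1 q' c hc ⟨h, h2, q, e2, a1, a2, a3, a4, a5, a6⟩
    refine ⟨fun p => min (h p) c, fun p => min (h2 p) c, q, e2, H.inf _ _ c hc a1,
      a2.lip (fun x => min x c) (roundk_min_lip c), ?_, fun p b => ?_, fun p b c => ?_,
      fun p b c => ?_⟩
    · have := roundk_min_sq c (h m) (h2 0)
      linarith
    · simp only [a4 p b]
    · simp only [a5 p b c]
    · simp only [a6 p b c]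
  smul := by
    rintro h1 q' c hc ⟨h, h2, q, e2, a1, a2, a3, a4, a5, a6⟩
    refine ⟨fun p => c * h p, fun p => c * h2 p, c ^ 2 * q, c ^ 2 * e2, H.smul _ _ c hc a1,
      a2.smul c, ?_, fun p b => ?_, fun p b c => ?_, fun p b c => ?_⟩
    · have := mul_le_mul_of_nonneg_left a3 (sq_nonneg c)
      nlinarith
    · simp only [a4 p b]
    · simp only [a5 p b c]
    · simp only [a6 p b c]
  nonneg := by
    rintro h1 q' ⟨h, h2, q, e2, a1, a2, a3, -⟩
    have := H.nonneg _ _ a1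
    have := a2.nonneg
    nlinarith [sq_nonneg (h m - h2 0)]

theorem roundk_sup {u v : ℕ} {K : (ℕ → ℝ) → ℝ → Prop} (H : KGood u v K) (hs : ℕ → ℕ → ℝ)
    (qs : ℕ → ℝ) (hK : ∀ i, K (hs i) (qs i)) (hq : ∀ i, qs i < 1) (n : ℕ) :
    ∃ h q, K h q ∧ q < (n : ℝ) + 1 ∧ ∀ i, i ≤ n → ∀ p, hs i p ≤ h p := by
  induction n with
  | zero =>
    refine ⟨hs 0, qs 0, hK 0, by simpa using hq 0, fun i hi p => ?_⟩
    obtain rfl : i = 0 := by omega
    exact le_rfl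
  | succ n ih =>
    obtain ⟨h, q, a1, a2, a3⟩ := ih
    refine ⟨fun p => max (h p) (hs (n + 1) p), q + qs (n + 1), H.sup _ _ _ _ a1 (hK _), ?_,
      fun i hi p => ?_⟩
    · have := hq (n + 1)
      push_cast; linarith
    · rcases Nat.lt_or_ge i (n + 1) with h1 | h1
      · exact (a3 i (by omega) p).trans (le_max_left _ _)
      · obtain rfl : i = n + 1 := by omega
        exact le_max_right _ _

theorem window {u v lam mw : ℕ} {K : (ℕ → ℝ) → ℝ → Prop} (H : KGood u v K) (huv : u < v)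
    (hlam : 1 ≤ lam) (hmw : v < u + mw * lam) (hc : ¬ ∃ q, q < 1 ∧ K (fun _ => 1) q) :
    ∃ x, u ≤ x ∧ x + 1 ≤ v ∧ ∀ h q, K h q → q < 1 →
      ∃ p, u ≤ p ∧ p ≤ v ∧ p ≤ x + lam ∧ x ≤ p + lam ∧ h p < √(mw : ℝ) := by
  by_contra hcon
  push Not at hcon
  have hx : ∀ i : ℕ, ∃ h q, K h q ∧ q < 1 ∧ ∀ p, u ≤ p → p ≤ v →
      p ≤ min (u + i * lam) (v - 1) + lam → min (u + i * lam) (v - 1) ≤ p + lam →
      √(mw : ℝ) ≤ h p := by
    intro i
    exact hcon (min (u + i * lam) (v - 1)) (by omega) (by omega)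
  choose hs qs hK hq hw using hx
  have hmw1 : 1 ≤ mw := by
    rcases Nat.eq_zero_or_pos mw with h | h
    · subst h; omega
    · exact h
  obtain ⟨h, q, a1, a2, a3⟩ := roundk_sup H hs qs hK hq (mw - 1)
  have hcast : ((mw - 1 : ℕ) : ℝ) + 1 = mw := by
    rw [Nat.cast_sub hmw1]; simp
  rw [hcast] at a2
  have hpos : (0 : ℝ) < mw := by exact_mod_cast hmw1
  have hsq : 0 < √(mw : ℝ) := Real.sqrt_pos.2 hpos
  apply hc
  refine ⟨(1 / √(mw : ℝ)) ^ 2 * q, ?_, ?_⟩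
  · rw [div_pow, Real.sq_sqrt hpos.le, one_pow, div_mul_eq_mul_div, one_mul, div_lt_one hpos]
    exact a2
  · refine H.loc _ _ _ ?_ (H.inf _ _ 1 zero_le_one (H.smul _ _ (1 / √(mw : ℝ)) (by positivity) a1))
    intro p hp1 hp2
    apply min_eq_right
    have hi : (p - u) / lam < mw := by
      rw [Nat.div_lt_iff_lt_mul (by omega)]; omega
    have e1 := Nat.div_mul_le_self (p - u) lam
    have e2 := Nat.lt_div_mul_add (a := p - u) (show 0 < lam by omega)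
    have := hw ((p - u) / lam) p hp1 hp2 (by omega) (by omega)
    have h3 := a3 ((p - u) / lam) (by omega) p
    rw [div_mul_eq_mul_div, one_mul, le_div_iff₀ hsq]
    linarith

/-- the event that no cheap connection at level one exists, seen from an exploration state -/
def NC (c : ℕ) (K : (ℕ → ℝ) → ℝ → Prop) (t : Mp) : Prop :=
  ∃ h q e, K h q ∧ Tr t h e ∧ q + e < 1 ∧ ∀ p, p ≤ c → 1 ≤ h p

/-- the bad event with the frontier invariant -/
def BadS (c u v : ℕ) (s T : ℝ) (K : (ℕ → ℝ) → ℝ → Prop) (t : Mp) : Prop :=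
  ∃ h q e, K h q ∧ Tr t h e ∧ q + e < 1 ∧ (∀ p, u ≤ p → p ≤ v → h p ≤ s) ∧
    ∀ p, p ≤ c → s + T ≤ h p

theorem nc_face {c u v x : ℕ} {K : (ℕ → ℝ) → ℝ → Prop} {t t' : Mp} (H : KGood u v K)
    (hc : c ≤ x) (hv : v ≤ 2 * per t) (I : IsFace x t t') (h : NC c (Kface x K) t') :
    NC c K t := by
  obtain ⟨h', q', e', ⟨q, a1, a2⟩, a3, a4, a5⟩ := h
  refine ⟨_, q, e' + (h' x - h' (x + 3)) ^ 2, a1, (I.tr _ _).2 ⟨h', by simpa using a3, ?_, ?_⟩,
    by linarith, fun p hp => ?_⟩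
  · intro p hp; simp [hp]
  · intro p hp _; simp [not_le.2 hp]
  · simp only [show p ≤ x by omega, if_true]; exact a5 p hp

theorem nc_br {c u v m u' v' : ℕ} {K : (ℕ → ℝ) → ℝ → Prop} {t W1 W2 : Mp} (H : KGood u v K)
    (hc : c ≤ m) (hu : u' ≤ m) (hu' : u' ≤ u) (hm : m ≤ v') (hv : v ≤ v' + 2 * per W2 + 2)
    (hv' : v ≤ 2 * per t) (I : IsBr m t W1 W2) (h : NC c (Kbr m u' v' W2 K) W1) :
    NC c K t := by
  obtain ⟨h1, q', e1, ⟨h, h2, q, e2, a1, a2, a3, a4, a5, a6⟩, b1, b2, b3⟩ := h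
  refine ⟨fun p => if p ≤ m then h1 p else if p ≤ m + 1 + 2 * per W2 then h2 (p - m - 1)
      else h1 (p - 2 * per W2 - 2), q, e1 + e2 + (h1 m - h2 0) ^ 2, H.loc _ _ _ ?_ a1,
    (I.tr _ _).2 ⟨h1, h2, e1, e2, b1, a2, le_rfl, ?_, ?_, ?_⟩, ?_, fun p hp => ?_⟩
  · intro p hp1 hp2
    split_ifs with c1 c2
    · exact a5 p (by omega) c1
    · rw [← a4 (p - m - 1) (by omega)]; congr 1; omega
    · rw [← a6 (p - 2 * per W2 - 2) (by omega) (by omega)]; congr 1; omega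
  · intro p hp; simp [hp]
  · intro p hp
    rw [if_neg (by omega), if_pos (by omega)]; congr 1; omega
  · intro p hp _
    rw [if_neg (by omega), if_neg (by omega)]; congr 1; omega
  · rw [← a5 m hu le_rfl]; linarith
  · simp only [show p ≤ m by omega, if_true]; exact b3 p hp

theorem bad_face {c u v x lam mw : ℕ} {ρ T : ℝ} {K : (ℕ → ℝ) → ℝ → Prop} {t t' : Mp}
    (H : KGood u v K) (hc : c ≤ u) (hu : u ≤ x) (hx : x + 1 ≤ v) (hv : v ≤ 2 * per t)
    (hw : ∀ h q, K h q → q < 1 →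
      ∃ p, u ≤ p ∧ p ≤ v ∧ p ≤ x + lam ∧ x ≤ p + lam ∧ h p < √(mw : ℝ))
    (hn : ∀ p, p ≤ 2 * per t → p ≤ x + lam → x ≤ p + lam → ¬ Far t {p} {x} ρ)
    (I : IsFace x t t') (h : BadS c u v (√(mw : ℝ) + ρ + 2) T K t) :
    BadS c u (v + 2) (√(mw : ℝ) + ρ + 2) T (Kface x K) t' := by
  obtain ⟨h, q, e, a1, a2, a3, a4, a5⟩ := h
  obtain ⟨h', b1, b2, b3⟩ := (I.tr _ _).1 a2
  have hq := H.nonneg _ _ a1
  have he := a2.nonneg
  obtain ⟨p0, c1, c2, c3, c4, c5⟩ := hw h q a1 (by linarith)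
  have hx0 := lt_of_not_far (hn p0 (by omega) c3 c4) a2 (by linarith)
  have hper := I.per_eq
  have hsq := sq_nonneg (h' x - h' (x + 3))
  have s1 := b1.step I.ok_t' x (by omega)
  have s2 := b1.step I.ok_t' (x + 1) (by omega)
  have s1' : h' (x + 1) ≤ h' x + 1 := by nlinarith
  have s2' : h' (x + 1 + 1) ≤ h' (x + 1) + 1 := by nlinarith
  have hxx := b2 x le_rfl
  refine ⟨h', q + (h' x - h' (x + 3)) ^ 2, e - (h' x - h' (x + 3)) ^ 2,
    ⟨q, H.loc _ _ _ ?_ a1, le_rfl⟩, b1, by linarith, fun p d1 d2 => ?_, fun p hp => ?_⟩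
  · intro p d1 d2
    split_ifs with d3
    · exact b2 p d3
    · exact b3 p (by omega) (by omega)
  · rcases Nat.lt_or_ge x p with d3 | d3
    · rcases Nat.lt_or_ge (x + 2) p with d4 | d4
      · have := b3 (p - 2) (by omega) (by omega)
        rw [show p - 2 + 2 = p by omega] at this
        rw [← this]; exact a4 _ (by omega) (by omega)
      · rcases (show p = x + 1 ∨ p = x + 1 + 1 by omega) with rfl | rfl <;> linarith
    · rw [← b2 p d3]; exact a4 p d1 (by omega)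
  · rw [← b2 p (by omega)]; exact a5 p hp

theorem bad_right {c u v x : ℕ} {s T : ℝ} {K : (ℕ → ℝ) → ℝ → Prop} {t W1 W2 : Mp}
    (H : KGood u v K) (hc : c ≤ u) (hu : u ≤ x) (hx : x + 1 ≤ v) (hv : v ≤ 2 * per t)
    (I : IsBr x t W1 W2) (h : BadS c u v s T K t) :
    BadS c u (max x (v - 2 * per W2 - 2)) s T
      (Kbr x u (max x (v - 2 * per W2 - 2)) W2 K) W1 := by
  obtain ⟨h, q, e, a1, a2, a3, a4, a5⟩ := h
  obtain ⟨h1, h2, e1, e2, b1, b2, b3, b4, b5, b6⟩ := (I.tr _ _).1 a2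
  have hper := I.per_eq
  have hle := I.le
  refine ⟨h1, q + e2 + (h x - h2 0) ^ 2, e1,
    ⟨h, h2, q, e2, a1, b2, le_rfl, b5, fun p _ d => b4 p d, fun p d1 d2 => b6 p d1 (by omega)⟩,
    b1, ?_, fun p d1 d2 => ?_, fun p hp => ?_⟩
  · rw [b4 x le_rfl]; linarith
  · rcases Nat.lt_or_ge x p with d3 | d3
    · rw [← b6 p (by omega) (by omega)]; exact a4 _ (by omega) (by omega)
    · rw [← b4 p d3]; exact a4 p d1 (by omega)
  · rw [← b4 p (by omega)]; exact a5 p hp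

theorem bad_left {c u v m : ℕ} {s T : ℝ} {K : (ℕ → ℝ) → ℝ → Prop} {t W1 W2 : Mp}
    (H : KGood u v K) (hc : c ≤ u) (hcm : c ≤ m) (hu : u ≤ m + 2 * per W2 + 1)
    (hx : m + 2 * per W2 + 2 ≤ v) (hv : v ≤ 2 * per t)
    (I : IsBr m t W1 W2) (h : BadS c u v s T K t) :
    BadS c (min u m) (v - 2 * per W2 - 2) s T
      (Kbr m (min u m) (v - 2 * per W2 - 2) W2 K) W1 := by
  obtain ⟨h, q, e, a1, a2, a3, a4, a5⟩ := h
  obtain ⟨h1, h2, e1, e2, b1, b2, b3, b4, b5, b6⟩ := (I.tr _ _).1 a2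
  have hper := I.per_eq
  have hle := I.le
  refine ⟨h1, q + e2 + (h m - h2 0) ^ 2, e1,
    ⟨h, h2, q, e2, a1, b2, le_rfl, b5, fun p _ d => b4 p d, fun p d1 d2 => b6 p d1 (by omega)⟩,
    b1, ?_, fun p d1 d2 => ?_, fun p hp => ?_⟩
  · rw [b4 m le_rfl]; linarith
  · rcases Nat.lt_or_ge p m with d3 | d3
    · rw [← b4 p d3.le]; exact a4 p (by omega) (by omega)
    · rw [← b6 p d3 (by omega)]; exact a4 _ (by omega) (by omega)
  · rw [← b4 p (by omega)]; exact a5 p hp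

theorem bad_touch {c u v m : ℕ} {s T : ℝ} {K : (ℕ → ℝ) → ℝ → Prop} {t W1 W2 : Mp}
    (hT : 0 < T) (hcm : m < c) (hu : u ≤ m + 2 * per W2 + 1) (hx : m + 2 * per W2 + 1 ≤ v)
    (I : IsBr m t W1 W2) : ¬ BadS c u v s T K t := by
  rintro ⟨h, q, e, a1, a2, a3, a4, a5⟩
  obtain ⟨h1, h2, e1, e2, b1, b2, b3, b4, b5, b6⟩ := (I.tr _ _).1 a2
  have c1 := b5 0 (by omega)
  have c2 := b5 (2 * per W2) le_rfl
  have c3 := b2.end_eq I.ok_2
  have c4 := a4 (m + 1 + 2 * per W2) (by omega) (by omega)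
  have c5 := a5 (m + 1 + 0) (by omega)
  linarith

end Pool.Agent.P.MP_7a6434d8_pr
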