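import Pool.Agent.P.MP_7a6434d8_pr.Stokes
import Pool.Agent.P.MP_7a6434d8_pr.RotC

namespace Pool.Agent.P.MP_7a6434d8_pr

open Mp Finset
open scoped ENNReal

theorem sym_half (L x r : ℕ) (h1 : L ≤ 2 * r) (h2 : r ≤ L) (h3 : x + r ≤ L) :
    mass L (fun t => Far t (Set.Icc x (x + r)) (Set.Icc (x + L) (x + L + r)) 1) ≤ Z L / 2 := by
  have key : ∀ p p0 : ℕ, (p0 + r = p ∨ p0 + r = p + 2 * L) →
      p0 ≡ p + (2 * L - r) [MOD 2 * L] := by
    rintro p p0 (h | h)
    · have : p + (2 * L - r) = p0 + 2 * L := by omega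
      rw [this]
      exact (Nat.add_modEq_right).symm
    · have : p + (2 * L - r) = p0 := by omega
      rw [this]
  have a := mass_far_shift L (2 * L - r) (Set.Icc x (x + r)) (Set.Icc (x + L) (x + L + r))
    (Set.Icc (x + r) (x + L)) (Set.Icc (x + L + r) (2 * L) ∪ Set.Icc 0 x) 1
    (by
      rintro p ⟨hp, hp'⟩
      exact ⟨by omega, p - r, ⟨by omega, by omega⟩, by omega, key _ _ (Or.inl (by omega))⟩)
    (by
      rintro p (⟨hp, hp'⟩ | ⟨-, hp'⟩)
      · exact ⟨hp', p - r, ⟨by omega, by omega⟩, by omega, key _ _ (Or.inl (by omega))⟩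
      · exact ⟨by omega, p + 2 * L - r, ⟨by omega, by omega⟩, by omega,
          key _ _ (Or.inr (by omega))⟩)
  have b := mass_add_le_Z (L := L)
    (φ := fun t => Far t (Set.Icc x (x + r)) (Set.Icc (x + L) (x + L + r)) 1)
    (ψ := fun t => Far t (Set.Icc (x + r) (x + L))
      (Set.Icc (x + L + r) (2 * L) ∪ Set.Icc 0 x) 1)
    fun t ht hp H1 H2 => duality t ht x (x + r) (x + L) (x + L + r) (by omega) (by omega)
      (by omega) (by omega) H1 (by rw [hp]; exact H2)
  linarith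

end Pool.Agent.P.MP_7a6434d8_pr
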