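import Pool.Agent.P.MP_7a6434d8_pr.Jump
import Pool.Agent.P.MP_7a6434d8_pr.Sym

namespace Pool.Agent.P.MP_7a6434d8_pr

open Mp Finset
open scoped ENNReal

theorem s1_face {m d b k : ℕ} {t t' : Mp} (H : IsFace k t t') (hp : 2 * per t = d + b)
    (hk1 : 60 * m ≤ k) (hk2 : k + 66 * m < d + b)
    (hφ : Far t (Set.Icc m (60 * m)) (Set.Icc (d + b - 66 * m) (d + b)) 1) :
    Far t' (Set.Icc m (60 * m)) (Set.Icc (d + (b + 2) - 66 * m) (d + (b + 2))) 1 := by
  obtain ⟨h, e, he, hT, hS, hU⟩ := hφ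
  obtain ⟨h', hT', h1, h2⟩ := (H.tr h e).1 hT
  refine ⟨h', e, he, hT'.mono (sub_le_self _ (sq_nonneg _)), fun p hp' => ?_, fun q hq => ?_⟩
  · rw [← h1 p (hp'.2.trans hk1)]
    exact hS p hp'
  · obtain ⟨q1, q2⟩ := hq
    have e1 : q = (q - 2) + 2 := by omega
    rw [e1, ← h2 (q - 2) (by omega) (by omega)]
    exact hU _ ⟨by omega, by omega⟩

theorem s1_br {m k a : ℕ} {t W1 W2 : Mp} (H : IsBr k t W1 W2) (hk1 : 60 * m ≤ k) (hk2 : k ≤ a)
    (ha : 2 * per W1 ≤ a + 66 * m)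
    (hφ : Far t (Set.Icc m (60 * m)) (Set.Icc (2 * per t - 66 * m) (2 * per t)) 1) :
    Far W1 (Set.Icc m (60 * m)) (Set.Icc a (2 * per W1)) 1 := by
  obtain ⟨h, e, he, hT, hS, hU⟩ := hφ
  obtain ⟨h1, h2, e1, e2, hT1, hT2, hle, g1, -, g3⟩ := (H.tr h e).1 hT
  have hpe := H.per_eq
  have he2 := hT2.nonneg
  have hsq := sq_nonneg (h1 k - h2 0)
  refine ⟨h1, e, he, hT1.mono (by linarith), fun p hp' => ?_, fun q hq => ?_⟩
  · rw [← g1 p (hp'.2.trans hk1)]
    exact hS p hp'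
  · obtain ⟨q1, q2⟩ := hq
    rw [← g3 q (hk2.trans q1) q2]
    exact hU _ ⟨by omega, by omega⟩

theorem s1_gain {m k i j : ℕ} (hm : 8 ≤ m) (hk1 : 60 * m ≤ k) (hk2 : k ≤ 61 * m)
    (hi1 : 56 * m ≤ i) (hi2 : i ≤ 63 * m) :
    mass2 i j (fun W1 W2 => Far (brR k W1 W2) (Set.Icc m (60 * m))
      (Set.Icc (2 * (i + j + 1) - 66 * m) (2 * (i + j + 1))) 1) ≤ Z i * Z j - Z i * Z j / 2 := by
  have hZ := Z_pos i
  have key : mass2 i j (fun W1 W2 => Far (brR k W1 W2) (Set.Icc m (60 * m))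
      (Set.Icc (2 * (i + j + 1) - 66 * m) (2 * (i + j + 1))) 1) ≤ Z i / 2 * Z j := by
    refine mass2_le_outer (by positivity) fun W2 o2 p2 => ?_
    refine le_trans (mass_mono fun W1 o1 p1 hφ => ?_)
      (sym_half i (6 * m) ((i + 1) / 2) (by omega) (by omega) (by omega))
    have H := isBr_brR k W1 W2 o1 o2 (by omega)
    have hpe := H.per_eq
    rw [p1, p2] at hpe
    rw [← hpe] at hφ
    have hF := s1_br (a := k) H hk1 le_rfl (by omega) hφ
    refine hF.mono (Set.Icc_subset_Icc (by omega) (by omega))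
      (Set.Icc_subset_Icc (by omega) (by omega)) le_rfl
  linarith

theorem s1_num : ∃ c : ℝ, 0 < c ∧ ∀ m : ℕ, 1 ≤ m →
    c ≤ w (63 * m) * ((m : ℝ) ^ 2 * √(m : ℝ)) := by
  obtain ⟨c, C, hc, -, h⟩ := w_bounds
  refine ⟨c / 32768, by positivity, fun m hm => ?_⟩
  have h1 := (h (63 * m)).1
  have hw := (w_pos (63 * m)).le
  have hm' : (1 : ℝ) ≤ m := by exact_mod_cast hm
  have h2 : ((63 * m : ℕ) : ℝ) + 1 ≤ 64 * m := by push_cast; linarith
  have h0 : (0 : ℝ) ≤ ((63 * m : ℕ) : ℝ) + 1 := by positivity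
  have h3 : √(((63 * m : ℕ) : ℝ) + 1) ≤ 8 * √(m : ℝ) := by
    refine (Real.sqrt_le_sqrt h2).trans (le_of_eq ?_)
    rw [Real.sqrt_mul (by norm_num), show (64 : ℝ) = 8 ^ 2 by norm_num,
      Real.sqrt_sq (by norm_num)]
  have h4 : (((63 * m : ℕ) : ℝ) + 1) ^ 2 * √(((63 * m : ℕ) : ℝ) + 1)
      ≤ (64 * (m : ℝ)) ^ 2 * (8 * √(m : ℝ)) :=
    mul_le_mul (pow_le_pow_left₀ h0 h2 2) h3 (Real.sqrt_nonneg _) (by positivity)
  have h5 := h1.trans (mul_le_mul_of_nonneg_left h4 hw)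
  rw [div_le_iff₀ (by norm_num)]
  refine h5.trans (le_of_eq ?_)
  ring

theorem s_one : ∃ δ : ℝ, 0 < δ ∧ δ ≤ 1 ∧ ∀ m L : ℕ, 8 ≤ m → 100 * m ≤ L →
    mass L (fun t => Far t (Set.Icc m (60 * m)) (Set.Icc (2 * L - 66 * m) (2 * L)) 1)
      ≤ (1 - δ) * Z L := by
  obtain ⟨c, hc, hj⟩ := jump
  obtain ⟨c0, hc0, hn⟩ := s1_num
  refine ⟨min 1 (7 * c * c0 / 16), lt_min one_pos (by positivity), min_le_left _ _,
    fun m L hm hL => ?_⟩
  obtain ⟨d, hd⟩ : ∃ d, 2 * L = d + m := ⟨2 * L - m, by omega⟩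
  have hw1 := w_pos (63 * m)
  have hw2 := w_pos L
  have main := hj m (60 * m) d (7 * (m : ℝ) * w (63 * m) * w L / 16)
    (fun b t => Far t (Set.Icc m (60 * m)) (Set.Icc (d + b - 66 * m) (d + b)) 1) hm (by omega)
    (by positivity)
    (fun b t t' H hp hφ => s1_face H hp (by omega) (by omega) hφ)
    (fun b m' t W1 W2 H hp h1 h2 hφ => by
      have hpe := H.per_eq
      have e1 : d + (b - 2 * per W2 - 2) = 2 * per W1 := by omega
      rw [← hp] at hφ
      rw [e1]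
      exact s1_br H h1 (by omega) (by omega) hφ)
    (fun b L' hL' hb1 hb2 => by
      refine ⟨Ico (L' - 63 * m) (L' - 56 * m), fun j => Z (L' - 1 - j) * Z j / 2,
        fun j hj' => ?_, ?_⟩
      · obtain ⟨j1, j2⟩ := mem_Ico.1 hj'
        refine ⟨by omega, by omega, ?_⟩
        have e1 : d + b = 2 * ((L' - 1 - j) + j + 1) := by omega
        beta_reduce
        rw [e1]
        exact s1_gain hm (by omega) (by omega) (by omega) (by omega)
      · have hcard : (Ico (L' - 63 * m) (L' - 56 * m)).card = 7 * m := by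
          rw [Nat.card_Ico]; omega
        have hb : ∀ j ∈ Ico (L' - 63 * m) (L' - 56 * m),
            w (63 * m) * w L * 8 ^ L' / 16 ≤ Z (L' - 1 - j) * Z j / 2 := by
          intro j hj'
          obtain ⟨j1, j2⟩ := mem_Ico.1 hj'
          have a1 : w (63 * m) ≤ w (L' - 1 - j) := w_anti (by omega)
          have a2 : w L ≤ w j := w_anti (by omega)
          have a3 : (8 : ℝ) ^ L' = 8 * (8 ^ (L' - 1 - j) * 8 ^ j) := by
            rw [← pow_add, ← pow_succ']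
            congr 1
            omega
          have a4 : w (63 * m) * w L ≤ w (L' - 1 - j) * w j :=
            mul_le_mul a1 a2 hw2.le (w_pos _).le
          have a5 := mul_le_mul_of_nonneg_right a4
            (show (0 : ℝ) ≤ 8 ^ (L' - 1 - j) * 8 ^ j by positivity)
          rw [Z_eq_w, Z_eq_w, a3]
          linarith
        have hs := card_nsmul_le_sum _ _ _ hb
        rw [hcard, nsmul_eq_mul] at hs
        refine le_trans (le_of_eq ?_) hs
        push_cast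
        ring)
    L hd
  beta_reduce at main
  rw [← hd] at main
  refine main.trans ?_
  have h1 := hn m (by omega)
  have h2 : min 1 (7 * c * c0 / 16) ≤ 7 * c * (w (63 * m) * ((m : ℝ) ^ 2 * √(m : ℝ))) / 16 := by
    refine (min_le_right _ _).trans ?_
    have := mul_le_mul_of_nonneg_left h1 (show 0 ≤ 7 * c by positivity)
    linarith
  have h3 := mul_le_mul_of_nonneg_right h2 (Z_pos L).le
  have h4 : c * (7 * (m : ℝ) * w (63 * m) * w L / 16) * ((m : ℝ) * √(m : ℝ)) * 8 ^ L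
      = 7 * c * (w (63 * m) * ((m : ℝ) ^ 2 * √(m : ℝ))) / 16 * Z L := by
    rw [Z_eq_w]; ring
  rw [h4]
  linarith

end Pool.Agent.P.MP_7a6434d8_pr
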