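import Pool.Agent.P.MP_7a6434d8_pr.BasicB

namespace Pool.Agent.P.MP_7a6434d8_pr

open Mp Finset
open scoped ENNReal

/-- boundary term of the strengthened inequality -/
noncomputable def stokesT (a b c d : ℝ) : ℝ := (a + b) * (d - c) + ((b - a) ^ 2 + (d - c) ^ 2) / 2

theorem stokes_strong (t : Mp) : ok t → ∀ f g : V t → ℝ,
    ∑ p ∈ range (2 * per t),
        stokesT (f (bv t p)) (f (bv t (p + 1))) (g (bv t p)) (g (bv t (p + 1)))
      ≤ energy t f + energy t g := by
  induction t with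
  | pt => intro _ f g; simp [per, energy]
  | face t ih =>
    rintro ⟨ht, h2⟩ f g
    have h := ih ht f g
    obtain ⟨n, hn⟩ : ∃ n, per t = n + 2 := ⟨per t - 2, by omega⟩
    have e1 : 2 * per (face t) = (2 * n + 1) + 1 := by simp only [per]; omega
    have e2 : 2 * per t = (2 * n + 1) + 1 + 1 + 1 := by omega
    rw [e2, sum_range_succ', sum_range_succ', sum_range_succ'] at h
    rw [e1, sum_range_succ']
    have e3 : ∀ p, bv (face t) (p + 1) = bv t (p + 3) := fun p => by simp [bv]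
    have e4 : bv (face t) 0 = bv t 0 := by simp [bv]
    simp only [e3, e4, energy, zero_add] at h ⊢
    have e5 : ∑ p ∈ range (2 * n + 1), stokesT (f (bv t (p + 3))) (f (bv t (p + 1 + 3)))
        (g (bv t (p + 3))) (g (bv t (p + 1 + 3))) =
        ∑ p ∈ range (2 * n + 1), stokesT (f (bv t (p + 1 + 1 + 1))) (f (bv t (p + 1 + 1 + 1 + 1)))
        (g (bv t (p + 1 + 1 + 1))) (g (bv t (p + 1 + 1 + 1 + 1))) := rfl
    rw [e5]
    have e6 : bv t (1 + 1 + 1) = bv t 3 := rfl
    have e7 : bv t (1 + 1) = bv t 2 := rfl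
    rw [e6, e7] at h
    unfold stokesT at h ⊢
    nlinarith [sq_nonneg (f (bv t 0) - f (bv t 2) + (g (bv t 1) - g (bv t 3))),
      sq_nonneg (f (bv t 1) - f (bv t 3) - (g (bv t 0) - g (bv t 2))),
      sq_nonneg (f (bv t 0) - f (bv t 1) + f (bv t 2) - f (bv t 3)),
      sq_nonneg (g (bv t 0) - g (bv t 1) + g (bv t 2) - g (bv t 3))]
  | bridge a b iha ihb =>
    rintro ⟨ha, hb⟩ f g
    have h1 := iha ha (fun x => f (Sum.inl x)) (fun x => g (Sum.inl x))
    have h2 := ihb hb (fun x => f (Sum.inr x)) (fun x => g (Sum.inr x))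
    have e1 : 2 * per (bridge a b) = (2 * per b + 1 + 2 * per a) + 1 := by
      simp only [per]; omega
    have e2 : bv (bridge a b) 0 = Sum.inl (bv a 0) := by simp [bv]
    have e3 : ∀ p, p ≤ 2 * per b → bv (bridge a b) (p + 1) = Sum.inr (bv b p) := fun p hp => by
      simp only [bv]
      rw [if_neg (by omega), if_pos (by omega)]
      rfl
    have e4 : ∀ p, bv (bridge a b) (2 * per b + 1 + p + 1) = Sum.inl (bv a p) := fun p => by
      simp only [bv]
      rw [if_neg (by omega), if_neg (by omega)]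
      congr 2
      omega
    rw [e1, sum_range_succ', sum_range_add, sum_range_succ]
    have s1 : ∑ p ∈ range (2 * per b), stokesT (f (bv (bridge a b) (p + 1)))
        (f (bv (bridge a b) (p + 1 + 1))) (g (bv (bridge a b) (p + 1)))
        (g (bv (bridge a b) (p + 1 + 1))) =
        ∑ p ∈ range (2 * per b), stokesT (f (Sum.inr (bv b p))) (f (Sum.inr (bv b (p + 1))))
          (g (Sum.inr (bv b p))) (g (Sum.inr (bv b (p + 1)))) :=
      sum_congr rfl fun p hp => by
        have := mem_range.1 hp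
        rw [e3 p (by omega), e3 (p + 1) (by omega)]
    have s2 : ∑ p ∈ range (2 * per a), stokesT (f (bv (bridge a b) (2 * per b + 1 + p + 1)))
        (f (bv (bridge a b) (2 * per b + 1 + p + 1 + 1)))
        (g (bv (bridge a b) (2 * per b + 1 + p + 1)))
        (g (bv (bridge a b) (2 * per b + 1 + p + 1 + 1))) =
        ∑ p ∈ range (2 * per a), stokesT (f (Sum.inl (bv a p))) (f (Sum.inl (bv a (p + 1))))
          (g (Sum.inl (bv a p))) (g (Sum.inl (bv a (p + 1)))) :=
      sum_congr rfl fun p _ => by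
        rw [e4 p, show 2 * per b + 1 + p + 1 + 1 = 2 * per b + 1 + (p + 1) + 1 from rfl, e4]
    rw [s1, s2, e2, e3 0 (by omega), e3 (2 * per b) le_rfl, bv_end b hb,
      show 2 * per b + 1 + 1 = 2 * per b + 1 + 0 + 1 from rfl, e4 0]
    simp only [energy]
    unfold stokesT at h1 h2 ⊢
    nlinarith

theorem stokes (t : Mp) (ht : ok t) (f g : V t → ℝ) :
    ∑ p ∈ range (2 * per t),
        (f (bv t p) + f (bv t (p + 1))) * (g (bv t (p + 1)) - g (bv t p))
      ≤ energy t f + energy t g := by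
  refine le_trans (sum_le_sum fun p _ => ?_) (stokes_strong t ht f g)
  unfold stokesT
  have := sq_nonneg (f (bv t (p + 1)) - f (bv t p))
  have := sq_nonneg (g (bv t (p + 1)) - g (bv t p))
  linarith

theorem stokes_clamp (x y : ℝ) : |max 0 (min 1 x) - max 0 (min 1 y)| ≤ |x - y| := by
  refine (abs_max_sub_max_le_max _ _ _ _).trans ?_
  rw [sub_self, abs_zero]
  refine max_le (abs_nonneg _) ((abs_min_sub_min_le_max _ _ _ _).trans ?_)
  rw [sub_self, abs_zero]
  exact max_le (abs_nonneg _) le_rfl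

theorem duality (t : Mp) (ht : ok t) (p0 p1 p2 p3 : ℕ) (h01 : p0 ≤ p1) (h12 : p1 ≤ p2)
    (h23 : p2 ≤ p3) (h3 : p3 ≤ 2 * per t) (H1 : Far t (Set.Icc p0 p1) (Set.Icc p2 p3) 1)
    (H2 : Far t (Set.Icc p1 p2) (Set.Icc p3 (2 * per t) ∪ Set.Icc 0 p0) 1) : False := by
  obtain ⟨h, e, he, hT, hS, hU⟩ := H1
  obtain ⟨h', e', he', hT', hS', hU'⟩ := H2
  obtain ⟨f, hf, hfe⟩ := hT.lip (fun x => max 0 (min 1 x)) stokes_clamp
  obtain ⟨g, hg, hge⟩ := hT'.lip (fun x => max 0 (min 1 x)) stokes_clamp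
  have c0 : ∀ x : ℝ, x ≤ 0 → max 0 (min 1 x) = 0 := fun x hx =>
    max_eq_left ((min_le_right _ _).trans hx)
  have c1 : ∀ x : ℝ, 1 ≤ x → max 0 (min 1 x) = 1 := fun x hx => by
    rw [min_eq_left hx]; exact max_eq_right zero_le_one
  have f0 : ∀ p, p0 ≤ p → p ≤ p1 → f (bv t p) = 0 := fun p a b => by
    rw [← hf p (by omega)]; exact c0 _ (hS p ⟨a, b⟩)
  have f1 : ∀ p, p2 ≤ p → p ≤ p3 → f (bv t p) = 1 := fun p a b => by
    rw [← hf p (by omega)]; exact c1 _ (hU p ⟨a, b⟩)
  have g0 : ∀ p, p1 ≤ p → p ≤ p2 → g (bv t p) = 0 := fun p a b => by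
    rw [← hg p (by omega)]; exact c0 _ (hS' p ⟨a, b⟩)
  have g1 : ∀ p, p3 ≤ p → p ≤ 2 * per t → g (bv t p) = 1 := fun p a b => by
    rw [← hg p b]; exact c1 _ (hU' p (Or.inl ⟨a, b⟩))
  have g2 : ∀ p, p ≤ p0 → g (bv t p) = 1 := fun p a => by
    rw [← hg p (by omega)]; exact c1 _ (hU' p (Or.inr ⟨Nat.zero_le _, a⟩))
  have hs := stokes t ht f g
  have e1 : ∑ p ∈ range (2 * per t),
      (f (bv t p) + f (bv t (p + 1))) * (g (bv t (p + 1)) - g (bv t p)) =
      ∑ p ∈ Ico p2 p3, 2 * (g (bv t (p + 1)) - g (bv t p)) := by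
    symm
    refine (sum_congr rfl fun p hp => ?_).trans (sum_subset ?_ fun p hp hp' => ?_)
    · obtain ⟨a, b⟩ := mem_Ico.1 hp
      rw [f1 p a b.le, f1 (p + 1) (by omega) b]
      norm_num
    · intro p hp
      have := mem_Ico.1 hp
      exact mem_range.2 (by omega)
    · have a := mem_range.1 hp
      have b : p < p2 ∨ p3 ≤ p := by
        by_contra c
        exact hp' (mem_Ico.2 (by omega))
      by_cases c1 : p < p0
      · rw [g2 p c1.le, g2 (p + 1) c1]; simp
      by_cases c2 : p < p1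
      · rw [f0 p (by omega) c2.le, f0 (p + 1) (by omega) c2]; simp
      rcases b with b | b
      · rw [g0 p (by omega) b.le, g0 (p + 1) (by omega) b]; simp
      · rw [g1 p b a.le, g1 (p + 1) (by omega) a]; simp
  rw [e1, ← mul_sum, sum_Ico_eq_sub _ h23, sum_range_sub (fun p => g (bv t p)),
    sum_range_sub (fun p => g (bv t p)), g1 p3 le_rfl h3, g0 p2 h12 le_rfl] at hs
  linarith

end Pool.Agent.P.MP_7a6434d8_pr
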