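import Pool.Agent.P.MP_7a6434d8_pr.Defs4

namespace Pool.Agent.P.MP_7a6434d8_pr

open MeasureTheory ProbabilityTheory Filter Topology
open scoped ENNReal

theorem uanalysis_lim (f : ℕ → ℝ) (c C : ℝ) (lo hi : ℕ → ℝ) (hlo : Tendsto lo atTop (𝓝 c))
    (hhi : Tendsto hi atTop (𝓝 c))
    (h : ∀ j : ℕ, ∀ᶠ t : ℕ in atTop,
      lo j * Real.log t - C ≤ f t ∧ f t ≤ hi j * Real.log t + C) :
    Tendsto (fun t : ℕ => f t / Real.log t) atTop (𝓝 c) := by
  have hlog : Tendsto (fun t : ℕ => Real.log t) atTop atTop :=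
    Real.tendsto_log_atTop.comp tendsto_natCast_atTop_atTop
  refine tendsto_order.2 ⟨fun a ha => ?_, fun a ha => ?_⟩
  · obtain ⟨j, hj⟩ := (hlo.eventually (lt_mem_nhds ha)).exists
    filter_upwards [h j, hlog.eventually_gt_atTop 0,
      hlog.eventually_gt_atTop (C / (lo j - a))] with t h1 h2 h3
    rw [div_lt_iff₀ (sub_pos.2 hj)] at h3
    rw [lt_div_iff₀ h2]
    nlinarith [h1.1]
  · obtain ⟨j, hj⟩ := (hhi.eventually (gt_mem_nhds ha)).exists
    filter_upwards [h j, hlog.eventually_gt_atTop 0,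
      hlog.eventually_gt_atTop (C / (a - hi j))] with t h1 h2 h3
    rw [div_lt_iff₀ (sub_pos.2 hj)] at h3
    rw [div_lt_iff₀ h2]
    nlinarith [h1.2]

theorem uanalysis_pow (i : ℕ) (a : ℝ) :
    ((2 ^ i : ℕ) : ℝ) ^ a = Real.exp (i * Real.log 2 * a) := by
  rw [Real.rpow_def_of_pos (by positivity)]
  push_cast
  rw [Real.log_pow]

theorem uanalysis_log (i : ℕ) : Real.log ((2 ^ i : ℕ) : ℝ) = i * Real.log 2 := by
  push_cast
  rw [Real.log_pow]

theorem dyadic_walk (D : ℕ → ℕ) (hD : Monotone D)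
    (h : ∀ j : ℕ, ∀ᶠ i : ℕ in atTop,
      D ⌊((2 ^ i : ℕ) : ℝ) ^ (4 - 1 / ((j : ℝ) + 1))⌋₊ ≤ 2 ^ i ∧
        2 ^ i < D ⌊((2 ^ i : ℕ) : ℝ) ^ (4 + 1 / ((j : ℝ) + 1))⌋₊) :
    Tendsto (fun t : ℕ => Real.log (D t) / Real.log t) atTop (𝓝 (1 / 4)) := by
  have hlog : Tendsto (fun t : ℕ => Real.log t) atTop atTop :=
    Real.tendsto_log_atTop.comp tendsto_natCast_atTop_atTop
  have hL : 0 < Real.log 2 := Real.log_pos (by norm_num)
  have h0 : Tendsto (fun j : ℕ => 1 / ((j : ℝ) + 1)) atTop (𝓝 0) :=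
    tendsto_one_div_add_atTop_nhds_zero_nat
  refine uanalysis_lim (fun t => Real.log (D t)) (1 / 4) (Real.log 2)
    (fun j => 1 / (4 + 1 / ((j : ℝ) + 1))) (fun j => 1 / (4 - 1 / ((j : ℝ) + 1))) ?_ ?_ fun j => ?_
  · have := (tendsto_const_nhds (x := (1 : ℝ))).div
      ((tendsto_const_nhds (x := (4 : ℝ))).add h0) (by norm_num)
    rw [add_zero] at this
    exact this
  · have := (tendsto_const_nhds (x := (1 : ℝ))).div
      ((tendsto_const_nhds (x := (4 : ℝ))).sub h0) (by norm_num)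
    rw [sub_zero] at this
    exact this
  have he0 : 0 < 1 / ((j : ℝ) + 1) := by positivity
  have he1 : 1 / ((j : ℝ) + 1) ≤ 1 := by
    rw [div_le_one (by positivity)]
    linarith [(Nat.cast_nonneg j : (0 : ℝ) ≤ j)]
  have hj := h j
  generalize 1 / ((j : ℝ) + 1) = e at he0 he1 hj
  have ha : 0 < 4 - e := by linarith
  have hb : 0 < 4 + e := by linarith
  have t1 : Tendsto (fun t : ℕ => ⌈Real.log t / (Real.log 2 * (4 - e))⌉₊) atTop atTop :=
    tendsto_nat_ceil_atTop.comp (hlog.atTop_div_const (by positivity))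
  have t2 : Tendsto (fun t : ℕ => ⌊Real.log t / (Real.log 2 * (4 + e))⌋₊) atTop atTop :=
    tendsto_nat_floor_atTop.comp (hlog.atTop_div_const (by positivity))
  filter_upwards [t1.eventually hj, t2.eventually hj, hlog.eventually_gt_atTop 0,
    eventually_gt_atTop 0] with t h1 h2 h3 h4
  have ht : (0 : ℝ) < t := by exact_mod_cast h4
  have c1 := Nat.le_ceil (Real.log t / (Real.log 2 * (4 - e)))
  have c2 := Nat.ceil_lt_add_one (show 0 ≤ Real.log t / (Real.log 2 * (4 - e)) by positivity)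
  have f1 := Nat.floor_le (show 0 ≤ Real.log t / (Real.log 2 * (4 + e)) by positivity)
  have f2 := Nat.lt_floor_add_one (Real.log t / (Real.log 2 * (4 + e)))
  generalize ⌈Real.log t / (Real.log 2 * (4 - e))⌉₊ = i at h1 c1 c2
  generalize ⌊Real.log t / (Real.log 2 * (4 + e))⌋₊ = k at h2 f1 f2
  have hk : 2 ^ k < D t := by
    refine h2.2.trans_le (hD (Nat.floor_le_of_le ?_))
    rw [uanalysis_pow, ← Real.le_log_iff_exp_le ht]
    rw [le_div_iff₀ (by positivity)] at f1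
    linarith
  have hi : D t ≤ 2 ^ i := by
    refine le_trans (hD (Nat.le_floor ?_)) h1.1
    rw [uanalysis_pow, ← Real.log_le_iff_le_exp ht]
    rw [div_le_iff₀ (by positivity)] at c1
    linarith
  have hDt : (0 : ℝ) < D t := by exact_mod_cast (Nat.zero_le _).trans_lt hk
  have l1 : Real.log ((2 ^ k : ℕ) : ℝ) ≤ Real.log (D t) :=
    Real.log_le_log (by positivity) (by exact_mod_cast hk.le)
  have l2 : Real.log (D t) ≤ Real.log ((2 ^ i : ℕ) : ℝ) :=
    Real.log_le_log hDt (by exact_mod_cast hi)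
  rw [uanalysis_log] at l1 l2
  constructor
  · have : Real.log t / (Real.log 2 * (4 + e)) * Real.log 2 = 1 / (4 + e) * Real.log t := by
      field_simp
    nlinarith
  · have : Real.log t / (Real.log 2 * (4 - e)) * Real.log 2 = 1 / (4 - e) * Real.log t := by
      field_simp
    nlinarith

theorem dyadic_spec (p : ℕ → ℝ) (hp : Antitone p)
    (h : ∀ j : ℕ, ∀ᶠ i : ℕ in atTop,
      ((2 ^ i : ℕ) : ℝ) ^ (-1 - 1 / ((j : ℝ) + 1)) ≤ p (2 ^ i) ∧
        p (2 ^ i) ≤ ((2 ^ i : ℕ) : ℝ) ^ (-1 + 1 / ((j : ℝ) + 1))) :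
    Tendsto (fun t : ℕ => Real.log (p t) / Real.log t) atTop (𝓝 (-1)) := by
  have hL : 0 < Real.log 2 := Real.log_pos (by norm_num)
  have h0 : Tendsto (fun j : ℕ => 1 / ((j : ℝ) + 1)) atTop (𝓝 0) :=
    tendsto_one_div_add_atTop_nhds_zero_nat
  refine uanalysis_lim (fun t => Real.log (p t)) (-1) (2 * Real.log 2)
    (fun j => -1 - 1 / ((j : ℝ) + 1)) (fun j => -1 + 1 / ((j : ℝ) + 1)) ?_ ?_ fun j => ?_
  · have := (tendsto_const_nhds (x := (-1 : ℝ))).sub h0
    rw [sub_zero] at this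
    exact this
  · have := (tendsto_const_nhds (x := (-1 : ℝ))).add h0
    rw [add_zero] at this
    exact this
  have he0 : 0 < 1 / ((j : ℝ) + 1) := by positivity
  have he1 : 1 / ((j : ℝ) + 1) ≤ 1 := by
    rw [div_le_one (by positivity)]
    linarith [(Nat.cast_nonneg j : (0 : ℝ) ≤ j)]
  have hj := h j
  generalize 1 / ((j : ℝ) + 1) = e at he0 he1 hj
  have t1 : Tendsto (fun t : ℕ => Nat.log 2 t) atTop atTop := by
    refine tendsto_atTop_atTop.2 fun b => ⟨2 ^ b, fun t ht => ?_⟩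
    exact Nat.le_log_of_pow_le (by norm_num) ht
  have t2 : Tendsto (fun t : ℕ => Nat.log 2 t + 1) atTop atTop :=
    (tendsto_add_atTop_nat 1).comp t1
  filter_upwards [t1.eventually hj, t2.eventually hj, eventually_gt_atTop 0] with t h1 h2 h4
  have ht : (0 : ℝ) < t := by exact_mod_cast h4
  have n1 : 2 ^ Nat.log 2 t ≤ t := Nat.pow_log_le_self 2 h4.ne'
  have n2 : t < 2 ^ (Nat.log 2 t + 1) := Nat.lt_pow_succ_log_self (by norm_num) t
  generalize Nat.log 2 t = i at h1 h2 n1 n2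
  have u1 := (hp n1).trans h1.2
  have u2 := h2.1.trans (hp n2.le)
  rw [uanalysis_pow] at u1 u2
  have hpt : 0 < p t := (Real.exp_pos _).trans_le u2
  rw [← Real.log_le_iff_le_exp hpt] at u1
  rw [← Real.le_log_iff_exp_le hpt] at u2
  have l1 : Real.log ((2 ^ i : ℕ) : ℝ) ≤ Real.log t :=
    Real.log_le_log (by positivity) (by exact_mod_cast n1)
  have l2 : Real.log t ≤ Real.log ((2 ^ (i + 1) : ℕ) : ℝ) :=
    Real.log_le_log ht (by exact_mod_cast n2.le)
  rw [uanalysis_log] at l1 l2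
  push_cast at l2 u2
  constructor
  · nlinarith [mul_nonneg (show 0 ≤ 1 + e by linarith) (sub_nonneg.2 l1),
      mul_nonneg (sub_nonneg.2 he1) hL.le]
  · nlinarith [mul_nonneg (sub_nonneg.2 he1) (sub_nonneg.2 l2), mul_pos he0 hL]

theorem dyadic_bc {Ω : Type} [MeasurableSpace Ω] (μ : Measure Ω) (B : ℕ → Ω → Prop) (δ : ℝ)
    (hδ : 0 < δ)
    (h : ∀ᶠ i : ℕ in atTop, μ {ω | B i ω} ≤ ENNReal.ofReal (((2 ^ i : ℕ) : ℝ) ^ (-δ))) :
    ∀ᵐ ω ∂μ, ∀ᶠ i : ℕ in atTop, ¬ B i ω := by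
  obtain ⟨i0, hi0⟩ := eventually_atTop.1 h
  have hL : 0 < Real.log 2 := Real.log_pos (by norm_num)
  have hr : Real.exp (-(Real.log 2 * δ)) < 1 :=
    Real.exp_lt_one_iff.2 (neg_lt_zero.2 (mul_pos hL hδ))
  have hs : Summable fun i : ℕ => Real.exp (-(Real.log 2 * δ)) ^ (i + i0) :=
    (summable_nat_add_iff i0).2 (summable_geometric_of_lt_one (Real.exp_pos _).le hr)
  have hfin : ∑' i : ℕ, μ {ω | B (i + i0) ω} ≠ ∞ := by
    refine ne_top_of_le_ne_top (hs.tsum_ofReal_ne_top) (ENNReal.tsum_le_tsum fun i => ?_)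
    refine (hi0 _ (Nat.le_add_left _ _)).trans (le_of_eq ?_)
    rw [uanalysis_pow, ← Real.exp_nat_mul]
    congr 2
    ring
  filter_upwards [ae_eventually_notMem hfin] with ω hω
  obtain ⟨i1, hi1⟩ := eventually_atTop.1 hω
  refine eventually_atTop.2 ⟨i1 + i0, fun i hi => ?_⟩
  have := hi1 (i - i0) (by omega)
  rw [Nat.sub_add_cancel (by omega)] at this
  exact this

end Pool.Agent.P.MP_7a6434d8_pr
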