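import Pool.Agent.P.MP_7a6434d8_pr.Defs4

namespace Pool.Agent.P.MP_7a6434d8_pr

open MeasureTheory ProbabilityTheory Filter Topology
open scoped ENNReal

theorem InfQuad.ubasic_tail_sig (M : InfQuad) (d : ℕ) : M.tail (M.φ (M.α d)) = M.tail d := by
  apply Quotient.sound
  change (M.φ * M.α).SameCycle ((M.φ * M.α) d) d
  exact Equiv.Perm.sameCycle_apply_left.2 (Equiv.Perm.SameCycle.refl _ _)

theorem InfQuad.ubasic_tail_phi (M : InfQuad) (d : ℕ) : M.tail (M.φ d) = M.head d := by
  have h := M.ubasic_tail_sig (M.α d)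
  rw [M.α_α] at h
  exact h

theorem InfQuad.ubasic_eq_or_adj (M : InfQuad) (d : ℕ) :
    M.tail d = M.head d ∨ M.graph.Adj (M.tail d) (M.head d) := by
  by_cases h : M.tail d = M.head d
  · exact Or.inl h
  · right
    unfold InfQuad.graph
    rw [SimpleGraph.fromRel_adj]
    exact ⟨h, Or.inl ⟨d, rfl, rfl⟩⟩

theorem InfQuad.ubasic_reach (M : InfQuad) (d : ℕ) :
    M.graph.Reachable (M.tail d) (M.head d) := by
  rcases M.ubasic_eq_or_adj d with h | h
  · rw [← h]
  · exact h.reachable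

theorem InfQuad.graph_connected (M : InfQuad) : M.graph.Connected := by
  have : Nonempty M.Vertex := ⟨M.tail M.root⟩
  refine ⟨fun x y => ?_⟩
  obtain ⟨d, rfl⟩ := Quotient.exists_rep x
  obtain ⟨d', rfl⟩ := Quotient.exists_rep y
  change M.graph.Reachable (M.tail d) (M.tail d')
  have h := M.connected d d'
  induction h with
  | refl => exact SimpleGraph.Reachable.refl _
  | @tail b c _ hbc ih =>
    refine ih.trans ?_
    rcases hbc with rfl | rfl
    · exact M.ubasic_reach b
    · rw [M.ubasic_tail_phi]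
      exact M.ubasic_reach b

theorem InfQuad.tail_sig (M : InfQuad) (d : ℕ) : M.tail (M.φ (M.α d)) = M.tail d :=
  M.ubasic_tail_sig d

theorem InfQuad.mem_out (M : InfQuad) (x : M.Vertex) (d : ℕ) : d ∈ M.out x ↔ M.tail d = x := by
  unfold InfQuad.out
  rw [Set.Finite.mem_toFinset]
  rfl

theorem InfQuad.tail_eq_pow (M : InfQuad) (d d' : ℕ) (h : M.tail d = M.tail d') :
    ∃ j : ℕ, ((M.φ * M.α) ^ j) d = d' := by
  have hsc : (M.φ * M.α).SameCycle d d' := Quotient.exact h
  set σ := M.φ * M.α with hσ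
  have hmem : ∀ i : ℕ, (σ ^ i) d ∈ {d' | σ.SameCycle d d'} := fun i =>
    show σ.SameCycle d ((σ ^ i) d) from ⟨(i : ℤ), by rw [zpow_natCast]⟩
  obtain ⟨a, b, hab, he⟩ := Set.Finite.exists_lt_map_eq_of_forall_mem
    (f := fun i : ℕ => (σ ^ i) d) hmem (M.locFin d)
  obtain ⟨j, rfl⟩ := Nat.exists_eq_add_of_lt hab
  have hper : (σ ^ (j + 1)) d = d := by
    have h1 : (σ ^ a) d = (σ ^ a) ((σ ^ (j + 1)) d) := by
      rw [← Equiv.Perm.mul_apply, ← pow_add, ← add_assoc]
      exact he
    exact ((σ ^ a).injective h1).symm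
  obtain ⟨i, hi⟩ := hsc
  have hpos : (0 : ℤ) < ((j + 1 : ℕ) : ℤ) := by exact_mod_cast Nat.succ_pos j
  have hnn : 0 ≤ i % ((j + 1 : ℕ) : ℤ) := Int.emod_nonneg _ hpos.ne'
  refine ⟨(i % ((j + 1 : ℕ) : ℤ)).toNat, ?_⟩
  rw [← hi, ← zpow_natCast, Int.toNat_of_nonneg hnn]
  have hdec : i = i % ((j + 1 : ℕ) : ℤ) + ((j + 1 : ℕ) : ℤ) * (i / ((j + 1 : ℕ) : ℤ)) :=
    (Int.emod_add_mul_ediv i _).symm
  have hfix : ((σ ^ (j + 1)) ^ (i / ((j + 1 : ℕ) : ℤ))) d = d :=
    Equiv.Perm.zpow_apply_eq_self_of_apply_eq_self hper _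
  conv_rhs => rw [hdec, zpow_add, zpow_mul, zpow_natCast, Equiv.Perm.mul_apply, hfix]

theorem InfQuad.ht_head (M : InfQuad) (d : ℕ) : M.ht (M.head d) ≤ M.ht (M.tail d) + 1 := by
  rcases M.ubasic_eq_or_adj d with h | h
  · rw [← h]
    exact Nat.le_succ _
  · have h1 := M.graph_connected.dist_triangle (u := M.tail M.root) (v := M.tail d)
      (w := M.head d)
    rw [SimpleGraph.dist_eq_one_iff_adj.2 h] at h1
    exact h1

theorem InfQuad.ubasic_adj (M : InfQuad) {x y : M.Vertex} (h : M.graph.Adj x y) :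
    ∃ e, M.tail e = y ∧ M.head e = x := by
  unfold InfQuad.graph at h
  rw [SimpleGraph.fromRel_adj] at h
  rcases h.2 with ⟨e, h1, h2⟩ | ⟨e, h1, h2⟩
  · refine ⟨M.α e, h2, ?_⟩
    unfold InfQuad.head
    rw [M.α_α]
    exact h1
  · exact ⟨e, h1, h2⟩

theorem InfQuad.ubasic_ball (M : InfQuad) (r : M.Vertex) (T : ℕ) :
    {d | ∃ p : M.graph.Walk (M.tail d) r, p.length ≤ T}.Finite := by
  induction T with
  | zero =>
    refine (M.out_finite r).subset ?_
    rintro d ⟨p, hp⟩
    exact SimpleGraph.Walk.eq_of_length_eq_zero (Nat.le_zero.1 hp)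
  | succ T ih =>
    refine ((M.out_finite r).union (ih.biUnion fun e _ => M.out_finite (M.head e))).subset ?_
    rintro d ⟨p, hp⟩
    generalize hx : M.tail d = x at p hp
    cases p with
    | nil => exact Or.inl hx
    | cons hadj p' =>
      right
      obtain ⟨e, he1, he2⟩ := M.ubasic_adj hadj
      subst he1
      rw [SimpleGraph.Walk.length_cons] at hp
      exact Set.mem_biUnion (x := e) ⟨p', by omega⟩ (hx.trans he2.symm)

theorem InfQuad.ball_finite (M : InfQuad) (T : ℕ) : {d | M.ht (M.tail d) ≤ T}.Finite := by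
  refine (M.ubasic_ball (M.tail M.root) T).subset ?_
  intro d hd
  obtain ⟨p, hp⟩ := M.graph_connected.exists_walk_length_eq_dist (M.tail d) (M.tail M.root)
  refine ⟨p, ?_⟩
  rw [hp, SimpleGraph.dist_comm]
  exact hd

theorem InfQuad.exists_word (M : InfQuad) (d : ℕ) : ∃ w, act M.α M.φ M.root w = d := by
  have h := M.connected M.root d
  induction h with
  | refl => exact ⟨[], rfl⟩
  | @tail b c _ hbc ih =>
    obtain ⟨w, hw⟩ := ih
    rcases hbc with rfl | rfl
    · exact ⟨true :: w, by rw [← hw]; rfl⟩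
    · exact ⟨false :: w, by rw [← hw]; rfl⟩

theorem act_append {D : Type} (α φ : Equiv.Perm D) (r : D) (u w : List Bool) :
    act α φ r (u ++ w) = act α φ (act α φ r w) u := by
  unfold act
  rw [List.foldr_append]

theorem act_sigw {D : Type} (α φ : Equiv.Perm D) (r : D) (j : ℕ) :
    act α φ r (sigw j) = ((φ * α) ^ j) r := by
  induction j with
  | zero => rfl
  | succ j ih =>
    rw [pow_succ', Equiv.Perm.mul_apply, ← ih]
    rfl

theorem view_mono {D D' : Type} (α φ : Equiv.Perm D) (r : D) (α' φ' : Equiv.Perm D') (r' : D')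
    (j k : ℕ) (hjk : j ≤ k) (h : view α φ r k = view α' φ' r' k) :
    view α φ r j = view α' φ' r' j := by
  ext p
  constructor
  · rintro ⟨h1, h2, h3⟩
    have hp : p ∈ view α φ r k := ⟨h1.trans hjk, h2.trans hjk, h3⟩
    rw [h] at hp
    exact ⟨h1, h2, hp.2.2⟩
  · rintro ⟨h1, h2, h3⟩
    have hp : p ∈ view α' φ' r' k := ⟨h1.trans hjk, h2.trans hjk, h3⟩
    rw [← h] at hp
    exact ⟨h1, h2, hp.2.2⟩

theorem act_iso {n : ℕ} (q q' : Quad n) (h : Quad.Iso q q') (w w' : List Bool) :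
    act q.α q.φ q.root w = act q.α q.φ q.root w' ↔
      act q'.α q'.φ q'.root w = act q'.α q'.φ q'.root w' := by
  obtain ⟨e, ha, hf, hr⟩ := h
  have key : ∀ u : List Bool, e (act q.α q.φ q.root u) = act q'.α q'.φ q'.root u := by
    intro u
    induction u with
    | nil => exact hr
    | cons b u ih =>
      cases b with
      | true =>
        change e (q.α (act q.α q.φ q.root u)) = q'.α (act q'.α q'.φ q'.root u)
        rw [ha, ih]
      | false =>
        change e (q.φ (act q.α q.φ q.root u)) = q'.φ (act q'.α q'.φ q'.root u)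
        rw [hf, ih]
  rw [← key w, ← key w']
  exact e.injective.eq_iff.symm

theorem view_iso {n : ℕ} (q q' : Quad n) (h : Quad.Iso q q') (k : ℕ) :
    view q.α q.φ q.root k = view q'.α q'.φ q'.root k := by
  ext p
  unfold view
  rw [Set.mem_ofPred_eq, Set.mem_ofPred_eq, act_iso q q' h]

theorem code_iso {n : ℕ} (q q' : Quad n) (h : Quad.Iso q q') : code q = code q' := by
  funext p
  unfold code
  exact decide_eq_decide.2 (act_iso q q' h p.1 p.2)

theorem words_finite (k : ℕ) :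
    {p : List Bool × List Bool | p.1.length ≤ k ∧ p.2.length ≤ k}.Finite :=
  ((List.finite_length_le Bool k).prod (List.finite_length_le Bool k)).subset fun _ hp => hp

theorem views_finite (k : ℕ) :
    (Set.range fun M : InfQuad => view M.α M.φ M.root k).Finite := by
  refine (words_finite k).finite_subsets.subset ?_
  rintro V ⟨M, rfl⟩ p hp
  exact ⟨hp.1, hp.2.1⟩

end Pool.Agent.P.MP_7a6434d8_pr
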