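import Pool.Agent.P.MP_7a6434d8_pr.UBasic

namespace Pool.Agent.P.MP_7a6434d8_pr

open MeasureTheory ProbabilityTheory Filter Topology
open scoped ENNReal

/-- the equivalence relation on words given by a good relation -/
def ucodeSetoid (ω : List Bool × List Bool → Bool) (h : GoodRel ω) : Setoid (List Bool) :=
  ⟨fun w w' => ω (w, w') = true,
    ⟨h.refl, fun {x y} => h.symm x y, fun {x y z} => h.trans x y z⟩⟩

/-- adding a letter in front of a class of words -/
def ucodeCons (ω : List Bool × List Bool → Bool) (h : GoodRel ω) (b : Bool) :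
    Quotient (ucodeSetoid ω h) → Quotient (ucodeSetoid ω h) :=
  Quotient.map (fun w => b :: w) (fun x y hxy => by
    show ω (b :: x, b :: y) = true
    rw [h.cons]
    exact hxy)

theorem ucode_mk_eq (ω : List Bool × List Bool → Bool) (h : GoodRel ω) (w w' : List Bool) :
    Quotient.mk (ucodeSetoid ω h) w = Quotient.mk (ucodeSetoid ω h) w' ↔ ω (w, w') = true :=
  ⟨fun e => Quotient.exact e, fun e => Quotient.sound e⟩

theorem ucode_cons_mk (ω : List Bool × List Bool → Bool) (h : GoodRel ω) (b : Bool)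
    (w : List Bool) :
    ucodeCons ω h b (Quotient.mk (ucodeSetoid ω h) w) = Quotient.mk (ucodeSetoid ω h) (b :: w) :=
  rfl

theorem ucode_aa (ω : List Bool × List Bool → Bool) (h : GoodRel ω)
    (c : Quotient (ucodeSetoid ω h)) : ucodeCons ω h true (ucodeCons ω h true c) = c := by
  obtain ⟨w, rfl⟩ := Quotient.exists_rep c
  rw [ucode_cons_mk, ucode_cons_mk, ucode_mk_eq]
  exact h.aa w

theorem ucode_f4 (ω : List Bool × List Bool → Bool) (h : GoodRel ω)
    (c : Quotient (ucodeSetoid ω h)) :
    ucodeCons ω h false (ucodeCons ω h false (ucodeCons ω h false (ucodeCons ω h false c))) = c := by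
  obtain ⟨w, rfl⟩ := Quotient.exists_rep c
  rw [ucode_cons_mk, ucode_cons_mk, ucode_cons_mk, ucode_cons_mk, ucode_mk_eq]
  exact h.f4 w

/-- the involution on classes of words -/
def ucodeA (ω : List Bool × List Bool → Bool) (h : GoodRel ω) :
    Equiv.Perm (Quotient (ucodeSetoid ω h)) :=
  ⟨ucodeCons ω h true, ucodeCons ω h true, ucode_aa ω h, ucode_aa ω h⟩

/-- the face permutation on classes of words -/
def ucodeF (ω : List Bool × List Bool → Bool) (h : GoodRel ω) :
    Equiv.Perm (Quotient (ucodeSetoid ω h)) :=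
  ⟨ucodeCons ω h false,
    fun c => ucodeCons ω h false (ucodeCons ω h false (ucodeCons ω h false c)),
    ucode_f4 ω h, ucode_f4 ω h⟩

theorem ucode_act (ω : List Bool × List Bool → Bool) (h : GoodRel ω) (w : List Bool) :
    act (ucodeA ω h) (ucodeF ω h) (Quotient.mk (ucodeSetoid ω h) []) w =
      Quotient.mk (ucodeSetoid ω h) w := by
  induction w with
  | nil => rfl
  | cons b w ih =>
    have e : act (ucodeA ω h) (ucodeF ω h) (Quotient.mk (ucodeSetoid ω h) []) (b :: w) =
        if b then ucodeA ω h (act (ucodeA ω h) (ucodeF ω h) (Quotient.mk (ucodeSetoid ω h) []) w)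
        else ucodeF ω h (act (ucodeA ω h) (ucodeF ω h) (Quotient.mk (ucodeSetoid ω h) []) w) :=
      rfl
    rw [e, ih]
    cases b <;> rfl

theorem ucode_infinite (ω : List Bool × List Bool → Bool) (h : GoodRel ω) :
    Infinite (Quotient (ucodeSetoid ω h)) := by
  by_contra hfin
  have : Finite (Quotient (ucodeSetoid ω h)) := not_infinite_iff_finite.1 hfin
  obtain ⟨k, hk⟩ := (Set.finite_range
    (fun c : Quotient (ucodeSetoid ω h) => (Quotient.out c).length)).bddAbove
  obtain ⟨w, -, hw⟩ := h.inf k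
  have h1 := hw (Quotient.out (Quotient.mk (ucodeSetoid ω h) w)) (hk ⟨_, rfl⟩)
  have h2 : ω (w, Quotient.out (Quotient.mk (ucodeSetoid ω h) w)) = true := by
    rw [← ucode_mk_eq ω h, Quotient.out_eq]
  rw [h1] at h2
  exact Bool.false_ne_true h2

theorem ucode_act_cons {D : Type} (α φ : Equiv.Perm D) (r : D) (b : Bool) (w : List Bool) :
    act α φ r (b :: w) = if b then α (act α φ r w) else φ (act α φ r w) := rfl

theorem ucode_transport {C : Type} (e : C ≃ ℕ) (a f : Equiv.Perm C) (r : C) (w : List Bool) :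
    act (e.permCongr a) (e.permCongr f) (e r) w = e (act a f r w) := by
  induction w with
  | nil => rfl
  | cons b w ih =>
    rw [ucode_act_cons, ucode_act_cons, ih]
    cases b <;> simp

theorem ucode_connected {D : Type} (α φ : Equiv.Perm D) (r : D) (haa : ∀ d, α (α d) = d)
    (hf : ∀ d, φ (φ (φ (φ d))) = d) (hall : ∀ d, ∃ w, act α φ r w = d) (d d' : D) :
    Relation.ReflTransGen (fun x y => y = α x ∨ y = φ x) d d' := by
  have h1 : ∀ w, Relation.ReflTransGen (fun x y => y = α x ∨ y = φ x) r (act α φ r w) := by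
    intro w
    induction w with
    | nil => exact Relation.ReflTransGen.refl
    | cons b w ih =>
      rw [ucode_act_cons]
      cases b
      · exact ih.tail (Or.inr (by simp))
      · exact ih.tail (Or.inl (by simp))
  have h2 : ∀ w, Relation.ReflTransGen (fun x y => y = α x ∨ y = φ x) (act α φ r w) r := by
    intro w
    induction w with
    | nil => exact Relation.ReflTransGen.refl
    | cons b w ih =>
      rw [ucode_act_cons]
      cases b
      · refine Relation.ReflTransGen.head (Or.inr rfl) (Relation.ReflTransGen.head (Or.inr rfl)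
          (Relation.ReflTransGen.head (Or.inr ?_) ih))
        simp [hf]
      · refine Relation.ReflTransGen.head (Or.inl ?_) ih
        simp [haa]
  obtain ⟨w, rfl⟩ := hall d
  obtain ⟨w', rfl⟩ := hall d'
  exact (h2 w).trans (h1 w')

theorem ucode_cycle_finite {D : Type} (s : Equiv.Perm D) (d : D) (j : ℕ) (hj : 0 < j)
    (h : (s ^ j) d = d) : {d' | s.SameCycle d d'}.Finite := by
  refine ((Set.finite_Iio j).image (fun i => (s ^ i) d)).subset ?_
  rintro d' ⟨z, rfl⟩
  have hj' : (0 : ℤ) < j := by exact_mod_cast hj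
  have hz : ((s ^ (j : ℤ)) ^ (z / j)) d = d := by
    rw [zpow_natCast]
    exact Equiv.Perm.zpow_apply_eq_self_of_apply_eq_self h _
  refine ⟨(z % j).toNat, ?_, ?_⟩
  · have h1 := Int.emod_lt_of_pos z hj'
    have h2 := Int.emod_nonneg z hj'.ne'
    simp only [Set.mem_Iio]
    omega
  · have h2 := Int.emod_nonneg z hj'.ne'
    have e1 : s ^ z = s ^ (z % j) * (s ^ (j : ℤ)) ^ (z / j) := by
      rw [← zpow_mul, ← zpow_add, Int.emod_add_mul_ediv]
    show (s ^ (z % j).toNat) d = (s ^ z) d
    rw [e1, Equiv.Perm.mul_apply, hz, ← zpow_natCast, Int.toNat_of_nonneg h2]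

theorem exists_infQuad (ω : List Bool × List Bool → Bool) (h : GoodRel ω) :
    ∃ M : InfQuad, ∀ w w', act M.α M.φ M.root w = act M.α M.φ M.root w' ↔ ω (w, w') = true := by
  have hinf := ucode_infinite ω h
  obtain ⟨e⟩ : Nonempty (Quotient (ucodeSetoid ω h) ≃ ℕ) := nonempty_equiv_of_countable
  have hact : ∀ w, act (e.permCongr (ucodeA ω h)) (e.permCongr (ucodeF ω h))
      (e (Quotient.mk (ucodeSetoid ω h) [])) w = e (Quotient.mk (ucodeSetoid ω h) w) := by
    intro w
    rw [ucode_transport, ucode_act]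
  have hall : ∀ d, ∃ w, e (Quotient.mk (ucodeSetoid ω h) w) = d := by
    intro d
    obtain ⟨w, hw⟩ := Quotient.exists_rep (e.symm d)
    exact ⟨w, by rw [hw, Equiv.apply_symm_apply]⟩
  have hA : ∀ w, e.permCongr (ucodeA ω h) (e (Quotient.mk (ucodeSetoid ω h) w)) =
      e (Quotient.mk (ucodeSetoid ω h) (true :: w)) := by
    intro w
    rw [Equiv.permCongr_apply, Equiv.symm_apply_apply]
    rfl
  have hF : ∀ w, e.permCongr (ucodeF ω h) (e (Quotient.mk (ucodeSetoid ω h) w)) =
      e (Quotient.mk (ucodeSetoid ω h) (false :: w)) := by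
    intro w
    rw [Equiv.permCongr_apply, Equiv.symm_apply_apply]
    rfl
  have heq : ∀ w w', e (Quotient.mk (ucodeSetoid ω h) w) = e (Quotient.mk (ucodeSetoid ω h) w') ↔
      ω (w, w') = true := by
    intro w w'
    rw [e.apply_eq_iff_eq, ucode_mk_eq]
  have haa : ∀ d, e.permCongr (ucodeA ω h) (e.permCongr (ucodeA ω h) d) = d := by
    intro d
    obtain ⟨w, rfl⟩ := hall d
    rw [hA, hA, heq]
    exact h.aa w
  have hf4 : ∀ d, e.permCongr (ucodeF ω h) (e.permCongr (ucodeF ω h)
      (e.permCongr (ucodeF ω h) (e.permCongr (ucodeF ω h) d))) = d := by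
    intro d
    obtain ⟨w, rfl⟩ := hall d
    rw [hF, hF, hF, hF, heq]
    exact h.f4 w
  refine ⟨⟨e.permCongr (ucodeA ω h), e.permCongr (ucodeF ω h),
    e (Quotient.mk (ucodeSetoid ω h) []), haa, ?_, ?_, ?_, ?_⟩, ?_⟩
  · intro d
    obtain ⟨w, rfl⟩ := hall d
    rw [hA, Ne, heq, h.ane w]
    exact Bool.false_ne_true
  · intro d
    refine ⟨?_, ?_⟩
    · have := hf4 d
      simpa only [pow_succ, pow_zero, one_mul, Equiv.Perm.mul_apply] using this
    · obtain ⟨w, rfl⟩ := hall d
      rw [pow_two, Equiv.Perm.mul_apply, hF, hF, Ne, heq, h.f2 w]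
      exact Bool.false_ne_true
  · refine ucode_connected _ _ (e (Quotient.mk (ucodeSetoid ω h) [])) haa hf4 ?_
    intro d
    obtain ⟨w, rfl⟩ := hall d
    exact ⟨w, hact w⟩
  · intro d
    obtain ⟨w, rfl⟩ := hall d
    obtain ⟨j, hj, hw⟩ := h.loc w
    refine ucode_cycle_finite _ _ j hj ?_
    rw [← act_sigw, ← hact, ← act_append, hact, hact, heq]
    exact hw
  · intro w w'
    show act (e.permCongr (ucodeA ω h)) (e.permCongr (ucodeF ω h))
      (e (Quotient.mk (ucodeSetoid ω h) [])) w = act (e.permCongr (ucodeA ω h))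
      (e.permCongr (ucodeF ω h)) (e (Quotient.mk (ucodeSetoid ω h) [])) w' ↔ _
    rw [hact, hact, heq]

end Pool.Agent.P.MP_7a6434d8_pr
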