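import Pool.Agent.P.MP_7a6434d8_pr.UBasic

namespace Pool.Agent.P.MP_7a6434d8_pr

open MeasureTheory ProbabilityTheory Filter Topology
open scoped ENNReal

theorem loc_of_view (M : InfQuad) (T : ℕ) : ∃ k : ℕ, ∀ (n : ℕ) (q : Quad n),
    view q.α q.φ q.root k = view M.α M.φ M.root k → ∃ ψ, LocIso M q T ψ := by
  choose wd hwd using M.exists_word
  obtain ⟨k1, hk1⟩ := ((M.ball_finite T).image fun d => (wd d).length).bddAbove
  have hb : ∀ d, M.ht (M.tail d) ≤ T → (wd d).length ≤ k1 := fun d hd => hk1 ⟨d, hd, rfl⟩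
  refine ⟨k1 + 2, fun n q hv => ⟨fun d => act q.α q.φ q.root (wd d), ?_⟩⟩
  have key : ∀ u v : List Bool, u.length ≤ k1 + 2 → v.length ≤ k1 + 2 →
      (act q.α q.φ q.root u = act q.α q.φ q.root v ↔
        act M.α M.φ M.root u = act M.α M.φ M.root v) := by
    intro u v hu hv'
    have h : (u, v) ∈ view q.α q.φ q.root (k1 + 2) ↔ (u, v) ∈ view M.α M.φ M.root (k1 + 2) := by
      rw [hv]
    exact ⟨fun e => (h.1 ⟨hu, hv', e⟩).2.2, fun e => (h.2 ⟨hu, hv', e⟩).2.2⟩
  refine ⟨?_, ?_, ?_, ?_⟩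
  · have h0 : M.ht (M.tail M.root) ≤ T := by
      unfold InfQuad.ht
      rw [SimpleGraph.dist_self]
      exact Nat.zero_le _
    have h1 := hb _ h0
    exact (key (wd M.root) [] (by omega) (Nat.zero_le _)).2 (hwd _)
  · intro d d' hd hd' e
    have h1 := hb _ hd
    have h2 := hb _ hd'
    have h3 := (key (wd d) (wd d') (by omega) (by omega)).1 e
    rwa [hwd, hwd] at h3
  · intro d hd
    have h1 := hb _ hd
    have h2 := hb (M.φ (M.α d)) (by rw [M.tail_sig]; exact hd)
    refine (key (wd (M.φ (M.α d))) (false :: true :: wd d) (by omega)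
      (by simp only [List.length_cons]; omega)).2 ?_
    rw [hwd]
    change _ = M.φ (M.α (act M.α M.φ M.root (wd d)))
    rw [hwd]
  · intro d hd
    have h1 := hb _ hd.le
    have h2 := hb (M.α d) (le_trans (M.ht_head d) hd)
    refine (key (wd (M.α d)) (true :: wd d) (by omega)
      (by simp only [List.length_cons]; omega)).2 ?_
    rw [hwd]
    change _ = M.α (act M.α M.φ M.root (wd d))
    rw [hwd]

end Pool.Agent.P.MP_7a6434d8_pr
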