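import Pool.Agent.P.MP_7a6434d8_pr.Defs4

namespace Pool.Agent.P.MP_7a6434d8_pr

open MeasureTheory ProbabilityTheory Filter Topology
open scoped ENNReal

instance (M : InfQuad) : IsProbabilityMeasure M.pathLaw := by
  unfold InfQuad.pathLaw
  infer_instance

open Classical in
theorem upath_walk (M : InfQuad) (T : ℕ) : ∀ (x : M.Vertex) (f : ℕ → M.Vertex),
    M.walk T x (List.ofFn fun i : Fin (T + 1) => f i)
      = (if f 0 = x then 1 else 0) * ∏ i ∈ Finset.range T, M.step (f i) (f (i + 1)) := by
  induction T with
  | zero =>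
    intro x f
    simp [InfQuad.walk, PMF.pure_apply]
  | succ T ih =>
    intro x f
    have h1 : (List.ofFn fun i : Fin (T + 1 + 1) => f i)
        = f 0 :: List.ofFn fun i : Fin (T + 1) => f (i + 1) := by
      rw [List.ofFn_succ]
      rfl
    have h2 : ∀ y, ((M.walk T y).map fun l => x :: l)
        (f 0 :: List.ofFn fun i : Fin (T + 1) => f (i + 1))
        = (if f 0 = x then 1 else 0) * ((if f 1 = y then 1 else 0)
          * ∏ i ∈ Finset.range T, M.step (f (i + 1)) (f (i + 1 + 1))) := by
      intro y
      rw [PMF.map_apply, tsum_eq_single (List.ofFn fun i : Fin (T + 1) => f (i + 1))]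
      · have h3 := ih y fun i => f (i + 1)
        by_cases h : f 0 = x
        · rw [if_pos (by rw [h]), if_pos h, one_mul]
          exact h3
        · rw [if_neg (fun h' => h (List.cons.inj h').1), if_neg h, zero_mul]
      · intro l hl
        exact if_neg fun h' => hl (List.cons.inj h').2.symm
    rw [h1, InfQuad.walk, PMF.bind_apply, tsum_eq_single (f 1)]
    · rw [h2, if_pos rfl, one_mul, Finset.prod_range_succ']
      by_cases h : f 0 = x
      · rw [if_pos h, one_mul, one_mul, h, mul_comm]
      · rw [if_neg h, zero_mul, zero_mul, mul_zero]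
    · intro y hy
      rw [h2, if_neg (Ne.symm hy), zero_mul, mul_zero, mul_zero]

theorem upath_length (M : InfQuad) (T : ℕ) : ∀ (x : M.Vertex) (l : List M.Vertex),
    l ∈ (M.walk T x).support → l.length = T + 1 := by
  induction T with
  | zero =>
    intro x l hl
    rw [InfQuad.walk, PMF.support_pure] at hl
    rw [Set.mem_singleton_iff.1 hl]
    rfl
  | succ T ih =>
    intro x l hl
    rw [InfQuad.walk, PMF.mem_support_bind_iff] at hl
    obtain ⟨y, -, hy⟩ := hl
    obtain ⟨l', h1, rfl⟩ := (PMF.mem_support_map_iff _ _ _).1 hy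
    rw [List.length_cons, ih y l' h1]

theorem upath_cyl_eq {V : Type} (T : ℕ) (f : ℕ → V) :
    {X : ℕ → V | ∀ i, i ≤ T → X i = f i}
      = Preorder.frestrictLe (π := fun _ => V) T ⁻¹' {Preorder.frestrictLe (π := fun _ => V) T f} := by
  ext X
  simp only [Set.mem_ofPred_eq, Set.mem_preimage, Set.mem_singleton_iff]
  constructor
  · intro h
    funext i
    exact h i (Finset.mem_Iic.1 i.2)
  · intro h i hi
    exact congrFun h ⟨i, Finset.mem_Iic.2 hi⟩

open Classical in
theorem upath_cyl (M : InfQuad) (f : ℕ → M.Vertex) (T : ℕ) :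
    M.pathLaw {X | ∀ i, i ≤ T → X i = f i}
      = (if f 0 = M.tail M.root then 1 else 0)
        * ∏ i ∈ Finset.range T, M.step (f i) (f (i + 1)) := by
  induction T with
  | zero =>
    rw [upath_cyl_eq, ← Measure.map_apply (Preorder.measurable_frestrictLe 0)
      (measurableSet_singleton _), InfQuad.pathLaw, Kernel.trajMeasure,
      Measure.map_comp _ _ (Preorder.measurable_frestrictLe 0), Kernel.traj_map_frestrictLe,
      Kernel.partialTraj_self, Measure.id_comp,
      Measure.map_apply (MeasurableEquiv.measurable _) (measurableSet_singleton _),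
      Measure.dirac_apply' _ MeasurableSet.of_discrete, Finset.prod_range_zero, mul_one]
    by_cases h : f 0 = M.tail M.root
    · rw [if_pos h, Set.indicator_of_mem]
      · rfl
      · funext i
        have h0 : i.1 = 0 := Nat.le_zero.1 (Finset.mem_Iic.1 i.2)
        show _ = f i.1
        rw [h0, h]
        simp
    · rw [if_neg h, Set.indicator_of_notMem]
      intro h'
      refine h ?_
      have h1 := congrFun h' ⟨0, Finset.mem_Iic.2 le_rfl⟩
      simpa [Preorder.frestrictLe] using h1.symm
  | succ T ih =>
    have h1 : {X : ℕ → M.Vertex | ∀ i, i ≤ T + 1 → X i = f i}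
        = (fun X => (Preorder.frestrictLe (π := fun _ => M.Vertex) T X, X (T + 1))) ⁻¹'
          ({Preorder.frestrictLe (π := fun _ => M.Vertex) T f} ×ˢ {f (T + 1)}) := by
      ext X
      have h2 := Set.ext_iff.1 (upath_cyl_eq T f) X
      simp only [Set.mem_ofPred_eq, Set.mem_preimage, Set.mem_singleton_iff, Set.mem_prod] at h2 ⊢
      rw [← h2]
      constructor
      · exact fun h => ⟨fun i hi => h i (by omega), h _ le_rfl⟩
      · rintro ⟨h3, h4⟩ i hi
        rcases Nat.lt_or_ge i (T + 1) with h5 | h5
        · exact h3 i (by omega)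
        · rw [show i = T + 1 by omega]
          exact h4
    rw [upath_cyl_eq, ← Measure.map_apply (Preorder.measurable_frestrictLe T)
      (measurableSet_singleton _)] at ih
    rw [h1, ← Measure.map_apply
      ((Preorder.measurable_frestrictLe T).prodMk (measurable_pi_apply (T + 1)))
      ((measurableSet_singleton _).prod (measurableSet_singleton _))]
    unfold InfQuad.pathLaw at ih ⊢
    rw [← Kernel.map_frestrictLe_trajMeasure_compProd_eq_map_trajMeasure,
      Measure.compProd_apply_prod (measurableSet_singleton _) (measurableSet_singleton _),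
      lintegral_singleton, ih, Finset.prod_range_succ]
    have h2 : M.kernel T (Preorder.frestrictLe (π := fun _ => M.Vertex) T f) {f (T + 1)}
        = M.step (f T) (f (T + 1)) :=
      PMF.toMeasure_apply_singleton (M.step (f T)) (f (T + 1)) (measurableSet_singleton _)
    rw [h2]
    ring

theorem pathLaw_marg (M : InfQuad) (T : ℕ) (A : Set (List M.Vertex)) :
    M.pathLaw {X | List.ofFn (fun i : Fin (T + 1) => X i) ∈ A}
      = (M.walk T (M.tail M.root)).toOuterMeasure A := by
  let _ : MeasurableSpace (List M.Vertex) := ⊤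
  have _ : DiscreteMeasurableSpace (List M.Vertex) := ⟨fun _ => trivial⟩
  have hg : Measurable fun X : ℕ → M.Vertex => List.ofFn (fun i : Fin (T + 1) => X i) :=
    (Measurable.of_discrete (f := fun Y : Fin (T + 1) → M.Vertex => List.ofFn Y)).comp
      (measurable_pi_lambda _ fun i => measurable_pi_apply (i : ℕ))
  have h1 : M.pathLaw.map (fun X : ℕ → M.Vertex => List.ofFn (fun i : Fin (T + 1) => X i))
      = (M.walk T (M.tail M.root)).toMeasure := by
    refine Measure.ext_of_singleton fun l => ?_
    rw [Measure.map_apply hg MeasurableSet.of_discrete,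
      PMF.toMeasure_apply_singleton _ _ MeasurableSet.of_discrete]
    by_cases hl : l.length = T + 1
    · have h2 : l = List.ofFn fun i : Fin (T + 1) => l.getD i (M.tail M.root) := by
        refine List.ext_getElem (by simp [hl]) fun i h3 h4 => ?_
        rw [List.getElem_ofFn, List.getD_eq_getElem _ _ h3]
      have h3 : (fun X : ℕ → M.Vertex => List.ofFn (fun i : Fin (T + 1) => X i)) ⁻¹' {l}
          = {X | ∀ i, i ≤ T → X i = l.getD i (M.tail M.root)} := by
        ext X
        rw [Set.mem_preimage, Set.mem_singleton_iff, Set.mem_ofPred_eq]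
        constructor
        · intro h i hi
          exact congrFun (List.ofFn_injective (h.trans h2)) ⟨i, by omega⟩
        · intro h
          refine Eq.trans ?_ h2.symm
          exact congrArg List.ofFn (funext fun i => h i (by omega))
      rw [h3, upath_cyl M (fun i => l.getD i (M.tail M.root)) T,
        ← upath_walk M T _ (fun i => l.getD i (M.tail M.root)), ← h2]
    · have h3 : (fun X : ℕ → M.Vertex => List.ofFn (fun i : Fin (T + 1) => X i)) ⁻¹' {l} = ∅ := by
        ext X
        simp only [Set.mem_preimage, Set.mem_singleton_iff, Set.mem_empty_iff_false, iff_false]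
        rintro rfl
        exact hl (List.length_ofFn)
      rw [h3, measure_empty]
      by_contra h
      exact hl (upath_length M T _ l ((PMF.mem_support_iff _ _).2 fun h' => h h'.symm))
  rw [← PMF.toMeasure_apply_eq_toOuterMeasure_apply _ MeasurableSet.of_discrete, ← h1,
    Measure.map_apply hg MeasurableSet.of_discrete]
  rfl

theorem pathLaw_ret (M : InfQuad) (T : ℕ) :
    M.pathLaw {X | X T = M.tail M.root} = M.ret T := by
  rw [InfQuad.ret, ← pathLaw_marg]
  congr 1
  ext X
  simp only [Set.mem_ofPred_eq, List.getElem?_ofFn]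
  simp

theorem pathLaw_esc (M : InfQuad) (T : ℕ) (r : ℝ) :
    M.pathLaw {X | ∃ s, s ≤ T ∧ r < (M.ht (X s) : ℝ)} = M.escape T r := by
  rw [InfQuad.escape, ← pathLaw_marg]
  congr 1
  ext X
  simp only [Set.mem_ofPred_eq, List.mem_ofFn]
  constructor
  · rintro ⟨s, hs, h⟩
    exact ⟨X s, ⟨⟨s, by omega⟩, rfl⟩, h⟩
  · rintro ⟨y, ⟨i, rfl⟩, h⟩
    exact ⟨i, by omega, h⟩

theorem pathLaw_stay (M : InfQuad) (T : ℕ) (r : ℝ) :
    M.pathLaw {X | ∀ s, s ≤ T → (M.ht (X s) : ℝ) ≤ r} = 1 - M.escape T r := by
  have h1 : MeasurableSet {X : ℕ → M.Vertex | ∃ s, s ≤ T ∧ r < (M.ht (X s) : ℝ)} := by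
    have h2 : {X : ℕ → M.Vertex | ∃ s, s ≤ T ∧ r < (M.ht (X s) : ℝ)}
        = ⋃ s, (fun X : ℕ → M.Vertex => X s) ⁻¹' {y | s ≤ T ∧ r < (M.ht y : ℝ)} := by
      ext X
      simp
    rw [h2]
    exact MeasurableSet.iUnion fun s => measurable_pi_apply s MeasurableSet.of_discrete
  rw [← pathLaw_esc, ← prob_compl_eq_one_sub h1]
  congr 1
  ext X
  simp

end Pool.Agent.P.MP_7a6434d8_pr
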