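import Pool.Agent.P.MP_7a6434d8_pr.UBasic
import Pool.Agent.P.MP_7a6434d8_pr.XMain

namespace Pool.Agent.P.MP_7a6434d8_pr

open MeasureTheory ProbabilityTheory Filter Topology
open scoped ENNReal

theorem utransfer_card {n : ℕ} [Finite (RootedQuad n)] (k : ℕ)
    (F : Finset (Set (List Bool × List Bool))) (P : Quad n → Prop)
    (h : ∀ V ∈ F, ∀ q : Quad n, view q.α q.φ q.root k = V → P q) :
    ∑ V ∈ F, Nat.card {c : RootedQuad n // ∃ q : Quad n, Quot.mk _ q = c ∧
        view q.α q.φ q.root k = V}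
      ≤ Nat.card {c : RootedQuad n // ∃ q : Quad n, Quot.mk _ q = c ∧ P q} := by
  classical
  have := Fintype.ofFinite (RootedQuad n)
  simp only [Nat.card_eq_fintype_card, Fintype.card_subtype]
  rw [← Finset.card_biUnion]
  · refine Finset.card_le_card fun c hc => ?_
    obtain ⟨V, hV, hc⟩ := Finset.mem_biUnion.1 hc
    obtain ⟨q, h1, h2⟩ := (Finset.mem_filter.1 hc).2
    exact Finset.mem_filter.2 ⟨Finset.mem_univ _, q, h1, h V hV q h2⟩
  · intro V _ W _ hVW
    refine Finset.disjoint_left.2 fun c h1 h2 => hVW ?_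
    obtain ⟨q, h3, h4⟩ := (Finset.mem_filter.1 h1).2
    obtain ⟨q', h5, h6⟩ := (Finset.mem_filter.1 h2).2
    rw [← h4, ← h6]
    exact view_iso q q' ((xcount_mk_eq q q').1 (h3.trans h5.symm)) k

theorem transfer {μ : Measure InfQuad} (hμ : IsLocalLimit μ) (B : InfQuad → Prop)
    (B' : ∀ n : ℕ, Quad n → Prop) (η : ℝ)
    (hloc : ∀ M, B M → ∃ k : ℕ, ∀ (n : ℕ) (q : Quad n),
      view q.α q.φ q.root k = view M.α M.φ M.root k → B' n q)
    (hη : ∀ᶠ n : ℕ in atTop,
      (Nat.card {c : RootedQuad n // ∃ q : Quad n, Quot.mk _ q = c ∧ B' n q} : ℝ)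
        ≤ η * (Nat.card (RootedQuad n) : ℝ)) :
    μ {M | B M} ≤ ENNReal.ofReal η := by
  obtain ⟨hp, ν, hν, hlim⟩ := hμ
  set S : ℕ → Set InfQuad := fun k => {M | ∀ (n : ℕ) (q : Quad n),
    view q.α q.φ q.root k = view M.α M.φ M.root k → B' n q} with hS
  have hmono : Monotone S := fun j k hjk M hM n q hq =>
    hM n q (view_mono _ _ _ _ _ _ j k hjk hq)
  have hsub : {M | B M} ⊆ ⋃ k, S k := fun M hM => Set.mem_iUnion.2 (hloc M hM)
  refine (measure_mono hsub).trans ?_
  rw [hmono.measure_iUnion]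
  refine iSup_le fun k => ?_
  have hfin : ((fun M : InfQuad => view M.α M.φ M.root k) '' S k).Finite :=
    (views_finite k).subset (Set.image_subset_range _ _)
  have h1 : S k ⊆ ⋃ V ∈ hfin.toFinset, {M : InfQuad | view M.α M.φ M.root k = V} :=
    fun M hM => Set.mem_biUnion (hfin.mem_toFinset.2 ⟨M, hM, rfl⟩) rfl
  refine ((measure_mono h1).trans (measure_biUnion_finset_le _ _)).trans ?_
  have h2 : ∑ V ∈ hfin.toFinset, μ.real {M : InfQuad | view M.α M.φ M.root k = V} ≤ η := by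
    refine le_of_tendsto (tendsto_finsetSum _ fun V _ => hlim k V) ?_
    filter_upwards [hν.tendsto_atTop.eventually hη,
      hν.tendsto_atTop.eventually (eventually_ge_atTop 1)] with i h3 h4
    have h5 := xmain_pos (ν i) h4
    have : Finite (RootedQuad (ν i)) := Nat.finite_of_card_ne_zero h5.ne'
    rw [← Finset.sum_div, div_le_iff₀ (by exact_mod_cast h5)]
    refine le_trans ?_ h3
    exact_mod_cast utransfer_card k hfin.toFinset (B' (ν i)) fun V hV q hq => by
      obtain ⟨M, hM, rfl⟩ := hfin.mem_toFinset.1 hV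
      exact hM _ q hq
  refine le_trans (le_of_eq ?_) (ENNReal.ofReal_le_ofReal h2)
  rw [ENNReal.ofReal_sum_of_nonneg fun _ _ => measureReal_nonneg]
  exact Finset.sum_congr rfl fun V _ => (ofReal_measureReal (measure_ne_top _ _)).symm

end Pool.Agent.P.MP_7a6434d8_pr
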