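import Pool.Agent.P.MP_7a6434d8_pr.Defs3

namespace Pool.Agent.P.MP_7a6434d8_pr

open Mp Finset
open scoped ENNReal

/-- expected number of visits to `x` up to time `T` -/
noncomputable def zgreenG {n : ℕ} (q : Quad n) (x : q.Vertex) (T : ℕ) (z : q.Vertex) : ℝ :=
  ∑ s ∈ range (T + 1), (yP q)^[s] (yInd q (· = x)) z

open Classical in
/-- expected number of visits to `x` up to time `T` of the walk killed on `S` -/
noncomputable def zgreenD {n : ℕ} (q : Quad n) (x : q.Vertex) (S : q.Vertex → Prop) :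
    ℕ → q.Vertex → ℝ
  | 0 => yInd q (· = x)
  | T + 1 => fun z => if S z then 0 else yInd q (· = x) z + yP q (zgreenD q x S T) z

theorem zgreen_P_sum {n : ℕ} (q : Quad n) (T : ℕ) (u : ℕ → q.Vertex → ℝ) (z : q.Vertex) :
    yP q (fun y => ∑ s ∈ range T, u s y) z = ∑ s ∈ range T, yP q (u s) z := by
  simp only [yP]
  rw [sum_comm, sum_div]

theorem zgreen_P_mul {n : ℕ} (q : Quad n) (u : q.Vertex → ℝ) (c : ℝ) (z : q.Vertex) :
    yP q (fun y => u y * c) z = yP q u z * c := by
  simp only [yP]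
  rw [← sum_mul, mul_div_right_comm]

theorem zgreenG_succ {n : ℕ} (q : Quad n) (x : q.Vertex) (T : ℕ) (z : q.Vertex) :
    zgreenG q x (T + 1) z = yInd q (· = x) z + yP q (zgreenG q x T) z := by
  have e : yP q (zgreenG q x T) z
      = ∑ s ∈ range (T + 1), yP q ((yP q)^[s] (yInd q (· = x))) z :=
    zgreen_P_sum q (T + 1) (fun s => (yP q)^[s] (yInd q (· = x))) z
  rw [e, zgreenG, sum_range_succ', add_comm]
  simp only [Function.iterate_succ_apply', Function.iterate_zero_apply]

theorem zgreenG_zero {n : ℕ} (q : Quad n) (x z : q.Vertex) :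
    zgreenG q x 0 z = yInd q (· = x) z := by
  simp [zgreenG]

theorem zgreenG_mono {n : ℕ} (q : Quad n) (x z : q.Vertex) :
    Monotone fun T => zgreenG q x T z := by
  refine monotone_nat_of_le_succ fun T => ?_
  simp only [zgreenG]
  rw [sum_range_succ _ (T + 1)]
  linarith [yP_iter_nonneg q (T + 1) (yInd_nonneg q (· = x)) z]

theorem zgreenG_nonneg {n : ℕ} (q : Quad n) (x : q.Vertex) (T : ℕ) (z : q.Vertex) :
    0 ≤ zgreenG q x T z :=
  sum_nonneg fun s _ => yP_iter_nonneg q s (yInd_nonneg q (· = x)) z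

theorem zgreenG_le {n : ℕ} (q : Quad n) (x : q.Vertex) (T : ℕ) :
    ∀ z, zgreenG q x T z ≤ zgreenG q x T x := by
  induction T with
  | zero =>
    intro z
    rw [zgreenG_zero, zgreenG_zero]
    unfold yInd
    split_ifs <;> simp_all
  | succ T ih =>
    intro z
    by_cases hz : z = x
    · rw [hz]
    · rw [zgreenG_succ, yInd, if_neg hz, zero_add]
      have h1 := yP_mono q (v := fun _ => zgreenG q x T x) ih z
      rw [yP_const] at h1
      exact h1.trans (zgreenG_mono q x x (Nat.le_succ T))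

theorem zgreenD_nonneg {n : ℕ} (q : Quad n) (x : q.Vertex) (S : q.Vertex → Prop) (T : ℕ) :
    ∀ z, 0 ≤ zgreenD q x S T z := by
  induction T with
  | zero => exact yInd_nonneg q _
  | succ T ih =>
    intro z
    rw [zgreenD]
    dsimp only
    split_ifs
    · exact le_rfl
    · exact add_nonneg (yInd_nonneg q _ z) (yP_nonneg q ih z)

theorem zgreenD_out {n : ℕ} (q : Quad n) (x : q.Vertex) (S : q.Vertex → Prop) (hx : ¬ S x)
    (T : ℕ) (z : q.Vertex) (hz : S z) : zgreenD q x S T z = 0 := by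
  cases T with
  | zero =>
    rw [zgreenD, yInd, if_neg]
    rintro rfl
    exact hx hz
  | succ T =>
    rw [zgreenD]
    exact if_pos hz

theorem zgreenD_in {n : ℕ} (q : Quad n) (x : q.Vertex) (S : q.Vertex → Prop)
    (T : ℕ) (z : q.Vertex) (hz : ¬ S z) :
    zgreenD q x S (T + 1) z = yInd q (· = x) z + yP q (zgreenD q x S T) z := by
  rw [zgreenD]
  exact if_neg hz

theorem zgreenD_step {n : ℕ} (q : Quad n) (x : q.Vertex) (S : q.Vertex → Prop) (hx : ¬ S x)
    (T : ℕ) : ∀ z, zgreenD q x S T z ≤ zgreenD q x S (T + 1) z := by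
  induction T with
  | zero =>
    intro z
    by_cases hz : S z
    · rw [zgreenD_out q x S hx _ z hz, zgreenD_out q x S hx _ z hz]
    · rw [zgreenD_in q x S _ z hz]
      have := yP_nonneg q (zgreenD_nonneg q x S 0) z
      rw [zgreenD] at *
      linarith
  | succ T ih =>
    intro z
    by_cases hz : S z
    · rw [zgreenD_out q x S hx _ z hz, zgreenD_out q x S hx _ z hz]
    · rw [zgreenD_in q x S _ z hz, zgreenD_in q x S _ z hz]
      linarith [yP_mono q ih z]

theorem zgreen_energy {n : ℕ} (q : Quad n) (x : q.Vertex) (S : q.Vertex → Prop) (hx : ¬ S x)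
    (T : ℕ) : yI q (zgreenD q x S T) (zgreenD q x S T)
      - yI q (yP q (zgreenD q x S T)) (zgreenD q x S T)
      ≤ (q.out x).card * zgreenD q x S T x := by
  rw [← yI_point]
  unfold yI
  rw [← sum_sub_distrib]
  refine sum_le_sum fun d _ => ?_
  by_cases hz : S (q.tail d)
  · rw [zgreenD_out q x S hx _ _ hz]
    simp
  · have h1 := zgreenD_step q x S hx T (q.tail d)
    rw [zgreenD_in q x S _ _ hz] at h1
    rw [← sub_mul]
    exact mul_le_mul_of_nonneg_right (by linarith) (zgreenD_nonneg q x S T _)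

theorem zgreen_split {n : ℕ} (q : Quad n) (x : q.Vertex) (S : q.Vertex → Prop) (hx : ¬ S x)
    (N T : ℕ) (hT : T ≤ N) :
    ∀ z, zgreenG q x T z ≤ zgreenD q x S T z + yEsc q S T z * zgreenG q x N x := by
  induction T with
  | zero =>
    intro z
    rw [zgreenG_zero, zgreenD]
    have : 0 ≤ yEsc q S 0 z * zgreenG q x N x :=
      mul_nonneg (yPr_nonneg _ _ _ _) (zgreenG_nonneg q x N x)
    linarith
  | succ T ih =>
    intro z
    by_cases hz : S z
    · rw [zgreenD_out q x S hx _ z hz, yEsc_of_mem q S _ z hz, zero_add, one_mul]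
      exact (zgreenG_le q x _ z).trans (zgreenG_mono q x x hT)
    · rw [zgreenD_in q x S _ z hz, yEsc_of_not q S _ z hz, zgreenG_succ]
      have h1 := yP_mono q (ih (Nat.le_of_succ_le hT)) z
      rw [yP_add q (zgreenD q x S T) (fun z => yEsc q S T z * zgreenG q x N x)] at h1
      dsimp only at h1
      rw [zgreen_P_mul] at h1
      linarith

theorem ret_le {n : ℕ} (q : Quad n) (x : q.Vertex) (r : ℕ) (W ρ Δ : ℝ) (hρ : 0 ≤ ρ)
    (H : LG q x r W ρ Δ) (t : ℕ) (he : q.escape x (2 * t) r ≤ ENNReal.ofReal (1 / 2)) :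
    q.ret (2 * t) x ≤ ENNReal.ofReal (2 * Δ * ρ / (t + 1)) := by
  rw [ret_eq]
  refine ENNReal.ofReal_le_ofReal ?_
  rw [escape_eq, ENNReal.ofReal_le_ofReal_iff (by norm_num)] at he
  set S : q.Vertex → Prop := fun y => (r : ℝ) < (q.graph.dist x y : ℝ) with hS
  have hx : ¬ S x := by
    simp [hS]
  have hD := hit_card_pos q x
  have h1 := H.2.2 (zgreenD q x S (2 * t))
    (fun z hz => zgreenD_out q x S hx _ z (by simp only [hS]; exact_mod_cast hz)) x
  rw [y_energy] at h1
  have h2 := h1.trans (mul_le_mul_of_nonneg_left (zgreen_energy q x S hx (2 * t)) hρ)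
  have h3 : zgreenD q x S (2 * t) x ≤ ρ * (q.out x).card := by
    by_contra hc
    push Not at hc
    have a1 : 0 ≤ ρ * (q.out x).card := by positivity
    nlinarith
  have h4 := zgreen_split q x S hx (2 * t) (2 * t) le_rfl x
  have h5 := zgreenG_nonneg q x (2 * t) x
  have h6 : ρ * (q.out x).card ≤ ρ * Δ := mul_le_mul_of_nonneg_left H.2.1 hρ
  have h7 : zgreenG q x (2 * t) x ≤ 2 * Δ * ρ := by nlinarith
  have h8 := y_sum_even (fun s => yK q s x) (fun s => yK_nonneg q s x) t
  have h9 : ∑ _s ∈ range (t + 1), yK q (2 * t) x ≤ ∑ s ∈ range (t + 1), yK q (2 * s) x :=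
    sum_le_sum fun s hs => yK_anti q x (Nat.lt_succ_iff.1 (mem_range.1 hs))
  rw [sum_const, card_range, nsmul_eq_mul] at h9
  have h10 : ∑ s ∈ range (2 * t + 1), yK q s x = zgreenG q x (2 * t) x := rfl
  rw [le_div_iff₀ (by positivity)]
  push_cast at h9
  linarith

theorem ret_ge {n : ℕ} (q : Quad n) (x : q.Vertex) (r : ℕ) (W ρ Δ : ℝ) (hW : 0 < W)
    (H : LG q x r W ρ Δ) (t : ℕ) (he : q.escape x t r ≤ ENNReal.ofReal (1 / 2)) :
    ENNReal.ofReal (1 / (4 * W)) ≤ q.ret (2 * t) x := by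
  rw [ret_eq]
  exact ENNReal.ofReal_le_ofReal (ret_lower q x t r W hW he H.1)

end Pool.Agent.P.MP_7a6434d8_pr
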