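import Pool.Agent.P.MP_7a6434d8_pr.XLab
import Pool.Agent.P.MP_7a6434d8_pr.XProd

namespace Pool.Agent.P.MP_7a6434d8_pr

open Mp Finset
open scoped ENNReal

/-- the deficit at label `j` -/
noncomputable def xradupY (z : ℝ) (j : ℤ) : ℝ := if 0 ≤ j then z ^ j else 1

theorem xradupY_mem {z : ℝ} (h0 : 0 < z) (h1 : z ≤ 1) (j : ℤ) :
    0 ≤ xradupY z j ∧ xradupY z j ≤ 1 := by
  unfold xradupY
  split_ifs with h
  · exact ⟨(zpow_pos h0 j).le, zpow_le_one₀ h0 h1 h⟩
  · exact ⟨zero_le_one, le_rfl⟩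

theorem xradupY_le {z : ℝ} (h0 : 0 < z) (h1 : z ≤ 1) (j : ℤ) : xradupY z j ≤ z ^ j := by
  unfold xradupY
  split_ifs with h
  · exact le_rfl
  · exact one_le_zpow_of_nonpos₀ h0 h1 (by omega)

theorem xradupY_neg (z : ℝ) {j : ℤ} (h : j ≤ 0) : xradupY z j = 1 := by
  unfold xradupY
  split_ifs with h'
  · rw [show j = 0 by omega, zpow_zero]
  · rfl

/-- the potential -/
noncomputable def xradupPsi (R z : ℝ) (L : ℕ) (l : ℕ → ℤ) : ℝ :=
  R ^ L - (if L = 0 then (if 0 ≤ l 0 then 1 else 0)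
    else dprod (fun j => R * (1 - xradupY z j)) L l)

theorem xradup_key {u z : ℝ} (hu : 0 ≤ u) (h0 : 0 < z) (h1 : z ≤ 1)
    (huz : u * (z ^ 2 + z + 1) ≤ z) {i : ℤ} (hi : 0 ≤ i) :
    (1 + 3 * u) * (1 - xradupY z (i + 1)) ≤ 1 + u * (1 - xradupY z (i + 1)) *
      ((1 - xradupY z (i + 2)) + (1 - xradupY z (i + 1)) + (1 - xradupY z i)) := by
  have e0 : xradupY z i = z ^ i := if_pos hi
  have e1 : xradupY z (i + 1) = z ^ i * z := by
    rw [xradupY, if_pos (by omega), zpow_add_one₀ h0.ne']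
  have e2 : xradupY z (i + 2) = z ^ i * z ^ 2 := by
    rw [xradupY, if_pos (by omega), zpow_add₀ h0.ne']
    rfl
  have ha : 0 < z ^ i := zpow_pos h0 i
  have hy := xradupY_mem h0 h1 (i + 1)
  rw [e1] at hy
  rw [e0, e1, e2]
  set a := z ^ i
  have k1 : (1 - a * z) * (u * (z ^ 2 + z + 1)) ≤ 1 * z :=
    mul_le_mul (by linarith [hy.1]) huz (by positivity) zero_le_one
  have k2 := mul_le_mul_of_nonneg_left k1 ha.le
  nlinarith [k2]

open Classical in
theorem xradup_lab {x u R z : ℝ} (hx : 0 ≤ x) (hu : 0 ≤ u) (hR : R = 1 + 3 * u)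
    (hxu : x / 12 * R ^ 2 = u) (h0 : 0 < z) (h1 : z ≤ 1) (huz : u * (z ^ 2 + z + 1) ≤ z)
    (L : ℕ) (l : ℕ → ℤ) (hl : Valid L l) :
    0 ≤ xradupPsi R z L l ∧
    IE L (fun t => if Lab t l (Set.Iio 0) Set.univ then ENNReal.ofReal x ^ size t else 0)
      ≤ ENNReal.ofReal (xradupPsi R z L l) := by
  have hR0 : 0 ≤ R := by rw [hR]; positivity
  have hRj : ∀ j, 0 ≤ R * (1 - xradupY z j) ∧ R * (1 - xradupY z j) ≤ R := fun j => by
    have := xradupY_mem h0 h1 j
    exact ⟨mul_nonneg hR0 (by linarith [this.2]), by nlinarith [this.1]⟩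
  have hD : ∀ L l, 0 ≤ dprod (fun j => R * (1 - xradupY z j)) L l := fun L l =>
    (dprod_le (R' := fun _ => R) L l fun p _ => hRj _).1
  have hpos : ∀ L l, Valid L l → 0 ≤ xradupPsi R z L l := by
    intro L l hl
    unfold xradupPsi
    split_ifs with hL h
    · simp [hL]
    · simp [hL]
    · have := (dprod_le (R := fun j => R * (1 - xradupY z j)) (R' := fun _ => R) L l
        fun p _ => hRj _).2
      rw [dprod_const R L l hl] at this
      linarith
  refine ⟨hpos L l hl, lab_bound x hx _ _ (xradupPsi R z) (fun L l hl _ => hpos L l hl)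
    ?_ ?_ ?_ L l hl fun _ _ => Set.mem_univ _⟩
  · intro L l k hL hl
    unfold xradupPsi
    rw [if_neg (by omega), if_neg (by omega), dprod_rot _ L l k hL hl]
  · intro l hl _
    have : ¬ 0 ≤ l 0 := not_le.2 hl
    simp [xradupPsi, this]
  · intro L l _ _ e1 e2
    obtain ⟨i1, i2, i3⟩ := dprod_ins (fun j => R * (1 - xradupY z j)) L l e1
    have hs := dprod_shift (fun j => R * (1 - xradupY z j)) L l e1 e2
    have hD' := hD L (fun p => l (p + 2))
    rw [if_pos (Set.mem_univ _), if_pos (Set.mem_univ _)]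
    unfold xradupPsi
    rw [if_neg (by omega : ¬ L + 2 = 0), if_neg (by omega : ¬ L + 2 = 0),
      if_neg (by omega : ¬ L + 2 = 0), if_neg (by omega : ¬ L + 1 = 0), i1, i2, i3, hs]
    set D := dprod (fun j => R * (1 - xradupY z j)) L (fun p => l (p + 2)) with hDdef
    have hpow : R ^ L + x / 12 * (3 * R ^ (L + 2)) = R ^ (L + 1) := by
      have : x / 12 * (3 * R ^ (L + 2)) = 3 * (x / 12 * R ^ 2) * R ^ L := by ring
      rw [this, hxu, pow_succ, hR]
      ring
    by_cases hj : 0 ≤ l 0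
    · have hE : (if L = 0 then (if 0 ≤ l (0 + 2) then (1 : ℝ) else 0) else D) = D := by
        split_ifs with hL h
        · rw [hDdef, hL]
          simp [dprod]
        · exact absurd (by simpa [e2] using hj) h
        · rfl
      rw [hE]
      have k1 := mul_le_mul_of_nonneg_right (xradup_key hu h0 h1 huz hj) hD'
      rw [← hR] at k1
      set y0 := 1 - xradupY z (l 0)
      set y1 := 1 - xradupY z (l 0 + 1)
      set y2 := 1 - xradupY z (l 0 + 2)
      have k2 : x / 12 * (R * y2 * (R * y1 * D) + R * y1 * (R * y1 * D) + R * y0 * (R * y1 * D))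
          = u * y1 * (y2 + y1 + y0) * D := by
        rw [← hxu]
        ring
      nlinarith [k1, k2, hpow]
    · have hE : 0 ≤ (if L = 0 then (if 0 ≤ l (0 + 2) then (1 : ℝ) else 0) else D) := by
        split_ifs
        · exact zero_le_one
        · exact le_rfl
        · exact hD'
      rw [xradupY_neg z (by omega : l 0 + 1 ≤ 0)]
      nlinarith [hE, hpow]

theorem radius_up (τ : ℝ) (h0 : 0 < τ) (h1 : τ ≤ 1 / 2) (L m k : ℕ) :
    mass L (fun t => size t ≤ m ∧ ∃ v, ¬ Within t k (bv t 0) v)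
      ≤ 2 * L * 8 ^ L * Real.exp (4 * τ ^ 4 * m + 2 * τ ^ 2 * L - τ * k) := by
  classical
  rcases Nat.eq_zero_or_pos L with hL | hL
  · refine (mass_eq_zero ?_).le.trans (by positivity)
    rintro t ht hp ⟨-, v, hv⟩
    have := eq_pt_of_per_zero t ht (hp.trans hL)
    subst this
    exact hv (Within.refl pt k ())
  set s := τ ^ 2 with hs
  have hs0 : 0 < s := by positivity
  have hs1 : s ≤ 1 / 4 := by nlinarith
  have hs2 : 0 < 1 - s := by linarith
  set x := 1 - s ^ 2 / (1 - s) ^ 2 with hx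
  set u := (1 - 2 * s) / 3 with hu
  set R := 2 * (1 - s) with hR
  set z := 1 - τ with hz
  have hz0 : 0 < z := by linarith
  have hz1 : z ≤ 1 := by linarith
  have hσ : s ^ 2 / (1 - s) ^ 2 ≤ 2 * s ^ 2 := by
    rw [div_le_iff₀ (by positivity)]
    have : 1 ≤ 2 * (1 - s) ^ 2 := by nlinarith
    nlinarith [sq_nonneg s]
  have hx1 : x ≤ 1 := by
    have : 0 ≤ s ^ 2 / (1 - s) ^ 2 := by positivity
    linarith
  have hxe : Real.exp (-(4 * s ^ 2)) ≤ x := by
    have a1 : 1 + 4 * s ^ 2 ≤ Real.exp (4 * s ^ 2) := by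
      linarith [Real.add_one_le_exp (4 * s ^ 2)]
    have a2 : s ^ 2 ≤ 1 / 16 := by nlinarith
    rw [Real.exp_neg, inv_le_iff_one_le_mul₀ (Real.exp_pos _)]
    have a3 : 1 - 2 * s ^ 2 ≤ x := by linarith
    have a4 : 0 ≤ 1 - 2 * s ^ 2 := by linarith
    calc (1 : ℝ) ≤ (1 - 2 * s ^ 2) * (1 + 4 * s ^ 2) := by nlinarith [sq_nonneg s]
      _ ≤ x * Real.exp (4 * s ^ 2) := mul_le_mul a3 a1 (by positivity) (a4.trans a3)
  have hx0 : 0 < x := (Real.exp_pos _).trans_le hxe
  have hu0 : 0 ≤ u := by rw [hu]; linarith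
  have hRu : R = 1 + 3 * u := by rw [hR, hu]; ring
  have hxu : x / 12 * R ^ 2 = u := by
    rw [hx, hR, hu]
    field_simp
    ring
  have huz : u * (z ^ 2 + z + 1) ≤ z := by
    rw [hu, hz, hs]
    have : 0 ≤ τ ^ 2 * (5 - 6 * τ + 2 * τ ^ 2) := mul_nonneg (by positivity) (by nlinarith)
    nlinarith
  have hR0 : 0 ≤ R := by rw [hR]; positivity
  have hR2 : R ≤ 2 := by rw [hR]; linarith
  have step1 := mass_le_sum (L := L) (φ := fun t => size t ≤ m ∧ ∃ v, ¬ Within t k (bv t 0) v)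
    (univ : Finset (Fin (2 * L) → Bool))
    (fun σ t => size t ≤ m ∧ Valid L (pathOf (2 * L) k σ) ∧
      Lab t (pathOf (2 * L) k σ) (Set.Iio 0) Set.univ) (by
      rintro t ht hp ⟨hm, v, hv⟩
      obtain ⟨l, hl0, hl⟩ := lab_far t ht k v hv
      have hval := (lab_valid ht hl).1
      rw [hp] at hval
      obtain ⟨σ, hσ⟩ := exists_pathOf L l hval
      rw [hl0] at hσ
      refine ⟨σ, mem_univ _, hm, ⟨?_, fun p hp' => ?_⟩, lab_congr hl fun p hp' => hσ p (hp ▸ hp')⟩
      · rw [hσ _ le_rfl, hσ 0 (Nat.zero_le _)]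
        exact hval.1
      · rw [hσ _ hp', hσ p hp'.le]
        exact hval.2 p hp')
  have step2 : ∀ σ : Fin (2 * L) → Bool,
      mass L (fun t => size t ≤ m ∧ Valid L (pathOf (2 * L) k σ) ∧
        Lab t (pathOf (2 * L) k σ) (Set.Iio 0) Set.univ)
      ≤ (2 ^ L * ∑ p ∈ range (2 * L), z ^ pathOf (2 * L) k σ p) / x ^ m := by
    intro σ
    have hnn : 0 ≤ 2 ^ L * ∑ p ∈ range (2 * L), z ^ pathOf (2 * L) k σ p :=
      mul_nonneg (by positivity) (sum_nonneg fun p _ => (zpow_pos hz0 _).le)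
    by_cases hval : Valid L (pathOf (2 * L) k σ)
    · obtain ⟨-, a2⟩ := xradup_lab hx0.le hu0 hRu hxu hz0 hz1 huz L _ hval
      refine IE_markov (pow_pos hx0 m) hnn ?_ (a2.trans (ENNReal.ofReal_le_ofReal ?_))
      · rintro t - - ⟨hm, -, hlab⟩
        rw [if_pos hlab, ← ENNReal.ofReal_pow hx0.le]
        exact ENNReal.ofReal_le_ofReal (pow_le_pow_of_le_one hx0.le hx1 hm)
      · have a3 := dprod_ge R hR0 (xradupY z) (xradupY_mem hz0 hz1) L _ hval
        unfold xradupPsi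
        rw [if_neg (by omega)]
        have a4 : ∑ p ∈ range (2 * L), xradupY z (pathOf (2 * L) k σ p)
            ≤ ∑ p ∈ range (2 * L), z ^ pathOf (2 * L) k σ p :=
          sum_le_sum fun p _ => xradupY_le hz0 hz1 _
        have a5 : R ^ L * ∑ p ∈ range (2 * L), xradupY z (pathOf (2 * L) k σ p)
            ≤ 2 ^ L * ∑ p ∈ range (2 * L), z ^ pathOf (2 * L) k σ p :=
          mul_le_mul (pow_le_pow_left₀ hR0 hR2 L) a4
            (sum_nonneg fun p _ => (xradupY_mem hz0 hz1 _).1) (by positivity)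
        linarith
    · refine (mass_eq_zero fun t _ _ h => hval h.2.1).le.trans ?_
      exact div_nonneg hnn (pow_pos hx0 m).le
  have step3 : ∑ σ : Fin (2 * L) → Bool, ∑ p ∈ range (2 * L), z ^ pathOf (2 * L) k σ p
      ≤ 2 * L * (z ^ (k : ℤ) * (z + z⁻¹) ^ (2 * L)) := by
    rw [sum_comm]
    refine (sum_le_sum fun p _ => sum_zpow_pathOf (2 * L) k z hz0 p).trans ?_
    rw [sum_const, card_range, nsmul_eq_mul]
    push_cast
    exact le_rfl
  have b1 : z ^ (k : ℤ) ≤ Real.exp (-(τ * k)) := by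
    rw [zpow_natCast, show -(τ * k) = k * (-τ) by ring, Real.exp_nat_mul]
    refine pow_le_pow_left₀ hz0.le ?_ k
    linarith [Real.add_one_le_exp (-τ)]
  have b2 : (z + z⁻¹) ^ (2 * L) ≤ 4 ^ L * Real.exp (2 * s * L) := by
    have c1 : z⁻¹ ≤ 1 + τ + 2 * s := by
      rw [inv_le_iff_one_le_mul₀ hz0, hz, hs]
      nlinarith [mul_nonneg (sq_nonneg τ) (by linarith : (0 : ℝ) ≤ 1 - 2 * τ)]
    have c2 : z + z⁻¹ ≤ 2 * Real.exp s := by
      linarith [Real.add_one_le_exp s]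
    calc (z + z⁻¹) ^ (2 * L) ≤ (2 * Real.exp s) ^ (2 * L) :=
          pow_le_pow_left₀ (by positivity) c2 _
      _ = 4 ^ L * Real.exp (2 * s * L) := by
          rw [mul_pow, pow_mul, ← Real.exp_nat_mul]
          congr 2
          · norm_num
          · push_cast
            ring
  have b3 : (x ^ m)⁻¹ ≤ Real.exp (4 * τ ^ 4 * m) := by
    have c1 : Real.exp (-(4 * s ^ 2)) ^ m ≤ x ^ m := pow_le_pow_left₀ (Real.exp_pos _).le hxe m
    rw [← Real.exp_nat_mul] at c1
    refine (inv_anti₀ (Real.exp_pos _) c1).trans (le_of_eq ?_)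
    rw [← Real.exp_neg, hs]
    congr 1
    ring
  calc mass L (fun t => size t ≤ m ∧ ∃ v, ¬ Within t k (bv t 0) v)
      ≤ ∑ σ : Fin (2 * L) → Bool,
          (2 ^ L * ∑ p ∈ range (2 * L), z ^ pathOf (2 * L) k σ p) / x ^ m :=
        step1.trans (sum_le_sum fun σ _ => step2 σ)
    _ = 2 ^ L * (∑ σ : Fin (2 * L) → Bool, ∑ p ∈ range (2 * L), z ^ pathOf (2 * L) k σ p)
          * (x ^ m)⁻¹ := by
        rw [← sum_div, ← mul_sum, div_eq_mul_inv]
    _ ≤ 2 ^ L * (2 * L * (Real.exp (-(τ * k)) * (4 ^ L * Real.exp (2 * s * L))))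
          * Real.exp (4 * τ ^ 4 * m) := by
        have d1 : z ^ (k : ℤ) * (z + z⁻¹) ^ (2 * L)
            ≤ Real.exp (-(τ * k)) * (4 ^ L * Real.exp (2 * s * L)) :=
          mul_le_mul b1 b2 (by positivity) (Real.exp_pos _).le
        have d2 := step3.trans (mul_le_mul_of_nonneg_left d1 (by positivity))
        exact mul_le_mul (mul_le_mul_of_nonneg_left d2 (by positivity)) b3 (by positivity)
          (by positivity)
    _ = 2 * L * 8 ^ L * Real.exp (4 * τ ^ 4 * m + 2 * s * L - τ * k) := by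
        rw [sub_eq_add_neg, Real.exp_add, Real.exp_add, show (8 : ℝ) = 2 * 4 by norm_num, mul_pow]
        ring

end Pool.Agent.P.MP_7a6434d8_pr
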