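import Pool.Agent.P.MP_7a6434d8_pr.Defs3

namespace Pool.Agent.P.MP_7a6434d8_pr

open Mp Finset
open scoped ENNReal

theorem escape_eq_zero {n : ℕ} (q : Quad n) (x : q.Vertex) (T : ℕ) (r : ℝ)
    (h : ∀ v, (q.graph.dist x v : ℝ) ≤ r) : q.escape x T r = 0 := by
  have e : {l : List q.Vertex | ∃ y ∈ l, r < (q.graph.dist x y : ℝ)} = ∅ := by
    ext l
    simp only [Set.mem_ofPred_eq, Set.mem_empty_iff_false, iff_false]
    rintro ⟨y, -, hy⟩
    exact absurd (h y) (not_le.2 hy)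
  rw [Quad.escape, e]
  simp

theorem zstay_sum {n : ℕ} (q : Quad n) (T : ℕ) (u : ℕ → q.Vertex → ℝ) (x : q.Vertex) :
    yP q (fun y => ∑ s ∈ range T, u s y) x = ∑ s ∈ range T, yP q (u s) x := by
  unfold yP
  rw [sum_comm, sum_div]

theorem zstay_compl {n : ℕ} (q : Quad n) (u : q.Vertex → ℝ) (x : q.Vertex) :
    yP q (fun y => 1 - u y) x = 1 - yP q u x := by
  have h := yP_add q (fun y => 1 - u y) u
  have e : (fun y => 1 - u y + u y) = fun _ : q.Vertex => (1 : ℝ) := by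
    funext y; ring
  rw [e, yP_const] at h
  have := congrFun h x
  linarith

theorem zstay_max {n : ℕ} (q : Quad n) (S : q.Vertex → Prop) (W ρ : ℝ) (hρ : 0 ≤ ρ)
    (hW : yVol q (fun y => ¬ S y) ≤ W) (u : q.Vertex → ℝ) (h0 : ∀ z, 0 ≤ u z)
    (hS : ∀ z, S z → u z = 0) (hs : ∀ z, ¬ S z → u z ≤ 1 + yP q u z)
    (hE : ∀ z, u z ^ 2 ≤ ρ * ((∑ d, (u (q.tail d) - u (q.head d)) ^ 2) / 2)) (x : q.Vertex) :
    u x ≤ ρ * W := by
  classical
  have := hit_finite q
  let _i : Fintype q.Vertex := Fintype.ofFinite _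
  obtain ⟨x0, -, hx0⟩ := exists_max_image univ u ⟨x, mem_univ x⟩
  have hM : ∀ y, u y ≤ u x0 := fun y => hx0 y (mem_univ y)
  have hV := yVol_nonneg q (fun y => ¬ S y)
  have h1 : yI q u u - yI q (yP q u) u ≤ yVol q (fun y => ¬ S y) * u x0 := by
    unfold yI yVol
    rw [← sum_sub_distrib, sum_mul]
    refine sum_le_sum fun d _ => ?_
    by_cases hd : S (q.tail d)
    · rw [hS _ hd, yInd, if_neg (not_not.2 hd)]
      simp
    · rw [yInd, if_pos hd, one_mul, ← sub_mul]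
      have a1 := hs _ hd
      have a2 := h0 (q.tail d)
      have a3 := hM (q.tail d)
      calc (u (q.tail d) - yP q u (q.tail d)) * u (q.tail d) ≤ 1 * u (q.tail d) :=
            mul_le_mul_of_nonneg_right (by linarith) a2
        _ ≤ u x0 := by linarith
  have h2 := hE x0
  rw [y_energy] at h2
  have h3 : u x0 ^ 2 ≤ ρ * (W * u x0) :=
    h2.trans (mul_le_mul_of_nonneg_left
      (h1.trans (mul_le_mul_of_nonneg_right hW (h0 x0))) hρ)
  have h4 : 0 ≤ ρ * W := mul_nonneg hρ (hV.trans hW)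
  refine (hM x).trans ?_
  by_contra hc
  push Not at hc
  have hpos : 0 < u x0 := lt_of_le_of_lt h4 hc
  nlinarith

theorem stay_le {n : ℕ} (q : Quad n) (x : q.Vertex) (r : ℕ) (W ρ Δ : ℝ) (hρ : 0 ≤ ρ)
    (H : LG q x r W ρ Δ) (T : ℕ) :
    ENNReal.ofReal (1 - ρ * W / (T + 1)) ≤ q.escape x T r := by
  obtain ⟨hW, -, hE⟩ := H
  rw [escape_eq]
  refine ENNReal.ofReal_le_ofReal ?_
  set S : q.Vertex → Prop := fun y => (r : ℝ) < (q.graph.dist x y : ℝ) with hSdef
  have hle : ∀ k z, 0 ≤ 1 - yEsc q S k z := fun k z => sub_nonneg.2 (yPr_le_one q k z _)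
  set u : q.Vertex → ℝ := fun z => ∑ s ∈ range (T + 1), (1 - yEsc q S s z) with hu
  have h0 : ∀ z, 0 ≤ u z := fun z => sum_nonneg fun s _ => hle s z
  have hS : ∀ z, S z → u z = 0 := fun z hz =>
    sum_eq_zero fun s _ => by rw [yEsc_of_mem q S s z hz, sub_self]
  have hs : ∀ z, ¬ S z → u z ≤ 1 + yP q u z := by
    intro z hz
    have e1 : u z = ∑ s ∈ range T, yP q (fun y => 1 - yEsc q S s y) z + 1 := by
      rw [hu]
      simp only
      rw [sum_range_succ', yEsc_zero, yInd, if_neg hz, sub_zero]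
      congr 1
      exact sum_congr rfl fun s _ => by rw [yEsc_of_not q S s z hz, zstay_compl]
    have e2 : yP q u z = ∑ s ∈ range (T + 1), yP q (fun y => 1 - yEsc q S s y) z :=
      zstay_sum q (T + 1) (fun s y => 1 - yEsc q S s y) z
    rw [e1, e2, sum_range_succ]
    linarith [yP_nonneg q (hle T) z]
  have h1 := zstay_max q S W ρ hρ hW u h0 hS hs
    (hE u fun z hz => hS z (by rw [hSdef]; exact_mod_cast hz)) x
  have h2 : ∑ _s ∈ range (T + 1), (1 - yEsc q S T x) ≤ u x :=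
    sum_le_sum fun s hs' => by
      linarith [yEsc_mono q S x (Nat.lt_succ_iff.1 (mem_range.1 hs'))]
  rw [sum_const, card_range, nsmul_eq_mul] at h2
  push_cast at h2
  have hT : (0 : ℝ) < T + 1 := by positivity
  have h3 : 1 - yEsc q S T x ≤ ρ * W / (T + 1) := by
    rw [le_div_iff₀ hT]
    linarith
  linarith

end Pool.Agent.P.MP_7a6434d8_pr
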