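import Pool.Agent.P.MP_7a6434d8_pr.ZSlowLarge
import Pool.Agent.P.MP_7a6434d8_pr.ZStay
import Pool.Agent.P.MP_7a6434d8_pr.ZLink0
import Pool.Agent.P.MP_7a6434d8_pr.XRadUp
import Pool.Agent.P.MP_7a6434d8_pr.XMain

namespace Pool.Agent.P.MP_7a6434d8_pr

open Mp Finset
open scoped ENNReal

theorem zslow_ev (d c : ℝ) (hd : 0 < d) (hc : 0 < c) : ∀ᶠ R : ℕ in Filter.atTop,
    256 * Real.exp 5 * (R : ℝ) ^ 13 ≤ c * Real.exp ((R : ℝ) ^ (d / 8)) := by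
  obtain ⟨k, hk⟩ := exists_nat_ge (104 / d)
  have h1 : Filter.Tendsto (fun R : ℕ => (R : ℝ) ^ (d / 8)) Filter.atTop Filter.atTop :=
    (tendsto_rpow_atTop (by positivity)).comp tendsto_natCast_atTop_atTop
  have h2 := ((Real.tendsto_exp_div_pow_atTop k).comp h1).eventually_ge_atTop
    (256 * Real.exp 5 / c)
  filter_upwards [h2, Filter.eventually_ge_atTop 1] with R e1 e2
  have hR1 : (1 : ℝ) ≤ R := by exact_mod_cast e2
  have hR0 : (0 : ℝ) < R := by linarith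
  have hx0 : 0 < (R : ℝ) ^ (d / 8) := Real.rpow_pos_of_pos hR0 _
  have e3 : 256 * Real.exp 5 / c
      ≤ Real.exp ((R : ℝ) ^ (d / 8)) / ((R : ℝ) ^ (d / 8)) ^ k := e1
  have e4 : (R : ℝ) ^ 13 ≤ ((R : ℝ) ^ (d / 8)) ^ k := by
    rw [← Real.rpow_natCast, ← Real.rpow_natCast, ← Real.rpow_mul hR0.le]
    apply Real.rpow_le_rpow_of_exponent_le hR1
    rw [div_le_iff₀ hd] at hk
    push_cast
    linarith
  rw [div_le_div_iff₀ hc (pow_pos hx0 k)] at e3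
  calc 256 * Real.exp 5 * (R : ℝ) ^ 13 ≤ 256 * Real.exp 5 * ((R : ℝ) ^ (d / 8)) ^ k := by gcongr
    _ ≤ _ := by linarith

theorem zslow_small1 (d : ℝ) (hd : 0 < d) (hd1 : d ≤ 1) :
    ∃ R0 : ℕ, ∀ R : ℕ, R0 ≤ R → ∀ n : ℕ, 1 ≤ n →
    (n : ℝ) ≤ (R : ℝ) ^ (4 - d) →
    (Nat.card {c : RootedQuad n // ∃ q : Quad n, Quot.mk _ q = c ∧
        ∃ v, R < q.graph.dist (q.tail q.root) v} : ℝ)
      ≤ (Nat.card (RootedQuad n) : ℝ) / R := by
  obtain ⟨c, hc, hcnt⟩ := cnt_lower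
  obtain ⟨R0, hR0⟩ := Filter.eventually_atTop.1
    ((zslow_ev d c hd hc).and (Filter.eventually_ge_atTop 4))
  refine ⟨R0, fun R hR n hn hnR => ?_⟩
  obtain ⟨e1, e2⟩ := hR0 R hR
  have hR4 : (4 : ℝ) ≤ R := by exact_mod_cast e2
  have hR1 : (1 : ℝ) ≤ R := by linarith
  have hRp : (0 : ℝ) < R := by linarith
  have hn1 : (1 : ℝ) ≤ n := by exact_mod_cast hn
  have hnp : (0 : ℝ) < n := by linarith
  set x := (R : ℝ) ^ (d / 8) with hx
  have hx1 : 1 ≤ x := Real.one_le_rpow hR1 (by positivity)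
  have hx0 : 0 < x := by linarith
  have hx8 : x ^ 8 = (R : ℝ) ^ d := by
    rw [hx, ← Real.rpow_natCast, ← Real.rpow_mul hRp.le]; congr 1; push_cast; ring
  have hxR : x ^ 8 ≤ R := by
    rw [hx8]
    calc (R : ℝ) ^ d ≤ (R : ℝ) ^ (1 : ℝ) := Real.rpow_le_rpow_of_exponent_le hR1 hd1
      _ = R := Real.rpow_one _
  have hx2 : x ^ 2 ≤ R := (pow_le_pow_right₀ hx1 (by norm_num)).trans hxR
  have hτ : x / R ≤ 1 / 2 := by
    rw [div_le_div_iff₀ hRp (by norm_num)]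
    nlinarith
  have hτ0 : 0 < x / R := div_pos hx0 hRp
  have hn8 : (n : ℝ) * x ^ 8 ≤ (R : ℝ) ^ 4 := by
    rw [Real.rpow_sub hRp, le_div_iff₀ (Real.rpow_pos_of_pos hRp _), ← hx8] at hnR
    refine hnR.trans (le_of_eq ?_)
    rw [← Real.rpow_natCast]; norm_num
  have hx48 : x ^ 4 ≤ x ^ 8 := pow_le_pow_right₀ hx1 (by norm_num)
  have hx80 : 1 ≤ x ^ 8 := one_le_pow₀ hx1
  have hn4 : (n : ℝ) ≤ (R : ℝ) ^ 4 := le_trans (le_mul_of_one_le_right hnp.le hx80) hn8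
  have hτ4 : (x / R) ^ 4 * n ≤ 1 := by
    rw [div_pow, div_mul_eq_mul_div, div_le_one (by positivity)]
    calc x ^ 4 * n ≤ x ^ 8 * n := by gcongr
      _ = n * x ^ 8 := mul_comm _ _
      _ ≤ _ := hn8
  have hτ2 : (x / R) ^ 2 ≤ 1 / 4 := by
    calc (x / R) ^ 2 ≤ (1 / 2) ^ 2 := by gcongr
      _ = 1 / 4 := by norm_num
  have hτR : x / R * R = x := div_mul_cancel₀ _ hRp.ne'
  rw [div_eq_inv_mul, ← one_div]
  refine xmain_count hcnt n hn _ (fun t => ∃ v, ¬ Within t R (bv t 0) v) ?_ _ (by positivity) ?_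
  · rintro q t hq ⟨v, hv⟩
    obtain ⟨θ, j, -, -, h3, -, h5, -⟩ := rep_iso q t hq
    refine ⟨j v, fun hw => ?_⟩
    rw [← h3] at hw
    exact absurd ((h5 R _ _).2 hw) (not_le.2 hv)
  · have hm := radius_up (x / R) hτ0 hτ 2 n R
    have hm2 : mass 2 (fun t => (∃ v, ¬ Within t R (bv t 0) v) ∧ size t = n - 1)
        ≤ mass 2 (fun t => size t ≤ n ∧ ∃ v, ¬ Within t R (bv t 0) v) :=
      mass_mono fun t _ _ h => ⟨by omega, h.1⟩
    refine hm2.trans (hm.trans ?_)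
    have h1 : Real.exp (4 * (x / R) ^ 4 * n + 2 * (x / R) ^ 2 * (2 : ℕ) - x / R * R)
        ≤ Real.exp 5 / Real.exp x := by
      rw [← Real.exp_sub]
      apply Real.exp_le_exp.2
      rw [hτR]; push_cast; linarith
    have h2 : (n : ℝ) ^ 3 * R ≤ (R : ℝ) ^ 13 := by
      calc (n : ℝ) ^ 3 * R ≤ ((R : ℝ) ^ 4) ^ 3 * R := by gcongr
        _ = _ := by ring
    have hex : 0 < Real.exp x := Real.exp_pos x
    calc _ ≤ 2 * ((2 : ℕ) : ℝ) * 8 ^ 2 * (Real.exp 5 / Real.exp x) := by gcongr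
      _ = 256 * Real.exp 5 / Real.exp x := by push_cast; ring
      _ ≤ c / ((n : ℝ) ^ 3 * R) := by
        rw [div_le_div_iff₀ hex (by positivity)]
        calc 256 * Real.exp 5 * ((n : ℝ) ^ 3 * R) ≤ 256 * Real.exp 5 * (R : ℝ) ^ 13 := by gcongr
          _ ≤ _ := e1
      _ = _ := by field_simp

theorem slow_small (δ : ℝ) (hδ : 0 < δ) : ∃ R0 : ℕ, ∀ R : ℕ, R0 ≤ R → ∀ n : ℕ, 1 ≤ n →
    (n : ℝ) ≤ (R : ℝ) ^ (4 - δ) →
    (Nat.card {c : RootedQuad n // ∃ q : Quad n, Quot.mk _ q = c ∧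
        ∃ v, R < q.graph.dist (q.tail q.root) v} : ℝ)
      ≤ (Nat.card (RootedQuad n) : ℝ) / R := by
  obtain ⟨R0, hR0⟩ := zslow_small1 (min δ 1) (lt_min hδ one_pos) (min_le_right _ _)
  refine ⟨max R0 1, fun R hR n hn hnR => hR0 R (le_of_max_le_left hR) n hn (hnR.trans ?_)⟩
  have hR1 : (1 : ℝ) ≤ R := by exact_mod_cast le_of_max_le_right hR
  apply Real.rpow_le_rpow_of_exponent_le hR1
  have := min_le_left δ 1
  linarith

theorem slow (ε : ℝ) (hε : 0 < ε) : ∃ δ : ℝ, 0 < δ ∧ ∃ R0 : ℕ, ∀ R : ℕ, R0 ≤ R → ∀ n : ℕ, 1 ≤ n →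
    (Nat.card {c : RootedQuad n // ∃ q : Quad n, Quot.mk _ q = c ∧
        ENNReal.ofReal ((R : ℝ) ^ (-δ)) < q.escape (q.tail q.root) ⌊(R : ℝ) ^ (4 - ε)⌋₊ R} : ℝ)
      ≤ (Nat.card (RootedQuad n) : ℝ) / (R : ℝ) ^ δ := by
  obtain ⟨E, hE⟩ := exists_nat_ge (max 60 (230 / ε + 1))
  have hE1 : (60 : ℝ) ≤ E := le_of_max_le_left hE
  have hE2 : 230 ≤ ε * ((E : ℝ) - 1) := by
    have h1 : 230 / ε ≤ (E : ℝ) - 1 := by
      have := le_of_max_le_right hE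
      linarith
    rw [div_le_iff₀ hε] at h1
    linarith
  have hδ : (0 : ℝ) < 1 / (4 * E) := by positivity
  have hδ1 : (1 / (4 * E) : ℝ) ≤ 1 := by
    rw [div_le_one (by positivity)]; linarith
  obtain ⟨R1, hR1⟩ := slow_large E (by exact_mod_cast hE1) ε hE2
  obtain ⟨R2, hR2⟩ := slow_small _ hδ
  refine ⟨1 / (4 * E), hδ, max (max R1 R2) 1, fun R hR n hn => ?_⟩
  have hR1' : R1 ≤ R := le_of_max_le_left (le_of_max_le_left hR)
  have hR2' : R2 ≤ R := le_of_max_le_right (le_of_max_le_left hR)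
  have hRone : (1 : ℝ) ≤ R := by exact_mod_cast le_of_max_le_right hR
  rcases le_total ((R : ℝ) ^ (4 - 1 / (4 * E) : ℝ)) n with h | h
  · exact hR1 R hR1' n h
  · have h2 := hR2 R hR2' n hn h
    have : Finite (RootedQuad n) := Nat.finite_of_card_ne_zero (xmain_pos n hn).ne'
    have hu : Nat.card {c : RootedQuad n // ∃ q : Quad n, Quot.mk _ q = c ∧
        ENNReal.ofReal ((R : ℝ) ^ (-(1 / (4 * E) : ℝ))) <
          q.escape (q.tail q.root) ⌊(R : ℝ) ^ (4 - ε)⌋₊ R}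
        ≤ Nat.card {c : RootedQuad n // ∃ q : Quad n, Quot.mk _ q = c ∧
        ∃ v, R < q.graph.dist (q.tail q.root) v} := by
      refine Set.ncard_le_ncard (s := {c : RootedQuad n | _}) (t := {c : RootedQuad n | _}) ?_
        (Set.toFinite _)
      rintro c ⟨q, hq, hb⟩
      refine ⟨q, hq, ?_⟩
      by_contra hcon
      push Not at hcon
      rw [escape_eq_zero q _ _ _ (fun v => by exact_mod_cast hcon v)] at hb
      exact absurd hb (not_lt.2 zero_le)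
    have hu' := (Nat.cast_le (α := ℝ)).2 hu
    refine hu'.trans (h2.trans ?_)
    have hp : 0 < (R : ℝ) ^ (1 / (4 * E) : ℝ) := Real.rpow_pos_of_pos (by linarith) _
    have hle : (R : ℝ) ^ (1 / (4 * E) : ℝ) ≤ R := by
      calc (R : ℝ) ^ (1 / (4 * E) : ℝ) ≤ (R : ℝ) ^ (1 : ℝ) :=
            Real.rpow_le_rpow_of_exponent_le hRone hδ1
        _ = R := Real.rpow_one _
    gcongr

end Pool.Agent.P.MP_7a6434d8_pr
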