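import Pool.Agent.P.MP_7a6434d8_pr.ZGeo
import Pool.Agent.P.MP_7a6434d8_pr.ZSlow
import Pool.Agent.P.MP_7a6434d8_pr.ZGreen

namespace Pool.Agent.P.MP_7a6434d8_pr

open Mp Finset
open scoped ENNReal

theorem zspec_mul {t K u x y : ℝ} (ht : 1 ≤ t) (hK : K ≤ t ^ u) (h : u + x ≤ y) :
    K * t ^ x ≤ t ^ y := by
  have h0 : 0 < t := by linarith
  calc K * t ^ x ≤ t ^ u * t ^ x := mul_le_mul_of_nonneg_right hK (Real.rpow_nonneg h0.le _)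
    _ = t ^ (u + x) := (Real.rpow_add h0 _ _).symm
    _ ≤ t ^ y := Real.rpow_le_rpow_of_exponent_le ht h

theorem zspec_up {t R β x y : ℝ} (ht : 1 ≤ t) (hR0 : 0 ≤ R) (hR : R ≤ t ^ β) (hx : 0 ≤ x)
    (h : β * x ≤ y) : R ^ x ≤ t ^ y := by
  calc R ^ x ≤ (t ^ β) ^ x := Real.rpow_le_rpow hR0 hR hx
    _ = t ^ (β * x) := (Real.rpow_mul (by linarith) _ _).symm
    _ ≤ t ^ y := Real.rpow_le_rpow_of_exponent_le ht h

theorem zspec_low {t R β x y : ℝ} (ht : 1 ≤ t) (hR : t ^ β ≤ R) (hx : 0 ≤ x)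
    (h : y ≤ β * x) : t ^ y ≤ R ^ x := by
  calc t ^ y ≤ t ^ (β * x) := Real.rpow_le_rpow_of_exponent_le ht h
    _ = (t ^ β) ^ x := Real.rpow_mul (by linarith) _ _
    _ ≤ R ^ x := Real.rpow_le_rpow (Real.rpow_nonneg (by linarith) _) hR hx

theorem zspec_floor {t e : ℝ} (ht : 1 ≤ t) (he : 0 < e) (h8 : 8 ≤ t ^ (e / 32)) :
    t ^ (1 / 4 + e / 32) ≤ (⌊t ^ (1 / 4 + e / 16)⌋₊ : ℝ) := by
  have h1 := zspec_mul (x := 1 / 4 + e / 32) (y := 1 / 4 + e / 16) ht h8 (by linarith)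
  have h2 : 1 ≤ t ^ (1 / 4 + e / 32) := Real.one_le_rpow ht (by positivity)
  have h3 := Nat.lt_floor_add_one (t ^ (1 / 4 + e / 16))
  linarith

theorem zspec_log {t n R e : ℝ} (ht : 1 ≤ t) (he : 0 < e) (he1 : e ≤ 1) (hn : t ^ (1 + e) ≤ n)
    (hn1 : 1 < n) (hR : R ≤ t ^ (1 / 4 + e / 16)) (hb : 32 / e ≤ n ^ (e / 32)) :
    R ≤ n ^ (1 / 4 : ℝ) / Real.log n := by
  have h1 : t ^ (1 / 4 + e / 16) ≤ n ^ (1 / 4 - e / 16) :=
    zspec_low ht hn (by linarith) (by nlinarith)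
  have h2 : Real.log n ≤ n ^ (e / 32) / (e / 32) :=
    Real.log_le_rpow_div (by linarith) (by positivity)
  have h3 := zspec_mul (x := e / 32) (y := e / 16) hn1.le hb (by linarith)
  have h4 : Real.log n ≤ n ^ (e / 16) := h2.trans (le_of_eq_of_le (by field_simp) h3)
  have h5 := zspec_mul (x := 1 / 4 - e / 16) (y := 1 / 4) hn1.le h4 (by linarith)
  have h6 := Real.log_pos hn1
  rw [le_div_iff₀ h6, mul_comm]
  exact (mul_le_mul_of_nonneg_left (hR.trans h1) h6.le).trans h5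

theorem zspec_ret {n : ℕ} (q : Quad n) (x : q.Vertex) {t R : ℕ} {e ε : ℝ} (he : 0 < e)
    (he1 : e ≤ 1) (hε : e ≤ ε) (ht : (1 : ℝ) ≤ t) (h8 : 8 ≤ (t : ℝ) ^ (e / 32))
    (hR1 : (t : ℝ) ^ (1 / 4 + e / 32) ≤ R) (hR2 : (R : ℝ) ≤ (t : ℝ) ^ (1 / 4 + e / 16))
    (H : LG q x R ((R : ℝ) ^ (4 + e / 8)) (4 * ((R : ℝ) ^ (e / 8)) ^ 2) ((R : ℝ) ^ (e / 8)))
    (hesc : q.escape x ⌊(R : ℝ) ^ (4 - e / 8)⌋₊ R ≤ ENNReal.ofReal (1 / 2)) :
    ENNReal.ofReal ((t : ℝ) ^ (-1 - ε)) ≤ q.ret (2 * t) x ∧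
      q.ret (2 * t) x ≤ ENNReal.ofReal ((t : ℝ) ^ (-1 + ε)) := by
  have ht0 : (0 : ℝ) < t := by linarith
  have hR0 : (0 : ℝ) < R := (Real.rpow_pos_of_pos ht0 _).trans_le hR1
  have h1 : 2 * t ≤ ⌊(R : ℝ) ^ (4 - e / 8)⌋₊ := by
    refine Nat.le_floor ?_
    have h2 := zspec_mul (x := 1) (y := 1 + e / 32) ht h8 (by linarith)
    have h3 : (t : ℝ) ^ (1 + e / 32) ≤ (R : ℝ) ^ (4 - e / 8) :=
      zspec_low ht hR1 (by linarith) (by nlinarith)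
    rw [Real.rpow_one] at h2
    push_cast
    linarith
  have h2 := (escape_mono_time q x h1 R).trans hesc
  have h3 := (escape_mono_time q x (show t ≤ 2 * t by omega) R).trans h2
  constructor
  · refine le_trans (ENNReal.ofReal_le_ofReal ?_)
      (ret_ge q x R _ _ _ (Real.rpow_pos_of_pos hR0 _) H t h3)
    have h4 : (R : ℝ) ^ (4 + e / 8) ≤ (t : ℝ) ^ (1 + e / 2) :=
      zspec_up ht hR0.le hR2 (by linarith) (by nlinarith)
    have h5 := zspec_mul (x := 1 + e / 2) (y := 1 + ε) ht h8 (by linarith)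
    have h6 := Real.rpow_pos_of_pos hR0 (4 + e / 8)
    rw [show -1 - ε = -(1 + ε) by ring, Real.rpow_neg ht0.le, ← one_div]
    exact one_div_le_one_div_of_le (by positivity) (by linarith)
  · refine (ret_le q x R _ _ _ (by positivity) H t h2).trans (ENNReal.ofReal_le_ofReal ?_)
    have h4 : (R : ℝ) ^ (e / 8 * (3 : ℕ)) ≤ (t : ℝ) ^ (e / 2) :=
      zspec_up ht hR0.le hR2 (by positivity) (by push_cast; nlinarith)
    have h5 := zspec_mul (x := e / 2) (y := ε) ht h8 (by linarith)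
    rw [Real.rpow_mul_natCast hR0.le] at h4
    rw [Real.rpow_add ht0, Real.rpow_neg_one, inv_mul_eq_div]
    exact div_le_div₀ (Real.rpow_nonneg ht0.le _) (by linarith) ht0 (by linarith)

theorem spec_dim (ε : ℝ) (hε : 0 < ε) : ∃ δ : ℝ, 0 < δ ∧ ∃ t0 : ℕ, ∀ t : ℕ, t0 ≤ t →
    ∀ n : ℕ, (t : ℝ) ^ (1 + ε) ≤ n → 0 < Nat.card (RootedQuad n) ∧
    (Nat.card {c : RootedQuad n // ∃ q : Quad n, Quot.mk _ q = c ∧
        ¬ (ENNReal.ofReal ((t : ℝ) ^ (-1 - ε)) ≤ q.ret (2 * t) (q.tail q.root) ∧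
          q.ret (2 * t) (q.tail q.root) ≤ ENNReal.ofReal ((t : ℝ) ^ (-1 + ε)))} : ℝ)
      ≤ (Nat.card (RootedQuad n) : ℝ) / (t : ℝ) ^ δ := by
  obtain ⟨e, he, he1, heε⟩ : ∃ e : ℝ, 0 < e ∧ e ≤ 1 ∧ e ≤ ε :=
    ⟨min ε 1, lt_min hε one_pos, min_le_right _ _, min_le_left _ _⟩
  obtain ⟨δ1, hδ1, R1, hslow⟩ := slow (e / 8) (by positivity)
  obtain ⟨R2, hgeo⟩ := geo (e / 8) (by positivity) (by linarith)
  obtain ⟨δ, hδ, hδa, hδb⟩ : ∃ δ : ℝ, 0 < δ ∧ 8 * δ ≤ δ1 ∧ 8 * δ ≤ 1 / 8 :=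
    ⟨min δ1 (1 / 8) / 8, by positivity, by linarith [min_le_left δ1 (1 / 8)],
      by linarith [min_le_right δ1 (1 / 8)]⟩
  have ev : ∀ u : ℝ, 0 < u → ∀ K : ℝ, ∀ᶠ t : ℕ in Filter.atTop, K ≤ (t : ℝ) ^ u := fun u hu K =>
    ((tendsto_rpow_atTop hu).comp tendsto_natCast_atTop_atTop).eventually_ge_atTop K
  obtain ⟨n0, hn0⟩ := Filter.eventually_atTop.1
    ((xmain_rad 1).and (ev (e / 32) (by positivity) (32 / e)))
  obtain ⟨t0, ht0⟩ := Filter.eventually_atTop.1 ((ev (e / 32) (by positivity) 8).and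
    ((ev δ hδ 3).and ((ev (1 / 4) (by positivity) (max R1 R2 : ℕ)).and
      (Filter.eventually_ge_atTop (max n0 2)))))
  refine ⟨δ, hδ, t0, fun t ht n hn => ?_⟩
  obtain ⟨h8, h3, hR0, ht2⟩ := ht0 t ht
  have ht1 : (1 : ℝ) ≤ t := by exact_mod_cast (show 1 ≤ t by omega)
  have htp : (0 : ℝ) < t := by linarith
  have hne : (t : ℝ) ^ (1 + e) ≤ n :=
    (Real.rpow_le_rpow_of_exponent_le ht1 (by linarith)).trans hn
  have htn : t ≤ n := by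
    have : (t : ℝ) ≤ n := (Real.self_le_rpow_of_one_le ht1 (by linarith)).trans hne
    exact_mod_cast this
  have hn1 : 1 ≤ n := by omega
  obtain ⟨hrad, hlog⟩ := hn0 n (by omega)
  have hpos := xmain_pos n hn1
  refine ⟨hpos, ?_⟩
  have : Finite (RootedQuad n) := Nat.finite_of_card_ne_zero hpos.ne'
  have hR1 := zspec_floor ht1 he h8
  have hR2 : (⌊(t : ℝ) ^ (1 / 4 + e / 16)⌋₊ : ℝ) ≤ (t : ℝ) ^ (1 / 4 + e / 16) :=
    Nat.floor_le (Real.rpow_nonneg htp.le _)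
  generalize ⌊(t : ℝ) ^ (1 / 4 + e / 16)⌋₊ = R at hR1 hR2
  have hR3 : (t : ℝ) ^ (1 / 4 : ℝ) ≤ R :=
    (Real.rpow_le_rpow_of_exponent_le ht1 (by linarith)).trans hR1
  have hR4 : max R1 R2 ≤ R := by exact_mod_cast hR0.trans hR3
  have hR5 := zspec_log ht1 he he1 hne (by exact_mod_cast (show 1 < n by omega)) hR2 hlog
  have h4 := zspec_mul (x := δ) (y := 2 * δ) ht1 h3 (by linarith)
  have h5 : 3 * (t : ℝ) ^ δ ≤ (R : ℝ) ^ δ1 := h4.trans (zspec_low ht1 hR3 hδ1.le (by linarith))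
  have h6 : 3 * (t : ℝ) ^ δ ≤ (R : ℝ) ^ (1 / 8 : ℝ) :=
    h4.trans (zspec_low ht1 hR3 (by norm_num) (by linarith))
  have h7 : 3 * (t : ℝ) ^ δ ≤ n :=
    h4.trans ((Real.rpow_le_rpow_of_exponent_le ht1 (by linarith)).trans hne)
  have h9 : (R : ℝ) ^ (-δ1) ≤ 1 / 2 := by
    rw [Real.rpow_neg (Nat.cast_nonneg R), ← one_div]
    exact one_div_le_one_div_of_le two_pos (by linarith)
  have hA := hslow R (le_of_max_le_left hR4) n hn1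
  have hB := hgeo R (le_of_max_le_right hR4) n hn1
  rw [pow_one, one_div_mul_eq_div] at hrad
  have hp : (0 : ℝ) < 3 * (t : ℝ) ^ δ := by linarith
  have hc : (0 : ℝ) ≤ (Nat.card (RootedQuad n) : ℝ) := Nat.cast_nonneg _
  have hA' := hA.trans (div_le_div_of_nonneg_left hc hp h5)
  have hB' := hB.trans (div_le_div_of_nonneg_left hc hp h6)
  have hC' := hrad.trans (div_le_div_of_nonneg_left hc hp h7)
  have hsum := add_le_add (add_le_add hA' hB') hC'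
  refine le_trans ?_ (hsum.trans_eq (by field_simp; ring))
  rw [← Nat.cast_add, ← Nat.cast_add]
  refine Nat.cast_le.2 (xmain_union _ _ _ _ ?_)
  rintro c ⟨q, hq, hb⟩
  by_cases c1 : ∃ v, (n : ℝ) ^ (1 / 4 : ℝ) / Real.log n < (q.graph.dist (q.tail q.root) v : ℝ)
  swap
  · exact Or.inr (Or.inr ⟨q, hq, c1⟩)
  by_cases c2 : LG q (q.tail q.root) R ((R : ℝ) ^ (4 + e / 8)) (4 * ((R : ℝ) ^ (e / 8)) ^ 2)
    ((R : ℝ) ^ (e / 8))
  swap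
  · obtain ⟨v, hv⟩ := c1
    exact Or.inr (Or.inl ⟨q, hq, ⟨v, by exact_mod_cast hR5.trans_lt hv⟩, c2⟩)
  refine Or.inl ⟨q, hq, lt_of_not_ge fun c3 => hb ?_⟩
  exact zspec_ret q _ he he1 heε ht1 h8 hR1 hR2 c2 (c3.trans (ENNReal.ofReal_le_ofReal h9))

end Pool.Agent.P.MP_7a6434d8_pr
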