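import Pool.Agent.P.MP_7a6434d8_pr.UWalk
import Pool.Agent.P.MP_7a6434d8_pr.UPath
import Pool.Agent.P.MP_7a6434d8_pr.UTransfer
import Pool.Agent.P.MP_7a6434d8_pr.UAnalysis
import Pool.Agent.P.MP_7a6434d8_pr.ZSpec

namespace Pool.Agent.P.MP_7a6434d8_pr

open MeasureTheory ProbabilityTheory Filter Topology
open scoped ENNReal

theorem uspecas_mono (μ : Measure InfQuad) (hμ : IsLocalLimit μ) (t : ℕ) :
    ∀ᵐ M ∂μ, M.ret (2 * (t + 1)) ≤ M.ret (2 * t) := by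
  have h := transfer hμ (fun M => ¬ M.ret (2 * (t + 1)) ≤ M.ret (2 * t)) (fun _ _ => False) 0
    (fun M hM => by
      obtain ⟨k, hk⟩ := local_walk M (2 * (t + 1))
      refine ⟨k, fun n q hq => hM ?_⟩
      rw [(hk n q hq _ le_rfl).2, (hk n q hq (2 * t) (by omega)).2, ret_eq, ret_eq]
      exact ENNReal.ofReal_le_ofReal (yK_anti q _ (Nat.le_succ t)))
    (Eventually.of_forall fun n => by simp)
  rw [ENNReal.ofReal_zero, nonpos_iff_eq_zero] at h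
  exact h

theorem uspecas_bd (μ : Measure InfQuad) (hμ : IsLocalLimit μ) (ε : ℝ) (hε : 0 < ε) :
    ∀ᵐ M ∂μ, ∀ᶠ i : ℕ in atTop,
      ENNReal.ofReal (((2 ^ i : ℕ) : ℝ) ^ (-1 - ε)) ≤ M.ret (2 * 2 ^ i) ∧
        M.ret (2 * 2 ^ i) ≤ ENNReal.ofReal (((2 ^ i : ℕ) : ℝ) ^ (-1 + ε)) := by
  obtain ⟨δ, hδ, t0, h⟩ := spec_dim ε hε
  have key := dyadic_bc μ (fun i M =>
    ¬ (ENNReal.ofReal (((2 ^ i : ℕ) : ℝ) ^ (-1 - ε)) ≤ M.ret (2 * 2 ^ i) ∧
        M.ret (2 * 2 ^ i) ≤ ENNReal.ofReal (((2 ^ i : ℕ) : ℝ) ^ (-1 + ε)))) δ hδ (by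
    filter_upwards [eventually_ge_atTop t0] with i hi
    have hi' : t0 ≤ 2 ^ i := hi.trans Nat.lt_two_pow_self.le
    refine transfer hμ _ (fun n q =>
      ¬ (ENNReal.ofReal (((2 ^ i : ℕ) : ℝ) ^ (-1 - ε)) ≤ q.ret (2 * 2 ^ i) (q.tail q.root) ∧
        q.ret (2 * 2 ^ i) (q.tail q.root) ≤ ENNReal.ofReal (((2 ^ i : ℕ) : ℝ) ^ (-1 + ε)))) _
      (fun M hM => ?_) ?_
    · obtain ⟨k, hk⟩ := local_walk M (2 * 2 ^ i)
      refine ⟨k, fun n q hq => ?_⟩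
      rw [← (hk n q hq _ le_rfl).2]
      exact hM
    · filter_upwards [tendsto_natCast_atTop_atTop.eventually_ge_atTop
        (((2 ^ i : ℕ) : ℝ) ^ (1 + ε))] with n hn
      refine (h (2 ^ i) hi' n hn).2.trans (le_of_eq ?_)
      rw [Real.rpow_neg (Nat.cast_nonneg _), div_eq_inv_mul])
  filter_upwards [key] with M hM
  filter_upwards [hM] with i hi
  exact not_not.1 hi

theorem uipq_spec (μ : Measure InfQuad) (hμ : IsLocalLimit μ) :
    ∀ᵐ M ∂μ, Tendsto (fun t : ℕ =>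
      Real.log (M.pathLaw.real {X | X (2 * t) = M.tail M.root}) / Real.log t) atTop (𝓝 (-1)) := by
  have h1 := ae_all_iff.2 (uspecas_mono μ hμ)
  have h2 := ae_all_iff.2 fun j : ℕ => uspecas_bd μ hμ (1 / ((j : ℝ) + 1)) (by positivity)
  filter_upwards [h1, h2] with M hm hb
  have hne : ∀ T, M.ret T ≠ ⊤ := fun T => by
    rw [← pathLaw_ret]
    exact measure_ne_top _ _
  simp only [Measure.real, pathLaw_ret]
  refine dyadic_spec (fun t => (M.ret (2 * t)).toReal)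
    (antitone_nat_of_succ_le fun t => ENNReal.toReal_mono (hne _) (hm t)) fun j => ?_
  filter_upwards [hb j] with i hi
  exact ⟨(ENNReal.ofReal_le_iff_le_toReal (hne _)).1 hi.1,
    ENNReal.toReal_le_of_le_ofReal (Real.rpow_nonneg (Nat.cast_nonneg _) _) hi.2⟩

end Pool.Agent.P.MP_7a6434d8_pr
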