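import Pool.Agent.P.MP_7a6434d8_pr.UBasic

namespace Pool.Agent.P.MP_7a6434d8_pr

open MeasureTheory ProbabilityTheory Filter Topology
open scoped ENNReal

theorem uvert_map_congr {A B : Type} (p : PMF A) (f g : A → B)
    (h : ∀ a ∈ p.support, f a = g a) : p.map f = p.map g := by
  classical
  ext b
  rw [PMF.map_apply, PMF.map_apply]
  refine tsum_congr fun a => ?_
  by_cases ha : p a = 0
  · simp [ha]
  · rw [h a ((PMF.mem_support_iff p a).2 ha)]

theorem uvert_uniform {A B : Type} (s : Finset A) (hs : s.Nonempty) (t : Finset B)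
    (ht : t.Nonempty) (f : A → B) (hmaps : ∀ a ∈ s, f a ∈ t)
    (hinj : ∀ a ∈ s, ∀ a' ∈ s, f a = f a' → a = a') (hsurj : ∀ b ∈ t, ∃ a ∈ s, f a = b) :
    (PMF.uniformOfFinset s hs).map f = PMF.uniformOfFinset t ht := by
  classical
  have hcard : s.card = t.card :=
    Finset.card_bij (fun a _ => f a) hmaps (fun a ha a' ha' h => hinj a ha a' ha' h)
      (fun b hb => by
        obtain ⟨a, ha, hab⟩ := hsurj b hb
        exact ⟨a, ha, hab⟩)
  ext b
  rw [PMF.map_apply]
  by_cases hb : b ∈ t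
  · obtain ⟨a0, ha0, rfl⟩ := hsurj b hb
    rw [tsum_eq_single a0]
    · rw [if_pos rfl, PMF.uniformOfFinset_apply_of_mem hs ha0,
        PMF.uniformOfFinset_apply_of_mem ht hb, hcard]
    · intro a ha
      by_cases has : a ∈ s
      · rw [if_neg]
        intro hfa
        exact ha (hinj a has a0 ha0 hfa.symm)
      · rw [PMF.uniformOfFinset_apply_of_notMem hs has]
        simp
  · rw [PMF.uniformOfFinset_apply_of_notMem ht hb]
    refine ENNReal.tsum_eq_zero.2 fun a => ?_
    by_cases has : a ∈ s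
    · rw [if_neg]
      rintro rfl
      exact hb (hmaps a has)
    · rw [PMF.uniformOfFinset_apply_of_notMem hs has]
      simp

theorem uvert_pred {V : Type} (G : SimpleGraph V) (hG : G.Connected) (r x : V) (j : ℕ)
    (h : G.dist r x = j + 1) : ∃ y, G.Adj y x ∧ G.dist r y ≤ j := by
  obtain ⟨p, hp⟩ := hG.exists_walk_length_eq_dist x r
  rw [SimpleGraph.dist_comm, h] at hp
  cases p with
  | nil => simp at hp
  | cons hadj p' =>
    refine ⟨_, hadj.symm, ?_⟩
    rw [SimpleGraph.dist_comm]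
    have h1 := SimpleGraph.dist_le p'
    simp only [SimpleGraph.Walk.length_cons] at hp
    omega

theorem uvert_tail_pow (M : InfQuad) (d : ℕ) (j : ℕ) :
    M.tail (((M.φ * M.α) ^ j) d) = M.tail d := by
  induction j with
  | zero => simp
  | succ j ih =>
    rw [pow_succ', Equiv.Perm.mul_apply, Equiv.Perm.mul_apply, M.tail_sig, ih]

theorem uvert_qtail_pow {n : ℕ} (q : Quad n) (e : Fin (4 * n)) (j : ℕ) :
    q.tail (((q.φ * q.α) ^ j) e) = q.tail e := by
  apply Quotient.sound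
  exact Equiv.Perm.SameCycle.symm ⟨(j : ℤ), by simp⟩

theorem uvert_psi_pow (M : InfQuad) {n : ℕ} (q : Quad n) (T : ℕ) (ψ : ℕ → Fin (4 * n))
    (h : LocIso M q T ψ) (d : ℕ) (hd : M.ht (M.tail d) ≤ T) (j : ℕ) :
    ψ (((M.φ * M.α) ^ j) d) = ((q.φ * q.α) ^ j) (ψ d) := by
  induction j with
  | zero => simp
  | succ j ih =>
    rw [pow_succ', pow_succ', Equiv.Perm.mul_apply, Equiv.Perm.mul_apply, Equiv.Perm.mul_apply,
      Equiv.Perm.mul_apply, h.sig _ (by rw [uvert_tail_pow]; exact hd), ih]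

theorem uvert_adj (M : InfQuad) (y x : M.Vertex) (h : M.graph.Adj y x) :
    ∃ d, M.tail d = y ∧ M.head d = x := by
  rw [InfQuad.graph, SimpleGraph.fromRel_adj] at h
  rcases h.2 with ⟨d, h1, h2⟩ | ⟨d, h1, h2⟩
  · exact ⟨d, h1, h2⟩
  · refine ⟨M.α d, h2, ?_⟩
    rw [InfQuad.head, M.α_α]
    exact h1

theorem uvert_qadj {n : ℕ} (q : Quad n) (y x : q.Vertex) (h : q.graph.Adj y x) :
    ∃ d, q.tail d = y ∧ q.head d = x := by
  rw [Quad.graph, SimpleGraph.fromRel_adj] at h
  rcases h.2 with ⟨d, h1, h2⟩ | ⟨d, h1, h2⟩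
  · exact ⟨d, h1, h2⟩
  · refine ⟨q.α d, h2, ?_⟩
    rw [Quad.head, q.α_α]
    exact h1

theorem viso_of_loc (M : InfQuad) {n : ℕ} (q : Quad n) (T : ℕ) (ψ : ℕ → Fin (4 * n))
    (h : LocIso M q T ψ) : ∃ Ψ, VIso M q T Ψ := by
  classical
  have hout : ∀ x : M.Vertex, ∃ d, M.tail d = x := fun x => Quotient.exists_rep x
  choose o ho using hout
  obtain ⟨Ψ, hΨ⟩ : ∃ Ψ : M.Vertex → q.Vertex, ∀ x, Ψ x = q.tail (ψ (o x)) :=
    ⟨fun x => q.tail (ψ (o x)), fun _ => rfl⟩
  have h1 : ∀ d, M.ht (M.tail d) ≤ T → Ψ (M.tail d) = q.tail (ψ d) := by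
    intro d hd
    obtain ⟨j, hj⟩ := M.tail_eq_pow (o (M.tail d)) d (ho _)
    have h2 := uvert_psi_pow M q T ψ h (o (M.tail d)) (by rw [ho]; exact hd) j
    rw [hj] at h2
    rw [hΨ, h2, uvert_qtail_pow]
  have h2 : ∀ x e, M.ht x ≤ T → q.tail e = Ψ x → ∃ d, M.tail d = x ∧ ψ d = e := by
    intro x e hx he
    rw [hΨ] at he
    have hc : (q.φ * q.α).SameCycle (ψ (o x)) e := Quotient.exact he.symm
    obtain ⟨j, -, hj⟩ := hc.exists_pow_eq'
    refine ⟨((M.φ * M.α) ^ j) (o x), by rw [uvert_tail_pow, ho], ?_⟩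
    rw [uvert_psi_pow M q T ψ h (o x) (by rw [ho]; exact hx) j, hj]
  have h3 : ∀ d, M.ht (M.tail d) < T → Ψ (M.head d) = q.head (ψ d) := by
    intro d hd
    have h4 := M.ht_head d
    rw [InfQuad.head, h1 (M.α d) (by rw [InfQuad.head] at h4; omega), h.alp d hd, Quad.head]
  have hr0 : M.ht (M.tail M.root) = 0 := by
    rw [InfQuad.ht]
    exact SimpleGraph.dist_self
  have hroot : Ψ (M.tail M.root) = q.tail q.root := by
    rw [h1 _ (by omega), h.root]
  have hinj : ∀ x y, M.ht x ≤ T → M.ht y ≤ T → Ψ x = Ψ y → x = y := by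
    intro x y hx hy hxy
    obtain ⟨d, hd, hd'⟩ := h2 x (ψ (o y)) hx (by rw [hxy, hΨ])
    have h5 := h.inj d (o y) (by rw [hd]; exact hx) (by rw [ho]; exact hy) hd'
    rw [← hd, h5, ho]
  have hup : ∀ j, j ≤ T → ∀ x, M.ht x ≤ j →
      ∃ p : q.graph.Walk (Ψ x) (q.tail q.root), p.length ≤ j := by
    intro j
    induction j with
    | zero =>
      intro _ x hx
      have hx0 : M.tail M.root = x :=
        (M.graph_connected.dist_eq_zero_iff).1 (Nat.le_zero.1 hx)
      rw [← hx0, hroot]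
      exact ⟨SimpleGraph.Walk.nil, le_rfl⟩
    | succ j ih =>
      intro hj x hx
      by_cases hxj : M.ht x ≤ j
      · obtain ⟨p, hp⟩ := ih (by omega) x hxj
        exact ⟨p, by omega⟩
      · obtain ⟨y, hy, hyj⟩ := uvert_pred M.graph M.graph_connected (M.tail M.root) x j
          (by rw [InfQuad.ht] at hx hxj; omega)
        have hyj' : M.ht y ≤ j := hyj
        obtain ⟨d, hd1, hd2⟩ := uvert_adj M y x hy
        obtain ⟨p, hp⟩ := ih (by omega) y hyj'
        have e1 : Ψ y = q.tail (ψ d) := by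
          rw [← hd1]
          exact h1 d (by rw [hd1]; omega)
        have e2 : Ψ x = q.head (ψ d) := by
          rw [← hd2]
          exact h3 d (by rw [hd1]; omega)
        by_cases hxy : Ψ x = Ψ y
        · rw [hxy]
          exact ⟨p, by omega⟩
        · have hadj : q.graph.Adj (Ψ x) (Ψ y) := by
            rw [Quad.graph, SimpleGraph.fromRel_adj]
            exact ⟨hxy, Or.inr ⟨ψ d, e1.symm, e2.symm⟩⟩
          exact ⟨SimpleGraph.Walk.cons hadj p, by
            rw [SimpleGraph.Walk.length_cons]; omega⟩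
  have hdown : ∀ (v r : q.Vertex) (p : q.graph.Walk v r), r = q.tail q.root → p.length ≤ T →
      ∃ x, M.ht x ≤ p.length ∧ Ψ x = v := by
    intro v r p
    induction p with
    | nil =>
      intro hr _
      exact ⟨M.tail M.root, by omega, by rw [hroot, hr]⟩
    | cons hadj p ih =>
      intro hr hlen
      rw [SimpleGraph.Walk.length_cons] at hlen ⊢
      obtain ⟨x, hx, hxu⟩ := ih hr (by omega)
      obtain ⟨e, he1, he2⟩ := uvert_qadj q _ _ hadj.symm
      obtain ⟨d, hd1, hd2⟩ := h2 x e (by omega) (by rw [he1, hxu])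
      have h4 := M.ht_head d
      rw [hd1] at h4
      refine ⟨M.head d, by omega, ?_⟩
      rw [h3 d (by rw [hd1]; omega), hd2, he2]
  refine ⟨Ψ, hroot, hinj, ?_, ?_⟩
  · intro x hx
    have hu : (PMF.uniformOfFinset (M.out x) (M.out_nonempty x)).map ψ =
        PMF.uniformOfFinset (q.out (Ψ x)) (q.out_nonempty (Ψ x)) := by
      apply uvert_uniform
      · intro d hd
        rw [M.mem_out] at hd
        rw [Quad.out, Finset.mem_filter]
        refine ⟨Finset.mem_univ _, ?_⟩
        rw [← hd]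
        exact (h1 d (by rw [hd]; omega)).symm
      · intro d hd d' hd' hdd
        rw [M.mem_out] at hd hd'
        exact h.inj d d' (by rw [hd]; omega) (by rw [hd']; omega) hdd
      · intro e he
        rw [Quad.out, Finset.mem_filter] at he
        obtain ⟨d, hd1, hd2⟩ := h2 x e hx.le he.2
        exact ⟨d, (M.mem_out x d).2 hd1, hd2⟩
    rw [InfQuad.step, Quad.step, ← hu, PMF.map_comp, PMF.map_comp]
    apply uvert_map_congr
    intro d hd
    rw [PMF.support_uniformOfFinset, Finset.mem_coe, M.mem_out] at hd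
    exact h3 d (by rw [hd]; exact hx)
  · intro x hx
    obtain ⟨p, hp⟩ := hup (M.ht x) hx x le_rfl
    have hle : q.graph.dist (Ψ x) (q.tail q.root) ≤ M.ht x := (SimpleGraph.dist_le p).trans hp
    obtain ⟨p', hp'⟩ := p.reachable.exists_walk_length_eq_dist
    obtain ⟨x', hx', hxx⟩ := hdown _ _ p' rfl (by omega)
    have hx'' : x' = x := hinj x' x (by omega) hx hxx
    rw [SimpleGraph.dist_comm]
    rw [hx''] at hx'
    omega

end Pool.Agent.P.MP_7a6434d8_pr
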