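import Pool.Agent.P.MP_7a6434d8_pr.ULoc
import Pool.Agent.P.MP_7a6434d8_pr.UVert

namespace Pool.Agent.P.MP_7a6434d8_pr

open MeasureTheory ProbabilityTheory Filter Topology
open scoped ENNReal

theorem uwalk_bind_congr {α β : Type} (p : PMF α) (f g : α → PMF β)
    (h : ∀ a ∈ p.support, f a = g a) : p.bind f = p.bind g := by
  ext b
  rw [PMF.bind_apply, PMF.bind_apply]
  refine tsum_congr fun a => ?_
  by_cases ha : a ∈ p.support
  · rw [h a ha]
  · rw [(PMF.apply_eq_zero_iff p a).2 ha, zero_mul, zero_mul]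

theorem uwalk_step_ht (M : InfQuad) (x y : M.Vertex) (h : y ∈ (M.step x).support) :
    M.ht y ≤ M.ht x + 1 := by
  rw [InfQuad.step, PMF.support_map, PMF.support_uniformOfFinset] at h
  obtain ⟨d, hd, rfl⟩ := h
  have := (M.mem_out x d).1 hd
  rw [← this]
  exact M.ht_head d

theorem uwalk_supp (M : InfQuad) : ∀ (s : ℕ) (x : M.Vertex) (l : List M.Vertex),
    l ∈ (M.walk s x).support → ∀ y ∈ l, M.ht y ≤ M.ht x + s := by
  intro s
  induction s with
  | zero =>
    intro x l hl y hy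
    rw [InfQuad.walk, PMF.support_pure, Set.mem_singleton_iff] at hl
    subst hl
    rw [List.mem_singleton.1 hy]
    exact le_rfl
  | succ s ih =>
    intro x l hl y hy
    rw [InfQuad.walk, PMF.mem_support_bind_iff] at hl
    obtain ⟨z, hz, hl⟩ := hl
    rw [PMF.support_map] at hl
    obtain ⟨l', hl', rfl⟩ := hl
    rcases List.mem_cons.1 hy with rfl | hy
    · omega
    · have h1 := ih z l' hl' y hy
      have h2 := uwalk_step_ht M x z hz
      omega

theorem uwalk_map (M : InfQuad) {n : ℕ} (q : Quad n) (T : ℕ) (Ψ : M.Vertex → q.Vertex)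
    (h : VIso M q T Ψ) : ∀ (s : ℕ) (x : M.Vertex), M.ht x + s ≤ T →
      (M.walk s x).map (List.map Ψ) = q.walk s (Ψ x) := by
  intro s
  induction s with
  | zero =>
    intro x _
    rw [InfQuad.walk, Quad.walk, PMF.pure_map]
    rfl
  | succ s ih =>
    intro x hx
    rw [InfQuad.walk, Quad.walk, PMF.map_bind, ← h.step x (by omega), PMF.bind_map]
    refine uwalk_bind_congr _ _ _ fun y hy => ?_
    have h2 := uwalk_step_ht M x y hy
    rw [Function.comp_apply, ← ih y (by omega), PMF.map_comp, PMF.map_comp]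
    rfl

theorem viso_walk (M : InfQuad) {n : ℕ} (q : Quad n) (T : ℕ) (Ψ : M.Vertex → q.Vertex)
    (h : VIso M q T Ψ) (s : ℕ) (hs : s ≤ T) :
    (∀ r : ℝ, M.escape s r = q.escape (q.tail q.root) s r) ∧
      M.ret s = q.ret s (q.tail q.root) := by
  have h0 : M.ht (M.tail M.root) = 0 := SimpleGraph.dist_self
  have hm := uwalk_map M q T Ψ h s (M.tail M.root) (by omega)
  rw [h.root] at hm
  have hs' : ∀ l ∈ (M.walk s (M.tail M.root)).support, ∀ y ∈ l, M.ht y ≤ T := by
    intro l hl y hy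
    have := uwalk_supp M s _ l hl y hy
    omega
  refine ⟨fun r => ?_, ?_⟩
  · rw [InfQuad.escape, Quad.escape, ← hm, PMF.toOuterMeasure_map_apply]
    apply PMF.toOuterMeasure_apply_eq_of_inter_support_eq
    ext l
    simp only [Set.mem_inter_iff, Set.mem_ofPred_eq, Set.mem_preimage, List.mem_map]
    refine and_congr_left fun hl => ⟨?_, ?_⟩
    · rintro ⟨y, hy, hr⟩
      exact ⟨Ψ y, ⟨y, hy, rfl⟩, by rwa [h.dist y (hs' l hl y hy)]⟩
    · rintro ⟨_, ⟨y, hy, rfl⟩, hr⟩
      exact ⟨y, hy, by rwa [h.dist y (hs' l hl y hy)] at hr⟩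
  · rw [InfQuad.ret, Quad.ret, ← hm, PMF.toOuterMeasure_map_apply]
    apply PMF.toOuterMeasure_apply_eq_of_inter_support_eq
    ext l
    simp only [Set.mem_inter_iff, Set.mem_ofPred_eq, Set.mem_preimage, List.getElem?_map]
    refine and_congr_left fun hl => ⟨?_, ?_⟩
    · intro e
      rw [e, Option.map_some, h.root]
    · intro e
      obtain ⟨y, hy, e'⟩ := Option.map_eq_some_iff.1 e
      rw [hy, h.inj y (M.tail M.root) (hs' l hl y (List.mem_of_getElem? hy)) (by omega)
        (e'.trans h.root.symm)]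

theorem local_walk (M : InfQuad) (T : ℕ) : ∃ k : ℕ, ∀ (n : ℕ) (q : Quad n),
    view q.α q.φ q.root k = view M.α M.φ M.root k → ∀ s : ℕ, s ≤ T →
      (∀ r : ℝ, M.escape s r = q.escape (q.tail q.root) s r) ∧
        M.ret s = q.ret s (q.tail q.root) := by
  obtain ⟨k, hk⟩ := loc_of_view M T
  refine ⟨k, fun n q hq s hs => ?_⟩
  obtain ⟨ψ, hψ⟩ := hk n q hq
  obtain ⟨Ψ, hΨ⟩ := viso_of_loc M q T ψ hψ
  exact viso_walk M q T Ψ hΨ s hs

end Pool.Agent.P.MP_7a6434d8_pr
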