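import Pool.Agent.P.MP_7a6434d8_pr.ZGeo
import Pool.Agent.P.MP_7a6434d8_pr.ZSlow

namespace Pool.Agent.P.MP_7a6434d8_pr

open Mp Finset
open scoped ENNReal

theorem zwalkdim_size {R n : ℕ} (hR : 3 ≤ R) (hn : 1 ≤ n)
    (h : (R : ℝ) ≤ (n : ℝ) ^ (1 / 4 : ℝ) / Real.log n) : R ≤ n := by
  have hR' : (3 : ℝ) ≤ R := by exact_mod_cast hR
  have hn2 : 2 ≤ n := by
    by_contra h2
    obtain rfl : n = 1 := by omega
    simp at h
    omega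
  have hn2' : (2 : ℝ) ≤ n := by exact_mod_cast hn2
  have hl : 1 / 2 ≤ Real.log n := by
    have h1 := Real.log_two_gt_d9
    have h2 := Real.log_le_log (by norm_num) hn2'
    linarith
  rw [le_div_iff₀ (by linarith)] at h
  have h1 : (R : ℝ) / 2 ≤ (n : ℝ) ^ (1 / 4 : ℝ) := by nlinarith
  have h2 : ((n : ℝ) ^ (1 / 4 : ℝ)) ^ 4 = n := by
    rw [← Real.rpow_natCast, ← Real.rpow_mul (by linarith)]
    norm_num
  have h3 := pow_le_pow_left₀ (by linarith) h1 4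
  have h4 : (27 : ℝ) ≤ (R : ℝ) ^ 3 := by
    have := pow_le_pow_left₀ (by norm_num) hR' 3
    linarith
  have h5 : (R : ℝ) ≤ n := by
    rw [h2] at h3
    have h6 : 27 * (R : ℝ) ≤ (R : ℝ) ^ 3 * R := mul_le_mul_of_nonneg_right h4 (by linarith)
    have h7 : ((R : ℝ) / 2) ^ 4 = (R : ℝ) ^ 3 * R / 16 := by ring
    linarith
  exact_mod_cast h5

theorem zwalkdim_stay {R ε η δ : ℝ} (hR : 1 ≤ R) (h1 : 3 * η + 2 * δ ≤ ε) (h4 : 4 ≤ R ^ δ) :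
    4 * (R ^ η) ^ 2 * R ^ (4 + η) / ((⌊R ^ (4 + ε)⌋₊ : ℝ) + 1) ≤ R ^ (-δ) := by
  have hR0 : 0 < R := by linarith
  have a1 : R ^ (4 + ε) < (⌊R ^ (4 + ε)⌋₊ : ℝ) + 1 := Nat.lt_floor_add_one _
  have a2 : 0 < R ^ (-δ) := Real.rpow_pos_of_pos hR0 _
  rw [div_le_iff₀ (by positivity)]
  have a3 : R ^ δ * ((R ^ η) ^ 2 * R ^ (4 + η)) = R ^ (δ + (η + η + (4 + η))) := by
    rw [Real.rpow_add hR0 δ, Real.rpow_add hR0 (η + η), Real.rpow_add hR0 η η, sq]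
  have a4 : R ^ (δ + (η + η + (4 + η))) ≤ R ^ (-δ + (4 + ε)) :=
    Real.rpow_le_rpow_of_exponent_le hR (by linarith)
  rw [Real.rpow_add hR0 (-δ)] at a4
  have a5 : 4 * ((R ^ η) ^ 2 * R ^ (4 + η)) ≤ R ^ δ * ((R ^ η) ^ 2 * R ^ (4 + η)) :=
    mul_le_mul_of_nonneg_right h4 (by positivity)
  have a6 := mul_le_mul_of_nonneg_left a1.le a2.le
  linarith

theorem walk_dim (ε : ℝ) (hε : 0 < ε) : ∃ δ : ℝ, 0 < δ ∧ ∃ R0 : ℕ, ∀ R : ℕ, R0 ≤ R →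
    ∀ n : ℕ, 1 ≤ n → 0 < Nat.card (RootedQuad n) ∧
    (Nat.card {c : RootedQuad n // ∃ q : Quad n, Quot.mk _ q = c ∧
        ¬ (((R : ℝ) ≤ (n : ℝ) ^ (1 / 4 : ℝ) / Real.log n →
              ∃ v, R < q.graph.dist (q.tail q.root) v) ∧
          q.escape (q.tail q.root) ⌊(R : ℝ) ^ (4 - ε)⌋₊ R ≤ ENNReal.ofReal ((R : ℝ) ^ (-δ)) ∧
          ((∃ v, R < q.graph.dist (q.tail q.root) v) → ENNReal.ofReal (1 - (R : ℝ) ^ (-δ))
              ≤ q.escape (q.tail q.root) ⌊(R : ℝ) ^ (4 + ε)⌋₊ R))} : ℝ)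
      ≤ (Nat.card (RootedQuad n) : ℝ) / (R : ℝ) ^ δ := by
  obtain ⟨δs, hδs, R1, hslow⟩ := slow ε hε
  obtain ⟨η, hη, hη1, hη2⟩ : ∃ η : ℝ, 0 < η ∧ η ≤ 1 / 8 ∧ η ≤ ε / 8 :=
    ⟨min (1 / 8) (ε / 8), lt_min (by norm_num) (by linarith), min_le_left _ _, min_le_right _ _⟩
  obtain ⟨R2, hgeo⟩ := geo η hη (by linarith)
  obtain ⟨δ, hδ, hδ1, hδ2⟩ : ∃ δ : ℝ, 0 < δ ∧ δ ≤ δs / 2 ∧ δ ≤ η / 2 :=
    ⟨min (δs / 2) (η / 2), lt_min (by linarith) (by linarith), min_le_left _ _, min_le_right _ _⟩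
  obtain ⟨n0, hrad⟩ := Filter.eventually_atTop.1 (xmain_rad 1)
  obtain ⟨R3, hR3⟩ := Filter.eventually_atTop.1
    (((tendsto_rpow_atTop hδ).comp tendsto_natCast_atTop_atTop).eventually_ge_atTop 4)
  refine ⟨δ, hδ, R1 + R2 + R3 + n0 + 3, fun R hR n hn => ⟨xmain_pos n hn, ?_⟩⟩
  have : Finite (RootedQuad n) := Nat.finite_of_card_ne_zero (xmain_pos n hn).ne'
  have h4 : (4 : ℝ) ≤ (R : ℝ) ^ δ := hR3 R (by omega)
  have hR1 : (1 : ℝ) ≤ R := by exact_mod_cast (by omega : 1 ≤ R)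
  have hR0 : (0 : ℝ) < R := by linarith
  have hu := xmain_union
    (fun c : RootedQuad n => ∃ q : Quad n, Quot.mk _ q = c ∧
        ¬ (((R : ℝ) ≤ (n : ℝ) ^ (1 / 4 : ℝ) / Real.log n →
              ∃ v, R < q.graph.dist (q.tail q.root) v) ∧
          q.escape (q.tail q.root) ⌊(R : ℝ) ^ (4 - ε)⌋₊ R ≤ ENNReal.ofReal ((R : ℝ) ^ (-δ)) ∧
          ((∃ v, R < q.graph.dist (q.tail q.root) v) → ENNReal.ofReal (1 - (R : ℝ) ^ (-δ))
              ≤ q.escape (q.tail q.root) ⌊(R : ℝ) ^ (4 + ε)⌋₊ R)))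
    (fun c => (R : ℝ) ≤ (n : ℝ) ^ (1 / 4 : ℝ) / Real.log n ∧ ∃ q : Quad n, Quot.mk _ q = c ∧
        ¬ ∃ v, (n : ℝ) ^ (1 / 4 : ℝ) / Real.log n < (q.graph.dist (q.tail q.root) v : ℝ))
    (fun c => ∃ q : Quad n, Quot.mk _ q = c ∧
        ENNReal.ofReal ((R : ℝ) ^ (-δs)) < q.escape (q.tail q.root) ⌊(R : ℝ) ^ (4 - ε)⌋₊ R)
    (fun c => ∃ q : Quad n, Quot.mk _ q = c ∧
        (∃ v, R < q.graph.dist (q.tail q.root) v) ∧
        ¬ LG q (q.tail q.root) R ((R : ℝ) ^ (4 + η)) (4 * ((R : ℝ) ^ η) ^ 2) ((R : ℝ) ^ η)) (by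
      rintro c ⟨q, hq, hb⟩
      by_contra hc
      rw [not_or, not_or] at hc
      obtain ⟨c1, c2, c3⟩ := hc
      refine hb ⟨fun h => ?_, ?_, fun h => ?_⟩
      · by_contra h2
        refine c1 ⟨h, q, hq, fun ⟨v, hv⟩ => h2 ⟨v, ?_⟩⟩
        exact_mod_cast h.trans_lt hv
      · refine le_trans (not_lt.1 fun h => c2 ⟨q, hq, h⟩) (ENNReal.ofReal_le_ofReal ?_)
        exact Real.rpow_le_rpow_of_exponent_le hR1 (by linarith)
      · have h2 : LG q (q.tail q.root) R ((R : ℝ) ^ (4 + η)) (4 * ((R : ℝ) ^ η) ^ 2)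
            ((R : ℝ) ^ η) := by
          by_contra h3
          exact c3 ⟨q, hq, h, h3⟩
        refine le_trans (ENNReal.ofReal_le_ofReal ?_)
          (stay_le q _ R _ _ _ (by positivity) h2 ⌊(R : ℝ) ^ (4 + ε)⌋₊)
        have := zwalkdim_stay (ε := ε) (η := η) hR1 (by linarith) h4
        linarith)
  obtain ⟨N, hN⟩ : ∃ N : ℝ, N = Nat.card (RootedQuad n) := ⟨_, rfl⟩
  have hN0 : 0 ≤ N := by rw [hN]; positivity
  have hA : (Nat.card {c : RootedQuad n // (R : ℝ) ≤ (n : ℝ) ^ (1 / 4 : ℝ) / Real.log n ∧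
      ∃ q : Quad n, Quot.mk _ q = c ∧ ¬ ∃ v, (n : ℝ) ^ (1 / 4 : ℝ) / Real.log n <
        (q.graph.dist (q.tail q.root) v : ℝ)} : ℝ) ≤ N / (R : ℝ) ^ (1 : ℝ) := by
    by_cases h : (R : ℝ) ≤ (n : ℝ) ^ (1 / 4 : ℝ) / Real.log n
    · have h1 := zwalkdim_size (by omega) hn h
      have h2 := hrad n (by omega)
      simp only [h, true_and]
      refine h2.trans ?_
      rw [← hN, pow_one, Real.rpow_one, one_div_mul_eq_div]
      exact div_le_div_of_nonneg_left hN0 hR0 (by exact_mod_cast h1)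
    · simp only [h, false_and]
      rw [Nat.card_eq_zero.2 (Or.inl inferInstance), Nat.cast_zero]
      positivity
  have hB := hslow R (by omega) n hn
  have hC := hgeo R (by omega) n hn
  rw [← hN] at hB hC ⊢
  have hx : ∀ a : ℝ, 2 * δ ≤ a → N / (R : ℝ) ^ a ≤ N / (R : ℝ) ^ δ / 4 := by
    intro a ha
    rw [div_div]
    refine div_le_div_of_nonneg_left hN0 (by positivity) ?_
    have h1 : (R : ℝ) ^ (δ + δ) ≤ (R : ℝ) ^ a :=
      Real.rpow_le_rpow_of_exponent_le hR1 (by linarith)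
    rw [Real.rpow_add hR0] at h1
    exact (mul_le_mul_of_nonneg_left h4 (by positivity)).trans h1
  have e1 := hx 1 (by linarith)
  have e2 := hx δs (by linarith)
  have e3 := hx (1 / 8) (by linarith)
  have e4 : 0 ≤ N / (R : ℝ) ^ δ := by positivity
  have hu' := (Nat.cast_le (α := ℝ)).2 hu
  rw [Nat.cast_add, Nat.cast_add] at hu'
  linarith

end Pool.Agent.P.MP_7a6434d8_pr
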