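import Pool.Agent.P.MP_7a6434d8_pr.UWalk
import Pool.Agent.P.MP_7a6434d8_pr.UPath
import Pool.Agent.P.MP_7a6434d8_pr.UTransfer
import Pool.Agent.P.MP_7a6434d8_pr.UAnalysis
import Pool.Agent.P.MP_7a6434d8_pr.ZWalkDim

namespace Pool.Agent.P.MP_7a6434d8_pr

open MeasureTheory ProbabilityTheory Filter Topology
open scoped ENNReal

theorem uwalkas_ev (R : ℝ) : ∀ᶠ n : ℕ in atTop, R ≤ (n : ℝ) ^ (1 / 4 : ℝ) / Real.log n := by
  have h1 : Tendsto (fun n : ℕ => (n : ℝ) ^ (1 / 8 : ℝ)) atTop atTop :=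
    (tendsto_rpow_atTop (by positivity)).comp tendsto_natCast_atTop_atTop
  filter_upwards [h1.eventually_ge_atTop (8 * |R|), eventually_ge_atTop 2] with n hn h2
  have hn2 : (2 : ℝ) ≤ n := by exact_mod_cast h2
  have hn0 : (0 : ℝ) < n := by linarith
  have hl : 0 < Real.log n := Real.log_pos (by linarith)
  have e2 : Real.log n ≤ (n : ℝ) ^ (1 / 8 : ℝ) / (1 / 8) :=
    Real.log_le_rpow_div hn0.le (by norm_num)
  have e3 : (n : ℝ) ^ (1 / 4 : ℝ) = (n : ℝ) ^ (1 / 8 : ℝ) * (n : ℝ) ^ (1 / 8 : ℝ) := by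
    rw [← Real.rpow_add hn0]
    norm_num
  have e4 := mul_le_mul_of_nonneg_left e2 (abs_nonneg R)
  have e5 := mul_le_mul_of_nonneg_right hn (Real.rpow_nonneg hn0.le (1 / 8))
  have e6 := mul_le_mul_of_nonneg_right (le_abs_self R) hl.le
  rw [le_div_iff₀ hl, e3]
  linarith

theorem uwalkas_env (μ : Measure InfQuad) (hμ : IsLocalLimit μ) (ε : ℝ) (hε : 0 < ε) :
    ∃ δ : ℝ, 0 < δ ∧ ∀ᵐ M ∂μ, ∀ᶠ i : ℕ in atTop,
      M.escape ⌊((2 ^ i : ℕ) : ℝ) ^ (4 - ε)⌋₊ ((2 ^ i : ℕ) : ℝ) ≤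
          ENNReal.ofReal (((2 ^ i : ℕ) : ℝ) ^ (-δ)) ∧
        ENNReal.ofReal (1 - ((2 ^ i : ℕ) : ℝ) ^ (-δ)) ≤
          M.escape ⌊((2 ^ i : ℕ) : ℝ) ^ (4 + ε)⌋₊ ((2 ^ i : ℕ) : ℝ) := by
  obtain ⟨δ, hδ, R0, h⟩ := walk_dim ε hε
  have key : ∀ R : ℕ, R0 ≤ R → μ {M | ¬ (M.escape ⌊(R : ℝ) ^ (4 - ε)⌋₊ R ≤
      ENNReal.ofReal ((R : ℝ) ^ (-δ)) ∧
      ENNReal.ofReal (1 - (R : ℝ) ^ (-δ)) ≤ M.escape ⌊(R : ℝ) ^ (4 + ε)⌋₊ R)} ≤
      ENNReal.ofReal ((R : ℝ) ^ (-δ)) := fun R hR => by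
    refine transfer hμ _ (fun n q => (R : ℝ) ≤ (n : ℝ) ^ (1 / 4 : ℝ) / Real.log n →
      ¬ (((R : ℝ) ≤ (n : ℝ) ^ (1 / 4 : ℝ) / Real.log n →
              ∃ v, R < q.graph.dist (q.tail q.root) v) ∧
          q.escape (q.tail q.root) ⌊(R : ℝ) ^ (4 - ε)⌋₊ R ≤ ENNReal.ofReal ((R : ℝ) ^ (-δ)) ∧
          ((∃ v, R < q.graph.dist (q.tail q.root) v) → ENNReal.ofReal (1 - (R : ℝ) ^ (-δ))
              ≤ q.escape (q.tail q.root) ⌊(R : ℝ) ^ (4 + ε)⌋₊ R))) _ (fun M hM => ?_) ?_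
    · obtain ⟨k, hk⟩ := local_walk M (max ⌊(R : ℝ) ^ (4 - ε)⌋₊ ⌊(R : ℝ) ^ (4 + ε)⌋₊)
      refine ⟨k, fun n q hq hn ⟨h1, h2, h3⟩ => hM ⟨?_, ?_⟩⟩
      · rw [(hk n q hq _ (le_max_left _ _)).1]
        exact h2
      · rw [(hk n q hq _ (le_max_right _ _)).1]
        exact h3 (h1 hn)
    · filter_upwards [uwalkas_ev R, eventually_ge_atTop 1] with n h1 h2
      obtain ⟨h3, h4⟩ := h R hR n h2
      have : Finite (RootedQuad n) := Nat.finite_of_card_ne_zero h3.ne'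
      rw [← inv_mul_eq_div ((R : ℝ) ^ δ), ← Real.rpow_neg (Nat.cast_nonneg R)] at h4
      refine le_trans (Nat.cast_le.2 (Nat.card_le_card_of_injective
        (Subtype.map id ?_) (Subtype.map_injective _ Function.injective_id))) h4
      rintro c ⟨q, hq, hb⟩
      exact ⟨q, hq, hb h1⟩
  have h1 := dyadic_bc μ _ δ hδ ((eventually_ge_atTop R0).mono fun i hi =>
    key (2 ^ i) (hi.trans Nat.lt_two_pow_self.le))
  exact ⟨δ, hδ, h1.mono fun M hM => hM.mono fun i hi => not_not.1 hi⟩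

theorem uipq_walk (μ : Measure InfQuad) (hμ : IsLocalLimit μ) :
    ∀ᵐ M ∂μ, ∀ᵐ X ∂M.pathLaw, Tendsto (fun t : ℕ =>
      Real.log (((Finset.range (t + 1)).sup fun s => M.graph.dist (M.tail M.root) (X s) : ℕ) : ℝ)
        / Real.log t) atTop (𝓝 (1 / 4)) := by
  choose δ hδ h using fun j : ℕ => uwalkas_env μ hμ (1 / ((j : ℝ) + 1)) (by positivity)
  filter_upwards [ae_all_iff.2 h] with M hM
  have h1 := fun j : ℕ => dyadic_bc M.pathLaw (fun i X => ∃ s,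
      s ≤ ⌊((2 ^ i : ℕ) : ℝ) ^ (4 - 1 / ((j : ℝ) + 1))⌋₊ ∧ ((2 ^ i : ℕ) : ℝ) < (M.ht (X s) : ℝ))
    (δ j) (hδ j) ((hM j).mono fun i hi => (pathLaw_esc M _ _).trans_le hi.1)
  have h2 := fun j : ℕ => dyadic_bc M.pathLaw (fun i X => ∀ s,
      s ≤ ⌊((2 ^ i : ℕ) : ℝ) ^ (4 + 1 / ((j : ℝ) + 1))⌋₊ → (M.ht (X s) : ℝ) ≤ ((2 ^ i : ℕ) : ℝ))
    (δ j) (hδ j) ((hM j).mono fun i hi => (pathLaw_stay M _ _).trans_le (by
      refine tsub_le_iff_right.2 (le_trans ?_ (add_le_add le_rfl hi.2))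
      refine le_trans ?_ ENNReal.ofReal_add_le
      rw [add_sub_cancel, ENNReal.ofReal_one]))
  filter_upwards [ae_all_iff.2 h1, ae_all_iff.2 h2] with X h3 h4
  refine dyadic_walk (fun t => (Finset.range (t + 1)).sup fun s => M.ht (X s))
    (fun a b hab => Finset.sup_mono (Finset.range_mono (Nat.add_le_add_right hab 1))) fun j => ?_
  filter_upwards [h3 j, h4 j] with i h5 h6
  constructor
  · refine Finset.sup_le fun s hs => le_of_not_gt fun hc => h5 ⟨s, ?_, ?_⟩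
    · exact Nat.lt_succ_iff.1 (Finset.mem_range.1 hs)
    · exact_mod_cast hc
  · refine lt_of_not_ge fun hc => h6 fun s hs => Nat.cast_le.2 (le_trans ?_ hc)
    exact Finset.le_sup (f := fun s => M.ht (X s)) (Finset.mem_range.2 (Nat.lt_succ_of_le hs))

end Pool.Agent.P.MP_7a6434d8_pr
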