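import Pool.Agent.P.MP_7a6434d8_pr.XIE

namespace Pool.Agent.P.MP_7a6434d8_pr

open Mp Finset
open scoped ENNReal

/-- some child satisfies `φ` -/
def xanyChild (φ : Mp → Prop) : Mp → Prop
  | pt => False
  | face t => φ t
  | bridge a b => φ a ∨ φ b

theorem xany_split (E : Mp → Prop) (n : ℕ) (t : Mp) (ht : ok t)
    (h : AnySub E t ∧ size t + per t ≤ n) :
    xanyChild (fun t => AnySub E t ∧ size t + per t ≤ n) t ∨ (E t ∧ size t + per t ≤ n) := by
  obtain ⟨h1, h2⟩ := h
  cases t with
  | pt => exact Or.inr ⟨h1, h2⟩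
  | face t =>
    rcases h1 with h1 | h1
    · exact Or.inr ⟨h1, h2⟩
    · refine Or.inl ⟨h1, ?_⟩
      have := ht.2
      simp only [size, per] at h2
      omega
  | bridge a b =>
    simp only [size, per] at h2
    rcases h1 with h1 | h1 | h1
    · exact Or.inr ⟨h1, h2⟩
    · exact Or.inl (Or.inl ⟨h1, by omega⟩)
    · exact Or.inl (Or.inr ⟨h1, by omega⟩)

theorem xany_Bv_nonneg (L : ℕ) : 0 ≤ Bv L := by
  unfold Bv
  positivity

theorem anysub (E : Mp → Prop) (n : ℕ) (ε : ℝ) (hε : 0 ≤ ε) (h0 : ¬ E pt)
    (h : ∀ L, L ≤ n → mass L (fun t => E t ∧ size t + per t ≤ n) ≤ ε * Z L) (L : ℕ) :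
    mass L (fun t => AnySub E t ∧ size t + per t ≤ n) ≤ ε * (Bv L * Z L) := by
  have hall : ∀ L, mass L (fun t => E t ∧ size t + per t ≤ n) ≤ ε * Z L := by
    intro L
    by_cases hL : L ≤ n
    · exact h L hL
    · rw [mass_eq_zero (fun t _ hp ht => by have := ht.2; omega)]
      exact mul_nonneg hε (Z_pos L).le
  refine mass_le_of_massN fun N => ?_
  induction N generalizing L with
  | zero =>
    rw [massN_zero]
    exact mul_nonneg hε (mul_nonneg (xany_Bv_nonneg L) (Z_pos L).le)
  | succ N ih =>
    rcases Nat.eq_zero_or_pos L with rfl | hL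
    · have : massN (N + 1) 0 (fun t => AnySub E t ∧ size t + per t ≤ n) = 0 := by
        refine mass_eq_zero fun t ht hp hh => ?_
        obtain rfl := eq_pt_of_per_zero t ht hp
        exact h0 hh.1.1
      rw [this]
      exact mul_nonneg hε (mul_nonneg (xany_Bv_nonneg 0) (Z_pos 0).le)
    · have h1 := massN_le_add (N := N + 1) (L := L)
        (fun t ht _ hh => xany_split E n t ht hh)
      have h2 := root_le N L hL (xanyChild (fun t => AnySub E t ∧ size t + per t ≤ n))
      have h3 : massN N (L + 1)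
          (fun t => xanyChild (fun t => AnySub E t ∧ size t + per t ≤ n) (face t))
          ≤ ε * (Bv (L + 1) * Z (L + 1)) := ih (L + 1)
      have h4 : ∑ j ∈ range L, mass2N N (L - 1 - j) j
          (fun a b => xanyChild (fun t => AnySub E t ∧ size t + per t ≤ n) (bridge a b))
          ≤ ∑ j ∈ range L, ε * ((Bv (L - 1 - j) + Bv j) * (Z (L - 1 - j) * Z j)) := by
        refine sum_le_sum fun j _ => ?_
        refine (mass2N_le_split (φ := fun t => AnySub E t ∧ size t + per t ≤ n)
          (χ := fun t => AnySub E t ∧ size t + per t ≤ n) (fun a b _ _ _ _ hh => hh)).trans ?_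
        have e1 := mul_le_mul_of_nonneg_right (ih (L - 1 - j)) (Z_pos j).le
        have e2 := mul_le_mul_of_nonneg_left (ih j) (Z_pos (L - 1 - j)).le
        calc _ ≤ ε * (Bv (L - 1 - j) * Z (L - 1 - j)) * Z j
              + Z (L - 1 - j) * (ε * (Bv j * Z j)) := add_le_add e1 e2
          _ = _ := by ring
      rw [← mul_sum] at h4
      have h5 := hall L
      rw [Bv_root L hL]
      calc _ ≤ _ := h1
        _ ≤ (ε * (Bv (L + 1) * Z (L + 1)) / 12
            + ε * ∑ j ∈ range L, (Bv (L - 1 - j) + Bv j) * (Z (L - 1 - j) * Z j))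
            + ε * Z L := by
          refine add_le_add (h2.trans (add_le_add ?_ h4)) h5
          exact div_le_div_of_nonneg_right h3 (by norm_num)
        _ = _ := by ring

theorem anySub_mono {E E' : Mp → Prop} (n : ℕ) (t : Mp) (ht : ok t) (hn : size t + per t ≤ n)
    (h : ∀ s, ok s → size s + per s ≤ n → E s → E' s) (H : AnySub E t) : AnySub E' t := by
  induction t with
  | pt => exact h pt ht hn H
  | face t ih =>
    rcases H with H | H
    · exact Or.inl (h _ ht hn H)
    · refine Or.inr (ih ht.1 ?_ H)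
      have := ht.2
      simp only [size, per] at hn
      omega
  | bridge a b iha ihb =>
    rcases H with H | H | H
    · exact Or.inl (h _ ht hn H)
    · refine Or.inr (Or.inl (iha ht.1 ?_ H))
      simp only [size, per] at hn
      omega
    · refine Or.inr (Or.inr (ihb ht.2 ?_ H))
      simp only [size, per] at hn
      omega

theorem anySub_or {E E' : Mp → Prop} (t : Mp) (H : AnySub (fun s => E s ∨ E' s) t) :
    AnySub E t ∨ AnySub E' t := by
  induction t with
  | pt => exact H
  | face t ih =>
    rcases H with (H | H) | H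
    · exact Or.inl (Or.inl H)
    · exact Or.inr (Or.inl H)
    · exact (ih H).imp Or.inr Or.inr
  | bridge a b iha ihb =>
    rcases H with (H | H) | H | H
    · exact Or.inl (Or.inl H)
    · exact Or.inr (Or.inl H)
    · exact (iha H).imp (fun x => Or.inr (Or.inl x)) (fun x => Or.inr (Or.inl x))
    · exact (ihb H).imp (fun x => Or.inr (Or.inr x)) (fun x => Or.inr (Or.inr x))

theorem xany_dg_face (t : Mp) (x : V t) : dg t x ≤ dg (face t) x := by
  unfold dg
  simp only [energy]
  refine le_add_of_le_of_nonneg (le_of_eq ?_) (sq_nonneg _)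
  congr

theorem xany_dg_left (a b : Mp) (x : V a) : dg a x ≤ dg (bridge a b) (Sum.inl x) := by
  unfold dg
  simp only [energy]
  refine le_add_of_le_of_nonneg (le_add_of_le_of_nonneg (le_of_eq ?_) (energy_nonneg _ _))
    (sq_nonneg _)
  congr 1
  funext y
  by_cases hy : y = x
  · exact (if_pos hy).trans (if_pos (congrArg Sum.inl hy)).symm
  · exact (if_neg hy).trans (if_neg (fun hh => hy (Sum.inl.inj hh))).symm

theorem xany_dg_right (a b : Mp) (x : V b) : dg b x ≤ dg (bridge a b) (Sum.inr x) := by
  unfold dg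
  simp only [energy]
  refine le_add_of_le_of_nonneg (le_add_of_nonneg_of_le (energy_nonneg _ _) (le_of_eq ?_))
    (sq_nonneg _)
  congr 1
  funext y
  by_cases hy : y = x
  · exact (if_pos hy).trans (if_pos (congrArg Sum.inr hy)).symm
  · exact (if_neg hy).trans (if_neg (fun hh => hy (Sum.inr.inj hh))).symm

theorem anySub_maxdeg {E : Mp → Prop} {Δ : ℝ} (t : Mp) (hd : MaxDeg t Δ) (H : AnySub E t) :
    AnySub (fun s => MaxDeg s Δ ∧ E s) t := by
  induction t with
  | pt => exact ⟨hd, H⟩
  | face t ih =>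
    rcases H with H | H
    · exact Or.inl ⟨hd, H⟩
    · exact Or.inr (ih (fun x => (xany_dg_face t x).trans (hd x)) H)
  | bridge a b iha ihb =>
    rcases H with H | H | H
    · exact Or.inl ⟨hd, H⟩
    · exact Or.inr (Or.inl (iha (fun x => (xany_dg_left a b x).trans (hd _)) H))
    · exact Or.inr (Or.inr (ihb (fun x => (xany_dg_right a b x).trans (hd _)) H))

end Pool.Agent.P.MP_7a6434d8_pr
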