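import Pool.Agent.P.MP_7a6434d8_pr.XV
import Pool.Agent.P.MP_7a6434d8_pr.XGraphA

namespace Pool.Agent.P.MP_7a6434d8_pr

open Mp Finset
open scoped ENNReal

theorem xarcdet_supp_equiv {t s : Mp} (E : V t ≃ V s) (f : V s → ℝ) :
    supp t (fun x => f (E x)) = supp s f := by
  classical
  unfold supp
  refine card_bij (fun x _ => E x) (fun x hx => ?_) (fun x _ y _ h => E.injective h)
    (fun y hy => ⟨E.symm y, ?_, by simp⟩)
  · simpa using hx
  · simpa using hy

theorem xarcdet_supp_sum {t W1 W2 : Mp} (E : V t ≃ V W1 ⊕ V W2) (f1 : V W1 → ℝ)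
    (f2 : V W2 → ℝ) :
    supp t (fun x => Sum.elim f1 f2 (E x)) = supp W1 f1 + supp W2 f2 := by
  classical
  unfold supp
  rw [card_filter, card_filter, card_filter,
    Equiv.sum_comp E (fun y => if Sum.elim f1 f2 y ≠ 0 then 1 else 0), Fintype.sum_sum_type]
  rfl

theorem xarcdet_supp_zero (t : Mp) : supp t (fun _ => 0) = 0 := by
  simp [supp]

theorem Arc.mono {t : Mp} {π : ℕ} {K v K' v' : ℝ} (h : Arc t π K v) (hK : K ≤ K') (hv : v ≤ v') :
    Arc t π K' v' := by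
  obtain ⟨f, h1, h2, h3, h4, h5⟩ := h
  exact ⟨f, h1, h2, h3.trans hK, h4.trans hK, h5.trans hv⟩

theorem arc_triv (t : Mp) (π : ℕ) : Arc t π ((π : ℝ) + 1) 0 := by
  refine ⟨fun _ => 0, fun _ => ⟨le_rfl, zero_le_one⟩, fun _ _ _ => rfl, ?_, ?_, ?_⟩
  · rw [energy_const]; positivity
  · simp
  · rw [xarcdet_supp_zero]; simp

theorem arc_shrink {t : Mp} {π s : ℕ} {K v : ℝ} (hs : s ≤ π) (h : Arc t (π - s) K v) :
    Arc t π (K + s) v := by
  obtain ⟨f, h1, h2, h3, h4, h5⟩ := h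
  refine ⟨f, h1, fun p hp hp' => h2 p (by omega) hp', ?_, ?_, h5⟩
  · have : (0 : ℝ) ≤ s := Nat.cast_nonneg s
    linarith
  · rw [show π + 1 = (π - s + 1) + s by omega, sum_range_add]
    refine add_le_add h4 ?_
    calc ∑ p ∈ range s, (1 - f (bv t (π - s + 1 + p))) ^ 2 ≤ ∑ _p ∈ range s, (1 : ℝ) := by
          refine sum_le_sum fun p _ => ?_
          have := h1 (bv t (π - s + 1 + p))
          nlinarith [this.1, this.2]
      _ = s := by simp

theorem arc_face {k π : ℕ} {t t' : Mp} {K v : ℝ} (I : FaceV k t t') (hk : π ≤ k)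
    (h : Arc t' π K v) : Arc t π K v := by
  obtain ⟨f, h1, h2, h3, h4, h5⟩ := h
  obtain ⟨E, e1, e2, e3⟩ := I.ex
  have hp := I.isFace.per_eq
  have hl := I.isFace.lt
  refine ⟨fun x => f (E x), fun x => h1 _, fun p hp1 hp2 => ?_, ?_, ?_, ?_⟩
  · by_cases hc : p ≤ k
    · simp only [e2 p hc]; exact h2 p hp1 (by omega)
    · simp only [e3 p (by omega) hp2]; exact h2 _ (by omega) (by omega)
  · rw [e1, h2 k hk (by omega), h2 (k + 3) (by omega) (by omega)]
    simpa using h3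
  · refine le_trans (le_of_eq (sum_congr rfl fun p hp1 => ?_)) h4
    have := mem_range.1 hp1
    simp only [e2 p (by omega)]
  · rw [xarcdet_supp_equiv]; exact h5

theorem xarcdet_bdry {m π : ℕ} {t W1 W2 : Mp} (hp : per t = per W1 + per W2 + 1)
    (E : V t ≃ V W1 ⊕ V W2) (e2 : ∀ p, p ≤ m → E (bv t p) = Sum.inl (bv W1 p))
    (e3 : ∀ p, p ≤ 2 * per W2 → E (bv t (m + 1 + p)) = Sum.inr (bv W2 p))
    (e4 : ∀ p, m ≤ p → p ≤ 2 * per W1 → E (bv t (p + 2 * per W2 + 2)) = Sum.inl (bv W1 p))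
    (hl : m ≤ 2 * per W1) (f1 : V W1 → ℝ) (f2 : V W2 → ℝ)
    (a1 : ∀ p, min π m ≤ p → p ≤ 2 * per W1 → f1 (bv W1 p) = 0)
    (a2 : ∀ p, π ≤ m + 1 + p → p ≤ 2 * per W2 → f2 (bv W2 p) = 0) :
    ∀ p, π ≤ p → p ≤ 2 * per t → Sum.elim f1 f2 (E (bv t p)) = 0 := by
  intro p hp1 hp2
  by_cases hc : p ≤ m
  · rw [e2 p hc]; exact a1 p (by omega) (by omega)
  by_cases hc' : p ≤ m + 1 + 2 * per W2
  · obtain ⟨q, rfl⟩ : ∃ q, p = m + 1 + q := ⟨p - (m + 1), by omega⟩
    rw [e3 q (by omega)]; exact a2 q hp1 (by omega)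
  · obtain ⟨q, rfl⟩ : ∃ q, p = q + 2 * per W2 + 2 := ⟨p - (2 * per W2 + 2), by omega⟩
    rw [e4 q (by omega) (by omega)]; exact a1 q (by omega) (by omega)

theorem arc_out {m π : ℕ} {t W1 W2 : Mp} {K v : ℝ} (I : BrV m t W1 W2) (hm : π ≤ m)
    (h : Arc W1 π K v) : Arc t π K v := by
  obtain ⟨f, h1, h2, h3, h4, h5⟩ := h
  obtain ⟨E, e1, e2, e3, e4⟩ := I.ex
  have hp := I.isBr.per_eq
  have hl := I.isBr.le
  refine ⟨fun x => Sum.elim f (fun _ => 0) (E x), fun x => ?_, ?_, ?_, ?_, ?_⟩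
  · beta_reduce
    rcases E x with y | y
    · exact h1 y
    · exact ⟨le_rfl, zero_le_one⟩
  · exact xarcdet_bdry hp E e2 e3 e4 hl f _ (fun p a b => h2 p (by omega) b) fun _ _ _ => rfl
  · rw [e1 (Sum.elim f fun _ => 0)]
    simp only [Sum.elim_inl, Sum.elim_inr, energy_const, h2 m hm hl]
    simpa using h3
  · refine le_trans (le_of_eq (sum_congr rfl fun p hp1 => ?_)) h4
    have := mem_range.1 hp1
    simp only [e2 p (by omega), Sum.elim_inl]
  · rw [xarcdet_supp_sum, xarcdet_supp_zero]; simpa using h5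

theorem arc_hit {m π : ℕ} {t W1 W2 : Mp} {K v K' v' : ℝ} (I : BrV m t W1 W2) (hm : m < π)
    (hπ : π ≤ m + 2 * per W2 + 1) (h1 : Arc W1 m K v) (h2 : Arc W2 (π - m - 1) K' v') :
    Arc t π (K + K') (v + v') := by
  obtain ⟨f, a1, a2, a3, a4, a5⟩ := h1
  obtain ⟨g, b1, b2, b3, b4, b5⟩ := h2
  obtain ⟨E, e1, e2, e3, e4⟩ := I.ex
  have hp := I.isBr.per_eq
  have hl := I.isBr.le
  refine ⟨fun x => Sum.elim f g (E x), fun x => ?_, ?_, ?_, ?_, ?_⟩
  · beta_reduce
    rcases E x with y | y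
    · exact a1 y
    · exact b1 y
  · exact xarcdet_bdry hp E e2 e3 e4 hl f g (fun p a b => a2 p (by omega) b)
      fun p a b => b2 p (by omega) b
  · have hg : g (bv W2 0) = 0 := by
      rw [← bv_end W2 I.isBr.ok_2]; exact b2 _ (by omega) le_rfl
    rw [e1 (Sum.elim f g)]
    simp only [Sum.elim_inl, Sum.elim_inr, a2 m le_rfl hl, hg]
    have : energy W1 f + energy W2 g ≤ K + K' := add_le_add a3 b3
    simpa using this
  · rw [show π + 1 = (m + 1) + (π - m - 1 + 1) by omega, sum_range_add]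
    refine add_le_add (le_trans (le_of_eq (sum_congr rfl fun p hp1 => ?_)) a4)
      (le_trans (le_of_eq (sum_congr rfl fun p hp1 => ?_)) b4)
    · have := mem_range.1 hp1
      simp only [e2 p (by omega), Sum.elim_inl]
    · have := mem_range.1 hp1
      simp only [e3 p (by omega), Sum.elim_inr]
  · rw [xarcdet_supp_sum]; push_cast; exact add_le_add a5 b5

theorem maxdeg_face {k : ℕ} {t t' : Mp} {Δ : ℝ} (I : FaceV k t t') (h : MaxDeg t Δ) :
    MaxDeg t' Δ := by
  classical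
  obtain ⟨E, e1, -, -⟩ := I.ex
  intro x
  refine le_trans ?_ (h (E.symm x))
  have h1 := e1 (fun y => if y = x then 1 else 0)
  have h2 : dg t (E.symm x) = energy t (fun y => if E y = x then 1 else 0) := by
    unfold dg
    congr 1
    funext y
    simp only [Equiv.eq_symm_apply]
  have h3 : dg t' x = energy t' (fun y => if y = x then 1 else 0) := by
    unfold dg
    congr 1
  rw [h2, h3, h1]
  exact le_add_of_nonneg_right (sq_nonneg _)

theorem maxdeg_br {m : ℕ} {t W1 W2 : Mp} {Δ : ℝ} (I : BrV m t W1 W2) (h : MaxDeg t Δ) :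
    MaxDeg W1 Δ ∧ MaxDeg W2 Δ := by
  classical
  obtain ⟨E, e1, -, -, -⟩ := I.ex
  have h2 : ∀ x, dg t (E.symm x) = energy t (fun y => if E y = x then 1 else 0) := by
    intro x
    unfold dg
    congr 1
    funext y
    simp only [Equiv.eq_symm_apply]
  constructor
  · intro x
    refine le_trans ?_ (h (E.symm (Sum.inl x)))
    have h1 := e1 (fun y => if y = Sum.inl x then 1 else 0)
    have h3 : dg W1 x = energy W1 (fun y => if (Sum.inl y : V W1 ⊕ V W2) = Sum.inl x then 1 else 0) := by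
      unfold dg
      congr 1
      funext y
      simp only [Sum.inl.injEq]
    rw [h2, h3, h1, add_assoc]
    exact le_add_of_nonneg_right (add_nonneg (energy_nonneg _ _) (sq_nonneg _))
  · intro x
    refine le_trans ?_ (h (E.symm (Sum.inr x)))
    have h1 := e1 (fun y => if y = Sum.inr x then 1 else 0)
    have h3 : dg W2 x = energy W2 (fun y => if (Sum.inr y : V W1 ⊕ V W2) = Sum.inr x then 1 else 0) := by
      unfold dg
      congr 1
      funext y
      simp only [Sum.inr.injEq]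
    rw [h2, h3, h1, add_comm (energy W1 _), add_assoc]
    exact le_add_of_nonneg_right (add_nonneg (energy_nonneg _ _) (sq_nonneg _))

end Pool.Agent.P.MP_7a6434d8_pr
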