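import Pool.Agent.P.MP_7a6434d8_pr.XMom

namespace Pool.Agent.P.MP_7a6434d8_pr

open Mp Finset
open scoped ENNReal

theorem xtail_pow_le (s : ℝ) (h0 : 0 ≤ s) (h1 : s ≤ 1) (L : ℕ) :
    (1 - s) ^ L ≤ 1 - s * L + s ^ 2 * ((L : ℝ) * (L - 1)) / 2 := by
  induction L with
  | zero => simp
  | succ n ih =>
    have hn : (0 : ℝ) ≤ (n : ℝ) * (n - 1) := by
      rcases Nat.eq_zero_or_pos n with h | h
      · simp [h]
      · have : (1 : ℝ) ≤ n := by exact_mod_cast h
        exact mul_nonneg (by linarith) (by linarith)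
    have h2 : (1 - s) ^ (n + 1) ≤ (1 - s * n + s ^ 2 * ((n : ℝ) * (n - 1)) / 2) * (1 - s) := by
      rw [pow_succ]
      exact mul_le_mul_of_nonneg_right ih (by linarith)
    have h3 : 0 ≤ s ^ 3 * ((n : ℝ) * (n - 1)) := by positivity
    push_cast
    nlinarith

theorem size_tail (s : ℝ) (h0 : 0 < s) (h1 : s ≤ 1 / 2) (L : ℕ) :
    mass L (fun t => 2 / s ^ 2 ≤ (size t : ℝ)) ≤ 7 * (s * L) ^ 3 * Z L := by
  classical
  set σ : ℝ := s ^ 2 / (1 - s) ^ 2 with hσ
  have hs1 : 0 < 1 - s := by linarith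
  have hs2 : 0 < (1 - s) ^ 2 := by positivity
  have hσ0 : 0 ≤ σ := by positivity
  have hσ1 : σ ≤ 1 := by
    rw [hσ, div_le_one hs2]
    nlinarith
  have hσs : s ^ 2 ≤ σ := by
    rw [hσ, le_div_iff₀ hs2]
    have : (1 - s) ^ 2 ≤ 1 := by nlinarith
    nlinarith [sq_nonneg s]
  have hσ6 : σ ≤ s ^ 2 + 6 * s ^ 3 := by
    rw [hσ, div_le_iff₀ hs2]
    have h3 : 1 ≤ (1 + 6 * s) * (1 - s) ^ 2 := by
      have : 0 ≤ s * ((1 - 2 * s) * (4 - 3 * s)) :=
        mul_nonneg h0.le (mul_nonneg (by linarith) (by linarith))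
      nlinarith
    have h4 := mul_le_mul_of_nonneg_left h3 (sq_nonneg s)
    nlinarith
  have hZ := Z_pos L
  have hL0 : (0 : ℝ) ≤ L := Nat.cast_nonneg L
  have hpt : IE L (fun t => (if 2 / s ^ 2 ≤ (size t : ℝ) then (1 : ℝ≥0∞) else 0) + 1) ≤
      IE L (fun t => ENNReal.ofReal (1 - σ) ^ size t + ENNReal.ofReal σ * (size t : ℝ≥0∞)) := by
    refine IE_mono fun t _ _ => ?_
    have hx : (0 : ℝ) ≤ (1 - σ) ^ size t := pow_nonneg (by linarith) _
    have hS : (0 : ℝ) ≤ size t := Nat.cast_nonneg _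
    have e1 : ENNReal.ofReal (1 - σ) ^ size t + ENNReal.ofReal σ * (size t : ℝ≥0∞) =
        ENNReal.ofReal ((1 - σ) ^ size t + σ * size t) := by
      rw [ENNReal.ofReal_add hx (mul_nonneg hσ0 hS), ENNReal.ofReal_pow (by linarith),
        ENNReal.ofReal_mul hσ0, ENNReal.ofReal_natCast]
    rw [e1]
    split_ifs with h
    · have h2 : (2 : ℝ) ≤ s ^ 2 * size t := by
        rw [div_le_iff₀ (by positivity)] at h
        linarith
      have h3 : (2 : ℝ) ≤ (1 - σ) ^ size t + σ * size t := by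
        have := mul_le_mul_of_nonneg_right hσs hS
        linarith
      calc (1 : ℝ≥0∞) + 1 = ENNReal.ofReal 2 := by
            rw [ENNReal.ofReal_ofNat]
            norm_num
        _ ≤ _ := ENNReal.ofReal_le_ofReal h3
    · have h2 := one_add_mul_le_pow (a := -σ) (by linarith) (size t)
      have h3 : (1 : ℝ) ≤ (1 - σ) ^ size t + σ * size t := by
        rw [sub_eq_add_neg]
        linarith
      calc (0 : ℝ≥0∞) + 1 = ENNReal.ofReal 1 := by simp
        _ ≤ _ := ENNReal.ofReal_le_ofReal h3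
  rw [IE_add, IE_add, IE_ind, IE_const, IE_const_mul, one_mul] at hpt
  have hp := IE_pow s h0.le h1 L
  have hsz := IE_size L
  have hA : (0 : ℝ) ≤ (1 - s) ^ L * (1 + s * L) * Z L := by positivity
  have hB : (0 : ℝ) ≤ (L : ℝ) * (L + 1) / 2 * Z L := by positivity
  have h2 := hpt.trans (add_le_add hp (mul_le_mul' le_rfl hsz))
  rw [← ENNReal.ofReal_add (mass_nonneg _ _) hZ.le, ← ENNReal.ofReal_mul hσ0,
    ← ENNReal.ofReal_add hA (mul_nonneg hσ0 hB),
    ENNReal.ofReal_le_ofReal_iff (add_nonneg hA (mul_nonneg hσ0 hB))] at h2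
  have h3 : (1 - s) ^ L * (1 + s * L) + σ * ((L : ℝ) * (L + 1) / 2) - 1 ≤ 7 * (s * L) ^ 3 := by
    have a1 := xtail_pow_le s h0.le (by linarith) L
    have a2 := mul_le_mul_of_nonneg_right a1 (show (0 : ℝ) ≤ 1 + s * L by positivity)
    have a3 := mul_le_mul_of_nonneg_right hσ6
      (show (0 : ℝ) ≤ (L : ℝ) * (L + 1) / 2 by positivity)
    have a4 : (L : ℝ) ^ 2 ≤ (L : ℝ) ^ 3 ∧ (L : ℝ) ≤ (L : ℝ) ^ 3 := by
      rcases Nat.eq_zero_or_pos L with h | h
      · simp [h]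
      · have h' : (1 : ℝ) ≤ L := by exact_mod_cast h
        have b1 : (L : ℝ) ≤ (L : ℝ) ^ 2 := by nlinarith
        have b2 : (L : ℝ) ^ 2 ≤ (L : ℝ) ^ 3 := by nlinarith
        exact ⟨b2, b1.trans b2⟩
    have hs3 : 0 < s ^ 3 := by positivity
    have a5 := mul_le_mul_of_nonneg_left a4.1 hs3.le
    have a6 := mul_le_mul_of_nonneg_left a4.2 hs3.le
    have a7 : 0 ≤ s ^ 3 * (L : ℝ) ^ 2 := by positivity
    have a8 : 0 ≤ s ^ 3 * (L : ℝ) ^ 3 := by positivity
    nlinarith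
  have h4 := mul_le_mul_of_nonneg_right h3 hZ.le
  nlinarith

theorem big_tail : ∃ C : ℝ, 0 < C ∧ ∀ L m : ℕ, 1 ≤ m →
    mass L (fun t => m < edges t) ≤ C * 8 ^ L / ((m : ℝ) * √(√(m : ℝ))) := by
  obtain ⟨c, C0, _, hC0, hw⟩ := w_bounds
  refine ⟨1296 * C0, by positivity, fun L m hm => ?_⟩
  have hm1 : (1 : ℝ) ≤ m := by exact_mod_cast hm
  have hL0 : (0 : ℝ) ≤ L := Nat.cast_nonneg L
  set r : ℝ := √(m : ℝ) with hr
  set q : ℝ := √r with hq
  set u : ℝ := √((L : ℝ) + 1) with hu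
  have hr1 : 1 ≤ r := Real.one_le_sqrt.2 hm1
  have hq1 : 1 ≤ q := Real.one_le_sqrt.2 hr1
  have hu1 : 1 ≤ u := Real.one_le_sqrt.2 (by linarith)
  have hrr : r * r = m := Real.mul_self_sqrt (by linarith)
  have hqq : q * q = r := Real.mul_self_sqrt (by linarith)
  have huu : u * u = L + 1 := Real.mul_self_sqrt (by linarith)
  have hwL := (hw L).2
  rw [← hu] at hwL
  clear_value u q r
  clear hw hu hq hr
  have hw0 := w_pos L
  have h8 : (0 : ℝ) < 8 ^ L := by positivity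
  have hmq : (0 : ℝ) < m * q := by positivity
  rw [le_div_iff₀ hmq]
  have easy : w L * (m * q) ≤ 1296 * C0 →
      mass L (fun t => m < edges t) * (m * q) ≤ 1296 * C0 * 8 ^ L := by
    intro h
    have h1 := mul_le_mul_of_nonneg_right (mass_le_Z L (fun t => m < edges t)) hmq.le
    rw [Z_eq_w] at h1
    have h2 := mul_le_mul_of_nonneg_right h h8.le
    nlinarith
  by_cases hsmall : (m : ℝ) ≤ 36
  · refine easy ?_
    have h1 : q ≤ 36 := by nlinarith
    have h2 : m * q ≤ 1296 := by nlinarith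
    have h3 : 1 ≤ ((L : ℝ) + 1) ^ 2 * u := by nlinarith
    have h4 : w L ≤ C0 := by nlinarith
    nlinarith
  by_cases hbig : (m : ℝ) ≤ 4 * ((L : ℝ) + 1) ^ 2
  · refine easy ?_
    have h1 : r ≤ 2 * (L + 1) := by
      by_contra h
      push Not at h
      nlinarith
    have h2 : q ≤ 2 * u := by
      by_contra h
      push Not at h
      nlinarith
    have h3 : m * q ≤ 8 * (((L : ℝ) + 1) ^ 2 * u) := by
      have := mul_le_mul hbig h2 (by linarith) (by positivity)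
      linarith
    have h4 := mul_le_mul_of_nonneg_left h3 hw0.le
    nlinarith
  push Not at hsmall hbig
  have hr6 : 6 ≤ r := by
    by_contra h
    push Not at h
    nlinarith
  have hr0 : 0 < r := by linarith
  have hst := size_tail (3 / r) (by positivity) (by
    rw [div_le_div_iff₀ hr0 (by norm_num)]
    linarith) L
  have hmono : mass L (fun t => m < edges t) ≤
      mass L (fun t => 2 / (3 / r) ^ 2 ≤ (size t : ℝ)) := by
    refine mass_mono fun t ht hp h => ?_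
    have e1 := edges_eq t ht
    rw [hp] at e1
    have e2 : (m : ℝ) < 2 * size t + L := by
      rw [e1] at h
      exact_mod_cast h
    have e3 : 2 / (3 / r) ^ 2 = 2 * m / 9 := by
      rw [← hrr]
      field_simp
      norm_num
    rw [e3]
    nlinarith
  have huq : u ≤ q := by
    have h1 : (L : ℝ) + 1 ≤ r := by
      by_contra h
      push Not at h
      nlinarith
    by_contra h
    push Not at h
    nlinarith
  have hwq : w L * (L : ℝ) ^ 3 ≤ C0 * q := by
    have h1 : (L : ℝ) ^ 3 ≤ ((L : ℝ) + 1) ^ 2 * u * u := by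
      rw [mul_assoc, huu]
      nlinarith [sq_nonneg (L : ℝ)]
    have h2 := mul_le_mul_of_nonneg_left h1 hw0.le
    have h3 := mul_le_mul hwL huq (by linarith) hC0.le
    nlinarith
  have e4 : 7 * (3 / r * L) ^ 3 * Z L * (m * q) = 189 * (w L * (L : ℝ) ^ 3) / q * 8 ^ L := by
    rw [Z_eq_w, ← hrr, ← hqq]
    field_simp
    ring
  have h5 : 189 * (w L * (L : ℝ) ^ 3) / q ≤ 1296 * C0 := by
    rw [div_le_iff₀ (by linarith)]
    have : 0 ≤ C0 * q := by positivity
    nlinarith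
  calc mass L (fun t => m < edges t) * (m * q)
      ≤ 7 * (3 / r * L) ^ 3 * Z L * (m * q) :=
        mul_le_mul_of_nonneg_right (hmono.trans hst) hmq.le
    _ = 189 * (w L * (L : ℝ) ^ 3) / q * 8 ^ L := e4
    _ ≤ 1296 * C0 * 8 ^ L := mul_le_mul_of_nonneg_right h5 h8.le

end Pool.Agent.P.MP_7a6434d8_pr
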