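import Pool.Agent.P.MP_7a6434d8_pr.XArcNum
import Pool.Agent.P.MP_7a6434d8_pr.XArcDet
import Pool.Agent.P.MP_7a6434d8_pr.XTail
import Pool.Agent.P.MP_7a6434d8_pr.Peel

namespace Pool.Agent.P.MP_7a6434d8_pr

open Mp Finset
open scoped ENNReal

/-- the supermartingale bound -/
noncomputable def arcbM (g : ℕ → ℝ) (κ ε q : ℝ) (L π : ℕ) : ℝ :=
  q * g (2 * L - π) * 8 ^ L + κ * 8 ^ L + ε * (Bv L * Z L)

/-- the bad event -/
def arcbBad (Δ K v : ℝ) (π : ℕ) (t : Mp) : Prop := MaxDeg t Δ ∧ ¬ Arc t π K v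

theorem arcb_Bv (L : ℕ) : 0 ≤ Bv L := by unfold Bv; positivity

theorem arcb_MZ (g : ℕ → ℝ) (κ ε q : ℝ) {L i j : ℕ} (h : i + j + 1 = L) (π : ℕ) :
    arcbM g κ ε q i π * Z j = q * 8 ^ L * (w j / 8 * g (2 * i - π)) + κ * 8 ^ L * (w j / 8)
      + ε * (Bv i * (Z i * Z j)) := by
  subst h
  unfold arcbM
  rw [Z_eq_w j]
  ring

theorem arcb_sum3 (s : Finset ℕ) (a b c : ℝ) (X f h u : ℕ → ℝ)
    (H : ∀ j ∈ s, X j ≤ a * f j + b * h j + c * u j) :
    ∑ j ∈ s, X j ≤ a * ∑ j ∈ s, f j + b * ∑ j ∈ s, h j + c * ∑ j ∈ s, u j := by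
  rw [mul_sum, mul_sum, mul_sum, ← sum_add_distrib, ← sum_add_distrib]
  exact sum_le_sum H

theorem arcb_out {g : ℕ → ℝ} {κ ε q : ℝ} (hε : 0 ≤ ε) {L π b r : ℕ} (hb : π + b = 2 * L)
    (hr : 2 * r ≤ b) {X : ℕ → ℝ} (h : ∀ j, j < r → X j ≤ arcbM g κ ε q (L - 1 - j) π * Z j) :
    ∑ j ∈ range r, X j ≤ q * 8 ^ L * ∑ j ∈ range r, w j / 8 * g (b - 2 * j - 2)
      + κ * 8 ^ L / 8 * ∑ j ∈ range r, w j
      + ε * ∑ j ∈ range r, (Bv (L - 1 - j) + Bv j) * (Z (L - 1 - j) * Z j) := by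
  refine arcb_sum3 _ _ _ _ _ _ _ _ fun j hj => (h j (mem_range.1 hj)).trans ?_
  have hj' := mem_range.1 hj
  rw [arcb_MZ g κ ε q (L := L) (by omega), show 2 * (L - 1 - j) - π = b - 2 * j - 2 by omega]
  have := mul_nonneg hε (mul_nonneg (arcb_Bv j) (mul_pos (Z_pos (L - 1 - j)) (Z_pos j)).le)
  linarith

theorem arcb_Ico (l n : ℕ) (h : l ≤ n) :
    ∑ j ∈ Ico l n, w j ≤ (2 * (l : ℝ) + 4) / 3 * w l := by
  have h1 := sum_range_add_sum_Ico w h
  rw [sum_w, sum_w] at h1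
  have h2 : 0 ≤ (2 * (n : ℝ) + 4) / 3 * w n := mul_nonneg (by positivity) (w_pos n).le
  linarith

theorem arcb_refl {L l n r : ℕ} (h : l ≤ n) (h' : r + n = L) :
    ∑ j ∈ Ico l n, w (L - 1 - j) = ∑ j ∈ Ico r (L - l), w j := by
  refine sum_bij' (fun j _ => L - 1 - j) (fun j _ => L - 1 - j) ?_ ?_ ?_ ?_ ?_ <;>
    intro j hj <;> simp only [mem_Ico] at hj ⊢ <;> omega

theorem arcb_range {m n : ℕ} (h : m ≤ n) : ∑ j ∈ range m, w j ≤ ∑ j ∈ range n, w j :=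
  sum_le_sum_of_subset_of_nonneg (range_subset_range.2 h) fun j _ _ => (w_pos j).le

theorem arcb_step {g : ℕ → ℝ} {κ ε q E : ℝ} (hg : ∀ b, 0 < g b) (hκ : 0 ≤ κ) (hε : 0 ≤ ε)
    (hq : 0 ≤ q) (hE : 0 ≤ E) {L π b : ℕ} (hb : π + b = 2 * L) (hb1 : 1 ≤ b)
    (hnum : 2 / 3 * g (b + 2)
      + ∑ j ∈ range ((b - b / 2) / 2), w j / 8 * g (b - 2 * j - 2)
      + ∑ j ∈ range ((b / 2 + 1) / 2), w j / 8 * g (b - 2 * j - 2)
      + E * ((2 * (((b / 2 + 1) / 2 : ℕ) : ℝ) + 4) / 3 * w ((b / 2 + 1) / 2) / 8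
            * g (b - b / 2 - 1)
          + (2 * (((b - b / 2) / 2 : ℕ) : ℝ) + 4) / 3 * w ((b - b / 2) / 2) / 8 * g (b / 2))
      ≤ g b) {X0 : ℝ} {X1 X2 : ℕ → ℝ} (h0 : X0 ≤ arcbM g κ ε q (L + 1) π)
    (h1 : ∀ j, j < (b - b / 2) / 2 → X1 j ≤ arcbM g κ ε q (L - 1 - j) π * Z j)
    (h2 : ∀ j, j < (b / 2 + 1) / 2 → X2 j ≤ arcbM g κ ε q (L - 1 - j) π * Z j)
    (h3 : ∀ j, (b / 2 + 1) / 2 ≤ j → j < (π + b / 2 + 1) / 2 →
      X2 j ≤ arcbM g κ ε (E * q) (L - 1 - j) (π + b / 2 - 2 * j - 1) * Z j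
        + arcbM g κ ε (E * q) j (π - (π + b / 2 - 2 * j - 1) - 1) * Z (L - 1 - j)
        + (κ * 8 ^ L * (w L / 8) + ε * (Z (L - 1 - j) * Z j))) :
    X0 / 12 + ∑ j ∈ range ((2 * L - (π + b / 2)) / 2), X1 j
      + ∑ j ∈ range ((π + b / 2 + 1) / 2), X2 j ≤ arcbM g κ ε q L π := by
  have hk : π + b / 2 < 2 * L := by omega
  have eB := Bv_at L _ hk
  have eZ := tutte_at L _ hk
  rw [show 2 * L - (π + b / 2) = b - b / 2 by omega] at eB eZ ⊢
  have a1 := arcb_out hε hb (by omega) h1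
  have a2 := arcb_out hε hb (by omega) h2
  have hln : (b / 2 + 1) / 2 ≤ (π + b / 2 + 1) / 2 := by omega
  have hrn : (b - b / 2) / 2 + (π + b / 2 + 1) / 2 = L := by omega
  have a3 : ∑ j ∈ Ico ((b / 2 + 1) / 2) ((π + b / 2 + 1) / 2), X2 j
      ≤ (E * q * 8 ^ L * g (b - b / 2 - 1) / 8 + κ * 8 ^ L / 8)
          * ∑ j ∈ Ico ((b / 2 + 1) / 2) ((π + b / 2 + 1) / 2), w j
        + (E * q * 8 ^ L * g (b / 2) / 8 + κ * 8 ^ L / 8)
          * ∑ j ∈ Ico ((b / 2 + 1) / 2) ((π + b / 2 + 1) / 2), w (L - 1 - j)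
        + 1 * ∑ j ∈ Ico ((b / 2 + 1) / 2) ((π + b / 2 + 1) / 2), (κ * 8 ^ L * (w L / 8)
          + ε * ((Bv (L - 1 - j) + Bv j) * (Z (L - 1 - j) * Z j)) + ε * (Z (L - 1 - j) * Z j)) := by
    refine arcb_sum3 _ _ _ _ _ _ _ _ fun j hj => ?_
    have hj' := mem_Ico.1 hj
    refine (h3 j hj'.1 hj'.2).trans (le_of_eq ?_)
    rw [arcb_MZ g κ ε _ (L := L) (by omega), arcb_MZ g κ ε _ (L := L) (by omega),
      show 2 * (L - 1 - j) - (π + b / 2 - 2 * j - 1) = b - b / 2 - 1 by omega,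
      show 2 * j - (π - (π + b / 2 - 2 * j - 1) - 1) = b / 2 by omega]
    ring
  rw [sum_add_distrib, sum_add_distrib, ← mul_sum, ← mul_sum, ← mul_sum, sum_const, Nat.card_Ico,
    nsmul_eq_mul, arcb_refl hln hrn] at a3
  rw [← sum_range_add_sum_Ico _ hln] at eB eZ ⊢
  have w3 := arcb_Ico _ _ hln
  have w4 := arcb_Ico ((b - b / 2) / 2) (L - (b / 2 + 1) / 2) (by omega)
  have w23 := arcb_range (show (π + b / 2 + 1) / 2 ≤ L by omega)
  have w14 := arcb_range (show L - (b / 2 + 1) / 2 ≤ L by omega)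
  rw [← sum_range_add_sum_Ico w hln, sum_w L] at w23
  rw [← sum_range_add_sum_Ico w (show (b - b / 2) / 2 ≤ L - (b / 2 + 1) / 2 by omega),
    sum_w L] at w14
  have hc : (((π + b / 2 + 1) / 2 - (b / 2 + 1) / 2 : ℕ) : ℝ) ≤ L := Nat.cast_le.2 (by omega)
  have z1 : 0 ≤ ∑ j ∈ range ((b - b / 2) / 2), Z (L - 1 - j) * Z j :=
    sum_nonneg fun j _ => (mul_pos (Z_pos _) (Z_pos _)).le
  have z2 : 0 ≤ ∑ j ∈ range ((b / 2 + 1) / 2), Z (L - 1 - j) * Z j :=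
    sum_nonneg fun j _ => (mul_pos (Z_pos _) (Z_pos _)).le
  have z3 := Z_pos (L + 1)
  unfold arcbM at h0 ⊢
  rw [show 2 * (L + 1) - π = b + 2 by omega, pow_succ] at h0
  rw [show 2 * L - π = b by omega]
  have hT : (0 : ℝ) < 8 ^ L := by positivity
  have hwL := w_pos L
  have hL0 : (0 : ℝ) ≤ L := Nat.cast_nonneg L
  generalize (((π + b / 2 + 1) / 2 - (b / 2 + 1) / 2 : ℕ) : ℝ) = n at *
  generalize ∑ j ∈ Ico ((b / 2 + 1) / 2) ((π + b / 2 + 1) / 2), w j = W3 at *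
  generalize ∑ j ∈ Ico ((b - b / 2) / 2) (L - (b / 2 + 1) / 2), w j = W4 at *
  generalize ∑ j ∈ range ((b - b / 2) / 2), w j = W1 at *
  generalize ∑ j ∈ range ((b / 2 + 1) / 2), w j = W2 at *
  generalize (8 : ℝ) ^ L = T at *
  have p1 := mul_le_mul_of_nonneg_left hnum (mul_nonneg hq hT.le)
  have p2 := mul_le_mul_of_nonneg_left w3
    (mul_nonneg (mul_nonneg (mul_nonneg hE hq) hT.le) (hg (b - b / 2 - 1)).le)
  have p3 := mul_le_mul_of_nonneg_left w4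
    (mul_nonneg (mul_nonneg (mul_nonneg hE hq) hT.le) (hg (b / 2)).le)
  have p4 : 2 / 3 + (W1 + W2 + W3 + W4) / 8 + n * (w L / 8) ≤ 1 := by nlinarith
  have p5 := mul_le_mul_of_nonneg_left p4 (mul_nonneg hκ hT.le)
  have p6 : Bv (L + 1) * Z (L + 1) / 12
      + ∑ j ∈ range ((b - b / 2) / 2), (Bv (L - 1 - j) + Bv j) * (Z (L - 1 - j) * Z j)
      + ∑ j ∈ range ((b / 2 + 1) / 2), (Bv (L - 1 - j) + Bv j) * (Z (L - 1 - j) * Z j)
      + ∑ j ∈ Ico ((b / 2 + 1) / 2) ((π + b / 2 + 1) / 2),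
          (Bv (L - 1 - j) + Bv j) * (Z (L - 1 - j) * Z j)
      + ∑ j ∈ Ico ((b / 2 + 1) / 2) ((π + b / 2 + 1) / 2), Z (L - 1 - j) * Z j ≤ Bv L * Z L := by
    linarith
  have p7 := mul_le_mul_of_nonneg_left p6 hε
  linarith

theorem arcb_double {C cw D β ε ρ Δ K v : ℝ} {a m2 : ℕ} (hC0 : 0 < C) (hD : 0 < D) (hcw0 : 0 < cw)
    (hβ : 0 ≤ β) (hε : 0 ≤ ε) (hC : ∀ L, mass L (fun t => m2 < edges t) ≤ C * 8 ^ L / D)
    (hcw : ∀ L L' : ℕ, L' ≤ 2 * (L + 1) → cw * w L ≤ w L')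
    (stop : ∀ t π, ok t → π ≤ 2 * per t → MaxDeg t Δ → edges t ≤ m2 → ¬ Far t {0} {π} ρ →
      Arc t π K v) (near : NearHyp a ρ ε) (hyp : ArcHyp Δ a K v β) {i j L π1 π2 : ℕ}
    (hL : i + j + 1 = L) (h1 : π1 ≤ a) (h1' : π1 ≤ 2 * i) (h2 : π2 ≤ a) (h2' : π2 ≤ 2 * j) :
    mass i (arcbBad Δ K v π1) * mass j (arcbBad Δ K v π2)
      ≤ C / cw * (β / D) * 8 ^ L * (w L / 8) + ε * (Z i * Z j) := by
  wlog hij : j ≤ i generalizing i j π1 π2
  · rw [mul_comm (mass _ _), mul_comm (Z i)]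
    exact this (by omega) h2 h2' h1 h1' (by omega)
  have b1 : mass i (arcbBad Δ K v π1) ≤ β * Z i := hyp i π1 h1 h1'
  have b2 := mass_le_Z i (arcbBad Δ K v π1)
  have b3 : mass j (arcbBad Δ K v π2) ≤ C * 8 ^ j / D + ε * Z j := by
    refine (mass_le_add (ψ := fun t => m2 < edges t) (χ := fun t => Far t {0} {π2} ρ)
      fun t ht hp h => ?_).trans (add_le_add (hC j) (near j 0 π2 (by omega) h2' (by omega) (by omega)))
    by_contra h0
    rw [not_or, not_lt] at h0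
    exact h.2 (stop t π2 ht (by omega) h.1 h0.1 h0.2)
  have b4 : w i ≤ w L / cw := by
    rw [le_div_iff₀ hcw0, mul_comm]
    exact hcw i L (by omega)
  have c1 := mul_le_mul_of_nonneg_left b3 (mass_nonneg i (arcbBad Δ K v π1))
  have c2 := mul_le_mul_of_nonneg_right b1 (show 0 ≤ C * 8 ^ j / D by positivity)
  have c3 := mul_le_mul_of_nonneg_right b2 (mul_nonneg hε (Z_pos j).le)
  have c4 := mul_le_mul_of_nonneg_right b4 (show 0 ≤ β * 8 ^ i * (C * 8 ^ j / D) by positivity)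
  have c5 : w L / cw * (β * 8 ^ i * (C * 8 ^ j / D)) = C / cw * (β / D) * 8 ^ L * (w L / 8) := by
    rw [← hL]
    ring
  have c6 : β * Z i * (C * 8 ^ j / D) = w i * (β * 8 ^ i * (C * 8 ^ j / D)) := by
    rw [Z_eq_w i]
    ring
  linarith

theorem arcb_hit {Δ K v K' v' : ℝ} {m π : ℕ} {t W1 W2 : Mp} (I : BrV m t W1 W2) (hm : m < π)
    (hπ : π ≤ m + 2 * per W2 + 1) (h : arcbBad Δ (K + K') (v + v') π t) :
    (arcbBad Δ K v m W1 ∨ arcbBad Δ K v (π - m - 1) W2) ∨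
      (arcbBad Δ K' v' m W1 ∧ arcbBad Δ K' v' (π - m - 1) W2) := by
  obtain ⟨d1, d2⟩ := maxdeg_br I h.1
  by_cases a1 : Arc W1 m K v
  · by_cases a2 : Arc W2 (π - m - 1) K v
    · refine Or.inr ⟨⟨d1, fun a3 => h.2 ?_⟩, d2, fun a3 => h.2 (arc_hit I hm hπ a1 a3)⟩
      exact (arc_hit I hm hπ a3 a2).mono (by linarith) (by linarith)
    · exact Or.inl (Or.inr ⟨d2, a2⟩)
  · exact Or.inl (Or.inl ⟨d1, a1⟩)

theorem arc_b : ∃ (c A K0 : ℝ), 0 < c ∧ 0 < A ∧ 0 < K0 ∧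
    ∀ (a m2 : ℕ) (Δ K1 v1 β ε ρ : ℝ), 1 ≤ m2 → K0 ≤ K1 → 0 ≤ v1 → 0 ≤ β → 0 ≤ ε →
    (∀ t π, ok t → π ≤ 2 * per t → MaxDeg t Δ → edges t ≤ m2 → ¬ Far t {0} {π} ρ →
      Arc t π K1 v1) →
    NearHyp a ρ ε → ArcHyp Δ a K1 v1 β →
    ∀ y L π : ℕ, 1 ≤ y → π ≤ a → π ≤ 2 * L →
      mass L (fun t => MaxDeg t Δ ∧ ¬ Arc t π (y * K1) (y * v1))
        ≤ A * (Real.exp (-(c * y)) + β / ((m2 : ℝ) * √(√(m2 : ℝ)))) * 8 ^ L
          + ε * (Bv L * Z L) := by
  obtain ⟨c, A0, b0, g, hc, hA0, hb0, hg, hg1, hwg, hsmall, hnum⟩ := arc_num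
  obtain ⟨C, hC0, hC⟩ := big_tail
  obtain ⟨cw, hcw0, hcw⟩ := w_doubling 2
  refine ⟨c, A0 * Real.exp c + C / cw, b0 + 1, hc, by positivity, by positivity, ?_⟩
  intro a m2 Δ K1 v1 β ε ρ hm2 hK hv hβ hε stop near hyp
  have hm2' : (0 : ℝ) < m2 := Nat.cast_pos.2 hm2
  have hD : (0 : ℝ) < (m2 : ℝ) * √(√(m2 : ℝ)) := by positivity
  have hC' := fun L => hC L m2 hm2
  generalize (m2 : ℝ) * √(√(m2 : ℝ)) = D at hD hC' ⊢
  have hκ : 0 ≤ C / cw * (β / D) := by positivity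
  have hb0' : (0 : ℝ) ≤ b0 := Nat.cast_nonneg b0
  have pos : ∀ q L π, 0 ≤ q → 0 ≤ arcbM g (C / cw * (β / D)) ε q L π := fun q L π hq => by
    have h1 := hg (2 * L - π)
    have h2 := arcb_Bv L
    have h3 := Z_pos L
    unfold arcbM
    positivity
  have key : ∀ n L π : ℕ, π ≤ a → π ≤ 2 * L →
      mass L (arcbBad Δ (((n : ℝ) + 1) * K1) (((n : ℝ) + 1) * v1) π)
        ≤ arcbM g (C / cw * (β / D)) ε (A0 * Real.exp (-(c * n))) L π := by
    intro n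
    induction n with
    | zero =>
      intro L π _ _
      refine (mass_le_Z L _).trans ?_
      have h1 := mul_le_mul_of_nonneg_right (hwg L (2 * L - π) (by omega))
        (show (0 : ℝ) ≤ 8 ^ L by positivity)
      have h2 : 0 ≤ C / cw * (β / D) * 8 ^ L := by positivity
      have h3 := mul_nonneg hε (mul_nonneg (arcb_Bv L) (Z_pos L).le)
      unfold arcbM
      rw [Nat.cast_zero, mul_zero, neg_zero, Real.exp_zero, mul_one, ← Z_eq_w] at *
      linarith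
    | succ n ih =>
      intro L π hπa hπ
      have hn : (0 : ℝ) ≤ n := Nat.cast_nonneg n
      have hq : 0 ≤ A0 * Real.exp (-(c * ((n + 1 : ℕ) : ℝ))) := by positivity
      have eq : A0 * Real.exp (-(c * n))
          = Real.exp c * (A0 * Real.exp (-(c * ((n + 1 : ℕ) : ℝ)))) := by
        rw [mul_left_comm, ← Real.exp_add]
        congr 2
        push_cast
        ring
      rw [eq] at ih
      generalize A0 * Real.exp (-(c * ((n + 1 : ℕ) : ℝ))) = q at hq ih ⊢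
      rw [Nat.cast_succ, add_mul ((n : ℝ) + 1), add_mul ((n : ℝ) + 1), one_mul, one_mul]
      have hK' : 0 ≤ ((n : ℝ) + 1) * K1 := mul_nonneg (by linarith) (by linarith)
      have hv' : 0 ≤ ((n : ℝ) + 1) * v1 := mul_nonneg (by linarith) hv
      generalize ((n : ℝ) + 1) * K1 = K at hK' ih ⊢
      generalize ((n : ℝ) + 1) * v1 = v at hv' ih ⊢
      by_cases hπb : π ≤ b0
      · refine (mass_eq_zero fun t _ _ h => h.2 ((arc_triv t π).mono ?_ (by linarith))).trans_le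
          (pos q L π hq)
        have : (π : ℝ) ≤ b0 := Nat.cast_le.2 hπb
        linarith
      refine mass_le_of_massN fun N => ?_
      induction N generalizing L with
      | zero => exact (massN_zero _ _).trans_le (pos q L π hq)
      | succ N ihN =>
        obtain ⟨b, hb⟩ : ∃ b, π + b = 2 * L := ⟨2 * L - π, by omega⟩
        by_cases hbb : b < b0
        · refine (massN_le_mass _ _ _).trans ((mass_mono (ψ := arcbBad Δ K v (π - b0))
            fun t _ _ h => ⟨h.1, fun h2 => h.2 ((arc_shrink (by omega) h2).mono (by linarith)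
              (by linarith))⟩).trans ((ih L (π - b0) (by omega) (by omega)).trans ?_))
          unfold arcbM
          rw [show 2 * L - (π - b0) = b + b0 by omega, show 2 * L - π = b by omega]
          have := mul_le_mul_of_nonneg_left (hsmall b hbb)
            (mul_nonneg hq (show (0 : ℝ) ≤ 8 ^ L by positivity))
          linarith
        have hk : π + b / 2 < 2 * L := by omega
        refine (peel_le N L _ hk _).trans (arcb_step hg hκ hε hq (Real.exp_pos c).le hb (by omega)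
          (hnum b (by omega)) ?_ (fun j hj => ?_) (fun j hj => ?_) fun j hj hj' => ?_)
        · refine (massN_mono fun t ht hp h => ?_).trans (ihN (L + 1) (by omega))
          have I := faceV_faceAt (π + b / 2) t ht (by omega)
          exact ⟨maxdeg_face I h.1, fun h2 => h.2 (arc_face I (by omega) h2)⟩
        · refine (mass2N_le_outer fun W1 W2 h1 p1 h2 p2 h => ?_).trans
            (mul_le_mul_of_nonneg_right (ihN (L - 1 - j) (by omega)) (Z_pos j).le)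
          have I := brV_brR (π + b / 2) W1 W2 h1 h2 (by omega)
          exact ⟨(maxdeg_br I h.1).1, fun h3 => h.2 (arc_out I (by omega) h3)⟩
        · refine (mass2N_le_outer fun W1 W2 h1 p1 h2 p2 h => ?_).trans
            (mul_le_mul_of_nonneg_right (ihN (L - 1 - j) (by omega)) (Z_pos j).le)
          have I := brV_brL (π + b / 2 - 2 * j - 1) W1 W2 h1 h2 (by omega)
          exact ⟨(maxdeg_br I h.1).1, fun h3 => h.2 (arc_out I (by omega) h3)⟩
        · refine (mass2N_le_mass2 _ _ _ _).trans ((mass2_le_add fun W1 W2 h1 p1 h2 p2 h =>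
            arcb_hit (brV_brL (π + b / 2 - 2 * j - 1) W1 W2 h1 h2 (by omega)) (by omega)
              (by omega) h).trans (add_le_add ((mass2_le_split fun _ _ _ _ _ _ h => h).trans
                (add_le_add ?_ ?_)) ?_))
          · exact mul_le_mul_of_nonneg_right (ih _ _ (by omega) (by omega)) (Z_pos j).le
          · rw [mul_comm]
            exact mul_le_mul_of_nonneg_right (ih _ _ (by omega) (by omega)) (Z_pos _).le
          · rw [massc_prod]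
            exact arcb_double hC0 hD hcw0 hβ hε hC' hcw stop near hyp (by omega) (by omega)
              (by omega) (by omega) (by omega)
  intro y L π hy hπa hπ
  obtain ⟨n, rfl⟩ : ∃ n, y = n + 1 := ⟨y - 1, by omega⟩
  have h1 := key n L π hπa hπ
  rw [← Nat.cast_succ] at h1
  refine le_trans h1 ?_
  unfold arcbM
  have e1 : Real.exp (-(c * n)) = Real.exp c * Real.exp (-(c * ((n + 1 : ℕ) : ℝ))) := by
    rw [← Real.exp_add]
    congr 1
    push_cast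
    ring
  rw [e1]
  have hT : (0 : ℝ) < 8 ^ L := by positivity
  have h2 := mul_le_mul_of_nonneg_left (hg1 (2 * L - π))
    (show 0 ≤ A0 * (Real.exp c * Real.exp (-(c * ((n + 1 : ℕ) : ℝ)))) * 8 ^ L by positivity)
  have h3 : 0 ≤ C / cw * Real.exp (-(c * ((n + 1 : ℕ) : ℝ))) * 8 ^ L := by positivity
  have h4 : 0 ≤ A0 * Real.exp c * (β / D) * 8 ^ L := by positivity
  linarith

end Pool.Agent.P.MP_7a6434d8_pr
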