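import Pool.Agent.P.MP_7a6434d8_pr.CutNum
import Pool.Agent.P.MP_7a6434d8_pr.Peel
import Pool.Agent.P.MP_7a6434d8_pr.XV
import Pool.Agent.P.MP_7a6434d8_pr.Cut

namespace Pool.Agent.P.MP_7a6434d8_pr

open Mp Finset
open scoped ENNReal

theorem cutG : ∃ C : ℝ, 0 < C ∧ ∀ (π0 Λ : ℕ) (β η : ℝ) (φ : Mp → Prop) (χ : ℕ → Mp → Prop),
    4 * π0 ≤ Λ → 1 ≤ Λ → 0 ≤ β → 0 ≤ η →
    (∀ L π, π ≤ π0 → π ≤ 2 * L → mass L (χ π) ≤ β * Z L) →
    (∀ k t t', FaceV k t t' → π0 ≤ k → φ t → φ t') →
    (∀ m t W1 W2, BrV m t W1 W2 → π0 ≤ m → φ t → φ W1) →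
    (∀ m t W1 W2, BrV m t W1 W2 → m < π0 → π0 ≤ m + 2 * per W2 + 1 → φ t →
      χ m W1 ∨ χ (π0 - m - 1) W2) →
    (∀ L, L ≤ Λ → π0 ≤ 2 * L → mass L φ ≤ η * Z L) →
    ∀ L, π0 ≤ 2 * L → mass L φ ≤ (η + C * β * ((π0 : ℝ) + 1) / Λ) * Z L := by
  obtain ⟨C0, hC0, hnum⟩ := cut_num
  refine ⟨8 * C0, by positivity, ?_⟩
  intro π0 Λ β η E χ hΛ hΛ1 hβ hη hnear hF1 hF2 hF3 hyp
  obtain ⟨L0, hL0⟩ : ∃ L0, L0 = Λ / 4 := ⟨_, rfl⟩
  obtain ⟨η', hη'⟩ : ∃ η' : ℝ, η' = 2 * β * C0 * ((π0 : ℝ) + 1) / ((L0 : ℝ) + 1) := ⟨_, rfl⟩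
  have hη'0 : 0 ≤ η' := by rw [hη']; positivity
  have key : ∀ N L, L0 ≤ L → π0 ≤ 2 * L → massN N L E ≤ (η + η' * psiC L0 L) * Z L := by
    intro N
    induction N with
    | zero =>
      intro L hL _
      rw [massN_zero]
      have := cut_psi_nonneg hL
      have := Z_pos L
      positivity
    | succ N ih =>
      intro L hL hp
      by_cases hLΛ : L ≤ Λ
      · have h1 := massN_le_mass (N + 1) L E
        have h2 := hyp L hLΛ hp
        have h3 := cut_psi_nonneg hL
        have h4 := Z_pos L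
        have h5 : 0 ≤ η' * psiC L0 L * Z L := by positivity
        linarith
      have hk : L < 2 * L := by omega
      have hpeel := peel_le N L L hk E
      have htut := tutte_at L L hk
      have e2 : (2 * L - L) / 2 = L / 2 := by
        congr 1
        omega
      rw [e2] at hpeel htut
      have hcn := hnum L L0 π0 (by omega) (by omega)
      have hface : massN N (L + 1) (fun t' => E (faceAt L t'))
          ≤ (η + η' * psiC L0 (L + 1)) * Z (L + 1) := by
        refine le_trans (massN_mono ?_) (ih (L + 1) (by omega) (by omega))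
        intro t' ht' hper hF
        exact hF1 L _ _ (faceV_faceAt L t' ht' (by omega)) (by omega) hF
      have hright : ∑ j ∈ range (L / 2), mass2N N (L - 1 - j) j (fun a b => E (brR L a b))
          ≤ ∑ j ∈ range (L / 2), (η * (Z (L - 1 - j) * Z j)
            + η' * (psiC L0 (L - 1 - j) * (Z (L - 1 - j) * Z j))) := by
        refine sum_le_sum fun j hj => ?_
        have hj' := mem_range.1 hj
        have h1 : mass2N N (L - 1 - j) j (fun a b => E (brR L a b))
            ≤ massN N (L - 1 - j) E * Z j := by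
          refine mass2N_le_outer ?_
          intro a b ha hpa hb hpb hF
          exact hF2 L _ _ _ (brV_brR L a b ha hb (by omega)) (by omega) hF
        have h2 := mul_le_mul_of_nonneg_right (ih (L - 1 - j) (by omega) (by omega)) (Z_pos j).le
        linarith
      have hleft : ∑ j ∈ range ((L + 1) / 2),
            mass2N N (L - 1 - j) j (fun a b => E (brL (L - 2 * j - 1) a b))
          ≤ ∑ j ∈ range ((L + 1) / 2), (η * (Z (L - 1 - j) * Z j)
            + η' * (psiC L0 (L - 1 - j) * (Z (L - 1 - j) * Z j))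
            + 2 * β * (if L < π0 + 2 * j + 1 then Z (L - 1 - j) * Z j else 0)) := by
        refine sum_le_sum fun j hj => ?_
        have hj' := mem_range.1 hj
        have z1 := Z_pos (L - 1 - j)
        have z2 := Z_pos j
        split_ifs with hhit
        · have h1 := mass2N_le_mass2 N (L - 1 - j) j
            (fun a b => E (brL (L - 2 * j - 1) a b))
          have h2 : mass2 (L - 1 - j) j (fun a b => E (brL (L - 2 * j - 1) a b))
              ≤ mass (L - 1 - j) (χ (L - 2 * j - 1)) * Z j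
                + Z (L - 1 - j) * mass j (χ (π0 - (L - 2 * j - 1) - 1)) := by
            refine mass2_le_split ?_
            intro a b ha hpa hb hpb hF
            exact hF3 _ _ _ _ (brV_brL _ a b ha hb (by omega)) (by omega) (by omega) hF
          have h3 := hnear (L - 1 - j) (L - 2 * j - 1) (by omega) (by omega)
          have h4 := hnear j (π0 - (L - 2 * j - 1) - 1) (by omega) (by omega)
          have h5 := mul_le_mul_of_nonneg_right h3 z2.le
          have h6 := mul_le_mul_of_nonneg_left h4 z1.le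
          have h7 : 0 ≤ psiC L0 (L - 1 - j) := cut_psi_nonneg (by omega)
          have h8 : 0 ≤ η * (Z (L - 1 - j) * Z j) := by positivity
          have h9 : 0 ≤ η' * (psiC L0 (L - 1 - j) * (Z (L - 1 - j) * Z j)) := by positivity
          linarith
        · have h1 : mass2N N (L - 1 - j) j (fun a b => E (brL (L - 2 * j - 1) a b))
              ≤ massN N (L - 1 - j) E * Z j := by
            refine mass2N_le_outer ?_
            intro a b ha hpa hb hpb hF
            exact hF2 _ _ _ _ (brV_brL _ a b ha hb (by omega)) (by omega) hF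
          have h2 := mul_le_mul_of_nonneg_right (ih (L - 1 - j) (by omega) (by omega)) z2.le
          linarith
      rw [sum_add_distrib, ← mul_sum, ← mul_sum] at hright
      rw [sum_add_distrib, sum_add_distrib, ← mul_sum, ← mul_sum, ← mul_sum,
        ← sum_filter] at hleft
      have hm := mul_le_mul_of_nonneg_left hcn hη'0
      have e5 : η' * (((L0 : ℝ) + 1) / (C0 * (π0 + 1))) = 2 * β := by
        rw [hη']
        field_simp
      have e6 : ∀ s : ℝ, η' * (((L0 : ℝ) + 1) / (C0 * (π0 + 1)) * s) = 2 * β * s := by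
        intro s
        rw [← mul_assoc, e5]
      rw [mul_add, e6] at hm
      have e7 : η * Z L = η * (Z (L + 1) / 12 + ∑ j ∈ range (L / 2), Z (L - 1 - j) * Z j
          + ∑ j ∈ range ((L + 1) / 2), Z (L - 1 - j) * Z j) := by rw [← htut]
      linarith
  intro L hp
  have z := Z_pos L
  have hΛr : (0 : ℝ) < Λ := by exact_mod_cast hΛ1
  by_cases hLΛ : L ≤ Λ
  · have h2 := hyp L hLΛ hp
    have h5 : 0 ≤ 8 * C0 * β * ((π0 : ℝ) + 1) / Λ * Z L := by positivity
    linarith
  · have h1 := mass_le_of_massN (fun N => key N L (by omega) hp)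
    refine le_trans h1 (mul_le_mul_of_nonneg_right ?_ z.le)
    have h2 : η' * psiC L0 L ≤ η' := by
      have := mul_le_mul_of_nonneg_left (cut_psi_le_one L0 L) hη'0
      linarith
    have h3 : η' ≤ 8 * C0 * β * ((π0 : ℝ) + 1) / Λ := by
      rw [hη', div_le_div_iff₀ (by positivity) hΛr]
      have h4 : (Λ : ℝ) ≤ 4 * ((L0 : ℝ) + 1) := by
        have : Λ ≤ 4 * (L0 + 1) := by omega
        exact_mod_cast this
      have h5 : 0 ≤ 2 * β * C0 * ((π0 : ℝ) + 1) := by positivity
      have h6 := mul_le_mul_of_nonneg_left h4 h5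
      linarith
    linarith

end Pool.Agent.P.MP_7a6434d8_pr
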