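import Pool.Agent.P.MP_7a6434d8_pr.DartB

namespace Pool.Agent.P.MP_7a6434d8_pr

open Mp Finset
open scoped ENNReal

theorem xstream_sum_face (t : Mp) (g : Dt (face t) → ℝ) :
    ∑ d, g d = ∑ d : Dt t, g (Sum.inl d) + (g (Sum.inr true) + g (Sum.inr false)) := by
  have h := Fintype.sum_sum_type (α₁ := Dt t) (α₂ := Bool) g
  rw [Fintype.sum_bool] at h
  exact h

theorem xstream_sum_bridge (a b : Mp) (g : Dt (bridge a b) → ℝ) :
    ∑ d, g d = (∑ d : Dt a, g (Sum.inl (Sum.inl d)) + ∑ d : Dt b, g (Sum.inl (Sum.inr d)))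
      + (g (Sum.inr true) + g (Sum.inr false)) := by
  have h := Fintype.sum_sum_type (α₁ := Dt a ⊕ Dt b) (α₂ := Bool) g
  have h2 := Fintype.sum_sum_type (α₁ := Dt a) (α₂ := Dt b) fun x => g (Sum.inl x)
  rw [Fintype.sum_bool, h2] at h
  exact h

theorem xstream_sum_zero (t : Mp) (θ : Dt t → ℝ) (hθ : ∀ d, θ (al t d) = -θ d) :
    ∑ d, θ d = 0 := by
  have h := Equiv.sum_comp (Function.Involutive.toPerm (al t) (al_al t)) θ
  simp only [Function.Involutive.coe_toPerm, hθ, Finset.sum_neg_distrib] at h
  linarith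

theorem xstream_bv_face (t : Mp) (k : ℕ) : bv (face t) (k + 1) = bv t (k + 3) := rfl

theorem xstream_bv_b (a b : Mp) {k : ℕ} (hk : k ≤ 2 * per b) :
    bv (bridge a b) (k + 1) = Sum.inr (bv b k) :=
  (if_neg (Nat.succ_ne_zero _)).trans (if_pos (by omega))

theorem xstream_bv_a (a b : Mp) (m : ℕ) :
    bv (bridge a b) (2 * per b + 1 + 1 + m) = Sum.inl (bv a m) := by
  refine (if_neg (by omega)).trans ((if_neg (by omega)).trans ?_)
  rw [show 2 * per b + 1 + 1 + m - 2 * per b - 2 = m by omega]

theorem stream (t : Mp) (ht : ok t) (θ : Dt t → ℝ) (hθ : ∀ d, θ (al t d) = -θ d) (β : ℕ → ℝ)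
    (h : ∀ f : V t → ℝ, ∑ d, θ d * f (org t d)
      = ∑ k ∈ range (2 * per t), β k * (f (bv t k) - f (bv t (k + 1)))) :
    ∃ ψ : Dt t → ℝ, (∀ k d, bd t k = some d → ψ d = β k) ∧
      (∀ d, (∀ k, bd t k ≠ some d) → ψ (ph t d) = ψ d) ∧ ∀ d, ψ d - ψ (al t d) = θ d := by
  induction t generalizing β with
  | pt => exact ⟨θ, fun _ d => d.elim, fun d => d.elim, fun d => d.elim⟩
  | face t ih =>
    obtain ⟨ht, hp⟩ : ok t ∧ 2 ≤ per t := ht
    obtain ⟨n, hn⟩ : ∃ n, per t = n + 2 := ⟨per t - 2, by omega⟩
    have hF : θ (Sum.inr false) = -θ (Sum.inr true) := hθ (Sum.inr true)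
    set y : ℝ := β 0 - θ (Sum.inr true) with hy
    obtain ⟨ψ, h1, h2, h3⟩ := ih ht (fun d => θ (Sum.inl d)) (fun d => hθ (Sum.inl d))
      (fun k => if k < 3 then y else β (k - 2)) (by
        intro f
        have hf := h f
        rw [xstream_sum_face, show 2 * per (face t) = (2 * n + 1) + 1 by simp only [per]; omega,
          Finset.sum_range_succ'] at hf
        rw [show 2 * per t = (2 * n + 1) + 1 + 1 + 1 by omega, Finset.sum_range_succ',
          Finset.sum_range_succ', Finset.sum_range_succ']
        have e1 : ∑ k ∈ range (2 * n + 1), (if k + 1 + 1 + 1 < 3 then y else β (k + 1 + 1 + 1 - 2))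
              * (f (bv t (k + 1 + 1 + 1)) - f (bv t (k + 1 + 1 + 1 + 1)))
            = ∑ k ∈ range (2 * n + 1), β (k + 1) *
              (f (bv (face t) (k + 1)) - f (bv (face t) (k + 1 + 1))) := by
          refine Finset.sum_congr rfl fun k _ => ?_
          rw [if_neg (by omega)]
          rfl
        rw [e1]
        change ∑ d : Dt t, θ (Sum.inl d) * f (org t d) +
          (θ (Sum.inr true) * f (bv t 0) + θ (Sum.inr false) * f (bv t 3)) =
          _ + β 0 * (f (bv t 0) - f (bv t 3)) at hf
        change _ = _ + y * (f (bv t 2) - f (bv t 3)) + y * (f (bv t 1) - f (bv t 2)) +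
          y * (f (bv t 0) - f (bv t 1))
        rw [hF] at hf
        rw [hy]
        linarith)
    refine ⟨fun d => Sum.elim ψ (fun c => if c then β 0 else y) d, ?_, ?_, ?_⟩
    · intro k d hk
      rcases darta_face hk with ⟨rfl, rfl⟩ | ⟨a1, e, a2, rfl⟩
      · rfl
      · have := h1 _ _ a2
        rw [if_neg (by omega)] at this
        exact this
    · obtain ⟨e0, h0⟩ := dartb_exists_bd ht (k := 0) (by omega)
      rintro (d | _ | _) hd
      · by_cases hb : ∃ k, bd t k = some d
        · obtain ⟨k, hk⟩ := hb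
          have hk3 : k < 3 := by
            by_contra hc
            exact hd (k - 2) (darta_f1 (by omega) (by rwa [show k - 2 + 2 = k by omega]))
          have hs := dartb_bd_succ ht hk (by omega)
          have e1 := h1 _ _ hk
          rw [if_pos hk3] at e1
          by_cases hk2 : k = 2
          · subst hk2
            rw [dartb_face_inl3 hs]
            exact e1.symm
          · rw [dartb_face_inl (fun h => absurd (bd_inj t ht _ _ _ h hs) (by omega))
              (fun h => absurd (bd_inj t ht _ _ _ h hs) (by omega))]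
            have e2 := h1 _ _ hs
            rw [if_pos (by omega)] at e2
            exact e2.trans e1.symm
        · have hd' : ∀ k, bd t k ≠ some d := fun k hk => hb ⟨k, hk⟩
          rw [dartb_face_inl (dartb_inner_ph ht d hd' 3) (dartb_inner_ph ht d hd' 0)]
          exact h2 d hd'
      · rw [dartb_face_false h0]
        exact h1 _ _ h0
      · exact absurd rfl (hd 0)
    · rintro (d | _ | _)
      · exact h3 d
      · change y - β 0 = _
        rw [hF, hy]
        ring
      · change β 0 - y = _
        rw [hy]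
        ring
  | bridge a b iha ihb =>
    obtain ⟨ha, hb⟩ : ok a ∧ ok b := ht
    have hF : θ (Sum.inr false) = -θ (Sum.inr true) := hθ (Sum.inr true)
    have H : ∀ (fa : V a → ℝ) (fb : V b → ℝ),
        ∑ d : Dt a, θ (Sum.inl (Sum.inl d)) * fa (org a d)
          + ∑ d : Dt b, θ (Sum.inl (Sum.inr d)) * fb (org b d)
          + θ (Sum.inr true) * (fa (bv a 0) - fb (bv b 0))
        = (β 0 - β (2 * per b + 1)) * (fa (bv a 0) - fb (bv b 0))
          + ∑ k ∈ range (2 * per b), β (k + 1) * (fb (bv b k) - fb (bv b (k + 1)))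
          + ∑ m ∈ range (2 * per a), β (2 * per b + 1 + 1 + m) *
              (fa (bv a m) - fa (bv a (m + 1))) := by
      intro fa fb
      have hf := h (Sum.elim fa fb)
      rw [xstream_sum_bridge,
        show 2 * per (bridge a b) = (2 * per b + 1 + 1) + 2 * per a by simp only [per]; omega,
        Finset.sum_range_add, Finset.sum_range_succ, Finset.sum_range_succ'] at hf
      have e1 : ∑ k ∈ range (2 * per b), β (k + 1) * (Sum.elim fa fb (bv (bridge a b) (k + 1))
            - Sum.elim fa fb (bv (bridge a b) (k + 1 + 1)))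
          = ∑ k ∈ range (2 * per b), β (k + 1) * (fb (bv b k) - fb (bv b (k + 1))) := by
        refine Finset.sum_congr rfl fun k hk => ?_
        have := Finset.mem_range.1 hk
        rw [xstream_bv_b a b (by omega), xstream_bv_b a b (by omega)]
        rfl
      have e2 : ∑ m ∈ range (2 * per a), β (2 * per b + 1 + 1 + m) *
            (Sum.elim fa fb (bv (bridge a b) (2 * per b + 1 + 1 + m))
            - Sum.elim fa fb (bv (bridge a b) (2 * per b + 1 + 1 + m + 1)))
          = ∑ m ∈ range (2 * per a), β (2 * per b + 1 + 1 + m) *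
              (fa (bv a m) - fa (bv a (m + 1))) := by
        refine Finset.sum_congr rfl fun m _ => ?_
        rw [add_assoc _ m 1, xstream_bv_a, xstream_bv_a]
        rfl
      have e3 : bv (bridge a b) (2 * per b + 1) = Sum.inr (bv b 0) := by
        rw [xstream_bv_b a b le_rfl, bv_end b hb]
      have e4 : bv (bridge a b) (2 * per b + 1 + 1) = Sum.inl (bv a 0) := xstream_bv_a a b 0
      have e5 : bv (bridge a b) (0 + 1) = Sum.inr (bv b 0) := xstream_bv_b a b (Nat.zero_le _)
      erw [e1, e2] at hf
      rw [e3, e4, e5] at hf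
      change ∑ d : Dt a, θ (Sum.inl (Sum.inl d)) * fa (org a d)
          + ∑ d : Dt b, θ (Sum.inl (Sum.inr d)) * fb (org b d)
          + (θ (Sum.inr true) * fa (bv a 0) + θ (Sum.inr false) * fb (bv b 0))
        = _ + β 0 * (fa (bv a 0) - fb (bv b 0)) + β (2 * per b + 1) * (fb (bv b 0) - fa (bv a 0))
          + _ at hf
      rw [hF] at hf
      linarith
    have hT : θ (Sum.inr true) = β 0 - β (2 * per b + 1) := by
      have h0 := H (fun _ => 0) (fun _ => 1)
      have hz := xstream_sum_zero b (fun d => θ (Sum.inl (Sum.inr d)))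
        (fun d => hθ (Sum.inl (Sum.inr d)))
      simp only [mul_zero, Finset.sum_const_zero, mul_one, sub_self, hz] at h0
      linarith
    obtain ⟨ψa, a1, a2, a3⟩ := iha ha (fun d => θ (Sum.inl (Sum.inl d)))
      (fun d => hθ (Sum.inl (Sum.inl d))) (fun m => β (2 * per b + 1 + 1 + m)) (by
        intro f
        have h0 := H f (fun _ => 0)
        simp only [mul_zero, Finset.sum_const_zero, sub_self, hT] at h0
        linarith)
    obtain ⟨ψb, b1, b2, b3⟩ := ihb hb (fun d => θ (Sum.inl (Sum.inr d)))
      (fun d => hθ (Sum.inl (Sum.inr d))) (fun k => β (k + 1)) (by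
        intro f
        have h0 := H (fun _ => 0) f
        simp only [mul_zero, Finset.sum_const_zero, sub_self, hT] at h0
        linarith)
    refine ⟨fun d => Sum.elim (Sum.elim ψa ψb)
      (fun c => if c then β 0 else β (2 * per b + 1)) d, ?_, ?_, ?_⟩
    · intro k d hk
      rcases darta_bridge hk with ⟨rfl, rfl⟩ | ⟨c1, c2, e, c3, rfl⟩ | ⟨rfl, rfl⟩ | ⟨c1, e, c2, rfl⟩
      · rfl
      · have := b1 _ _ c3
        rw [show k - 1 + 1 = k by omega] at this
        exact this
      · rfl
      · have := a1 _ _ c2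
        rw [show 2 * per b + 1 + 1 + (k - 2 * per b - 2) = k by omega] at this
        exact this
    · rintro ((d | d) | _ | _) hd
      · have hd' : ∀ k, bd a k ≠ some d := fun k hk =>
          hd (k + 2 * per b + 2) (darta_b3 (by
            rwa [show k + 2 * per b + 2 - 2 * per b - 2 = k by omega]) (by omega))
        rw [dartb_br_a (dartb_inner_ph ha d hd' 0)]
        exact a2 d hd'
      · have hd' : ∀ k, bd b k ≠ some d := fun k hk =>
          hd (k + 1) (darta_b1 hk (dartb_lt_of_bd hb hk))
        rw [dartb_br_b (dartb_inner_ph hb d hd' 0)]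
        exact b2 d hd'
      · exact absurd (darta_b2 a b) (hd _)
      · exact absurd rfl (hd 0)
    · rintro ((d | d) | _ | _)
      · exact a3 d
      · exact b3 d
      · change β (2 * per b + 1) - β 0 = _
        rw [hF, hT]
        ring
      · change β 0 - β (2 * per b + 1) = _
        rw [hT]

end Pool.Agent.P.MP_7a6434d8_pr
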