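import Pool.Agent.P.MP_7a6434d8_pr.XThomson
import Pool.Agent.P.MP_7a6434d8_pr.XStream
import Pool.Agent.P.MP_7a6434d8_pr.XArcDet
import Pool.Agent.P.MP_7a6434d8_pr.XGraphA
import Pool.Agent.P.MP_7a6434d8_pr.DartC
import Pool.Agent.P.MP_7a6434d8_pr.BasicB

namespace Pool.Agent.P.MP_7a6434d8_pr

open Mp Finset
open scoped ENNReal

/-- oscillation along an orbit is bounded by the sum of the step bounds -/
theorem xdual_orbit {D : Type} [DecidableEq D] (σ : D → D) (S : Finset D)
    (hS : ∀ e ∈ S, σ e ∈ S) (g c : D → ℝ) (hc : ∀ e, 0 ≤ c e)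
    (hg : ∀ e ∈ S, |g (σ e) - g e| ≤ c e) (d d' : D) (hd : d ∈ S) (hr : ∃ k, σ^[k] d = d') :
    |g d' - g d| ≤ ∑ e ∈ S, c e := by
  classical
  have hmem : ∀ i, σ^[i] d ∈ S := fun i => by
    induction i with
    | zero => exact hd
    | succ i ih =>
      rw [Function.iterate_succ_apply']
      exact hS _ ih
  have hsum : ∀ k, |g (σ^[k] d) - g d| ≤ ∑ i ∈ range k, c (σ^[i] d) := fun k => by
    induction k with
    | zero => simp
    | succ k ih =>
      rw [sum_range_succ, Function.iterate_succ_apply']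
      have h1 := hg _ (hmem k)
      have h2 := abs_sub_le (g (σ (σ^[k] d))) (g (σ^[k] d)) (g d)
      linarith
  have hk : σ^[Nat.find hr] d = d' := Nat.find_spec hr
  have hlt : ∀ i j, i < j → j < Nat.find hr → σ^[i] d ≠ σ^[j] d := fun i j hij hj he => by
    have h1 : σ^[Nat.find hr - j + i] d = d' := by
      rw [Function.iterate_add_apply, he, ← Function.iterate_add_apply,
        Nat.sub_add_cancel hj.le]
      exact hk
    exact Nat.find_min hr (by omega) h1
  have hinj : Set.InjOn (fun i => σ^[i] d) (range (Nat.find hr) : Set ℕ) := by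
    intro i hi j hj he
    have hi' : i < Nat.find hr := by simpa using hi
    have hj' : j < Nat.find hr := by simpa using hj
    rcases lt_trichotomy i j with h | h | h
    · exact absurd he (hlt i j h hj')
    · exact h
    · exact absurd he.symm (hlt j i h hi')
  have h1 := hsum (Nat.find hr)
  rw [hk] at h1
  refine h1.trans ?_
  rw [← sum_image (f := c) hinj]
  refine sum_le_sum_of_subset_of_nonneg ?_ fun e _ _ => hc e
  intro e he
  obtain ⟨i, -, rfl⟩ := mem_image.1 he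
  exact hmem i

/-- two darts with the same origin lie on one orbit of the vertex rotation -/
theorem xdual_reach (t : Mp) (ht : ok t) (d d' : Dt t) (h : org t d = org t d') :
    ∃ k, (fun e => ph t (al t e))^[k] d = d' := by
  have hinj : Function.Injective (fun e => ph t (al t e)) := fun a b hab => by
    have h1 : al t a = al t b := ph_inj t ht hab
    rw [← al_al t a, h1, al_al]
  have key := factor_org t ht (fun e => ∃ k, (fun e => ph t (al t e))^[k] e = d') (fun e => by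
    refine propext ⟨fun ⟨k, hk⟩ => ⟨k + 1, hk⟩, fun ⟨k, hk⟩ => ?_⟩
    cases k with
    | succ k => exact ⟨k, hk⟩
    | zero =>
      obtain ⟨m, hm, hper⟩ := Function.Injective.mem_periodicPts hinj e
      obtain ⟨m, rfl⟩ := Nat.exists_eq_succ_of_ne_zero (Nat.pos_iff_ne_zero.1 hm)
      have he : e = d' := hk
      exact ⟨m, he ▸ hper⟩) d d' h
  rw [key]
  exact ⟨0, rfl⟩

theorem xdual_clamp (a b : ℝ) : |max 0 (min 1 a) - max 0 (min 1 b)| ≤ |a - b| :=
  (abs_max_sub_max_le_max 0 _ 0 _).trans (max_le (by simp)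
    ((abs_min_sub_min_le_max 1 a 1 b).trans (max_le (by simp) le_rfl)))

open Classical in
theorem xdual_Q (t : Mp) (ht : ok t) (Δ : ℝ) (hΔ : 0 ≤ Δ) (hM : MaxDeg t Δ) (θ : Dt t → ℝ)
    (x y : V t) (o : V t → ℝ) (ho : ∀ z, o z = if z = x ∨ z = y then 1
      else ∑ e ∈ univ.filter (fun e => org t e = z), |θ e|) :
    ∑ d, o (org t d) ^ 2 ≤ 2 * Δ + Δ ^ 2 * ∑ e, θ e ^ 2 := by
  have hdeg : ∀ z, ((univ.filter (fun e => org t e = z)).card : ℝ) ≤ Δ := fun z => by
    rw [← dg_eq_card t ht z]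
    exact hM z
  have h1 : ∀ d, o (org t d) ^ 2 ≤ (if org t d = x then 1 else 0) + (if org t d = y then 1 else 0)
      + Δ * ∑ e, if org t d = org t e then θ e ^ 2 else 0 := fun d => by
    have hn : 0 ≤ Δ * ∑ e, if org t d = org t e then θ e ^ 2 else 0 :=
      mul_nonneg hΔ (sum_nonneg fun e _ => by split_ifs <;> positivity)
    rw [ho]
    by_cases hx : org t d = x
    · rw [if_pos (Or.inl hx), if_pos hx]
      split_ifs <;> linarith
    by_cases hy : org t d = y
    · rw [if_pos (Or.inr hy), if_neg hx, if_pos hy]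
      linarith
    rw [if_neg (not_or.2 ⟨hx, hy⟩), if_neg hx, if_neg hy, zero_add, zero_add]
    have h2 := sq_sum_le_card_mul_sum_sq (s := univ.filter (fun e => org t e = org t d))
      (f := fun e => |θ e|)
    refine h2.trans ?_
    have h3 : ∑ e ∈ univ.filter (fun e => org t e = org t d), |θ e| ^ 2
        = ∑ e, if org t d = org t e then θ e ^ 2 else 0 := by
      rw [sum_filter]
      refine sum_congr rfl fun e _ => ?_
      rw [sq_abs]
      exact if_congr eq_comm rfl rfl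
    rw [h3]
    exact mul_le_mul_of_nonneg_right (hdeg _)
      (sum_nonneg fun e _ => by split_ifs <;> positivity)
  have h4 : ∀ z, ∑ d, (if org t d = z then (1 : ℝ) else 0) ≤ Δ := fun z => by
    rw [← sum_filter, sum_const, nsmul_eq_mul, mul_one]
    exact hdeg z
  have h5 : ∑ d, ∑ e, (if org t d = org t e then θ e ^ 2 else 0) ≤ Δ * ∑ e, θ e ^ 2 := by
    rw [sum_comm, mul_sum]
    refine sum_le_sum fun e _ => ?_
    rw [← sum_filter, sum_const, nsmul_eq_mul]
    exact mul_le_mul_of_nonneg_right (hdeg _) (sq_nonneg _)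
  refine (sum_le_sum fun d _ => h1 d).trans ?_
  rw [sum_add_distrib, sum_add_distrib, ← mul_sum]
  have h6 := mul_le_mul_of_nonneg_left h5 hΔ
  have h7 := h4 x
  have h8 := h4 y
  nlinarith

theorem xdual_main (t : Mp) (π : ℕ) (Δ ρ : ℝ) (ht : ok t) (hπ : π < 2 * per t)
    (hΔ : 1 ≤ Δ) (hM : MaxDeg t Δ) (hρ : 0 ≤ ρ) (hF : ¬ Far t {0} {π} ρ) :
    Arc t π (9 * Δ ^ 2 * (ρ ^ 2 + 1)) ((edges t : ℝ) + 1) := by
  classical
  obtain ⟨θ, hθ1, hθ2, hθ3⟩ := thomson t 0 π (Nat.zero_le _) hπ.le ρ hρ hF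
  obtain ⟨ψ0, hψ1, hψ2, hψ3⟩ := stream t ht θ hθ1 (fun k => if k < π then 1 else 0) (fun f => by
    rw [hθ3 f]
    have h1 : ∑ k ∈ range (2 * per t), (if k < π then (1 : ℝ) else 0) *
        (f (bv t k) - f (bv t (k + 1))) = ∑ k ∈ range π, (f (bv t k) - f (bv t (k + 1))) := by
      rw [← sum_subset (range_subset_range.2 hπ.le) (fun k _ hk => by
        rw [if_neg (by simpa using hk), zero_mul])]
      exact sum_congr rfl fun k hk => by rw [if_pos (mem_range.1 hk), one_mul]
    rw [h1, sum_range_sub' (fun k => f (bv t k))])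
  set ψ : Dt t → ℝ := fun d => max 0 (min 1 (ψ0 d)) with hψ
  have hb : ∀ k d, bd t k = some d → ψ d = if k < π then 1 else 0 := fun k d h => by
    have := hψ1 k d h
    simp only [hψ, this]
    split_ifs <;> simp
  have h01 : ∀ d, 0 ≤ ψ d ∧ ψ d ≤ 1 := fun d =>
    ⟨le_max_left _ _, max_le zero_le_one (min_le_left _ _)⟩
  have hal : ∀ d, |ψ d - ψ (al t d)| ≤ |θ d| := fun d => by
    rw [← hψ3 d]
    exact xdual_clamp _ _
  have horg : ∀ e, org t (ph t (al t e)) = org t e := fun e => by rw [org_ph t ht, al_al]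
  have hstep : ∀ e, org t e ≠ bv t 0 → org t e ≠ bv t π → ψ (ph t (al t e)) = ψ (al t e) := by
    intro e h0 h1
    by_cases hk : ∃ k, bd t k = some (al t e)
    · obtain ⟨k, hk⟩ := hk
      have hk1 := bd_ph t ht k _ hk
      have hk2 := org_bd t ht _ _ hk1
      have hlt := darta_lt ht hk
      rw [horg] at hk2
      rw [hb _ _ hk, hb _ _ hk1]
      rcases Nat.lt_or_ge (k + 1) (2 * per t) with h | h
      · rw [Nat.mod_eq_of_lt h] at hk2 ⊢
        have h3 : k + 1 ≠ π := fun h4 => h1 (h4 ▸ hk2)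
        exact if_congr (by omega) rfl rfl
      · rw [show k + 1 = 2 * per t by omega, Nat.mod_self] at hk2
        exact absurd hk2 h0
    · simp only [hψ]
      rw [hψ2 _ (fun k h => hk ⟨k, h⟩)]
  set o : V t → ℝ := fun z => if z = bv t 0 ∨ z = bv t π then 1
      else ∑ e ∈ univ.filter (fun e => org t e = z), |θ e| with ho
  have hone : ∀ d d', |ψ d - ψ d'| ≤ 1 := fun d d' => by
    have := h01 d
    have := h01 d'
    rw [abs_le]
    constructor <;> linarith
  have hosc : ∀ d d', org t d = org t d' → |ψ d' - ψ d| ≤ o (org t d) := fun d d' h => by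
    simp only [ho]
    split_ifs with hz
    · exact hone _ _
    · rw [not_or] at hz
      refine xdual_orbit (fun e => ph t (al t e)) _ (fun e he => ?_) ψ (fun e => |θ e|)
        (fun e => abs_nonneg _) (fun e he => ?_) d d' (by simp) (xdual_reach t ht d d' h)
      · rw [mem_filter] at he ⊢
        exact ⟨mem_univ _, (horg e).trans he.2⟩
      · have he2 := (mem_filter.1 he).2
        rw [hstep e (he2 ▸ hz.1) (he2 ▸ hz.2), abs_sub_comm]
        exact hal e
  have hex : ∀ z : V t, ∃ y : ℝ, (0 ≤ y ∧ y ≤ 1) ∧ (∀ d, org t d = z → |y - ψ d| ≤ o z) ∧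
      ∀ p, π ≤ p → p ≤ 2 * per t → z = bv t p → y = 0 := fun z => by
    by_cases hz : ∃ p, π ≤ p ∧ p ≤ 2 * per t ∧ z = bv t p
    · obtain ⟨p, hp1, hp2, hp3⟩ := hz
      refine ⟨0, ⟨le_rfl, zero_le_one⟩, fun d hd => ?_, fun _ _ _ _ => rfl⟩
      rcases hp2.lt_or_eq with hp | hp
      · obtain ⟨e, he⟩ := darta_ex ht hp
        have h1 := hosc d e (by rw [hd, hp3, org_bd t ht _ _ he])
        rw [hb _ _ he, if_neg (by omega), hd] at h1
        exact h1
      · have h1 : o z = 1 := by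
          simp only [ho]
          rw [if_pos (Or.inl (by rw [hp3, hp, bv_end t ht]))]
        rw [h1, zero_sub, abs_neg, abs_of_nonneg (h01 d).1]
        exact (h01 d).2
    · obtain ⟨e, he⟩ := org_surj t ht (by omega) z
      refine ⟨ψ e, h01 e, fun d hd => ?_, fun p h1 h2 h3 => absurd ⟨p, h1, h2, h3⟩ hz⟩
      have h1 := hosc d e (hd.trans he.symm)
      rwa [hd] at h1
  choose f hf1 hf2 hf3 using hex
  have hQ := xdual_Q t ht Δ (by linarith) hM θ (bv t 0) (bv t π) o (fun z => by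
    simp only [ho])
  have hQ' : ∑ d, o (org t d) ^ 2 ≤ 2 * Δ ^ 2 + 2 * Δ ^ 2 * ρ ^ 2 := by
    have h1 := mul_le_mul_of_nonneg_left hθ2 (sq_nonneg Δ)
    nlinarith
  have hΔ2 : 1 ≤ Δ ^ 2 := by nlinarith
  have hρ2 : 0 ≤ ρ ^ 2 := sq_nonneg _
  have hΔρ : ρ ^ 2 ≤ Δ ^ 2 * ρ ^ 2 := le_mul_of_one_le_left hρ2 hΔ2
  refine ⟨f, hf1, fun p h1 h2 => hf3 _ p h1 h2 rfl, ?_, ?_, ?_⟩
  · have h1 : ∀ d, (f (org t d) - f (org t (al t d))) ^ 2
        ≤ 3 * o (org t d) ^ 2 + 3 * θ d ^ 2 + 3 * o (org t (al t d)) ^ 2 := fun d => by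
      have a1 := hf2 _ d rfl
      have a2 := hf2 _ (al t d) rfl
      have a3 := hal d
      have a4 : |f (org t d) - f (org t (al t d))|
          ≤ o (org t d) + |θ d| + o (org t (al t d)) := by
        rw [abs_le] at a1 a2 a3 ⊢
        constructor <;> linarith [a1.1, a1.2, a2.1, a2.2, a3.1, a3.2]
      have a5 := pow_le_pow_left₀ (abs_nonneg _) a4 2
      rw [sq_abs] at a5
      have a6 : |θ d| ^ 2 = θ d ^ 2 := sq_abs _
      nlinarith [sq_nonneg (o (org t d) - |θ d|), sq_nonneg (o (org t d) - o (org t (al t d))),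
        sq_nonneg (|θ d| - o (org t (al t d)))]
    have h2 : ∑ d, o (org t (al t d)) ^ 2 = ∑ d, o (org t d) ^ 2 :=
      Equiv.sum_comp (Function.Involutive.toPerm (al t) (al_al t)) (fun d => o (org t d) ^ 2)
    have h3 := two_energy t f
    have h4 := sum_le_sum (s := univ) fun d _ => h1 d
    rw [sum_add_distrib, sum_add_distrib, ← mul_sum, ← mul_sum, ← mul_sum, h2] at h4
    nlinarith
  · rw [sum_range_succ]
    have h1 : (1 - f (bv t π)) ^ 2 ≤ 1 := by
      have := hf1 (bv t π)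
      nlinarith [this.1, this.2]
    have hE : ∀ p : ℕ, ∃ e : Dt t, p < π → bd t p = some e := fun p => by
      by_cases hp : p < π
      · obtain ⟨e, he⟩ := darta_ex ht (hp.trans hπ)
        exact ⟨e, fun _ => he⟩
      · obtain ⟨e, -⟩ := darta_ex ht hπ
        exact ⟨e, fun h => absurd h hp⟩
    choose E hE using hE
    have hinj : Set.InjOn E (range π : Set ℕ) := fun i hi j hj he =>
      bd_inj t ht i j (E i) (hE i (by simpa using hi)) (he ▸ hE j (by simpa using hj))
    have h2 : ∑ p ∈ range π, (1 - f (bv t p)) ^ 2 ≤ ∑ p ∈ range π, o (org t (E p)) ^ 2 := by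
      refine sum_le_sum fun p hp => ?_
      have hp' := mem_range.1 hp
      have a1 := hf2 _ (E p) rfl
      rw [hb _ _ (hE p hp'), if_pos hp'] at a1
      rw [← org_bd t ht _ _ (hE p hp')]
      have a2 := pow_le_pow_left₀ (abs_nonneg _) a1 2
      rw [sq_abs] at a2
      linarith [show (1 - f (org t (E p))) ^ 2 = (f (org t (E p)) - 1) ^ 2 by ring]
    have h3 : ∑ p ∈ range π, o (org t (E p)) ^ 2 ≤ ∑ d, o (org t d) ^ 2 := by
      rw [← sum_image (f := fun d => o (org t d) ^ 2) hinj]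
      exact sum_le_sum_of_subset_of_nonneg (subset_univ _) fun _ _ _ => sq_nonneg _
    nlinarith
  · exact_mod_cast (supp_le_card t f).trans (card_V_le t ht)

theorem dual_arc : ∃ C : ℝ, 0 < C ∧ ∀ (t : Mp) (π : ℕ) (Δ ρ : ℝ), ok t → π ≤ 2 * per t →
    1 ≤ Δ → MaxDeg t Δ → 0 ≤ ρ → ¬ Far t {0} {π} ρ →
    Arc t π (C * Δ ^ 2 * (ρ ^ 2 + 1)) ((edges t : ℝ) + 1) := by
  refine ⟨46, by norm_num, fun t π Δ ρ ht hπ hΔ hM hρ hF => ?_⟩
  have hΔ2 : 1 ≤ Δ ^ 2 := by nlinarith
  have hρ2 : 0 ≤ ρ ^ 2 := sq_nonneg _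
  have hΔρ : 0 ≤ Δ ^ 2 * ρ ^ 2 := by positivity
  rcases hπ.lt_or_eq with h | h
  · exact (xdual_main t π Δ ρ ht h hΔ hM hρ hF).mono (by nlinarith) le_rfl
  rcases Nat.eq_zero_or_pos π with h0 | h0
  · refine (arc_triv t π).mono ?_ (by positivity)
    rw [h0]
    push_cast
    nlinarith
  have hF' : ¬ Far t {0} {π - 1} 2 := by
    rintro ⟨g, e, he, hT, h1, h2⟩
    have a1 := h1 0 rfl
    have a2 := h2 (π - 1) rfl
    have a3 := hT.step ht (π - 1) (by omega)
    obtain ⟨f, hf, -⟩ := hT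
    have a4 : g (π - 1 + 1) = g 0 := by
      rw [hf _ (by omega), hf 0 (Nat.zero_le _), show π - 1 + 1 = 2 * per t by omega, bv_end t ht]
    rw [a4] at a3
    nlinarith
  have h1 := arc_shrink (s := 1) h0
    (xdual_main t (π - 1) Δ 2 ht (by omega) hΔ hM (by norm_num) hF')
  refine h1.mono ?_ le_rfl
  push_cast
  nlinarith

end Pool.Agent.P.MP_7a6434d8_pr
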