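import Pool.Agent.P.MP_7a6434d8_pr.XArcB
import Pool.Agent.P.MP_7a6434d8_pr.XCutG
import Pool.Agent.P.MP_7a6434d8_pr.XDual

namespace Pool.Agent.P.MP_7a6434d8_pr

open Mp Finset
open scoped ENNReal

theorem xarclevel_root (J G : ℕ) (hJ : 1 ≤ J) : ∃ y : ℕ, y ^ J ≤ G ∧ G < (y + 1) ^ J := by
  have hex : ∃ y : ℕ, G < (y + 1) ^ J :=
    ⟨G, lt_of_lt_of_le (Nat.lt_succ_self G) (Nat.le_self_pow (by omega) _)⟩
  classical
  refine ⟨Nat.find hex, ?_, Nat.find_spec hex⟩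
  rcases Nat.eq_zero_or_pos (Nat.find hex) with h | h
  · rw [h, zero_pow (by omega)]; exact Nat.zero_le _
  · have := Nat.find_min hex (m := Nat.find hex - 1) (by omega)
    rw [Nat.sub_add_cancel h] at this
    omega

theorem xarclevel_ev (c B : ℝ) (hc : 0 < c) (n : ℕ) :
    ∃ y0 : ℕ, ∀ y : ℕ, y0 ≤ y → B * ((y : ℝ) + 1) ^ n * Real.exp (-(c * y)) ≤ 1 := by
  have hr : 1 < Real.exp c := Real.one_lt_exp_iff.2 hc
  have h := (((tendsto_pow_const_div_const_pow_of_one_lt n hr).comp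
    (Filter.tendsto_add_atTop_nat 1)).const_mul (B * Real.exp c))
  rw [mul_zero] at h
  obtain ⟨y0, hy0⟩ := Filter.eventually_atTop.1 (h.eventually (gt_mem_nhds one_pos))
  refine ⟨y0, fun y hy => le_trans (le_of_eq ?_) (hy0 y hy).le⟩
  simp only [Function.comp]
  push_cast
  rw [Real.exp_neg, mul_comm c (y : ℝ), Real.exp_nat_mul, pow_succ (Real.exp c)]
  have := Real.exp_pos c
  field_simp

theorem xarclevel_mono {Δ : ℝ} {a : ℕ} {K v β K' v' β' : ℝ} (h : ArcHyp Δ a K v β)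
    (hK : K ≤ K') (hv : v ≤ v') (hβ : β ≤ β') : ArcHyp Δ a K' v' β' := by
  intro L π h1 h2
  calc mass L (fun t => MaxDeg t Δ ∧ ¬ Arc t π K' v')
      ≤ mass L (fun t => MaxDeg t Δ ∧ ¬ Arc t π K v) :=
        mass_mono fun t _ _ c => ⟨c.1, fun d => c.2 (d.mono hK hv)⟩
    _ ≤ β * Z L := h L π h1 h2
    _ ≤ β' * Z L := mul_le_mul_of_nonneg_right hβ (Z_pos L).le

theorem xarclevel_step : ∃ (c B C K0 : ℝ), 0 < c ∧ 0 < B ∧ 0 < C ∧ 0 < K0 ∧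
    ∀ (G a y : ℕ) (K1 v1 β ε : ℝ), 4 ≤ G → 1 ≤ a → 2 ≤ y → K0 * (G : ℝ) ^ 4 ≤ K1 →
      (((a * G) ^ 2 * G : ℕ) : ℝ) + 1 ≤ v1 → 0 ≤ β → 0 ≤ ε → NearHyp a G ε →
      ArcHyp G a K1 v1 β →
      ArcHyp G a (y * K1) (y * v1)
        (C / G * β + (B * ((a : ℝ) * G) ^ 3 * Real.exp (-(c * y)) + 3 * ε * ((a : ℝ) * G) ^ 2)) := by
  obtain ⟨c, A, K0, hc, hA, hK0, hb⟩ := arc_b
  obtain ⟨Cc, hCc, hcut⟩ := cutG
  obtain ⟨Cd, hCd, hd⟩ := dual_arc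
  obtain ⟨cw, Cw, hcw, -, hw⟩ := w_bounds
  refine ⟨c, 8 * A / cw, 8 * A / cw + 2 * Cc, 2 * Cd + K0, hc, by positivity, by positivity,
    by positivity, ?_⟩
  intro G a y K1 v1 β ε hG ha hy hK1 hv1 hβ hε hN hH
  set Λ := a * G with hΛ
  set m2 := Λ ^ 2 * G with hm2
  have hG4 : (4 : ℝ) ≤ G := by exact_mod_cast hG
  have hG0 : (0 : ℝ) < G := by linarith
  have ha1 : (1 : ℝ) ≤ a := by exact_mod_cast ha
  have hΛR : (Λ : ℝ) = (a : ℝ) * G := by rw [hΛ]; push_cast; rfl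
  have hΛ1 : 1 ≤ Λ := Nat.mul_pos ha (by omega)
  have hΛ1R : (1 : ℝ) ≤ Λ := by exact_mod_cast hΛ1
  have hm21 : 1 ≤ m2 := Nat.mul_pos (by positivity) (by omega)
  have hm2R : (m2 : ℝ) = (Λ : ℝ) ^ 2 * G := by rw [hm2]; push_cast; rfl
  have hG41 : (1 : ℝ) ≤ (G : ℝ) ^ 4 := one_le_pow₀ (by linarith)
  have hK0' : K0 ≤ K1 := by nlinarith
  have hK10 : 0 ≤ K1 := by linarith
  have hv0 : 0 ≤ v1 := le_trans (by positivity) hv1
  have hy2 : (2 : ℝ) ≤ y := by exact_mod_cast hy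
  have hstop : ∀ t π, ok t → π ≤ 2 * per t → MaxDeg t G → edges t ≤ m2 → ¬ Far t {0} {π} G →
      Arc t π K1 v1 := by
    intro t π h1 h2 h3 h4 h5
    refine (hd t π G G h1 h2 (by linarith) h3 hG0.le h5).mono ?_ ?_
    · have e1 : (1 : ℝ) ≤ (G : ℝ) ^ 2 := one_le_pow₀ (by linarith)
      have e2 : (G : ℝ) ^ 2 * ((G : ℝ) ^ 2 + 1) ≤ 2 * (G : ℝ) ^ 4 := by nlinarith
      have e3 := mul_le_mul_of_nonneg_left e2 hCd.le
      have e4 : 0 ≤ K0 * (G : ℝ) ^ 4 := by positivity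
      nlinarith
    · have : (edges t : ℝ) ≤ m2 := by exact_mod_cast h4
      linarith
  set η := A * (Real.exp (-(c * y)) + β / ((m2 : ℝ) * √(√(m2 : ℝ))))
    * ((((Λ : ℝ) + 1) ^ 2 * √((Λ : ℝ) + 1)) / cw) + ε * (3 * (Λ : ℝ) ^ 2) with hη
  have hη0 : 0 ≤ η := by positivity
  intro L π0 hπa hπL
  have key := hcut π0 Λ β η (fun t => MaxDeg t G ∧ ¬ Arc t π0 (y * K1) (y * v1))
    (fun π t => MaxDeg t G ∧ ¬ Arc t π K1 v1)
    (by have := Nat.mul_le_mul hπa hG; omega) hΛ1 hβ hη0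
    (fun L π h1 h2 => hH L π (h1.trans hπa) h2)
    (fun k t t' I hk h => ⟨maxdeg_face I h.1, fun d => h.2 (arc_face I hk d)⟩)
    (fun m t W1 W2 I hm h => ⟨(maxdeg_br I h.1).1, fun d => h.2 (arc_out I hm d)⟩)
    (fun m t W1 W2 I hm hπ h => by
      by_contra hcon
      simp only [not_or, not_and, not_not] at hcon
      have e := arc_hit I hm hπ (hcon.1 (maxdeg_br I h.1).1) (hcon.2 (maxdeg_br I h.1).2)
      exact h.2 (e.mono (by nlinarith) (by nlinarith)))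
    (fun L hL h2 => by
      refine (hb a m2 G K1 v1 β ε G hm21 hK0' hv0 hβ hε hstop hN hH y L π0 (by omega) hπa
        h2).trans ?_
      have hZ := Z_pos L
      have hLR : (L : ℝ) ≤ Λ := by exact_mod_cast hL
      have hL0 : (0 : ℝ) ≤ L := Nat.cast_nonneg L
      have e1 : (8 : ℝ) ^ L ≤ (((Λ : ℝ) + 1) ^ 2 * √((Λ : ℝ) + 1)) / cw * Z L := by
        have e0 := (hw L).1
        have e2 : ((L : ℝ) + 1) ^ 2 * √((L : ℝ) + 1) ≤ ((Λ : ℝ) + 1) ^ 2 * √((Λ : ℝ) + 1) := by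
          gcongr
        have e3 : cw ≤ w L * (((Λ : ℝ) + 1) ^ 2 * √((Λ : ℝ) + 1)) :=
          e0.trans (mul_le_mul_of_nonneg_left e2 (w_pos L).le)
        rw [w, div_mul_eq_mul_div, le_div_iff₀ (by positivity)] at e3
        rw [div_mul_eq_mul_div, le_div_iff₀ hcw]
        linarith
      have e4 : Bv L ≤ 3 * (Λ : ℝ) ^ 2 := by
        unfold Bv
        nlinarith
      have e5 : 0 ≤ A * (Real.exp (-(c * y)) + β / ((m2 : ℝ) * √(√(m2 : ℝ)))) := by positivity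
      have e6 := mul_le_mul_of_nonneg_left e1 e5
      have e7 : ε * (Bv L * Z L) ≤ ε * (3 * (Λ : ℝ) ^ 2 * Z L) := by gcongr
      rw [hη]
      linarith)
    L hπL
  refine key.trans (mul_le_mul_of_nonneg_right ?_ (Z_pos L).le)
  rw [← hΛR]
  have hs0 : 0 < √(Λ : ℝ) := Real.sqrt_pos.2 (by linarith)
  have f1 : √((Λ : ℝ) + 1) ≤ 2 * √(Λ : ℝ) := by
    rw [Real.sqrt_le_left (by positivity), mul_pow, Real.sq_sqrt (by linarith)]
    linarith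
  have f2 : √(Λ : ℝ) ≤ √(√(m2 : ℝ)) := by
    refine Real.sqrt_le_sqrt ?_
    refine Real.le_sqrt_of_sq_le ?_
    rw [hm2R]
    exact le_mul_of_one_le_right (by positivity) (by linarith)
  have f3 : √(Λ : ℝ) ≤ Λ := by
    rw [Real.sqrt_le_left (by linarith)]
    nlinarith
  have f4 : ((Λ : ℝ) + 1) ^ 2 ≤ 4 * (Λ : ℝ) ^ 2 := by nlinarith
  have f5 : ((Λ : ℝ) + 1) ^ 2 * √((Λ : ℝ) + 1) ≤ 8 * ((Λ : ℝ) ^ 2 * √(Λ : ℝ)) := by
    calc _ ≤ (4 * (Λ : ℝ) ^ 2) * (2 * √(Λ : ℝ)) := by gcongr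
      _ = _ := by ring
  have f6 : β / ((m2 : ℝ) * √(√(m2 : ℝ))) ≤ β / ((Λ : ℝ) ^ 2 * G * √(Λ : ℝ)) := by
    rw [← hm2R]
    have : (0 : ℝ) < m2 := by exact_mod_cast hm21
    gcongr
  have f7 : η ≤ A * (Real.exp (-(c * y)) + β / ((Λ : ℝ) ^ 2 * G * √(Λ : ℝ)))
      * (8 * ((Λ : ℝ) ^ 2 * √(Λ : ℝ)) / cw) + ε * (3 * (Λ : ℝ) ^ 2) := by
    rw [hη]; gcongr
  have f8 : A * (Real.exp (-(c * y)) + β / ((Λ : ℝ) ^ 2 * G * √(Λ : ℝ)))
      * (8 * ((Λ : ℝ) ^ 2 * √(Λ : ℝ)) / cw)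
      = 8 * A / cw * ((Λ : ℝ) ^ 2 * √(Λ : ℝ)) * Real.exp (-(c * y)) + 8 * A / cw / G * β := by
    field_simp
  have f9 : 8 * A / cw * ((Λ : ℝ) ^ 2 * √(Λ : ℝ)) * Real.exp (-(c * y))
      ≤ 8 * A / cw * (Λ : ℝ) ^ 3 * Real.exp (-(c * y)) := by
    have : (Λ : ℝ) ^ 2 * √(Λ : ℝ) ≤ (Λ : ℝ) ^ 3 := by
      calc _ ≤ (Λ : ℝ) ^ 2 * Λ := by gcongr
        _ = _ := by ring
    gcongr
  have f10 : Cc * β * ((π0 : ℝ) + 1) / Λ ≤ 2 * Cc / G * β := by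
    have : (π0 : ℝ) ≤ a := by exact_mod_cast hπa
    calc Cc * β * ((π0 : ℝ) + 1) / Λ ≤ Cc * β * (2 * a) / Λ := by gcongr; linarith
      _ = _ := by rw [hΛR]; field_simp
  have f11 : (8 * A / cw + 2 * Cc) / G * β = 8 * A / cw / G * β + 2 * Cc / G * β := by ring
  linarith

theorem arc_asymp (E K : ℕ) : ∃ G0 : ℕ, ∀ G : ℕ, G0 ≤ G → ∀ a : ℕ, 1 ≤ a → a ≤ G ^ E →
    NearHyp a G (1 / (G : ℝ) ^ (K + 2 * E + 4)) →
    ArcHyp G a ((G : ℝ) ^ 6) (2 * (G : ℝ) ^ 4 * (a : ℝ) ^ 2) (1 / (G : ℝ) ^ K) := by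
  obtain ⟨c, B, C, K0, hc, hB, hC, hK0, hstep⟩ := xarclevel_step
  obtain ⟨y0, hy0⟩ := xarclevel_ev c (8 * B) hc ((2 * (K + 1)) * (3 * E + 3 + K))
  refine ⟨(y0 + 2) ^ (2 * (K + 1)) + ⌈C ^ 2 + 2 * C + K0⌉₊ + 5, fun G hG a ha haG hN => ?_⟩
  obtain ⟨y, hy1, hy2⟩ := xarclevel_root (2 * (K + 1)) G (by omega)
  have hyy : y0 + 2 ≤ y := by
    have h1 : (y0 + 2) ^ (2 * (K + 1)) < (y + 1) ^ (2 * (K + 1)) := by omega
    have := lt_of_pow_lt_pow_left₀ _ (Nat.zero_le _) h1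
    omega
  have hG5 : 5 ≤ G := by omega
  have hG5R : (5 : ℝ) ≤ G := by exact_mod_cast hG5
  have hG0 : (0 : ℝ) < G := by linarith
  have hG1 : (1 : ℝ) ≤ G := by linarith
  have hCG : C ^ 2 + 2 * C + K0 ≤ G := by
    refine (Nat.le_ceil _).trans ?_
    exact_mod_cast (by omega : ⌈C ^ 2 + 2 * C + K0⌉₊ ≤ G)
  have ha1 : (1 : ℝ) ≤ a := by exact_mod_cast ha
  have haR : (a : ℝ) ≤ (G : ℝ) ^ E := by exact_mod_cast haG
  have hy1R : (y : ℝ) ^ (2 * (K + 1)) ≤ G := by exact_mod_cast hy1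
  have hy2R : (G : ℝ) ≤ ((y : ℝ) + 1) ^ (2 * (K + 1)) := by exact_mod_cast hy2.le
  have hyR : (1 : ℝ) ≤ y := by exact_mod_cast (by omega : 1 ≤ y)
  set ε := 1 / (G : ℝ) ^ (K + 2 * E + 4) with hε
  have hε0 : 0 ≤ ε := by positivity
  set η := B * ((a : ℝ) * G) ^ 3 * Real.exp (-(c * y)) + 3 * ε * ((a : ℝ) * G) ^ 2 with hη
  have hη0 : 0 ≤ η := by positivity
  set v0 : ℝ := (((a * G) ^ 2 * G : ℕ) : ℝ) + 1 with hv0
  have hv00 : 0 ≤ v0 := by positivity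
  have hθ : C / G ≤ 1 / 2 := by
    rw [div_le_iff₀ hG0]
    nlinarith [sq_nonneg C]
  have hθ0 : 0 ≤ C / G := by positivity
  have iter : ∀ j : ℕ, ArcHyp G a ((y : ℝ) ^ j * (K0 * (G : ℝ) ^ 4)) ((y : ℝ) ^ j * v0)
      ((C / G) ^ j + 2 * η) := by
    intro j
    induction j with
    | zero =>
      intro L π _ _
      refine (mass_le_Z _ _).trans (le_mul_of_one_le_left (Z_pos L).le ?_)
      rw [pow_zero]; linarith
    | succ j ih =>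
      have h1 : (1 : ℝ) ≤ (y : ℝ) ^ j := one_le_pow₀ hyR
      have := hstep G a y _ _ _ ε (by omega) ha (by omega)
        (le_mul_of_one_le_left (by positivity) h1) (le_mul_of_one_le_left hv00 h1)
        (by positivity) hε0 hN ih
      refine xarclevel_mono this (le_of_eq (by ring)) (le_of_eq (by ring)) ?_
      rw [← hη, pow_succ]
      nlinarith
  refine xarclevel_mono (iter (2 * (K + 1))) ?_ ?_ ?_
  · have h1 : K0 ≤ G := by nlinarith [sq_nonneg C]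
    calc _ ≤ (G : ℝ) * (G * (G : ℝ) ^ 4) := by gcongr
      _ = _ := by ring
  · have h1 : (1 : ℝ) ≤ ((a : ℝ) * G) ^ 2 * G :=
      one_le_mul_of_one_le_of_one_le (one_le_pow₀ (one_le_mul_of_one_le_of_one_le ha1 hG1)) hG1
    have h2 : v0 ≤ 2 * (((a : ℝ) * G) ^ 2 * G) := by
      rw [hv0]; push_cast; linarith
    calc _ ≤ (G : ℝ) * (2 * (((a : ℝ) * G) ^ 2 * G)) := by gcongr
      _ = _ := by ring
  · have hGK : (0 : ℝ) < (G : ℝ) ^ K := by positivity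
    have haG' : (a : ℝ) * G ≤ (G : ℝ) ^ (E + 1) := by rw [pow_succ]; gcongr
    have c1 : (C / G) ^ (2 * (K + 1)) ≤ 1 / (G : ℝ) ^ K / 2 := by
      have d1 : (C / G) ^ 2 ≤ 1 / G := by
        rw [div_pow, div_le_div_iff₀ (by positivity) hG0]
        have : C ^ 2 ≤ G := by linarith
        nlinarith
      calc (C / G) ^ (2 * (K + 1)) = ((C / G) ^ 2) ^ (K + 1) := pow_mul _ _ _
        _ ≤ (1 / G) ^ (K + 1) := by gcongr
        _ = 1 / (G : ℝ) ^ K / G := by rw [one_div_pow, pow_succ]; field_simp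
        _ ≤ _ := by gcongr; linarith
    have c2 : 3 * ε * ((a : ℝ) * G) ^ 2 ≤ 1 / (G : ℝ) ^ K / 8 := by
      calc 3 * ε * ((a : ℝ) * G) ^ 2 ≤ 3 * ε * ((G : ℝ) ^ (E + 1)) ^ 2 := by gcongr
        _ = 1 / (G : ℝ) ^ K * (3 / (G : ℝ) ^ 2) := by rw [hε]; field_simp; ring
        _ ≤ 1 / (G : ℝ) ^ K * (1 / 8) := by
          gcongr ?_ * ?_
          rw [div_le_div_iff₀ (by positivity) (by norm_num)]
          nlinarith
        _ = _ := by ring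
    have c3 : B * ((a : ℝ) * G) ^ 3 * Real.exp (-(c * y)) ≤ 1 / (G : ℝ) ^ K / 8 := by
      have d1 := hy0 y (by omega)
      have d2 : (G : ℝ) ^ (3 * E + 3 + K) ≤ ((y : ℝ) + 1) ^ ((2 * (K + 1)) * (3 * E + 3 + K)) := by
        rw [pow_mul]; gcongr
      have d3 : 8 * B * (G : ℝ) ^ (3 * E + 3 + K) * Real.exp (-(c * y)) ≤ 1 := by
        refine le_trans ?_ d1
        gcongr
      calc B * ((a : ℝ) * G) ^ 3 * Real.exp (-(c * y))
          ≤ B * ((G : ℝ) ^ (E + 1)) ^ 3 * Real.exp (-(c * y)) := by gcongr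
        _ = 1 / (G : ℝ) ^ K / 8 * (8 * B * (G : ℝ) ^ (3 * E + 3 + K) * Real.exp (-(c * y))) := by
          field_simp; ring
        _ ≤ 1 / (G : ℝ) ^ K / 8 * 1 := by gcongr
        _ = _ := mul_one _
    rw [hη]
    linarith

end Pool.Agent.P.MP_7a6434d8_pr
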