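import Pool.Agent.P.MP_7a6434d8_pr.NumA
import Pool.Agent.P.MP_7a6434d8_pr.Defs2

namespace Pool.Agent.P.MP_7a6434d8_pr

open Mp Finset
open scoped ENNReal

/-- the potential `x ^ (-1/1000)` -/
noncomputable def xarcnum_G (x : ℝ) : ℝ := Real.exp (-(1 / 1000) * Real.log x)

theorem xarcnum_G_pos (x : ℝ) : 0 < xarcnum_G x := Real.exp_pos _

theorem xarcnum_exp {z : ℝ} (hz : |z| ≤ 1) : Real.exp z ≤ 1 + z + z ^ 2 := by
  have h := (abs_le.1 (Real.abs_exp_sub_one_sub_id_le hz)).2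
  linarith

theorem xarcnum_G_mul {B t : ℝ} (hB : 0 < B) (ht : 0 < t) :
    xarcnum_G (B * t) = xarcnum_G B * Real.exp (-(1 / 1000) * Real.log t) := by
  unfold xarcnum_G
  rw [Real.log_mul hB.ne' ht.ne', ← Real.exp_add]
  congr 1
  ring

theorem xarcnum_G_anti {x y : ℝ} (hx : 0 < x) (hxy : x ≤ y) : xarcnum_G y ≤ xarcnum_G x := by
  unfold xarcnum_G
  have := Real.log_le_log hx hxy
  exact Real.exp_le_exp.2 (by linarith)

theorem xarcnum_face {B : ℝ} (hB : 2 ≤ B) :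
    xarcnum_G (B + 2) ≤ xarcnum_G B * (1 - 1 / 1000 * (2 / B) + 6 / 10000 * (2 / B) ^ 2) := by
  have hB0 : 0 < B := by linarith
  set x := 2 / B with hx
  have hx0 : 0 < x := by positivity
  have hx1 : x ≤ 1 := by rw [hx, div_le_one hB0]; exact hB
  have e : B + 2 = B * (1 + x) := by rw [hx]; field_simp
  rw [e, xarcnum_G_mul hB0 (by linarith)]
  refine mul_le_mul_of_nonneg_left ?_ (xarcnum_G_pos B).le
  have h1 : 2 * x / (x + 2) ≤ Real.log (1 + x) := Real.le_log_one_add_of_nonneg hx0.le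
  have h2 : x - x ^ 2 / 2 ≤ 2 * x / (x + 2) := by
    rw [le_div_iff₀ (by linarith)]
    nlinarith [pow_pos hx0 3]
  have h3 : Real.log (1 + x) ≤ x := by
    have := Real.log_le_sub_one_of_pos (show 0 < 1 + x by linarith)
    linarith
  set y := Real.log (1 + x) with hy
  have hy0 : 0 ≤ y := Real.log_nonneg (by linarith)
  have h4 : |(-(1 / 1000) * y)| ≤ 1 := by
    rw [abs_le]; constructor <;> linarith
  refine (xarcnum_exp h4).trans ?_
  have h5 : y ^ 2 ≤ x ^ 2 := pow_le_pow_left₀ hy0 h3 2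
  nlinarith [sq_nonneg x]

theorem xarcnum_log {u : ℝ} (h0 : 0 ≤ u) (h1 : u ≤ 1 / 2) :
    -Real.log (1 - u) ≤ u + 88 / 100 * u ^ 2 := by
  have habs : |u| = u := abs_of_nonneg h0
  have h := Real.abs_log_sub_add_sum_range_le (x := u) (by rw [habs]; linarith) 5
  rw [habs] at h
  have h2 := (abs_le.1 h).1
  simp only [sum_range_succ, sum_range_zero] at h2
  norm_num at h2
  have h3 : u ^ 6 / (1 - u) ≤ 2 * u ^ 6 := by
    rw [div_le_iff₀ (by linarith)]
    nlinarith [pow_nonneg h0 6]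
  have p1 : u ^ 3 ≤ u ^ 2 / 2 := by nlinarith [pow_nonneg h0 2]
  have p2 : u ^ 4 ≤ u ^ 3 / 2 := by nlinarith [pow_nonneg h0 3]
  have p3 : u ^ 5 ≤ u ^ 4 / 2 := by nlinarith [pow_nonneg h0 4]
  have p4 : u ^ 6 ≤ u ^ 5 / 2 := by nlinarith [pow_nonneg h0 5]
  nlinarith [pow_nonneg h0 2]

theorem xarcnum_part {B δ : ℝ} (hB : 0 < B) (h0 : 0 ≤ δ) (h1 : δ ≤ B / 2) :
    xarcnum_G (B - δ) ≤ xarcnum_G B * (1 + 1 / 1000 * (δ / B) + 9 / 10000 * (δ / B) ^ 2) := by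
  set u := δ / B with hu
  have hu0 : 0 ≤ u := by positivity
  have hu1 : u ≤ 1 / 2 := by rw [hu, div_le_iff₀ hB]; linarith
  have e : B - δ = B * (1 - u) := by rw [hu]; field_simp
  rw [e, xarcnum_G_mul hB (by linarith)]
  refine mul_le_mul_of_nonneg_left ?_ (xarcnum_G_pos B).le
  have h2 := xarcnum_log hu0 hu1
  have h3 : Real.log (1 - u) ≤ 0 := Real.log_nonpos (by linarith) (by linarith)
  set y := -Real.log (1 - u) with hy
  have hy0 : 0 ≤ y := by linarith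
  have e2 : -(1 / 1000) * Real.log (1 - u) = 1 / 1000 * y := by rw [hy]; ring
  rw [e2]
  have h4 : y ≤ 2 * u := by nlinarith
  have h5 : |1 / 1000 * y| ≤ 1 := by
    rw [abs_le]; constructor <;> linarith
  refine (xarcnum_exp h5).trans ?_
  have h6 : y ^ 2 ≤ (2 * u) ^ 2 := pow_le_pow_left₀ hy0 h4 2
  nlinarith [sq_nonneg u]

theorem xarcnum_hit {B B' : ℝ} (hB : 0 < B) (h : B / 2 ≤ B') :
    Real.exp (1 / 50000) * xarcnum_G B' ≤ xarcnum_G B * (1 + 72 / 100000) := by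
  have h1 : xarcnum_G B' ≤ xarcnum_G (B * (1 / 2)) :=
    xarcnum_G_anti (by positivity) (by linarith)
  rw [xarcnum_G_mul hB (by norm_num)] at h1
  refine (mul_le_mul_of_nonneg_left h1 (Real.exp_pos _).le).trans ?_
  rw [mul_left_comm, ← Real.exp_add]
  refine mul_le_mul_of_nonneg_left ?_ (xarcnum_G_pos B).le
  have e : Real.log (1 / 2) = -Real.log 2 := by rw [one_div, Real.log_inv]
  rw [e]
  have l1 := Real.log_two_lt_d9
  have l2 := Real.log_two_gt_d9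
  set y := Real.log 2
  have h5 : |1 / 50000 + -(1 / 1000) * -y| ≤ 1 := by
    rw [abs_le]; constructor <;> linarith
  refine (xarcnum_exp h5).trans ?_
  nlinarith

theorem xarcnum_sum2 (m : ℕ) : ∑ j ∈ range m, ((j : ℝ) + 1) ^ 2 * w j
    = (2 * (m : ℝ) ^ 3 + 8 * m ^ 2 + 28 * m / 3 + 8 / 3) * w m - 8 / 3 := by
  induction m with
  | zero => simp [w_zero]
  | succ m ih =>
    rw [sum_range_succ, ih, w_succ]
    push_cast
    field_simp
    ring

theorem xarcnum_poly {m B : ℝ} (hm : 10 ≤ m) (h1 : 4 * m ≤ B) (h2 : B ≤ 4 * m + 4) :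
    45 / 100 * (2 * m ^ 3 + 8 * m ^ 2 + 28 * m / 3 + 8 / 3) + 3 / 100 * (2 * m + 4) * B ^ 2
      ≤ (2 * m ^ 2 + 16 * m / 3 + 8 / 3) * B / 4 := by
  obtain ⟨s, rfl⟩ : ∃ s, B = 4 * m + s := ⟨B - 4 * m, by ring⟩
  have hs0 : 0 ≤ s := by linarith
  have hs4 : s ≤ 4 := by linarith
  have a1 : s ^ 2 ≤ 4 * s := by nlinarith
  have a2 : 10 * m ≤ m ^ 2 := by nlinarith
  have a3 : 10 * m ^ 2 ≤ m ^ 3 := by nlinarith
  have a4 : 0 ≤ s * m := by positivity
  have a5 : 0 ≤ s * m ^ 2 := by positivity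
  have a6 : m * s ^ 2 ≤ m * (4 * s) := mul_le_mul_of_nonneg_left a1 (by linarith)
  nlinarith

/-- one side of the cut: partners and hits together -/
theorem xarcnum_side (b m : ℕ) (B' : ℝ) (hm : 10 ≤ m) (h1 : 4 * m ≤ b + 2) (h2 : b ≤ 4 * m + 2)
    (hB' : ((b : ℝ) + 2) / 2 ≤ B') :
    ∑ j ∈ range m, w j / 8 * xarcnum_G (((b - 2 * j - 2 : ℕ) : ℝ) + 2)
      + Real.exp (1 / 50000) * ((2 * (m : ℝ) + 4) / 3 * w m / 8 * xarcnum_G B')
      ≤ xarcnum_G ((b : ℝ) + 2) * (1 / 6 + 1 / 1000 * (2 / 3 / ((b : ℝ) + 2))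
        - 12 / 10000 / ((b : ℝ) + 2) ^ 2) := by
  set B : ℝ := (b : ℝ) + 2 with hB
  have hB0 : 0 < B := by positivity
  have hG := xarcnum_G_pos B
  have hw := w_pos m
  have s1 : ∑ j ∈ range m, w j / 8 * xarcnum_G (((b - 2 * j - 2 : ℕ) : ℝ) + 2)
      ≤ ∑ j ∈ range m, xarcnum_G B * (1 / 8 * w j + 1 / 4000 / B * (((j : ℝ) + 1) * w j)
          + 9 / 20000 / B ^ 2 * (((j : ℝ) + 1) ^ 2 * w j)) := by
    refine sum_le_sum fun j hj => ?_
    have hj' := mem_range.1 hj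
    have e : (((b - 2 * j - 2 : ℕ) : ℝ) + 2) = B - (2 * j + 2) := by
      rw [Nat.sub_sub, Nat.cast_sub (by omega), hB]
      push_cast
      ring
    have hd : (2 * (j : ℝ) + 2) ≤ B / 2 := by
      have : 4 * j + 4 ≤ b + 2 := by omega
      have : (4 * (j : ℝ) + 4) ≤ b + 2 := by exact_mod_cast this
      rw [hB]; linarith
    have h := xarcnum_part hB0 (by positivity) hd
    rw [e]
    refine (mul_le_mul_of_nonneg_left h (by have := w_pos j; positivity)).trans (le_of_eq ?_)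
    field_simp
    ring
  rw [← mul_sum, sum_add_distrib, sum_add_distrib, ← mul_sum, ← mul_sum, ← mul_sum, sum_w, sum_jw,
    xarcnum_sum2] at s1
  have s2 : Real.exp (1 / 50000) * ((2 * (m : ℝ) + 4) / 3 * w m / 8 * xarcnum_G B')
      ≤ xarcnum_G B * ((2 * (m : ℝ) + 4) / 3 * w m / 8 * (1 + 72 / 100000)) := by
    have h := mul_le_mul_of_nonneg_left (xarcnum_hit hB0 hB')
      (show 0 ≤ (2 * (m : ℝ) + 4) / 3 * w m / 8 by positivity)
    linarith
  refine (add_le_add s1 s2).trans ?_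
  rw [← mul_add]
  refine mul_le_mul_of_nonneg_left ?_ hG.le
  have hm' : (10 : ℝ) ≤ m := by exact_mod_cast hm
  have h1' : 4 * (m : ℝ) ≤ B := by rw [hB]; exact_mod_cast h1
  have h2' : B ≤ 4 * (m : ℝ) + 4 := by
    have : (b : ℝ) ≤ 4 * m + 2 := by exact_mod_cast h2
    rw [hB]; linarith
  have hp := mul_le_mul_of_nonneg_left (xarcnum_poly hm' h1' h2')
    (show 0 ≤ w m / 1000 / B ^ 2 by positivity)
  rw [← sub_nonneg] at hp ⊢
  refine hp.trans (le_of_eq ?_)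
  field_simp
  ring

theorem arc_num : ∃ (c A : ℝ) (b0 : ℕ) (g : ℕ → ℝ), 0 < c ∧ 0 < A ∧ 1 ≤ b0 ∧ (∀ b, 0 < g b) ∧
    (∀ b, g b ≤ 1) ∧ (∀ L b, b ≤ 2 * L → w L ≤ A * g b) ∧
    (∀ b, b < b0 → Real.exp c * g (b + b0) ≤ g b) ∧
    ∀ b, b0 ≤ b → 2 / 3 * g (b + 2)
      + ∑ j ∈ range ((b - b / 2) / 2), w j / 8 * g (b - 2 * j - 2)
      + ∑ j ∈ range ((b / 2 + 1) / 2), w j / 8 * g (b - 2 * j - 2)
      + Real.exp c * ((2 * (((b / 2 + 1) / 2 : ℕ) : ℝ) + 4) / 3 * w ((b / 2 + 1) / 2) / 8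
            * g (b - b / 2 - 1)
          + (2 * (((b - b / 2) / 2 : ℕ) : ℝ) + 4) / 3 * w ((b - b / 2) / 2) / 8 * g (b / 2))
      ≤ g b := by
  refine ⟨1 / 50000, 4, 100, fun b => xarcnum_G ((b : ℝ) + 2), by norm_num, by norm_num,
    by norm_num, fun b => xarcnum_G_pos _, fun b => ?_, fun L b hb => ?_, fun b hb => ?_,
    fun b hb => ?_⟩
  · have h0 : (0 : ℝ) ≤ b := Nat.cast_nonneg b
    have := Real.log_nonneg (show (1 : ℝ) ≤ b + 2 by linarith)
    exact Real.exp_le_one_iff.2 (by linarith)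
  · have h0 : (0 : ℝ) ≤ b := Nat.cast_nonneg b
    have hb' : (b : ℝ) ≤ 2 * L := by exact_mod_cast hb
    have hl := Real.log_nonneg (show (1 : ℝ) ≤ b + 2 by linarith)
    have h1 : ((b : ℝ) + 2)⁻¹ ≤ xarcnum_G ((b : ℝ) + 2) := by
      unfold xarcnum_G
      rw [← Real.exp_log (show (0 : ℝ) < ((b : ℝ) + 2)⁻¹ by positivity), Real.log_inv]
      exact Real.exp_le_exp.2 (by linarith)
    have h2 : 0 ≤ ∑ j ∈ range L, w j := sum_nonneg fun j _ => (w_pos j).le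
    rw [sum_w] at h2
    have h3 : w L ≤ 4 * ((b : ℝ) + 2)⁻¹ := by
      rw [← div_eq_mul_inv, le_div_iff₀ (by positivity)]
      nlinarith [w_pos L]
    linarith
  · have h0 : (0 : ℝ) ≤ b := Nat.cast_nonneg b
    have hb' : (b : ℝ) ≤ 100 := by exact_mod_cast hb.le
    have h1 : xarcnum_G (((b + 100 : ℕ) : ℝ) + 2) ≤ xarcnum_G (((b : ℝ) + 2) * (3 / 2)) := by
      refine xarcnum_G_anti (by positivity) ?_
      push_cast
      linarith
    rw [xarcnum_G_mul (by positivity) (by norm_num)] at h1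
    refine (mul_le_mul_of_nonneg_left h1 (Real.exp_pos _).le).trans ?_
    rw [mul_left_comm, ← Real.exp_add]
    refine mul_le_of_le_one_right (xarcnum_G_pos _).le (Real.exp_le_one_iff.2 ?_)
    have := Real.one_sub_inv_le_log_of_pos (show (0 : ℝ) < 3 / 2 by norm_num)
    norm_num at this ⊢
    linarith
  · have h0 : (0 : ℝ) ≤ b := Nat.cast_nonneg b
    have r := xarcnum_side b ((b - b / 2) / 2) (((b / 2 : ℕ) : ℝ) + 2) (by omega) (by omega)
      (by omega) (by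
        have : b ≤ 2 * (b / 2) + 2 := by omega
        have : (b : ℝ) ≤ 2 * ((b / 2 : ℕ) : ℝ) + 2 := by exact_mod_cast this
        linarith)
    have l := xarcnum_side b ((b / 2 + 1) / 2) (((b - b / 2 - 1 : ℕ) : ℝ) + 2) (by omega)
      (by omega) (by omega) (by
        have : b ≤ 2 * (b - b / 2 - 1) + 2 := by omega
        have : (b : ℝ) ≤ 2 * ((b - b / 2 - 1 : ℕ) : ℝ) + 2 := by exact_mod_cast this
        linarith)
    have f := xarcnum_face (B := (b : ℝ) + 2) (by linarith)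
    have e : (((b + 2 : ℕ) : ℝ) + 2) = (b : ℝ) + 2 + 2 := by push_cast; ring
    simp only [e]
    set B : ℝ := (b : ℝ) + 2 with hB
    have hB0 : 0 < B := by positivity
    have hG := xarcnum_G_pos B
    have key : 2 / 3 * (xarcnum_G B * (1 - 1 / 1000 * (2 / B) + 6 / 10000 * (2 / B) ^ 2))
        + 2 * (xarcnum_G B * (1 / 6 + 1 / 1000 * (2 / 3 / B) - 12 / 10000 / B ^ 2))
        = xarcnum_G B - 8 / 10000 * (xarcnum_G B / B ^ 2) := by
      field_simp
      ring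
    have : 0 ≤ xarcnum_G B / B ^ 2 := by positivity
    linarith

end Pool.Agent.P.MP_7a6434d8_pr
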