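import Pool.Agent.P.MP_7a6434d8_pr.XGraphB
import Pool.Agent.P.MP_7a6434d8_pr.RotB

namespace Pool.Agent.P.MP_7a6434d8_pr

open Mp Finset
open scoped ENNReal

theorem lab_pt {l : ℕ → ℤ} {A B : Set ℤ} (h : Lab pt l A B) : l 0 ∈ A ∧ l 0 ∈ B := by
  obtain ⟨f, v, h1, -, -, h4, h5⟩ := h
  have e : f v = l 0 := h1 0 (Nat.zero_le _)
  exact ⟨e ▸ h4, e ▸ h5 v⟩

theorem xlabdet_bv_face (t : Mp) (p : ℕ) (hp : p ≠ 0) : bv (face t) p = bv t (p + 2) := by
  show (if p = 0 then bv t 0 else bv t (p + 2)) = _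
  rw [if_neg hp]

theorem xlabdet_bv_face0 (t : Mp) : bv (face t) 0 = bv t 0 := by
  show (if (0 : ℕ) = 0 then bv t 0 else bv t (0 + 2)) = _
  rw [if_pos rfl]

theorem lab_face {t : Mp} {l : ℕ → ℤ} {A B : Set ℤ} (ht : ok (face t)) (h : Lab (face t) l A B)
    (h1 : l 1 = l 0 + 1) (h2 : l 2 = l 0) :
    (l 0 + 2 ∈ B ∧ Lab t (ins l (l 0 + 1) (l 0 + 2)) A B) ∨ Lab t (ins l (l 0 + 1) (l 0)) A B ∨
      (l 0 - 1 ∈ B ∧ Lab t (ins l (l 0 - 1) (l 0)) A B) := by
  obtain ⟨hok, hper⟩ : ok t ∧ 2 ≤ per t := ht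
  obtain ⟨f, v, hb, ha, hs, hA, hB⟩ := h
  have hpf : per (face t) = per t - 1 := rfl
  let g : V t → ℤ := f
  have hg : ∀ p, 3 ≤ p → p ≤ 2 * per t → g (bv t p) = l (p - 2) := by
    intro p h3 hp
    have e := hb (p - 2) (by rw [hpf]; omega)
    rw [xlabdet_bv_face t (p - 2) (by omega), show p - 2 + 2 = p by omega] at e
    exact e
  have g0 : g (bv t 0) = l 0 := by
    have e := hb 0 (Nat.zero_le _)
    rw [xlabdet_bv_face0] at e
    exact e
  have g3 : g (bv t 3) = l 0 + 1 := (hg 3 le_rfl (by omega)).trans h1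
  have g4 : g (bv t 4) = l 0 := (hg 4 (by omega) (by omega)).trans h2
  have hadj : ∀ x y, adj t x y → g x = g y + 1 ∨ g y = g x + 1 :=
    fun x y hxy => ha x y (Or.inl hxy)
  have key : Lab t (ins l (g (bv t 1)) (g (bv t 2))) A B := by
    refine ⟨g, v, fun p hp => ?_, hadj, fun x hx => ?_, hA, hB⟩
    · unfold ins
      by_cases p0 : p = 0
      · rw [if_pos p0, p0, g0]
      · rw [if_neg p0]
        by_cases p1 : p = 1
        · rw [if_pos p1, p1]
        · rw [if_neg p1]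
          by_cases p2 : p = 2
          · rw [if_pos p2, p2]
          · rw [if_neg p2]
            exact hg p (by omega) hp
    · obtain ⟨y, hy, e⟩ := hs x hx
      have e' : g x = g y + 1 := e
      rcases hy with hy | ⟨hx0, hy3⟩ | ⟨hx3, hy0⟩
      · exact ⟨y, hy, e'⟩
      · rw [hx0, hy3, g0, g3] at e'
        omega
      · refine ⟨bv t 4, ?_, ?_⟩
        · rw [hx3]
          exact adj_bv t hok 3 (by omega)
        · rw [hx3, g3, g4]
  have a01 := hadj _ _ (adj_bv t hok 0 (by omega))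
  have a12 := hadj _ _ (adj_bv t hok 1 (by omega))
  have a23 := hadj _ _ (adj_bv t hok 2 (by omega))
  have b1 : g (bv t 1) ∈ B := hB _
  have b2 : g (bv t 2) ∈ B := hB _
  simp only [zero_add, Nat.reduceAdd] at a01 a12 a23
  rw [g0] at a01
  rw [g3] at a23
  have hc : (g (bv t 1) = l 0 + 1 ∧ g (bv t 2) = l 0 + 2) ∨
      (g (bv t 1) = l 0 + 1 ∧ g (bv t 2) = l 0) ∨
      (g (bv t 1) = l 0 - 1 ∧ g (bv t 2) = l 0) := by omega
  rcases hc with ⟨e1, e2⟩ | ⟨e1, e2⟩ | ⟨e1, e2⟩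
  · rw [e1, e2] at key
    rw [e2] at b2
    exact Or.inl ⟨b2, key⟩
  · rw [e1, e2] at key
    exact Or.inr (Or.inl key)
  · rw [e1, e2] at key
    rw [e1] at b1
    exact Or.inr (Or.inr ⟨b1, key⟩)

theorem xlabdet_bv0 (a b : Mp) : bv (bridge a b) 0 = Sum.inl (bv a 0) := by
  show (if (0 : ℕ) = 0 then (Sum.inl (bv a 0) : V a ⊕ V b) else _) = _
  rw [if_pos rfl]

theorem xlabdet_bvb (a b : Mp) (p : ℕ) (hp : p ≤ 2 * per b) :
    bv (bridge a b) (p + 1) = Sum.inr (bv b p) := by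
  show (if p + 1 = 0 then (Sum.inl (bv a 0) : V a ⊕ V b)
    else if p + 1 ≤ 2 * per b + 1 then Sum.inr (bv b (p + 1 - 1))
    else Sum.inl (bv a (p + 1 - 2 * per b - 2))) = _
  rw [if_neg (by omega), if_pos (by omega), Nat.add_sub_cancel]

theorem xlabdet_bva (a b : Mp) (p : ℕ) :
    bv (bridge a b) (p + 2 * per b + 2) = Sum.inl (bv a p) := by
  show (if p + 2 * per b + 2 = 0 then (Sum.inl (bv a 0) : V a ⊕ V b)
    else if p + 2 * per b + 2 ≤ 2 * per b + 1 then Sum.inr (bv b (p + 2 * per b + 2 - 1))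
    else Sum.inl (bv a (p + 2 * per b + 2 - 2 * per b - 2))) = _
  rw [if_neg (by omega), if_neg (by omega), show p + 2 * per b + 2 - 2 * per b - 2 = p by omega]

theorem lab_bridge {a b : Mp} {l : ℕ → ℤ} {A B : Set ℤ} (ht : ok (bridge a b))
    (h : Lab (bridge a b) l A B) (h1 : l 1 = l 0 + 1) (h2 : l 2 = l 0) :
    b = pt ∧ Lab a (fun p => l (p + 2)) A B := by
  obtain ⟨hoa, hob⟩ : ok a ∧ ok b := ht
  obtain ⟨f, v, hb, ha, hs, hA, hB⟩ := h
  have hpf : per (bridge a b) = per a + per b + 1 := rfl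
  let g : V a ⊕ V b → ℤ := f
  have g0 : g (Sum.inl (bv a 0)) = l 0 := by
    have e := hb 0 (Nat.zero_le _)
    rw [xlabdet_bv0] at e
    exact e
  have g1 : g (Sum.inr (bv b 0)) = l 0 + 1 := by
    have e := hb (0 + 1) (by rw [hpf]; omega)
    rw [xlabdet_bvb a b 0 (Nat.zero_le _)] at e
    exact e.trans h1
  have hsa : ∀ x : V a, (Sum.inl x : V a ⊕ V b) ≠ v →
      ∃ y, adj a x y ∧ g (Sum.inl x) = g (Sum.inl y) + 1 := by
    intro x hx
    obtain ⟨y, hy, e⟩ := hs (Sum.inl x) hx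
    rcases y with y | y
    · exact ⟨y, hy, e⟩
    · obtain ⟨hx0, hy0⟩ : x = bv a 0 ∧ y = bv b 0 := hy
      have e' : g (Sum.inl x) = g (Sum.inr y) + 1 := e
      rw [hx0, hy0, g0, g1] at e'
      omega
  haveI : Nonempty (V a) := ⟨bv a 0⟩
  haveI : Nonempty (V b) := ⟨bv b 0⟩
  obtain ⟨x, hx⟩ := Finite.exists_min (fun x : V a => g (Sum.inl x))
  have hv : (Sum.inl x : V a ⊕ V b) = v := by
    by_contra hne
    obtain ⟨y, -, e⟩ := hsa x hne
    have := hx y
    omega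
  have hpb : per b = 0 := by
    by_contra hne
    have g2 : g (Sum.inr (bv b 1)) = l 0 := by
      have e := hb (1 + 1) (by rw [hpf]; omega)
      rw [xlabdet_bvb a b 1 (by omega)] at e
      exact e.trans h2
    obtain ⟨z, hz⟩ := Finite.exists_min (fun z : V b => g (Sum.inr z))
    have hzv : (Sum.inr z : V a ⊕ V b) ≠ v := by
      rw [← hv]
      exact Sum.inr_ne_inl
    obtain ⟨y, hy, e⟩ := hs (Sum.inr z) hzv
    rcases y with y | y
    · obtain ⟨hz0, -⟩ : z = bv b 0 ∧ y = bv a 0 := hy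
      have := hz (bv b 1)
      rw [hz0, g1, g2] at this
      omega
    · have e' : g (Sum.inr z) = g (Sum.inr y) + 1 := e
      have := hz y
      omega
  refine ⟨eq_pt_of_per_zero b hob hpb, fun y => g (Sum.inl y), x, fun p hp => ?_,
    fun y z hyz => ha (Sum.inl y) (Sum.inl z) hyz, fun y hy => ?_, ?_, fun y => hB _⟩
  · have e := hb (p + 2 * per b + 2) (by rw [hpf]; omega)
    rw [xlabdet_bva, hpb] at e
    exact e
  · refine hsa y ?_
    rw [← hv]
    exact fun hh => hy (Sum.inl_injective hh)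
  · have hA' : g v ∈ A := hA
    rw [← hv] at hA'
    exact hA'

theorem lab_rot {t : Mp} {l : ℕ → ℤ} {A B : Set ℤ} (ht : ok t) (k : ℕ) (h : Lab t l A B)
    (hL : 1 ≤ per t) : Lab (rotN k t) (fun p => l ((p + k) % (2 * per t))) A B := by
  obtain ⟨f, v, hb, ha, hs, hA, hB⟩ := h
  obtain ⟨e, he, hbv⟩ := rotN_shift k t ht
  have hadj := equiv_adj ht (rotN_ok k t ht) e he
  refine ⟨fun x => f (e x), e.symm v, fun p hp => ?_, fun x y hxy => ha _ _ ((hadj x y).2 hxy),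
    fun x hx => ?_, ?_, fun x => hB _⟩
  · rw [rotN_per k t ht] at hp
    show f (e (bv (rotN k t) p)) = _
    rw [hbv p hp]
    exact hb _ (Nat.mod_lt _ (by omega)).le
  · have hx' : e x ≠ v := fun hh => hx (by rw [← hh, Equiv.symm_apply_apply])
    obtain ⟨y, hy, ey⟩ := hs (e x) hx'
    refine ⟨e.symm y, (hadj x (e.symm y)).1 ?_, ?_⟩
    · rw [Equiv.apply_symm_apply]
      exact hy
    · show f (e x) = f (e (e.symm y)) + 1
      rw [Equiv.apply_symm_apply]
      exact ey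
  · show f (e (e.symm v)) ∈ A
    rw [Equiv.apply_symm_apply]
    exact hA

end Pool.Agent.P.MP_7a6434d8_pr
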