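import Pool.Agent.P.MP_7a6434d8_pr.XIE
import Pool.Agent.P.MP_7a6434d8_pr.XGraphA
import Pool.Agent.P.MP_7a6434d8_pr.BasicB

namespace Pool.Agent.P.MP_7a6434d8_pr

open Mp Finset
open scoped ENNReal

theorem Layer.mono {t : Mp} {K v K' v' : ℝ} (h : Layer t K v) (hK : K ≤ K') (hv : v ≤ v') :
    Layer t K' v' := by
  obtain ⟨f, h1, h2, h3, h4⟩ := h
  exact ⟨f, h1, h2, h3.trans hK, h4.trans hv⟩

theorem xlayer_bv_mod (t : Mp) (ht : ok t) (p : ℕ) (hp : p ≤ 2 * per t) :
    bv t (p % (2 * per t)) = bv t p := by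
  rcases hp.lt_or_eq with h | h
  · rw [Nat.mod_eq_of_lt h]
  · rw [h, Nat.mod_self, bv_end t ht]

theorem xlayer_transport (t : Mp) (ht : ok t) (k π : ℕ) (K v : ℝ) (hk : k + π ≤ 2 * per t)
    (h : Arc (rotN k t) π K v) :
    ∃ f : V t → ℝ, (∀ x, 0 ≤ f x ∧ f x ≤ 1) ∧ energy t f ≤ K ∧
      ∑ q ∈ range (π + 1), (1 - f (bv t (k + q))) ^ 2 ≤ K ∧ (supp t f : ℝ) ≤ v := by
  obtain ⟨f, h1, -, h3, h4, h5⟩ := h
  obtain ⟨e, he, hb⟩ := rotN_shift k t ht
  have hf : (fun x => f (e.symm (e x))) = f := by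
    funext x
    rw [e.symm_apply_apply]
  refine ⟨fun y => f (e.symm y), fun y => h1 _, ?_, ?_, ?_⟩
  · rw [← he (fun y => f (e.symm y)), hf]
    exact h3
  · refine le_trans (le_of_eq (sum_congr rfl fun q hq => ?_)) h4
    have hq' : q ≤ π := Nat.lt_succ_iff.1 (mem_range.1 hq)
    have h6 := hb q (by omega)
    rw [xlayer_bv_mod t ht (q + k) (by omega), add_comm q k] at h6
    simp only [← h6, e.symm_apply_apply]
  · rw [← equiv_supp e (fun y => f (e.symm y)), hf]
    exact h5

theorem xlayer_supp_le (t : Mp) (F f : V t → ℝ) (S : Finset (V t))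
    (h : ∀ x, F x ≠ 0 → f x ≠ 0 ∨ x ∈ S) : supp t F ≤ supp t f + S.card := by
  classical
  unfold supp
  refine le_trans (card_le_card ?_) (card_union_le _ S)
  intro x hx
  rw [mem_filter] at hx
  rcases h x hx.2 with h1 | h1
  · exact mem_union_left _ (mem_filter.2 ⟨mem_univ _, h1⟩)
  · exact mem_union_right _ h1

theorem xlayer_max (t : Mp) (ht : ok t) (a : ℕ) (K v : ℝ) (n : ℕ)
    (hn : ∀ i, i < n → i * a ≤ 2 * per t)
    (h : ∀ i, i < n → Arc (rotN (i * a) t) (min a (2 * per t - i * a)) K v) :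
    ∃ F : V t → ℝ, (∀ x, 0 ≤ F x ∧ F x ≤ 1) ∧ energy t F ≤ n * K ∧
      ∑ p ∈ range (min (n * a) (2 * per t + 1)), (1 - F (bv t p)) ^ 2 ≤ n * K ∧
      (supp t F : ℝ) ≤ n * v := by
  classical
  induction n with
  | zero =>
    refine ⟨fun _ => 0, fun _ => ⟨le_rfl, zero_le_one⟩, ?_, ?_, ?_⟩
    · rw [energy_const]
      simp
    · simp
    · simp [supp]
  | succ n ih =>
    obtain ⟨F, h1, h2, h3, h4⟩ := ih (fun i hi => hn i (by omega)) (fun i hi => h i (by omega))
    have hna := hn n (by omega)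
    obtain ⟨f, g1, g2, g3, g4⟩ := xlayer_transport t ht (n * a) (min a (2 * per t - n * a)) K v
      (by omega) (h n (by omega))
    have key : ∀ (u : V t → ℝ) (x : V t), u x ≤ max (F x) (f x) →
        (1 - max (F x) (f x)) ^ 2 ≤ (1 - u x) ^ 2 := by
      intro u x hx
      have h5 : max (F x) (f x) ≤ 1 := max_le (h1 x).2 (g1 x).2
      exact pow_le_pow_left₀ (by linarith) (by linarith) 2
    refine ⟨fun x => max (F x) (f x), fun x => ⟨le_max_of_le_left (h1 x).1,
      max_le (h1 x).2 (g1 x).2⟩, ?_, ?_, ?_⟩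
    · have := energy_le_add t F f (fun x => max (F x) (f x))
        (fun x y _ => sq_max_sub_max_le _ _ _ _)
      push_cast
      linarith
    · have e1 : min (n * a) (2 * per t + 1) = n * a := min_eq_left (by omega)
      rw [e1] at h3
      have e2 : min ((n + 1) * a) (2 * per t + 1)
          ≤ n * a + (min a (2 * per t - n * a) + 1) := by
        rw [Nat.succ_mul]
        omega
      refine le_trans (sum_le_sum_of_subset_of_nonneg (range_mono e2)
        (fun _ _ _ => sq_nonneg _)) ?_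
      rw [sum_range_add]
      have s1 := sum_le_sum (s := range (n * a)) fun p _ => key F (bv t p) (le_max_left _ _)
      have s2 := sum_le_sum (s := range (min a (2 * per t - n * a) + 1))
        fun q _ => key f (bv t (n * a + q)) (le_max_right _ _)
      push_cast
      linarith
    · have h5 : supp t (fun x => max (F x) (f x)) ≤ supp t F + supp t f := by
        refine xlayer_supp_le t _ F _ fun x hx => ?_
        by_cases hF : F x = 0
        · right
          refine mem_filter.2 ⟨mem_univ _, fun hf => hx ?_⟩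
          simp only [hF, hf, max_self]
        · exact Or.inl hF
      have h6 : (supp t (fun x => max (F x) (f x)) : ℝ) ≤ supp t F + supp t f := by
        exact_mod_cast h5
      push_cast
      linarith

theorem xlayer_fill (t : Mp) (ht : ok t) (Δ K v : ℝ) (hΔ : 1 ≤ Δ) (hD : MaxDeg t Δ)
    (F : V t → ℝ) (h1 : ∀ x, 0 ≤ F x ∧ F x ≤ 1) (h2 : energy t F ≤ K)
    (h3 : ∑ p ∈ range (2 * per t + 1), (1 - F (bv t p)) ^ 2 ≤ K) (h4 : (supp t F : ℝ) ≤ v) :
    Layer t (6 * Δ * K) (v + 2 * per t + 1) := by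
  classical
  set S : Finset (V t) := (range (2 * per t + 1)).image (bv t) with hS
  let g : V t → ℝ := fun z => if z ∈ S then 1 - F z else 0
  have hK : 0 ≤ K := (energy_nonneg t F).trans h2
  refine ⟨fun z => F z + g z, fun z => ?_, fun p hp => ?_, ?_, ?_⟩
  · have := h1 z
    simp only [g]
    split_ifs
    · constructor <;> linarith
    · constructor <;> linarith [this.1, this.2]
  · have : bv t p ∈ S := mem_image_of_mem _ (mem_range.2 (by omega))
    simp only [g, if_pos this]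
    ring
  · have e1 : ∑ z, g z ^ 2 = ∑ z ∈ S, (1 - F z) ^ 2 := by
      rw [← sum_subset (subset_univ S)]
      · exact sum_congr rfl fun z hz => by simp only [g, if_pos hz]
      · intro z _ hz
        simp only [g, if_neg hz]
        ring
    have e2 : ∑ z ∈ S, (1 - F z) ^ 2 ≤ ∑ p ∈ range (2 * per t + 1), (1 - F (bv t p)) ^ 2 :=
      sum_image_le_of_nonneg (f := fun z => (1 - F z) ^ 2) fun _ _ => sq_nonneg _
    have e3 : ∑ z, dg t z * g z ^ 2 ≤ Δ * ∑ z, g z ^ 2 := by
      rw [mul_sum]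
      exact sum_le_sum fun z _ => mul_le_mul_of_nonneg_right (hD z) (sq_nonneg _)
    have e4 : Δ * ∑ z, g z ^ 2 ≤ Δ * K :=
      mul_le_mul_of_nonneg_left (by rw [e1]; exact e2.trans h3) (by linarith)
    have e5 := energy_add_le t F g
    have e6 := energy_le_dg t ht g
    have e7 : K ≤ Δ * K := le_mul_of_one_le_left hK hΔ
    linarith
  · have h5 : supp t (fun z => F z + g z) ≤ supp t F + S.card := by
      refine xlayer_supp_le t _ F S fun x hx => ?_
      by_cases hx' : x ∈ S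
      · exact Or.inr hx'
      · left
        simpa only [g, if_neg hx', add_zero] using hx
    have h6 : S.card ≤ 2 * per t + 1 := card_image_le.trans (card_range _).le
    have h7 : (supp t (fun z => F z + g z) : ℝ) ≤ supp t F + (2 * per t + 1 : ℕ) := by
      exact_mod_cast h5.trans (Nat.add_le_add_left h6 _)
    push_cast at h7
    linarith

theorem layer_prob (a : ℕ) (Δ K v β : ℝ) (ha : 1 ≤ a) (hΔ : 1 ≤ Δ) (hK : 0 ≤ K) (hv : 0 ≤ v)
    (H : ArcHyp Δ a K v β) (L : ℕ) :
    mass L (fun t => MaxDeg t Δ ∧ ¬ Layer t (6 * Δ * ((2 * L / a + 1 : ℕ) : ℝ) * K)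
        (((2 * L / a + 1 : ℕ) : ℝ) * v + 2 * L + 1))
      ≤ ((2 * L / a + 1 : ℕ) : ℝ) * β * Z L := by
  have _ := hK
  have _ := hv
  set N := 2 * L / a + 1 with hN
  have hi : ∀ i, i < N → i * a ≤ 2 * L := fun i hi =>
    (Nat.le_div_iff_mul_le ha).1 (Nat.lt_succ_iff.1 hi)
  have hNa : 2 * L + 1 ≤ N * a := (Nat.div_lt_iff_lt_mul ha).1 (Nat.lt_succ_self _)
  refine le_trans (mass_le_sum (range N) (fun i t => MaxDeg (rotN (i * a) t) Δ ∧
    ¬ Arc (rotN (i * a) t) (min a (2 * L - i * a)) K v) ?_) ?_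
  · rintro t ht hL ⟨hD, hn⟩
    by_contra hc
    apply hn
    have hA : ∀ i, i < N → Arc (rotN (i * a) t) (min a (2 * per t - i * a)) K v := by
      intro i hiN
      by_contra hA
      refine hc ⟨i, mem_range.2 hiN, fun x => ?_, by rwa [hL] at hA⟩
      obtain ⟨e, he, -⟩ := rotN_shift (i * a) t ht
      rw [← equiv_dg e he x]
      exact hD _
    obtain ⟨F, h1, h2, h3, h4⟩ := xlayer_max t ht a K v N (by rw [hL]; exact hi) hA
    rw [min_eq_right (by rw [hL]; exact hNa)] at h3
    have := xlayer_fill t ht Δ (N * K) (N * v) hΔ hD F h1 h2 h3 h4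
    rw [hL] at this
    exact this.mono (le_of_eq (by ring)) le_rfl
  · refine le_trans (sum_le_card_nsmul _ _ (β * Z L) fun i _ => ?_) ?_
    · rw [mass_rot L (i * a) (fun t => MaxDeg t Δ ∧ ¬ Arc t (min a (2 * L - i * a)) K v)]
      exact H L _ (min_le_left _ _) (by omega)
    · rw [card_range, nsmul_eq_mul, mul_assoc]

end Pool.Agent.P.MP_7a6434d8_pr
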