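import Pool.Agent.P.MP_7a6434d8_pr.XArcLevel
import Pool.Agent.P.MP_7a6434d8_pr.XLayer
import Pool.Agent.P.MP_7a6434d8_pr.XRadUp
import Pool.Agent.P.MP_7a6434d8_pr.XAny
import Pool.Agent.P.MP_7a6434d8_pr.XMom
import Pool.Agent.P.MP_7a6434d8_pr.XGraphB

namespace Pool.Agent.P.MP_7a6434d8_pr

open Mp Finset
open scoped ENNReal

theorem xpiece_ev (c δ : ℝ) (hδ : 0 < δ) (k : ℕ) :
    ∃ G0 : ℕ, ∀ g : ℕ, G0 ≤ g → c * (g : ℝ) ^ k ≤ Real.exp (δ * g) := by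
  obtain ⟨G0, hG0⟩ := exists_nat_ge (c * ((k + 1).factorial : ℝ) / δ ^ (k + 1))
  refine ⟨G0, fun g hg => ?_⟩
  have hg' : (G0 : ℝ) ≤ g := by exact_mod_cast hg
  have h1 := Real.pow_div_factorial_le_exp (δ * g) (by positivity) (k + 1)
  have h3 : (0 : ℝ) < (k + 1).factorial := by exact_mod_cast (k + 1).factorial_pos
  refine le_trans ?_ h1
  rw [le_div_iff₀ h3]
  have h4 : c * ((k + 1).factorial : ℝ) ≤ g * δ ^ (k + 1) := by
    have := hG0.trans hg'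
    rwa [div_le_iff₀ (by positivity)] at this
  calc c * (g : ℝ) ^ k * ((k + 1).factorial : ℝ)
      = (g : ℝ) ^ k * (c * ((k + 1).factorial : ℝ)) := by ring
    _ ≤ (g : ℝ) ^ k * (g * δ ^ (k + 1)) := by gcongr
    _ = (δ * g) ^ (k + 1) := by ring

theorem xpiece_eight : ∃ C : ℝ, 0 < C ∧ ∀ L : ℕ, (8 : ℝ) ^ L ≤ C * ((L : ℝ) + 1) ^ 3 * Z L := by
  obtain ⟨c, C, hc, -, h⟩ := w_bounds
  refine ⟨1 / c, by positivity, fun L => ?_⟩
  have h1 := (h L).1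
  have hL : (0 : ℝ) ≤ L := Nat.cast_nonneg L
  have h2 : √((L : ℝ) + 1) ≤ (L : ℝ) + 1 := by
    rw [Real.sqrt_le_iff]
    exact ⟨by positivity, by nlinarith⟩
  have hw := w_pos L
  have h3 : c ≤ w L * ((L : ℝ) + 1) ^ 3 := by
    refine h1.trans ?_
    calc w L * (((L : ℝ) + 1) ^ 2 * √((L : ℝ) + 1))
        ≤ w L * (((L : ℝ) + 1) ^ 2 * ((L : ℝ) + 1)) := by gcongr
      _ = _ := by ring
  rw [Z_eq_w]
  have h4 : (1 : ℝ) ≤ 1 / c * (w L * ((L : ℝ) + 1) ^ 3) := by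
    rw [one_div, ← div_eq_inv_mul, le_div_iff₀ hc, one_mul]
    exact h3
  calc (8 : ℝ) ^ L = 1 * 8 ^ L := (one_mul _).symm
    _ ≤ (1 / c * (w L * ((L : ℝ) + 1) ^ 3)) * 8 ^ L := by gcongr
    _ = _ := by ring

/-- large boundary, small volume -/
theorem xpiece_large (e K : ℕ) : ∃ G0 : ℕ, ∀ G : ℕ, G0 ≤ G → ∀ L : ℕ, G ^ (2 * e + 113) ≤ L →
    mass L (fun t => edges t ≤ G ^ (4 * e + 224)) ≤ 1 / (32 * (G : ℝ) ^ K) * Z L := by
  obtain ⟨G1, h1⟩ := xpiece_ev (64 * Real.exp 4) (1 / 2) (by norm_num) K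
  refine ⟨max G1 4, fun G hG L hL => ?_⟩
  have hG1 : G1 ≤ G := le_trans (le_max_left _ _) hG
  have hG4 : (4 : ℝ) ≤ G := by exact_mod_cast le_trans (le_max_right _ _) hG
  have hGpos : (0 : ℝ) < G := by linarith
  have hP : (4 : ℝ) ≤ (G : ℝ) ^ (2 * e + 112) :=
    hG4.trans (le_self_pow₀ (by linarith) (by omega))
  have hs := small_size (1 / (G : ℝ) ^ (2 * e + 112)) (by positivity)
    (one_div_le_one_div_of_le (by norm_num) hP) L (G ^ (4 * e + 224))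
  have hm : mass L (fun t => edges t ≤ G ^ (4 * e + 224))
      ≤ mass L (fun t => size t ≤ G ^ (4 * e + 224)) := by
    refine mass_mono fun t ht _ h => ?_
    have := edges_eq t ht
    omega
  refine hm.trans (hs.trans (mul_le_mul_of_nonneg_right ?_ (Z_pos L).le))
  have hL' : (G : ℝ) ^ (2 * e + 113) ≤ L := by exact_mod_cast hL
  have e1 : 4 * (1 / (G : ℝ) ^ (2 * e + 112)) ^ 2 * ((G ^ (4 * e + 224) : ℕ) : ℝ) = 4 := by
    push_cast
    field_simp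
    ring
  have e2 : (G : ℝ) ≤ 1 / (G : ℝ) ^ (2 * e + 112) * L := by
    rw [one_div, ← div_eq_inv_mul, le_div_iff₀ (by positivity)]
    calc (G : ℝ) * G ^ (2 * e + 112) = G ^ (2 * e + 113) := by ring
      _ ≤ L := hL'
  have e3 : Real.exp (4 * (1 / (G : ℝ) ^ (2 * e + 112)) ^ 2 * ((G ^ (4 * e + 224) : ℕ) : ℝ)
      - 1 / (G : ℝ) ^ (2 * e + 112) * L / 2) ≤ Real.exp 4 / Real.exp (1 / 2 * G) := by
    rw [← Real.exp_sub, e1]
    exact Real.exp_le_exp.2 (by linarith)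
  have e4 := h1 G hG1
  have hE : 0 < Real.exp (1 / 2 * (G : ℝ)) := Real.exp_pos _
  calc 2 * Real.exp _ ≤ 2 * (Real.exp 4 / Real.exp (1 / 2 * G)) := by gcongr
    _ ≤ 1 / (32 * (G : ℝ) ^ K) := by
      rw [← mul_div_assoc, div_le_div_iff₀ hE (by positivity)]
      linarith

/-- small boundary, large radius -/
theorem xpiece_radius (e K : ℕ) : ∃ G0 : ℕ, ∀ G : ℕ, G0 ≤ G → ∀ L : ℕ, L ≤ G ^ (2 * e + 113) →
    mass L (fun t => edges t ≤ G ^ (4 * e + 224) ∧ ¬ ∀ x y, Within t (G ^ (e + 59)) x y)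
      ≤ 1 / (64 * (G : ℝ) ^ K) * Z L := by
  obtain ⟨C, hC, h8⟩ := xpiece_eight
  obtain ⟨G1, h1⟩ := xpiece_ev (1024 * C) 1 (by norm_num) (4 * (2 * e + 113) + K)
  refine ⟨max G1 4, fun G hG L hL => ?_⟩
  have hG1 : G1 ≤ G := le_trans (le_max_left _ _) hG
  have hG4n : 4 ≤ G := le_trans (le_max_right _ _) hG
  have hG4 : (4 : ℝ) ≤ G := by exact_mod_cast hG4n
  have hGpos : (0 : ℝ) < G := by linarith
  have hP : (2 : ℝ) ≤ (G : ℝ) ^ (e + 56) :=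
    le_trans (by linarith) (le_self_pow₀ (by linarith : (1 : ℝ) ≤ G) (by omega))
  have hs := radius_up (1 / (G : ℝ) ^ (e + 56)) (by positivity)
    (one_div_le_one_div_of_le (by norm_num) hP) L (G ^ (4 * e + 224)) (G ^ (e + 58))
  have hm : mass L (fun t => edges t ≤ G ^ (4 * e + 224) ∧ ¬ ∀ x y, Within t (G ^ (e + 59)) x y)
      ≤ mass L (fun t => size t ≤ G ^ (4 * e + 224) ∧
        ∃ v, ¬ Within t (G ^ (e + 58)) (bv t 0) v) := by
    refine mass_mono fun t ht _ h => ⟨?_, ?_⟩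
    · have := edges_eq t ht
      have := h.1
      omega
    · by_contra hc
      push Not at hc
      refine h.2 fun x y => ((hc x).symm.trans (hc y)).mono ?_
      calc G ^ (e + 58) + G ^ (e + 58) = G ^ (e + 58) * 2 := by ring
        _ ≤ G ^ (e + 58) * G := Nat.mul_le_mul_left _ (by omega)
        _ = G ^ (e + 59) := by ring
  refine hm.trans (hs.trans ?_)
  have hL' : (L : ℝ) ≤ (G : ℝ) ^ (2 * e + 113) := by exact_mod_cast hL
  have hL0 : (0 : ℝ) ≤ L := Nat.cast_nonneg L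
  have hP1 : (1 : ℝ) ≤ (G : ℝ) ^ (2 * e + 113) := one_le_pow₀ (by linarith)
  have e1 : 4 * (1 / (G : ℝ) ^ (e + 56)) ^ 4 * ((G ^ (4 * e + 224) : ℕ) : ℝ) = 4 := by
    push_cast
    field_simp
    ring
  have e2 : 2 * (1 / (G : ℝ) ^ (e + 56)) ^ 2 * (L : ℝ) ≤ 2 * (G : ℝ) := by
    calc 2 * (1 / (G : ℝ) ^ (e + 56)) ^ 2 * (L : ℝ)
        ≤ 2 * (1 / (G : ℝ) ^ (e + 56)) ^ 2 * (G : ℝ) ^ (2 * e + 113) := by gcongr
      _ = 2 * (G : ℝ) := by
        field_simp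
        ring
  have e3 : 1 / (G : ℝ) ^ (e + 56) * ((G ^ (e + 58) : ℕ) : ℝ) = (G : ℝ) ^ 2 := by
    push_cast
    field_simp
    ring
  have e4 : Real.exp (4 * (1 / (G : ℝ) ^ (e + 56)) ^ 4 * ((G ^ (4 * e + 224) : ℕ) : ℝ)
      + 2 * (1 / (G : ℝ) ^ (e + 56)) ^ 2 * L - 1 / (G : ℝ) ^ (e + 56) * ((G ^ (e + 58) : ℕ) : ℝ))
      ≤ 1 / Real.exp (1 * G) := by
    rw [e1, e3, one_div (Real.exp _), ← Real.exp_neg]
    exact Real.exp_le_exp.2 (by nlinarith)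
  have e5 := h1 G hG1
  have hE : 0 < Real.exp (1 * (G : ℝ)) := Real.exp_pos _
  have hZ := Z_pos L
  have e6 : (8 : ℝ) ^ L ≤ C * (2 * (G : ℝ) ^ (2 * e + 113)) ^ 3 * Z L := by
    refine (h8 L).trans ?_
    have : (L : ℝ) + 1 ≤ 2 * (G : ℝ) ^ (2 * e + 113) := by linarith
    gcongr
  calc 2 * (L : ℝ) * 8 ^ L * Real.exp _
      ≤ 2 * (G : ℝ) ^ (2 * e + 113) * (C * (2 * (G : ℝ) ^ (2 * e + 113)) ^ 3 * Z L)
        * (1 / Real.exp (1 * G)) := by gcongr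
    _ = (16 * C * (G : ℝ) ^ (4 * (2 * e + 113)) / Real.exp (1 * G)) * Z L := by ring
    _ ≤ 1 / (64 * (G : ℝ) ^ K) * Z L := by
      refine mul_le_mul_of_nonneg_right ?_ hZ.le
      rw [div_le_div_iff₀ hE (by positivity)]
      calc 16 * C * (G : ℝ) ^ (4 * (2 * e + 113)) * (64 * (G : ℝ) ^ K)
          = 1024 * C * (G : ℝ) ^ (4 * (2 * e + 113) + K) := by ring
        _ ≤ _ := by rw [one_mul]; exact e5

/-- small boundary, no boundary layer -/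
theorem xpiece_layer (e K : ℕ) : ∃ G0 : ℕ, ∀ G : ℕ, G0 ≤ G →
    NearHyp (G ^ (2 * e + 8)) G (1 / (G : ℝ) ^ (K + 4 * (60 + e) + 120)) →
    ∀ L : ℕ, L ≤ G ^ (2 * e + 113) →
    mass L (fun t => MaxDeg t G ∧ ¬ Layer t (18 * (G : ℝ) ^ 112) (9 * (G : ℝ) ^ (4 * e + 125)))
      ≤ 1 / (64 * (G : ℝ) ^ K) * Z L := by
  obtain ⟨G1, h1⟩ := arc_asymp (2 * (60 + e)) (K + 110)
  refine ⟨max G1 4, fun G hG hN L hL => ?_⟩
  have hG1 : G1 ≤ G := le_trans (le_max_left _ _) hG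
  have hG4n : 4 ≤ G := le_trans (le_max_right _ _) hG
  have hG4 : (4 : ℝ) ≤ G := by exact_mod_cast hG4n
  have hG1' : (1 : ℝ) ≤ G := by linarith
  have hGpos : (0 : ℝ) < G := by linarith
  have ha : 1 ≤ G ^ (2 * e + 8) := Nat.one_le_pow _ _ (by omega)
  have hA := h1 G hG1 (G ^ (2 * e + 8)) ha (Nat.pow_le_pow_right (by omega) (by omega))
    (nearHyp_mono le_rfl le_rfl
      (one_div_le_one_div_of_le (by positivity) (pow_le_pow_right₀ hG1' (by omega))) hN)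
  have hP := layer_prob (G ^ (2 * e + 8)) G _ _ _ ha hG1' (by positivity) (by positivity) hA L
  have hNn : 2 * L / G ^ (2 * e + 8) + 1 ≤ 3 * G ^ 105 := by
    have h2 : 2 * L / G ^ (2 * e + 8) ≤ 2 * G ^ 105 := by
      refine Nat.div_le_of_le_mul ?_
      calc 2 * L ≤ 2 * G ^ (2 * e + 113) := by omega
        _ = G ^ (2 * e + 8) * (2 * G ^ 105) := by ring
    have h3 : 1 ≤ G ^ 105 := Nat.one_le_pow _ _ (by omega)
    omega
  generalize 2 * L / G ^ (2 * e + 8) + 1 = N at hP hNn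
  have hN' : (N : ℝ) ≤ 3 * (G : ℝ) ^ 105 := by exact_mod_cast hNn
  have hL' : (L : ℝ) ≤ (G : ℝ) ^ (2 * e + 113) := by exact_mod_cast hL
  have hZ := Z_pos L
  refine le_trans (mass_mono fun t _ _ h => ⟨h.1, fun hl => h.2 (hl.mono ?_ ?_)⟩)
    (hP.trans (mul_le_mul_of_nonneg_right ?_ hZ.le))
  rotate_left
  · calc 6 * (G : ℝ) * N * G ^ 6 ≤ 6 * (G : ℝ) * (3 * (G : ℝ) ^ 105) * G ^ 6 := by gcongr
      _ = 18 * (G : ℝ) ^ 112 := by ring
  · have h2 : (G : ℝ) ^ (2 * e + 113) ≤ (G : ℝ) ^ (4 * e + 125) :=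
      pow_le_pow_right₀ hG1' (by omega)
    have h3 : (1 : ℝ) ≤ (G : ℝ) ^ (4 * e + 125) := one_le_pow₀ hG1'
    have h4 : (N : ℝ) * (2 * (G : ℝ) ^ 4 * ((G ^ (2 * e + 8) : ℕ) : ℝ) ^ 2)
        ≤ 6 * (G : ℝ) ^ (4 * e + 125) := by
      calc (N : ℝ) * (2 * (G : ℝ) ^ 4 * ((G ^ (2 * e + 8) : ℕ) : ℝ) ^ 2)
          ≤ (3 * (G : ℝ) ^ 105) * (2 * (G : ℝ) ^ 4 * ((G ^ (2 * e + 8) : ℕ) : ℝ) ^ 2) := by
            gcongr
        _ = 6 * (G : ℝ) ^ (4 * e + 125) := by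
          push_cast
          ring
    linarith
  · have h5 : (192 : ℝ) ≤ (G : ℝ) ^ 5 := by
      calc (192 : ℝ) ≤ 4 ^ 5 := by norm_num
        _ ≤ (G : ℝ) ^ 5 := by gcongr
    calc (N : ℝ) * (1 / (G : ℝ) ^ (K + 110))
        ≤ (3 * (G : ℝ) ^ 105) * (1 / (G : ℝ) ^ (K + 110)) := by gcongr
      _ = 3 / ((G : ℝ) ^ 5 * (G : ℝ) ^ K) := by
        field_simp
        ring
      _ ≤ 1 / (64 * (G : ℝ) ^ K) := by
        rw [div_le_div_iff₀ (by positivity) (by positivity)]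
        have : (0 : ℝ) < (G : ℝ) ^ K := by positivity
        nlinarith

theorem piece_prob (E K : ℕ) (hE : 60 ≤ E) : ∃ G0 : ℕ, ∀ G : ℕ, G0 ≤ G → ∀ n : ℕ,
    n ≤ G ^ (4 * E) → NearHyp (G ^ (2 * E - 112)) G (1 / (G : ℝ) ^ (K + 4 * E + 120)) →
    mass 2 (fun t => AnySub (fun s => MaxDeg s G ∧ edges s ≤ G ^ (4 * E - 16) ∧
        ¬ (Layer s (18 * (G : ℝ) ^ 112) (9 * (G : ℝ) ^ (4 * E - 115)) ∧
          ∀ x y, Within s (G ^ (E - 1)) x y)) t ∧ size t + per t ≤ n + 1)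
      ≤ 1 / (G : ℝ) ^ K := by
  obtain ⟨e, rfl⟩ := Nat.exists_eq_add_of_le hE
  obtain ⟨G1, h1⟩ := xpiece_large e K
  obtain ⟨G2, h2⟩ := xpiece_radius e K
  obtain ⟨G3, h3⟩ := xpiece_layer e K
  refine ⟨max (max G1 G2) (max G3 1), fun G hG n _ hN => ?_⟩
  have hG1 : G1 ≤ G := le_trans (le_trans (le_max_left _ _) (le_max_left _ _)) hG
  have hG2 : G2 ≤ G := le_trans (le_trans (le_max_right _ _) (le_max_left _ _)) hG
  have hG3 : G3 ≤ G := le_trans (le_trans (le_max_left _ _) (le_max_right _ _)) hG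
  have hG4 : 1 ≤ G := le_trans (le_trans (le_max_right _ _) (le_max_right _ _)) hG
  have hG' : (1 : ℝ) ≤ G := by exact_mod_cast hG4
  rw [show 2 * (60 + e) - 112 = 2 * e + 8 by omega] at hN
  rw [show 4 * (60 + e) - 16 = 4 * e + 224 by omega, show 4 * (60 + e) - 115 = 4 * e + 125 by omega,
    show 60 + e - 1 = e + 59 by omega]
  refine (anysub _ (n + 1) (1 / (32 * (G : ℝ) ^ K)) (by positivity) ?_ ?_ 2).trans ?_
  · intro h
    refine h.2.2 ⟨⟨fun _ => 1, fun _ => ⟨zero_le_one, le_rfl⟩, fun _ _ => rfl, ?_, ?_⟩, ?_⟩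
    · rw [energy_const]
      positivity
    · have h4 := (supp_le_card pt (fun _ => 1)).trans (card_V_le pt trivial)
      have h5 : (supp pt (fun _ => 1) : ℝ) ≤ 1 := by exact_mod_cast h4
      have h6 : (1 : ℝ) ≤ (G : ℝ) ^ (4 * e + 125) := one_le_pow₀ hG'
      linarith
    · intro x y
      exact Within.refl pt _ ()
  · intro L _
    rcases le_total (G ^ (2 * e + 113)) L with hL | hL
    · exact le_trans (mass_mono fun t _ _ h => h.1.2.1) (h1 G hG1 L hL)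
    · refine le_trans (mass_le_add (ψ := fun t => edges t ≤ G ^ (4 * e + 224) ∧
          ¬ ∀ x y, Within t (G ^ (e + 59)) x y) (χ := fun t => MaxDeg t G ∧
          ¬ Layer t (18 * (G : ℝ) ^ 112) (9 * (G : ℝ) ^ (4 * e + 125))) fun t _ _ h => ?_) ?_
      · by_cases hl : Layer t (18 * (G : ℝ) ^ 112) (9 * (G : ℝ) ^ (4 * e + 125))
        · exact Or.inl ⟨h.1.2.1, fun hw => h.1.2.2 ⟨hl, hw⟩⟩
        · exact Or.inr ⟨h.1.1, hl⟩
      · refine (add_le_add (h2 G hG2 L hL) (h3 G hG3 hN L hL)).trans (le_of_eq ?_)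
        field_simp
        ring
  · have hZ : Z 2 = 4 := by
      unfold Z
      rw [catalan_two]
      norm_num
    have hB : Bv 2 = 8 := by
      unfold Bv
      norm_num
    rw [hZ, hB]
    refine le_of_eq ?_
    field_simp
    ring

end Pool.Agent.P.MP_7a6434d8_pr
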