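import Pool.Agent.P.MP_7a6434d8_pr.Quad2
import Pool.Agent.P.MP_7a6434d8_pr.Hit

namespace Pool.Agent.P.MP_7a6434d8_pr

open Mp Finset
open scoped ENNReal

theorem xreroot_conj {n : ℕ} (q q' : Quad n) (e : Equiv.Perm (Fin (4 * n)))
    (h1 : ∀ d, e (q.α d) = q'.α (e d)) (h2 : ∀ d, e (q.φ d) = q'.φ (e d)) :
    q'.φ * q'.α = e * (q.φ * q.α) * e⁻¹ := by
  ext x
  obtain ⟨y, rfl⟩ := e.surjective x
  simp only [Equiv.Perm.coe_mul, Function.comp, Equiv.Perm.coe_inv, Equiv.symm_apply_apply]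
  rw [h2, h1]

theorem xreroot_same {n : ℕ} (q q' : Quad n) (e : Equiv.Perm (Fin (4 * n)))
    (h1 : ∀ d, e (q.α d) = q'.α (e d)) (h2 : ∀ d, e (q.φ d) = q'.φ (e d)) (a b : Fin (4 * n)) :
    (q.φ * q.α).SameCycle a b ↔ (q'.φ * q'.α).SameCycle (e a) (e b) := by
  rw [xreroot_conj q q' e h1 h2, Equiv.Perm.sameCycle_conj]
  simp

/-- the vertex bijection induced by an isomorphism of maps -/
def xrerootV {n : ℕ} (q q' : Quad n) (e : Equiv.Perm (Fin (4 * n)))
    (h1 : ∀ d, e (q.α d) = q'.α (e d)) (h2 : ∀ d, e (q.φ d) = q'.φ (e d)) :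
    q.Vertex ≃ q'.Vertex :=
  Quotient.congr e (fun a b => xreroot_same q q' e h1 h2 a b)

theorem xreroot_tail {n : ℕ} (q q' : Quad n) (e : Equiv.Perm (Fin (4 * n)))
    (h1 : ∀ d, e (q.α d) = q'.α (e d)) (h2 : ∀ d, e (q.φ d) = q'.φ (e d)) (d : Fin (4 * n)) :
    xrerootV q q' e h1 h2 (q.tail d) = q'.tail (e d) := rfl

theorem xreroot_head {n : ℕ} (q q' : Quad n) (e : Equiv.Perm (Fin (4 * n)))
    (h1 : ∀ d, e (q.α d) = q'.α (e d)) (h2 : ∀ d, e (q.φ d) = q'.φ (e d)) (d : Fin (4 * n)) :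
    xrerootV q q' e h1 h2 (q.head d) = q'.head (e d) := by
  rw [Quad.head, Quad.head, xreroot_tail, h1]

theorem xreroot_out {n : ℕ} (q q' : Quad n) (e : Equiv.Perm (Fin (4 * n)))
    (h1 : ∀ d, e (q.α d) = q'.α (e d)) (h2 : ∀ d, e (q.φ d) = q'.φ (e d)) (x : q.Vertex) :
    q'.out (xrerootV q q' e h1 h2 x) = (q.out x).map e.toEmbedding := by
  ext d
  obtain ⟨c, rfl⟩ := e.surjective d
  rw [Finset.mem_map_equiv]
  simp only [Quad.out, Finset.mem_filter, Finset.mem_univ, true_and, Equiv.symm_apply_apply]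
  rw [← xreroot_tail q q' e h1 h2, Equiv.apply_eq_iff_eq]

theorem xreroot_walk {n : ℕ} (q q' : Quad n) (e : Equiv.Perm (Fin (4 * n)))
    (h1 : ∀ d, e (q.α d) = q'.α (e d)) (h2 : ∀ d, e (q.φ d) = q'.φ (e d)) (T : ℕ) :
    ∀ (x : q.Vertex) (S : Set (List q'.Vertex)),
      (q'.walk T (xrerootV q q' e h1 h2 x)).toOuterMeasure S
        = (q.walk T x).toOuterMeasure (List.map (xrerootV q q' e h1 h2) ⁻¹' S) := by
  classical
  induction T with
  | zero =>
    intro x S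
    rw [Quad.walk, Quad.walk, PMF.toOuterMeasure_pure_apply, PMF.toOuterMeasure_pure_apply]
    simp
  | succ T ih =>
    intro x S
    rw [hit_walk_succ, hit_walk_succ, xreroot_out, Finset.card_map, Finset.sum_map]
    refine Finset.sum_congr rfl (fun d _ => ?_)
    rw [Equiv.coe_toEmbedding, ← xreroot_head q q' e h1 h2, ih]
    rfl

/-- the graph isomorphism induced by an isomorphism of maps -/
def xrerootG {n : ℕ} (q q' : Quad n) (e : Equiv.Perm (Fin (4 * n)))
    (h1 : ∀ d, e (q.α d) = q'.α (e d)) (h2 : ∀ d, e (q.φ d) = q'.φ (e d)) :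
    q.graph ≃g q'.graph where
  toEquiv := xrerootV q q' e h1 h2
  map_rel_iff' := by
    have key : ∀ x y : q.Vertex,
        (∃ d, q'.tail d = xrerootV q q' e h1 h2 x ∧ q'.head d = xrerootV q q' e h1 h2 y)
          ↔ ∃ d, q.tail d = x ∧ q.head d = y := by
      intro x y
      constructor
      · rintro ⟨d, hd1, hd2⟩
        obtain ⟨c, rfl⟩ := e.surjective d
        rw [← xreroot_tail q q' e h1 h2, Equiv.apply_eq_iff_eq] at hd1
        rw [← xreroot_head q q' e h1 h2, Equiv.apply_eq_iff_eq] at hd2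
        exact ⟨c, hd1, hd2⟩
      · rintro ⟨d, rfl, rfl⟩
        exact ⟨e d, (xreroot_tail q q' e h1 h2 d).symm, (xreroot_head q q' e h1 h2 d).symm⟩
    intro x y
    simp only [Quad.graph, SimpleGraph.fromRel_adj, key, ne_eq, Equiv.apply_eq_iff_eq]

theorem xreroot_edist {V W : Type} {G : SimpleGraph V} {H : SimpleGraph W} (f : G ≃g H)
    (x y : V) : H.edist (f x) (f y) ≤ G.edist x y := by
  by_cases h : G.Reachable x y
  · obtain ⟨p, hp⟩ := h.exists_walk_length_eq_edist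
    rw [← hp]
    have := SimpleGraph.edist_le (p.map f.toHom)
    simpa using this
  · rw [SimpleGraph.edist_eq_top_of_not_reachable h]
    exact le_top

theorem xreroot_dist {V W : Type} {G : SimpleGraph V} {H : SimpleGraph W} (f : G ≃g H)
    (x y : V) : H.dist (f x) (f y) = G.dist x y := by
  have a := xreroot_edist f x y
  have b := xreroot_edist f.symm (f x) (f y)
  simp only [RelIso.symm_apply_apply] at b
  rw [SimpleGraph.dist, SimpleGraph.dist, le_antisymm a b]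

theorem escape_iso {n : ℕ} (q q' : Quad n) (e : Equiv.Perm (Fin (4 * n)))
    (h1 : ∀ d, e (q.α d) = q'.α (e d)) (h2 : ∀ d, e (q.φ d) = q'.φ (e d)) (d : Fin (4 * n))
    (T : ℕ) (r : ℝ) : q'.escape (q'.tail (e d)) T r = q.escape (q.tail d) T r := by
  rw [Quad.escape, Quad.escape, ← xreroot_tail q q' e h1 h2, xreroot_walk]
  congr 1
  ext l
  have hd : ∀ y, q'.graph.dist (xrerootV q q' e h1 h2 (q.tail d)) (xrerootV q q' e h1 h2 y)
      = q.graph.dist (q.tail d) y := fun y => xreroot_dist (xrerootG q q' e h1 h2) (q.tail d) y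
  simp only [Set.mem_preimage, Set.mem_ofPred_eq, List.mem_map]
  constructor
  · rintro ⟨y, ⟨z, hz, rfl⟩, hy⟩
    exact ⟨z, hz, by rwa [hd] at hy⟩
  · rintro ⟨z, hz, hy⟩
    exact ⟨_, ⟨z, hz, rfl⟩, by rwa [hd]⟩

end Pool.Agent.P.MP_7a6434d8_pr
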