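import Pool.Agent.P.MP_7a6434d8_pr.DartB
import Pool.Agent.P.MP_7a6434d8_pr.BasicB

namespace Pool.Agent.P.MP_7a6434d8_pr

open Mp Finset
open scoped ENNReal

/-- A functional dominated by the norm of `G f` is represented by a vector in the range of `G`. -/
theorem xthomson_riesz {W H : Type} [AddCommGroup W] [Module ℝ W] [NormedAddCommGroup H]
    [InnerProductSpace ℝ H] [FiniteDimensional ℝ H] (G : W →ₗ[ℝ] H) (l : W →ₗ[ℝ] ℝ) (c : ℝ)
    (hc : 0 ≤ c) (h : ∀ f, l f ^ 2 ≤ c * ‖G f‖ ^ 2) :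
    ∃ g : W, ‖G g‖ ^ 2 ≤ c ∧ ∀ f, inner ℝ (G g) (G f) = l f := by
  obtain ⟨s, hs⟩ := G.rangeRestrict.exists_rightInverse_of_surjective G.range_rangeRestrict
  have hs' : ∀ f, l (s (G.rangeRestrict f)) = l f := by
    intro f
    have h1 : G (s (G.rangeRestrict f)) = G f :=
      congrArg Subtype.val (LinearMap.congr_fun hs (G.rangeRestrict f))
    have h2 := h (s (G.rangeRestrict f) - f)
    rw [map_sub G, h1, sub_self, norm_zero, map_sub] at h2
    have h3 : (l (s (G.rangeRestrict f)) - l f) ^ 2 = 0 :=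
      le_antisymm (by simpa using h2) (sq_nonneg _)
    exact sub_eq_zero.1 (pow_eq_zero_iff two_ne_zero |>.1 h3)
  obtain ⟨⟨y, g, rfl⟩, hy⟩ := (InnerProductSpace.toDual ℝ (LinearMap.range G)).surjective
    (LinearMap.toContinuousLinearMap (l ∘ₗ s))
  have key : ∀ f, inner ℝ (G g) (G f) = l f := by
    intro f
    have h1 := congrArg (fun φ => φ (G.rangeRestrict f)) hy
    simp only [InnerProductSpace.toDual_apply_apply, LinearMap.coe_toContinuousLinearMap',
      LinearMap.comp_apply, hs'] at h1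
    exact h1
  refine ⟨g, ?_, key⟩
  have h1 := h g
  rw [← key g, real_inner_self_eq_norm_sq] at h1
  by_contra h2
  push Not at h2
  nlinarith

theorem xthomson_bound (t : Mp) (p q : ℕ) (ρ : ℝ) (h : ¬ Far t {p} {q} ρ)
    (f : V t → ℝ) : (f (bv t p) - f (bv t q)) ^ 2 ≤ ρ ^ 2 * energy t f := by
  by_contra hc
  push Not at hc
  have h0 : 0 ≤ ρ ^ 2 * energy t f := mul_nonneg (sq_nonneg _) (energy_nonneg _ _)
  have hδ : 0 < (f (bv t p) - f (bv t q)) ^ 2 := lt_of_le_of_lt h0 hc
  have hδ' : f (bv t p) - f (bv t q) ≠ 0 := fun h => by simp [h] at hδ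
  have h1 := lt_of_not_far (h := fun k => -ρ / (f (bv t p) - f (bv t q)) * f (bv t k))
    (e := (-ρ / (f (bv t p) - f (bv t q))) ^ 2 * energy t f) h
    ⟨fun x => -ρ / (f (bv t p) - f (bv t q)) * f x, fun _ _ => rfl, (energy_smul t _ f).le⟩
    (by rw [div_pow, div_mul_eq_mul_div, div_lt_one hδ, neg_sq]; exact hc)
  have h2 : -ρ / (f (bv t p) - f (bv t q)) * (f (bv t p) - f (bv t q)) = -ρ :=
    div_mul_cancel₀ _ hδ'
  rw [mul_sub] at h2
  linarith

theorem thomson (t : Mp) (p q : ℕ) (hp : p ≤ 2 * per t) (hq : q ≤ 2 * per t) (ρ : ℝ)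
    (hρ : 0 ≤ ρ) (h : ¬ Far t {p} {q} ρ) : ∃ θ : Dt t → ℝ, (∀ d, θ (al t d) = -θ d) ∧
      ∑ d, θ d ^ 2 ≤ 2 * ρ ^ 2 ∧
      ∀ f : V t → ℝ, ∑ d, θ d * f (org t d) = f (bv t p) - f (bv t q) := by
  let G : (V t → ℝ) →ₗ[ℝ] EuclideanSpace ℝ (Dt t) :=
    { toFun := fun f => WithLp.toLp 2 fun d => f (org t d) - f (org t (al t d))
      map_add' := fun f g => by ext d; simp only [Pi.add_apply, PiLp.add_apply]; ring
      map_smul' := fun c f => by
        ext d; simp only [Pi.smul_apply, PiLp.smul_apply, smul_eq_mul, RingHom.id_apply]; ring }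
  let l : (V t → ℝ) →ₗ[ℝ] ℝ :=
    { toFun := fun f => f (bv t p) - f (bv t q)
      map_add' := fun f g => by simp only [Pi.add_apply]; ring
      map_smul' := fun c f => by simp only [Pi.smul_apply, smul_eq_mul, RingHom.id_apply]; ring }
  have hG : ∀ f, ‖G f‖ ^ 2 = ∑ d, (f (org t d) - f (org t (al t d))) ^ 2 := fun f => by
    rw [EuclideanSpace.real_norm_sq_eq]; rfl
  obtain ⟨g, g1, g2⟩ := xthomson_riesz G l (ρ ^ 2 / 2) (by positivity) fun f => by
    rw [hG, ← two_energy]
    have := xthomson_bound t p q ρ h f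
    change (f (bv t p) - f (bv t q)) ^ 2 ≤ _
    linarith
  refine ⟨fun d => 2 * (g (org t d) - g (org t (al t d))), fun d => ?_, ?_, fun f => ?_⟩
  · simp only [al_al]; ring
  · rw [hG] at g1
    simp only [mul_pow, ← mul_sum]
    linarith
  · have h1 : ∑ d, (g (org t d) - g (org t (al t d))) * (f (org t d) - f (org t (al t d)))
        = f (bv t p) - f (bv t q) := by
      have h2 := g2 f
      rw [PiLp.inner_apply] at h2
      refine Eq.trans (sum_congr rfl fun d _ => ?_) h2
      simp only [G, LinearMap.coe_mk, AddHom.coe_mk, RCLike.inner_apply, conj_trivial]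
      ring
    have h3 : ∑ d, (g (org t d) - g (org t (al t d))) * f (org t (al t d))
        = ∑ d, -((g (org t d) - g (org t (al t d))) * f (org t d)) := by
      rw [← Equiv.sum_comp (Function.Involutive.toPerm (al t) (al_al t))]
      refine sum_congr rfl fun d _ => ?_
      simp only [Function.Involutive.coe_toPerm, al_al]
      ring
    simp only [mul_sub (g (org t _) - _), sum_sub_distrib] at h1
    rw [h3, sum_neg_distrib] at h1
    simp only [mul_assoc, ← mul_sum]
    linarith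

end Pool.Agent.P.MP_7a6434d8_pr
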