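import Pool.Agent.P.MP_7a6434d8_pr.Hit

namespace Pool.Agent.P.MP_7a6434d8_pr

open Mp Finset
open scoped ENNReal

/-- probability that the set `F = 1` has been visited up to time `s` -/
noncomputable def xwalkH {n : ℕ} (q : Quad n) (F : q.Vertex → ℝ) (s : ℕ) (x : q.Vertex) : ℝ :=
  ((q.walk s x).toOuterMeasure {l | ∃ y ∈ l, F y = 1}).toReal

theorem xwalk_eq_ofReal {n : ℕ} (q : Quad n) (F : q.Vertex → ℝ) (s : ℕ) (x : q.Vertex) :
    (q.walk s x).toOuterMeasure {l | ∃ y ∈ l, F y = 1} = ENNReal.ofReal (xwalkH q F s x) := by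
  rw [xwalkH, ENNReal.ofReal_toReal]
  exact ne_top_of_le_ne_top ENNReal.one_ne_top (hit_outer_le_one _ _)

theorem xwalkH_nonneg {n : ℕ} (q : Quad n) (F : q.Vertex → ℝ) (s : ℕ) (x : q.Vertex) :
    0 ≤ xwalkH q F s x := ENNReal.toReal_nonneg

theorem xwalkH_le_one {n : ℕ} (q : Quad n) (F : q.Vertex → ℝ) (s : ℕ) (x : q.Vertex) :
    xwalkH q F s x ≤ 1 := by
  rw [xwalkH]
  exact ENNReal.toReal_le_of_le_ofReal zero_le_one (by simpa using hit_outer_le_one _ _)

theorem xwalkH_zero_ne {n : ℕ} (q : Quad n) (F : q.Vertex → ℝ) (x : q.Vertex) (h : F x ≠ 1) :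
    xwalkH q F 0 x = 0 := by
  rw [xwalkH, Quad.walk, PMF.toOuterMeasure_pure_apply]
  simp [h]

theorem xwalkH_eq {n : ℕ} (q : Quad n) (F : q.Vertex → ℝ) (x : q.Vertex) (h : F x = 1) (s : ℕ) :
    xwalkH q F s x = 1 := by
  cases s with
  | zero =>
    rw [xwalkH, Quad.walk, PMF.toOuterMeasure_pure_apply]
    simp [h]
  | succ s =>
    rw [xwalkH, hit_walk_succ]
    have h1 : (fun l => x :: l) ⁻¹' {l | ∃ y ∈ l, F y = 1} = Set.univ := by
      ext l
      simp only [Set.mem_preimage, Set.mem_ofPred_eq, Set.mem_univ, iff_true]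
      exact ⟨x, List.mem_cons_self, h⟩
    have h2 : ∀ y, (q.walk s y).toOuterMeasure Set.univ = 1 := fun y => by
      rw [PMF.toOuterMeasure_apply_eq_one_iff]
      exact Set.subset_univ _
    have h3 : ((q.out x).card : ℝ≥0∞) ≠ 0 := by
      exact_mod_cast (q.out_nonempty x).card_pos.ne'
    simp only [h1, h2, mul_one, Finset.sum_const, nsmul_eq_mul]
    rw [ENNReal.mul_inv_cancel h3 (ENNReal.natCast_ne_top _), ENNReal.toReal_one]

theorem xwalkH_succ_ne {n : ℕ} (q : Quad n) (F : q.Vertex → ℝ) (x : q.Vertex) (h : F x ≠ 1)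
    (s : ℕ) :
    xwalkH q F (s + 1) x = (∑ d ∈ q.out x, xwalkH q F s (q.head d)) / (q.out x).card := by
  rw [xwalkH, hit_walk_succ]
  have : (fun l => x :: l) ⁻¹' {l | ∃ y ∈ l, F y = 1} = {l | ∃ y ∈ l, F y = 1} := by
    ext l; simp [h]
  rw [this, ← Finset.mul_sum, ENNReal.toReal_mul, ENNReal.toReal_sum]
  · simp only [xwalkH, ENNReal.toReal_inv, ENNReal.toReal_natCast]
    rw [div_eq_inv_mul]
  · intro d _
    exact ne_top_of_le_ne_top ENNReal.one_ne_top (hit_outer_le_one _ _)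

theorem xwalkH_mono {n : ℕ} (q : Quad n) (F : q.Vertex → ℝ) (s : ℕ) :
    ∀ x, xwalkH q F s x ≤ xwalkH q F (s + 1) x := by
  induction s with
  | zero =>
    intro x
    by_cases h : F x = 1
    · rw [xwalkH_eq q F x h, xwalkH_eq q F x h]
    · rw [xwalkH_zero_ne q F x h]
      exact xwalkH_nonneg q F _ x
  | succ s ih =>
    intro x
    by_cases h : F x = 1
    · rw [xwalkH_eq q F x h, xwalkH_eq q F x h]
    · rw [xwalkH_succ_ne q F x h, xwalkH_succ_ne q F x h]
      exact div_le_div_of_nonneg_right (Finset.sum_le_sum (fun d _ => ih _))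
        (hit_card_pos q x).le

/-- Picone's inequality -/
theorem xwalk_picone (p r a b : ℝ) (ha : 0 < a) (hb : 0 < b) :
    (p ^ 2 / a - r ^ 2 / b) * (a - b) ≤ (p - r) ^ 2 := by
  have h1 : (p - r) ^ 2 - (p ^ 2 / a - r ^ 2 / b) * (a - b) = (p * b - r * a) ^ 2 / (a * b) := by
    field_simp
    ring
  have h2 : 0 ≤ (p * b - r * a) ^ 2 / (a * b) := by positivity
  linarith

theorem xwalk_sym {n : ℕ} (q : Quad n) (φ s : q.Vertex → ℝ) :
    ∑ d, φ (q.tail d) * (s (q.tail d) - s (q.head d))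
      = (∑ d, (φ (q.tail d) - φ (q.head d)) * (s (q.tail d) - s (q.head d))) / 2 := by
  have h1 : ∑ d, φ (q.head d) * (s (q.head d) - s (q.tail d))
      = ∑ d, φ (q.tail d) * (s (q.tail d) - s (q.head d)) := by
    rw [← Equiv.sum_comp q.α (fun d => φ (q.tail d) * (s (q.tail d) - s (q.head d)))]
    refine Finset.sum_congr rfl (fun d _ => ?_)
    simp only [Quad.head, q.α_α]
  have h2 : ∑ d, (φ (q.tail d) - φ (q.head d)) * (s (q.tail d) - s (q.head d))
      = ∑ d, φ (q.tail d) * (s (q.tail d) - s (q.head d))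
        + ∑ d, φ (q.head d) * (s (q.head d) - s (q.tail d)) := by
    rw [← Finset.sum_add_distrib]
    exact Finset.sum_congr rfl (fun d _ => by ring)
  rw [h2, h1]
  ring

theorem xwalk_step_eps {n : ℕ} (q : Quad n) (F : q.Vertex → ℝ) (s : ℕ) (ε : ℝ) (hε : 0 < ε) :
    ∑ d, (1 - F (q.tail d)) ^ 2 * (xwalkH q F (s + 1) (q.tail d) - xwalkH q F s (q.tail d))
      ≤ (1 + ε) * ((∑ d, (F (q.tail d) - F (q.head d)) ^ 2) / 2) := by
  classical
  have := hit_finite q
  let _i : Fintype q.Vertex := Fintype.ofFinite _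
  set u : q.Vertex → ℝ := fun x => 1 - xwalkH q F s x + ε with hu
  have hupos : ∀ x, 0 < u x := fun x => by
    have := xwalkH_le_one q F s x
    simp only [hu]; linarith
  have hule : ∀ x, u x ≤ 1 + ε := fun x => by
    have := xwalkH_nonneg q F s x
    simp only [hu]; linarith
  set φ : q.Vertex → ℝ := fun x => (1 - F x) ^ 2 / u x with hφ
  have h1 : ∑ d, (1 - F (q.tail d)) ^ 2 * (xwalkH q F (s + 1) (q.tail d) - xwalkH q F s (q.tail d))
      ≤ (1 + ε) * ∑ d, φ (q.tail d) *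
        (xwalkH q F (s + 1) (q.tail d) - xwalkH q F s (q.tail d)) := by
    rw [Finset.mul_sum]
    refine Finset.sum_le_sum (fun d _ => ?_)
    rw [← mul_assoc]
    refine mul_le_mul_of_nonneg_right ?_ (sub_nonneg.2 (xwalkH_mono q F s _))
    simp only [hφ]
    rw [← mul_div_assoc, le_div_iff₀ (hupos _), mul_comm (1 + ε)]
    exact mul_le_mul_of_nonneg_left (hule _) (sq_nonneg _)
  have h2 : ∑ d, φ (q.tail d) * (xwalkH q F (s + 1) (q.tail d) - xwalkH q F s (q.tail d))
      = ∑ d, φ (q.tail d) * (u (q.tail d) - u (q.head d)) := by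
    rw [← hit_sum_out q, ← hit_sum_out q (fun d => φ (q.tail d) * (u (q.tail d) - u (q.head d)))]
    refine Finset.sum_congr rfl (fun x _ => ?_)
    have ht : ∀ d ∈ q.out x, q.tail d = x := fun d hd => by simpa [Quad.out] using hd
    have e1 : ∑ d ∈ q.out x, φ (q.tail d) *
        (xwalkH q F (s + 1) (q.tail d) - xwalkH q F s (q.tail d))
        = ∑ _d ∈ q.out x, φ x * (xwalkH q F (s + 1) x - xwalkH q F s x) :=
      Finset.sum_congr rfl (fun d hd => by rw [ht d hd])
    have e2 : ∑ d ∈ q.out x, φ (q.tail d) * (u (q.tail d) - u (q.head d))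
        = ∑ d ∈ q.out x, φ x * (xwalkH q F s (q.head d) - xwalkH q F s x) :=
      Finset.sum_congr rfl (fun d hd => by rw [ht d hd]; simp only [hu]; ring)
    rw [e1, e2]
    by_cases h : F x = 1
    · have : φ x = 0 := by simp [hφ, h]
      simp [this]
    · have hc := hit_card_pos q x
      rw [← Finset.mul_sum, ← Finset.mul_sum, Finset.sum_sub_distrib, Finset.sum_sub_distrib,
        xwalkH_succ_ne q F x h, Finset.sum_const, nsmul_eq_mul, mul_div_cancel₀ _ hc.ne']
  have h3 : ∑ d, (φ (q.tail d) - φ (q.head d)) * (u (q.tail d) - u (q.head d))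
      ≤ ∑ d, (F (q.tail d) - F (q.head d)) ^ 2 := by
    refine Finset.sum_le_sum (fun d _ => ?_)
    have := xwalk_picone (1 - F (q.tail d)) (1 - F (q.head d)) _ _ (hupos (q.tail d))
      (hupos (q.head d))
    simp only [hφ]
    refine this.trans (le_of_eq ?_)
    ring
  rw [h2, xwalk_sym] at h1
  refine h1.trans (mul_le_mul_of_nonneg_left ?_ (by linarith))
  linarith

theorem xwalk_step {n : ℕ} (q : Quad n) (F : q.Vertex → ℝ) (s : ℕ) :
    ∑ d, (1 - F (q.tail d)) ^ 2 * (xwalkH q F (s + 1) (q.tail d) - xwalkH q F s (q.tail d))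
      ≤ (∑ d, (F (q.tail d) - F (q.head d)) ^ 2) / 2 := by
  set E := (∑ d, (F (q.tail d) - F (q.head d)) ^ 2) / 2 with hE
  have hE0 : 0 ≤ E := by
    have : 0 ≤ ∑ d, (F (q.tail d) - F (q.head d)) ^ 2 :=
      Finset.sum_nonneg (fun d _ => sq_nonneg _)
    simp only [hE]; linarith
  refine le_of_forall_pos_le_add (fun δ hδ => ?_)
  have h := xwalk_step_eps q F s (δ / (E + 1)) (by positivity)
  rw [← hE] at h
  have h2 : δ / (E + 1) * E ≤ δ := by
    rw [div_mul_eq_mul_div, div_le_iff₀ (by linarith)]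
    nlinarith
  nlinarith

theorem xwalk_real {n : ℕ} (q : Quad n) (F : q.Vertex → ℝ) (T : ℕ) :
    ∑ d, (1 - F (q.tail d)) ^ 2 * xwalkH q F T (q.tail d)
      ≤ T * ((∑ d, (F (q.tail d) - F (q.head d)) ^ 2) / 2) := by
  induction T with
  | zero =>
    rw [Nat.cast_zero, zero_mul]
    refine le_of_eq (Finset.sum_eq_zero (fun d _ => ?_))
    by_cases h : F (q.tail d) = 1
    · simp [h]
    · rw [xwalkH_zero_ne q F _ h, mul_zero]
  | succ T ih =>
    have h := xwalk_step q F T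
    simp only [mul_sub, Finset.sum_sub_distrib] at h
    push_cast
    linarith

open Classical in
theorem walk_ineq {n : ℕ} (q : Quad n) (F : q.Vertex → ℝ) (hF : ∀ x, 0 ≤ F x ∧ F x ≤ 1) (T : ℕ) :
    ∑ d, (if F (q.tail d) = 0 then
        (q.walk T (q.tail d)).toOuterMeasure {l | ∃ y ∈ l, F y = 1} else 0)
      ≤ ENNReal.ofReal (T * ((∑ d, (F (q.tail d) - F (q.head d)) ^ 2) / 2)) := by
  have _ := hF
  refine le_trans ?_ (ENNReal.ofReal_le_ofReal (xwalk_real q F T))
  rw [ENNReal.ofReal_sum_of_nonneg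
    (fun d _ => mul_nonneg (sq_nonneg _) (xwalkH_nonneg q F T _))]
  refine Finset.sum_le_sum (fun d _ => ?_)
  split_ifs with h
  · rw [xwalk_eq_ofReal, h]
    simp
  · exact zero_le

end Pool.Agent.P.MP_7a6434d8_pr
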