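import Pool.Agent.P.MP_7a6434d8_pr.YMain

/-! Exit times at all scales and mixing times. -/

namespace Pool.Agent.P.MP_7a6434d8_pr

open Mp Finset Filter Topology
open scoped ENNReal

theorem escape_zero {n : ℕ} (q : Quad n) (x : q.Vertex) (r : ℝ) (hr : 0 ≤ r) :
    q.escape x 0 r = 0 := by
  rw [escape_eq, yEsc_zero, yInd, if_neg (by simpa using hr), ENNReal.ofReal_zero]

theorem yroot_exit {G e0 n : ℕ} (hG : 1000 ≤ G) (hn : 1 ≤ n)
    {q : Quad n} (h : yroot G e0 q) (A : ℝ) (hA : (G : ℝ) ^ 240 ≤ A) (r : ℝ) (v : q.Vertex)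
    (hr : 1 ≤ r) (hv : r < (q.graph.dist (q.tail q.root) v : ℝ)) :
    q.escape (q.tail q.root) ⌊r ^ 4 / A⌋₊ r ≤ ENNReal.ofReal (1 / G) ∧
      ENNReal.ofReal (1 - 1 / G) ≤ q.escape (q.tail q.root) ⌊r ^ 4 * A⌋₊ r := by
  obtain ⟨⟨⟨-, hb, hd⟩, hR⟩, he⟩ := h
  have hx : (1000 : ℝ) ≤ G := by exact_mod_cast hG
  have hx1 : (1 : ℝ) ≤ G := by linarith
  have hx0 : (0 : ℝ) < G := by linarith
  have hn' : (0 : ℝ) < n := by exact_mod_cast hn
  have hA0 : 0 < A := lt_of_lt_of_le (by positivity) hA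
  have hr0 : 0 < r := by linarith
  constructor
  · have key : ∀ e, e ≤ e0 → (G : ℝ) ^ (e + 59) ≤ r → r ≤ (G : ℝ) ^ (e + 62) →
        q.escape (q.tail q.root) ⌊r ^ 4 / A⌋₊ r ≤ ENNReal.ofReal (1 / G) := by
      intro e h1 h2 h3
      have hT : ⌊r ^ 4 / A⌋₊ ≤ G ^ (4 * e + 18) := by
        refine Nat.floor_le_of_le ?_
        push_cast
        calc r ^ 4 / A ≤ ((G : ℝ) ^ (e + 62)) ^ 4 / (G : ℝ) ^ 240 := by gcongr
          _ = (G : ℝ) ^ (4 * e + 8) := by
              field_simp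
              ring
          _ ≤ _ := pow_le_pow_right₀ hx1 (by omega)
      refine (escape_mono_time q _ hT r).trans ((escape_anti_radius q _ _ h2).trans
        ((he e h1).trans (ENNReal.ofReal_le_ofReal (one_div_le_one_div_of_le hx0 (by nlinarith)))))
    by_cases hc : (G : ℝ) ^ 59 ≤ r
    · classical
      have h1 := Nat.findGreatest_spec (P := fun e => (G : ℝ) ^ (e + 59) ≤ r) (Nat.zero_le e0)
        (by simpa using hc)
      have h2 := Nat.findGreatest_le (P := fun e => (G : ℝ) ^ (e + 59) ≤ r) e0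
      refine key _ h2 h1 ?_
      rcases h2.lt_or_eq with h3 | h3
      · have h4 := Nat.findGreatest_is_greatest (P := fun e => (G : ℝ) ^ (e + 59) ≤ r)
          (Nat.lt_succ_self _) h3
        exact (not_le.1 h4).le.trans (pow_le_pow_right₀ hx1 (by omega))
      · rw [h3]
        have h4 : (q.graph.dist (q.tail q.root) v : ℝ) ≤ (G : ℝ) ^ (e0 + 62) := by
          exact_mod_cast hd v
        linarith
    · have hT : ⌊r ^ 4 / A⌋₊ = 0 := by
        refine Nat.floor_eq_zero.2 ?_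
        rw [div_lt_one hA0]
        calc r ^ 4 < ((G : ℝ) ^ 59) ^ 4 := by gcongr; exact not_le.1 hc
          _ = (G : ℝ) ^ 236 := by ring
          _ ≤ (G : ℝ) ^ 240 := pow_le_pow_right₀ hx1 (by omega)
          _ ≤ A := hA
      rw [hT, escape_zero q _ r hr0.le]
      exact zero_le
  · have hT : r ^ 4 * A ≤ (⌊r ^ 4 * A⌋₊ : ℝ) + 1 := (Nat.lt_floor_add_one _).le
    by_cases hc : n * (G : ℝ) ^ 5 ≤ r ^ 4 * A
    · refine le_trans (ENNReal.ofReal_le_ofReal ?_)
        (escape_ge q _ (by positivity) hR _ v _ r hv)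
      have : 4 * n * (G : ℝ) ^ 3 / ((⌊r ^ 4 * A⌋₊ : ℝ) + 1) ≤ 1 / G := by
        calc _ ≤ 4 * n * (G : ℝ) ^ 3 / (n * (G : ℝ) ^ 5) := by gcongr; exact hc.trans hT
          _ = 4 / G / G := by field_simp
          _ ≤ 1 / G := by
              gcongr
              rw [div_le_one hx0]
              linarith
      linarith
    · set T := ⌊r ^ 4 * A⌋₊ with hTdef
      have h2 : 2 * (T / 2) ≤ T := Nat.mul_div_le T 2
      have h3 : (T : ℝ) + 1 ≤ 2 * (((T / 2 : ℕ) : ℝ) + 1) := by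
        have : T + 1 ≤ 2 * (T / 2 + 1) := by omega
        exact_mod_cast this
      refine le_trans (ENNReal.ofReal_le_ofReal ?_) ((escape_lower q hn _ (by positivity) hR _
        (T / 2) r (486 * (G : ℝ) ^ 2 * r ^ 4) ((hb _ r hr0.le).trans ?_)).trans
        (escape_mono_time q _ h2 r))
      · have a1 : (G : ℝ) ^ 3 / (((T / 2 : ℕ) : ℝ) + 1) ≤ (G : ℝ) ^ 3 / (r ^ 4 * (G : ℝ) ^ 240 / 2) := by
          have : r ^ 4 * (G : ℝ) ^ 240 ≤ r ^ 4 * A := by gcongr
          gcongr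
          linarith
        have a2 : 1 / (n : ℝ) ≤ 1 / (r ^ 4 * (G : ℝ) ^ 235) := by
          refine one_div_le_one_div_of_le (by positivity) ?_
          have b1 : r ^ 4 * (G : ℝ) ^ 240 ≤ r ^ 4 * A := by gcongr
          have b2 : r ^ 4 * (G : ℝ) ^ 235 * (G : ℝ) ^ 5 ≤ n * (G : ℝ) ^ 5 := by
            calc _ = r ^ 4 * (G : ℝ) ^ 240 := by ring
              _ ≤ _ := b1.trans (not_le.1 hc).le
          exact le_of_mul_le_mul_right b2 (by positivity)
        have a3 : 486 * (G : ℝ) ^ 2 * r ^ 4 * ((G : ℝ) ^ 3 / (((T / 2 : ℕ) : ℝ) + 1) + 1 / n)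
            ≤ 1 / G := by
          calc _ ≤ 486 * (G : ℝ) ^ 2 * r ^ 4 * ((G : ℝ) ^ 3 / (r ^ 4 * (G : ℝ) ^ 240 / 2)
                + 1 / (r ^ 4 * (G : ℝ) ^ 235)) := by gcongr
            _ = 972 / (G : ℝ) ^ 235 + 486 / (G : ℝ) ^ 233 := by
                field_simp
                ring
            _ ≤ 972 / (G : ℝ) ^ 3 + 486 / (G : ℝ) ^ 3 := by
                gcongr <;> norm_num
            _ = 1458 / (G : ℝ) ^ 2 / G := by
                field_simp
                ring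
            _ ≤ 1 / G := by
                gcongr
                rw [div_le_one (by positivity)]
                nlinarith
        linarith
      · calc 6 * (G : ℝ) ^ 2 * (r + 2) ^ 4 ≤ 6 * (G : ℝ) ^ 2 * (3 * r) ^ 4 := by gcongr; linarith
          _ = _ := by ring

theorem ymix_lower {G e0 n : ℕ} (hG : 2 ≤ G) (hn : 1 ≤ n) (g1 : G ^ (4 * e0 + 239) ≤ n)
    {q : Quad n} (h : yquad G e0 q) (T : ℕ) (hT : T ≤ G ^ (4 * e0 + 18)) :
    ∃ (x : q.Vertex) (S : Finset q.Vertex),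
      1 - 25 / (G : ℝ) ≤ ∑ y ∈ S, (((q.lazy T x) y).toReal - q.stat y) := by
  classical
  obtain ⟨he, hb, -⟩ := h
  have hx : (2 : ℝ) ≤ G := by exact_mod_cast hG
  have hx1 : (1 : ℝ) ≤ G := by linarith
  have hx0 : (0 : ℝ) < G := by linarith
  have hn' : (0 : ℝ) < n := by exact_mod_cast hn
  have := hit_finite q
  let _i : Fintype q.Vertex := Fintype.ofFinite _
  set r : ℝ := (G : ℝ) ^ (e0 + 59) with hr
  obtain ⟨d, -, hd⟩ : ∃ d ∈ (univ : Finset (Fin (4 * n))),
      q.escape (q.tail d) (G ^ (4 * e0 + 18)) r ≤ ENNReal.ofReal (1 / G) := by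
    refine ENNReal.exists_le_of_sum_le ⟨⟨0, by omega⟩, mem_univ _⟩ ((he e0 le_rfl).trans ?_)
    rw [← ENNReal.ofReal_sum_of_nonneg fun _ _ => by positivity, sum_const, card_univ,
      Fintype.card_fin, nsmul_eq_mul]
    refine ENNReal.ofReal_le_ofReal ?_
    push_cast
    calc 2 * (n : ℝ) / (G : ℝ) ^ 5 ≤ 4 * n / G := by
          gcongr
          · norm_num
          · exact le_self_pow₀ hx1 (by norm_num)
      _ = _ := by ring
  set x := q.tail d
  refine ⟨x, univ.filter (fun y => ¬ r < (q.graph.dist x y : ℝ)), ?_⟩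
  have h1 := (escape_mono_time q x hT r).trans hd
  rw [escape_eq, ENNReal.ofReal_le_ofReal_iff (by positivity)] at h1
  have h2 := yL_esc q (fun y => r < (q.graph.dist x y : ℝ)) T x
  have h3 := lazy_eq q (univ.filter (fun y => ¬ r < (q.graph.dist x y : ℝ)) : Finset q.Vertex) T x
  have e1 : (yInd q fun z => z ∈ ((univ.filter (fun y => ¬ r < (q.graph.dist x y : ℝ)) :
      Finset q.Vertex) : Set q.Vertex)) = yInd q fun z => ¬ r < (q.graph.dist x z : ℝ) := by
    congr 1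
    funext z
    simp
  rw [e1, PMF.toOuterMeasure_apply_finset, ENNReal.toReal_sum fun y _ => PMF.apply_ne_top _ _]
    at h3
  have h4 : ∑ y ∈ univ.filter (fun y => ¬ r < (q.graph.dist x y : ℝ)), q.stat y
      = yBall q x r / (4 * n) := by
    rw [yBall, yVol, ← hit_sum_out q, sum_filter, sum_div]
    refine sum_congr rfl fun y _ => ?_
    rw [sum_congr rfl (g := fun _ => yInd q (fun z => ¬ r < (q.graph.dist x z : ℝ)) y)
      fun d hd => by rw [(y_mem_out q).1 hd], sum_const, nsmul_eq_mul, yInd, Quad.stat]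
    split_ifs <;> simp
  have h5 : yBall q x r / (4 * n) ≤ 24 / G := by
    have a1 : (2 : ℝ) ≤ r := hx.trans (le_self_pow₀ hx1 (by omega))
    have a2 : (G : ℝ) ^ (4 * e0 + 239) ≤ n := by exact_mod_cast g1
    calc yBall q x r / (4 * n)
        ≤ 6 * (G : ℝ) ^ 2 * (2 * r) ^ 4 / (4 * (G : ℝ) ^ (4 * e0 + 239)) := by
          gcongr
          refine (hb x r (by positivity)).trans ?_
          gcongr
          linarith
      _ = _ := by
          rw [hr]
          field_simp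
          ring
  rw [sum_sub_distrib, h4, h3]
  have : 25 / (G : ℝ) = 1 / G + 24 / G := by ring
  linarith

theorem ymix_upper {G n : ℕ} (hG : 1 ≤ G) (hn : 1 ≤ n) {q : Quad n}
    (hR : ResLe q ((G : ℝ) ^ 3)) (T : ℕ) (hT : 4 * n * (G : ℝ) ^ 4 ≤ T) (η : ℝ) (hη : 0 < η)
    (h : 16 * (n : ℝ) ^ 2 * Real.exp (-1) ^ G ≤ η ^ 2) (x y : q.Vertex) :
    |((q.lazy T x) y).toReal - q.stat y| ≤ η * q.stat y := by
  have hx1 : (1 : ℝ) ≤ G := by exact_mod_cast hG
  have hn' : (1 : ℝ) ≤ n := by exact_mod_cast hn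
  have h3 : (1 : ℝ) ≤ (G : ℝ) ^ 3 := one_le_pow₀ hx1
  have h1 := lazy_unif q hn _ h3 hR T x y
  have hy : (1 : ℝ) ≤ (q.out y).card := by exact_mod_cast (q.out_nonempty y).card_pos
  have hγ : 0 ≤ 1 - 1 / (4 * n * (G : ℝ) ^ 3) := by
    rw [sub_nonneg, div_le_one (by positivity)]
    nlinarith
  have h2 : (1 - 1 / (4 * n * (G : ℝ) ^ 3)) ^ T ≤ Real.exp (-1) ^ G := by
    calc _ ≤ Real.exp (-(1 / (4 * n * (G : ℝ) ^ 3))) ^ T := by
          gcongr
          linarith [Real.add_one_le_exp (-(1 / (4 * n * (G : ℝ) ^ 3)))]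
      _ ≤ _ := by
          rw [← Real.exp_nat_mul, ← Real.exp_nat_mul]
          refine Real.exp_le_exp.2 ?_
          have : (G : ℝ) ≤ T * (1 / (4 * n * (G : ℝ) ^ 3)) := by
            rw [mul_one_div, le_div_iff₀ (by positivity)]
            linarith
          linarith
  refine abs_le_of_sq_le_sq' ?_ (by unfold Quad.stat; positivity) |> abs_le.2
  refine h1.trans ?_
  have h4 : Real.exp (-1) ^ G ≤ η ^ 2 / (16 * (n : ℝ) ^ 2) := by
    rw [le_div_iff₀ (by positivity)]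
    linarith
  calc _ ≤ η ^ 2 / (16 * (n : ℝ) ^ 2) * ((q.out y).card : ℝ) ^ 2 := by
        refine mul_le_mul (h2.trans h4) (by nlinarith) (by positivity) (by positivity)
    _ = _ := by
        unfold Quad.stat
        field_simp
        ring

end Pool.Agent.P.MP_7a6434d8_pr
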