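import Pool.Agent.P.MP_7a6434d8_pr.YExit

/-!
Exit times of simple random walk from balls around the root vertex of a uniform rooted planar
quadrangulation with `n` faces, at all scales. Outside a set of maps of proportion `n ^ (-δ)`, the
largest distance to the root lies between `n ^ (1/4) / log n` and `n ^ (1/4 + ε)`, and every ball
of radius `r ≥ 1` that is not the whole map is left after more than `r ^ 4 / n ^ ε` and at most
`r ^ 4 * n ^ ε` steps, up to probability `n ^ (-δ)` on each side.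
-/

namespace Pool.Agent.P.MP_7a6434d8_pr.YExitScales

open Pool.Agent.P.MP_7a6434d8_pr

theorem result (ε : ℝ) (hε : 0 < ε) : ∃ δ : ℝ, 0 < δ ∧ ∃ n0 : ℕ, ∀ n : ℕ, n0 ≤ n →
    0 < Nat.card (RootedQuad n) ∧
    (Nat.card {c : RootedQuad n // ∃ q : Quad n, Quot.mk _ q = c ∧
        ¬ ((∃ v, (n : ℝ) ^ (1 / 4 : ℝ) / Real.log n < (q.graph.dist (q.tail q.root) v : ℝ)) ∧
          (∀ v, (q.graph.dist (q.tail q.root) v : ℝ) ≤ (n : ℝ) ^ (1 / 4 + ε)) ∧
          ∀ (r : ℝ) (v : q.Vertex), 1 ≤ r → r < (q.graph.dist (q.tail q.root) v : ℝ) →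
            q.escape (q.tail q.root) ⌊r ^ 4 / (n : ℝ) ^ ε⌋₊ r ≤ ENNReal.ofReal ((n : ℝ) ^ (-δ)) ∧
            ENNReal.ofReal (1 - (n : ℝ) ^ (-δ))
              ≤ q.escape (q.tail q.root) ⌊r ^ 4 * (n : ℝ) ^ ε⌋₊ r)} : ℝ)
      ≤ (Nat.card (RootedQuad n) : ℝ) / (n : ℝ) ^ δ := by
  obtain ⟨e0, he0⟩ := exists_nat_ge (60 / ε)
  have h60 : 60 ≤ e0 * ε := (div_le_iff₀ hε).1 he0
  obtain ⟨n0, hn0⟩ := Filter.eventually_atTop.1 ((ymain_root e0 1000).and (xmain_rad 1))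
  refine ⟨1 / ((4 * e0 + 240 : ℕ) : ℝ), by positivity, n0, fun n hn => ?_⟩
  obtain ⟨⟨hn1, G, hG, g1, g2, hbad⟩, hrad⟩ := hn0 n hn
  have hpos := xmain_pos n hn1
  have : Finite (RootedQuad n) := Nat.finite_of_card_ne_zero hpos.ne'
  have hn' : (0 : ℝ) < n := by exact_mod_cast hn1
  have hx : (1000 : ℝ) ≤ G := by exact_mod_cast hG
  have p1 : (G : ℝ) ^ 240 ≤ (n : ℝ) ^ ε :=
    ymain_pow hn1 (by omega) g1 (by push_cast; nlinarith)
  have p2 := ymain_root_pow (by omega) g2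
  have p3 : (G : ℝ) ^ (e0 + 62) ≤ (n : ℝ) ^ (1 / 4 + ε) :=
    ymain_pow hn1 (by omega) g1 (by push_cast; nlinarith)
  have p0 : 0 < (n : ℝ) ^ (1 / ((4 * e0 + 240 : ℕ) : ℝ)) := by positivity
  have p4 : 1 / (G : ℝ) ≤ (n : ℝ) ^ (-(1 / ((4 * e0 + 240 : ℕ) : ℝ))) := by
    rw [Real.rpow_neg hn'.le, ← one_div]
    gcongr
  have p5 : (G : ℝ) ^ 2 ≤ n := by
    have : (G : ℝ) ^ (4 * e0 + 239) ≤ n := by exact_mod_cast g1
    exact (pow_le_pow_right₀ (by linarith) (by omega)).trans this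
  refine ⟨hpos, le_trans (ymain_or (B := fun q => ¬ yroot G e0 q)
    (C := fun q => ¬ ∃ v, (n : ℝ) ^ (1 / 4 : ℝ) / Real.log n
      < (q.graph.dist (q.tail q.root) v : ℝ)) fun q hq => ?_) ((add_le_add hbad hrad).trans ?_)⟩
  · by_contra hcon
    rw [not_or, not_not, not_not] at hcon
    refine hq ⟨hcon.2, fun v => le_trans ?_ p3, fun r v h1 h2 => ?_⟩
    · exact_mod_cast hcon.1.1.1.2.2 v
    · obtain ⟨a1, a2⟩ := yroot_exit hG hn1 hcon.1 _ p1 r v h1 h2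
      exact ⟨a1.trans (ENNReal.ofReal_le_ofReal p4),
        le_trans (ENNReal.ofReal_le_ofReal (by linarith)) a2⟩
  · rw [← add_mul, pow_one, div_eq_inv_mul (Nat.card (RootedQuad n) : ℝ), ← one_div]
    refine mul_le_mul_of_nonneg_right ?_ (Nat.cast_nonneg _)
    calc 1 / (G : ℝ) ^ 2 + 1 / n ≤ 1 / (G : ℝ) ^ 2 + 1 / (G : ℝ) ^ 2 := by gcongr
      _ = 2 / (G : ℝ) / G := by field_simp; norm_num
      _ ≤ 1 / (G : ℝ) := by
          gcongr
          rw [div_le_one (by linarith)]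
          linarith
      _ ≤ _ := by gcongr

end Pool.Agent.P.MP_7a6434d8_pr.YExitScales
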