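import Pool.Agent.P.MP_7a6434d8_pr.XRadLow

/-! Labellings with many small labels. -/

namespace Pool.Agent.P.MP_7a6434d8_pr

open Mp Finset
open scoped ENNReal

/-- a nonnegative distance-like labelling with boundary labels `l` and at least `c` vertices, other
than the local minimum, of label at most `r` -/
def LabC (t : Mp) (l : ℕ → ℤ) (r : ℤ) (c : ℕ) : Prop :=
  ∃ (f : V t → ℤ) (v : V t) (S : Finset (V t)), (∀ p, p ≤ 2 * per t → f (bv t p) = l p) ∧
    (∀ x y, adj t x y → f x = f y + 1 ∨ f y = f x + 1) ∧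
    (∀ x, x ≠ v → ∃ y, adj t x y ∧ f x = f y + 1) ∧ (∀ x, 0 ≤ f x) ∧ c ≤ S.card ∧
    ∀ x ∈ S, x ≠ v ∧ f x ≤ r

theorem labC_pt {l : ℕ → ℤ} {r : ℤ} {c : ℕ} (h : LabC pt l r c) : c = 0 := by
  obtain ⟨f, v, S, -, -, -, -, h4, h5⟩ := h
  have : S = ∅ := eq_empty_of_forall_notMem fun x hx => (h5 x hx).1 rfl
  rw [this] at h4
  simpa using h4

theorem labC_lab {t : Mp} {l : ℕ → ℤ} {r : ℤ} {c : ℕ} (h : LabC t l r c) :
    Lab t l Set.univ (Set.Ici 0) := by
  obtain ⟨f, v, S, h1, h2, h3, h4, -, -⟩ := h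
  exact ⟨f, v, h1, h2, h3, Set.mem_univ _, h4⟩

theorem labC_congr {t : Mp} {l l' : ℕ → ℤ} {r : ℤ} {c : ℕ} (h : LabC t l r c)
    (hl : ∀ p, p ≤ 2 * per t → l' p = l p) : LabC t l' r c := by
  obtain ⟨f, v, S, h1, h2⟩ := h
  exact ⟨f, v, S, fun p hp => (h1 p hp).trans (hl p hp).symm, h2⟩

theorem labC_face {t : Mp} {l : ℕ → ℤ} {r : ℤ} {c : ℕ} (ht : ok (face t))
    (h : LabC (face t) l r c) (h1 : l 1 = l 0 + 1) (h2 : l 2 = l 0) :
    LabC t (ins l (l 0 + 1) (l 0 + 2)) r c ∨ LabC t (ins l (l 0 + 1) (l 0)) r c ∨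
      (0 ≤ l 0 - 1 ∧ LabC t (ins l (l 0 - 1) (l 0)) r c) := by
  obtain ⟨hok, hper⟩ : ok t ∧ 2 ≤ per t := ht
  obtain ⟨f, v, S, hb, ha, hs, hB, hc, hS⟩ := h
  have hpf : per (face t) = per t - 1 := rfl
  let g : V t → ℤ := f
  have hg : ∀ p, 3 ≤ p → p ≤ 2 * per t → g (bv t p) = l (p - 2) := by
    intro p h3 hp
    have e := hb (p - 2) (by rw [hpf]; omega)
    rw [xlabdet_bv_face t (p - 2) (by omega), show p - 2 + 2 = p by omega] at e
    exact e
  have g0 : g (bv t 0) = l 0 := by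
    have e := hb 0 (Nat.zero_le _)
    rw [xlabdet_bv_face0] at e
    exact e
  have g3 : g (bv t 3) = l 0 + 1 := (hg 3 le_rfl (by omega)).trans h1
  have g4 : g (bv t 4) = l 0 := (hg 4 (by omega) (by omega)).trans h2
  have hadj : ∀ x y, adj t x y → g x = g y + 1 ∨ g y = g x + 1 :=
    fun x y hxy => ha x y (Or.inl hxy)
  have key : LabC t (ins l (g (bv t 1)) (g (bv t 2))) r c := by
    refine ⟨g, v, S, fun p hp => ?_, hadj, fun x hx => ?_, hB, hc, hS⟩
    · unfold ins
      by_cases p0 : p = 0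
      · rw [if_pos p0, p0, g0]
      · rw [if_neg p0]
        by_cases p1 : p = 1
        · rw [if_pos p1, p1]
        · rw [if_neg p1]
          by_cases p2 : p = 2
          · rw [if_pos p2, p2]
          · rw [if_neg p2]
            exact hg p (by omega) hp
    · obtain ⟨y, hy, e⟩ := hs x hx
      have e' : g x = g y + 1 := e
      rcases hy with hy | ⟨hx0, hy3⟩ | ⟨hx3, hy0⟩
      · exact ⟨y, hy, e'⟩
      · rw [hx0, hy3, g0, g3] at e'
        omega
      · refine ⟨bv t 4, ?_, ?_⟩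
        · rw [hx3]
          exact adj_bv t hok 3 (by omega)
        · rw [hx3, g3, g4]
  have a01 := hadj _ _ (adj_bv t hok 0 (by omega))
  have a12 := hadj _ _ (adj_bv t hok 1 (by omega))
  have a23 := hadj _ _ (adj_bv t hok 2 (by omega))
  have b1 : 0 ≤ g (bv t 1) := hB _
  simp only [zero_add, Nat.reduceAdd] at a01 a12 a23
  rw [g0] at a01
  rw [g3] at a23
  have hc : (g (bv t 1) = l 0 + 1 ∧ g (bv t 2) = l 0 + 2) ∨
      (g (bv t 1) = l 0 + 1 ∧ g (bv t 2) = l 0) ∨
      (g (bv t 1) = l 0 - 1 ∧ g (bv t 2) = l 0) := by omega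
  rcases hc with ⟨e1, e2⟩ | ⟨e1, e2⟩ | ⟨e1, e2⟩
  · rw [e1, e2] at key
    exact Or.inl key
  · rw [e1, e2] at key
    exact Or.inr (Or.inl key)
  · rw [e1, e2] at key
    rw [e1] at b1
    exact Or.inr (Or.inr ⟨b1, key⟩)

theorem labC_bridge {a : Mp} {l : ℕ → ℤ} {r : ℤ} {c : ℕ}
    (h : LabC (bridge a pt) l r c) (h1 : l 1 = l 0 + 1) :
    LabC a (fun p => l (p + 2)) r (c - if l 0 + 1 ≤ r then 1 else 0) := by
  classical
  obtain ⟨f, v, S, hb, ha, hs, hB, hc, hS⟩ := h
  have hpf : per (bridge a pt) = per a + 0 + 1 := rfl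
  let g : V a ⊕ V pt → ℤ := f
  have g0 : g (Sum.inl (bv a 0)) = l 0 := by
    have e := hb 0 (Nat.zero_le _)
    rw [xlabdet_bv0] at e
    exact e
  have g1 : g (Sum.inr (bv pt 0)) = l 0 + 1 := by
    have e := hb (0 + 1) (by rw [hpf]; omega)
    rw [xlabdet_bvb a pt 0 (Nat.zero_le _)] at e
    exact e.trans h1
  have hsa : ∀ x : V a, (Sum.inl x : V a ⊕ V pt) ≠ v →
      ∃ y, adj a x y ∧ g (Sum.inl x) = g (Sum.inl y) + 1 := by
    intro x hx
    obtain ⟨y, hy, e⟩ := hs (Sum.inl x) hx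
    rcases y with y | y
    · exact ⟨y, hy, e⟩
    · obtain ⟨hx0, hy0⟩ : x = bv a 0 ∧ y = bv pt 0 := hy
      have e' : g (Sum.inl x) = g (Sum.inr y) + 1 := e
      rw [hx0, hy0, g0, g1] at e'
      omega
  haveI : Nonempty (V a) := ⟨bv a 0⟩
  obtain ⟨x, hx⟩ := Finite.exists_min (fun x : V a => g (Sum.inl x))
  have hv : (Sum.inl x : V a ⊕ V pt) = v := by
    by_contra hne
    obtain ⟨y, -, e⟩ := hsa x hne
    have := hx y
    omega
  let S0 : Finset (V a ⊕ V pt) := S
  refine ⟨fun y => g (Sum.inl y), x, S0.toLeft, fun p hp => ?_,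
    fun y z hyz => ha (Sum.inl y) (Sum.inl z) hyz, fun y hy => ?_, fun y => hB _, ?_,
    fun y hy => ?_⟩
  · have e := hb (p + 2 * per pt + 2) (by rw [hpf]; show p + 2 * 0 + 2 ≤ _; omega)
    rw [xlabdet_bva] at e
    exact e
  · refine hsa y ?_
    rw [← hv]
    exact fun hh => hy (Sum.inl_injective hh)
  · have e1 : S0.toLeft.card + S0.toRight.card = S0.card := card_toLeft_add_card_toRight
    have e2 : c ≤ S0.card := hc
    split_ifs with hr
    · have : S0.toRight.card ≤ 1 := card_le_one.2 fun _ _ _ _ => rfl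
      omega
    · have : S0.toRight = ∅ := eq_empty_of_forall_notMem fun z hz => by
        have h3 := (hS _ (mem_toRight.1 hz)).2
        exact hr (g1 ▸ h3)
      rw [this, card_empty] at e1
      omega
  · have h3 := hS _ (mem_toLeft.1 hy)
    exact ⟨fun hh => h3.1 (hh ▸ hv), h3.2⟩

theorem labC_rot {t : Mp} {l : ℕ → ℤ} {r : ℤ} {c : ℕ} (ht : ok t) (k : ℕ) (h : LabC t l r c)
    (hL : 1 ≤ per t) : LabC (rotN k t) (fun p => l ((p + k) % (2 * per t))) r c := by
  obtain ⟨f, v, S, hb, ha, hs, hB, hc, hS⟩ := h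
  obtain ⟨e, he, hbv⟩ := rotN_shift k t ht
  have hadj := equiv_adj ht (rotN_ok k t ht) e he
  refine ⟨fun x => f (e x), e.symm v, S.map e.symm.toEmbedding, fun p hp => ?_,
    fun x y hxy => ha _ _ ((hadj x y).2 hxy), fun x hx => ?_, fun x => hB _, ?_, fun x hx => ?_⟩
  · rw [rotN_per k t ht] at hp
    show f (e (bv (rotN k t) p)) = _
    rw [hbv p hp]
    exact hb _ (Nat.mod_lt _ (by omega)).le
  · have hx' : e x ≠ v := fun hh => hx (by rw [← hh, Equiv.symm_apply_apply])
    obtain ⟨y, hy, ey⟩ := hs (e x) hx'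
    refine ⟨e.symm y, (hadj x (e.symm y)).1 ?_, ?_⟩
    · rw [Equiv.apply_symm_apply]
      exact hy
    · show f (e x) = f (e (e.symm y)) + 1
      rw [Equiv.apply_symm_apply]
      exact ey
  · rwa [card_map]
  · obtain ⟨y, hy, rfl⟩ := mem_map.1 hx
    refine ⟨fun hh => (hS y hy).1 (e.symm.injective hh), ?_⟩
    show f (e (e.symm y)) ≤ r
    rw [Equiv.apply_symm_apply]
    exact (hS y hy).2

open Classical in
/-- the indicator of a labelling with many small labels -/
noncomputable def ylabF (r : ℤ) (c : ℕ) (l : ℕ → ℤ) (t : Mp) : ℝ≥0∞ :=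
  if LabC t l r c then 1 else 0

theorem ylab_rot_le (r : ℤ) (c N L k : ℕ) (hL : 1 ≤ L) (l : ℕ → ℤ) :
    IE L (trunc N (ylabF r c l))
      ≤ IE L (trunc N (ylabF r c (fun p => l ((p + k) % (2 * L))))) := by
  rw [← IE_rot L k (trunc N (ylabF r c (fun p => l ((p + k) % (2 * L)))))]
  refine IE_mono fun t ht hp => ?_
  unfold trunc ylabF
  rw [rotN_edges k t ht]
  by_cases h1 : edges t < N
  · rw [if_pos h1, if_pos h1]
    by_cases h2 : LabC t l r c
    · have := labC_rot ht k h2 (by omega)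
      rw [hp] at this
      rw [if_pos h2, if_pos this]
    · rw [if_neg h2]
      exact zero_le
  · rw [if_neg h1]
    exact zero_le

open Classical in
theorem ylab_face_le (r : ℤ) (c N L : ℕ) (l : ℕ → ℤ) (h1 : l 1 = l 0 + 1) (h2 : l 2 = l 0) :
    IE (L + 2) (trunc N (fun t => ylabF r c l (face t))) ≤
      IE (L + 2) (trunc N (ylabF r c (ins l (l 0 + 1) (l 0 + 2))))
        + IE (L + 2) (trunc N (ylabF r c (ins l (l 0 + 1) (l 0))))
        + (if 0 ≤ l 0 - 1 then IE (L + 2) (trunc N (ylabF r c (ins l (l 0 - 1) (l 0))))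
            else 0) := by
  have hz : IE (L + 2) (fun _ => 0) = 0 := by simp [IE]
  have e : ∀ (P : Prop) [Decidable P] (G : Mp → ℝ≥0∞), (if P then IE (L + 2) G else 0)
      = IE (L + 2) (fun t => if P then G t else 0) := by
    intro P _ G
    by_cases hP : P
    · simp only [if_pos hP]
    · simp only [if_neg hP, hz]
  rw [e, ← IE_add, ← IE_add]
  refine IE_mono fun t ht hp => ?_
  unfold trunc
  by_cases hN : edges t < N
  · simp only [if_pos hN]
    unfold ylabF
    by_cases hlab : LabC (face t) l r c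
    · rw [if_pos hlab]
      rcases labC_face ⟨ht, by omega⟩ hlab h1 h2 with h | h | h
      · rw [if_pos h, add_assoc]
        exact le_self_add
      · rw [if_pos h]
        exact le_trans le_add_self le_self_add
      · rw [if_pos h.1, if_pos h.2]
        exact le_add_self
    · rw [if_neg hlab]
      exact zero_le
  · simp only [if_neg hN]
    exact zero_le

theorem ylab_bridge_le (r : ℤ) (c N L : ℕ) (l : ℕ → ℤ) (h1 : l 1 = l 0 + 1) (h2 : l 2 = l 0) :
    ∑ j ∈ range (L + 1), IE j (trunc N (fun b =>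
        IE (L + 1 - 1 - j) (trunc N (fun a => ylabF r c l (bridge a b)))))
      ≤ IE L (trunc N (ylabF r (c - if l 0 + 1 ≤ r then 1 else 0) (fun p => l (p + 2)))) := by
  rw [Finset.sum_eq_single 0]
  · rw [IE_zero]
    refine le_trans (b := IE L (trunc N (fun a => ylabF r c l (bridge a pt)))) ?_ ?_
    · unfold trunc
      split_ifs
      · exact le_rfl
      · exact zero_le
    · refine IE_mono fun a ha _ => ?_
      unfold trunc ylabF
      by_cases hN : edges a < N
      · rw [if_pos hN, if_pos hN]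
        beta_reduce
        by_cases hlab : LabC (bridge a pt) l r c
        · rw [if_pos hlab, if_pos (labC_bridge hlab h1)]
        · rw [if_neg hlab]
          exact zero_le
      · rw [if_neg hN]
        exact zero_le
  · intro j _ hj
    have hz : ∀ i, IE i (fun _ => 0) = 0 := fun i => by simp [IE]
    refine le_antisymm (le_trans (IE_mono fun b hb hpb => ?_) (hz j).le) zero_le
    unfold trunc
    split_ifs
    · refine le_trans (IE_mono fun a ha _ => ?_) (hz _).le
      split_ifs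
      · unfold ylabF
        beta_reduce
        rw [if_neg]
        intro hlab
        have := (lab_bridge ⟨ha, hb⟩ (labC_lab hlab) h1 h2).1
        subst this
        exact hj hpb.symm
      · exact le_rfl
    · exact le_rfl
  · intro h
    exact absurd (mem_range.2 (by omega)) h

theorem ylab_num (A B C δ : ℝ) (hA : 0 ≤ A) (hB : 0 ≤ B) (hC : 0 ≤ C)
    (hδ : δ ≤ B ^ 2 / 3) (hid : A + C - 2 * B = 2 * B * (A + B + C)) :
    1 + δ + (2 * (1 - C) * (2 * (1 - B)) + 2 * (1 - B) * (2 * (1 - B))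
      + 2 * (1 - A) * (2 * (1 - B))) / 12 ≤ 2 * (1 - B) := by
  have h3 : 0 ≤ B * (A + C) := by positivity
  nlinarith

theorem ylab_step (r : ℕ) {i : ℤ} (h0 : 0 ≤ i) :
    (1 + 1 / (3 * ((r : ℝ) + 2) ^ 4)) ^ (if i + 1 ≤ (r : ℤ) then 1 else 0)
      + (xradlowR (i + 2) * xradlowR (i + 1)
      + xradlowR (i + 1) * xradlowR (i + 1) + xradlowR i * xradlowR (i + 1)) / 12
      ≤ xradlowR (i + 1) := by
  have hu : (0 : ℝ) ≤ i := by exact_mod_cast h0
  unfold xradlowR
  push_cast
  split_ifs with h1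
  · have hr : (i : ℝ) + 1 ≤ r := by exact_mod_cast h1
    rw [pow_one]
    refine ylab_num _ _ _ _ (by positivity) (by positivity) (by positivity) ?_ ?_
    · rw [div_pow, one_pow, div_div, mul_comm _ (3 : ℝ)]
      refine one_div_le_one_div_of_le (by positivity) (mul_le_mul_of_nonneg_left ?_ (by norm_num))
      have h2 : ((i : ℝ) + 1 + 1) * ((i : ℝ) + 1 + 2) ≤ ((r : ℝ) + 2) ^ 2 := by nlinarith
      calc (((i : ℝ) + 1 + 1) * ((i : ℝ) + 1 + 2)) ^ 2 ≤ (((r : ℝ) + 2) ^ 2) ^ 2 :=
            pow_le_pow_left₀ (by positivity) h2 2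
        _ = ((r : ℝ) + 2) ^ 4 := by ring
    · field_simp
      ring
  · rw [pow_zero]
    have := ylab_num (1 / (((i : ℝ) + 1) * ((i : ℝ) + 2)))
      (1 / (((i : ℝ) + 1 + 1) * ((i : ℝ) + 1 + 2))) (1 / (((i : ℝ) + 2 + 1) * ((i : ℝ) + 2 + 2))) 0
      (by positivity) (by positivity) (by positivity) (by positivity) (by field_simp; ring)
    rwa [add_zero] at this

theorem ylab_bound (r : ℕ) (N : ℕ) : ∀ (c L : ℕ) (l : ℕ → ℤ), Valid L l →
    (∀ p, p ≤ 2 * L → l p ∈ Set.Ici (0 : ℤ)) → IE L (trunc N (ylabF r c l))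
      ≤ ENNReal.ofReal (dprod xradlowR L l / (1 + 1 / (3 * ((r : ℝ) + 2) ^ 4)) ^ c) := by
  set x : ℝ := 1 + 1 / (3 * ((r : ℝ) + 2) ^ 4) with hx
  have hx1 : 1 ≤ x := by rw [hx]; exact le_add_of_nonneg_right (by positivity)
  have hn : ∀ L l, (∀ p, p ≤ 2 * L → l p ∈ Set.Ici (0 : ℤ)) → 0 ≤ dprod xradlowR L l :=
    fun L l h => (dprod_le (R' := fun _ => 2) L l fun p hp => xradlow_bounds (h p hp.le)).1
  induction N with
  | zero =>
    intro c L l _ _
    rw [IE_trunc_zero]
    exact zero_le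
  | succ N ih =>
    intro c
    have hxc : 0 < x ^ c := by positivity
    have main : ∀ L l, Valid (L + 1) l → (∀ p, p ≤ 2 * (L + 1) → l p ∈ Set.Ici (0 : ℤ)) →
        l 1 = l 0 + 1 → l 2 = l 0 → IE (L + 1) (trunc (N + 1) (ylabF r c l))
          ≤ ENNReal.ofReal (dprod xradlowR (L + 1) l / x ^ c) := by
      intro L l hl hB h1 h2
      have hb0 : 0 ≤ l 0 := hB 0 (by omega)
      have hb1 : l 0 + 1 ∈ Set.Ici (0 : ℤ) := by show 0 ≤ l 0 + 1; omega
      have hb2 : l 0 + 2 ∈ Set.Ici (0 : ℤ) := by show 0 ≤ l 0 + 2; omega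
      have v1 : Valid (L + 2) (ins l (l 0 + 1) (l 0 + 2)) :=
        xlab_valid_ins hl (by omega) (by omega) (by omega)
      have v2 : Valid (L + 2) (ins l (l 0 + 1) (l 0)) :=
        xlab_valid_ins hl (by omega) (by omega) (by omega)
      have v3 : Valid (L + 2) (ins l (l 0 - 1) (l 0)) :=
        xlab_valid_ins hl (by omega) (by omega) (by omega)
      have v4 := xlab_valid_shift hl h2
      have m4 : ∀ p, p ≤ 2 * L → (fun p => l (p + 2)) p ∈ Set.Ici (0 : ℤ) :=
        fun p hp => hB _ (by omega)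
      obtain ⟨e1, e2, e3⟩ := dprod_ins xradlowR L l h1
      have e4 := dprod_shift xradlowR L l h1 h2
      have hP := hn L _ m4
      have c0 := (xradlow_bounds hb0).1
      have c1 := (xradlow_bounds hb1).1
      have c2 := (xradlow_bounds hb2).1
      have i1 := ih c _ _ v1 (xlab_mem_ins hB hb1 hb2)
      have i2 := ih c _ _ v2 (xlab_mem_ins hB hb1 hb0)
      have i3 : (if 0 ≤ l 0 - 1 then
          IE (L + 2) (trunc N (ylabF r c (ins l (l 0 - 1) (l 0)))) else 0)
          ≤ ENNReal.ofReal (dprod xradlowR (L + 2) (ins l (l 0 - 1) (l 0)) / x ^ c) := by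
        split_ifs with h
        · exact ih c _ _ v3 (xlab_mem_ins hB h hb0)
        · exact zero_le
      have i4 := ih (c - if l 0 + 1 ≤ (r : ℤ) then 1 else 0) _ _ v4 m4
      have hf := (ylab_face_le r c N L l h1 h2).trans (add_le_add (add_le_add i1 i2) i3)
      have hb := (ylab_bridge_le r c N L l h1 h2).trans i4
      refine (IE_root_trunc N (L + 1) (by omega) _).trans
        ((add_le_add (mul_le_mul' le_rfl hf) hb).trans ?_)
      have h12 : (12 : ℝ≥0∞)⁻¹ = ENNReal.ofReal (12 : ℝ)⁻¹ := by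
        rw [ENNReal.ofReal_inv_of_pos (by norm_num)]
        norm_num
      have key := ylab_step r hb0
      rw [← hx] at key
      rw [e1, e2, e3, e4]
      generalize dprod xradlowR L (fun p => l (p + 2)) = P at hP
      generalize (if l 0 + 1 ≤ (r : ℤ) then 1 else 0) = ι at key
      rw [h12, ← ENNReal.ofReal_add (by positivity) (by positivity),
        ← ENNReal.ofReal_add (by positivity) (by positivity),
        ← ENNReal.ofReal_mul (by norm_num), ← ENNReal.ofReal_add (by positivity) (by positivity)]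
      refine ENNReal.ofReal_le_ofReal ?_
      have k1 : P / x ^ (c - ι) ≤ x ^ ι * P / x ^ c := by
        rw [div_le_div_iff₀ (by positivity) hxc]
        have : x ^ c ≤ x ^ ι * x ^ (c - ι) := by
          rw [← pow_add]
          exact pow_le_pow_right₀ hx1 (by omega)
        nlinarith
      have k2 := div_le_div_of_nonneg_right (mul_le_mul_of_nonneg_right key hP) hxc.le
      refine le_trans ?_ k2
      refine (add_le_add le_rfl k1).trans (le_of_eq ?_)
      ring
    intro L l hl hB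
    rcases L with _ | L
    · rw [IE_zero]
      unfold trunc ylabF
      split_ifs with h1 h2
      · rw [labC_pt h2]
        simp [dprod]
      · exact zero_le
      · exact zero_le
    · obtain ⟨k, k1, k2⟩ := xlab_choose hl
      refine (ylab_rot_le r c (N + 1) (L + 1) k (by omega) l).trans
        ((main L _ (xlab_valid_rot (by omega) hl k) (fun p _ => ?_) k1 k2).trans
          (le_of_eq (by rw [dprod_rot _ (L + 1) l k (by omega) hl])))
      exact hB _ (Nat.mod_lt _ (by omega)).le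

theorem ylab_mass (r c : ℕ) (l : ℕ → ℤ) : mass 2 (fun t => LabC t l r c)
    ≤ 4 * Real.exp (-((c : ℝ) / (6 * ((r : ℝ) + 2) ^ 4))) := by
  classical
  have hr : (0 : ℝ) ≤ r := Nat.cast_nonneg r
  have hδ : 1 / (3 * ((r : ℝ) + 2) ^ 4) ≤ 1 := by
    rw [div_le_one (by positivity)]
    have : (1 : ℝ) ≤ ((r : ℝ) + 2) ^ 4 := one_le_pow₀ (by linarith)
    linarith
  by_cases hv : Valid 2 l ∧ ∀ p, p ≤ 2 * 2 → l p ∈ Set.Ici (0 : ℤ)
  · have h1 := IE_le_of_trunc fun N => ylab_bound r N c 2 l hv.1 hv.2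
    have h2 := dprod_le (R := xradlowR) (R' := fun _ => 2) 2 l
      fun p hp => xradlow_bounds (hv.2 p hp.le)
    rw [dprod_const 2 2 l hv.1] at h2
    have h3 := IE_markov (L := 2) (φ := fun t => LabC t l r c) (c := 1) one_pos
      (div_nonneg h2.1 (by positivity)) (fun t _ _ h => by
        unfold ylabF
        rw [if_pos h, ENNReal.ofReal_one]) h1
    have h := xradlow_exp _ (by positivity) hδ c
    have e : (c : ℝ) * (1 / (3 * ((r : ℝ) + 2) ^ 4) / 2) = c / (6 * ((r : ℝ) + 2) ^ 4) := by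
      field_simp
      ring
    rw [e] at h
    refine h3.trans (le_trans ?_ h)
    rw [div_one]
    refine div_le_div_of_nonneg_right (h2.2.trans (by norm_num)) (by positivity)
  · refine (mass_eq_zero fun t ht hp h => hv ?_).trans_le (by positivity)
    have h2 := lab_valid ht (labC_lab h)
    rwa [hp] at h2

open Classical in
/-- number of vertices within distance `r` of `v` -/
noncomputable def ballC (t : Mp) (v : V t) (r : ℕ) : ℕ := (univ.filter (Within t r v)).card

theorem ylab_of_ball (t : Mp) (ht : ok t) (v : V t) (r c : ℕ) (h : c + 1 ≤ ballC t v r) :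
    ∃ l : ℕ → ℤ, (∃ k ∈ range (edges t + 1), l 0 = (k : ℕ)) ∧ LabC t l r c := by
  classical
  obtain ⟨d, -, h2, h3, h4⟩ := xgraphb_dist t ht v
  have hv : d v = 0 := Nat.le_zero.1 (h2 v 0 (Within.refl t 0 v))
  have hdown : ∀ m, (∃ x, d x = m) → range (m + 1) ⊆ univ.image d := by
    intro m
    induction m with
    | zero =>
      rintro ⟨x, hx⟩ k hk
      exact mem_image.2 ⟨x, mem_univ _, by rw [hx]; have := mem_range.1 hk; omega⟩
    | succ m ih =>
      rintro ⟨x, hx⟩ k hk
      rcases Nat.lt_succ_iff_lt_or_eq.1 (mem_range.1 hk) with hk' | rfl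
      · obtain ⟨y, -, hy⟩ := h4 x (by rintro rfl; omega)
        exact ih ⟨y, by omega⟩ (mem_range.2 hk')
      · exact mem_image.2 ⟨x, mem_univ _, hx⟩
  have hk : d (bv t 0) < edges t + 1 := by
    have a1 := card_le_card (hdown _ ⟨bv t 0, rfl⟩)
    have a2 : (univ.image d).card ≤ Fintype.card (V t) := card_image_le
    have a3 := card_V_le t ht
    rw [card_range] at a1
    omega
  refine ⟨fun p => (d (bv t p) : ℤ), ⟨d (bv t 0), mem_range.2 hk, rfl⟩, fun x => (d x : ℤ), v,
    (univ.filter (Within t r v)).erase v, fun _ _ => rfl, fun x y hxy => ?_, fun x hx => ?_,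
    fun x => Int.natCast_nonneg _, ?_, fun x hx => ?_⟩
  · have := h3 x y hxy
    dsimp only
    omega
  · obtain ⟨y, hy, hd⟩ := h4 x hx
    refine ⟨y, hy, ?_⟩
    dsimp only
    omega
  · have := pred_card_le_card_erase (s := univ.filter (Within t r v)) (a := v)
    unfold ballC at h
    omega
  · refine ⟨ne_of_mem_erase hx, ?_⟩
    have := h2 x r (mem_filter.1 (mem_of_mem_erase hx)).2
    dsimp only
    omega

theorem ball_tail (m r c : ℕ) :
    mass 2 (fun t => edges t ≤ m ∧ ∃ v, c + 1 ≤ ballC t v r)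
      ≤ 64 * (m + 1) * Real.exp (-((c : ℝ) / (6 * ((r : ℝ) + 2) ^ 4))) := by
  classical
  refine (mass_le_sum (range (m + 1) ×ˢ (univ : Finset (Fin (2 * 2) → Bool)))
    (fun p t => LabC t (pathOf (2 * 2) (p.1 : ℕ) p.2) r c) fun t ht hp h => ?_).trans ?_
  · obtain ⟨he, v, hv⟩ := h
    obtain ⟨l, ⟨k, hk, hl0⟩, hl⟩ := ylab_of_ball t ht v r c hv
    have hv := (lab_valid ht (labC_lab hl)).1
    rw [hp] at hv
    obtain ⟨σ, hσ⟩ := exists_pathOf 2 l hv
    rw [hl0] at hσ
    refine ⟨(k, σ), mem_product.2 ⟨mem_range.2 ?_, mem_univ _⟩,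
      labC_congr hl fun p hpp => hσ p (hp ▸ hpp)⟩
    have := mem_range.1 hk
    omega
  · refine (sum_le_sum fun p _ => ylab_mass r c _).trans (le_of_eq ?_)
    rw [sum_const, card_product, card_range, card_univ, nsmul_eq_mul]
    simp only [Fintype.card_fun, Fintype.card_bool, Fintype.card_fin]
    push_cast
    ring

end Pool.Agent.P.MP_7a6434d8_pr
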