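import Pool.Agent.P.MP_7a6434d8_pr.YSep
import Pool.Agent.P.MP_7a6434d8_pr.YLab

/-! The good event at all scales has overwhelming probability. -/

namespace Pool.Agent.P.MP_7a6434d8_pr

open Mp Finset Filter Topology
open scoped ENNReal

theorem ygood_Z : Bv 2 * Z 2 = 32 := by
  norm_num [Bv, Z, catalan_two]

theorem ygood_bad1 (G e n : ℕ) (hG : 4 ≤ G) :
    mass 2 (fun t => AnySub (ybad1 G e) t ∧ size t + per t ≤ n)
      ≤ 64 * Real.exp 8 * (G : ℝ) ^ 0 * Real.exp (-(1 / 2)) ^ G := by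
  have hx : (4 : ℝ) ≤ G := by exact_mod_cast hG
  have hx1 : (1 : ℝ) ≤ G := by linarith
  have a2 := anysub (ybad1 G e) n (2 * Real.exp (8 - G / 2)) (by positivity)
    (by simp [ybad1, per]) (fun L _ => by
      rcases le_or_gt L (G ^ (2 * e + 121)) with hL | hL
      · rw [mass_eq_zero fun t _ h2 h3 => by have := h3.1.2; omega]
        have := Z_pos L
        positivity
      · have hs : (4 : ℝ) ≤ (G : ℝ) ^ (2 * e + 120) :=
          le_trans hx (le_self_pow₀ hx1 (by omega))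
        have hL' : (G : ℝ) ^ (2 * e + 121) ≤ L := by exact_mod_cast hL.le
        refine (mass_mono fun t ht _ h => (show size t ≤ 2 * G ^ (4 * e + 240) by
          have := h.1.1
          have := edges_eq t ht
          omega)).trans
          ((small_size (1 / (G : ℝ) ^ (2 * e + 120)) (by positivity)
            (one_div_le_one_div_of_le (by norm_num) hs) L (2 * G ^ (4 * e + 240))).trans ?_)
        have := Z_pos L
        gcongr
        · push_cast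
          refine le_of_eq ?_
          field_simp
          ring
        · calc (G : ℝ) = 1 / (G : ℝ) ^ (2 * e + 120) * (G : ℝ) ^ (2 * e + 121) := by
                field_simp; ring
            _ ≤ _ := by gcongr) 2
  rw [ygood_Z] at a2
  refine a2.trans (le_of_eq ?_)
  rw [← Real.exp_nat_mul, sub_eq_add_neg, Real.exp_add,
    show -((G : ℝ) / 2) = G * -(1 / 2) by ring]
  ring

theorem ygood_bad2 : ∃ C : ℝ, ∃ G0 : ℕ, ∀ G e n : ℕ, G0 ≤ G →
    mass 2 (fun t => AnySub (ybad2 G e) t ∧ size t + per t ≤ n)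
      ≤ C * (G : ℝ) ^ (6 * e + 363) * Real.exp (-1) ^ G := by
  obtain ⟨c, hc, hsp⟩ := spine
  obtain ⟨C, hC, h8⟩ := xpiece_eight
  obtain ⟨G1, hG1⟩ := exists_nat_ge (32 / c ^ 2)
  refine ⟨256 * C, max G1 36, fun G e n hG => ?_⟩
  have hx : (36 : ℝ) ≤ G := by exact_mod_cast le_of_max_le_right hG
  have hx1 : (1 : ℝ) ≤ G := by linarith
  have b4 : 32 / c ^ 2 ≤ (G : ℝ) := hG1.trans (by exact_mod_cast le_of_max_le_left hG)
  have a3 := hsp (G ^ (4 * e + 136)) (G ^ (2 * e + 121)) (1 / (G : ℝ) ^ (4 * e + 216))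
    ((G : ℝ) ^ (4 * e + 217)) (by positivity) (by
      push_cast
      rw [one_div_mul_eq_div, div_le_one (by positivity)]
      have h1 : (1 : ℝ) ≤ (G : ℝ) ^ (4 * e + 136) := one_le_pow₀ hx1
      have h2 : (G : ℝ) ^ (4 * e + 137) ≤ (G : ℝ) ^ (4 * e + 216) :=
        pow_le_pow_right₀ hx1 (by omega)
      rw [pow_succ] at h2
      nlinarith) (by push_cast; exact xgood_spine_num e hx hc b4)
  have e1 : Real.exp (-(1 / (G : ℝ) ^ (4 * e + 216) * (G : ℝ) ^ (4 * e + 217)))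
      = Real.exp (-1) ^ G := by
    rw [← Real.exp_nat_mul, show 1 / (G : ℝ) ^ (4 * e + 216) * (G : ℝ) ^ (4 * e + 217) = G by
      field_simp; ring, show (G : ℝ) * -1 = -G by ring]
  rw [e1] at a3
  have a2 := anysub (ybad2 G e) n (8 * C * (G : ℝ) ^ (6 * e + 363) * Real.exp (-1) ^ G)
    (by positivity) (by
      rintro ⟨-, h⟩
      have : (0 : ℝ) < (G : ℝ) ^ (4 * e + 217) := by positivity
      simp only [pc, Nat.cast_zero] at h
      linarith) (fun L _ => by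
      have hZ := Z_pos L
      rcases le_or_gt L (G ^ (2 * e + 121)) with hL | hL
      · have hL' : (L : ℝ) ≤ (G : ℝ) ^ (2 * e + 121) := by exact_mod_cast hL
        have h1 : (1 : ℝ) ≤ (G : ℝ) ^ (2 * e + 121) := one_le_pow₀ hx1
        refine (mass_mono fun t _ _ h => h.1).trans ((a3 L).trans ?_)
        calc Real.exp (-1) ^ G * 8 ^ L
            ≤ Real.exp (-1) ^ G * (C * (2 * (G : ℝ) ^ (2 * e + 121)) ^ 3 * Z L) := by
              refine mul_le_mul_of_nonneg_left ((h8 L).trans ?_) (by positivity)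
              have : (L : ℝ) + 1 ≤ 2 * (G : ℝ) ^ (2 * e + 121) := by linarith
              gcongr
          _ = _ := by ring
      · rw [mass_eq_zero fun t _ h2 h3 => h3.1.1 (xsep_anySub_self (by omega))]
        positivity) 2
  rw [ygood_Z] at a2
  refine a2.trans (le_of_eq ?_)
  ring

theorem ygood_bad3 (e K : ℕ) : ∃ G0 : ℕ, ∀ G : ℕ, G0 ≤ G → ∀ n : ℕ,
    NearHyp (G ^ (2 * e + 8)) G (1 / (G : ℝ) ^ (K + 4 * (60 + e) + 120)) →
    mass 2 (fun t => AnySub (ybad3 G e) t ∧ size t + per t ≤ n) ≤ 1 / (G : ℝ) ^ K := by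
  obtain ⟨G1, h1⟩ := xpiece_large e K
  obtain ⟨G2, h2⟩ := xpiece_radius e K
  obtain ⟨G3, h3⟩ := xpiece_layer e K
  refine ⟨max (max G1 G2) (max G3 1), fun G hG n hN => ?_⟩
  have hG1 : G1 ≤ G := le_trans (le_trans (le_max_left _ _) (le_max_left _ _)) hG
  have hG2 : G2 ≤ G := le_trans (le_trans (le_max_right _ _) (le_max_left _ _)) hG
  have hG3 : G3 ≤ G := le_trans (le_trans (le_max_left _ _) (le_max_right _ _)) hG
  have hG4 : 1 ≤ G := le_trans (le_trans (le_max_right _ _) (le_max_right _ _)) hG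
  have hG' : (1 : ℝ) ≤ G := by exact_mod_cast hG4
  refine (anysub _ n (1 / (32 * (G : ℝ) ^ K)) (by positivity) ?_ ?_ 2).trans ?_
  · intro h
    refine h.2.2 ⟨⟨fun _ => 1, fun _ => ⟨zero_le_one, le_rfl⟩, fun _ _ => rfl, ?_, ?_⟩, ?_⟩
    · rw [energy_const]
      positivity
    · have h4 := (supp_le_card pt (fun _ => 1)).trans (card_V_le pt trivial)
      have h5 : (supp pt (fun _ => 1) : ℝ) ≤ 1 := by exact_mod_cast h4
      have h6 : (1 : ℝ) ≤ (G : ℝ) ^ (4 * e + 125) := one_le_pow₀ hG'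
      linarith
    · intro x y
      exact Within.refl pt _ ()
  · intro L _
    rcases le_total (G ^ (2 * e + 113)) L with hL | hL
    · exact le_trans (mass_mono fun t _ _ h => h.1.2.1) (h1 G hG1 L hL)
    · refine le_trans (mass_le_add (ψ := fun t => edges t ≤ G ^ (4 * e + 224) ∧
          ¬ ∀ x y, Within t (G ^ (e + 59)) x y) (χ := fun t => MaxDeg t G ∧
          ¬ Layer t (18 * (G : ℝ) ^ 112) (9 * (G : ℝ) ^ (4 * e + 125))) fun t _ _ h => ?_) ?_
      · by_cases hl : Layer t (18 * (G : ℝ) ^ 112) (9 * (G : ℝ) ^ (4 * e + 125))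
        · exact Or.inl ⟨h.1.2.1, fun hw => h.1.2.2 ⟨hl, hw⟩⟩
        · exact Or.inr ⟨h.1.1, hl⟩
      · refine (add_le_add (h2 G hG2 L hL) (h3 G hG3 hN L hL)).trans (le_of_eq ?_)
        field_simp
        ring
  · rw [ygood_Z]
    refine le_of_eq ?_
    field_simp

theorem ygood_ball (G n D : ℕ) (hG : 1 ≤ G) (hn : n ≤ G ^ D) :
    mass 2 (fun t => size t + 1 = n ∧ ¬ ∀ v r, ballC t v r ≤ 6 * G * (r + 2) ^ 4)
      ≤ 576 * (G : ℝ) ^ (2 * D) * Real.exp (-1) ^ G := by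
  have hx1 : (1 : ℝ) ≤ G := by exact_mod_cast hG
  have hn' : (n : ℝ) ≤ (G : ℝ) ^ D := by exact_mod_cast hn
  have h1 : (1 : ℝ) ≤ (G : ℝ) ^ D := one_le_pow₀ hx1
  refine (mass_le_sum (range (2 * n + 1))
    (fun r t => edges t ≤ 2 * n ∧ ∃ v, 6 * G * (r + 2) ^ 4 + 1 ≤ ballC t v r)
    fun t ht hp h => ?_).trans ?_
  · obtain ⟨hs, hb⟩ := h
    push Not at hb
    obtain ⟨v, r, hr⟩ := hb
    have hed : edges t = 2 * n := by rw [edges_eq t ht]; omega
    refine ⟨r, mem_range.2 ?_, hed.le, v, hr⟩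
    have a1 : ballC t v r ≤ Fintype.card (V t) := card_le_univ _
    have a2 := card_V_le t ht
    have a3 : r + 2 ≤ (r + 2) ^ 4 := Nat.le_self_pow (by norm_num) _
    have a4 : (r + 2) ^ 4 ≤ 6 * G * (r + 2) ^ 4 := Nat.le_mul_of_pos_left _ (by omega)
    omega
  · refine (sum_le_sum fun r _ => ball_tail (2 * n) r _).trans ?_
    have e : ∀ r : ℕ, Real.exp (-(((6 * G * (r + 2) ^ 4 : ℕ) : ℝ) / (6 * ((r : ℝ) + 2) ^ 4)))
        = Real.exp (-1) ^ G := fun r => by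
      rw [← Real.exp_nat_mul]
      congr 1
      push_cast
      field_simp
    simp only [e]
    rw [sum_const, card_range, nsmul_eq_mul]
    push_cast
    have a1 : 2 * (n : ℝ) + 1 ≤ 3 * (G : ℝ) ^ D := by linarith
    calc (2 * (n : ℝ) + 1) * (64 * (2 * n + 1) * Real.exp (-1) ^ G)
        ≤ (3 * (G : ℝ) ^ D) * (64 * (3 * (G : ℝ) ^ D) * Real.exp (-1) ^ G) := by gcongr
      _ = _ := by ring

theorem ygood_rad (G n E : ℕ) (hG : 3 ≤ G) (hE : 1 ≤ E) (hn : n ≤ G ^ (4 * E)) :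
    mass 2 (fun t => size t + 1 = n ∧ ¬ ∀ v, Within t (G ^ (E + 2)) (bv t 0) v)
      ≤ 256 * Real.exp 5 * (G : ℝ) ^ 0 * Real.exp (-1) ^ G := by
  have hx : (3 : ℝ) ≤ G := by exact_mod_cast hG
  have hx1 : (1 : ℝ) ≤ G := by linarith
  have hP : (3 : ℝ) ≤ (G : ℝ) ^ E := hx.trans (le_self_pow₀ hx1 (by omega))
  have hs := radius_up (1 / (G : ℝ) ^ E) (by positivity)
    (one_div_le_one_div_of_le (by norm_num) (by linarith)) 2 (G ^ (4 * E)) (G ^ (E + 2))
  refine (mass_mono fun t _ _ h => ⟨by omega, not_forall.1 h.2⟩).trans (hs.trans ?_)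
  have e1 : 4 * (1 / (G : ℝ) ^ E) ^ 4 * ((G ^ (4 * E) : ℕ) : ℝ) = 4 := by
    push_cast
    field_simp
    ring
  have e2 : 1 / (G : ℝ) ^ E * ((G ^ (E + 2) : ℕ) : ℝ) = (G : ℝ) ^ 2 := by
    push_cast
    field_simp
    ring
  have e3 : (1 / (G : ℝ) ^ E) ^ 2 ≤ (1 / 3) ^ 2 := by gcongr
  rw [e1, e2, ← Real.exp_nat_mul, pow_zero, mul_one, mul_assoc _ (Real.exp 5), ← Real.exp_add]
  have : Real.exp (4 + 2 * (1 / (G : ℝ) ^ E) ^ 2 * ((2 : ℕ) : ℝ) - (G : ℝ) ^ 2)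
      ≤ Real.exp (5 + G * -1) := Real.exp_le_exp.2 (by push_cast; nlinarith)
  calc _ ≤ 2 * ((2 : ℕ) : ℝ) * 8 ^ 2 * Real.exp (5 + G * -1) := by gcongr
    _ = _ := by norm_num

/-- the good event at all scales -/
def ygood (G e0 n : ℕ) (t : Mp) : Prop :=
  MaxDeg t G ∧ (∀ e, e ≤ e0 → Sep t (G ^ (e + 59)) (36 * n / (G : ℝ) ^ (4 * e + 24))
    (n / (G : ℝ) ^ 6)) ∧ (∀ v r, ballC t v r ≤ 6 * G * (r + 2) ^ 4) ∧
    ∀ v, Within t (G ^ (e0 + 62)) (bv t 0) v

theorem ygood_det (G e0 n : ℕ) (hG : 18 * (e0 + 6) ≤ G) (hn1 : G ^ (4 * e0 + 239) ≤ n)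
    (hn2 : n ≤ G ^ (4 * e0 + 240)) (t : Mp) (ht : ok t) (hed : edges t = 2 * n)
    (hd : MaxDeg t G) (hb : ∀ e, e < e0 + 5 → ¬ AnySub (ybad1 G e) t ∧ ¬ AnySub (ybad2 G e) t)
    (e : ℕ) (he : e ≤ e0) (h3 : ¬ AnySub (ybad3 G e) t) :
    Sep t (G ^ (e + 59)) (36 * n / (G : ℝ) ^ (4 * e + 24)) (n / (G : ℝ) ^ 6) := by
  have hG1 : 1 ≤ G := by omega
  have hx1 : (1 : ℝ) ≤ G := by exact_mod_cast hG1
  have h := ysep_levels G e hG1 t ht hd h3 (e0 + 5 - e) fun i hi => hb _ (by omega)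
  by_contra hc
  refine h (xsep_anySub_self ⟨?_, ?_, fun hS => hc (hS.mono le_rfl ?_ ?_)⟩)
  · have a1 : G ^ (4 * e + 136) ≤ G ^ (4 * e0 + 239) := Nat.pow_le_pow_right hG1 (by omega)
    have a2 : 1 ≤ G ^ (4 * e + 136) := Nat.one_le_pow _ _ hG1
    omega
  · rw [show 4 * (e + (e0 + 5 - e)) + 224 = 4 * e0 + 240 + 1 + 3 by omega]
    have a1 : G ^ (4 * e0 + 240 + 1) ≤ G ^ (4 * e0 + 240 + 1 + 3) :=
      Nat.pow_le_pow_right hG1 (by omega)
    have a2 : G ^ (4 * e0 + 240) * 2 ≤ G ^ (4 * e0 + 240 + 1) := by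
      rw [pow_succ]
      exact Nat.mul_le_mul_left _ (by omega)
    omega
  · rw [hed]
    push_cast
    refine le_of_eq ?_
    ring
  · rw [hed]
    have a1 : ((e0 + 5 - e : ℕ) : ℝ) + 1 ≤ G / 18 := by
      have : 18 * (e0 + 5 - e + 1) ≤ G := by omega
      have : (18 : ℝ) * ((e0 + 5 - e : ℕ) + 1) ≤ G := by exact_mod_cast this
      linarith
    calc _ ≤ (G : ℝ) / 18 * (9 / (G : ℝ) ^ 7) * ((2 * n : ℕ) : ℝ) := by gcongr
      _ = _ := by
        push_cast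
        field_simp
        ring

theorem ygood_prob (e0 K : ℕ) : ∃ G0 : ℕ, ∀ G : ℕ, G0 ≤ G → ∀ n : ℕ,
    G ^ (4 * e0 + 239) ≤ n → n ≤ G ^ (4 * e0 + 240) →
    NearHyp (G ^ (2 * e0 + 8)) G (1 / (G : ℝ) ^ (K + 1 + 4 * (60 + e0) + 120)) →
    mass 2 (fun t => ¬ ygood G e0 n t ∧ size t = n - 1) ≤ 1 / (G : ℝ) ^ K := by
  obtain ⟨C2, G2, h2⟩ := ygood_bad2
  have he1 : Real.exp (-1) < 1 := Real.exp_lt_one_iff.2 (by norm_num)
  have ev1 := xgood_ev 160 (7 / 8) (4 * e0 + 240) (K + 1) (by norm_num) (by norm_num)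
  have ev2 := xgood_ev (64 * Real.exp 8) (Real.exp (-(1 / 2))) 0 (K + 1) (Real.exp_pos _).le
    (Real.exp_lt_one_iff.2 (by norm_num))
  have ev3 : ∀ᶠ G : ℕ in atTop, ∀ e ∈ range (e0 + 5),
      C2 * (G : ℝ) ^ (6 * e + 363) * Real.exp (-1) ^ G ≤ 1 / (G : ℝ) ^ (K + 1) :=
    (eventually_all_finset _).2 fun e _ => xgood_ev C2 _ _ (K + 1) (Real.exp_pos _).le he1
  have ev4 : ∀ᶠ G : ℕ in atTop, ∀ e ∈ range (e0 + 1), ∀ n : ℕ,
      NearHyp (G ^ (2 * e + 8)) G (1 / (G : ℝ) ^ (K + 1 + 4 * (60 + e) + 120)) →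
      mass 2 (fun t => AnySub (ybad3 G e) t ∧ size t + per t ≤ n) ≤ 1 / (G : ℝ) ^ (K + 1) :=
    (eventually_all_finset _).2 fun e _ => eventually_atTop.2 (ygood_bad3 e (K + 1))
  have ev5 := xgood_ev 576 _ (2 * (4 * e0 + 240)) (K + 1) (Real.exp_pos _).le he1
  have ev6 := xgood_ev (256 * Real.exp 5) _ 0 (K + 1) (Real.exp_pos _).le he1
  obtain ⟨G0, hG0⟩ := eventually_atTop.1 (ev1.and (ev2.and (ev3.and (ev4.and (ev5.and (ev6.and
    ((eventually_ge_atTop G2).and (eventually_ge_atTop (18 * (e0 + 6))))))))))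
  refine ⟨G0, fun G hG n hn1 hn2 hN => ?_⟩
  obtain ⟨b1, b2, b3, b4, b5, b6, b7, b8⟩ := hG0 G hG
  have hG1 : 1 ≤ G := by omega
  have hx1 : (1 : ℝ) ≤ G := by exact_mod_cast hG1
  have hx0 : (0 : ℝ) < G := by linarith
  have hn0 : 1 ≤ n := (Nat.one_le_pow _ _ hG1).trans hn1
  have hn2' : (n : ℝ) ≤ (G : ℝ) ^ (4 * e0 + 240) := by exact_mod_cast hn2
  have hbig : (1 : ℝ) ≤ (G : ℝ) ^ (4 * e0 + 240) := one_le_pow₀ hx1
  have a1 := maxdeg_tail (n + 1) G 2
  rw [ygood_Z] at a1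
  replace a1 := a1.trans (le_trans (b := 160 * (G : ℝ) ^ (4 * e0 + 240) * (7 / 8) ^ G) (by
    push_cast
    have : (0 : ℝ) < (7 / 8) ^ G := by positivity
    nlinarith) b1)
  have a5 := (ygood_ball G n _ hG1 hn2).trans b5
  have a6 := (ygood_rad G n (e0 + 60) (by omega) (by omega)
    (by rwa [show 4 * (e0 + 60) = 4 * e0 + 240 by ring])).trans b6
  let B : ℕ × ℕ → Mp → Prop := fun p t =>
    if p.1 = 0 then ¬ MaxDeg t G ∧ size t + per t ≤ n + 1
    else if p.1 = 1 then AnySub (ybad1 G p.2) t ∧ size t + per t ≤ n + 1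
    else if p.1 = 2 then AnySub (ybad2 G p.2) t ∧ size t + per t ≤ n + 1
    else if p.1 = 3 then p.2 ≤ e0 ∧ AnySub (ybad3 G p.2) t ∧ size t + per t ≤ n + 1
    else if p.1 = 4 then size t + 1 = n ∧ ¬ ∀ v r, ballC t v r ≤ 6 * G * (r + 2) ^ 4
    else size t + 1 = n ∧ ¬ ∀ v, Within t (G ^ (e0 + 60 + 2)) (bv t 0) v
  have hB : ∀ p ∈ range 6 ×ˢ range (e0 + 5), mass 2 (B p) ≤ 1 / (G : ℝ) ^ (K + 1) := by
    rintro ⟨i, e⟩ hp
    have he := (mem_product.1 hp).2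
    simp only [B]
    split_ifs
    · exact a1
    · exact (ygood_bad1 G e (n + 1) (by omega)).trans b2
    · exact (h2 G e (n + 1) b7).trans (b3 e he)
    · by_cases he' : e ≤ e0
      · refine (mass_mono fun t _ _ h => h.2).trans (b4 e (mem_range.2 (by omega)) (n + 1) ?_)
        exact nearHyp_mono (Nat.pow_le_pow_right hG1 (by omega)) le_rfl
          (one_div_le_one_div_of_le (by positivity) (pow_le_pow_right₀ hx1 (by omega))) hN
      · rw [mass_eq_zero fun t _ _ h => he' h.1]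
        positivity
    · exact a5
    · exact a6
  refine (mass_le_sum (range 6 ×ˢ range (e0 + 5)) B fun t ht hp h => ?_).trans ?_
  · obtain ⟨hbad, hs⟩ := h
    have hs' : size t + 1 = n := by omega
    have hsz : size t + per t ≤ n + 1 := by omega
    have hed : edges t = 2 * n := by rw [edges_eq t ht]; omega
    by_contra hcon
    have hc : ∀ i e, i < 6 → e < e0 + 5 → ¬ B (i, e) t := fun i e hi he hb =>
      hcon ⟨(i, e), mem_product.2 ⟨mem_range.2 hi, mem_range.2 he⟩, hb⟩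
    have c0 : MaxDeg t G := by
      by_contra h
      exact hc 0 0 (by omega) (by omega) ⟨h, hsz⟩
    refine hbad ⟨c0, fun e he => ygood_det G e0 n b8 hn1 hn2 t ht hed c0
      (fun e he => ⟨fun h => hc 1 e (by omega) he ⟨h, hsz⟩, fun h => hc 2 e (by omega) he ⟨h, hsz⟩⟩)
      e he fun h => hc 3 e (by omega) (by omega) ⟨he, h, hsz⟩, ?_, ?_⟩
    · by_contra h
      exact hc 4 0 (by omega) (by omega) ⟨hs', h⟩
    · by_contra h
      exact hc 5 0 (by omega) (by omega) ⟨hs', h⟩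
  · refine (sum_le_sum hB).trans ?_
    rw [sum_const, card_product, card_range, card_range, nsmul_eq_mul, mul_one_div,
      div_le_div_iff₀ (by positivity) (by positivity), pow_succ]
    have h1 : ((6 * (e0 + 5) : ℕ) : ℝ) ≤ G := by exact_mod_cast (by omega : 6 * (e0 + 5) ≤ G)
    have : (0 : ℝ) < (G : ℝ) ^ K := by positivity
    nlinarith

end Pool.Agent.P.MP_7a6434d8_pr
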