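import Pool.Agent.P.MP_7a6434d8_pr.Quad3
import Pool.Agent.P.MP_7a6434d8_pr.Hit

/-! The transition operator of simple random walk and heat kernel bounds. -/

namespace Pool.Agent.P.MP_7a6434d8_pr

open Finset
open scoped ENNReal

variable {n : ℕ}

/-- the transition operator -/
noncomputable def yP (q : Quad n) (u : q.Vertex → ℝ) (x : q.Vertex) : ℝ :=
  (∑ d ∈ q.out x, u (q.head d)) / (q.out x).card

/-- inner product weighted by the degrees -/
noncomputable def yI (q : Quad n) (u v : q.Vertex → ℝ) : ℝ := ∑ d, u (q.tail d) * v (q.tail d)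

theorem yI_comm (q : Quad n) (u v : q.Vertex → ℝ) : yI q u v = yI q v u :=
  sum_congr rfl fun _ _ => mul_comm _ _

theorem yI_self_nonneg (q : Quad n) (u : q.Vertex → ℝ) : 0 ≤ yI q u u :=
  sum_nonneg fun _ _ => mul_self_nonneg _

theorem y_mem_out (q : Quad n) {x : q.Vertex} {d : Fin (4 * n)} : d ∈ q.out x ↔ q.tail d = x := by
  simp [Quad.out]

theorem yI_P (q : Quad n) (u v : q.Vertex → ℝ) :
    yI q (yP q u) v = ∑ d, u (q.head d) * v (q.tail d) := by
  classical
  have := hit_finite q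
  let _i : Fintype q.Vertex := Fintype.ofFinite _
  unfold yI
  rw [← hit_sum_out q, ← hit_sum_out q (fun d => u (q.head d) * v (q.tail d))]
  refine sum_congr rfl fun x _ => ?_
  rw [sum_congr rfl (g := fun _ => yP q u x * v x) fun d hd => by rw [(y_mem_out q).1 hd],
    sum_congr rfl (f := fun d => u (q.head d) * v (q.tail d))
      (g := fun d => u (q.head d) * v x) fun d hd => by rw [(y_mem_out q).1 hd],
    sum_const, nsmul_eq_mul, ← sum_mul, yP]
  have := hit_card_pos q x
  field_simp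

theorem y_head_α (q : Quad n) (d : Fin (4 * n)) : q.head (q.α d) = q.tail d := by
  rw [Quad.head, q.α_α]

theorem y_sum_swap (q : Quad n) (F : q.Vertex → q.Vertex → ℝ) :
    ∑ d, F (q.head d) (q.tail d) = ∑ d, F (q.tail d) (q.head d) := by
  rw [← Equiv.sum_comp q.α (fun d => F (q.tail d) (q.head d))]
  refine sum_congr rfl fun d _ => ?_
  rw [y_head_α]
  rfl

theorem yI_symm (q : Quad n) (u v : q.Vertex → ℝ) : yI q (yP q u) v = yI q u (yP q v) := by
  rw [yI_P, yI_comm q u, yI_P, y_sum_swap q (fun a b => u a * v b)]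
  exact sum_congr rfl fun _ _ => mul_comm _ _

theorem yI_iter (q : Quad n) (t : ℕ) (u v : q.Vertex → ℝ) :
    yI q ((yP q)^[t] u) v = yI q u ((yP q)^[t] v) := by
  induction t generalizing v with
  | zero => rfl
  | succ t ih => rw [Function.iterate_succ_apply', yI_symm, ih, Function.iterate_succ_apply]

theorem yI_iter_add (q : Quad n) (s t : ℕ) (u v : q.Vertex → ℝ) :
    yI q ((yP q)^[s] u) ((yP q)^[t] v) = yI q u ((yP q)^[s + t] v) := by
  rw [yI_iter, Function.iterate_add_apply]

theorem y_energy (q : Quad n) (h : q.Vertex → ℝ) :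
    (∑ d, (h (q.tail d) - h (q.head d)) ^ 2) / 2 = yI q h h - yI q (yP q h) h := by
  have hsym := y_sum_swap q (fun a _ => h a * h a)
  rw [yI_P]
  unfold yI
  have e : ∑ d, (h (q.tail d) - h (q.head d)) ^ 2
      = ∑ d, h (q.tail d) * h (q.tail d) + ∑ d, h (q.head d) * h (q.head d)
        - 2 * ∑ d, h (q.head d) * h (q.tail d) := by
    rw [mul_sum, ← sum_add_distrib, ← sum_sub_distrib]
    exact sum_congr rfl fun d _ => by ring
  rw [e, hsym]
  ring

theorem yI_cs (q : Quad n) (u v : q.Vertex → ℝ) : yI q u v ^ 2 ≤ yI q u u * yI q v v := by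
  unfold yI
  have := sum_mul_sq_le_sq_mul_sq univ (fun d => u (q.tail d)) (fun d => v (q.tail d))
  simpa only [sq] using this

theorem yI_contract (q : Quad n) (u : q.Vertex → ℝ) : yI q (yP q u) (yP q u) ≤ yI q u u := by
  have h1 : yI q (yP q u) (yP q u) ^ 2 ≤ yI q u u * yI q (yP q u) (yP q u) := by
    have h2 := sum_mul_sq_le_sq_mul_sq univ (fun d => u (q.head d)) (fun d => yP q u (q.tail d))
    have h3 := y_sum_swap q (fun a _ => u a ^ 2)
    rw [h3] at h2
    rw [yI_P q u (yP q u)]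
    refine h2.trans (le_of_eq ?_)
    rw [← yI_P q u (yP q u)]
    unfold yI
    simp only [sq]
  have h4 := yI_self_nonneg q (yP q u)
  have h5 := yI_self_nonneg q u
  by_contra hc
  push Not at hc
  nlinarith

theorem yP_nonneg (q : Quad n) {u : q.Vertex → ℝ} (h : ∀ x, 0 ≤ u x) (x : q.Vertex) :
    0 ≤ yP q u x :=
  div_nonneg (sum_nonneg fun _ _ => h _) (Nat.cast_nonneg _)

theorem yP_iter_nonneg (q : Quad n) (t : ℕ) {u : q.Vertex → ℝ} (h : ∀ x, 0 ≤ u x) :
    ∀ x, 0 ≤ (yP q)^[t] u x := by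
  induction t with
  | zero => exact h
  | succ t ih => rw [Function.iterate_succ_apply']; exact yP_nonneg q ih

theorem yP_const (q : Quad n) (c : ℝ) : yP q (fun _ => c) = fun _ => c := by
  funext x
  have := hit_card_pos q x
  rw [yP, sum_const, nsmul_eq_mul]
  field_simp

theorem yP_iter_const (q : Quad n) (t : ℕ) (c : ℝ) : (yP q)^[t] (fun _ => c) = fun _ => c :=
  Function.iterate_fixed (yP_const q c) t

theorem yP_add (q : Quad n) (u v : q.Vertex → ℝ) :
    yP q (fun x => u x + v x) = fun x => yP q u x + yP q v x := by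
  funext x
  simp only [yP, sum_add_distrib, add_div]

theorem yP_iter_add (q : Quad n) (t : ℕ) (u v : q.Vertex → ℝ) :
    (yP q)^[t] (fun x => u x + v x) = fun x => (yP q)^[t] u x + (yP q)^[t] v x := by
  induction t with
  | zero => rfl
  | succ t ih => simp only [Function.iterate_succ_apply', ih, yP_add]

open Classical in
/-- indicator of a set of vertices -/
noncomputable def yInd (q : Quad n) (S : q.Vertex → Prop) (y : q.Vertex) : ℝ :=
  if S y then 1 else 0

theorem yInd_nonneg (q : Quad n) (S : q.Vertex → Prop) (y : q.Vertex) : 0 ≤ yInd q S y := by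
  unfold yInd; split_ifs <;> norm_num

theorem yI_point (q : Quad n) (x : q.Vertex) (u : q.Vertex → ℝ) :
    yI q (yInd q (· = x)) u = (q.out x).card * u x := by
  classical
  unfold yI
  rw [← sum_subset (subset_univ (q.out x))]
  · rw [sum_congr rfl (g := fun _ => u x) fun d hd => by
      rw [(y_mem_out q).1 hd, yInd, if_pos rfl, one_mul], sum_const, nsmul_eq_mul]
  · intro d _ hd
    rw [yInd, if_neg (fun h => hd ((y_mem_out q).2 h)), zero_mul]

/-- the diagonal of the heat kernel -/
noncomputable def yK (q : Quad n) (t : ℕ) (x : q.Vertex) : ℝ := (yP q)^[t] (yInd q (· = x)) x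

theorem yK_nonneg (q : Quad n) (t : ℕ) (x : q.Vertex) : 0 ≤ yK q t x :=
  yP_iter_nonneg q t (yInd_nonneg q _) x

theorem yK_norm (q : Quad n) (t : ℕ) (x : q.Vertex) :
    yI q ((yP q)^[t] (yInd q (· = x))) ((yP q)^[t] (yInd q (· = x)))
      = (q.out x).card * yK q (2 * t) x := by
  rw [yI_iter_add, yI_point, two_mul]
  rfl

theorem yK_anti (q : Quad n) (x : q.Vertex) : Antitone fun t => yK q (2 * t) x := by
  refine antitone_nat_of_succ_le fun t => ?_
  have h := yI_contract q ((yP q)^[t] (yInd q (· = x)))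
  rw [← Function.iterate_succ_apply' (yP q), yK_norm, yK_norm] at h
  exact le_of_mul_le_mul_left h (hit_card_pos q x)

theorem y_sum_even (a : ℕ → ℝ) (ha : ∀ s, 0 ≤ a s) (t : ℕ) :
    ∑ s ∈ range (t + 1), a (2 * s) ≤ ∑ s ∈ range (2 * t + 1), a s := by
  induction t with
  | zero => simp
  | succ t ih =>
    rw [sum_range_succ, show 2 * (t + 1) + 1 = 2 * t + 1 + 1 + 1 by ring,
      sum_range_succ _ (2 * t + 1 + 1), sum_range_succ _ (2 * t + 1), show 2 * t + 1 + 1 = 2 * (t + 1) by ring]
    linarith [ha (2 * t + 1)]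

theorem yI_sum (q : Quad n) (T : ℕ) (u : ℕ → q.Vertex → ℝ) (v : q.Vertex → ℝ) :
    yI q (fun y => ∑ s ∈ range T, u s y) v = ∑ s ∈ range T, yI q (u s) v := by
  unfold yI
  simp only [sum_mul]
  rw [sum_comm]

theorem y_green (q : Quad n) (hn : 1 ≤ n) (R : ℝ) (hR : 0 ≤ R) (H : ResLe q R) (x : q.Vertex)
    (T : ℕ) : ∑ s ∈ range T, yK q s x ≤ (q.out x).card * (R + T / (2 * n)) := by
  have hn' : (0 : ℝ) < n := by exact_mod_cast hn
  set e := yInd q (· = x) with he
  set h : q.Vertex → ℝ := fun y => ∑ s ∈ range T, (yP q)^[s] e y with hh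
  have he0 : ∀ y, 0 ≤ e y := yInd_nonneg q _
  have h0 : ∀ y, 0 ≤ h y := fun y => sum_nonneg fun s _ => yP_iter_nonneg q s he0 y
  have hD := hit_card_pos q x
  have hE : yI q h h - yI q (yP q h) h ≤ (q.out x).card * h x := by
    rw [yI_symm]
    have e1 : yI q h h = ∑ s ∈ range T, yI q ((yP q)^[s] e) h := yI_sum q T _ h
    have e2 : yI q h (yP q h) = ∑ s ∈ range T, yI q ((yP q)^[s + 1] e) h := by
      rw [hh, yI_sum]
      refine sum_congr rfl fun s _ => ?_
      rw [← yI_symm, Function.iterate_succ_apply']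
    have e3 := sum_range_sub' (fun s => yI q ((yP q)^[s] e) h) T
    rw [sum_sub_distrib] at e3
    rw [e1, e2, e3, Function.iterate_zero_apply, he, yI_point]
    have : 0 ≤ yI q ((yP q)^[T] (yInd q (· = x))) h :=
      sum_nonneg fun d _ => mul_nonneg (yP_iter_nonneg q T he0 _) (h0 _)
    linarith
  have hmean : ∑ d, h (q.tail d) = T * (q.out x).card := by
    have e1 : ∑ d, h (q.tail d) = yI q h (fun _ => 1) := by simp [yI]
    rw [e1, hh, yI_sum, sum_congr rfl (g := fun _ => ((q.out x).card : ℝ)) fun s _ => by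
      rw [yI_iter, yP_iter_const, he, yI_point, mul_one], sum_const, card_range, nsmul_eq_mul]
  obtain ⟨d, -, hd⟩ : ∃ d ∈ (univ : Finset (Fin (4 * n))),
      h (q.tail d) ≤ T * (q.out x).card / (4 * n) := by
    refine exists_le_of_sum_le ⟨⟨0, by omega⟩, mem_univ _⟩ ?_
    rw [hmean, sum_const, card_univ, Fintype.card_fin, nsmul_eq_mul]
    push_cast
    field_simp
    exact le_rfl
  have h1 := H h x (q.tail d)
  rw [y_energy] at h1
  have h2 : (h x - h (q.tail d)) ^ 2 ≤ R * ((q.out x).card * h x) :=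
    h1.trans (mul_le_mul_of_nonneg_left hE hR)
  have h3 : h x ≤ 2 * h (q.tail d) + R * (q.out x).card := by
    by_contra hc
    push Not at hc
    have a0 := h0 (q.tail d)
    have a1 : 0 ≤ R * (q.out x).card := by positivity
    nlinarith
  have h4 : h x = ∑ s ∈ range T, yK q s x := rfl
  rw [← h4]
  have e : ((q.out x).card : ℝ) * (R + T / (2 * n))
      = 2 * (T * (q.out x).card / (4 * n)) + R * (q.out x).card := by
    field_simp
    ring
  rw [e]
  linarith

theorem yK_upper (q : Quad n) (hn : 1 ≤ n) (R : ℝ) (hR : 0 ≤ R) (H : ResLe q R) (x : q.Vertex)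
    (t : ℕ) : yK q (2 * t) x ≤ (q.out x).card * (R / (t + 1) + 1 / n) := by
  have hn' : (0 : ℝ) < n := by exact_mod_cast hn
  have h1 := y_green q hn R hR H x (2 * t + 1)
  have h2 := y_sum_even (fun s => yK q s x) (fun s => yK_nonneg q s x) t
  have h3 : ∑ _s ∈ range (t + 1), yK q (2 * t) x ≤ ∑ s ∈ range (t + 1), yK q (2 * s) x :=
    sum_le_sum fun s hs => yK_anti q x (Nat.lt_succ_iff.1 (mem_range.1 hs))
  rw [sum_const, card_range, nsmul_eq_mul] at h3
  have hD := hit_card_pos q x
  have ht : (0 : ℝ) < t + 1 := by positivity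
  push_cast at h1 h3
  have h4 : ((q.out x).card : ℝ) * (R + (2 * t + 1) / (2 * n))
      ≤ (t + 1) * ((q.out x).card * (R / (t + 1) + 1 / n)) := by
    have e : ((t : ℝ) + 1) * ((q.out x).card * (R / (t + 1) + 1 / n))
        = (q.out x).card * (R + (2 * t + 2) / (2 * n)) := by
      field_simp
    rw [e]
    gcongr
    norm_num
  exact le_of_mul_le_mul_left (h3.trans (h2.trans (h1.trans h4))) ht

/-- volume of a set of vertices -/
noncomputable def yVol (q : Quad n) (S : q.Vertex → Prop) : ℝ := ∑ d, yInd q S (q.tail d)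

theorem yVol_nonneg (q : Quad n) (S : q.Vertex → Prop) : 0 ≤ yVol q S :=
  sum_nonneg fun _ _ => yInd_nonneg q _ _

theorem yK_lower (q : Quad n) (x : q.Vertex) (t : ℕ) (S : q.Vertex → Prop) :
    (q.out x).card * ((yP q)^[t] (yInd q S) x) ^ 2 ≤ yK q (2 * t) x * yVol q S := by
  have h := yI_cs q ((yP q)^[t] (yInd q (· = x))) (yInd q S)
  rw [yK_norm, yI_iter, yI_point] at h
  have e : yI q (yInd q S) (yInd q S) = yVol q S := by
    refine sum_congr rfl fun d _ => ?_
    unfold yInd
    split_ifs <;> norm_num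
  rw [e] at h
  have hD := hit_card_pos q x
  refine le_of_mul_le_mul_left ?_ hD
  nlinarith

theorem y_offdiag (q : Quad n) (t : ℕ) (β : ℝ) (hβ : 0 ≤ β)
    (h : ∀ y, yK q (2 * t) y ≤ (q.out y).card * β) (x y : q.Vertex) :
    (yP q)^[2 * t] (yInd q (· = x)) y ≤ (q.out x).card * β := by
  have h1 := yI_cs q ((yP q)^[t] (yInd q (· = y))) ((yP q)^[t] (yInd q (· = x)))
  rw [yK_norm, yK_norm, yI_iter_add, yI_point, ← two_mul] at h1
  have hx := hit_card_pos q x
  have hy := hit_card_pos q y
  have h2 : (((q.out y).card : ℝ) * (yP q)^[2 * t] (yInd q (· = x)) y) ^ 2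
      ≤ ((q.out y).card * ((q.out x).card * β)) ^ 2 := by
    refine h1.trans ?_
    calc ((q.out y).card : ℝ) * yK q (2 * t) y * ((q.out x).card * yK q (2 * t) x)
        ≤ ((q.out y).card * ((q.out y).card * β)) * ((q.out x).card * ((q.out x).card * β)) := by
          have := yK_nonneg q (2 * t) x
          have := h x
          have := h y
          gcongr
      _ = _ := by ring
  exact le_of_mul_le_mul_left ((pow_le_pow_iff_left₀ (mul_nonneg hy.le
    (yP_iter_nonneg q _ (yInd_nonneg q _) y)) (by positivity) two_ne_zero).1 h2) hy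

theorem y_set_upper (q : Quad n) (t : ℕ) (β : ℝ) (hβ : 0 ≤ β)
    (h : ∀ y, yK q (2 * t) y ≤ (q.out y).card * β) (x : q.Vertex) (S : q.Vertex → Prop) :
    (yP q)^[2 * t] (yInd q S) x ≤ yVol q S * β := by
  have h1 := yI_point q x ((yP q)^[2 * t] (yInd q S))
  rw [← yI_iter] at h1
  have hx := hit_card_pos q x
  refine le_of_mul_le_mul_left ?_ hx
  rw [← h1]
  calc yI q ((yP q)^[2 * t] (yInd q (· = x))) (yInd q S)
      ≤ ∑ d, ((q.out x).card * β) * yInd q S (q.tail d) :=
        sum_le_sum fun d _ => mul_le_mul_of_nonneg_right (y_offdiag q t β hβ h x _)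
          (yInd_nonneg q _ _)
    _ = _ := by rw [← mul_sum, yVol]; ring

end Pool.Agent.P.MP_7a6434d8_pr
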