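import Pool.Agent.P.MP_7a6434d8_pr.XLink
import Pool.Agent.P.MP_7a6434d8_pr.YGood
import Pool.Agent.P.MP_7a6434d8_pr.YWalk

/-! Transfer of the good event from trees to quadrangulations. -/

namespace Pool.Agent.P.MP_7a6434d8_pr

open Mp Finset
open scoped ENNReal

/-- the dart and vertex bijections attached to a representation -/
theorem ylink_vert {n : ℕ} (q : Quad n) (t : Mp) (h : Rep q t) :
    ∃ (θ : Dt t ≃ Fin (4 * n)) (j : q.Vertex ≃ V t), (∀ d, j (q.tail (θ d)) = org t d) ∧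
      (∀ d, j (q.head (θ d)) = org t (al t d)) ∧ j (q.tail q.root) = bv t 0 := by
  obtain ⟨ht, hper, -, θ0, hE, hsurj, hr⟩ := h
  let θ : Dt t ≃ Fin (4 * n) := Equiv.ofBijective θ0 ⟨hE.inj, hsurj⟩
  have hθ : ∀ d, θ d = θ0 d := fun _ => rfl
  have hσ : ∀ d, (q.φ * q.α) (θ d) = θ (ph t (al t d)) := fun d => by
    rw [hθ, hθ, hE.map_ph, hE.map_al, Equiv.Perm.mul_apply]
  have horg : ∀ (m : ℕ) (d : Dt t), org t (θ.symm (((q.φ * q.α) ^ m) (θ d))) = org t d := by
    intro m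
    induction m with
    | zero => intro d; simp
    | succ m ih =>
      intro d
      rw [pow_succ, Equiv.Perm.mul_apply, hσ, ih, org_ph t ht, al_al]
  let g : q.Vertex → V t := Quotient.lift (fun x => org t (θ.symm x)) (by
    intro x y hxy
    obtain ⟨x, rfl⟩ := θ.surjective x
    obtain ⟨i, -, hi⟩ := Equiv.Perm.SameCycle.exists_pow_eq' hxy
    rw [← hi, horg, Equiv.symm_apply_apply])
  have hg0 : ∀ d, g (q.tail (θ d)) = org t d := fun d => by
    change org t (θ.symm (θ d)) = org t d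
    rw [Equiv.symm_apply_apply]
  have hg : Function.Bijective g := by
    constructor
    · intro x y hxy
      obtain ⟨x, rfl⟩ := Quotient.exists_rep x
      obtain ⟨y, rfl⟩ := Quotient.exists_rep y
      obtain ⟨x, rfl⟩ := θ.surjective x
      obtain ⟨y, rfl⟩ := θ.surjective y
      have hxy' : org t x = org t y := (hg0 x).symm.trans (hxy.trans (hg0 y))
      refine factor_org t ht (fun d => q.tail (θ d)) ?_ x y hxy'
      intro d
      apply Quotient.sound
      change Equiv.Perm.SameCycle _ _ _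
      rw [← hσ]
      exact Equiv.Perm.sameCycle_apply_left.2 (Equiv.Perm.SameCycle.refl _ _)
    · intro v
      obtain ⟨d, rfl⟩ := org_surj t ht (by omega) v
      exact ⟨_, hg0 d⟩
  refine ⟨θ, Equiv.ofBijective g hg, hg0, fun d => ?_, ?_⟩
  · rw [← hg0, Quad.head, hθ, hθ, hE.map_al]; rfl
  · obtain ⟨d0, hd0, hθ0⟩ := Option.map_eq_some_iff.1 hr
    rw [← org_bd t ht 0 d0 hd0, ← hg0, hθ, hθ0]; rfl

theorem ylink_adj {n : ℕ} {q : Quad n} {t : Mp} (ht : ok t) {θ : Dt t ≃ Fin (4 * n)}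
    {j : q.Vertex ≃ V t} (h1 : ∀ d, j (q.tail (θ d)) = org t d)
    (h2 : ∀ d, j (q.head (θ d)) = org t (al t d)) (x y : q.Vertex) :
    q.graph.Adj x y ↔ adj t (j x) (j y) := by
  rw [Quad.graph, SimpleGraph.fromRel_adj]
  constructor
  · rintro ⟨-, ⟨d, rfl, rfl⟩ | ⟨d, rfl, rfl⟩⟩
    · obtain ⟨d, rfl⟩ := θ.surjective d
      exact (adj_iff_dart t _ _).2 ⟨d, (h1 d).symm, (h2 d).symm⟩
    · obtain ⟨d, rfl⟩ := θ.surjective d
      exact (adj_iff_dart t _ _).2 ⟨al t d, (h2 d).symm, by rw [al_al, h1]⟩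
  · intro h
    refine ⟨fun hxy => adj_irrefl t ht (j y) (hxy ▸ h), Or.inl ?_⟩
    obtain ⟨d, hd1, hd2⟩ := (adj_iff_dart t _ _).1 h
    exact ⟨θ d, j.injective ((h1 d).trans hd1), j.injective ((h2 d).trans hd2)⟩

theorem ylink_walk {n : ℕ} {q : Quad n} {t : Mp} {j : q.Vertex ≃ V t}
    (ha : ∀ x y, q.graph.Adj x y ↔ adj t (j x) (j y)) (x : q.Vertex) (k : ℕ) :
    ∀ y, Within t k (j x) (j y) → ∃ p : q.graph.Walk x y, p.length ≤ k := by
  induction k with
  | zero =>
    intro y h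
    obtain rfl : x = y := j.injective h
    exact ⟨.nil, le_rfl⟩
  | succ k ih =>
    rintro y (h | ⟨z, h, hz⟩)
    · obtain ⟨p, hp⟩ := ih y h
      exact ⟨p, by omega⟩
    · obtain ⟨z, rfl⟩ := j.surjective z
      obtain ⟨p, hp⟩ := ih z h
      exact ⟨p.concat ((ha z y).2 hz), by rw [SimpleGraph.Walk.length_concat]; omega⟩

theorem ylink_within {n : ℕ} {q : Quad n} {t : Mp} {j : q.Vertex ≃ V t}
    (ha : ∀ x y, q.graph.Adj x y ↔ adj t (j x) (j y)) {x y : q.Vertex} (p : q.graph.Walk x y) :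
    Within t p.length (j x) (j y) := by
  induction p with
  | nil => exact Within.refl t _ _
  | @cons u v w h p ih =>
    have h1 : Within t 1 (j u) (j v) := Or.inr ⟨j u, rfl, (ha u v).1 h⟩
    have h2 := h1.trans ih
    rw [SimpleGraph.Walk.length_cons, add_comm]
    exact h2

/-- the good event for a quadrangulation -/
def yquad (G e0 : ℕ) {n : ℕ} (q : Quad n) : Prop :=
  (∀ e, e ≤ e0 → ∑ d, q.escape (q.tail d) (G ^ (4 * e + 18)) ((G : ℝ) ^ (e + 59))
    ≤ ENNReal.ofReal (2 * n / (G : ℝ) ^ 5)) ∧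
  (∀ (x : q.Vertex) (r : ℝ), 0 ≤ r → yBall q x r ≤ 6 * (G : ℝ) ^ 2 * (r + 2) ^ 4) ∧
  ∀ v, q.graph.dist (q.tail q.root) v ≤ G ^ (e0 + 62)

theorem yquad_of_rep (G e0 : ℕ) (hG : 36 ≤ G) {n : ℕ} (q : Quad n) (t : Mp) (h : Rep q t)
    (hg : ygood G e0 n t) : yquad G e0 q := by
  classical
  have hx : (36 : ℝ) ≤ G := by exact_mod_cast hG
  have hx0 : (0 : ℝ) < G := by linarith
  obtain ⟨g1, g2, g3, g4⟩ := hg
  obtain ⟨θ, j, h1, h2, h3⟩ := ylink_vert q t h
  have ht := h.1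
  have ha := ylink_adj ht h1 h2
  refine ⟨fun e he => ?_, fun x r hr => ?_, fun v => ?_⟩
  · refine (sep_escape q t h G _ _ _ hx0.le g1 (g2 e he) _ _ (by push_cast; exact le_rfl)).trans
      (ENNReal.ofReal_le_ofReal ?_)
    push_cast
    have hn : (0 : ℝ) ≤ n := Nat.cast_nonneg n
    calc (G : ℝ) * (n / (G : ℝ) ^ 6) + (G : ℝ) ^ (4 * e + 18) * (36 * n / (G : ℝ) ^ (4 * e + 24))
        = n / (G : ℝ) ^ 5 + 36 * (n / (G : ℝ) ^ 6) := by
          field_simp
          ring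
      _ ≤ n / (G : ℝ) ^ 5 + G * (n / (G : ℝ) ^ 6) := by gcongr
      _ = _ := by
          field_simp
          ring
  · have hW : ∀ y, ¬ r < (q.graph.dist x y : ℝ) → Within t ⌊r⌋₊ (j x) (j y) := fun y hy => by
      obtain ⟨k, hk⟩ := within_exists t ht (j x) (j y)
      obtain ⟨p, -⟩ := ylink_walk ha _ k y hk
      obtain ⟨p', hp'⟩ := SimpleGraph.Reachable.exists_walk_length_eq_dist ⟨p⟩
      exact (ylink_within ha p').mono (hp' ▸ Nat.le_floor (not_lt.1 hy))
    have hb : (ballC t (j x) ⌊r⌋₊ : ℝ) ≤ 6 * G * (r + 2) ^ 4 := by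
      have a1 : (ballC t (j x) ⌊r⌋₊ : ℝ) ≤ 6 * G * ((⌊r⌋₊ : ℝ) + 2) ^ 4 := by
        exact_mod_cast g3 (j x) ⌊r⌋₊
      have a2 := Nat.floor_le hr
      refine a1.trans ?_
      gcongr
    calc yBall q x r = ∑ d, yInd q (fun y => ¬ r < (q.graph.dist x y : ℝ)) (q.tail d) := rfl
      _ ≤ ∑ d, (if Within t ⌊r⌋₊ (j x) (j (q.tail d)) then (1 : ℝ) else 0) := by
          refine sum_le_sum fun d _ => ?_
          unfold yInd
          split_ifs with c1 c2
          · exact le_rfl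
          · exact absurd (hW _ c1) c2
          · norm_num
          · exact le_rfl
      _ = ∑ z, ∑ d ∈ univ.filter (fun d => org t d = z),
            (if Within t ⌊r⌋₊ (j x) (org t d) then (1 : ℝ) else 0) := by
          rw [← Equiv.sum_comp θ]
          simp only [h1]
          rw [sum_fiberwise univ (org t)]
      _ ≤ ∑ z, (if Within t ⌊r⌋₊ (j x) z then (G : ℝ) else 0) := by
          refine sum_le_sum fun z _ => ?_
          rw [sum_congr rfl (g := fun _ => if Within t ⌊r⌋₊ (j x) z then (1 : ℝ) else 0)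
            fun d hd => by rw [(mem_filter.1 hd).2], sum_const, nsmul_eq_mul]
          split_ifs
          · have := g1 z
            rw [dg_eq_card t ht] at this
            rw [mul_one]
            convert this
          · simp
      _ = G * ballC t (j x) ⌊r⌋₊ := by
          rw [← sum_filter, sum_const, nsmul_eq_mul, mul_comm, ballC]
      _ ≤ G * (6 * G * (r + 2) ^ 4) := by gcongr
      _ = _ := by ring
  · obtain ⟨p, hp⟩ := ylink_walk ha (q.tail q.root) _ v (h3 ▸ g4 (j v))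
    exact (SimpleGraph.dist_le p).trans hp

end Pool.Agent.P.MP_7a6434d8_pr
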