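import Pool.Agent.P.MP_7a6434d8_pr.YLink
import Pool.Agent.P.MP_7a6434d8_pr.XMain

/-! The good event for a uniform quadrangulation. -/

namespace Pool.Agent.P.MP_7a6434d8_pr

open Mp Finset Filter Topology
open scoped ENNReal

theorem ymain_mono {n : ℕ} [Finite (RootedQuad n)] {A B : Quad n → Prop} (h : ∀ q, A q → B q) :
    (Nat.card {c : RootedQuad n // ∃ q : Quad n, Quot.mk _ q = c ∧ A q} : ℝ)
      ≤ (Nat.card {c : RootedQuad n // ∃ q : Quad n, Quot.mk _ q = c ∧ B q} : ℝ) := by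
  refine Nat.cast_le.2 (Nat.card_le_card_of_injective
    (Subtype.map id ?_) (Subtype.map_injective _ Function.injective_id))
  rintro c ⟨q, hq, hb⟩
  exact ⟨q, hq, h q hb⟩

theorem ymain_union {n : ℕ} [Finite (RootedQuad n)] {ι : Type} (s : Finset ι)
    {A : Quad n → Prop} (B : ι → Quad n → Prop) (h : ∀ q, A q → ∃ i ∈ s, B i q) :
    (Nat.card {c : RootedQuad n // ∃ q : Quad n, Quot.mk _ q = c ∧ A q} : ℝ)
      ≤ ∑ i ∈ s, (Nat.card {c : RootedQuad n // ∃ q : Quad n, Quot.mk _ q = c ∧ B i q} : ℝ) := by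
  classical
  have := Fintype.ofFinite (RootedQuad n)
  simp only [Nat.card_eq_fintype_card, Fintype.card_subtype]
  rw [← Nat.cast_sum, Nat.cast_le]
  refine le_trans (card_le_card ?_) card_biUnion_le
  intro c hc
  obtain ⟨q, hq, hA⟩ := (mem_filter.1 hc).2
  obtain ⟨i, hi, hB⟩ := h q hA
  exact mem_biUnion.2 ⟨i, hi, mem_filter.2 ⟨mem_univ _, q, hq, hB⟩⟩

theorem ymain_or {n : ℕ} [Finite (RootedQuad n)] {A B C : Quad n → Prop}
    (h : ∀ q, A q → B q ∨ C q) :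
    (Nat.card {c : RootedQuad n // ∃ q : Quad n, Quot.mk _ q = c ∧ A q} : ℝ)
      ≤ (Nat.card {c : RootedQuad n // ∃ q : Quad n, Quot.mk _ q = c ∧ B q} : ℝ)
        + (Nat.card {c : RootedQuad n // ∃ q : Quad n, Quot.mk _ q = c ∧ C q} : ℝ) := by
  have := ymain_union (A := A) (univ : Finset Bool) (fun b q => if b then B q else C q)
    fun q hq => by
      rcases h q hq with h | h
      · exact ⟨true, mem_univ _, h⟩
      · exact ⟨false, mem_univ _, h⟩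
  rw [Fintype.sum_bool] at this
  exact this

theorem ymain_setup (e0 K G1 : ℕ) : ∀ᶠ n : ℕ in atTop, 1 ≤ n ∧ ∃ G : ℕ, G1 ≤ G ∧
    G ^ (4 * e0 + 239) ≤ n ∧ n ≤ G ^ (4 * e0 + 240) ∧
    (Nat.card {c : RootedQuad n // ∃ q : Quad n, Quot.mk _ q = c ∧
        ¬ (yquad G e0 q ∧ ResLe q ((G : ℝ) ^ 3))} : ℝ)
      ≤ 1 / (n : ℝ) ^ K * (Nat.card (RootedQuad n) : ℝ) := by
  set D := 4 * e0 + 240 with hD
  have hD' : (0 : ℝ) < D := by positivity
  obtain ⟨C, δ, hC, hδ, hlev⟩ := level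
  obtain ⟨n1, hn1⟩ := asymp NearHyp C δ hC hδ nearHyp_mono nearHyp_base nearHyp_triv hlev
    (1 / D) (by positivity) (D * (K + 5) + 1 + 4 * (60 + e0) + 120)
  obtain ⟨G0, hG0⟩ := ygood_prob e0 (D * (K + 5))
  obtain ⟨c, hc, hcnt⟩ := cnt_lower
  have h1 : Tendsto (fun n : ℕ => (n : ℝ) ^ (1 / D : ℝ)) atTop atTop :=
    (tendsto_rpow_atTop (by positivity)).comp tendsto_natCast_atTop_atTop
  have ev3 : ∀ᶠ n : ℕ in atTop, 1 / c ≤ (n : ℝ) :=
    tendsto_natCast_atTop_atTop.eventually_ge_atTop _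
  filter_upwards [h1.eventually_ge_atTop (2 ^ D), ev3, h1.eventually_ge_atTop G0,
    h1.eventually_ge_atTop G1, h1.eventually_ge_atTop 36, eventually_ge_atTop n1,
    eventually_ge_atTop 2, xmain_res (1 / (2 * D)) (by positivity) (K + 1)]
    with n e1 e2 e3 e3' e3'' e4 e5 e6
  have hn2 : (2 : ℝ) ≤ n := by exact_mod_cast e5
  have hnpos : (0 : ℝ) < n := by linarith
  have hn1' : (1 : ℝ) ≤ n := by linarith
  set y := (n : ℝ) ^ (1 / D : ℝ) with hy
  have hy0 : 0 < y := by linarith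
  have p1 : y ^ D = n := by
    rw [hy, ← Real.rpow_natCast, ← Real.rpow_mul hnpos.le, one_div_mul_cancel hD'.ne',
      Real.rpow_one]
  have p2 : ((n : ℝ) ^ (1 / (2 * D) : ℝ)) ^ 4 = y ^ 2 := by
    rw [hy, ← Real.rpow_natCast, ← Real.rpow_natCast, ← Real.rpow_mul hnpos.le,
      ← Real.rpow_mul hnpos.le]
    congr 1
    push_cast
    field_simp
    ring
  set G := ⌈y⌉₊ with hG
  have g1 : y ≤ G := Nat.le_ceil _
  have g2 : (G : ℝ) ≤ 2 * y := by
    have := Nat.ceil_lt_add_one hy0.le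
    linarith
  have hG36 : (36 : ℝ) ≤ G := e3''.trans g1
  have hG36' : 36 ≤ G := by exact_mod_cast hG36
  have hG1 : (1 : ℝ) ≤ G := by linarith
  have g4 : (G : ℝ) ^ (4 * e0 + 239) ≤ n := by
    calc (G : ℝ) ^ (4 * e0 + 239) ≤ (2 * y) ^ (4 * e0 + 239) := by gcongr
      _ = 2 ^ (4 * e0 + 239) * y ^ (4 * e0 + 239) := mul_pow _ _ _
      _ ≤ y * y ^ (4 * e0 + 239) := by
          gcongr
          exact (pow_le_pow_right₀ (by norm_num) (by omega)).trans e1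
      _ = n := by rw [← p1, hD]; ring
  have g4' : G ^ (4 * e0 + 239) ≤ n := by exact_mod_cast g4
  have g5 : (n : ℝ) ≤ (G : ℝ) ^ D := by
    rw [← p1]
    gcongr
  have g5' : n ≤ G ^ D := by exact_mod_cast g5
  have g6 : (G : ℝ) ≤ n := le_trans (le_self_pow₀ hG1 (by omega)) g4
  have hnear : NearHyp (G ^ (2 * e0 + 8)) G
      (1 / (G : ℝ) ^ (D * (K + 5) + 1 + 4 * (60 + e0) + 120)) := by
    refine nearHyp_mono ?_ g1 ?_ (hn1 n e4)
    · have : G ^ (2 * e0 + 8) ≤ G ^ (4 * e0 + 239) := Nat.pow_le_pow_right (by omega) (by omega)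
      omega
    · gcongr
  have hgood := hG0 G (by exact_mod_cast e3.trans g1) n g4' g5' hnear
  have hbad := xmain_count hcnt n (by omega) (fun q => ¬ yquad G e0 q)
    (fun t => ¬ ygood G e0 n t) (fun q t hq hb hg => hb (yquad_of_rep G e0 hG36' q t hq hg))
    (1 / (n : ℝ) ^ (K + 1)) (by positivity) (by
      refine hgood.trans ?_
      have a1 : (n : ℝ) ^ (K + 5) ≤ (G : ℝ) ^ (D * (K + 5)) := by
        rw [pow_mul]
        gcongr
      have a3 : 1 ≤ c * n := by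
        rw [div_le_iff₀ hc] at e2
        linarith
      calc 1 / (G : ℝ) ^ (D * (K + 5)) ≤ 1 / (n : ℝ) ^ (K + 5) := by gcongr
        _ ≤ c * n / (n : ℝ) ^ (K + 5) := by gcongr
        _ = _ := by field_simp; ring)
  have : Finite (RootedQuad n) := Nat.finite_of_card_ne_zero (xmain_pos n (by omega)).ne'
  refine ⟨by omega, G, by exact_mod_cast e3'.trans g1, g4', g5', ?_⟩
  have hu := ymain_or (A := fun q : Quad n => ¬ (yquad G e0 q ∧ ResLe q ((G : ℝ) ^ 3)))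
    (B := fun q => ¬ yquad G e0 q)
    (C := fun q => ¬ ResLe q (16 * ((n : ℝ) ^ (1 / (2 * D) : ℝ)) ^ 4)) fun q hq => by
      by_contra hcon
      push Not at hcon
      refine hq ⟨hcon.1, fun f u v => (hcon.2 f u v).trans ?_⟩
      have : 16 * ((n : ℝ) ^ (1 / (2 * D) : ℝ)) ^ 4 ≤ (G : ℝ) ^ 3 := by
        rw [p2]
        calc 16 * y ^ 2 ≤ G * (G : ℝ) ^ 2 := by gcongr; linarith
          _ = _ := by ring
      gcongr
  refine hu.trans ((add_le_add hbad e6).trans ?_)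
  rw [← add_mul]
  gcongr
  rw [← add_div, div_le_div_iff₀ (by positivity) (by positivity), pow_succ]
  have h9 : (0 : ℝ) < (n : ℝ) ^ K := by positivity
  calc (1 + 1) * (n : ℝ) ^ K = (n : ℝ) ^ K * 2 := by ring
    _ ≤ (n : ℝ) ^ K * n := mul_le_mul_of_nonneg_left hn2 h9.le
    _ = _ := by ring

/-- the good event seen from the root -/
def yroot (G e0 : ℕ) {n : ℕ} (q : Quad n) : Prop :=
  (yquad G e0 q ∧ ResLe q ((G : ℝ) ^ 3)) ∧ ∀ e, e ≤ e0 →
    q.escape (q.tail q.root) (G ^ (4 * e + 18)) ((G : ℝ) ^ (e + 59))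
      ≤ ENNReal.ofReal (1 / (G : ℝ) ^ 2)

theorem ymain_root (e0 G1 : ℕ) : ∀ᶠ n : ℕ in atTop, 1 ≤ n ∧ ∃ G : ℕ, G1 ≤ G ∧
    G ^ (4 * e0 + 239) ≤ n ∧ n ≤ G ^ (4 * e0 + 240) ∧
    (Nat.card {c : RootedQuad n // ∃ q : Quad n, Quot.mk _ q = c ∧ ¬ yroot G e0 q} : ℝ)
      ≤ 1 / (G : ℝ) ^ 2 * (Nat.card (RootedQuad n) : ℝ) := by
  filter_upwards [ymain_setup e0 1 (max G1 (2 * (e0 + 2)))] with n ⟨hn, G, hG, g1, g2, hbad⟩
  refine ⟨hn, G, le_of_max_le_left hG, g1, g2, ?_⟩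
  have hG2 : 2 * (e0 + 2) ≤ G := le_of_max_le_right hG
  have hx : 2 * ((e0 : ℝ) + 2) ≤ G := by exact_mod_cast hG2
  have he0 : (0 : ℝ) ≤ e0 := Nat.cast_nonneg _
  have hx1 : (1 : ℝ) ≤ G := by linarith
  have hn' : (0 : ℝ) < n := by exact_mod_cast hn
  have : Finite (RootedQuad n) := Nat.finite_of_card_ne_zero (xmain_pos n hn).ne'
  have hc0 : (0 : ℝ) ≤ (Nat.card (RootedQuad n) : ℝ) := Nat.cast_nonneg _
  have b1 : 1 / (n : ℝ) ^ 1 ≤ 1 / (G : ℝ) ^ 3 := by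
    have : (G : ℝ) ^ (4 * e0 + 239) ≤ n := by exact_mod_cast g1
    rw [pow_one]
    exact one_div_le_one_div_of_le (by positivity)
      ((pow_le_pow_right₀ hx1 (by omega)).trans this)
  replace hbad := hbad.trans (mul_le_mul_of_nonneg_right b1 hc0)
  have h1 := ymain_or (A := fun q : Quad n => ¬ yroot G e0 q)
    (B := fun q => ¬ (yquad G e0 q ∧ ResLe q ((G : ℝ) ^ 3)))
    (C := fun q => ∃ e ∈ range (e0 + 1), ENNReal.ofReal (1 / (G : ℝ) ^ 2) <
      q.escape (q.tail q.root) (G ^ (4 * e + 18)) ((G : ℝ) ^ (e + 59))) fun q hq => by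
      by_contra hcon
      rw [not_or, not_not] at hcon
      refine hq ⟨hcon.1, fun e he => ?_⟩
      by_contra h
      exact hcon.2 ⟨e, mem_range.2 (by omega), not_le.1 h⟩
  have h2 := ymain_union (range (e0 + 1)) (A := fun q : Quad n => ∃ e ∈ range (e0 + 1),
    ENNReal.ofReal (1 / (G : ℝ) ^ 2) <
      q.escape (q.tail q.root) (G ^ (4 * e + 18)) ((G : ℝ) ^ (e + 59))) _ fun q hq => hq
  have h3 : ∀ e ∈ range (e0 + 1), (Nat.card {c : RootedQuad n // ∃ q : Quad n,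
      Quot.mk _ q = c ∧ ENNReal.ofReal (1 / (G : ℝ) ^ 2) <
      q.escape (q.tail q.root) (G ^ (4 * e + 18)) ((G : ℝ) ^ (e + 59))} : ℝ)
      ≤ 2 / (G : ℝ) ^ 3 * (Nat.card (RootedQuad n) : ℝ) := by
    intro e he
    have := reroot_count hn (G ^ (4 * e + 18)) ((G : ℝ) ^ (e + 59)) (1 / (G : ℝ) ^ 2)
      (2 * n / (G : ℝ) ^ 5) (by positivity) (by positivity)
      (fun q => ¬ (yquad G e0 q ∧ ResLe q ((G : ℝ) ^ 3)))
      (fun q hq => (not_not.1 hq).1.1 e (Nat.lt_succ_iff.1 (mem_range.1 he)))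
    refine this.trans ((add_le_add hbad le_rfl).trans ?_)
    rw [← add_mul]
    gcongr
    have e1 : 2 * n / (G : ℝ) ^ 5 / (4 * n * (1 / (G : ℝ) ^ 2)) = 1 / 2 / (G : ℝ) ^ 3 := by
      field_simp
      ring
    rw [e1, ← add_div]
    gcongr
    norm_num
  have h4 := sum_le_sum h3
  rw [sum_const, card_range, nsmul_eq_mul] at h4
  refine h1.trans ((add_le_add hbad (h2.trans h4)).trans ?_)
  rw [← mul_assoc, ← add_mul]
  gcongr
  push_cast
  calc 1 / (G : ℝ) ^ 3 + (e0 + 1) * (2 / (G : ℝ) ^ 3) = (2 * e0 + 3) / (G : ℝ) ^ 3 := by ring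
    _ ≤ G / (G : ℝ) ^ 3 := by gcongr; linarith
    _ = _ := by field_simp

theorem ymain_pow {G n k D : ℕ} {ε : ℝ} (hn : 1 ≤ n) (hD : 1 ≤ D) (h : G ^ D ≤ n)
    (hk : (k : ℝ) ≤ D * ε) : (G : ℝ) ^ k ≤ (n : ℝ) ^ ε := by
  have hn' : (1 : ℝ) ≤ n := by exact_mod_cast hn
  have hD' : (0 : ℝ) < D := by exact_mod_cast hD
  have h' : (G : ℝ) ^ D ≤ n := by exact_mod_cast h
  have h1 : (G : ℝ) ≤ (n : ℝ) ^ (1 / D : ℝ) := by
    rw [one_div]
    exact Real.le_rpow_inv_iff_of_pos (Nat.cast_nonneg _) (by linarith) hD' |>.2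
      (by rwa [Real.rpow_natCast])
  calc (G : ℝ) ^ k ≤ ((n : ℝ) ^ (1 / D : ℝ)) ^ k := by gcongr
    _ = (n : ℝ) ^ ((k : ℝ) / D) := by
        rw [← Real.rpow_natCast, ← Real.rpow_mul (by linarith)]
        congr 1
        ring
    _ ≤ _ := Real.rpow_le_rpow_of_exponent_le hn' (by rw [div_le_iff₀ hD']; linarith)

theorem ymain_root_pow {G n D : ℕ} (hD : 1 ≤ D) (h : n ≤ G ^ D) :
    (n : ℝ) ^ (1 / D : ℝ) ≤ G := by
  have hD' : (0 : ℝ) < D := by exact_mod_cast hD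
  have h' : (n : ℝ) ≤ (G : ℝ) ^ D := by exact_mod_cast h
  rw [one_div]
  exact Real.rpow_inv_le_iff_of_pos (Nat.cast_nonneg _) (Nat.cast_nonneg _) hD' |>.2
    (by rwa [Real.rpow_natCast])

theorem ymain_deg {n : ℕ} (q : Quad n) (x : q.Vertex) : ((q.out x).card : ℝ) ≤ yBall q x 0 := by
  have h := yI_point q x (fun _ => 1)
  rw [mul_one] at h
  rw [← h]
  refine sum_le_sum fun d _ => ?_
  rw [mul_one]
  unfold yInd
  split_ifs with c1 c2
  · exact le_rfl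
  · exact absurd (by rw [c1]; simp) c2
  · norm_num
  · exact le_rfl

theorem yK_triv {n : ℕ} (hn : 1 ≤ n) (q : Quad n) (x : q.Vertex) (t : ℕ) :
    1 / (4 * n) ≤ yK q (2 * t) x := by
  have h := yK_lower q x t (fun _ => True)
  have e1 : yInd q (fun _ => True) = fun _ => 1 := by
    funext y
    simp [yInd]
  have e2 : yVol q (fun _ => True) = 4 * n := by
    rw [yVol, e1]
    simp
  rw [e1, yP_iter_const, e2] at h
  have hn' : (0 : ℝ) < n := by exact_mod_cast hn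
  have a4 : (1 : ℝ) ≤ (q.out x).card := by exact_mod_cast (q.out_nonempty x).card_pos
  rw [div_le_iff₀ (by positivity)]
  linarith

theorem yroot_ret {G e0 n : ℕ} (hG : 384 ≤ G) (hn : 1 ≤ n) (g2 : n ≤ G ^ (4 * e0 + 240))
    {q : Quad n} (h : yroot G e0 q) (t : ℕ) (ht1 : 1 ≤ t) (ht2 : t ≤ n) :
    1 / ((G : ℝ) ^ 240 * t) ≤ yK q (2 * t) (q.tail q.root) ∧
      yK q (2 * t) (q.tail q.root) ≤ (G : ℝ) ^ 240 / t := by
  obtain ⟨⟨⟨-, hb, -⟩, hR⟩, he⟩ := h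
  have hx : (384 : ℝ) ≤ G := by exact_mod_cast hG
  have hx1 : (1 : ℝ) ≤ G := by linarith
  have ht : (1 : ℝ) ≤ t := by exact_mod_cast ht1
  have htn : (t : ℝ) ≤ n := by exact_mod_cast ht2
  have key : ∀ e, e ≤ e0 → t ≤ G ^ (4 * e + 18) →
      1 / (G : ℝ) ^ (4 * e + 239) ≤ yK q (2 * t) (q.tail q.root) := by
    intro e h1 h2
    have hr : (2 : ℝ) ≤ (G : ℝ) ^ (e + 59) :=
      le_trans (by linarith) (le_self_pow₀ hx1 (by omega))
    have := ret_lower q (q.tail q.root) t ((G : ℝ) ^ (e + 59)) (96 * (G : ℝ) ^ (4 * e + 238))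
      (by positivity) ((escape_mono_time q _ h2 _).trans ((he e h1).trans
        (ENNReal.ofReal_le_ofReal (one_div_le_one_div_of_le (by norm_num) (by nlinarith)))))
      ((hb _ _ (by positivity)).trans (by
        calc 6 * (G : ℝ) ^ 2 * ((G : ℝ) ^ (e + 59) + 2) ^ 4
            ≤ 6 * (G : ℝ) ^ 2 * (2 * (G : ℝ) ^ (e + 59)) ^ 4 := by gcongr; linarith
          _ = _ := by ring))
    refine le_trans (one_div_le_one_div_of_le (by positivity) ?_) this
    calc 4 * (96 * (G : ℝ) ^ (4 * e + 238)) = 384 * (G : ℝ) ^ (4 * e + 238) := by ring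
      _ ≤ G * (G : ℝ) ^ (4 * e + 238) := by gcongr
      _ = _ := by ring
  constructor
  · by_cases hc : t ≤ G ^ (4 * e0 + 18)
    · have hex : ∃ e, t ≤ G ^ (4 * e + 18) := ⟨e0, hc⟩
      classical
      have h1 := Nat.find_spec hex
      have h2 : Nat.find hex ≤ e0 := Nat.find_min' hex hc
      refine le_trans (one_div_le_one_div_of_le (by positivity) ?_) (key _ h2 h1)
      rcases hf : Nat.find hex with _ | e
      · calc (G : ℝ) ^ (4 * 0 + 239) ≤ (G : ℝ) ^ 240 := pow_le_pow_right₀ hx1 (by omega)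
          _ ≤ _ := le_mul_of_one_le_right (by positivity) ht
      · have h3 := Nat.find_min hex (m := e) (by omega)
        have h4 : (G : ℝ) ^ (4 * e + 18) ≤ t := by exact_mod_cast (not_le.1 h3).le
        calc (G : ℝ) ^ (4 * (e + 1) + 239) ≤ (G : ℝ) ^ (240 + (4 * e + 18)) :=
              pow_le_pow_right₀ hx1 (by omega)
          _ = (G : ℝ) ^ 240 * (G : ℝ) ^ (4 * e + 18) := pow_add _ _ _
          _ ≤ _ := by gcongr
    · refine le_trans (one_div_le_one_div_of_le (by positivity) ?_) (yK_triv hn q _ t)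
      have h4 : (G : ℝ) ^ (4 * e0 + 18) ≤ t := by exact_mod_cast (not_le.1 hc).le
      have h5 : (n : ℝ) ≤ (G : ℝ) ^ (4 * e0 + 240) := by exact_mod_cast g2
      calc 4 * (n : ℝ) ≤ G * (G : ℝ) ^ (4 * e0 + 240) := by gcongr; linarith
        _ = (G : ℝ) ^ (4 * e0 + 241) := by ring
        _ ≤ (G : ℝ) ^ (240 + (4 * e0 + 18)) := pow_le_pow_right₀ hx1 (by omega)
        _ = (G : ℝ) ^ 240 * (G : ℝ) ^ (4 * e0 + 18) := pow_add _ _ _
        _ ≤ _ := by gcongr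
  · have h1 := yK_upper q hn _ (by positivity) hR (q.tail q.root) t
    have h2 := (ymain_deg q (q.tail q.root)).trans (hb _ 0 le_rfl)
    have h3 : (1 : ℝ) ≤ (G : ℝ) ^ 3 := one_le_pow₀ hx1
    have h4 : (G : ℝ) ^ 3 / (t + 1) + 1 / n ≤ 2 * (G : ℝ) ^ 3 / t := by
      have a1 : (G : ℝ) ^ 3 / (t + 1) ≤ (G : ℝ) ^ 3 / t := by gcongr; linarith
      have a2 : 1 / (n : ℝ) ≤ (G : ℝ) ^ 3 / t := by gcongr
      rw [two_mul, add_div]
      linarith
    refine h1.trans ?_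
    calc _ ≤ 6 * (G : ℝ) ^ 2 * (0 + 2) ^ 4 * (2 * (G : ℝ) ^ 3 / t) := by gcongr
      _ = 192 * (G : ℝ) ^ 5 / t := by ring
      _ ≤ G * (G : ℝ) ^ 5 / t := by gcongr; linarith
      _ = (G : ℝ) ^ 6 / t := by ring
      _ ≤ _ := by gcongr; norm_num

end Pool.Agent.P.MP_7a6434d8_pr
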