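import Pool.Agent.P.MP_7a6434d8_pr.YMain

/-!
Return probabilities of simple random walk to the root vertex of a uniform rooted planar
quadrangulation with `n` faces. Outside a set of maps of proportion `n ^ (-δ)`, for all times
`1 ≤ t ≤ n` at once, the probability of being at the root at time `2 t` lies between
`n ^ (-ε) / t` and `n ^ ε / t`.
-/

namespace Pool.Agent.P.MP_7a6434d8_pr.YReturnProb

open Pool.Agent.P.MP_7a6434d8_pr

theorem result (ε : ℝ) (hε : 0 < ε) : ∃ δ : ℝ, 0 < δ ∧ ∃ n0 : ℕ, ∀ n : ℕ, n0 ≤ n →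
    0 < Nat.card (RootedQuad n) ∧
    (Nat.card {c : RootedQuad n // ∃ q : Quad n, Quot.mk _ q = c ∧
        ¬ ∀ t : ℕ, 1 ≤ t → t ≤ n →
          ENNReal.ofReal ((n : ℝ) ^ (-ε) / t) ≤ q.ret (2 * t) (q.tail q.root) ∧
          q.ret (2 * t) (q.tail q.root) ≤ ENNReal.ofReal ((n : ℝ) ^ ε / t)} : ℝ)
      ≤ (Nat.card (RootedQuad n) : ℝ) / (n : ℝ) ^ δ := by
  obtain ⟨e0, he0⟩ := exists_nat_ge (60 / ε)
  have h60 : 60 ≤ e0 * ε := (div_le_iff₀ hε).1 he0
  obtain ⟨n0, hn0⟩ := Filter.eventually_atTop.1 (ymain_root e0 384)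
  refine ⟨1 / ((4 * e0 + 240 : ℕ) : ℝ), by positivity, n0, fun n hn => ?_⟩
  obtain ⟨hn1, G, hG, g1, g2, hbad⟩ := hn0 n hn
  have hpos := xmain_pos n hn1
  have : Finite (RootedQuad n) := Nat.finite_of_card_ne_zero hpos.ne'
  have hn' : (0 : ℝ) < n := by exact_mod_cast hn1
  have hx : (384 : ℝ) ≤ G := by exact_mod_cast hG
  have p1 : (G : ℝ) ^ 240 ≤ (n : ℝ) ^ ε :=
    ymain_pow hn1 (by omega) g1 (by push_cast; nlinarith)
  have p2 := ymain_root_pow (by omega) g2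
  refine ⟨hpos, le_trans (ymain_mono (B := fun q => ¬ yroot G e0 q)
    fun q hq hg => hq fun t h1 h2 => ?_) (hbad.trans ?_)⟩
  · obtain ⟨a1, a2⟩ := yroot_ret hG hn1 g2 hg t h1 h2
    have ht : (0 : ℝ) < t := by exact_mod_cast h1
    rw [ret_eq]
    refine ⟨ENNReal.ofReal_le_ofReal (le_trans ?_ a1), ENNReal.ofReal_le_ofReal (a2.trans ?_)⟩
    · rw [Real.rpow_neg hn'.le, ← one_div, div_div]
      gcongr
    · gcongr
  · rw [one_div_mul_eq_div]
    gcongr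
    nlinarith

end Pool.Agent.P.MP_7a6434d8_pr.YReturnProb
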