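import Pool.Agent.P.MP_7a6434d8_pr.XGood

/-! Separation at all scales. -/

namespace Pool.Agent.P.MP_7a6434d8_pr

open Mp Finset Filter Topology
open scoped ENNReal

theorem ysep_all (m m1 r : ℕ) (K2 v2 : ℝ) (h1 : 1 ≤ m1) (hm : m1 ≤ m) (hK : 0 ≤ K2) (hv : 0 ≤ v2)
    (t : Mp) (ht : ok t)
    (h : ¬ AnySub (fun s => m1 < edges s ∧ edges s ≤ m ∧
      ¬ Sep s r (K2 * edges s) (v2 * edges s)) t) :
    Sep t r (K2 * edges t) (xsep_X m m1 t + v2 * edges t) := by
  have hm0 : (0 : ℝ) < m := by exact_mod_cast (h1.trans hm)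
  have nb : ∀ s : Mp, ok s → ¬ AnySub (fun s => m1 < edges s ∧ edges s ≤ m ∧
      ¬ Sep s r (K2 * edges s) (v2 * edges s)) s → edges s ≤ m →
      Sep s r (K2 * edges s) (xsep_X m m1 s + v2 * edges s) := by
    intro s hs hn he
    have e0 : (0 : ℝ) ≤ edges s := Nat.cast_nonneg _
    have hX : xsep_X m m1 s = disc m1 s := if_neg (not_lt.2 he)
    rw [hX]
    by_cases hsm : edges s ≤ m1
    · refine (xsep_small s hs r).mono le_rfl (by positivity) ?_
      have : disc m1 s = edges s + 1 := if_pos hsm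
      rw [this]
      push_cast
      have : 0 ≤ v2 * edges s := by positivity
      linarith
    · have hl : Sep s r (K2 * edges s) (v2 * edges s) := by
        by_contra hc
        exact hn (xsep_anySub_self ⟨not_le.1 hsm, he, hc⟩)
      refine hl.mono le_rfl le_rfl ?_
      have h3 : (0 : ℝ) ≤ disc m1 s := Nat.cast_nonneg _
      linarith
  induction t with
  | pt => exact nb _ ht h (Nat.zero_le _)
  | face s ih =>
    by_cases he : edges (face s) ≤ m
    · exact nb _ ht h he
    have hs := xsep_face ht (ih ht.1 fun hc => h (Or.inr hc))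
    have hE : (edges (face s) : ℝ) = edges s + 1 := by
      show ((edges s + 1 : ℕ) : ℝ) = _
      push_cast; ring
    have e0 : (0 : ℝ) ≤ edges s := Nat.cast_nonneg _
    have hX : xsep_X m m1 (face s) = (edges (face s) : ℝ) / m * (pc m1 s + 2 * (m1 + 1)) :=
      if_pos (not_le.1 he)
    have hge : (1 : ℝ) ≤ (edges (face s) : ℝ) / m := by
      rw [le_div_iff₀ hm0, one_mul]; exact_mod_cast (not_le.1 he).le
    have p0 : (0 : ℝ) ≤ pc m1 s := Nat.cast_nonneg _
    refine hs.mono le_rfl ?_ (add_le_add ?_ ?_)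
    · rw [hE]; gcongr; linarith
    · rw [hX]
      unfold xsep_X
      split_ifs
      · rw [hE]; gcongr; linarith
      · have h3 := xsep_disc_le m1 s
        have h4 : (0 : ℝ) ≤ pc m1 s + 2 * (m1 + 1) := by positivity
        nlinarith [mul_le_mul_of_nonneg_right hge h4]
    · rw [hE]; gcongr; linarith
  | bridge a b iha ihb =>
    by_cases he : edges (bridge a b) ≤ m
    · exact nb _ ht h he
    have hs := xsep_bridge (iha ht.1 fun hc => h (Or.inr (Or.inl hc)))
      (ihb ht.2 fun hc => h (Or.inr (Or.inr hc)))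
    have hE : (edges (bridge a b) : ℝ) = edges a + edges b + 1 := by
      show ((edges a + edges b + 1 : ℕ) : ℝ) = _
      push_cast; ring
    have ea : (0 : ℝ) ≤ edges a := Nat.cast_nonneg _
    have eb : (0 : ℝ) ≤ edges b := Nat.cast_nonneg _
    have hX : xsep_X m m1 (bridge a b) =
        (edges (bridge a b) : ℝ) / m * (pc m1 (bridge a b) + 2 * (m1 + 1)) :=
      if_pos (not_le.1 he)
    have hge : (1 : ℝ) ≤ (edges (bridge a b) : ℝ) / m := by
      rw [le_div_iff₀ hm0, one_mul]; exact_mod_cast (not_le.1 he).le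
    have pa : (0 : ℝ) ≤ pc m1 a := Nat.cast_nonneg _
    have pb : (0 : ℝ) ≤ pc m1 b := Nat.cast_nonneg _
    have da : (0 : ℝ) ≤ disc m1 a := Nat.cast_nonneg _
    have db : (0 : ℝ) ≤ disc m1 b := Nat.cast_nonneg _
    have qa : (pc m1 a : ℝ) + disc m1 b ≤ pc m1 (bridge a b) := by
      have : pc m1 a + disc m1 b ≤ pc m1 (bridge a b) := le_max_left _ _
      exact_mod_cast this
    have qb : (pc m1 b : ℝ) + disc m1 a ≤ pc m1 (bridge a b) := by
      have : pc m1 b + disc m1 a ≤ pc m1 (bridge a b) := le_max_right _ _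
      exact_mod_cast this
    have hsum : (edges a : ℝ) / m + edges b / m ≤ (edges (bridge a b) : ℝ) / m := by
      rw [← add_div, hE]
      exact div_le_div_of_nonneg_right (by linarith) hm0.le
    have xa : (0 : ℝ) ≤ (edges a : ℝ) / m := by positivity
    have xb : (0 : ℝ) ≤ (edges b : ℝ) / m := by positivity
    have d1 := xsep_disc_le m1 a
    have d2 := xsep_disc_le m1 b
    have hXX : xsep_X m m1 a + xsep_X m m1 b ≤ xsep_X m m1 (bridge a b) := by
      rw [hX]
      unfold xsep_X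
      generalize (edges (bridge a b) : ℝ) / m = x at hge hsum
      generalize (edges a : ℝ) / m = y at hsum xa
      generalize (edges b : ℝ) / m = z at hsum xb
      generalize (pc m1 (bridge a b) : ℝ) = P at qa qb
      generalize (pc m1 a : ℝ) = A at pa qa
      generalize (pc m1 b : ℝ) = B at pb qb
      generalize (disc m1 a : ℝ) = Da at da qb d1
      generalize (disc m1 b : ℝ) = Db at db qa d2
      have hM : (0 : ℝ) ≤ 2 * (m1 + 1) := by positivity
      split_ifs
      · have u1 : y * (A + 2 * (m1 + 1)) ≤ y * (P + 2 * (m1 + 1)) := by gcongr; linarith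
        have u2 : z * (B + 2 * (m1 + 1)) ≤ z * (P + 2 * (m1 + 1)) := by gcongr; linarith
        have u3 : (y + z) * (P + 2 * (m1 + 1)) ≤ x * (P + 2 * (m1 + 1)) := by
          gcongr; linarith
        linarith
      · have u1 : y * (A + 2 * (m1 + 1)) ≤ x * (A + 2 * (m1 + 1)) := by
          gcongr; linarith
        have u2 : Db ≤ x * Db := le_mul_of_one_le_left db hge
        have u3 : x * (A + Db + 2 * (m1 + 1)) ≤ x * (P + 2 * (m1 + 1)) := by
          gcongr
        linarith
      · have u1 : z * (B + 2 * (m1 + 1)) ≤ x * (B + 2 * (m1 + 1)) := by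
          gcongr; linarith
        have u2 : Da ≤ x * Da := le_mul_of_one_le_left da hge
        have u3 : x * (B + Da + 2 * (m1 + 1)) ≤ x * (P + 2 * (m1 + 1)) := by
          gcongr
        linarith
      · have u1 : P + 2 * (m1 + 1) ≤ x * (P + 2 * (m1 + 1)) :=
          le_mul_of_one_le_left (by linarith) hge
        linarith
    refine hs.mono le_rfl ?_ ?_
    · rw [← mul_add, hE]
      exact mul_le_mul_of_nonneg_left (by linarith) hK
    · have : v2 * edges a + v2 * edges b ≤ v2 * edges (bridge a b) := by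
        rw [← mul_add, hE]
        exact mul_le_mul_of_nonneg_left (by linarith) hv
      linarith

theorem ysep_elim {A E : Mp → Prop} (h : ∀ s, ok s → ¬ AnySub A s → ¬ E s) (t : Mp) (ht : ok t)
    (hA : ¬ AnySub A t) : ¬ AnySub E t := by
  induction t with
  | pt => exact h pt ht hA
  | face t ih =>
    rintro (H | H)
    · exact h _ ht hA H
    · exact ih ht.1 (fun hc => hA (Or.inr hc)) H
  | bridge a b iha ihb =>
    rintro (H | H | H)
    · exact h _ ht hA H
    · exact iha ht.1 (fun hc => hA (Or.inr (Or.inl hc))) H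
    · exact ihb ht.2 (fun hc => hA (Or.inr (Or.inr hc))) H

theorem ysep_imp {E E' : Mp → Prop} (h : ∀ s, E s → E' s) (t : Mp) (H : AnySub E t) :
    AnySub E' t := by
  induction t with
  | pt => exact h pt H
  | face t ih => exact H.imp (h _) ih
  | bridge a b iha ihb => exact H.imp (h _) (Or.imp iha ihb)

theorem ysep_edges {E : Mp → Prop} (M : ℕ) (t : Mp) (hM : edges t ≤ M) (H : AnySub E t) :
    AnySub (fun s => edges s ≤ M ∧ E s) t := by
  induction t with
  | pt => exact ⟨hM, H⟩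
  | face t ih =>
    have : edges (face t) = edges t + 1 := rfl
    exact H.imp (fun h => ⟨hM, h⟩) (ih (by omega))
  | bridge a b iha ihb =>
    have : edges (bridge a b) = edges a + edges b + 1 := rfl
    exact H.imp (fun h => ⟨hM, h⟩) (Or.imp (iha (by omega)) (ihb (by omega)))

/-- a small subtree with a long boundary -/
def ybad1 (G e : ℕ) (s : Mp) : Prop := edges s ≤ 2 * G ^ (4 * e + 240) ∧ G ^ (2 * e + 121) < per s

/-- a large discarded volume along a branch -/
def ybad2 (G e : ℕ) (s : Mp) : Prop := ¬ AnySub (fun s => G ^ (2 * e + 121) < per s) s ∧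
  (G : ℝ) ^ (4 * e + 217) ≤ (pc (G ^ (4 * e + 136)) s : ℝ)

/-- a bad piece -/
def ybad3 (G e : ℕ) (s : Mp) : Prop := MaxDeg s G ∧ edges s ≤ G ^ (4 * e + 224) ∧
  ¬ (Layer s (18 * (G : ℝ) ^ 112) (9 * (G : ℝ) ^ (4 * e + 125)) ∧
    ∀ x y, Within s (G ^ (e + 59)) x y)

theorem ysep_levels (G e1 : ℕ) (hG : 1 ≤ G) (t : Mp) (ht : ok t) (hd : MaxDeg t G)
    (h3 : ¬ AnySub (ybad3 G e1) t) (j : ℕ)
    (h12 : ∀ i, i < j → ¬ AnySub (ybad1 G (e1 + i)) t ∧ ¬ AnySub (ybad2 G (e1 + i)) t) :
    ¬ AnySub (fun s => G ^ (4 * e1 + 136) < edges s ∧ edges s ≤ G ^ (4 * (e1 + j) + 224) ∧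
      ¬ Sep s (G ^ (e1 + 59)) (18 / (G : ℝ) ^ (4 * e1 + 24) * edges s)
        ((j + 1) * (9 / (G : ℝ) ^ 7) * edges s)) t := by
  have hx1 : (1 : ℝ) ≤ G := by exact_mod_cast hG
  have hx0 : (0 : ℝ) < G := by linarith
  induction j with
  | zero =>
    intro H
    refine h3 (ysep_imp (fun s hs => ⟨hs.1, hs.2.2.1, ?_⟩) t (anySub_maxdeg t hd H))
    rintro ⟨⟨f, f1, f2, f3, f4⟩, f5⟩
    have hge : (G : ℝ) ^ (4 * e1 + 136) ≤ edges s := by exact_mod_cast hs.2.1.le
    refine hs.2.2.2 (Sep.mono ⟨f, f1, f2, f3, f4, fun x y _ => f5 x y⟩ le_rfl ?_ ?_)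
    · calc 18 * (G : ℝ) ^ 112 = 18 / (G : ℝ) ^ (4 * e1 + 24) * (G : ℝ) ^ (4 * e1 + 136) := by
            field_simp
            ring
        _ ≤ _ := by gcongr
    · calc 9 * (G : ℝ) ^ (4 * e1 + 125) ≤ 9 * (G : ℝ) ^ (4 * e1 + 129) :=
            mul_le_mul_of_nonneg_left (pow_le_pow_right₀ hx1 (by omega)) (by norm_num)
        _ = ((0 : ℕ) + 1) * (9 / (G : ℝ) ^ 7) * (G : ℝ) ^ (4 * e1 + 136) := by
            push_cast
            field_simp
            ring
        _ ≤ _ := by gcongr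
  | succ j ih =>
    have ih' := ih fun i hi => h12 i (by omega)
    obtain ⟨k1, k2⟩ := h12 j (by omega)
    refine ysep_elim (A := fun s => (ybad1 G (e1 + j) s ∨ ybad2 G (e1 + j) s) ∨
      (G ^ (4 * e1 + 136) < edges s ∧ edges s ≤ G ^ (4 * (e1 + j) + 224) ∧
      ¬ Sep s (G ^ (e1 + 59)) (18 / (G : ℝ) ^ (4 * e1 + 24) * edges s)
        ((j + 1) * (9 / (G : ℝ) ^ 7) * edges s))) ?_ t ht ?_
    · rintro s hs hA ⟨c1, c2, c3⟩
      have e0 : (0 : ℝ) ≤ edges s := Nat.cast_nonneg _
      refine c3 ?_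
      by_cases hle : edges s ≤ G ^ (4 * (e1 + j) + 224)
      · by_contra hc
        refine hA (xsep_anySub_self (Or.inr ⟨c1, hle, fun hS => hc (hS.mono le_rfl le_rfl ?_)⟩))
        push_cast
        gcongr
        linarith
      have hS := ysep_all (G ^ (4 * (e1 + j) + 224)) (G ^ (4 * (e1 + j) + 136)) (G ^ (e1 + 59))
        (18 / (G : ℝ) ^ (4 * e1 + 24)) ((j + 1) * (9 / (G : ℝ) ^ 7)) (Nat.one_le_pow _ _ hG)
        (Nat.pow_le_pow_right hG (by omega)) (by positivity) (by positivity) s hs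
        (fun H => hA (ysep_imp (fun u hu => Or.inr ⟨lt_of_le_of_lt
          (Nat.pow_le_pow_right hG (by omega)) hu.1, hu.2⟩) s H))
      refine hS.mono le_rfl le_rfl ?_
      have hX : xsep_X (G ^ (4 * (e1 + j) + 224)) (G ^ (4 * (e1 + j) + 136)) s
          = (edges s : ℝ) / (G ^ (4 * (e1 + j) + 224) : ℕ) *
            (pc (G ^ (4 * (e1 + j) + 136)) s + 2 * ((G ^ (4 * (e1 + j) + 136) : ℕ) + 1)) :=
        if_pos (not_le.1 hle)
      have hn1 : ¬ AnySub (fun s => G ^ (2 * (e1 + j) + 121) < per s) s := by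
        intro H
        have hM : edges s ≤ 2 * G ^ (4 * (e1 + j) + 240) := by
          have : G ^ (4 * (e1 + (j + 1)) + 224) ≤ G ^ (4 * (e1 + j) + 240) :=
            Nat.pow_le_pow_right hG (by omega)
          omega
        exact hA (ysep_imp (fun u hu => Or.inl (Or.inl hu)) s (ysep_edges _ s hM H))
      have hpc : (pc (G ^ (4 * (e1 + j) + 136)) s : ℝ) ≤ (G : ℝ) ^ (4 * (e1 + j) + 217) := by
        by_contra hc
        exact hA (xsep_anySub_self (Or.inl (Or.inr ⟨hn1, (not_le.1 hc).le⟩)))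
      have b1 : (1 : ℝ) ≤ (G : ℝ) ^ (4 * (e1 + j) + 217) := one_le_pow₀ hx1
      have b2 : (G : ℝ) ^ (4 * (e1 + j) + 136) ≤ (G : ℝ) ^ (4 * (e1 + j) + 217) :=
        pow_le_pow_right₀ hx1 (by omega)
      have b3 : xsep_X (G ^ (4 * (e1 + j) + 224)) (G ^ (4 * (e1 + j) + 136)) s
          ≤ 9 / (G : ℝ) ^ 7 * edges s := by
        rw [hX]
        push_cast
        calc _ ≤ (edges s : ℝ) / (G : ℝ) ^ (4 * (e1 + j) + 224) *
              (9 * (G : ℝ) ^ (4 * (e1 + j) + 217)) := by
              gcongr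
              linarith
          _ = _ := by
              field_simp
              ring
      push_cast
      linarith
    · intro H
      rcases anySub_or t H with H | H
      · rcases anySub_or t H with H | H
        · exact k1 H
        · exact k2 H
      · exact ih' H

end Pool.Agent.P.MP_7a6434d8_pr
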