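import Pool.Agent.P.MP_7a6434d8_pr.YLab
import Pool.Agent.P.MP_7a6434d8_pr.ZBase

namespace Pool.Agent.P.MP_7a6434d8_pr

open Mp Finset
open scoped ENNReal

theorem zball_mass (L r c : ℕ) (l : ℕ → ℤ) : mass L (fun t => LabC t l r c)
    ≤ 2 ^ L * Real.exp (-((c : ℝ) / (6 * ((r : ℝ) + 2) ^ 4))) := by
  classical
  have hr : (0 : ℝ) ≤ r := Nat.cast_nonneg r
  have hδ : 1 / (3 * ((r : ℝ) + 2) ^ 4) ≤ 1 := by
    rw [div_le_one (by positivity)]
    have : (1 : ℝ) ≤ ((r : ℝ) + 2) ^ 4 := one_le_pow₀ (by linarith)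
    linarith
  by_cases hv : Valid L l ∧ ∀ p, p ≤ 2 * L → l p ∈ Set.Ici (0 : ℤ)
  · have h1 := IE_le_of_trunc fun N => ylab_bound r N c L l hv.1 hv.2
    have h2 := dprod_le (R := xradlowR) (R' := fun _ => 2) L l
      fun p hp => xradlow_bounds (hv.2 p hp.le)
    rw [dprod_const 2 L l hv.1] at h2
    have h3 := IE_markov (L := L) (φ := fun t => LabC t l r c) (c := 1) one_pos
      (div_nonneg h2.1 (by positivity)) (fun t _ _ h => by
        unfold ylabF
        rw [if_pos h, ENNReal.ofReal_one]) h1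
    have h := xradlow_exp _ (by positivity) hδ c
    have e : (c : ℝ) * (1 / (3 * ((r : ℝ) + 2) ^ 4) / 2) = c / (6 * ((r : ℝ) + 2) ^ 4) := by
      field_simp
      ring
    rw [e] at h
    have h' : 1 / (1 + 1 / (3 * ((r : ℝ) + 2) ^ 4)) ^ c
        ≤ Real.exp (-((c : ℝ) / (6 * ((r : ℝ) + 2) ^ 4))) := by
      have e4 : (4 : ℝ) / (1 + 1 / (3 * ((r : ℝ) + 2) ^ 4)) ^ c
          = 4 * (1 / (1 + 1 / (3 * ((r : ℝ) + 2) ^ 4)) ^ c) := by ring
      rw [e4] at h
      linarith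
    refine h3.trans ?_
    rw [div_one]
    refine (div_le_div_of_nonneg_right h2.2 (by positivity)).trans ?_
    rw [div_eq_mul_one_div]
    exact mul_le_mul_of_nonneg_left h' (by positivity)
  · refine (mass_eq_zero fun t ht hp h => hv ?_).trans_le (by positivity)
    have h2 := lab_valid ht (labC_lab h)
    rwa [hp] at h2

theorem ball_tailL (L M r c : ℕ) :
    mass L (fun t => edges t ≤ M ∧ ∃ v, c + 1 ≤ ballC t v r)
      ≤ ((M : ℝ) + 1) * 8 ^ L * Real.exp (-((c : ℝ) / (6 * ((r : ℝ) + 2) ^ 4))) := by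
  classical
  refine (mass_le_sum (range (M + 1) ×ˢ (univ : Finset (Fin (2 * L) → Bool)))
    (fun p t => LabC t (pathOf (2 * L) (p.1 : ℕ) p.2) r c) fun t ht hp h => ?_).trans ?_
  · obtain ⟨he, v, hv⟩ := h
    obtain ⟨l, ⟨k, hk, hl0⟩, hl⟩ := ylab_of_ball t ht v r c hv
    have hv := (lab_valid ht (labC_lab hl)).1
    rw [hp] at hv
    obtain ⟨σ, hσ⟩ := exists_pathOf L l hv
    rw [hl0] at hσ
    refine ⟨(k, σ), mem_product.2 ⟨mem_range.2 ?_, mem_univ _⟩,
      labC_congr hl fun p hpp => hσ p (hp ▸ hpp)⟩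
    have := mem_range.1 hk
    omega
  · refine (sum_le_sum fun p _ => zball_mass L r c _).trans (le_of_eq ?_)
    rw [sum_const, card_product, card_range, card_univ, nsmul_eq_mul]
    simp only [Fintype.card_fun, Fintype.card_bool, Fintype.card_fin]
    push_cast
    have e8 : (8 : ℝ) ^ L = 2 ^ (2 * L) * 2 ^ L := by
      rw [pow_mul, ← mul_pow]
      norm_num
    rw [e8]
    ring

theorem ballVol_le {t : Mp} {Δ : ℝ} (hd : MaxDeg t Δ) (r : ℕ) (x : V t) :
    ballVol t r x ≤ Δ * ballC t x r := by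
  classical
  unfold ballVol ballC
  rw [← sum_filter]
  refine (sum_le_card_nsmul _ _ Δ fun y _ => hd y).trans (le_of_eq ?_)
  rw [nsmul_eq_mul, mul_comm]

end Pool.Agent.P.MP_7a6434d8_pr
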