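import Pool.Agent.P.MP_7a6434d8_pr.ZBase
import Pool.Agent.P.MP_7a6434d8_pr.ZCtxA
import Pool.Agent.P.MP_7a6434d8_pr.ZCtxB

namespace Pool.Agent.P.MP_7a6434d8_pr

open Mp Finset
open scoped ENNReal

theorem zctx_fiber (g : ℕ → ℝ) (hg : ∀ e, 0 ≤ g e) (A B : ℕ) :
    ∑ L ∈ range A, ∑ k ∈ range B, g (2 * k + L) ≤
      ∑ e ∈ range (2 * B + A), ((e : ℝ) + 1) * g e := by
  rw [← sum_product', ← sum_fiberwise_of_maps_to (s := range A ×ˢ range B)
    (t := range (2 * B + A)) (g := fun x => 2 * x.2 + x.1) (fun x hx => by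
      simp only [mem_product, mem_range] at hx ⊢
      omega)]
  refine sum_le_sum fun e _ => ?_
  rw [sum_congr rfl (g := fun _ => g e) (fun x hx => by rw [(mem_filter.1 hx).2]), sum_const,
    nsmul_eq_mul]
  refine mul_le_mul_of_nonneg_right ?_ (hg e)
  have h : #{x ∈ range A ×ˢ range B | 2 * x.2 + x.1 = e} ≤ #(range (e + 1)) :=
    card_le_card_of_injOn (fun x => x.2) (fun x hx => by
      have h1 := (mem_filter.1 (mem_coe.1 hx)).2
      simp only [coe_range, Set.mem_Iio]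
      omega) (fun x hx y hy hxy => by
      have h1 := (mem_filter.1 (mem_coe.1 hx)).2
      have h2 := (mem_filter.1 (mem_coe.1 hy)).2
      simp only at hxy
      exact Prod.ext (by omega) hxy)
  rw [card_range] at h
  exact_mod_cast h

theorem zctx_ratio {N k m : ℕ} (h : N ≤ m + k) :
    ((m : ℝ) + 1) * (cnt 2 m (fun _ => True) / 12 ^ m)
      ≤ ((k : ℝ) + 1) ^ 2 * (((N : ℝ) + 1) * (cnt 2 N (fun _ => True) / 12 ^ N)) := by
  have h0 : 0 ≤ ((N : ℝ) + 1) * (cnt 2 N (fun _ => True) / 12 ^ N) := by positivity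
  have hk : (0 : ℝ) ≤ k := Nat.cast_nonneg k
  rcases le_total N m with h1 | h1
  · exact (cnt_ratio_up h1).trans (le_mul_of_one_le_left h0 (one_le_pow₀ (by linarith)))
  · have h2 := cnt_ratio_down h1
    have hm : (0 : ℝ) ≤ m := Nat.cast_nonneg m
    have h3 : (N : ℝ) + 1 ≤ ((m : ℝ) + 1) * ((k : ℝ) + 1) := by
      have h4 : (N : ℝ) ≤ m + k := by exact_mod_cast h
      have h5 := mul_nonneg hm hk
      linarith
    have h6 : ((N : ℝ) + 1) ^ 2 ≤ (((m : ℝ) + 1) * ((k : ℝ) + 1)) ^ 2 :=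
      pow_le_pow_left₀ (by positivity) h3 2
    generalize (cnt 2 m (fun _ => True) / 12 ^ m : ℝ) = x at h2 ⊢
    generalize (cnt 2 N (fun _ => True) / 12 ^ N : ℝ) = y at h0 h2 ⊢
    refine le_of_mul_le_mul_left ?_ (show (0 : ℝ) < ((m : ℝ) + 1) ^ 2 by positivity)
    calc ((m : ℝ) + 1) ^ 2 * (((m : ℝ) + 1) * x) = ((m : ℝ) + 1) ^ 3 * x := by ring
      _ ≤ ((N : ℝ) + 1) ^ 3 * y := h2
      _ = ((N : ℝ) + 1) ^ 2 * (((N : ℝ) + 1) * y) := by ring
      _ ≤ (((m : ℝ) + 1) * ((k : ℝ) + 1)) ^ 2 * (((N : ℝ) + 1) * y) :=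
        mul_le_mul_of_nonneg_right h6 h0
      _ = _ := by ring

theorem zctx_kappa {κ : ℕ → ℕ → ℝ} (h0 : ∀ L n, 0 ≤ κ L n) (hκ : ∀ (L N : ℕ) (φ : Mp → ℝ),
    ∑ t ∈ countaT 2 N, subSum (fun s => if per s = L then φ s else 0) t
      = ∑ k ∈ range (N + 1), κ L (N - k) * ∑ s ∈ countaT L k, φ s) (L n s : ℕ) :
    κ L n * cnt L s (fun _ => True) ≤
      5 * (((n + s : ℕ) : ℝ) + 1) * cnt 2 (n + s) (fun _ => True) := by
  have h1 := hκ L (n + s) fun _ => 1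
  have h2 : κ L (n + s - s) * ∑ _u ∈ countaT L s, (1 : ℝ) ≤
      ∑ k ∈ range (n + s + 1), κ L (n + s - k) * ∑ _u ∈ countaT L k, (1 : ℝ) :=
    single_le_sum (f := fun k => κ L (n + s - k) * ∑ _u ∈ countaT L k, (1 : ℝ))
      (fun k _ => mul_nonneg (h0 _ _) (sum_nonneg fun _ _ => zero_le_one))
      (mem_range.2 (by omega))
  rw [← h1, Nat.add_sub_cancel, sum_const, nsmul_eq_mul, mul_one, ← counta_cnt_true] at h2
  refine h2.trans ?_
  rw [counta_cnt_true, mul_comm, ← nsmul_eq_mul, ← sum_const]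
  refine sum_le_sum fun t ht => ?_
  obtain ⟨a1, a2, a3⟩ := (counta_mem _ _ _).1 ht
  have h3 := counta_edges t a1
  refine ((subSum_mono (ψ := fun _ => 1) (fun u _ => ?_) t a1).trans (subSum_one t)).trans ?_
  · split_ifs
    · exact le_rfl
    · exact zero_le_one
  · rw [h3, a2, a3]
    push_cast
    have := Nat.cast_nonneg (α := ℝ) n
    have := Nat.cast_nonneg (α := ℝ) s
    linarith

theorem zctx_kappaZ {κ : ℕ → ℕ → ℝ} (h0 : ∀ L n, 0 ≤ κ L n) (hκ : ∀ (L N : ℕ) (φ : Mp → ℝ),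
    ∑ t ∈ countaT 2 N, subSum (fun s => if per s = L then φ s else 0) t
      = ∑ k ∈ range (N + 1), κ L (N - k) * ∑ s ∈ countaT L k, φ s) (L : ℕ) {N k : ℕ}
    (hk : k ≤ N) : κ L (N - k) * Z L * 12 ^ k ≤ 10 * ((L : ℝ) ^ 2 + L + 1) * ((k : ℝ) + 1) ^ 2 *
      (((N : ℝ) + 1) * cnt 2 N (fun _ => True)) := by
  obtain ⟨n, rfl⟩ := Nat.exists_eq_add_of_le' hk
  obtain ⟨s, hs⟩ := best_size L
  rw [Nat.add_sub_cancel]
  have h1 := zctx_kappa h0 hκ L n s
  have h2 := zctx_ratio (N := n + k) (k := k) (m := n + s) (by omega)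
  have h3 := h0 L n
  have hQ : (0 : ℝ) ≤ (L : ℝ) ^ 2 + L + 1 := by positivity
  generalize (L : ℝ) ^ 2 + L + 1 = Q at hs hQ ⊢
  generalize ((n + s : ℕ) : ℝ) + 1 = u at h1 h2
  generalize ((n + k : ℕ) : ℝ) + 1 = v at h2 ⊢
  generalize (cnt L s (fun _ => True) : ℝ) = x at hs h1
  generalize (cnt 2 (n + s) (fun _ => True) : ℝ) = y at h1 h2
  generalize (cnt 2 (n + k) (fun _ => True) : ℝ) = z at h2 ⊢
  generalize κ L n = c at h1 h3 ⊢
  calc c * Z L * 12 ^ k ≤ c * (2 * Q * (x / 12 ^ s)) * 12 ^ k := by gcongr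
    _ = c * x * (2 * Q * 12 ^ k / 12 ^ s) := by ring
    _ ≤ 5 * u * y * (2 * Q * 12 ^ k / 12 ^ s) := by gcongr
    _ = 10 * Q * 12 ^ (n + k) * (u * (y / 12 ^ (n + s))) := by
        rw [pow_add, pow_add]
        field_simp
        ring
    _ ≤ 10 * Q * 12 ^ (n + k) * (((k : ℝ) + 1) ^ 2 * (v * (z / 12 ^ (n + k)))) := by gcongr
    _ = _ := by
        field_simp

open Classical in
theorem zctx_inner (E : Mp → Prop) (p : ℕ → ℝ)
    (h : ∀ L e, mass L (fun s => E s ∧ edges s = e) ≤ p e * Z L) (L k : ℕ) :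
    ∑ s ∈ countaT L k, (if E s then (edges s : ℝ) + 1 else 0) ≤
      (((2 * k + L : ℕ) : ℝ) + 1) * (12 ^ k * (p (2 * k + L) * Z L)) := by
  have h1 : ∑ s ∈ countaT L k, (if E s then (edges s : ℝ) + 1 else 0) =
      (((2 * k + L : ℕ) : ℝ) + 1) * cnt L k E := by
    rw [← sum_filter, counta_cnt, mul_comm, ← nsmul_eq_mul, ← sum_const]
    refine sum_congr rfl fun s hs => ?_
    obtain ⟨a1, a2, a3⟩ := (counta_mem _ _ _).1 (mem_filter.1 hs).1
    rw [counta_edges s a1, a2, a3]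
  rw [h1]
  refine mul_le_mul_of_nonneg_left ((cnt_le_mass L k E).trans
    (mul_le_mul_of_nonneg_left ((mass_mono fun t a1 a2 a3 => ?_).trans (h L (2 * k + L)))
      (by positivity))) (by positivity)
  exact ⟨a3.1, by rw [counta_edges t a1, a2, a3.2]⟩

theorem ctx_bound (E : Mp → Prop) (p : ℕ → ℝ) (β : ℝ) (hp : ∀ e, 0 ≤ p e)
    (h : ∀ L e, mass L (fun s => E s ∧ edges s = e) ≤ p e * Z L)
    (hβ : ∀ n, ∑ e ∈ range n, ((e : ℝ) + 1) ^ 6 * p e ≤ β) (N : ℕ) :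
    ∑ t ∈ countaT 2 N, badVol E t ≤ 10 * β * ((N : ℝ) + 1) * cnt 2 N (fun _ => True) := by
  classical
  obtain ⟨κ, h0, hκ⟩ := ctx_kappa
  have h1 : ∀ t ∈ countaT 2 N, badVol E t = ∑ L ∈ range (2 * N + 3),
      subSum (fun s => if per s = L then (if E s then (edges s : ℝ) + 1 else 0) else 0) t := by
    intro t ht
    obtain ⟨a1, a2, a3⟩ := (counta_mem _ _ _).1 ht
    rw [← subSum_sum, badVol]
    refine subSum_congr t a1 fun s b1 b2 => ?_
    have h2 := counta_edges t a1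
    have h3 := counta_edges s b1
    rw [sum_ite_eq, if_pos (mem_range.2 (by omega))]
  rw [sum_congr rfl h1, sum_comm]
  simp only [hκ]
  have hC : (0 : ℝ) ≤ ((N : ℝ) + 1) * cnt 2 N (fun _ => True) := by positivity
  have h4 : ∀ L ∈ range (2 * N + 3), ∀ k ∈ range (N + 1),
      κ L (N - k) * ∑ s ∈ countaT L k, (if E s then (edges s : ℝ) + 1 else 0) ≤
        10 * (((N : ℝ) + 1) * cnt 2 N (fun _ => True)) *
          ((((2 * k + L : ℕ) : ℝ) + 1) ^ 5 * p (2 * k + L)) := by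
    intro L _ k hk
    have h5 := zctx_kappaZ h0 hκ L (Nat.lt_succ_iff.1 (mem_range.1 hk))
    have h6 := hp (2 * k + L)
    have hL : (0 : ℝ) ≤ L := Nat.cast_nonneg L
    have hk' : (0 : ℝ) ≤ k := Nat.cast_nonneg k
    have he : ((2 * k + L : ℕ) : ℝ) = 2 * k + L := by push_cast; ring
    have h7 : (L : ℝ) ^ 2 + L + 1 ≤ (((2 * k + L : ℕ) : ℝ) + 1) ^ 2 := by
      refine le_trans ?_ (pow_le_pow_left₀ (a := (L : ℝ) + 1) (by positivity) (by linarith) 2)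
      have : ((L : ℝ) + 1) ^ 2 = (L : ℝ) ^ 2 + L + 1 + L := by ring
      linarith
    have h8 : ((k : ℝ) + 1) ^ 2 ≤ (((2 * k + L : ℕ) : ℝ) + 1) ^ 2 :=
      pow_le_pow_left₀ (by positivity) (by linarith) 2
    refine (mul_le_mul_of_nonneg_left (zctx_inner E p h L k) (h0 _ _)).trans ?_
    have h9 : (0 : ℝ) ≤ ((2 * k + L : ℕ) : ℝ) + 1 := by positivity
    generalize ((2 * k + L : ℕ) : ℝ) + 1 = u at h7 h8 h9 ⊢
    generalize ((N : ℝ) + 1) * cnt 2 N (fun _ => True) = C at hC h5 ⊢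
    calc κ L (N - k) * (u * (12 ^ k * (p (2 * k + L) * Z L)))
        = κ L (N - k) * Z L * 12 ^ k * (u * p (2 * k + L)) := by ring
      _ ≤ 10 * ((L : ℝ) ^ 2 + L + 1) * ((k : ℝ) + 1) ^ 2 * C * (u * p (2 * k + L)) :=
          mul_le_mul_of_nonneg_right h5 (mul_nonneg h9 h6)
      _ ≤ 10 * u ^ 2 * u ^ 2 * C * (u * p (2 * k + L)) := by gcongr
      _ = _ := by ring
  refine (sum_le_sum fun L hL => sum_le_sum (h4 L hL)).trans ?_
  simp only [← mul_sum]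
  have h10 := zctx_fiber (fun e => ((e : ℝ) + 1) ^ 5 * p e)
    (fun e => mul_nonneg (by positivity) (hp e)) (2 * N + 3) (N + 1)
  have h11 := hβ (2 * (N + 1) + (2 * N + 3))
  have h12 : ∑ e ∈ range (2 * (N + 1) + (2 * N + 3)), ((e : ℝ) + 1) * (((e : ℝ) + 1) ^ 5 * p e) =
      ∑ e ∈ range (2 * (N + 1) + (2 * N + 3)), ((e : ℝ) + 1) ^ 6 * p e :=
    sum_congr rfl fun e _ => by ring
  rw [h12] at h10
  refine (mul_le_mul_of_nonneg_left (h10.trans h11) (by positivity)).trans_eq ?_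
  ring

end Pool.Agent.P.MP_7a6434d8_pr
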