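import Pool.Agent.P.MP_7a6434d8_pr.ZLink0
import Pool.Agent.P.MP_7a6434d8_pr.LinkA
import Pool.Agent.P.MP_7a6434d8_pr.XReroot

namespace Pool.Agent.P.MP_7a6434d8_pr

open Mp Finset
open scoped ENNReal

theorem zlinkug_ball {n : ℕ} (q : Quad n) (t : Mp) (j : q.Vertex ≃ V t)
    (hw : ∀ k x y, q.graph.dist x y ≤ k ↔ Within t k (j x) (j y))
    (hs : ∀ g : V t → ℝ, ∑ d, g (j (q.tail d)) = ∑ z, dg t z * g z) (r : ℕ) (x : q.Vertex) :
    yBall q x r = ballVol t r (j x) := by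
  classical
  have e := hs (fun z => if Within t r (j x) z then 1 else 0)
  have e2 : ballVol t r (j x) = ∑ z, dg t z * (if Within t r (j x) z then 1 else 0) := by
    unfold ballVol
    refine Finset.sum_congr rfl fun z _ => ?_
    split_ifs <;> simp
  rw [e2, ← e, yBall, yVol]
  refine Finset.sum_congr rfl fun d _ => ?_
  simp only [yInd, Nat.cast_lt, not_lt, hw]

open Classical in
theorem card_not_lg {n : ℕ} (q : Quad n) (t : Mp) (h : Rep q t) (r : ℕ) (W ρ Δ : ℝ) :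
    ((univ.filter (fun d => ¬ LG q (q.tail d) r W ρ Δ)).card : ℝ) ≤ nug t r W ρ Δ := by
  obtain ⟨θ, j, -, -, -, -, hw, hdg, hs, hen⟩ := rep_iso q t h
  have key : ∀ x, UG t r W ρ Δ (j x) → LG q x r W ρ Δ := by
    rintro x ⟨-, h2, h3, h4⟩
    refine ⟨by rwa [zlinkug_ball q t j hw hs], by rwa [hdg], fun f hf z => ?_⟩
    have a := h4 (fun y => f (j.symm y)) (fun y hy => hf _ (by
      by_contra hc
      exact hy (by simpa using (hw r x (j.symm y)).1 (not_lt.1 hc)))) (j z)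
    rw [← hen] at a
    simpa using a
  have e := hs (fun z => if UG t r W ρ Δ z then 0 else 1)
  have e2 : nug t r W ρ Δ = ∑ z, dg t z * (if UG t r W ρ Δ z then 0 else 1) := by
    unfold nug
    refine Finset.sum_congr rfl fun z _ => ?_
    split_ifs <;> simp
  rw [e2, ← e, Finset.card_filter]
  push_cast
  refine Finset.sum_le_sum fun d _ => ?_
  by_cases hu : UG t r W ρ Δ (j (q.tail d))
  · simp [hu, key _ hu]
  · simp only [hu, if_false]
    split_ifs <;> norm_num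

theorem lg_global {n : ℕ} (q : Quad n) (t : Mp) (h : Rep q t) (r : ℕ) (W Δ T : ℝ)
    (hd : MaxDeg t Δ) (hW : ∀ x, ballVol t r x ≤ W) (hT : 0 ≤ T) (hf : ¬ FarV t T)
    (x v : q.Vertex) (hv : r < q.graph.dist x v) : LG q x r W (4 * T ^ 2) Δ := by
  obtain ⟨θ, j, -, -, -, -, hw, hdg, hs, -⟩ := rep_iso q t h
  refine ⟨by rw [zlinkug_ball q t j hw hs]; exact hW _, by rw [hdg]; exact hd _, fun f h0 z => ?_⟩
  have a := rep_res q t h T hT hf f z v
  rwa [h0 v hv, sub_zero] at a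

theorem lg_iso {n : ℕ} (q q' : Quad n) (e : Equiv.Perm (Fin (4 * n)))
    (h1 : ∀ d, e (q.α d) = q'.α (e d)) (h2 : ∀ d, e (q.φ d) = q'.φ (e d)) (d : Fin (4 * n))
    (r : ℕ) (W ρ Δ : ℝ) (h : LG q' (q'.tail (e d)) r W ρ Δ) : LG q (q.tail d) r W ρ Δ := by
  classical
  obtain ⟨a, b, c⟩ := h
  rw [← xreroot_tail q q' e h1 h2] at a b c
  have hd : ∀ x y, q'.graph.dist (xrerootV q q' e h1 h2 x) (xrerootV q q' e h1 h2 y)
      = q.graph.dist x y := fun x y => xreroot_dist (xrerootG q q' e h1 h2) x y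
  refine ⟨?_, ?_, fun f hf z => ?_⟩
  · refine le_trans (le_of_eq ?_) a
    rw [yBall, yBall, yVol, yVol]
    refine Fintype.sum_equiv e _ _ fun c => ?_
    simp only [yInd, ← xreroot_tail q q' e h1 h2, hd]
    congr
  · rwa [xreroot_out, Finset.card_map] at b
  · have a := c (fun y => f ((xrerootV q q' e h1 h2).symm y)) (fun y hy => hf _ (by
      rw [← hd]; simpa using hy)) (xrerootV q q' e h1 h2 z)
    rw [← Equiv.sum_comp e] at a
    simpa only [← xreroot_tail q q' e h1 h2, ← xreroot_head q q' e h1 h2,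
      Equiv.symm_apply_apply] using a

end Pool.Agent.P.MP_7a6434d8_pr
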