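import Pool.Agent.P.MP_7a6434d8_pr.ZSkelTail
import Pool.Agent.P.MP_7a6434d8_pr.ZCtx

namespace Pool.Agent.P.MP_7a6434d8_pr

open Mp Finset
open scoped ENNReal

/-- the slowly growing weight -/
noncomputable def zskel_psi (κ m x : ℝ) : ℝ := κ * (2 - √(√(√(m / max x (m / 2)))))

/-- the thirty-second root of `e / m` -/
noncomputable def zskel_u (m e : ℝ) : ℝ := √(√(√(√(√(e / m)))))

theorem zskel_psi_mono {κ m : ℝ} (hκ : 0 ≤ κ) (hm : 0 < m) : Monotone (zskel_psi κ m) := by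
  intro x y hxy
  unfold zskel_psi
  have h1 : m / max y (m / 2) ≤ m / max x (m / 2) :=
    div_le_div_of_nonneg_left hm.le (lt_of_lt_of_le (by positivity) (le_max_right _ _))
      (max_le_max_right _ hxy)
  have h2 := Real.sqrt_le_sqrt (Real.sqrt_le_sqrt (Real.sqrt_le_sqrt h1))
  exact mul_le_mul_of_nonneg_left (by linarith) hκ

theorem zskel_sqrt_le_two {x : ℝ} (hx : x ≤ 2) : √x ≤ 2 := by
  rw [Real.sqrt_le_iff]
  constructor <;> linarith

theorem zskel_psi_nonneg {κ m : ℝ} (hκ : 0 ≤ κ) (hm : 0 < m) (x : ℝ) : 0 ≤ zskel_psi κ m x := by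
  unfold zskel_psi
  have h0 : 0 < max x (m / 2) := lt_of_lt_of_le (by positivity) (le_max_right _ _)
  have h1 : m / max x (m / 2) ≤ 2 := by
    rw [div_le_iff₀ h0]
    have := le_max_right x (m / 2)
    linarith
  have h2 := zskel_sqrt_le_two (zskel_sqrt_le_two (zskel_sqrt_le_two h1))
  exact mul_nonneg hκ (by linarith)

theorem zskel_psi_le {κ : ℝ} (hκ : 0 ≤ κ) (m x : ℝ) : zskel_psi κ m x ≤ 2 * κ := by
  unfold zskel_psi
  have := Real.sqrt_nonneg (√(√(m / max x (m / 2))))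
  nlinarith

theorem zskel_root8 {x : ℝ} (hx : 0 ≤ x) : √(√(√(x ^ 8))) = x := by
  have h1 : √(x ^ 8) = x ^ 4 := by
    rw [show x ^ 8 = (x ^ 4) ^ 2 by ring]; exact Real.sqrt_sq (by positivity)
  have h2 : √(x ^ 4) = x ^ 2 := by
    rw [show x ^ 4 = (x ^ 2) ^ 2 by ring]; exact Real.sqrt_sq (by positivity)
  rw [h1, h2, Real.sqrt_sq hx]

theorem zskel_u_one {m e : ℝ} (hm : 0 < m) (he : m ≤ e) : 1 ≤ zskel_u m e := by
  unfold zskel_u
  have h : 1 ≤ e / m := by rw [le_div_iff₀ hm]; linarith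
  simpa only [Real.one_le_sqrt] using h

theorem zskel_u_pow {m e : ℝ} (hm : 0 < m) (he : m ≤ e) : m * zskel_u m e ^ 32 = e := by
  unfold zskel_u
  have h : 0 ≤ e / m := div_nonneg (by linarith) hm.le
  have h5 : ∀ x : ℝ, x ^ 32 = ((((x ^ 2) ^ 2) ^ 2) ^ 2) ^ 2 := fun x => by ring
  rw [h5, Real.sq_sqrt (Real.sqrt_nonneg _), Real.sq_sqrt (Real.sqrt_nonneg _),
    Real.sq_sqrt (Real.sqrt_nonneg _), Real.sq_sqrt (Real.sqrt_nonneg _), Real.sq_sqrt h]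
  field_simp

theorem zskel_psi_diff {κ m e : ℝ} (hκ : 0 ≤ κ) (hm : 0 < m) (he : m ≤ e) :
    κ * m * zskel_u m e ^ 28 / 12 ≤ e * (zskel_psi κ m e - zskel_psi κ m (e / 2)) := by
  have hu := zskel_u_one hm he
  have hp := zskel_u_pow hm he
  set u := zskel_u m e with hudef
  have hu0 : 0 < u := by linarith
  have he0 : 0 < e := by linarith
  unfold zskel_psi
  rw [max_eq_left (by linarith : m / 2 ≤ e), max_eq_left (by linarith : m / 2 ≤ e / 2)]
  have h1 : m / e = ((u ^ 4)⁻¹) ^ 8 := by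
    rw [← hp]; field_simp
  have h2 : (13 / 12 * (u ^ 4)⁻¹) ^ 8 ≤ m / (e / 2) := by
    have h3 : m / (e / 2) = 2 * (m / e) := by field_simp
    rw [h3, h1, mul_pow]
    exact mul_le_mul_of_nonneg_right (by norm_num) (by positivity)
  have h4 := Real.sqrt_le_sqrt (Real.sqrt_le_sqrt (Real.sqrt_le_sqrt h2))
  rw [zskel_root8 (by positivity)] at h4
  rw [h1, zskel_root8 (by positivity)]
  have h5 : κ * m * u ^ 28 / 12 = e * (κ * ((u ^ 4)⁻¹ / 12)) := by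
    rw [← hp]; field_simp
  rw [h5]
  refine mul_le_mul_of_nonneg_left ?_ he0.le
  rw [← mul_sub]
  exact mul_le_mul_of_nonneg_left (by linarith) hκ

theorem zskel_cond {c G a m e : ℝ} (hc : 0 < c) (hG : (192 / c) ^ 2 ≤ G) (ha : 0 ≤ a)
    (hm : 0 < m) (he : m ≤ e) :
    G * zskel_u m e * √(√a) * ((2 * (G * zskel_u m e) * √e) * √(2 * (G * zskel_u m e) * √e))
      ≤ c * (G ^ 3 * √(√(a / m)) / 4 * m * zskel_u m e ^ 28 / 12) := by
  have hu := zskel_u_one hm he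
  have hp := zskel_u_pow hm he
  generalize zskel_u m e = u at hu hp ⊢
  have hu0 : 0 < u := by linarith
  have hG0 : 0 ≤ G := le_trans (by positivity) hG
  obtain ⟨s, hs0, rfl⟩ : ∃ s : ℝ, 0 ≤ s ∧ G = s ^ 2 :=
    ⟨√G, Real.sqrt_nonneg _, (Real.sq_sqrt hG0).symm⟩
  have hs : 192 / c ≤ s := (pow_le_pow_iff_left₀ (by positivity) hs0 two_ne_zero).1 hG
  have hs' : 192 ≤ c * s := by rw [div_le_iff₀ hc] at hs; linarith
  obtain ⟨μ, hμ0, rfl⟩ : ∃ μ : ℝ, 0 < μ ∧ m = μ ^ 4 := by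
    refine ⟨√(√m), Real.sqrt_pos.2 (Real.sqrt_pos.2 hm), ?_⟩
    rw [show √(√m) ^ 4 = (√(√m) ^ 2) ^ 2 by ring, Real.sq_sqrt (Real.sqrt_nonneg _),
      Real.sq_sqrt hm.le]
  have h1 : √e = μ ^ 2 * u ^ 16 := by
    rw [← hp, show μ ^ 4 * u ^ 32 = (μ ^ 2 * u ^ 16) ^ 2 by ring]
    exact Real.sqrt_sq (by positivity)
  have h2 : √(√(a / μ ^ 4)) = √(√a) / μ := by
    rw [Real.sqrt_div ha, Real.sqrt_div (Real.sqrt_nonneg _),
      show μ ^ 4 = (μ ^ 2) ^ 2 by ring, Real.sqrt_sq (by positivity), Real.sqrt_sq hμ0.le]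
  have h3 : √(2 * (s ^ 2 * u) * (μ ^ 2 * u ^ 16)) ≤ 2 * s * μ * u ^ 9 := by
    rw [Real.sqrt_le_iff]
    refine ⟨by positivity, ?_⟩
    have h4 : 0 ≤ s ^ 2 * μ ^ 2 * u ^ 17 := by positivity
    have h5 : (2 * s * μ * u ^ 9) ^ 2 = 4 * u * (s ^ 2 * μ ^ 2 * u ^ 17) := by ring
    have h6 : 2 * (s ^ 2 * u) * (μ ^ 2 * u ^ 16) = 2 * (s ^ 2 * μ ^ 2 * u ^ 17) := by ring
    rw [h5, h6]
    exact mul_le_mul_of_nonneg_right (by linarith) h4
  rw [h1, h2]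
  have hb : 0 ≤ √(√a) := Real.sqrt_nonneg _
  set b := √(√a)
  calc s ^ 2 * u * b * (2 * (s ^ 2 * u) * (μ ^ 2 * u ^ 16) * √(2 * (s ^ 2 * u) * (μ ^ 2 * u ^ 16)))
      ≤ s ^ 2 * u * b * (2 * (s ^ 2 * u) * (μ ^ 2 * u ^ 16) * (2 * s * μ * u ^ 9)) := by gcongr
    _ = 192 * 1 * (s ^ 5 * b * μ ^ 3 * u ^ 27 / 48) := by ring
    _ ≤ c * s * u * (s ^ 5 * b * μ ^ 3 * u ^ 27 / 48) := by gcongr
    _ = c * ((s ^ 2) ^ 3 * (b / μ) / 4 * μ ^ 4 * u ^ 28 / 12) := by field_simp; ring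

theorem zskel_term {C G m e : ℝ} (hC : 0 ≤ C) (hG : 5632 ≤ G) (hm : 1 ≤ m) (he : m ≤ e) :
    (e + 1) ^ 6 * (C * (e + 1) ^ 3 * Real.exp (-(G * zskel_u m e / 8)))
      ≤ C * (2 * m) ^ 11 * Real.exp (-(G / 16)) * (1 / (e + 1) ^ 2) := by
  have hm0 : 0 < m := by linarith
  have hu := zskel_u_one hm0 he
  have hp := zskel_u_pow hm0 he
  set u := zskel_u m e with hudef
  have he1 : 0 < e + 1 := by linarith
  have h1 : (e + 1) ^ 11 ≤ (2 * m) ^ 11 * u ^ 352 := by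
    have : e + 1 ≤ 2 * m * u ^ 32 := by rw [mul_assoc, hp]; linarith
    calc (e + 1) ^ 11 ≤ (2 * m * u ^ 32) ^ 11 := by gcongr
      _ = (2 * m) ^ 11 * u ^ 352 := by rw [mul_pow, ← pow_mul]
  have h2 : u ^ 352 ≤ Real.exp (G * u / 16) := by
    have h3 : u ≤ Real.exp u := by linarith [Real.add_one_le_exp u]
    calc u ^ 352 ≤ Real.exp u ^ 352 := by gcongr
      _ = Real.exp (352 * u) := by rw [← Real.exp_nat_mul]; norm_num
      _ ≤ Real.exp (G * u / 16) := Real.exp_le_exp.2 (by nlinarith)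
  have h4 : Real.exp (G * u / 16) * Real.exp (-(G * u / 8)) ≤ Real.exp (-(G / 16)) := by
    rw [← Real.exp_add]
    exact Real.exp_le_exp.2 (by nlinarith)
  have hx := Real.exp_pos (-(G * u / 8))
  rw [mul_one_div, le_div_iff₀ (by positivity)]
  calc (e + 1) ^ 6 * (C * (e + 1) ^ 3 * Real.exp (-(G * u / 8))) * (e + 1) ^ 2
      = C * ((e + 1) ^ 11 * Real.exp (-(G * u / 8))) := by ring
    _ ≤ C * ((2 * m) ^ 11 * Real.exp (G * u / 16) * Real.exp (-(G * u / 8))) := by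
        refine mul_le_mul_of_nonneg_left (mul_le_mul_of_nonneg_right (h1.trans ?_) hx.le) hC
        exact mul_le_mul_of_nonneg_left h2 (by positivity)
    _ = C * (2 * m) ^ 11 * (Real.exp (G * u / 16) * Real.exp (-(G * u / 8))) := by ring
    _ ≤ C * (2 * m) ^ 11 * Real.exp (-(G / 16)) :=
        mul_le_mul_of_nonneg_left h4 (by positivity)

theorem zskel_basel (n : ℕ) : ∑ e ∈ range n, 1 / ((e : ℝ) + 1) ^ 2 ≤ 2 - 2 / ((n : ℝ) + 1) := by
  induction n with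
  | zero => simp
  | succ n ih =>
    rw [sum_range_succ]
    have hn : (0 : ℝ) ≤ n := Nat.cast_nonneg n
    have h : 1 / ((n : ℝ) + 1) ^ 2 + 2 / ((n : ℝ) + 1 + 1) ≤ 2 / ((n : ℝ) + 1) := by
      rw [div_add_div _ _ (by positivity) (by positivity), div_le_div_iff₀ (by positivity)
        (by positivity)]
      nlinarith [mul_nonneg hn hn]
    push_cast
    linarith

theorem skel_sum (A : ℕ) : ∃ G0 : ℕ, ∀ G : ℕ, G0 ≤ G → ∀ m m1 : ℕ, 2 * m1 + 1 ≤ m → m ≤ G ^ A →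
    ∀ N : ℕ, ∑ t ∈ countaT 2 N, (skel m m1 t : ℝ)
      ≤ ((G : ℝ) ^ 3 * √(√(((m1 : ℝ) + 1) / m)) + 1 / G) * ((N : ℝ) + 1)
        * cnt 2 N (fun _ => True) := by
  obtain ⟨c, C, hc, hC, htail⟩ := skel_tail
  obtain ⟨G1, hG1⟩ := xpiece_ev (40 * C * 2 ^ 11) (1 / 16) (by norm_num) (11 * A + 1)
  obtain ⟨G2, hG2⟩ := exists_nat_ge ((192 / c) ^ 2)
  refine ⟨max G1 (max G2 5632), fun G hG m m1 hm hmG N => ?_⟩
  have hGa : G1 ≤ G := le_trans (le_max_left _ _) hG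
  have hGb : (192 / c) ^ 2 ≤ (G : ℝ) := hG2.trans (by
    exact_mod_cast le_trans (le_trans (le_max_left _ _) (le_max_right _ _)) hG)
  have hGc : (5632 : ℝ) ≤ G := by
    exact_mod_cast le_trans (le_trans (le_max_right _ _) (le_max_right _ _)) hG
  have hG0 : (0 : ℝ) < G := by linarith
  have hm1 : (1 : ℝ) ≤ m := by exact_mod_cast (by omega : 1 ≤ m)
  have hm0 : (0 : ℝ) < m := by linarith
  set κ : ℝ := (G : ℝ) ^ 3 * √(√(((m1 : ℝ) + 1) / m)) / 4 with hκdef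
  have hκ : 0 ≤ κ := by positivity
  set E : Mp → Prop := fun s => m < edges s ∧
    edges s * (zskel_psi κ m (edges s) - zskel_psi κ m ((edges s : ℝ) / 2)) < (pc2 m1 s : ℝ)
    with hE
  set p : ℕ → ℝ := fun e =>
    if m < e then C * ((e : ℝ) + 1) ^ 3 * Real.exp (-(G * zskel_u m e / 8)) else 0 with hpdef
  set K : ℝ := C * (2 * m) ^ 11 * Real.exp (-((G : ℝ) / 16)) with hK
  have hK0 : 0 ≤ K := by positivity
  have hp : ∀ e, 0 ≤ p e := fun e => by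
    simp only [hpdef]
    split_ifs
    · positivity
    · exact le_rfl
  have hmass : ∀ L e, mass L (fun s => E s ∧ edges s = e) ≤ p e * Z L := by
    intro L e
    simp only [hpdef]
    split_ifs with hme
    · have hme' : (m : ℝ) ≤ e := by exact_mod_cast hme.le
      have hu := zskel_u_one hm0 hme'
      refine le_trans (mass_mono ?_) (htail m1 e L (G * zskel_u m e)
        (κ * m * zskel_u m e ^ 28 / 12) (by nlinarith) (by omega)
        (zskel_cond hc hGb (by positivity) hm0 hme'))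
      rintro t - - ⟨⟨-, h2⟩, h3⟩
      refine ⟨h3, ?_⟩
      rw [h3] at h2
      exact (zskel_psi_diff hκ hm0 hme').trans h2.le
    · rw [zero_mul]
      refine (mass_eq_zero ?_).le
      rintro t - - ⟨⟨h1, -⟩, h3⟩
      exact hme (h3 ▸ h1)
  have hβ : ∀ n, ∑ e ∈ range n, ((e : ℝ) + 1) ^ 6 * p e ≤ 2 * K := by
    intro n
    have h1 : ∀ e ∈ range n, ((e : ℝ) + 1) ^ 6 * p e ≤ K * (1 / ((e : ℝ) + 1) ^ 2) := by
      intro e _
      simp only [hpdef]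
      split_ifs with hme
      · exact zskel_term hC.le hGc hm1 (by exact_mod_cast hme.le)
      · rw [mul_zero]; positivity
    refine (sum_le_sum h1).trans ?_
    rw [← mul_sum, mul_comm 2 K]
    refine mul_le_mul_of_nonneg_left ((zskel_basel n).trans ?_) hK0
    have : (0 : ℝ) ≤ 2 / ((n : ℝ) + 1) := by positivity
    linarith
  have hctx := ctx_bound E p (2 * K) hp hmass hβ N
  have hKG : 40 * K ≤ 1 / G := by
    have h1 := hG1 G hGa
    have h2 : (m : ℝ) ≤ (G : ℝ) ^ A := by exact_mod_cast hmG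
    have h3 : (2 * (m : ℝ)) ^ 11 ≤ 2 ^ 11 * (G : ℝ) ^ (11 * A) := by
      calc (2 * (m : ℝ)) ^ 11 ≤ (2 * (G : ℝ) ^ A) ^ 11 := by gcongr
        _ = 2 ^ 11 * (G : ℝ) ^ (11 * A) := by rw [mul_pow, ← pow_mul, mul_comm A]
    have h4 : Real.exp (1 / 16 * G) * Real.exp (-((G : ℝ) / 16)) = 1 := by
      rw [← Real.exp_add]; simp only [Real.exp_eq_one_iff]; ring
    have hx := Real.exp_pos (-((G : ℝ) / 16))
    rw [le_div_iff₀ hG0]
    calc 40 * K * G = 40 * C * (2 * (m : ℝ)) ^ 11 * G * Real.exp (-((G : ℝ) / 16)) := by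
          rw [hK]; ring
      _ ≤ 40 * C * (2 ^ 11 * (G : ℝ) ^ (11 * A)) * G * Real.exp (-((G : ℝ) / 16)) := by gcongr
      _ = 40 * C * 2 ^ 11 * (G : ℝ) ^ (11 * A + 1) * Real.exp (-((G : ℝ) / 16)) := by ring
      _ ≤ Real.exp (1 / 16 * G) * Real.exp (-((G : ℝ) / 16)) := by gcongr
      _ = 1 := h4
  have hpt : ∀ t ∈ countaT 2 N, (skel m m1 t : ℝ) ≤ 4 * κ * ((N : ℝ) + 1) + 2 * badVol E t := by
    intro t ht
    obtain ⟨h1, h2, h3⟩ := (counta_mem 2 N t).1 ht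
    have h4 : (edges t : ℝ) = 2 * N + 2 := by
      rw [counta_edges t h1, h2, h3]; push_cast; ring
    have h5 := skel_le m m1 hm (zskel_psi κ m) (zskel_psi_mono hκ hm0)
      (zskel_psi_nonneg hκ hm0) t
    have h6 : (edges t : ℝ) * zskel_psi κ m (edges t) ≤ edges t * (2 * κ) :=
      mul_le_mul_of_nonneg_left (zskel_psi_le hκ _ _) (Nat.cast_nonneg _)
    have h7 : (edges t : ℝ) * (2 * κ) = 4 * κ * ((N : ℝ) + 1) := by rw [h4]; ring
    linarith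
  refine (sum_le_sum hpt).trans ?_
  rw [sum_add_distrib, sum_const, ← mul_sum, nsmul_eq_mul, ← counta_cnt_true]
  have hcnt : (0 : ℝ) ≤ ((N : ℝ) + 1) * cnt 2 N (fun _ => True) := by positivity
  have h8 := mul_le_mul_of_nonneg_right hKG hcnt
  have h9 : (G : ℝ) ^ 3 * √(√(((m1 : ℝ) + 1) / m)) = 4 * κ := by rw [hκdef]; ring
  rw [h9]
  nlinarith

end Pool.Agent.P.MP_7a6434d8_pr
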