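import Pool.Agent.P.MP_7a6434d8_pr.ZBase
import Pool.Agent.P.MP_7a6434d8_pr.BasicB

namespace Pool.Agent.P.MP_7a6434d8_pr

open Mp Finset
open scoped ENNReal

/-- a well behaved vertex of a child stays well behaved in the parent -/
theorem zug_lift {c P : Mp} (e : V c → V P) (he : Function.Injective e)
    (hnew : ∀ y z, adj P (e y) z →
      (∃ p, p ≤ 2 * per c ∧ y = bv c p) ∨ ∃ z', z = e z' ∧ adj c y z')
    (hdg : ∀ y, (∀ p, p ≤ 2 * per c → y ≠ bv c p) → dg P (e y) ≤ dg c y)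
    (hbv : ∀ p, p ≤ 2 * per P → ∀ y, bv P p = e y → ∃ p', p' ≤ 2 * per c ∧ y = bv c p')
    (hen : ∀ f : V P → ℝ, energy c (fun y => f (e y)) ≤ energy P f)
    {r : ℕ} {W ρ Δ : ℝ} (hρ : 0 ≤ ρ) {x : V c} (h : UG c r W ρ Δ x) : UG P r W ρ Δ (e x) := by
  classical
  obtain ⟨h1, h2, h3, h4⟩ := h
  have key : ∀ k, k ≤ r → ∀ z, Within P k (e x) z → ∃ y, z = e y ∧ Within c k x y := by
    intro k
    induction k with
    | zero => exact fun _ z hz => ⟨x, Eq.symm hz, rfl⟩
    | succ k ih =>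
      intro hk z hz
      rcases hz with hz | ⟨u, hu, ha⟩
      · obtain ⟨y, rfl, hy⟩ := ih (by omega) z hz
        exact ⟨y, rfl, Or.inl hy⟩
      · obtain ⟨y, rfl, hy⟩ := ih (by omega) u hu
        rcases hnew y z ha with ⟨p, hp, rfl⟩ | ⟨z', rfl, hz'⟩
        · exact absurd (hy.mono (by omega)) (h1 p hp)
        · exact ⟨z', rfl, Or.inr ⟨y, hy, hz'⟩⟩
  have key' : ∀ y, Within P r (e x) (e y) → Within c r x y := fun y hy => by
    obtain ⟨y', h5, h6⟩ := key r le_rfl _ hy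
    rwa [he h5]
  have hin : ∀ y, Within c r x y → dg P (e y) ≤ dg c y := fun y hy =>
    hdg y fun p hp hyp => h1 p hp (hyp ▸ hy)
  refine ⟨fun p hp hw => ?_, le_trans ?_ h2, (hin x (Within.refl _ _ _)).trans h3,
    fun f hf z => ?_⟩
  · obtain ⟨y, h5, h6⟩ := key r le_rfl _ hw
    obtain ⟨p', hp', rfl⟩ := hbv p hp y h5
    exact h1 p' hp' h6
  · unfold ballVol
    rw [← Fintype.sum_of_injective e he
      (fun y => if Within P r (e x) (e y) then dg P (e y) else 0) _ (fun z hz => by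
        rw [if_neg]
        intro hw
        obtain ⟨y, h5, -⟩ := key r le_rfl _ hw
        exact hz ⟨y, h5.symm⟩) (fun _ => rfl)]
    refine Finset.sum_le_sum fun y _ => ?_
    by_cases hw : Within P r (e x) (e y)
    · rw [if_pos hw, if_pos (key' y hw)]
      exact hin y (key' y hw)
    · rw [if_neg hw]
      split_ifs
      · exact dg_nonneg _ _
      · exact le_rfl
  · by_cases hw : Within P r (e x) z
    · obtain ⟨y, rfl, -⟩ := key r le_rfl _ hw
      exact (h4 (fun y => f (e y)) (fun y' hy' => hf _ fun h5 => hy' (key' y' h5)) y).trans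
        (mul_le_mul_of_nonneg_left (hen f) hρ)
    · rw [hf z hw]
      simpa using mul_nonneg hρ (energy_nonneg P f)

theorem zug_face {t : Mp} (ht : ok (face t)) {r : ℕ} {W ρ Δ : ℝ} (hρ : 0 ≤ ρ) {x : V t}
    (h : UG t r W ρ Δ x) : UG (face t) r W ρ Δ x := by
  have h2 : 2 ≤ per t := ht.2
  refine zug_lift (c := t) (P := face t) id Function.injective_id ?_ ?_ ?_ ?_ hρ h
  · rintro y z (ha | ⟨hy, -⟩ | ⟨hy, -⟩)
    · exact Or.inr ⟨z, rfl, ha⟩
    · exact Or.inl ⟨0, by omega, hy⟩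
    · exact Or.inl ⟨3, by omega, hy⟩
  · intro y hy
    have := dg_face_le t y
    rw [if_neg (hy 0 (by omega)), if_neg (hy 3 (by omega)), add_zero, add_zero] at this
    exact this
  · intro p hp y hy
    have hp' : p ≤ 2 * (per t - 1) := hp
    by_cases h0 : p = 0
    · exact ⟨0, by omega, by rw [h0] at hy; exact hy.symm⟩
    · refine ⟨p + 2, by omega, ?_⟩
      have : bv (face t) p = bv t (p + 2) := if_neg h0
      exact hy.symm.trans this
  · exact fun f => le_add_of_nonneg_right (sq_nonneg _)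

theorem zug_inl {s t : Mp} {r : ℕ} {W ρ Δ : ℝ} (hρ : 0 ≤ ρ) {x : V s}
    (h : UG s r W ρ Δ x) : UG (bridge s t) r W ρ Δ (Sum.inl x) := by
  refine zug_lift (c := s) (P := bridge s t) Sum.inl Sum.inl_injective ?_ ?_ ?_ ?_ hρ h
  · rintro y (z | z) ha
    · exact Or.inr ⟨z, rfl, ha⟩
    · exact Or.inl ⟨0, by omega, ha.1⟩
  · intro y hy
    have := dg_inl s t y
    rw [if_neg (hy 0 (by omega)), add_zero] at this
    exact this.le
  · intro p hp y hy
    have hp' : p ≤ 2 * (per s + per t + 1) := hp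
    simp only [bv] at hy
    split_ifs at hy with h0 h1
    · exact ⟨0, by omega, (Sum.inl.inj hy).symm⟩
    · exact ⟨p - 2 * per t - 2, by omega, (Sum.inl.inj hy).symm⟩
  · exact fun f => le_add_of_le_of_nonneg (le_add_of_nonneg_right (energy_nonneg _ _))
      (sq_nonneg _)

theorem zug_inr {s t : Mp} {r : ℕ} {W ρ Δ : ℝ} (hρ : 0 ≤ ρ) {x : V t}
    (h : UG t r W ρ Δ x) : UG (bridge s t) r W ρ Δ (Sum.inr x) := by
  refine zug_lift (c := t) (P := bridge s t) Sum.inr Sum.inr_injective ?_ ?_ ?_ ?_ hρ h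
  · rintro y (z | z) ha
    · exact Or.inl ⟨0, by omega, ha.1⟩
    · exact Or.inr ⟨z, rfl, ha⟩
  · intro y hy
    have := dg_inr s t y
    rw [if_neg (hy 0 (by omega)), add_zero] at this
    exact this.le
  · intro p hp y hy
    simp only [bv] at hy
    split_ifs at hy with h0 h1
    exact ⟨p - 1, by omega, (Sum.inr.inj hy).symm⟩
  · exact fun f => le_add_of_le_of_nonneg (le_add_of_nonneg_left (energy_nonneg _ _))
      (sq_nonneg _)

open Classical in
theorem zug_sum_ind {α : Type} [Fintype α] (a : α) : ∑ x, (if x = a then (1 : ℝ) else 0) = 1 := by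
  simp

open Classical in
theorem zug_term {p q : Prop} (h : q → p) {a b c : ℝ} (hc : 0 ≤ c) (hab : a ≤ b + c) :
    (if p then 0 else a) ≤ (if q then 0 else b) + c ∨ (p ∧ ¬ q) := by
  by_cases hp : p
  · by_cases hq : q
    · left
      rw [if_pos hp, if_pos hq, zero_add]
      exact hc
    · exact Or.inr ⟨hp, hq⟩
  · left
    rw [if_neg hp, if_neg fun hq => hp (h hq)]
    exact hab

open Classical in
theorem zug_term' {p q : Prop} (h : q → p) {a b c : ℝ} (hb : 0 ≤ b) (hc : 0 ≤ c)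
    (hab : a ≤ b + c) : (if p then 0 else a) ≤ (if q then 0 else b) + c := by
  rcases zug_term h hc hab with h1 | ⟨hp, hq⟩
  · exact h1
  · rw [if_pos hp, if_neg hq]
    exact add_nonneg hb hc

theorem nug_face {t : Mp} (ht : ok (face t)) (r : ℕ) (W ρ Δ : ℝ) (hρ : 0 ≤ ρ) :
    nug (face t) r W ρ Δ ≤ nug t r W ρ Δ + 2 := by
  classical
  have h1 : nug (face t) r W ρ Δ ≤ ∑ x : V t, ((if UG t r W ρ Δ x then 0 else dg t x) +
      ((if x = bv t 0 then (1 : ℝ) else 0) + (if x = bv t 3 then 1 else 0))) := by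
    refine Finset.sum_le_sum fun x _ => zug_term' (zug_face ht hρ) (dg_nonneg _ _)
      (by positivity) ?_
    rw [← add_assoc]
    exact dg_face_le t x
  rw [Finset.sum_add_distrib, Finset.sum_add_distrib, zug_sum_ind, zug_sum_ind] at h1
  refine h1.trans (le_of_eq ?_)
  unfold nug
  norm_num

theorem nug_bridge {s t : Mp} (ht : ok (bridge s t)) (r : ℕ) (W ρ Δ : ℝ) (hρ : 0 ≤ ρ) :
    nug (bridge s t) r W ρ Δ ≤ nug s r W ρ Δ + nug t r W ρ Δ + 2 := by
  classical
  have h0 : nug (bridge s t) r W ρ Δ =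
      ∑ x : V s, (if UG (bridge s t) r W ρ Δ (Sum.inl x) then 0 else dg (bridge s t) (Sum.inl x)) +
      ∑ x : V t, (if UG (bridge s t) r W ρ Δ (Sum.inr x) then 0
        else dg (bridge s t) (Sum.inr x)) :=
    Fintype.sum_sum_type (α₁ := V s) (α₂ := V t)
      (fun x => if UG (bridge s t) r W ρ Δ x then 0 else dg (bridge s t) x)
  have h1 : ∑ x : V s, (if UG (bridge s t) r W ρ Δ (Sum.inl x) then 0
      else dg (bridge s t) (Sum.inl x)) ≤ ∑ x : V s, ((if UG s r W ρ Δ x then 0 else dg s x) +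
      (if x = bv s 0 then (1 : ℝ) else 0)) :=
    Finset.sum_le_sum fun x _ => zug_term' (zug_inl hρ) (dg_nonneg _ _) (by positivity)
      (dg_inl s t x).le
  have h2 : ∑ x : V t, (if UG (bridge s t) r W ρ Δ (Sum.inr x) then 0
      else dg (bridge s t) (Sum.inr x)) ≤ ∑ x : V t, ((if UG t r W ρ Δ x then 0 else dg t x) +
      (if x = bv t 0 then (1 : ℝ) else 0)) :=
    Finset.sum_le_sum fun x _ => zug_term' (zug_inr hρ) (dg_nonneg _ _) (by positivity)
      (dg_inr s t x).le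
  rw [Finset.sum_add_distrib, zug_sum_ind] at h1 h2
  rw [h0]
  unfold nug
  linarith

theorem nug_all (s : Mp) (r : ℕ) (W ρ Δ : ℝ) : nug s r W ρ Δ ≤ 2 * edges s := by
  refine le_trans (Finset.sum_le_sum fun x _ => ?_) (sum_dg_le s)
  split_ifs
  · exact dg_nonneg _ _
  · exact le_rfl

theorem zug_res {s : Mp} {T : ℝ} (hf : ¬ FarV s T) (f : V s → ℝ) (h0 : f (bv s 0) = 0) (x : V s) :
    f x ^ 2 ≤ T ^ 2 * energy s f := by
  by_contra hc
  push Not at hc
  have h1 : 0 ≤ T ^ 2 * energy s f := mul_nonneg (sq_nonneg _) (energy_nonneg _ _)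
  have hδ : 0 < f x ^ 2 := lt_of_le_of_lt h1 hc
  have hδ' : f x ≠ 0 := fun h => by simp [h] at hδ
  refine hf ⟨fun y => T / f x * f y, x, ?_, by simp [h0], (div_mul_cancel₀ _ hδ').ge⟩
  rw [energy_smul, div_pow, div_mul_eq_mul_div, div_lt_one hδ]
  exact hc

theorem nug_good {s : Mp} {r ℓ : ℕ} {W ρ Δ T : ℝ} (hℓ : per s ≤ ℓ) (hd : MaxDeg s Δ)
    (hW : ∀ x, ballVol s r x ≤ W) (hT : 0 ≤ T) (hf : ¬ FarV s T) (hρ : T ^ 2 ≤ ρ) :
    nug s r W ρ Δ ≤ (2 * (ℓ : ℝ) + 1) * W := by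
  classical
  have hnn : ∀ (p : Prop) [Decidable p] (x : V s), 0 ≤ if p then dg s x else 0 := by
    intro p _ x
    split_ifs
    · exact dg_nonneg _ _
    · exact le_rfl
  have hW0 : 0 ≤ W := le_trans (Finset.sum_nonneg fun x _ => hnn _ x) (hW (bv s 0))
  have h1 : nug s r W ρ Δ ≤ ∑ x : V s, ∑ p ∈ range (2 * per s + 1),
      if Within s r (bv s p) x then dg s x else 0 := by
    refine Finset.sum_le_sum fun x _ => ?_
    by_cases hx : ∃ p, p ≤ 2 * per s ∧ Within s r x (bv s p)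
    · obtain ⟨p, hp, hw⟩ := hx
      refine le_trans ?_ (Finset.single_le_sum (f := fun p =>
        if Within s r (bv s p) x then dg s x else 0) (fun p _ => hnn _ x)
        (Finset.mem_range.mpr (Nat.lt_succ_of_le hp)))
      rw [if_pos hw.symm]
      split_ifs
      · exact dg_nonneg _ _
      · exact le_rfl
    · have hx' : ∀ p, p ≤ 2 * per s → ¬ Within s r x (bv s p) := fun p hp hw => hx ⟨p, hp, hw⟩
      rw [if_pos ⟨hx', hW x, hd x, fun f h0 z => (zug_res hf f (h0 _ (hx' 0 (by omega))) z).trans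
        (mul_le_mul_of_nonneg_right hρ (energy_nonneg _ _))⟩]
      exact Finset.sum_nonneg fun p _ => hnn _ x
  rw [Finset.sum_comm] at h1
  refine h1.trans ((Finset.sum_le_sum fun p _ => hW (bv s p)).trans ?_)
  rw [Finset.sum_const, Finset.card_range, nsmul_eq_mul]
  refine mul_le_mul_of_nonneg_right ?_ hW0
  have : (per s : ℝ) ≤ ℓ := by exact_mod_cast hℓ
  push_cast
  linarith

end Pool.Agent.P.MP_7a6434d8_pr
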