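import Pool.Agent.P.MP_7a6434d8_pr.ZUpProb
import Pool.Agent.P.MP_7a6434d8_pr.ZSkel
import Pool.Agent.P.MP_7a6434d8_pr.ZUG
import Pool.Agent.P.MP_7a6434d8_pr.ZLinkUG
import Pool.Agent.P.MP_7a6434d8_pr.ZReroot

namespace Pool.Agent.P.MP_7a6434d8_pr

open Mp Finset
open scoped ENNReal

theorem zgeolarge_beta (R n : ℕ) (hR : 1 ≤ R) :
    ∑ e ∈ range n, ((e : ℝ) + 1) ^ 6 * (if e ≤ R ^ 20 then 1 / (R : ℝ) ^ 142 else 0)
      ≤ 128 / (R : ℝ) ^ 2 := by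
  have hx : (1 : ℝ) ≤ R := by exact_mod_cast hR
  have h1 : (1 : ℝ) ≤ (R : ℝ) ^ 20 := one_le_pow₀ hx
  calc _ = ∑ e ∈ (range n).filter (fun e => e ≤ R ^ 20), ((e : ℝ) + 1) ^ 6 * (1 / (R : ℝ) ^ 142) := by
        rw [sum_filter]
        exact sum_congr rfl fun e _ => by split_ifs <;> simp
    _ ≤ ∑ e ∈ range (R ^ 20 + 1), ((e : ℝ) + 1) ^ 6 * (1 / (R : ℝ) ^ 142) :=
        sum_le_sum_of_subset_of_nonneg
          (fun e he => mem_range.2 (Nat.lt_succ_of_le (mem_filter.1 he).2))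
          fun e _ _ => by positivity
    _ ≤ ∑ _e ∈ range (R ^ 20 + 1), (2 * (R : ℝ) ^ 20) ^ 6 * (1 / (R : ℝ) ^ 142) := by
        refine sum_le_sum fun e he => ?_
        have : (e : ℝ) ≤ (R : ℝ) ^ 20 := by exact_mod_cast Nat.lt_succ_iff.1 (mem_range.1 he)
        have : (e : ℝ) + 1 ≤ 2 * (R : ℝ) ^ 20 := by linarith
        gcongr
    _ = ((R : ℝ) ^ 20 + 1) * ((2 * (R : ℝ) ^ 20) ^ 6 * (1 / (R : ℝ) ^ 142)) := by
        rw [sum_const, card_range, nsmul_eq_mul]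
        push_cast
        rfl
    _ ≤ (2 * (R : ℝ) ^ 20) * ((2 * (R : ℝ) ^ 20) ^ 6 * (1 / (R : ℝ) ^ 142)) := by
        gcongr
        linarith
    _ = _ := by
        field_simp
        ring

theorem zgeolarge_skel (z : ℝ) (R G : ℕ) (hz : 1 ≤ z) (hR : z ^ 8 = R) (g1 : z ^ 2 ≤ G)
    (g2 : (G : ℝ) ≤ 2 * z ^ 2) :
    (G : ℝ) ^ 3 * √(√((((R ^ 16 : ℕ) : ℝ) + 1) / ((R ^ 20 : ℕ) : ℝ))) + 1 / G ≤ 17 / z ^ 2 := by
  have hz0 : 0 < z := by linarith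
  have hx : (1 : ℝ) ≤ R := hR ▸ one_le_pow₀ hz
  have h1 : √(√((((R ^ 16 : ℕ) : ℝ) + 1) / ((R ^ 20 : ℕ) : ℝ))) ≤ 2 / R := by
    refine Real.sqrt_le_iff.2 ⟨by positivity, Real.sqrt_le_iff.2 ⟨by positivity, ?_⟩⟩
    push_cast
    have : (1 : ℝ) ≤ (R : ℝ) ^ 16 := one_le_pow₀ hx
    calc ((R : ℝ) ^ 16 + 1) / (R : ℝ) ^ 20 ≤ (16 * (R : ℝ) ^ 16) / (R : ℝ) ^ 20 := by
          gcongr
          linarith
      _ = _ := by
          field_simp
          ring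
  calc _ ≤ (2 * z ^ 2) ^ 3 * (2 / R) + 1 / z ^ 2 := by gcongr
    _ = _ := by
        rw [← hR]
        field_simp
        ring

theorem zgeolarge_w (z η : ℝ) (R : ℕ) (hz : 1 ≤ z) (hR : z ^ 8 = R) (hη1 : η ≤ 1 / 2) :
    (2 * ((R ^ 11 : ℕ) : ℝ) + 1) * (R : ℝ) ^ (4 + η) / ((R ^ 16 : ℕ) : ℝ) ≤ 3 / z ^ 2 := by
  have hz0 : 0 < z := by linarith
  have hx : (1 : ℝ) ≤ R := hR ▸ one_le_pow₀ hz
  have h1 : (R : ℝ) ^ (4 + η) ≤ z ^ 36 := by
    calc (R : ℝ) ^ (4 + η) ≤ (R : ℝ) ^ (9 / 2 : ℝ) :=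
          Real.rpow_le_rpow_of_exponent_le hx (by linarith)
      _ = z ^ 36 := by
          rw [← hR, ← Real.rpow_natCast, ← Real.rpow_mul hz0.le, ← Real.rpow_natCast]
          norm_num
  have h2 : (1 : ℝ) ≤ (R : ℝ) ^ 11 := one_le_pow₀ hx
  push_cast
  calc _ ≤ (3 * (R : ℝ) ^ 11) * z ^ 36 / (R : ℝ) ^ 16 := by
        gcongr
        linarith
    _ = 3 / z ^ 4 := by
        rw [← hR]
        field_simp
    _ ≤ _ := by
        gcongr
        norm_num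

theorem geo_large (η : ℝ) (hη : 0 < η) (hη1 : η ≤ 1 / 2) : ∃ R0 : ℕ, ∀ R : ℕ, R0 ≤ R →
    ∀ n : ℕ, R ^ 20 < 2 * n →
    (Nat.card {c : RootedQuad n // ∃ q : Quad n, Quot.mk _ q = c ∧
        ¬ LG q (q.tail q.root) R ((R : ℝ) ^ (4 + η)) (4 * ((R : ℝ) ^ η) ^ 2) ((R : ℝ) ^ η)} : ℝ)
      ≤ (Nat.card (RootedQuad n) : ℝ) / (R : ℝ) ^ (1 / 8 : ℝ) := by
  classical
  obtain ⟨R1, hR1⟩ := up_prob η hη 142
  obtain ⟨G0, hG0⟩ := skel_sum 80
  have h1 : Filter.Tendsto (fun n : ℕ => (n : ℝ) ^ (1 / 8 : ℝ)) Filter.atTop Filter.atTop :=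
    (tendsto_rpow_atTop (by positivity)).comp tendsto_natCast_atTop_atTop
  obtain ⟨R0, hR0⟩ := Filter.eventually_atTop.1 ((h1.eventually_ge_atTop 700).and
    ((h1.eventually_ge_atTop G0).and ((Filter.eventually_ge_atTop R1).and
      (Filter.eventually_ge_atTop 2))))
  refine ⟨R0, fun R hR n hn => ?_⟩
  obtain ⟨e1, e2, e3, e4⟩ := hR0 R hR
  set z := (R : ℝ) ^ (1 / 8 : ℝ) with hz
  have hz1 : 1 ≤ z := by linarith
  have hz0 : 0 < z := by linarith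
  have hx : (2 : ℝ) ≤ R := by exact_mod_cast e4
  have hzR : z ^ 8 = R := by
    rw [hz, ← Real.rpow_natCast, ← Real.rpow_mul (by linarith)]
    norm_num
  have hzz : z ≤ z ^ 2 := le_self_pow₀ hz1 (by norm_num)
  set G := ⌈z ^ 2⌉₊ with hG
  have g1 : z ^ 2 ≤ G := Nat.le_ceil _
  have g2 : (G : ℝ) ≤ 2 * z ^ 2 := by
    have := Nat.ceil_lt_add_one (show 0 ≤ z ^ 2 by positivity)
    linarith
  have g3 : R ^ 20 ≤ G ^ 80 := by
    have : (R : ℝ) ^ 20 ≤ (G : ℝ) ^ 80 := by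
      calc (R : ℝ) ^ 20 = (z ^ 2) ^ 80 := by rw [← hzR]; ring
        _ ≤ _ := by gcongr
    exact_mod_cast this
  have m1 : 1 ≤ R ^ 16 := Nat.one_le_pow _ _ (by omega)
  have m2 : 2 * R ^ 16 + 1 ≤ R ^ 20 := by
    have a1 : 2 ^ 4 ≤ R ^ 4 := Nat.pow_le_pow_left e4 4
    have a2 : R ^ 16 * 2 ^ 4 ≤ R ^ 16 * R ^ 4 := Nat.mul_le_mul_left _ a1
    rw [← pow_add, show 16 + 4 = 20 from rfl] at a2
    omega
  have hn1 : 1 ≤ n := by omega
  have hn' : (0 : ℝ) < n := by exact_mod_cast hn1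
  have hcast : (((n - 1 : ℕ) : ℝ) + 1) = n := by
    rw [Nat.cast_sub hn1]; simp
  set W := (R : ℝ) ^ (4 + η) with hW
  set T := (R : ℝ) ^ η with hT
  have hT0 : 0 ≤ T := by positivity
  set E : Mp → Prop := fun s => edges s ≤ R ^ 20 ∧ ¬ (per s ≤ R ^ 11 ∧ MaxDeg s T ∧
    (∀ x, ballVol s R x ≤ W) ∧ ¬ FarV s T) with hE
  set w : ℝ := (2 * ((R ^ 11 : ℕ) : ℝ) + 1) * W with hw
  have s1 := hG0 G (by exact_mod_cast e2.trans (hzz.trans g1)) (R ^ 20) (R ^ 16) m2 g3 (n - 1)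
  have s2 := ctx_bound E (fun e => if e ≤ R ^ 20 then 1 / (R : ℝ) ^ 142 else 0)
    (128 / (R : ℝ) ^ 2) (fun e => by split_ifs <;> positivity) (fun L e => by
      split_ifs with he
      · exact (mass_mono fun t _ _ h => h.1).trans (hR1 R e3 L)
      · rw [mass_eq_zero fun t _ _ (h : E t ∧ edges t = e) => he (h.2 ▸ h.1.1), zero_mul])
    (fun N => zgeolarge_beta R N (by omega)) (n - 1)
  have s3 := reroot_sum hn1 (fun q d => ¬ LG q (q.tail d) R W (4 * T ^ 2) T)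
    (fun q q' e a1 a2 d hd hd' => hd (lg_iso q q' e a1 a2 d _ _ _ _ hd'))
    (fun t => 2 * skel (R ^ 20) (R ^ 16) t + 2 * badVol E t + w * (2 * n) / (R ^ 16 : ℕ))
    (fun q t hq => by
      have hed : edges t = 2 * n := by
        have := counta_edges t hq.1
        have := hq.2.1
        have := hq.2.2.1
        omega
      have hp := piece_sum (R ^ 20) (R ^ 16) m1 (by omega) w (by positivity) E
        (fun t a => nug t R W (4 * T ^ 2) T ≤ a) (fun t a a' h h' => h.trans h')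
        (fun t a ht h => (nug_face ht _ _ _ _ (by positivity)).trans (by linarith))
        (fun s t a a' ht h h' => (nug_bridge ht _ _ _ _ (by positivity)).trans (by linarith))
        (fun s _ => nug_all s _ _ _ _)
        (fun s _ _ h2 h3 => by
          have h4 : per s ≤ R ^ 11 ∧ MaxDeg s T ∧ (∀ x, ballVol s R x ≤ W) ∧ ¬ FarV s T := by
            by_contra h5
            exact h3 ⟨h2, h5⟩
          exact nug_good h4.1 h4.2.1 h4.2.2.1 hT0 h4.2.2.2 (by nlinarith [sq_nonneg T])) t hq.1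
      have hd : disc (R ^ 16) t = 0 := if_neg (by omega)
      rw [hd, hed] at hp
      push_cast at hp ⊢
      refine le_trans ?_ (le_trans (card_not_lg q t hq R W (4 * T ^ 2) T) (by linarith))
      exact le_of_eq (by congr))
  rw [sum_add_distrib, sum_add_distrib, ← mul_sum, ← mul_sum, sum_const, nsmul_eq_mul,
    ← counta_cnt_true] at s3
  rw [hcast] at s1 s2
  rw [card_rooted n hn1]
  have k1 := zgeolarge_skel z R G hz1 hzR g1 g2
  have k2 := zgeolarge_w z η R hz1 hzR hη1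
  have k3 : 128 / (R : ℝ) ^ 2 ≤ 128 / z ^ 2 := by
    have : z ≤ R := hzR ▸ le_self_pow₀ hz1 (by norm_num)
    gcongr
  have hC : (0 : ℝ) ≤ (cnt 2 (n - 1) fun _ => True : ℝ) := Nat.cast_nonneg _
  generalize (cnt 2 (n - 1) fun _ => True : ℝ) = C at s1 s2 s3 hC ⊢
  generalize (Nat.card {c : RootedQuad n // ∃ q : Quad n, Quot.mk _ q = c ∧
    ¬ LG q (q.tail q.root) R W (4 * T ^ 2) T} : ℝ) = B at s3 ⊢
  have t1 := s1.trans (show _ ≤ 17 / z ^ 2 * n * C by gcongr)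
  have t2 := s2.trans (show _ ≤ 10 * (128 / z ^ 2) * n * C by gcongr)
  have t3 : C * (w * (2 * n) / ((R ^ 16 : ℕ) : ℝ)) ≤ 2 * (3 / z ^ 2) * n * C := by
    calc _ = 2 * (w / ((R ^ 16 : ℕ) : ℝ)) * n * C := by ring
      _ ≤ _ := by gcongr
  have t4 : 4 * n * B ≤ 4 * n * (650 / z / z * C) := by
    have e : 4 * n * (650 / z / z * C) = 2 * (17 / z ^ 2 * n * C)
        + 2 * (10 * (128 / z ^ 2) * n * C) + 2 * (3 / z ^ 2) * n * C := by
      field_simp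
      ring
    rw [e]
    linarith
  refine (le_of_mul_le_mul_left t4 (by positivity)).trans ?_
  have t5 : 650 / z ≤ 1 := by
    rw [div_le_one hz0]
    linarith
  calc 650 / z / z * C ≤ 1 / z * C := by gcongr
    _ = _ := one_div_mul_eq_div _ _


end Pool.Agent.P.MP_7a6434d8_pr
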