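import Pool.Agent.P.MP_7a6434d8_pr.ZLink0
import Pool.Agent.P.MP_7a6434d8_pr.XWalk

namespace Pool.Agent.P.MP_7a6434d8_pr

open Mp Finset
open scoped ENNReal

/-- leaving a set forces a visit to its boundary -/
theorem zlinksep_cmp {n : ℕ} (q : Quad n) (A B C : q.Vertex → Prop)
    (hA : ∀ z, C z → ¬ A z) (hC : ∀ d, C (q.tail d) → B (q.head d) ∨ C (q.head d)) (T : ℕ) :
    ∀ z, B z ∨ C z → (q.walk T z).toOuterMeasure {l | ∃ y ∈ l, A y} ≤
      (q.walk T z).toOuterMeasure {l | ∃ y ∈ l, B y} := by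
  classical
  induction T with
  | zero =>
    intro z hz
    rw [Quad.walk, PMF.toOuterMeasure_pure_apply, PMF.toOuterMeasure_pure_apply]
    rcases hz with hz | hz
    · have : [z] ∈ {l : List q.Vertex | ∃ y ∈ l, B y} := ⟨z, by simp, hz⟩
      rw [if_pos this]
      split_ifs <;> simp
    · have : [z] ∉ {l : List q.Vertex | ∃ y ∈ l, A y} := by
        rintro ⟨y, hy, h⟩
        obtain rfl : y = z := by simpa using hy
        exact hA _ hz h
      rw [if_neg this]
      exact zero_le
  | succ T ih =>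
    intro z hz
    rw [hit_walk_succ, hit_walk_succ]
    refine sum_le_sum fun d hd => mul_le_mul_right ?_ _
    rcases hz with hz | hz
    · exact MeasureTheory.measure_mono fun l _ => ⟨z, by simp, hz⟩
    · have hd' : q.tail d = z := by simpa [Quad.out] using hd
      refine le_trans (MeasureTheory.measure_mono ?_)
        ((ih _ (hC d (hd' ▸ hz))).trans (MeasureTheory.measure_mono ?_))
      · rintro l ⟨y, hy, h⟩
        rcases List.mem_cons.1 hy with rfl | hy
        · exact absurd h (hA _ hz)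
        · exact ⟨y, hy, h⟩
      · rintro l ⟨y, hy, h⟩
        exact ⟨y, List.mem_cons_of_mem _ hy, h⟩

theorem sep2_escape {n : ℕ} (q : Quad n) (t : Mp) (h : Rep q t) (r T : ℕ) (a : ℝ)
    (hs : Sep2 t r T a) (r' : ℝ) (hr : (r : ℝ) ≤ r') :
    ∑ d, q.escape (q.tail d) T r' ≤ ENNReal.ofReal a := by
  classical
  obtain ⟨θ, j, h1, h2, -, -, hdist, -, hsum, hen'⟩ := rep_iso q t h
  obtain ⟨f, hf, -, hK, hW⟩ := hs
  have hw := walk_ineq q (fun x => f (j x)) (fun x => hf _) T
  have hen := hen' f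
  have hE : 0 ≤ energy t f := by
    rw [← hen]; positivity
  have hpt : ∀ d, q.escape (q.tail d) T r' ≤ (if f (j (q.tail d)) = 0 then
      (q.walk T (q.tail d)).toOuterMeasure {l | ∃ y ∈ l, f (j y) = 1} else 0) +
      ENNReal.ofReal (if f (j (q.tail d)) ≠ 0 then 1 else 0) := by
    intro d
    by_cases h0 : f (j (q.tail d)) = 0
    · rw [if_pos h0]
      refine le_trans ?_ le_self_add
      refine zlinksep_cmp q (fun y => r' < (q.graph.dist (q.tail d) y : ℝ))
        (fun y => f (j y) = 1)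
        (fun y => Conn t (fun z => f z ≠ 1) (j (q.tail d)) (j y)) ?_ ?_ T _
        (Or.inr ⟨fun h3 => zero_ne_one (h0.symm.trans h3), .refl⟩)
      · intro z hz
        have : (q.graph.dist (q.tail d) z : ℝ) ≤ r := by
          exact_mod_cast (hdist r _ _).2 (hW _ _ hz)
        exact not_lt.2 (this.trans hr)
      · intro e he
        by_cases h3 : f (j (q.head e)) = 1
        · exact Or.inl h3
        · obtain ⟨e, rfl⟩ := θ.surjective e
          exact Or.inr ⟨he.1, he.2.tail
            ⟨(adj_iff_dart t _ _).2 ⟨e, (h1 e).symm, (h2 e).symm⟩, h3⟩⟩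
    · rw [if_neg h0, if_pos h0, zero_add, ENNReal.ofReal_one]
      exact hit_outer_le_one _ _
  have hcnt : ∑ d, (if f (j (q.tail d)) ≠ 0 then (1 : ℝ) else 0) = wsupp t f := by
    rw [hsum (fun z => if f z ≠ 0 then (1 : ℝ) else 0), wsupp]
    refine sum_congr rfl fun x _ => ?_
    split_ifs <;> simp
  have hnn : ∀ d, 0 ≤ (if f (j (q.tail d)) ≠ 0 then (1 : ℝ) else 0) := fun d => by
    split_ifs <;> norm_num
  refine (sum_le_sum fun d _ => hpt d).trans ?_
  rw [sum_add_distrib, ← ENNReal.ofReal_sum_of_nonneg fun d _ => hnn d]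
  rw [hen] at hw
  refine (add_le_add (le_of_eq_of_le (by congr) hw) le_rfl).trans ?_
  rw [← ENNReal.ofReal_add (by positivity) (sum_nonneg fun d _ => hnn d)]
  refine ENNReal.ofReal_le_ofReal ?_
  linarith

end Pool.Agent.P.MP_7a6434d8_pr
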