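import Pool.Agent.P.MP_7a6434d8_pr.XPiece
import Pool.Agent.P.MP_7a6434d8_pr.XDeg
import Pool.Agent.P.MP_7a6434d8_pr.Level
import Pool.Agent.P.MP_7a6434d8_pr.Asymp
import Pool.Agent.P.MP_7a6434d8_pr.CountA

namespace Pool.Agent.P.MP_7a6434d8_pr

open Mp Finset
open scoped ENNReal

theorem zpieceprob_near (a K : ℕ) (ha : 1 ≤ a) : ∃ G0 : ℕ, ∀ G : ℕ, G0 ≤ G →
    NearHyp (G ^ a) G (1 / (G : ℝ) ^ K) := by
  obtain ⟨C, δ, hC, hδ, hlev⟩ := level
  have ha' : (0 : ℝ) < a := by exact_mod_cast ha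
  obtain ⟨n1, hn1⟩ := asymp NearHyp C δ hC hδ nearHyp_mono nearHyp_base nearHyp_triv hlev
    (1 / (a : ℝ)) (by positivity) K
  refine ⟨max n1 1, fun G hG => ?_⟩
  have hG1 : n1 ≤ G := le_trans (le_max_left _ _) hG
  have hG2 : 1 ≤ G := le_trans (le_max_right _ _) hG
  have hG' : (1 : ℝ) ≤ G := by exact_mod_cast hG2
  have hle : G ≤ G ^ a := Nat.le_self_pow (by omega) G
  have hle' : (G : ℝ) ≤ ((G ^ a : ℕ) : ℝ) := by exact_mod_cast hle
  refine nearHyp_mono (by omega) (le_of_eq ?_) ?_ (hn1 (G ^ a) (hG1.trans hle))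
  · push_cast
    rw [one_div, Real.pow_rpow_inv_natCast (by linarith) (by omega)]
  · exact one_div_le_one_div_of_le (by positivity) (pow_le_pow_left₀ (by linarith) hle' K)

theorem zpieceprob_deg (a b K : ℕ) : ∃ G0 : ℕ, ∀ G : ℕ, G0 ≤ G → ∀ L : ℕ, L ≤ G ^ b →
    mass L (fun t => ¬ MaxDeg t G ∧ size t + per t ≤ G ^ a) ≤ 1 / (2 * (G : ℝ) ^ K) * Z L := by
  obtain ⟨G1, h1⟩ := xpiece_ev 18 (1 / 8) (by norm_num) (a + 2 * b + K)
  refine ⟨max G1 1, fun G hG L hL => ?_⟩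
  have hG1 : G1 ≤ G := le_trans (le_max_left _ _) hG
  have hG2 : 1 ≤ G := le_trans (le_max_right _ _) hG
  have hG' : (1 : ℝ) ≤ G := by exact_mod_cast hG2
  have hZ := Z_pos L
  refine (maxdeg_tail (G ^ a) G L).trans ?_
  rw [← mul_assoc]
  refine mul_le_mul_of_nonneg_right ?_ hZ.le
  have hL' : (L : ℝ) ≤ (G : ℝ) ^ b := by exact_mod_cast hL
  have hb : (1 : ℝ) ≤ (G : ℝ) ^ b := one_le_pow₀ hG'
  have ha : (1 : ℝ) ≤ (G : ℝ) ^ a := one_le_pow₀ hG'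
  have hB : Bv L ≤ 3 * (G : ℝ) ^ (2 * b) := by
    unfold Bv
    calc (L : ℝ) * (L + 2) ≤ (G : ℝ) ^ b * (3 * (G : ℝ) ^ b) := by
          gcongr
          linarith
      _ = 3 * (G : ℝ) ^ (2 * b) := by ring
  have hB0 : 0 ≤ Bv L := by
    unfold Bv
    positivity
  have hq : ((7 : ℝ) / 8) ^ G ≤ Real.exp (-(1 / 8 * G)) := by
    have h2 : (7 : ℝ) / 8 ≤ Real.exp (-(1 / 8)) := by
      have := Real.add_one_le_exp (-(1 / 8) : ℝ)
      linarith
    calc ((7 : ℝ) / 8) ^ G ≤ (Real.exp (-(1 / 8))) ^ G := by gcongr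
      _ = Real.exp (-(1 / 8 * G)) := by
          rw [← Real.exp_nat_mul]
          congr 1
          ring
  have h3 := h1 G hG1
  have hE := Real.exp_pos (1 / 8 * (G : ℝ))
  push_cast
  calc (2 * (G : ℝ) ^ a + 1) * (7 / 8) ^ G * Bv L
      ≤ (3 * (G : ℝ) ^ a) * Real.exp (-(1 / 8 * G)) * (3 * (G : ℝ) ^ (2 * b)) := by
        gcongr
        linarith
    _ = 9 * (G : ℝ) ^ (a + 2 * b) / Real.exp (1 / 8 * G) := by
        rw [Real.exp_neg]
        ring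
    _ ≤ 1 / (2 * (G : ℝ) ^ K) := by
        rw [div_le_div_iff₀ hE (by positivity)]
        calc 9 * (G : ℝ) ^ (a + 2 * b) * (2 * (G : ℝ) ^ K) = 18 * (G : ℝ) ^ (a + 2 * b + K) := by
              ring
          _ ≤ _ := by rw [one_mul]; exact h3

theorem piece_probL (E K : ℕ) (hE : 60 ≤ E) : ∃ G0 : ℕ, ∀ G : ℕ, G0 ≤ G → ∀ L : ℕ,
    mass L (fun s => edges s ≤ G ^ (4 * E - 16) ∧ ¬ (MaxDeg s G ∧
        Layer s (18 * (G : ℝ) ^ 112) (9 * (G : ℝ) ^ (4 * E - 115)) ∧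
        ∀ x y, Within s (G ^ (E - 1)) x y)) ≤ 1 / (G : ℝ) ^ K * Z L := by
  obtain ⟨e, rfl⟩ := Nat.exists_eq_add_of_le hE
  obtain ⟨G1, h1⟩ := xpiece_large e K
  obtain ⟨G2, h2⟩ := xpiece_radius e K
  obtain ⟨G3, h3⟩ := xpiece_layer e K
  obtain ⟨G4, h4⟩ := zpieceprob_near (2 * e + 8) (K + 4 * (60 + e) + 120) (by omega)
  obtain ⟨G5, h5⟩ := zpieceprob_deg (4 * e + 224) (2 * e + 113) K
  refine ⟨G1 + G2 + G3 + G4 + G5 + 1, fun G hG L => ?_⟩
  have hG' : (1 : ℝ) ≤ G := by exact_mod_cast (show 1 ≤ G by omega)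
  have hZ := Z_pos L
  have hK : (0 : ℝ) < (G : ℝ) ^ K := by positivity
  rw [show 4 * (60 + e) - 16 = 4 * e + 224 by omega, show 4 * (60 + e) - 115 = 4 * e + 125 by omega,
    show 60 + e - 1 = e + 59 by omega]
  rcases le_total (G ^ (2 * e + 113)) L with hL | hL
  · refine le_trans (mass_mono fun t _ _ h => h.1) ((h1 G (by omega) L hL).trans ?_)
    refine mul_le_mul_of_nonneg_right (one_div_le_one_div_of_le hK (by linarith)) hZ.le
  · refine le_trans (mass_le_add (ψ := fun t => ¬ MaxDeg t G ∧ size t + per t ≤ G ^ (4 * e + 224))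
      (χ := fun t => (edges t ≤ G ^ (4 * e + 224) ∧ ¬ ∀ x y, Within t (G ^ (e + 59)) x y) ∨
        (MaxDeg t G ∧ ¬ Layer t (18 * (G : ℝ) ^ 112) (9 * (G : ℝ) ^ (4 * e + 125))))
      fun t ht _ h => ?_) ?_
    · by_cases hd : MaxDeg t G
      · by_cases hl : Layer t (18 * (G : ℝ) ^ 112) (9 * (G : ℝ) ^ (4 * e + 125))
        · exact Or.inr (Or.inl ⟨h.1, fun hw => h.2 ⟨hd, hl, hw⟩⟩)
        · exact Or.inr (Or.inr ⟨hd, hl⟩)
      · have h6 := counta_edges t ht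
        have h7 := h.1
        exact Or.inl ⟨hd, by omega⟩
    · have h8 := mass_le_add (L := L)
        (φ := fun t => (edges t ≤ G ^ (4 * e + 224) ∧ ¬ ∀ x y, Within t (G ^ (e + 59)) x y) ∨
          (MaxDeg t G ∧ ¬ Layer t (18 * (G : ℝ) ^ 112) (9 * (G : ℝ) ^ (4 * e + 125))))
        (ψ := fun t => edges t ≤ G ^ (4 * e + 224) ∧ ¬ ∀ x y, Within t (G ^ (e + 59)) x y)
        (χ := fun t => MaxDeg t G ∧
          ¬ Layer t (18 * (G : ℝ) ^ 112) (9 * (G : ℝ) ^ (4 * e + 125))) fun t _ _ h => h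
      have h9 := add_le_add (h2 G (by omega) L hL) (h3 G (by omega) (h4 G (by omega)) L hL)
      refine (add_le_add (h5 G (by omega) L hL) (h8.trans h9)).trans ?_
      rw [← add_mul, ← add_mul]
      refine mul_le_mul_of_nonneg_right ?_ hZ.le
      have e1 : 1 / (2 * (G : ℝ) ^ K) + (1 / (64 * (G : ℝ) ^ K) + 1 / (64 * (G : ℝ) ^ K))
          = 17 / 32 * (1 / (G : ℝ) ^ K) := by
        field_simp
        ring
      rw [e1]
      have : 0 < 1 / (G : ℝ) ^ K := by positivity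
      linarith

end Pool.Agent.P.MP_7a6434d8_pr
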