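import Pool.Agent.P.MP_7a6434d8_pr.ZBase

namespace Pool.Agent.P.MP_7a6434d8_pr

open Mp Finset
open scoped ENNReal

theorem Sep2.mono {t : Mp} {r : ℕ} {T a a' : ℝ} (h : Sep2 t r T a) (ha : a ≤ a') :
    Sep2 t r T a' := by
  obtain ⟨f, h1, h2, h3, h4⟩ := h
  exact ⟨f, h1, h2, h3.trans ha, h4⟩

open Classical in
theorem zsep_sum_ind {ι : Type} [Fintype ι] (c : ι) :
    ∑ x : ι, (if x = c then (1 : ℝ) else 0) = 1 := by
  rw [Finset.sum_ite_eq' univ c (fun _ => (1 : ℝ)), if_pos (mem_univ c)]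

theorem zsep_term {P : Prop} [Decidable P] {d e u : ℝ} (hu : 0 ≤ u) (h : d ≤ e + u) :
    (if P then d else 0) ≤ (if P then e else 0) + u := by
  split_ifs
  · exact h
  · rwa [zero_add]

theorem zsep_wsupp_face (t : Mp) (f : V t → ℝ) : wsupp (face t) f ≤ wsupp t f + 2 := by
  classical
  have h : ∀ x : V t, (if f x ≠ 0 then dg (face t) x else 0) ≤ (if f x ≠ 0 then dg t x else 0)
      + ((if x = bv t 0 then (1 : ℝ) else 0) + (if x = bv t 3 then (1 : ℝ) else 0)) := by
    intro x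
    refine zsep_term (add_nonneg ?_ ?_) ?_
    · split_ifs <;> norm_num
    · split_ifs <;> norm_num
    · have := dg_face_le t x
      linarith
  have h2 := sum_le_sum (s := (univ : Finset (V t))) fun x _ => h x
  rw [sum_add_distrib, sum_add_distrib, zsep_sum_ind, zsep_sum_ind] at h2
  have e1 : wsupp (face t) f = ∑ x : V t, (if f x ≠ 0 then dg (face t) x else 0) := rfl
  have e2 : wsupp t f = ∑ x : V t, (if f x ≠ 0 then dg t x else 0) := rfl
  rw [e1, e2]
  linarith

theorem zsep_wsupp_bridge (a b : Mp) (f : V a → ℝ) (g : V b → ℝ) :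
    wsupp (bridge a b) (Sum.elim f g) ≤ wsupp a f + wsupp b g + 2 := by
  classical
  have h : ∀ x : V a, (if f x ≠ 0 then dg (bridge a b) (Sum.inl x) else 0)
      ≤ (if f x ≠ 0 then dg a x else 0) + (if x = bv a 0 then (1 : ℝ) else 0) := by
    intro x
    refine zsep_term ?_ (dg_inl a b x).le
    split_ifs <;> norm_num
  have h' : ∀ x : V b, (if g x ≠ 0 then dg (bridge a b) (Sum.inr x) else 0)
      ≤ (if g x ≠ 0 then dg b x else 0) + (if x = bv b 0 then (1 : ℝ) else 0) := by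
    intro x
    refine zsep_term ?_ (dg_inr a b x).le
    split_ifs <;> norm_num
  have h2 := sum_le_sum (s := (univ : Finset (V a))) fun x _ => h x
  have h3 := sum_le_sum (s := (univ : Finset (V b))) fun x _ => h' x
  rw [sum_add_distrib, zsep_sum_ind] at h2 h3
  have e1 : wsupp (bridge a b) (Sum.elim f g) =
      ∑ x : V a, (if f x ≠ 0 then dg (bridge a b) (Sum.inl x) else 0)
      + ∑ x : V b, (if g x ≠ 0 then dg (bridge a b) (Sum.inr x) else 0) :=
    Fintype.sum_sum_type (α₁ := V a) (α₂ := V b)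
      (fun x => if Sum.elim f g x ≠ 0 then dg (bridge a b) x else 0)
  have e2 : wsupp a f = ∑ x : V a, (if f x ≠ 0 then dg a x else 0) := rfl
  have e3 : wsupp b g = ∑ x : V b, (if g x ≠ 0 then dg b x else 0) := rfl
  rw [e1, e2, e3]
  linarith

theorem sep2_face {t : Mp} {r : ℕ} {T a : ℝ} (ht : ok (face t)) (h : Sep2 t r T a) :
    Sep2 (face t) r T (a + 2) := by
  obtain ⟨f, h1, h2, h3, h5⟩ := h
  have hp : 2 ≤ per t := ht.2
  have b0 : f (bv t 0) = 1 := h2 0 (Nat.zero_le _)
  have b3 : f (bv t 3) = 1 := h2 3 (by omega)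
  refine ⟨f, h1, fun p hp' => ?_, ?_, fun x y hxy => ?_⟩
  · have hp'' : p ≤ 2 * (per t - 1) := hp'
    show f (if p = 0 then bv t 0 else bv t (p + 2)) = 1
    split_ifs
    · exact b0
    · exact h2 _ (by omega)
  · have he : energy (face t) f = energy t f := by
      show energy t f + (f (bv t 0) - f (bv t 3)) ^ 2 = _
      rw [b0, b3]
      ring
    have hw := zsep_wsupp_face t f
    rw [he]
    linarith
  · refine Within.map (t := face t) (s := t) id (fun _ _ h => Or.inl h) (h5 x y ⟨hxy.1, ?_⟩)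
    refine Relation.ReflTransGen.mono (fun u w huw => ?_) _ _ hxy.2
    obtain ⟨ha, hw⟩ := huw
    rcases ha with ha | ⟨-, ha⟩ | ⟨-, ha⟩
    · exact ⟨ha, hw⟩
    · exact absurd (ha ▸ b3) hw
    · exact absurd (ha ▸ b0) hw

theorem sep2_bridge {s t : Mp} {r : ℕ} {T a a' : ℝ} (ht : ok (bridge s t)) (h : Sep2 s r T a)
    (h' : Sep2 t r T a') : Sep2 (bridge s t) r T (a + a' + 2) := by
  have _ := ht
  obtain ⟨f, h1, h2, h3, h5⟩ := h
  obtain ⟨g, g1, g2, g3, g5⟩ := h'
  have a0 : f (bv s 0) = 1 := h2 0 (Nat.zero_le _)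
  have b0 : g (bv t 0) = 1 := g2 0 (Nat.zero_le _)
  refine ⟨Sum.elim f g, fun x => ?_, fun p hp' => ?_, ?_, fun x y hxy => ?_⟩
  · rcases x with x | x
    · exact h1 x
    · exact g1 x
  · have hp'' : p ≤ 2 * (per s + per t + 1) := hp'
    show Sum.elim f g (if p = 0 then Sum.inl (bv s 0)
      else if p ≤ 2 * per t + 1 then Sum.inr (bv t (p - 1))
      else Sum.inl (bv s (p - 2 * per t - 2))) = 1
    split_ifs
    · exact a0
    · exact g2 _ (by omega)
    · exact h2 _ (by omega)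
  · have he : energy (bridge s t) (Sum.elim f g) = energy s f + energy t g := by
      show energy s f + energy t g + (f (bv s 0) - g (bv t 0)) ^ 2 = _
      rw [a0, b0]
      ring
    have hw := zsep_wsupp_bridge s t f g
    rw [he, mul_add]
    linarith
  · obtain ⟨hx, hxy⟩ := hxy
    rcases x with x | x
    · have key : ∃ y0, y = Sum.inl y0 ∧
          Relation.ReflTransGen (fun u w => adj s u w ∧ f w ≠ 1) x y0 := by
        induction hxy with
        | refl => exact ⟨x, rfl, .refl⟩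
        | tail _ hz ih =>
          obtain ⟨y0, rfl, hy0⟩ := ih
          rename_i z _
          rcases z with z | z
          · exact ⟨z, rfl, hy0.tail ⟨hz.1, hz.2⟩⟩
          · have h6 : z = bv t 0 := hz.1.2
            exact absurd (h6 ▸ b0 : g z = 1) hz.2
      obtain ⟨y0, rfl, hy0⟩ := key
      exact Within.map (t := bridge s t) (s := s) Sum.inl (fun _ _ h => h) (h5 x y0 ⟨hx, hy0⟩)
    · have key : ∃ y0, y = Sum.inr y0 ∧
          Relation.ReflTransGen (fun u w => adj t u w ∧ g w ≠ 1) x y0 := by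
        induction hxy with
        | refl => exact ⟨x, rfl, .refl⟩
        | tail _ hz ih =>
          obtain ⟨y0, rfl, hy0⟩ := ih
          rename_i z _
          rcases z with z | z
          · have h6 : z = bv s 0 := hz.1.2
            exact absurd (h6 ▸ a0 : f z = 1) hz.2
          · exact ⟨z, rfl, hy0.tail ⟨hz.1, hz.2⟩⟩
      obtain ⟨y0, rfl, hy0⟩ := key
      exact Within.map (t := bridge s t) (s := t) Sum.inr (fun _ _ h => h) (g5 x y0 ⟨hx, hy0⟩)

theorem sep2_all (s : Mp) (r : ℕ) (T : ℝ) : Sep2 s r T (2 * edges s) := by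
  refine ⟨fun _ => 1, fun _ => ⟨zero_le_one, le_rfl⟩, fun _ _ => rfl, ?_,
    fun x y hxy => absurd rfl hxy.1⟩
  rw [energy_const, mul_zero, add_zero]
  refine le_trans (le_of_eq ?_) (sum_dg_le s)
  unfold wsupp
  exact sum_congr rfl fun x _ => if_pos one_ne_zero

theorem sep2_good {s : Mp} {r : ℕ} {T Δ K v : ℝ} (hT : 0 ≤ T) (hΔ : 0 ≤ Δ) (hd : MaxDeg s Δ)
    (hl : Layer s K v) (hr : ∀ x y, Within s r x y) : Sep2 s r T (Δ * v + T * K) := by
  classical
  obtain ⟨f, f1, f2, f3, f4⟩ := hl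
  refine ⟨f, f1, f2, add_le_add ?_ (mul_le_mul_of_nonneg_left f3 hT), fun x y _ => hr x y⟩
  refine le_trans ?_ (mul_le_mul_of_nonneg_left f4 hΔ)
  unfold wsupp supp
  rw [← sum_filter, mul_comm, ← nsmul_eq_mul]
  exact sum_le_card_nsmul _ _ _ fun x _ => hd x

end Pool.Agent.P.MP_7a6434d8_pr
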