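import Pool.Agent.P.MP_7a6434d8_pr.ZSpine
import Pool.Agent.P.MP_7a6434d8_pr.XAny
import Pool.Agent.P.MP_7a6434d8_pr.XPiece

namespace Pool.Agent.P.MP_7a6434d8_pr

open Mp Finset
open scoped ENNReal

/-- some subtree has a long boundary -/
theorem zskeltail_any (e Lm L : ℕ) (g : ℝ) (he : 1 ≤ e) (hg : g * √(e : ℝ) ≤ (Lm : ℝ) + 1) :
    mass L (fun t => AnySub (fun s => Lm < per s) t ∧ size t + per t ≤ e)
      ≤ 2 * Real.exp (1 / 4) * Real.exp (-(g / 8)) * (Bv L * Z L) := by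
  have he' : (1 : ℝ) ≤ e := by exact_mod_cast he
  have hr : 1 ≤ √(e : ℝ) := Real.one_le_sqrt.2 he'
  have hr2 : √(e : ℝ) ^ 2 = e := Real.sq_sqrt (by linarith)
  refine anysub _ e _ (by positivity) (Nat.not_lt_zero Lm) (fun L' _ => ?_) L
  have hZ := Z_pos L'
  by_cases hL : Lm < L'
  · have hL' : (Lm : ℝ) + 1 ≤ L' := by exact_mod_cast hL
    have hs := small_size (1 / (4 * √(e : ℝ))) (by positivity)
      (one_div_le_one_div_of_le (by norm_num) (by linarith)) L' e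
    refine (mass_mono fun t _ _ h => ?_).trans (hs.trans ?_)
    · have := h.2
      omega
    · rw [mul_assoc 2 (Real.exp _) (Real.exp _), ← Real.exp_add]
      have e1 : 4 * (1 / (4 * √(e : ℝ))) ^ 2 * (e : ℝ) = 1 / 4 := by
        generalize √(e : ℝ) = r at hr hr2
        rw [← hr2]
        field_simp
      have e2 : g / 4 ≤ 1 / (4 * √(e : ℝ)) * (L' : ℝ) := by
        rw [one_div, ← div_eq_inv_mul, div_le_div_iff₀ (by norm_num) (by positivity)]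
        linarith
      gcongr
      linarith
  · rw [mass_eq_zero (L := L') (φ := fun t => Lm < per t ∧ size t + per t ≤ e)
      fun t _ h1 h => hL (h1 ▸ h.1)]
    positivity

theorem skel_tail : ∃ c C : ℝ, 0 < c ∧ 0 < C ∧ ∀ (m1 e L : ℕ) (g y : ℝ), 1 ≤ g → m1 + 1 ≤ e →
    g * √(√((m1 : ℝ) + 1)) * ((2 * g * √(e : ℝ)) * √(2 * g * √(e : ℝ))) ≤ c * y →
    mass L (fun t => edges t = e ∧ y ≤ (pc2 m1 t : ℝ))
      ≤ C * ((e : ℝ) + 1) ^ 3 * Real.exp (-(g / 8)) * Z L := by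
  obtain ⟨c0, hc0, hsp⟩ := spine2
  obtain ⟨C, hC, h8⟩ := xpiece_eight
  refine ⟨min c0 1, C + 2 * Real.exp (1 / 4), lt_min hc0 one_pos, by positivity,
    fun m1 e L g y hg hme hy => ?_⟩
  have hZ := Z_pos L
  by_cases hL : L ≤ e
  swap
  · rw [mass_eq_zero fun t ht h1 h => hL (by
      have := edges_eq t ht
      have := h.1
      omega)]
    positivity
  have hc : 0 < min c0 1 := lt_min hc0 one_pos
  have hc1 : min c0 1 ≤ 1 := min_le_right _ _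
  have hc2 : min c0 1 ≤ c0 := min_le_left _ _
  generalize min c0 1 = c at hc hc1 hc2 hy
  have hm0 : (0 : ℝ) ≤ m1 := Nat.cast_nonneg m1
  have hme' : (m1 : ℝ) + 1 ≤ e := by exact_mod_cast hme
  have hr : 1 ≤ √(e : ℝ) := Real.one_le_sqrt.2 (by linarith)
  have hgr : 1 ≤ g * √(e : ℝ) := one_le_mul_of_one_le_of_one_le hg hr
  set Lm := ⌊g * √(e : ℝ)⌋₊ with hLm
  have hLm1 : g * √(e : ℝ) ≤ (Lm : ℝ) + 1 := (Nat.lt_floor_add_one _).le
  have hLm2 : (Lm : ℝ) + 1 ≤ 2 * g * √(e : ℝ) := by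
    have : (Lm : ℝ) ≤ g * √(e : ℝ) := Nat.floor_le (by linarith)
    linarith
  have hA := zskeltail_any e Lm L g (by omega) hLm1
  have hb : √((m1 : ℝ) + 1) ≤ 2 * g * √(e : ℝ) := by
    have h1 : √((m1 : ℝ) + 1) ≤ √(e : ℝ) := Real.sqrt_le_sqrt hme'
    have h2 : √(e : ℝ) ≤ g * √(e : ℝ) := le_mul_of_one_le_left (by linarith) hg
    linarith
  have hD : 0 < 2 * g * √(e : ℝ) := by linarith
  generalize 2 * g * √(e : ℝ) = D at hy hLm2 hb hD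
  have hb0 : 0 < √((m1 : ℝ) + 1) := Real.sqrt_pos.2 (by linarith)
  have ha0 : 0 < √(√((m1 : ℝ) + 1)) := Real.sqrt_pos.2 hb0
  have hs0 : 0 < √D := Real.sqrt_pos.2 hD
  have hden : 0 < √(√((m1 : ℝ) + 1)) * (D * √D) := by positivity
  have hθ1 : c / (√(√((m1 : ℝ) + 1)) * (D * √D)) * (m1 + 1) ≤ 1 := by
    rw [div_mul_eq_mul_div, div_le_one hden]
    have h1 : √(√((m1 : ℝ) + 1)) ≤ √D := Real.sqrt_le_sqrt hb
    have h2 : √((m1 : ℝ) + 1) * √((m1 : ℝ) + 1) = m1 + 1 := Real.mul_self_sqrt (by linarith)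
    have h3 : √(√((m1 : ℝ) + 1)) * √(√((m1 : ℝ) + 1)) = √((m1 : ℝ) + 1) :=
      Real.mul_self_sqrt hb0.le
    calc c * ((m1 : ℝ) + 1) ≤ 1 * ((m1 : ℝ) + 1) := by gcongr
      _ = √((m1 : ℝ) + 1) * (√(√((m1 : ℝ) + 1)) * √(√((m1 : ℝ) + 1))) := by
        rw [h3, h2, one_mul]
      _ = √(√((m1 : ℝ) + 1)) * (√((m1 : ℝ) + 1) * √(√((m1 : ℝ) + 1))) := by ring
      _ ≤ √(√((m1 : ℝ) + 1)) * (D * √D) := by gcongr
  have hθ2 : c / (√(√((m1 : ℝ) + 1)) * (D * √D)) * √(√((m1 : ℝ) + 1)) *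
      (((Lm : ℝ) + 1) * √((Lm : ℝ) + 1)) ≤ c0 := by
    calc _ ≤ c / (√(√((m1 : ℝ) + 1)) * (D * √D)) * √(√((m1 : ℝ) + 1)) * (D * √D) := by gcongr
      _ = c := by field_simp
      _ ≤ c0 := hc2
  have hθ3 : g ≤ c / (√(√((m1 : ℝ) + 1)) * (D * √D)) * y := by
    rw [div_mul_eq_mul_div, le_div_iff₀ hden, ← mul_assoc]
    exact hy
  have hS := hsp m1 Lm _ y (div_pos hc hden) hθ1 hθ2 L
  have hL' : (L : ℝ) ≤ e := by exact_mod_cast hL
  have hL0 : (0 : ℝ) ≤ L := Nat.cast_nonneg L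
  have hE : Real.exp (-(c / (√(√((m1 : ℝ) + 1)) * (D * √D)) * y)) ≤ Real.exp (-(g / 8)) :=
    Real.exp_le_exp.2 (by linarith)
  have h8' : (8 : ℝ) ^ L ≤ C * ((e : ℝ) + 1) ^ 3 * Z L := (h8 L).trans (by gcongr)
  have hB : Bv L ≤ ((e : ℝ) + 1) ^ 3 := by
    have h1 : Bv L ≤ ((L : ℝ) + 1) ^ 2 := by
      unfold Bv
      linarith [show ((L : ℝ) + 1) ^ 2 = L * (L + 2) + 1 by ring]
    calc Bv L ≤ ((L : ℝ) + 1) ^ 2 := h1
      _ ≤ ((e : ℝ) + 1) ^ 2 := by gcongr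
      _ ≤ ((e : ℝ) + 1) ^ 3 := pow_le_pow_right₀ (by linarith) (by norm_num)
  refine (mass_le_add (ψ := fun t => ¬ AnySub (fun s => Lm < per s) t ∧ y ≤ (pc2 m1 t : ℝ))
    (χ := fun t => AnySub (fun s => Lm < per s) t ∧ size t + per t ≤ e)
    fun t ht _ h => ?_).trans ?_
  · by_cases h1 : AnySub (fun s => Lm < per s) t
    · refine Or.inr ⟨h1, ?_⟩
      have := edges_eq t ht
      have := h.1
      omega
    · exact Or.inl ⟨h1, h.2⟩
  · calc _ ≤ Real.exp (-(g / 8)) * (C * ((e : ℝ) + 1) ^ 3 * Z L) +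
          2 * Real.exp (1 / 4) * Real.exp (-(g / 8)) * (((e : ℝ) + 1) ^ 3 * Z L) :=
          add_le_add (hS.trans (by gcongr)) (hA.trans (by gcongr))
      _ = _ := by ring

end Pool.Agent.P.MP_7a6434d8_pr
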