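import Pool.Agent.P.MP_7a6434d8_pr.ZPieceProb
import Pool.Agent.P.MP_7a6434d8_pr.ZSkel
import Pool.Agent.P.MP_7a6434d8_pr.ZSep
import Pool.Agent.P.MP_7a6434d8_pr.ZLinkSep
import Pool.Agent.P.MP_7a6434d8_pr.ZReroot
import Pool.Agent.P.MP_7a6434d8_pr.XReroot

namespace Pool.Agent.P.MP_7a6434d8_pr

open Mp Finset
open scoped ENNReal

theorem zslowlarge_root (k : ℕ) (hk : k ≠ 0) (g R : ℕ) (h : g ^ k ≤ R) :
    ∃ G : ℕ, g ≤ G ∧ G ^ k ≤ R ∧ R < (G + 1) ^ k :=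
  ⟨Nat.nthRoot k R, (Nat.le_nthRoot_iff hk).2 h, Nat.pow_nthRoot_le_iff.2 (Or.inl hk),
    Nat.lt_pow_nthRoot_add_one hk R⟩

theorem zslowlarge_beta (m : ℕ) (c : ℝ) (hc : 0 ≤ c) (n : ℕ) :
    ∑ e ∈ range n, ((e : ℝ) + 1) ^ 6 * (if e ≤ m then c else 0) ≤ ((m : ℝ) + 1) ^ 7 * c := by
  calc ∑ e ∈ range n, ((e : ℝ) + 1) ^ 6 * (if e ≤ m then c else 0)
      = ∑ e ∈ (range n).filter (fun e => e ≤ m), ((e : ℝ) + 1) ^ 6 * c := by
        rw [sum_filter]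
        refine sum_congr rfl fun e _ => ?_
        split_ifs <;> simp
    _ ≤ ∑ e ∈ range (m + 1), ((e : ℝ) + 1) ^ 6 * c := by
        refine sum_le_sum_of_subset_of_nonneg ?_ fun e _ _ => by positivity
        intro e he
        rw [mem_filter] at he
        exact mem_range.2 (by omega)
    _ ≤ ∑ _e ∈ range (m + 1), ((m : ℝ) + 1) ^ 6 * c := by
        refine sum_le_sum fun e he => ?_
        have h1 : (e : ℝ) ≤ m := by exact_mod_cast Nat.lt_succ_iff.1 (mem_range.1 he)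
        gcongr
    _ = _ := by rw [sum_const, card_range, nsmul_eq_mul]; push_cast; ring

theorem zslowlarge_sqrt (g : ℝ) (hg : 2 ≤ g) (a : ℕ) :
    g ^ 3 * √(√((g ^ a + 1) / g ^ (a + 88))) ≤ 1 / g := by
  have hg0 : 0 < g := by linarith
  have hg1 : 1 ≤ g := by linarith
  have h1 : (g ^ a + 1) / g ^ (a + 88) ≤ ((1 / g ^ 4) ^ 2) ^ 2 := by
    have a1 : 1 ≤ g ^ a := one_le_pow₀ hg1
    have a2 : g ^ a + 1 ≤ g ^ a * g ^ 72 := by
      have : g ≤ g ^ 72 := le_self_pow₀ hg1 (by norm_num)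
      calc g ^ a + 1 ≤ g ^ a * 2 := by linarith
        _ ≤ g ^ a * g ^ 72 := by gcongr; linarith
    calc (g ^ a + 1) / g ^ (a + 88) ≤ g ^ a * g ^ 72 / g ^ (a + 88) := by gcongr
      _ = _ := by field_simp; ring
  have h2 : √(√((g ^ a + 1) / g ^ (a + 88))) ≤ 1 / g ^ 4 := by
    refine Real.sqrt_le_iff.2 ⟨by positivity, ?_⟩
    exact Real.sqrt_le_iff.2 ⟨by positivity, h1⟩
  calc g ^ 3 * √(√((g ^ a + 1) / g ^ (a + 88))) ≤ g ^ 3 * (1 / g ^ 4) := by gcongr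
    _ = 1 / g := by field_simp

theorem zslowlarge_b (g : ℝ) (hg : 64 ≤ g) (a : ℕ) :
    20 * ((g ^ a + 1) ^ 7 * (1 / g ^ (7 * a + 114))) ≤ 1 / g := by
  have hg0 : 0 < g := by linarith
  have hg1 : 1 ≤ g := by linarith
  have a1 : 1 ≤ g ^ a := one_le_pow₀ hg1
  have a2 : g ^ a + 1 ≤ g ^ a * g := by
    calc g ^ a + 1 ≤ g ^ a * 2 := by linarith
      _ ≤ g ^ a * g := by gcongr; linarith
  have a3 : 20 ≤ g ^ 106 := le_trans (by linarith) (le_self_pow₀ hg1 (by norm_num))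
  calc 20 * ((g ^ a + 1) ^ 7 * (1 / g ^ (7 * a + 114)))
      ≤ g ^ 106 * ((g ^ a * g) ^ 7 * (1 / g ^ (7 * a + 114))) := by gcongr
    _ = 1 / g := by field_simp; ring

theorem zslowlarge_w (g T : ℝ) (hg : 64 ≤ g) (a : ℕ) (hT : T ≤ g ^ a) :
    (g * (9 * g ^ (a + 115)) + T * (18 * g ^ 112)) * 2 / g ^ (a + 126) ≤ 1 / g := by
  have hg0 : 0 < g := by linarith
  have hg1 : 1 ≤ g := by linarith
  have a1 : T * (18 * g ^ 112) ≤ 18 * g ^ (a + 116) := by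
    calc T * (18 * g ^ 112) ≤ g ^ a * (18 * g ^ 116) := by
          have : g ^ 112 ≤ g ^ 116 := pow_le_pow_right₀ hg1 (by norm_num)
          gcongr
      _ = _ := by ring
  have a2 : g * (9 * g ^ (a + 115)) = 9 * g ^ (a + 116) := by ring
  have a3 : 54 ≤ g ^ 9 := le_trans (by linarith) (le_self_pow₀ hg1 (by norm_num))
  calc (g * (9 * g ^ (a + 115)) + T * (18 * g ^ 112)) * 2 / g ^ (a + 126)
      ≤ (54 * g ^ (a + 116)) / g ^ (a + 126) :=
        div_le_div_of_nonneg_right (by linarith) (by positivity)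
    _ ≤ (g ^ 9 * g ^ (a + 116)) / g ^ (a + 126) := by gcongr
    _ = 1 / g := by field_simp; ring

theorem zslowlarge_fin (g x : ℝ) (hg : 64 ≤ g) (hx : 0 < x) (h : x ^ 4 ≤ 2 * g) :
    6 / g * x ≤ 4 / x := by
  have hg0 : 0 < g := by linarith
  have h1 : (6 * x ^ 2) ^ 2 ≤ (4 * g) ^ 2 := by nlinarith
  have h2 : 6 * x ^ 2 ≤ 4 * g := (abs_le_of_sq_le_sq' h1 (by positivity)).2
  rw [div_mul_eq_mul_div, div_le_div_iff₀ hg0 hx]
  nlinarith

theorem zslowlarge_le (g x : ℝ) (hg : 64 ≤ g) (hx : 1 ≤ x) (h : x ^ 4 ≤ 2 * g) : x ≤ g := by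
  have b2 : x ^ 2 ≤ x ^ 4 := pow_le_pow_right₀ hx (by norm_num)
  nlinarith

/-- the deterministic and counting part -/
theorem zslowlarge_sum (e : ℕ) : ∃ G0 : ℕ, ∀ G : ℕ, G0 ≤ G → ∀ T : ℕ,
    (T : ℝ) ≤ (G : ℝ) ^ (4 * e + 10) → ∀ n : ℕ, G ^ (4 * e + 136) ≤ n →
    ∃ a : Mp → ℝ, (∀ t, 0 ≤ a t) ∧
      (∀ t, ok t → per t = 2 → size t + 1 = n → Sep2 t (G ^ (e + 59)) T (a t)) ∧
      ∑ t ∈ countaT 2 (n - 1), a t ≤ 6 / G * n * cnt 2 (n - 1) (fun _ => True) := by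
  obtain ⟨G1, hG1⟩ := piece_probL (e + 60) (7 * (4 * e + 224) + 114) (by omega)
  obtain ⟨G2, hG2⟩ := skel_sum (4 * e + 224)
  refine ⟨max (max G1 G2) 64, fun G hG T hT n hn => ?_⟩
  have g1 : G1 ≤ G := le_trans (le_trans (le_max_left _ _) (le_max_left _ _)) hG
  have g2 : G2 ≤ G := le_trans (le_trans (le_max_right _ _) (le_max_left _ _)) hG
  have g3 : 64 ≤ G := le_trans (le_max_right _ _) hG
  have g4 : (64 : ℝ) ≤ G := by exact_mod_cast g3
  have g0 : (0 : ℝ) < G := by linarith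
  have hp := hG1 G g1
  rw [show 4 * (e + 60) - 16 = 4 * e + 224 by omega, show 4 * (e + 60) - 115 = 4 * e + 10 + 115 by omega,
    show e + 60 - 1 = e + 59 by omega] at hp
  set m := G ^ (4 * e + 224) with hm
  set m1 := G ^ (4 * e + 136) with hm1
  have m1pos : 1 ≤ m1 := Nat.one_le_pow _ _ (by omega)
  have hmm : 2 * m1 + 1 ≤ m := by
    have a1 : 64 ≤ G ^ 88 := le_trans g3 (Nat.le_self_pow (by norm_num) G)
    have a2 : m = m1 * G ^ 88 := by rw [hm, hm1, ← pow_add]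
    have a3 : m1 * 64 ≤ m1 * G ^ 88 := Nat.mul_le_mul_left _ a1
    omega
  have hn1 : 1 ≤ n := le_trans m1pos hn
  set Ev : Mp → Prop := fun s => edges s ≤ m ∧ ¬ (MaxDeg s G ∧
    Layer s (18 * (G : ℝ) ^ 112) (9 * (G : ℝ) ^ (4 * e + 10 + 115)) ∧
      ∀ x y, Within s (G ^ (e + 59)) x y) with hEv
  set w : ℝ := G * (9 * (G : ℝ) ^ (4 * e + 10 + 115)) + T * (18 * (G : ℝ) ^ 112) with hw
  have w0 : 0 ≤ w := by positivity
  refine ⟨fun t => 2 * skel m m1 t + 2 * badVol Ev t + w * (2 * n) / m1, fun t => ?_, ?_, ?_⟩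
  · have := badVol_nonneg Ev t
    positivity
  · intro t ht hper hsz
    have hed : edges t = 2 * n := by rw [counta_edges t ht]; omega
    have h := piece_sum m m1 m1pos (by omega) w w0 Ev (fun s a => Sep2 s (G ^ (e + 59)) T a)
      (fun _ _ _ h ha => h.mono ha) (fun _ _ h1 h2 => sep2_face h1 h2)
      (fun _ _ _ _ h1 h2 h3 => sep2_bridge h1 h2 h3) (fun s _ => sep2_all s _ _)
      (fun s _ _ h2 h3 => by
        obtain ⟨b1, b2, b3⟩ := not_not.1 (fun h => h3 ⟨h2, h⟩)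
        exact sep2_good (Nat.cast_nonneg T) g0.le b1 b2 b3) t ht
    have hd : disc m1 t = 0 := by
      rw [disc, if_neg (by omega)]
    rw [hd, hed] at h
    refine h.mono (le_of_eq ?_)
    push_cast
    ring
  · have hN : (((n - 1 : ℕ) : ℝ) + 1) = n := by
      rw [Nat.cast_sub hn1]; push_cast; ring
    have s1 := hG2 G g2 m m1 hmm le_rfl (n - 1)
    have s2 := ctx_bound Ev (fun k => if k ≤ m then 1 / (G : ℝ) ^ (7 * (4 * e + 224) + 114) else 0)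
      (((m : ℝ) + 1) ^ 7 * (1 / (G : ℝ) ^ (7 * (4 * e + 224) + 114)))
      (fun k => by split_ifs <;> positivity)
      (fun L k => by
        split_ifs with hk
        · exact le_trans (mass_mono (ψ := Ev) (fun t _ _ h => h.1)) (hp L)
        · rw [zero_mul]
          refine le_of_eq (mass_eq_zero fun t _ _ h => hk ?_)
          have b1 : edges t ≤ m := h.1.1
          have b2 : edges t = k := h.2
          omega)
      (zslowlarge_beta m _ (by positivity)) (n - 1)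
    rw [hN] at s1 s2
    have c1 := zslowlarge_sqrt G (by linarith) (4 * e + 136)
    have c2 := zslowlarge_b G g4 (4 * e + 224)
    have c3 := zslowlarge_w G T g4 (4 * e + 10) hT
    have e1 : (m : ℝ) = (G : ℝ) ^ (4 * e + 224) := by rw [hm]; push_cast; rfl
    have e2 : (m1 : ℝ) = (G : ℝ) ^ (4 * e + 136) := by rw [hm1]; push_cast; rfl
    rw [show 4 * e + 136 + 88 = 4 * e + 224 by omega, ← e1, ← e2] at c1
    rw [← e1] at c2
    rw [show 4 * e + 10 + 126 = 4 * e + 136 by omega, ← e2, ← hw] at c3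
    rw [sum_add_distrib, sum_add_distrib, ← mul_sum, ← mul_sum, sum_const, nsmul_eq_mul,
      ← counta_cnt_true]
    set c : ℝ := ((cnt 2 (n - 1) (fun _ => True) : ℕ) : ℝ) with hc
    have c0 : 0 ≤ (n : ℝ) * c := by positivity
    have d1 := mul_le_mul_of_nonneg_right c1 c0
    have d2 := mul_le_mul_of_nonneg_right c2 c0
    have d3 := mul_le_mul_of_nonneg_right c3 c0
    have d4 : c * (w * (2 * n) / m1) = w * 2 / m1 * (n * c) := by ring
    have d5 : 6 / (G : ℝ) * n * c = 6 * (1 / G * (n * c)) := by ring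
    rw [d4, d5]
    linarith

theorem slow_large (E : ℕ) (hE : 60 ≤ E) (ε : ℝ) (hε : 230 ≤ ε * ((E : ℝ) - 1)) :
    ∃ R0 : ℕ, ∀ R : ℕ, R0 ≤ R → ∀ n : ℕ, (R : ℝ) ^ (4 - 1 / (4 * E) : ℝ) ≤ n →
    (Nat.card {c : RootedQuad n // ∃ q : Quad n, Quot.mk _ q = c ∧
        ENNReal.ofReal ((R : ℝ) ^ (-(1 / (4 * E) : ℝ))) <
          q.escape (q.tail q.root) ⌊(R : ℝ) ^ (4 - ε)⌋₊ R} : ℝ)
      ≤ (Nat.card (RootedQuad n) : ℝ) / (R : ℝ) ^ (1 / (4 * E) : ℝ) := by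
  obtain ⟨e, rfl⟩ := Nat.exists_eq_add_of_le' hE
  obtain ⟨G0, hG0⟩ := zslowlarge_sum e
  obtain ⟨Gm, hm1, hm2, hm3⟩ : ∃ Gm : ℕ, G0 ≤ Gm ∧ 64 ≤ Gm ∧ 2 ^ (4 * (e + 59)) ≤ Gm :=
    ⟨max (max G0 64) (2 ^ (4 * (e + 59))), le_trans (le_max_left _ _) (le_max_left _ _),
      le_trans (le_max_right _ _) (le_max_left _ _), le_max_right _ _⟩
  refine ⟨Gm ^ (e + 59), fun R hR n hn => ?_⟩
  obtain ⟨G, g0, g1, g2⟩ := zslowlarge_root (e + 59) (by omega) Gm R hR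
  have g3 : G0 ≤ G := le_trans hm1 g0
  have g4 : 64 ≤ G := le_trans hm2 g0
  have g5 : 2 ^ (4 * (e + 59)) ≤ G := le_trans hm3 g0
  have g4' : (64 : ℝ) ≤ G := by exact_mod_cast g4
  have g5' : (2 : ℝ) ^ (4 * (e + 59)) ≤ G := by exact_mod_cast g5
  have g1' : (G : ℝ) ^ (e + 59) ≤ R := by exact_mod_cast g1
  have g6 : (R : ℝ) ≤ ((G : ℝ) + 1) ^ (e + 59) := by exact_mod_cast g2.le
  clear hm1 hm2 hm3 g0 g1 g2 g5 hR
  have hG1 : (1 : ℝ) ≤ G := by linarith only [g4']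
  have hGp : (0 : ℝ) < G := by linarith only [g4']
  have g2' : (R : ℝ) ≤ (2 * G) ^ (e + 59) :=
    g6.trans (pow_le_pow_left₀ (by linarith only [hG1]) (by linarith only [hG1]) _)
  have hR1 : (1 : ℝ) ≤ R := (one_le_pow₀ hG1).trans g1'
  have hRp : (0 : ℝ) < R := by linarith only [hR1]
  have hE' : (60 : ℝ) ≤ ((e + 60 : ℕ) : ℝ) := by exact_mod_cast hE
  set δ : ℝ := 1 / (4 * ((e + 60 : ℕ) : ℝ)) with hδ
  have hδ0 : 0 ≤ δ := by rw [hδ]; positivity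
  set x : ℝ := (R : ℝ) ^ δ with hx
  have hx0 : 0 < x := by positivity
  have hx4 : x ^ 4 ≤ 2 * G := by
    have a1 : (x ^ 4) ^ (e + 60) = R := by
      rw [← pow_mul, hx, ← Real.rpow_natCast, ← Real.rpow_mul hRp.le, hδ]
      rw [show 1 / (4 * ((e + 60 : ℕ) : ℝ)) * ((4 * (e + 60) : ℕ) : ℝ) = 1 by
        rw [Nat.cast_mul]; push_cast; field_simp, Real.rpow_one]
    refine le_of_pow_le_pow_left₀ (n := e + 60) (by omega) (by positivity) ?_
    rw [a1]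
    exact g2'.trans (pow_le_pow_right₀ (by linarith only [hG1]) (Nat.le_succ _))
  have hnG : G ^ (4 * e + 136) ≤ n := by
    have a0 : x ≤ G := zslowlarge_le G x g4' (Real.one_le_rpow hR1 hδ0) hx4
    have a2 : (R : ℝ) ^ (4 - δ) * x = (R : ℝ) ^ 4 := by
      rw [hx, ← Real.rpow_add hRp, show 4 - δ + δ = ((4 : ℕ) : ℝ) by push_cast; ring,
        Real.rpow_natCast]
    have a3 : (G : ℝ) ^ (4 * e + 136) * G ≤ n * G := by
      calc (G : ℝ) ^ (4 * e + 136) * G = (G : ℝ) ^ (4 * e + 137) := by ring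
        _ ≤ (G : ℝ) ^ ((e + 59) * 4) := pow_le_pow_right₀ hG1 (by omega)
        _ = ((G : ℝ) ^ (e + 59)) ^ 4 := pow_mul _ _ _
        _ ≤ (R : ℝ) ^ 4 := pow_le_pow_left₀ (by positivity) g1' 4
        _ = (R : ℝ) ^ (4 - δ) * x := a2.symm
        _ ≤ n * G := mul_le_mul hn a0 hx0.le (Nat.cast_nonneg n)
    exact_mod_cast le_of_mul_le_mul_right a3 hGp
  set T := ⌊(R : ℝ) ^ (4 - ε)⌋₊ with hT
  have hTG : (T : ℝ) ≤ (G : ℝ) ^ (4 * e + 10) := by
    have a1 : (T : ℝ) ≤ (R : ℝ) ^ (4 - ε) := Nat.floor_le (by positivity)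
    have hε0 : 0 ≤ ε := by
      by_contra hneg
      have : ε * (((e + 60 : ℕ) : ℝ) - 1) ≤ 0 :=
        mul_nonpos_of_nonpos_of_nonneg (not_le.1 hneg).le (by linarith only [hE'])
      linarith only [this, hε]
    have a2 : (G : ℝ) ^ 230 ≤ (R : ℝ) ^ ε := by
      calc (G : ℝ) ^ 230 = (G : ℝ) ^ ((230 : ℕ) : ℝ) := (Real.rpow_natCast _ _).symm
        _ ≤ (G : ℝ) ^ (((e + 59 : ℕ) : ℝ) * ε) := by
            refine Real.rpow_le_rpow_of_exponent_le hG1 ?_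
            push_cast at hε ⊢
            linarith only [hε]
        _ = ((G : ℝ) ^ (e + 59)) ^ ε := by rw [Real.rpow_mul hGp.le, Real.rpow_natCast]
        _ ≤ _ := Real.rpow_le_rpow (by positivity) g1' hε0
    have a3 : (R : ℝ) ^ (4 - ε) * (R : ℝ) ^ ε = (R : ℝ) ^ 4 := by
      rw [← Real.rpow_add hRp, show 4 - ε + ε = ((4 : ℕ) : ℝ) by push_cast; ring,
        Real.rpow_natCast]
    have a4 : (T : ℝ) * (G : ℝ) ^ 230 ≤ (G : ℝ) ^ (4 * e + 10) * (G : ℝ) ^ 230 := by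
      calc (T : ℝ) * (G : ℝ) ^ 230 ≤ (R : ℝ) ^ (4 - ε) * (R : ℝ) ^ ε :=
            mul_le_mul a1 a2 (by positivity) (by positivity)
        _ = (R : ℝ) ^ 4 := a3
        _ ≤ ((2 * (G : ℝ)) ^ (e + 59)) ^ 4 := pow_le_pow_left₀ hRp.le g2' 4
        _ = 2 ^ (4 * (e + 59)) * (G : ℝ) ^ (4 * (e + 59)) := by
            rw [← pow_mul, mul_pow, mul_comm (e + 59) 4]
        _ ≤ G * (G : ℝ) ^ (4 * (e + 59)) := mul_le_mul_of_nonneg_right g5' (by positivity)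
        _ = (G : ℝ) ^ (4 * (e + 59) + 1) := by ring
        _ ≤ (G : ℝ) ^ (4 * e + 10 + 230) := pow_le_pow_right₀ hG1 (by omega)
        _ = _ := pow_add _ _ _
    exact le_of_mul_le_mul_right a4 (by positivity)
  obtain ⟨a, ha0, ha1, ha2⟩ := hG0 G g3 T hTG n hnG
  have hn1 : 1 ≤ n := le_trans (Nat.one_le_pow _ _ (by omega)) hnG
  have hnp : (0 : ℝ) < n := by exact_mod_cast hn1
  have hη : (R : ℝ) ^ (-δ) = 1 / x := by rw [Real.rpow_neg hRp.le, ← hx, one_div]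
  rw [hη]
  have key := reroot_sum hn1 (fun q d => ENNReal.ofReal (1 / x) < q.escape (q.tail d) T R)
    (fun q q' σ h1 h2 d h => by rwa [escape_iso q q' σ h1 h2]) (fun t => a t / (1 / x))
    (fun q t h => @xcount_markov _ _ (fun d => q.escape (q.tail d) T R) (1 / x) (a t)
      (by positivity) (ha0 t)
      (sep2_escape q t h _ T _ (ha1 t h.1 h.2.1 h.2.2.1) R (by push_cast; exact g1'))
      (fun _ => Classical.propDecidable _))
  rw [← sum_div, div_div_eq_mul_div, div_one] at key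
  rw [card_rooted n hn1]
  set c : ℝ := ((cnt 2 (n - 1) (fun _ => True) : ℕ) : ℝ) with hc
  have c0 : 0 ≤ (n : ℝ) * c := by positivity
  have f1 := mul_le_mul_of_nonneg_right (zslowlarge_fin G x g4' hx0 hx4) c0
  have f2 := mul_le_mul_of_nonneg_right ha2 hx0.le
  refine le_of_mul_le_mul_left (key.trans (f2.trans ?_)) (show 0 < 4 * (n : ℝ) by positivity)
  calc 6 / G * n * c * x = 6 / G * x * (n * c) := by ring
    _ ≤ 4 / x * (n * c) := f1
    _ = _ := by ring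

end Pool.Agent.P.MP_7a6434d8_pr
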