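import Pool.Agent.P.MP_7a6434d8_pr.Defs3
import Pool.Agent.P.MP_7a6434d8_pr.XSpine

namespace Pool.Agent.P.MP_7a6434d8_pr

open Mp Finset
open scoped ENNReal

theorem zspine_disc (m1 : ℕ) (θ : ℝ) (h0 : 0 < θ) (h1 : θ * (m1 + 1) ≤ 1) (j : ℕ) :
    IE j (fun b => ENNReal.ofReal (Real.exp θ) * ENNReal.ofReal (Real.exp (θ * disc m1 b)))
      ≤ ENNReal.ofReal (Real.exp θ *
        (Z j * (1 + 2 * θ * min (((j : ℝ) + 1) ^ 2) ((m1 : ℝ) + 1)))) := by
  rw [IE_const_mul, ENNReal.ofReal_mul (Real.exp_pos _).le]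
  exact mul_le_mul' le_rfl (xspine_disc m1 θ h0 h1 j)

open Classical in
/-- exponential moment of the cost along a branch -/
noncomputable def zspineF (m1 Lm : ℕ) (θ : ℝ) (t : Mp) : ℝ≥0∞ :=
  if AnySub (fun s => Lm < per s) t then 0 else ENNReal.ofReal (Real.exp (θ * pc2 m1 t))

theorem zspine_face (m1 Lm : ℕ) (θ : ℝ) (t : Mp) :
    zspineF m1 Lm θ (face t) ≤ ENNReal.ofReal (Real.exp θ) * zspineF m1 Lm θ t := by
  unfold zspineF
  by_cases h : AnySub (fun s => Lm < per s) (face t)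
  · rw [if_pos h]
    exact zero_le
  · rw [if_neg h, if_neg fun h2 => h (Or.inr h2), ← ENNReal.ofReal_mul (Real.exp_pos _).le,
      ← Real.exp_add]
    simp only [pc2]
    push_cast
    rw [mul_add, mul_one, add_comm]

theorem zspine_bridge (m1 Lm : ℕ) (θ : ℝ) (a b : Mp) :
    zspineF m1 Lm θ (bridge a b)
      ≤ zspineF m1 Lm θ a *
          (ENNReal.ofReal (Real.exp θ) * ENNReal.ofReal (Real.exp (θ * disc m1 b)))
        + zspineF m1 Lm θ b *
          (ENNReal.ofReal (Real.exp θ) * ENNReal.ofReal (Real.exp (θ * disc m1 a))) := by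
  unfold zspineF
  by_cases h : AnySub (fun s => Lm < per s) (bridge a b)
  · rw [if_pos h]
    exact zero_le
  · rw [if_neg h, if_neg fun h2 => h (Or.inr (Or.inl h2)),
      if_neg fun h2 => h (Or.inr (Or.inr h2))]
    simp only [← ENNReal.ofReal_mul (Real.exp_pos _).le, ← Real.exp_add, pc2]
    rcases le_total (pc2 m1 a + disc m1 b) (pc2 m1 b + disc m1 a) with h2 | h2
    · rw [max_eq_right h2]
      push_cast
      refine le_trans (le_of_eq ?_) le_add_self
      congr 2
      ring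
    · rw [max_eq_left h2]
      push_cast
      refine le_trans (le_of_eq ?_) le_self_add
      congr 2
      ring

theorem zspine_ind (m1 Lm : ℕ) (θ : ℝ) (h0 : 0 < θ) (h1 : θ * (m1 + 1) ≤ 1)
    (hn : ∀ L : ℕ, L ≤ Lm → 2 * θ * ∑ j ∈ range L, w j * min (((j : ℝ) + 1) ^ 2) ((m1 : ℝ) + 1)
      + 4 * θ ≤ (2 * (L : ℝ) + 4) / 3 * w L) (N : ℕ) : ∀ L : ℕ,
    IE L (trunc N (zspineF m1 Lm θ)) ≤ ENNReal.ofReal (8 ^ L) := by
  induction N with
  | zero =>
    intro L
    rw [IE_trunc_zero]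
    exact zero_le
  | succ N ih =>
    intro L
    rcases Nat.eq_zero_or_pos L with rfl | hL
    · rw [IE_zero]
      simp only [trunc, zspineF, pc2]
      split_ifs <;> simp
    by_cases hLm : Lm < L
    · refine le_trans (IE_mono (G := trunc 0 (zspineF m1 Lm θ)) fun t _ hp => ?_)
        ((IE_trunc_zero _ _).trans_le zero_le)
      have : zspineF m1 Lm θ t = 0 := by
        unfold zspineF
        rw [if_pos (xspine_self _ t (by rw [hp]; exact hLm))]
      simp only [trunc, this, ite_self, le_refl]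
    refine (IE_root_trunc N L hL _).trans ?_
    set g : ℕ → ℝ := fun j => Real.exp θ *
      (Z j * (1 + 2 * θ * min (((j : ℝ) + 1) ^ 2) ((m1 : ℝ) + 1))) with hg
    have hg0 : ∀ j, 0 ≤ g j := fun j => by
      have := Z_pos j
      have h3 : 0 ≤ min (((j : ℝ) + 1) ^ 2) ((m1 : ℝ) + 1) :=
        le_min (by positivity) (by positivity)
      simp only [hg]
      positivity
    have a1 : IE (L + 1) (trunc N (fun t => zspineF m1 Lm θ (face t)))
        ≤ ENNReal.ofReal (Real.exp θ * 8 ^ (L + 1)) := by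
      refine le_trans (IE_mono (G := fun t => ENNReal.ofReal (Real.exp θ) *
        trunc N (zspineF m1 Lm θ) t) fun t _ _ => ?_) ?_
      · simp only [trunc]
        split_ifs
        · exact zspine_face m1 Lm θ t
        · exact zero_le
      · rw [IE_const_mul, ENNReal.ofReal_mul (Real.exp_pos _).le]
        exact mul_le_mul' le_rfl (ih (L + 1))
    have a2 : ∀ i j : ℕ, IE j (trunc N (fun b => IE i (trunc N
        (fun a => zspineF m1 Lm θ (bridge a b)))))
        ≤ ENNReal.ofReal (8 ^ i * g j + 8 ^ j * g i) := by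
      intro i j
      have h3 : ∀ b : Mp, IE i (trunc N (fun a => zspineF m1 Lm θ (bridge a b)))
          ≤ ENNReal.ofReal (8 ^ i) *
              (ENNReal.ofReal (Real.exp θ) * ENNReal.ofReal (Real.exp (θ * disc m1 b)))
            + zspineF m1 Lm θ b * ENNReal.ofReal (g i) := by
        intro b
        refine le_trans (IE_mono
          (G := fun a => trunc N (zspineF m1 Lm θ) a *
              (ENNReal.ofReal (Real.exp θ) * ENNReal.ofReal (Real.exp (θ * disc m1 b)))
            + zspineF m1 Lm θ b *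
              (ENNReal.ofReal (Real.exp θ) * ENNReal.ofReal (Real.exp (θ * disc m1 a))))
          fun a _ _ => ?_) ?_
        · simp only [trunc]
          split_ifs
          · exact zspine_bridge m1 Lm θ a b
          · exact zero_le
        · rw [IE_add, IE_mul_const, IE_const_mul]
          exact add_le_add (mul_le_mul' (ih i) le_rfl)
            (mul_le_mul' le_rfl (zspine_disc m1 θ h0 h1 i))
      refine le_trans (IE_mono
        (G := fun b => ENNReal.ofReal (8 ^ i) *
            (ENNReal.ofReal (Real.exp θ) * ENNReal.ofReal (Real.exp (θ * disc m1 b)))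
          + trunc N (zspineF m1 Lm θ) b * ENNReal.ofReal (g i)) fun b _ _ => ?_) ?_
      · simp only [trunc]
        split_ifs
        · exact h3 b
        · exact zero_le
      · rw [IE_add, IE_mul_const, IE_const_mul,
          ENNReal.ofReal_add (mul_nonneg (by positivity) (hg0 j))
            (mul_nonneg (by positivity) (hg0 i)),
          ENNReal.ofReal_mul (p := 8 ^ i) (by positivity),
          ENNReal.ofReal_mul (p := 8 ^ j) (q := g i) (by positivity)]
        exact add_le_add (mul_le_mul' le_rfl (zspine_disc m1 θ h0 h1 j))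
          (mul_le_mul' (ih j) le_rfl)
    have hnn : ∀ i j : ℕ, (0 : ℝ) ≤ 8 ^ i * g j + 8 ^ j * g i := fun i j =>
      add_nonneg (mul_nonneg (by positivity) (hg0 j)) (mul_nonneg (by positivity) (hg0 i))
    refine le_trans (add_le_add (mul_le_mul' le_rfl a1) (sum_le_sum fun j _ => a2 _ j)) ?_
    rw [xmom_inv12, ← ENNReal.ofReal_mul (by norm_num),
      ← ENNReal.ofReal_sum_of_nonneg (fun j _ => hnn _ j),
      ← ENNReal.ofReal_add (by positivity) (sum_nonneg fun j _ => hnn _ j)]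
    refine ENNReal.ofReal_le_ofReal ?_
    obtain ⟨m, rfl⟩ : ∃ m, L = m + 1 := ⟨L - 1, by omega⟩
    have s1 : ∑ j ∈ range (m + 1), (8 : ℝ) ^ (m + 1 - 1 - j) * g j
        = Real.exp θ * 8 ^ m * (∑ j ∈ range (m + 1), w j
          + 2 * θ * ∑ j ∈ range (m + 1), w j * min (((j : ℝ) + 1) ^ 2) ((m1 : ℝ) + 1)) := by
      rw [mul_sum, ← sum_add_distrib, mul_sum]
      refine sum_congr rfl fun j hj => ?_
      have hj' := mem_range.1 hj
      have e : (8 : ℝ) ^ m = 8 ^ (m + 1 - 1 - j) * 8 ^ j := by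
        rw [← pow_add]
        congr 1
        omega
      simp only [hg]
      rw [e, Z_eq_w]
      ring
    have s2 : ∑ j ∈ range (m + 1), (8 : ℝ) ^ j * g (m + 1 - 1 - j)
        = ∑ j ∈ range (m + 1), (8 : ℝ) ^ (m + 1 - 1 - j) * g j := by
      rw [← sum_range_reflect]
      refine sum_congr rfl fun j hj => ?_
      have hj' := mem_range.1 hj
      have e : m + 1 - 1 - (m + 1 - 1 - j) = j := by omega
      rw [e]
    rw [sum_add_distrib, s2, s1, sum_w]
    have h5 := mul_le_mul_of_nonneg_left (hn (m + 1) (by omega))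
      (by positivity : (0 : ℝ) ≤ Real.exp θ * 8 ^ m)
    have h6 : Real.exp θ * (1 - θ) ≤ 1 := by
      have h7 := mul_le_mul_of_nonneg_left (Real.add_one_le_exp (-θ)) (Real.exp_pos θ).le
      rw [← Real.exp_add, add_neg_cancel, Real.exp_zero] at h7
      linarith
    have h8 := mul_le_mul_of_nonneg_left h6 (by positivity : (0 : ℝ) ≤ 8 ^ m)
    rw [pow_succ, pow_succ]
    linarith

theorem spine2 : ∃ c : ℝ, 0 < c ∧ ∀ (m1 Lm : ℕ) (θ y : ℝ), 0 < θ → θ * (m1 + 1) ≤ 1 →
    θ * √(√((m1 : ℝ) + 1)) * (((Lm : ℝ) + 1) * √((Lm : ℝ) + 1)) ≤ c → ∀ L,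
    mass L (fun t => ¬ AnySub (fun s => Lm < per s) t ∧ y ≤ (pc2 m1 t : ℝ))
      ≤ Real.exp (-(θ * y)) * 8 ^ L := by
  obtain ⟨c, C, hc, hC, h⟩ := w_bounds
  obtain ⟨D, hD, hS⟩ := xspine_sum
  refine ⟨c / (3 * (D + 2)), by positivity, fun m1 Lm θ y h0 h1 h2 L => ?_⟩
  have hm : (0 : ℝ) ≤ m1 := Nat.cast_nonneg m1
  have hn : ∀ L : ℕ, L ≤ Lm →
      2 * θ * ∑ j ∈ range L, w j * min (((j : ℝ) + 1) ^ 2) ((m1 : ℝ) + 1)
        + 4 * θ ≤ (2 * (L : ℝ) + 4) / 3 * w L := by
    intro L hL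
    have hL0 : (0 : ℝ) ≤ L := Nat.cast_nonneg L
    have hL' : (L : ℝ) + 1 ≤ (Lm : ℝ) + 1 := by exact_mod_cast Nat.succ_le_succ hL
    have hw := w_pos L
    have b1 := hS L ((m1 : ℝ) + 1) (by linarith)
    have b2 := (h L).1
    have b3 : ((L : ℝ) + 1) * √((L : ℝ) + 1) ≤ ((Lm : ℝ) + 1) * √((Lm : ℝ) + 1) :=
      mul_le_mul hL' (Real.sqrt_le_sqrt hL') (Real.sqrt_nonneg _) (by positivity)
    have hp : 0 < ((L : ℝ) + 1) * √((L : ℝ) + 1) := by positivity
    have hq : 0 ≤ θ * √(√((m1 : ℝ) + 1)) := by positivity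
    have b4 := (mul_le_mul_of_nonneg_left b3 hq).trans h2
    rw [le_div_iff₀ (by positivity)] at b4
    have b5 : 3 * (D + 2) * (θ * √(√((m1 : ℝ) + 1))) ≤ w L * ((L : ℝ) + 1) := by
      refine le_of_mul_le_mul_right ?_ hp
      nlinarith
    have b6 := mul_le_mul_of_nonneg_left b1 h0.le
    have b7 := mul_le_mul_of_nonneg_left
      (Real.one_le_sqrt.2 (Real.one_le_sqrt.2 (by linarith : (1 : ℝ) ≤ (m1 : ℝ) + 1))) h0.le
    nlinarith
  have hF : IE L (zspineF m1 Lm θ) ≤ ENNReal.ofReal (8 ^ L) :=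
    IE_le_of_trunc fun N => zspine_ind m1 Lm θ h0 h1 hn N L
  have h3 := IE_markov (φ := fun t => ¬ AnySub (fun s => Lm < per s) t ∧ y ≤ (pc2 m1 t : ℝ))
    (Real.exp_pos (θ * y)) (by positivity) (fun t _ _ ht => by
      unfold zspineF
      rw [if_neg ht.1]
      exact ENNReal.ofReal_le_ofReal
        (Real.exp_le_exp.2 (mul_le_mul_of_nonneg_left ht.2 h0.le))) hF
  rw [Real.exp_neg, mul_comm, ← div_eq_mul_inv]
  exact h3

end Pool.Agent.P.MP_7a6434d8_pr
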