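import Pool.Agent.P.MP_7a6434d8_pr.ZBall
import Pool.Agent.P.MP_7a6434d8_pr.XPiece
import Pool.Agent.P.MP_7a6434d8_pr.XDeg
import Pool.Agent.P.MP_7a6434d8_pr.Main

namespace Pool.Agent.P.MP_7a6434d8_pr

open Mp Finset
open scoped ENNReal

theorem zupprob_ev (c a δ : ℝ) (ha : 0 < a) (hδ : 0 < δ) (k : ℕ) :
    ∀ᶠ R : ℕ in Filter.atTop, c * (R : ℝ) ^ k ≤ Real.exp (δ * (R : ℝ) ^ a) := by
  have h0 := tendsto_rpow_mul_exp_neg_mul_atTop_nhds_zero ((k : ℝ) / a) δ hδ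
  have h1 : Filter.Tendsto (fun n : ℕ => (n : ℝ) ^ a) Filter.atTop Filter.atTop :=
    (tendsto_rpow_atTop ha).comp tendsto_natCast_atTop_atTop
  have h2 := (h0.comp h1).eventually (gt_mem_nhds (show (0 : ℝ) < 1 / (|c| + 1) by positivity))
  filter_upwards [h2, Filter.eventually_ge_atTop 1] with n hn h1n
  have hn0 : (0 : ℝ) < n := by exact_mod_cast h1n
  simp only [Function.comp] at hn
  have e1 : ((n : ℝ) ^ a) ^ ((k : ℝ) / a) = (n : ℝ) ^ k := by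
    rw [← Real.rpow_mul hn0.le, ← Real.rpow_natCast]; congr 1; field_simp
  rw [e1, neg_mul, Real.exp_neg, ← div_eq_mul_inv,
    div_lt_div_iff₀ (Real.exp_pos _) (by positivity), one_mul] at hn
  have e2 : c ≤ |c| + 1 := by have := le_abs_self c; linarith
  calc c * (n : ℝ) ^ k ≤ (|c| + 1) * (n : ℝ) ^ k := by gcongr
    _ = (n : ℝ) ^ k * (|c| + 1) := by ring
    _ ≤ _ := hn.le

theorem zupprob_Bv {L : ℕ} {n : ℝ} (hn : 1 ≤ n) (hL : (L : ℝ) ≤ n) : Bv L ≤ 3 * n ^ 2 := by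
  have hL0 : (0 : ℝ) ≤ L := Nat.cast_nonneg L
  unfold Bv
  calc (L : ℝ) * (L + 2) ≤ n * (n + 2 * n) := by gcongr; linarith
    _ = 3 * n ^ 2 := by ring

theorem zupprob_per (K : ℕ) : ∀ᶠ R : ℕ in Filter.atTop, ∀ L : ℕ,
    mass L (fun s => edges s ≤ R ^ 20 ∧ R ^ 11 < per s) ≤ 1 / (4 * (R : ℝ) ^ K) * Z L := by
  filter_upwards [zupprob_ev (8 * Real.exp 4) 1 (1 / 2) one_pos (by norm_num) K,
    Filter.eventually_ge_atTop 4] with R h1 hR L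
  rw [Real.rpow_one] at h1
  have hR4 : (4 : ℝ) ≤ R := by exact_mod_cast hR
  have hRpos : (0 : ℝ) < R := by linarith
  have hZ := Z_pos L
  by_cases hL : L ≤ R ^ 11
  · rw [mass_eq_zero]
    · positivity
    · rintro t _ hp ⟨_, h2⟩
      omega
  have hP : (4 : ℝ) ≤ (R : ℝ) ^ 10 := hR4.trans (le_self_pow₀ (by linarith) (by omega))
  have hs := small_size (1 / (R : ℝ) ^ 10) (by positivity)
    (one_div_le_one_div_of_le (by norm_num) hP) L (R ^ 20)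
  have hm : mass L (fun s => edges s ≤ R ^ 20 ∧ R ^ 11 < per s)
      ≤ mass L (fun t => size t ≤ R ^ 20) := by
    refine mass_mono fun t ht _ h => ?_
    have := edges_eq t ht
    have := h.1
    omega
  refine hm.trans (hs.trans (mul_le_mul_of_nonneg_right ?_ hZ.le))
  have hL' : (R : ℝ) ^ 11 ≤ L := by exact_mod_cast (not_le.1 hL).le
  have e1 : 4 * (1 / (R : ℝ) ^ 10) ^ 2 * ((R ^ 20 : ℕ) : ℝ) = 4 := by
    push_cast
    field_simp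
  have e2 : (R : ℝ) ≤ 1 / (R : ℝ) ^ 10 * L := by
    rw [one_div, ← div_eq_inv_mul, le_div_iff₀ (by positivity)]
    calc (R : ℝ) * (R : ℝ) ^ 10 = (R : ℝ) ^ 11 := by ring
      _ ≤ (L : ℝ) := hL'
  have e3 : Real.exp (4 * (1 / (R : ℝ) ^ 10) ^ 2 * ((R ^ 20 : ℕ) : ℝ)
      - 1 / (R : ℝ) ^ 10 * L / 2) ≤ Real.exp 4 / Real.exp (1 / 2 * R) := by
    rw [← Real.exp_sub, e1]
    exact Real.exp_le_exp.2 (by linarith)
  have hE : 0 < Real.exp (1 / 2 * (R : ℝ)) := Real.exp_pos _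
  calc 2 * Real.exp _ ≤ 2 * (Real.exp 4 / Real.exp (1 / 2 * R)) := by gcongr
    _ ≤ 1 / (4 * (R : ℝ) ^ K) := by
      rw [← mul_div_assoc, div_le_div_iff₀ hE (by positivity)]
      linarith

theorem zupprob_deg (η : ℝ) (hη : 0 < η) (K : ℕ) : ∀ᶠ R : ℕ in Filter.atTop, ∀ L : ℕ,
    mass L (fun s => edges s ≤ R ^ 20 ∧ ¬ MaxDeg s ((⌊(R : ℝ) ^ (η / 2)⌋₊ : ℕ) : ℝ))
      ≤ 1 / (4 * (R : ℝ) ^ K) * Z L := by
  filter_upwards [zupprob_ev (36 * Real.exp (1 / 8)) (η / 2) (1 / 8) (by positivity)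
    (by norm_num) (60 + K), Filter.eventually_ge_atTop 1] with R h1 hR L
  have hR1 : (1 : ℝ) ≤ R := by exact_mod_cast hR
  have hRpos : (0 : ℝ) < R := by linarith
  have hZ := Z_pos L
  by_cases hL : R ^ 20 < L
  · rw [mass_eq_zero]
    · positivity
    · rintro t ht hp ⟨h2, _⟩
      have := edges_eq t ht
      omega
  have hL' : (L : ℝ) ≤ (R : ℝ) ^ 20 := by exact_mod_cast not_lt.1 hL
  have hP : (1 : ℝ) ≤ (R : ℝ) ^ 20 := one_le_pow₀ hR1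
  set D := ⌊(R : ℝ) ^ (η / 2)⌋₊ with hD
  have hs := maxdeg_tail (R ^ 20) D L
  have hm : mass L (fun s => edges s ≤ R ^ 20 ∧ ¬ MaxDeg s (D : ℝ))
      ≤ mass L (fun t => ¬ MaxDeg t D ∧ size t + per t ≤ R ^ 20) := by
    refine mass_mono fun t ht _ h => ⟨h.2, ?_⟩
    have := edges_eq t ht
    have := h.1
    omega
  refine hm.trans (hs.trans ?_)
  have hB := zupprob_Bv hP hL'
  have hB0 : 0 ≤ Bv L := by unfold Bv; positivity
  have e1 : (7 / 8 : ℝ) ^ D ≤ Real.exp (1 / 8) / Real.exp (1 / 8 * (R : ℝ) ^ (η / 2)) := by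
    have a1 : (7 / 8 : ℝ) ≤ Real.exp (-(1 / 8)) := by
      have := Real.add_one_le_exp (-(1 / 8) : ℝ); linarith
    have a2 : (R : ℝ) ^ (η / 2) < (D : ℝ) + 1 := Nat.lt_floor_add_one _
    calc (7 / 8 : ℝ) ^ D ≤ (Real.exp (-(1 / 8))) ^ D := by gcongr
      _ = Real.exp (D * -(1 / 8)) := by rw [← Real.exp_nat_mul]
      _ ≤ _ := by
        rw [← Real.exp_sub]
        exact Real.exp_le_exp.2 (by linarith)
  have e2 : (2 * ((R ^ 20 : ℕ) : ℝ) + 1) ≤ 3 * (R : ℝ) ^ 20 := by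
    push_cast; linarith
  have hE : 0 < Real.exp (1 / 8 * (R : ℝ) ^ (η / 2)) := Real.exp_pos _
  calc (2 * ((R ^ 20 : ℕ) : ℝ) + 1) * (7 / 8) ^ D * (Bv L * Z L)
      ≤ (3 * (R : ℝ) ^ 20) * (Real.exp (1 / 8) / Real.exp (1 / 8 * (R : ℝ) ^ (η / 2)))
        * (3 * ((R : ℝ) ^ 20) ^ 2 * Z L) := by gcongr
    _ = (9 * Real.exp (1 / 8) * (R : ℝ) ^ 60 / Real.exp (1 / 8 * (R : ℝ) ^ (η / 2))) * Z L := by
        ring
    _ ≤ 1 / (4 * (R : ℝ) ^ K) * Z L := by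
      refine mul_le_mul_of_nonneg_right ?_ hZ.le
      rw [div_le_div_iff₀ hE (by positivity)]
      calc 9 * Real.exp (1 / 8) * (R : ℝ) ^ 60 * (4 * (R : ℝ) ^ K)
          = 36 * Real.exp (1 / 8) * (R : ℝ) ^ (60 + K) := by ring
        _ ≤ _ := by rw [one_mul]; exact h1

theorem zupprob_ball (η : ℝ) (hη : 0 < η) (K : ℕ) : ∀ᶠ R : ℕ in Filter.atTop, ∀ L : ℕ,
    mass L (fun s => edges s ≤ R ^ 20 ∧ ∃ v, ⌊(R : ℝ) ^ (4 + η / 2)⌋₊ + 1 ≤ ballC s v R)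
      ≤ 1 / (4 * (R : ℝ) ^ K) * Z L := by
  obtain ⟨C, hC, h8⟩ := xpiece_eight
  filter_upwards [zupprob_ev (64 * C) (η / 2) (1 / 192) (by positivity)
    (by norm_num) (80 + K), Filter.eventually_ge_atTop 2] with R h1 hR L
  have hR2 : (2 : ℝ) ≤ R := by exact_mod_cast hR
  have hR1 : (1 : ℝ) ≤ R := by linarith
  have hRpos : (0 : ℝ) < R := by linarith
  have hZ := Z_pos L
  by_cases hL : R ^ 20 < L
  · rw [mass_eq_zero]
    · positivity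
    · rintro t ht hp ⟨h2, _⟩
      have := edges_eq t ht
      omega
  have hL' : (L : ℝ) ≤ (R : ℝ) ^ 20 := by exact_mod_cast not_lt.1 hL
  have hP : (1 : ℝ) ≤ (R : ℝ) ^ 20 := one_le_pow₀ hR1
  set c := ⌊(R : ℝ) ^ (4 + η / 2)⌋₊ with hc
  refine (ball_tailL L (R ^ 20) R c).trans ?_
  set x := (R : ℝ) ^ (η / 2) with hx
  have hx1 : 1 ≤ x := Real.one_le_rpow hR1 (by positivity)
  have e0 : (R : ℝ) ^ (4 + η / 2) = (R : ℝ) ^ 4 * x := by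
    rw [Real.rpow_add hRpos, hx]; norm_cast
  have hR4 : (16 : ℝ) ≤ (R : ℝ) ^ 4 := by
    calc (16 : ℝ) = 2 ^ 4 := by norm_num
      _ ≤ _ := by gcongr
  have e1 : (R : ℝ) ^ 4 * x / 2 ≤ c := by
    have a2 : (R : ℝ) ^ (4 + η / 2) < (c : ℝ) + 1 := Nat.lt_floor_add_one _
    rw [e0] at a2
    have a3 : (16 : ℝ) * 1 ≤ (R : ℝ) ^ 4 * x := by gcongr
    linarith
  have e2 : ((R : ℝ) + 2) ^ 4 ≤ 16 * (R : ℝ) ^ 4 := by
    calc ((R : ℝ) + 2) ^ 4 ≤ (2 * R) ^ 4 := by gcongr; linarith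
      _ = _ := by ring
  have e3 : 1 / 192 * x ≤ (c : ℝ) / (6 * ((R : ℝ) + 2) ^ 4) := by
    rw [le_div_iff₀ (by positivity)]
    calc 1 / 192 * x * (6 * ((R : ℝ) + 2) ^ 4) ≤ 1 / 192 * x * (6 * (16 * (R : ℝ) ^ 4)) := by
          gcongr
      _ = (R : ℝ) ^ 4 * x / 2 := by ring
      _ ≤ c := e1
  have e4 : Real.exp (-((c : ℝ) / (6 * ((R : ℝ) + 2) ^ 4))) ≤ 1 / Real.exp (1 / 192 * x) := by
    rw [one_div (Real.exp _), ← Real.exp_neg]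
    exact Real.exp_le_exp.2 (by linarith)
  have e5 : (((R ^ 20 : ℕ) : ℝ) + 1) ≤ 2 * (R : ℝ) ^ 20 := by
    push_cast; linarith
  have e6 : (8 : ℝ) ^ L ≤ C * (2 * (R : ℝ) ^ 20) ^ 3 * Z L := by
    refine (h8 L).trans ?_
    have : (L : ℝ) + 1 ≤ 2 * (R : ℝ) ^ 20 := by linarith
    gcongr
  have hE : 0 < Real.exp (1 / 192 * x) := Real.exp_pos _
  calc (((R ^ 20 : ℕ) : ℝ) + 1) * 8 ^ L * Real.exp _
      ≤ (2 * (R : ℝ) ^ 20) * (C * (2 * (R : ℝ) ^ 20) ^ 3 * Z L) * (1 / Real.exp (1 / 192 * x)) := by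
        gcongr
    _ = (16 * C * (R : ℝ) ^ 80 / Real.exp (1 / 192 * x)) * Z L := by ring
    _ ≤ 1 / (4 * (R : ℝ) ^ K) * Z L := by
      refine mul_le_mul_of_nonneg_right ?_ hZ.le
      rw [div_le_div_iff₀ hE (by positivity)]
      calc 16 * C * (R : ℝ) ^ 80 * (4 * (R : ℝ) ^ K) = 64 * C * (R : ℝ) ^ (80 + K) := by ring
        _ ≤ _ := by rw [one_mul]; exact h1

theorem zupprob_far (η : ℝ) (hη : 0 < η) (K : ℕ) : ∀ᶠ R : ℕ in Filter.atTop, ∀ L : ℕ,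
    mass L (fun s => edges s ≤ R ^ 20 ∧ FarV s ((R : ℝ) ^ η)) ≤ 1 / (4 * (R : ℝ) ^ K) * Z L := by
  obtain ⟨C8, hC8, h8⟩ := xpiece_eight
  obtain ⟨C, δ, hC, hδ, hlev⟩ := level
  obtain ⟨n1, hn1⟩ := asymp NearHyp C δ hC hδ nearHyp_mono nearHyp_base nearHyp_triv hlev
    (η / 60) (by positivity) (K + 3)
  obtain ⟨γ, hγ0, hγ, hrad⟩ := rad
  obtain ⟨n2, hn2⟩ := Filter.eventually_atTop.1
    (main_ev2 (η / 60) γ (1 / C8) (by positivity) hγ0 hγ (by positivity) (K + 3))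
  have h1 : Filter.Tendsto (fun n : ℕ => (n : ℝ) ^ (η / 3)) Filter.atTop Filter.atTop :=
    (tendsto_rpow_atTop (by positivity)).comp tendsto_natCast_atTop_atTop
  filter_upwards [h1.eventually_ge_atTop 2, Filter.eventually_ge_atTop n1,
    Filter.eventually_ge_atTop n2, Filter.eventually_ge_atTop 48] with R e1 e2 e3 hR L
  have hR48 : (48 : ℝ) ≤ R := by exact_mod_cast hR
  have hR1 : (1 : ℝ) ≤ R := by linarith
  have hRpos : (0 : ℝ) < R := by linarith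
  have hZ := Z_pos L
  by_cases hL : R ^ 20 < L
  · rw [mass_eq_zero]
    · positivity
    · rintro t ht hp ⟨h2, _⟩
      have := edges_eq t ht
      omega
  have hRn : R ≤ R ^ 20 := Nat.le_self_pow (by norm_num) R
  obtain ⟨n, hn⟩ : ∃ n, n = R ^ 20 := ⟨_, rfl⟩
  rw [← hn] at hL hRn ⊢
  have hL' : (L : ℝ) ≤ n := by exact_mod_cast not_lt.1 hL
  have hRn' : (R : ℝ) ≤ n := by exact_mod_cast hRn
  have hP : (1 : ℝ) ≤ n := hR1.trans hRn'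
  have hnpos : (0 : ℝ) < n := by linarith
  have hρR : (n : ℝ) ^ (η / 60) = (R : ℝ) ^ (η / 3) := by
    rw [hn]; push_cast
    rw [← Real.rpow_natCast, ← Real.rpow_mul hRpos.le]; congr 1; push_cast; ring
  have hnear := hn1 n (by omega)
  have hg := hn2 n (by omega)
  set G := ⌈(n : ℝ) ^ (η / 60)⌉₊ with hG
  have hceil : (G : ℝ) ≤ 2 * (n : ℝ) ^ (η / 60) := by
    have a1 := Nat.ceil_lt_add_one (show 0 ≤ (n : ℝ) ^ (η / 60) by positivity)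
    rw [← hG] at a1
    rw [hρR] at a1 ⊢
    linarith
  set ρ := (n : ℝ) ^ (η / 60) with hρ
  have hρ2 : 2 ≤ ρ := by rw [hρR]; exact e1
  have hρ0 : 0 < ρ := by linarith
  have hGρ : G * ρ ≤ (R : ℝ) ^ η := by
    have a1 : (R : ℝ) ^ η = ρ ^ 3 := by
      rw [hρR, ← Real.rpow_natCast, ← Real.rpow_mul hRpos.le]; congr 1; push_cast; ring
    rw [a1]
    calc G * ρ ≤ (2 * ρ) * ρ := by gcongr
      _ ≤ (ρ * ρ) * ρ := by gcongr
      _ = ρ ^ 3 := by ring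
  have hm := hrad n (n + 5) G ρ (1 / (n : ℝ) ^ (K + 3)) (by omega) hρ0 (by positivity) hnear L
  have hm2 : mass L (fun s => edges s ≤ n ∧ FarV s ((R : ℝ) ^ η))
      ≤ mass L (fun t => FarV t (G * ρ) ∧ size t + per t ≤ n) := by
    refine mass_mono fun t ht _ h => ⟨?_, ?_⟩
    · obtain ⟨f, v, a1, a2, a3⟩ := h.2
      exact ⟨f, v, a1, a2, hGρ.trans a3⟩
    · have := edges_eq t ht
      have := h.1
      omega
  refine hm2.trans (hm.trans ?_)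
  have hB := zupprob_Bv hP hL'
  have hB0 : 0 ≤ Bv L := by unfold Bv; positivity
  have hK : (R : ℝ) ^ K ≤ (n : ℝ) ^ K := by gcongr
  have e6 : (8 : ℝ) ^ L ≤ C8 * (2 * (n : ℝ)) ^ 3 * Z L := by
    refine (h8 L).trans ?_
    have : (L : ℝ) + 1 ≤ 2 * (n : ℝ) := by linarith
    gcongr
  have b0 : γ ^ G ≤ 1 / (64 * C8 * (n : ℝ) ^ (K + 3)) := by
    rw [le_div_iff₀ (by positivity)]
    rw [le_div_iff₀ hC8] at hg
    linarith
  have b1 : γ ^ G * 8 ^ L ≤ 1 / (8 * (R : ℝ) ^ K) * Z L := by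
    calc γ ^ G * 8 ^ L ≤ 1 / (64 * C8 * (n : ℝ) ^ (K + 3)) * (C8 * (2 * (n : ℝ)) ^ 3 * Z L) := by
          gcongr
      _ = 1 / (8 * (n : ℝ) ^ K) * Z L := by field_simp; ring
      _ ≤ _ := by gcongr
  have b2 : 2 * (1 / (n : ℝ) ^ (K + 3)) * (Bv L * Z L) ≤ 1 / (8 * (R : ℝ) ^ K) * Z L := by
    calc 2 * (1 / (n : ℝ) ^ (K + 3)) * (Bv L * Z L)
        ≤ 2 * (1 / (n : ℝ) ^ (K + 3)) * (3 * (n : ℝ) ^ 2 * Z L) := by gcongr
      _ = (48 / n) * (1 / (8 * (n : ℝ) ^ K)) * Z L := by field_simp; ring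
      _ ≤ 1 * (1 / (8 * (R : ℝ) ^ K)) * Z L := by
          gcongr
          rw [div_le_one hnpos]; linarith
      _ = _ := by rw [one_mul]
  have b3 : 1 / (4 * (R : ℝ) ^ K) * Z L
      = 1 / (8 * (R : ℝ) ^ K) * Z L + 1 / (8 * (R : ℝ) ^ K) * Z L := by
    field_simp; ring
  linarith

theorem up_prob (η : ℝ) (hη : 0 < η) (K : ℕ) : ∃ R0 : ℕ, ∀ R : ℕ, R0 ≤ R → ∀ L : ℕ,
    mass L (fun s => edges s ≤ R ^ 20 ∧ ¬ (per s ≤ R ^ 11 ∧ MaxDeg s ((R : ℝ) ^ η) ∧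
        (∀ x, ballVol s R x ≤ (R : ℝ) ^ (4 + η)) ∧ ¬ FarV s ((R : ℝ) ^ η)))
      ≤ 1 / (R : ℝ) ^ K * Z L := by
  have ev := (zupprob_per K).and ((zupprob_deg η hη K).and ((zupprob_ball η hη K).and
    ((zupprob_far η hη K).and (Filter.eventually_ge_atTop 1))))
  obtain ⟨R0, hR0⟩ := Filter.eventually_atTop.1 ev
  refine ⟨R0, fun R hR L => ?_⟩
  obtain ⟨h1, h2, h3, h4, h5⟩ := hR0 R hR
  have hR1 : (1 : ℝ) ≤ R := by exact_mod_cast h5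
  have hRpos : (0 : ℝ) < R := by linarith
  set A : Mp → Prop := fun s => edges s ≤ R ^ 20 ∧ R ^ 11 < per s with hA
  set B : Mp → Prop := fun s => edges s ≤ R ^ 20 ∧
    ¬ MaxDeg s ((⌊(R : ℝ) ^ (η / 2)⌋₊ : ℕ) : ℝ) with hB
  set C : Mp → Prop := fun s => edges s ≤ R ^ 20 ∧
    ∃ v, ⌊(R : ℝ) ^ (4 + η / 2)⌋₊ + 1 ≤ ballC s v R with hC
  set D : Mp → Prop := fun s => edges s ≤ R ^ 20 ∧ FarV s ((R : ℝ) ^ η) with hD
  have m1 : mass L (fun s => A s ∨ B s) ≤ mass L A + mass L B := mass_le_add fun _ _ _ h => h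
  have m2 : mass L (fun s => C s ∨ D s) ≤ mass L C + mass L D := mass_le_add fun _ _ _ h => h
  have m3 : mass L (fun s => edges s ≤ R ^ 20 ∧ ¬ (per s ≤ R ^ 11 ∧ MaxDeg s ((R : ℝ) ^ η) ∧
        (∀ x, ballVol s R x ≤ (R : ℝ) ^ (4 + η)) ∧ ¬ FarV s ((R : ℝ) ^ η)))
      ≤ mass L (fun s => A s ∨ B s) + mass L (fun s => C s ∨ D s) := by
    refine mass_le_add fun t _ _ h => ?_
    obtain ⟨he, hn⟩ := h
    by_contra hcon
    rw [not_or, not_or, not_or] at hcon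
    obtain ⟨⟨c1, c2⟩, c3, c4⟩ := hcon
    have d1 : per t ≤ R ^ 11 := by
      by_contra d; exact c1 ⟨he, not_le.1 d⟩
    have d2 : MaxDeg t ((⌊(R : ℝ) ^ (η / 2)⌋₊ : ℕ) : ℝ) := by
      by_contra d; exact c2 ⟨he, d⟩
    have d3 : ∀ v, ballC t v R ≤ ⌊(R : ℝ) ^ (4 + η / 2)⌋₊ := fun v => by
      by_contra d; exact c3 ⟨he, v, by omega⟩
    have d4 : ¬ FarV t ((R : ℝ) ^ η) := fun d => c4 ⟨he, d⟩
    have f1 : ((⌊(R : ℝ) ^ (η / 2)⌋₊ : ℕ) : ℝ) ≤ (R : ℝ) ^ (η / 2) := Nat.floor_le (by positivity)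
    have f2 : (R : ℝ) ^ (η / 2) ≤ (R : ℝ) ^ η :=
      Real.rpow_le_rpow_of_exponent_le hR1 (by linarith)
    refine hn ⟨d1, fun x => (d2 x).trans (f1.trans f2), fun x => ?_, d4⟩
    have f3 : (ballC t x R : ℝ) ≤ (R : ℝ) ^ (4 + η / 2) :=
      le_trans (by exact_mod_cast d3 x) (Nat.floor_le (by positivity))
    calc ballVol t R x ≤ _ := ballVol_le d2 R x
      _ ≤ (R : ℝ) ^ (η / 2) * (R : ℝ) ^ (4 + η / 2) := by gcongr
      _ = _ := by rw [← Real.rpow_add hRpos]; congr 1; ring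
  have b3 : 1 / (R : ℝ) ^ K * Z L = 4 * (1 / (4 * (R : ℝ) ^ K) * Z L) := by
    field_simp
  have := h1 L
  have := h2 L
  have := h3 L
  have := h4 L
  linarith

end Pool.Agent.P.MP_7a6434d8_pr
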